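import Pool.Statements.S00046
import Pool.Agent.Results.MP_172a5c_ag.ModifiedKouchnirenkoFails

set_option autoImplicit false
open Pool Pool.MP_172a5c_ag

namespace Pool.Agent.S00046

/-- The negation of the preceding statement: Any real system f(x,y)=g(x,y)=0, with f having m₁ and g having m₂ monomials, has at most (2m₁−1)(2m₂−1) real solutions with nonzero Jacobian, and this number is attained for all m₁, m₂ ≥ 1. -/
theorem result :
    ¬ ((∀ (f g : MvPolynomial (Fin 2) ℝ) (S : Finset (Fin 2 → ℝ)),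
      (∀ p ∈ S, MvPolynomial.eval p f = 0 ∧ MvPolynomial.eval p g = 0 ∧
        MvPolynomial.eval p (MvPolynomial.pderiv 0 f) * MvPolynomial.eval p (MvPolynomial.pderiv 1 g) -
          MvPolynomial.eval p (MvPolynomial.pderiv 1 f) * MvPolynomial.eval p (MvPolynomial.pderiv 0 g) ≠ 0) →
      S.card ≤ (2 * f.support.card - 1) * (2 * g.support.card - 1)) ∧
    (∀ m₁ m₂ : ℕ, 1 ≤ m₁ → 1 ≤ m₂ →
      ∃ f g : MvPolynomial (Fin 2) ℝ, f.support.card = m₁ ∧ g.support.card = m₂ ∧
        ∃ S : Finset (Fin 2 → ℝ), S.card = (2 * m₁ - 1) * (2 * m₂ - 1) ∧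
          ∀ p ∈ S, MvPolynomial.eval p f = 0 ∧ MvPolynomial.eval p g = 0 ∧
            MvPolynomial.eval p (MvPolynomial.pderiv 0 f) * MvPolynomial.eval p (MvPolynomial.pderiv 1 g) -
              MvPolynomial.eval p (MvPolynomial.pderiv 1 f) * MvPolynomial.eval p (MvPolynomial.pderiv 0 g) ≠ 0)) := by
  rintro ⟨h, -⟩
  obtain ⟨h1, h2, S, h3, h4⟩ :=
    Pool.Agent.Results.MP_172a5c_ag.ModifiedKouchnirenkoFails.counterexample
  have h5 := h _ _ S h4
  rw [h1, h2, h3] at h5
  norm_num at h5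

end Pool.Agent.S00046
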