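import Pool.Statements.S00082
import Pool.Agent.Results.MP_260cc8_ag.RealCounterexample

set_option autoImplicit false
open Pool Pool.MP_260cc8_ag

namespace Pool.Agent.S00082

/-- generators of an ideal as an ideal and as a module -/
theorem gens_iff {R : Type} [CommRing R] (J : Ideal R) (m : ℕ) :
    (∃ f : Fin m → R, Ideal.span (Set.range f) = J) ↔
      ∃ v : Fin m → J, Submodule.span R (Set.range v) = ⊤ := by
  constructor
  · rintro ⟨f, hf⟩
    have hmem : ∀ i, f i ∈ J := fun i => by
      rw [← hf]; exact Ideal.subset_span ⟨i, rfl⟩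
    refine ⟨fun i => ⟨f i, hmem i⟩, ?_⟩
    apply Submodule.map_injective_of_injective (f := J.subtype) (Submodule.injective_subtype J)
    rw [Submodule.map_span, Submodule.map_top, Submodule.range_subtype, ← Set.range_comp]
    exact hf
  · rintro ⟨v, hv⟩
    refine ⟨fun i => (v i : R), ?_⟩
    have h := congrArg (Submodule.map J.subtype) hv
    rw [Submodule.map_span, Submodule.map_top, Submodule.range_subtype, ← Set.range_comp] at h
    exact h

/-- The negation of the preceding statement: For every field k, every n ≥ 1 and every proper ideal I of k[X_1..X_n], the least number of generators of I equals the least number of generators of the R-module I/I². -/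
theorem result :
    ¬ (∀ (k : Type) [Field k] (n : ℕ), 1 ≤ n →
      ∀ I : Ideal (MvPolynomial (Fin n) k), I ≠ ⊤ →
        sInf {m : ℕ | ∃ f : Fin m → MvPolynomial (Fin n) k,
            Ideal.span (Set.range f) = I} =
        sInf {m : ℕ | ∃ g : Fin m → I.Cotangent,
            Submodule.span (MvPolynomial (Fin n) k) (Set.range g) = ⊤}) := by
  intro h
  have h1 := h ℝ 5 (by norm_num) Results.MP_260cc8_ag.RealCounterexample.J
    Results.MP_260cc8_ag.RealCounterexample.J_ne_top
  have h2 : sInf {m : ℕ | ∃ f : Fin m → MvPolynomial (Fin 5) ℝ,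
      Ideal.span (Set.range f) = Results.MP_260cc8_ag.RealCounterexample.J} = 4 := by
    have h3 := Results.MP_260cc8_ag.RealCounterexample.mu_J
    unfold Results.MP_260cc8_ag.RealCounterexample.mu at h3
    rw [← h3]
    congr 1
    ext m
    exact gens_iff _ m
  have h4 : sInf {m : ℕ | ∃ g : Fin m → Results.MP_260cc8_ag.RealCounterexample.J.Cotangent,
      Submodule.span (MvPolynomial (Fin 5) ℝ) (Set.range g) = ⊤} = 3 :=
    Results.MP_260cc8_ag.RealCounterexample.mu_cot
  rw [h2, h4] at h1
  omega

end Pool.Agent.S00082
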