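import Pool.Statements.S00142
import Pool.Agent.W416.Cusp.Main

set_option autoImplicit false
open Pool Pool.MP_3ba528_ag

namespace Pool.Agent.S00142

/-- The negation of the preceding statement: For real plane curves of degree d, the max number of real ordinary cusps (A2 points: singular, rank-1 Hessian, nonzero cubic term along its kernel) divided by d^2 has limsup exactly 1/4. -/
theorem result :
    ¬ ((∀ ε : ℝ, 0 < ε → ∃ N : ℕ, ∀ d : ℕ, N ≤ d →
      ∀ f : MvPolynomial (Fin 2) ℝ, f.totalDegree = d →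
      ∀ S : Finset (Fin 2 → ℝ),
        (∀ p ∈ S,
          MvPolynomial.eval p f = 0 ∧
          (∀ i : Fin 2, MvPolynomial.eval p (MvPolynomial.pderiv i f) = 0) ∧
          (∃ i j : Fin 2,
            MvPolynomial.eval p (MvPolynomial.pderiv i (MvPolynomial.pderiv j f)) ≠ 0) ∧
          (∃ v : Fin 2 → ℝ, v ≠ 0 ∧
            (∀ i : Fin 2, ∑ j : Fin 2,
              MvPolynomial.eval p (MvPolynomial.pderiv i (MvPolynomial.pderiv j f)) * v j = 0) ∧
            (∑ i : Fin 2, ∑ j : Fin 2, ∑ k : Fin 2,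
              v i * v j * v k *
                MvPolynomial.eval p (MvPolynomial.pderiv i
                  (MvPolynomial.pderiv j (MvPolynomial.pderiv k f)))) ≠ 0)) →
        (S.card : ℝ) ≤ (1 / 4 + ε) * (d : ℝ) ^ 2) ∧
    (∀ ε : ℝ, 0 < ε → ∀ N : ℕ, ∃ d : ℕ, N ≤ d ∧
      ∃ f : MvPolynomial (Fin 2) ℝ, f.totalDegree = d ∧
      ∃ S : Finset (Fin 2 → ℝ),
        (∀ p ∈ S,
          MvPolynomial.eval p f = 0 ∧
          (∀ i : Fin 2, MvPolynomial.eval p (MvPolynomial.pderiv i f) = 0) ∧
          (∃ i j : Fin 2,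
            MvPolynomial.eval p (MvPolynomial.pderiv i (MvPolynomial.pderiv j f)) ≠ 0) ∧
          (∃ v : Fin 2 → ℝ, v ≠ 0 ∧
            (∀ i : Fin 2, ∑ j : Fin 2,
              MvPolynomial.eval p (MvPolynomial.pderiv i (MvPolynomial.pderiv j f)) * v j = 0) ∧
            (∑ i : Fin 2, ∑ j : Fin 2, ∑ k : Fin 2,
              v i * v j * v k *
                MvPolynomial.eval p (MvPolynomial.pderiv i
                  (MvPolynomial.pderiv j (MvPolynomial.pderiv k f)))) ≠ 0)) ∧
        (1 / 4 - ε) * (d : ℝ) ^ 2 ≤ (S.card : ℝ))) := by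
  intro h
  exact Pool.Agent.W416.Cusp.main h.1

end Pool.Agent.S00142
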