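import Pool.Statements.S00159
import Pool.Agent.W480.RedDegInf

set_option autoImplicit false
open Pool Pool.MP_429595_ag

namespace Pool.Agent.S00159

/-- For every algebraically closed field and every N ≥ 1 there is γ > 0 such that every dominant rational self-map of projective N-space has dynamical degree at least γ times the minimum of deg(f^{k+1})/deg(f^k) over k < N. -/
theorem result :
    ∀ (K : Type) [Field K] [IsAlgClosed K] (N : ℕ), 1 ≤ N →
      ∃ γ : ℝ, 0 < γ ∧
        ∀ (f : Fin (N+1) → MvPolynomial (Fin (N+1)) K) (d : ℕ),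
          (∀ i, (f i).IsHomogeneous d) → AlgebraicIndependent K f →
          ∀ D : ℕ → ℕ,
            (∀ n, D n = sInf {e : ℕ | ∃ (g : Fin (N+1) → MvPolynomial (Fin (N+1)) K)
                (c : MvPolynomial (Fin (N+1)) K), c ≠ 0 ∧
                (∀ i, ((fun h : Fin (N+1) → MvPolynomial (Fin (N+1)) K =>
                    fun j => MvPolynomial.bind₁ h (f j))^[n] MvPolynomial.X) i = c * g i) ∧
                ∀ i, (g i).totalDegree ≤ e}) →
            ∀ δ : ℝ, Filter.Tendsto (fun n : ℕ => ((D n : ℝ)) ^ ((1:ℝ) / (n:ℝ)))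
                Filter.atTop (nhds δ) →
              ∃ k < N, γ * ((D (k+1) : ℝ) / (D k : ℝ)) ≤ δ := by
  intro K _ _ N hN
  obtain ⟨γ, hγ, hmain⟩ := Pool.Agent.Helper993.CS.main_inf N hN
  refine ⟨γ, hγ, fun f d hf hdom D hD δ hδ => ?_⟩
  have : Infinite K := inferInstance
  obtain ⟨D', hpos, hD', δ', hδ', hb⟩ := hmain K d f hf hdom
  have hne : ∀ n, Pool.Agent.Helper993.CS.iter f n 0 ≠ 0 := by
    intro n
    obtain ⟨F, _, _, x, φ, hx, hit⟩ := Pool.Agent.Helper993.CS.funfield d f hf hdom
    intro h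
    apply (hit n).1
    rw [h, map_zero]
  have hDD : D = D' := by
    funext n
    rw [hD n]
    rw [Pool.Agent.W480.iterate_eq_iter]
    exact Pool.Agent.W480.redDeg_sInf _ (hne n) _ (hD' n).1
  subst hDD
  have hδδ : δ = δ' := tendsto_nhds_unique hδ hδ'
  subst hδδ
  by_contra hcon
  push Not at hcon
  obtain ⟨k0, hk0, hmin⟩ := Finset.exists_min_image (Finset.range N)
    (fun j => (D (j + 1) : ℝ) / D j) (Finset.nonempty_range_iff.mpr (by omega))
  have h1 := hb ((D (k0 + 1) : ℝ) / D k0) (fun j hj => by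
    have h2 := hmin j (Finset.mem_range.mpr hj)
    have h3 : (0 : ℝ) < D j := by exact_mod_cast hpos j
    calc _ ≤ (D (j + 1) : ℝ) / D j * D j := mul_le_mul_of_nonneg_right h2 h3.le
      _ = D (j + 1) := div_mul_cancel₀ _ h3.ne')
  exact absurd h1 (not_le.mpr (hcon k0 (Finset.mem_range.mp hk0)))

end Pool.Agent.S00159
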