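import Pool.Statements.S00164
import Pool.Agent.Results.MP_450528_ag.SeveralRealCriticalPoints

set_option autoImplicit false
open Pool Pool.MP_450528_ag

namespace Pool.Agent.S00164

open Pool.Agent.Results.MP_450528_ag.SeveralRealCriticalPoints in
/-- the derivative of the rank-one parametrisation in the format `M × 2` -/
theorem deriv_eq {M : ℕ} (a b : ∀ k : Fin 2, Fin (fmt M k) → ℂ) (I : ∀ k : Fin 2, Fin (fmt M k)) :
    (∑ k : Fin 2, b k (I k) * ∏ j ∈ Finset.univ.erase k, a j (I j)) =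
      (tens (fstv b) (sndv a) + tens (fstv a) (sndv b)) I := by
  rw [Fin.sum_univ_two]
  have h0 : (Finset.univ.erase (0 : Fin 2)) = {1} := by decide
  have h1 : (Finset.univ.erase (1 : Fin 2)) = {0} := by decide
  rw [h0, h1, Finset.prod_singleton, Finset.prod_singleton]
  show b 0 (I 0) * a 1 (I 1) + b 1 (I 1) * a 0 (I 0) = b 0 (I 0) * a 1 (I 1) + a 0 (I 0) * b 1 (I 1)
  ring

open Pool.Agent.Results.MP_450528_ag.SeveralRealCriticalPoints in
theorem critSet_iff {M : ℕ} (T x : Tensor ℂ (fmt M)) : x ∈ critSet T ↔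
     ((∑ I : ((k : Fin 2) → Fin (fmt M k)), x I) = 1 ∧ ∃ a : (k : Fin 2) → Fin (fmt M k) → ℂ,
        (∀ I : ((k : Fin 2) → Fin (fmt M k)), x I = ∏ k : Fin 2, a k (I k)) ∧
        ∀ b : (k : Fin 2) → Fin (fmt M k) → ℂ,
          (∑ I : ((k : Fin 2) → Fin (fmt M k)),
              (∑ k : Fin 2, b k (I k) * ∏ j ∈ Finset.univ.erase k, a j (I j))) = 0 →
          (∑ I : ((k : Fin 2) → Fin (fmt M k)), (x I - T I) *
              (∑ k : Fin 2, b k (I k) * ∏ j ∈ Finset.univ.erase k, a j (I j))) = 0) := by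
  simp_rw [deriv_eq]
  constructor
  · rintro ⟨⟨⟨a, rfl⟩, hs⟩, hc⟩
    refine ⟨hs, a, fun I => rfl, fun b hb => ?_⟩
    refine hc (tens (fstv b) (sndv a) + tens (fstv a) (sndv b)) ⟨?_, hb⟩
    refine Submodule.add_mem _ (Submodule.subset_span ⟨a, 0, b 0, rfl, ?_⟩)
      (Submodule.subset_span ⟨a, 1, b 1, rfl, ?_⟩)
    · rw [rankOne_eq]
      rfl
    · rw [rankOne_eq]
      rfl
  · rintro ⟨hs, a, ha, hc⟩
    have hx : x = rankOne a := funext ha
    subst hx
    rw [rankOne_eq] at hs hc ⊢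
    obtain ⟨p, hp⟩ : ∃ p, p = fstv a := ⟨_, rfl⟩
    obtain ⟨q, hq⟩ : ∃ q, q = sndv a := ⟨_, rfl⟩
    rw [← hp, ← hq] at hs hc ⊢
    have hst := hs
    rw [sum_tens] at hst
    set s : ℂ := ∑ i, p i with hsd
    have hs0 : s ≠ 0 := left_ne_zero_of_mul_eq_one hst
    have h1 : tens p q = tens (s⁻¹ • p) (s • q) := by
      rw [tens_smul_left, tens_smul_right, smul_smul, inv_mul_cancel₀ hs0, one_smul]
    have h2 : ∑ i, (s⁻¹ • p) i = 1 := by
      simp only [Pi.smul_apply, smul_eq_mul]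
      rw [← Finset.mul_sum, ← hsd, inv_mul_cancel₀ hs0]
    have h3 : (s • q) 0 + (s • q) 1 = 1 := by
      simp only [Pi.smul_apply, smul_eq_mul]
      rw [← mul_add, hst]
    refine ⟨(mem_XH _).2 ⟨s⁻¹ • p, s • q, h2, h3, h1⟩, ?_⟩
    rintro y ⟨hy, hy0⟩
    rw [h1, mem_segreTangent h2 h3] at hy
    obtain ⟨a', b', rfl⟩ := hy
    have h4 : tens a' (s • q) + tens (s⁻¹ • p) b' =
        tens (fstv (pr (s • a') (s⁻¹ • b'))) q + tens p (sndv (pr (s • a') (s⁻¹ • b'))) := by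
      show tens a' (s • q) + tens (s⁻¹ • p) b' = tens (s • a') q + tens p (s⁻¹ • b')
      rw [tens_smul_right, tens_smul_left, tens_smul_left, tens_smul_right]
    rw [h4] at hy0 ⊢
    exact hc (pr (s • a') (s⁻¹ • b')) hy0

/-- The negation of the preceding statement: For all d≥2, m_k≥2: if a nonnegative real tensor with entry sum 1 has exactly N distinct critical points of squared distance on rank-one tensors with entry sum 1 (N = generic count), exactly one is real. -/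
theorem result :
    ¬ (∀ (d : ℕ) (m : Fin d → ℕ), 2 ≤ d → (∀ k, 2 ≤ m k) →
  ∀ (Crit : (((k : Fin d) → Fin (m k)) → ℂ) → Set (((k : Fin d) → Fin (m k)) → ℂ)),
  (∀ (T x : ((k : Fin d) → Fin (m k)) → ℂ), x ∈ Crit T ↔
     ((∑ I : ((k : Fin d) → Fin (m k)), x I) = 1 ∧ ∃ a : (k : Fin d) → Fin (m k) → ℂ,
        (∀ I : ((k : Fin d) → Fin (m k)), x I = ∏ k : Fin d, a k (I k)) ∧
        ∀ b : (k : Fin d) → Fin (m k) → ℂ,
          (∑ I : ((k : Fin d) → Fin (m k)),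
              (∑ k : Fin d, b k (I k) * ∏ j ∈ Finset.univ.erase k, a j (I j))) = 0 →
          (∑ I : ((k : Fin d) → Fin (m k)), (x I - T I) *
              (∑ k : Fin d, b k (I k) * ∏ j ∈ Finset.univ.erase k, a j (I j))) = 0)) →
  ∀ N : ℕ,
  (∃ P : MvPolynomial ((k : Fin d) → Fin (m k)) ℂ, P ≠ 0 ∧
     ∀ T : ((k : Fin d) → Fin (m k)) → ℂ, MvPolynomial.eval T P ≠ 0 →
       (Crit T).Finite ∧ (Crit T).ncard = N) →
  ∀ T : ((k : Fin d) → Fin (m k)) → ℝ, (∀ I : ((k : Fin d) → Fin (m k)), 0 ≤ T I) →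
    (∑ I : ((k : Fin d) → Fin (m k)), T I) = 1 →
    (Crit (fun I : ((k : Fin d) → Fin (m k)) => (T I : ℂ))).Finite →
    (Crit (fun I : ((k : Fin d) → Fin (m k)) => (T I : ℂ))).ncard = N →
    {x : ((k : Fin d) → Fin (m k)) → ℂ |
        x ∈ Crit (fun I : ((k : Fin d) → Fin (m k)) => (T I : ℂ)) ∧
        ∀ I : ((k : Fin d) → Fin (m k)), (x I).im = 0}.ncard = 1) := by
  intro h
  obtain ⟨⟨Φ, ⟨T0, -, hT0⟩, hΦ⟩, V, -, ⟨T, hTV, hTpos, hTsum⟩, hV⟩ :=
    Pool.Agent.Results.MP_450528_ag.SeveralRealCriticalPoints.result 23 le_rfl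
  obtain ⟨hT5, hT3⟩ := hV T hTV
  have hfin : ∀ {α : Type} {S : Set α}, S.encard = ((5 : ℕ) : ℕ∞) → S.Finite ∧ S.ncard = 5 := by
    intro α S hS
    have h1 : S.Finite := Set.finite_of_encard_eq_coe hS
    refine ⟨h1, ?_⟩
    rw [Set.ncard, hS]
    rfl
  have h2 := h 2 (Pool.Agent.Results.MP_450528_ag.SeveralRealCriticalPoints.fmt 23) le_rfl
    (fun k => by fin_cases k <;> decide)
    (fun T => Pool.Agent.Results.MP_450528_ag.SeveralRealCriticalPoints.critSet T)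
    (fun T x => critSet_iff T x) 5
    ⟨Φ, fun h0 => hT0 (by rw [h0, map_zero]), fun T hT => hfin (hΦ T hT)⟩
    T (fun I => (hTpos I).le) hTsum (hfin hT5).1 (hfin hT5).2
  have h3 : (Pool.Agent.Results.MP_450528_ag.SeveralRealCriticalPoints.realCritSet T).ncard = 1 := h2
  have h4 : (Pool.Agent.Results.MP_450528_ag.SeveralRealCriticalPoints.realCritSet T).Finite :=
    (hfin hT5).1.subset fun x hx => hx.1
  rw [← h4.cast_ncard_eq, h3] at hT3
  norm_num at hT3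

end Pool.Agent.S00164
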