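import Pool.Statements.S00192
import Pool.Agent.W500.CurveK

set_option autoImplicit false
open Pool Pool.MP_522d9f_ag

namespace Pool.Agent.S00192

open Pool.Agent.W500.Curve MvPolynomial

/-- scaling of forms -/
lemma eval_smul {K : Type} [Field K] {s : ℕ} {g : MvPolynomial (Fin 3) K} (hg : g.IsHomogeneous s)
    (a : K) (v : Fin 3 → K) : eval (a • v) g = a ^ s * eval v g := by
  rw [eval_eq', eval_eq', Finset.mul_sum]
  refine Finset.sum_congr rfl fun d hd => ?_
  have h := hg (mem_support_iff.mp hd)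
  have h' : d 0 + d 1 + d 2 = s := by
    rw [← h, Finsupp.weight_apply, Finsupp.sum_fintype _ _ (by simp)]
    simp [Fin.sum_univ_three]
  rw [← h']
  simp only [Fin.prod_univ_three, Pi.smul_apply, smul_eq_mul]
  ring

/-- The counterexample over an algebraically closed field `K` containing `ℤ_[109]`: `n = 2`,
`r = 2`; `W` consists of 45 points lying on no octic, all of them (at least) triple points of a
curve of degree `18 < 2 * 9 + 1`. -/
theorem counter (K : Type) [Field K] [IsAlgClosed K] [CharZero K] (φ : ℤ_[109] →+* K)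
    (hφ : Function.Injective φ) :
    ∃ W : Finset (Projectivization K (Fin (2 + 1) → K)), W.Nonempty ∧
      (∃ f : MvPolynomial (Fin (2 + 1)) K, f ≠ 0 ∧ f.IsHomogeneous 18 ∧
            f ∈ ⨅ P ∈ W, (Ideal.span {h : MvPolynomial (Fin (2 + 1)) K |
                ∃ d : ℕ, h.IsHomogeneous d ∧ MvPolynomial.eval P.rep h = 0}) ^ 3) ∧
      ∀ s : ℕ, s ≤ 8 → ∀ g : MvPolynomial (Fin (2 + 1)) K, g.IsHomogeneous s →
              g ∈ ⨅ P ∈ W, Ideal.span {h : MvPolynomial (Fin (2 + 1)) K |
                ∃ d : ℕ, h.IsHomogeneous d ∧ MvPolynomial.eval P.rep h = 0} → g = 0 := by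
  classical
  obtain ⟨c, x, y, hjet, hc, hx, hy⟩ := exists_sol
  -- a cube root of unity
  obtain ⟨w, hw⟩ : ∃ w : K, w ^ 2 + w + 1 = 0 := by
    have hdeg : (Polynomial.X ^ 2 + Polynomial.X + 1 : Polynomial K).degree ≠ 0 := by
      have : (Polynomial.X ^ 2 + Polynomial.X + 1 : Polynomial K).degree = 2 := by
        compute_degree!
      rw [this]; norm_num
    obtain ⟨w, hw⟩ := IsAlgClosed.exists_root _ hdeg
    refine ⟨w, ?_⟩
    simpa [Polynomial.IsRoot] using hw
  have hw3 : w ^ 3 = 1 := by linear_combination (w - 1) * hw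
  -- the points
  let pt : Fin 15 × Fin 3 → (Fin 3 → K) :=
    fun qv => ![w ^ (qv.2 : ℕ) * φ (x qv.1), w ^ (2 * (qv.2 : ℕ)) * φ (y qv.1), 1]
  have hpt : ∀ qv, pt qv ≠ 0 := by
    intro qv h
    have := congrFun h 2
    simp [pt] at this
  let W : Finset (Projectivization K (Fin (2 + 1) → K)) :=
    Finset.univ.image (fun qv => Projectivization.mk K (pt qv) (hpt qv))
  -- jets vanish
  have hj : ∀ qv : Fin 15 × Fin 3, ∀ a b, a + b ≤ 2 →
      jet (fun m => φ (c m)) (w ^ (qv.2 : ℕ) * φ (x qv.1)) (w ^ (2 * (qv.2 : ℕ)) * φ (y qv.1)) a b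
        = 0 := by
    intro qv a b hab
    apply jet_conj _ _ _ _ hw3
    have h1 : ∃ s < 6, JA s = a ∧ JB s = b := by
      have ha : a ≤ 2 := by omega
      have hb : b ≤ 2 := by omega
      interval_cases a <;> interval_cases b <;> first | omega | skip
      · exact ⟨0, by norm_num, rfl, rfl⟩
      · exact ⟨2, by norm_num, rfl, rfl⟩
      · exact ⟨5, by norm_num, rfl, rfl⟩
      · exact ⟨1, by norm_num, rfl, rfl⟩
      · exact ⟨4, by norm_num, rfl, rfl⟩
      · exact ⟨3, by norm_num, rfl, rfl⟩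
    obtain ⟨s, hs, rfl, rfl⟩ := h1
    have h2 := congrArg φ (hjet qv.1 qv.1.2 s hs)
    rw [map_zero] at h2
    rw [← h2]
    simp only [jet, mon, map_sum, map_mul, map_pow, map_natCast]
  -- the curve
  let F : MvPolynomial (Fin 3) K :=
    ∑ m ∈ Finset.range 64, C (φ (c m)) * (X 0 ^ ti m * X 1 ^ tj m * X 2 ^ (18 - ti m - tj m))
  have hFhom : F.IsHomogeneous 18 := by
    apply IsHomogeneous.sum
    intro m _
    obtain ⟨h1, _⟩ := tij m
    have h2 : (X 0 ^ ti m * X 1 ^ tj m * X 2 ^ (18 - ti m - tj m) :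
        MvPolynomial (Fin 3) K).IsHomogeneous (ti m + tj m + (18 - ti m - tj m)) :=
      ((isHomogeneous_X_pow _ _).mul (isHomogeneous_X_pow _ _)).mul (isHomogeneous_X_pow _ _)
    rw [show ti m + tj m + (18 - ti m - tj m) = 18 by omega] at h2
    have h3 := (isHomogeneous_C (Fin 3) (φ (c m))).mul h2
    rwa [zero_add] at h3
  have hF0 : F ≠ 0 := by
    intro h
    have h1 : eval ![0, 0, 1] F = φ (c 0) := by
      simp only [F, map_sum, map_mul, map_pow, eval_C, eval_X]
      rw [Finset.sum_eq_single 0]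
      · have h2 : ti 0 = 0 := by decide +kernel
        have h3 : tj 0 = 0 := by decide +kernel
        simp [h2, h3]
      · intro m hm hm0
        have h4 : ∀ m < 64, m ≠ 0 → ti m ≠ 0 ∨ tj m ≠ 0 := by decide +kernel
        rcases h4 m (Finset.mem_range.mp hm) hm0 with h5 | h5
        · simp [h5]
        · simp [h5]
      · intro h; simp at h
    rw [h, map_zero] at h1
    have h2 : c 0 = 0 := hφ (by rw [← h1, map_zero])
    have h3 := hc 0
    rw [h2, zero_sub, dvd_neg] at h3
    have h4 : ((109 : ℕ) : ℤ_[109]) ^ 2 ∣ ((tc 0 : ℤ) : ℤ_[109]) := by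
      simpa using h3
    rw [PadicInt.pow_p_dvd_int_iff] at h4
    have h5 : ¬ ((109 : ℕ) : ℤ) ^ 2 ∣ (tc 0 : ℤ) := by decide +kernel
    exact h5 h4
  -- representatives
  have hrep : ∀ P ∈ W, ∃ qv, ∃ l : K, l ≠ 0 ∧ P.rep = l • pt qv := by
    intro P hP
    obtain ⟨qv, _, rfl⟩ := Finset.mem_image.mp hP
    obtain ⟨a, ha⟩ := Projectivization.exists_smul_eq_mk_rep K (pt qv) (hpt qv)
    exact ⟨qv, (a : K), a.ne_zero, ha.symm⟩
  refine ⟨W, ?_, ⟨F, hF0, hFhom, ?_⟩, ?_⟩
  · exact ⟨_, Finset.mem_image_of_mem _ (Finset.mem_univ ((0 : Fin 15), (0 : Fin 3)))⟩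
  · simp only [Submodule.mem_iInf]
    intro P hP
    obtain ⟨qv, l, hl, hPl⟩ := hrep P hP
    set I := Ideal.span {h : MvPolynomial (Fin (2 + 1)) K |
                ∃ d : ℕ, h.IsHomogeneous d ∧ MvPolynomial.eval P.rep h = 0} with hI
    set α := w ^ (qv.2 : ℕ) * φ (x qv.1) with hα
    set β := w ^ (2 * (qv.2 : ℕ)) * φ (y qv.1) with hβ
    have hptv : pt qv = ![α, β, 1] := rfl
    have hu : X 0 - C α * X 2 ∈ I := by
      refine Ideal.subset_span ⟨1, ?_, ?_⟩
      · have h1 := (isHomogeneous_X K (0 : Fin 3))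
        have h2 := (isHomogeneous_C (Fin 3) α).mul (isHomogeneous_X K (2 : Fin 3))
        rw [zero_add] at h2
        exact h1.sub h2
      · rw [hPl, hptv]
        simp
        ring
    have hv : X 1 - C β * X 2 ∈ I := by
      refine Ideal.subset_span ⟨1, ?_, ?_⟩
      · have h1 := (isHomogeneous_X K (1 : Fin 3))
        have h2 := (isHomogeneous_C (Fin 3) β).mul (isHomogeneous_X K (2 : Fin 3))
        rw [zero_add] at h2
        exact h1.sub h2
      · rw [hPl, hptv]
        simp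
        ring
    have key := curve_mem I (X 0 - C α * X 2) (X 1 - C β * X 2) hu hv (C α) (C β) (X 2)
      (fun m => C (φ (c m))) (by
        intro a b hab
        have h1 := congrArg (C (σ := Fin 3) (R := K)) (hj qv a b hab)
        rw [map_zero] at h1
        rw [← h1]
        simp only [jet, mon, map_sum, map_mul, map_pow, map_natCast, hα, hβ])
    simpa [F] using key
  · intro s hs g hg hgm
    apply form_zero φ hφ w hw x y hx hy hg hs
    intro q hq v hv
    have hP : Projectivization.mk K (pt (⟨q, hq⟩, ⟨v, hv⟩)) (hpt _) ∈ W :=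
      Finset.mem_image_of_mem _ (Finset.mem_univ _)
    simp only [Submodule.mem_iInf] at hgm
    have h1 := hgm _ hP
    obtain ⟨a, ha⟩ := Projectivization.exists_smul_eq_mk_rep K (pt (⟨q, hq⟩, ⟨v, hv⟩)) (hpt _)
    have h2 : eval (Projectivization.mk K (pt (⟨q, hq⟩, ⟨v, hv⟩)) (hpt _)).rep g = 0 := by
      rw [← RingHom.mem_ker]
      refine (Ideal.span_le.mpr ?_) h1
      rintro h ⟨d, _, hd⟩
      exact hd
    rw [← ha] at h2
    have h3 : eval (a • pt (⟨q, hq⟩, ⟨v, hv⟩)) g = (a : K) ^ s * eval (pt (⟨q, hq⟩, ⟨v, hv⟩)) g := by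
      have h4 : ((a : K) • pt (⟨q, hq⟩, ⟨v, hv⟩) : Fin 3 → K) = a • pt (⟨q, hq⟩, ⟨v, hv⟩) := rfl
      rw [← h4]
      exact eval_smul hg _ _
    rw [h3] at h2
    exact (mul_eq_zero.mp h2).resolve_left (pow_ne_zero _ a.ne_zero)

/-- The negation of the preceding statement: For every algebraically closed field of characteristic 0, n≥1, nonempty finite point set W in projective n-space and r≥1, the least degree of a nonzero form vanishing to order rn−(n−1) at all points of W is at least r·α(W)+(r−1)(n−1). -/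
theorem result :
    ¬ (∀ (k : Type) [Field k] [IsAlgClosed k] [CharZero k] (n : ℕ), 1 ≤ n →
      ∀ (W : Finset (Projectivization k (Fin (n + 1) → k))), W.Nonempty →
        ∀ r : ℕ, 1 ≤ r → ∀ t : ℕ,
          (∃ f : MvPolynomial (Fin (n + 1)) k, f ≠ 0 ∧ f.IsHomogeneous t ∧
            f ∈ ⨅ P ∈ W, (Ideal.span {h : MvPolynomial (Fin (n + 1)) k |
                ∃ d : ℕ, h.IsHomogeneous d ∧ MvPolynomial.eval P.rep h = 0}) ^ ((r - 1) * n + 1)) →
          ∃ s : ℕ,
            (∃ g : MvPolynomial (Fin (n + 1)) k, g ≠ 0 ∧ g.IsHomogeneous s ∧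
              g ∈ ⨅ P ∈ W, Ideal.span {h : MvPolynomial (Fin (n + 1)) k |
                ∃ d : ℕ, h.IsHomogeneous d ∧ MvPolynomial.eval P.rep h = 0}) ∧
            r * s + (r - 1) * (n - 1) ≤ t) := by
  intro H
  have : CharZero (AlgebraicClosure ℚ_[109]) :=
    charZero_of_injective_algebraMap (algebraMap ℚ_[109] (AlgebraicClosure ℚ_[109])).injective
  obtain ⟨W, hW, hf, hg⟩ := counter (AlgebraicClosure ℚ_[109])
    ((algebraMap ℚ_[109] (AlgebraicClosure ℚ_[109])).comp PadicInt.Coe.ringHom)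
    (((algebraMap ℚ_[109] (AlgebraicClosure ℚ_[109])).injective).comp Subtype.coe_injective)
  obtain ⟨s, ⟨g, hg0, hgh, hgm⟩, hs⟩ := H (AlgebraicClosure ℚ_[109]) 2 (by norm_num) W hW 2
    (by norm_num) 18 hf
  exact hg0 (hg s (by omega) g hgh hgm)

end Pool.Agent.S00192
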