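import Pool.Statements.S00201
import Pool.Agent.H737R3.Points

set_option autoImplicit false
open Pool Pool.MP_5c592f_ag

namespace Pool.Agent.S00201

open MvPolynomial Pool.Agent.Chud Pool.Agent.H580C

section

variable {k : Type} [Field k] {N : ℕ}

/-- the linear functional with coefficients `h` -/
noncomputable def fn (h : Fin (N + 1) → k) : (Fin (N + 1) → k) →ₗ[k] k :=
  ∑ i, h i • LinearMap.proj i

theorem fn_apply (h x : Fin (N + 1) → k) : fn h x = ∑ i, h i * x i := by
  simp [fn]

theorem fn_ne_zero {h : Fin (N + 1) → k} (hh : h ≠ 0) : fn h ≠ 0 := by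
  classical
  intro h0
  apply hh
  funext i
  have := LinearMap.congr_fun h0 (Pi.single i 1)
  rw [fn_apply, Finset.sum_eq_single i] at this
  · simpa using this
  · intro j _ hj
    simp [hj]
  · intro hi
    exact absurd (Finset.mem_univ i) hi

theorem fn_mk (h x : Fin (N + 1) → k) (hx : x ≠ 0) :
    fn h (Projectivization.mk k x hx).rep = 0 ↔ fn h x = 0 := by
  obtain ⟨a, ha⟩ := (Projectivization.mk_eq_mk_iff' k _ _ hx
    (Projectivization.mk k x hx).rep_nonzero).1
    (by rw [Projectivization.mk_rep])
  have ha0 : a ≠ 0 := by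
    rintro rfl
    rw [zero_smul] at ha
    exact hx ha.symm
  have h1 : fn h x = a * fn h (Projectivization.mk k x hx).rep := by
    rw [← smul_eq_mul, ← map_smul, ha]
  rw [h1]
  constructor
  · intro h2
    rw [h2, mul_zero]
  · intro h2
    exact (mul_eq_zero.1 h2).resolve_left ha0

theorem OnH_iff (h p : PP k N) : OnH h p ↔ fn h.rep p.rep = 0 := by
  rw [fn_apply]
  rfl

/-- dimension of the common kernel of dependent functionals -/
theorem ker_dim {s : ℕ} (c : Fin s → ((Fin (N + 1) → k) →ₗ[k] k)) (T : Finset (Fin s))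
    (h : ¬ LinearIndepOn k c (T : Set (Fin s))) :
    ∃ K : Submodule k (Fin (N + 1) → k), (∀ x ∈ K, ∀ j ∈ T, c j x = 0) ∧
      N + 2 ≤ Module.finrank k K + T.card := by
  classical
  set W : Submodule k (Module.Dual k (Fin (N + 1) → k)) :=
    Submodule.span k (Set.range fun j : T => c j) with hW
  refine ⟨W.dualCoannihilator, ?_, ?_⟩
  · intro x hx j hj
    rw [Submodule.mem_dualCoannihilator] at hx
    exact hx _ (Submodule.subset_span ⟨⟨j, hj⟩, rfl⟩)
  · have h1 := Subspace.finrank_add_finrank_dualCoannihilator_eq W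
    rw [Module.finrank_fin_fun] at h1
    have h2 : Module.finrank k W < T.card := by
      by_contra hcon
      push Not at hcon
      apply h
      have h3 : LinearIndependent k (fun j : T => c j) := by
        rw [linearIndependent_iff_card_le_finrank_span, Fintype.card_coe]
        exact hcon
      exact h3
    omega

end

section

variable {k : Type} [Field k] [IsAlgClosed k] {N : ℕ}

open Classical in
theorem star_indep (S H : Finset (PP k N)) (hHN : N ≤ H.card)
    (hle : ∀ p : PP k N, (H.filter (fun h => OnH h p)).card ≤ N)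
    (hS : ∀ p : PP k N, p ∈ S ↔ (H.filter (fun h => OnH h p)).card = N)
    (t : Finset (Fin H.card)) (ht : t.card ≤ N + 1) :
    LinearIndepOn k (fun j => fn ((H.equivFin.symm j : PP k N)).rep) (t : Set (Fin H.card)) := by
  set c : Fin H.card → ((Fin (N + 1) → k) →ₗ[k] k) :=
    fun j => fn ((H.equivFin.symm j : PP k N)).rep with hc
  -- the number of hyperplanes through a point
  have hcount : ∀ (T : Finset (Fin H.card)) (x : Fin (N + 1) → k) (hx : x ≠ 0),
      (∀ j ∈ T, c j x = 0) →
      T.card ≤ (H.filter (fun h => OnH h (Projectivization.mk k x hx))).card := by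
    intro T x hx hT
    refine Finset.card_le_card_of_injOn (fun j => (H.equivFin.symm j : PP k N)) ?_ ?_
    · intro j hj
      rw [Finset.mem_coe, Finset.mem_filter]
      refine ⟨(H.equivFin.symm j).2, ?_⟩
      rw [OnH_iff, fn_mk]
      exact hT j hj
    · intro j _ j' _ hjj
      exact H.equivFin.symm.injective (Subtype.ext hjj)
  rcases Nat.lt_or_ge N H.card with hlt | hge
  · obtain ⟨T, htT, hT⟩ := Finset.exists_superset_card_eq ht (by simpa using hlt)
    by_contra hcon
    have hTn : ¬ LinearIndepOn k c (T : Set (Fin H.card)) :=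
      fun h => hcon (h.mono (by exact_mod_cast htT))
    obtain ⟨K, hK, hKd⟩ := ker_dim c T hTn
    have hK1 : 0 < Module.finrank k K := by omega
    obtain ⟨x, hxK, hx0⟩ := (Submodule.ne_bot_iff K).1 (by
      intro h0
      rw [h0, finrank_bot] at hK1
      exact lt_irrefl _ hK1)
    have h1 := hcount T x hx0 (hK x hxK)
    have h2 := hle (Projectivization.mk k x hx0)
    omega
  · have hcard : H.card = N := le_antisymm hge hHN
    by_contra hcon
    have hTn : ¬ LinearIndepOn k c ((Finset.univ : Finset (Fin H.card)) : Set (Fin H.card)) :=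
      fun h => hcon (h.mono (by simp))
    obtain ⟨K, hK, hKd⟩ := ker_dim c Finset.univ hTn
    rw [Finset.card_univ, Fintype.card_fin, hcard] at hKd
    have hK1 : 2 ≤ Module.finrank k K := by omega
    obtain ⟨x, hxK, hx0⟩ := (Submodule.ne_bot_iff K).1 (by
      intro h0
      rw [h0, finrank_bot] at hK1
      omega)
    obtain ⟨y, hyK, hy⟩ : ∃ y ∈ K, y ∉ Submodule.span k {x} := by
      by_contra hall
      push Not at hall
      have h1 : K ≤ Submodule.span k {x} := hall
      have h2 := Submodule.finrank_mono h1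
      have h3 := finrank_span_singleton (K := k) hx0
      omega
    have hxy : ∀ a : k, y + a • x ≠ 0 := by
      intro a h0
      apply hy
      rw [Submodule.mem_span_singleton]
      exact ⟨-a, by rw [neg_smul]; exact (eq_neg_of_add_eq_zero_left h0).symm⟩
    have hinj : Function.Injective (fun a : k => Projectivization.mk k (y + a • x) (hxy a)) := by
      intro a b hab
      beta_reduce at hab
      rw [Projectivization.mk_eq_mk_iff'] at hab
      obtain ⟨u, hu⟩ := hab
      by_contra hne
      have h1 : (u - 1) • y = (a - u * b) • x := by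
        have : u • y + (u * b) • x = y + a • x := by rw [← hu, smul_add, smul_smul]
        rw [sub_smul, sub_smul, one_smul, sub_eq_sub_iff_add_eq_add, this]
        exact add_comm y (a • x)
      by_cases hu1 : u = 1
      · rw [hu1, sub_self, zero_smul, one_mul] at h1
        rcases smul_eq_zero.1 h1.symm with h2 | h2
        · exact hne (sub_eq_zero.1 h2)
        · exact hx0 h2
      · apply hy
        rw [Submodule.mem_span_singleton]
        refine ⟨(u - 1)⁻¹ * (a - u * b), ?_⟩
        rw [mul_smul, ← h1, smul_smul, inv_mul_cancel₀ (sub_ne_zero.2 hu1), one_smul]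
    have hmem : ∀ a : k, Projectivization.mk k (y + a • x) (hxy a) ∈ S := by
      intro a
      rw [hS]
      have h1 := hcount Finset.univ (y + a • x) (hxy a) (fun j hj =>
        hK _ (K.add_mem hyK (K.smul_mem a hxK)) j hj)
      rw [Finset.card_univ, Fintype.card_fin, hcard] at h1
      exact le_antisymm (hle _) h1
    have hinf : Infinite k := inferInstance
    exact (Set.infinite_range_of_injective hinj) (S.finite_toSet.subset (by
      rintro _ ⟨a, rfl⟩
      exact hmem a))

end

/-- Over an algebraically closed field, if a finite set S of points in projective N-space has a(S,m)/m = (a(S,1)+N-1)/N for some m ≥ 1, then S lies in a hyperplane or S is the star configuration of s ≥ N hyperplanes in general position. -/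
theorem result :
  ∀ (k : Type) [Field k] [IsAlgClosed k] (N : ℕ), 1 ≤ N →
  ∀ (S : Finset (Projectivization k (Fin (N+1) → k))) (a : ℕ → ℕ),
    (∀ m : ℕ, 1 ≤ m → IsLeast {d : ℕ | ∃ F : MvPolynomial (Fin (N+1)) k, F ≠ 0 ∧ F.IsHomogeneous d ∧
        ∀ p ∈ S, F ∈ (Ideal.span {G : MvPolynomial (Fin (N+1)) k |
            G.IsHomogeneous 1 ∧ MvPolynomial.eval p.rep G = 0}) ^ m} (a m)) →
    (∃ m : ℕ, 1 ≤ m ∧ ((a m : ℚ) / (m : ℚ) = ((a 1 : ℚ) + (N : ℚ) - 1) / (N : ℚ))) →
    (∃ φ : (Fin (N+1) → k) →ₗ[k] k, φ ≠ 0 ∧ ∀ p ∈ S, φ p.rep = 0) ∨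
    (∃ (s : ℕ) (c : Fin s → ((Fin (N+1) → k) →ₗ[k] k)), N ≤ s ∧
      (∀ t : Finset (Fin s), t.card ≤ N + 1 → LinearIndepOn k c (t : Set (Fin s))) ∧
      ∀ p : Projectivization k (Fin (N+1) → k),
        p ∈ S ↔ N ≤ {j : Fin s | c j p.rep = 0}.ncard) := by
  classical
  intro k _ _ N hN S a ha ⟨m, hm, hma⟩
  have haS : ∀ m : ℕ, 1 ≤ m → a m = aS S m := by
    intro m hm
    have h1 : {d : ℕ | ∃ F : MvPolynomial (Fin (N+1)) k, F ≠ 0 ∧ F.IsHomogeneous d ∧
        ∀ p ∈ S, F ∈ (Ideal.span {G : MvPolynomial (Fin (N+1)) k |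
            G.IsHomogeneous 1 ∧ MvPolynomial.eval p.rep G = 0}) ^ m} =
        {d | ∃ F : MvPolynomial (Fin (N + 1)) k, F ≠ 0 ∧ F.IsHomogeneous d ∧
          ∀ p ∈ S, VanishAt F m p} := by
      ext d
      constructor
      · rintro ⟨F, hF0, hF, hv⟩
        exact ⟨F, hF0, hF, fun p hp => Ideal.pow_right_mono
          (Pool.Agent.H737R3.linI_le_mI _) _ (hv p hp)⟩
      · rintro ⟨F, hF0, hF, hv⟩
        exact ⟨F, hF0, hF, fun p hp => Pool.Agent.H737R3.mem_linI_pow hF p.rep_nonzero
          (hv p hp)⟩
    have h2 := ha m hm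
    rw [h1] at h2
    exact le_antisymm (h2.2 (Nat.sInf_mem ⟨_, h2.1⟩)) (Nat.sInf_le h2.1)
  rw [haS m hm, haS 1 le_rfl] at hma
  have hma' : (aS S m : ℝ) / m = ((aS S 1 : ℝ) + N - 1) / N := by
    have h0 := congrArg (fun x : ℚ => (x : ℝ)) hma
    beta_reduce at h0
    rw [Rat.cast_div, Rat.cast_div, Rat.cast_sub, Rat.cast_add, Rat.cast_natCast, Rat.cast_natCast,
      Rat.cast_natCast, Rat.cast_natCast, Rat.cast_one] at h0
    exact h0
  rcases Pool.Agent.H580C.equality hN S m hm hma' with ⟨h, hh⟩ | ⟨H, hHN, hle, hHS⟩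
  · left
    refine ⟨fn h.rep, fn_ne_zero h.rep_nonzero, ?_⟩
    intro p hp
    exact (OnH_iff h p).1 (hh p hp)
  · right
    refine ⟨H.card, fun j => fn ((H.equivFin.symm j : PP k N)).rep, hHN, ?_, ?_⟩
    · exact star_indep S H hHN (fun p => by convert hle p) (fun p => by convert hHS p)
    · intro p
      rw [hHS p]
      have h1 : {j : Fin H.card | fn ((H.equivFin.symm j : PP k N)).rep p.rep = 0}.ncard =
          (H.filter (fun h => OnH h p)).card := by
        rw [← Set.ncard_coe_finset (H.filter (fun h => OnH h p))]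
        refine Set.ncard_congr (fun j _ => (H.equivFin.symm j : PP k N)) ?_ ?_ ?_
        · intro j hj
          rw [Finset.mem_coe, Finset.mem_filter]
          exact ⟨(H.equivFin.symm j).2, (OnH_iff _ _).2 hj⟩
        · intro i j _ _ hij
          exact H.equivFin.symm.injective (Subtype.ext hij)
        · intro b hb
          rw [Finset.mem_coe, Finset.mem_filter] at hb
          refine ⟨H.equivFin ⟨b, hb.1⟩, ?_, ?_⟩
          · rw [Set.mem_ofPred_eq, Equiv.symm_apply_apply]
            exact (OnH_iff _ _).1 hb.2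
          · rw [Equiv.symm_apply_apply]
      rw [h1]
      have h2 : (H.filter (fun h => OnH h p)).card ≤ N := by convert hle p
      constructor
      · intro h3
        have h4 : (H.filter (fun h => OnH h p)).card = N := by convert h3
        exact h4.ge
      · intro h3
        have h4 : (H.filter (fun h => OnH h p)).card = N := le_antisymm h2 h3
        convert h4

end Pool.Agent.S00201
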