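import Pool.Statements.S00249
import Pool.Agent.H737R3.Points

set_option autoImplicit false
open Pool Pool.MP_70675a_ag

namespace Pool.Agent.S00249

/-- Over an algebraically closed field of char 0, for n≥1, any nonempty finite set W of points in P^n and r≥1, every nonzero degree-d form vanishing to order rn at all points of W has d ≥ r·α(W) + r(n−1). -/
theorem result :
    ∀ (k : Type) [Field k] [IsAlgClosed k] [CharZero k] (n : ℕ), 1 ≤ n →
    ∀ (W : Finset (Projectivization k (Fin (n+1) → k))), W.Nonempty →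
    ∀ (r : ℕ), 1 ≤ r →
    ∀ (d : ℕ) (f : MvPolynomial (Fin (n+1)) k), f ≠ 0 → f.IsHomogeneous d →
      (∀ P ∈ W, f ∈ (Ideal.span {g : MvPolynomial (Fin (n+1)) k |
          g.IsHomogeneous 1 ∧ MvPolynomial.eval P.rep g = 0}) ^ (r * n)) →
      ∃ (e : ℕ) (g : MvPolynomial (Fin (n+1)) k), g ≠ 0 ∧ g.IsHomogeneous e ∧
        (∀ P ∈ W, g ∈ Ideal.span {h : MvPolynomial (Fin (n+1)) k |
          h.IsHomogeneous 1 ∧ MvPolynomial.eval P.rep h = 0}) ∧
        r * e + r * (n - 1) ≤ d := by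
  intro k _ _ _ n hn W hW r hr d f hf0 hf hv
  obtain ⟨⟨G, hG0, hGh, hGv⟩, -⟩ := Pool.Agent.H580C.t_AS k n 1 W hn
  obtain ⟨-, hlow⟩ := Pool.Agent.H580C.t_AS k n (r * n) W hn
  have h1 := Pool.Agent.H580C.demailly hn W hW 1 (r * n) le_rfl
  have h2 : Pool.Agent.Chud.aS W (r * n) ≤ d := by
    apply hlow f d hf0 hf
    rintro v ⟨p, hp, rfl⟩
    exact Ideal.pow_right_mono (Pool.Agent.H737R3.linI_le_mI _) _ (hv p hp)
  refine ⟨Pool.Agent.Chud.aS W 1, G, hG0, hGh, ?_, ?_⟩
  · intro P hP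
    have h3 := Pool.Agent.H737R3.mem_linI_pow hGh P.rep_nonzero (hGv P hP)
    rw [pow_one] at h3
    exact h3
  · have h3 : n * (r * (Pool.Agent.Chud.aS W 1 + n - 1)) ≤ n * d := by
      calc n * (r * (Pool.Agent.Chud.aS W 1 + n - 1))
          = r * n * (Pool.Agent.Chud.aS W 1 + n - 1) := by ring
        _ ≤ Pool.Agent.Chud.aS W (r * n) * (1 + n - 1) := h1
        _ ≤ d * (1 + n - 1) := Nat.mul_le_mul_right _ h2
        _ = n * d := by rw [Nat.add_sub_cancel_left, mul_comm]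
    have h4 := Nat.le_of_mul_le_mul_left h3 hn
    have h5 : Pool.Agent.Chud.aS W 1 + n - 1 = Pool.Agent.Chud.aS W 1 + (n - 1) := by omega
    rw [h5, mul_add] at h4
    exact h4

end Pool.Agent.S00249
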