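import Pool.Statements.S00272
import Pool.Agent.W490.CMA.Final

set_option autoImplicit false
open Pool Pool.MP_7f7c16_ag

namespace Pool.Agent.S00272

/-- The negation of the preceding statement: Over any characteristic-0 field, two plane arrangements in P^3 with isomorphic intersection lattices have R/sqrt(J_F) Cohen-Macaulay exactly when R/sqrt(J_G) is, CM meaning every localization at a prime has a maximal-length regular sequence. -/
theorem result :
    ¬ (∀ (k : Type) [Field k] [CharZero k] (d e : ℕ) (ℓ : Fin d → Fin 4 → k) (m : Fin e → Fin 4 → k),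
      (∀ i, ℓ i ≠ 0) → (∀ i j, i ≠ j → LinearIndependent k ![ℓ i, ℓ j]) →
      (∀ i, m i ≠ 0) → (∀ i j, i ≠ j → LinearIndependent k ![m i, m j]) →
      Nonempty (↥{W : Set (Fin 4 → k) | ∃ S : Finset (Fin d),
                  W = {x : Fin 4 → k | ∀ i ∈ S, ∑ j : Fin 4, ℓ i j * x j = 0}} ≃o
                ↥{W : Set (Fin 4 → k) | ∃ S : Finset (Fin e),
                  W = {x : Fin 4 → k | ∀ i ∈ S, ∑ j : Fin 4, m i j * x j = 0}}) →
      ((∀ (p : Ideal (MvPolynomial (Fin 4) k ⧸
              ((Ideal.span (Set.range fun i : Fin 4 =>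
                  MvPolynomial.pderiv (R := k) i
                    (∏ a : Fin d, ∑ j : Fin 4,
                      (MvPolynomial.C (ℓ a j) * MvPolynomial.X j : MvPolynomial (Fin 4) k)))
                : Ideal (MvPolynomial (Fin 4) k)).radical : Ideal (MvPolynomial (Fin 4) k))))
            [p.IsPrime],
          ∃ rs : List (Localization.AtPrime p),
            (∀ r ∈ rs, r ∈ IsLocalRing.maximalIdeal (Localization.AtPrime p)) ∧
            RingTheory.Sequence.IsRegular (Localization.AtPrime p) rs ∧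
            (rs.length : WithBot ℕ∞) = ringKrullDim (Localization.AtPrime p)) ↔
       (∀ (p : Ideal (MvPolynomial (Fin 4) k ⧸
              ((Ideal.span (Set.range fun i : Fin 4 =>
                  MvPolynomial.pderiv (R := k) i
                    (∏ a : Fin e, ∑ j : Fin 4,
                      (MvPolynomial.C (m a j) * MvPolynomial.X j : MvPolynomial (Fin 4) k)))
                : Ideal (MvPolynomial (Fin 4) k)).radical : Ideal (MvPolynomial (Fin 4) k))))
            [p.IsPrime],
          ∃ rs : List (Localization.AtPrime p),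
            (∀ r ∈ rs, r ∈ IsLocalRing.maximalIdeal (Localization.AtPrime p)) ∧
            RingTheory.Sequence.IsRegular (Localization.AtPrime p) rs ∧
            (rs.length : WithBot ℕ∞) = ringKrullDim (Localization.AtPrime p)))) := by
  intro H
  have hndF : ∀ i j : Fin 13, i ≠ j → Pool.Agent.W490.CMA.nd (Pool.Agent.W490.CMA.fF i) (Pool.Agent.W490.CMA.fF j) := by decide +kernel
  have hndG : ∀ i j : Fin 13, i ≠ j → Pool.Agent.W490.CMA.nd (Pool.Agent.W490.CMA.fG i) (Pool.Agent.W490.CMA.fG j) := by decide +kernel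
  have hF0 : ∀ i : Fin 13, Pool.Agent.W490.CMA.fF i ≠ 0 := by decide +kernel
  have hG0 : ∀ i : Fin 13, Pool.Agent.W490.CMA.fG i ≠ 0 := by decide +kernel
  have hcast : ∀ f : Fin 13 → Pool.Agent.W490.CMA.V, (∀ i, f i ≠ 0) →
      ∀ i, Pool.Agent.W490.CMA.cast f i ≠ 0 := by
    intro f hf i h
    apply hf i
    funext j
    have := congrFun h j
    have h2 : ((f i j : ℤ) : ℂ) = 0 := this
    exact_mod_cast h2
  have hdet : ∀ (f : Fin 13 → Pool.Agent.W490.CMA.V) (a b c d : Fin 13),
      Pool.Agent.W490.CMA.det4 (Pool.Agent.W490.CMA.cast f a) (Pool.Agent.W490.CMA.cast f b)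
        (Pool.Agent.W490.CMA.cast f c) (Pool.Agent.W490.CMA.cast f d) =
      ((Pool.Agent.W490.CMA.det4 (f a) (f b) (f c) (f d) : ℤ) : ℂ) :=
    fun f a b c d => Pool.Agent.W490.CMA.det4_cast _ _ _ _
  have hiso := Pool.Agent.W490.CMA.lattice_iso (Pool.Agent.W490.CMA.cast Pool.Agent.W490.CMA.fF) (Pool.Agent.W490.CMA.cast Pool.Agent.W490.CMA.fG)
    (Pool.Agent.W490.CMA.span_top _ 0 1 3 9 (by
      rw [hdet]
      have : Pool.Agent.W490.CMA.det4 (Pool.Agent.W490.CMA.fF 0) (Pool.Agent.W490.CMA.fF 1)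
        (Pool.Agent.W490.CMA.fF 3) (Pool.Agent.W490.CMA.fF 9) ≠ 0 := by decide +kernel
      exact_mod_cast this))
    (Pool.Agent.W490.CMA.span_top _ 0 1 3 9 (by
      rw [hdet]
      have : Pool.Agent.W490.CMA.det4 (Pool.Agent.W490.CMA.fG 0) (Pool.Agent.W490.CMA.fG 1)
        (Pool.Agent.W490.CMA.fG 3) (Pool.Agent.W490.CMA.fG 9) ≠ 0 := by decide +kernel
      exact_mod_cast this))
    (by
      intro a b c d
      rw [hdet, hdet]
      have := Pool.Agent.W490.CMA.same_matroid a b c d
      exact_mod_cast this)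
  have key := H ℂ 13 13 (Pool.Agent.W490.CMA.cast Pool.Agent.W490.CMA.fF) (Pool.Agent.W490.CMA.cast Pool.Agent.W490.CMA.fG)
    (hcast _ hF0) (fun i j hij => Pool.Agent.W490.CMA.nd_indep (hndF i j hij))
    (hcast _ hG0) (fun i j hij => Pool.Agent.W490.CMA.nd_indep (hndG i j hij)) hiso
  exact Pool.Agent.W490.CMA.not_isCM_F' (key.2 Pool.Agent.W490.CMA.isCM_G)

end Pool.Agent.S00272
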