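import Pool.Statements.S00328
import Pool.Agent.W458.StO
-- import your own Pool.Agent.* helpers here

set_option autoImplicit false
open Pool Pool.MP_9b38bc_ag

namespace Pool.Agent.S00328

/-- The negation of the preceding statement: Over the complex numbers, if F is a sum of degree d ≥ 3 forms F_i in disjoint blocks of variables, then in every shortest expression of F as a sum of d-th powers of linear forms, each linear form involves variables from only one block. -/
theorem result :
    ¬ (∀ (n s d : ℕ) (part : Fin n → Fin s) (Fi : Fin s → MvPolynomial (Fin n) ℂ),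
    3 ≤ d →
    (∀ i, (Fi i).IsHomogeneous d) →
    (∀ i, ∀ j ∈ (Fi i).vars, part j = i) →
    ∀ (r : ℕ) (L : Fin r → Fin n → ℂ),
      (∑ i, Fi i = ∑ k, (∑ j, MvPolynomial.C (L k j) * MvPolynomial.X j) ^ d) →
      (∀ (r' : ℕ) (L' : Fin r' → Fin n → ℂ),
        (∑ i, Fi i = ∑ k, (∑ j, MvPolynomial.C (L' k j) * MvPolynomial.X j) ^ d) →
          r ≤ r') →
      ∀ k, ∃ i, ∀ j, part j ≠ i → L k j = 0) := by
  intro H
  classical
  obtain ⟨N, R, P1, P2, hP1, hP2, ⟨L, hL⟩, hw1, hw2, hlow⟩ := Pool.Agent.W458.St.main_poly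
  let M : ℕ := N + 1
  let part : Fin (M + M) → Fin 2 := fun j => if (j : ℕ) < M then 0 else 1
  let Fi : Fin 2 → MvPolynomial (Fin (M + M)) ℂ := fun i =>
    if i = 0 then MvPolynomial.rename (Fin.castAdd M) P1
    else MvPolynomial.rename (Fin.natAdd M) P2
  have hpl : ∀ i : Fin M, part (Fin.castAdd M i) = 0 := by
    intro i
    simp [part]
  have hpr : ∀ i : Fin M, part (Fin.natAdd M i) = 1 := by
    intro i
    simp [part]
  have hFi0 : Fi 0 = MvPolynomial.rename (Fin.castAdd M) P1 := by simp [Fi]
  have hFi1 : Fi 1 = MvPolynomial.rename (Fin.natAdd M) P2 := by simp [Fi]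
  have hsum : ∀ z : Fin (M + M) → ℂ, MvPolynomial.eval z (∑ i, Fi i)
      = MvPolynomial.eval (z ∘ Fin.castAdd M) P1 + MvPolynomial.eval (z ∘ Fin.natAdd M) P2 := by
    intro z
    rw [Fin.sum_univ_two, hFi0, hFi1, map_add, MvPolynomial.eval_rename,
      MvPolynomial.eval_rename]
  have hlf : ∀ (l : Fin (M + M) → ℂ) (z : Fin (M + M) → ℂ),
      MvPolynomial.eval z (∑ j, MvPolynomial.C (l j) * MvPolynomial.X j) = ∑ j, l j * z j := by
    intro l z
    rw [map_sum]
    refine Finset.sum_congr rfl fun j _ => ?_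
    rw [map_mul, MvPolynomial.eval_C, MvPolynomial.eval_X]
  let Q : ℕ → Prop := fun r => ∃ L : Fin r → Fin (M + M) → ℂ,
    ∑ i, Fi i = ∑ k, (∑ j, MvPolynomial.C (L k j) * MvPolynomial.X j) ^ 3
  have hQR : Q R := by
    let π : (Fin (M + M) → ℂ) →ₗ[ℂ] ((Fin M → ℂ) × (Fin M → ℂ)) :=
      LinearMap.prod (LinearMap.funLeft ℂ ℂ (Fin.castAdd M))
        (LinearMap.funLeft ℂ ℂ (Fin.natAdd M))
    refine ⟨fun k j => L k (π (Pi.single j 1)), ?_⟩
    apply MvPolynomial.funext
    intro z
    rw [hsum, map_sum]
    have h1 := hL (z ∘ Fin.castAdd M) (z ∘ Fin.natAdd M)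
    rw [h1]
    refine Finset.sum_congr rfl fun k _ => ?_
    rw [map_pow, hlf]
    congr 1
    change (L k ∘ₗ π) z = _
    conv_lhs => rw [pi_eq_sum_univ' z]
    rw [map_sum]
    refine Finset.sum_congr rfl fun i _ => ?_
    rw [map_smul, smul_eq_mul, mul_comm]
    rfl
  have hex : ∃ r, Q r := ⟨R, hQR⟩
  obtain ⟨L0, hL0⟩ := Nat.find_spec hex
  have hrR : Nat.find hex ≤ R := Nat.find_min' hex hQR
  have key := H (M + M) 2 3 part Fi (by norm_num) (by
    intro i
    by_cases hi : i = 0
    · rw [hi, hFi0]; exact hP1.rename_isHomogeneous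
    · have hi1 : i = 1 := by omega
      rw [hi1, hFi1]; exact hP2.rename_isHomogeneous) (by
    intro i j hj
    by_cases hi : i = 0
    · rw [hi, hFi0] at hj
      have h1 := MvPolynomial.vars_rename _ _ hj
      rw [Finset.mem_image] at h1
      obtain ⟨a, -, rfl⟩ := h1
      rw [hi]; exact hpl a
    · have hi1 : i = 1 := by omega
      rw [hi1, hFi1] at hj
      have h1 := MvPolynomial.vars_rename _ _ hj
      rw [Finset.mem_image] at h1
      obtain ⟨a, -, rfl⟩ := h1
      rw [hi1]; exact hpr a) (Nat.find hex) L0 hL0 (by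
    intro r' L' hL'
    exact Nat.find_min' hex ⟨L', hL'⟩)
  -- splitting
  let A : Fin (Nat.find hex) → Prop := fun k => ∀ j, part j ≠ 0 → L0 k j = 0
  have hA1 : ∀ k, ¬ A k → ∀ j, part j ≠ 1 → L0 k j = 0 := by
    intro k hk
    obtain ⟨i, hi⟩ := key k
    by_cases hi0 : i = 0
    · refine absurd ?_ hk
      intro j hj
      exact hi j (by rw [hi0]; exact hj)
    · have hi1 : i = 1 := by omega
      rw [hi1] at hi
      exact hi
  have hz1 : MvPolynomial.eval 0 P1 = 0 := by
    obtain ⟨L', hL'⟩ := hw1
    have := hL' 0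
    beta_reduce at this
    rw [this]
    simp
  have hz2 : MvPolynomial.eval 0 P2 = 0 := by
    obtain ⟨L', hL'⟩ := hw2
    have := hL' 0
    beta_reduce at this
    rw [this]
    simp
  have hdec : ∀ z : Fin (M + M) → ℂ, MvPolynomial.eval (z ∘ Fin.castAdd M) P1
      + MvPolynomial.eval (z ∘ Fin.natAdd M) P2 = ∑ k, (∑ j, L0 k j * z j) ^ 3 := by
    intro z
    rw [← hsum, hL0, map_sum]
    refine Finset.sum_congr rfl fun k _ => ?_
    rw [map_pow, hlf]
  let ι1 : (Fin M → ℂ) →ₗ[ℂ] (Fin (M + M) → ℂ) :=
    { toFun := fun z => Fin.append z 0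
      map_add' := by
        intro x y
        funext j
        refine Fin.addCases (fun i => ?_) (fun i => ?_) j
        · rw [Pi.add_apply, Fin.append_left, Fin.append_left, Fin.append_left]
          simp only [Pi.add_apply, Pi.zero_apply, add_zero]
        · rw [Pi.add_apply, Fin.append_right, Fin.append_right, Fin.append_right]
          simp only [Pi.add_apply, Pi.zero_apply, add_zero]
      map_smul' := by
        intro r x
        funext j
        refine Fin.addCases (fun i => ?_) (fun i => ?_) j
        · rw [Pi.smul_apply, Fin.append_left, Fin.append_left]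
          simp only [Pi.smul_apply, Pi.zero_apply, smul_zero, RingHom.id_apply]
        · rw [Pi.smul_apply, Fin.append_right, Fin.append_right]
          simp only [Pi.smul_apply, Pi.zero_apply, smul_zero, RingHom.id_apply] }
  let ι2 : (Fin M → ℂ) →ₗ[ℂ] (Fin (M + M) → ℂ) :=
    { toFun := fun z => Fin.append 0 z
      map_add' := by
        intro x y
        funext j
        refine Fin.addCases (fun i => ?_) (fun i => ?_) j
        · rw [Pi.add_apply, Fin.append_left, Fin.append_left, Fin.append_left]
          simp only [Pi.add_apply, Pi.zero_apply, add_zero]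
        · rw [Pi.add_apply, Fin.append_right, Fin.append_right, Fin.append_right]
          simp only [Pi.add_apply, Pi.zero_apply, add_zero]
      map_smul' := by
        intro r x
        funext j
        refine Fin.addCases (fun i => ?_) (fun i => ?_) j
        · rw [Pi.smul_apply, Fin.append_left, Fin.append_left]
          simp only [Pi.smul_apply, Pi.zero_apply, smul_zero, RingHom.id_apply]
        · rw [Pi.smul_apply, Fin.append_right, Fin.append_right]
          simp only [Pi.smul_apply, Pi.zero_apply, smul_zero, RingHom.id_apply] }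
  let lin : (Fin (M + M) → ℂ) → (Fin (M + M) → ℂ) →ₗ[ℂ] ℂ := fun l =>
    Pool.Agent.W458.St.Side.lin l
  have hlin : ∀ l z, lin l z = ∑ j, l j * z j := fun l z => rfl
  have hW1 : Pool.Agent.W458.St.WD (fun z => MvPolynomial.eval z P1)
      (Fintype.card {k // A k}) := by
    refine Pool.Agent.W458.St.WD_of_fintype _ (fun k : {k // A k} => lin (L0 k) ∘ₗ ι1) ?_
    intro z
    have h1 := hdec (Fin.append z 0)
    have e1 : (Fin.append z 0) ∘ Fin.castAdd M = z := by
      funext i; exact Fin.append_left _ _ _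
    have e2 : (Fin.append z (0 : Fin M → ℂ)) ∘ Fin.natAdd M = 0 := by
      funext i; exact Fin.append_right _ _ _
    rw [e1, e2, hz2, add_zero] at h1
    rw [h1, ← Fintype.sum_subtype_add_sum_subtype A]
    have h0 : ∑ k : {k // ¬ A k}, (∑ j, L0 k j * Fin.append z (0 : Fin M → ℂ) j) ^ 3 = 0 := by
      refine Finset.sum_eq_zero fun k _ => ?_
      have : ∑ j, L0 k j * Fin.append z (0 : Fin M → ℂ) j = 0 := by
        refine Finset.sum_eq_zero fun j _ => ?_
        refine Fin.addCases (fun i => ?_) (fun i => ?_) j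
        · rw [hA1 k k.2 _ (by rw [hpl]; decide), zero_mul]
        · rw [Fin.append_right]; simp
      rw [this]; ring
    rw [h0, add_zero]
    rfl
  have hW2 : Pool.Agent.W458.St.WD (fun z => MvPolynomial.eval z P2)
      (Fintype.card {k // ¬ A k}) := by
    refine Pool.Agent.W458.St.WD_of_fintype _ (fun k : {k // ¬ A k} => lin (L0 k) ∘ₗ ι2) ?_
    intro z
    have h1 := hdec (Fin.append 0 z)
    have e1 : (Fin.append (0 : Fin M → ℂ) z) ∘ Fin.castAdd M = 0 := by
      funext i; exact Fin.append_left _ _ _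
    have e2 : (Fin.append (0 : Fin M → ℂ) z) ∘ Fin.natAdd M = z := by
      funext i; exact Fin.append_right _ _ _
    rw [e1, e2, hz1, zero_add] at h1
    rw [h1, ← Fintype.sum_subtype_add_sum_subtype A]
    have h0 : ∑ k : {k // A k}, (∑ j, L0 k j * Fin.append (0 : Fin M → ℂ) z j) ^ 3 = 0 := by
      refine Finset.sum_eq_zero fun k _ => ?_
      have : ∑ j, L0 k j * Fin.append (0 : Fin M → ℂ) z j = 0 := by
        refine Finset.sum_eq_zero fun j _ => ?_
        refine Fin.addCases (fun i => ?_) (fun i => ?_) j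
        · rw [Fin.append_left]; simp
        · rw [k.2 _ (by rw [hpr]; decide), zero_mul]
      rw [this]; ring
    rw [h0, zero_add]
    rfl
  have hlt := hlow _ _ hW1 hW2
  have hcard := Fintype.card_subtype_compl A
  have hcard' := Fintype.card_subtype_le A
  rw [Fintype.card_fin] at hcard hcard'
  omega

end Pool.Agent.S00328
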