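import Pool.Statements.S00329
import Pool.Agent.W489.Asm3
import Pool.Agent.W478.T1.Main

set_option autoImplicit false
open Pool Pool.MP_9bd952_ag

namespace Pool.Agent.S00329

/-- For every connected smooth closed algebraic submanifold X of some C^n there is B such that every such Y homeomorphic to X has at most B non-constant holomorphic maps into C minus {0,1}. -/
theorem result :
  ∀ (n : ℕ) (X : Set (Fin n → ℂ)),
    (∃ S : Set (MvPolynomial (Fin n) ℂ), X = {x | ∀ P ∈ S, MvPolynomial.eval x P = 0}) →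
    (∀ p ∈ X, ∃ U : Set (Fin n → ℂ), IsOpen U ∧ p ∈ U ∧
      ∃ (k : ℕ) (F : (Fin n → ℂ) → (Fin k → ℂ)), DifferentiableOn ℂ F U ∧
        (∀ x ∈ U, Function.Surjective ⇑(fderiv ℂ F x)) ∧ X ∩ U = U ∩ F ⁻¹' {0}) →
    IsConnected X →
    ∃ B : ℕ, ∀ (m : ℕ) (Y : Set (Fin m → ℂ)),
      (∃ S : Set (MvPolynomial (Fin m) ℂ), Y = {y | ∀ P ∈ S, MvPolynomial.eval y P = 0}) →
      (∀ p ∈ Y, ∃ U : Set (Fin m → ℂ), IsOpen U ∧ p ∈ U ∧
        ∃ (k : ℕ) (F : (Fin m → ℂ) → (Fin k → ℂ)), DifferentiableOn ℂ F U ∧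
          (∀ x ∈ U, Function.Surjective ⇑(fderiv ℂ F x)) ∧ Y ∩ U = U ∩ F ⁻¹' {0}) →
      IsConnected Y →
      Nonempty (↥X ≃ₜ ↥Y) →
      {g : ↥Y → ℂ | (∀ y, g y ≠ 0 ∧ g y ≠ 1) ∧ (∃ a b, g a ≠ g b) ∧
        ∀ p : ↥Y, ∃ U : Set (Fin m → ℂ), IsOpen U ∧ (p : Fin m → ℂ) ∈ U ∧
          ∃ h : (Fin m → ℂ) → ℂ, DifferentiableOn ℂ h U ∧
            ∀ y : ↥Y, (y : Fin m → ℂ) ∈ U → h y = g y}.encard ≤ (B : ℕ∞) := by
  intro n X hXa hXs hXc
  obtain ⟨s, hs⟩ := W489.finite_rank W478T1.T1 hXa hXs hXc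
  refine ⟨W489.BB s, fun m Y hYa hYs hYc ⟨φ⟩ => ?_⟩
  have hr : H113G.FiniteRank Y s := W489.finiteRank_homeo φ hs
  by_contra hcon
  rw [not_le] at hcon
  obtain ⟨T, hT, hTc⟩ := Set.exists_subset_encard_eq
    (k := ((W489.BB s + 1 : ℕ) : ℕ∞)) (by
      rw [Nat.cast_add, Nat.cast_one]
      exact Order.add_one_le_of_lt hcon)
  have hTfin : T.Finite := Set.finite_of_encard_eq_coe hTc
  classical
  have : Fintype T := hTfin.fintype
  let f : T → (Fin m → ℂ) → ℂ := fun g y => if hy : y ∈ Y then g.1 ⟨y, hy⟩ else 2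
  have hfY : ∀ (g : T) (y : Y), f g y = g.1 y := by
    intro g y
    simp only [f, dif_pos y.2]
  have hb : Fintype.card T ≤ W489.BB s := by
    refine W489.card_bound W478T1.T1 hYa hYs hYc hr (f := f) ?_ ?_ ?_ ?_
    · intro g p hp
      obtain ⟨U, hU, hpU, h, hh, he⟩ := (hT g.2).2.2 ⟨p, hp⟩
      refine ⟨U, hU, hpU, h, hh, fun y hy hyU => ?_⟩
      rw [he ⟨y, hy⟩ hyU]
      exact (hfY g ⟨y, hy⟩).symm
    · intro g y hy
      rw [show f g y = g.1 ⟨y, hy⟩ from hfY g ⟨y, hy⟩]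
      exact (hT g.2).1 ⟨y, hy⟩
    · intro g
      obtain ⟨a, b, hab⟩ := (hT g.2).2.1
      refine ⟨a, a.2, b, b.2, ?_⟩
      rw [hfY, hfY]
      exact hab
    · intro g g' hgg
      by_contra hall
      push Not at hall
      apply hgg
      apply Subtype.ext
      funext y
      have := hall y y.2
      rwa [hfY, hfY] at this
  have h2 : T.encard = (Fintype.card T : ℕ∞) := by
    rw [← Set.toFinset_card, Set.encard_eq_coe_toFinset_card]
  rw [h2] at hTc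
  have h3 : Fintype.card T = W489.BB s + 1 := by exact_mod_cast hTc
  omega

end Pool.Agent.S00329
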