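import Pool.Statements.S00360
import Pool.Agent.W464.GradeDim

set_option autoImplicit false
open Pool Pool.MP_a907e8_ag
open Pool.Agent.H607R3.PS

namespace Pool.Agent.S00360

/-- The negation of the preceding statement: For every Noetherian local ring A and nonzero finitely generated A-module M with a finite projective resolution, the maximal length of an A-regular sequence in ann M plus the Krull dimension of A/ann M equals the Krull dimension of A. -/
theorem result :
    ¬ (∀ (A : Type) [CommRing A] [IsLocalRing A] [IsNoetherianRing A]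
      (M : Type) [AddCommGroup M] [Module A M] [Module.Finite A M] [Nontrivial M],
      (∃ P : CategoryTheory.ProjectiveResolution (ModuleCat.of A M), ∃ n : ℕ,
          ∀ i : ℕ, n ≤ i → CategoryTheory.Limits.IsZero (P.complex.X i)) →
      ∀ g : ℕ,
        (∃ rs : List A, rs.length = g ∧ (∀ r ∈ rs, r ∈ Module.annihilator A M) ∧
            RingTheory.Sequence.IsWeaklyRegular A rs) →
        (¬ ∃ rs : List A, rs.length = g + 1 ∧ (∀ r ∈ rs, r ∈ Module.annihilator A M) ∧
            RingTheory.Sequence.IsWeaklyRegular A rs) →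
        (g : WithBot ℕ∞) + ringKrullDim (A ⧸ Module.annihilator A M) = ringKrullDim A) := by
  intro h
  obtain ⟨T, iT, iL, iN, iD, α, β, γ, hB⟩ := Pool.Agent.H291R3.PSB.taskBase
  obtain ⟨hα, hβ, hγ⟩ := H51R3.PS.mem_max hB
  have hloc : IsLocalRing (RR T α β γ) := taskLoc T α β γ hα hβ hγ
  have hlocP : IsLocalRing (RP T α β γ) := local_RP
  have hnoe : IsNoetherianRing (RP T α β γ) := noeth_RP
  have hne : cP T α β γ ≠ ⊤ := cP_ne_top hα hβ hγ
  have hnt : Nontrivial (RP T α β γ ⧸ cP T α β γ) := Ideal.Quotient.nontrivial_iff.mpr hne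
  have hres := finRes_RP taskRes taskRegP hγ hB.reg
  -- lengths of regular sequences are at most 2
  have hlen : ∀ rs : List (RP T α β γ), (∀ r ∈ rs, r ∈ cP T α β γ) →
      RingTheory.Sequence.IsWeaklyRegular (RP T α β γ) rs → rs.length ≤ 2 :=
    fun rs hm hr => Pool.Agent.W464.GradeDim.len_le_two hB rs hm hr
  have hann : Module.annihilator (RP T α β γ) (RP T α β γ ⧸ cP T α β γ) = cP T α β γ :=
    Ideal.annihilator_quotient
  classical
  -- the grade
  let S : ℕ → Prop := fun g => ∃ rs : List (RP T α β γ), rs.length = g ∧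
    (∀ r ∈ rs, r ∈ Module.annihilator (RP T α β γ) (RP T α β γ ⧸ cP T α β γ)) ∧
    RingTheory.Sequence.IsWeaklyRegular (RP T α β γ) rs
  have hS : ∀ g, S g → g ≤ 2 := by
    rintro g ⟨rs, rfl, hm, hr⟩
    rw [hann] at hm
    exact hlen rs hm hr
  have hS0 : S 0 := ⟨[], rfl, by simp, RingTheory.Sequence.IsWeaklyRegular.nil _ _⟩
  let g := Nat.findGreatest S 2
  have hg : S g := Nat.findGreatest_spec (P := S) (Nat.zero_le 2) hS0
  have hg1 : ¬ S (g + 1) := by
    intro hc
    have h1 := Nat.le_findGreatest (hS _ hc) hc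
    exact absurd h1 (by change ¬ (g + 1 ≤ g); omega)
  have hmain := h (RP T α β γ) (RP T α β γ ⧸ cP T α β γ) hres g hg hg1
  rw [hann] at hmain
  have hlt := Pool.Agent.W464.GradeDim.taskDimP' hB
  rw [← hmain] at hlt
  have hg2 : ((g : ℕ) : WithBot ℕ∞) ≤ 2 := by exact_mod_cast hS g hg
  exact absurd (lt_of_lt_of_le hlt (add_le_add_left hg2 _)) (lt_irrefl _)

end Pool.Agent.S00360
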