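import Pool.Statements.S00362
import Pool.Agent.W460.LZ.Irred
import Pool.Agent.W460.LZ.Conn
import Pool.Agent.H823R3.Pi1Cyclic

set_option autoImplicit false
open Pool Pool.MP_aaa69e_ag

namespace Pool.Agent.S00362

/-- The negation of the preceding statement: For every irreducible f in ℂ[x,y], the number of singular points of the curve f=0 where the curve has one local branch is at most the first Betti number (rank of abelianized fundamental group) of the curve plus one.

The curve is the image of the punctured plane under the injective proper map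
`s ↦ (s ^ 2 + 2 / s, s ^ 4 - 4 * s)`, with cusps at the three cube roots of unity. -/
theorem result :
    ¬ (∀ f : MvPolynomial (Fin 2) ℂ, Irreducible f →
    ∀ x₀ : ↥{z : Fin 2 → ℂ | MvPolynomial.eval z f = 0},
    Set.ncard {p : Fin 2 → ℂ | MvPolynomial.eval p f = 0 ∧
        (∀ i : Fin 2, MvPolynomial.eval p (MvPolynomial.pderiv i f) = 0) ∧
        ∃ ε : ℝ, 0 < ε ∧ ∀ δ : ℝ, 0 < δ → δ < ε →
          IsPreconnected {q : Fin 2 → ℂ | MvPolynomial.eval q f = 0 ∧ q ≠ p ∧
            ‖q 0 - p 0‖ ^ 2 + ‖q 1 - p 1‖ ^ 2 < δ ^ 2}}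
      ≤ Module.finrank ℤ
          (Additive (Abelianization
            (FundamentalGroup ↥{z : Fin 2 → ℂ | MvPolynomial.eval z f = 0} x₀))) + 1) := by
  intro H
  have h1 := H W460.LZ.F W460.LZ.irreducible_F ⟨W460.LZ.γ 1, W460.LZ.eval_γ one_ne_zero⟩
  have h2 := Pool.Agent.H823R3.finrank_le_one_of_homeomorph W460.LZ.homeo
    ⟨W460.LZ.γ 1, W460.LZ.eval_γ one_ne_zero⟩
  have hset : {p : Fin 2 → ℂ | MvPolynomial.eval p W460.LZ.F = 0 ∧
        (∀ i : Fin 2, MvPolynomial.eval p (MvPolynomial.pderiv i W460.LZ.F) = 0) ∧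
        ∃ ε : ℝ, 0 < ε ∧ ∀ δ : ℝ, 0 < δ → δ < ε →
          IsPreconnected {q : Fin 2 → ℂ | MvPolynomial.eval q W460.LZ.F = 0 ∧ q ≠ p ∧
            ‖q 0 - p 0‖ ^ 2 + ‖q 1 - p 1‖ ^ 2 < δ ^ 2}} =
      W460.LZ.γ '' (Polynomial.nthRootsFinset 3 (1 : ℂ) : Finset ℂ) := by
    ext p
    constructor
    · rintro ⟨hp, hd, -⟩
      obtain ⟨s, hs, rfl⟩ := W460.LZ.exists_param hp
      have h3 := hd 1
      rw [W460.LZ.pderiv_one_γ hs] at h3
      have h4 : s ^ 3 = 1 := by
        rw [div_eq_zero_iff] at h3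
        rcases h3 with h3 | h3
        · rcases mul_eq_zero.1 h3 with h3 | h3
          · norm_num at h3
          · exact sub_eq_zero.1 (pow_eq_zero_iff (three_ne_zero) |>.1 h3)
        · exact absurd h3 (pow_ne_zero 4 hs)
      refine ⟨s, ?_, rfl⟩
      rw [Finset.mem_coe, Polynomial.mem_nthRootsFinset (by norm_num)]
      exact h4
    · rintro ⟨s, hs, rfl⟩
      rw [Finset.mem_coe, Polynomial.mem_nthRootsFinset (by norm_num)] at hs
      have h0 : s ≠ 0 := by rintro rfl; norm_num at hs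
      refine ⟨W460.LZ.eval_γ h0, ?_, W460.LZ.unibranch hs⟩
      intro i
      fin_cases i
      · exact W460.LZ.pderiv_zero_γ hs
      · show MvPolynomial.eval (W460.LZ.γ s) (MvPolynomial.pderiv 1 W460.LZ.F) = 0
        rw [W460.LZ.pderiv_one_γ h0, hs]
        simp
  rw [hset, Set.InjOn.ncard_image, Set.ncard_coe_finset] at h1
  · rw [(Complex.isPrimitiveRoot_exp 3 (by norm_num)).card_nthRootsFinset] at h1
    omega
  · intro s hs t ht he
    rw [Finset.mem_coe, Polynomial.mem_nthRootsFinset (by norm_num)] at hs ht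
    refine W460.LZ.γ_inj ?_ ?_ he
    · rintro rfl; norm_num at hs
    · rintro rfl; norm_num at ht

end Pool.Agent.S00362
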