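import Pool.Statements.S00444
import Pool.Agent.W517.Gr.Scaled

set_option autoImplicit false
open scoped ComplexOrder
open Pool Pool.MP_c9aa11_ag

namespace Pool.Agent.S00444

/-- The negation of the preceding statement: For complex r×r matrices B_ij with ∑ξ^i conj(ξ^j) B_ij positive definite for all ξ≠0, ∑B_ii = rI and tr B_ij = rδ_ij, the signed sum over σ of mixed discriminants D(B_1σ(1),…,B_rσ(r)) is a positive real number. -/
theorem result :
    ¬ (∀ (r : ℕ) (B : Fin r → Fin r → Matrix (Fin r) (Fin r) ℂ),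
      (∀ ξ : Fin r → ℂ, ξ ≠ 0 →
          (∑ i : Fin r, ∑ j : Fin r, (ξ i * star (ξ j)) • B i j).PosDef) →
      (∑ i : Fin r, B i i) = (r : ℂ) • (1 : Matrix (Fin r) (Fin r) ℂ) →
      (∀ i j : Fin r, (B i j).trace = if i = j then (r : ℂ) else 0) →
      0 < ∑ σ : Equiv.Perm (Fin r),
            ((Equiv.Perm.sign σ : ℤ) : ℂ) *
              ((1 / (Nat.factorial r : ℂ)) *
                ∑ α : Equiv.Perm (Fin r), ∑ ρ : Equiv.Perm (Fin r),
                  ((Equiv.Perm.sign α : ℤ) : ℂ) * ((Equiv.Perm.sign ρ : ℤ) : ℂ) *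
                    ∏ k : Fin r, B k (σ k) (α k) (ρ k))) := by
  intro H
  obtain ⟨δ, hδ, hδ1, hneg⟩ := Pool.Agent.W517.Gr.exists_delta_SS
  have h := H 8 (fun i j => Matrix.of fun a b => ((Pool.Agent.W517.Gr.SS δ a b i j : ℝ) : ℂ)) ?_ ?_ ?_
  · have e := Pool.Agent.W517.Gr.sum_reindex
      (fun a b i j : Fin 8 => ((Pool.Agent.W517.Gr.SS δ a b i j : ℝ) : ℂ)) (1 / (Nat.factorial 8 : ℂ))
    have h2 : Pool.Agent.W517.Gr.hdet
        (fun a b i j : Fin 8 => ((Pool.Agent.W517.Gr.SS δ a b i j : ℝ) : ℂ)) =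
        ((Pool.Agent.W517.Gr.hdet (Pool.Agent.W517.Gr.SS δ) : ℝ) : ℂ) :=
      Pool.Agent.W517.Gr.hdet_map Complex.ofRealHom (Pool.Agent.W517.Gr.SS δ)
    rw [h2] at e
    have h3 : (0 : ℂ) < (1 / (Nat.factorial 8 : ℂ)) *
        ((Pool.Agent.W517.Gr.hdet (Pool.Agent.W517.Gr.SS δ) : ℝ) : ℂ) := by
      rw [← e]
      exact h
    have h4 : (1 / (Nat.factorial 8 : ℂ)) *
        ((Pool.Agent.W517.Gr.hdet (Pool.Agent.W517.Gr.SS δ) : ℝ) : ℂ) =
        (((1 / (Nat.factorial 8 : ℝ)) * Pool.Agent.W517.Gr.hdet (Pool.Agent.W517.Gr.SS δ) : ℝ) : ℂ) := by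
      push_cast
      rfl
    rw [h4] at h3
    have h5 : 0 < (1 / (Nat.factorial 8 : ℝ)) * Pool.Agent.W517.Gr.hdet (Pool.Agent.W517.Gr.SS δ) := by
      exact_mod_cast h3
    have h6 : (0 : ℝ) < 1 / (Nat.factorial 8 : ℝ) := by positivity
    nlinarith
  · intro ξ hξ
    have e : (∑ i : Fin 8, ∑ j : Fin 8, (ξ i * star (ξ j)) •
        (Matrix.of fun a b => ((Pool.Agent.W517.Gr.SS δ a b i j : ℝ) : ℂ) :
          Matrix (Fin 8) (Fin 8) ℂ)) = Pool.Agent.W517.Gr.sf (Pool.Agent.W517.Gr.SS δ) ξ ξ := by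
      ext a b
      simp only [Matrix.sum_apply, Matrix.smul_apply, Matrix.of_apply, smul_eq_mul,
        Pool.Agent.W517.Gr.sf]
      refine Finset.sum_congr rfl fun i _ => Finset.sum_congr rfl fun j _ => ?_
      ring
    rw [e]
    exact Pool.Agent.W517.Gr.sf_SS_posDef hδ hδ1 ξ hξ
  · ext a b
    rw [Matrix.sum_apply]
    simp only [Matrix.of_apply, Matrix.smul_apply, Matrix.one_apply, smul_eq_mul]
    rw [← Complex.ofReal_sum, Pool.Agent.W517.Gr.SS_row]
    split_ifs <;> simp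
  · intro i j
    simp only [Matrix.trace, Matrix.diag_apply, Matrix.of_apply]
    rw [← Complex.ofReal_sum, Pool.Agent.W517.Gr.SS_col]
    split_ifs <;> simp

end Pool.Agent.S00444
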