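import Pool.Statements.S00446
import Pool.Agent.W458.StO
-- import your own Pool.Agent.* helpers here

set_option autoImplicit false
open Pool Pool.MP_c9e5d4_ag

namespace Pool.Agent.S00446

/-- The negation of the preceding statement: For any number of complex forms of the same degree d at least 2, each in its own disjoint set of variables, the Waring rank of their sum equals the sum of their individual Waring ranks. -/
theorem result :
    ¬ (∀ (s : ℕ) (n : Fin s → ℕ) (d : ℕ), 2 ≤ d →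
  ∀ (F : (i : Fin s) → MvPolynomial (Fin (n i + 1)) ℂ),
    (∀ i, (F i).IsHomogeneous d) →
    sInf {r : ℕ | ∃ L : Fin r → MvPolynomial (Σ i : Fin s, Fin (n i + 1)) ℂ,
        (∀ j, (L j).IsHomogeneous 1) ∧
        ∑ i, MvPolynomial.rename (Sigma.mk (β := fun k => Fin (n k + 1)) i) (F i)
          = ∑ j, (L j) ^ d}
    = ∑ i, sInf {r : ℕ | ∃ L : Fin r → MvPolynomial (Fin (n i + 1)) ℂ,
        (∀ j, (L j).IsHomogeneous 1) ∧ F i = ∑ j, (L j) ^ d}) := by
  intro H
  obtain ⟨N, R, P1, P2, hP1, hP2, ⟨L, hL⟩, hw1, hw2, hlow⟩ := Pool.Agent.W458.St.main_poly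
  have key := H 2 (fun _ => N) 3 (by norm_num) (fun i => if i = 0 then P1 else P2) (by
    intro i
    by_cases hi : i = 0
    · simp only [hi, if_true]; exact hP1
    · simp only [hi, if_false]; exact hP2)
  rw [Fin.sum_univ_two, Fin.sum_univ_two] at key
  simp only [if_true, one_ne_zero, if_false] at key
  -- membership transfer
  have hmem : ∀ (P : MvPolynomial (Fin (N + 1)) ℂ) (r : ℕ),
      Pool.Agent.W458.St.WD (fun z => MvPolynomial.eval z P) r →
      r ∈ {r : ℕ | ∃ L : Fin r → MvPolynomial (Fin (N + 1)) ℂ,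
        (∀ j, (L j).IsHomogeneous 1) ∧ P = ∑ j, (L j) ^ 3} := by
    rintro P r ⟨L', hL'⟩
    refine ⟨fun j => Pool.Agent.W458.St.pol (L' j), fun j => Pool.Agent.W458.St.pol_hom _, ?_⟩
    apply MvPolynomial.funext
    intro z
    have hz := hL' z
    beta_reduce at hz
    rw [hz, map_sum]
    refine Finset.sum_congr rfl fun j _ => ?_
    rw [map_pow, Pool.Agent.W458.St.eval_pol]
  have hmem' : ∀ (P : MvPolynomial (Fin (N + 1)) ℂ) (r : ℕ),
      r ∈ {r : ℕ | ∃ L : Fin r → MvPolynomial (Fin (N + 1)) ℂ,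
        (∀ j, (L j).IsHomogeneous 1) ∧ P = ∑ j, (L j) ^ 3} →
      Pool.Agent.W458.St.WD (fun z => MvPolynomial.eval z P) r := by
    rintro P r ⟨L', hL', hP⟩
    choose M hM using fun j => Pool.Agent.W458.St.exists_lin (L' j) (hL' j)
    refine ⟨M, fun z => ?_⟩
    beta_reduce
    rw [hP, map_sum]
    refine Finset.sum_congr rfl fun j _ => ?_
    rw [map_pow, hM]
  have hr1 := hmem' P1 _ (Nat.sInf_mem ⟨R, hmem P1 R hw1⟩)
  have hr2 := hmem' P2 _ (Nat.sInf_mem ⟨R, hmem P2 R hw2⟩)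
  have hlt := hlow _ _ hr1 hr2
  have hup : R ∈ {r : ℕ | ∃ L : Fin r → MvPolynomial (Σ i : Fin 2, Fin (N + 1)) ℂ,
      (∀ j, (L j).IsHomogeneous 1) ∧
      MvPolynomial.rename (Sigma.mk (β := fun _ => Fin (N + 1)) 0) P1
        + MvPolynomial.rename (Sigma.mk (β := fun _ => Fin (N + 1)) 1) P2
        = ∑ j, (L j) ^ 3} := by
    let π : ((Σ i : Fin 2, Fin (N + 1)) → ℂ) →ₗ[ℂ]
        ((Fin (N + 1) → ℂ) × (Fin (N + 1) → ℂ)) :=
      LinearMap.prod (LinearMap.funLeft ℂ ℂ (Sigma.mk (β := fun _ : Fin 2 => Fin (N + 1)) 0))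
        (LinearMap.funLeft ℂ ℂ (Sigma.mk (β := fun _ : Fin 2 => Fin (N + 1)) 1))
    refine ⟨fun j => Pool.Agent.W458.St.pol (L j ∘ₗ π),
      fun j => Pool.Agent.W458.St.pol_hom _, ?_⟩
    apply MvPolynomial.funext
    intro z
    rw [map_add, MvPolynomial.eval_rename, MvPolynomial.eval_rename, hL, map_sum]
    refine Finset.sum_congr rfl fun j _ => ?_
    rw [map_pow, Pool.Agent.W458.St.eval_pol]
    rfl
  have hle := Nat.sInf_le hup
  omega

end Pool.Agent.S00446
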