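import Pool.Statements.S00478
import Pool.Agent.W450.EMPoly

set_option autoImplicit false
open Pool Pool.MP_d965d2_ag

namespace Pool.Agent.S00478

/-- The negation of the preceding statement: For a char-0 field K, the localization R of K[x_1..x_n] at any prime, and any proper radical ideal I of R: if s·r ∈ I² for some s outside each minimal prime of I (i.e. r ∈ I^(2)), then r ∈ m·I, m the maximal ideal. -/
theorem result :
    ¬ (∀ (K : Type) [Field K] [CharZero K] (n : ℕ)
      (p : Ideal (MvPolynomial (Fin n) K)) [p.IsPrime]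
      (I : Ideal (Localization.AtPrime p)),
      I.IsRadical → I ≠ ⊤ →
      ∀ r : Localization.AtPrime p,
        (∀ P ∈ I.minimalPrimes, ∃ s : Localization.AtPrime p, s ∉ P ∧ s * r ∈ I ^ 2) →
        r ∈ IsLocalRing.maximalIdeal (Localization.AtPrime p) * I) := by
  intro H
  obtain ⟨I, hrad, hne, r, hsymb, hr⟩ := Pool.Agent.W450.EM.em_fails ℂ 30
    Pool.Agent.W450.EM.phi Pool.Agent.W450.EM.sec Pool.Agent.W450.EM.phi_sec
    Pool.Agent.W450.EM.phi_eval Pool.Agent.W450.EM.eps
    (fun ψ ψ' h => Pool.Agent.W450.EM.phi_eps_zero ψ ψ' h) Pool.Agent.W450.EM.phi_eps_ne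
    Pool.Agent.W450.EM.F Pool.Agent.W450.EM.phi_F Pool.Agent.W450.EM.phi_pderiv_F
    Pool.Agent.W450.EM.kap Pool.Agent.W450.EM.kap_X_mul Pool.Agent.W450.EM.kap_F
  exact hr (H ℂ 30 (Pool.Agent.W450.EM.orig ℂ (Fin 30)) I hrad hne r hsymb)

end Pool.Agent.S00478
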