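import Pool.Statements.S00527
import Pool.Agent.W461.SL.Ps

set_option autoImplicit false
open Pool Pool.MP_eae75b_ag

namespace Pool.Agent.S00527

/-- For k infinite, R=k[[x_0..x_d]], I m-primary: for general linear forms l_j, the sum over i<d of s(d+1,d+1-i)·e(I R/(l_1..l_i)) is at most (d+1)!·length(R/I), s unsigned Stirling of first kind. -/
theorem result :
  ∀ (k : Type) [Field k] [Infinite k] (d : ℕ) (I : Ideal (MvPowerSeries (Fin (d+1)) k)),
    I.radical = Ideal.span (Set.range (MvPowerSeries.X : Fin (d+1) → MvPowerSeries (Fin (d+1)) k)) →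
    ∃ P : MvPolynomial (Fin d × Fin (d+1)) k, P ≠ 0 ∧
      ∀ c : Fin d → Fin (d+1) → k, MvPolynomial.eval (fun p => c p.1 p.2) P ≠ 0 →
        ∀ e : Fin d → ℝ,
          (∀ i : Fin d, Filter.Tendsto
            (fun n : ℕ => ((Nat.factorial (d+1-i.val) : ℝ) *
              ((Module.length (MvPowerSeries (Fin (d+1)) k)
                (MvPowerSeries (Fin (d+1)) k ⧸
                  (I ^ n ⊔ Ideal.span {f : MvPowerSeries (Fin (d+1)) k |
                    ∃ j : Fin d, j.val < i.val ∧
                      f = ∑ t : Fin (d+1), c j t • (MvPowerSeries.X t : MvPowerSeries (Fin (d+1)) k)}))).toNat : ℝ))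
              / (n : ℝ) ^ (d+1-i.val))
            Filter.atTop (nhds (e i))) →
          ∑ i : Fin d, ((ascPochhammer ℕ (d+1)).coeff (d+1-i.val) : ℝ) * e i
            ≤ (Nat.factorial (d+1) : ℝ) *
              ((Module.length (MvPowerSeries (Fin (d+1)) k)
                (MvPowerSeries (Fin (d+1)) k ⧸ I)).toNat : ℝ) := by
  intro k _ _ d I hI
  exact Pool.Agent.W461.SL.main I hI

end Pool.Agent.S00527
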