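import Pool.Statements.S00541
import Pool.Agent.H737R3.Points

set_option autoImplicit false
open Pool Pool.MP_ef83ea_ag

namespace Pool.Agent.S00541

open MvPolynomial Pool.Agent.H737R3 in
/-- the least degree of a nonzero element of an intersection of powers of ideals of points -/
theorem spec {N : ℕ} (hN : 1 ≤ N) (S : Finset (Fin (N + 1) → ℂ)) (m : ℕ) :
    ∃ F ∈ (⨅ p ∈ S, linI p ^ m), F ≠ 0 ∧ F.IsHomogeneous
      (sInf {d : ℕ | ∃ f ∈ (⨅ p ∈ S, linI p ^ m), f ≠ 0 ∧ f.totalDegree = d}) := by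
  classical
  have hne : {d : ℕ | ∃ f ∈ (⨅ p ∈ S, linI p ^ m), f ≠ 0 ∧ f.totalDegree = d}.Nonempty := by
    choose l hl hl0 using fun p : Fin (N + 1) → ℂ => linI_ne_bot hN p
    refine ⟨_, ∏ p ∈ S, l p ^ m, ?_, Finset.prod_ne_zero_iff.2 fun p _ => pow_ne_zero _ (hl0 p),
      rfl⟩
    simp only [Submodule.mem_iInf]
    intro p hp
    rw [← Finset.mul_prod_erase _ _ hp]
    exact Ideal.mul_mem_right _ _ (Ideal.pow_mem_pow (hl p) _)
  obtain ⟨F, hF, hF0, hFd⟩ := Nat.sInf_mem hne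
  refine ⟨homogeneousComponent F.totalDegree F, ?_, top_component hF0, ?_⟩
  · simp only [Submodule.mem_iInf] at hF ⊢
    intro p hp
    exact component_mem _ _ (hF p hp) _
  · have := homogeneousComponent_isHomogeneous F.totalDegree F
    rwa [hFd] at this ⊢

/-- For any nonempty finite set of points in complex projective N-space (N at least 1) with ideal I, every m ≥ 1 satisfies alpha(I^(m))/m ≥ (alpha(I^(3)) + N - 1)/(N + 2), i.e. the Waldschmidt constant is at least that bound. -/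
theorem result :
    ∀ (N : ℕ), 1 ≤ N → ∀ S : Finset (Fin (N + 1) → ℂ), S.Nonempty → (∀ p ∈ S, p ≠ 0) →
      ∀ m : ℕ, 1 ≤ m →
        (((sInf {d : ℕ | ∃ f ∈ (⨅ p ∈ S,
              (Ideal.span (Set.range (fun ij : Fin (N + 1) × Fin (N + 1) =>
                (MvPolynomial.X ij.1 * MvPolynomial.C (p ij.2)
                  - MvPolynomial.X ij.2 * MvPolynomial.C (p ij.1) :
                  MvPolynomial (Fin (N + 1)) ℂ)))) ^ 3),
              f ≠ 0 ∧ f.totalDegree = d} : ℕ) : ℝ) + (N : ℝ) - 1) / ((N : ℝ) + 2)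
          ≤ ((sInf {d : ℕ | ∃ f ∈ (⨅ p ∈ S,
              (Ideal.span (Set.range (fun ij : Fin (N + 1) × Fin (N + 1) =>
                (MvPolynomial.X ij.1 * MvPolynomial.C (p ij.2)
                  - MvPolynomial.X ij.2 * MvPolynomial.C (p ij.1) :
                  MvPolynomial (Fin (N + 1)) ℂ)))) ^ m),
              f ≠ 0 ∧ f.totalDegree = d} : ℕ) : ℝ) / (m : ℝ) := by
  intro N hN S hS hS0 m hm
  classical
  have hI : ∀ r : ℕ, (⨅ p ∈ S, (Ideal.span (Set.range (fun ij : Fin (N + 1) × Fin (N + 1) =>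
                (MvPolynomial.X ij.1 * MvPolynomial.C (p ij.2)
                  - MvPolynomial.X ij.2 * MvPolynomial.C (p ij.1) :
                  MvPolynomial (Fin (N + 1)) ℂ)))) ^ r) =
      ⨅ p ∈ S, Pool.Agent.H737R3.linI p ^ r := by
    intro r
    refine iInf_congr fun p => iInf_congr fun hp => ?_
    rw [Pool.Agent.H737R3.span_eq_linI (hS0 p hp)]
  rw [hI 3, hI m]
  obtain ⟨F, hF, hF0, hFh⟩ := spec hN S m
  simp only [Submodule.mem_iInf] at hF
  have key := Pool.Agent.H737R3.demailly_fat ℂ N 3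
    (sInf {d : ℕ | ∃ f ∈ (⨅ p ∈ S, Pool.Agent.H737R3.linI p ^ 3), f ≠ 0 ∧ f.totalDegree = d}) m _
    (S : Set (Fin (N + 1) → ℂ)) (fun _ => 1) F hN (by norm_num) S.finite_toSet
    ⟨hS.choose, hS.choose_spec, le_rfl⟩ (fun v hv => hS0 v hv) ?_ hF0 hFh ?_
  · have h1 := Pool.Agent.H737R3.real_of_nat hN (by norm_num : 1 ≤ 3) hm key
    have h2 : ((3 : ℕ) : ℝ) + (N : ℝ) - 1 = (N : ℝ) + 2 := by push_cast; ring
    rw [h2] at h1
    exact h1
  · intro G d hG0 hG hGv
    apply Nat.sInf_le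
    refine ⟨G, ?_, hG0, hG.totalDegree hG0⟩
    simp only [Submodule.mem_iInf]
    intro p hp
    have := hGv p hp
    beta_reduce at this
    rw [mul_one] at this
    exact Pool.Agent.H737R3.mem_linI_pow hG (hS0 p hp) this
  · intro v hv
    rw [mul_one]
    exact Ideal.pow_right_mono (Pool.Agent.H737R3.linI_le_mI _) _ (hF v hv)

end Pool.Agent.S00541
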