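import Pool.Statements.S00566
import Pool.Agent.Results.MP_fa7d23_ag.NefNotB

set_option autoImplicit false
open Pool Pool.MP_fa7d23_ag

namespace Pool.Agent.S00566

open Pool.Agent.Results.MP_fa7d23_ag.NefNotB in
lemma pointIdeal_ne_top {k : Type} [Field k] (q : Fin 3 → k) :
    pointIdeal q ≠ ⊤ := by
  intro h
  have h2 : pointIdeal q ≤ RingHom.ker (MvPolynomial.eval q) := by
    rw [pointIdeal, Ideal.span_le]
    rintro _ ⟨⟨i, j⟩, rfl⟩
    rw [SetLike.mem_coe, RingHom.mem_ker]
    simp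
    ring
  rw [h] at h2
  have h3 : (1 : MvPolynomial (Fin 3) k) ∈ RingHom.ker (MvPolynomial.eval q) :=
    h2 Submodule.mem_top
  rw [RingHom.mem_ker, map_one] at h3
  exact one_ne_zero h3

open Pool.Agent.Results.MP_fa7d23_ag.NefNotB in
lemma exists_exact {k : Type} [Field k] (q : Fin 3 → k) (g : MvPolynomial (Fin 3) k)
    (hg : g ≠ 0) (μ : ℕ) (hμ : g ∈ pointIdeal q ^ μ) :
    ∃ c : ℕ, μ ≤ c ∧ g ∈ pointIdeal q ^ c ∧ g ∉ pointIdeal q ^ (c + 1) := by
  classical
  have hex : ∃ n, g ∉ pointIdeal q ^ n := by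
    by_contra hcon
    push Not at hcon
    have h1 : g ∈ ⨅ n, pointIdeal q ^ n := by
      rw [Submodule.mem_iInf]
      exact hcon
    rw [Ideal.iInf_pow_eq_bot_of_isDomain _ (pointIdeal_ne_top q)] at h1
    exact hg h1
  have hN := Nat.find_spec hex
  have hmin := fun m => Nat.find_min (H := hex) (m := m)
  set N := Nat.find hex with hNdef
  have hN0 : N ≠ 0 := by
    intro h0
    rw [h0] at hN
    simp at hN
  refine ⟨N - 1, ?_, ?_, ?_⟩
  · by_contra hlt
    push Not at hlt
    exact hN (Ideal.pow_le_pow_right (by omega) hμ)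
  · have := hmin (N - 1) (by omega)
    push Not at this
    exact this
  · rw [Nat.sub_add_cancel (Nat.one_le_iff_ne_zero.2 hN0)]
    exact hN

/-- The negation of the preceding statement: For any r≥1 distinct points of the plane over an algebraically closed field and any effective nef L on the blow-up failing (B), some multiple mL has h^0(mL) equal to its Riemann–Roch value, i.e. h^1(mL)=0. -/
theorem result :
    ¬ (∀ (k : Type) [Field k] [IsAlgClosed k] (r : ℕ), 1 ≤ r →
  ∀ (p : Fin r → Fin 3 → k),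
    (∀ i, p i ≠ 0) →
    (∀ i j, i ≠ j → ∀ c : k, p i ≠ c • p j) →
  ∀ (d : ℕ) (a : Fin r → ℕ),
    (∃ f : MvPolynomial (Fin 3) k, f ≠ 0 ∧ f.IsHomogeneous d ∧
        ∀ i, f ∈ (Ideal.span (Set.range fun ab : Fin 3 × Fin 3 =>
            MvPolynomial.C (p i ab.1) * MvPolynomial.X ab.2
              - MvPolynomial.C (p i ab.2) * MvPolynomial.X ab.1) :
              Ideal (MvPolynomial (Fin 3) k)) ^ a i) →
    (∀ (e : ℕ) (g : MvPolynomial (Fin 3) k), g.IsHomogeneous e → Irreducible g →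
        ∀ μ : Fin r → ℕ,
          (∀ i, g ∈ (Ideal.span (Set.range fun ab : Fin 3 × Fin 3 =>
            MvPolynomial.C (p i ab.1) * MvPolynomial.X ab.2
              - MvPolynomial.C (p i ab.2) * MvPolynomial.X ab.1) :
              Ideal (MvPolynomial (Fin 3) k)) ^ μ i) →
          ∑ i, a i * μ i ≤ d * e) →
    (¬ ∃ (e : ℕ) (γ : Fin r → ℤ), (e ≠ 0 ∨ γ ≠ 0) ∧
        (∃ f : MvPolynomial (Fin 3) k, f ≠ 0 ∧ f.IsHomogeneous e ∧
          ∀ i, f ∈ (Ideal.span (Set.range fun ab : Fin 3 × Fin 3 =>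
            MvPolynomial.C (p i ab.1) * MvPolynomial.X ab.2
              - MvPolynomial.C (p i ab.2) * MvPolynomial.X ab.1) :
              Ideal (MvPolynomial (Fin 3) k)) ^ (γ i).toNat) ∧
        e ≤ d ∧
        (∃ f : MvPolynomial (Fin 3) k, f ≠ 0 ∧ f.IsHomogeneous (d - e) ∧
          ∀ i, f ∈ (Ideal.span (Set.range fun ab : Fin 3 × Fin 3 =>
            MvPolynomial.C (p i ab.1) * MvPolynomial.X ab.2
              - MvPolynomial.C (p i ab.2) * MvPolynomial.X ab.1) :
              Ideal (MvPolynomial (Fin 3) k)) ^ ((a i : ℤ) - γ i).toNat) ∧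
        (e : ℤ) ^ 2 - ∑ i, (γ i) ^ 2 - 3 * (e : ℤ) + ∑ i, γ i > -2 ∧
        (d : ℤ) * (e : ℤ) - ∑ i, (a i : ℤ) * γ i = 0) →
    ∃ m : ℕ, 1 ≤ m ∧
      2 * (Module.finrank k
        ↥(MvPolynomial.homogeneousSubmodule (Fin 3) k (m * d) ⊓
          ⨅ i, Submodule.restrictScalars k
            ((Ideal.span (Set.range fun ab : Fin 3 × Fin 3 =>
              MvPolynomial.C (p i ab.1) * MvPolynomial.X ab.2
                - MvPolynomial.C (p i ab.2) * MvPolynomial.X ab.1) :
                Ideal (MvPolynomial (Fin 3) k)) ^ (m * a i))) : ℤ)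
        = 2 + ((m * d : ℕ) : ℤ) ^ 2 - ∑ i, ((m * a i : ℕ) : ℤ) ^ 2
            + 3 * ((m * d : ℕ) : ℤ) - ∑ i, ((m * a i : ℕ) : ℤ)) := by
  intro H
  obtain ⟨p, ⟨hp0, hpd⟩, hE, hN, hB, hh⟩ := Results.MP_fa7d23_ag.NefNotB.result ℂ
  obtain ⟨m, hm, heq⟩ := H ℂ 15 (by norm_num) p hp0 hpd 4 (fun _ => 1) (by
      -- effective
      obtain ⟨f, hf, hf0⟩ := Submodule.exists_mem_ne_zero_of_ne_bot hE
      rw [Results.MP_fa7d23_ag.NefNotB.mem_H0 _ _ _ hf0] at hf
      exact ⟨f, hf0, hf.2.1, hf.2.2⟩) (by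
      -- nef
      intro e g hg hirr μ hμ
      choose c hc1 hc2 hc3 using fun i => exists_exact (p i) g hirr.ne_zero (μ i) (hμ i)
      have h1 := hN.2 e g c hg hirr fun i => ⟨hc2 i, hc3 i⟩
      simp only [Results.MP_fa7d23_ag.NefNotB.inter, one_mul] at h1
      have h2 : ∑ i, μ i ≤ ∑ i, c i := Finset.sum_le_sum fun i _ => hc1 i
      have h3 : ((∑ i, μ i : ℕ) : ℤ) ≤ ∑ i, (c i : ℤ) := by exact_mod_cast h2
      have h4 : ((∑ i, μ i : ℕ) : ℤ) ≤ ((4 * e : ℕ) : ℤ) := by
        push_cast at h3 ⊢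
        linarith
      simp only [one_mul]
      exact_mod_cast h4) (by
      -- not (B)
      rintro ⟨e, γ, hne, ⟨f, hf0, hfh, hfm⟩, hed, ⟨f', hf0', hfh', hfm'⟩, hpa, hint⟩
      apply hB
      refine ⟨((e : ℤ), γ), ?_, ?_, ?_, ?_, ?_⟩
      · intro h0
        rw [Prod.mk_eq_zero] at h0
        rcases hne with h | h
        · exact h (by exact_mod_cast h0.1)
        · exact h h0.2
      · intro hbot
        have : f ∈ Results.MP_fa7d23_ag.NefNotB.H0 p ((e : ℤ), γ) := by
          rw [Results.MP_fa7d23_ag.NefNotB.mem_H0 _ _ _ hf0]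
          exact ⟨by positivity, by simpa using hfh, hfm⟩
        rw [hbot, Submodule.mem_bot] at this
        exact hf0 this
      · intro hbot
        have : f' ∈ Results.MP_fa7d23_ag.NefNotB.H0 p ((4, fun _ => 1) - ((e : ℤ), γ)) := by
          rw [Results.MP_fa7d23_ag.NefNotB.mem_H0 _ _ _ hf0']
          refine ⟨?_, ?_, ?_⟩
          · simp only [Prod.fst_sub]
            omega
          · have h4 : ((4 : ℤ) - (e : ℤ)).toNat = 4 - e := by omega
            simpa [h4] using hfh'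
          · intro i
            simpa [Results.MP_fa7d23_ag.NefNotB.pointIdeal] using hfm' i
        rw [hbot, Submodule.mem_bot] at this
        exact hf0' this
      · unfold Results.MP_fa7d23_ag.NefNotB.pa
        simp only [Results.MP_fa7d23_ag.NefNotB.inter, Results.MP_fa7d23_ag.NefNotB.canon]
        have h5 : (e : ℤ) * e - ∑ i, γ i * γ i + (-3 * (e : ℤ) - ∑ i, -1 * γ i) =
            (e : ℤ) ^ 2 - ∑ i, (γ i) ^ 2 - 3 * (e : ℤ) + ∑ i, γ i := by
          have h6 : ∑ i, γ i * γ i = ∑ i, (γ i) ^ 2 :=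
            Finset.sum_congr rfl fun i _ => by ring
          have h7 : ∑ i, -1 * γ i = - ∑ i, γ i := by
            rw [← Finset.sum_neg_distrib]
            exact Finset.sum_congr rfl fun i _ => by ring
          rw [h6, h7]
          ring
        rw [h5]
        -- parity
        have hpar : (2 : ℤ) ∣ (e : ℤ) ^ 2 - ∑ i, (γ i) ^ 2 - 3 * (e : ℤ) + ∑ i, γ i := by
          have e1 : (e : ℤ) ^ 2 - ∑ i, (γ i) ^ 2 - 3 * (e : ℤ) + ∑ i, γ i =
              (e : ℤ) * ((e : ℤ) + 1) - 2 * (2 * e) - ∑ i, (γ i - 1) * (γ i - 1 + 1) := by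
            have : ∑ i, (γ i - 1) * (γ i - 1 + 1) = ∑ i, (γ i) ^ 2 - ∑ i, γ i := by
              rw [← Finset.sum_sub_distrib]
              exact Finset.sum_congr rfl fun i _ => by ring
            rw [this]
            ring
          rw [e1]
          apply dvd_sub
          · apply dvd_sub
            · exact (Int.even_mul_succ_self _).two_dvd
            · exact dvd_mul_right _ _
          · exact Finset.dvd_sum fun i _ => (Int.even_mul_succ_self _).two_dvd
        obtain ⟨z, hz⟩ := hpar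
        rw [hz] at hpa ⊢
        omega
      · simp only [Results.MP_fa7d23_ag.NefNotB.inter]
        simpa using hint)
  have h1 := hh m hm
  have hsm : m • ((4, fun _ => 1) : Results.MP_fa7d23_ag.NefNotB.Cls 15) =
      (((m * 4 : ℕ) : ℤ), fun i => (((fun _ => m * 1) : Fin 15 → ℕ) i : ℤ)) := by
    ext i
    · simp
    · simp
  rw [hsm, Results.MP_fa7d23_ag.NefNotB.h1_eq_superabundance,
    Results.MP_fa7d23_ag.NefNotB.H0_coe] at h1
  have hfr : (Module.finrank ℂ
        ↥(MvPolynomial.homogeneousSubmodule (Fin 3) ℂ (m * 4) ⊓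
          ⨅ i, Submodule.restrictScalars ℂ
            ((Ideal.span (Set.range fun ab : Fin 3 × Fin 3 =>
              MvPolynomial.C (p i ab.1) * MvPolynomial.X ab.2
                - MvPolynomial.C (p i ab.2) * MvPolynomial.X ab.1) :
                Ideal (MvPolynomial (Fin 3) ℂ)) ^ (m * (fun _ => 1) i))) : ℤ) =
      (Module.finrank ℂ
        ↥(MvPolynomial.homogeneousSubmodule (Fin 3) ℂ (m * 4) ⊓
          ⨅ i, Submodule.restrictScalars ℂ
            (Results.MP_fa7d23_ag.NefNotB.pointIdeal (p i) ^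
              ((fun _ => m * 1 : Fin 15 → ℕ) i))) : ℤ) := rfl
  rw [hfr] at heq
  generalize (Module.finrank ℂ
        ↥(MvPolynomial.homogeneousSubmodule (Fin 3) ℂ (m * 4) ⊓
          ⨅ i, Submodule.restrictScalars ℂ
            (Results.MP_fa7d23_ag.NefNotB.pointIdeal (p i) ^
              ((fun _ => m * 1 : Fin 15 → ℕ) i))) : ℤ) = A at heq h1
  have k1 := Results.MP_fa7d23_ag.NefNotB.key_choose (m * 4 + 1)
  have k2 := Results.MP_fa7d23_ag.NefNotB.key_choose (m * 1)
  simp only [Finset.sum_const, Finset.card_univ, Fintype.card_fin] at heq h1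
  push_cast at heq h1 k1 k2
  simp only [nsmul_eq_mul] at heq h1
  push_cast at heq h1
  nlinarith

end Pool.Agent.S00566
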