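import Pool.Statements.S00586
import Pool.Agent.W412.Fin

set_option autoImplicit false
open Pool Pool.MP_01baca_al

namespace Pool.Agent.S00586

/-- The negation of the preceding statement: For every ring R with a derivation d and no nonzero nil two-sided ideals, the differential polynomial ring R[x;d] (xr = rx + d(r), free on powers of x) has zero Jacobson radical. -/
theorem result :
    ¬ (∀ (R : Type) [Ring R] (d : R →+ R),
      (∀ a b : R, d (a * b) = d a * b + a * d b) →
      (∀ I : TwoSidedIdeal R, (∀ a ∈ I, IsNilpotent a) → I = ⊥) →
      ∀ (S : Type) [Ring S] (f : R →+* S) (x : S),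
        (∀ r : R, x * f r = f r * x + f (d r)) →
        (∀ s : S, ∃! c : ℕ →₀ R, s = c.sum (fun n a => f a * x ^ n)) →
        (⊥ : Ideal S).jacobson = ⊥) := by
  exact Pool.Agent.W412.final

end Pool.Agent.S00586
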