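import Pool.Statements.S00609
import Pool.Agent.W344.Branch

set_option autoImplicit false
open Pool Pool.MP_042d8e_al

namespace Pool.Agent.S00609

theorem result :
    ∃ (G : Type) (_ : Group G) (V : Type) (_ : MulAction G V) (lev : V → ℕ) (par : V → V),
      (∀ v w : V, lev v = 0 → lev w = 0 → v = w) ∧
      (∃ v : V, lev v = 0) ∧
      (∀ w : V, lev w = 0 → par w = w) ∧
      (∀ w : V, lev w ≠ 0 → lev (par w) + 1 = lev w) ∧
      (∀ n : ℕ, {v : V | lev v = n}.Finite) ∧
      (∀ v : V, ∃ w₁ w₂ : V, w₁ ≠ w₂ ∧ par w₁ = v ∧ par w₂ = v ∧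
          lev w₁ = lev v + 1 ∧ lev w₂ = lev v + 1) ∧
      (∀ (g : G) (w : V), lev (g • w) = lev w ∧ par (g • w) = g • par w) ∧
      (∀ g : G, (∀ v : V, g • v = v) → g = 1) ∧
      (∀ v w : V, lev v = lev w → ∃ g : G, g • v = w) ∧
      (∀ n : ℕ, (Subgroup.closure {g : G | ∃ v : V, lev v = n ∧
          ∀ w : V, (∀ k : ℕ, par^[k] w ≠ v) → g • w = w}).FiniteIndex) ∧
      ∃ M : ℕ → ℕ → Subgroup G,
        (∀ a : ℕ, Antitone (M a) ∧ (∀ i : ℕ, (M a i).Normal ∧ (M a i).FiniteIndex) ∧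
            (⨅ i : ℕ, M a i) = ⊥) ∧
        (∀ a b : ℕ, a ≠ b →
            ¬ ((∀ i : ℕ, ∃ j : ℕ, M b j ≤ M a i) ∧ (∀ i : ℕ, ∃ j : ℕ, M a j ≤ M b i))) := by
  open Pool.Agent.W344.Branch in
  refine ⟨FA, inferInstance, List Bool, inferInstance, List.length, List.tail, ?_, ⟨[], rfl⟩, ?_, ?_,
    ?_, ?_, ?_, ?_, ?_, ?_, fun a i => St i ⊓ (chi {i | (Nat.unpair i).1 = a}).ker, ?_, ?_⟩
  · intro v w hv hw
    rw [List.length_eq_zero_iff.1 hv, List.length_eq_zero_iff.1 hw]
  · intro w hw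
    rw [List.length_eq_zero_iff.1 hw]; rfl
  · intro w hw
    rw [List.length_tail]; omega
  · intro n
    exact List.finite_length_eq Bool n
  · intro v
    exact ⟨false :: v, true :: v, by simp, rfl, rfl, rfl, rfl⟩
  · intro g w
    exact ⟨FA_len g w, FA_tail g w⟩
  · intro g hg
    apply Subtype.ext
    ext1 w
    exact hg w
  · intro v w hvw
    obtain ⟨s, hs, h⟩ := trans_aux v w hvw
    exact ⟨⟨aut s, aut_mem s ⟨v.length, hs⟩⟩, h⟩
  · intro n
    exact Subgroup.finiteIndex_of_le (St_le n)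
  · intro a
    refine ⟨fun i j hij => inf_le_inf_right _ (St_anti hij), fun i => ⟨inferInstance, inferInstance⟩, ?_⟩
    rw [eq_bot_iff]
    intro g hg
    rw [Subgroup.mem_bot]
    apply Subtype.ext
    ext1 w
    have h1 : g ∈ St w.length := ((Subgroup.mem_iInf.1 hg w.length) : _ ∧ _).1
    exact mem_St.1 h1 w le_rfl
  · rintro a b hab ⟨h, -⟩
    obtain ⟨j, hj⟩ := h 0
    set u : List Bool := List.replicate (Nat.pair a j) false with hu
    have hul : u.length = Nat.pair a j := by rw [hu, List.length_replicate]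
    have h1 : (⟨aut (sw u), sw_mem u⟩ : FA) ∈ St j ⊓ (chi {i | (Nat.unpair i).1 = b}).ker := by
      refine ⟨?_, ?_⟩
      · apply mem_St.2
        intro v hv
        apply fwd_sw
        rw [hul]
        exact le_trans hv (Nat.right_le_pair a j)
      · change (⟨aut (sw u), sw_mem u⟩ : FA) ∈ (chi {i | (Nat.unpair i).1 = b}).ker
        rw [MonoidHom.mem_ker, chi_sw]
        have : u.length ∉ {i | (Nat.unpair i).1 = b} := by
          rw [hul]
          intro hc
          have : (Nat.unpair (Nat.pair a j)).1 = b := hc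
          rw [Nat.unpair_pair] at this
          exact hab this
        rw [if_neg this]; rfl
    have h2 : (⟨aut (sw u), sw_mem u⟩ : FA) ∈ (chi {i | (Nat.unpair i).1 = a}).ker := ((hj h1) : _ ∧ _).2
    rw [MonoidHom.mem_ker, chi_sw] at h2
    have : u.length ∈ {i | (Nat.unpair i).1 = a} := by
      rw [hul]
      change (Nat.unpair (Nat.pair a j)).1 = a
      rw [Nat.unpair_pair]
    rw [if_pos this] at h2
    exact absurd (Multiplicative.ofAdd.injective (h2.trans ofAdd_zero.symm)) (by decide)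

end Pool.Agent.S00609
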