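import Pool.Statements.S00694
import Pool.Agent.Results.MP_0c2877_al.InfiniteAbelianization

set_option autoImplicit false
open Pool Pool.MP_0c2877_al

namespace Pool.Agent.S00694

/-- The negation of the preceding statement: There is a nontrivial soluble group with a total order preserved by right multiplication whose abelianization (quotient by the commutator subgroup) is finite. -/
theorem result :
    ¬ (∃ (G : Type) (_ : Group G) (_ : LinearOrder G),
      Nontrivial G ∧ IsSolvable G ∧
      (∀ a b c : G, a ≤ b → a * c ≤ b * c) ∧
      Finite (Abelianization G)) := by
  rintro ⟨G, _, _, hnt, hs, hmul, hfin⟩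
  haveI := hnt
  haveI := hfin
  have hlt : ∀ a b c : G, a < b → a * c < b * c := by
    intro a b c h
    refine lt_of_le_of_ne (hmul a b c h.le) ?_
    intro heq
    exact h.ne (mul_right_cancel heq)
  have hinf : Infinite (Abelianization G) :=
    Pool.Agent.Results.MP_0c2877_al.InfiniteAbelianization.result G hs (· < ·) hlt
  exact not_finite (Abelianization G)

end Pool.Agent.S00694
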