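import Pool.Statements.S00786
import Pool.Agent.Helper199.NavarroRep

set_option autoImplicit false
open Pool Pool.MP_1420ee_al

namespace Pool.Agent.S00786

open Pool.Agent.Helper199.Navarro in
/-- the homomorphism from `L` (isomorphic to `SL(2,3)`) onto the cyclic group of order three -/
def kHom : Pool.Agent.Helper199.Navarro.L →* Multiplicative (ZMod 3) where
  toFun l := Multiplicative.ofAdd (l.k : ZMod 3)
  map_one' := rfl
  map_mul' _ _ := rfl

open Pool.Agent.Helper199.Navarro in
theorem solvable_L : Group.IsSolvable Pool.Agent.Helper199.Navarro.L := by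
  have : Group.IsNilpotent L2 := L2_p.isNilpotent
  refine Group.isSolvable_of_ker_le_range L2.subtype kHom ?_
  intro l hl
  rw [Subgroup.range_subtype]
  exact congrArg Multiplicative.toAdd (MonoidHom.mem_ker.1 hl)

open Pool.Agent.Helper199.Navarro in
theorem solvable_G : Group.IsSolvable Pool.Agent.Helper199.Navarro.G := by
  have : Group.IsNilpotent M := M_p.isNilpotent
  have := solvable_L
  refine Group.isSolvable_of_ker_le_range (SemidirectProduct.inl (φ := phi)) SemidirectProduct.rightHom ?_
  rw [SemidirectProduct.range_inl_eq_ker_rightHom]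

/-- The negation of the preceding statement: For every finite solvable group G and Sylow subgroups G_p, if each G_p has an irreducible complex representation of degree d_p, then G has an irreducible complex representation of degree at least the product of the d_p over primes dividing ∣G∣. -/
theorem result :
    ¬ (∀ (G : Type) [Group G] [Finite G], IsSolvable G →
      ∀ (P : (p : ℕ) → Sylow p G) (d : ℕ → ℕ),
        (∀ p ∈ (Nat.card G).primeFactors,
          ∃ V : FDRep ℂ ↥(P p).toSubgroup,
            CategoryTheory.Simple V ∧ Module.finrank ℂ V = d p) →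
        ∃ W : FDRep ℂ G, CategoryTheory.Simple W ∧
          ∏ p ∈ (Nat.card G).primeFactors, d p ≤ Module.finrank ℂ W) := by
  intro hconj
  classical
  obtain ⟨P2, V2, hV2, hd2⟩ := Pool.Agent.Helper199.Navarro.lower2
  obtain ⟨P3, V3, hV3, hd3⟩ := Pool.Agent.Helper199.Navarro.lower3
  have hpf : (2 ^ 3 * 3 ^ 10 : ℕ).primeFactors = {2, 3} := by
    rw [Nat.primeFactors_mul (by norm_num) (by norm_num), Nat.primeFactors_prime_pow (by norm_num) Nat.prime_two,
      Nat.primeFactors_prime_pow (by norm_num) Nat.prime_three]
    rfl
  let P : (p : ℕ) → Sylow p Pool.Agent.Helper199.Navarro.G := fun p =>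
    if h2 : p = 2 then h2 ▸ P2 else if h3 : p = 3 then h3 ▸ P3 else default
  let d : ℕ → ℕ := fun p => if p = 2 then Module.finrank ℂ V2 else Module.finrank ℂ V3
  obtain ⟨W, hW, hle⟩ := hconj Pool.Agent.Helper199.Navarro.G solvable_G P d (by
    rw [Pool.Agent.Helper199.Navarro.cardG, hpf]
    intro p hp
    simp only [Finset.mem_insert, Finset.mem_singleton] at hp
    rcases hp with rfl | rfl
    · exact ⟨V2, hV2, rfl⟩
    · exact ⟨V3, hV3, rfl⟩)
  rw [Pool.Agent.Helper199.Navarro.cardG, hpf, Finset.prod_pair (by norm_num)] at hle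
  have h108 := Pool.Agent.Helper199.Navarro.upper W
  have h162 : 2 * 81 ≤ d 2 * d 3 := Nat.mul_le_mul hd2 hd3
  omega

end Pool.Agent.S00786
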