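import Pool.Statements.S00818
import Pool.Agent.W326.HB.Ff

set_option autoImplicit false
open Pool Pool.MP_181f73_al

namespace Pool.Agent.S00818

open Pool.Agent.W326.HB in
/-- The negation of the preceding statement: Every bounded 3-cocycle of the free group on two generators with values in ell^2 of the group (left regular action) is the coboundary of a bounded 2-cochain, i.e. the third bounded cohomology with ell^2 coefficients vanishes. -/
theorem result :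
    ¬ (∀ f : FreeGroup (Fin 2) → FreeGroup (Fin 2) → FreeGroup (Fin 2) → FreeGroup (Fin 2) → ℝ,
      (∀ a b c, Summable (fun x => (f a b c x) ^ 2)) →
      (∃ C : ℝ, ∀ a b c, ∑' x, (f a b c x) ^ 2 ≤ C) →
      (∀ g₁ g₂ g₃ g₄ x : FreeGroup (Fin 2),
        f g₂ g₃ g₄ (g₁⁻¹ * x) - f (g₁ * g₂) g₃ g₄ x + f g₁ (g₂ * g₃) g₄ x
          - f g₁ g₂ (g₃ * g₄) x + f g₁ g₂ g₃ x = 0) →
      ∃ h : FreeGroup (Fin 2) → FreeGroup (Fin 2) → FreeGroup (Fin 2) → ℝ,
        (∀ a b, Summable (fun x => (h a b x) ^ 2)) ∧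
        (∃ C : ℝ, ∀ a b, ∑' x, (h a b x) ^ 2 ≤ C) ∧
        ∀ g₁ g₂ g₃ x : FreeGroup (Fin 2),
          f g₁ g₂ g₃ x = h g₂ g₃ (g₁⁻¹ * x) - h (g₁ * g₂) g₃ x + h g₁ (g₂ * g₃) x - h g₁ g₂ x) := by
  intro hall
  obtain ⟨h, hs, ⟨C, hC⟩, hr⟩ := hall ff summable_ff ⟨384, tsum_ff_le⟩ ff_cocycle
  refine no_beta (fun w0 w1 w2 => h (w0⁻¹ * w1) (w1⁻¹ * w2) w0⁻¹) C ?_ ?_
  · intro g0 g1 g2 s
    classical
    have h1 := (hs (g0⁻¹ * g1) (g1⁻¹ * g2)).sum_le_tsum (s.image (fun x => g0⁻¹ * x))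
      (fun _ _ => sq_nonneg _)
    rw [Finset.sum_image] at h1
    · refine le_trans (le_of_eq ?_) (h1.trans (hC _ _))
      apply Finset.sum_congr rfl
      intro x _
      simp only [mul_inv_rev, inv_inv, mul_assoc, mul_inv_cancel_left]
    · intro x _ y _ hxy
      exact mul_left_cancel hxy
  · intro w0 w1 w2 w3
    have h1 := hr (w0⁻¹ * w1) (w1⁻¹ * w2) (w2⁻¹ * w3) w0⁻¹
    unfold ff at h1
    simp only [mul_inv_rev, inv_inv, mul_assoc, mul_inv_cancel_left, mul_inv_cancel, mul_one] at h1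
    exact h1.symm

end Pool.Agent.S00818
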