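import Pool.Statements.S00830

set_option autoImplicit false
open Pool Pool.MP_196888_al

namespace Pool.Agent.S00830

/-- The underlying set `ℤ/25 × ℤ` of both groups of the counterexample. The parameter `w` is the
factor by which commutators are scaled. -/
@[ext] structure GW (w : ℕ) where
  a : ZMod 25
  s : ℤ

/-- `25 = 0` in `ZMod 25`. -/
theorem h25 : (25 : ZMod 25) = 0 := by decide

/-- The product `(a,s)(b,t) = (a + b + 15 w (s b - t a), s + t)`. -/
instance (w : ℕ) : Group (GW w) where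
  mul x y := ⟨x.a + y.a + 15 * w * (x.s * y.a - y.s * x.a), x.s + y.s⟩
  one := ⟨0, 0⟩
  inv x := ⟨-x.a, -x.s⟩
  mul_assoc x y z := by
    apply GW.ext
    · change (x.a + y.a + 15 * w * (x.s * y.a - y.s * x.a)) + z.a + 15 * w * (((x.s + y.s : ℤ) : ZMod 25) * z.a
        - z.s * (x.a + y.a + 15 * w * (x.s * y.a - y.s * x.a))) =
        x.a + (y.a + z.a + 15 * w * (y.s * z.a - z.s * y.a)) + 15 * w * (x.s * (y.a + z.a + 15 * w *
        (y.s * z.a - z.s * y.a)) - ((y.s + z.s : ℤ) : ZMod 25) * x.a)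
      push_cast
      linear_combination (-9 * w * w * z.s * (x.s * y.a - y.s * x.a) -
        9 * w * w * x.s * (y.s * z.a - z.s * y.a)) * h25
    · change x.s + y.s + z.s = x.s + (y.s + z.s)
      ring
  one_mul x := by
    apply GW.ext
    · change 0 + x.a + 15 * w * (((0 : ℤ) : ZMod 25) * x.a - x.s * 0) = x.a
      push_cast; ring
    · change 0 + x.s = x.s
      ring
  mul_one x := by
    apply GW.ext
    · change x.a + 0 + 15 * w * (x.s * 0 - ((0 : ℤ) : ZMod 25) * x.a) = x.a
      push_cast; ring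
    · change x.s + 0 = x.s
      ring
  inv_mul_cancel x := by
    apply GW.ext
    · change -x.a + x.a + 15 * w * (((-x.s : ℤ) : ZMod 25) * x.a - x.s * (-x.a)) = 0
      push_cast; ring
    · change -x.s + x.s = 0
      ring

@[simp] theorem mul_a {w : ℕ} (x y : GW w) :
    (x * y).a = x.a + y.a + 15 * w * (x.s * y.a - y.s * x.a) := rfl
@[simp] theorem mul_s {w : ℕ} (x y : GW w) : (x * y).s = x.s + y.s := rfl
@[simp] theorem one_a {w : ℕ} : (1 : GW w).a = 0 := rfl
@[simp] theorem one_s {w : ℕ} : (1 : GW w).s = 0 := rfl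
@[simp] theorem inv_a {w : ℕ} (x : GW w) : (x⁻¹).a = -x.a := rfl
@[simp] theorem inv_s {w : ℕ} (x : GW w) : (x⁻¹).s = -x.s := rfl

/-- relabelling -/
def tr (w v : ℕ) (x : GW w) : GW v := ⟨x.a, x.s⟩

@[simp] theorem tr_a (w v : ℕ) (x : GW w) : (tr w v x).a = x.a := rfl
@[simp] theorem tr_s (w v : ℕ) (x : GW w) : (tr w v x).s = x.s := rfl
@[simp] theorem tr_tr (w v : ℕ) (x : GW w) : tr v w (tr w v x) = x := rfl
@[simp] theorem tr_one (w v : ℕ) : tr v w 1 = 1 := rfl
@[simp] theorem tr_inv (w v : ℕ) (x : GW v) : tr v w x⁻¹ = (tr v w x)⁻¹ := rfl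

/-- The commutator. -/
abbrev cm {G : Type} [Group G] (x y : G) : G := x * y * x⁻¹ * y⁻¹

/-- product of `GW 3` in terms of `GW 1` -/
theorem tr31 (x y : GW 3) : tr 3 1 (x * y) = tr 3 1 x * tr 3 1 y * cm (tr 3 1 x) (tr 3 1 y) := by
  apply GW.ext
  · simp
    linear_combination (27 * x.a * x.s * y.s + 540 * x.a * x.s * y.s ^ 2 + 2025 * x.a * x.s * y.s ^ 3
      + 135 * x.a * x.s ^ 2 * y.s + 2025 * x.a * x.s ^ 2 * y.s ^ 2 + 36 * x.a * y.s ^ 2
      + 270 * x.a * y.s ^ 3 - 36 * y.a * x.s * y.s - 270 * y.a * x.s * y.s ^ 2 - 27 * y.a * x.s ^ 2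
      - 540 * y.a * x.s ^ 2 * y.s - 2025 * y.a * x.s ^ 2 * y.s ^ 2 - 135 * y.a * x.s ^ 3
      - 2025 * y.a * x.s ^ 3 * y.s) * h25
  · simp

/-- product of `GW 1` in terms of `GW 3` -/
theorem tr13 (x y : GW 1) : tr 1 3 (x * y) = tr 1 3 x * tr 1 3 y * (cm (tr 1 3 x) (tr 1 3 y) *
    cm (tr 1 3 x) (tr 1 3 y) * cm (tr 1 3 x) (tr 1 3 y)) := by
  apply GW.ext
  · simp
    linear_combination (12 * x.a * y.s - 12 * y.a * x.s + 729 * x.a * x.s * y.s
      + 43740 * x.a * x.s * y.s ^ 2 + 492075 * x.a * x.s * y.s ^ 3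
      + 10935 * x.a * x.s ^ 2 * y.s + 492075 * x.a * x.s ^ 2 * y.s ^ 2 + 972 * x.a * y.s ^ 2
      + 21870 * x.a * y.s ^ 3 - 972 * y.a * x.s * y.s - 21870 * y.a * x.s * y.s ^ 2 - 729 * y.a * x.s ^ 2
      - 43740 * y.a * x.s ^ 2 * y.s - 492075 * y.a * x.s ^ 2 * y.s ^ 2 - 10935 * y.a * x.s ^ 3
      - 492075 * y.a * x.s ^ 3 * y.s) * h25
  · simp

/-- a subgroup of a power of `GW 1` is also a subgroup of the same power of `GW 3` -/
def p13 (S : Subgroup (Fin 2 → GW 1)) : Subgroup (Fin 2 → GW 3) where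
  carrier := {f | (fun i => tr 3 1 (f i)) ∈ S}
  mul_mem' {f g} hf hg := by
    have e : (fun i => tr 3 1 ((f * g) i)) = (fun i => tr 3 1 (f i)) * (fun i => tr 3 1 (g i)) *
        cm (fun i => tr 3 1 (f i)) (fun i => tr 3 1 (g i)) := funext fun i => tr31 (f i) (g i)
    change (fun i => tr 3 1 ((f * g) i)) ∈ S
    rw [e]
    have hf' : (fun i => tr 3 1 (f i)) ∈ S := hf
    have hg' : (fun i => tr 3 1 (g i)) ∈ S := hg
    exact S.mul_mem (S.mul_mem hf' hg') (S.mul_mem (S.mul_mem (S.mul_mem hf' hg') (S.inv_mem hf'))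
      (S.inv_mem hg'))
  one_mem' := S.one_mem
  inv_mem' {f} hf := by
    have hf' : (fun i => tr 3 1 (f i)) ∈ S := hf
    exact S.inv_mem hf'

/-- a subgroup of a power of `GW 3` is also a subgroup of the same power of `GW 1` -/
def p31 (S : Subgroup (Fin 2 → GW 3)) : Subgroup (Fin 2 → GW 1) where
  carrier := {f | (fun i => tr 1 3 (f i)) ∈ S}
  mul_mem' {f g} hf hg := by
    have e : (fun i => tr 1 3 ((f * g) i)) = (fun i => tr 1 3 (f i)) * (fun i => tr 1 3 (g i)) *
        (cm (fun i => tr 1 3 (f i)) (fun i => tr 1 3 (g i)) *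
        cm (fun i => tr 1 3 (f i)) (fun i => tr 1 3 (g i)) *
        cm (fun i => tr 1 3 (f i)) (fun i => tr 1 3 (g i))) := funext fun i => tr13 (f i) (g i)
    change (fun i => tr 1 3 ((f * g) i)) ∈ S
    rw [e]
    have hf' : (fun i => tr 1 3 (f i)) ∈ S := hf
    have hg' : (fun i => tr 1 3 (g i)) ∈ S := hg
    have hc : cm (fun i => tr 1 3 (f i)) (fun i => tr 1 3 (g i)) ∈ S :=
      S.mul_mem (S.mul_mem (S.mul_mem hf' hg') (S.inv_mem hf')) (S.inv_mem hg')
    exact S.mul_mem (S.mul_mem hf' hg') (S.mul_mem (S.mul_mem hc hc) hc)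
  one_mem' := S.one_mem
  inv_mem' {f} hf := by
    have hf' : (fun i => tr 1 3 (f i)) ∈ S := hf
    exact S.inv_mem hf'

/-- the projectivity -/
def phi : Subgroup (Fin 2 → GW 1) ≃o Subgroup (Fin 2 → GW 3) where
  toFun := p13
  invFun := p31
  left_inv S := by ext f; rfl
  right_inv S := by ext f; rfl
  map_rel_iff' {S T} := by
    constructor
    · intro h f hf
      exact h (show (fun i => tr 1 3 (f i)) ∈ p13 S from hf)
    · intro h f hf
      exact h hf

theorem mem_rg {G : Type} [Group G] {i : Fin 2} {f : Fin 2 → G} :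
    f ∈ (MonoidHom.mulSingle (fun _ : Fin 2 => G) i).range ↔ ∀ j, j ≠ i → f j = 1 := by
  constructor
  · rintro ⟨g, rfl⟩ j hj
    simp [Pi.mulSingle_eq_of_ne hj]
  · intro h
    refine ⟨f i, ?_⟩
    funext j
    by_cases hj : j = i
    · subst hj; simp
    · rw [h j hj]; simp [Pi.mulSingle_eq_of_ne hj]

theorem phi_rg (i : Fin 2) : phi (MonoidHom.mulSingle (fun _ : Fin 2 => GW 1) i).range =
    (MonoidHom.mulSingle (fun _ : Fin 2 => GW 3) i).range := by
  ext f
  rw [mem_rg]
  change (fun i => tr 3 1 (f i)) ∈ (MonoidHom.mulSingle (fun _ : Fin 2 => GW 1) i).range ↔ _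
  rw [mem_rg]
  refine forall_congr' fun j => forall_congr' fun _ => ?_
  constructor
  · intro h
    have := congrArg (tr 1 3) h
    simpa using this
  · intro h
    rw [h]; rfl

theorem pow_eq {w : ℕ} (x : GW w) (n : ℕ) : x ^ n = ⟨n * x.a, n * x.s⟩ := by
  induction n with
  | zero => simp; rfl
  | succ n ih =>
    rw [pow_succ, ih]
    apply GW.ext
    · simp; ring
    · simp; ring

/-- the two groups are not isomorphic -/
theorem no_iso (e : GW 1 ≃* GW 3) : False := by
  set x : GW 1 := ⟨1, 0⟩ with hx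
  set y : GW 1 := ⟨0, 1⟩ with hy
  have hyx : y * x = x ^ 6 * y := by
    rw [pow_eq]
    apply GW.ext
    · simp [hx, hy]; decide
    · simp [hx, hy]
  have hx25 : x ^ 25 = 1 := by
    rw [pow_eq]
    apply GW.ext
    · simp [hx]; decide
    · simp [hx]
  have hx5 : x ^ 5 ≠ 1 := by
    rw [pow_eq]
    intro h
    have := congrArg GW.a h
    simp [hx] at this
    revert this
    decide
  have h1 : (e x) ^ 25 = 1 := by rw [← map_pow, hx25, map_one]
  have h2 : (e x) ^ 5 ≠ 1 := by
    rw [← map_pow]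
    intro h
    exact hx5 (e.injective (by rw [h, map_one]))
  have h3 : e y * e x = (e x) ^ 6 * e y := by rw [← map_mul, hyx, map_mul, map_pow]
  have hs : (e x).s = 0 := by
    rw [pow_eq] at h1
    have := congrArg GW.s h1
    simpa using this
  have ha : (5 : ZMod 25) * (e x).a ≠ 0 := by
    intro h
    apply h2
    rw [pow_eq]
    apply GW.ext
    · simpa using h
    · simp [hs]
  -- the second coordinate of `e y` is a unit
  have ht : (e y).s = 1 ∨ (e y).s = -1 := by
    obtain ⟨g, hg⟩ := e.surjective ⟨0, 1⟩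
    have key : ∀ n : ℕ, ∀ h : GW 1, (h.s = n ∨ h.s = -n) → (e (h ^ 25)).s = 25 * h.s * (e y).s := by
      intro n h hh
      rcases hh with hh | hh
      · have : h ^ 25 = y ^ (25 * n) := by
          rw [pow_eq, pow_eq]
          apply GW.ext
          · simp only [hy, mul_zero]
            push_cast
            linear_combination h.a * h25
          · simp [hy, hh]
        rw [this, map_pow, pow_eq]
        simp [hh]
      · have : h ^ 25 = (y ^ (25 * n))⁻¹ := by
          rw [pow_eq, pow_eq]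
          apply GW.ext
          · simp only [hy, mul_zero, inv_a, neg_zero]
            push_cast
            linear_combination h.a * h25
          · simp [hy, hh]
        rw [this, map_inv, map_pow, pow_eq]
        simp [hh]
    have h4 := key g.s.natAbs g (Int.natAbs_eq g.s)
    rw [map_pow, pow_eq, hg] at h4
    have h5 : g.s * (e y).s = 1 := by
      have : (25 : ℤ) * 1 = 25 * g.s * (e y).s := by simpa using h4
      linarith
    rw [mul_comm] at h5
    exact Int.eq_one_or_neg_one_of_mul_eq_one h5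
  have h6 := congrArg GW.a h3
  rw [pow_eq] at h6
  simp [hs] at h6
  have h7 : (315 : ZMod 25) * ((e y).s : ZMod 25) * (e x).a = 5 * (e x).a := by
    linear_combination h6
  generalize (e x).a = a at ha h7
  rcases ht with ht | ht
  · rw [ht] at h7
    revert a
    decide
  · rw [ht] at h7
    revert a
    decide

/-- The negation of the preceding statement: For every group G, every m ≥ 2 and every lattice isomorphism φ from the subgroups of G^m to the subgroups of a group H such that H is the internal direct product of the images of the coordinate subgroups, the image of the first coordinate subgroup is isomorphic to G. -/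
theorem result :
    ¬ (∀ (G : Type) [Group G] (n : ℕ) (H : Type) [Group H]
      (φ : Subgroup (Fin (n + 2) → G) ≃o Subgroup H),
      (∀ i : Fin (n + 2),
          (φ (MonoidHom.mulSingle (fun _ : Fin (n + 2) => G) i).range).Normal) →
      (⨆ i : Fin (n + 2), φ (MonoidHom.mulSingle (fun _ : Fin (n + 2) => G) i).range) = ⊤ →
      iSupIndep (fun i : Fin (n + 2) =>
          φ (MonoidHom.mulSingle (fun _ : Fin (n + 2) => G) i).range) →
      Nonempty (↥(φ (MonoidHom.mulSingle (fun _ : Fin (n + 2) => G) 0).range) ≃* G)) := by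
  intro H
  obtain ⟨f⟩ := H (GW 1) 0 (Fin 2 → GW 3) phi (by
      intro i
      change (phi (MonoidHom.mulSingle (fun _ : Fin 2 => GW 1) i).range).Normal
      rw [phi_rg]
      refine ⟨fun x hx g => ?_⟩
      rw [mem_rg] at hx ⊢
      intro j hj
      simp [hx j hj]) (by
      change (⨆ i : Fin 2, phi (MonoidHom.mulSingle (fun _ : Fin 2 => GW 1) i).range) = ⊤
      simp only [phi_rg]
      rw [eq_top_iff]
      intro x _
      have e : x = Pi.mulSingle 0 (x 0) * Pi.mulSingle 1 (x 1) := by
        funext j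
        fin_cases j <;> simp
      rw [e]
      refine Subgroup.mul_mem _ (Subgroup.mem_iSup_of_mem 0 ⟨x 0, rfl⟩)
        (Subgroup.mem_iSup_of_mem 1 ⟨x 1, rfl⟩)) (by
      change iSupIndep (fun i : Fin 2 => phi (MonoidHom.mulSingle (fun _ : Fin 2 => GW 1) i).range)
      simp only [phi_rg]
      intro i
      rw [disjoint_iff, eq_bot_iff]
      intro x hx
      have h1 : x ∈ (MonoidHom.mulSingle (fun _ : Fin 2 => GW 3) i).range := hx.1
      have h2 : x ∈ (Pi.evalMonoidHom (fun _ : Fin 2 => GW 3) i).ker := by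
        have hle : (⨆ j, ⨆ (_ : j ≠ i), (MonoidHom.mulSingle (fun _ : Fin 2 => GW 3) j).range) ≤
            (Pi.evalMonoidHom (fun _ : Fin 2 => GW 3) i).ker := by
          refine iSup_le fun j => iSup_le fun hj => ?_
          intro z hz
          rw [mem_rg] at hz
          exact hz i hj.symm
        exact hle hx.2
      rw [mem_rg] at h1
      rw [Subgroup.mem_bot]
      funext j
      by_cases hj : j = i
      · subst hj; exact h2
      · exact h1 j hj)
  -- transport
  have hr : phi (MonoidHom.mulSingle (fun _ : Fin 2 => GW 1) 0).range =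
    (MonoidHom.mulSingle (fun _ : Fin 2 => GW 3) 0).range := phi_rg 0
  let f' : ↥(phi (MonoidHom.mulSingle (fun _ : Fin 2 => GW 1) 0).range) ≃* GW 1 := f
  let g := (MulEquiv.subgroupCongr hr).symm.trans f'
  let k : GW 3 →* (MonoidHom.mulSingle (fun _ : Fin 2 => GW 3) 0).range :=
    (MonoidHom.mulSingle (fun _ : Fin 2 => GW 3) 0).rangeRestrict
  have hk : Function.Bijective k := by
    refine ⟨?_, MonoidHom.rangeRestrict_surjective _⟩
    intro a b hab
    have := congrArg (fun z : (MonoidHom.mulSingle (fun _ : Fin 2 => GW 3) 0).range =>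
      (z : Fin 2 → GW 3) 0) hab
    simpa [k] using this
  exact no_iso ((MulEquiv.ofBijective k hk).trans g).symm

end Pool.Agent.S00830
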