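import Pool.Statements.S00878
import Pool.Agent.Helper475.Torsion

set_option autoImplicit false
open scoped Pointwise
open Pool Pool.MP_1dd661_al

namespace Pool.Agent.S00878

/-- The two-element group. -/
abbrev F2 : Type := Multiplicative (ZMod 2)

/-- The right shift action of a group on functions. -/
def shift (T : Type) [Group T] : T →* MulAut (T → F2) where
  toFun t :=
    { toFun := fun f s => f (s * t)
      invFun := fun f s => f (s * t⁻¹)
      left_inv := fun f => by funext s; simp
      right_inv := fun f => by funext s; simp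
      map_mul' := fun f g => by funext s; rfl }
  map_one' := by
    ext f s
    simp
  map_mul' t u := by
    ext f s
    simp [mul_assoc]

lemma shift_apply {T : Type} [Group T] (t : T) (f : T → F2) (s : T) :
    shift T t f s = f (s * t) := rfl

/-- If an automorphism of finite order satisfies the factorisation `U = U₊ U₋` then it maps the
subgroup into itself. -/
lemma invariant_of_tidy {G : Type} [Group G] (a : MulAut G) (m : ℕ) (hm : 0 < m) (ha : a ^ m = 1)
    (U : Subgroup G)
    (h : (U : Set G) =
              (⋂ n : ℕ, Set.image (⇑(a ^ n)) (U : Set G)) *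
                (⋂ n : ℕ, Set.image (⇑(a⁻¹ ^ n)) (U : Set G)))
    (u : G) (hu : u ∈ U) : a u ∈ U := by
  have hu' : u ∈ (U : Set G) := hu
  rw [h] at hu'
  obtain ⟨x, hx, y, hy, rfl⟩ := Set.mem_mul.mp hu'
  rw [Set.mem_iInter] at hx hy
  obtain ⟨z, hz, hzx⟩ := hx (m - 1)
  obtain ⟨w, hw, hwy⟩ := hy 1
  have h1 : a x = z := by
    rw [← hzx]
    have : a ((a ^ (m - 1)) z) = (a ^ (m - 1 + 1)) z := by
      rw [pow_succ', MulAut.mul_apply]
    rw [this, Nat.sub_add_cancel hm, ha, MulAut.one_apply]
  have h2 : a y = w := by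
    rw [← hwy, pow_one]
    simp
  rw [map_mul, h1, h2]
  exact U.mul_mem hz hw

/-- Image of an invariant subgroup under all powers. -/
lemma image_eq_of_inv {G : Type} [Group G] (a : MulAut G) (U : Subgroup G)
    (h1 : ∀ u ∈ U, a u ∈ U) (h2 : ∀ u ∈ U, a⁻¹ u ∈ U) :
    (∀ n : ℕ, Set.image (⇑(a ^ n)) (U : Set G) = (U : Set G)) ∧
    (∀ n : ℕ, Set.image (⇑(a⁻¹ ^ n)) (U : Set G) = (U : Set G)) := by
  have key : ∀ b : MulAut G, (∀ u ∈ U, b u ∈ U) → (∀ u ∈ U, b⁻¹ u ∈ U) →
      ∀ n : ℕ, Set.image (⇑(b ^ n)) (U : Set G) = (U : Set G) := by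
    intro b hb1 hb2 n
    have hp1 : ∀ n : ℕ, ∀ u ∈ U, (b ^ n) u ∈ U := by
      intro n
      induction n with
      | zero => intro u hu; simpa using hu
      | succ n ih =>
        intro u hu
        rw [pow_succ', MulAut.mul_apply]
        exact hb1 _ (ih u hu)
    have hp2 : ∀ n : ℕ, ∀ u ∈ U, (b⁻¹ ^ n) u ∈ U := by
      intro n
      induction n with
      | zero => intro u hu; simpa using hu
      | succ n ih =>
        intro u hu
        rw [pow_succ', MulAut.mul_apply]
        exact hb2 _ (ih u hu)
    apply Set.Subset.antisymm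
    · rintro _ ⟨u, hu, rfl⟩
      exact hp1 n u hu
    · intro u hu
      refine ⟨(b⁻¹ ^ n) u, hp2 n u hu, ?_⟩
      rw [← MulAut.mul_apply, inv_pow, mul_inv_cancel, MulAut.one_apply]
  refine ⟨key a h1 h2, ?_⟩
  have := key a⁻¹ h2 (by simpa using h1)
  exact this

/-- The negation of the preceding statement: For a t.d.l.c. group G and a finitely generated flat group H of topological automorphisms, there are finitely many distinct elements of H whose nubs multiply, as sets, to the nub of H. -/
theorem result :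
    ¬ (∀ (G : Type) [Group G] [TopologicalSpace G] [IsTopologicalGroup G]
      [LocallyCompactSpace G] [TotallyDisconnectedSpace G]
      (H : Subgroup (MulAut G)) (tidy : MulAut G → Subgroup G → Prop),
      (∀ (a : MulAut G) (U : Subgroup G), tidy a U ↔
          ((U : Set G) =
              (⋂ n : ℕ, Set.image (⇑(a ^ n)) (U : Set G)) *
                (⋂ n : ℕ, Set.image (⇑(a⁻¹ ^ n)) (U : Set G)) ∧
            IsClosed (⋃ m : ℕ, Set.image (⇑(a ^ m))
                (⋂ n : ℕ, Set.image (⇑(a ^ n)) (U : Set G))))) →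
      (∀ a ∈ H, Continuous (⇑a)) →
      H.FG →
      (∃ U : Subgroup G, IsCompact (U : Set G) ∧ IsOpen (U : Set G) ∧
          ∀ a ∈ H, tidy a U) →
      ∃ l : List (MulAut G), l.Nodup ∧ (∀ a ∈ l, a ∈ H) ∧
        (⋂ (U : Subgroup G)
            (_ : IsCompact (U : Set G) ∧ IsOpen (U : Set G) ∧ ∀ a ∈ H, tidy a U),
            (U : Set G)) =
          (l.map (fun a => ⋂ (U : Subgroup G)
              (_ : IsCompact (U : Set G) ∧ IsOpen (U : Set G) ∧ tidy a U),
              (U : Set G))).prod) := by
  intro hall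
  classical
  obtain ⟨T, instT, S, hS, hinf, htor⟩ := Pool.Agent.Helper475.Torsion.exists_inf_torsion
  let _ : TopologicalSpace F2 := ⊥
  have _ : DiscreteTopology F2 := ⟨rfl⟩
  have _ : IsTopologicalGroup F2 := inferInstance
  -- finite order of the shifts
  have hord : ∀ t : T, ∃ m : ℕ, 0 < m ∧ t ^ m = 1 := fun t =>
    (isOfFinOrder_iff_pow_eq_one).mp (htor t)
  obtain ⟨l, -, hl, hnub⟩ := hall (T → F2) (shift T).range
    (fun a U => ((U : Set (T → F2)) =
              (⋂ n : ℕ, Set.image (⇑(a ^ n)) (U : Set (T → F2))) *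
                (⋂ n : ℕ, Set.image (⇑(a⁻¹ ^ n)) (U : Set (T → F2))) ∧
            IsClosed (⋃ m : ℕ, Set.image (⇑(a ^ m))
                (⋂ n : ℕ, Set.image (⇑(a ^ n)) (U : Set (T → F2))))))
    (fun a U => Iff.rfl)
    (by
      rintro _ ⟨t, rfl⟩
      exact continuous_pi (fun s => continuous_apply (s * t)))
    (by
      rw [MonoidHom.range_eq_map]
      refine ⟨S.image (shift T), ?_⟩
      rw [Finset.coe_image, ← MonoidHom.map_closure, hS])
    (by
      refine ⟨⊤, ?_, ?_, ?_⟩
      · rw [Subgroup.coe_top]; exact isCompact_univ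
      · rw [Subgroup.coe_top]; exact isOpen_univ
      · intro a _
        obtain ⟨h1, h2⟩ := image_eq_of_inv a (⊤ : Subgroup (T → F2)) (fun u _ => Subgroup.mem_top _)
          (fun u _ => Subgroup.mem_top _)
        simp only [h1, h2, Set.iInter_const, Set.iUnion_const]
        exact ⟨(coe_mul_coe _).symm, isClosed_univ⟩)
  -- every nub of an element is trivial
  have hnub1 : ∀ a ∈ (shift T).range, (⋂ (U : Subgroup (T → F2))
              (_ : IsCompact (U : Set (T → F2)) ∧ IsOpen (U : Set (T → F2)) ∧
                ((U : Set (T → F2)) =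
              (⋂ n : ℕ, Set.image (⇑(a ^ n)) (U : Set (T → F2))) *
                (⋂ n : ℕ, Set.image (⇑(a⁻¹ ^ n)) (U : Set (T → F2))) ∧
            IsClosed (⋃ m : ℕ, Set.image (⇑(a ^ m))
                (⋂ n : ℕ, Set.image (⇑(a ^ n)) (U : Set (T → F2)))))),
              (U : Set (T → F2))) = (1 : Set (T → F2)) := by
    rintro _ ⟨t, rfl⟩
    apply Set.Subset.antisymm
    · intro f hf
      rw [Set.mem_one]
      by_contra hne
      obtain ⟨s, hs⟩ : ∃ s, f s ≠ 1 := by
        by_contra hcon
        push Not at hcon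
        exact hne (funext hcon)
      let U : Subgroup (T → F2) :=
        { carrier := {g | ∀ x ∈ Subgroup.zpowers t, g (s * x) = 1}
          mul_mem' := fun {g h} hg hh x hx => by
            rw [Pi.mul_apply, hg x hx, hh x hx, one_mul]
          one_mem' := fun x _ => rfl
          inv_mem' := fun {g} hg x hx => by
            rw [Pi.inv_apply, hg x hx, inv_one] }
      have hUmem : ∀ g, g ∈ U ↔ ∀ x ∈ Subgroup.zpowers t, g (s * x) = 1 := fun g => Iff.rfl
      have hfin : ((Subgroup.zpowers t : Subgroup T) : Set T).Finite := by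
        exact finite_zpowers.mpr (htor t)
      have hUset : (U : Set (T → F2)) = ⋂ x ∈ ((Subgroup.zpowers t : Subgroup T) : Set T),
          {g : T → F2 | g (s * x) = 1} := by
        ext g
        simp [hUmem]
      have hUopen : IsOpen (U : Set (T → F2)) := by
        rw [hUset]
        apply hfin.isOpen_biInter
        intro x _
        have : {g : T → F2 | g (s * x) = 1} = (fun g : T → F2 => g (s * x)) ⁻¹' {1} := rfl
        rw [this]
        exact (isOpen_discrete _).preimage (continuous_apply _)
      have hUclosed : IsClosed (U : Set (T → F2)) := U.isClosed_of_isOpen hUopen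
      have i1 : ∀ u ∈ U, shift T t u ∈ U := by
        intro u hu x hx
        rw [shift_apply, mul_assoc]
        exact hu _ (Subgroup.mul_mem _ hx (Subgroup.mem_zpowers t))
      have i2 : ∀ u ∈ U, (shift T t)⁻¹ u ∈ U := by
        intro u hu x hx
        rw [← map_inv, shift_apply, mul_assoc]
        exact hu _ (Subgroup.mul_mem _ hx (Subgroup.inv_mem _ (Subgroup.mem_zpowers t)))
      obtain ⟨h1, h2⟩ := image_eq_of_inv (shift T t) U i1 i2
      have h3 := Set.mem_iInter₂.mp hf U (by
        refine ⟨hUclosed.isCompact, hUopen, ?_, ?_⟩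
        · simp only [h1, h2, Set.iInter_const]
          exact (coe_mul_coe U).symm
        · simp only [h1, Set.iInter_const, Set.iUnion_const]
          exact hUclosed)
      have h4 := h3 1 (Subgroup.one_mem _)
      rw [mul_one] at h4
      exact hs h4
    · intro f hf
      rw [Set.mem_one] at hf
      rw [hf]
      refine Set.mem_iInter₂.mpr (fun U _ => U.one_mem)
  -- the nub of the whole group is everything
  have hnubH : ∀ U : Subgroup (T → F2), (IsCompact (U : Set (T → F2)) ∧ IsOpen (U : Set (T → F2)) ∧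
      ∀ a ∈ (shift T).range, ((U : Set (T → F2)) =
              (⋂ n : ℕ, Set.image (⇑(a ^ n)) (U : Set (T → F2))) *
                (⋂ n : ℕ, Set.image (⇑(a⁻¹ ^ n)) (U : Set (T → F2))) ∧
            IsClosed (⋃ m : ℕ, Set.image (⇑(a ^ m))
                (⋂ n : ℕ, Set.image (⇑(a ^ n)) (U : Set (T → F2)))))) → 
      ∀ g, g ∈ U := by
    rintro U ⟨-, hUo, hU⟩ g
    have hinv : ∀ t : T, ∀ u ∈ U, shift T t u ∈ U := by
      intro t u hu
      obtain ⟨m, hm, htm⟩ := hord t
      refine invariant_of_tidy (shift T t) m hm ?_ U (hU _ ⟨t, rfl⟩).1 u hu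
      rw [← map_pow, htm, map_one]
    obtain ⟨I, u, hIu, hsub⟩ := isOpen_pi_iff.mp hUo 1 U.one_mem
    have hI : ∀ h : T → F2, (∀ s ∈ I, h s = 1) → h ∈ U := by
      intro h hh
      apply hsub
      intro s hs
      rw [hh s hs]
      exact (hIu s hs).2
    obtain ⟨τ, hτ⟩ := Infinite.exists_notMem_finset ((I ×ˢ I).image (fun p => p.1⁻¹ * p.2))
    have hτ' : ∀ s ∈ I, s * τ⁻¹ ∉ I := by
      intro s hs hs'
      apply hτ
      rw [Finset.mem_image]
      refine ⟨(s * τ⁻¹, s), Finset.mem_product.mpr ⟨hs', hs⟩, ?_⟩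
      simp
    have hg : g = (fun s => if s ∈ I then 1 else g s) * (fun s => if s ∈ I then g s else 1) := by
      funext s
      by_cases hs : s ∈ I <;> simp [hs]
    rw [hg]
    apply U.mul_mem
    · apply hI
      intro s hs
      simp [hs]
    · have h1 : shift T τ⁻¹ (fun s => if s ∈ I then g s else 1) ∈ U := by
        apply hI
        intro s hs
        rw [shift_apply]
        simp [hτ' s hs]
      have h2 := hinv τ _ h1
      rw [← MulAut.mul_apply, ← map_mul, mul_inv_cancel, map_one, MulAut.one_apply] at h2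
      exact h2
  -- conclusion
  have hprod : (l.map (fun a : MulAut (T → F2) => ⋂ (U : Subgroup (T → F2))
              (_ : IsCompact (U : Set (T → F2)) ∧ IsOpen (U : Set (T → F2)) ∧ 
                ((U : Set (T → F2)) =
              (⋂ n : ℕ, Set.image (⇑(a ^ n)) (U : Set (T → F2))) *
                (⋂ n : ℕ, Set.image (⇑(a⁻¹ ^ n)) (U : Set (T → F2))) ∧
            IsClosed (⋃ m : ℕ, Set.image (⇑(a ^ m))
                (⋂ n : ℕ, Set.image (⇑(a ^ n)) (U : Set (T → F2)))))),
              (U : Set (T → F2)))).prod = (1 : Set (T → F2)) := by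
    apply List.prod_eq_one
    intro x hx
    rw [List.mem_map] at hx
    obtain ⟨a, ha, rfl⟩ := hx
    exact hnub1 a (hl a ha)
  have hmem : (fun _ : T => (Multiplicative.ofAdd (1 : ZMod 2))) ∈ (1 : Set (T → F2)) := by
    rw [← hprod, ← hnub]
    exact Set.mem_iInter₂.mpr (fun U hU => hnubH U hU _)
  rw [Set.mem_one] at hmem
  have h5 : Multiplicative.ofAdd (1 : ZMod 2) = 1 := congrFun hmem 1
  exact absurd h5 (by decide)

end Pool.Agent.S00878
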