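import Pool.Statements.S00904
import Pool.Agent.Helper895.AltComm

set_option autoImplicit false
open Pool Pool.MP_20522e_al

namespace Pool.Agent.S00904

open Pool.Agent.Helper895.Alt

/-- the relation of the frozen statement -/
def rel3 : F3 → F3 → Prop := fun x y : F3 =>
  ∃ u v : F3, (x = (u * u) * v - u * (u * v) ∨ x = (v * u) * u - v * (u * u)) ∧ y = 0

theorem sub_zero_iff (c : RingCon F3) (a b : F3) : c (a - b) 0 ↔ c a b := by
  constructor
  · intro h
    have := c.add h (c.refl b)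
    simpa using this
  · intro h
    have := c.sub h (c.refl b)
    simpa using this

theorem isAltCon_rel3 : IsAltCon (ringConGen rel3) where
  law := by
    intro a b
    refine ⟨(sub_zero_iff _ _ _).1 ?_, (sub_zero_iff _ _ _).1 ?_⟩
    · exact RingCon.le_ringConGen _ _ ⟨a, b, Or.inl rfl, rfl⟩
    · exact RingCon.le_ringConGen _ _ ⟨a, b, Or.inr rfl, rfl⟩
  le := by
    intro d hd
    refine RingCon.ringConGen_le.2 ?_
    rintro x y ⟨u, v, h | h, rfl⟩
    · rw [h]
      exact (sub_zero_iff _ _ _).2 (hd u v).1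
    · rw [h]
      exact (sub_zero_iff _ _ _).2 (hd u v).2

/-- The negation of the preceding statement: For every set X with at least 3 elements, the free alternative ring over the integers on X (free nonassociative ring modulo all associators (u,u,v),(v,u,u)) has a nonzero two-sided ideal all of whose elements commute with everything. -/
theorem result :
    ¬ (∀ (X : Type), 3 ≤ Cardinal.mk X →
      ∃ I : AddSubgroup (MonoidAlgebra ℤ (FreeMagma X)),
        (∀ a ∈ I, ∀ b : MonoidAlgebra ℤ (FreeMagma X), a * b ∈ I ∧ b * a ∈ I) ∧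
        (∃ a ∈ I, ¬ (ringConGen (fun x y : MonoidAlgebra ℤ (FreeMagma X) =>
            ∃ u v : MonoidAlgebra ℤ (FreeMagma X),
              (x = (u * u) * v - u * (u * v) ∨ x = (v * u) * u - v * (u * u)) ∧ y = 0)) a 0) ∧
        (∀ a ∈ I, ∀ b : MonoidAlgebra ℤ (FreeMagma X),
          (ringConGen (fun x y : MonoidAlgebra ℤ (FreeMagma X) =>
            ∃ u v : MonoidAlgebra ℤ (FreeMagma X),
              (x = (u * u) * v - u * (u * v) ∨ x = (v * u) * u - v * (u * u)) ∧ y = 0))
            (a * b - b * a) 0)) := by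
  intro H
  obtain ⟨I, h1, ⟨a, ha, hne⟩, h3⟩ := H (Fin 3) (by simp)
  let c : RingCon F3 := ringConGen rel3
  have hc : IsAltCon c := isAltCon_rel3
  let J : TwoSidedIdeal c.Quotient := TwoSidedIdeal.mk'
    {z : c.Quotient | ∃ x ∈ I, (x : c.Quotient) = z}
    ⟨0, I.zero_mem, rfl⟩
    (by
      rintro _ _ ⟨x, hx, rfl⟩ ⟨y, hy, rfl⟩
      exact ⟨x + y, I.add_mem hx hy, rfl⟩)
    (by
      rintro _ ⟨x, hx, rfl⟩
      exact ⟨-x, I.neg_mem hx, rfl⟩)
    (by
      rintro z _ ⟨x, hx, rfl⟩
      obtain ⟨y, rfl⟩ := Quotient.exists_rep z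
      exact ⟨y * x, (h1 x hx y).2, rfl⟩)
    (by
      rintro _ z ⟨x, hx, rfl⟩
      obtain ⟨y, rfl⟩ := Quotient.exists_rep z
      exact ⟨x * y, (h1 x hx y).1, rfl⟩)
  have hJ : ∀ z : c.Quotient, z ∈ J ↔ ∃ x ∈ I, (x : c.Quotient) = z := by
    intro z
    simp [J, TwoSidedIdeal.mem_mk']
  have hcomm : ∀ z ∈ J, ∀ w : c.Quotient, z * w = w * z := by
    intro z hz w
    obtain ⟨x, hx, rfl⟩ := (hJ z).1 hz
    obtain ⟨y, rfl⟩ := Quotient.exists_rep w
    have := (sub_zero_iff c _ _).1 (h3 x hx y)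
    exact (RingCon.eq c).2 this
  have h0 : (a : c.Quotient) = 0 := ideal_comm hc J hcomm ((hJ _).2 ⟨a, ha, rfl⟩)
  exact hne ((RingCon.eq c).1 h0)

end Pool.Agent.S00904
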