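import Pool.Statements.S00905
-- import your own Pool.Agent.* helpers here

set_option autoImplicit false
open Pool Pool.MP_207b86_al

open Topology

namespace Pool.Agent.S00905

/-- the finite group of permutations of three points, with the discrete topology -/
abbrev P3 : Type := Equiv.Perm (Fin 3)

abbrev GG : Type := ℕ → P3

instance tP3 : TopologicalSpace P3 := ⊥
instance dP3 : DiscreteTopology P3 := ⟨rfl⟩

lemma cont_free (f : FreeGroup Unit) :
    Continuous (fun g : GG => FreeGroup.lift (fun _ : Unit => g) f) := by
  induction f using FreeGroup.induction_on with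
  | C1 => simpa using continuous_const
  | of x =>
    have h : (fun g : GG => FreeGroup.lift (fun _ : Unit => g) (FreeGroup.of x)) = id := by
      funext g
      simp
    exact h ▸ continuous_id
  | inv_of x h => simpa using (continuous_inv : Continuous (fun g : GG => g⁻¹))
  | mul x y hx hy =>
    simp only [map_mul]
    exact hx.mul hy

lemma cont_eval (w : Monoid.Coprod GG (FreeGroup Unit)) :
    Continuous (fun g : GG =>
      Monoid.Coprod.lift (MonoidHom.id GG) (FreeGroup.lift (fun _ => g)) w) := by
  induction w using Monoid.Coprod.induction_on with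
  | inl m => simpa using continuous_const
  | inr f => simpa using cont_free f
  | mul x y hx hy =>
    simp only [map_mul]
    exact hx.mul hy

/-- the family of complements of solution sets -/
def fam : Set (Set GG) := {U : Set GG | ∃ w : Monoid.Coprod GG (FreeGroup Unit),
          U = {g : GG | Monoid.Coprod.lift (MonoidHom.id GG) (FreeGroup.lift (fun _ => g)) w = 1}ᶜ}

lemma center_triv (s : P3) (h : ∀ g : P3, g * s = s * g) : s = 1 := by
  revert s
  decide

lemma closed_eq (i : ℕ) (b : P3) :
    IsClosed[TopologicalSpace.generateFrom fam] {x : GG | x i = b} := by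
  have e : {x : GG | x i = b} = ⋂ g : P3, {x : GG | Monoid.Coprod.lift (MonoidHom.id GG)
      (FreeGroup.lift (fun _ => x))
      (Monoid.Coprod.inl (Pi.mulSingle i g) *
        (Monoid.Coprod.inl (Pi.mulSingle i b⁻¹) * Monoid.Coprod.inr (FreeGroup.of ())) *
        (Monoid.Coprod.inl (Pi.mulSingle i g))⁻¹ *
        (Monoid.Coprod.inl (Pi.mulSingle i b⁻¹) * Monoid.Coprod.inr (FreeGroup.of ()))⁻¹) = 1} := by
    ext x
    simp only [Set.mem_ofPred_eq, Set.mem_iInter, map_mul, map_inv, Monoid.Coprod.lift_apply_inl,
      Monoid.Coprod.lift_apply_inr, MonoidHom.id_apply, FreeGroup.lift_apply_of]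
    constructor
    · intro h g
      funext j
      by_cases hj : j = i
      · subst hj
        simp [h]
      · simp [hj]
    · intro h
      have h2 : b⁻¹ * x i = 1 := by
        apply center_triv
        intro g
        have h3 := congrFun (h g) i
        simp only [Pi.mul_apply, Pi.inv_apply, Pi.mulSingle_eq_same, Pi.one_apply] at h3
        rw [mul_inv_eq_one, mul_inv_eq_iff_eq_mul] at h3
        exact h3
      exact (inv_mul_eq_one.1 h2).symm
  rw [e]
  refine @isClosed_iInter _ _ (TopologicalSpace.generateFrom fam) _ fun g => ?_
  rw [← @isOpen_compl_iff _ _ (TopologicalSpace.generateFrom fam)]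
  exact TopologicalSpace.isOpen_generateFrom_of_mem ⟨_, rfl⟩

lemma open_eq (i : ℕ) (b : P3) :
    IsOpen[TopologicalSpace.generateFrom fam] {x : GG | x i = b} := by
  have e : {x : GG | x i = b} = (⋃ c ∈ ({c : P3 | c ≠ b}), {x : GG | x i = c})ᶜ := by
    ext x
    simp only [Set.mem_ofPred_eq, Set.mem_compl_iff, Set.mem_iUnion, not_exists]
    constructor
    · intro h c hc hx
      exact hc (hx.symm.trans h)
    · intro h
      by_contra hx
      exact h (x i) hx rfl
  rw [e, @isOpen_compl_iff _ _ (TopologicalSpace.generateFrom fam)]
  exact @Set.Finite.isClosed_biUnion _ _ (TopologicalSpace.generateFrom fam) _ _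
    (Set.toFinite _) (fun c _ => closed_eq i c)

lemma top_eq : TopologicalSpace.generateFrom fam = (Pi.topologicalSpace : TopologicalSpace GG) := by
  apply le_antisymm
  · refine le_iInf fun i => ?_
    rw [← continuous_iff_le_induced]
    rw [@continuous_def _ _ (TopologicalSpace.generateFrom fam)]
    intro s _
    have : (fun x : GG => x i) ⁻¹' s = ⋃ b ∈ s, {x : GG | x i = b} := by
      ext x
      simp
    rw [this]
    exact @isOpen_biUnion _ _ (TopologicalSpace.generateFrom fam) _ _ (fun b _ => open_eq i b)
  · refine le_generateFrom ?_
    rintro U ⟨w, rfl⟩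
    rw [isOpen_compl_iff]
    exact isClosed_singleton.preimage (cont_eval w)

/-- There is an infinite group whose Zariski topology is both compact and Hausdorff. The closed sets of that topology are generated by solution sets of one-variable equations with constants from the group. -/
theorem result :
    ∃ (G : Type) (_ : Group G) (T : TopologicalSpace G),
      Infinite G ∧
      T = TopologicalSpace.generateFrom
        {U : Set G | ∃ w : Monoid.Coprod G (FreeGroup Unit),
          U = {g : G | Monoid.Coprod.lift (MonoidHom.id G) (FreeGroup.lift (fun _ => g)) w = 1}ᶜ} ∧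
      @CompactSpace G T ∧ @T2Space G T := by
  refine ⟨GG, inferInstance, TopologicalSpace.generateFrom fam, inferInstance, rfl, ?_, ?_⟩
  · rw [top_eq]
    infer_instance
  · rw [top_eq]
    infer_instance

end Pool.Agent.S00905
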