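import Pool.Statements.S00938
import Pool.Agent.W335.Top

set_option autoImplicit false
open Pool Pool.MP_23009a_al

namespace Pool.Agent.S00938

/-- The negation of the preceding statement: For every non-Archimedean Polish group G: all continuous isometric actions of G on metric spaces have bounded orbits if and only if every continuous affine isometric action of G on a reflexive real Banach space has a fixed point. -/
theorem result :
    ¬ (∀ (G : Type) [Group G] [TopologicalSpace G] [NonarchimedeanGroup G] [PolishSpace G],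
      (∀ (X : Type) [MetricSpace X] (ρ : G →* (X ≃ᵢ X)),
          (∀ x : X, Continuous (fun g : G => ρ g x)) →
          ∀ x : X, Bornology.IsBounded (Set.range (fun g : G => ρ g x)))
      ↔
      (∀ (E : Type) [NormedAddCommGroup E] [NormedSpace ℝ E] [CompleteSpace E],
          Function.Surjective (NormedSpace.inclusionInDoubleDual ℝ E) →
          ∀ ρ : G →* (E ≃ᵃⁱ[ℝ] E),
            (∀ v : E, Continuous (fun g : G => ρ g v)) →
            ∃ v : E, ∀ g : G, ρ g v = v)) := by
  intro H
  obtain ⟨X, hXm, hX⟩ := Pool.Agent.W335.exists_QU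
  have hXc := hX.countable
  obtain ⟨x0⟩ := hX.nonempty
  let _ : TopologicalSpace (X ≃ᵢ X) := Pool.Agent.W335.isoTop X
  have i1 : NonarchimedeanGroup (X ≃ᵢ X) := Pool.Agent.W335.isoNonarch X
  have i2 : PolishSpace (X ≃ᵢ X) := Pool.Agent.W335.isoPolish X
  have hOB := (H (X ≃ᵢ X)).2 (by
    intro E _ _ _ hE ρ hρ
    refine Pool.Agent.W335.main_fix ρ hX hE ?_
    intro v ε hε
    have h1 : {g : X ≃ᵢ X | dist (ρ g v) v < ε} ∈ nhds (1 : X ≃ᵢ X) := by
      have h2 := (hρ v).continuousAt (x := 1)
      have h3 := h2 (Metric.ball_mem_nhds (ρ 1 v) hε)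
      rw [map_one] at h3
      exact h3
    obtain ⟨F, hF⟩ := Pool.Agent.W335.exists_fix_subset _ h1
    exact ⟨F, fun h hh => hF h hh⟩)
  have hb := hOB X (MonoidHom.id _) (by
    intro x
    have h1 := Pool.Agent.W335.continuous_ap x
    have h2 : Continuous (fun y : Pool.Agent.W335.Disc X => y.pt) := continuous_of_discreteTopology
    exact h2.comp h1) x0
  obtain ⟨R, hR⟩ := (Metric.isBounded_iff_subset_closedBall x0).1 hb
  -- a point far away
  obtain ⟨n, hn⟩ := exists_nat_gt (max R 0)
  obtain ⟨y, hy⟩ := hX.ext' (ι := Unit) (fun _ => x0) (fun _ => (n : ℝ))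
    (fun _ => ⟨n, by simp⟩)
    (by
      intro _ _
      rw [dist_self, sub_self, abs_zero]
      have : (0 : ℝ) ≤ n := Nat.cast_nonneg n
      constructor <;> linarith)
  obtain ⟨g, -, hg⟩ := Pool.Agent.W335.exists_conj hX ∅ x0 y (by simp)
  have h1 := hR ⟨g, rfl⟩
  have h2 : dist y x0 ≤ R := by
    rw [Metric.mem_closedBall] at h1
    rw [← hg]
    exact h1
  rw [hy ()] at h2
  have := le_max_left R 0
  linarith

end Pool.Agent.S00938
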