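import Pool.Statements.S01091
import Pool.Agent.W351.GS12

set_option autoImplicit false
open Pool Pool.MP_306e37_al

namespace Pool.Agent.S01091

/-- There is a group ⟨d generators ∣ R⟩ satisfying the Golod–Shafarevich inequality 1 − dt + Σ t^{deg r} < 0 (mod-p Zassenhaus degrees, some prime p, some t in (0,1)) whose number of subgroups of index ≤ n is eventually at most e^{εn} for every ε > 0. -/
theorem result :
  ∃ (p : ℕ) (d : ℕ) (R : Set (FreeGroup (Fin d))) (deg : FreeGroup (Fin d) → ℕ) (t : ℝ),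
    p.Prime ∧ 0 < t ∧ t < 1 ∧
    (∀ r ∈ R, MonoidAlgebra.of (ZMod p) (FreeGroup (Fin d)) r - 1 ∈
        (Submodule.span (ZMod p) (Set.range fun g : FreeGroup (Fin d) =>
          MonoidAlgebra.of (ZMod p) (FreeGroup (Fin d)) g - 1)) ^ (deg r)) ∧
    Summable (fun r : R => t ^ deg (r : FreeGroup (Fin d))) ∧
    1 - (d : ℝ) * t + ∑' r : R, t ^ deg (r : FreeGroup (Fin d)) < 0 ∧
    ∀ ε : ℝ, 0 < ε → ∃ N : ℕ, ∀ n : ℕ, N ≤ n →
      ((Set.ncard {H : Subgroup (FreeGroup (Fin d) ⧸ Subgroup.normalClosure R) |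
          H.index ≠ 0 ∧ H.index ≤ n} : ℕ) : ℝ) ≤ Real.exp (ε * (n : ℝ)) := by
  obtain ⟨R, deg, h1, h2, h3, h4⟩ := Pool.Agent.W351.GS.final
  refine ⟨2, 3, R, deg, 2 / 5, Nat.prime_two, by norm_num, by norm_num, h1, h2, ?_, h4⟩
  have h5 : 1 - ((3 : ℕ) : ℝ) * (2 / 5) + ∑' r : R, (2 / 5 : ℝ) ^ deg (r : FreeGroup (Fin 3)) ≤
      1 - ((3 : ℕ) : ℝ) * (2 / 5) + 1 / 10 := by
    have := h3
    linarith
  refine lt_of_le_of_lt h5 (by norm_num)

end Pool.Agent.S01091
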