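import Pool.Statements.S01161
import Pool.Agent.Results.MP_3577db_al.WeakEggert

set_option autoImplicit false
open Pool Pool.MP_3577db_al

namespace Pool.Agent.S01161

/-- For every odd prime p there is f>2 such that every finite-dimensional commutative nilpotent algebra R over a field of characteristic p has dim R at least f times the dimension of the span of the p-th powers of its elements. -/
theorem result :
    ∀ p : ℕ, p.Prime → p ≠ 2 →
      ∃ f : ℝ, 2 < f ∧
        ∀ (F : Type) [Field F] [CharP F p]
          (R : Type) [NonUnitalCommRing R] [Module F R] [IsScalarTower F R R]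
          [SMulCommClass F R R] [FiniteDimensional F R],
          (∃ n : ℕ, ∀ (a : R) (l : List R), l.length = n → l.foldr (· * ·) a = 0) →
          f * (Module.finrank F
                (Submodule.span F
                  (Set.range (fun a : R => (List.replicate (p - 1) a).foldr (· * ·) a))) : ℝ)
            ≤ (Module.finrank F R : ℝ) := by
  intro p hp hp2
  obtain ⟨h1, h2⟩ := Pool.Agent.Results.MP_3577db_al.WeakEggert.result.{0, 0} p hp hp2
  refine ⟨Pool.Agent.Results.MP_3577db_al.WeakEggert.fconst p, h1, ?_⟩
  intro F _ _ R _ _ _ _ _ hn
  have hnil : Pool.Agent.Results.MP_3577db_al.WeakEggert.IsNilp R := by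
    obtain ⟨n, hn⟩ := hn
    refine ⟨n, fun a l hl => ?_⟩
    rw [List.foldl_eq_foldr]
    exact hn a l hl
  have hpow : ∀ (a : R) (k : ℕ), (List.replicate k a).foldr (· * ·) a =
      Pool.Agent.Results.MP_3577db_al.WeakEggert.pow1 a k := by
    intro a k
    induction k with
    | zero => rfl
    | succ k ih =>
      rw [List.replicate_succ, List.foldr_cons, ih]
      exact mul_comm _ _
  have h3 := h2 F R hnil
  have h4 : Submodule.span F
        (Set.range (fun a : R => (List.replicate (p - 1) a).foldr (· * ·) a)) =
      Pool.Agent.Results.MP_3577db_al.WeakEggert.pPowers F R p := by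
    unfold Pool.Agent.Results.MP_3577db_al.WeakEggert.pPowers
    congr 1
    ext x
    constructor
    · rintro ⟨a, rfl⟩
      exact ⟨a, (hpow a _).symm⟩
    · rintro ⟨a, rfl⟩
      exact ⟨a, hpow a _⟩
  rw [h4]
  exact h3

end Pool.Agent.S01161
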