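import Pool.Statements.S01179
import Pool.Agent.Results.MP_36c61b_al.LocNilpotent

set_option autoImplicit false
open Pool Pool.MP_36c61b_al

namespace Pool.Agent.S01179

/-- A continuous surjective homomorphism from a compact group onto a Hausdorff group induces an
isomorphism of topological groups from the quotient by its kernel. -/
theorem quotKer {G H : Type} [Group G] [TopologicalSpace G] [Group H]
    [TopologicalSpace H] [CompactSpace G] [T2Space H]
    (f : G →* H) (hf : Continuous f) (hs : Function.Surjective f) :
    Nonempty ((G ⧸ f.ker) ≃ₜ* H) := by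
  have hcont : Continuous (QuotientGroup.quotientKerEquivOfSurjective f hs) := by
    have : Continuous (fun x : G ⧸ f.ker =>
        (QuotientGroup.quotientKerEquivOfSurjective f hs) x) := by
      refine continuous_quot_lift _ hf
    exact this
  have hce := Continuous.continuous_symm_of_equiv_compact_to_t2
    (f := (QuotientGroup.quotientKerEquivOfSurjective f hs).toEquiv) hcont
  exact ⟨{ (QuotientGroup.quotientKerEquivOfSurjective f hs) with
    continuous_toFun := hcont
    continuous_invFun := hce }⟩

/-- For every prime p, every variety of pro-p groups (closed under closed subgroups, closed quotients, products) that contains a non-nilpotent group has a subvariety in which all finitely generated groups are nilpotent but some group is not. -/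
theorem result :
    ∀ p : ℕ, p.Prime →
    ∀ V : (G : Type) → [Group G] → [TopologicalSpace G] → Prop,
      ((∀ (G : Type) [Group G] [TopologicalSpace G], V G →
          IsTopologicalGroup G ∧ CompactSpace G ∧ TotallyDisconnectedSpace G ∧ T2Space G) ∧
        (∀ (G H : Type) [Group G] [TopologicalSpace G] [Group H] [TopologicalSpace H],
          Nonempty (G ≃ₜ* H) → V G → V H) ∧
        (∀ (G : Type) [Group G] [TopologicalSpace G], V G →
          ∀ H : Subgroup G, IsClosed (H : Set G) → V (↥H)) ∧
        (∀ (G : Type) [Group G] [TopologicalSpace G], V G →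
          ∀ (N : Subgroup G) [N.Normal], IsClosed (N : Set G) → V (G ⧸ N)) ∧
        (∀ (I : Type) (H : I → Type) [∀ i, Group (H i)] [∀ i, TopologicalSpace (H i)],
          (∀ i, V (H i)) → V ((i : I) → H i))) →
      (∀ (G : Type) [Group G] [TopologicalSpace G], V G →
        ∀ N : Subgroup G, IsOpen (N : Set G) → N.Normal → ∃ k : ℕ, N.index = p ^ k) →
      (∃ (G : Type) (_ : Group G) (_ : TopologicalSpace G), V G ∧ ¬ Group.IsNilpotent G) →
      ∃ U : (G : Type) → [Group G] → [TopologicalSpace G] → Prop,
        ((∀ (G : Type) [Group G] [TopologicalSpace G], U G →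
            IsTopologicalGroup G ∧ CompactSpace G ∧ TotallyDisconnectedSpace G ∧ T2Space G) ∧
          (∀ (G H : Type) [Group G] [TopologicalSpace G] [Group H] [TopologicalSpace H],
            Nonempty (G ≃ₜ* H) → U G → U H) ∧
          (∀ (G : Type) [Group G] [TopologicalSpace G], U G →
            ∀ H : Subgroup G, IsClosed (H : Set G) → U (↥H)) ∧
          (∀ (G : Type) [Group G] [TopologicalSpace G], U G →
            ∀ (N : Subgroup G) [N.Normal], IsClosed (N : Set G) → U (G ⧸ N)) ∧
          (∀ (I : Type) (H : I → Type) [∀ i, Group (H i)] [∀ i, TopologicalSpace (H i)],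
            (∀ i, U (H i)) → U ((i : I) → H i))) ∧
        (∀ (G : Type) [Group G] [TopologicalSpace G], U G → V G) ∧
        (∀ (G : Type) [Group G] [TopologicalSpace G], U G →
          (∃ s : Finset G, closure ((Subgroup.closure (s : Set G) : Subgroup G) : Set G) = Set.univ) →
          Group.IsNilpotent G) ∧
        (∃ (G : Type) (_ : Group G) (_ : TopologicalSpace G), U G ∧ ¬ Group.IsNilpotent G) := by
  intro p hp V hV hVp hne
  obtain ⟨h1, h2, h3, h4, h5⟩ := hV
  obtain ⟨W, ⟨w1, w2, w3, w4⟩, hWV, hWne, hWn⟩ :=
    Pool.Agent.Results.MP_36c61b_al.LocNilpotent.result p hp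
      (fun G _ _ _ => V G)
      ⟨fun G _ _ _ hG => ⟨(h1 G hG).2.1, (h1 G hG).2.2.2, (h1 G hG).2.2.1,
          fun N hN hO => hVp G hG N hO hN⟩,
        fun G _ _ _ hG H hH => h3 G hG H hH,
        fun G H _ _ _ _ _ _ hG hH f hf hs => by
          haveI := (h1 G hG).2.1
          haveI := hH.2.1
          have hker : IsClosed (f.ker : Set G) := by
            have : (f.ker : Set G) = f ⁻¹' {1} := by
              ext x
              simp [MonoidHom.mem_ker]
            rw [this]
            exact isClosed_singleton.preimage hf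
          exact h2 _ _ (quotKer f hf hs) (h4 G hG f.ker hker),
        fun I H _ _ _ hH => h5 I H hH⟩
      (by
        obtain ⟨G, g, t, hG, hn⟩ := hne
        intro hall
        haveI := (h1 G hG).1
        exact hn (hall G hG))
  have key : ∀ (G : Type) [Group G] [TopologicalSpace G] (ht : IsTopologicalGroup G),
      W G → V G := fun G _ _ ht hG => hWV G hG
  have quot : ∀ (G H : Type) [TopologicalSpace G] [Group G] [IsTopologicalGroup G]
          [TopologicalSpace H] [Group H] [IsTopologicalGroup H], W G → V H →
          ∀ f : G →* H, Continuous f → Function.Surjective f → W H := by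
    intro G H _ _ _ _ _ _ hG hH f hf hs
    refine w3 G H hG ⟨(h1 H hH).2.1, (h1 H hH).2.2.2, (h1 H hH).2.2.1, ?_⟩ f hf hs
    intro N hN hO
    exact hVp H hH N hO hN
  refine ⟨fun G _ _ => ∃ _ : IsTopologicalGroup G, W G, ⟨?_, ?_, ?_, ?_, ?_⟩, ?_, ?_, ?_⟩
  · rintro G _ _ ⟨ht, hG⟩
    exact h1 G (hWV G hG)
  · rintro G H _ _ _ _ ⟨e⟩ ⟨ht, hG⟩
    have hVH : V H := h2 G H ⟨e⟩ (hWV G hG)
    haveI := (h1 H hVH).1
    exact ⟨inferInstance, quot G H hG hVH e.toMulEquiv.toMonoidHom e.continuous_toFun
      e.surjective⟩
  · rintro G _ _ ⟨ht, hG⟩ H hH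
    exact ⟨inferInstance, w2 G hG H hH⟩
  · rintro G _ _ ⟨ht, hG⟩ N _ hN
    have hVQ : V (G ⧸ N) := h4 G (hWV G hG) N hN
    exact ⟨inferInstance, quot G (G ⧸ N) hG hVQ (QuotientGroup.mk' N)
      continuous_quot_mk (QuotientGroup.mk'_surjective N)⟩
  · intro I H _ _ hH
    choose ht hW using hH
    haveI : ∀ i, IsTopologicalGroup (H i) := ht
    exact ⟨inferInstance, w4 I H hW⟩
  · rintro G _ _ ⟨ht, hG⟩
    exact hWV G hG
  · rintro G _ _ ⟨ht, hG⟩ ⟨s, hs⟩
    exact hWn G hG s hs
  · by_contra hcon
    apply hWne
    intro G _ _ _ hG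
    by_contra hn
    exact hcon ⟨G, inferInstance, inferInstance, ⟨inferInstance, hG⟩, hn⟩

end Pool.Agent.S01179
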