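import Pool.Statements.S01183
import Pool.Agent.W374.FbsBU
import Pool.Agent.W374.FbsBase
import Pool.Agent.W374.FbsCl
import Pool.Agent.W374.FbsTA
import Pool.Agent.W374.FbsStepSys
import Pool.Agent.W374.FbsStepW
import Pool.Agent.W374.FbsShort
import Pool.Agent.W366.FB.Core
import Pool.Agent.W366.FB.Long2
import Pool.Agent.W435.FB.Assembly
import Pool.Agent.W435.FB.TR6
import Pool.Agent.W435.FB.SA
import Pool.Agent.W435.FB.SR
import Pool.Agent.W435.FB.Data
import Pool.Agent.W435.FB.DataR
import Pool.Agent.W435.FB.Trans
import Pool.Agent.W435.FB.CritSP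
import Pool.Agent.W435.FB.ReesP
import Pool.Agent.W435.FB.Link
import Pool.Agent.W435.FB.Comp

set_option autoImplicit false
open Pool Pool.MP_370e98_al

namespace Pool.Agent.S01183

/-- Some algorithm decides, given an associative Cayley table of a finite semigroup, whether it is completely 0-simple with Abelian maximal subgroups and its identities follow from finitely many of them. -/
theorem result :
  ∃ P : ℕ × List (List ℕ) → Prop, ComputablePred P ∧
    ∀ (n : ℕ) (op : Fin n → Fin n → Fin n),
      (∀ a b c : Fin n, op (op a b) c = op a (op b c)) →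
      (P (n, List.ofFn (fun i : Fin n => List.ofFn (fun j : Fin n => ((op i j : Fin n) : ℕ)))) ↔
        ((∃ z : Fin n, (∀ x : Fin n, op z x = z ∧ op x z = z) ∧
            (∃ x y : Fin n, op x y ≠ z) ∧
            (∀ I : Set (Fin n), z ∈ I → (∀ x ∈ I, ∀ s : Fin n, op s x ∈ I ∧ op x s ∈ I) →
                I = {z} ∨ I = Set.univ) ∧
            (∃ e : Fin n, e ≠ z ∧ op e e = e ∧
                ∀ f : Fin n, f ≠ z → op f f = f → op e f = f → op f e = f → f = e) ∧
            (∀ e : Fin n, e ≠ z → op e e = e → ∀ a b : Fin n,
                op (op (op e a) e) (op (op e b) e) = op (op (op e b) e) (op (op e a) e))) ∧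
         (∃ B : Finset ((ℕ × List ℕ) × (ℕ × List ℕ)),
            (∀ p ∈ B, ∀ f : ℕ → Fin n,
                p.1.2.foldl (fun a y => op a (f y)) (f p.1.1) =
                  p.2.2.foldl (fun a y => op a (f y)) (f p.2.1)) ∧
            ∀ u v : ℕ × List ℕ,
              (∀ f : ℕ → Fin n,
                u.2.foldl (fun a y => op a (f y)) (f u.1) =
                  v.2.foldl (fun a y => op a (f y)) (f v.1)) →
              ∀ (T : Type) [Semigroup T],
                (∀ p ∈ B, ∀ g : ℕ → T,
                  p.1.2.foldl (fun a y => a * g y) (g p.1.1) =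
                    p.2.2.foldl (fun a y => a * g y) (g p.2.1)) →
                ∀ g : ℕ → T,
                  u.2.foldl (fun a y => a * g y) (g u.1) =
                    v.2.foldl (fun a y => a * g y) (g v.1)))) := by
  exact W435.FB.final W374.FBS.ta (W435.FB.tr W374.FBS.ta W374.FBS.cl) W435.FB.schA W435.FB.schR
    W435.FB.data W435.FB.dataNR W435.FB.dataR W435.FB.transfer W435.FB.finBasedCrit
    (W435.FB.poset W374.FBS.posetBase W374.FBS.stepSys W374.FBS.stepW W374.FBS.bu)
    W374.FBS.short W366.FB.core W366.FB.long W435.FB.rees W435.FB.critS W435.FB.comp W435.FB.link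

end Pool.Agent.S01183
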