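import Pool.Statements.S01246
import Pool.Agent.W348.I1

set_option autoImplicit false
open CategoryTheory
open Pool Pool.MP_3ca9d5_al

namespace Pool.Agent.S01246

/-- The negation of the preceding statement: For surjections G₁→Q, G₂→Q with finitely generated kernel in G₁, G₁ and G₂ of type FP₂ and Q of type FP₃, the fibre product {(a,b) : π₁a = π₂b} is of type FP₂. -/
theorem result :
    ¬ (∀ (G₁ G₂ Q : Type) [Group G₁] [Group G₂] [Group Q] (π₁ : G₁ →* Q) (π₂ : G₂ →* Q),
      Function.Surjective π₁ → Function.Surjective π₂ → Group.FG π₁.ker →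
      (∃ R : ProjectiveResolution (Rep.trivial ℤ G₁ ℤ), ∀ k ≤ 2,
        ∃ s : Finset (R.complex.X k).V, ∀ x : (R.complex.X k).V,
          x ∈ Submodule.span ℤ
            (Set.range (fun p : G₁ × s => (R.complex.X k).ρ p.1 (p.2 : (R.complex.X k).V)))) →
      (∃ R : ProjectiveResolution (Rep.trivial ℤ G₂ ℤ), ∀ k ≤ 2,
        ∃ s : Finset (R.complex.X k).V, ∀ x : (R.complex.X k).V,
          x ∈ Submodule.span ℤ
            (Set.range (fun p : G₂ × s => (R.complex.X k).ρ p.1 (p.2 : (R.complex.X k).V)))) →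
      (∃ R : ProjectiveResolution (Rep.trivial ℤ Q ℤ), ∀ k ≤ 3,
        ∃ s : Finset (R.complex.X k).V, ∀ x : (R.complex.X k).V,
          x ∈ Submodule.span ℤ
            (Set.range (fun p : Q × s => (R.complex.X k).ρ p.1 (p.2 : (R.complex.X k).V)))) →
      (∃ R : ProjectiveResolution (Rep.trivial ℤ
          ↥((π₁.comp (MonoidHom.fst G₁ G₂)).eqLocus (π₂.comp (MonoidHom.snd G₁ G₂))) ℤ),
        ∀ k ≤ 2,
        ∃ s : Finset (R.complex.X k).V, ∀ x : (R.complex.X k).V,
          x ∈ Submodule.span ℤ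
            (Set.range (fun p : ↥((π₁.comp (MonoidHom.fst G₁ G₂)).eqLocus
                (π₂.comp (MonoidHom.snd G₁ G₂))) × s =>
              (R.complex.X k).ρ p.1 (p.2 : (R.complex.X k).V))))) := by
  intro h
  have hb : Function.Surjective (FreeGroup.lift (Pool.Agent.W348.bb Pool.Agent.W348.Dat.adjF)) :=
    Pool.Agent.W348.lift_surj _ Pool.Agent.W348.conn_concrete
  have h1 := h (Pool.Agent.W348.G1 (Pool.Agent.W348.bb Pool.Agent.W348.Dat.adjF)) (FreeGroup (Fin 21 × Fin 21))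
    (Pool.Agent.W348.HH Pool.Agent.W348.Dat.adjF) (Pool.Agent.W348.p1 (Pool.Agent.W348.bb Pool.Agent.W348.Dat.adjF))
    (FreeGroup.lift (Pool.Agent.W348.bb Pool.Agent.W348.Dat.adjF)) (Pool.Agent.W348.p1_surj _) hb
    (Pool.Agent.W348.ker_fg _ hb)
    (Pool.Agent.W348.rep_of_augI_fp (Pool.Agent.W348.G1_fp _ hb Pool.Agent.W348.H_fp))
    (Pool.Agent.W348.rep_of_augI_fp (Pool.Agent.W348.free_fp _))
    Pool.Agent.W348.H_rep
  exact Pool.Agent.W348.P_not_fp (Pool.Agent.W348.augI_fp_of_rep h1)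

end Pool.Agent.S01246
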