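import Pool.Statements.S01262
import Pool.Agent.W335.Fix2

set_option autoImplicit false
open Pool Pool.MP_3e1351_al

namespace Pool.Agent.S01262

/-- The negation of the preceding statement: For the rational Urysohn space X, the isometry group of X (with the topology of pointwise agreement on finite sets) has a continuous action by affine isometries on some reflexive real Banach space with no fixed vector. -/
theorem result :
    ¬ (∀ (X : Type) [MetricSpace X], Countable X →
      (∀ x y : X, ∃ q : ℚ, dist x y = (q : ℝ)) →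
      (∀ (A : Finset X) (f : X → ℚ), (∀ a ∈ A, 0 < f a) →
        (∀ a ∈ A, ∀ b ∈ A, |(f a : ℝ) - (f b : ℝ)| ≤ dist a b ∧ dist a b ≤ (f a : ℝ) + (f b : ℝ)) →
        ∃ x : X, ∀ a ∈ A, dist x a = (f a : ℝ)) →
      ∃ (E : Type) (_ : NormedAddCommGroup E) (_ : NormedSpace ℝ E),
        CompleteSpace E ∧
        Function.Surjective (NormedSpace.inclusionInDoubleDual ℝ E) ∧
        ∃ α : (X ≃ᵢ X) →* (E ≃ᵃⁱ[ℝ] E),
          (∀ (v : E) (g : X ≃ᵢ X) (ε : ℝ), 0 < ε →
            ∃ F : Finset X, ∀ h : X ≃ᵢ X, (∀ x ∈ F, h x = g x) →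
              dist (α h v) (α g v) < ε) ∧
          (∀ v : E, ∃ g : X ≃ᵢ X, α g v ≠ v)) := by
  intro H
  obtain ⟨X, hXm, hX⟩ := Pool.Agent.W335.exists_QU
  obtain ⟨E, hE1, hE2, hEc, hE, α, hα, hfix⟩ := H X hX.countable hX.rat hX.ext
  obtain ⟨v, hv⟩ := Pool.Agent.W335.main_fix α hX hE (by
    intro v ε hε
    obtain ⟨F, hF⟩ := hα v 1 ε hε
    refine ⟨F, fun h hh => ?_⟩
    have h1 := hF h (fun x hx => by rw [hh x hx]; rfl)
    rwa [map_one] at h1)
  obtain ⟨g, hg⟩ := hfix v
  exact hg (hv g)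

end Pool.Agent.S01262
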