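import Pool.Statements.S01281
import Pool.Agent.EngelMc.Bdd3
import Pool.Agent.Results.MP_3f2ebd_al.BoundedRightEngelMc

set_option autoImplicit false
open Pool Pool.MP_3f2ebd_al

namespace Pool.Agent.S01281

open Pool.Agent.Results.MP_3f2ebd_al.BoundedRightEngelMc in
theorem result :
    ∀ (G : Type) [Group G],
      (∀ X : Set G, ∃ X₀ : Finset G, (↑X₀ : Set G) ⊆ X ∧
          Subgroup.centralizer X = Subgroup.centralizer (↑X₀ : Set G)) →
      ∀ a : G,
        (∃ m : ℕ, ∀ x : G, (fun y : G => y⁻¹ * (x⁻¹ * y * x))^[m] a = 1) →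
        ∃ n : ℕ, 1 ≤ n ∧ ∀ x : G, ∃ H : ℕ → Subgroup G,
          H 0 = Subgroup.zpowers x ∧
          H n = Subgroup.zpowers x ⊔ Subgroup.normalClosure ({a} : Set G) ∧
          ∀ i : ℕ, i < n → (H i ≤ H (i + 1) ∧ ((H i).subgroupOf (H (i + 1))).Normal) := by
  intro G _ hG a ⟨m, hm⟩
  have hMc : Pool.Agent.Results.MP_3f2ebd_al.BoundedRightEngelMc.IsMc G := by
    intro X
    obtain ⟨X₀, h1, h2⟩ := hG X
    exact ⟨↑X₀, h1, X₀.finite_toSet, h2⟩
  have hmem : a ∈ Pool.Agent.Results.MP_3f2ebd_al.BoundedRightEngelMc.BoundedRightEngel G := by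
    refine Set.mem_iUnion.2 ⟨m, fun x => ?_⟩
    have hfun : (Pool.Agent.Results.MP_3f2ebd_al.BoundedRightEngelMc.comm x) =
        (fun y : G => y⁻¹ * (x⁻¹ * y * x)) := by
      funext y
      simp [Pool.Agent.Results.MP_3f2ebd_al.BoundedRightEngelMc.comm, mul_assoc]
    rw [hfun]
    exact hm x
  rw [Pool.Agent.Results.MP_3f2ebd_al.BoundedRightEngelMc.result G hMc] at hmem
  obtain ⟨n, hn, h⟩ := hmem
  exact ⟨n, hn, h⟩

end Pool.Agent.S01281
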