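import Pool.Statements.S01314
import Pool.Agent.W373.Unif.Final
import Pool.Agent.W373.Unif.CombE2
import Pool.Agent.W366.UnifRat
import Pool.Agent.W557.UnifEC
import Pool.Agent.W557.UnifDSW
import Pool.Agent.W557.UnifCfg1
import Pool.Agent.W557.UnifCfg2
import Pool.Agent.W557.UnifCfg6
import Pool.Agent.W557.UnifCfg6a
import Pool.Agent.W880.UF.Stab
import Pool.Agent.W880.UF.Span
import Pool.Agent.W880.UF.Cf
import Pool.Agent.W880.UF.Model
import Pool.Agent.W880.UF.L3
import Pool.Agent.W52.UnifFin
import Pool.Agent.W52.UnifCfg3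
import Pool.Agent.W52.UnifCfg7
import Pool.Agent.W925.UnifCFG4
import Pool.Agent.W925.UnifCFG5
import Pool.Agent.W925.UnifCFG6B
import Pool.Agent.W925.UnifCOMB
import Pool.Agent.W880.UF.FixA
import Pool.Agent.W880.UF.FixT
import Pool.Agent.W373.Unif.CombA

set_option autoImplicit false
open Pool Pool.MP_424f45_al

namespace Pool.Agent.S01314

/-- The negation of the preceding statement: For all c and d≥2 there is a rational function W=P/Q over ℚ such that, for all but finitely many primes p and every ring of integers O of a finite extension of ℚ_p with residue size q, the graded ideal zeta function of the free class-c nilpotent Lie algebra over O equals W(q,q^{-s}). -/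
theorem result :
    ¬ (∀ c d : ℕ, 2 ≤ d →
    ∃ P Q : Polynomial (Polynomial ℚ), ∃ S : Finset ℕ,
    ∀ (p : ℕ) [Fact (Nat.Prime p)], p ∉ S →
    ∀ (O : Type) [CommRing O] [IsDomain O] [IsDiscreteValuationRing O]
      [Algebra (PadicInt p) O] [Module.Finite (PadicInt p) O],
    ∀ (L : Type) [LieRing L] [LieAlgebra O L]
      (π : FreeLieAlgebra O (Fin d) →ₗ⁅O⁆ L),
      Function.Surjective π →
      π.ker = LieModule.lowerCentralSeries O (FreeLieAlgebra O (Fin d))
        (FreeLieAlgebra O (Fin d)) c →
      Q.map (Polynomial.evalRingHom ((Nat.card (IsLocalRing.ResidueField O) : ℕ) : ℚ)) ≠ 0 ∧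
      (↑(Q.map (Polynomial.evalRingHom ((Nat.card (IsLocalRing.ResidueField O) : ℕ) : ℚ)))
          : PowerSeries ℚ) *
        PowerSeries.mk (fun k : ℕ =>
          ((Set.ncard {I : LieIdeal O L |
              (I : Submodule O L) =
                (⨆ i : ℕ, ((I : Submodule O L) ⊓
                  Submodule.span O {y : L | ∃ (j : Fin d) (w : List (Fin d)),
                    w.length = i ∧
                    y = List.foldr (fun (k : Fin d) (a : L) => ⁅π (FreeLieAlgebra.of O k), a⁆)
                      (π (FreeLieAlgebra.of O j)) w})) ∧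
              Nat.card (L ⧸ (I : Submodule O L)) =
                (Nat.card (IsLocalRing.ResidueField O)) ^ k} : ℕ) : ℚ))
        = (↑(P.map (Polynomial.evalRingHom ((Nat.card (IsLocalRing.ResidueField O) : ℕ) : ℚ)))
            : PowerSeries ℚ)) := by
  have hDsw := Pool.Agent.W557.UnifDSW.main
  have hSpan := Pool.Agent.W880.UF.span_main
  have hModel := Pool.Agent.W880.UF.model_main hSpan Pool.Agent.W880.UF.cf_main
  have hL3 := Pool.Agent.W880.UF.l3_main hSpan
  have hFin := Pool.Agent.W52.UnifFin.main
  have hFixR := Pool.Agent.W880.UF.fixR_main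
  have h1 := Pool.Agent.W557.UnifCfg1.main
  have h2 := Pool.Agent.W557.UnifCfg2.main
  have h3 := Pool.Agent.W52.UnifCfg3.main hDsw
  have h4 := Pool.Agent.W925.UnifCFG4.main
  have h5 := Pool.Agent.W925.UnifCFG5.main hDsw
  have h6a := Pool.Agent.W557.UnifCfg6a.main hDsw
  have h6b := Pool.Agent.W925.UnifCFG6B.main hDsw h4
  have h6 := Pool.Agent.W557.UnifCfg6.main h1 h4 h6a h6b
  have h7 := Pool.Agent.W52.UnifCfg7.main h1 h2 h3 h4 h5 h6
  have hEC := Pool.Agent.W557.UnifEC.main
  have hCnt := Pool.Agent.W880.UF.cnt_main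
  have hStab := Pool.Agent.W880.UF.stab_main
  have hCA := Pool.Agent.W373.Unif.combA hEC hCnt hStab
  have hFixT := Pool.Agent.W880.UF.fixT_main
  have hComb := Pool.Agent.W925.UnifCOMB.main hEC hCnt hStab hCA Pool.Agent.W373.Unif.combF
    Pool.Agent.W373.Unif.combN Pool.Agent.W373.Unif.combE
  exact Pool.Agent.W373.Unif.final Pool.Agent.W366.UnifRat.main hModel hL3 hFin hFixT hFixR h7
    hComb

end Pool.Agent.S01314
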