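import Pool.Statements.S01317
import Pool.Agent.W433.HA.Core
import Pool.Agent.W237.HA.Main
import Pool.Agent.W237.HA.Lag
import Pool.Agent.W237.HA.Min
import Pool.Agent.W237.HA.SubQ
import Pool.Agent.W237.HA.Quot
import Pool.Agent.W237.HA.Top
import Pool.Agent.W237.HA.Fix
import Pool.Agent.W237.HA.Triv

set_option autoImplicit false
open Pool Pool.MP_428e1d_al

namespace Pool.Agent.S01317

/-- Every finite automorphic loop that is solvable (normal series with abelian group factors) has, for each set of primes P, a subloop whose order involves only primes in P and whose index involves only primes outside P. -/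
theorem result :
  ∀ (Q : Type) [Fintype Q] (mul : Q → Q → Q) (e : Q),
    (∀ x, mul e x = x ∧ mul x e = x) →
    (∀ a, Function.Bijective (mul a)) →
    (∀ a, Function.Bijective (fun x => mul x a)) →
    (∀ x y u v a b, mul (mul x y) a = mul x (mul y u) →
        mul (mul x y) b = mul x (mul y v) →
        mul (mul x y) (mul a b) = mul x (mul y (mul u v))) →
    (∀ x y u v a b, mul a (mul y x) = mul (mul u y) x →
        mul b (mul y x) = mul (mul v y) x →
        mul (mul a b) (mul y x) = mul (mul (mul u v) y) x) →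
    (∀ x u v a b, mul a x = mul x u → mul b x = mul x v →
        mul (mul a b) x = mul x (mul u v)) →
    (∃ (n : ℕ) (S : ℕ → Set Q), S 0 = {e} ∧ S n = Set.univ ∧
      ∀ i < n, S i ⊆ S (i + 1) ∧ e ∈ S i ∧
        (∀ a ∈ S i, ∀ b ∈ S i, mul a b ∈ S i) ∧
        (∀ x ∈ S (i + 1), ∀ y ∈ S (i + 1), ∀ m ∈ S i,
          (∃ m' ∈ S i, mul x m = mul m' x) ∧
          (∃ m' ∈ S i, mul (mul m x) y = mul m' (mul x y)) ∧
          (∃ m' ∈ S i, mul y (mul x m) = mul (mul y x) m')) ∧
        (∀ x ∈ S (i + 1), ∀ y ∈ S (i + 1), ∀ z ∈ S (i + 1),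
          (∃ m ∈ S i, mul (mul x y) z = mul (mul x (mul y z)) m) ∧
          (∃ m ∈ S i, mul x y = mul (mul y x) m))) →
    ∀ P : Set ℕ, ∃ H : Finset Q, e ∈ H ∧ (∀ a ∈ H, ∀ b ∈ H, mul a b ∈ H) ∧
      ∃ k : ℕ, H.card * k = Fintype.card Q ∧
        (∀ p : ℕ, p.Prime → p ∣ H.card → p ∈ P) ∧
        (∀ p : ℕ, p.Prime → p ∣ k → p ∉ P) := by
  intro Q _ mul e h1 hL hR haL haR haT hsol P
  let A : H675HL.AL Q :=
    { mul := mul
      one := e
      one_mul' := fun a => (h1 a).1
      mul_one' := fun a => (h1 a).2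
      bijL := hL
      bijR := hR
      autL := haL
      autR := haR
      autT := haT }
  have hs : H675HL.HA.Sol Q := hsol
  obtain ⟨H, -, ⟨hH1, hH2⟩, k, hk1, hk2, hk3⟩ :=
    H675HL.HA.W237.tMain H675HL.HA.W237.tSub H675HL.HA.W237.tQuo H675HL.HA.W237.tTop
      (H675HL.HA.W237.tLag H675HL.HA.W237.tSub H675HL.HA.W237.tTop)
      (H675HL.HA.W237.tMin H675HL.HA.W237.tSub H675HL.HA.W237.tTop)
      (H675HL.HA.W237.tPre H675HL.HA.W237.tQuo) (H675HL.HA.W237.tHSub H675HL.HA.W237.tSub)
      H675HL.HA.W237.tFix H675HL.HA.W237.tTriv H675HL.HA.tCore Q hs P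
  classical
  have hcard : H.toFinset.card = Nat.card H := by
    rw [Set.toFinset_card, Nat.card_eq_fintype_card]
  have hu : Nat.card (Set.univ : Set Q) = Fintype.card Q := by
    rw [Nat.card_congr (Equiv.Set.univ Q), Nat.card_eq_fintype_card]
  refine ⟨H.toFinset, Set.mem_toFinset.2 hH1, ?_, k, ?_, ?_, hk3⟩
  · intro a ha b hb
    exact Set.mem_toFinset.2 (hH2 a (Set.mem_toFinset.1 ha) b (Set.mem_toFinset.1 hb))
  · rw [hcard, hk1, hu]
  · intro p hp hd
    rw [hcard] at hd
    exact hk2 p hp hd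

end Pool.Agent.S01317
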