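import Pool.Statements.S01384
import Pool.Agent.W674.Tits.Main

set_option autoImplicit false
open Pool Pool.MP_4b4c0c_al

namespace Pool.Agent.S01384

/-- The negation of the preceding statement: Every 3-transitive group on at least 3 points whose 3-point stabilizers are trivial and whose 2-point stabilizers have no involutions is permutation-isomorphic to PGL_2(P) on the projective line over some field P of characteristic 2. -/
theorem result :
    ¬ (∀ (G X : Type) [Group G] [MulAction G X],
      (∃ a b c : X, a ≠ b ∧ a ≠ c ∧ b ≠ c) →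
      (∀ a b c a' b' c' : X, a ≠ b → a ≠ c → b ≠ c → a' ≠ b' → a' ≠ c' → b' ≠ c' →
        ∃ g : G, g • a = a' ∧ g • b = b' ∧ g • c = c') →
      (∀ a b : X, a ≠ b → ∀ g : G, g • a = a → g • b = b → g * g = 1 → g = 1) →
      (∀ a b c : X, a ≠ b → a ≠ c → b ≠ c → ∀ g : G,
        g • a = a → g • b = b → g • c = c → g = 1) →
      ∃ (P : Type) (_ : Field P), CharP P 2 ∧
        ∃ e : X ≃ Projectivization P (Fin 2 → P),
          ∀ σ : Equiv.Perm (Projectivization P (Fin 2 → P)),
            ((∃ g : G, ∀ x : X, σ (e x) = e (g • x)) ↔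
              ∃ A : Matrix.GeneralLinearGroup (Fin 2) P,
                ∀ (v : Fin 2 → P) (hv : v ≠ 0) (w : Fin 2 → P) (hw : w ≠ 0),
                  w = Matrix.mulVec (A : Matrix (Fin 2) (Fin 2) P) v →
                    σ (Projectivization.mk P v hv) = Projectivization.mk P w hw)) := by
  classical
  intro h
  obtain ⟨h1, h2, h3, h4, h5⟩ := Pool.Agent.W674.Tits.dat.main
    (RatFunc.X * RatFunc.X) RatFunc.X RatFunc.X_ne_zero Pool.Agent.W674.Tits.par_X
    (mul_ne_zero RatFunc.X_ne_zero RatFunc.X_ne_zero) Pool.Agent.W674.Tits.par_X2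
    Pool.Agent.W674.Tits.tau_X2
  exact h5 (h Pool.Agent.W674.Tits.dat.G (OnePoint (RatFunc (ZMod 2))) h1 h2 h3 h4)

end Pool.Agent.S01384
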