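import Pool.Statements.S01434
import Pool.Agent.W327.HdimFrozen

set_option autoImplicit false
open Pool Pool.MP_4ffd61_al

namespace Pool.Agent.S01434

/-- The negation of the preceding statement: Some computable function, given any finite invertible automaton's tables and k ≥ 1, outputs a rational within 2^(-k) of the Hausdorff dimension of the closure of the group generated by its states acting on the rooted tree. -/
theorem result :
    ¬ (∃ f : ℕ × List (List (ℕ × ℕ)) × ℕ → ℕ × ℕ, Computable f ∧
    ∀ (m : ℕ) (tab : List (List (ℕ × ℕ))) (k : ℕ),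
      2 ≤ m →
      (∀ row ∈ tab, row.length = m ∧ (∀ e ∈ row, e.1 < tab.length ∧ e.2 < m) ∧
          (row.map Prod.snd).Nodup) →
      1 ≤ k →
      |((f (m, tab, k)).1 : ℝ) / (((f (m, tab, k)).2 : ℝ) + 1) -
        Filter.liminf (fun n : ℕ =>
          Real.log ((Set.ncard {h : {w : List ℕ // w.length = n ∧ ∀ x ∈ w, x < m} → List ℕ |
            ∃ g ∈ Submonoid.closure {g : Function.End (List ℕ) | ∃ q < tab.length, ∀ w : List ℕ,
                g w = List.foldr (fun (x : ℕ) (ih : ℕ → List ℕ) (p : ℕ) =>
                    ((tab.getD p []).getD x (0, 0)).2 :: ih ((tab.getD p []).getD x (0, 0)).1)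
                  (fun _ : ℕ => ([] : List ℕ)) w q},
              ∀ w, h w = g w.1} : ℕ) : ℝ) /
          ((((m : ℝ) ^ n - 1) / ((m : ℝ) - 1)) * Real.log ((m.factorial : ℕ) : ℝ)))
          Filter.atTop| ≤ (2 : ℝ)⁻¹ ^ k) :=
  Pool.Agent.W327.Hdim.no_alg

end Pool.Agent.S01434
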