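import Pool.Statements.S01471
import Pool.Agent.W336.CS.All

set_option autoImplicit false
open MeasureTheory
open Pool Pool.MP_5397c1_al

namespace Pool.Agent.S01471

/-- Every countable torsion group of cost greater than 1 has a paradoxical decomposition whose smaller half has exactly 3 pieces, and none whose smaller half has fewer than 3. -/
theorem result :
    ∀ (G : Type) [Group G] [Countable G], Monoid.IsTorsion G →
      (∃ c : ENNReal, 1 < c ∧
        ∀ (X : Type) [MeasurableSpace X] [StandardBorelSpace X] (μ : Measure X)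
          [IsProbabilityMeasure μ] [MulAction G X],
          (∀ g : G, MeasurePreserving (fun x : X => g • x) μ μ) →
          (∀ᵐ x ∂μ, ∀ g : G, g • x = x → g = 1) →
          ∀ (A : ℕ → Set X) (f : ℕ → X → G),
            (∀ i, MeasurableSet (A i)) →
            (∀ i, ∀ g : G, MeasurableSet {x : X | f i x = g}) →
            (∀ᵐ x ∂μ, ∀ g : G, Relation.ReflTransGen
              (fun y z : X => ∃ i, (y ∈ A i ∧ z = f i y • y) ∨ (z ∈ A i ∧ y = f i z • z))
              x (g • x)) →
            c ≤ ∑' i, μ (A i)) →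
      (∃ m n : ℕ, min m n = 3 ∧
        ∃ (P : Fin m → Set G) (Q : Fin n → Set G) (g : Fin m → G) (h : Fin n → G),
          (∀ i j, i ≠ j → Disjoint (P i) (P j)) ∧
          (∀ i j, i ≠ j → Disjoint (Q i) (Q j)) ∧
          (∀ i j, Disjoint (P i) (Q j)) ∧
          (⋃ i, (fun x : G => g i * x) '' P i) = Set.univ ∧
          (⋃ j, (fun x : G => h j * x) '' Q j) = Set.univ) ∧
      (∀ m n : ℕ,
        (∃ (P : Fin m → Set G) (Q : Fin n → Set G) (g : Fin m → G) (h : Fin n → G),
          (∀ i j, i ≠ j → Disjoint (P i) (P j)) ∧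
          (∀ i j, i ≠ j → Disjoint (Q i) (Q j)) ∧
          (∀ i j, Disjoint (P i) (Q j)) ∧
          (⋃ i, (fun x : G => g i * x) '' P i) = Set.univ ∧
          (⋃ j, (fun x : G => h j * x) '' Q j) = Set.univ) →
        3 ≤ min m n) := by
  intro G _ _ htor hcost
  refine ⟨?_, fun m n h => Pool.Agent.W402.CS.lower G htor m n h⟩
  obtain ⟨ε, hε, hnot⟩ := Pool.Agent.W336.CS.not_costLe hcost
  obtain ⟨n, P, Q, g, h, h1, h2, h3, h4, h5⟩ := Pool.Agent.W336.CS.half3' ε hε hnot
  have h6 : 3 ≤ min 3 n :=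
    Pool.Agent.W402.CS.lower G htor 3 n ⟨P, Q, g, h, h1, h2, h3, h4, h5⟩
  exact ⟨3, n, le_antisymm (min_le_left 3 n) h6, P, Q, g, h, h1, h2, h3, h4, h5⟩

end Pool.Agent.S01471
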