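import Pool.Statements.S01503
import Pool.Agent.W335.EA.Final

set_option autoImplicit false
open Pool Pool.MP_550fd0_al

namespace Pool.Agent.S01503

/-- In the space of bi-invariant metrics on the free group on countably many generators (pointwise convergence topology), those d making (G,d) extremely amenable form a dense G-delta set. -/
theorem result :
    ∀ A : Set {d : FreeGroup ℕ → FreeGroup ℕ → ℝ //
        (∀ g h, d g h = 0 ↔ g = h) ∧ (∀ g h, d g h = d h g) ∧
        (∀ g h k, d g k ≤ d g h + d h k) ∧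
        (∀ g h k, d (k * g) (k * h) = d g h) ∧
        (∀ g h k, d (g * k) (h * k) = d g h)},
      A = {p | ∀ (X : Type) [TopologicalSpace X] [CompactSpace X] [T2Space X] [Nonempty X]
              [MulAction (FreeGroup ℕ) X],
              (∀ (g : FreeGroup ℕ) (x : X) (U : Set X), IsOpen U → g • x ∈ U →
                ∃ ε > (0 : ℝ), ∃ V : Set X, IsOpen V ∧ x ∈ V ∧
                  ∀ h : FreeGroup ℕ, p.1 g h < ε → ∀ y ∈ V, h • y ∈ U) →
              ∃ x : X, ∀ g : FreeGroup ℕ, g • x = x} →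
      IsGδ A ∧ Dense A := by
  intro A hA
  have hp : ∀ d : FreeGroup ℕ → FreeGroup ℕ → ℝ,
      ((∀ g h, d g h = 0 ↔ g = h) ∧ (∀ g h, d g h = d h g) ∧
        (∀ g h k, d g k ≤ d g h + d h k) ∧
        (∀ g h k, d (k * g) (k * h) = d g h) ∧
        (∀ g h k, d (g * k) (h * k) = d g h)) ↔
      Pool.Agent.W335.EA.IsBI d ∧ (∀ g h, d g h = 0 → g = h) ∧ d ∈ Set.univ := by
    intro d
    constructor
    · rintro ⟨h1, h2, h3, h4, h5⟩
      exact ⟨⟨fun g => (h1 g g).2 rfl, h2, h3, h4, h5⟩, fun g h => (h1 g h).1, trivial⟩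
    · rintro ⟨⟨h1, h2, h3, h4, h5⟩, h6, -⟩
      exact ⟨fun g h => ⟨h6 g h, fun e => by rw [e]; exact h1 h⟩, h2, h3, h4, h5⟩
  have hgen := Pool.Agent.W335.EA.generic isClosed_univ hp (by
    intro d₀ _ B
    obtain ⟨D, hD⟩ := (B.image fun q => d₀ q.1 q.2).exists_le
    exact ⟨max D 1, le_max_right _ _, fun q hq =>
      (hD _ (Finset.mem_image_of_mem _ hq)).trans (le_max_left _ _), fun _ _ => trivial⟩)
  have hA' : A = {x | ∀ F k ε, 0 < ε → Pool.Agent.W335.EA.Crit x.1 F k ε} := by
    rw [hA]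
    ext x
    have hx := ((hp x.1).1 x.2).1
    constructor
    · intro h F k ε hε
      refine Pool.Agent.W335.EA.crit_of_ea hx ?_ F k ε hε
      intro X _ _ _ _ _ hX
      exact h X hX
    · intro h X _ _ _ _ _ hX
      exact Pool.Agent.W335.EA.exists_fixed hx h hX
  rw [hA']
  exact hgen

end Pool.Agent.S01503
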