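import Pool.Statements.S01554

set_option autoImplicit false
open Pool Pool.MP_58cc81_al

namespace Pool.Agent.S01554

/-- The discrete elementary abelian `2`-group of countable rank. -/
def A : Type := ℕ →₀ ZMod 2

noncomputable instance : AddCommGroup A := inferInstanceAs (AddCommGroup (ℕ →₀ ZMod 2))

noncomputable instance : Module (ZMod 2) A := inferInstanceAs (Module (ZMod 2) (ℕ →₀ ZMod 2))

instance : TopologicalSpace A := ⊥

instance : DiscreteTopology A := ⟨rfl⟩

/-- Coordinates. -/
def A.c (a : A) (i : ℕ) : ZMod 2 := (show ℕ →₀ ZMod 2 from a) i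

theorem A.c_add (a b : A) (i : ℕ) : (a + b).c i = a.c i + b.c i := rfl

theorem A.c_zero (i : ℕ) : (0 : A).c i = 0 := rfl

theorem A.c_neg (a : A) (i : ℕ) : (-a).c i = - a.c i := rfl

theorem A.ext' {a b : A} (h : ∀ i, a.c i = b.c i) : a = b := Finsupp.ext h

/-- The group: an extension of the discrete group `A` by the compact central group
`(ℕ × ℕ → ZMod 2) × Circle`. -/
structure E where
  a : A
  n : ℕ × ℕ → ZMod 2
  z : Circle

/-- The underlying product. -/
def toP (x : E) : A × (ℕ × ℕ → ZMod 2) × Circle := (x.a, x.n, x.z)

/-- Inverse of `toP`. -/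
def ofP (x : A × (ℕ × ℕ → ZMod 2) × Circle) : E := ⟨x.1, x.2.1, x.2.2⟩

noncomputable instance : TopologicalSpace E := TopologicalSpace.induced toP inferInstance

/-- `E` is homeomorphic to the product. -/
noncomputable def homeo : E ≃ₜ A × (ℕ × ℕ → ZMod 2) × Circle where
  toFun := toP
  invFun := ofP
  left_inv _ := rfl
  right_inv _ := rfl
  continuous_toFun := continuous_induced_dom
  continuous_invFun := by
    rw [continuous_induced_rng]
    exact continuous_id

theorem cont_a : Continuous (fun x : E => x.a) := continuous_fst.comp homeo.continuous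

theorem cont_n : Continuous (fun x : E => x.n) :=
  (continuous_fst.comp continuous_snd).comp homeo.continuous

theorem cont_z : Continuous (fun x : E => x.z) :=
  (continuous_snd.comp continuous_snd).comp homeo.continuous

theorem cont_mk {X : Type} [TopologicalSpace X] {f : X → A} {g : X → (ℕ × ℕ → ZMod 2)}
    {h : X → Circle} (hf : Continuous f) (hg : Continuous g) (hh : Continuous h) :
    Continuous (fun x => (⟨f x, g x, h x⟩ : E)) :=
  homeo.symm.continuous.comp (hf.prodMk (hg.prodMk hh))

noncomputable instance : Mul E := ⟨fun x y => ⟨x.a + y.a, fun p => x.n p + y.n p + x.a.c p.1 * y.a.c p.2, x.z * y.z⟩⟩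

noncomputable instance : One E := ⟨⟨0, 0, 1⟩⟩

noncomputable instance : Inv E := ⟨fun x => ⟨- x.a, fun p => - x.n p + x.a.c p.1 * x.a.c p.2, x.z⁻¹⟩⟩

theorem mul_a (x y : E) : (x * y).a = x.a + y.a := rfl

theorem mul_n (x y : E) (p : ℕ × ℕ) : (x * y).n p = x.n p + y.n p + x.a.c p.1 * y.a.c p.2 := rfl

theorem mul_z (x y : E) : (x * y).z = x.z * y.z := rfl

theorem one_a : (1 : E).a = 0 := rfl

theorem one_n (p : ℕ × ℕ) : (1 : E).n p = 0 := rfl

theorem one_z : (1 : E).z = 1 := rfl

theorem inv_a (x : E) : (x⁻¹).a = - x.a := rfl

theorem inv_n (x : E) (p : ℕ × ℕ) : (x⁻¹).n p = - x.n p + x.a.c p.1 * x.a.c p.2 := rfl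

theorem inv_z (x : E) : (x⁻¹).z = x.z⁻¹ := rfl

theorem ext' {x y : E} (h1 : x.a = y.a) (h2 : ∀ p, x.n p = y.n p) (h3 : x.z = y.z) : x = y := by
  cases x; cases y
  simp only at h1 h2 h3
  subst h1; subst h3
  have : (_ : ℕ × ℕ → ZMod 2) = _ := funext h2
  subst this
  rfl

noncomputable instance : Group E :=
  Group.ofLeftAxioms
    (by
      intro x y z
      refine ext' ?_ ?_ ?_
      · simp only [mul_a, add_assoc]
      · intro p
        simp only [mul_n, mul_a, A.c_add]; ring
      · simp only [mul_z, mul_assoc])
    (by
      intro x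
      refine ext' ?_ ?_ ?_
      · simp only [mul_a, one_a, zero_add]
      · intro p
        simp only [mul_n, one_a, one_n, A.c_zero]; ring
      · simp only [mul_z, one_z, one_mul])
    (by
      intro x
      refine ext' ?_ ?_ ?_
      · simp only [mul_a, one_a, inv_a, neg_add_cancel]
      · intro p
        simp only [mul_n, one_n, inv_n, inv_a, A.c_neg]; ring
      · simp only [mul_z, one_z, inv_z, inv_mul_cancel])

theorem continuous_c {X : Type} [TopologicalSpace X] {f : X → A} (hf : Continuous f) (i : ℕ) :
    Continuous (fun x => (f x).c i) :=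
  (continuous_of_discreteTopology (f := fun a : A => a.c i)).comp hf

instance : IsTopologicalGroup E where
  continuous_mul := by
    refine cont_mk ?_ ?_ ?_
    · exact (continuous_of_discreteTopology (f := fun q : A × A => q.1 + q.2)).comp
        ((cont_a.comp continuous_fst).prodMk (cont_a.comp continuous_snd))
    · refine continuous_pi fun p => ?_
      exact ((continuous_apply p).comp (cont_n.comp continuous_fst)).add
        ((continuous_apply p).comp (cont_n.comp continuous_snd)) |>.add
        ((continuous_c (cont_a.comp continuous_fst) p.1).mul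
          (continuous_c (cont_a.comp continuous_snd) p.2))
    · exact (cont_z.comp continuous_fst).mul (cont_z.comp continuous_snd)
  continuous_inv := by
    refine cont_mk ?_ ?_ ?_
    · exact (continuous_of_discreteTopology (f := fun q : A => -q)).comp cont_a
    · refine continuous_pi fun p => ?_
      exact ((continuous_apply p).comp cont_n).neg.add
        ((continuous_c cont_a p.1).mul (continuous_c cont_a p.2))
    · exact cont_z.inv

instance : LocallyCompactSpace E := homeo.isClosedEmbedding.locallyCompactSpace

instance : T2Space E := homeo.isEmbedding.t2Space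

/-- Preimages of finite sets of `A` are compact. -/
theorem isCompact_pre {F : Set A} (hF : F.Finite) : IsCompact {x : E | x.a ∈ F} := by
  have : {x : E | x.a ∈ F} = homeo ⁻¹' (F ×ˢ Set.univ) := by
    ext x
    show x.a ∈ F ↔ (x.a ∈ F ∧ ((x.n, x.z) : (ℕ × ℕ → ZMod 2) × Circle) ∈ Set.univ)
    simp
  rw [this]
  rw [homeo.isCompact_preimage]
  exact hF.isCompact.prod isCompact_univ

theorem comm_cases {x y : E} (h : x * y = y * x) : x.a = 0 ∨ y.a = 0 ∨ x.a = y.a := by
  by_cases hx : x.a = 0
  · exact Or.inl hx
  by_cases hy : y.a = 0
  · exact Or.inr (Or.inl hy)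
  right; right
  have key : ∀ i j, x.a.c i * y.a.c j = y.a.c i * x.a.c j := by
    intro i j
    have := congrArg (fun e : E => e.n (i, j)) h
    simp only [mul_n] at this
    linear_combination this
  have h2 : ∀ t : ZMod 2, t ≠ 0 → t = 1 := by decide
  obtain ⟨i, hi⟩ : ∃ i, x.a.c i ≠ 0 := by
    by_contra hcon
    push Not at hcon
    exact hx (A.ext' hcon)
  have hi1 := h2 _ hi
  have hb : ∀ j, y.a.c j = y.a.c i * x.a.c j := by
    intro j
    have := key i j
    rwa [hi1, one_mul] at this
  have hyi : y.a.c i ≠ 0 := by
    intro h0
    apply hy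
    apply A.ext'
    intro j
    rw [hb j, h0, zero_mul, A.c_zero]
  have hyi1 := h2 _ hyi
  apply A.ext'
  intro j
  rw [hb j, hyi1, one_mul]

theorem infinite_A : Infinite A := inferInstanceAs (Infinite (ℕ →₀ ZMod 2))

/-- A finite subset of `A` generates a finite subgroup. -/
theorem finite_closure {S : Set A} (hS : S.Finite) :
    ((AddSubgroup.closure S : AddSubgroup A) : Set A).Finite := by
  have h1 : AddSubgroup.closure S ≤ (Submodule.span (ZMod 2) S).toAddSubgroup := by
    rw [AddSubgroup.closure_le]
    exact Submodule.subset_span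
  have h2 : FiniteDimensional (ZMod 2) (Submodule.span (ZMod 2) S) :=
    FiniteDimensional.span_of_finite (ZMod 2) hS
  have h3 : Finite (Submodule.span (ZMod 2) S) := Module.finite_of_finite (ZMod 2)
  have h4 : ((Submodule.span (ZMod 2) S : Submodule (ZMod 2) A) : Set A).Finite :=
    Set.toFinite _
  exact h4.subset h1

/-- The negation of the preceding statement: A Hausdorff locally compact group with small invariant neighbourhoods, whose abelian subgroups have compact closure and whose relatively compact subsets generate relatively compact subgroups, is totally disconnected or compact. -/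
theorem result :
    ¬ (∀ (G : Type) [Group G] [TopologicalSpace G] [IsTopologicalGroup G]
      [LocallyCompactSpace G] [T2Space G],
      (∀ U ∈ nhds (1 : G), ∃ V ∈ nhds (1 : G), V ⊆ U ∧
          ∀ g x : G, x ∈ V → g * x * g⁻¹ ∈ V) →
      (∀ H : Subgroup G, (∀ a ∈ H, ∀ b ∈ H, a * b = b * a) →
          IsCompact (closure (H : Set G))) →
      (∀ K : Set G, IsCompact (closure K) →
          IsCompact (closure ((Subgroup.closure K : Subgroup G) : Set G))) →
      TotallyDisconnectedSpace G ∨ CompactSpace G) := by
  intro hall
  have hcl : ∀ {F : Set A}, F.Finite → IsClosed {x : E | x.a ∈ F} := fun {F} _ =>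
    (isClosed_discrete F).preimage cont_a
  have := hall E ?_ ?_ ?_
  · rcases this with htd | hc
    · -- the circle is connected
      have hcont : Continuous (fun t : ℝ => (⟨0, 0, Circle.exp t⟩ : E)) :=
        cont_mk continuous_const continuous_const Circle.exp.continuous
      have hsub := htd.isTotallyDisconnected_univ _ (Set.subset_univ _)
        ((isPreconnected_univ (α := ℝ)).image _ hcont.continuousOn)
      have h1 := hsub (Set.mem_image_of_mem _ (Set.mem_univ (0 : ℝ)))
        (Set.mem_image_of_mem _ (Set.mem_univ Real.pi))
      have h2 := congrArg E.z h1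
      simp only [Circle.exp_zero] at h2
      have h3 := congrArg (fun z : Circle => (z : ℂ)) h2
      simp only [Circle.coe_one, Circle.coe_exp, Complex.exp_pi_mul_I] at h3
      norm_num at h3
    · have hrange : (Set.range (fun x : E => x.a)).Finite :=
        (isCompact_range cont_a).finite_of_discrete
      have huniv : Set.range (fun x : E => x.a) = Set.univ := by
        rw [Set.eq_univ_iff_forall]
        intro a
        exact ⟨⟨a, 0, 1⟩, rfl⟩
      rw [huniv] at hrange
      have := infinite_A
      exact Set.infinite_univ hrange
  · -- small invariant neighbourhoods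
    intro U hU
    have hopen : IsOpen {x : E | x.a = 0} := (isOpen_discrete ({0} : Set A)).preimage cont_a
    refine ⟨U ∩ {x : E | x.a = 0}, Filter.inter_mem hU (hopen.mem_nhds rfl), Set.inter_subset_left,
      ?_⟩
    rintro g x ⟨hxU, hx0⟩
    have hx0' : x.a = 0 := hx0
    have hcomm : g * x = x * g := by
      refine ext' ?_ ?_ ?_
      · simp only [mul_a, hx0', zero_add, add_zero]
      · intro p
        simp only [mul_n, hx0', A.c_zero]; ring
      · simp only [mul_z, mul_comm]
    rw [hcomm, mul_assoc, mul_inv_cancel, mul_one]
    exact ⟨hxU, hx0⟩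
  · -- abelian subgroups
    intro H hH
    by_cases hex : ∃ x ∈ H, x.a ≠ 0
    · obtain ⟨x, hxH, hx⟩ := hex
      have hsub : (H : Set E) ⊆ {y : E | y.a ∈ ({0, x.a} : Set A)} := by
        intro y hy
        rcases comm_cases (hH x hxH y hy) with h | h | h
        · exact absurd h hx
        · exact Or.inl h
        · exact Or.inr h.symm
      have hfin : ({0, x.a} : Set A).Finite := Set.toFinite _
      exact (isCompact_pre hfin).of_isClosed_subset isClosed_closure
        (closure_minimal hsub (hcl hfin))
    · push Not at hex
      have hfin : ({0} : Set A).Finite := Set.finite_singleton _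
      exact (isCompact_pre hfin).of_isClosed_subset isClosed_closure
        (closure_minimal (fun y hy => hex y hy) (hcl hfin))
  · -- generated subgroups
    intro K hK
    have hfinK : ((fun x : E => x.a) '' (closure K)).Finite := (hK.image cont_a).finite_of_discrete
    have hfin := finite_closure hfinK
    have hsub : ((Subgroup.closure K : Subgroup E) : Set E) ⊆
        {y : E | y.a ∈ ((AddSubgroup.closure ((fun x : E => x.a) '' (closure K)) : AddSubgroup A) :
          Set A)} := by
      intro y hy
      refine Subgroup.closure_induction (p := fun y _ => y.a ∈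
        (AddSubgroup.closure ((fun x : E => x.a) '' (closure K)) : AddSubgroup A)) ?_ ?_ ?_ ?_ hy
      · intro x hx
        exact AddSubgroup.subset_closure (Set.mem_image_of_mem _ (subset_closure hx))
      · exact AddSubgroup.zero_mem _
      · intro x y _ _ hx hy
        exact AddSubgroup.add_mem _ hx hy
      · intro x _ hx
        exact AddSubgroup.neg_mem _ hx
    exact (isCompact_pre hfin).of_isClosed_subset isClosed_closure
      (closure_minimal hsub (hcl hfin))

end Pool.Agent.S01554
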