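-- Statement S01555, the theorem Pool.MP_58ce6b_al.main.
import Pool.Statements.S01555
import Pool.Agent.W379.Final2

set_option autoImplicit false
open Classical
open Pool Pool.MP_58ce6b_al

namespace Pool.Agent.S01555

/-- There is a finitely presented group that fails rapid decay (no polynomial bound for convolution norms by ball radius) yet every Følner-amenable subgroup meets word-metric balls of radius r in polynomially many elements. -/
theorem result :
    ∃ (n : ℕ) (rels : Finset (FreeGroup (Fin n))),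
      (¬ ∃ C k : ℕ, ∀ r : ℕ,
          ∀ f g : PresentedGroup (↑rels : Set (FreeGroup (Fin n))) →₀ ℂ,
            (∀ y ∈ f.support, ∃ w : FreeGroup (Fin n),
                w.toWord.length ≤ r ∧ PresentedGroup.mk (↑rels : Set (FreeGroup (Fin n))) w = y) →
            ∑' x : PresentedGroup (↑rels : Set (FreeGroup (Fin n))),
                ‖∑ y ∈ f.support, f y * g (y⁻¹ * x)‖ ^ 2
              ≤ (C : ℝ) * ((1 : ℝ) + (r : ℝ)) ^ k
                  * (∑ y ∈ f.support, ‖f y‖ ^ 2) * (∑ y ∈ g.support, ‖g y‖ ^ 2)) ∧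
      ∀ H : Subgroup (PresentedGroup (↑rels : Set (FreeGroup (Fin n)))),
        (∀ F : Finset (PresentedGroup (↑rels : Set (FreeGroup (Fin n)))),
            (∀ x ∈ F, x ∈ H) → ∀ ε : ℝ, 0 < ε →
              ∃ A : Finset (PresentedGroup (↑rels : Set (FreeGroup (Fin n)))),
                A.Nonempty ∧ (∀ a ∈ A, a ∈ H) ∧
                  ∀ x ∈ F, ((((A.image (fun a => x * a)) \ A).card : ℕ) : ℝ) ≤ ε * (A.card : ℝ)) →
        ∃ C k : ℕ, ∀ r : ℕ,
          ({x : PresentedGroup (↑rels : Set (FreeGroup (Fin n))) |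
              x ∈ H ∧ ∃ w : FreeGroup (Fin n),
                w.toWord.length ≤ r ∧ PresentedGroup.mk (↑rels : Set (FreeGroup (Fin n))) w = x}).ncard
            ≤ C * (1 + r) ^ k := by
  exact Pool.Agent.W379.main_of_clique Pool.Agent.W379.Ds.RR Pool.Agent.W379.Ds.DDD
    Pool.Agent.W379.Ds.hD Pool.Agent.W379.Ds.hno Pool.Agent.W379.Ds.hcl

end Pool.Agent.S01555
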