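import Pool.Statements.S01591
import Pool.Agent.W386.Fibre

set_option autoImplicit false
open Pool Pool.MP_5c61b4_al

namespace Pool.Agent.S01591

/-- For n ≥ 2, if π₁: Γ₁→Q and π₂: Γ₂→Q are surjective, ker π₁ is of type F_n, Γ₁ and Γ₂ are F_{n+1}, and Q is F_{n+2}, then the fibre product of Γ₁ and Γ₂ over Q is of type F_{n+1}. -/
theorem result :
  ∀ (IsF : ℕ → (G : Type) → Group G → Prop),
    (∀ (m : ℕ) (G : Type) (inst : Group G), IsF m G inst ↔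
      ((∃ (r : ℕ) (f : FreeGroup (Fin r) →* G) (S : Finset (FreeGroup (Fin r))),
          Function.Surjective f ∧ f.ker = Subgroup.normalClosure (↑S : Set (FreeGroup (Fin r)))) ∧
       (∃ (k : ℕ → ℕ) (ε : MonoidAlgebra ℤ G →+* ℤ)
          (d : ∀ i : ℕ, (Fin (k (i+1)) → MonoidAlgebra ℤ G) →ₗ[MonoidAlgebra ℤ G]
                (Fin (k i) → MonoidAlgebra ℤ G)),
          (∀ g : G, ε (MonoidAlgebra.of ℤ G g) = 1) ∧
          (∃ x : Fin (k 0) → MonoidAlgebra ℤ G, ∑ j, ε (x j) = 1) ∧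
          (0 < m → ∀ x : Fin (k 0) → MonoidAlgebra ℤ G,
              (∑ j, ε (x j) = 0 ↔ x ∈ LinearMap.range (d 0))) ∧
          (∀ j : ℕ, j + 2 ≤ m → LinearMap.range (d (j+1)) = LinearMap.ker (d j))))) →
    ∀ (n : ℕ), 2 ≤ n →
    ∀ (Γ₁ Γ₂ Q : Type) [Group Γ₁] [Group Γ₂] [Group Q] (π₁ : Γ₁ →* Q) (π₂ : Γ₂ →* Q),
      Function.Surjective π₁ → Function.Surjective π₂ →
      IsF n (↥π₁.ker) inferInstance →
      IsF (n+1) Γ₁ inferInstance →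
      IsF (n+1) Γ₂ inferInstance →
      IsF (n+2) Q inferInstance →
      IsF (n+1)
        (↥(MonoidHom.eqLocus (π₁.comp (MonoidHom.fst Γ₁ Γ₂)) (π₂.comp (MonoidHom.snd Γ₁ Γ₂))))
        inferInstance := by
  intro IsF hIsF n hn Γ₁ Γ₂ Q _ _ _ π₁ π₂ h₁ h₂ hN hΓ₁ hΓ₂ hQ
  rw [hIsF] at hN hΓ₁ hΓ₂ hQ ⊢
  obtain ⟨hN1, hN2⟩ := hN
  obtain ⟨hΓ₁1, hΓ₁2⟩ := hΓ₁
  obtain ⟨hΓ₂1, hΓ₂2⟩ := hΓ₂
  obtain ⟨-, hQ2⟩ := hQ
  have hP : Group.IsFinitelyPresented (W386.FibP π₁ π₂) :=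
    W386.fp_fib π₁ π₂ h₁ (W386.fp_iff.2 hN1) (W386.fp_iff.2 hΓ₂1)
  refine ⟨W386.fp_iff.1 hP, ?_⟩
  exact W386.data_of_fps (W386.fps_fib π₁ π₂ h₁ h₂ hP (W386.fp_iff.2 hΓ₁1) n
    (W386.fps_of_data (by omega) hN2) (W386.fps_of_data (by omega) hΓ₁2)
    (W386.fps_of_data (by omega) hΓ₂2) (W386.fps_of_data (by omega) hQ2))

end Pool.Agent.S01591
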