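import Pool.Statements.S01642
import Pool.Agent.Results.MP_5f1296_al.SNStarDisproof

set_option autoImplicit false
open Pool Pool.MP_5f1296_al

namespace Pool.Agent.S01642

/-- The negation of the preceding statement: In every group with an ascending series with abelian factors, an element is right n-Engel for some n iff for some n ≥ 1 every cyclic subgroup ⟨x⟩ is subnormal of defect ≤ n in ⟨x⟩ times the normal closure of that element. -/
theorem result :
    ¬ (∀ (G : Type) [Group G],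
      (∃ (β : Ordinal.{0}) (S : Ordinal.{0} → Subgroup G),
        S 0 = ⊥ ∧ S β = ⊤ ∧
        (∀ α < β, S α ≤ S (Order.succ α) ∧
          (∀ g ∈ S (Order.succ α), ∀ h ∈ S α, g * h * g⁻¹ ∈ S α) ∧
          (∀ x ∈ S (Order.succ α), ∀ y ∈ S (Order.succ α), x * y * x⁻¹ * y⁻¹ ∈ S α)) ∧
        (∀ l ≤ β, Order.IsSuccLimit l → S l = ⨆ (α : Ordinal.{0}) (_ : α < l), S α)) →
      ∀ a : G,
        (∃ n : ℕ, ∀ x : G, (fun y : G => y⁻¹ * x⁻¹ * y * x)^[n] a = 1) ↔
        (∃ n : ℕ, 1 ≤ n ∧ ∀ x : G, ∃ H : ℕ → Subgroup G,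
           H 0 = Subgroup.zpowers x ∧
           H n = Subgroup.zpowers x ⊔ Subgroup.normalClosure {a} ∧
           ∀ i < n, H i ≤ H (i + 1) ∧ ∀ g ∈ H (i + 1), ∀ h ∈ H i, g * h * g⁻¹ ∈ H i)) := by
  intro h
  apply Pool.Agent.Results.MP_5f1296_al.SNStarDisproof.result
  rintro G _ ⟨β, S, h0, hβ, hs, hl⟩
  ext a
  refine h G ⟨β, S, h0, hβ, hs, fun l hlβ hlim => ?_⟩ a
  have h1 := hl l hlβ hlim
  apply le_antisymm
  · intro x hx
    have h2 : x ∈ (S l : Set G) := hx
    rw [h1] at h2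
    simp only [Set.mem_iUnion] at h2
    obtain ⟨α, hα, hx⟩ := h2
    exact (le_iSup₂ (f := fun (α : Ordinal.{0}) (_ : α < l) => S α) α hα) hx
  · refine iSup₂_le fun α hα x hx => ?_
    have h2 : x ∈ (S l : Set G) := by
      rw [h1]
      simp only [Set.mem_iUnion]
      exact ⟨α, hα, hx⟩
    exact h2

end Pool.Agent.S01642
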