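import Pool.Statements.S01662
import Pool.Agent.W251.Final

set_option autoImplicit false
open Pool Pool.MP_60a13f_al

namespace Pool.Agent.S01662

/-- The negation of the preceding statement: For every field k and every numerical semigroup whose toric ideal over k is generated by edim−1 polynomials, the tangent-cone Hilbert function h(j) = #(jM minus (j+1)M), M the nonzero elements, satisfies h(j) ≤ h(j+1) for all j. -/
theorem result :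
    ¬ (∀ (k : Type) [Field k] (Γ : AddSubmonoid ℕ), Set.Finite ((Γ : Set ℕ)ᶜ) →
    (∃ s : Finset (MvPolynomial {a : ℕ // a ∈ Γ ∧ a ≠ 0 ∧ ∀ b ∈ Γ, ∀ c ∈ Γ, b + c = a → b = 0 ∨ c = 0} k),
       s.card + 1 ≤ Nat.card {a : ℕ // a ∈ Γ ∧ a ≠ 0 ∧ ∀ b ∈ Γ, ∀ c ∈ Γ, b + c = a → b = 0 ∨ c = 0} ∧
       Ideal.span (s : Set (MvPolynomial {a : ℕ // a ∈ Γ ∧ a ≠ 0 ∧ ∀ b ∈ Γ, ∀ c ∈ Γ, b + c = a → b = 0 ∨ c = 0} k)) =
         RingHom.ker (MvPolynomial.aeval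
           (fun a : {a : ℕ // a ∈ Γ ∧ a ≠ 0 ∧ ∀ b ∈ Γ, ∀ c ∈ Γ, b + c = a → b = 0 ∨ c = 0} =>
              (Polynomial.X : Polynomial k) ^ a.val))) →
    ∀ j : ℕ,
      Set.ncard ({n : ℕ | ∃ f : Fin j → ℕ, (∀ i, f i ∈ Γ ∧ f i ≠ 0) ∧ n = ∑ i, f i} \
                 {n : ℕ | ∃ f : Fin (j + 1) → ℕ, (∀ i, f i ∈ Γ ∧ f i ≠ 0) ∧ n = ∑ i, f i})
      ≤
      Set.ncard ({n : ℕ | ∃ f : Fin (j + 1) → ℕ, (∀ i, f i ∈ Γ ∧ f i ≠ 0) ∧ n = ∑ i, f i} \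
                 {n : ℕ | ∃ f : Fin (j + 2) → ℕ, (∀ i, f i ∈ Γ ∧ f i ≠ 0) ∧ n = ∑ i, f i})) := by
  intro H
  have h : Set.ncard (Pool.Agent.W251.Mask.J (Pool.Agent.W251.Mask.Gam Pool.Agent.W251.Data.S) 57 \
      Pool.Agent.W251.Mask.J (Pool.Agent.W251.Mask.Gam Pool.Agent.W251.Data.S) 58) ≤
      Set.ncard (Pool.Agent.W251.Mask.J (Pool.Agent.W251.Mask.Gam Pool.Agent.W251.Data.S) 58 \
      Pool.Agent.W251.Mask.J (Pool.Agent.W251.Mask.Gam Pool.Agent.W251.Data.S) 59) :=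
    H ℚ (Pool.Agent.W251.Mask.Gam Pool.Agent.W251.Data.S)
      Pool.Agent.W251.Final.compl_finite Pool.Agent.W251.Final.ci 57
  rw [Pool.Agent.W251.Final.ncard57, Pool.Agent.W251.Final.ncard58] at h
  exact absurd h (by norm_num)

end Pool.Agent.S01662
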