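import Pool.Statements.S01673
import Pool.Agent.W317.CT.Final
import Pool.Agent.W317.CT.Bilip
import Pool.Agent.W317.CT.Rig
import Pool.Agent.W317.CT.FormNet
import Pool.Agent.W312.CT.Mean
import Pool.Agent.W312.CT.Alg
import Pool.Agent.W312.CT.Hom
import Pool.Agent.W312.CT.Chain
import Pool.Agent.W312.CT.Asd
import Pool.Agent.W646.CT.Ener
import Pool.Agent.W646.CT.Zoom
import Pool.Agent.W646.CT.FP
import Pool.Agent.W683.CT.Cay
import Pool.Agent.W683.CT.Code
import Pool.Agent.W683.CT.Dist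
import Pool.Agent.W683.CT.Grow
import Pool.Agent.W683.CT.Trans
import Pool.Agent.W925.CT.Unit
import Pool.Agent.W925.CT.Str

set_option autoImplicit false
open Pool Pool.MP_616471_al

namespace Pool.Agent.S01673

/-- There is a connected locally finite graph with polynomial growth, finite asymptotic dimension, and uniformly coarsely transitive quasi-isometries, which is not quasi-isometric to the Cayley graph of any finitely generated group. -/
theorem result :
    ∃ (V : Type) (G : SimpleGraph V),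
      G.Connected ∧ (∀ v, (G.neighborSet v).Finite) ∧
      (∃ (v₀ : V) (c d : ℕ), ∀ r : ℕ,
          Set.ncard {w | G.dist v₀ w ≤ r} ≤ c * (r + 1) ^ d) ∧
      (∃ n : ℕ, ∀ R : ℕ, ∃ (ι : Type) (U : ι → Set V) (D : ℕ),
          (∀ i, ∀ x ∈ U i, ∀ y ∈ U i, G.dist x y ≤ D) ∧
          (∀ x, ∃ i, x ∈ U i) ∧
          ∀ x, {i | ∃ y ∈ U i, G.dist x y ≤ R}.Finite ∧
            Set.ncard {i | ∃ y ∈ U i, G.dist x y ≤ R} ≤ n + 1) ∧
      (∃ K C : ℝ, 0 < K ∧ ∀ x y : V, ∃ f : V → V,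
          (∀ a b : V, (G.dist a b : ℝ) / K - C ≤ (G.dist (f a) (f b) : ℝ) ∧
              (G.dist (f a) (f b) : ℝ) ≤ K * (G.dist a b : ℝ) + C) ∧
          (∀ z : V, ∃ a : V, (G.dist (f a) z : ℝ) ≤ C) ∧
          (G.dist (f x) y : ℝ) ≤ C) ∧
      ∀ (H : Type) [Group H] (S : Set H), S.Finite → Subgroup.closure S = ⊤ →
        ¬ ∃ (φ : V → H) (K C : ℝ), 0 < K ∧
          (∀ a b : V,
              (G.dist a b : ℝ) / K - C ≤
                ((SimpleGraph.fromRel (fun g h : H => ∃ s ∈ S, h = g * s)).dist (φ a) (φ b) : ℝ) ∧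
              ((SimpleGraph.fromRel (fun g h : H => ∃ s ∈ S, h = g * s)).dist (φ a) (φ b) : ℝ) ≤
                K * (G.dist a b : ℝ) + C) ∧
          (∀ h : H, ∃ a : V,
              ((SimpleGraph.fromRel (fun g h : H => ∃ s ∈ S, h = g * s)).dist (φ a) h : ℝ) ≤ C) :=
  Pool.Agent.W317.CT.final
    (Pool.Agent.W317.CT.pansu (Pool.Agent.W317.CT.bilip Pool.Agent.W317.CT.lim)
      (Pool.Agent.W925.CT.unit Pool.Agent.W312.CT.mean Pool.Agent.W646.CT.ener Pool.Agent.W317.CT.lim)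
      (Pool.Agent.W646.CT.zoom Pool.Agent.W317.CT.lim) Pool.Agent.W925.CT.str
      Pool.Agent.W312.CT.hom Pool.Agent.W312.CT.alg)
    Pool.Agent.W317.CT.form Pool.Agent.W317.CT.rig Pool.Agent.W312.CT.chain
    (Pool.Agent.W683.CT.dist Pool.Agent.W317.CT.net) Pool.Agent.W683.CT.grow
    (Pool.Agent.W312.CT.asd Pool.Agent.W317.CT.net) (Pool.Agent.W683.CT.trans Pool.Agent.W317.CT.net)
    Pool.Agent.W646.CT.fp Pool.Agent.W683.CT.cay Pool.Agent.W683.CT.code
    (Pool.Agent.W683.CT.comp Pool.Agent.W317.CT.net)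

end Pool.Agent.S01673
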