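import Pool.Statements.S01683
import Pool.Agent.H395R3.FimH

set_option autoImplicit false
open Pool Pool.MP_61c0e4_al

namespace Pool.Agent.S01683

/-- For every k ≥ 2 there is an algorithm that, given two finite automata over k letters and their inverses, decides whether the image of the first language in the free inverse monoid is contained in the image of the second. -/
theorem result :
    ∀ k : ℕ, 2 ≤ k →
      ComputablePred
        (fun p : (List (ℕ × (Fin k × Bool) × ℕ) × ℕ × List ℕ) ×
            (List (ℕ × (Fin k × Bool) × ℕ) × ℕ × List ℕ) =>
          ∀ w : List (Fin k × Bool),
            (∃ s : List ℕ, s.length = w.length + 1 ∧ s.getD 0 0 = p.1.2.1 ∧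
              s.getD w.length 0 ∈ p.1.2.2 ∧
              ∀ (i : ℕ) (a : Fin k × Bool), w[i]? = some a →
                (s.getD i 0, a, s.getD (i + 1) 0) ∈ p.1.1) →
            ∃ w' : List (Fin k × Bool),
              (∃ s : List ℕ, s.length = w'.length + 1 ∧ s.getD 0 0 = p.2.2.1 ∧
                s.getD w'.length 0 ∈ p.2.2.2 ∧
                ∀ (i : ℕ) (a : Fin k × Bool), w'[i]? = some a →
                  (s.getD i 0, a, s.getD (i + 1) 0) ∈ p.2.1) ∧
              conGen
                (fun a b : FreeMonoid (Fin k × Bool) =>
                  (∃ u : FreeMonoid (Fin k × Bool),
                    a = u * FreeMonoid.ofList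
                          (((FreeMonoid.toList u).map (fun x => (x.1, !x.2))).reverse) * u ∧
                    b = u) ∨
                  (∃ u v : FreeMonoid (Fin k × Bool),
                    a = u * FreeMonoid.ofList
                          (((FreeMonoid.toList u).map (fun x => (x.1, !x.2))).reverse) *
                        v * FreeMonoid.ofList
                          (((FreeMonoid.toList v).map (fun x => (x.1, !x.2))).reverse) ∧
                    b = v * FreeMonoid.ofList
                          (((FreeMonoid.toList v).map (fun x => (x.1, !x.2))).reverse) *
                        u * FreeMonoid.ofList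
                          (((FreeMonoid.toList u).map (fun x => (x.1, !x.2))).reverse)))
                (FreeMonoid.ofList w) (FreeMonoid.ofList w')) := by
  intro k _
  exact Pool.Agent.H395R3.Fim.comp_incl

end Pool.Agent.S01683
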