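import Pool.Statements.S01687
import Pool.Agent.W258.P4.Fin2
import Pool.Agent.W258.P4.Blk0
import Pool.Agent.W258.P4.Blk2
import Pool.Agent.W258.P4.Blk4

set_option autoImplicit false
open Matrix
open scoped ComplexOrder
open Pool Pool.MP_61cf81_al

namespace Pool.Agent.S01687

/-- For every complex 4x4 positive semidefinite A, per A is an eigenvalue of the 24x24 Schur power matrix (all-ones eigenvector), and every eigenvalue of that matrix has real part at most per A. -/
theorem result :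
    ∀ A : Matrix (Fin 4) (Fin 4) ℂ, A.PosSemidef →
      ((Matrix.of (fun (σ : Equiv.Perm (Fin 4)) (τ : Equiv.Perm (Fin 4)) =>
            ∏ t : Fin 4, A (σ t) (τ t))).mulVec (fun _ : Equiv.Perm (Fin 4) => (1 : ℂ))
          = (Matrix.permanent A) • (fun _ : Equiv.Perm (Fin 4) => (1 : ℂ))) ∧
      ∀ (μ : ℂ) (x : Equiv.Perm (Fin 4) → ℂ), x ≠ 0 →
        (Matrix.of (fun (σ : Equiv.Perm (Fin 4)) (τ : Equiv.Perm (Fin 4)) =>
            ∏ t : Fin 4, A (σ t) (τ t))).mulVec x = μ • x →
          μ.re ≤ (Matrix.permanent A).re := 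
  Pool.W258.P4.pot4 Pool.W258.P4.blk0_ Pool.W258.P4.blk2_ Pool.W258.P4.blk4_

end Pool.Agent.S01687
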