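import Pool.Statements.S01783
import Pool.Agent.S01371
import Pool.Agent.W454.Nonsing

set_option autoImplicit false
open Pool Pool.MP_699d82_al

namespace Pool.Agent.S01783

/-- Any nonsingular real square matrix with a simple dominant positive eigenvalue, all power traces nonnegative, and tr(B^n)>0 forcing tr(B^{nk})>0, is similar-up-to-nilpotent-summand to a primitive nonnegative real matrix. -/
theorem result :
  ∀ (k : ℕ) (B : Matrix (Fin k) (Fin k) ℝ),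
    B.det ≠ 0 →
    (∃ r : ℝ, 0 < r ∧
        (B.charpoly.map (algebraMap ℝ ℂ)).roots.count (r : ℂ) = 1 ∧
        ∀ z ∈ (B.charpoly.map (algebraMap ℝ ℂ)).roots, z ≠ (r : ℂ) → ‖z‖ < r) →
    (∀ n : ℕ, 0 < n → 0 ≤ (B ^ n).trace) →
    (∀ n m : ℕ, 0 < n → 0 < m → 0 < (B ^ n).trace → 0 < (B ^ (n * m)).trace) →
    ∃ (p : ℕ) (N : Matrix (Fin p) (Fin p) ℝ)
      (A : Matrix (Fin k ⊕ Fin p) (Fin k ⊕ Fin p) ℝ)
      (P Q : Matrix (Fin k ⊕ Fin p) (Fin k ⊕ Fin p) ℝ),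
      IsNilpotent N ∧ (∀ i j, 0 ≤ A i j) ∧
      (∃ m : ℕ, 0 < m ∧ ∀ i j, 0 < (A ^ m) i j) ∧
      P * Q = 1 ∧ P * A * Q = Matrix.fromBlocks B 0 0 N := by
  intro k B hB hr ht1 ht2
  have htop : (⊤ : Subring ℝ) ≠ ⊥ := by
    intro h
    have h2 : (1 / 2 : ℝ) ∈ (⊥ : Subring ℝ) := h ▸ Subring.mem_top _
    rw [Subring.mem_bot] at h2
    obtain ⟨n, hn⟩ := h2
    have h3 : ((2 * n : ℤ) : ℝ) = ((1 : ℤ) : ℝ) := by
      push_cast
      rw [hn]; norm_num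
    have h4 : (2 * n : ℤ) = 1 := by exact_mod_cast h3
    omega
  have hmap : (B.map (fun x : ℝ => (x : ℂ))).charpoly = B.charpoly.map (algebraMap ℝ ℂ) :=
    Matrix.charpoly_map B (algebraMap ℝ ℂ)
  obtain ⟨p, C, hp, _, hC, hprim, hchain⟩ := Pool.Agent.S01371.result ⊤ k B
    (fun _ _ => Subring.mem_top _) (by rw [hmap]; exact hr) (fun h => absurd h htop)
    (fun _ m hm => ⟨ht1 m hm, fun l hl h => ht2 m l hm hl h⟩)
  have hchain' : Relation.ReflTransGen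
      (fun X Y : (Σ d : ℕ, Matrix (Fin d) (Fin d) ℝ) =>
        ∃ (R : Matrix (Fin X.1) (Fin Y.1) ℝ) (T : Matrix (Fin Y.1) (Fin X.1) ℝ),
          X.2 = R * T ∧ Y.2 = T * R) ⟨k, B⟩ ⟨p, C⟩ := by
    refine Relation.ReflTransGen.mono ?_ _ _ hchain
    rintro X Y ⟨R, T, _, _, h1, h2⟩
    exact ⟨R, T, h1, h2⟩
  exact Pool.Agent.W454.Nonsing.final (Pool.Agent.W454.Nonsing.has_chain hB hchain') hC hprim

end Pool.Agent.S01783
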