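import Pool.Statements.S01913
import Pool.Agent.W402.QFinal

set_option autoImplicit false
open Pool Pool.MP_73474e_al

namespace Pool.Agent.S01913

/-- There exist n ≥ 3, m ≥ 1 and a Nielsen move σ of the free group of rank n such that the quotient of Aut(F_n) by the normal closure of σ^m has infinitely many normal subgroups of finite index. -/
theorem result :
    ∃ n : ℕ, 3 ≤ n ∧ ∃ m : ℕ, 1 ≤ m ∧
      ∃ σ : MulAut (FreeGroup (Fin n)), ∃ i j : Fin n, i ≠ j ∧
        σ (FreeGroup.of i) = FreeGroup.of j * FreeGroup.of i ∧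
        (∀ k : Fin n, k ≠ i → σ (FreeGroup.of k) = FreeGroup.of k) ∧
        Set.Infinite
          {N : Subgroup (MulAut (FreeGroup (Fin n)) ⧸
              Subgroup.normalClosure ({σ ^ m} : Set (MulAut (FreeGroup (Fin n))))) |
            N.Normal ∧ N.FiniteIndex} := by
  refine ⟨3, le_refl _, 9, by norm_num, H270Q.nielsen 3 (by norm_num), ⟨0, by norm_num⟩,
    ⟨1, by norm_num⟩, by simp, H270Q.nielsen_zero (by norm_num), ?_, ?_⟩
  · intro k hk
    exact H270Q.nielsen_ne (by norm_num) k hk
  · exact W402Q.prime_power_case' 3 1 3 9 (by norm_num) (by norm_num) (by norm_num) (by norm_num)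

end Pool.Agent.S01913
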