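import Pool.Statements.S01943
import Pool.Agent.W601.RP.All

set_option autoImplicit false
open Pool Pool.MP_76381c_al

namespace Pool.Agent.S01943

/-- There is a countably infinite abelian topological group that is precompact and whose evaluation map into its double Pontryagin dual (characters into the circle, compact-open topology) is a homeomorphism. -/
theorem result :
    ∃ (G : Type) (_ : CommGroup G) (_ : TopologicalSpace G),
      IsTopologicalGroup G ∧ Countable G ∧ Infinite G ∧
      (∀ U ∈ nhds (1 : G), ∃ F : Finset G, ∀ g : G, ∃ f ∈ F, ∃ u ∈ U, g = f * u) ∧
      ∃ e : G ≃ₜ PontryaginDual (PontryaginDual G),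
        ∀ (g : G) (χ : PontryaginDual G), e g χ = χ g := by
  exact Pool.Agent.W601.RP.all

end Pool.Agent.S01943
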