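import Pool.Statements.S01989
import Pool.Agent.Results.MP_7909d8_al.CountableAct

set_option autoImplicit false
open Pool Pool.MP_7909d8_al

namespace Pool.Agent.S01989

/-- Every countable group G admits an injective homomorphism into the automorphism group of some finitely generated soluble group S. -/
theorem result :
    ∀ (G : Type) [Group G] [Countable G],
      ∃ (S : Type) (_ : Group S), Group.FG S ∧ IsSolvable S ∧
        ∃ f : G →* MulAut S, Function.Injective f := by
  intro G _ _
  obtain ⟨S, hS, h1, h2, _, h3⟩ := Pool.Agent.Results.MP_7909d8_al.CountableAct.result G
  exact ⟨S, hS, h1, h2, h3⟩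

end Pool.Agent.S01989
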