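import Pool.Statements.S02012
import Pool.Agent.W330.Branch2

set_option autoImplicit false
open Pool Pool.MP_79f901_al

namespace Pool.Agent.S02012

open Pool.Agent.W330.Branch

/-- The binary tree in the form used by the statement. -/
abbrev TT : Type := {l : List ℕ // ∀ i (h : i < l.length), l.get ⟨i, h⟩ < (fun _ : ℕ => 2) i}

/-- A number to a letter. -/
def dec (x : ℕ) : Bool := decide (x = 1)

/-- A letter to a number. -/
def enc (b : Bool) : ℕ := if b then 1 else 0

lemma dec_enc (b : Bool) : dec (enc b) = b := by cases b <;> rfl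

lemma enc_dec {x : ℕ} (h : x < 2) : enc (dec x) = x := by
  interval_cases x <;> rfl

lemma enc_lt (b : Bool) : enc b < 2 := by cases b <;> simp [enc]

/-- The coding of words. -/
def e : TT ≃ W where
  toFun v := v.1.map dec
  invFun w := ⟨w.map enc, fun i h => by simpa using enc_lt _⟩
  left_inv v := by
    apply Subtype.ext
    apply List.ext_getElem
    · simp
    · intro i h1 h2
      have := v.2 i h2
      simp only [List.getElem_map]
      exact enc_dec (by simpa using this)
  right_inv w := by
    show (w.map enc).map dec = w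
    rw [List.map_map]
    apply List.ext_getElem
    · simp
    · intro i h1 h2
      simp [dec_enc]

lemma e_prefix (v w : TT) : v.1 <+: w.1 ↔ e v <+: e w := by
  constructor
  · intro h
    exact h.map dec
  · intro h
    have h1 : (e v).map enc <+: (e w).map enc := h.map enc
    have h2 : (e.symm (e v)).1 <+: (e.symm (e w)).1 := h1
    simpa using h2

lemma e_length (v : TT) : (e v).length = v.1.length := by simp [e]

/-- Transport of permutations. -/
def c : Equiv.Perm TT ≃* Equiv.Perm W := e.permCongrHom

lemma c_apply (g : Equiv.Perm TT) (w : W) : c g w = e (g (e.symm w)) := rfl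

lemma c_apply' (g : Equiv.Perm TT) (v : TT) : c g (e v) = e (g v) := by
  rw [c_apply, Equiv.symm_apply_apply]

lemma cs_apply (g : Equiv.Perm W) (v : TT) : c.symm g v = e.symm (g (e v)) := rfl

/-- The group. -/
def L : Subgroup (Equiv.Perm TT) := LB.comap c.toMonoidHom

lemma mem_L {g : Equiv.Perm TT} : g ∈ L ↔ c g ∈ LB := Iff.rfl

/-- The isomorphism between the two forms of the group. -/
def cL : L ≃* LB where
  toFun g := ⟨c g, g.2⟩
  invFun g := ⟨c.symm g, by rw [mem_L, MulEquiv.apply_symm_apply]; exact g.2⟩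
  left_inv g := Subtype.ext (c.symm_apply_apply _)
  right_inv g := Subtype.ext (c.apply_symm_apply _)
  map_mul' a b := Subtype.ext (map_mul c _ _)

/-- The negation of the preceding statement: For every branch group L acting on a spherically homogeneous rooted tree, every automorphism of L is conjugation by a unique tree automorphism, so Aut L equals the normalizer of L in Aut T. -/
theorem result :
    ¬ (∀ (m : ℕ → ℕ), (∀ n, 2 ≤ m n) →
    ∀ L : Subgroup (Equiv.Perm {l : List ℕ // ∀ i (h : i < l.length), l.get ⟨i, h⟩ < m i}),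
    (∀ g ∈ L, ∀ v w : {l : List ℕ // ∀ i (h : i < l.length), l.get ⟨i, h⟩ < m i},
        (List.IsPrefix v.1 w.1 ↔ List.IsPrefix (g v).1 (g w).1)) →
    (∀ v w : {l : List ℕ // ∀ i (h : i < l.length), l.get ⟨i, h⟩ < m i},
        v.1.length = w.1.length → ∃ g ∈ L, g v = w) →
    (∀ n : ℕ, ((Subgroup.closure
        {g : Equiv.Perm {l : List ℕ // ∀ i (h : i < l.length), l.get ⟨i, h⟩ < m i} |
          g ∈ L ∧ ∃ u : {l : List ℕ // ∀ i (h : i < l.length), l.get ⟨i, h⟩ < m i},
            u.1.length = n ∧
            ∀ v : {l : List ℕ // ∀ i (h : i < l.length), l.get ⟨i, h⟩ < m i},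
              ¬ List.IsPrefix u.1 v.1 → g v = v}).subgroupOf L).index ≠ 0) →
    ∀ φ : L ≃* L,
      ∃! σ : Equiv.Perm {l : List ℕ // ∀ i (h : i < l.length), l.get ⟨i, h⟩ < m i},
        (∀ v w : {l : List ℕ // ∀ i (h : i < l.length), l.get ⟨i, h⟩ < m i},
          (List.IsPrefix v.1 w.1 ↔ List.IsPrefix (σ v).1 (σ w).1)) ∧
        ∀ g : L, ((φ g : L) : Equiv.Perm {l : List ℕ // ∀ i (h : i < l.length), l.get ⟨i, h⟩ < m i})
          = σ * (g : Equiv.Perm {l : List ℕ // ∀ i (h : i < l.length), l.get ⟨i, h⟩ < m i}) * σ⁻¹) := by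
  intro H
  have H1 := H (fun _ => 2) (fun _ => le_rfl) L ?_ ?_ ?_ ((cL.trans phi).trans cL.symm)
  · obtain ⟨σ, ⟨hσ1, hσ2⟩, _⟩ := H1
    refine no_sigma (c σ) ?_ ?_
    · intro v w
      obtain ⟨v, rfl⟩ := e.surjective v
      obtain ⟨w, rfl⟩ := e.surjective w
      rw [c_apply', c_apply', ← e_prefix, ← e_prefix]
      exact hσ1 v w
    · intro g
      have h1 := hσ2 (cL.symm g)
      have h2 := congrArg c h1
      rw [map_mul, map_mul, map_inv] at h2
      have h3 : c ((cL.symm g : L) : Equiv.Perm TT) = (g : Equiv.Perm W) := c.apply_symm_apply _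
      rw [h3] at h2
      rw [← h2]
      simp only [MulEquiv.trans_apply, MulEquiv.apply_symm_apply]
      exact (c.apply_symm_apply _).symm
  · intro g hg v w
    rw [e_prefix, e_prefix, ← c_apply', ← c_apply']
    exact (mem_LB.1 hg).pre _ _
  · intro v w h
    obtain ⟨g, hg, h1⟩ := trans_LB (e v) (e w) (by rw [e_length, e_length]; exact h)
    refine ⟨c.symm g, by rw [mem_L, MulEquiv.apply_symm_apply]; exact hg, ?_⟩
    rw [cs_apply, h1, Equiv.symm_apply_apply]
  · intro n
    have h1 : (Subgroup.closure {g : Equiv.Perm TT | g ∈ L ∧ ∃ u : TT, u.1.length = n ∧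
        ∀ v : TT, ¬ List.IsPrefix u.1 v.1 → g v = v}) = (rist n).comap c.toMonoidHom := by
      have h0 : (rist n).comap c.toMonoidHom = (rist n).map c.symm.toMonoidHom :=
        (Subgroup.map_equiv_eq_comap_symm c.symm (rist n)).symm
      rw [h0, rist, MonoidHom.map_closure]
      congr 1
      ext g
      constructor
      · rintro ⟨hg, u, hu, h2⟩
        refine ⟨c g, ⟨hg, e u, by rw [e_length]; exact hu, ?_⟩, c.symm_apply_apply g⟩
        intro v hv
        obtain ⟨v, rfl⟩ := e.surjective v
        rw [← e_prefix] at hv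
        rw [c_apply', h2 v hv]
      · rintro ⟨g, ⟨hg, u, hu, h2⟩, rfl⟩
        refine ⟨by
          show c (c.symm g) ∈ LB
          rw [MulEquiv.apply_symm_apply]; exact hg, e.symm u, ?_, ?_⟩
        · rw [← e_length, Equiv.apply_symm_apply]; exact hu
        · intro v hv
          rw [e_prefix, Equiv.apply_symm_apply] at hv
          show c.symm g v = v
          rw [cs_apply, h2 _ hv, Equiv.symm_apply_apply]
    rw [h1]
    have h2 : L.map c.toMonoidHom = LB := Subgroup.map_comap_eq_self_of_surjective c.surjective LB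
    have h3 := Subgroup.relIndex_comap (rist n) c.toMonoidHom L
    rw [h2] at h3
    show ((rist n).comap c.toMonoidHom).relIndex L ≠ 0
    rw [h3]
    exact index_ne n

end Pool.Agent.S02012
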