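import Pool.Statements.S02070
import Pool.Agent.W447.GLpadic

set_option autoImplicit false
open Pool Pool.MP_7ed69f_al

namespace Pool.Agent.S02070

open Pool.Agent.W447

/-- The negation of the preceding statement: For all N,r ≥ 2 there is a finite set of integer polynomials of degree ≤ C(N,2)·r whose values at q are exactly the dimensions of irreducible complex reps of GL_N(o/p^r) nontrivial on the level-(r−1) kernel, for every compact DVR o. -/
theorem result :
    ¬ (∀ N r : ℕ, 2 ≤ N → 2 ≤ r →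
    ∃ P : Finset (Polynomial ℤ), (∀ d ∈ P, d.natDegree ≤ N.choose 2 * r) ∧
    ∀ (R : Type) [CommRing R] [IsDomain R] [IsDiscreteValuationRing R]
      [Finite (IsLocalRing.ResidueField R)]
      [IsAdicComplete (IsLocalRing.maximalIdeal R) R],
    {z : ℤ | ∃ (V : Type) (_ : AddCommGroup V) (_ : Module ℂ V)
        (ρ : Representation ℂ
          (Matrix.GeneralLinearGroup (Fin N) (R ⧸ IsLocalRing.maximalIdeal R ^ r)) V),
        FiniteDimensional ℂ V ∧ Nontrivial V ∧
        (∀ W : Submodule ℂ V, (∀ g v, v ∈ W → ρ g v ∈ W) → W = ⊥ ∨ W = ⊤) ∧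
        (∃ g : Matrix.GeneralLinearGroup (Fin N) (R ⧸ IsLocalRing.maximalIdeal R ^ r),
          (∀ i j, ∃ a ∈ IsLocalRing.maximalIdeal R ^ (r - 1),
            g.val i j
              - (1 : Matrix (Fin N) (Fin N) (R ⧸ IsLocalRing.maximalIdeal R ^ r)) i j
              = Ideal.Quotient.mk (IsLocalRing.maximalIdeal R ^ r) a) ∧ ρ g ≠ 1) ∧
        (Module.finrank ℂ V : ℤ) = z}
    = (fun d : Polynomial ℤ => d.eval (Nat.card (IsLocalRing.ResidueField R) : ℤ)) ''
        (P : Set (Polynomial ℤ))) := by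
  intro hall
  obtain ⟨P, -, hP⟩ := hall 3 2 (by norm_num) le_rfl
  -- the polynomial giving the dimension of the split regular representations
  let f : Polynomial ℤ := Polynomial.X ^ 3 * (Polynomial.X + 1) *
    (Polynomial.X ^ 2 + Polynomial.X + 1)
  have hfe : ∀ x : ℤ, f.eval x = x ^ 3 * (x + 1) * (x ^ 2 + x + 1) := by
    intro x
    simp [f]
  -- every odd prime forces some member of `P` to agree with `f` there
  have hodd : ∀ p : ℕ, p.Prime → p ≠ 2 → ∃ d ∈ P, d.eval (p : ℤ) = f.eval (p : ℤ) := by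
    intro p hp hp2
    have : Fact p.Prime := ⟨hp⟩
    obtain ⟨χ, hχ⟩ := GLloc.exists_char p
    have h2 : (2 : ZMod p) ≠ 0 := by
      intro h0
      have h1 : ((2 : ℕ) : ZMod p) = 0 := by exact_mod_cast h0
      rw [ZMod.natCast_eq_zero_iff] at h1
      exact hp2 ((Nat.prime_dvd_prime_iff_eq hp Nat.prime_two).1 h1)
    obtain ⟨V, i1, i2, ρ, hfd, hnt, hirr, ⟨g, hgK, hg1⟩, hdim⟩ :=
      GLloc.big χ (GLloc.loc p) hχ h2
    have hset := hP ℤ_[p]
    have hmem : (Module.finrank ℂ V : ℤ) ∈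
        (fun d : Polynomial ℤ => d.eval (Nat.card (IsLocalRing.ResidueField ℤ_[p]) : ℤ)) ''
          (P : Set (Polynomial ℤ)) := by
      rw [← hset]
      exact ⟨V, i1, i2, ρ, hfd, hnt, hirr, ⟨g, GLloc.mem_K_of p rfl g hgK, hg1⟩, rfl⟩
    obtain ⟨d, hd, hde⟩ := hmem
    refine ⟨d, hd, ?_⟩
    simp only at hde
    rw [GLloc.card_residue, hdim, ZMod.card] at hde
    rw [hde, hfe]
    push_cast
    ring
  -- hence `f ∈ P`
  have hfP : f ∈ P := by
    by_contra hf
    have hne : ∏ d ∈ P, (d - f) ≠ 0 := by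
      rw [Finset.prod_ne_zero_iff]
      intro d hd h0
      rw [sub_eq_zero] at h0
      exact hf (h0 ▸ hd)
    have hroots : {x : ℤ | ∃ p : ℕ, p.Prime ∧ p ≠ 2 ∧ (p : ℤ) = x} ⊆
        ((∏ d ∈ P, (d - f)).roots.toFinset : Set ℤ) := by
      rintro x ⟨p, hp, hp2, rfl⟩
      rw [Finset.mem_coe, Multiset.mem_toFinset, Polynomial.mem_roots hne, Polynomial.IsRoot,
        Polynomial.eval_prod]
      obtain ⟨d, hd, hde⟩ := hodd p hp hp2
      exact Finset.prod_eq_zero hd (by rw [Polynomial.eval_sub, hde, sub_self])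
    have hfin := (Finset.finite_toSet _).subset hroots
    have hinf : {p : ℕ | p.Prime ∧ p ≠ 2}.Infinite := by
      have : {p : ℕ | p.Prime ∧ p ≠ 2} = {p : ℕ | p.Prime} \ {2} := by
        ext p; simp
      rw [this]
      exact Nat.infinite_setOfPred_prime.sdiff (Set.finite_singleton 2)
    apply hinf
    have himg : (fun p : ℕ => (p : ℤ)) '' {p : ℕ | p.Prime ∧ p ≠ 2} ⊆
        {x : ℤ | ∃ p : ℕ, p.Prime ∧ p ≠ 2 ∧ (p : ℤ) = x} := by
      rintro x ⟨p, ⟨hp, hp2⟩, rfl⟩
      exact ⟨p, hp, hp2, rfl⟩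
    exact (hfin.subset himg).of_finite_image (fun a _ b _ hab => Nat.cast_injective (R := ℤ) hab)
  -- contradiction at the prime two
  have hset := hP ℤ_[2]
  have hmem : (168 : ℤ) ∈ (fun d : Polynomial ℤ =>
      d.eval (Nat.card (IsLocalRing.ResidueField ℤ_[2]) : ℤ)) '' (P : Set (Polynomial ℤ)) := by
    refine ⟨f, hfP, ?_⟩
    simp only
    rw [GLloc.card_residue, hfe]
    norm_num
  rw [← hset] at hmem
  obtain ⟨V, i1, i2, ρ, hfd, hnt, hirr, -, hdim⟩ := hmem
  have hle := GLloc.small (GLloc.loc 2) ρ hirr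
  have : (Module.finrank ℂ V : ℤ) ≤ 84 := by exact_mod_cast hle
  omega

end Pool.Agent.S02070
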