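import Pool.Statements.S02076
import Pool.Agent.W392.QI.Main
-- import your own Pool.Agent.* helpers here

set_option autoImplicit false
open Pool Pool.MP_7f5b60_al

namespace Pool.Agent.S02076

/-- The negation of the preceding statement: If a group G is quasi-isometric, via word metrics of finite generating sets, to a group with a surjection onto Z whose kernel is finitely generated free, then G has a finite-index subgroup that also maps onto Z with finitely generated free kernel. -/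
theorem result :
    ¬ (∀ (G H : Type) [Group G] [Group H],
      (∃ φ : H →* Multiplicative ℤ, Function.Surjective φ ∧
          IsFreeGroup ↥φ.ker ∧ Group.FG ↥φ.ker) →
      (∃ (S : Finset G) (T : Finset H) (f : G → H) (L C : ℕ),
          Subgroup.closure (S : Set G) = ⊤ ∧ Subgroup.closure (T : Set H) = ⊤ ∧
          (∀ a b : G, ∀ n : ℕ,
            (∃ l : List G, l.length ≤ n ∧ (∀ x ∈ l, x ∈ S ∨ x⁻¹ ∈ S) ∧ l.prod = a⁻¹ * b) →
            ∃ l : List H, l.length ≤ L * n + C ∧ (∀ x ∈ l, x ∈ T ∨ x⁻¹ ∈ T) ∧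
              l.prod = (f a)⁻¹ * f b) ∧
          (∀ a b : G, ∀ n : ℕ,
            (∃ l : List H, l.length ≤ n ∧ (∀ x ∈ l, x ∈ T ∨ x⁻¹ ∈ T) ∧
              l.prod = (f a)⁻¹ * f b) →
            ∃ l : List G, l.length ≤ L * n + C ∧ (∀ x ∈ l, x ∈ S ∨ x⁻¹ ∈ S) ∧
              l.prod = a⁻¹ * b) ∧
          (∀ y : H, ∃ x : G, ∃ l : List H, l.length ≤ C ∧ (∀ z ∈ l, z ∈ T ∨ z⁻¹ ∈ T) ∧
              l.prod = (f x)⁻¹ * y)) →
      ∃ K : Subgroup G, K.FiniteIndex ∧
        ∃ ψ : ↥K →* Multiplicative ℤ, Function.Surjective ψ ∧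
          IsFreeGroup ↥ψ.ker ∧ Group.FG ↥ψ.ker) := by
  intro h
  obtain ⟨K, hK, ψ, hψ, hfree, hfg⟩ := h Pool.Agent.W392.QI.G Pool.Agent.W392.QI.H
    Pool.Agent.W392.QI.H_fbc Pool.Agent.W392.QI.qi_frozen
  exact Pool.Agent.W392.QI.not_virtually K hK ψ hψ hfree hfg

end Pool.Agent.S02076
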