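import Pool.Statements.S02098
import Pool.Agent.Results.MP_81db1e_al.NoEnvelope

set_option autoImplicit false
open Pool Pool.MP_81db1e_al

namespace Pool.Agent.S02098

/-- The negation of the preceding statement: For every char-0 field k and k-algebra R with some finite-dimensional representation, there is one finite-dimensional representation (F,A) in which every family of R that is dependent in some finite-dimensional representation is already dependent. -/
theorem result :
    ¬ (∀ (k : Type) [Field k] [CharZero k] (R : Type) [Ring R] [Algebra k R],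
      (∃ (F : Type) (_ : Field F) (_ : Algebra k F) (A : Type) (_ : Ring A)
          (_ : Algebra F A) (_ : Algebra k A) (_ : IsScalarTower k F A)
          (_ : FiniteDimensional F A) (φ : R →ₐ[k] A), Function.Injective φ) →
      ∃ (F : Type) (_ : Field F) (_ : Algebra k F) (A : Type) (_ : Ring A)
          (_ : Algebra F A) (_ : Algebra k A) (_ : IsScalarTower k F A)
          (_ : FiniteDimensional F A) (φ : R →ₐ[k] A),
        Function.Injective φ ∧
        ∀ (F' : Type) [Field F'] [Algebra k F'] (A' : Type) [Ring A'] [Algebra F' A']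
          [Algebra k A'] [IsScalarTower k F' A'] [FiniteDimensional F' A']
          (φ' : R →ₐ[k] A'), Function.Injective φ' →
          ∀ (ι : Type) (r : ι → R),
            ¬ LinearIndependent F' (fun i => φ' (r i)) →
            ¬ LinearIndependent F (fun i => φ (r i))) := by
  intro h
  obtain ⟨R, i1, i2, ⟨F₀, j1, j2, A₀, j3, j4, j5, j6, φ₀, hfd, hinj⟩, H⟩ :=
    Pool.Agent.Results.MP_81db1e_al.NoEnvelope.result.{0, 0, 0} ℚ
  obtain ⟨F, k1, k2, A, k3, k4, k5, k6, k7, φ, hφ, hall⟩ :=
    h ℚ R ⟨F₀, j1, j2, A₀, j3, j4, j5, j6, hfd, φ₀, hinj⟩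
  obtain ⟨r, hr, F', l1, l2, A', l3, l4, l5, l6, φ', hfd', hinj', hdep⟩ :=
    H F A (φ : R →ₙₐ[ℚ] A) k7 hφ
  exact hall F' A' φ' hinj' (Fin 2) r hdep hr

end Pool.Agent.S02098
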