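import Pool.Statements.S02155
import Pool.Agent.W380.VirtEndo

set_option autoImplicit false
open Pool Pool.MP_8519b0_al

namespace Pool.Agent.S02155

open Matrix

/-- shorthand for the group -/
abbrev SL3 := Matrix.SpecialLinearGroup (Fin 3) ℤ

lemma mul_entry (g h : SL3) (i j : Fin 3) :
    (g * h) i j = g i 0 * h 0 j + g i 1 * h 1 j + g i 2 * h 2 j := by
  rw [Matrix.SpecialLinearGroup.coe_mul, Matrix.mul_apply, Fin.sum_univ_three]

lemma inv_entry_10 (g : SL3) : g⁻¹ 1 0 = -(g 1 0 * g 2 2) + g 1 2 * g 2 0 := by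
  rw [Matrix.SpecialLinearGroup.coe_inv, Matrix.adjugate_fin_three]
  simp

lemma inv_entry_20 (g : SL3) : g⁻¹ 2 0 = g 1 0 * g 2 1 - g 1 1 * g 2 0 := by
  rw [Matrix.SpecialLinearGroup.coe_inv, Matrix.adjugate_fin_three]
  simp

/-- the stabiliser of the first coordinate line modulo two -/
def H : Subgroup SL3 where
  carrier := {g | (2 : ℤ) ∣ g 1 0 ∧ (2 : ℤ) ∣ g 2 0}
  one_mem' := by
    constructor <;> simp
  mul_mem' := by
    rintro g h ⟨h1, h2⟩ ⟨h3, h4⟩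
    refine ⟨?_, ?_⟩
    · have := mul_entry g h 1 0
      exact this ▸ dvd_add (dvd_add (h1.mul_right _) (h3.mul_left _)) (h4.mul_left _)
    · have := mul_entry g h 2 0
      exact this ▸ dvd_add (dvd_add (h2.mul_right _) (h3.mul_left _)) (h4.mul_left _)
  inv_mem' := by
    rintro g ⟨h1, h2⟩
    refine ⟨?_, ?_⟩
    · have := inv_entry_10 g
      exact this ▸ dvd_add ((h1.mul_right _).neg_right) (h2.mul_left _)
    · have := inv_entry_20 g
      exact this ▸ dvd_sub (h1.mul_right _) (h2.mul_left _)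

lemma mem_H {g : SL3} : g ∈ H ↔ (2 : ℤ) ∣ g 1 0 ∧ (2 : ℤ) ∣ g 2 0 := Iff.rfl

instance : H.FiniteIndex := by
  have hle : (SpecialLinearGroup.map (n := Fin 3) (Int.castRingHom (ZMod 2))).ker ≤ H := by
    intro g hg
    rw [MonoidHom.mem_ker] at hg
    have h1 : ∀ i j, ((g i j : ℤ) : ZMod 2) = (1 : Matrix (Fin 3) (Fin 3) (ZMod 2)) i j := by
      intro i j
      have := congrArg (fun m : SpecialLinearGroup (Fin 3) (ZMod 2) => m i j) hg
      simpa using this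
    constructor
    · have := h1 1 0
      rw [Matrix.one_apply_ne (by decide)] at this
      exact (ZMod.intCast_zmod_eq_zero_iff_dvd _ 2).1 this
    · have := h1 2 0
      rw [Matrix.one_apply_ne (by decide)] at this
      exact (ZMod.intCast_zmod_eq_zero_iff_dvd _ 2).1 this
  have : (SpecialLinearGroup.map (n := Fin 3) (Int.castRingHom (ZMod 2))).ker.FiniteIndex :=
    Subgroup.finiteIndex_ker _
  exact Subgroup.finiteIndex_of_le hle

/-- conjugation by `diag(2,1,1)` -/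
def conj (m : Matrix (Fin 3) (Fin 3) ℤ) : Matrix (Fin 3) (Fin 3) ℤ :=
  !![m 0 0, 2 * m 0 1, 2 * m 0 2; m 1 0 / 2, m 1 1, m 1 2; m 2 0 / 2, m 2 1, m 2 2]

lemma det_conj (g : SL3) (hg : g ∈ H) : (conj (g : Matrix (Fin 3) (Fin 3) ℤ)).det = 1 := by
  obtain ⟨⟨a, ha⟩, ⟨b, hb⟩⟩ := hg
  have hd := g.det_coe
  rw [Matrix.det_fin_three] at hd ⊢
  simp only [conj]
  simp
  rw [ha, hb, Int.mul_ediv_cancel_left _ (by norm_num), Int.mul_ediv_cancel_left _ (by norm_num)]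
  rw [ha, hb] at hd
  linarith

lemma conj_mul (g h : SL3) (hg : g ∈ H) (hh : h ∈ H) :
    conj ((g : Matrix (Fin 3) (Fin 3) ℤ) * (h : Matrix (Fin 3) (Fin 3) ℤ)) =
      conj (g : Matrix (Fin 3) (Fin 3) ℤ) * conj (h : Matrix (Fin 3) (Fin 3) ℤ) := by
  obtain ⟨⟨a, ha⟩, ⟨b, hb⟩⟩ := hg
  obtain ⟨⟨a', ha'⟩, ⟨b', hb'⟩⟩ := hh
  have e1 : ((g : Matrix (Fin 3) (Fin 3) ℤ) * (h : Matrix (Fin 3) (Fin 3) ℤ)) 1 0 =
      2 * (a * h 0 0 + g 1 1 * a' + g 1 2 * b') := by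
    rw [Matrix.mul_apply, Fin.sum_univ_three, ha, ha', hb']; ring
  have e2 : ((g : Matrix (Fin 3) (Fin 3) ℤ) * (h : Matrix (Fin 3) (Fin 3) ℤ)) 2 0 =
      2 * (b * h 0 0 + g 2 1 * a' + g 2 2 * b') := by
    rw [Matrix.mul_apply, Fin.sum_univ_three, hb, ha', hb']; ring
  have d1 : g 1 0 / 2 = a := by rw [ha]; exact Int.mul_ediv_cancel_left _ (by norm_num)
  have d2 : g 2 0 / 2 = b := by rw [hb]; exact Int.mul_ediv_cancel_left _ (by norm_num)
  have d3 : h 1 0 / 2 = a' := by rw [ha']; exact Int.mul_ediv_cancel_left _ (by norm_num)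
  have d4 : h 2 0 / 2 = b' := by rw [hb']; exact Int.mul_ediv_cancel_left _ (by norm_num)
  have d5 : ((g : Matrix (Fin 3) (Fin 3) ℤ) * (h : Matrix (Fin 3) (Fin 3) ℤ)) 1 0 / 2 =
      a * h 0 0 + g 1 1 * a' + g 1 2 * b' := by
    rw [e1]; exact Int.mul_ediv_cancel_left _ (by norm_num)
  have d6 : ((g : Matrix (Fin 3) (Fin 3) ℤ) * (h : Matrix (Fin 3) (Fin 3) ℤ)) 2 0 / 2 =
      b * h 0 0 + g 2 1 * a' + g 2 2 * b' := by
    rw [e2]; exact Int.mul_ediv_cancel_left _ (by norm_num)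
  unfold conj
  rw [d1, d2, d3, d4, d5, d6]
  ext i j
  fin_cases i <;> fin_cases j <;>
    simp [Matrix.mul_apply, Fin.sum_univ_three, ha, hb, ha', hb'] <;> ring

lemma conj_one : conj 1 = 1 := by
  ext i j
  fin_cases i <;> fin_cases j <;> simp [conj]

/-- the virtual endomorphism -/
def phi : H →* SL3 where
  toFun g := ⟨conj (g : SL3), det_conj _ g.2⟩
  map_one' := by
    apply Subtype.ext
    exact conj_one
  map_mul' g h := by
    apply Subtype.ext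
    exact conj_mul _ _ g.2 h.2

lemma phi_10 (g : H) : (phi g) 1 0 = (g : SL3) 1 0 / 2 := rfl
lemma phi_20 (g : H) : (phi g) 2 0 = (g : SL3) 2 0 / 2 := rfl

/-- cyclic permutation matrix -/
def P : SL3 := ⟨!![0, 0, 1; 1, 0, 0; 0, 1, 0], by rw [Matrix.det_fin_three]; simp⟩

/-- its inverse -/
def Q : SL3 := ⟨!![0, 1, 0; 0, 0, 1; 1, 0, 0], by rw [Matrix.det_fin_three]; simp⟩

/-- transvections -/
def E1 : SL3 := ⟨!![1, 0, 0; 1, 1, 0; 0, 0, 1], by rw [Matrix.det_fin_three]; simp⟩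
def E2 : SL3 := ⟨!![1, 0, 0; 0, 1, 0; 1, 0, 1], by rw [Matrix.det_fin_three]; simp⟩

theorem core (K : Subgroup SL3) (hn : K.Normal) (hK : K ≤ H)
    (hφ : ∀ k (hk : k ∈ K), phi ⟨k, hK hk⟩ ∈ K) : K = ⊥ := by
  have hpow : ∀ n : ℕ, ∀ k ∈ K, (2 : ℤ) ^ n ∣ k 1 0 ∧ (2 : ℤ) ^ n ∣ k 2 0 := by
    intro n
    induction n with
    | zero => intro k _; simp
    | succ n ih =>
      intro k hk
      obtain ⟨h1, h2⟩ := ih _ (hφ k hk)
      obtain ⟨⟨a, ha⟩, ⟨b, hb⟩⟩ := hK hk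
      rw [phi_10] at h1
      rw [phi_20] at h2
      change (2 : ℤ) ^ n ∣ k 1 0 / 2 at h1
      change (2 : ℤ) ^ n ∣ k 2 0 / 2 at h2
      rw [ha, Int.mul_ediv_cancel_left _ (by norm_num)] at h1
      rw [hb, Int.mul_ediv_cancel_left _ (by norm_num)] at h2
      rw [ha, hb, pow_succ, mul_comm ((2 : ℤ) ^ n)]
      exact ⟨mul_dvd_mul_left _ h1, mul_dvd_mul_left _ h2⟩
  have hz : ∀ m : ℤ, (∀ n : ℕ, (2 : ℤ) ^ n ∣ m) → m = 0 := by
    intro m hm
    by_contra h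
    have h1 := Int.natAbs_dvd_natAbs.2 (hm m.natAbs)
    rw [Int.natAbs_pow] at h1
    have h2 := Nat.le_of_dvd (Int.natAbs_pos.2 h) h1
    have h3 : m.natAbs < 2 ^ m.natAbs := Nat.lt_two_pow_self
    simp at h2
    omega
  have hzero : ∀ k ∈ K, k 1 0 = 0 ∧ k 2 0 = 0 := fun k hk =>
    ⟨hz _ fun n => (hpow n k hk).1, hz _ fun n => (hpow n k hk).2⟩
  -- every vector which is the first column of a matrix in the group is an eigenvector
  have heig : ∀ k ∈ K, ∀ g : SL3, ∃ l : ℤ, ∀ i,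
      ((k : Matrix (Fin 3) (Fin 3) ℤ) * (g : Matrix (Fin 3) (Fin 3) ℤ)) i 0 = l * g i 0 := by
    intro k hk g
    have hm : g⁻¹ * k * g ∈ K := by
      have := hn.conj_mem k hk g⁻¹
      rwa [inv_inv] at this
    obtain ⟨z1, z2⟩ := hzero _ hm
    refine ⟨(g⁻¹ * k * g : SL3) 0 0, fun i => ?_⟩
    have e : (k * g : SL3) = g * (g⁻¹ * k * g) := by group
    have e2 := congrArg (fun z : SL3 => z i 0) e
    change (k * g) i 0 = (g * (g⁻¹ * k * g)) i 0 at e2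
    rw [mul_entry g, z1, z2] at e2
    rw [← Matrix.SpecialLinearGroup.coe_mul k g, e2]
    ring
  rw [eq_bot_iff]
  intro k hk
  rw [Subgroup.mem_bot]
  have c0 := hzero k hk
  obtain ⟨l1, h1⟩ := heig k hk P
  obtain ⟨l2, h2⟩ := heig k hk Q
  obtain ⟨l3, h3⟩ := heig k hk E1
  obtain ⟨l4, h4⟩ := heig k hk E2
  have h10 := h1 0
  have h11 := h1 1
  have h12 := h1 2
  have h20 := h2 0
  have h21 := h2 1
  have h22 := h2 2
  have h30 := h3 0
  have h31 := h3 1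
  have h40 := h4 0
  have h42 := h4 2
  simp [P, Matrix.mul_apply, Fin.sum_univ_three] at h10 h11 h12
  simp [Q, Matrix.mul_apply, Fin.sum_univ_three] at h20 h21 h22
  simp [E1, Matrix.mul_apply, Fin.sum_univ_three] at h30 h31
  simp [E2, Matrix.mul_apply, Fin.sum_univ_three] at h40 h42
  obtain ⟨c1, c2⟩ := c0
  have hd := k.det_coe
  rw [Matrix.det_fin_three] at hd
  have a1 : k 1 1 = k 0 0 := by linarith
  have a2 : k 2 2 = k 0 0 := by linarith
  rw [h10, h12, h20, h21, c1, c2, a1, a2] at hd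
  have a3 : k 0 0 = 1 := by
    have h5 : (k 0 0) ^ 3 = 1 := by linarith [hd, show (k 0 0) ^ 3 = k 0 0 * k 0 0 * k 0 0 by ring]
    have h6 : (k 0 0 - 1) * ((k 0 0) ^ 2 + k 0 0 + 1) = 0 := by linear_combination h5
    rcases mul_eq_zero.1 h6 with h7 | h7
    · linarith
    · nlinarith [sq_nonneg (2 * k 0 0 + 1)]
  apply Matrix.SpecialLinearGroup.ext
  intro i j
  fin_cases i <;> fin_cases j <;> simp [h10, h12, h20, h21, c1, c2, a1, a2, a3]

theorem result :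
    ∃ (n : ℕ) (ρ : Matrix.SpecialLinearGroup (Fin 3) ℤ →* Equiv.Perm (List (Fin n))),
      2 ≤ n ∧ Function.Injective ρ ∧
      ∀ (g : Matrix.SpecialLinearGroup (Fin 3) ℤ) (x : Fin n),
        ∃ (h : Matrix.SpecialLinearGroup (Fin 3) ℤ) (y : Fin n),
          ∀ w : List (Fin n), ρ g (x :: w) = y :: ρ h w := by
  obtain ⟨ρ, h1, h2⟩ := Pool.Agent.W380.VirtEndo.exists_rho_fin phi core
  refine ⟨H.index, ρ, ?_, h1, h2⟩
  have h3 : H.index ≠ 0 := Subgroup.FiniteIndex.index_ne_zero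
  have h4 : H.index ≠ 1 := by
    intro h
    rw [Subgroup.index_eq_one] at h
    have : E1 ∈ H := by rw [h]; exact Subgroup.mem_top _
    have h5 := this.1
    simp [E1] at h5
  omega

end Pool.Agent.S02155
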