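import Pool.Statements.S02201
import Pool.Agent.W395.Magnus

set_option autoImplicit false
open Pool Pool.MP_8a7b18_al

namespace Pool.Agent.S02201

open Pool.Agent.W395

theorem cross {n : ℕ} (r : FreeGroup (Fin n)) (L : Language (Fin n × Bool)) (hL : L.IsRegular)
    (hinj : ∀ W ∈ L, ∀ W' ∈ L, (FreeGroup.mk W)⁻¹ * FreeGroup.mk W' ∈
      Subgroup.normalClosure ({r} : Set (FreeGroup (Fin n))) → W = W')
    (hsurj : ∀ W : List (Fin n × Bool), ∃ W' ∈ L, (FreeGroup.mk W')⁻¹ * FreeGroup.mk W ∈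
      Subgroup.normalClosure ({r} : Set (FreeGroup (Fin n)))) :
    ∃ (σ : Type) (_ : Fintype σ) (M : DFA (Fin n × Bool) σ),
        Function.Bijective
          (fun w : {w : List (Fin n × Bool) // w ∈ M.accepts} =>
            PresentedGroup.mk ({r} : Set (FreeGroup (Fin n))) (FreeGroup.mk w.1)) := by
  obtain ⟨σ, hσ, M, rfl⟩ := hL
  refine ⟨σ, hσ, M, ?_, ?_⟩
  · intro W W' h
    apply Subtype.ext
    exact hinj W.1 W.2 W'.1 W'.2 (QuotientGroup.eq.1 h)
  · intro g
    obtain ⟨x, rfl⟩ := PresentedGroup.mk_surjective _ g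
    obtain ⟨W, rfl⟩ := Quot.exists_rep x
    obtain ⟨W', h1, h2⟩ := hsurj W
    exact ⟨⟨W', h1⟩, QuotientGroup.eq.2 h2⟩

/-- For every finite n and every word r in the free group on n generators, some finite automaton accepts a set of words that maps bijectively onto the group ⟨x₁,…,xₙ ∣ r⟩. -/
theorem result :
    ∀ (n : ℕ) (r : FreeGroup (Fin n)),
      ∃ (σ : Type) (_ : Fintype σ) (M : DFA (Fin n × Bool) σ),
        Function.Bijective
          (fun w : {w : List (Fin n × Bool) // w ∈ M.accepts} =>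
            PresentedGroup.mk ({r} : Set (FreeGroup (Fin n))) (FreeGroup.mk w.1)) := by
  intro n r
  by_cases hr : r = 1
  · subst hr
    have hbot : Subgroup.normalClosure ({1} : Set (FreeGroup (Fin n))) = ⊥ := by
      rw [eq_bot_iff]
      apply Subgroup.normalClosure_le_normal
      intro x hx
      exact hx
    refine cross 1 ({W | W.IsChain fun a b => a.1 = b.1 → a.2 = b.2} : Language (Fin n × Bool))
      (isRegular_chain _) ?_ ?_
    · intro W hW W' hW' h
      rw [hbot, Subgroup.mem_bot] at h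
      exact eq_of_mk_eq hW hW' (inv_mul_eq_one.1 h)
    · intro W
      obtain ⟨W', h1, h2⟩ := exists_isReduced W
      refine ⟨W', h1, ?_⟩
      rw [mk_eq_of_red h2, inv_mul_cancel]
      exact Subgroup.one_mem _
  · obtain ⟨w, hwdef⟩ : ∃ w, w = FreeGroup.reduceCyclically r.toWord := ⟨_, rfl⟩
    have hcr : FreeGroup.IsCyclicallyReduced w := by
      rw [hwdef]
      exact FreeGroup.reduceCyclically.isCyclicallyReduced FreeGroup.isReduced_toWord
    have hconj : r = FreeGroup.mk (FreeGroup.reduceCyclically.conjugator r.toWord) *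
        FreeGroup.mk w * (FreeGroup.mk (FreeGroup.reduceCyclically.conjugator r.toWord))⁻¹ := by
      rw [FreeGroup.inv_mk, FreeGroup.mul_mk, FreeGroup.mul_mk, hwdef,
        FreeGroup.reduceCyclically.conj_conjugator_reduceCyclically, FreeGroup.mk_toWord]
    have hN : Subgroup.normalClosure ({r} : Set (FreeGroup (Fin n))) =
        Subgroup.normalClosure {FreeGroup.mk w} := by
      rw [hconj, nc_conj]
    have hne : w ≠ [] := by
      intro h
      apply hr
      rw [hconj, h, ← FreeGroup.one_eq_mk, mul_one, mul_inv_cancel]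
    obtain ⟨a, w1, hw1⟩ := List.exists_cons_of_ne_nil hne
    let Γ : Gr Unit (Fin n) := ⟨fun _ => (), fun _ => ()⟩
    have hpath : ∀ (W : Wd (Fin n)) (u v : Unit), Γ.Path u W v := by
      intro W
      induction W with
      | nil => intro u v; rfl
      | cons c W ih => intro u v; exact ⟨rfl, ih _ _⟩
    have hgood : Good Γ w a.1 := good_all (w.length - nl w + 1) Unit (Fin n) Γ w a.1
      (Nat.lt_succ_self _) hcr ⟨(), hpath _ _ _⟩ ⟨a.2, by rw [hw1]; exact List.mem_cons_self⟩
    obtain ⟨L, hL⟩ := hgood.trans ()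
    refine cross r ({W | ∃ _ : Unit, ∃ ℓ ∈ L, ∃ α ∈ ({α | FreeGroup.IsReduced α ∧
      Over (fun e => e ≠ a.1) α} : Language (Fin n × Bool)), W = ℓ ++ α} : Language (Fin n × Bool))
      (isRegular_cat (fun _ => hL.reg) fun _ => isRegular_and' (isRegular_chain _)
        (isRegular_all _)) ?_ ?_
    · rintro W ⟨_, ℓ, hℓ, α, ⟨hα1, hα2⟩, rfl⟩ W' ⟨_, ℓ', hℓ', α', ⟨hα1', hα2'⟩, rfl⟩ h
      rw [hN, ← q_eq_iff] at h
      have h1 : ℓ' = ℓ := by
        refine hL.inj ℓ hℓ ℓ' hℓ' (α ++ FreeGroup.invRev α') (hα2.append hα2'.invRev) ?_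
        rw [← List.append_assoc, q_append w (ℓ ++ α), h, q_inv, q_append, mul_inv_cancel_right]
      subst h1
      have h2 : q w α = q w α' := by
        rw [q_append, q_append] at h
        exact mul_left_cancel h
      rw [eq_of_mk_eq hα1 hα1' (hgood.free.eq hα2 hα2' h2)]
    · intro W
      obtain ⟨ℓ, hℓ, v', α, _, _, h3, h4⟩ := hL.surj W () (hpath _ _ _)
      obtain ⟨α', h5, h6⟩ := exists_isReduced α
      refine ⟨ℓ ++ α', ⟨(), ℓ, hℓ, α', ⟨h5, h3.red h6⟩, rfl⟩, ?_⟩
      rw [hN, ← q_eq_iff, h4, q_append, q_append, q_congr w (mk_eq_of_red h6)]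

end Pool.Agent.S02201
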