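import Pool.Statements.S02219
import Pool.Agent.Results.MP_8bc403_al.GenDepend

set_option autoImplicit false
open Pool Pool.MP_8bc403_al

namespace Pool.Agent.S02219

open Pool.Agent.Results.MP_8bc403_al.GenDepend in
/-- palindromic words of letters lie among the palindromes of `GenDepend` -/
lemma pal_move' (p : F2) (w : List F2)
    (hw : ∀ x ∈ w, x ∈ ({a, b} : Set F2) ∨ x⁻¹ ∈ ({a, b} : Set F2))
    (hr : w.reverse = w) (hp : w.prod = p) (x : ℝ) : |act p x - x| ≤ 1 := by
  classical
  -- choose letters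
  let f : F2 → (({a, b} : Set F2)) × Bool := fun y =>
    if h : y ∈ ({a, b} : Set F2) then (⟨y, h⟩, true)
    else if h : y⁻¹ ∈ ({a, b} : Set F2) then (⟨y⁻¹, h⟩, false)
    else (⟨a, Or.inl rfl⟩, true)
  have hf : ∀ y, (y ∈ ({a, b} : Set F2) ∨ y⁻¹ ∈ ({a, b} : Set F2)) →
      cond (f y).2 ((f y).1 : F2) ((f y).1 : F2)⁻¹ = y := by
    intro y hy
    by_cases h : y ∈ ({a, b} : Set F2)
    · simp only [f, dif_pos h, cond_true]
    · have h2 : y⁻¹ ∈ ({a, b} : Set F2) := hy.resolve_left h
      simp only [f, dif_neg h, dif_pos h2, cond_false, inv_inv]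
  have hval : wordValue ({a, b} : Set F2) (w.map f) = p := by
    rw [← hp, wordValue, List.map_map]
    congr 1
    conv_rhs => rw [← List.map_id w]
    refine List.map_congr_left ?_
    intro y hy
    exact hf y (hw y hy)
  have h := pal_sq (w.map f) (by rw [← List.map_reverse, hr])
  rw [hval] at h
  obtain ⟨h1, h2⟩ := move h x
  have e : act p x = (T0 * act p) x - 1 / 2 := by
    rw [← T0_inv_apply]
    change _ = (T0⁻¹ * (T0 * act p)) x
    rw [inv_mul_cancel_left]
  rw [e, abs_le]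
  constructor <;> linarith

open Pool.Agent.Results.MP_8bc403_al.GenDepend in
lemma list_move' (l : List F2) (hl : ∀ p ∈ l, ∃ w : List F2,
      (∀ x ∈ w, x ∈ ({a, b} : Set F2) ∨ x⁻¹ ∈ ({a, b} : Set F2)) ∧ w.reverse = w ∧ w.prod = p)
    (x : ℝ) : |act l.prod x - x| ≤ l.length := by
  induction l generalizing x with
  | nil => simp
  | cons p l ih =>
    have h1 := ih (fun p hp => hl p (List.mem_cons_of_mem _ hp)) x
    obtain ⟨w, hw1, hw2, hw3⟩ := hl p List.mem_cons_self
    have h2 := pal_move' p w hw1 hw2 hw3 (act l.prod x)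
    rw [List.prod_cons, map_mul, List.length_cons]
    change |act p (act l.prod x) - x| ≤ _
    push_cast
    calc |act p (act l.prod x) - x| = |(act p (act l.prod x) - act l.prod x) + (act l.prod x - x)| := by
          congr 1; ring
      _ ≤ _ := abs_add_le _ _
      _ ≤ _ := by linarith

open Pool.Agent.Results.MP_8bc403_al.GenDepend in
lemma pal_word {X : Set F2} {p : F2} (h : IsPalindrome X p) :
    ∃ w : List F2, (∀ x ∈ w, x ∈ X ∨ x⁻¹ ∈ X) ∧ w.reverse = w ∧ w.prod = p := by
  obtain ⟨w, -, hw, hp⟩ := h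
  refine ⟨w.map fun (q : X × Bool) => cond q.2 (q.1 : F2) (q.1 : F2)⁻¹, ?_, ?_, hp⟩
  · intro x hx
    obtain ⟨⟨y, e⟩, -, rfl⟩ := List.mem_map.1 hx
    cases e
    · right; simp
    · left; exact y.2
  · rw [← List.map_reverse, hw]

open Pool.Agent.Results.MP_8bc403_al.GenDepend in
/-- There is a group with finite generating sets X and Y such that every element is a product of boundedly many palindromes over X, but no such bound exists for palindromes over Y. -/
theorem aux :
    ∃ (G : Type) (_ : Group G) (X Y : Finset G),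
      Subgroup.closure (X : Set G) = ⊤ ∧ Subgroup.closure (Y : Set G) = ⊤ ∧
      (∃ N : ℕ, ∀ g : G, ∃ ps : List G, ps.length ≤ N ∧ ps.prod = g ∧
        ∀ p ∈ ps, ∃ w : List G, (∀ x ∈ w, x ∈ X ∨ x⁻¹ ∈ X) ∧ w.reverse = w ∧ w.prod = p) ∧
      ¬ (∃ N : ℕ, ∀ g : G, ∃ ps : List G, ps.length ≤ N ∧ ps.prod = g ∧
        ∀ p ∈ ps, ∃ w : List G, (∀ x ∈ w, x ∈ Y ∨ x⁻¹ ∈ Y) ∧ w.reverse = w ∧ w.prod = p) := by
  classical
  refine ⟨F2, inferInstance, {a, b, a * b}, {a, b}, ?_, ?_, ?_, ?_⟩
  · rw [← closure_abc]; simp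
  · rw [← closure_ab]; simp
  · refine ⟨3, ?_⟩
    intro g
    obtain ⟨i, j, h⟩ := exists_form g
    refine ⟨[a ^ i, b ^ j, (a ^ i * b ^ j)⁻¹ * g], by simp, by simp [mul_assoc], ?_⟩
    intro p hp
    have hX : (({a, b, a * b} : Finset F2) : Set F2) = ({a, b, a * b} : Set F2) := by simp
    have key : IsPalindrome ({a, b, a * b} : Set F2) p := by
      simp only [List.mem_cons, List.not_mem_nil, or_false] at hp
      rcases hp with rfl | rfl | rfl
      · exact isPalindrome_zpow (X := ({a, b, a * b} : Set F2)) (Or.inl rfl) i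
      · exact isPalindrome_zpow (X := ({a, b, a * b} : Set F2)) (Or.inr (Or.inl rfl)) j
      · exact mem_relSub h
    obtain ⟨w, hw, hr, hpw⟩ := pal_word key
    refine ⟨w, ?_, hr, hpw⟩
    intro x hx
    have := hw x hx
    rw [← hX] at this
    simpa only [Finset.mem_coe] using this
  · rintro ⟨N, hN⟩
    obtain ⟨ps, hlen, hprod, hps⟩ := hN (c ^ (N + 1))
    have hY : (({a, b} : Finset F2) : Set F2) = ({a, b} : Set F2) := by simp
    have h := list_move' ps (fun p hp => by
      obtain ⟨w, hw, hr, hpw⟩ := hps p hp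
      refine ⟨w, ?_, hr, hpw⟩
      intro x hx
      have := hw x hx
      rw [← hY]
      simpa only [Finset.mem_coe] using this) 0
    rw [hprod, act_c_pow, sub_zero, abs_neg, Nat.abs_cast] at h
    have h2 : N + 1 ≤ ps.length := by exact_mod_cast h
    omega

/-- There is a group with finite generating sets X and Y such that every element is a product of boundedly many palindromes over X, but no such bound exists for palindromes over Y. -/
theorem result :
    ∃ (G : Type) (_ : Group G) (X Y : Finset G),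
      Subgroup.closure (X : Set G) = ⊤ ∧ Subgroup.closure (Y : Set G) = ⊤ ∧
      (∃ N : ℕ, ∀ g : G, ∃ ps : List G, ps.length ≤ N ∧ ps.prod = g ∧
        ∀ p ∈ ps, ∃ w : List G, (∀ x ∈ w, x ∈ X ∨ x⁻¹ ∈ X) ∧ w.reverse = w ∧ w.prod = p) ∧
      ¬ (∃ N : ℕ, ∀ g : G, ∃ ps : List G, ps.length ≤ N ∧ ps.prod = g ∧
        ∀ p ∈ ps, ∃ w : List G, (∀ x ∈ w, x ∈ Y ∨ x⁻¹ ∈ Y) ∧ w.reverse = w ∧ w.prod = p) := by
  exact aux

end Pool.Agent.S02219
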