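import Pool.Statements.S02234
import Pool.Agent.W434.LoopUltra

set_option autoImplicit false
open FirstOrder FirstOrder.Language
open Pool Pool.MP_8ea9e7_al

namespace Pool.Agent.S02234

/-- The negation of the preceding statement: For every finite algebra A in a finite signature that is nilpotent (via term-condition central series) and generates a congruence permutable variety V, some finite first-order theory has as models exactly the subdirectly irreducible members of V. -/
theorem result :
    ¬ (∀ (L : FirstOrder.Language.{0,0}), Finite (Σ n, L.Functions n) →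
    (∀ n, IsEmpty (L.Relations n)) →
    ∀ (A : Type) [Finite A] [Nonempty A] [L.Structure A],
    (∀ (B : Type) [L.Structure B],
      (∀ (n : ℕ) (t s : L.Term (Fin n)),
        (∀ v : Fin n → A, t.realize v = s.realize v) →
        ∀ w : Fin n → B, t.realize w = s.realize w) →
      ∀ (α β : B → B → Prop), Equivalence α → Equivalence β →
        (∀ (n : ℕ) (f : L.Functions n) (x y : Fin n → B),
          (∀ i, α (x i) (y i)) → α (Structure.funMap f x) (Structure.funMap f y)) →
        (∀ (n : ℕ) (f : L.Functions n) (x y : Fin n → B),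
          (∀ i, β (x i) (y i)) → β (Structure.funMap f x) (Structure.funMap f y)) →
        ∀ x y : B, (∃ z, α x z ∧ β z y) ↔ (∃ z, β x z ∧ α z y)) →
    (∃ (k : ℕ) (θ : ℕ → A → A → Prop),
      (∀ x y, θ 0 x y) ∧ (∀ x y, θ k x y ↔ x = y) ∧ (∀ i, Equivalence (θ i)) ∧
      (∀ (i n : ℕ) (f : L.Functions n) (x y : Fin n → A),
        (∀ j, θ i (x j) (y j)) → θ i (Structure.funMap f x) (Structure.funMap f y)) ∧
      (∀ i, i < k → ∀ (m n : ℕ) (t : L.Term (Fin m ⊕ Fin n)) (a b : Fin m → A)
        (c d : Fin n → A), (∀ j, θ i (c j) (d j)) →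
        θ (i + 1) (t.realize (Sum.elim a c)) (t.realize (Sum.elim a d)) →
        θ (i + 1) (t.realize (Sum.elim b c)) (t.realize (Sum.elim b d)))) →
    ∃ T : L.Theory, Set.Finite T ∧
      ∀ (B : Type) [L.Structure B],
        (FirstOrder.Language.Theory.Model B T ↔
          ((∀ (n : ℕ) (t s : L.Term (Fin n)),
              (∀ v : Fin n → A, t.realize v = s.realize v) →
              ∀ w : Fin n → B, t.realize w = s.realize w) ∧
            Nontrivial B ∧
            ∃ μ : B → B → Prop, Equivalence μ ∧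
              (∀ (n : ℕ) (f : L.Functions n) (x y : Fin n → B),
                (∀ i, μ (x i) (y i)) → μ (Structure.funMap f x) (Structure.funMap f y)) ∧
              (∃ x y : B, μ x y ∧ x ≠ y) ∧
              ∀ θ : B → B → Prop, Equivalence θ →
                (∀ (n : ℕ) (f : L.Functions n) (x y : Fin n → B),
                  (∀ i, θ (x i) (y i)) → θ (Structure.funMap f x) (Structure.funMap f y)) →
                (∃ x y : B, θ x y ∧ x ≠ y) → ∀ x y : B, μ x y → θ x y))) := by
  intro hall
  letI : Pool.Agent.H659Loop.Lg.Structure Pool.Agent.H659Loop.Q := Pool.Agent.H659Loop.opQ.str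
  obtain ⟨T, hT, hmod⟩ := hall Pool.Agent.H659Loop.Lg
    Pool.Agent.W434.LoopSI.fin_fun (fun _ => ⟨fun r => Empty.elim r⟩) Pool.Agent.H659Loop.Q
    (by
      intro B _ hB α β eα eβ hα hβ x y
      exact ⟨Pool.Agent.W434.LoopSI.perm hB α β eα eβ hα hβ x y,
        Pool.Agent.W434.LoopSI.perm hB β α eβ eα hβ hα x y⟩)
    ⟨3, Pool.Agent.W434.LoopSI.θ, fun _ _ => trivial, fun _ _ => Iff.rfl,
      Pool.Agent.W434.LoopSI.θ_equiv,
      Pool.Agent.W434.LoopSI.θ_fun,
      fun i hi m n t a b c d hcd h => Pool.Agent.W434.LoopSI.θ_tc i hi m n t a b c d hcd h⟩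
  have h1 := (hmod Pool.Agent.W434.LoopSI.BI).mpr ⟨Pool.Agent.W434.LoopSI.BI_ids,
    ⟨⟨Pool.Agent.W434.LoopSI.zI, Pool.Agent.W434.LoopSI.eI, Pool.Agent.W434.LoopSI.zI_ne⟩⟩,
    Pool.Agent.W434.LoopSI.BI_monolith⟩
  exact Pool.Agent.W434.LoopSI.no_T T hT h1 (fun a ha => ((@hmod
    (Pool.Agent.H659Loop.M (a + 1)) (Pool.Agent.W434.LoopSI.strM a)).mp ha).1)

end Pool.Agent.S02234
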