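import Pool.Statements.S02248
import Pool.Agent.W382.ScaleMain

set_option autoImplicit false
open Pool Pool.MP_8f716c_al

namespace Pool.Agent.S02248

/-- The negation of the preceding statement: Every finitely generated group with an injective self-homomorphism whose image has finite index and whose iterated images intersect in a finite set is virtually nilpotent (equivalently, has polynomial growth). -/
theorem result :
    ¬ (∀ (Γ : Type) [Group Γ] [Group.FG Γ],
      (∃ φ : Γ →* Γ, Function.Injective φ ∧ φ.range.FiniteIndex ∧
          (⋂ k : ℕ, Set.range ((⇑φ)^[k + 1])).Finite) →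
        ∃ H : Subgroup Γ, H.FiniteIndex ∧ Group.IsNilpotent ↥H) := by
  intro h
  obtain ⟨Γ, _, hfg, ⟨φ, hinj, hfi, hint⟩, hno⟩ := Pool.Agent.W382.counterexample
  obtain ⟨H, hH, hn⟩ := h Γ ⟨φ, hinj, hfi, by rw [hint]; exact Set.finite_singleton 1⟩
  exact hno H hH hn

end Pool.Agent.S02248
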