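import Pool.Statements.S02286

set_option autoImplicit false
open Pool Pool.MP_91b10e_al

namespace Pool.Agent.S02286

open TopologicalSpace

/-- the Zariski topology -/
abbrev zar (G : Type) [Group G] : TopologicalSpace G :=
  TopologicalSpace.generateFrom
    {U : Set G | ∃ w : Monoid.Coprod G (Multiplicative ℤ),
      U = {x : G | Monoid.Coprod.lift (MonoidHom.id G) (zpowersHom G x) w ≠ 1}}

/-- one-variable words with constants are continuous for a group topology -/
theorem continuous_word {G : Type} [Group G] [TopologicalSpace G] [IsTopologicalGroup G]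
    (w : Monoid.Coprod G (Multiplicative ℤ)) :
    Continuous fun x : G => Monoid.Coprod.lift (MonoidHom.id G) (zpowersHom G x) w := by
  induction w using Monoid.Coprod.induction_on with
  | inl g => simpa using continuous_const
  | inr n =>
    simp only [Monoid.Coprod.lift_apply_inr, zpowersHom_apply]
    exact continuous_zpow _
  | mul a b ha hb =>
    simp only [map_mul]
    exact ha.mul hb

/-- a compact Hausdorff group topology makes the Zariski topology compact -/
theorem zar_compact {G : Type} [Group G] [TopologicalSpace G] [IsTopologicalGroup G]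
    [CompactSpace G] [T1Space G] : @IsCompact G (zar G) Set.univ := by
  have hle : (inferInstance : TopologicalSpace G) ≤ zar G := by
    apply le_generateFrom
    rintro U ⟨w, rfl⟩
    exact (continuous_word w).isOpen_preimage {1}ᶜ isOpen_compl_singleton
  have hc : @Continuous G G _ (zar G) id := continuous_id_iff_le.2 hle
  have := @IsCompact.image G G _ (zar G) Set.univ id isCompact_univ hc
  simpa using this

theorem comm_open {G : Type} [Group G] (g : G) :
    @IsOpen G (zar G) {x : G | x * g ≠ g * x} := by
  apply isOpen_generateFrom_of_mem
  refine ⟨Monoid.Coprod.inr (Multiplicative.ofAdd 1) * Monoid.Coprod.inl g *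
    (Monoid.Coprod.inr (Multiplicative.ofAdd 1))⁻¹ * Monoid.Coprod.inl g⁻¹, ?_⟩
  ext x
  simp only [Set.mem_setOf_eq, map_mul, map_inv, Monoid.Coprod.lift_apply_inr,
    Monoid.Coprod.lift_apply_inl, zpowersHom_apply, toAdd_ofAdd, zpow_one, MonoidHom.id_apply]
  rw [not_iff_not]
  constructor
  · intro h
    rw [h]; group
  · intro h
    have h2 : x * g * x⁻¹ = g := by
      rw [← inv_inv g, ← mul_inv_eq_one]
      simpa using h
    rw [mul_inv_eq_iff_eq_mul] at h2
    exact h2

abbrev P3 : Type := Equiv.Perm (Fin 3)
abbrev GG : Type := ℕ → P3

/-- the element which is a transposition in the first `n` coordinates -/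
def gn (n : ℕ) : GG := fun i => if i < n then Equiv.swap 0 1 else 1

theorem swap_not_comm : (Equiv.swap (1 : Fin 3) 2) * Equiv.swap 0 1 ≠
    Equiv.swap 0 1 * Equiv.swap (1 : Fin 3) 2 := by decide

theorem not_noeth : ¬ @NoetherianSpace GG (zar GG) := by
  intro h
  letI : TopologicalSpace GG := zar GG
  haveI : NoetherianSpace GG := h
  set U : ℕ → Set GG := fun n => {x : GG | x * gn n ≠ gn n * x} with hU
  have hopen : ∀ n, IsOpen (U n) := fun n => comm_open (gn n)
  have hcomp : IsCompact (⋃ n, U n) := NoetherianSpace.isCompact _
  have hmono : Monotone U := by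
    intro m n hmn x hx hx2
    apply hx
    funext i
    have := congrFun hx2 i
    simp only [Pi.mul_apply, gn] at this ⊢
    by_cases hi : i < m
    · rw [if_pos (lt_of_lt_of_le hi hmn)] at this
      rwa [if_pos hi]
    · rw [if_neg hi]; simp
  obtain ⟨N, hN⟩ := hcomp.elim_directed_cover U hopen (subset_refl _) (hmono.directed_le)
  -- the element which is a noncommuting transposition in coordinate N only
  let y : GG := Function.update 1 N (Equiv.swap 1 2)
  have hy : y ∈ U (N + 1) := by
    intro h1
    have := congrFun h1 N
    simp only [Pi.mul_apply, gn, y, Function.update_self, if_pos (Nat.lt_succ_self N)] at this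
    exact swap_not_comm this
  have hy2 : y ∈ U N := hN (Set.mem_iUnion.2 ⟨_, hy⟩)
  apply hy2
  funext i
  simp only [Pi.mul_apply, gn, y]
  by_cases hi : i < N
  · rw [Function.update_of_ne (Nat.ne_of_lt hi)]
    simp
  · rw [if_neg hi]; simp

/-- The negation of the preceding statement: For every group G, if the Zariski topology (closed subbasis: solution sets of one-variable equations with constants from G) is compact, then it is Noetherian. -/
theorem result :
    ¬ (∀ (G : Type) [Group G],
      @IsCompact G
        (TopologicalSpace.generateFrom
          {U : Set G | ∃ w : Monoid.Coprod G (Multiplicative ℤ),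
            U = {x : G | Monoid.Coprod.lift (MonoidHom.id G) (zpowersHom G x) w ≠ 1}})
        Set.univ →
      @TopologicalSpace.NoetherianSpace G
        (TopologicalSpace.generateFrom
          {U : Set G | ∃ w : Monoid.Coprod G (Multiplicative ℤ),
            U = {x : G | Monoid.Coprod.lift (MonoidHom.id G) (zpowersHom G x) w ≠ 1}})) := by
  intro h
  letI : TopologicalSpace P3 := ⊥
  haveI : DiscreteTopology P3 := ⟨rfl⟩
  exact not_noeth (h GG (zar_compact (G := GG)))

end Pool.Agent.S02286
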