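import Pool.Statements.S02293
import Pool.Agent.W457.SgEggert2

set_option autoImplicit false
open Pool Pool.MP_923967_al

namespace Pool.Agent.S02293

/-- For every finite nilpotent commutative semigroup S with absorbing zero and every n ≥ 1, n times the number of nonzero n-th powers in S is at most the number of nonzero elements of S. -/
theorem result :
    ∀ (S : Type) [SemigroupWithZero S] [Finite S],
      (∀ a b : S, a * b = b * a) →
      (∃ k : ℕ, ∀ l : List S, l.length = k →
        (l.map (fun s => (s : WithOne S))).prod = ((0 : S) : WithOne S)) →
      ∀ n : ℕ, 0 < n →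
        n * {y : S | y ≠ 0 ∧ ∃ x : S, (x : WithOne S) ^ n = (y : WithOne S)}.ncard
          ≤ {y : S | y ≠ 0}.ncard := by
  intro S _ _ hc ⟨k, hk⟩ n hn
  letI : CommSemigroup S := { (inferInstance : Semigroup S) with mul_comm := hc }
  have hk' : ∀ l : List S, l.length = k →
      (l.map (WithOne.coe : S → WithOne S)).prod = WithOne.coe (0 : S) := by
    intro l hl
    have h := hk l hl
    rw [List.map_eq_flatMap]
    simpa using h
  exact Pool.Agent.W457.SgEggert.general n hn S (0 : S) (fun x => zero_mul x) k hk'

end Pool.Agent.S02293
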