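import Pool.Statements.S02436
import Pool.Agent.Helper158.Stall.Grp

set_option autoImplicit false
open Pool Pool.MP_9999b4_al

namespace Pool.Agent.S02436

namespace Aux

open Helper158.Stall

/-- the element of `S` of a data item -/
def it (o : Option (Fin 2 × Bool) × Bool) : S := ⟨FreeGroup.mk (item o), item_mem o⟩

/-- the element `u⁻¹` of `S` -/
def au : S := ⟨FreeGroup.mk (emb aw), emb_mem aw⟩

/-- the free product of `S` and the free group on one letter -/
abbrev K : Type := Monoid.Coprod S (FreeGroup (Fin 1))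

/-- the equation `t t b t⁻¹ c w⁻¹ = 1` over `S` -/
noncomputable def eqn : Fin 1 → K := fun _ =>
  Monoid.Coprod.inr (FreeGroup.of 0) * Monoid.Coprod.inr (FreeGroup.of 0) *
    Monoid.Coprod.inl (⟨FreeGroup.of 0, b_mem⟩ : S) * (Monoid.Coprod.inr (FreeGroup.of 0))⁻¹ *
    Monoid.Coprod.inl (⟨FreeGroup.of 1, c_mem⟩ : S) *
    (Monoid.Coprod.inl (⟨FreeGroup.mk W, w_mem⟩ : S))⁻¹

/-- the quotient group -/
abbrev H : Type := K ⧸ Subgroup.normalClosure (Set.range eqn)

noncomputable abbrev q : K →* H := QuotientGroup.mk' (Subgroup.normalClosure (Set.range eqn))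

/-- the map `F(b, c, t) → H` -/
noncomputable def θ : FreeGroup (Fin 3) →* H :=
  FreeGroup.lift ![q (Monoid.Coprod.inl (⟨FreeGroup.of 0, b_mem⟩ : S)),
    q (Monoid.Coprod.inl (⟨FreeGroup.of 1, c_mem⟩ : S)),
    q (Monoid.Coprod.inr (FreeGroup.of 0))]

theorem θ_b : θ (FreeGroup.of 0) = q (Monoid.Coprod.inl (⟨FreeGroup.of 0, b_mem⟩ : S)) := by
  simp [θ]

theorem θ_c : θ (FreeGroup.of 1) = q (Monoid.Coprod.inl (⟨FreeGroup.of 1, c_mem⟩ : S)) := by
  simp [θ]

theorem θ_t : θ (FreeGroup.of 2) = q (Monoid.Coprod.inr (FreeGroup.of 0)) := by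
  simp [θ]

theorem rel_eq : q (eqn 0) = 1 :=
  (QuotientGroup.eq_one_iff _).2 (Subgroup.subset_normalClosure ⟨0, rfl⟩)

theorem θ_W : θ (FreeGroup.mk W) = q (Monoid.Coprod.inl (⟨FreeGroup.mk W, w_mem⟩ : S)) := by
  have e : θ (FreeGroup.mk W) = θ (FreeGroup.of 2 * FreeGroup.of 2 * FreeGroup.of 0 *
      (FreeGroup.of 2)⁻¹ * FreeGroup.of 1) := congrArg θ W_eq
  rw [e, map_mul, map_mul, map_mul, map_mul, map_inv, θ_b, θ_c, θ_t]
  have h : q (Monoid.Coprod.inr (FreeGroup.of 0) * Monoid.Coprod.inr (FreeGroup.of 0) *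
    Monoid.Coprod.inl (⟨FreeGroup.of 0, b_mem⟩ : S) * (Monoid.Coprod.inr (FreeGroup.of 0))⁻¹ *
    Monoid.Coprod.inl (⟨FreeGroup.of 1, c_mem⟩ : S) *
    (Monoid.Coprod.inl (⟨FreeGroup.mk W, w_mem⟩ : S))⁻¹) = 1 := rel_eq
  rw [map_mul, map_inv, mul_inv_eq_one] at h
  rw [← h]
  simp only [map_mul, map_inv]

/-- on `S` the map is the canonical one -/
theorem θ_S (s : S) : θ (s : FreeGroup (Fin 3)) = q (Monoid.Coprod.inl s) := by
  obtain ⟨s, hs⟩ := s
  refine Subgroup.closure_induction (p := fun s hs => θ s =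
    q (Monoid.Coprod.inl (⟨s, hs⟩ : S))) ?_ ?_ ?_ ?_ hs
  · intro x hx
    simp only [Set.mem_insert_iff, Set.mem_singleton_iff] at hx
    rcases hx with rfl | rfl | rfl
    · exact θ_b
    · exact θ_c
    · exact θ_W
  · rw [map_one]
    have : (⟨1, S.one_mem⟩ : S) = 1 := rfl
    rw [this, map_one, map_one]
  · intro x y hx hy h1 h2
    have : (⟨x * y, S.mul_mem hx hy⟩ : S) = ⟨x, hx⟩ * ⟨y, hy⟩ := rfl
    rw [map_mul, h1, h2, this, map_mul, map_mul]
  · intro x hx h1
    have : (⟨x⁻¹, S.inv_mem hx⟩ : S) = (⟨x, hx⟩ : S)⁻¹ := rfl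
    rw [map_inv, h1, this, map_inv, map_inv]

theorem θ_item (o : Option (Fin 2 × Bool) × Bool) :
    q (Monoid.Coprod.inl (it o)) = θ (FreeGroup.mk (item o)) := (θ_S (it o)).symm

theorem prod_eq (D : List ((Option (Fin 2 × Bool) × Bool) × List (Fin 3 × Bool))) :
    (D.map (fun p => θ (FreeGroup.mk p.2) * q (Monoid.Coprod.inl (it p.1)) *
      (θ (FreeGroup.mk p.2))⁻¹)).prod =
    θ ((D.map (fun p => FreeGroup.mk p.2 * FreeGroup.mk (item p.1) *
      (FreeGroup.mk p.2)⁻¹)).prod) := by
  induction D with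
  | nil => simp
  | cons p D ih =>
    rw [List.map_cons, List.prod_cons, List.map_cons, List.prod_cons, ih, map_mul, map_mul,
      map_mul, map_inv, θ_item]

theorem prod_data :
    (data.map (fun p => θ (FreeGroup.mk p.2) * q (Monoid.Coprod.inl (it p.1)) *
      (θ (FreeGroup.mk p.2))⁻¹)).prod = q (Monoid.Coprod.inl au) := by
  rw [prod_eq data]
  exact (congrArg θ identity).symm.trans (θ_S au)

end Aux

/-- The negation of the preceding statement: For every group G and every nonsingular system of n words in G free-product F_n, with H the quotient by their normal closure: if a product of conjugates in H of the images of g_1..g_r equals 1, then some product of G-conjugates of g_1..g_r equals 1. -/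
theorem result :
    ¬ (∀ (G : Type) [Group G] (n : ℕ), 1 ≤ n →
    ∀ (w : Fin n → Monoid.Coprod G (FreeGroup (Fin n))),
      (Matrix.of (fun i j : Fin n => Multiplicative.toAdd
        (Monoid.Coprod.lift (1 : G →* Multiplicative ℤ)
          (FreeGroup.lift (fun k : Fin n =>
            if k = i then Multiplicative.ofAdd (1 : ℤ) else 1)) (w j)))).det ≠ 0 →
      ∀ (r : ℕ), 1 ≤ r → ∀ g : Fin r → G,
        (∃ h : Fin r → (Monoid.Coprod G (FreeGroup (Fin n)) ⧸
              Subgroup.normalClosure (Set.range w)),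
          (List.ofFn (fun i => h i *
              QuotientGroup.mk' (Subgroup.normalClosure (Set.range w))
                (Monoid.Coprod.inl (g i)) * (h i)⁻¹)).prod = 1) →
        ∃ x : Fin r → G, (List.ofFn (fun i => x i * g i * (x i)⁻¹)).prod = 1) := by
  intro HH
  have hofn : ∀ {β : Type} (f : ((Option (Fin 2 × Bool) × Bool) × List (Fin 3 × Bool)) → β),
      List.ofFn (fun i : Fin Helper158.Stall.data.length => f (Helper158.Stall.data.get i)) =
        Helper158.Stall.data.map f := by
    intro β f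
    conv_rhs => rw [← List.ofFn_get Helper158.Stall.data]
    rw [List.map_ofFn]
    rfl
  obtain ⟨x, hx⟩ := HH Helper158.Stall.S 1 le_rfl Aux.eqn
    (by
      rw [Matrix.det_fin_one]
      simp [Aux.eqn])
    (Helper158.Stall.data.length + 1) (Nat.le_add_left _ _)
    (Fin.cons (Aux.au⁻¹) (fun i => Aux.it (Helper158.Stall.data.get i).1))
    ⟨Fin.cons 1 (fun i => Aux.θ (FreeGroup.mk (Helper158.Stall.data.get i).2)), by
      rw [List.ofFn_succ, List.prod_cons]
      simp only [Fin.cons_zero, Fin.cons_succ]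
      have e1 : (List.ofFn (fun i : Fin Helper158.Stall.data.length =>
          Aux.θ (FreeGroup.mk (Helper158.Stall.data.get i).2) *
            Aux.q (Monoid.Coprod.inl (Aux.it (Helper158.Stall.data.get i).1)) *
            (Aux.θ (FreeGroup.mk (Helper158.Stall.data.get i).2))⁻¹)).prod =
          Aux.q (Monoid.Coprod.inl Aux.au) := by
        rw [hofn (fun p => Aux.θ (FreeGroup.mk p.2) *
            Aux.q (Monoid.Coprod.inl (Aux.it p.1)) * (Aux.θ (FreeGroup.mk p.2))⁻¹)]
        exact Aux.prod_data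
      refine Eq.trans (congrArg _ e1) ?_
      rw [one_mul, inv_one, mul_one, map_inv, map_inv, inv_mul_cancel]⟩
  rw [List.ofFn_succ, List.prod_cons] at hx
  simp only [Fin.cons_zero, Fin.cons_succ] at hx
  refine Helper158.Stall.no_conj
    (List.ofFn (fun i => (((x 0)⁻¹ * x i.succ : Helper158.Stall.S), (Helper158.Stall.data.get i).1)))
    ?_ ?_ ?_
  · intro p hp
    obtain ⟨i, rfl⟩ := (List.mem_ofFn' _ _).1 hp
    exact ((x 0)⁻¹ * x i.succ).2
  · rw [List.map_ofFn]
    exact hofn Prod.fst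
  · have h1 : Aux.au = (List.ofFn (fun i : Fin Helper158.Stall.data.length =>
        ((x 0)⁻¹ * x i.succ) * Aux.it (Helper158.Stall.data.get i).1 *
          ((x 0)⁻¹ * x i.succ)⁻¹)).prod := by
      have h2 : (List.ofFn (fun i : Fin Helper158.Stall.data.length =>
          ((x 0)⁻¹ * x i.succ) * Aux.it (Helper158.Stall.data.get i).1 *
          ((x 0)⁻¹ * x i.succ)⁻¹)) =
          (List.ofFn (fun i : Fin Helper158.Stall.data.length =>
          x i.succ * Aux.it (Helper158.Stall.data.get i).1 *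
          (x i.succ)⁻¹)).map (MulAut.conj (x 0)⁻¹) := by
        rw [List.map_ofFn]
        congr 1
        funext i
        simp only [Function.comp_apply, MulAut.conj_apply, inv_inv, mul_inv_rev]
        simp only [mul_assoc]
      rw [h2, ← map_list_prod]
      have h3 := eq_inv_of_mul_eq_one_right hx
      rw [h3]
      simp only [MulAut.conj_apply, mul_inv_rev, inv_inv]
      simp [mul_assoc]
    have h4 := congrArg (Subtype.val : Helper158.Stall.S → FreeGroup (Fin 3)) h1
    have h5 : (FreeGroup.mk (Helper158.Stall.emb Helper158.Stall.aw) : FreeGroup (Fin 3)) =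
        Helper158.Stall.S.subtype (List.ofFn (fun i : Fin Helper158.Stall.data.length =>
        ((x 0)⁻¹ * x i.succ) * Aux.it (Helper158.Stall.data.get i).1 *
          ((x 0)⁻¹ * x i.succ)⁻¹)).prod := h4
    rw [h5, map_list_prod, List.map_ofFn, List.map_ofFn]
    rfl

end Pool.Agent.S02436
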