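import Pool.Statements.S02490
import Pool.Agent.W172.Thin.Anti
import Pool.Agent.W172.Thin.Iso
import Pool.Agent.W172.Thin.Ring

set_option autoImplicit false
open Pool Pool.MP_9e7887_al

namespace Pool.Agent.S02490

open Pool.Agent.W172.Thin

instance fact3 : Fact (Nat.Prime 3) := ⟨Nat.prime_three⟩

/-- the pro-3 Iwahori subgroup of `SL_2` over `ℤ_3[3^(1/(2m+1))]` -/
noncomputable def grp (m : ℕ) : ProfiniteGrp.{0} := ProfiniteGrp.of (dat 3 (2 * m)).Γ

theorem grp_ne {m m' : ℕ} (h : m < m') (φ : grp m ≃ₜ* grp m') : False := by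
  refine Dat.not_iso (p := 3) (D := dat 3 (2 * m)) (D' := dat 3 (2 * m')) (by decide)
    (e := 2 * m + 1) (e' := 2 * m' + 1) ?_ ?_ (by omega) φ
  · exact ww_pow 3 (2 * m)
  · exact ww_pow 3 (2 * m')

/-- The negation of the preceding statement: For every prime p there are finitely many profinite groups such that every infinite pro-p group whose antichains of closed normal subgroups have at most p+1 elements is topologically isomorphic to one of them. -/
theorem result :
    ¬ (∀ p : ℕ, p.Prime → ∃ n : ℕ, ∃ F : Fin n → ProfiniteGrp.{0},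
      ∀ G : ProfiniteGrp.{0}, Infinite G →
        (∀ N : Subgroup G, IsOpen (N : Set G) → N.Normal → ∃ k : ℕ, N.index = p ^ k) →
        (∀ S : Set (Subgroup G), (∀ H ∈ S, IsClosed (H : Set G) ∧ H.Normal) →
            IsAntichain (· ≤ ·) S → S.encard ≤ ((p + 1 : ℕ) : ℕ∞)) →
        ∃ i : Fin n, Nonempty (G ≃ₜ* F i)) := by
  intro h
  obtain ⟨n, F, hF⟩ := h 3 Nat.prime_three
  have key : ∀ m : Fin (n + 1), ∃ i : Fin n, Nonempty (grp m.1 ≃ₜ* F i) := by
    intro m
    refine hF (grp m.1) ?_ ?_ ?_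
    · exact inferInstanceAs (Infinite (dat 3 (2 * m.1)).Γ)
    · intro N hN hn
      exact Dat.pro_p (D := dat 3 (2 * m.1)) N hN hn
    · intro S hS hA
      exact Dat.antichain (D := dat 3 (2 * m.1)) (by decide) S hS hA
  choose i hi using key
  obtain ⟨a, b, hab, hiab⟩ := Fintype.exists_ne_map_eq_of_card_lt i (by simp)
  obtain ⟨φ⟩ := hi a
  obtain ⟨ψ⟩ := hi b
  rw [← hiab] at ψ
  rcases lt_or_gt_of_ne hab with hlt | hlt
  · exact grp_ne hlt (φ.trans ψ.symm)
  · exact grp_ne hlt (ψ.trans φ.symm)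

end Pool.Agent.S02490
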