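import Pool.Statements.S02505
import Pool.Agent.W326.DU.Fin
import Pool.Agent.W326.DU.Sub
import Pool.Agent.W326.DU.Aug
import Pool.Agent.W304.DU.EX
import Pool.Agent.W304.DU.P3
import Pool.Agent.W304.DU.RG
import Pool.Agent.W287.DU.NFP
import Pool.Agent.W287.DU.COHB
import Pool.Agent.W287.DU.NF2
import Pool.Agent.W683.DU.CohA
import Pool.Agent.W683.DU.FA
import Pool.Agent.W571.DU.NF1
import Pool.Agent.W571.DU.BC
import Pool.Agent.W335.DU.HN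
import Pool.Agent.W335.DU.TNU
import Pool.Agent.W362.DU.FB
import Pool.Agent.W363.DU.RESA
import Pool.Agent.W85.DU.Lft
import Pool.Agent.W880.DU.DD
import Pool.Agent.W490.DU.Grp
import Pool.Agent.W509.DU.FC
import Pool.Agent.W509.DU.FD

set_option autoImplicit false
open Pool Pool.MP_9fa67c_al

namespace Pool.Agent.S02505

/-- There is a group G with a finite resolution of trivial ℤ by finitely generated projective ℤG-modules such that H^i(G,ℤG) vanishes except in one positive degree n, where it is torsion-free but not a free abelian group. -/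
theorem result :
    ∃ (G : Type) (_ : Group G) (m : ℕ)
      (P : ℕ → ModuleCat.{0} (MonoidAlgebra ℤ G))
      (d : ∀ i : ℕ, P (i + 1) →ₗ[MonoidAlgebra ℤ G] P i)
      (ε : P 0 →+ ℤ),
      (∀ i : ℕ, Module.Finite (MonoidAlgebra ℤ G) (P i) ∧
          Module.Projective (MonoidAlgebra ℤ G) (P i)) ∧
      (∃ N : ℕ, ∀ i : ℕ, N < i → ∀ x : P i, x = 0) ∧
      (∀ g : G, ∀ x : P 0, ε (MonoidAlgebra.of ℤ G g • x) = ε x) ∧
      Function.Surjective ε ∧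
      (∀ x : P 0, ε x = 0 ↔ ∃ y : P (0 + 1), d 0 y = x) ∧
      (∀ i : ℕ, ∀ x : P (i + 1), d i x = 0 ↔ ∃ y : P (i + 1 + 1), d (i + 1) y = x) ∧
      (∀ φ : P 0 →ₗ[MonoidAlgebra ℤ G] MonoidAlgebra ℤ G, φ ∘ₗ d 0 = 0 → φ = 0) ∧
      (∀ i : ℕ, i ≠ m → ∀ φ : P (i + 1) →ₗ[MonoidAlgebra ℤ G] MonoidAlgebra ℤ G,
          φ ∘ₗ d (i + 1) = 0 →
            ∃ ψ : P i →ₗ[MonoidAlgebra ℤ G] MonoidAlgebra ℤ G, ψ ∘ₗ d i = φ) ∧
      (∀ φ : P (m + 1) →ₗ[MonoidAlgebra ℤ G] MonoidAlgebra ℤ G,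
          φ ∘ₗ d (m + 1) = 0 → ∀ k : ℕ, 0 < k →
            (∃ ψ : P m →ₗ[MonoidAlgebra ℤ G] MonoidAlgebra ℤ G, ψ ∘ₗ d m = k • φ) →
            ∃ ψ : P m →ₗ[MonoidAlgebra ℤ G] MonoidAlgebra ℤ G, ψ ∘ₗ d m = φ) ∧
      ¬ Module.Free ℤ
          (↥(AddSubgroup.closure
              {φ : P (m + 1) →ₗ[MonoidAlgebra ℤ G] MonoidAlgebra ℤ G | φ ∘ₗ d (m + 1) = 0}) ⧸
            (AddSubgroup.closure
              {φ : P (m + 1) →ₗ[MonoidAlgebra ℤ G] MonoidAlgebra ℤ G |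
                ∃ ψ : P m →ₗ[MonoidAlgebra ℤ G] MonoidAlgebra ℤ G, ψ ∘ₗ d m = φ}).addSubgroupOf
              (AddSubgroup.closure
                {φ : P (m + 1) →ₗ[MonoidAlgebra ℤ G] MonoidAlgebra ℤ G |
                  φ ∘ₗ d (m + 1) = 0})) := by
  have hNFP : Pool.Agent.W326.DU.PropNFP := Pool.Agent.W287.DU.NFP.th Pool.Agent.W304.DU.P3.th
  have hCOHB : Pool.Agent.W326.DU.PropCOHB := Pool.Agent.W287.DU.COHB.th hNFP
  exact Pool.Agent.W326.DU.fin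
    (Pool.Agent.W490.DU.th Pool.Agent.W304.DU.RG.th Pool.Agent.W326.DU.sub_th
      Pool.Agent.W571.DU.BC.th Pool.Agent.W335.DU.HN.th)
    (Pool.Agent.W683.DU.FA.th (Pool.Agent.W363.DU.th Pool.Agent.W304.DU.th)
      Pool.Agent.W880.DU.DD.th Pool.Agent.W326.DU.aug_th)
    (Pool.Agent.W362.DU.th Pool.Agent.W683.DU.th hCOHB Pool.Agent.W85.DU.th)
    (Pool.Agent.W509.DU.FC.th hCOHB Pool.Agent.W85.DU.th Pool.Agent.W880.DU.DD.th)
    (Pool.Agent.W509.DU.FD.th Pool.Agent.W571.DU.NF1.th (Pool.Agent.W287.DU.NF2.th hNFP)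
      Pool.Agent.W85.DU.th Pool.Agent.W335.DU.TNU.th)

end Pool.Agent.S02505
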