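import Pool.Statements.S02523
import Pool.Agent.W393.LR.Tree
import Pool.Agent.W393.LR.CPAll
import Pool.Agent.W393.LR.Main
import Pool.Agent.W358.LRChar
import Pool.Agent.W358.LRFgd
import Pool.Agent.W358.LRSep
import Pool.Agent.W358.LRWr
import Pool.Agent.W358.LRComb
import Pool.Agent.W402.LR.Fix
import Pool.Agent.W402.LR.NH
import Pool.Agent.W402.LR.MHG
import Pool.Agent.W809.MH
import Pool.Agent.W366.LR.Inf

set_option autoImplicit false
open Pool Pool.MP_a112e0_al

namespace Pool.Agent.S02523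

/-- In every group having a free subgroup of finite index, each finitely generated subgroup H lies in some finite-index subgroup K that admits a homomorphism onto H fixing H pointwise (a retraction). -/
theorem result :
    ∀ (G : Type) [Group G],
      (∃ F : Subgroup G, F.FiniteIndex ∧ IsFreeGroup F) →
      ∀ H : Subgroup G, H.FG →
        ∃ K : Subgroup G, K.FiniteIndex ∧ H ≤ K ∧
          ∃ ρ : K →* G, (∀ k : K, ρ k ∈ H) ∧
            ∀ h : G, ∀ hk : h ∈ K, h ∈ H → ρ ⟨h, hk⟩ = h := by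
  have hT : Pool.Agent.W393.LR.S_TREE :=
    Pool.Agent.W393.LR.tree Pool.Agent.W402.LR.fix Pool.Agent.W402.LR.nofix
  have hD : Pool.Agent.W393.LR.S_FGD := Pool.Agent.W358.LR.fgd
  have hRes : Pool.Agent.W393.LR.S_RES := Pool.Agent.W358.LR.res
  have hR : Pool.Agent.W393.LR.S_R :=
    Pool.Agent.W393.LR.thmR hT hRes Pool.Agent.W358.LR.char
  have hI : Pool.Agent.W393.LR.S_INF := Pool.Agent.W366.LR.inf hR hD hRes
  have hCP : Pool.Agent.W393.LR.S_CPALL :=
    Pool.Agent.W393.LR.cpall hT Pool.Agent.W358.LR.char (Pool.Agent.W358.LR.cut hD)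
      Pool.Agent.W358.LR.cancel Pool.Agent.W358.LR.cpbase Pool.Agent.W358.LR.cpcomb
  have hM : Pool.Agent.W393.LR.S_MHG :=
    Pool.Agent.W402.LR.mhg (Pool.Agent.W809.MH.mh hD) hRes Pool.Agent.W358.LR.coind
  exact Pool.Agent.W393.LR.main hM (Pool.Agent.W402.LR.nh hCP hI) Pool.Agent.W402.LR.finh

end Pool.Agent.S02523
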