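import Pool.Statements.S02558
import Pool.Agent.W345.TG5

set_option autoImplicit false
open Pool Pool.MP_a2d0bb_al

namespace Pool.Agent.S02558

/-- The negation of the preceding statement: There is a countable set of increasing homeomorphisms of the real line that is not contained in the subgroup generated by any two increasing homeomorphisms of the real line. -/
theorem result :
    ¬ (∃ S : Set (Equiv.Perm ℝ), S.Countable ∧ (∀ σ ∈ S, StrictMono ⇑σ) ∧
      ∀ f g : Equiv.Perm ℝ, StrictMono ⇑f → StrictMono ⇑g →
        ¬ S ⊆ (Subgroup.closure ({f, g} : Set (Equiv.Perm ℝ)) : Set (Equiv.Perm ℝ))) := by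
  rintro ⟨S, hS, hmono, h⟩
  rcases S.eq_empty_or_nonempty with rfl | hne
  · exact h 1 1 strictMono_id strictMono_id (Set.empty_subset _)
  obtain ⟨e, he⟩ := hS.exists_eq_range hne
  have he' : ∀ i, StrictMono (e i) := fun i => hmono _ (by rw [he]; exact ⟨i, rfl⟩)
  let s : ℕ → Pool.Agent.W345.TG.G := fun i =>
    StrictMono.orderIsoOfSurjective (e i) (he' i) (e i).surjective
  obtain ⟨f, g, hfg⟩ := Pool.Agent.W345.TG.main s
  let P : Pool.Agent.W345.TG.G →* Equiv.Perm ℝ :=
    { toFun := fun f => f.toEquiv
      map_one' := rfl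
      map_mul' := fun _ _ => rfl }
  refine h (P f) (P g) f.strictMono g.strictMono ?_
  rw [he]
  rintro _ ⟨i, rfl⟩
  have h1 := Subgroup.mem_map_of_mem P (hfg i)
  rw [MonoidHom.map_closure] at h1
  have h2 : P (s i) = e i := by
    ext x; rfl
  rw [h2] at h1
  have h3 : (P '' ({f, g} : Set Pool.Agent.W345.TG.G)) = {P f, P g} := by
    rw [Set.image_insert_eq, Set.image_singleton]
  rw [h3] at h1
  exact h1

end Pool.Agent.S02558
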