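import Pool.Statements.S02587
import Pool.Agent.Helper866.OutMain

set_option autoImplicit false
open Pool Pool.MP_a5f8b0_al

namespace Pool.Agent.S02587

theorem result :
    ∀ ν : Equiv.Perm ℤ, (∀ n : ℤ, ν n = -n - 1) →
    ∀ G : Subgroup (Equiv.Perm ℤ),
      G = Subgroup.closure
        {σ : Equiv.Perm ℤ | ∃ r₁ m₁ r₂ m₂ : ℤ,
          0 ≤ r₁ ∧ r₁ < m₁ ∧ 0 ≤ r₂ ∧ r₂ < m₂ ∧
          (¬ ∃ n : ℤ, n % m₁ = r₁ ∧ n % m₂ = r₂) ∧
          (∀ k : ℤ, σ (r₁ + k * m₁) = r₂ + k * m₂ ∧ σ (r₂ + k * m₂) = r₁ + k * m₁) ∧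
          (∀ n : ℤ, n % m₁ ≠ r₁ → n % m₂ ≠ r₂ → σ n = n)} →
      (∀ g ∈ G, ν * g * ν⁻¹ ∈ G) ∧
      (∀ φ : G ≃* G, ∃ h ∈ G,
          (∀ g : G, ((φ g : G) : Equiv.Perm ℤ) = h * (g : Equiv.Perm ℤ) * h⁻¹) ∨
          (∀ g : G, ((φ g : G) : Equiv.Perm ℤ) = h * ν * (g : Equiv.Perm ℤ) * ν⁻¹ * h⁻¹)) ∧
      (¬ ∃ h ∈ G, ∀ g ∈ G, ν * g * ν⁻¹ = h * g * h⁻¹) := by
  intro ν hν G hG
  have hGC : G = Pool.Agent.Helper111.CT.CTg Pool.Agent.Helper866.Out.Tr := by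
    rw [hG, Pool.Agent.Helper111.CT.CTg]
    congr 1
    ext σ
    have key : ∀ n r m : ℤ, 0 ≤ r → r < m → (n % m = r ↔ m ∣ n - r) := by
      intro n r m h0 h1
      rw [← Int.emod_emod_of_dvd n (dvd_refl m)]
      constructor
      · intro h
        rw [Int.emod_emod_of_dvd n (dvd_refl m)] at h
        exact ⟨n / m, by have := Int.emod_add_mul_ediv n m; rw [h] at this; linarith⟩
      · rintro ⟨k, hk⟩
        have : n = r + m * k := by linarith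
        rw [this, Int.emod_emod_of_dvd _ (dvd_refl m), Int.add_mul_emod_self_left,
          Int.emod_eq_of_lt h0 h1]
    simp only [Set.mem_setOf_eq, Pool.Agent.Helper111.CT.IsCT]
    constructor
    · rintro ⟨r₁, m₁, r₂, m₂, h1, h2, h3, h4, h5, h6, h7⟩
      refine ⟨r₁, m₁, r₂, m₂, h1, h2, h3, h4, trivial, trivial, ?_, ?_, ?_⟩
      · rintro n ⟨ha, hb⟩
        exact h5 ⟨n, (key n r₁ m₁ h1 h2).2 ha, (key n r₂ m₂ h3 h4).2 hb⟩
      · intro k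
        simpa only [mul_comm] using h6 k
      · intro n ha hb
        exact h7 n (fun h => ha ((key n r₁ m₁ h1 h2).1 h)) (fun h => hb ((key n r₂ m₂ h3 h4).1 h))
    · rintro ⟨r₁, m₁, r₂, m₂, h1, h2, h3, h4, -, -, h5, h6, h7⟩
      refine ⟨r₁, m₁, r₂, m₂, h1, h2, h3, h4, ?_, ?_, ?_⟩
      · rintro ⟨n, ha, hb⟩
        exact h5 n ⟨(key n r₁ m₁ h1 h2).1 ha, (key n r₂ m₂ h3 h4).1 hb⟩
      · intro k
        simpa only [mul_comm] using h6 k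
      · intro n ha hb
        exact h7 n (fun h => ha ((key n r₁ m₁ h1 h2).2 h)) (fun h => hb ((key n r₂ m₂ h3 h4).2 h))
  subst hGC
  exact ⟨fun g hg => Pool.Agent.Helper866.Out.nu_conj hν hg,
    fun φ => Pool.Agent.Helper866.Out.aut_form hν φ,
    Pool.Agent.Helper866.Out.not_inner hν⟩

end Pool.Agent.S02587
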