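import Pool.Statements.S02592
import Pool.Agent.Results.MP_eeceb3_al.RadicableVerbal

set_option autoImplicit false
open Pool Pool.MP_a5fc06_al

namespace Pool.Agent.S02592

open Pool.Agent.Helper705.Rad

/-- a group with a nontrivial radicable subgroup is not residually finite -/
lemma key {F : Type} [Group F] (H : Subgroup F) (hne : H ≠ ⊥)
    (hrad : ∀ h ∈ H, ∀ n : ℕ, 1 ≤ n → ∃ x ∈ H, x ^ n = h)
    (hRF : ∀ g : F, g ≠ 1 → ∃ K : Subgroup F, K.index ≠ 0 ∧ g ∉ K) : False := by
  obtain ⟨h, hh, h1⟩ : ∃ h ∈ H, h ≠ 1 := by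
    by_contra hcon
    push_neg at hcon
    exact hne ((Subgroup.eq_bot_iff_forall H).mpr hcon)
  obtain ⟨K, hK, hnot⟩ := hRF h h1
  haveI : K.FiniteIndex := ⟨hK⟩
  haveI : K.normalCore.FiniteIndex := inferInstance
  obtain ⟨x, _, hx⟩ := hrad h hh K.normalCore.index
    (Nat.one_le_iff_ne_zero.mpr Subgroup.FiniteIndex.index_ne_zero)
  apply hnot
  apply K.normalCore_le
  rw [← hx]
  exact Subgroup.pow_index_mem K.normalCore x

lemma verbal_eq (U : Set (FreeGroup ℕ)) (F : Type) [Group F] :
    Subgroup.normalClosure {x : F | ∃ w ∈ U, ∃ φ : FreeGroup ℕ →* F, φ w = x} = Verbal U F := by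
  apply le_antisymm
  · apply Subgroup.normalClosure_le_normal
    exact Subgroup.subset_closure
  · exact Subgroup.closure_le_normalClosure

/-- The negation of the preceding statement: For every set of group laws and every rank, if the relatively free group (free group modulo the verbal subgroup of those laws) is soluble, then every nontrivial element avoids some finite-index subgroup, i.e. the group is residually finite. -/
theorem result :
    ¬ (∀ (W : Set (FreeGroup ℕ)) (α : Type),
      IsSolvable (FreeGroup α ⧸ Subgroup.normalClosure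
        {x : FreeGroup α | ∃ w ∈ W, ∃ φ : FreeGroup ℕ →* FreeGroup α, φ w = x}) →
      ∀ g : FreeGroup α ⧸ Subgroup.normalClosure
          {x : FreeGroup α | ∃ w ∈ W, ∃ φ : FreeGroup ℕ →* FreeGroup α, φ w = x},
        g ≠ 1 →
          ∃ H : Subgroup (FreeGroup α ⧸ Subgroup.normalClosure
              {x : FreeGroup α | ∃ w ∈ W, ∃ φ : FreeGroup ℕ →* FreeGroup α, φ w = x}),
            H.index ≠ 0 ∧ g ∉ H) := by
  intro hall
  obtain ⟨U, W, d, hUW⟩ := Pool.Agent.Results.MP_eeceb3_al.RadicableVerbal.result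
  obtain ⟨hsol, hne, -, hrad⟩ := hUW (Fin 17) ⟨Function.Embedding.refl _⟩
  have gen : ∀ (N : Subgroup (FreeGroup (Fin 17))) [N.Normal],
      N = Verbal U (FreeGroup (Fin 17)) →
      (IsSolvable (FreeGroup (Fin 17) ⧸ N) →
        ∀ g : FreeGroup (Fin 17) ⧸ N, g ≠ 1 →
          ∃ H : Subgroup (FreeGroup (Fin 17) ⧸ N), H.index ≠ 0 ∧ g ∉ H) → False := by
    intro N hN e hyp
    subst e
    exact key _ hne hrad (hyp ⟨d, hsol⟩)
  exact gen _ (verbal_eq U _) (hall U (Fin 17))

end Pool.Agent.S02592
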