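import Pool.Statements.S02604
import Pool.Agent.H749R3.Coarse

set_option autoImplicit false
open Pool Pool.MP_a7957c_al

namespace Pool.Agent.S02604

/-- The negation of the preceding statement: For distinct n, m ≥ 2, the full box space of the rank-n free group (disjoint union of all its finite quotients with word metrics, components pushed apart) is coarsely equivalent to that of the rank-m free group. -/
theorem result :
    ¬ (∀ d : (k : ℕ) →
      ({N : Subgroup (FreeGroup (Fin k)) // N.Normal ∧ N.FiniteIndex} × FreeGroup (Fin k)) →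
      ({N : Subgroup (FreeGroup (Fin k)) // N.Normal ∧ N.FiniteIndex} × FreeGroup (Fin k)) → ℕ,
    (∀ (k : ℕ) (p q : {N : Subgroup (FreeGroup (Fin k)) // N.Normal ∧ N.FiniteIndex} × FreeGroup (Fin k)),
        p.1 = q.1 →
        d k p q = sInf {r : ℕ | ∃ g : FreeGroup (Fin k),
          g⁻¹ * p.2⁻¹ * q.2 ∈ p.1.val ∧ (FreeGroup.toWord g).length = r}) →
    (∀ (k : ℕ) (p q : {N : Subgroup (FreeGroup (Fin k)) // N.Normal ∧ N.FiniteIndex} × FreeGroup (Fin k)),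
        p.1 ≠ q.1 → d k p q = p.1.val.index + q.1.val.index) →
    ∀ n m : ℕ, 2 ≤ n → 2 ≤ m → n ≠ m →
      ∃ f : ({N : Subgroup (FreeGroup (Fin n)) // N.Normal ∧ N.FiniteIndex} × FreeGroup (Fin n)) →
            ({N : Subgroup (FreeGroup (Fin m)) // N.Normal ∧ N.FiniteIndex} × FreeGroup (Fin m)),
      ∃ h : ({N : Subgroup (FreeGroup (Fin m)) // N.Normal ∧ N.FiniteIndex} × FreeGroup (Fin m)) →
            ({N : Subgroup (FreeGroup (Fin n)) // N.Normal ∧ N.FiniteIndex} × FreeGroup (Fin n)),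
        (∀ R : ℕ, ∃ S : ℕ, ∀ p q, d n p q ≤ R → d m (f p) (f q) ≤ S) ∧
        (∀ R : ℕ, ∃ S : ℕ, ∀ p q, d m p q ≤ R → d n (h p) (h q) ≤ S) ∧
        (∃ C : ℕ, ∀ p, d n (h (f p)) p ≤ C) ∧
        (∃ C : ℕ, ∀ q, d m (f (h q)) q ≤ C)) := by
  classical
  intro H
  let d : (k : ℕ) → H749.Box.XX k → H749.Box.XX k → ℕ := fun k p q =>
    if p.1 = q.1 then sInf {r : ℕ | ∃ g : FreeGroup (Fin k),
          g⁻¹ * p.2⁻¹ * q.2 ∈ p.1.val ∧ (FreeGroup.toWord g).length = r}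
    else p.1.val.index + q.1.val.index
  have h1 : ∀ (k : ℕ) (p q : H749.Box.XX k), p.1 = q.1 →
      d k p q = sInf {r : ℕ | ∃ g : FreeGroup (Fin k),
          g⁻¹ * p.2⁻¹ * q.2 ∈ p.1.val ∧ (FreeGroup.toWord g).length = r} :=
    fun k p q h => if_pos h
  have h2 : ∀ (k : ℕ) (p q : H749.Box.XX k), p.1 ≠ q.1 →
      d k p q = p.1.val.index + q.1.val.index := fun k p q h => if_neg h
  obtain ⟨f, h, hf, hh, ⟨C₁, hC₁⟩, ⟨C₂, hC₂⟩⟩ :=
    H d h1 h2 3 2 (by norm_num) le_rfl (by norm_num)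
  obtain ⟨S₁, hS₁⟩ := hf 1
  obtain ⟨S₂, hS₂⟩ := hh 1
  have hd : ∀ k, H749.Box.IsBox k (d k) := fun k => ⟨h1 k, h2 k⟩
  exact H749.Box.no_coarse_lt (m := 3) (n := 2) (by norm_num) (by norm_num) (d 3) (d 2)
    (hd 3) (hd 2) f h (S₁ + S₂ + C₁ + C₂)
    (fun p q hpq => (hS₁ p q hpq).trans (by omega))
    (fun p q hpq => (hS₂ p q hpq).trans (by omega))
    (fun p => (hC₁ p).trans (by omega))
    (fun q => (hC₂ q).trans (by omega))

end Pool.Agent.S02604
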