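import Pool.Statements.S02672
import Pool.Agent.Results.MP_ac3292_al.NoSplit

set_option autoImplicit false
open Pool Pool.MP_ac3292_al

namespace Pool.Agent.S02672

open Pool.Agent.Results.MP_ac3292_al.NoSplit in
theorem asdim_iff {G : Type} (Γ : SimpleGraph G) (Y : Set G) (k : ℕ) :
    (∀ R : ℕ, ∃ 𝒰 : Set (Set G), (∀ U ∈ 𝒰, U ⊆ Y) ∧ Y ⊆ ⋃₀ 𝒰 ∧
        (∃ D : ℕ, ∀ U ∈ 𝒰, ∀ a ∈ U, ∀ b ∈ U, Γ.dist a b ≤ D) ∧
        ∀ y ∈ Y, {U ∈ 𝒰 | ∃ z ∈ U, Γ.dist y z ≤ R}.encard ≤ (k + 1 : ℕ∞)) ↔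
      AsdimLE Γ Y k := by
  constructor
  · intro h R
    obtain ⟨𝒰, h1, h2, ⟨D, h3⟩, h4⟩ := h R
    refine ⟨𝒰, fun U => U.1, D, fun U => h1 U.1 U.2, ?_, fun U => h3 U.1 U.2, ?_⟩
    · intro y hy
      obtain ⟨U, hU, hyU⟩ := h2 hy
      exact ⟨⟨U, hU⟩, hyU⟩
    · intro y hy
      have h5 := h4 y hy
      have h6 : (Subtype.val '' {i : 𝒰 | ∃ z ∈ i.1, Γ.dist y z ≤ R}) ⊆
          {U ∈ 𝒰 | ∃ z ∈ U, Γ.dist y z ≤ R} := by
        rintro _ ⟨U, hU, rfl⟩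
        exact ⟨U.2, hU⟩
      have h7 := Set.encard_le_encard h6
      rw [Subtype.val_injective.encard_image] at h7
      refine (h7.trans h5).trans (le_of_eq ?_)
      push_cast
      rfl
  · intro h R
    obtain ⟨ι, U, D, h1, h2, h3, h4⟩ := h R
    refine ⟨Set.range U, ?_, ?_, ⟨D, ?_⟩, ?_⟩
    · rintro _ ⟨i, rfl⟩
      exact h1 i
    · intro y hy
      obtain ⟨i, hi⟩ := h2 y hy
      exact ⟨U i, ⟨i, rfl⟩, hi⟩
    · rintro _ ⟨i, rfl⟩
      exact h3 i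
    · intro y hy
      have h5 := h4 y hy
      have h6 : {V ∈ Set.range U | ∃ z ∈ V, Γ.dist y z ≤ R} ⊆
          U '' {i : ι | ∃ z ∈ U i, Γ.dist y z ≤ R} := by
        rintro _ ⟨⟨i, rfl⟩, hi⟩
        exact ⟨i, hi, rfl⟩
      refine (((Set.encard_le_encard h6).trans (Set.encard_image_le _ _)).trans h5).trans
        (le_of_eq ?_)
      push_cast
      rfl

/-- The negation of the preceding statement: For all f.g. G with Cayley graph Γ and m:ℕ: if asdim G ≥ m+2 and some X with asdim X ≤ m coarsely separates Γ (two distinct deep components of the complement of the r-neighbourhood), then G is a nontrivial amalgam K₀ *_H K₁ or an HNN extension A*_H over some subgroup H with asdim H ≤ m+1. -/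
theorem result :
    ¬ (∀ (G : Type) [Group G] (S : Finset G), Subgroup.closure (S : Set G) = ⊤ →
  ∀ (Γ : SimpleGraph G), Γ = SimpleGraph.fromRel (fun g h : G => g⁻¹ * h ∈ S) →
  ∀ (asdimLE : Set G → ℕ → Prop),
    (∀ (Y : Set G) (k : ℕ), asdimLE Y k ↔
      ∀ R : ℕ, ∃ 𝒰 : Set (Set G), (∀ U ∈ 𝒰, U ⊆ Y) ∧ Y ⊆ ⋃₀ 𝒰 ∧
        (∃ D : ℕ, ∀ U ∈ 𝒰, ∀ a ∈ U, ∀ b ∈ U, Γ.dist a b ≤ D) ∧
        ∀ y ∈ Y, {U ∈ 𝒰 | ∃ z ∈ U, Γ.dist y z ≤ R}.encard ≤ (k + 1 : ℕ∞)) →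
  ∀ (m : ℕ), ¬ asdimLE Set.univ (m + 1) →
  ∀ (X : Set G), asdimLE X m →
  (∃ r : ℕ, ∃ Ω : Set G, Ω = {v : G | ∀ x ∈ X, r < Γ.dist v x} ∧
    ∃ C₁ C₂ : (Γ.induce Ω).ConnectedComponent, C₁ ≠ C₂ ∧
      ∀ C : (Γ.induce Ω).ConnectedComponent, (C = C₁ ∨ C = C₂) →
        ∀ D : ℕ, ∃ v : Ω, (Γ.induce Ω).connectedComponentMk v = C ∧
          ∀ x ∈ X, D < Γ.dist (v : G) x) →
  ∃ H : Subgroup G, asdimLE (H : Set G) (m + 1) ∧
    ((∃ (K : Bool → Subgroup G) (hK : ∀ i, H ≤ K i), (∀ i, H ≠ K i) ∧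
        ∃ e : Monoid.PushoutI (fun i : Bool => Subgroup.inclusion (hK i)) ≃* G,
          ∀ (i : Bool) (a : K i), e (Monoid.PushoutI.of i a) = (a : G)) ∨
     (∃ (A : Subgroup G) (B₁ B₂ : Subgroup A) (φ : B₁ ≃* B₂)
        (e : HNNExtension A B₁ B₂ φ ≃* G),
          (∀ a : A, e (HNNExtension.of a) = (a : G)) ∧ H = B₁.map A.subtype))) := by
  intro H
  obtain ⟨G, _, S, hS, hdim, ⟨X, hX, r, hr, C₁, C₂, hC, hd1, hd2⟩, hsp⟩ :=
    Pool.Agent.Results.MP_ac3292_al.NoSplit.result 2 le_rfl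
  obtain ⟨K, hK1, hK2⟩ := H G S hS _ rfl
    (fun Y k => Pool.Agent.Results.MP_ac3292_al.NoSplit.AsdimLE
      (Pool.Agent.Results.MP_ac3292_al.NoSplit.cayley S) Y k)
    (fun Y k => (asdim_iff _ Y k).symm) 0 hdim X hX
    ⟨r, _, rfl, C₁, C₂, hC, by
      rintro C (rfl | rfl) D
      · obtain ⟨v, hv, hv'⟩ := hd1 D
        exact ⟨v, hv, hv'⟩
      · obtain ⟨v, hv, hv'⟩ := hd2 D
        exact ⟨v, hv, hv'⟩⟩
  apply hsp K
  rcases hK2 with ⟨P, hP, hne, e, he⟩ | ⟨A, B₁, B₂, φ, e, he, hH⟩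
  · left
    refine ⟨fun i => P i, fun i => inferInstance, fun i => Subgroup.inclusion (hP i),
      fun i => Subgroup.inclusion_injective (hP i), ?_, e, ?_⟩
    · intro i hsurj
      apply hne i
      apply le_antisymm (hP i)
      intro x hx
      obtain ⟨y, hy⟩ := hsurj ⟨x, hx⟩
      have := congrArg Subtype.val hy
      rw [Subgroup.coe_inclusion] at this
      simp only at this
      rw [← this]; exact y.2
    · intro h
      have h1 : Monoid.PushoutI.base (fun i : Bool => Subgroup.inclusion (hP i)) h =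
          Monoid.PushoutI.of (φ := fun i : Bool => Subgroup.inclusion (hP i)) true
            (Subgroup.inclusion (hP true) h) :=
        (Monoid.PushoutI.of_apply_eq_base (φ := fun i : Bool => Subgroup.inclusion (hP i))
          true h).symm
      rw [h1, he]
      rfl
  · right
    refine ⟨A, inferInstance, B₁, B₂, φ, e, ?_⟩
    rw [hH]
    ext x
    constructor
    · rintro ⟨a, ha, rfl⟩
      exact ⟨HNNExtension.of a, ⟨a, ha, rfl⟩, he a⟩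
    · rintro ⟨_, ⟨a, ha, rfl⟩, rfl⟩
      exact ⟨a, ha, (he a).symm⟩

end Pool.Agent.S02672
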