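import Pool.Statements.S02695
import Pool.Agent.W430.CC.Real
import Pool.Agent.W430.CC.Seq

set_option autoImplicit false
open Pool Pool.MP_aed2d0_al

namespace Pool.Agent.S02695

open Pool.Agent.W430.CC

/-- For every characteristic-zero field F and k ≥ 1, the ratio of central codimensions to ordinary codimensions of k×k matrices over F converges to some real limit between 0 and 1 as n goes to infinity. -/
theorem result :
    ∀ (F : Type) [Field F] [CharZero F] (k : ℕ), 1 ≤ k →
      ∃ α : ℝ, 0 ≤ α ∧ α ≤ 1 ∧
        Filter.Tendsto (fun n : ℕ =>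
          (Module.finrank F (Submodule.span F (Set.range (fun σ : Equiv.Perm (Fin n) =>
              fun x : Fin n → Matrix (Fin k) (Fin k) F =>
                Submodule.mkQ (Subalgebra.toSubmodule (Subalgebra.center F (Matrix (Fin k) (Fin k) F)))
                  (List.ofFn (fun i => x (σ i))).prod))) : ℝ) /
          (Module.finrank F (Submodule.span F (Set.range (fun σ : Equiv.Perm (Fin n) =>
              fun x : Fin n → Matrix (Fin k) (Fin k) F =>
                (List.ofFn (fun i => x (σ i))).prod))) : ℝ))
          Filter.atTop (nhds α) := by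
  intro F _ _ k hk
  have hnz : NeZero k := ⟨by omega⟩
  -- the codimensions do not depend on the field
  have hnum : ∀ n : ℕ, (Module.finrank F (Submodule.span F (Set.range (fun σ : Equiv.Perm (Fin n) =>
              fun x : Fin n → Matrix (Fin k) (Fin k) F =>
                Submodule.mkQ (Subalgebra.toSubmodule (Subalgebra.center F (Matrix (Fin k) (Fin k) F)))
                  (List.ofFn (fun i => x (σ i))).prod))) : ℝ) =
      (Module.finrank ℝ (Cy k (Option (Fin n))) : ℝ) - Module.finrank ℝ (Zs k n) := by
    intro n
    rw [finrank_quot, finrank_int_eq (F := F) (G := ℝ), ← finrank_quot,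
      ← finrank_quot_real hk n]
    push_cast
    ring
  have hden : ∀ n : ℕ, (Module.finrank F (Submodule.span F (Set.range (fun σ : Equiv.Perm (Fin n) =>
              fun x : Fin n → Matrix (Fin k) (Fin k) F =>
                (List.ofFn (fun i => x (σ i))).prod))) : ℝ) =
      (Module.finrank ℝ (Cy k (Option (Fin n))) : ℝ) := by
    intro n
    have h1 := finrank_AA F k n
    unfold AA at h1
    have h2 : Module.finrank F (Submodule.span F (Set.range (mon F k n))) =
        Module.finrank ℝ (Cy k (Option (Fin n))) := by
      rw [h1, finrank_int_eq (F := F) (G := ℝ), ← finrank_AA, finrank_AA_real]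
    exact_mod_cast h2
  simp only [hnum, hden]
  have hkpos : (0 : ℝ) < (k : ℝ) * k := by
    have : (0 : ℝ) < k := by exact_mod_cast hk
    positivity
  have hk1 : (1 : ℝ) ≤ (k : ℝ) * k := by
    have : (1 : ℝ) ≤ k := by exact_mod_cast hk
    nlinarith
  refine ⟨1 - 1 / ((k : ℝ) * k), ?_, ?_, ?_⟩
  · rw [sub_nonneg, div_le_one hkpos]
    exact hk1
  · have : 0 < 1 / ((k : ℝ) * k) := by positivity
    linarith
  · have hpp : ∀ n, 0 < (pp k n : ℝ) := by
      intro n
      have h1 := pp_lower (k := k) n
      by_contra hcon
      push Not at hcon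
      have h2 : (pp k n : ℝ) = 0 := le_antisymm hcon (Nat.cast_nonneg _)
      rw [h2, zero_mul] at h1
      have h3 : (0 : ℝ) < ((k : ℝ) ^ n) ^ 2 := by
        have : (0 : ℝ) < k := by exact_mod_cast hk
        positivity
      linarith
    have hratio : Filter.Tendsto (fun n => (pp k (n + 1) : ℝ) / pp k n) Filter.atTop
        (nhds ((k : ℝ) * k)) := by
      refine ratio_tendsto (fun n => (pp k n : ℝ)) hpp pp_logconvex ?_ _ hkpos (k * k) ?_ ?_
      · exact_mod_cast pp_zero
      · intro n
        have h1 := pp_lower (k := k) n
        rw [← pow_two, ← pow_mul, mul_comm 2 n, pow_mul]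
        exact h1
      · intro n
        have h1 : pp k n ≤ (k * k) ^ n := by
          unfold pp
          refine (Submodule.finrank_le _).trans ?_
          rw [Module.finrank_matrix]
          simp [mul_pow]
        exact_mod_cast h1
    rcases Nat.lt_or_ge k 2 with h2 | h2
    · -- k = 1
      have hk' : k = 1 := by omega
      subst hk'
      have hz : ∀ n : ℕ, (Module.finrank ℝ (Cy 1 (Option (Fin n))) : ℝ) -
          Module.finrank ℝ (Zs 1 n) = 0 := by
        intro n
        have h3 := finrank_quot_real (k := 1) le_rfl n
        have h4 : Submodule.span ℝ (Set.range (fun σ : Equiv.Perm (Fin n) =>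
              fun x : Fin n → Matrix (Fin 1) (Fin 1) ℝ =>
                Submodule.mkQ (Subalgebra.toSubmodule (Subalgebra.center ℝ (Matrix (Fin 1) (Fin 1) ℝ)))
                  (List.ofFn (fun i => x (σ i))).prod)) = ⊥ := by
          rw [Submodule.span_eq_bot]
          rintro _ ⟨σ, rfl⟩
          ext x : 1
          refine (Submodule.Quotient.mk_eq_zero _).2 ?_
          rw [← thet_eq_zero]
          ext i j
          have hi : i = 0 := Subsingleton.elim _ _
          have hj : j = 0 := Subsingleton.elim _ _
          subst hi hj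
          have h5 : ∀ y : Matrix (Fin 1) (Fin 1) ℝ, thet ℝ 1 y 0 0 = 0 := by
            intro y
            change y 0 0 - y 0 0 * (1 : Matrix (Fin 1) (Fin 1) ℝ) 0 0 = 0
            rw [Matrix.one_apply_eq, mul_one, sub_self]
          exact h5 _
        rw [h4, finrank_bot, zero_add] at h3
        rw [h3, sub_self]
      simp only [hz, zero_div]
      have : (1 : ℝ) - 1 / (((1 : ℕ) : ℝ) * ((1 : ℕ) : ℝ)) = 0 := by norm_num
      rw [this]
      exact tendsto_const_nhds
    · have hkap : Filter.Tendsto (fun n => (kap k n : ℝ) / pp k n) Filter.atTop (nhds 0) := by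
        have hN : (1 : ℝ) < ((k * k : ℕ) : ℝ) / ((k * k - 1 : ℕ) : ℝ) := by
          have h3 : 0 < k * k - 1 := by
            have : 4 ≤ k * k := by nlinarith
            omega
          have h4 : (0 : ℝ) < ((k * k - 1 : ℕ) : ℝ) := by exact_mod_cast h3
          rw [one_lt_div h4]
          have : k * k - 1 < k * k := by omega
          exact_mod_cast this
        have h5 := pow_div_poly_tendsto hN (k * k + k * k + k * k)
        refine squeeze_zero (fun n => by positivity) ?_ h5
        intro n
        have h3 : 0 < k * k - 1 := by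
          have : 4 ≤ k * k := by nlinarith
          omega
        have h4 : (0 : ℝ) < ((k * k - 1 : ℕ) : ℝ) := by exact_mod_cast h3
        rw [div_le_div_iff₀ (hpp n) (by positivity)]
        have h6 := pp_lower (k := k) n
        have e1 : ((k : ℝ) ^ n) ^ 2 = ((k * k : ℕ) : ℝ) ^ n := by
          push_cast
          rw [← pow_two, ← pow_mul, ← pow_mul, mul_comm]
        rw [e1] at h6
        have e2 : (kap k n : ℝ) = ((n : ℝ) + 1) ^ (k * k + k * k) * ((k * k - 1 : ℕ) : ℝ) ^ n := by
          unfold kap
          push_cast
          rfl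
        rw [e2, div_pow, pow_add ((n : ℝ) + 1) (k * k + k * k) (k * k)]
        have h7 : (0 : ℝ) < ((k * k - 1 : ℕ) : ℝ) ^ n := pow_pos h4 n
        have h8 : ((k * k - 1 : ℕ) : ℝ) ^ n * (((k * k : ℕ) : ℝ) ^ n / ((k * k - 1 : ℕ) : ℝ) ^ n) =
            ((k * k : ℕ) : ℝ) ^ n := by
          field_simp
        calc ((n : ℝ) + 1) ^ (k * k + k * k) * ((k * k - 1 : ℕ) : ℝ) ^ n *
              (((k * k : ℕ) : ℝ) ^ n / ((k * k - 1 : ℕ) : ℝ) ^ n)
            = ((n : ℝ) + 1) ^ (k * k + k * k) * (((k * k : ℕ) : ℝ) ^ n) := by
              rw [mul_assoc, h8]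
          _ ≤ ((n : ℝ) + 1) ^ (k * k + k * k) * (pp k n * ((n : ℝ) + 1) ^ (k * k)) := by
              gcongr
          _ = _ := by ring
      exact final_squeeze (fun n => (pp k n : ℝ)) hpp _ hkpos hratio (fun n => (kap k n : ℝ)) hkap
        (fun n => (Module.finrank ℝ (Cy k (Option (Fin n))) : ℝ))
        (fun n => (Module.finrank ℝ (Zs k n) : ℝ))
        (fun n => by exact_mod_cast finrank_Cy_le n)
        (Filter.Eventually.of_forall fun n => by
          have := le_finrank_Cy h2 n
          have h3 : (pp k (n + 1) : ℝ) ≤ Module.finrank ℝ (Cy k (Option (Fin n))) + kap k (n + 1) := by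
            exact_mod_cast this
          change (pp k (n + 1) : ℝ) - kap k (n + 1) ≤ _
          linarith)
        (fun n => by exact_mod_cast finrank_Zs_le hk n)
        (Filter.Eventually.of_forall fun n => by
          have := le_finrank_Zs h2 n
          have h3 : (pp k n : ℝ) ≤ Module.finrank ℝ (Zs k n) + kap k n := by
            exact_mod_cast this
          change (pp k n : ℝ) - kap k n ≤ _
          linarith)

end Pool.Agent.S02695
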