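import Pool.Statements.S02719
import Pool.Agent.W415.Exc.Center

set_option autoImplicit false
open Pool Pool.MP_b0301d_al

namespace Pool.Agent.S02719

/-- There is a prime, alternative, non-associative algebra over some commutative ring whose localization at its nonzero central elements is not a Cayley–Dickson algebra, i.e. it is not a Cayley–Dickson ring. -/
theorem result :
    ∃ (Φ : Type) (_ : CommRing Φ) (A : Type) (_ : NonUnitalNonAssocRing A) (_ : Module Φ A)
      (_ : IsScalarTower Φ A A) (_ : SMulCommClass Φ A A),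
      (∀ x y : A, (x * x) * y = x * (x * y) ∧ (y * x) * x = y * (x * x)) ∧
      (∀ I J : Submodule Φ A,
        (∀ a x : A, x ∈ I → a * x ∈ I ∧ x * a ∈ I) →
        (∀ a x : A, x ∈ J → a * x ∈ J ∧ x * a ∈ J) →
        (∀ x ∈ I, ∀ y ∈ J, x * y = 0) → I = ⊥ ∨ J = ⊥) ∧
      (∃ x y z : A, (x * y) * z ≠ x * (y * z)) ∧
      ¬ (∃ (F : Type) (_ : Field F) (C : Type) (_ : NonAssocRing C) (_ : Module F C)
          (_ : IsScalarTower F C C) (_ : SMulCommClass F C C),
          (∀ x y : C, (x * x) * y = x * (x * y) ∧ (y * x) * x = y * (x * x)) ∧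
          Module.finrank F C = 8 ∧
          (∀ c ∈ Set.center C, ∃ a : F, c = a • (1 : C)) ∧
          Nontrivial C ∧
          (∀ I : TwoSidedIdeal C, I = ⊥ ∨ I = ⊤) ∧
          (∃ x y z : C, (x * y) * z ≠ x * (y * z)) ∧
          ∃ φ : A →ₙ+* C, Function.Injective φ ∧
            (∀ z ∈ Set.center A, ∃ a : F, φ z = a • (1 : C)) ∧
            ∀ c : C, ∃ z ∈ Set.center A, z ≠ 0 ∧ ∃ k : A, φ z * c = φ k) :=
  ⟨ZMod 3, inferInstance, W415.Exc.A, inferInstance, inferInstance, inferInstance, inferInstance, 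
    fun x y => ⟨W415.Exc.left_alt x y, W415.Exc.right_alt x y⟩, 
    fun I J hI hJ h => W415.Exc.prime (I := I) (J := J) hI hJ (fun x y hx hy => h x hx y hy), 
    W415.Exc.nonassoc, W415.Exc.not_CD⟩

end Pool.Agent.S02719
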