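import Pool.Statements.S02722
import Pool.Agent.Helper390.LCU

set_option autoImplicit false
open Pool Pool.MP_b05523_al

namespace Pool.Agent.S02722

/-- The negation of the preceding statement: There is a Hausdorff, second countable, locally compact topological group S such that every countable group admits an injective group homomorphism into S. -/
theorem result :
    ¬ (∃ (S : Type) (_ : Group S) (_ : TopologicalSpace S),
      IsTopologicalGroup S ∧ T2Space S ∧ LocallyCompactSpace S ∧
        SecondCountableTopology S ∧
          ∀ (G : Type) [Group G] [Countable G], ∃ f : G →* S, Function.Injective f) := by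
  rintro ⟨S, hG, hT, hTG, hT2, hLC, hSC, h⟩
  obtain ⟨G, hGG, hfg, hno⟩ := Pool.Agent.LCU.main_thm (S := S)
  obtain ⟨s, hs⟩ := (Group.fg_def.1 hfg)
  have hsur : Function.Surjective (FreeGroup.lift (fun x : (s : Set G) => (x : G))) := by
    rw [← MonoidHom.range_eq_top, FreeGroup.range_lift_eq_closure, Subtype.range_coe, hs]
  have : Countable (FreeGroup (s : Set G)) := by
    unfold FreeGroup
    infer_instance
  have hc : Countable G := hsur.countable
  obtain ⟨f, hf⟩ := h G
  exact hno f hf

end Pool.Agent.S02722

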