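import Pool.Statements.S02738
import Pool.Agent.Results.MP_b1d060_al.NoVirtuallyAbelianSplitting

set_option autoImplicit false
open Filter
open Pool Pool.MP_b1d060_al

namespace Pool.Agent.S02738

/-- The negation of the preceding statement: For n>3 and G finitely generated with asymptotic dimension at least n, if a coarsely embedded copy of Z^(n-2) coarsely separates the Cayley graph, then G acts on a tree without inversions or fixed vertex with all edge stabilizers virtually Z^(n-2). -/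
theorem result :
    ¬ (∀ (n : ℕ), 3 < n → ∀ (G : Type) [Group G] (S : Finset G),
      Subgroup.closure (S : Set G) = ⊤ →
      ∀ Γ : SimpleGraph G, Γ = SimpleGraph.fromRel (fun g h : G => g⁻¹ * h ∈ S) →
      (¬ ∀ r : ℕ, ∃ (ι : Type) (U : ι → Set G) (D : ℕ),
          (∀ x : G, ∃ i, x ∈ U i) ∧
          (∀ i, ∀ x ∈ U i, ∀ y ∈ U i, Γ.dist x y ≤ D) ∧
          ∀ x : G, {i : ι | ∃ y ∈ U i, Γ.dist x y ≤ r}.encard ≤ (n : ℕ∞)) →
      (∃ f : (Fin (n - 2) → ℤ) → G,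
          (∃ ρ : ℕ → ℕ, ∀ a b, Γ.dist (f a) (f b) ≤ ρ (∑ i, |a i - b i|).toNat) ∧
          (∃ ρ : ℕ → ℕ, Tendsto ρ atTop atTop ∧
              ∀ a b, ρ (∑ i, |a i - b i|).toNat ≤ Γ.dist (f a) (f b)) ∧
          (∃ L : ℕ, ∀ D : ℕ, ∃ x y : G,
              (∀ z, L + D < Γ.dist x (f z)) ∧ (∀ z, L + D < Γ.dist y (f z)) ∧
              ¬ ∃ p : Γ.Walk x y, ∀ v ∈ p.support, ∀ z, L < Γ.dist v (f z))) →
      ∃ (T : Type) (Γt : SimpleGraph T) (ρ : G →* Equiv.Perm T),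
        Γt.IsTree ∧
        (∀ g u v, Γt.Adj u v → Γt.Adj (ρ g u) (ρ g v)) ∧
        (∀ g u v, Γt.Adj u v → ¬ (ρ g u = v ∧ ρ g v = u)) ∧
        (∀ v, ∃ g, ρ g v ≠ v) ∧
        ∀ u v, Γt.Adj u v → ∀ H : Subgroup G, (∀ g, g ∈ H ↔ (ρ g u = u ∧ ρ g v = v)) →
          ∃ K : Subgroup G, K ≤ H ∧ (K.subgroupOf H).index ≠ 0 ∧
            Nonempty (K ≃* Multiplicative (Fin (n - 2) → ℤ))) := by
  intro h
  obtain ⟨G, iG, S, Γ, h1, h2, h3, h4, h5⟩ :=
    Pool.Agent.Results.MP_b1d060_al.NoVirtuallyAbelianSplitting.result 4 (by norm_num)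
  obtain ⟨T, Γt, ρ, k1, k2, k3, k4, k5⟩ := h 4 (by norm_num) G S h1 Γ h2 h3 h4
  obtain ⟨v, hv⟩ := h5 T Γt ρ k1 k2 k3 (by
    intro u v huv H hH
    obtain ⟨K, hK1, hK2, ⟨e⟩⟩ := k5 u v huv H hH
    refine ⟨K, hK1, hK2, ?_⟩
    intro g hg hfin
    obtain ⟨n, hn, hn0⟩ := isOfFinOrder_iff_pow_eq_one.1 hfin
    have h6 : (⟨g, hg⟩ : K) ^ n = 1 := Subtype.ext hn0
    have hn' : (e ⟨g, hg⟩) ^ n = 1 := by rw [← map_pow, h6, map_one]
    have h8 : e ⟨g, hg⟩ = 1 := by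
      have h9 : n • (Multiplicative.toAdd (e ⟨g, hg⟩)) = 0 := by
        rw [← toAdd_pow, hn']
        rfl
      have h10 : Multiplicative.toAdd (e ⟨g, hg⟩) = 0 := by
        funext i
        have h11 := congrFun h9 i
        simp only [Pi.smul_apply, Pi.zero_apply, smul_eq_zero] at h11
        rcases h11 with h12 | h12
        · omega
        · exact h12
      exact Multiplicative.toAdd.injective (by rw [h10]; rfl)
    have h13 : (⟨g, hg⟩ : K) = 1 := e.injective (by rw [h8, map_one])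
    exact congrArg Subtype.val h13)
  obtain ⟨g, hg⟩ := k4 v
  exact hg (hv g)

end Pool.Agent.S02738
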