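import Pool.Statements.S02757
import Pool.Agent.W31.SN.B5

set_option autoImplicit false
open scoped NumberField
open Pool Pool.MP_b2c262_al

namespace Pool.Agent.S02757

/-- For N ≥ 6 and O the Gaussian or Eisenstein integers, with G either GL_N(O) or SL_N(O), the first homology of G with coefficients in the Steinberg module of the fraction field vanishes (cycles are boundaries in the bar complex). -/
theorem result :
  ∀ n : ℕ, 4 ≤ n → ∀ (K : Type) [Field K] [NumberField K],
    (Nonempty (K ≃+* CyclotomicField 4 ℚ) ∨ Nonempty (K ≃+* CyclotomicField 3 ℚ)) →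
    ∀ (G : Type) [Group G] (φ : G →* Matrix.GeneralLinearGroup (Fin (n + 2)) (𝓞 K)),
      Function.Injective φ →
      (Set.range φ = Set.univ ∨
        Set.range φ = {g : Matrix.GeneralLinearGroup (Fin (n + 2)) (𝓞 K) | Matrix.det g.val = 1}) →
      ∀ z : G →₀ ((Fin (n + 1) → Submodule K (Fin (n + 2) → K)) →₀ ℤ),
        (∀ g, (∀ f ∈ (z g).support, StrictMono f ∧ ∀ i, f i ≠ ⊥ ∧ f i ≠ ⊤) ∧
          (z g).sum (fun f a => ∑ i : Fin (n + 1),
            Finsupp.single (f ∘ Fin.succAbove i) ((-1 : ℤ) ^ (i : ℕ) * a)) = 0) →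
        z.sum (fun g x => Finsupp.mapDomain
            (fun f j => Submodule.map
              (Matrix.toLin' ((φ g⁻¹).val.map (algebraMap (𝓞 K) K))) (f j)) x - x) = 0 →
        ∃ w : (G × G) →₀ ((Fin (n + 1) → Submodule K (Fin (n + 2) → K)) →₀ ℤ),
          (∀ p, (∀ f ∈ (w p).support, StrictMono f ∧ ∀ i, f i ≠ ⊥ ∧ f i ≠ ⊤) ∧
            (w p).sum (fun f a => ∑ i : Fin (n + 1),
              Finsupp.single (f ∘ Fin.succAbove i) ((-1 : ℤ) ^ (i : ℕ) * a)) = 0) ∧
          z = w.sum (fun p x =>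
            Finsupp.single p.2 (Finsupp.mapDomain
              (fun f j => Submodule.map
                (Matrix.toLin' ((φ p.1⁻¹).val.map (algebraMap (𝓞 K) K))) (f j)) x)
            - Finsupp.single (p.1 * p.2) x + Finsupp.single p.1 x) := by
  intro n hn K _ _ hK G _ φ hφ hr z hz h0
  obtain ⟨hP, N, hN⟩ := Pool.Agent.W605.SN.done K hK
  have hz' : ∀ g, z g ∈ Pool.Agent.W31.SN.SS K n := fun g => Pool.Agent.W31.SN.mem_SS.mpr (hz g)
  have h1 := Pool.Agent.W31.SN.final (K := K) φ (by omega) hN hφ hr z hz' h0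
  obtain ⟨w, hw1, hw2⟩ := Pool.Agent.W31.SN.exists_w (K := K) φ h1
  exact ⟨w, fun p => Pool.Agent.W31.SN.mem_SS.mp (hw1 p), hw2⟩

end Pool.Agent.S02757
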