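import Pool.Statements.S02836
import Pool.Agent.Results.MP_b7e8ae_al.NoGap

set_option autoImplicit false
open Pool Pool.MP_b7e8ae_al

namespace Pool.Agent.S02836

/-- The negation of the preceding statement: For every profinite group G and natural number n: if the set of x with x^n = 1 has positive Haar measure, then some coset tH of an open subgroup H consists entirely of elements whose n-th power is the identity. -/
theorem result :
    ¬ (∀ (G : Type) [Group G] [TopologicalSpace G] [IsTopologicalGroup G] [CompactSpace G]
      [T2Space G] [TotallyDisconnectedSpace G] [MeasurableSpace G] [BorelSpace G] (n : ℕ),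
      0 < (MeasureTheory.Measure.haar : MeasureTheory.Measure G) {x : G | x ^ n = 1} →
      ∃ H : Subgroup G, IsOpen (H : Set G) ∧ ∃ t : G, ∀ h ∈ H, (t * h) ^ n = 1) := by
  intro hall
  obtain ⟨G, i1, i2, i3, i4, i5, i6, i7, i8, h⟩ :=
    Pool.Agent.Results.MP_b7e8ae_al.NoGap.result 0
  obtain ⟨h1, _, h3⟩ := h 4 rfl
  obtain ⟨H, hH, t, ht⟩ := hall G 4 h1
  obtain ⟨x, hx, hx'⟩ := h3 H hH t
  exact hx' (ht x hx)

end Pool.Agent.S02836
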