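import Pool.Statements.S02873
import Pool.Agent.W415.Exc.Prime

set_option autoImplicit false
open Pool Pool.MP_bab89d_al

namespace Pool.Agent.S02873

/-- There is an algebra over some commutative ring that is alternative, prime (two ideals with zero product means one is zero), noncommutative, nonassociative, and has a nonzero z with (zx)z = 0 for all x; i.e. it is neither associative nor Cayley–Dickson. -/
theorem result :
    ∃ (Φ : Type) (A : Type) (_ : CommRing Φ) (_ : NonUnitalNonAssocRing A) (_ : Module Φ A)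
      (_ : IsScalarTower Φ A A) (_ : SMulCommClass Φ A A),
      (∀ x y : A, (x * x) * y = x * (x * y)) ∧
      (∀ x y : A, (y * x) * x = y * (x * x)) ∧
      (∀ I J : Submodule Φ A,
        (∀ a x : A, x ∈ I → a * x ∈ I ∧ x * a ∈ I) →
        (∀ a x : A, x ∈ J → a * x ∈ J ∧ x * a ∈ J) →
        (∀ x y : A, x ∈ I → y ∈ J → x * y = 0) → I = ⊥ ∨ J = ⊥) ∧
      (∃ x y : A, x * y ≠ y * x) ∧
      (∃ x y z : A, (x * y) * z ≠ x * (y * z)) ∧
      (∃ z : A, z ≠ 0 ∧ ∀ x : A, (z * x) * z = 0) := by
  refine ⟨ZMod 3, W415.Exc.A, inferInstance, inferInstance, inferInstance, inferInstance,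
    inferInstance, fun x y => W415.Exc.left_alt x y, fun x y => W415.Exc.right_alt x y,
    fun I J hI hJ h => W415.Exc.prime (I := I) (J := J) hI hJ h, W415.Exc.noncomm,
    W415.Exc.nonassoc, W415.Exc.abs_zero⟩

end Pool.Agent.S02873
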