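import Pool.Statements.S02882
import Pool.Agent.Results.MP_8bc403_al.GenDepend

set_option autoImplicit false
open Pool Pool.MP_bb0bfc_al

namespace Pool.Agent.S02882

section aux
open Pool.Agent.Results.MP_8bc403_al.GenDepend
open scoped commutatorElement

/-- the displacement of an order automorphism of the line which commutes with the unit translation
varies by less than one -/
lemma disp {R : ℝ ≃o ℝ} (h : R * z = z * R) (x y : ℝ) : |(R x - x) - (R y - y)| ≤ 1 := by
  have h1 : ∀ x, R (x + 1) = R x + 1 := fun x => DFunLike.congr_fun h x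
  have hn : ∀ (n : ℕ) (x : ℝ), R (x + n) = R x + n := by
    intro n
    induction n with
    | zero => intro x; simp
    | succ n ih =>
      intro x
      have e : x + ((n + 1 : ℕ) : ℝ) = (x + n) + 1 := by push_cast; ring
      rw [e, h1, ih]; push_cast; ring
  have hz : ∀ (n : ℤ) (x : ℝ), R (x + n) = R x + n := by
    intro n x
    rcases Int.eq_nat_or_neg n with ⟨m, rfl | rfl⟩
    · simpa using hn m x
    · have := hn m (x + ((-(m : ℤ) : ℤ) : ℝ))
      have e : x + ((-(m : ℤ) : ℤ) : ℝ) + (m : ℝ) = x := by push_cast; ring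
      rw [e] at this
      rw [this]; push_cast; ring
  have key : ∀ x y : ℝ, (R x - x) - (R y - y) ≤ 1 := by
    intro x y
    -- y ≤ x + n < y + 1
    have h2 := hz (-⌊x - y⌋) x
    have h3 := Int.floor_le (x - y)
    have h4 := Int.lt_floor_add_one (x - y)
    have h5 : R (x + ((-⌊x - y⌋ : ℤ) : ℝ)) ≤ R (y + 1) := by
      apply R.monotone
      push_cast
      linarith
    rw [h1, h2] at h5
    push_cast at h5
    linarith
  rw [abs_le]
  constructor
  · have := key y x; linarith
  · exact key x y

lemma comm_move (g h : F2) (x : ℝ) : |act ⁅g, h⁆ x - x| ≤ 2 := by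
  have e1 : act ⁅g, h⁆ x = act g (act h ((act g)⁻¹ ((act h)⁻¹ x))) := by
    rw [commutatorElement_def, map_mul, map_mul, map_mul, map_inv, map_inv]; rfl
  set w := (act g)⁻¹ ((act h)⁻¹ x) with hw
  have e2 : x = act h (act g w) := by
    have h1 : act g w = (act h)⁻¹ x := by
      rw [hw]
      change (act g * (act g)⁻¹) ((act h)⁻¹ x) = _
      rw [mul_inv_cancel]; rfl
    rw [h1]
    change x = (act h * (act h)⁻¹) x
    rw [mul_inv_cancel]; rfl
  rw [e1]
  have e3 : |act g (act h w) - x| = |act g (act h w) - act h (act g w)| :=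
    congrArg (fun y => |act g (act h w) - y|) e2
  rw [e3]
  have h1 := disp (act_comm g) (act h w) w
  have h2 := disp (act_comm h) (act g w) w
  rw [abs_le] at h1 h2 ⊢
  constructor <;> linarith [h1.1, h1.2, h2.1, h2.2]

lemma list_comm_move (l : List F2) (hl : ∀ p ∈ l, p ∈ commutatorSet F2) (x : ℝ) :
    |act l.prod x - x| ≤ 2 * l.length := by
  induction l generalizing x with
  | nil => simp
  | cons p l ih =>
    have h1 := ih (fun p hp => hl p (List.mem_cons_of_mem _ hp)) x
    obtain ⟨g, h, rfl⟩ := hl p List.mem_cons_self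
    have h2 := comm_move g h (act l.prod x)
    rw [List.prod_cons, map_mul, List.length_cons]
    change |act ⁅g, h⁆ (act l.prod x) - x| ≤ _
    push_cast
    calc |act ⁅g, h⁆ (act l.prod x) - x|
          = |(act ⁅g, h⁆ (act l.prod x) - act l.prod x) + (act l.prod x - x)| := by
          congr 1; ring
      _ ≤ _ := abs_add_le _ _
      _ ≤ _ := by linarith

lemma c_mem : c ∈ commutator F2 := by
  have : c = ⁅a, b⁻¹⁆ := by simp [c, commutatorElement_def]
  rw [this]
  exact Subgroup.commutator_mem_commutator (Subgroup.mem_top _) (Subgroup.mem_top _)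

lemma pal_word {X : Set F2} {p : F2} (h : IsPalindrome X p) :
    ∃ w : List F2, (w.reverse = w ∧ ∀ x ∈ w, x ∈ X ∨ x⁻¹ ∈ X) ∧ w.prod = p := by
  obtain ⟨w, -, hw, hp⟩ := h
  refine ⟨w.map fun (q : X × Bool) => cond q.2 (q.1 : F2) (q.1 : F2)⁻¹, ⟨?_, ?_⟩, hp⟩
  · rw [← List.map_reverse, hw]
  · intro x hx
    obtain ⟨⟨y, e⟩, -, rfl⟩ := List.mem_map.1 hx
    cases e
    · right; simp
    · left; exact y.2

theorem aux :
    ¬ (∀ (G : Type) [Group G] [Group.FG G],
      (∃ S : Finset G, Subgroup.closure (S : Set G) = ⊤ ∧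
        ∃ n : ℕ, ∀ g : G, ∃ L : List (List G), L.length ≤ n ∧
          (∀ w ∈ L, w.reverse = w ∧ ∀ x ∈ w, x ∈ S ∨ x⁻¹ ∈ S) ∧
          (L.map List.prod).prod = g) ↔
      (∃ n : ℕ, ∀ g ∈ commutator G, ∃ l : List G, l.length ≤ n ∧
          (∀ c ∈ l, c ∈ commutatorSet G) ∧ l.prod = g)) := by
  classical
  intro H
  have hX : (({a, b, a * b} : Finset F2) : Set F2) = ({a, b, a * b} : Set F2) := by simp
  obtain ⟨n, hn⟩ := (H F2).1 (by
    refine ⟨{a, b, a * b}, ?_, 3, ?_⟩
    · rw [← closure_abc]; simp
    · intro g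
      obtain ⟨i, j, h⟩ := exists_form g
      obtain ⟨w1, hw1, e1⟩ := pal_word
        (isPalindrome_zpow (X := ({a, b, a * b} : Set F2)) (s := a) (Or.inl rfl) i)
      obtain ⟨w2, hw2, e2⟩ := pal_word
        (isPalindrome_zpow (X := ({a, b, a * b} : Set F2)) (s := b) (Or.inr (Or.inl rfl)) j)
      obtain ⟨w3, hw3, e3⟩ := pal_word (mem_relSub h)
      refine ⟨[w1, w2, w3], by simp, ?_, by simp [e1, e2, e3, mul_assoc]⟩
      intro w hw
      have key : w.reverse = w ∧ ∀ x ∈ w, x ∈ ({a, b, a * b} : Set F2) ∨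
          x⁻¹ ∈ ({a, b, a * b} : Set F2) := by
        simp only [List.mem_cons, List.not_mem_nil, or_false] at hw
        rcases hw with rfl | rfl | rfl
        · exact hw1
        · exact hw2
        · exact hw3
      rw [← hX] at key
      simpa only [Finset.mem_coe] using key)
  obtain ⟨l, hlen, hl, hprod⟩ := hn (c ^ (2 * n + 1)) (Subgroup.pow_mem _ c_mem _)
  have h := list_comm_move l hl 0
  rw [hprod, act_c_pow, sub_zero, abs_neg, Nat.abs_cast] at h
  have h2 : 2 * n + 1 ≤ 2 * l.length := by exact_mod_cast h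
  omega

end aux

/-- The negation of the preceding statement: For every finitely generated group G: some finite generating set gives a uniform bound on the number of palindromic words needed to write any element iff there is a uniform bound on the number of commutators needed to write any element of the derived subgroup. -/
theorem result :
    ¬ (∀ (G : Type) [Group G] [Group.FG G],
      (∃ S : Finset G, Subgroup.closure (S : Set G) = ⊤ ∧
        ∃ n : ℕ, ∀ g : G, ∃ L : List (List G), L.length ≤ n ∧
          (∀ w ∈ L, w.reverse = w ∧ ∀ x ∈ w, x ∈ S ∨ x⁻¹ ∈ S) ∧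
          (L.map List.prod).prod = g) ↔
      (∃ n : ℕ, ∀ g ∈ commutator G, ∃ l : List G, l.length ≤ n ∧
          (∀ c ∈ l, c ∈ commutatorSet G) ∧ l.prod = g)) := by
  exact aux

end Pool.Agent.S02882
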