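import Pool.Statements.S02888
import Pool.Agent.Results.MP_bc5942_al.CompSeries

set_option autoImplicit false
open Pool Pool.MP_bc5942_al

namespace Pool.Agent.S02888

open Pool.Agent.Results.MP_bc5942_al.CompSeries

theorem series_of_simple {G : Type} [Group G] (A : Subgroup G) [IsSimpleGroup A] :
    ∃ n : ℕ, ∃ s : Fin (n+1) → Subgroup G, s 0 = ⊥ ∧ s (Fin.last n) = A ∧
      ∀ i : Fin n, s i.castSucc ≤ s i.succ ∧
        ((s i.castSucc).subgroupOf (s i.succ)).Normal ∧
        (s i.castSucc).subgroupOf (s i.succ) ≠ ⊤ ∧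
        ∀ M : Subgroup (s i.succ), M.Normal →
          (s i.castSucc).subgroupOf (s i.succ) ≤ M →
          M = (s i.castSucc).subgroupOf (s i.succ) ∨ M = ⊤ := by
  refine ⟨1, fun i => if i = 0 then ⊥ else A, by simp, by simp, ?_⟩
  intro i
  have hi : i = 0 := Subsingleton.elim _ _
  subst hi
  have h0 : (if (Fin.castSucc (0 : Fin 1)) = 0 then (⊥ : Subgroup G) else A) = ⊥ := by simp
  have h1 : (if (Fin.succ (0 : Fin 1)) = 0 then (⊥ : Subgroup G) else A) = A := by simp
  beta_reduce
  rw [h0, h1]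
  have hb : (⊥ : Subgroup G).subgroupOf A = ⊥ := by simp
  rw [hb]
  refine ⟨bot_le, inferInstance, bot_ne_top, ?_⟩
  intro M hM _
  exact hM.eq_bot_or_eq_top

theorem hasSeries_of {G : Type} [Group G]
    (h : ∃ n : ℕ, ∃ s : Fin (n+1) → Subgroup G, s 0 = ⊥ ∧ s (Fin.last n) = ⊤ ∧
      ∀ i : Fin n, s i.castSucc ≤ s i.succ ∧
        ((s i.castSucc).subgroupOf (s i.succ)).Normal ∧
        (s i.castSucc).subgroupOf (s i.succ) ≠ ⊤ ∧
        ∀ M : Subgroup (s i.succ), M.Normal →
          (s i.castSucc).subgroupOf (s i.succ) ≤ M →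
          M = (s i.castSucc).subgroupOf (s i.succ) ∨ M = ⊤) : HasCompositionSeries G := by
  obtain ⟨n, s, h0, hn, hs⟩ := h
  refine ⟨n, s, h0, hn, fun i => ?_⟩
  obtain ⟨hle, hN, hne, hmax⟩ := hs i
  refine ⟨hle, hN, ?_⟩
  set N := (s i.castSucc).subgroupOf (s i.succ) with hNdef
  have : Nontrivial (↥(s i.succ) ⧸ N) := by
    by_contra hcon
    rw [not_nontrivial_iff_subsingleton] at hcon
    exact hne (QuotientGroup.subgroup_eq_top_of_subsingleton N hcon)
  refine ⟨fun K hK => ?_⟩
  have hM : (K.comap (QuotientGroup.mk' N)).Normal := hK.comap _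
  have hle2 : N ≤ K.comap (QuotientGroup.mk' N) := by
    intro x hx
    rw [Subgroup.mem_comap, QuotientGroup.mk'_apply, (QuotientGroup.eq_one_iff x).2 hx]
    exact K.one_mem
  have hmap : Subgroup.map (QuotientGroup.mk' N) (K.comap (QuotientGroup.mk' N)) = K :=
    Subgroup.map_comap_eq_self_of_surjective (QuotientGroup.mk'_surjective N) K
  rcases hmax _ hM hle2 with h | h
  · left
    rw [← hmap, h, eq_bot_iff]
    rintro _ ⟨x, hx, rfl⟩
    rw [Subgroup.mem_bot, QuotientGroup.mk'_apply]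
    exact (QuotientGroup.eq_one_iff x).2 hx
  · right
    rw [← hmap, h, Subgroup.map_top_of_surjective _ (QuotientGroup.mk'_surjective N)]

/-- The negation of the preceding statement: For every group G and subgroups A, B with every element of G equal to a·b (a in A, b in B): if A and B each have a composition series (finite subnormal chain with simple nontrivial factors), then G has one. -/
theorem result :
    ¬ (∀ (G : Type) [Group G] (A B : Subgroup G),
    (∀ g : G, ∃ a ∈ A, ∃ b ∈ B, g = a * b) →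
    (∃ n : ℕ, ∃ s : Fin (n+1) → Subgroup G, s 0 = ⊥ ∧ s (Fin.last n) = A ∧
      ∀ i : Fin n, s i.castSucc ≤ s i.succ ∧
        ((s i.castSucc).subgroupOf (s i.succ)).Normal ∧
        (s i.castSucc).subgroupOf (s i.succ) ≠ ⊤ ∧
        ∀ M : Subgroup (s i.succ), M.Normal →
          (s i.castSucc).subgroupOf (s i.succ) ≤ M →
          M = (s i.castSucc).subgroupOf (s i.succ) ∨ M = ⊤) →
    (∃ n : ℕ, ∃ s : Fin (n+1) → Subgroup G, s 0 = ⊥ ∧ s (Fin.last n) = B ∧
      ∀ i : Fin n, s i.castSucc ≤ s i.succ ∧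
        ((s i.castSucc).subgroupOf (s i.succ)).Normal ∧
        (s i.castSucc).subgroupOf (s i.succ) ≠ ⊤ ∧
        ∀ M : Subgroup (s i.succ), M.Normal →
          (s i.castSucc).subgroupOf (s i.succ) ≤ M →
          M = (s i.castSucc).subgroupOf (s i.succ) ∨ M = ⊤) →
    (∃ n : ℕ, ∃ s : Fin (n+1) → Subgroup G, s 0 = ⊥ ∧ s (Fin.last n) = ⊤ ∧
      ∀ i : Fin n, s i.castSucc ≤ s i.succ ∧
        ((s i.castSucc).subgroupOf (s i.succ)).Normal ∧
        (s i.castSucc).subgroupOf (s i.succ) ≠ ⊤ ∧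
        ∀ M : Subgroup (s i.succ), M.Normal →
          (s i.castSucc).subgroupOf (s i.succ) ≤ M →
          M = (s i.castSucc).subgroupOf (s i.succ) ∨ M = ⊤)) := by
  intro h
  have key := h G A₀ B₀ factorized (series_of_simple A₀) (series_of_simple B₀)
  exact D_zero_infinite
      (finite_of_hasCompositionSeries (hasSeries_of key) (D 0) (D_normal 0) D_zero_comm D_zero_sq)

end Pool.Agent.S02888
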