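-- The negation of the stated problem, from the unbounded family of the starting result
-- MP_bcc032_al/UnboundedZeroDivisors.
import Pool.Statements.S02892
import Pool.Agent.Results.MP_bcc032_al.UnboundedZeroDivisors

set_option autoImplicit false
open Pool Pool.MP_bcc032_al

namespace Pool.Agent.S02892

open Pool.Agent.H18R2.BZD

theorem mem_span_iff {k : Type} [Field k] {d s : ℕ} (r : Fin s → FreeAlgebra k (Fin d))
    (f : FreeAlgebra k (Fin d)) :
    f ∈ TwoSidedIdeal.span (Set.range r) ↔ proj r f = 0 := by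
  constructor
  · intro hf
    have h1 : TwoSidedIdeal.span (Set.range r) ≤ TwoSidedIdeal.ker (proj r).toRingHom := by
      rw [TwoSidedIdeal.span_le]
      rintro _ ⟨i, rfl⟩
      rw [SetLike.mem_coe, TwoSidedIdeal.mem_ker]
      exact Pool.Agent.Results.MP_bcc032_al.UnboundedZeroDivisors.proj_rel r i
    have h2 := h1 hf
    rw [TwoSidedIdeal.mem_ker] at h2
    exact h2
  · intro hf
    let I := TwoSidedIdeal.span (Set.range r)
    let g : FreeAlgebra k (Fin d) →+* I.ringCon.Quotient := I.ringCon.mk'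
    have hg : ∀ x, g x = 0 ↔ x ∈ I := by
      intro x
      rw [TwoSidedIdeal.mem_iff]
      have : g x = 0 ↔ g x = g 0 := by rw [map_zero]
      rw [this]
      exact (RingCon.eq I.ringCon)
    have hrel : ∀ ⦃a b : FreeAlgebra k (Fin d)⦄, (∃ i, a = r i ∧ b = 0) → g a = g b := by
      rintro a b ⟨i, rfl, rfl⟩
      rw [map_zero, hg]
      exact TwoSidedIdeal.subset_span ⟨i, rfl⟩
    let G : Quo r →+* I.ringCon.Quotient := RingQuot.lift ⟨g, hrel⟩
    have hG : G (proj r f) = g f := by
      show RingQuot.lift ⟨g, hrel⟩ (RingQuot.mkAlgHom k _ f) = g f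
      rw [RingQuot.mkAlgHom_def]
      exact RingQuot.lift_mkRingHom_apply g hrel f
    rw [hf, map_zero] at hG
    exact (hg f).1 hG.symm

/-- The negation of the preceding statement: For all d,s,n there is N such that, over any field, if the free algebra on d letters modulo s relations of degree ≤ n has zero divisors, then it has two nonzero elements of degree < N with product zero. -/
theorem result :
    ¬ (∀ d s n : ℕ, ∃ N : ℕ, ∀ (k : Type) [Field k] (r : Fin s → FreeAlgebra k (Fin d)),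
      (∀ i, r i ∈ Submodule.span k
        {a : FreeAlgebra k (Fin d) | ∃ w : FreeMonoid (Fin d),
          w.length ≤ n ∧ a = (w.toList.map (FreeAlgebra.ι k)).prod}) →
      (∃ p q : FreeAlgebra k (Fin d),
        p ∉ TwoSidedIdeal.span (Set.range r) ∧ q ∉ TwoSidedIdeal.span (Set.range r) ∧
        p * q ∈ TwoSidedIdeal.span (Set.range r)) →
      ∃ p q : FreeAlgebra k (Fin d),
        p ∈ Submodule.span k
          {a : FreeAlgebra k (Fin d) | ∃ w : FreeMonoid (Fin d),
            w.length < N ∧ a = (w.toList.map (FreeAlgebra.ι k)).prod} ∧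
        q ∈ Submodule.span k
          {a : FreeAlgebra k (Fin d) | ∃ w : FreeMonoid (Fin d),
            w.length < N ∧ a = (w.toList.map (FreeAlgebra.ι k)).prod} ∧
        p ∉ TwoSidedIdeal.span (Set.range r) ∧ q ∉ TwoSidedIdeal.span (Set.range r) ∧
        p * q ∈ TwoSidedIdeal.span (Set.range r)) := by
  intro h
  obtain ⟨N, hN⟩ := h 3 3 3
  obtain ⟨r, hr, ⟨a, b, ha, hb, hab⟩, hlow⟩ :=
    Pool.Agent.Results.MP_bcc032_al.UnboundedZeroDivisors.result ℚ N
  obtain ⟨a, rfl⟩ := RingQuot.mkAlgHom_surjective ℚ _ a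
  obtain ⟨b, rfl⟩ := RingQuot.mkAlgHom_surjective ℚ _ b
  obtain ⟨p, q, hp, hq, hp0, hq0, hpq⟩ := hN ℚ r (by
    intro i
    refine Submodule.span_mono ?_ (hr i)
    rintro w ⟨l, hl, rfl⟩
    exact ⟨FreeMonoid.ofList l, Nat.lt_succ_iff.1 hl, rfl⟩) ⟨a, b, by
      rw [mem_span_iff]; exact ha, by rw [mem_span_iff]; exact hb, by
      rw [mem_span_iff, map_mul]; exact hab⟩
  have hconv : ∀ x : FreeAlgebra ℚ (Fin 3), x ∈ Submodule.span ℚ
      {a : FreeAlgebra ℚ (Fin 3) | ∃ w : FreeMonoid (Fin 3),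
        w.length < N ∧ a = (w.toList.map (FreeAlgebra.ι ℚ)).prod} → x ∈ degLT ℚ 3 N := by
    intro x hx
    refine Submodule.span_mono ?_ hx
    rintro w ⟨l, hl, rfl⟩
    exact ⟨l.toList, hl, rfl⟩
  rw [mem_span_iff] at hp0 hq0 hpq
  rw [map_mul] at hpq
  exact hlow (proj r p) (proj r q) ⟨p, hconv p hp, rfl⟩ ⟨q, hconv q hq, rfl⟩ hp0 hq0 hpq

end Pool.Agent.S02892
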