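import Pool.Statements.S02939
import Pool.Agent.Helper278.TB.Final

set_option autoImplicit false
open Pool Pool.MP_bfc4df_al

namespace Pool.Agent.S02939

open Pool.Agent.Helper278.TB

theorem main (K : Type) [Field K] [Fintype K] [DecidableEq K] (hK : 256 ≤ Fintype.card K) :
  ∃ (G : Type) (_ : Group G) (V : Type) (_ : MulAction G V) (r : V) (p : V → V),
    p r = r ∧ (∀ v : V, p v = v → v = r) ∧ (∀ v : V, ∃ n : ℕ, p^[n] v = r) ∧
    (∀ v : V, {w : V | w ≠ r ∧ p w = v}.Finite) ∧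
    (∀ v : V, ∃ a b : V, a ≠ b ∧ a ≠ r ∧ b ≠ r ∧ p a = v ∧ p b = v) ∧
    (∀ (g : G) (v : V), p (g • v) = g • p v) ∧
    (∀ g : G, (∀ v : V, g • v = v) → g = 1) ∧
    (∀ (n : ℕ) (v w : V), p^[n] v = r → (∀ k < n, p^[k] v ≠ r) →
        p^[n] w = r → (∀ k < n, p^[k] w ≠ r) → ∃ g : G, g • v = w) ∧
    (∀ n : ℕ, (Subgroup.closure {g : G | ∃ v : V, p^[n] v = r ∧ (∀ k < n, p^[k] v ≠ r) ∧
        ∀ u : V, (∀ k : ℕ, p^[k] u ≠ v) → g • u = u}).index ≠ 0) ∧
    ∃ (S : Finset G) (ε : ℝ), 0 < ε ∧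
      ∀ (H : Type) [NormedAddCommGroup H] [InnerProductSpace ℂ H] [CompleteSpace H]
        (ρ : G →* unitary (H →L[ℂ] H)),
        (∃ x : H, ‖x‖ = 1 ∧ ∀ s ∈ S, ‖(ρ s : H →L[ℂ] H) x - x‖ < ε) →
        ∃ x : H, x ≠ 0 ∧ ∀ g : G, (ρ g : H →L[ℂ] H) x = x := by
  refine ⟨G K, inferInstance, List (B K), inferInstance, [], List.dropLast,
    rfl, ?_, ?_, ?_, ?_, ?_, ?_, ?_, ?_, propT_G hK ln_add pair_all⟩
  · intro v h
    by_contra hv
    have h1 := congrArg List.length h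
    rw [List.length_dropLast] at h1
    have h2 : 0 < v.length := List.length_pos_iff.mpr hv
    omega
  · intro v
    exact ⟨v.length, ((level_iff v.length v).mpr rfl).1⟩
  · intro v
    apply (Set.finite_range (fun b : B K => v ++ [b])).subset
    rintro w ⟨hw, rfl⟩
    exact ⟨w.getLast hw, List.dropLast_append_getLast hw⟩
  · intro v
    refine ⟨v ++ [fun _ => 0], v ++ [fun _ => 1], ?_, ?_, ?_, ?_, ?_⟩
    · intro h
      have h1 := List.append_cancel_left h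
      have h2 := congrFun (List.singleton_inj.mp h1) 0
      exact zero_ne_one h2
    · simp
    · simp
    · simp
    · simp
  · rintro ⟨g, hg⟩ v
    exact G_dropLast g hg v
  · rintro ⟨g, hg⟩ h
    apply Subtype.ext
    apply Equiv.ext
    intro v
    exact h v
  · intro n v w h1 h1' h2 h2'
    have hv := (level_iff n v).mp ⟨h1, h1'⟩
    have hw := (level_iff n w).mp ⟨h2, h2'⟩
    obtain ⟨g, hg, e⟩ := level_trans v w (hv.trans hw.symm)
    exact ⟨⟨g, hg⟩, e⟩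
  · intro n
    have e : {g : G K | ∃ v : List (B K), List.dropLast^[n] v = [] ∧
          (∀ k < n, List.dropLast^[k] v ≠ []) ∧
          ∀ u : List (B K), (∀ k : ℕ, List.dropLast^[k] u ≠ v) → g • u = u} =
        {g : G K | ∃ v : List (B K), v.length = n ∧
          ∀ u : List (B K), ¬ v <+: u → (g : Equiv.Perm (List (B K))) u = u} := by
      ext g
      simp only [Set.mem_ofPred_eq, desc_iff]
      constructor
      · rintro ⟨v, h1, h2, h3⟩
        exact ⟨v, (level_iff n v).mp ⟨h1, h2⟩, h3⟩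
      · rintro ⟨v, h1, h3⟩
        exact ⟨v, ((level_iff n v).mpr h1).1, ((level_iff n v).mpr h1).2, h3⟩
    rw [e]
    exact (RL_index (K := K) n).index_ne_zero


/-- Some group acts faithfully and level-transitively on a locally finite rooted tree with at least two children per vertex, with all rigid level stabilizers of finite index, and has Kazhdan's property (T) via a finite Kazhdan set. -/
theorem result :
  ∃ (G : Type) (_ : Group G) (V : Type) (_ : MulAction G V) (r : V) (p : V → V),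
    p r = r ∧ (∀ v : V, p v = v → v = r) ∧ (∀ v : V, ∃ n : ℕ, p^[n] v = r) ∧
    (∀ v : V, {w : V | w ≠ r ∧ p w = v}.Finite) ∧
    (∀ v : V, ∃ a b : V, a ≠ b ∧ a ≠ r ∧ b ≠ r ∧ p a = v ∧ p b = v) ∧
    (∀ (g : G) (v : V), p (g • v) = g • p v) ∧
    (∀ g : G, (∀ v : V, g • v = v) → g = 1) ∧
    (∀ (n : ℕ) (v w : V), p^[n] v = r → (∀ k < n, p^[k] v ≠ r) →
        p^[n] w = r → (∀ k < n, p^[k] w ≠ r) → ∃ g : G, g • v = w) ∧
    (∀ n : ℕ, (Subgroup.closure {g : G | ∃ v : V, p^[n] v = r ∧ (∀ k < n, p^[k] v ≠ r) ∧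
        ∀ u : V, (∀ k : ℕ, p^[k] u ≠ v) → g • u = u}).index ≠ 0) ∧
    ∃ (S : Finset G) (ε : ℝ), 0 < ε ∧
      ∀ (H : Type) [NormedAddCommGroup H] [InnerProductSpace ℂ H] [CompleteSpace H]
        (ρ : G →* unitary (H →L[ℂ] H)),
        (∃ x : H, ‖x‖ = 1 ∧ ∀ s ∈ S, ‖(ρ s : H →L[ℂ] H) x - x‖ < ε) →
        ∃ x : H, x ≠ 0 ∧ ∀ g : G, (ρ g : H →L[ℂ] H) x = x := by
  have : Fact (Nat.Prime 257) := ⟨by norm_num⟩
  exact main (ZMod 257) (by rw [ZMod.card]; norm_num)

end Pool.Agent.S02939
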