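import Pool.Statements.S02941
import Pool.Agent.Results.MP_bfcf3a_al.RealClosureEq

set_option autoImplicit false
open Pool Pool.MP_bfcf3a_al

namespace Pool.Agent.S02941

open Pool.Agent.Results.MP_bfcf3a_al.RealClosureEq in
theorem strong_iff {Ω : Type} (G : Subgroup (Equiv.Perm Ω)) (σ : Equiv.Perm Ω) :
    σ ∈ strongTwoClosure G ↔
      ∀ a b : Ω, a ≠ b → ∃ g ∈ G, ({g a, g b} : Set Ω) = {σ a, σ b} := by
  constructor
  · intro hσ a b hab
    obtain ⟨g, hg, h⟩ := pair_of_mem hσ hab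
    refine ⟨g, hg, ?_⟩
    rcases h with h | h
    · rw [h.1, h.2]
    · rw [h.1, h.2, Set.pair_comm]
  · intro h s hs
    have hcard : ∀ t ∈ setOrbit G s, ∃ x y, x ≠ y ∧ t = {x, y} := by
      rintro _ ⟨g, _, rfl⟩
      have : (g '' s).ncard = 2 := by
        rw [Set.ncard_image_of_injective s g.injective, hs]
      exact Set.ncard_eq_two.mp this
    apply Set.Subset.antisymm
    · rintro _ ⟨t, ht, rfl⟩
      obtain ⟨x, y, hxy, rfl⟩ := hcard t ht
      obtain ⟨g, hg, hgs⟩ := h x y hxy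
      obtain ⟨k, hk, hks⟩ := ht
      refine ⟨g * k, G.mul_mem hg hk, ?_⟩
      change σ '' {x, y} = _
      rw [Set.image_pair, ← hgs, ← Set.image_pair, hks, ← Set.image_comp]
      rfl
    · intro t ht
      obtain ⟨x, y, hxy, rfl⟩ := hcard t ht
      have hne : σ⁻¹ x ≠ σ⁻¹ y := fun e => hxy (σ⁻¹.injective e)
      obtain ⟨g, hg, hgs⟩ := h (σ⁻¹ x) (σ⁻¹ y) hne
      have e1 : σ (σ⁻¹ x) = x := σ.apply_symm_apply x
      have e2 : σ (σ⁻¹ y) = y := σ.apply_symm_apply y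
      rw [e1, e2] at hgs
      obtain ⟨k, hk, hks⟩ := ht
      refine ⟨{σ⁻¹ x, σ⁻¹ y}, ⟨g⁻¹ * k, G.mul_mem (G.inv_mem hg) hk, ?_⟩, ?_⟩
      · have : ((g⁻¹ * k : Equiv.Perm Ω) '' s) = (g⁻¹ : Equiv.Perm Ω) '' (k '' s) := by
          rw [← Set.image_comp]; rfl
        rw [this, ← hks, ← hgs, Set.image_pair]
        have e3 : ∀ z, g⁻¹ (g z) = z := fun z => g.symm_apply_apply z
        rw [e3, e3]
      · change σ '' {σ⁻¹ x, σ⁻¹ y} = _
        rw [Set.image_pair, e1, e2]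

open Pool.Agent.Results.MP_bfcf3a_al.RealClosureEq in
theorem real_iff {Ω : Type} [Fintype Ω] (G : Subgroup (Equiv.Perm Ω)) (σ : Equiv.Perm Ω) :
    σ ∈ fieldClosure ℝ G ↔
      ∀ W : Submodule ℝ (Ω → ℝ),
              (∀ g ∈ G, ∀ f ∈ W, (fun x => f (g x)) ∈ W) →
                ∀ f ∈ W, (fun x => f (σ x)) ∈ W := by
  classical
  let e : (Ω →₀ ℝ) ≃ₗ[ℝ] (Ω → ℝ) := Finsupp.linearEquivFunOnFinite ℝ ℝ Ω
  have he : ∀ w x, e w x = w x := fun w x => rfl
  have hmap : ∀ (τ : Equiv.Perm Ω) (w : Ω →₀ ℝ) (x : Ω),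
      e (Finsupp.lmapDomain ℝ ℝ τ w) (τ x) = e w x := by
    intro τ w x
    exact Finsupp.mapDomain_apply τ.injective w x
  have hmap' : ∀ (τ : Equiv.Perm Ω) (w : Ω →₀ ℝ),
      (fun x => e (Finsupp.lmapDomain ℝ ℝ τ w) (τ x)) = e w := by
    intro τ w; funext x; exact hmap τ w x
  have hmapinv : ∀ (τ : Equiv.Perm Ω) (w : Ω →₀ ℝ),
      e (Finsupp.lmapDomain ℝ ℝ (τ⁻¹ : Equiv.Perm Ω) w) = fun x => e w (τ x) := by
    intro τ w
    funext x
    have := hmap τ⁻¹ w (τ x)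
    have e1 : τ⁻¹ (τ x) = x := τ.symm_apply_apply x
    rw [e1] at this
    exact this
  constructor
  · intro h W hW f hf
    have h1 := h (W.comap e.toLinearMap) (by
      intro g hg v hv
      rw [Submodule.mem_comap] at hv ⊢
      have h2 := hW g⁻¹ (G.inv_mem hg) (e v) hv
      have h3 := hmapinv g⁻¹ v
      rw [inv_inv] at h3
      change e (Finsupp.lmapDomain ℝ ℝ g v) ∈ W
      rw [h3]
      exact h2)
    have h2 : e.symm f ∈ W.comap e.toLinearMap := by
      rw [Submodule.mem_comap]; simpa using hf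
    rw [← h1] at h2
    obtain ⟨w, hw, hw'⟩ := h2
    have h3 : f = e (Finsupp.lmapDomain ℝ ℝ σ w) := by
      rw [hw']; simp
    have h4 : (fun x => f (σ x)) = e w := by
      rw [h3]; exact hmap' σ w
    rw [h4]
    exact hw
  · intro h W hW
    have hle : W ≤ W.map (Finsupp.lmapDomain ℝ ℝ σ) := by
      intro w hw
      have := h (W.map e.toLinearMap) (by
        rintro g hg _ ⟨v, hv, rfl⟩
        refine ⟨Finsupp.lmapDomain ℝ ℝ (g⁻¹ : Equiv.Perm Ω) v, hW g⁻¹ (G.inv_mem hg) v hv, ?_⟩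
        exact hmapinv g v)
        (e w) ⟨w, hw, rfl⟩
      obtain ⟨v, hv, hv'⟩ := this
      refine ⟨v, hv, ?_⟩
      apply e.injective
      funext x
      obtain ⟨y, rfl⟩ := σ.surjective x
      have h5 : e v y = e w (σ y) := congrFun hv' y
      rw [← h5]
      exact hmap σ v y
    have hinj : Function.Injective (Finsupp.lmapDomain ℝ ℝ σ : (Ω →₀ ℝ) →ₗ[ℝ] (Ω →₀ ℝ)) :=
      Finsupp.mapDomain_injective σ.injective
    refine (Submodule.eq_of_le_of_finrank_eq hle ?_).symm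
    exact (Submodule.equivMapOfInjective _ hinj W).finrank_eq

open Pool.Agent.Results.MP_bfcf3a_al.RealClosureEq in
/-- For every finite set Ω with at least 3 points and every permutation group G on Ω, the permutations preserving every G-invariant real subspace of ℝ^Ω are exactly those mapping each 2-subset into its G-orbit. -/
theorem result :
    ∀ (Ω : Type) [Fintype Ω], 3 ≤ Fintype.card Ω →
      ∀ G : Subgroup (Equiv.Perm Ω),
        ({σ : Equiv.Perm Ω |
            ∀ W : Submodule ℝ (Ω → ℝ),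
              (∀ g ∈ G, ∀ f ∈ W, (fun x => f (g x)) ∈ W) →
                ∀ f ∈ W, (fun x => f (σ x)) ∈ W} : Set (Equiv.Perm Ω)) =
        ({σ : Equiv.Perm Ω |
            ∀ a b : Ω, a ≠ b →
              ∃ g ∈ G, ({g a, g b} : Set Ω) = {σ a, σ b}} : Set (Equiv.Perm Ω)) := by
  intro Ω _ hΩ G
  have hΩ' : 3 ≤ Nat.card Ω := by rwa [Nat.card_eq_fintype_card]
  have key := Pool.Agent.Results.MP_bfcf3a_al.RealClosureEq.result hΩ' G
  ext σ
  rw [Set.mem_ofPred_eq, Set.mem_ofPred_eq, ← real_iff G σ, ← strong_iff G σ, key]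

end Pool.Agent.S02941
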