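import Pool.Statements.S02968
import Pool.Agent.W337.FlatFive

set_option autoImplicit false
open Pool Pool.MP_c1d873_al

namespace Pool.Agent.S02968

/-- The negation of the preceding statement: For every regularity k≥1 (or ∞) and every compact connected smooth n-manifold M (n≥1, boundary allowed) there is a finitely generated group acting faithfully by C^k diffeomorphisms on a compact connected n-manifold N iff N is C^k-diffeomorphic to M. -/
theorem result :
    ¬ (∀ (k : ℕ∞), 1 ≤ k →
  ∀ (n : ℕ) [NeZero n] (M : Type) [TopologicalSpace M] [T2Space M] [CompactSpace M]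
    [ConnectedSpace M] [ChartedSpace (EuclideanHalfSpace n) M]
    [IsManifold (modelWithCornersEuclideanHalfSpace n) ((⊤ : ℕ∞) : WithTop ℕ∞) M],
  ∃ (G : Type) (_ : Group G), Group.FG G ∧
    ∀ (N : Type) [TopologicalSpace N] [T2Space N] [CompactSpace N] [ConnectedSpace N]
      [ChartedSpace (EuclideanHalfSpace n) N]
      [IsManifold (modelWithCornersEuclideanHalfSpace n) ((⊤ : ℕ∞) : WithTop ℕ∞) N],
      ((∃ ρ : G →* Equiv.Perm N, Function.Injective ρ ∧
          ∀ g : G, ContMDiff (modelWithCornersEuclideanHalfSpace n)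
            (modelWithCornersEuclideanHalfSpace n) (k : WithTop ℕ∞) (ρ g)) ↔
        Nonempty (Diffeomorph (modelWithCornersEuclideanHalfSpace n)
          (modelWithCornersEuclideanHalfSpace n) M N (k : WithTop ℕ∞)))) := by
  intro H
  obtain ⟨G, hG, _, hN⟩ := H 1 le_rfl 1 (Set.Icc (0 : ℝ) 1)
  obtain ⟨ρ, hρ, hs⟩ := (hN (Set.Icc (0 : ℝ) 1)).2 ⟨Diffeomorph.refl _ _ _⟩
  obtain ⟨ρ', hρ', hs'⟩ := Pool.Agent.W337.circle_action ρ hρ (fun g => hs g)
  obtain ⟨Φ⟩ := (hN Pool.Agent.W337.Circ).1 ⟨ρ', hρ', fun g => hs' g⟩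
  exact Pool.Agent.W337.no_homeo Φ.toHomeomorph

end Pool.Agent.S02968
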