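import Pool.Statements.S02978
import Pool.Agent.Helper581.Grig.Base

set_option autoImplicit false
open Pool Pool.MP_c3451b_al

namespace Pool.Agent.S02978

open Pool.Agent.Helper581.Grig in
/-- The negation of the preceding statement: In the Grigorchuk group (generated by a, b=(a,c), c=(a,d), d=(1,b) acting on binary sequences), every product set A1...An of finitely generated subgroups is closed in the profinite topology. -/
theorem result :
    ¬ (∀ a b c d : Equiv.Perm (ℕ → Bool),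
      (∀ x j, a x j ≠ x j ↔ j = 0) →
      (∀ x j, b x j ≠ x j ↔ ∃ k, j = k + 1 ∧ x k = false ∧ (∀ i < k, x i = true) ∧ k % 3 ≠ 2) →
      (∀ x j, c x j ≠ x j ↔ ∃ k, j = k + 1 ∧ x k = false ∧ (∀ i < k, x i = true) ∧ k % 3 ≠ 1) →
      (∀ x j, d x j ≠ x j ↔ ∃ k, j = k + 1 ∧ x k = false ∧ (∀ i < k, x i = true) ∧ k % 3 ≠ 0) →
      ∀ G : Subgroup (Equiv.Perm (ℕ → Bool)),
        G = Subgroup.closure ({a, b, c, d} : Set (Equiv.Perm (ℕ → Bool))) →
        ∀ (n : ℕ) (A : Fin n → Subgroup G), (∀ i, (A i).FG) →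
          ∀ g : G, (∀ f : Fin n → G, (∀ i, f i ∈ A i) → (List.ofFn f).prod ≠ g) →
            ∃ N : Subgroup G, N.FiniteIndex ∧
              ∀ f : Fin n → G, (∀ i, f i ∈ A i) → ∀ m ∈ N, (List.ofFn f).prod * m ≠ g) := by
  intro H
  have ha : ∀ x j, Helper581.Grig.a x j ≠ x j ↔ j = 0 := by
    intro x j
    change aF x j ≠ x j ↔ j = 0
    unfold aF
    by_cases h : j = 0
    · simp [h]
    · simp [h]
  have hb : ∀ x j, Helper581.Grig.b x j ≠ x j ↔
      ∃ k, j = k + 1 ∧ x k = false ∧ (∀ i < k, x i = true) ∧ k % 3 ≠ 2 := by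
    intro x j
    exact gp_spec 0 x j
  have hc : ∀ x j, Helper581.Grig.c x j ≠ x j ↔
      ∃ k, j = k + 1 ∧ x k = false ∧ (∀ i < k, x i = true) ∧ k % 3 ≠ 1 := by
    intro x j
    refine (gp_spec 1 x j).trans (exists_congr fun k => ?_)
    have : (k + 1) % 3 ≠ 2 ↔ k % 3 ≠ 1 := by omega
    rw [this]
  have hd : ∀ x j, Helper581.Grig.d x j ≠ x j ↔
      ∃ k, j = k + 1 ∧ x k = false ∧ (∀ i < k, x i = true) ∧ k % 3 ≠ 0 := by
    intro x j
    refine (gp_spec 2 x j).trans (exists_congr fun k => ?_)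
    have : (k + 2) % 3 ≠ 2 ↔ k % 3 ≠ 0 := by omega
    rw [this]
  obtain ⟨N, hN, hN2⟩ := H Helper581.Grig.a Helper581.Grig.b Helper581.Grig.c Helper581.Grig.d
    ha hb hc hd G rfl 2 ![A1, A2] (by
      intro i
      fin_cases i
      · exact A1_fg
      · exact A2_fg) g0 (by
      intro f hf he
      have h0 := hf 0
      have h1 := hf 1
      have he' : f 0 * f 1 = g0 := by
        rw [← he]; simp [List.ofFn_succ]
      exact g0_not_mem (f 0) h0 (f 1) h1 he')
  obtain ⟨x, hx, y, hy, m, hm, e⟩ := g0_mem_closure N hN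
  refine hN2 ![x, y] (by
    intro i
    fin_cases i
    · exact hx
    · exact hy) m hm ?_
  rw [← e]
  simp [List.ofFn_succ]

end Pool.Agent.S02978
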