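import Pool.Statements.S03064
import Pool.Agent.Results.MP_cbb20d_al.EveryPrime

set_option autoImplicit false
open Pool Pool.MP_cbb20d_al

namespace Pool.Agent.S03064

/-- The negation of the preceding statement: For every prime p and k ≥ 1 there is m ≥ 1 such that for all n ≥ 1, any A, B in GL_n(p-adic integers) with AB ≡ BA mod p^m are congruent mod p^k to some commuting A', B' in GL_n(p-adic integers). -/
theorem result :
    ¬ (∀ (p : ℕ) [Fact p.Prime], ∀ k : ℕ, 1 ≤ k → ∃ m : ℕ, 1 ≤ m ∧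
      ∀ n : ℕ, 1 ≤ n → ∀ A B : Matrix.GeneralLinearGroup (Fin n) (PadicInt p),
        (∀ i j, (p : PadicInt p) ^ m ∣ (A.val * B.val - B.val * A.val) i j) →
        ∃ A' B' : Matrix.GeneralLinearGroup (Fin n) (PadicInt p),
          A' * B' = B' * A' ∧
          (∀ i j, (p : PadicInt p) ^ k ∣ (A.val - A'.val) i j) ∧
          (∀ i j, (p : PadicInt p) ^ k ∣ (B.val - B'.val) i j)) := by
  intro h
  haveI : Fact (Nat.Prime 2) := ⟨Nat.prime_two⟩
  obtain ⟨m, hm, h⟩ := h 2 2 (by norm_num)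
  obtain ⟨n, A, B, hA, hB, hcomm, hno⟩ :=
    Pool.Agent.Results.MP_cbb20d_al.EveryPrime.result 2 m
  have hn : 1 ≤ n := by
    rcases Nat.eq_zero_or_pos n with h0 | h0
    · subst h0
      exact absurd ⟨A, A, rfl, fun i => i.elim0, fun i => i.elim0⟩ hno
    · exact h0
  obtain ⟨A', B', h1, h2, h3⟩ := h n hn hA.unit hB.unit (fun i j => hcomm i j)
  refine hno ⟨A'.val, B'.val, ?_, fun i j => h2 i j, fun i j => h3 i j⟩
  have h4 := congrArg Units.val h1
  simpa using h4

end Pool.Agent.S03064
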