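import Pool.Statements.S03133
import Pool.Agent.W434.BW.AsmMain

set_option autoImplicit false
open Pool Pool.MP_d14a7e_al

namespace Pool.Agent.S03133

/-- On a finite set, two clones that are each minimal among clones with idempotent linked 3- and 4-ary weak near-unanimity operations (bounded width), and that preserve exactly the same binary relations, are equal. -/
theorem result :
    ∀ (n : ℕ)
      (IsClone : (∀ k : ℕ, Set ((Fin k → Fin n) → Fin n)) → Prop)
      (BW : (∀ k : ℕ, Set ((Fin k → Fin n) → Fin n)) → Prop)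
      (Inv2 : (∀ k : ℕ, Set ((Fin k → Fin n) → Fin n)) → Set (Fin n × Fin n) → Prop),
      (∀ E : ∀ k : ℕ, Set ((Fin k → Fin n) → Fin n),
        IsClone E ↔
          ((∀ (k : ℕ) (i : Fin k), (fun x : Fin k → Fin n => x i) ∈ E k) ∧
           (∀ (k m : ℕ) (f : (Fin k → Fin n) → Fin n) (g : Fin k → (Fin m → Fin n) → Fin n),
              f ∈ E k → (∀ i, g i ∈ E m) →
              (fun x : Fin m → Fin n => f (fun i => g i x)) ∈ E m))) →
      (∀ E : ∀ k : ℕ, Set ((Fin k → Fin n) → Fin n),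
        BW E ↔
          ∃ v ∈ E 3, ∃ w ∈ E 4,
            (∀ a : Fin n, v ![a, a, a] = a) ∧
            (∀ a : Fin n, w ![a, a, a, a] = a) ∧
            (∀ x y : Fin n, v ![y, x, x] = v ![x, y, x] ∧ v ![x, y, x] = v ![x, x, y]) ∧
            (∀ x y : Fin n, w ![y, x, x, x] = w ![x, y, x, x] ∧
                w ![x, y, x, x] = w ![x, x, y, x] ∧ w ![x, x, y, x] = w ![x, x, x, y]) ∧
            (∀ x y : Fin n, v ![y, x, x] = w ![y, x, x, x])) →
      (∀ (E : ∀ k : ℕ, Set ((Fin k → Fin n) → Fin n)) (R : Set (Fin n × Fin n)),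
        Inv2 E R ↔
          ∀ (k : ℕ) (f : (Fin k → Fin n) → Fin n), f ∈ E k →
            ∀ x y : Fin k → Fin n, (∀ i, (x i, y i) ∈ R) → (f x, f y) ∈ R) →
      ∀ C D : ∀ k : ℕ, Set ((Fin k → Fin n) → Fin n),
        (IsClone C ∧ BW C ∧
          ∀ F : ∀ k : ℕ, Set ((Fin k → Fin n) → Fin n),
            IsClone F → BW F → (∀ k, F k ⊆ C k) → F = C) →
        (IsClone D ∧ BW D ∧
          ∀ F : ∀ k : ℕ, Set ((Fin k → Fin n) → Fin n),
            IsClone F → BW F → (∀ k, F k ⊆ D k) → F = D) →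
        (∀ R : Set (Fin n × Fin n), Inv2 C R ↔ Inv2 D R) →
        C = D := by
  intro n IsClone BW Inv2 hcl hbw hinv C D hC hD hCD
  have hMC : Pool.Agent.W434.BW.MinBW C := by
    refine ⟨(hcl C).1 hC.1, (hbw C).1 hC.2.1, fun F h1 h2 h3 => ?_⟩
    exact hC.2.2 F ((hcl F).2 h1) ((hbw F).2 h2) h3
  have hMD : Pool.Agent.W434.BW.MinBW D := by
    refine ⟨(hcl D).1 hD.1, (hbw D).1 hD.2.1, fun F h1 h2 h3 => ?_⟩
    exact hD.2.2 F ((hcl F).2 h1) ((hbw F).2 h2) h3
  refine Pool.Agent.W434.BW.aMain (Fin n) C D hMC hMD (fun R => ?_)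
  exact (hinv C R).symm.trans ((hCD R).trans (hinv D R))

end Pool.Agent.S03133
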