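import Pool.Statements.S03148
import Pool.Agent.W449.Rec
import Pool.Agent.W449.Walk

/-!
The module is `M = (Ω k ⊕ Ω⁻¹ k) ⊗ (Ω k ⊕ Ω⁻¹ k)` for the Klein four group over the field with two
elements.  Its core dimensions satisfy `c 0 = 1`, `c (n+1) = 4 c n + 8 * centralBinom n`, so their
generating series `F` satisfies `(1 - 4t) F = 1 + 8 t / sqrt (1 - 4t)` and is not rational.
-/

set_option autoImplicit false
open CategoryTheory CategoryTheory.MonoidalCategory CategoryTheory.Limits
open Pool Pool.MP_d25222_al

namespace Pool.Agent.S03148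

/-- The negation of the preceding statement: Take a finite group G, a field k of prime characteristic, and a finite-dimensional kG-module M. Let c_n be the dimension of the non-projective part of the n-th tensor power of M. Then the series sum c_n t^n is a rational function: a nonzero polynomial times it is a polynomial. -/
theorem result :
    ¬ (∀ (p : ℕ) (k : Type) [Field k] [CharP k p], p.Prime →
      ∀ (G : Type) [Group G] [Finite G] (M : Rep k G), FiniteDimensional k M.V →
        ∃ P Q : Polynomial ℚ, Q ≠ 0 ∧
          (Q : PowerSeries ℚ) *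
              PowerSeries.mk (fun n : ℕ =>
                ((sInf {d : ℕ | ∃ N P' : Rep k G, Projective P' ∧
                    Nonempty ((fun X : Rep k G => X ⊗ M)^[n] (𝟙_ (Rep k G)) ≅ N ⊞ P') ∧
                    Module.finrank k N.V = d} : ℕ) : ℚ)) =
            (P : PowerSeries ℚ)) := by
  intro H
  have hfin : FiniteDimensional Pool.Agent.W449.Klein.F2 Pool.Agent.W449.Klein.M.V := inferInstance
  obtain ⟨P, Q, hQ, h⟩ := H 2 Pool.Agent.W449.Klein.F2 Nat.prime_two Pool.Agent.W449.Klein.V4
    Pool.Agent.W449.Klein.M hfin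
  refine Pool.Agent.W449.Walk.not_rational P Q hQ ?_
  rw [← h]
  congr 1
  ext n
  rw [Pool.Agent.W449.Walk.F, PowerSeries.coeff_mk, PowerSeries.coeff_mk]
  have h1 := Pool.Agent.W449.Klein.core_eq n
  rw [Pool.Agent.W449.Walk.iterate_eq Pool.Agent.W449.Klein.T (fun _ _ => rfl)] at h1
  have h2 : Pool.Agent.W449.Walk.c n =
      ((Pool.Agent.W449.Walk.S + Pool.Agent.W449.Walk.S') ^ (2 * n)) (fun m => 2 * |m| + 1) 0 := rfl
  rw [h2, ← h1]
  norm_cast

end Pool.Agent.S03148
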