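import Pool.Statements.S03150
import Pool.Agent.Results.MP_d25c28_al.NotAllFinite

set_option autoImplicit false
open Pool Pool.MP_d25c28_al

namespace Pool.Agent.S03150

open Pool.Agent.Results.MP_d25c28_al.NotAllFinite in
theorem cmType_le (Γ : AddSubmonoid ℕ) (hfin : IsNumericalSemigroup Γ) (B : ℕ)
    (h : {x : ℕ | x ∉ (Γ : Set ℕ) ∧ ∀ s ∈ (Γ : Set ℕ), s ≠ 0 → x + s ∈ (Γ : Set ℕ)}.ncard ≤ B) :
    cmType Γ ≤ ((B + 1 : ℕ) : ℕ∞) := by
  classical
  set A : Set ℕ := {x : ℕ | x ∉ (Γ : Set ℕ) ∧ ∀ s ∈ (Γ : Set ℕ), s ≠ 0 → x + s ∈ (Γ : Set ℕ)}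
    with hA
  have hAfin : A.Finite := hfin.subset (fun x hx => hx.1)
  -- a nonzero element exists
  have hex : ∃ m, m ∈ Γ ∧ m ≠ 0 := by
    by_contra hcon
    push Not at hcon
    have h1 : (Set.Ici 1 : Set ℕ) ⊆ ((Γ : Set ℕ)ᶜ) := by
      intro x hx hxG
      have := hcon x hxG
      simp at hx
      omega
    exact (Set.infinite_of_injective_forall_mem (f := fun n : ℕ => n + 1)
      (fun a b hab => by simpa using hab) (fun n => h1 (by simp))) hfin
  set m := Nat.find hex with hm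
  have hmG : m ∈ Γ := (Nat.find_spec hex).1
  have hm0 : m ≠ 0 := (Nat.find_spec hex).2
  have hmin : ∀ k, k ∈ Γ → k < m → k = 0 := by
    intro k hk hkm
    by_contra h0
    exact Nat.find_min hex hkm ⟨hk, h0⟩
  have hsub : {x : ℤ | IsPF Γ x} ⊆ ((fun n : ℕ => (n : ℤ)) '' A) ∪ {-(m : ℤ)} := by
    intro x hx
    obtain ⟨hx1, hx2⟩ := hx
    by_cases hneg : x < 0
    · right
      obtain ⟨k, hk, hkx⟩ := hx2 m hmG hm0
      have : k = 0 := hmin k hk (by omega)
      simp only [Set.mem_singleton_iff]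
      omega
    · left
      refine ⟨x.toNat, ⟨?_, ?_⟩, ?_⟩
      · intro hxG
        exact hx1 ⟨x.toNat, hxG, by omega⟩
      · intro s hs hs0
        obtain ⟨k, hk, hkx⟩ := hx2 s hs hs0
        have : k = x.toNat + s := by omega
        rw [← this]
        exact hk
      · simp only
        omega
  have h1 : cmType Γ ≤ A.encard + 1 := by
    calc cmType Γ ≤ (((fun n : ℕ => (n : ℤ)) '' A) ∪ {-(m : ℤ)}).encard := Set.encard_le_encard hsub
      _ ≤ ((fun n : ℕ => (n : ℤ)) '' A).encard + ({-(m : ℤ)} : Set ℤ).encard :=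
        Set.encard_union_le _ _
      _ ≤ A.encard + 1 := by
        gcongr
        · exact Set.encard_image_le _ _
        · simp
  have h2 : A.encard ≤ (B : ℕ∞) := by
    rw [← hAfin.cast_ncard_eq]
    exact_mod_cast h
  calc cmType Γ ≤ A.encard + 1 := h1
    _ ≤ (B : ℕ∞) + 1 := by gcongr
    _ = ((B + 1 : ℕ) : ℕ∞) := by push_cast; rfl

open Pool.Agent.Results.MP_d25c28_al.NotAllFinite in
/-- The negation of the preceding statement: For every e there is a bound B such that every almost symmetric numerical semigroup with e minimal generators has at most B pseudo-Frobenius numbers, i.e. type at most B. -/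
theorem result :
    ¬ (∀ e : ℕ, ∃ B : ℕ, ∀ S : Set ℕ,
      0 ∈ S →
      (∀ a ∈ S, ∀ b ∈ S, a + b ∈ S) →
      Sᶜ.Finite →
      (∀ f : ℕ, f ∉ S → (∀ y : ℕ, f < y → y ∈ S) →
        ∀ x : ℕ, x ≤ f → x ∉ S → f - x ∉ S →
          ∀ s ∈ S, s ≠ 0 → x + s ∈ S) →
      {s : ℕ | s ∈ S ∧ s ≠ 0 ∧ ¬ ∃ a ∈ S, ∃ b ∈ S, a ≠ 0 ∧ b ≠ 0 ∧ a + b = s}.ncard = e →
      {x : ℕ | x ∉ S ∧ ∀ s ∈ S, s ≠ 0 → x + s ∈ S}.ncard ≤ B) := by
  intro hall
  obtain ⟨B, hB⟩ := hall 8
  have hsup : supType 8 ≤ ((B + 1 : ℕ) : ℕ∞) := by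
    unfold supType
    refine iSup₂_le ?_
    rintro Γ ⟨hnum, has, hed⟩
    refine cmType_le Γ hnum B ?_
    refine hB (Γ : Set ℕ) Γ.zero_mem (fun a ha b hb => Γ.add_mem ha hb) hnum ?_ ?_
    · intro f hf hlt x hxf hx hfx s hs hs0
      have hfrob : frob Γ = (f : ℤ) := by
        unfold frob
        apply IsGreatest.csSup_eq
        constructor
        · rintro ⟨n, hn, hnf⟩
          have : n = f := by exact_mod_cast hnf
          exact hf (this ▸ hn)
        · intro y hy
          by_contra hcon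
          push Not at hcon
          apply hy
          refine ⟨y.toNat, hlt _ (by omega), by omega⟩
      have hxM : ¬ Mem Γ (x : ℤ) := by
        rintro ⟨n, hn, hnx⟩
        have : n = x := by exact_mod_cast hnx
        exact hx (this ▸ hn)
      rcases has x hxM with h1 | h1
      · exfalso
        rw [hfrob] at h1
        obtain ⟨n, hn, hnx⟩ := h1
        have : n = f - x := by omega
        exact hfx (this ▸ hn)
      · obtain ⟨n, hn, hnx⟩ := h1.1.2 s hs hs0
        have : n = x + s := by omega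
        exact this ▸ hn
    · have h1 : minGens Γ = {s : ℕ | s ∈ (Γ : Set ℕ) ∧ s ≠ 0 ∧
          ¬ ∃ a ∈ (Γ : Set ℕ), ∃ b ∈ (Γ : Set ℕ), a ≠ 0 ∧ b ≠ 0 ∧ a + b = s} := by
        ext s
        constructor
        · rintro ⟨h1, h2, h3⟩
          refine ⟨h1, h2, ?_⟩
          rintro ⟨a, ha, b, hb, ha0, hb0, hab⟩
          rcases h3 a ha b hb hab with h | h
          · exact ha0 h
          · exact hb0 h
        · rintro ⟨h1, h2, h3⟩
          refine ⟨h1, h2, ?_⟩
          intro a ha b hb hab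
          by_contra hcon
          rw [not_or] at hcon
          exact h3 ⟨a, ha, b, hb, hcon.1, hcon.2, hab⟩
      rw [← h1]
      unfold edim at hed
      rw [Set.ncard_def, hed]
      rfl
  rw [main 8 le_rfl] at hsup
  exact (ENat.coe_ne_top _) (top_le_iff.mp hsup)

end Pool.Agent.S03150
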