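import Pool.Statements.S03152
import Pool.Agent.W986.DW.Final
-- import your own Pool.Agent.* helpers here

set_option autoImplicit false
open Pool Pool.MP_d25f3a_al

namespace Pool.Agent.S03152

/-- The negation of the preceding statement: For every finite alphabet, nonempty word w and n>1, solvability of finite systems of equations with constants in the monoid ⟨A ∣ w^n = 1⟩ is a computable (decidable) property of the system. -/
theorem result :
    ¬ (∀ k : ℕ, ∀ w : List (Fin k), ∀ n : ℕ, w ≠ [] → 1 < n →
      ComputablePred
        (fun S : List (List (Fin k ⊕ ℕ) × List (Fin k ⊕ ℕ)) =>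
          ∃ σ : ℕ → (conGen (fun a b : FreeMonoid (Fin k) =>
                        a = (FreeMonoid.ofList w) ^ n ∧ b = 1)).Quotient,
            ∀ e ∈ S,
              (e.1.map (Sum.elim
                  (fun a : Fin k => ((FreeMonoid.of a : FreeMonoid (Fin k)) :
                    (conGen (fun a b : FreeMonoid (Fin k) =>
                        a = (FreeMonoid.ofList w) ^ n ∧ b = 1)).Quotient)) σ)).prod
              =
              (e.2.map (Sum.elim
                  (fun a : Fin k => ((FreeMonoid.of a : FreeMonoid (Fin k)) :
                    (conGen (fun a b : FreeMonoid (Fin k) =>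
                        a = (FreeMonoid.ofList w) ^ n ∧ b = 1)).Quotient)) σ)).prod)) := by
  intro h
  exact Pool.Agent.W986.DW.satM_not_computable
    (h 4 Pool.Agent.W986.DW.w 2 (by decide) (by norm_num))

end Pool.Agent.S03152
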