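import Pool.Statements.S03155
import Pool.Agent.W439.SDx

set_option autoImplicit false
open Pool Pool.MP_d2f293_al

namespace Pool.Agent.S03155

/-- Every finite-dimensional algebra over a field that is wild (has a representation embedding of k<x,y>-modules via a bimodule free of finite rank over k<x,y>) has a nonzero pure-injective module with no indecomposable direct summand. -/
theorem result :
    ∀ (k : Type) [Field k] (A : Type) [Ring A] [Algebra k A] [FiniteDimensional k A],
      (∃ n : ℕ, ∃ φ : A →ₐ[k] Matrix (Fin n) (Fin n) (FreeAlgebra k (Fin 2)),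
        (∀ (m : ℕ) (X Y : Matrix (Fin m) (Fin m) k),
          (0 < m ∧ ∀ E : Matrix (Fin m) (Fin m) k,
              E * E = E → E * X = X * E → E * Y = Y * E → E = 0 ∨ E = 1) →
          (Nonempty (Fin n × Fin m) ∧
            ∀ E : Matrix (Fin n × Fin m) (Fin n × Fin m) k, E * E = E →
              (∀ a : A, E * Matrix.of (fun (p : Fin n × Fin m) (q : Fin n × Fin m) =>
                    FreeAlgebra.lift k ![X, Y] (φ a p.1 q.1) p.2 q.2) =
                  Matrix.of (fun (p : Fin n × Fin m) (q : Fin n × Fin m) =>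
                    FreeAlgebra.lift k ![X, Y] (φ a p.1 q.1) p.2 q.2) * E) →
              E = 0 ∨ E = 1)) ∧
        (∀ (m : ℕ) (X Y X' Y' : Matrix (Fin m) (Fin m) k),
          (∃ P : Matrix (Fin n × Fin m) (Fin n × Fin m) k, IsUnit P ∧
            ∀ a : A, P * Matrix.of (fun (p : Fin n × Fin m) (q : Fin n × Fin m) =>
                  FreeAlgebra.lift k ![X, Y] (φ a p.1 q.1) p.2 q.2) =
                Matrix.of (fun (p : Fin n × Fin m) (q : Fin n × Fin m) =>
                  FreeAlgebra.lift k ![X', Y'] (φ a p.1 q.1) p.2 q.2) * P) →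
          ∃ Q : Matrix (Fin m) (Fin m) k, IsUnit Q ∧ Q * X = X' * Q ∧ Q * Y = Y' * Q)) →
      ∃ (M : Type) (_ : AddCommGroup M) (_ : Module A M),
        (∀ (N P : Type) [AddCommGroup N] [Module A N] [AddCommGroup P] [Module A P]
            (f : N →ₗ[A] P),
            (Function.Injective f ∧
              ∀ (p q : ℕ) (r : Matrix (Fin p) (Fin q) A) (b : Fin p → N),
                (∃ y : Fin q → P, ∀ i, ∑ j, r i j • y j = f (b i)) →
                ∃ x : Fin q → N, ∀ i, ∑ j, r i j • x j = b i) →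
            ∀ g : N →ₗ[A] M, ∃ h : P →ₗ[A] M, h ∘ₗ f = g) ∧
        Nontrivial M ∧
        ∀ U : Submodule A M, (∃ V : Submodule A M, IsCompl U V) → U ≠ ⊥ →
          ∃ U₁ U₂ : Submodule A M, U₁ ≠ ⊥ ∧ U₂ ≠ ⊥ ∧ U₁ ⊓ U₂ = ⊥ ∧ U₁ ⊔ U₂ = U := by
  intro k _ A _ _ _ ⟨n, φ, hφ, _⟩
  classical
  obtain ⟨K, A0, iK, iKk, iA0, iKA0, D, hcount, hD, hrat⟩ :=
    Pool.Agent.W439.exists_form k A (fun a => φ a)
  have hfin : Module.Finite K A0 := Module.Finite.of_basis D.c
  obtain ⟨B, B1, B2, B3⟩ := Pool.Agent.W439.wildB D φ hφ hrat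
  obtain ⟨H, iH1, iH2, hAC, hnt, hI⟩ := Pool.Agent.W439.exists_SD D hD B B1 B2 B3
  refine ⟨H, iH1, iH2, ?_, hnt, ?_⟩
  · rintro N P _ _ _ _ f ⟨-, hf⟩ g
    obtain ⟨h, hh⟩ := Pool.Agent.Helper232.RZ.ac_pi hAC N P f (by
      rintro m ψ x ⟨y, hy⟩
      obtain ⟨z, hz⟩ := hf ψ.m ψ.p (fun i j => ψ.B i j) (fun i => - ∑ j, ψ.A i j • x j)
        ⟨y, fun i => by
          rw [map_neg, map_sum]
          simp only [map_smul]
          exact eq_neg_of_add_eq_zero_right (hy i)⟩
      refine ⟨z, fun i => ?_⟩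
      rw [hz i]
      exact add_neg_cancel _) g
    exact ⟨h, LinearMap.ext hh⟩
  · rintro U ⟨V, hUV⟩ hU
    have h1 := hI U V hUV
    have h2 : Nontrivial U := Submodule.nontrivial_iff_ne_bot.2 hU
    have h3 : ∃ P Q : Submodule A U, IsCompl P Q ∧ P ≠ ⊥ ∧ Q ≠ ⊥ := by
      by_contra hcon
      push Not at hcon
      apply h1
      refine ⟨h2, fun P Q hPQ => ?_⟩
      by_cases hP : P = ⊥
      · exact Or.inl hP
      · exact Or.inr (hcon P Q hPQ hP)
    obtain ⟨P, Q, hPQ, hP, hQ⟩ := h3
    have hinj : Function.Injective U.subtype := Submodule.injective_subtype U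
    refine ⟨P.map U.subtype, Q.map U.subtype, ?_, ?_, ?_, ?_⟩
    · intro h
      exact hP (Submodule.map_injective_of_injective hinj (h.trans (Submodule.map_bot _).symm))
    · intro h
      exact hQ (Submodule.map_injective_of_injective hinj (h.trans (Submodule.map_bot _).symm))
    · rw [← Submodule.map_inf _ hinj, hPQ.inf_eq_bot, Submodule.map_bot]
    · rw [← Submodule.map_sup, hPQ.sup_eq_top, Submodule.map_top, Submodule.range_subtype]

end Pool.Agent.S03155
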