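-- The groups: let O be the ring of functions on {1,-1}^k, with values modulo 2^(k+3), generated by the
-- coordinate characters, and R the 3 by 3 matrices over O.  The group is the congruence subgroup 1 + 4R
-- extended by {1,-1}^k acting by translations.  See the files Pool/Agent/W370/DMax*.
import Pool.Statements.S03172
import Pool.Agent.W370.DMaxFam

set_option autoImplicit false
open Pool Pool.MP_d40034_al

namespace Pool.Agent.S03172

/-- The negation of the preceding statement: There is a natural number n such that every finite 2-group G in which every proper subgroup needs fewer generators than G has derived length at most n. -/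
theorem result :
    ¬ (∃ n : ℕ, ∀ (G : Type) [Group G] [Finite G], IsPGroup 2 G →
      (∀ H : Subgroup G, H ≠ ⊤ → Group.rank H < Group.rank G) →
      derivedSeries G n = ⊥) := by
  rintro ⟨n, h⟩
  obtain ⟨G, i1, i2, h1, h2, h3⟩ := Pool.Agent.W370.final n
  exact h3 (h G h1 h2)

end Pool.Agent.S03172
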