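import Pool.Statements.S03307
import Pool.Agent.Results.MP_e05d43_al.OmegaFull

set_option autoImplicit false
open scoped Pointwise
open Filter Topology
open Pool Pool.MP_e05d43_al

namespace Pool.Agent.S03307

/-- Every real r ≥ 1 is the exponential growth rate lim β(k)^(1/k) of some group with respect to some finite generating set S, where β(k) counts elements of word length at most k over S and its inverses. -/
theorem result :
    ∀ r : ℝ, 1 ≤ r →
      ∃ (Γ : Type) (_ : Group Γ) (S : Set Γ),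
        S.Finite ∧ Subgroup.closure S = ⊤ ∧
        Tendsto
          (fun k : ℕ =>
            ((((insert (1 : Γ) (S ∪ S⁻¹) : Set Γ) ^ k).ncard : ℝ) ^ ((1 : ℝ) / (k : ℝ))))
          atTop (𝓝 r) := by
  intro r hr
  have h : r ∈ Pool.Agent.Results.MP_e05d43_al.OmegaFull.growthRates := by
    rw [Pool.Agent.Results.MP_e05d43_al.OmegaFull.result]
    exact hr
  obtain ⟨Γ, inst, S, hS, hlim⟩ := h
  refine ⟨Γ, inst, (S : Set Γ), S.finite_toSet, hS, ?_⟩
  refine hlim.congr (fun k => ?_)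
  have h1 : (Pool.Agent.Results.MP_e05d43_al.OmegaFull.growthFn Γ S k) =
      ({g : Γ | ∃ l : List Γ, l.length ≤ k ∧ (∀ a ∈ l, a ∈ S ∨ a⁻¹ ∈ S) ∧ l.prod = g}).ncard := rfl
  rw [h1, Pool.Agent.Results.MP_e05d43_al.OmegaFull.growth_set_eq]
  have h2 : ((S : Set Γ) ∪ (S : Set Γ)⁻¹ ∪ {1}) = insert (1 : Γ) ((S : Set Γ) ∪ (S : Set Γ)⁻¹) := by
    rw [Set.union_singleton]
  rw [h2]

end Pool.Agent.S03307
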