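import Pool.Statements.S03348
import Pool.Agent.W408.SR.Ring2

set_option autoImplicit false
open Pool Pool.MP_e2c23f_al

namespace Pool.Agent.S03348

/-- The negation of the preceding statement: If a ring with involution is regular with proper involution and has a nonzero ideal inside every nonzero ideal, and each corner eRe is unit-regular for projections e in it, then the ring is unit-regular. -/
theorem result :
    ¬ (∀ (R : Type) [Ring R] [StarRing R],
      (∀ a : R, ∃ x : R, a = a * x * a) →
      (∀ x : R, star x * x = 0 → x = 0) →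
      ∀ M : TwoSidedIdeal R, M ≠ ⊥ →
        (∀ I : TwoSidedIdeal R, I ≠ ⊥ → M ≤ I) →
        (∀ e : R, e ∈ M → star e = e → e * e = e →
          ∀ a : R, e * a * e = a →
            ∃ u v : R, e * u * e = u ∧ e * v * e = v ∧ u * v = e ∧ v * u = e ∧
              a = a * u * a) →
        ∀ a : R, ∃ u : Rˣ, a = a * (u : R) * a) := by
  intro h
  obtain ⟨u, hu⟩ := h Pool.Agent.W408.SR.RR
    (fun a => (Pool.Agent.W408.SR.RR_regular a).imp fun _ hx => hx.symm)
    Pool.Agent.W408.SR.RR_proper (TwoSidedIdeal.span {Pool.Agent.W408.SR.pR})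
    (by
      intro h0
      have h1 : Pool.Agent.W408.SR.pR ∈ TwoSidedIdeal.span {Pool.Agent.W408.SR.pR} :=
        TwoSidedIdeal.subset_span rfl
      rw [h0, TwoSidedIdeal.mem_bot] at h1
      exact Pool.Agent.W408.SR.pR_ne h1)
    (by
      intro I hI
      rw [TwoSidedIdeal.span_le]
      rintro _ rfl
      obtain ⟨x, hx, hx0⟩ : ∃ x ∈ I, x ≠ 0 := by
        by_contra hc
        push Not at hc
        apply hI
        ext x
        rw [TwoSidedIdeal.mem_bot]
        exact ⟨hc x, fun h1 => by rw [h1]; exact I.zero_mem⟩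
      exact Pool.Agent.W408.SR.pR_mem I x hx hx0)
    (fun e he _ hee a ha => Pool.Agent.W408.SR.RR_corner e he hee a ha)
    Pool.Agent.W408.SR.yR
  exact Pool.Agent.W408.SR.yR_not u hu.symm

end Pool.Agent.S03348
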