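import Pool.Statements.S03373
import Pool.Agent.Results.MP_e563b5_al.IntermediateRatio

set_option autoImplicit false
open Pool Pool.MP_e563b5_al

namespace Pool.Agent.S03373

/-- There is a group with a finite generating set S whose ball sizes β(k) over S and inverses satisfy β(k)^(1/k) → 1, are not polynomially bounded, and have β(k+1)/β(k) → 1. -/
theorem result :
  ∃ (G : Type) (inst : Group G) (S : Finset G) (β : ℕ → ℕ),
    Subgroup.closure (S : Set G) = ⊤ ∧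
    (∀ k : ℕ, β k = Set.ncard {g : G | ∃ l : List G, l.length ≤ k ∧
        (∀ x ∈ l, x ∈ S ∨ x⁻¹ ∈ S) ∧ l.prod = g}) ∧
    Filter.Tendsto (fun k : ℕ => ((β k : ℝ)) ^ ((1 : ℝ) / (k : ℝ))) Filter.atTop (nhds 1) ∧
    (¬ ∃ (C : ℝ) (d : ℕ), ∀ k : ℕ, 1 ≤ k → (β k : ℝ) ≤ C * (k : ℝ) ^ d) ∧
    Filter.Tendsto (fun k : ℕ => (β (k + 1) : ℝ) / (β k : ℝ)) Filter.atTop (nhds 1) := by
  obtain ⟨G, inst, S, h1, h2, h3, h4⟩ :=
    Pool.Agent.Results.MP_e563b5_al.IntermediateRatio.result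
  refine ⟨G, inst, S,
    Pool.Agent.Results.MP_e563b5_al.IntermediateRatio.ballSize G S, h1, ?_, h2, ?_, h4⟩
  · intro k
    rfl
  · rintro ⟨C, d, h⟩
    apply h3
    refine ⟨C, (d : ℝ), fun k hk => ?_⟩
    rw [Real.rpow_natCast]
    exact h k hk

end Pool.Agent.S03373
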