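-- Proof of statement S03562.
import Pool.Statements.S03562
import Pool.Agent.W451.FusionAux

set_option autoImplicit false
open CategoryTheory CategoryTheory.Limits MonoidalCategory
open scoped MonoidalCategory
open Pool Pool.MP_f5ca18_al

namespace Pool.Agent.S03562

/-- The negation of the preceding statement: Some real a is a limit from above of Frobenius–Perron dimensions: for every ε>0 some object of some complex fusion category has FP dimension strictly between a and a+ε. -/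
theorem result :
    ¬ (∃ a : ℝ, ∀ ε : ℝ, 0 < ε → ∃ x : ℝ, a < x ∧ x < a + ε ∧
      ∃ (C : Type) (_ : Category.{0} C) (_ : Abelian C) (_ : Linear ℂ C)
        (_ : MonoidalCategory C) (_ : MonoidalPreadditive C) (_ : MonoidalLinear ℂ C)
        (_ : RigidCategory C) (n : ℕ) (S : Fin n → C),
        (∀ X Y : C, FiniteDimensional ℂ (X ⟶ Y)) ∧
        Simple (𝟙_ C) ∧
        (∀ i, Simple (S i)) ∧
        (∀ i j, Nonempty (S i ≅ S j) → i = j) ∧
        (∀ Y : C, Simple Y → ∃ i, Nonempty (Y ≅ S i)) ∧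
        (∀ (X Y : C) (f : Y ⟶ X), Mono f → ∃ g : X ⟶ Y, f ≫ g = 𝟙 Y) ∧
        ∃ (d : Fin n → ℝ) (X : C),
          (∀ i, 0 < d i) ∧
          (∀ i j, d i * d j = ∑ k, (Module.finrank ℂ (S k ⟶ S i ⊗ S j) : ℝ) * d k) ∧
          x = ∑ i, (Module.finrank ℂ (S i ⟶ X) : ℝ) * d i) := by
  rintro ⟨a, ha⟩
  obtain ⟨ε, hε, hgap⟩ := Pool.Agent.Helper781.CycHouse.house_gap a
  obtain ⟨x, hx1, hx2, C, _, _, _, _, _, _, _, n, S, hfd, hu, hsimp, hinj, hcomp, hsplit, d, X,
    hpos, hmul, hx⟩ := ha ε hε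
  have hfd' : ∀ X Y : C, FiniteDimensional ℂ (X ⟶ Y) := hfd
  have hS : Pool.Agent.Helper781.Fusion.IsSimpleList S := ⟨hsimp, hinj, hcomp⟩
  have hC : Pool.Agent.Helper781.Fusion.IsFusionCategory C :=
    { finiteDimensional_hom := hfd
      semisimple := fun X => Pool.Agent.W451.FusionAux.exists_bicone hsplit X
      finitely_many_simples := ⟨n, S, hcomp⟩
      simple_unit := hu }
  have dec : ∀ Z, Pool.Agent.Helper781.Fusion.Dec S Z := fun Z =>
    (Pool.Agent.Helper781.Fusion.exists_dec hS hC.semisimple Z).some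
  have hne : Nonempty (Fin n) := ⟨(hcomp _ hu).choose⟩
  have hpf := Pool.Agent.W451.FusionAux.isPF_of_char dec hS d hpos hmul X
  rw [← hx] at hpf
  have hcyc := Pool.Agent.Helper781.Fusion.fpdim_cyclotomic hC X x ⟨n, S, hS, hpf⟩
  exact hgap x (Pool.Agent.W451.FusionAux.isHouse_of_pf _ x hpf hcyc) ⟨hx1, hx2⟩

end Pool.Agent.S03562
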