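import Pool.Statements.S03597
import Pool.Agent.W417.TensorSquare3

set_option autoImplicit false
open Pool Pool.MP_f8ecd9_al

namespace Pool.Agent.S03597

/-- Over R = k[x_1..x_d]/(x_i^2) with char k = 2, every minimal graded finite free complex P of rank n has total homology of P ⊗_R P of k-dimension at least 2^d · n. -/
theorem result :
    ∀ (k : Type) [Field k] [CharP k 2] (d : ℕ) (I : Ideal (MvPolynomial (Fin d) k)),
      I = Ideal.span (Set.range (fun i : Fin d => (MvPolynomial.X i : MvPolynomial (Fin d) k) ^ 2)) →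
      ∀ (n : ℕ) (D : Matrix (Fin n) (Fin n) (MvPolynomial (Fin d) k ⧸ I)),
        D * D = 0 →
        (∃ deg : Fin n → ℕ, ∀ i j, D i j ≠ 0 → deg j = deg i + 1) →
        (∀ i j, IsNilpotent (D i j)) →
        2 ^ d * n +
            Module.finrank k
              (LinearMap.range
                ((Matrix.mulVecLin
                    (Matrix.kronecker D (1 : Matrix (Fin n) (Fin n) (MvPolynomial (Fin d) k ⧸ I)) +
                      Matrix.kronecker (1 : Matrix (Fin n) (Fin n) (MvPolynomial (Fin d) k ⧸ I)) D)).restrictScalars k))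
          ≤ Module.finrank k
              (LinearMap.ker
                ((Matrix.mulVecLin
                    (Matrix.kronecker D (1 : Matrix (Fin n) (Fin n) (MvPolynomial (Fin d) k ⧸ I)) +
                      Matrix.kronecker (1 : Matrix (Fin n) (Fin n) (MvPolynomial (Fin d) k ⧸ I)) D)).restrictScalars k)) := by
  intro k _ _ d I hI n D hD hdeg hn
  subst hI
  have h2 : (2 : k) = 0 := CharP.cast_eq_zero k 2
  have hf := Pool.Agent.W417.TS.finite_Q (k := k) d
  have : Module.Finite k (MvPolynomial (Fin d) k ⧸ Ideal.span (Set.range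
      (fun i : Fin d => (MvPolynomial.X i : MvPolynomial (Fin d) k) ^ 2))) := hf.1
  have h2' : (2 : MvPolynomial (Fin d) k ⧸ Ideal.span (Set.range
      (fun i : Fin d => (MvPolynomial.X i : MvPolynomial (Fin d) k) ^ 2))) = 0 := by
    have := congrArg (algebraMap k (MvPolynomial (Fin d) k ⧸ Ideal.span (Set.range
      (fun i : Fin d => (MvPolynomial.X i : MvPolynomial (Fin d) k) ^ 2)))) h2
    rwa [map_ofNat, map_zero] at this
  have hm := Pool.Agent.W417.TS.main (k := k) h2' (Pool.Agent.W417.TS.good_Q h2 d) n D hD hdeg hn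
  have hfr : Module.finrank k (MvPolynomial (Fin d) k ⧸ Ideal.span (Set.range
      (fun i : Fin d => (MvPolynomial.X i : MvPolynomial (Fin d) k) ^ 2))) = 2 ^ d := hf.2
  rw [hfr] at hm
  exact hm

end Pool.Agent.S03597
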