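import Pool.Statements.S03634
import Pool.Agent.W416.HW.Example

set_option autoImplicit false
open Pool Pool.MP_fdcc6d_al

namespace Pool.Agent.S03634

/-- The negation of the preceding statement: Over a 1-dim Noetherian local Gorenstein domain (some nonzero x in m has R/xR with 1-dim socle), a finitely generated torsion-free module M with every extension of M by M split (Ext¹(M,M)=0) is free. -/
theorem result :
    ¬ (∀ (R : Type) [CommRing R] [IsDomain R] [IsNoetherianRing R] [IsLocalRing R],
    ringKrullDim R = 1 →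
    (∃ x : R, x ≠ 0 ∧ x ∈ IsLocalRing.maximalIdeal R ∧
      ∀ a b : R,
        (∀ m ∈ IsLocalRing.maximalIdeal R, a * m ∈ Ideal.span ({x} : Set R)) →
        (∀ m ∈ IsLocalRing.maximalIdeal R, b * m ∈ Ideal.span ({x} : Set R)) →
        a ∉ Ideal.span ({x} : Set R) →
        ∃ r : R, b - r * a ∈ Ideal.span ({x} : Set R)) →
    ∀ (M : Type) [AddCommGroup M] [Module R M], Module.Finite R M →
      (∀ (r : R) (m : M), r • m = 0 → r = 0 ∨ m = 0) →
      (∀ (E : Type) [AddCommGroup E] [Module R E] (f : M →ₗ[R] E) (g : E →ₗ[R] M),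
          Function.Injective f → Function.Surjective g →
          LinearMap.range f = LinearMap.ker g →
          ∃ s : M →ₗ[R] E, g.comp s = LinearMap.id) →
      Module.Free R M) := by
  intro H
  exact Pool.Agent.W416.HW.not_free Pool.Agent.W416.HW.dataS
    (H (Pool.Agent.W416.HW.R Pool.Agent.W416.HW.dataS)
      (Pool.Agent.W416.HW.dim_one Pool.Agent.W416.HW.dataS)
      (Pool.Agent.W416.HW.gorenstein Pool.Agent.W416.HW.dataS)
      (Pool.Agent.W416.HW.M Pool.Agent.W416.HW.dataS)
      (Pool.Agent.W416.HW.finiteM Pool.Agent.W416.HW.dataS)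
      (Pool.Agent.W416.HW.torsionFree Pool.Agent.W416.HW.dataS)
      (fun W _ _ f g hf hg hfg =>
        Pool.Agent.W416.HW.ext_split Pool.Agent.W416.HW.dataS W f g hf hg hfg))

end Pool.Agent.S03634
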