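import Pool.Statements.S03690
import Pool.Agent.W747.NT.Sys

set_option autoImplicit false
open Filter
open Pool Pool.MP_0396c7_an

namespace Pool.Agent.S03690

/-- The negation of the preceding statement: Every continuous self-map of a compact metric space that is topologically transitive and has zero sequence entropy along every increasing sequence is mean equicontinuous: nearby points have uniformly small limsup of average orbit distance. -/
theorem result :
    ¬ (∀ (X : Type) [MetricSpace X] [CompactSpace X] (T : X → X), Continuous T →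
      (∀ U V : Set X, IsOpen U → IsOpen V → U.Nonempty → V.Nonempty →
        ∃ n : ℕ, 1 ≤ n ∧ (V ∩ T^[n] ⁻¹' U).Nonempty) →
      (∀ a : ℕ → ℕ, StrictMono a → ∀ ε : ℝ, 0 < ε → ∀ δ : ℝ, 0 < δ →
        ∀ᶠ n in atTop, ∀ F : Finset X,
          (∀ x ∈ F, ∀ y ∈ F, x ≠ y → ∃ i < n, ε ≤ dist (T^[a i] x) (T^[a i] y)) →
          (F.card : ℝ) ≤ Real.exp (δ * n)) →
      ∀ ε : ℝ, 0 < ε → ∃ δ : ℝ, 0 < δ ∧ ∀ x y : X, dist x y < δ →
        ∀ᶠ n in atTop,
          (∑ i ∈ Finset.range n, dist (T^[i] x) (T^[i] y)) / (n : ℝ) < ε) := by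
  intro h
  exact Pool.Agent.W747.NT.TT_not_mean
    (h Pool.Agent.W747.NT.XX Pool.Agent.W747.NT.TT Pool.Agent.W747.NT.TT_cont
      Pool.Agent.W747.NT.TT_trans
      (fun a _ ε hε δ hδ => Pool.Agent.W747.NT.TT_null a ε hε δ hδ))

end Pool.Agent.S03690
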