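import Pool.Statements.S03720
import Pool.Agent.Helper710.EqFin

set_option autoImplicit false
open Pool Pool.MP_05ecc1_an

namespace Pool.Agent.S03720

open N62f3cee0 Filter Topology


theorem pot_eq {n : ℕ} (q : Fin n → ℝ) (a : Fin n → EuclideanSpace ℝ (Fin 3)) :
    (fun z : EuclideanSpace ℝ (Fin 3) => ∑ i, q i / ‖z - a i‖ ^ (3 - 2)) = potential q a := by
  funext z
  simp [potential, dist_eq_norm]

theorem contDiffAt_potential {n : ℕ} (q : Fin n → ℝ) (a : Fin n → EuclideanSpace ℝ (Fin 3))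
    (x : EuclideanSpace ℝ (Fin 3)) (hx : x ∉ Set.range a) :
    ContDiffAt ℝ 2 (potential q a) x := by
  unfold potential
  refine ContDiffAt.sum fun j _ => ?_
  have hne : x ≠ a j := fun h => hx ⟨j, h.symm⟩
  refine ContDiffAt.div contDiffAt_const ?_ (dist_ne_zero.2 hne)
  exact ContDiffAt.dist ℝ contDiffAt_id contDiffAt_const hne

theorem isolated {n : ℕ} (q : Fin n → ℝ) (a : Fin n → EuclideanSpace ℝ (Fin 3))
    (x : EuclideanSpace ℝ (Fin 3)) (hx : x ∉ Set.range a)
    (h : HasNondegenerateHessianAt (potential q a) x) :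
    ∃ ε > (0 : ℝ), ∀ y : EuclideanSpace ℝ (Fin 3), dist y x < ε → y ≠ x →
      fderiv ℝ (potential q a) y ≠ 0 := by
  have hc := contDiffAt_potential q a x hx
  have hd : DifferentiableAt ℝ (fderiv ℝ (potential q a)) x :=
    (hc.fderiv_right (m := 1) (by norm_num)).differentiableAt (by norm_num)
  have hf := hd.hasFDerivAt
  have hinj : Function.Injective (fderiv ℝ (fderiv ℝ (potential q a)) x) := by
    rw [injective_iff_map_eq_zero]
    intro v hv
    by_contra hv0
    obtain ⟨w, hw⟩ := h v hv0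
    apply hw
    rw [iteratedFDeriv_two_apply]
    simp [hv]
  have hanti : ∃ C : NNReal, AntilipschitzWith C (fderiv ℝ (fderiv ℝ (potential q a)) x) := by
    obtain ⟨K, _, hK⟩ := (fderiv ℝ (fderiv ℝ (potential q a)) x).toLinearMap.exists_antilipschitzWith
      (LinearMap.ker_eq_bot.2 hinj)
    exact ⟨K, hK⟩
  have hev := hf.eventually_ne (c := 0) hanti
  rw [eventually_nhdsWithin_iff, Metric.eventually_nhds_iff] at hev
  obtain ⟨ε, hε, hh⟩ := hev
  exact ⟨ε, hε, fun y hy hne => hh hy hne⟩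

/-- The negation of the preceding statement: For n ≥ 3 and N nonzero real charges at distinct points of R^n, every finite set of isolated critical points of the potential sum q_i/∣x−a_i∣^(n−2) has at most (N−1)^2 elements. -/
theorem result :
    ¬ (∀ (n N : ℕ), 3 ≤ n → 1 ≤ N →
  ∀ (a : Fin N → EuclideanSpace ℝ (Fin n)) (q : Fin N → ℝ),
    Function.Injective a → (∀ i, q i ≠ 0) →
    ∀ S : Finset (EuclideanSpace ℝ (Fin n)),
      (∀ x ∈ S, (∀ i, x ≠ a i) ∧
        fderiv ℝ (fun z : EuclideanSpace ℝ (Fin n) => ∑ i, q i / ‖z - a i‖ ^ (n - 2)) x = 0 ∧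
        ∃ ε > (0 : ℝ), ∀ y : EuclideanSpace ℝ (Fin n), dist y x < ε → y ≠ x → (∀ i, y ≠ a i) →
          fderiv ℝ (fun z : EuclideanSpace ℝ (Fin n) => ∑ i, q i / ‖z - a i‖ ^ (n - 2)) y ≠ 0) →
      S.card ≤ (N - 1) ^ 2) := by
  intro H
  obtain ⟨q, a, ha, hq, hnd, m, hm, hcard⟩ :=
    Pool.Agent.Helper710.Eqb.cubic_lower_bound 3073 (by norm_num)
  have hm' : 3072 ^ 2 + 1 ≤ m := by
    by_contra hlt
    push Not at hlt
    have h1 : 3072 * m ≤ 3072 * 3072 ^ 2 := Nat.mul_le_mul_left _ (by omega)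
    have h2 : (3073 : ℕ) ^ 3 ≤ 3072 * 3072 ^ 2 := hm.trans h1
    norm_num at h2
  obtain ⟨t, hts, ht⟩ := Set.exists_subset_encard_eq
    (s := equilibria q a) (k := ((3072 ^ 2 + 1 : ℕ) : ℕ∞)) (le_trans (by exact_mod_cast hm') hcard)
  have hfin : t.Finite := Set.finite_of_encard_eq_coe ht
  have key := H 3 3073 le_rfl (by norm_num) a q ha hq hfin.toFinset (by
    intro x hx
    have hxt : x ∈ t := hfin.mem_toFinset.1 hx
    obtain ⟨hxr, hgrad⟩ := hts hxt
    rw [pot_eq]
    refine ⟨fun i h => hxr ⟨i, h.symm⟩, ?_, ?_⟩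
    · have := hgrad
      rw [gradient] at this
      simpa using this
    · obtain ⟨ε, hε, hh⟩ := isolated q a x hxr (hnd x ⟨hxr, hgrad⟩)
      exact ⟨ε, hε, fun y hy hne _ => hh y hy hne⟩)
  have hc : hfin.toFinset.card = 3072 ^ 2 + 1 := by
    have := ht
    rw [hfin.encard_eq_coe_toFinset_card] at this
    exact_mod_cast this
  rw [hc] at key
  norm_num at key

end Pool.Agent.S03720
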