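import Pool.Statements.S03792
import Pool.Agent.Helper533.ConvexObstacle.Plane
import Pool.Agent.W792.MollRay

set_option autoImplicit false
open scoped MeasureTheory
open Pool Pool.MP_0c2aee_an

namespace Pool.Agent.S03792

open Pool.Agent.Helper533.ConvexObstacle.PlaneDefs Pool.Agent.W792.MollRay
  Pool.Agent.Helper533.ConvexObstacle

/-- The infimum over smooth test functions equals the infimum over continuously differentiable
test functions. -/
theorem eig_eq_C1 {U : Set (EuclideanSpace ℝ (Fin 2))} (hU : IsOpen U) :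
    firstEigenvalue U = ⨅ (u : EuclideanSpace ℝ (Fin 2) → ℝ)
        (_ : ContDiff ℝ 1 u ∧ HasCompactSupport u ∧ tsupport u ⊆ U ∧ u ≠ 0),
          ENNReal.ofReal ((∫ x, ‖fderiv ℝ u x‖ ^ 2) / (∫ x, u x ^ 2)) := by
  have hR : ∀ u : EuclideanSpace ℝ (Fin 2) → ℝ,
      rayleighQuotient u = (∫ x, ‖fderiv ℝ u x‖ ^ 2) / (∫ x, u x ^ 2) := by
    intro u
    unfold rayleighQuotient
    simp_rw [norm_gradient']
  apply le_antisymm
  · refine le_iInf₂ fun u hu => ?_
    obtain ⟨h1, h2, h3, h4⟩ := hu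
    have hlim := (ENNReal.continuous_ofReal.tendsto _).comp (rayleigh_tendsto h1 h2 h4)
    refine ge_of_tendsto hlim ?_
    filter_upwards [tsupport_eventually h2 hU h3, ne_eventually h1.continuous h4] with k hk1 hk2
    have ht : IsTestFunction U (mo k u) :=
      ⟨mo_contDiff k h1.continuous, mo_hcs k h2, hk1, hk2⟩
    refine (iInf₂_le (mo k u) ht).trans (le_of_eq ?_)
    rw [hR]
    rfl
  · refine le_iInf₂ fun u hu => ?_
    obtain ⟨h1, h2, h3, x, hx⟩ := hu
    have h1' : ContDiff ℝ 1 u := h1.of_le (by exact_mod_cast le_top)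
    refine (iInf₂_le u ⟨h1', h2, h3, fun h => hx (by rw [h]; rfl)⟩).trans (le_of_eq ?_)
    rw [hR]

/-- The negation of the preceding statement: For every bounded planar domain Ω and 0<L<H¹(∂Ω), any closed convex K with nonempty interior in closure Ω, perimeter L, minimizing the first Dirichlet eigenvalue of Ω∖K among such sets, meets ∂Ω. -/
theorem result :
    ¬ (∀ lam : Set (EuclideanSpace ℝ (Fin 2)) → ENNReal,
    (∀ U : Set (EuclideanSpace ℝ (Fin 2)),
      lam U = ⨅ (u : EuclideanSpace ℝ (Fin 2) → ℝ)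
        (_ : ContDiff ℝ 1 u ∧ HasCompactSupport u ∧ tsupport u ⊆ U ∧ u ≠ 0),
          ENNReal.ofReal ((∫ x, ‖fderiv ℝ u x‖ ^ 2) / (∫ x, u x ^ 2))) →
  ∀ Ω : Set (EuclideanSpace ℝ (Fin 2)),
    IsOpen Ω → IsConnected Ω → Bornology.IsBounded Ω →
  ∀ L : ℝ, 0 < L → ENNReal.ofReal L < μH[1] (frontier Ω) →
  ∀ K : Set (EuclideanSpace ℝ (Fin 2)),
    IsClosed K → Convex ℝ K → (interior K).Nonempty → K ⊆ closure Ω →
    μH[1] (frontier K) = ENNReal.ofReal L →
    (∀ K' : Set (EuclideanSpace ℝ (Fin 2)),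
      IsClosed K' → Convex ℝ K' → (interior K').Nonempty → K' ⊆ closure Ω →
      μH[1] (frontier K') = ENNReal.ofReal L →
      lam (Ω \ K) ≤ lam (Ω \ K')) →
    (K ∩ frontier Ω).Nonempty) := by
  intro H
  obtain ⟨N, q, L, h1, h2, h3, h4, h5, h6, h7, h8, ⟨K, hK⟩, h10⟩ := plane_main
  have hsub := h10 K hK
  obtain ⟨⟨a1, a2, a3, a4, a5⟩, hmin⟩ := hK
  have key := H (fun U => ⨅ (u : EuclideanSpace ℝ (Fin 2) → ℝ)
        (_ : ContDiff ℝ 1 u ∧ HasCompactSupport u ∧ tsupport u ⊆ U ∧ u ≠ 0),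
          ENNReal.ofReal ((∫ x, ‖fderiv ℝ u x‖ ^ 2) / (∫ x, u x ^ 2))) (fun _ => rfl)
    (E.symm ⁻¹' (Om N q)) h4 h5 h6 L h7 h8 K a1 a2 a3 a4 a5 (by
      intro K' b1 b2 b3 b4 b5
      have := hmin K' ⟨b1, b2, b3, b4, b5⟩
      rw [eig_eq_C1 (h4.sdiff a1), eig_eq_C1 (h4.sdiff b1)] at this
      exact this)
  obtain ⟨x, hx1, hx2⟩ := key
  have := hx2.2
  rw [h4.interior_eq] at this
  exact this (hsub hx1)

end Pool.Agent.S03792
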