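import Pool.Statements.S03810
import Pool.Agent.Helper311.GB.Main

set_option autoImplicit false
open Pool Pool.MP_0da214_an

namespace Pool.Agent.S03810

open Filter Topology Pool.Agent.Helper311.GB

/-- The exhaustion function `RR` has the sub-mean value property over closed affine discs. -/
theorem rr_submean (D : Dat) (n : ℕ) (hn : 3 ≤ n) (z₀ a b : EuclideanSpace ℂ (Fin n))
    (hab : ∀ ζ : ℂ, ‖ζ‖ ≤ 1 → a + ζ • b ∈ connectedComponentIn {p : EE n | RR D n hn p < 0} z₀) :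
    RR D n hn a ≤ (2 * Real.pi)⁻¹ *
      ∫ θ in (0:ℝ)..(2 * Real.pi), RR D n hn (a + Complex.exp ((θ : ℂ) * Complex.I) • b) := by
  set S : Set (EE n) := {p : EE n | RR D n hn p < 0} with hS
  have hSo : IsOpen S := by
    rw [isOpen_iff_mem_nhds]
    intro z hz
    exact (r_cont D n hn z hz).eventually (gt_mem_nhds hz)
  have hCS : connectedComponentIn S z₀ ⊆ S := connectedComponentIn_subset _ _
  have hcont : Continuous (fun ζ : ℂ => a + ζ • b) := by fun_prop
  set T : Set ℂ := (fun ζ : ℂ => a + ζ • b) ⁻¹' S with hT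
  have hTo : IsOpen T := hSo.preimage hcont
  have hsub : Metric.closedBall (0:ℂ) 1 ⊆ T := by
    intro ζ hζ
    simp only [Metric.mem_closedBall, dist_zero_right] at hζ
    exact hCS (hab ζ hζ)
  have hcR : ContinuousOn (RR D n hn) S := fun z hz => (r_cont D n hn z hz).continuousWithinAt
  have hcT : ContinuousOn (fun ζ : ℂ => RR D n hn (a + ζ • b)) T :=
    hcR.comp hcont.continuousOn (fun ζ hζ => hζ)
  have h1 := loc_glob (fun ζ : ℂ => RR D n hn (a + ζ • b)) T hTo hsub hcT (by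
    intro ζ hζ
    have hm : a + ζ • b ∈ S := hsub (Metric.ball_subset_closedBall hζ)
    filter_upwards [r_sub D n hn _ hm b] with ρ hρ
    have e : Real.circleAverage (fun ζ : ℂ => RR D n hn (a + ζ • b)) ζ ρ
        = Real.circleAverage (fun ξ : ℂ => RR D n hn ((a + ζ • b) + ξ • b)) 0 ρ := by
      unfold Real.circleAverage
      congr 1
      apply intervalIntegral.integral_congr
      intro θ _
      simp only [circleMap, zero_add, add_smul, add_assoc]
    rw [e]
    exact hρ)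
  simp only [zero_smul, add_zero] at h1
  refine h1.trans (le_of_eq ?_)
  unfold Real.circleAverage
  rw [smul_eq_mul]
  congr 1
  apply intervalIntegral.integral_congr
  intro θ _
  simp only [circleMap, zero_add, Complex.ofReal_one, one_mul]

/-- The negation of the preceding statement: For every bounded hyperconvex domain in C^n (n at least 1), the pluricomplex Green function g(z,w) tends to 0 uniformly for z in each compact subset as the pole w approaches the boundary. -/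
theorem result :
    ¬ (∀ (n : ℕ) (Ω : Set (EuclideanSpace ℂ (Fin n))),
    1 ≤ n → IsOpen Ω → IsConnected Ω → Bornology.IsBounded Ω →
    (∃ ρ : EuclideanSpace ℂ (Fin n) → ℝ,
      ContinuousOn ρ Ω ∧ (∀ z ∈ Ω, ρ z < 0) ∧
      (∀ a b : EuclideanSpace ℂ (Fin n), (∀ ζ : ℂ, ‖ζ‖ ≤ 1 → a + ζ • b ∈ Ω) →
        ρ a ≤ (2 * Real.pi)⁻¹ *
          ∫ θ in (0:ℝ)..(2 * Real.pi), ρ (a + Complex.exp ((θ : ℂ) * Complex.I) • b)) ∧
      (∀ ε : ℝ, 0 < ε → ∃ K : Set (EuclideanSpace ℂ (Fin n)),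
        IsCompact K ∧ K ⊆ Ω ∧ ∀ z ∈ Ω, z ∉ K → -ε < ρ z)) →
    ∀ K : Set (EuclideanSpace ℂ (Fin n)), IsCompact K → K ⊆ Ω →
    ∀ ε : ℝ, 0 < ε → ∃ δ : ℝ, 0 < δ ∧
      ∀ w ∈ Ω, Metric.infDist w Ωᶜ < δ → ∀ z ∈ K,
        ((-ε : ℝ) : EReal) ≤ sSup {t : EReal | ∃ u : EuclideanSpace ℂ (Fin n) → EReal,
          UpperSemicontinuousOn u Ω ∧ (∀ s ∈ Ω, u s ≤ 0) ∧
          (∀ a b : EuclideanSpace ℂ (Fin n), (∀ ζ : ℂ, ‖ζ‖ ≤ 1 → a + ζ • b ∈ Ω) →
            ∀ φ : ℝ → ℝ, Continuous φ →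
              (∀ θ : ℝ, u (a + Complex.exp ((θ : ℂ) * Complex.I) • b) ≤ ((φ θ : ℝ) : EReal)) →
              u a ≤ (((2 * Real.pi)⁻¹ * ∫ θ in (0:ℝ)..(2 * Real.pi), φ θ : ℝ) : EReal)) ∧
          (∃ C : ℝ, ∀ s ∈ Ω, s ≠ w → u s ≤ ((Real.log ‖s - w‖ + C : ℝ) : EReal)) ∧
          t = u z}) := by
  intro H
  obtain ⟨D⟩ := dat_exists
  have hn : 3 ≤ 3 := le_rfl
  obtain ⟨hd, hseg, hfr, hw⟩ := r_disc D 3 hn
  obtain ⟨hE, hcx, hcy, hct, hemb, hlin, hext, hnorm⟩ := coords 3 hn
  have hopenS : IsOpen {p : EE 3 | RR D 3 hn p < 0} := by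
    rw [isOpen_iff_mem_nhds]
    intro z hz
    exact (r_cont D 3 hn z hz).eventually_lt continuousAt_const hz
  have h10 : emb 3 hn 1 0 0 ∈ {p : EE 3 | RR D 3 hn p < 0} :=
    connectedComponentIn_subset _ _ (hseg 0 (by norm_num))
  set Ω : Set (EE 3) := connectedComponentIn {p : EE 3 | RR D 3 hn p < 0} (emb 3 hn 1 0 0) with hΩ
  have hΩS : Ω ⊆ {p : EE 3 | RR D 3 hn p < 0} := connectedComponentIn_subset _ _
  have hopen : IsOpen Ω := hopenS.connectedComponentIn
  have hconn : IsConnected Ω := isConnected_connectedComponentIn_iff.mpr h10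
  have hbdd : Bornology.IsBounded Ω := (r_bdd D 3 hn).subset hΩS
  -- the Green function estimate
  have hgreen : ∀ j, green Ω (emb 3 hn 0 0 (D.w j)) (emb 3 hn 1 0 (D.w j)) ≤
      ((-Real.log 2 : ℝ) : EReal) := by
    intro j
    have key := green_disc 3 _ hopen (emb 3 hn 0 0 (D.w j)) (emb 3 hn 1 0 0) (emb 3 hn 0 1 0) ?_
      (D.m j) (by have := D.m_ge j; omega) (fun ξ hξ => hd j ξ hξ)
    · have e : emb 3 hn 0 0 (D.w j) + emb 3 hn 1 0 0 = emb 3 hn 1 0 (D.w j) := by
        have h := hext 1 0 0 (D.w j) 1 0 0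
        rw [one_smul] at h
        rw [← h]
        congr 1 <;> ring
      rw [e] at key
      exact key
    · intro ξ h0
      have h1 : emb 3 hn 1 0 0 + ξ • emb 3 hn 0 1 0 = emb 3 hn 1 ξ 0 := by
        rw [← hext ξ 1 0 0 0 1 0]
        congr 1 <;> ring
      rw [h1] at h0
      have h2 := (hE 1 ξ 0).1
      have h3 := (hE 0 0 0).1
      have h4 : emb 3 hn 0 0 0 = (0 : EE 3) := by
        have h := hnorm 0 0 0
        have : ‖emb 3 hn 0 0 0‖ ≤ 0 := by simpa using h
        exact norm_le_zero_iff.mp this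
      rw [h0, ← h4, h3] at h2
      exact zero_ne_one h2
  have hlog : 0 < Real.log 2 := Real.log_pos (by norm_num)
  obtain ⟨δ, hδ, Hδ⟩ := H 3 Ω (by norm_num) hopen hconn hbdd
    ⟨RR D 3 hn, fun z hz => (r_cont D 3 hn z (hΩS hz)).continuousWithinAt, fun z hz => hΩS hz,
      fun a b hab => rr_submean D 3 hn _ a b hab, by
        intro ε hε
        refine ⟨closure {z | z ∈ Ω ∧ RR D 3 hn z ≤ -ε}, ?_, ?_, ?_⟩
        · apply Metric.isCompact_of_isClosed_isBounded isClosed_closure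
          apply Bornology.IsBounded.closure
          exact hbdd.subset (fun z hz => hz.1)
        · intro p hp
          have h1 : RR D 3 hn p < 0 :=
            r_closed D 3 hn (-ε) (by linarith) p (closure_mono (fun z hz => hz.2) hp)
          exact comp_closed 3 _ hopenS _ p (closure_mono (fun z hz => hz.1) hp) h1
        · intro z hz hzK
          by_contra hcon
          push Not at hcon
          exact hzK (subset_closure ⟨hz, hcon⟩)⟩
    ((fun t : ℂ => emb 3 hn 1 0 t) '' Metric.closedBall 0 (1 / 2))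
    ((isCompact_closedBall (0:ℂ) (1 / 2)).image
      (hemb.comp (by fun_prop : Continuous fun s : ℂ => ((1:ℂ), ((0:ℂ), s)))))
    (by
      rintro _ ⟨t, ht, rfl⟩
      exact hseg t (by simpa using ht))
    (Real.log 2 / 2) (by linarith)
  have hDw : ∀ᶠ j in atTop, ‖D.w j‖ < δ := by
    have := D.w_tendsto.norm
    rw [norm_zero] at this
    exact this.eventually (gt_mem_nhds hδ)
  obtain ⟨j, hj⟩ := hDw.exists
  have h0c : (0 : EE 3) ∈ Ωᶜ := by
    intro h0
    rw [frontier, hopen.interior_eq] at hfr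
    exact hfr.2 h0
  have hinf : Metric.infDist (emb 3 hn 0 0 (D.w j)) Ωᶜ < δ := by
    refine lt_of_le_of_lt ((Metric.infDist_le_dist_of_mem h0c).trans ?_) hj
    rw [dist_zero_right]
    simpa using hnorm 0 0 (D.w j)
  have hwj : ‖D.w j‖ ≤ 1 / 2 := by
    have := D.wr j; have := D.r_pos j; linarith
  have h5 := Hδ (emb 3 hn 0 0 (D.w j)) (hw j) hinf (emb 3 hn 1 0 (D.w j))
    ⟨D.w j, by simpa using hwj, rfl⟩
  have h6 : ((-(Real.log 2 / 2) : ℝ) : EReal) ≤ ((-Real.log 2 : ℝ) : EReal) := by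
    refine h5.trans ((sSup_le_sSup ?_).trans (hgreen j))
    rintro t ⟨u, hu1, hu2, hu3, hu4, rfl⟩
    refine ⟨u, ⟨hu1, fun z hz => lt_of_le_of_lt (hu2 z hz) EReal.zero_lt_top, ?_⟩, hu2, hu4, rfl⟩
    intro a b hab φ hφ hle
    have h7 := hu3 a b hab (fun θ : ℝ => φ (Complex.exp ((θ : ℂ) * Complex.I)))
      (hφ.comp (by fun_prop)) (fun θ => hle _ (Complex.norm_exp_ofReal_mul_I θ))
    refine h7.trans (le_of_eq ?_)
    unfold Real.circleAverage
    rw [smul_eq_mul]
    congr 2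
    apply intervalIntegral.integral_congr
    intro θ _
    simp only [circleMap, zero_add, Complex.ofReal_one, one_mul]
  rw [EReal.coe_le_coe_iff] at h6
  linarith

end Pool.Agent.S03810
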