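import Pool.Statements.S03829
import Pool.Agent.Results.MP_0f8a1e_an.ExactlyOne

set_option autoImplicit false
open Pool Pool.MP_0f8a1e_an

namespace Pool.Agent.S03829

open Pool.Agent.Results.MP_0f8a1e_an.ExactlyOne in
theorem second_diff {E : Type*} [NormedAddCommGroup E] [NormedSpace ℝ E] (φ : E → ℝ) (a b : E) :
    ‖iteratedFDeriv ℝ 2 φ a - iteratedFDeriv ℝ 2 φ b‖ ≤
      ‖fderiv ℝ (fderiv ℝ φ) a - fderiv ℝ (fderiv ℝ φ) b‖ := by
  refine ContinuousMultilinearMap.opNorm_le_bound (by positivity) (fun m => ?_)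
  rw [ContinuousMultilinearMap.sub_apply, iteratedFDeriv_two_apply, iteratedFDeriv_two_apply,
    Fin.prod_univ_two, ← mul_assoc]
  have h1 : fderiv ℝ (fderiv ℝ φ) a (m 0) (m 1) - fderiv ℝ (fderiv ℝ φ) b (m 0) (m 1) =
      (fderiv ℝ (fderiv ℝ φ) a - fderiv ℝ (fderiv ℝ φ) b) (m 0) (m 1) := rfl
  rw [h1]
  exact ContinuousLinearMap.le_opNorm₂ _ _ _

theorem second_norm {E : Type*} [NormedAddCommGroup E] [NormedSpace ℝ E] (φ : E → ℝ) (a : E) :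
    ‖iteratedFDeriv ℝ 2 φ a‖ ≤ ‖fderiv ℝ (fderiv ℝ φ) a‖ := by
  refine ContinuousMultilinearMap.opNorm_le_bound (by positivity) (fun m => ?_)
  rw [iteratedFDeriv_two_apply, Fin.prod_univ_two, ← mul_assoc]
  exact ContinuousLinearMap.le_opNorm₂ _ _ _

open Pool.Agent.Results.MP_0f8a1e_an.ExactlyOne in
theorem unif (n : ℕ) (γ : ℝ) (hγ : 0 < γ) (Ω : Set (EuclideanSpace ℝ (Fin (n + 1))))
    (h : ∃ r : ℝ, 0 < r ∧ ∃ M : ℝ, ∀ x ∈ frontier Ω,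
        ∃ R : EuclideanSpace ℝ (Fin (n + 1)) ≃ₗᵢ[ℝ] EuclideanSpace ℝ (Fin (n + 1)),
        ∃ φ : (Fin n → ℝ) → ℝ, ContDiff ℝ 2 φ ∧
          (∀ y, |φ y| ≤ M) ∧
          (∀ y, ‖fderiv ℝ φ y‖ ≤ M) ∧
          (∀ y, ‖fderiv ℝ (fderiv ℝ φ) y‖ ≤ M) ∧
          (∀ y z, ‖fderiv ℝ (fderiv ℝ φ) y - fderiv ℝ (fderiv ℝ φ) z‖ ≤ M * ‖y - z‖ ^ γ) ∧
          ∀ z ∈ Metric.ball x r,
            (z ∈ Ω ↔ φ (fun i : Fin n => R (z - x) (Fin.castSucc i)) < R (z - x) (Fin.last n))) :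
    UniformlyC2 γ Ω := by
  obtain ⟨r, hr, M, h⟩ := h
  refine ⟨r, hr, M, fun p hp => ?_⟩
  obtain ⟨R, φ, hφ, h0, h1, h2, h3, h4⟩ := h p hp
  have hM : 0 ≤ M := (abs_nonneg _).trans (h0 0)
  let L : EuclideanSpace ℝ (Fin (n + 1)) →L[ℝ] (Fin n → ℝ) :=
    ContinuousLinearMap.pi (fun i =>
      (EuclideanSpace.proj (𝕜 := ℝ) (Fin.castSucc i)).comp
        (R.toContinuousLinearEquiv : EuclideanSpace ℝ (Fin (n + 1)) →L[ℝ]
          EuclideanSpace ℝ (Fin (n + 1))))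
  have hL : ∀ y, L y = fun i : Fin n => R y (Fin.castSucc i) := fun y => rfl
  have hLn : ∀ y, ‖L y‖ ≤ ‖y‖ := by
    intro y
    rw [pi_norm_le_iff_of_nonneg (norm_nonneg _)]
    intro i
    rw [hL, ← R.norm_map y]
    exact PiLp.norm_apply_le (R y) (Fin.castSucc i)
  have hL1 : ‖L‖ ≤ 1 := L.opNorm_le_bound zero_le_one (fun y => by rw [one_mul]; exact hLn y)
  have hcomp : ∀ (i : ℕ), (i : ℕ∞) ≤ 2 → ∀ y, iteratedFDeriv ℝ i (φ ∘ L) y =
      (iteratedFDeriv ℝ i φ (L y)).compContinuousLinearMap fun _ => L := by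
    intro i hi y
    exact L.iteratedFDeriv_comp_right hφ y (by exact_mod_cast hi)
  refine ⟨R.symm (EuclideanSpace.single (Fin.last n) 1), ?_, φ ∘ L, hφ.comp L.contDiff, ?_, ?_, ?_,
    ?_⟩
  · rw [R.symm.norm_map]; simp
  · intro y t
    change φ (L _) = φ (L _)
    rw [map_add, map_smul]
    have : L (R.symm (EuclideanSpace.single (Fin.last n) 1)) = 0 := by
      rw [hL]
      ext i
      simp
    rw [this, smul_zero, add_zero]
  · intro y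
    constructor
    · rw [hcomp 1 (by norm_num) y]
      refine (ContinuousMultilinearMap.norm_compContinuousLinearMap_le _ _).trans ?_
      simp only [Finset.prod_const, Finset.card_univ, Fintype.card_fin, pow_one]
      rw [norm_iteratedFDeriv_one]
      have := mul_le_mul (h1 (L y)) hL1 (norm_nonneg _) hM
      linarith
    · rw [hcomp 2 le_rfl y]
      refine (ContinuousMultilinearMap.norm_compContinuousLinearMap_le _ _).trans ?_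
      simp only [Finset.prod_const, Finset.card_univ, Fintype.card_fin]
      have e1 := (second_norm φ (L y)).trans (h2 (L y))
      have e2 : ‖L‖ ^ 2 ≤ 1 := pow_le_one₀ (norm_nonneg _) hL1
      have := mul_le_mul e1 e2 (by positivity) hM
      linarith
  · intro y z
    have e0 : iteratedFDeriv ℝ 2 (φ ∘ L) y - iteratedFDeriv ℝ 2 (φ ∘ L) z =
        (iteratedFDeriv ℝ 2 φ (L y) - iteratedFDeriv ℝ 2 φ (L z)).compContinuousLinearMap
          fun _ => L := by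
      rw [hcomp 2 le_rfl y, hcomp 2 le_rfl z]
      rfl
    rw [e0]
    refine (ContinuousMultilinearMap.norm_compContinuousLinearMap_le _ _).trans ?_
    simp only [Finset.prod_const, Finset.card_univ, Fintype.card_fin]
    have e1 := (second_diff φ (L y) (L z)).trans (h3 (L y) (L z))
    have e2 : ‖L‖ ^ 2 ≤ 1 := pow_le_one₀ (norm_nonneg _) hL1
    have e3 : ‖L y - L z‖ ^ γ ≤ ‖y - z‖ ^ γ := by
      apply Real.rpow_le_rpow (norm_nonneg _) _ hγ.le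
      rw [← map_sub]; exact hLn _
    have e4 : M * ‖L y - L z‖ ^ γ ≤ M * ‖y - z‖ ^ γ := mul_le_mul_of_nonneg_left e3 hM
    have := mul_le_mul (e1.trans e4) e2 (by positivity) (by positivity)
    linarith
  · intro x hx
    rw [h4 x hx]
    have : inner ℝ (x - p) (R.symm (EuclideanSpace.single (Fin.last n) (1 : ℝ))) =
        R (x - p) (Fin.last n) := by
      rw [← R.inner_map_map, R.apply_symm_apply, EuclideanSpace.inner_single_right]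
      simp
    rw [this]
    rfl

/-- For every dimension, γ in (0,1], positive reaction f and open connected uniformly C^{2,γ} domain with star-shaped complement, −Δu=f(u), u=0 on the boundary has a bounded positive C² solution, and any two agree on the closure. -/
theorem result :
    ∀ (n : ℕ) (γ : ℝ), 0 < γ → γ ≤ 1 →
    ∀ (f : ℝ → ℝ), ContDiff ℝ 1 f →
      (∀ K : ℝ, ∃ C : ℝ, ∀ s ∈ Set.Icc (-K) K, ∀ t ∈ Set.Icc (-K) K,
        |deriv f s - deriv f t| ≤ C * |s - t| ^ γ) →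
      f 0 = 0 → f 1 = 0 → (∀ t : ℝ, 1 < t → f t < 0) → deriv f 1 < 0 →
      (∀ t : ℝ, 0 < t → t < 1 → 0 < f t) → 0 < deriv f 0 →
    ∀ Ω : Set (EuclideanSpace ℝ (Fin (n + 1))), IsOpen Ω → IsConnected Ω →
      (∃ r : ℝ, 0 < r ∧ ∃ M : ℝ, ∀ x ∈ frontier Ω,
        ∃ R : EuclideanSpace ℝ (Fin (n + 1)) ≃ₗᵢ[ℝ] EuclideanSpace ℝ (Fin (n + 1)),
        ∃ φ : (Fin n → ℝ) → ℝ, ContDiff ℝ 2 φ ∧
          (∀ y, |φ y| ≤ M) ∧
          (∀ y, ‖fderiv ℝ φ y‖ ≤ M) ∧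
          (∀ y, ‖fderiv ℝ (fderiv ℝ φ) y‖ ≤ M) ∧
          (∀ y z, ‖fderiv ℝ (fderiv ℝ φ) y - fderiv ℝ (fderiv ℝ φ) z‖ ≤ M * ‖y - z‖ ^ γ) ∧
          ∀ z ∈ Metric.ball x r,
            (z ∈ Ω ↔ φ (fun i : Fin n => R (z - x) (Fin.castSucc i)) < R (z - x) (Fin.last n))) →
      (∃ x₀ : EuclideanSpace ℝ (Fin (n + 1)), StarConvex ℝ x₀ Ωᶜ) →
      (∃ u : EuclideanSpace ℝ (Fin (n + 1)) → ℝ,
          ContDiffOn ℝ 2 u Ω ∧ ContinuousOn u (closure Ω) ∧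
          (∃ C : ℝ, ∀ x ∈ Ω, |u x| ≤ C) ∧
          (∀ x ∈ Ω, -(∑ i : Fin (n + 1),
              iteratedFDeriv ℝ 2 u x (fun _ => EuclideanSpace.single i (1 : ℝ))) = f (u x)) ∧
          (∀ x ∈ frontier Ω, u x = 0) ∧ (∀ x ∈ Ω, 0 < u x)) ∧
      ∀ u v : EuclideanSpace ℝ (Fin (n + 1)) → ℝ,
        (ContDiffOn ℝ 2 u Ω ∧ ContinuousOn u (closure Ω) ∧
          (∃ C : ℝ, ∀ x ∈ Ω, |u x| ≤ C) ∧
          (∀ x ∈ Ω, -(∑ i : Fin (n + 1),
              iteratedFDeriv ℝ 2 u x (fun _ => EuclideanSpace.single i (1 : ℝ))) = f (u x)) ∧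
          (∀ x ∈ frontier Ω, u x = 0) ∧ (∀ x ∈ Ω, 0 < u x)) →
        (ContDiffOn ℝ 2 v Ω ∧ ContinuousOn v (closure Ω) ∧
          (∃ C : ℝ, ∀ x ∈ Ω, |v x| ≤ C) ∧
          (∀ x ∈ Ω, -(∑ i : Fin (n + 1),
              iteratedFDeriv ℝ 2 v x (fun _ => EuclideanSpace.single i (1 : ℝ))) = f (v x)) ∧
          (∀ x ∈ frontier Ω, v x = 0) ∧ (∀ x ∈ Ω, 0 < v x)) →
        ∀ x ∈ closure Ω, u x = v x := by
  intro n γ hγ hγ1 f hf hH hf0 hf1 hneg hd1 hpos hd0 Ω hΩ _ hC2 hstar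
  obtain ⟨x₀, hx₀⟩ := hstar
  have hU := unif n γ hγ Ω hC2
  have hR : Pool.Agent.Results.MP_0f8a1e_an.ExactlyOne.PosReaction γ f :=
    ⟨hf, fun K => by
      obtain ⟨C, hC⟩ := hH K
      exact ⟨C, fun x y hx hy => hC x (abs_le.1 hx) y (abs_le.1 hy)⟩, hf0, hf1, hneg, hd1, hpos,
      hd0⟩
  obtain ⟨u, hu, huniq⟩ := Pool.Agent.Results.MP_0f8a1e_an.ExactlyOne.result (n + 1) γ f Ω hγ hγ1
    hR hΩ hU x₀ hx₀
  refine ⟨⟨u, hu.1, hu.2.1, hu.2.2.2.2.1, hu.2.2.2.2.2, hu.2.2.1, hu.2.2.2.1⟩, ?_⟩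
  intro v w hv hw x hx
  have h1 := huniq v ⟨hv.1, hv.2.1, hv.2.2.2.2.1, hv.2.2.2.2.2, hv.2.2.1, hv.2.2.2.1⟩ x hx
  have h2 := huniq w ⟨hw.1, hw.2.1, hw.2.2.2.2.1, hw.2.2.2.2.2, hw.2.2.1, hw.2.2.2.1⟩ x hx
  rw [h1, h2]

end Pool.Agent.S03829
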