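import Pool.Statements.S03840
import Pool.Agent.W696.AU.Final

set_option autoImplicit false
open Pool Pool.MP_102345_an

namespace Pool.Agent.S03840

/-- The negation of the preceding statement: If a real Banach space X coarse Lipschitz embeds into a reflexive Banach space Y whose norm is asymptotically uniformly smooth, then X has an equivalent norm that is asymptotically uniformly smooth. -/
theorem result :
    ¬ (∀ (X : Type) [NormedAddCommGroup X] [NormedSpace ℝ X] [CompleteSpace X]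
      (Y : Type) [NormedAddCommGroup Y] [NormedSpace ℝ Y] [CompleteSpace Y],
      Function.Surjective (NormedSpace.inclusionInDoubleDual ℝ Y) →
      (∀ ε : ℝ, 0 < ε → ∃ δ : ℝ, 0 < δ ∧ ∀ t : ℝ, 0 < t → t < δ →
        ∀ x : Y, ‖x‖ = 1 →
          ∃ E : Submodule ℝ Y, IsClosed (E : Set Y) ∧ FiniteDimensional ℝ (Y ⧸ E) ∧
            ∀ y ∈ E, ‖y‖ ≤ t → ‖x + y‖ ≤ 1 + ε * t) →
      (∃ f : X → Y, ∃ A B : ℝ, 0 < A ∧ 0 ≤ B ∧
        ∀ x x' : X, ‖x - x'‖ / A - B ≤ ‖f x - f x'‖ ∧ ‖f x - f x'‖ ≤ A * ‖x - x'‖ + B) →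
      ∃ N : X → ℝ,
        (∀ x y : X, N (x + y) ≤ N x + N y) ∧
        (∀ (r : ℝ) (x : X), N (r • x) = |r| * N x) ∧
        (∃ c C : ℝ, 0 < c ∧ ∀ x : X, c * ‖x‖ ≤ N x ∧ N x ≤ C * ‖x‖) ∧
        (∀ ε : ℝ, 0 < ε → ∃ δ : ℝ, 0 < δ ∧ ∀ t : ℝ, 0 < t → t < δ →
          ∀ x : X, N x = 1 →
            ∃ E : Submodule ℝ X, IsClosed (E : Set X) ∧ FiniteDimensional ℝ (X ⧸ E) ∧
              ∀ y ∈ E, N y ≤ t → N (x + y) ≤ 1 + ε * t)) := by
  intro H
  obtain ⟨N, hadd, hsm, ⟨c, C, hc, hcC⟩, haus⟩ :=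
    H Pool.Agent.W696.AU.XX Pool.Agent.W696.AU.YY Pool.Agent.W696.AU.yy_reflexive
      Pool.Agent.W696.AU.yy_upp.aus Pool.Agent.W696.AU.embedding
  exact Pool.Agent.W696.AU.not_aus N hadd hsm hc hcC haus

end Pool.Agent.S03840
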