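import Pool.Statements.S03851
import Pool.Agent.S05779

set_option autoImplicit false
open Pool Pool.MP_115f17_an

namespace Pool.Agent.S03851

open Filter Topology Pool.Agent.S05779

lemma four_pow_log {e m : ℕ} (h1 : 4 ^ e ≤ m) (h2 : m < 4 ^ (e + 1)) : Nat.log 4 m = e :=
  Nat.log_eq_of_pow_le_of_lt_pow h1 h2

/-- the vector: the universal pattern with the blocks `[4 ^ e, 4 ^ (e + 1))`, `e` odd, deleted -/
noncomputable def fy (m : ℕ) : ℝ := if Nat.log 4 m % 2 = 0 then p v m / (m + 1) else 0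

lemma tendsto_fy : Tendsto fy atTop (𝓝 0) := by
  have hp : Tendsto (fun m : ℕ => p v m / (m + 1)) atTop (𝓝 0) := by
    have h1 : Tendsto (fun m : ℕ => Real.sqrt (1 / ((m : ℝ) + 1))) atTop (𝓝 0) := by
      have := (Real.continuous_sqrt.tendsto 0).comp
        (tendsto_one_div_add_atTop_nhds_zero_nat (𝕜 := ℝ))
      rw [Real.sqrt_zero] at this
      exact this
    apply squeeze_zero_norm _ h1
    intro m
    rw [Real.norm_eq_abs]
    apply Real.le_sqrt_of_sq_le
    have h2 := p_bound v v2 m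
    have h3 : (0 : ℝ) < (m : ℝ) + 1 := by positivity
    rw [sq_abs, div_pow, div_le_div_iff₀ (by positivity) h3]
    nlinarith
  have h1 : Tendsto (fun m : ℕ => |p v m / (m + 1)|) atTop (𝓝 0) := by simpa using hp.abs
  apply squeeze_zero_norm _ h1
  intro m
  unfold fy
  rw [Real.norm_eq_abs]
  split_ifs
  · exact le_rfl
  · rw [abs_zero]; exact abs_nonneg _

lemma iter_eq (n : ℕ) (x : S05779.X) : (⇑T)^[n] x = (T ^ n) x := by
  induction n generalizing x with
  | zero => rfl
  | succ n ih =>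
    rw [Function.iterate_succ_apply, ih, pow_succ]
    rfl

/-- Some bounded operator on a real or complex Banach space has a frequently hypercyclic vector x and a nonempty open U such that no subset of the visit set of x in U has a natural density that exists and is positive. -/
theorem result :
    ∃ (𝕜 : Type) (_ : RCLike 𝕜) (X : Type) (_ : NormedAddCommGroup X)
      (_ : NormedSpace 𝕜 X) (_ : CompleteSpace X) (T : X →L[𝕜] X) (x : X),
      (∀ U : Set X, IsOpen U → U.Nonempty →
        ∃ δ : ℝ, 0 < δ ∧ ∀ᶠ n : ℕ in Filter.atTop,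
          δ * (n : ℝ) ≤ (({k : ℕ | k < n ∧ (⇑T)^[k] x ∈ U}.ncard : ℕ) : ℝ)) ∧
      ∃ U : Set X, IsOpen U ∧ U.Nonempty ∧
        ∀ A : Set ℕ, A ⊆ {k : ℕ | (⇑T)^[k] x ∈ U} →
          ¬ ∃ d : ℝ, 0 < d ∧
            Filter.Tendsto
              (fun n : ℕ => (({k : ℕ | k < n ∧ k ∈ A}.ncard : ℕ) : ℝ) / (n : ℝ))
              Filter.atTop (nhds d) := by
  refine ⟨ℝ, inferInstance, S05779.X, inferInstance, inferInstance, inferInstance, T,
    mkX fy tendsto_fy, ?_, ?_⟩
  · intro U hU hne
    obtain ⟨δ, hδ, h⟩ := fhc_of_phase 0 (by norm_num) (mkX fy tendsto_fy) (by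
      intro e he m h1 h2
      rw [mkX_apply]
      unfold fy
      rw [four_pow_log h1 h2, if_pos he]
      field_simp) U hU hne
    refine ⟨δ, hδ, ?_⟩
    simp only [iter_eq]
    exact h
  · refine ⟨{z : S05779.X | 1 < z 0}, ?_, ?_, ?_⟩
    · have hc : Continuous fun z : S05779.X => z 0 := by
        refine LipschitzWith.continuous (K := 1) (LipschitzWith.of_dist_le_mul fun z w => ?_)
        rw [NNReal.coe_one, one_mul, Real.dist_eq, dist_eq_norm]
        exact abs_le_norm_X (z - w) 0
      exact isOpen_lt continuous_const hc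
    · have ht : Tendsto (fun n : ℕ => if n = 0 then (2 : ℝ) else 0) atTop (𝓝 0) := by
        refine tendsto_const_nhds.congr' ?_
        filter_upwards [eventually_gt_atTop 0] with n hn
        rw [if_neg hn.ne']
      exact ⟨mkX _ ht, by
        change (1 : ℝ) < mkX _ ht 0
        rw [mkX_apply, if_pos rfl]; norm_num⟩
    · rintro A hA ⟨d, hd, hlim⟩
      -- no visits in `[4 ^ e, 4 ^ (e + 1))`, `e` odd
      have hno : ∀ e : ℕ, e % 2 = 1 → ∀ n : ℕ, 4 ^ e ≤ n → n < 4 ^ (e + 1) → n ∉ A := by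
        intro e he n h1 h2 hn
        have h3 : (1 : ℝ) < ((⇑T)^[n] (mkX fy tendsto_fy)) 0 := hA hn
        rw [iter_eq, T_pow_apply, mkX_apply] at h3
        have h4 : fy (n + 0) = 0 := by
          unfold fy
          rw [Nat.add_zero, four_pow_log h1 h2, if_neg (by omega)]
        rw [h4, mul_zero] at h3
        linarith
      have heq : ∀ j : ℕ, (({k : ℕ | k < 4 ^ (2 * j + 2) ∧ k ∈ A}.ncard : ℕ) : ℝ) /
          ((4 ^ (2 * j + 2) : ℕ) : ℝ) =
          (1 / 4) * ((({k : ℕ | k < 4 ^ (2 * j + 1) ∧ k ∈ A}.ncard : ℕ) : ℝ) /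
          ((4 ^ (2 * j + 1) : ℕ) : ℝ)) := by
        intro j
        have h1 : {k : ℕ | k < 4 ^ (2 * j + 2) ∧ k ∈ A} = {k : ℕ | k < 4 ^ (2 * j + 1) ∧ k ∈ A} := by
          ext k
          simp only [Set.mem_ofPred_eq]
          constructor
          · rintro ⟨h2, h3⟩
            refine ⟨?_, h3⟩
            by_contra hcon
            push Not at hcon
            exact hno (2 * j + 1) (by omega) k hcon h2 h3
          · rintro ⟨h2, h3⟩
            refine ⟨h2.trans_le ?_, h3⟩
            exact Nat.pow_le_pow_right (by norm_num) (by omega)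
        rw [h1]
        have h5 : ((4 ^ (2 * j + 2) : ℕ) : ℝ) = 4 * ((4 ^ (2 * j + 1) : ℕ) : ℝ) := by
          push_cast
          ring
        have h6 : ((4 ^ (2 * j + 1) : ℕ) : ℝ) ≠ 0 := by positivity
        rw [h5]
        generalize (({k : ℕ | k < 4 ^ (2 * j + 1) ∧ k ∈ A}.ncard : ℕ) : ℝ) = c
        field_simp
      have t1 : Tendsto (fun j : ℕ => 4 ^ (2 * j + 2)) atTop atTop := by
        refine tendsto_atTop_mono (fun j => ?_) tendsto_id
        have := Nat.lt_pow_self (n := 2 * j + 2) (a := 4) (by norm_num)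
        simp only [id]
        omega
      have t2 : Tendsto (fun j : ℕ => 4 ^ (2 * j + 1)) atTop atTop := by
        refine tendsto_atTop_mono (fun j => ?_) tendsto_id
        have := Nat.lt_pow_self (n := 2 * j + 1) (a := 4) (by norm_num)
        simp only [id]
        omega
      have l1 := hlim.comp t1
      have l2 := (hlim.comp t2).const_mul (1 / 4)
      have l3 : Tendsto (fun j : ℕ => (1 / 4 : ℝ) * ((({k : ℕ | k < 4 ^ (2 * j + 1) ∧ k ∈ A}.ncard : ℕ) : ℝ) /
          ((4 ^ (2 * j + 1) : ℕ) : ℝ))) atTop (𝓝 d) := by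
        refine l1.congr fun j => ?_
        exact heq j
      have l4 := tendsto_nhds_unique l3 l2
      linarith

end Pool.Agent.S03851
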