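import Pool.Statements.S03878
import Pool.Agent.W700.GFin

set_option autoImplicit false
open Pool Pool.MP_136c99_an

namespace Pool.Agent.S03878

/-- The negation of the preceding statement: For every pointed proper metric space whose flat-at-infinity little-Lipschitz functions separate points uniformly, its Lipschitz-free space (characterized by its universal property) has the metric approximation property. -/
theorem result :
    ¬ (∀ (M : Type) [MetricSpace M] [ProperSpace M] (x0 : M),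
    (∃ c : ℝ, 1 ≤ c ∧ ∀ x y : M, ∃ f : M → ℝ,
      (∀ a b : M, |f a - f b| ≤ c * dist a b) ∧
      (∀ ε : ℝ, 0 < ε → ∃ η : ℝ, 0 < η ∧
        ∀ a b : M, dist a b < η → |f a - f b| ≤ ε * dist a b) ∧
      (∀ ε : ℝ, 0 < ε → ∃ r : ℝ,
        ∀ a b : M, (r < dist a x0 ∨ r < dist b x0) → |f a - f b| ≤ ε * dist a b) ∧
      f x - f y = dist x y) →
    ∀ (E : Type) [NormedAddCommGroup E] [NormedSpace ℝ E] [CompleteSpace E] (δ : M → E),
      δ x0 = 0 →
      (∀ x y : M, ‖δ x - δ y‖ = dist x y) →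
      Dense ((Submodule.span ℝ (Set.range δ) : Submodule ℝ E) : Set E) →
      (∀ f : M → ℝ, f x0 = 0 → (∀ a b : M, |f a - f b| ≤ dist a b) →
        ∃ φ : E →L[ℝ] ℝ, ‖φ‖ ≤ 1 ∧ ∀ x : M, φ (δ x) = f x) →
      ∀ K : Set E, IsCompact K → ∀ ε : ℝ, 0 < ε →
        ∃ T : E →L[ℝ] E,
          FiniteDimensional ℝ (LinearMap.range (T : E →ₗ[ℝ] E)) ∧ ‖T‖ ≤ 1 ∧
          ∀ z ∈ K, ‖T z - z‖ ≤ ε) := by
  intro hall
  obtain ⟨T, C, hC, hC0, hbad⟩ := Pool.Agent.W700.Gauge.exists_bad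
    (Pool.Agent.H548R3.NoAP.exists_data Pool.Agent.Helper362.Hap.dat)
  have hcomp : CompactSpace (Pool.Agent.W700.Gauge.GM T C) :=
    Pool.Agent.W700.Gauge.GM.compactSpace hC
  let x0 : Pool.Agent.W700.Gauge.GM T C := ⟨0, hC0⟩
  obtain ⟨E, _, _, _, δ, h1, h2, h3, h4, β, hβ⟩ := Pool.Agent.W700.Gauge.exists_free
    (Pool.Agent.W700.Gauge.GM T C) x0 _ (fun x => x.pt) rfl
    (fun x y => Pool.Agent.W700.Gauge.GM.norm_le_dist x y)
  obtain ⟨K, hK, ε, hε, hKR⟩ := hbad E δ h2 β hβ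
  obtain ⟨R, hR, -, hRz⟩ := hall (Pool.Agent.W700.Gauge.GM T C) x0
    ⟨1, le_rfl, fun x y => Pool.Agent.W700.Gauge.GM.separates hC x0 x y⟩ E δ h1 h2 h3 h4 K hK ε hε
  obtain ⟨z, hz, hlt⟩ := hKR R hR
  exact absurd (hRz z hz) (not_le.2 hlt)

end Pool.Agent.S03878
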