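import Pool.Statements.S03935
import Pool.Agent.Results.MP_17a4eb_an.GlobalPseudoResolvent

set_option autoImplicit false
open Pool Pool.MP_17a4eb_an

namespace Pool.Agent.S03935

/-- For every complex unital Banach algebra A, every left invertible a with left invertibility radius 1, and every compact K in the open unit disc, some g holomorphic on an open set containing K satisfies g(λ)(a−λ)=1 and the resolvent identity on K. -/
theorem result :
    ∀ (A : Type) [NormedRing A] [NormedAlgebra ℂ A] [CompleteSpace A] (a : A),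
      (∃ b : A, b * a = 1) →
      (∀ z : ℂ, ‖z‖ < 1 → ∃ b : A, b * (a - algebraMap ℂ A z) = 1) →
      (∀ α : ℝ, 1 < α → ∃ z : ℂ, ‖z‖ < α ∧ ∀ b : A, b * (a - algebraMap ℂ A z) ≠ 1) →
      ∀ K : Set ℂ, IsCompact K → K ⊆ Metric.ball (0 : ℂ) 1 →
        ∃ U : Set ℂ, IsOpen U ∧ K ⊆ U ∧
          ∃ g : ℂ → A, DifferentiableOn ℂ g U ∧
            (∀ z ∈ K, g z * (a - algebraMap ℂ A z) = 1) ∧
            (∀ z ∈ K, ∀ w ∈ K, g z - g w = (z - w) • (g z * g w)) := by
  intro A _ _ _ a ha h1 h2 K hK hKD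
  obtain ⟨U, g, hU, hKU, hg, h3, h4⟩ :=
    Pool.Agent.Results.MP_17a4eb_an.GlobalPseudoResolvent.result A a ha (by
      refine ⟨?_, ?_⟩
      · rintro α ⟨hα, hz⟩
        by_contra hlt
        obtain ⟨z, hz1, hz2⟩ := h2 α (not_le.1 hlt)
        obtain ⟨b, hb⟩ := hz z hz1
        exact hz2 b hb
      · intro u hu
        exact hu ⟨one_pos, h1⟩) K hK hKD
  exact ⟨U, hU, hKU, g, hg, fun z hz => h3 z (hKU hz),
    fun z hz w hw => h4 z (hKU hz) w (hKU hw)⟩

end Pool.Agent.S03935
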