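import Pool.Statements.S03946
import Pool.Agent.W586.GZ.Fin

set_option autoImplicit false
open Filter Topology
open Pool Pool.MP_18b69d_an

namespace Pool.Agent.S03946

/-- The negation of the preceding statement: Take real Banach spaces X, Y with Schauder bases (e_n), (f_n) having the factorization property. Then any operator T on X×Y whose diagonal entries on all (e_n,0), (0,f_n) are bounded away from 0 has the identity of X×Y factoring through it. -/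
theorem result :
    ¬ (∀ (X Y : Type) [NormedAddCommGroup X] [NormedSpace ℝ X] [CompleteSpace X]
      [NormedAddCommGroup Y] [NormedSpace ℝ Y] [CompleteSpace Y]
      (e : ℕ → X) (e' : ℕ → (X →L[ℝ] ℝ)) (f : ℕ → Y) (f' : ℕ → (Y →L[ℝ] ℝ)),
      (∀ i j : ℕ, e' i (e j) = if i = j then (1 : ℝ) else 0) →
      (∀ x : X, Tendsto (fun N : ℕ => ∑ n ∈ Finset.range N, e' n x • e n) atTop (𝓝 x)) →
      (∀ i j : ℕ, f' i (f j) = if i = j then (1 : ℝ) else 0) →
      (∀ y : Y, Tendsto (fun N : ℕ => ∑ n ∈ Finset.range N, f' n y • f n) atTop (𝓝 y)) →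
      (∀ T : X →L[ℝ] X, (∃ δ : ℝ, 0 < δ ∧ ∀ n : ℕ, δ ≤ |e' n (T (e n))|) →
        ∃ A B : X →L[ℝ] X, A.comp (T.comp B) = ContinuousLinearMap.id ℝ X) →
      (∀ T : Y →L[ℝ] Y, (∃ δ : ℝ, 0 < δ ∧ ∀ n : ℕ, δ ≤ |f' n (T (f n))|) →
        ∃ A B : Y →L[ℝ] Y, A.comp (T.comp B) = ContinuousLinearMap.id ℝ Y) →
      ∀ T : (X × Y) →L[ℝ] (X × Y),
        (∃ δ : ℝ, 0 < δ ∧ ∀ n : ℕ,
            δ ≤ |e' n ((T (e n, (0 : Y))).1)| ∧ δ ≤ |f' n ((T ((0 : X), f n)).2)|) →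
        ∃ A B : (X × Y) →L[ℝ] (X × Y), A.comp (T.comp B) = ContinuousLinearMap.id ℝ (X × Y)) :=
  Pool.Agent.W883.GZ.main Pool.Agent.W395.GZ.main Pool.Agent.W18.GZ.BAN.main
    Pool.Agent.W586.GZ.fact Pool.Agent.W586.GZ.c3

end Pool.Agent.S03946
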