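import Pool.Statements.S03956
import Pool.Agent.Results.MP_19858b_an.GenericCompanion

set_option autoImplicit false
open Pool Pool.MP_19858b_an

namespace Pool.Agent.S03956

/-- The negation of the preceding statement: In every nonzero real Banach space, the equivalent norms admitting a companion norm (some equivalent norm for which their unit ball is antiproximinal) form a first-category set under the metric of uniform convergence on the unit ball. -/
theorem result :
    ¬ (∀ (X : Type) [NormedAddCommGroup X] [NormedSpace ℝ X] [CompleteSpace X] [Nontrivial X],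
  ∃ F : ℕ → Set (Seminorm ℝ X),
    (∀ p : Seminorm ℝ X,
      (∃ a b : ℝ, 0 < a ∧ 0 < b ∧ ∀ x : X, a * ‖x‖ ≤ p x ∧ p x ≤ b * ‖x‖) →
      (∃ q : Seminorm ℝ X,
        (∃ a b : ℝ, 0 < a ∧ 0 < b ∧ ∀ x : X, a * ‖x‖ ≤ q x ∧ q x ≤ b * ‖x‖) ∧
        ∀ x : X, 1 < p x → ∀ y : X, p y ≤ 1 → ∃ z : X, p z ≤ 1 ∧ q (x - z) < q (x - y)) →
      ∃ n : ℕ, p ∈ F n) ∧
    ∀ n : ℕ, ∀ p : Seminorm ℝ X,
      (∃ a b : ℝ, 0 < a ∧ 0 < b ∧ ∀ x : X, a * ‖x‖ ≤ p x ∧ p x ≤ b * ‖x‖) →
      ∀ ε : ℝ, 0 < ε →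
        ∃ q : Seminorm ℝ X,
          (∃ a b : ℝ, 0 < a ∧ 0 < b ∧ ∀ x : X, a * ‖x‖ ≤ q x ∧ q x ≤ b * ‖x‖) ∧
          ∃ δ : ℝ, 0 < δ ∧
            ∀ r : Seminorm ℝ X,
              (∃ a b : ℝ, 0 < a ∧ 0 < b ∧ ∀ x : X, a * ‖x‖ ≤ r x ∧ r x ≤ b * ‖x‖) →
              (⨆ x : Metric.closedBall (0 : X) 1, |q (x : X) - r (x : X)|) < δ →
              ((⨆ x : Metric.closedBall (0 : X) 1, |p (x : X) - r (x : X)|) < ε ∧ r ∉ F n)) := by
  intro hall
  classical
  let X : Type := ZeroAtInftyContinuousMap ℕ ℝ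
  have : Nontrivial X := by
    by_contra hnt
    rw [not_nontrivial_iff_subsingleton] at hnt
    have hres := Pool.Agent.Results.MP_19858b_an.GenericCompanion.result.1
    -- in a trivial space the set of companionable norms would be everything; use a unit vector
    let f : C(ℕ, ℝ) := ⟨fun n => if n = 0 then 1 else 0, continuous_of_discreteTopology⟩
    have hf : Filter.Tendsto f (Filter.cocompact ℕ) (nhds 0) := by
      refine tendsto_const_nhds.congr' ?_
      rw [Filter.EventuallyEq, Filter.cocompact_eq_cofinite, Filter.eventually_cofinite]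
      refine (Set.finite_singleton (0 : ℕ)).subset ?_
      intro n hn
      by_contra h0
      apply hn
      have : n ≠ 0 := h0
      simp [f, this]
    let g : X := ⟨f, hf⟩
    have h1 : g = 0 := Subsingleton.elim _ _
    have h2 : g 0 = 0 := by rw [h1]; rfl
    have h3 : g 0 = 1 := by
      change (if (0 : ℕ) = 0 then (1 : ℝ) else 0) = 1
      simp
    rw [h3] at h2
    exact one_ne_zero h2
  obtain ⟨F, hF1, hF2⟩ := hall X
  -- conversion between the two encodings of equivalent norms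
  let toS : Pool.Agent.Results.MP_19858b_an.GenericCompanion.EqNorm X → Seminorm ℝ X := fun p =>
    Seminorm.of p p.add_le' (fun a x => by rw [p.smul', Real.norm_eq_abs])
  have toS_apply : ∀ p x, toS p x = p x := fun p x => rfl
  have toS_eq : ∀ p : Pool.Agent.Results.MP_19858b_an.GenericCompanion.EqNorm X,
      ∃ a b : ℝ, 0 < a ∧ 0 < b ∧ ∀ x : X, a * ‖x‖ ≤ toS p x ∧ toS p x ≤ b * ‖x‖ := by
    intro p
    obtain ⟨c, C, hc, h⟩ := p.equiv'
    refine ⟨c, max C 1, hc, lt_max_of_lt_right one_pos, fun x => ⟨(h x).1, (h x).2.trans ?_⟩⟩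
    exact mul_le_mul_of_nonneg_right (le_max_left _ _) (norm_nonneg x)
  have ofS : ∀ s : Seminorm ℝ X,
      (∃ a b : ℝ, 0 < a ∧ 0 < b ∧ ∀ x : X, a * ‖x‖ ≤ s x ∧ s x ≤ b * ‖x‖) →
      ∃ p : Pool.Agent.Results.MP_19858b_an.GenericCompanion.EqNorm X, toS p = s := by
    rintro s ⟨a, b, ha, hb, h⟩
    refine ⟨⟨s, fun x y => map_add_le_add s x y, fun t x => ?_, a, b, ha, h⟩, ?_⟩
    · rw [map_smul_eq_mul, Real.norm_eq_abs]
    · ext x
      rfl
  have hnd : ∀ n, IsNowhereDense {p : Pool.Agent.Results.MP_19858b_an.GenericCompanion.EqNorm X | toS p ∈ F n} := by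
    intro n
    rw [IsNowhereDense, Set.eq_empty_iff_forall_notMem]
    intro p hp
    rw [mem_interior_iff_mem_nhds, Metric.mem_nhds_iff] at hp
    obtain ⟨ε, hε, hball⟩ := hp
    obtain ⟨s, hs, δ, hδ, hr⟩ := hF2 n (toS p) (toS_eq p) ε hε
    obtain ⟨q, rfl⟩ := ofS s hs
    have hq := hr (toS q) hs (by
      have : (⨆ x : Metric.closedBall (0 : X) 1, |toS q (x : X) - toS q (x : X)|) = 0 := by
        simp
      rw [this]
      exact hδ)
    have hqball : q ∈ Metric.ball p ε := by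
      rw [Metric.mem_ball, dist_comm]
      exact hq.1
    have hcl := hball hqball
    rw [Metric.mem_closure_iff] at hcl
    obtain ⟨r, hrF, hdist⟩ := hcl δ hδ
    exact (hr (toS r) (toS_eq r) hdist).2 hrF
  have hsub : Pool.Agent.Results.MP_19858b_an.GenericCompanion.Companionable X ⊆
      ⋃ n, {p : Pool.Agent.Results.MP_19858b_an.GenericCompanion.EqNorm X | toS p ∈ F n} := by
    rintro p ⟨q, hq⟩
    obtain ⟨n, hn⟩ := hF1 (toS p) (toS_eq p) ⟨toS q, toS_eq q, fun x hx y hy => by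
      by_contra hcon
      push Not at hcon
      exact hq x hx ⟨y, hy, fun z hz => hcon z hz⟩⟩
    exact Set.mem_iUnion.2 ⟨n, hn⟩
  have hmeagre : IsMeagre (Pool.Agent.Results.MP_19858b_an.GenericCompanion.Companionable X) :=
    (isMeagre_iUnion fun n => (hnd n).isMeagre).mono hsub
  have hne : Nonempty (Pool.Agent.Results.MP_19858b_an.GenericCompanion.EqNorm X) :=
    ⟨⟨fun x => ‖x‖, norm_add_le, fun a x => by rw [norm_smul, Real.norm_eq_abs],
      1, 1, one_pos, fun x => ⟨by rw [one_mul], by rw [one_mul]⟩⟩⟩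
  exact not_isMeagre_of_mem_residual Pool.Agent.Results.MP_19858b_an.GenericCompanion.result.1 hmeagre

end Pool.Agent.S03956
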