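import Pool.Statements.S03983
import Pool.Agent.W712.WR.All

set_option autoImplicit false
open Pool Pool.MP_1be7de_an

namespace Pool.Agent.S03983

/-- For every weakly reversible E-graph in R^n, rates bounded between ε and 1/ε, and positive differentiable solution on an interval containing 0, all coordinates stay above some fixed positive constant for t ≥ 0. -/
theorem result :
    ∀ (n : ℕ) (E : Finset ((Fin n → ℝ) × (Fin n → ℝ))),
      (∀ e ∈ E, e.1 ≠ e.2) →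
      (∀ e ∈ E, Relation.ReflTransGen (fun u v => (u, v) ∈ E) e.2 e.1) →
      ∀ (ε : ℝ), 0 < ε →
      ∀ (k : (Fin n → ℝ) × (Fin n → ℝ) → ℝ → ℝ),
        (∀ e ∈ E, ∀ t : ℝ, ε ≤ k e t ∧ k e t ≤ 1 / ε) →
      ∀ (I : Set ℝ), I.OrdConnected → (0 : ℝ) ∈ I →
      ∀ (x : ℝ → Fin n → ℝ),
        (∀ t ∈ I, ∀ i : Fin n, 0 < x t i) →
        (∀ t ∈ I, HasDerivWithinAt x
            (∑ e ∈ E, (k e t * ∏ i : Fin n, (x t i) ^ (e.1 i)) • (e.2 - e.1)) I t) →
        ∃ ε₀ : ℝ, 0 < ε₀ ∧ ∀ t ∈ I, 0 ≤ t → ∀ i : Fin n, ε₀ < x t i :=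
  W712.WR.s03983'

end Pool.Agent.S03983
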