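import Pool.Statements.S03996
import Pool.Agent.W98.RB.Final3
import Pool.Agent.W98.RB.WL
import Pool.Agent.W98.RB.LP
import Pool.Agent.W98.RB.CUT
import Pool.Agent.W98.RB.CONT
import Pool.Agent.W665.RB.MAX
import Pool.Agent.W665.RB.MIN
import Pool.Agent.W597.RB.PATH
import Pool.Agent.W597.RB.CL
import Pool.Agent.W597.RB.TR
import Pool.Agent.W349.RB.SEL
import Pool.Agent.W349.RB.HAUS
import Pool.Agent.W571.RB.MOL
import Pool.Agent.W571.RB.C1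
import Pool.Agent.W571.RB.ID

set_option autoImplicit false
open MeasureTheory
open Pool Pool.MP_1dc5fb_an

namespace Pool.Agent.S03996

/-- The negation of the preceding statement: For every d≥2, positive reaction f, α>0 and Lipschitz epigraph Ω, any two weak solutions of −Δu=f(u) in Ω, u+α∂_νu=0 on ∂Ω, with 0<u≤1 (continuous up to the boundary, locally H¹), coincide on Ω. -/
theorem result :
    ¬ (∀ (n : ℕ), 1 ≤ n →
    ∀ f : ℝ → ℝ, ContDiff ℝ 1 f →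
    (∃ C γ : NNReal, 0 < γ ∧ γ < 1 ∧ HolderOnWith C γ (deriv f) (Set.Icc (0:ℝ) 1)) →
    f 0 = 0 → f 1 = 0 → (∀ s ∈ Set.Ioo (0:ℝ) 1, 0 < f s) →
    0 < deriv f 0 → deriv f 1 < 0 →
    ∀ α : ℝ, 0 < α →
    ∀ φ : (Fin n → ℝ) → ℝ, (∃ K : NNReal, LipschitzWith K φ) →
    ∀ Ω : Set (EuclideanSpace ℝ (Fin (n+1))),
    Ω = {x | φ (fun i => x (Fin.castSucc i)) < x (Fin.last n)} →
    ∀ u v : EuclideanSpace ℝ (Fin (n+1)) → ℝ,
    (∀ w : EuclideanSpace ℝ (Fin (n+1)) → ℝ, (w = u ∨ w = v) →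
      ContDiffOn ℝ 1 w Ω ∧ ContinuousOn w (closure Ω) ∧
      (∀ x ∈ Ω, 0 < w x ∧ w x ≤ 1) ∧
      (∀ R : ℝ, IntegrableOn (fun x => ‖gradient w x‖ ^ 2) (Ω ∩ Metric.ball 0 R)) ∧
      (∀ ψ : EuclideanSpace ℝ (Fin (n+1)) → ℝ, ContDiff ℝ 1 ψ → HasCompactSupport ψ →
        (∫ x in Ω, inner ℝ (gradient w x) (gradient ψ x))
          + (1/α) * (∫ x in frontier Ω, w x * ψ x ∂(Measure.hausdorffMeasure (n:ℝ)))
          = ∫ x in Ω, f (w x) * ψ x)) →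
    Set.EqOn u v Ω) := by
  have hMAX := Pool.Agent.W665.RB.T_MAX Pool.Agent.W98.RB.T_CUT Pool.Agent.W98.RB.T_LIN
    Pool.Agent.W98.RB.T_POI
  have hMIN := Pool.Agent.W665.RB.T_MIN Pool.Agent.W98.RB.T_CUT Pool.Agent.W98.RB.T_LIN
    Pool.Agent.W98.RB.T_POI
  have hSEL := Pool.Agent.W349.RB.T_SEL Pool.Agent.W597.RB.T_PATH Pool.Agent.W597.RB.T_TON
    (Pool.Agent.W597.RB.T_CL Pool.Agent.W597.RB.T_TON)
  exact Pool.Agent.W98.RB.Fin3.main Pool.Agent.W98.RB.T_WL Pool.Agent.W571.RB.T_MOL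
    (Pool.Agent.W571.RB.T_C1 Pool.Agent.W571.RB.T_GR) Pool.Agent.W571.RB.T_ID
    (Pool.Agent.W98.RB.T_CONT hSEL hMAX hMIN) Pool.Agent.W597.RB.T_TR Pool.Agent.W349.RB.T_HAUS

end Pool.Agent.S03996
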