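import Pool.Statements.S04023
import Pool.Agent.W814.FrLoc

set_option autoImplicit false
open Pool Pool.MP_1fef1a_an

namespace Pool.Agent.S04023

open MeasureTheory Filter Topology Set Complex
open Pool.Agent.Helper758.LS

/-- the logarithm of the norm bounded through the exponential -/
lemma log_enorm_le {w : ℂ} {a : ℝ} (h : ‖w‖ ≤ Real.exp a) : ENNReal.log ‖w‖ₑ ≤ (a : EReal) := by
  have h1 : ‖w‖ₑ ≤ ENNReal.ofReal (Real.exp a) := by
    rw [← ofReal_norm]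
    exact ENNReal.ofReal_le_ofReal h
  calc ENNReal.log ‖w‖ₑ ≤ ENNReal.log (ENNReal.ofReal (Real.exp a)) := ENNReal.log_monotone h1
    _ = (a : EReal) := by
      rw [ENNReal.log_ofReal_of_pos (Real.exp_pos a), Real.log_exp]

lemma le_log_enorm {w : ℂ} {a : ℝ} (h : Real.exp a ≤ ‖w‖) : (a : EReal) ≤ ENNReal.log ‖w‖ₑ := by
  have h1 : ENNReal.ofReal (Real.exp a) ≤ ‖w‖ₑ := by
    rw [← ofReal_norm]
    exact ENNReal.ofReal_le_ofReal h
  calc (a : EReal) = ENNReal.log (ENNReal.ofReal (Real.exp a)) := by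
        rw [ENNReal.log_ofReal_of_pos (Real.exp_pos a), Real.log_exp]
    _ ≤ ENNReal.log ‖w‖ₑ := ENNReal.log_monotone h1

lemma mul_aux {r ρ a : ℝ} (hr : 0 < r) : ((r ^ (-ρ) : ℝ) : EReal) * ((a * r ^ ρ : ℝ) : EReal)
    = ((a : ℝ) : EReal) := by
  rw [← EReal.coe_mul]
  congr 1
  rw [mul_comm, mul_assoc, ← Real.rpow_add hr]
  simp

lemma classA (ρ : ℝ) (hρ : 0 < ρ) (f : ℂ → ℂ) (hf : Differentiable ℂ f)
    (h1 : ∃ C : ℝ, ∀ z : ℂ, ‖f z‖ ≤ Real.exp (C * (1 + ‖z‖ ^ ρ)))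
    (h2 : ∃ ε : ℝ, 0 < ε ∧ ∀ R : ℝ, ∃ z : ℂ, R ≤ ‖z‖ ∧ Real.exp (ε * ‖z‖ ^ ρ) ≤ ‖f z‖) :
    ClassA f ρ := by
  refine ⟨hf, ?_, ?_⟩
  · obtain ⟨ε, hε, h⟩ := h2
    have h3 : (ε : EReal) ≤ typ f ρ := by
      unfold typ
      apply le_limsup_of_frequently_le'
      rw [frequently_atTop]
      intro R
      obtain ⟨z, hz, hz2⟩ := h (max R 1)
      have hr : 0 < ‖z‖ := lt_of_lt_of_le one_pos ((le_max_right _ _).trans hz)
      refine ⟨‖z‖, (le_max_left _ _).trans hz, ?_⟩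
      have h4 : ((ε * ‖z‖ ^ ρ : ℝ) : EReal)
          ≤ ENNReal.log (⨆ w ∈ Metric.sphere (0 : ℂ) ‖z‖, ‖f w‖ₑ) :=
        (le_log_enorm hz2).trans (ENNReal.log_monotone
          (le_iSup₂_of_le z (by simp) le_rfl))
      calc (ε : EReal) = ((‖z‖ ^ (-ρ) : ℝ) : EReal) * ((ε * ‖z‖ ^ ρ : ℝ) : EReal) :=
            (mul_aux hr).symm
        _ ≤ _ := mul_le_mul_of_nonneg_left h4 (by
            exact_mod_cast (Real.rpow_pos_of_pos hr _).le)
    exact lt_of_lt_of_le (by exact_mod_cast hε) h3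
  · obtain ⟨C, h⟩ := h1
    have h3 : typ f ρ ≤ ((2 * |C| : ℝ) : EReal) := by
      unfold typ
      refine limsup_le_of_le (h := ?_)
      filter_upwards [eventually_ge_atTop (1 : ℝ)] with r hr
      have hr0 : 0 < r := by linarith
      have hr1 : 1 ≤ r ^ ρ := Real.one_le_rpow hr hρ.le
      have h4 : ENNReal.log (⨆ w ∈ Metric.sphere (0 : ℂ) r, ‖f w‖ₑ)
          ≤ ((2 * |C| * r ^ ρ : ℝ) : EReal) := by
        have h5 : (⨆ w ∈ Metric.sphere (0 : ℂ) r, ‖f w‖ₑ)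
            ≤ ENNReal.ofReal (Real.exp (2 * |C| * r ^ ρ)) := by
          apply iSup₂_le
          intro w hw
          rw [mem_sphere_zero_iff_norm] at hw
          rw [← ofReal_norm]
          apply ENNReal.ofReal_le_ofReal
          refine (h w).trans (Real.exp_le_exp.2 ?_)
          rw [hw]
          have h6 : C ≤ |C| := le_abs_self C
          have h7 : 0 ≤ |C| := abs_nonneg C
          nlinarith
        refine (ENNReal.log_monotone h5).trans ?_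
        rw [ENNReal.log_ofReal_of_pos (Real.exp_pos _), Real.log_exp]
      calc ((r ^ (-ρ) : ℝ) : EReal) * ENNReal.log (⨆ w ∈ Metric.sphere (0 : ℂ) r, ‖f w‖ₑ)
          ≤ ((r ^ (-ρ) : ℝ) : EReal) * ((2 * |C| * r ^ ρ : ℝ) : EReal) :=
            mul_le_mul_of_nonneg_left h4 (by exact_mod_cast (Real.rpow_pos_of_pos hr0 _).le)
        _ = _ := mul_aux hr0
    exact lt_of_le_of_lt h3 (EReal.coe_lt_top _)

lemma indic_le {ρ : ℝ} {f : ℂ → ℂ} {φ a : ℝ}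
    (h : ∀ᶠ r : ℝ in atTop, ‖f ((r : ℂ) * Complex.exp ((φ : ℂ) * Complex.I))‖
      ≤ Real.exp (a * r ^ ρ)) : indic f ρ φ ≤ (a : EReal) := by
  unfold indic
  refine limsup_le_of_le (h := ?_)
  filter_upwards [h, eventually_gt_atTop (0 : ℝ)] with r hr hr0
  calc ((r ^ (-ρ) : ℝ) : EReal) * ENNReal.log ‖f (r * cexp (φ * I))‖ₑ
      ≤ ((r ^ (-ρ) : ℝ) : EReal) * ((a * r ^ ρ : ℝ) : EReal) :=
        mul_le_mul_of_nonneg_left (log_enorm_le hr)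
          (by exact_mod_cast (Real.rpow_pos_of_pos hr0 _).le)
    _ = _ := mul_aux hr0

lemma indic_le_sInf {ρ : ℝ} (hρ : 0 < ρ) {f : ℂ → ℂ} {φ : ℝ}
    (h1 : ∃ C : ℝ, ∀ z : ℂ, ‖f z‖ ≤ Real.exp (C * (1 + ‖z‖ ^ ρ))) :
    indic f ρ φ ≤ ((sInf {a : ℝ | ∀ᶠ r : ℝ in Filter.atTop,
            ‖f ((r : ℂ) * Complex.exp ((φ : ℂ) * Complex.I))‖
              ≤ Real.exp (a * r ^ ρ)} : ℝ) : EReal) := by
  set S : Set ℝ := {a : ℝ | ∀ᶠ r : ℝ in Filter.atTop,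
            ‖f ((r : ℂ) * Complex.exp ((φ : ℂ) * Complex.I))‖
              ≤ Real.exp (a * r ^ ρ)} with hS
  have hSa : ∀ a ∈ S, indic f ρ φ ≤ (a : EReal) := fun a ha => indic_le ha
  have hne : S.Nonempty := by
    obtain ⟨C, h⟩ := h1
    refine ⟨2 * |C|, ?_⟩
    filter_upwards [eventually_ge_atTop (1 : ℝ)] with r hr
    have hr0 : 0 < r := by linarith
    have hr1 : 1 ≤ r ^ ρ := Real.one_le_rpow hr hρ.le
    have hn : ‖(r : ℂ) * cexp (φ * I)‖ = r := by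
      rw [norm_mul, Complex.norm_exp_ofReal_mul_I, mul_one, Complex.norm_real, Real.norm_eq_abs,
        abs_of_pos hr0]
    refine (h _).trans (Real.exp_le_exp.2 ?_)
    rw [hn]
    have h6 : C ≤ |C| := le_abs_self C
    have h7 : 0 ≤ |C| := abs_nonneg C
    nlinarith
  by_cases hb : BddBelow S
  · apply le_of_forall_gt
    intro c hc
    induction c with
    | bot => exact absurd hc (by simp)
    | top =>
      obtain ⟨a, ha⟩ := hne
      exact lt_of_le_of_lt (hSa a ha) (EReal.coe_lt_top a)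
    | coe c =>
      have hc' : sInf S < c := by exact_mod_cast hc
      obtain ⟨a, ha, hac⟩ := exists_lt_of_csInf_lt hne hc'
      exact lt_of_le_of_lt (hSa a ha) (by exact_mod_cast hac)
  · have hbot : indic f ρ φ = ⊥ := by
      rw [EReal.eq_bot_iff_forall_lt]
      intro y
      rw [not_bddBelow_iff] at hb
      obtain ⟨a, ha, hay⟩ := hb y
      exact lt_of_le_of_lt (hSa a ha) (by exact_mod_cast hay)
    rw [hbot]
    exact bot_le

/-- Let f be entire of order ρ and normal type, with simple zeros where ∣λ∣^(-ρ)log∣f'(λ)∣ minus the indicator at arg λ has liminf ≥ 0. Then every distributional limit of t^(-ρ)log∣f(tz)∣ as t→∞ equals h(arg z)∣z∣^ρ a.e., with h 2π-periodic and ρ-trig. convex. -/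
theorem result :
    ∀ ρ : ℝ, 0 < ρ → ∀ f : ℂ → ℂ, Differentiable ℂ f →
    (∃ C : ℝ, ∀ z : ℂ, ‖f z‖ ≤ Real.exp (C * (1 + ‖z‖ ^ ρ))) →
    (∃ ε : ℝ, 0 < ε ∧ ∀ R : ℝ, ∃ z : ℂ, R ≤ ‖z‖ ∧ Real.exp (ε * ‖z‖ ^ ρ) ≤ ‖f z‖) →
    (∀ z : ℂ, f z = 0 → deriv f z ≠ 0) →
    (∀ ε : ℝ, 0 < ε → ∃ R : ℝ, ∀ z : ℂ, f z = 0 → R ≤ ‖z‖ →
      -ε ≤ (‖z‖ ^ ρ)⁻¹ * Real.log ‖deriv f z‖
        - sInf {a : ℝ | ∀ᶠ r : ℝ in Filter.atTop,
            ‖f ((r : ℂ) * Complex.exp ((Complex.arg z : ℂ) * Complex.I))‖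
              ≤ Real.exp (a * r ^ ρ)}) →
    ∀ v : ℂ → ℝ, MeasureTheory.LocallyIntegrable v MeasureTheory.volume →
    ∀ t : ℕ → ℝ, Filter.Tendsto t Filter.atTop Filter.atTop →
    (∀ φ : ℂ → ℝ, ContDiff ℝ (⊤ : ℕ∞) φ → HasCompactSupport φ →
      Filter.Tendsto
        (fun j : ℕ => ∫ z : ℂ, (t j ^ ρ)⁻¹ * Real.log ‖f ((t j : ℂ) * z)‖ * φ z)
        Filter.atTop (nhds (∫ z : ℂ, v z * φ z))) →
    ∃ h : ℝ → ℝ, Function.Periodic h (2 * Real.pi) ∧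
      (∀ θ₁ θ₂ θ₃ : ℝ, θ₁ < θ₂ → θ₂ < θ₃ → θ₃ - θ₁ < Real.pi / ρ →
        h θ₂ * Real.sin (ρ * (θ₃ - θ₁))
          ≤ h θ₁ * Real.sin (ρ * (θ₃ - θ₂)) + h θ₃ * Real.sin (ρ * (θ₂ - θ₁))) ∧
      ∀ᵐ z : ℂ ∂MeasureTheory.volume, v z = h (Complex.arg z) * ‖z‖ ^ ρ := by
  intro ρ hρ f hf h1 h2 h3 h4 v hv t ht hconv
  have hA : ClassA f ρ := classA ρ hρ f hf h1 h2
  have hC : Cond2 f ρ := by
    refine ⟨h3, fun ε hε => ?_⟩
    obtain ⟨R, hR⟩ := h4 ε hε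
    refine ⟨R, fun z hz hzR => ?_⟩
    have h5 := hR z hz hzR
    refine (indic_le_sInf hρ h1).trans ?_
    rw [EReal.coe_le_coe_iff, Real.rpow_neg (norm_nonneg z)]
    linarith
  obtain ⟨q, hq1, hq2, hq3⟩ := Pool.Agent.W814.FrLoc.fr_loc ρ hρ f hA hC v hv t ht (by
    intro ψ hψ hψs
    refine (hconv ψ hψ hψs).congr' ?_
    filter_upwards [ht.eventually_gt_atTop 0] with j hj
    rw [Real.rpow_neg hj.le])
  exact ⟨q, hq1, hq2, hq3⟩

end Pool.Agent.S04023
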