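import Pool.Statements.S04088
import Pool.Agent.Results.MP_260e18_an.NoUniformDensity

set_option autoImplicit false
open MeasureTheory
open Pool Pool.MP_260e18_an

namespace Pool.Agent.S04088

/-- The negation of the preceding statement: Suppose f is integrable and not a.e. zero, and Λ is a nonempty set of bounded density with the sum over Λ of f(x-λ) absolutely convergent and zero for a.e. x. Then there is D>0 with #(Λ∩[x,x+r)) = Dr + o(r) as r→∞, uniformly in x. -/
theorem result :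
    ¬ (∀ (f : ℝ → ℂ) (Λ : Set ℝ),
      Integrable f volume →
      ¬ (f =ᵐ[volume] 0) →
      Λ.Nonempty →
      (∃ M : ℕ, ∀ x : ℝ, (Λ ∩ Set.Ico x (x + 1)).encard ≤ (M : ℕ∞)) →
      (∀ᵐ x ∂(volume : Measure ℝ),
        Summable (fun l : Λ => ‖f (x - (l : ℝ))‖) ∧
        ∑' l : Λ, f (x - (l : ℝ)) = 0) →
      ∃ D : ℝ, 0 < D ∧
        ∀ ε : ℝ, 0 < ε → ∃ R : ℝ, 0 < R ∧
          ∀ r : ℝ, R ≤ r → ∀ x : ℝ,
            |((Λ ∩ Set.Ico x (x + r)).ncard : ℝ) - D * r| ≤ ε * r) := by
  intro h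
  obtain ⟨f, Λ, hc, hi, hne, hL, hB, hs, hD⟩ := Pool.Agent.Results.MP_260e18_an.NoUniformDensity.result
  obtain ⟨D, _, hD'⟩ := h (fun x => (f x : ℂ)) Λ hi.ofReal
    (fun h0 => hne (by
      filter_upwards [h0] with x hx
      simpa using hx)) hL hB
    (Filter.Eventually.of_forall fun x => by
      refine ⟨by simpa using (hs x).1, ?_⟩
      rw [← Complex.ofReal_tsum, (hs x).2, Complex.ofReal_zero])
  exact hD ⟨D, hD'⟩

end Pool.Agent.S04088
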