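import Pool.Statements.S04138
import Pool.Agent.W363.JQ.All
import Pool.Agent.W356.JQ.BaseT

set_option autoImplicit false
open Filter Topology
open Pool Pool.MP_28f04c_an

namespace Pool.Agent.S04138

/-- The negation of the preceding statement: There is a complex polynomial of degree at least 2 whose critical orbits stay away from its Julia set (hyperbolic). Its Julia set is connected and has only finitely many quasisymmetric self-homeomorphisms. -/
theorem result :
    ¬ (∃ f : Polynomial ℂ, ∃ J : Set ℂ,
      2 ≤ f.natDegree ∧
      J = frontier {z : ℂ | Bornology.IsBounded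
            (Set.range (fun n : ℕ => (fun w : ℂ => f.eval w)^[n] z))} ∧
      Disjoint (closure (⋃ c ∈ {c : ℂ | f.derivative.eval c = 0},
            Set.range (fun n : ℕ => (fun w : ℂ => f.eval w)^[n] c))) J ∧
      IsConnected J ∧
      Set.Finite {h : J ≃ₜ J | ∃ η : ℝ → ℝ, η 0 = 0 ∧
          StrictMonoOn η (Set.Ici 0) ∧ ContinuousOn η (Set.Ici 0) ∧
          Tendsto η atTop atTop ∧
          ∀ a x y : J, y ≠ a →
            dist (h x) (h a) ≤ η (dist x a / dist y a) * dist (h y) (h a)}) := by
  exact Pool.Agent.W363.JQ.almost (Pool.Agent.W356.JQ.base Pool.Agent.W538.JQ.plift Pool.Agent.W538.JQ.plu)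

end Pool.Agent.S04138
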