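import Pool.Statements.S04181
import Pool.Agent.W535.TB.Final

set_option autoImplicit false
open ComplexConjugate
open Pool Pool.MP_2c8680_an

namespace Pool.Agent.S04181

open Pool.Agent.W535.TB in
theorem hull_eq (A B C D : ℂ) : Qd ![A, B, C, D] = convexHull ℝ {A, B, C, D} := by
  unfold Qd; simp

/-- In the tiling by a convex cyclic quadrilateral and its midpoint reflections, no closed billiard path avoiding vertices and refracting with index minus one at edges has a tile lying in the bounded part of its complement. -/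
theorem result :
    ∀ A B C D : ℂ,
      (∃ c : ℂ, ∃ r : ℝ, dist A c = r ∧ dist B c = r ∧ dist C c = r ∧ dist D c = r) →
      0 < (conj (B - A) * (C - B)).im →
      0 < (conj (C - B) * (D - C)).im →
      0 < (conj (D - C) * (A - D)).im →
      0 < (conj (A - D) * (B - A)).im →
      ∀ n : ℕ, 0 < n → ∀ p : ℕ → ℂ, (∀ i, p (i + n) = p i) →
      (∀ i : ℕ, ∃ s t : ℂ, (s = 1 ∨ s = -1) ∧
          (∃ m k : ℤ, t = (1 - s) / 2 * (A + B) + (m : ℂ) * (A - C) + (k : ℂ) * (B - D)) ∧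
          openSegment ℝ (p i) (p (i + 1)) ⊆
            interior ((fun z : ℂ => s * z + t) '' convexHull ℝ {A, B, C, D})) →
      (∀ i : ℕ, ∃ s t : ℂ, (s = 1 ∨ s = -1) ∧
          (∃ m k : ℤ, t = (1 - s) / 2 * (A + B) + (m : ℂ) * (A - C) + (k : ℂ) * (B - D)) ∧
          ∃ X Y : ℂ, ((X = A ∧ Y = B) ∨ (X = B ∧ Y = C) ∨ (X = C ∧ Y = D) ∨ (X = D ∧ Y = A)) ∧
            p (i + 1) ∈ openSegment ℝ (s * X + t) (s * Y + t) ∧
            ∃ l : ℝ, 0 < l ∧
              (p (i + 2) - p (i + 1)) * conj (Y - X) = (l : ℂ) * (-((Y - X) * conj (p (i + 1) - p i)))) →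
      ∀ s t : ℂ, (s = 1 ∨ s = -1) →
        (∃ m k : ℤ, t = (1 - s) / 2 * (A + B) + (m : ℂ) * (A - C) + (k : ℂ) * (B - D)) →
        ¬ ((fun z : ℂ => s * z + t) '' convexHull ℝ {A, B, C, D} ⊆
            {z : ℂ | z ∉ (⋃ i : ℕ, segment ℝ (p i) (p (i + 1))) ∧
              Bornology.IsBounded
                (connectedComponentIn (⋃ i : ℕ, segment ℝ (p i) (p (i + 1)))ᶜ z)}) := by
  rintro A B C D ⟨c, r, hA, hB, hC, hD⟩ h1 h2 h3 h4 n hn p hper hseg hcr s t hst htt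
  obtain ⟨θ, a, hr, ha, hs, eA, eB, eC, eD⟩ :=
    W535.TB.exists_arcs A B C D c r hA hB hC hD h1 h2 h3 h4
  set P : Fin 4 → ℂ := ![A, B, C, D] with hP
  have hP0 : P 0 = A := rfl
  have hP1 : P 1 = B := rfl
  have hP2 : P 2 = C := rfl
  have hP3 : P 3 = D := rfl
  have hccw : W535.TB.Ccw P := ⟨h1, h2, h3, h4⟩
  have hPc : ∀ k, P k = c + r * W535.TB.U (θ + W535.TB.ss a k) := by
    intro k
    rcases W535.TB.fin4 k with rfl | rfl | rfl | rfl
    · rw [hP0]; simpa [W535.TB.ss] using eA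
    · rw [hP1]; simpa [W535.TB.ss] using eB
    · rw [hP2]; simpa [W535.TB.ss, add_assoc] using eC
    · rw [hP3]; simpa [W535.TB.ss, add_assoc] using eD
  have htile : ∀ T, W535.TB.tile P T =
      (fun z : ℂ => (W535.TB.sT T : ℂ) * z + W535.TB.tT P T) '' convexHull ℝ {A, B, C, D} := by
    intro T
    unfold W535.TB.tile
    rw [hP, hull_eq]
  have hex : ∀ s t : ℂ, (s = 1 ∨ s = -1) →
      (∃ m k : ℤ, t = (1 - s) / 2 * (A + B) + (m : ℂ) * (A - C) + (k : ℂ) * (B - D)) →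
      ∃ T, s = (W535.TB.sT T : ℂ) ∧ t = W535.TB.tT P T := fun s t h h' =>
    W535.TB.tile_of P s t h h'
  -- choose the tiles
  have hT : ∀ i, ∃ T, openSegment ℝ (p i) (p (i + 1)) ⊆ interior (W535.TB.tile P T) := by
    intro i
    obtain ⟨s, t, h5, h6, h7⟩ := hseg i
    obtain ⟨T, rfl, rfl⟩ := hex s t h5 h6
    exact ⟨T, by rw [htile]; exact h7⟩
  have hS : ∀ i, ∃ (S : ℤ × ℤ) (l : Fin 4) (lam : ℝ), 0 < lam ∧
      p (i + 1) ∈ openSegment ℝ (W535.TB.Vx P (W535.TB.cor S l)) (W535.TB.Vx P (W535.TB.cor S (l + 1))) ∧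
      (p (i + 2) - p (i + 1)) * conj (P (l + 1) - P l) =
        (lam : ℂ) * (-((P (l + 1) - P l) * conj (p (i + 1) - p i))) := by
    intro i
    obtain ⟨s, t, h5, h6, X, Y, hXY, h7, lam, h8, h9⟩ := hcr i
    obtain ⟨T, rfl, rfl⟩ := hex s t h5 h6
    have hl : ∃ l : Fin 4, X = P l ∧ Y = P (l + 1) := by
      rcases hXY with ⟨rfl, rfl⟩ | ⟨rfl, rfl⟩ | ⟨rfl, rfl⟩ | ⟨rfl, rfl⟩
      · exact ⟨0, rfl, rfl⟩
      · exact ⟨1, rfl, rfl⟩
      · exact ⟨2, rfl, rfl⟩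
      · exact ⟨3, rfl, rfl⟩
    obtain ⟨l, rfl, rfl⟩ := hl
    refine ⟨T, l, lam, h8, ?_, h9⟩
    rw [W535.TB.V_cor, W535.TB.V_cor]
    exact h7
  choose T hT' using hT
  choose S l lam hlam hS' hrefr using hS
  let τ : W535.TB.Traj P := ⟨p, T, S, l, lam, hT', hS', hlam, hrefr⟩
  obtain ⟨T0, rfl, rfl⟩ := hex s t hst htt
  rw [← htile]
  exact W535.TB.no_contour hccw hr ha hs hPc τ n hn hper T0

end Pool.Agent.S04181
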