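import Pool.Statements.S04200
import Pool.Agent.W785.QR.All

set_option autoImplicit false
open MeasureTheory
open Pool Pool.MP_2d1ae5_an

namespace Pool.Agent.S04200

/-- The negation of the preceding statement: For each increasing sequence of times in (-1,0) tending to 0, each M and each delta>0, one constant C bounds ∣v∣ near the space-time origin for every smooth finite-energy Navier-Stokes solution whose L3 norms on B(0,delta) at those times have supremum M. -/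
theorem result :
    ¬ (∀ t : ℕ → ℝ, (∀ n, t n ∈ Set.Ioo (-1 : ℝ) 0) → Monotone t →
    Filter.Tendsto t Filter.atTop (nhds 0) →
  ∀ M δ : ℝ, 0 < δ → ∃ C : ℝ,
    ∀ (v : ℝ → EuclideanSpace ℝ (Fin 3) → EuclideanSpace ℝ (Fin 3))
      (p : ℝ → EuclideanSpace ℝ (Fin 3) → ℝ),
    ContDiffOn ℝ (⊤ : ℕ∞) (Function.uncurry v) (Set.Ioo (-1 : ℝ) 0 ×ˢ Set.univ) →
    ContDiffOn ℝ (⊤ : ℕ∞) (Function.uncurry p) (Set.Ioo (-1 : ℝ) 0 ×ˢ Set.univ) →
    (∀ s ∈ Set.Ioo (-1 : ℝ) 0, ∀ x : EuclideanSpace ℝ (Fin 3),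
      deriv (fun τ => v τ x) s + fderiv ℝ (v s) x (v s x)
        - ∑ i : Fin 3, fderiv ℝ (fun y => fderiv ℝ (v s) y (EuclideanSpace.basisFun (Fin 3) ℝ i)) x
            (EuclideanSpace.basisFun (Fin 3) ℝ i)
        + gradient (p s) x = 0) →
    (∀ s ∈ Set.Ioo (-1 : ℝ) 0, ∀ x : EuclideanSpace ℝ (Fin 3),
      LinearMap.trace ℝ (EuclideanSpace ℝ (Fin 3)) (fderiv ℝ (v s) x).toLinearMap = 0) →
    (∃ K : ℝ, ∀ s ∈ Set.Ioo (-1 : ℝ) 0, ∫⁻ x, ‖v s x‖ₑ ^ 2 ≤ ENNReal.ofReal K) →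
    (∫⁻ s in Set.Ioo (-1 : ℝ) 0, ∫⁻ x, ‖fderiv ℝ (v s) x‖ₑ ^ 2) < ⊤ →
    (⨆ n, eLpNorm (v (t n)) 3
        (volume.restrict (Metric.ball (0 : EuclideanSpace ℝ (Fin 3)) δ))) = ENNReal.ofReal M →
    ∃ r > 0, ∀ (s : ℝ) (x : EuclideanSpace ℝ (Fin 3)),
      s ∈ Set.Ioo (-r) 0 → ‖x‖ < r → ‖v s x‖ ≤ C) := by
  intro H
  have a1 : ∀ n, Pool.Agent.W785.QR.tn n ∈ Set.Ioo (-1 : ℝ) 0 := by
    intro n
    have h1 : (0 : ℝ) < (1 / 2 : ℝ) ^ (n + 1) := by positivity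
    have h2 : (1 / 2 : ℝ) ^ (n + 1) < 1 := pow_lt_one₀ (by norm_num) (by norm_num) (by omega)
    show -(1 / 2 : ℝ) ^ (n + 1) ∈ Set.Ioo (-1 : ℝ) 0
    constructor <;> linarith
  have a2 : Monotone Pool.Agent.W785.QR.tn := by
    intro m n hmn
    show -(1 / 2 : ℝ) ^ (m + 1) ≤ -(1 / 2 : ℝ) ^ (n + 1)
    have := pow_le_pow_of_le_one (a := (1 / 2 : ℝ)) (by norm_num) (by norm_num)
      (show m + 1 ≤ n + 1 by omega)
    linarith
  have a3 : Filter.Tendsto Pool.Agent.W785.QR.tn Filter.atTop (nhds 0) := by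
    show Filter.Tendsto (fun n : ℕ => -(1 / 2 : ℝ) ^ (n + 1)) Filter.atTop (nhds 0)
    have h1 := (tendsto_pow_atTop_nhds_zero_of_lt_one (r := (1 / 2 : ℝ)) (by norm_num)
      (by norm_num)).comp (Filter.tendsto_add_atTop_nat 1)
    have h2 := h1.neg
    rw [neg_zero] at h2
    exact h2
  obtain ⟨C, hC⟩ := H Pool.Agent.W785.QR.tn a1 a2 a3 20 1 one_pos
  obtain ⟨v, p, hv, h1, h2⟩ := Pool.Agent.W785.QR.th_end C
  exact h2 (hC v p hv.smooth_v hv.smooth_p hv.eqn hv.div hv.energy hv.dissip h1)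

end Pool.Agent.S04200
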