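import Pool.Statements.S04217
import Pool.Agent.Results.MP_2e8a17_an.RadialLimits

set_option autoImplicit false
open Filter Topology
open Pool Pool.MP_2e8a17_an
open Pool.Agent.Results.MP_2e8a17_an.RadialLimits

namespace Pool.Agent.S04217

/-- For every Borel g from the unit circle to the extended reals there is a power series with bounded coefficients whose radial limit at e^{iθ} equals g there for a.e. θ; infinite values mean modulus to infinity with argument tending to 0 or π. -/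
theorem result :
    ∀ g : ℂ → EReal, Measurable g →
      ∃ a : ℕ → ℂ, (∃ C : ℝ, ∀ n : ℕ, ‖a n‖ ≤ C) ∧
        ∀ᵐ θ : ℝ,
          (∀ x : ℝ, g (Complex.exp ((θ : ℂ) * Complex.I)) = (x : EReal) →
            Tendsto
              (fun r : ℝ => ∑' n : ℕ, a n * ((r : ℂ) * Complex.exp ((θ : ℂ) * Complex.I)) ^ n)
              (nhdsWithin (1 : ℝ) (Set.Iio 1)) (nhds (x : ℂ))) ∧
          (g (Complex.exp ((θ : ℂ) * Complex.I)) = ⊤ →
            Tendsto
              (fun r : ℝ => ‖∑' n : ℕ, a n * ((r : ℂ) * Complex.exp ((θ : ℂ) * Complex.I)) ^ n‖)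
              (nhdsWithin (1 : ℝ) (Set.Iio 1)) atTop ∧
            Tendsto
              (fun r : ℝ => (∑' n : ℕ, a n * ((r : ℂ) * Complex.exp ((θ : ℂ) * Complex.I)) ^ n) /
                ((‖∑' n : ℕ, a n * ((r : ℂ) * Complex.exp ((θ : ℂ) * Complex.I)) ^ n‖ : ℝ) : ℂ))
              (nhdsWithin (1 : ℝ) (Set.Iio 1)) (nhds (1 : ℂ))) ∧
          (g (Complex.exp ((θ : ℂ) * Complex.I)) = ⊥ →
            Tendsto
              (fun r : ℝ => ‖∑' n : ℕ, a n * ((r : ℂ) * Complex.exp ((θ : ℂ) * Complex.I)) ^ n‖)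
              (nhdsWithin (1 : ℝ) (Set.Iio 1)) atTop ∧
            Tendsto
              (fun r : ℝ => (∑' n : ℕ, a n * ((r : ℂ) * Complex.exp ((θ : ℂ) * Complex.I)) ^ n) /
                ((‖∑' n : ℕ, a n * ((r : ℂ) * Complex.exp ((θ : ℂ) * Complex.I)) ^ n‖ : ℝ) : ℂ))
              (nhdsWithin (1 : ℝ) (Set.Iio 1)) (nhds (-1 : ℂ))) := by
  intro g hg
  set g' : 𝕋 → EReal := fun x => g (e x) with hg'
  have hg'm : Measurable g' := hg.comp e_continuous.measurable
  obtain ⟨a, ha1, -, hae⟩ := main_seq (fun k x => trunc k (g' x))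
    (fun k => (trunc_measurable k).comp hg'm) lev (fun k x => trunc_bound k _)
    (fun k x => trunc_inc k _)
  have hgood : ∀ᵐ x ∂μ, HasRadialLimit (fun w => ∑' n, a n * w ^ n) (e x) (g' x) := by
    filter_upwards [hae] with x hx
    exact follows_radial hx
  rw [← μ_volume] at hgood
  -- almost every real `t`
  have h1 : ∀ᵐ t : ℝ, HasRadialLimit (fun w => ∑' n, a n * w ^ n) (e (t : 𝕋)) (g' (t : 𝕋)) := by
    have h2 : ∀ k : ℤ, ∀ᵐ t : ℝ ∂((MeasureTheory.volume : MeasureTheory.Measure ℝ).restrict (Set.Ioc (k : ℝ) (k + 1))),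
        HasRadialLimit (fun w => ∑' n, a n * w ^ n) (e (t : 𝕋)) (g' (t : 𝕋)) := fun k =>
      (AddCircle.measurePreserving_mk (1 : ℝ) (k : ℝ)).quasiMeasurePreserving.ae hgood
    have h3 := (MeasureTheory.ae_restrict_iUnion_iff (μ := (MeasureTheory.volume : MeasureTheory.Measure ℝ))
      (fun k : ℤ => Set.Ioc (k : ℝ) (k + 1))
      (fun t => HasRadialLimit (fun w => ∑' n, a n * w ^ n) (e (t : 𝕋)) (g' (t : 𝕋)))).2 h2
    have h4 : (⋃ k : ℤ, Set.Ioc (k : ℝ) (k + 1)) = Set.univ := by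
      have := iUnion_Ioc_intCast (α := ℝ)
      simpa using this
    rwa [h4, MeasureTheory.Measure.restrict_univ] at h3
  have h5 : ∀ᵐ θ : ℝ, HasRadialLimit (fun w => ∑' n, a n * w ^ n)
      (e ((((2 * Real.pi)⁻¹ * θ : ℝ)) : 𝕋)) (g' (((2 * Real.pi)⁻¹ * θ : ℝ) : 𝕋)) := by
    have hne : (2 * Real.pi)⁻¹ ≠ 0 := by positivity
    have hq : MeasureTheory.Measure.QuasiMeasurePreserving (fun θ : ℝ => (2 * Real.pi)⁻¹ * θ) MeasureTheory.volume MeasureTheory.volume := by
      refine ⟨measurable_const_mul _, ?_⟩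
      rw [Real.map_volume_mul_left hne]
      exact MeasureTheory.Measure.smul_absolutelyContinuous
    exact hq.ae h1
  refine ⟨a, ⟨1, ha1⟩, ?_⟩
  filter_upwards [h5] with θ hθ
  have he : e ((((2 * Real.pi)⁻¹ * θ : ℝ)) : 𝕋) = Complex.exp ((θ : ℂ) * Complex.I) := by
    simp only [e]
    rw [fourier_apply, one_smul, AddCircle.toCircle_apply_mk, Circle.coe_exp]
    congr 2
    have : (2 * Real.pi) ≠ 0 := by positivity
    push_cast
    field_simp
  have hg2 : g' (((2 * Real.pi)⁻¹ * θ : ℝ) : 𝕋) = g (Complex.exp ((θ : ℂ) * Complex.I)) := by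
    rw [hg']
    simp only [he]
  rw [hg2, he] at hθ
  obtain ⟨q1, q2, q3⟩ := hθ
  refine ⟨q1, fun h => ⟨(q2 h).1, (q2 h).2.1⟩, fun h => ⟨(q3 h).1, (q3 h).2.1⟩⟩


end Pool.Agent.S04217
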