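import Pool.Statements.S04252

set_option autoImplicit false
open Filter Topology
open Pool Pool.MP_309e42_an

namespace Pool.Agent.S04252

/-- Taylor coefficients of `sin (√z) / √z`. -/
noncomputable def co (n : ℕ) : ℂ := (-1) ^ n / ((2 * n + 1).factorial : ℂ)

/-- The entire function `sin (√z) / √z`. -/
noncomputable def g (z : ℂ) : ℂ := ∑' n : ℕ, co n * z ^ n

lemma co_ne (n : ℕ) : co n ≠ 0 := by
  unfold co
  apply div_ne_zero
  · exact pow_ne_zero _ (by norm_num)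
  · exact_mod_cast Nat.factorial_ne_zero _

lemma norm_co (n : ℕ) : ‖co n‖ = 1 / ((2 * n + 1).factorial : ℝ) := by
  unfold co
  rw [norm_div, norm_pow, norm_neg, norm_one, one_pow]
  simp

lemma g_eq : g = (FormalMultilinearSeries.ofScalars ℂ co).sum := by
  funext z
  have h := FormalMultilinearSeries.ofScalars_sum_eq (E := ℂ) co z
  unfold FormalMultilinearSeries.ofScalarsSum at h
  rw [h]
  simp [g, smul_eq_mul]

lemma radius_top : (FormalMultilinearSeries.ofScalars ℂ co).radius = ⊤ := by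
  apply FormalMultilinearSeries.ofScalars_radius_eq_top_of_tendsto
  · exact Eventually.of_forall co_ne
  · have h : ∀ n : ℕ, ‖co n.succ‖ / ‖co n‖ = 1 / (((2 * n + 3 : ℕ) : ℝ) * ((2 * n + 2 : ℕ) : ℝ)) := by
      intro n
      rw [norm_co, norm_co]
      have h1 : (2 * n.succ + 1).factorial = (2 * n + 3) * ((2 * n + 2) * (2 * n + 1).factorial) := by
        rw [show 2 * n.succ + 1 = (2 * n + 2) + 1 by omega, Nat.factorial_succ,
          show 2 * n + 2 = (2 * n + 1) + 1 by omega, Nat.factorial_succ]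
      rw [h1]
      have h2 : ((2 * n + 1).factorial : ℝ) ≠ 0 := by exact_mod_cast Nat.factorial_ne_zero _
      have h3 : ((2 * n + 3 : ℕ) : ℝ) ≠ 0 := by positivity
      have h4 : ((2 * n + 2 : ℕ) : ℝ) ≠ 0 := by positivity
      push_cast at *
      field_simp
    refine squeeze_zero (fun n => by positivity) (g := fun n : ℕ => 1 / ((n : ℝ) + 1)) ?_
      tendsto_one_div_add_atTop_nhds_zero_nat
    intro n
    rw [h n]
    apply one_div_le_one_div_of_le (by positivity)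
    push_cast
    nlinarith [Nat.cast_nonneg (α := ℝ) n]

lemma hasFP : HasFPowerSeriesOnBall g (FormalMultilinearSeries.ofScalars ℂ co) 0 ⊤ := by
  rw [g_eq]
  have h := FormalMultilinearSeries.hasFPowerSeriesOnBall (FormalMultilinearSeries.ofScalars ℂ co)
    (by rw [radius_top]; exact ENNReal.coe_lt_top)
  rwa [radius_top] at h

lemma g_diff : Differentiable ℂ g := by
  have h := hasFP.differentiableOn
  intro z
  have hz : z ∈ Metric.eball (0 : ℂ) ⊤ := by simp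
  exact (h z hz).differentiableAt (Metric.isOpen_eball.mem_nhds hz)

lemma g_iter (n : ℕ) : iteratedDeriv n g 0 ≠ 0 := by
  rw [iteratedDeriv_eq_iteratedFDeriv, ← hasFP.factorial_smul 1 n,
    FormalMultilinearSeries.ofScalars_apply_eq]
  simp [Nat.factorial_ne_zero, co_ne]

lemma g_sq (w : ℂ) : HasSum (fun n : ℕ => w * (co n * (w ^ 2) ^ n)) (Complex.sin w) := by
  have h := Complex.hasSum_sin w
  convert h using 2 with n
  unfold co
  rw [← pow_mul, pow_succ]
  ring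

lemma g_summable (z : ℂ) : Summable (fun n : ℕ => co n * z ^ n) := by
  rcases eq_or_ne z 0 with h0 | h0
  · subst h0
    apply summable_of_ne_finset_zero (s := {0})
    intro b hb
    have : b ≠ 0 := by simpa using hb
    simp [this]
  · obtain ⟨w, hw⟩ : ∃ w : ℂ, w ^ 2 = z := ⟨z ^ (1 / 2 : ℂ), by
      rw [← Complex.cpow_nat_mul]; norm_num⟩
    have hw0 : w ≠ 0 := by rintro rfl; apply h0; rw [← hw]; ring
    have h := (g_sq w).summable
    rw [hw] at h
    exact (summable_mul_left_iff hw0).mp h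

lemma mul_g (w : ℂ) : w * g (w ^ 2) = Complex.sin w := by
  have h := (g_sq w).tsum_eq
  rw [tsum_mul_left] at h
  exact h

lemma norm_g_le (z : ℂ) : ‖g z‖ ≤ Real.exp (Real.sqrt ‖z‖) := by
  have hc := Real.hasSum_cosh (Real.sqrt ‖z‖)
  have h1 : ∀ n : ℕ, ‖co n * z ^ n‖ ≤ Real.sqrt ‖z‖ ^ (2 * n) / ((2 * n).factorial : ℝ) := by
    intro n
    rw [norm_mul, norm_co, norm_pow, pow_mul, Real.sq_sqrt (norm_nonneg z), one_div, mul_comm,
      ← div_eq_mul_inv]
    have h2 : ((2 * n).factorial : ℝ) ≤ ((2 * n + 1).factorial : ℝ) := by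
      exact_mod_cast Nat.factorial_le (by omega)
    have h3 : (0 : ℝ) < ((2 * n).factorial : ℝ) := by exact_mod_cast Nat.factorial_pos _
    gcongr
  have h2 : ‖g z‖ ≤ Real.cosh (Real.sqrt ‖z‖) := by
    rw [← hc.tsum_eq]
    exact tsum_of_norm_bounded hc.summable.hasSum h1
  refine h2.trans ?_
  rw [Real.cosh_eq]
  have h3 : Real.exp (-Real.sqrt ‖z‖) ≤ Real.exp (Real.sqrt ‖z‖) := by
    apply Real.exp_le_exp.mpr
    linarith [Real.sqrt_nonneg ‖z‖]
  linarith

lemma g_pos (t : ℝ) (ht : 0 < t) : ‖g (t : ℂ)‖ ≤ 1 / Real.sqrt t := by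
  have hs : 0 < Real.sqrt t := Real.sqrt_pos.mpr ht
  have h := mul_g ((Real.sqrt t : ℝ) : ℂ)
  have h2 : ((Real.sqrt t : ℝ) : ℂ) ^ 2 = (t : ℂ) := by
    rw [← Complex.ofReal_pow, Real.sq_sqrt ht.le]
  rw [h2, ← Complex.ofReal_sin] at h
  have h3 : ‖((Real.sqrt t : ℝ) : ℂ) * g (t : ℂ)‖ ≤ 1 := by
    rw [h, Complex.norm_real]
    exact Real.abs_sin_le_one _
  rw [norm_mul, Complex.norm_real, Real.norm_of_nonneg hs.le] at h3
  rw [le_div_iff₀ hs]
  linarith

lemma g_zero : g 0 = 1 := by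
  unfold g
  rw [tsum_eq_single 0]
  · simp [co]
  · intro b hb
    simp [hb]

lemma card_eq (s : ℝ) :
    Nat.card {n : ℕ // iteratedDeriv n g 0 ≠ 0 ∧ (n : ℝ) ≤ s} = if 0 ≤ s then ⌊s⌋₊ + 1 else 0 := by
  split_ifs with hs
  · have : {n : ℕ // iteratedDeriv n g 0 ≠ 0 ∧ (n : ℝ) ≤ s} ≃ Finset.range (⌊s⌋₊ + 1) := by
      refine Equiv.subtypeEquivRight ?_
      intro n
      rw [Finset.mem_range, Nat.lt_succ_iff, Nat.le_floor_iff hs]
      exact ⟨fun h => h.2, fun h => ⟨g_iter n, h⟩⟩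
    rw [Nat.card_congr this, Nat.card_eq_fintype_card, Fintype.card_coe, Finset.card_range]
  · rw [Nat.card_eq_zero]
    left
    constructor
    rintro ⟨n, -, hn⟩
    have := Nat.cast_nonneg (α := ℝ) n
    linarith

theorem result :
    ¬ (∀ f : ℂ → ℂ, Differentiable ℂ f → (∃ z w : ℂ, f z ≠ f w) →
    ∀ ρ Δ : ℝ,
      (∀ ε : ℝ, 0 < ε → ∀ᶠ r : ℝ in atTop, ∀ z : ℂ, ‖z‖ = r →
          ‖f z‖ ≤ Real.exp (r ^ (ρ + ε))) →
      Tendsto (fun ξ : ℝ => Filter.limsup (fun t : ℝ =>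
          (((Nat.card {n : ℕ // iteratedDeriv n f 0 ≠ 0 ∧ (n : ℝ) ≤ t} : ℕ) : ℝ) -
            ((Nat.card {n : ℕ // iteratedDeriv n f 0 ≠ 0 ∧ (n : ℝ) ≤ ξ * t} : ℕ) : ℝ)) /
            ((1 - ξ) * t)) atTop)
        (𝓝[<] (1 : ℝ)) (𝓝 Δ) →
      ρ * Δ < 1 →
      ¬ ∃ a : ℂ, ∃ γ : ℝ → ℂ, Continuous γ ∧
          Tendsto (fun t : ℝ => ‖γ t‖) atTop atTop ∧
          Tendsto (fun t : ℝ => f (γ t)) atTop (𝓝 a)) := by
  intro H
  refine H g g_diff ?_ (1 / 2) 1 ?_ ?_ (by norm_num) ?_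
  · refine ⟨0, ((4 : ℝ) : ℂ), ?_⟩
    intro h
    have h1 := g_pos 4 (by norm_num)
    rw [← h, g_zero, show (4 : ℝ) = 2 ^ 2 by norm_num, Real.sqrt_sq (by norm_num)] at h1
    norm_num at h1
  · intro ε hε
    filter_upwards [eventually_ge_atTop (1 : ℝ)] with r hr z hz
    refine (norm_g_le z).trans ?_
    apply Real.exp_le_exp.mpr
    rw [hz, Real.sqrt_eq_rpow]
    exact Real.rpow_le_rpow_of_exponent_le hr (by linarith)
  · have key : ∀ ξ : ℝ, 0 < ξ → ξ < 1 → Filter.limsup (fun t : ℝ =>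
          (((Nat.card {n : ℕ // iteratedDeriv n g 0 ≠ 0 ∧ (n : ℝ) ≤ t} : ℕ) : ℝ) -
            ((Nat.card {n : ℕ // iteratedDeriv n g 0 ≠ 0 ∧ (n : ℝ) ≤ ξ * t} : ℕ) : ℝ)) /
            ((1 - ξ) * t)) atTop = 1 := by
      intro ξ h0 h1
      apply Tendsto.limsup_eq
      have e1 : Tendsto (fun t : ℝ => (⌊t⌋₊ : ℝ) / t) atTop (𝓝 1) := tendsto_nat_floor_div_atTop
      have e2 : Tendsto (fun t : ℝ => (⌊ξ * t⌋₊ : ℝ) / t) atTop (𝓝 ξ) :=
        tendsto_nat_floor_mul_div_atTop h0.le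
      have e3 : Tendsto (fun t : ℝ => ((⌊t⌋₊ : ℝ) / t - (⌊ξ * t⌋₊ : ℝ) / t) / (1 - ξ)) atTop
          (𝓝 1) := by
        have := (e1.sub e2).div_const (1 - ξ)
        rwa [div_self (by linarith : (1 : ℝ) - ξ ≠ 0)] at this
      refine e3.congr' ?_
      filter_upwards [eventually_gt_atTop (0 : ℝ)] with t ht
      have h2 : 0 ≤ ξ * t := by positivity
      rw [card_eq, card_eq, if_pos ht.le, if_pos h2]
      have h3 : (1 : ℝ) - ξ ≠ 0 := by linarith
      push_cast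
      field_simp
      ring
    refine Tendsto.congr' ?_ tendsto_const_nhds
    have hmem : Set.Ioo (0 : ℝ) 1 ∈ 𝓝[<] (1 : ℝ) := Ioo_mem_nhdsLT (by norm_num)
    filter_upwards [hmem] with ξ hξ
    exact (key ξ hξ.1 hξ.2).symm
  · refine ⟨0, fun t => (t : ℂ), Complex.continuous_ofReal, ?_, ?_⟩
    · simp only [Complex.norm_real]
      exact tendsto_norm_atTop_atTop
    · rw [tendsto_zero_iff_norm_tendsto_zero]
      have h1 : Tendsto (fun t : ℝ => 1 / Real.sqrt t) atTop (𝓝 0) := by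
        simp only [one_div]
        exact tendsto_inv_atTop_zero.comp Real.tendsto_sqrt_atTop
      refine squeeze_zero' (Eventually.of_forall fun t => norm_nonneg _) ?_ h1
      filter_upwards [eventually_gt_atTop (0 : ℝ)] with t ht
      exact g_pos t ht

end Pool.Agent.S04252
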