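import Pool.Statements.S04294
import Pool.Agent.W797.Rough

set_option autoImplicit false
open MeasureTheory
open Pool Pool.MP_34023b_an

namespace Pool.Agent.S04294

/-- The negation of the preceding statement: For all n≥1, homogeneous elliptic constant-coefficient P of order p, s≥p and compact K in R^n, every W^{s,1}_loc function satisfying the rough conditions on K lies in the closure of solutions of Pu=0 near K, in the quotient W^{s,1}(K) topology. -/
theorem result :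
    ¬ (∀ (n : ℕ), 1 ≤ n →
  ∀ (D : (Fin n → ℕ) → (EuclideanSpace ℝ (Fin n) → ℂ) → (EuclideanSpace ℝ (Fin n) → ℂ)),
    (∀ (α : Fin n → ℕ) (φ : EuclideanSpace ℝ (Fin n) → ℂ),
      D α φ = (List.finRange n).foldr
        (fun i ψ => (fun χ : EuclideanSpace ℝ (Fin n) → ℂ =>
            fun x => fderiv ℝ χ x (EuclideanSpace.single i (1 : ℝ)))^[α i] ψ) φ) →
  ∀ (p s : ℕ), p ≤ s →
  ∀ (c : (Fin n → Fin (p + 1)) → ℂ),
    (∀ β : Fin n → Fin (p + 1), ∑ i, (β i : ℕ) ≠ p → c β = 0) →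
    (∀ ξ : Fin n → ℝ, ξ ≠ 0 → ∑ β, c β * ∏ i, ((ξ i : ℂ) ^ (β i : ℕ)) ≠ 0) →
  ∀ K : Set (EuclideanSpace ℝ (Fin n)), IsCompact K →
  ∀ g : (Fin n → ℕ) → EuclideanSpace ℝ (Fin n) → ℂ,
    (∀ α : Fin n → ℕ, ∑ i, α i ≤ s →
      LocallyIntegrable (g α) volume ∧
      ∀ φ : EuclideanSpace ℝ (Fin n) → ℂ, ContDiff ℝ (⊤ : ℕ∞) φ → HasCompactSupport φ →
        ∫ x, g α x * φ x = (-1 : ℂ) ^ (∑ i, α i) * ∫ x, g 0 x * D α φ x) →
    (∃ v : EuclideanSpace ℝ (Fin n) → ℂ, ContDiffOn ℝ (⊤ : ℕ∞) v (interior K) ∧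
      (∀ x ∈ interior K, ∑ β, c β * D (fun i => (β i : ℕ)) v x = 0) ∧
      g 0 =ᵐ[volume.restrict (interior K)] v) →
    (∀ α : Fin n → ℕ, ∑ i, α i + p ≤ s →
      (fun x => ∑ β, c β * g (fun i => α i + (β i : ℕ)) x) =ᵐ[volume.restrict K] 0) →
    ∀ R : ℝ, 0 < R → ∀ ε : ℝ, 0 < ε →
      ∃ u : EuclideanSpace ℝ (Fin n) → ℂ, ContDiff ℝ (⊤ : ℕ∞) u ∧
      ∃ U : Set (EuclideanSpace ℝ (Fin n)), IsOpen U ∧ K ⊆ U ∧
        (∀ x ∈ U, ∑ β, c β * D (fun i => (β i : ℕ)) u x = 0) ∧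
      ∃ m : (Fin n → ℕ) → EuclideanSpace ℝ (Fin n) → ℂ,
        (∀ α : Fin n → ℕ, ∑ i, α i ≤ s →
          LocallyIntegrable (m α) volume ∧
          (∀ φ : EuclideanSpace ℝ (Fin n) → ℂ, ContDiff ℝ (⊤ : ℕ∞) φ → HasCompactSupport φ →
            ∫ x, m α x * φ x = (-1 : ℂ) ^ (∑ i, α i) * ∫ x, m 0 x * D α φ x) ∧
          m α =ᵐ[volume.restrict K] 0) ∧
        ∀ α : Fin n → ℕ, ∑ i, α i ≤ s →
          ∫ x in Metric.ball (0 : EuclideanSpace ℝ (Fin n)) R, ‖g α x - D α u x - m α x‖ < ε) := by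
  intro H
  obtain ⟨K, hK, r, ⟨fW, rfl, ⟨v, hv, hPv, hfv⟩, hR⟩, hcl⟩ :=
    Pool.Agent.Helper960.Rou.final (m := 0) (q := 0) Pool.Agent.W797.Rough.cw
      Pool.Agent.W797.Rough.elliptic_cw
  refine hcl (Pool.Agent.W797.Rough.key fW K hK.measurableSet ?_)
  have hKE : IsCompact (Pool.Agent.W797.Rough.L ⁻¹' K) :=
    (Pool.Agent.W797.Rough.L.toHomeomorph.isCompact_preimage).2 hK
  have hintK : interior (Pool.Agent.W797.Rough.L ⁻¹' K) =
      Pool.Agent.W797.Rough.L ⁻¹' (interior K) :=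
    (Pool.Agent.W797.Rough.L.toHomeomorph.preimage_interior K).symm
  refine H 2 (by norm_num) Pool.Agent.W797.Rough.DE (fun α φ => rfl) 1 1 le_rfl
    Pool.Agent.W797.Rough.cm ?_ Pool.Agent.W797.Rough.elliptic_cm _ hKE
    (fun α x => Pool.Agent.Helper960.Rou.wD (Pool.Agent.W797.Rough.wd α) fW
      (Pool.Agent.W797.Rough.L x)) ?_ ?_ ?_
  · intro β hβ
    unfold Pool.Agent.W797.Rough.cm
    rw [if_neg, if_neg]
    · rintro rfl
      exact hβ (by decide)
    · rintro rfl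
      exact hβ (by decide)
  · intro α hα
    refine ⟨Pool.Agent.W797.Rough.locInt_L (Pool.Agent.Helper960.Rou.wD_locInt _ fW), ?_⟩
    rw [Pool.Agent.W797.Rough.weak_iff]
    simp only [ContinuousLinearEquiv.apply_symm_apply]
    have h1 := Pool.Agent.Helper960.Rou.wD_spec (l := Pool.Agent.W797.Rough.wd α)
      (by rw [Pool.Agent.W797.Rough.wd_length]; exact hα) fW
    have h2 : Pool.Agent.Helper960.Rou.wD (Pool.Agent.W797.Rough.wd 0) fW =ᵐ[volume] fW.fn :=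
      Pool.Agent.Helper960.Rou.wD_unique (by simp [Pool.Agent.W797.Rough.wd]) fW fW.2.1
        (by intro φ _ _; simp [Pool.Agent.W797.Rough.wd, Pool.Agent.Helper960.Rou.D])
    intro φ hφ hc
    rw [← h1 φ hφ hc]
    refine integral_congr_ae ?_
    filter_upwards [h2] with x hx
    rw [hx]
  · refine ⟨fun x => v (Pool.Agent.W797.Rough.L x), ?_, ?_, ?_⟩
    · rw [hintK]
      exact hv.comp Pool.Agent.W797.Rough.L.contDiff.contDiffOn (fun x hx => hx)
    · intro x hx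
      rw [hintK] at hx
      rw [Pool.Agent.W797.Rough.DE_cm]
      exact hPv _ hx
    · have h2 : Pool.Agent.Helper960.Rou.wD (Pool.Agent.W797.Rough.wd 0) fW =ᵐ[volume] fW.fn :=
        Pool.Agent.Helper960.Rou.wD_unique (by simp [Pool.Agent.W797.Rough.wd]) fW fW.2.1
          (by intro φ _ _; simp [Pool.Agent.W797.Rough.wd, Pool.Agent.Helper960.Rou.D])
      rw [Filter.EventuallyEq, ae_restrict_iff' isOpen_interior.measurableSet, hintK]
      filter_upwards [Pool.Agent.W797.Rough.ae_L h2, Pool.Agent.W797.Rough.ae_L hfv] with x h3 h4 hx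
      rw [h3]
      exact h4 hx
  · intro α hα
    have hα0 : α = 0 := by
      funext i
      have h1 := Finset.single_le_sum (f := α) (fun i _ => Nat.zero_le _) (Finset.mem_univ i)
      simp only [Pi.zero_apply]
      omega
    subst hα0
    rw [Filter.EventuallyEq, ae_restrict_iff' (Pool.Agent.W797.Rough.L.continuous.measurable
      hK.measurableSet)]
    filter_upwards [Pool.Agent.W797.Rough.ae_L (hR [] (by simp))] with x hx hxK
    have h1 := hx hxK
    rw [Pool.Agent.W797.Rough.sum_words (fun a => Pool.Agent.Helper960.Rou.wD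
      ([] ++ List.ofFn a) fW (Pool.Agent.W797.Rough.L x))] at h1
    rw [Pool.Agent.W797.Rough.sum_multi (fun β : Fin 2 → Fin 2 => Pool.Agent.Helper960.Rou.wD
      (Pool.Agent.W797.Rough.wd (fun i => (0 : Fin 2 → ℕ) i + (β i : ℕ))) fW
      (Pool.Agent.W797.Rough.L x))]
    exact h1

end Pool.Agent.S04294
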