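import Pool.Statements.S04301
import Pool.Agent.W717.G.Final
import Pool.Agent.W717.G.JacR

set_option autoImplicit false
open Pool Pool.MP_345fd7_an

namespace Pool.Agent.S04301

/-- For finite abelian G, if A is a nonempty G-primitive matrix over Z+G (some power has all coefficients of all entries positive) and det(I-tA)=det(I-tB) for B over ZG, then B is shift equivalent over ZG to some G-primitive matrix. -/
theorem result :
    ∀ (G : Type) [CommGroup G] [Fintype G] (n m : ℕ)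
      (A : Matrix (Fin (n + 1)) (Fin (n + 1)) (MonoidAlgebra ℤ G))
      (B : Matrix (Fin m) (Fin m) (MonoidAlgebra ℤ G)),
      (∀ i j, A i j ∈ AddSubmonoid.closure (Set.range (MonoidAlgebra.of ℤ G))) →
      (∃ k : ℕ, 0 < k ∧ ∀ i j,
        (A ^ k) i j - ∑ g : G, MonoidAlgebra.of ℤ G g ∈
          AddSubmonoid.closure (Set.range (MonoidAlgebra.of ℤ G))) →
      Matrix.det (1 - (Polynomial.X : Polynomial (MonoidAlgebra ℤ G)) • A.map Polynomial.C) =
        Matrix.det (1 - (Polynomial.X : Polynomial (MonoidAlgebra ℤ G)) • B.map Polynomial.C) →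
      ∃ (p : ℕ) (C : Matrix (Fin p) (Fin p) (MonoidAlgebra ℤ G)),
        (∀ i j, C i j ∈ AddSubmonoid.closure (Set.range (MonoidAlgebra.of ℤ G))) ∧
        (∃ k : ℕ, 0 < k ∧ ∀ i j,
          (C ^ k) i j - ∑ g : G, MonoidAlgebra.of ℤ G g ∈
            AddSubmonoid.closure (Set.range (MonoidAlgebra.of ℤ G))) ∧
        ∃ ℓ : ℕ, 0 < ℓ ∧
          ∃ (R : Matrix (Fin m) (Fin p) (MonoidAlgebra ℤ G))
            (S : Matrix (Fin p) (Fin m) (MonoidAlgebra ℤ G)),
            B * R = R * C ∧ S * B = C * S ∧ R * S = B ^ ℓ ∧ S * R = C ^ ℓ := by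
  intro G _ _ n m A B hA hAp hdet
  obtain ⟨k, C, _, h2, h3, l, R, S, h4⟩ := Pool.Agent.W717.G.se_final' G (n + 1) m A B (Nat.succ_pos n) hA hAp (fun r hr c => by
    rw [Pool.Agent.W717.G.trace_eq_of_det A B hdet r hr])
  exact ⟨k, C, h2, h3, l, h4.1, R, S, h4.2⟩

end Pool.Agent.S04301
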