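import Pool.Statements.S04344
import Pool.Agent.W742.CU.Fin

set_option autoImplicit false
open MeasureTheory Filter Topology
open Pool Pool.MP_379c13_an

namespace Pool.Agent.S04344

theorem vol_eq (m : ℕ) : Pool.Agent.H767R2.haarT m =
    (volume : Measure (Fin m → UnitAddCircle)) := by
  have h : (volume : Measure UnitAddCircle) = AddCircle.haarAddCircle := by
    rw [AddCircle.volume_eq_smul_haarAddCircle]; simp
  rw [Pool.Agent.H767R2.haarT, volume_pi, h]

/-- The negation of the preceding statement: For every essentially distinct family of integer polynomials and every d: if the order-d Host–Kra factor is characteristic for the polynomial averages in all Weyl systems, then it is characteristic in all invertible standard measure-preserving systems. -/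
theorem result :
    ¬ (∀ (ℓ : ℕ) (P : Fin ℓ → Polynomial ℤ),
    (∀ i, 0 < (P i).natDegree) → (∀ i j, i ≠ j → 0 < (P i - P j).natDegree) →
    ∀ d : ℕ,
      (∀ (m : ℕ) (A : Matrix (Fin m) (Fin m) ℤ) (b : Fin m → UnitAddCircle)
          (T : (Fin m → UnitAddCircle) ≃ᵐ (Fin m → UnitAddCircle)),
          (A - 1) ^ m = 0 → (∀ x, T x = fun i => (∑ j, A i j • x j) + b i) →
          ∀ f : Fin ℓ → (Fin m → UnitAddCircle) → ℂ, (∀ i, Measurable (f i)) →
            (∀ i, ∃ C : ℝ, ∀ x, ‖f i x‖ ≤ C) →
            (∃ i, Tendsto (fun H : ℕ => (1 / (H : ℂ) ^ (d + 1)) *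
                ∑ h ∈ Fintype.piFinset (fun _ : Fin (d + 1) => Finset.range H),
                  ∫ x, ∏ ε : Fin (d + 1) → Bool,
                    (⇑(starRingEnd ℂ))^[(Finset.univ.filter (fun j => ε j = true)).card]
                      (f i (((T.toEquiv : Equiv.Perm (Fin m → UnitAddCircle)) ^
                        (∑ j, if ε j = true then (h j : ℤ) else 0)) x)) ∂volume)
                atTop (𝓝 0)) →
            Tendsto (fun N : ℕ => ∫ x, ‖(1 / (N : ℂ)) * ∑ n ∈ Finset.Icc 1 N,
                ∏ i, f i (((T.toEquiv : Equiv.Perm (Fin m → UnitAddCircle)) ^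
                  ((P i).eval (n : ℤ))) x)‖ ^ 2 ∂volume) atTop (𝓝 0)) →
      (∀ (X : Type) [MeasurableSpace X] [StandardBorelSpace X] (μ : Measure X)
          [IsProbabilityMeasure μ] (T : X ≃ᵐ X), MeasurePreserving T μ μ →
          ∀ f : Fin ℓ → X → ℂ, (∀ i, Measurable (f i)) →
            (∀ i, ∃ C : ℝ, ∀ x, ‖f i x‖ ≤ C) →
            (∃ i, Tendsto (fun H : ℕ => (1 / (H : ℂ) ^ (d + 1)) *
                ∑ h ∈ Fintype.piFinset (fun _ : Fin (d + 1) => Finset.range H),
                  ∫ x, ∏ ε : Fin (d + 1) → Bool,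
                    (⇑(starRingEnd ℂ))^[(Finset.univ.filter (fun j => ε j = true)).card]
                      (f i (((T.toEquiv : Equiv.Perm X) ^
                        (∑ j, if ε j = true then (h j : ℤ) else 0)) x)) ∂μ)
                atTop (𝓝 0)) →
            Tendsto (fun N : ℕ => ∫ x, ‖(1 / (N : ℂ)) * ∑ n ∈ Finset.Icc 1 N,
                ∏ i, f i (((T.toEquiv : Equiv.Perm X) ^
                  ((P i).eval (n : ℤ))) x)‖ ^ 2 ∂μ) atTop (𝓝 0))) := by
  intro H
  have hW := H 7 Pool.Agent.H767R2.pf Pool.Agent.W742.CU.pf_natDegree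
    Pool.Agent.W742.CU.pf_sub_natDegree 3 (by
      intro m A b T hA hT f hf hb hi
      obtain ⟨i, hi⟩ := hi
      simp only [Pool.Agent.W742.CU.frozen_KA] at hi
      rw [← vol_eq] at hi ⊢
      rcases Nat.eq_zero_or_pos m with hm | hm
      · subst hm
        exact Pool.Agent.W742.CU.point_half _ T.toEquiv f i hi
      · exact Pool.Agent.W742.CU.weyl_half
          ⟨m, hm, A, ⟨m, hA⟩, b, T.toEquiv, fun x i => congrFun (hT x) i⟩ f hf hb i hi)
  obtain ⟨h1, h2⟩ := Pool.Agent.W742.CU.general_half
  have hG := @hW Pool.Agent.H767R2.XX _ Pool.Agent.H767R2.standardBorel_XX Pool.Agent.H767R2.muX _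
    ⟨Pool.Agent.H767R2.TT, Pool.Agent.H767R2.mp_TT.measurable,
      Pool.Agent.H767R2.mp_TT_symm.measurable⟩ Pool.Agent.H767R2.mp_TT
    (fun i => Pool.Agent.H767R2.FF i.succ) (fun i => Pool.Agent.H767R2.measurable_FF i.succ)
    (fun i => ⟨1, Pool.Agent.H767R2.norm_FF_le _⟩)
    ⟨3, by
      simp only [Pool.Agent.W742.CU.frozen_KA]
      exact h1⟩
  exact h2 hG

end Pool.Agent.S04344
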