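import Pool.Statements.S04349
import Pool.Agent.W96.HR.Polar
import Pool.Agent.W96.HR.Ext

set_option autoImplicit false
open Pool Pool.MP_37b94e_an

namespace Pool.Agent.S04349

open Pool.Agent.W96.HR ComplexConjugate

/-- `y ↦ (ξ y_0, y)` -/
def L1 {m : ℕ} (ξ : ℂ) : (Fin (m + 1) → ℂ) →ₗ[ℂ] (Fin (m + 2) → ℂ) where
  toFun y := Fin.cons (ξ * y 0) y
  map_add' x y := by
    funext i
    refine Fin.cases ?_ (fun j => ?_) i
    · simp [mul_add]
    · simp
  map_smul' c y := by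
    funext i
    refine Fin.cases ?_ (fun j => ?_) i
    · simp; ring
    · simp

theorem L1_inj {m : ℕ} (ξ : ℂ) : Function.Injective (L1 (m := m) ξ) := by
  intro x y h
  funext i
  have := congrFun h i.succ
  simpa [L1] using this

/-- `y ↦ (y_0, 0, y_1, …)` -/
def L2 {m : ℕ} : (Fin (m + 1) → ℂ) →ₗ[ℂ] (Fin (m + 2) → ℂ) where
  toFun y := Fin.cons (y 0) (Fin.cons 0 (Fin.tail y))
  map_add' x y := by
    funext i
    refine Fin.cases ?_ (fun j => ?_) i
    · simp
    · refine Fin.cases ?_ (fun j => ?_) j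
      · simp
      · simp [Fin.tail]
  map_smul' c y := by
    funext i
    refine Fin.cases ?_ (fun j => ?_) i
    · simp
    · refine Fin.cases ?_ (fun j => ?_) j
      · simp
      · simp [Fin.tail]

theorem L2_inj {m : ℕ} : Function.Injective (L2 (m := m)) := by
  intro x y h
  funext i
  refine Fin.cases ?_ (fun j => ?_) i
  · have := congrFun h 0
    simpa [L2] using this
  · have := congrFun h j.succ.succ
    simpa [L2, Fin.tail] using this

theorem exists_plane {m : ℕ} (x : Fin (m + 2) → ℂ) :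
    ∃ (L : (Fin (m + 1) → ℂ) →ₗ[ℂ] (Fin (m + 2) → ℂ)) (y : Fin (m + 1) → ℂ),
      Function.Injective L ∧ L y = x := by
  by_cases h : x 1 = 0
  · refine ⟨L2, Fin.cons (x 0) (Fin.tail (Fin.tail x)), L2_inj, ?_⟩
    funext i
    refine Fin.cases ?_ (fun j => ?_) i
    · simp [L2]
    · refine Fin.cases ?_ (fun j => ?_) j
      · simp [L2, h]
      · simp [L2, Fin.tail]
  · refine ⟨L1 (x 0 / x 1), Fin.tail x, L1_inj _, ?_⟩
    funext i
    refine Fin.cases ?_ (fun j => ?_) i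
    · simp [L1, Fin.tail, h]
    · simp [L1, Fin.tail]

/-- For n ≥ 2 and each k there is c such that any real-analytic p on ℂⁿ whose restriction to every affine complex hyperplane is a sum of k terms ±∣holomorphic∣² is itself a sum of c terms ±∣entire holomorphic∣². -/
theorem result :
    ∀ n : ℕ, 2 ≤ n → ∀ k : ℕ, ∃ c : ℕ, ∀ p : (Fin n → ℂ) → ℝ,
      AnalyticOnNhd ℝ p Set.univ →
      (∀ (a : Fin n → ℂ) (L : (Fin (n - 1) → ℂ) →ₗ[ℂ] (Fin n → ℂ)),
        Function.Injective L →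
        ∃ (ε : Fin k → ℝ) (g : Fin k → (Fin (n - 1) → ℂ) → ℂ),
          (∀ j, ε j = 1 ∨ ε j = -1) ∧ (∀ j, Differentiable ℂ (g j)) ∧
          ∀ x, p (a + L x) = ∑ j, ε j * Complex.normSq (g j x)) →
      ∃ (ε : Fin c → ℝ) (f : Fin c → (Fin n → ℂ) → ℂ),
        (∀ j, ε j = 1 ∨ ε j = -1) ∧ (∀ j, Differentiable ℂ (f j)) ∧
        ∀ z, p z = ∑ j, ε j * Complex.normSq (f j z) := by
  intro n hn k
  obtain ⟨m, rfl⟩ : ∃ m, n = m + 2 := ⟨n - 2, by omega⟩
  refine ⟨N (N k) + N (N k), fun p hp H => ?_⟩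
  change ∀ (a : Fin (m + 2) → ℂ) (L : (Fin (m + 1) → ℂ) →ₗ[ℂ] (Fin (m + 2) → ℂ)),
        Function.Injective L →
        ∃ (ε : Fin k → ℝ) (g : Fin k → (Fin (m + 1) → ℂ) → ℂ),
          (∀ j, ε j = 1 ∨ ε j = -1) ∧ (∀ j, Differentiable ℂ (g j)) ∧
          ∀ x, p (a + L x) = ∑ j, ε j * Complex.normSq (g j x) at H
  obtain ⟨P, hP1, hP2⟩ := ext_exists p (hp 0 (Set.mem_univ 0)) (fun x => by
    obtain ⟨L, y, hL, hy⟩ := exists_plane x
    obtain ⟨ε, g, -, hg, hgp⟩ := H 0 L hL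
    refine ⟨fun t => ∑ j, (ε j : ℂ) * (g j (t • y) * conj (g j (conj t • y))), ?_, fun t => ?_⟩
    · refine Differentiable.fun_sum fun j _ => Differentiable.const_mul ?_ _
      refine Differentiable.mul ((hg j).comp (by fun_prop)) ?_
      exact diff_conj_conj (f := fun t => g j (t • y)) ((hg j).comp (by fun_prop))
    · have h1 := hgp ((t : ℂ) • y)
      rw [zero_add, map_smul, hy] at h1
      have h2 : (t : ℝ) • x = (t : ℂ) • x := by
        funext i; simp
      rw [h2, h1]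
      push_cast
      refine Finset.sum_congr rfl fun j _ => ?_
      rw [Complex.conj_ofReal, Complex.mul_conj])
  refine main_decomp p P hP1 hP2 (fun c ξ => ?_)
  obtain ⟨ε, g, -, hg, hgp⟩ := H (Fin.cons c 0) (L1 ξ) (L1_inj ξ)
  refine ⟨ε, g, hg, fun x => ?_⟩
  rw [← hgp x]
  congr 1
  funext i
  refine Fin.cases ?_ (fun j => ?_) i
  · simp [hyp, L1]
  · simp [hyp, L1]

end Pool.Agent.S04349
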