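-- Frozen statement S04356 (negation), derived from the starting result CoronaFails at p = 4.
import Pool.Statements.S04356
import Pool.Agent.Results.MP_3833d7_an.CoronaFails

set_option autoImplicit false
open Pool Pool.MP_3833d7_an

namespace Pool.Agent.S04356

open Pool.Agent.Results.MP_3833d7_an.CoronaFails in
/-- membership in the set of multipliers of the frozen statement, at the exponent four -/
theorem mem_iff (a : ℤ → ℂ) :
    (∃ C : ℝ, ∀ x : ℤ →₀ ℂ,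
      Summable (fun n : ℤ => ‖∑ k ∈ x.support, x k * a (n - k)‖ ^ (4 : ℝ)) ∧
      (∑' n : ℤ, ‖∑ k ∈ x.support, x k * a (n - k)‖ ^ (4 : ℝ)) ≤ C * ∑' n : ℤ, ‖x n‖ ^ (4 : ℝ)) ↔
    MemM 4 a := by
  have hr : ∀ t : ℝ, t ^ (4 : ℝ) = t ^ (4 : ℕ) := fun t => by
    rw [← Real.rpow_natCast]; norm_num
  have hx : ∀ x : ℤ →₀ ℂ, ∑' n : ℤ, ‖x n‖ ^ (4 : ℕ) = ∑ m ∈ x.support, ‖x m‖ ^ (4 : ℕ) := by
    intro x
    rw [tsum_eq_sum (s := x.support)]
    intro k hk
    rw [Finsupp.notMem_support_iff.1 hk, norm_zero]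
    norm_num
  have hcomm : ∀ (x : ℤ →₀ ℂ) (n : ℤ), ∑ k ∈ x.support, x k * a (n - k) =
      ∑ m ∈ x.support, a (n - m) * x m := fun x n => Finset.sum_congr rfl fun k _ => mul_comm _ _
  rw [memM_iff]
  simp only [hr, hx, hcomm]
  constructor
  · rintro ⟨C, hC⟩
    refine ⟨(max C 0) ^ (1 / 4 : ℝ), by positivity, fun x s => ?_⟩
    obtain ⟨h1, h2⟩ := hC x
    have hp : ((max C 0) ^ (1 / 4 : ℝ)) ^ (4 : ℕ) = max C 0 := by
      rw [← Real.rpow_natCast, ← Real.rpow_mul (le_max_right _ _)]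
      norm_num
    rw [hp]
    calc ∑ n ∈ s, ‖∑ m ∈ x.support, a (n - m) * x m‖ ^ 4
        ≤ ∑' n : ℤ, ‖∑ m ∈ x.support, a (n - m) * x m‖ ^ 4 :=
          h1.sum_le_tsum s fun i _ => by positivity
      _ ≤ C * ∑ m ∈ x.support, ‖x m‖ ^ 4 := h2
      _ ≤ max C 0 * ∑ m ∈ x.support, ‖x m‖ ^ 4 :=
          mul_le_mul_of_nonneg_right (le_max_left _ _) (by positivity)
  · rintro ⟨K, hK, h⟩
    refine ⟨K ^ 4, fun x => ?_⟩
    have hs : Summable (fun n : ℤ => ‖∑ m ∈ x.support, a (n - m) * x m‖ ^ 4) :=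
      summable_of_sum_le (fun i => by positivity) (h x)
    exact ⟨hs, hs.tsum_le_of_sum_le (h x)⟩

/-- The negation of the preceding statement: For every p in (1,∞) other than 2: if analytic ℓ^p-multipliers f_1..f_n satisfy Σ∣f_i∣ ≥ δ > 0 on the disk and at every character of the multiplier algebra M_p, then there are analytic multipliers g_i with Σ f_i g_i = 1. -/
theorem result :
    ¬ (∀ p : ℝ, 1 < p → p ≠ 2 →
  ∀ Mp : Set (ℤ → ℂ),
    Mp = {a : ℤ → ℂ | ∃ C : ℝ, ∀ x : ℤ →₀ ℂ,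
      Summable (fun n : ℤ => ‖∑ k ∈ x.support, x k * a (n - k)‖ ^ p) ∧
      (∑' n : ℤ, ‖∑ k ∈ x.support, x k * a (n - k)‖ ^ p) ≤ C * ∑' n : ℤ, ‖x n‖ ^ p} →
  ∀ (n : ℕ), 1 ≤ n → ∀ (f : Fin n → ℤ → ℂ) (δ : ℝ), 0 < δ →
    (∀ i, f i ∈ Mp ∧ ∀ k : ℤ, k < 0 → f i k = 0) →
    (∀ z : ℂ, ‖z‖ < 1 → δ ≤ ∑ i, ‖∑' k : ℕ, f i (k : ℤ) * z ^ k‖) →
    (∀ m : (ℤ → ℂ) → ℂ,
      (∀ a ∈ Mp, ∀ b ∈ Mp, m (a + b) = m a + m b ∧
        m (fun t : ℤ => ∑' k : ℤ, a k * b (t - k)) = m a * m b) →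
      (∀ c : ℂ, ∀ a ∈ Mp, m (c • a) = c * m a) →
      m (fun t : ℤ => if t = 0 then (1 : ℂ) else 0) = 1 →
      δ ≤ ∑ i, ‖m (f i)‖) →
    ∃ g : Fin n → ℤ → ℂ, (∀ i, g i ∈ Mp ∧ ∀ k : ℤ, k < 0 → g i k = 0) ∧
      ∀ t : ℤ, (∑ i, ∑' k : ℤ, f i k * g i (t - k)) = if t = 0 then (1 : ℂ) else 0) := by
  intro hall
  obtain ⟨f₁, f₂, h1, h2, ⟨h, hh, hinv⟩, hlow, hno⟩ :=
    Pool.Agent.Results.MP_3833d7_an.CoronaFails.main
  have hQ := hall 4 (by norm_num) (by norm_num) _ rfl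
  simp only [Set.mem_ofPred_eq, mem_iff] at hQ
  obtain ⟨F, hF⟩ := Pool.Agent.Results.MP_3833d7_an.CoronaFails.exists_op h1.1
  obtain ⟨H, hH⟩ := Pool.Agent.Results.MP_3833d7_an.CoronaFails.exists_op hh
  set C : ℝ := ‖H‖ * ‖(1 : NC.Alg.M 4)‖ with hC
  have hdelta : (fun t : ℤ => if t = 0 then (1 : ℂ) else 0) = NC.Alg.coef (1 : NC.Alg.M 4) := by
    funext t
    rw [NC.Alg.coef_one]
  have hC0 : 0 ≤ C := by positivity
  obtain ⟨g, hg, hb⟩ := hQ 2 (by norm_num) ![f₁, f₂] (min (1 / 2) (1 / (C + 1))) (by positivity)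
    (by
      intro i
      fin_cases i
      · exact ⟨h1.1, h1.2⟩
      · exact ⟨h2.1, h2.2⟩)
    (by
      intro z hz
      rw [Fin.sum_univ_two]
      refine (min_le_left _ _).trans ((hlow z hz).trans ?_)
      simp only [Matrix.cons_val_zero, Matrix.cons_val_one]
      have := norm_nonneg (∑' k : ℕ, f₁ (k : ℤ) * z ^ k)
      change _ ≤ _ + ‖Pool.Agent.Results.MP_3833d7_an.CoronaFails.val f₂ z‖
      linarith)
    (by
      intro m hm1 hm2 hm3
      rw [Fin.sum_univ_two]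
      simp only [Matrix.cons_val_zero, Matrix.cons_val_one]
      refine (min_le_right _ _).trans ?_
      have hchar : Pool.Agent.Results.MP_3833d7_an.CoronaFails.IsCharacter 4 m := by
        refine ⟨fun c d hc hd => ?_, fun r c hc => ?_, fun c d hc hd => ?_, ?_⟩
        · exact (hm1 c hc d hd).1
        · exact hm2 r c hc
        · have e : Pool.Agent.Results.MP_3833d7_an.CoronaFails.conv c d =
              (fun t : ℤ => ∑' k : ℤ, d k * c (t - k)) := by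
            funext t
            rw [Pool.Agent.Results.MP_3833d7_an.CoronaFails.conv]
            exact tsum_congr fun k => mul_comm _ _
          rw [e, (hm1 d hd c hc).2, mul_comm]
        · refine ⟨_, Pool.Agent.Results.MP_3833d7_an.CoronaFails.memM_coef (1 : NC.Alg.M 4), ?_⟩
          rw [← hdelta, hm3]
          exact one_ne_zero
      obtain ⟨χ, hχ⟩ := Pool.Agent.Results.MP_3833d7_an.CoronaFails.exists_hom hchar
      have e1 : χ F = m f₁ := by rw [hχ, funext hF]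
      have e2 : χ H = m h := by rw [hχ, funext hH]
      have e3 : m f₁ * m h = 1 := by
        rw [← hchar.mul _ _ h1.1 hh]
        have : Pool.Agent.Results.MP_3833d7_an.CoronaFails.conv f₁ h =
            NC.Alg.coef (1 : NC.Alg.M 4) := by
          funext n
          rw [hinv, NC.Alg.coef_one]
        rw [this, ← hχ, map_one]
      have h4 : (1 : ℝ) ≤ ‖m f₁‖ * C := by
        calc (1 : ℝ) = ‖m f₁ * m h‖ := by rw [e3, norm_one]
          _ = ‖m f₁‖ * ‖m h‖ := norm_mul _ _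
          _ ≤ ‖m f₁‖ * C := mul_le_mul_of_nonneg_left (by rw [← e2]; exact NC.Alg.char_bound χ H)
              (norm_nonneg _)
      have h3 : 1 / (C + 1) ≤ ‖m f₁‖ := by
        rw [div_le_iff₀ (by positivity)]
        nlinarith [norm_nonneg (m f₁)]
      linarith [norm_nonneg (m f₂)])
  obtain ⟨F₂, hF₂⟩ := Pool.Agent.Results.MP_3833d7_an.CoronaFails.exists_op h2.1
  obtain ⟨G₁, hG₁⟩ := Pool.Agent.Results.MP_3833d7_an.CoronaFails.exists_op (hg 0).1
  obtain ⟨G₂, hG₂⟩ := Pool.Agent.Results.MP_3833d7_an.CoronaFails.exists_op (hg 1).1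
  have m1 : F ∈ NC.Alg.MA 4 := fun n hn => by rw [hF, h1.2 n hn]
  have m2 : F₂ ∈ NC.Alg.MA 4 := fun n hn => by rw [hF₂, h2.2 n hn]
  have m3 : G₁ ∈ NC.Alg.MA 4 := fun n hn => by rw [hG₁, (hg 0).2 n hn]
  have m4 : G₂ ∈ NC.Alg.MA 4 := fun n hn => by rw [hG₂, (hg 1).2 n hn]
  refine hno ⟨g 0, g 1, hg 0, hg 1, fun z hz => ?_⟩
  have hcoef : ∀ t : ℤ, NC.Alg.coef (G₁ * F + G₂ * F₂) t = NC.Alg.coef (1 : NC.Alg.M 4) t := by
    intro t
    rw [NC.Alg.coef_add, NC.Alg.coef_mul, NC.Alg.coef_mul, ← hdelta]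
    have h5 := hb t
    rw [Fin.sum_univ_two] at h5
    simp only [Matrix.cons_val_zero, Matrix.cons_val_one] at h5
    refine Eq.trans ?_ h5
    congr 1
    · exact tsum_congr fun k => by rw [hG₁, hF, mul_comm]
    · exact tsum_congr fun k => by rw [hG₂, hF₂, mul_comm]
  have hext : NC.Alg.ext (G₁ * F + G₂ * F₂) z = 1 := by
    rw [← NC.Alg.ext_one z (p := 4)]
    rw [NC.Alg.ext, NC.Alg.ext]
    exact tsum_congr fun n => by rw [hcoef]
  rw [NC.Alg.ext_add _ _ hz, NC.Alg.ext_mul m3 m1 hz, NC.Alg.ext_mul m4 m2 hz] at hext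
  rw [← Pool.Agent.Results.MP_3833d7_an.CoronaFails.val_coef,
    ← Pool.Agent.Results.MP_3833d7_an.CoronaFails.val_coef,
    ← Pool.Agent.Results.MP_3833d7_an.CoronaFails.val_coef,
    ← Pool.Agent.Results.MP_3833d7_an.CoronaFails.val_coef,
    funext hF, funext hF₂, funext hG₁, funext hG₂] at hext
  rw [← hext]
  ring

end Pool.Agent.S04356
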