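import Pool.Statements.S04373
-- import your own Pool.Agent.* helpers here
import Pool.Agent.W739.SOS.Link

set_option autoImplicit false
open Pool Pool.MP_39acf6_an

namespace Pool.Agent.S04373

/-- For all n≥5, d≥2: among real coefficients c on degree-d multi-indices with some c<0 and all prolonged coefficients b_β=Σ_{β_j≥1} c_{β−e_j} ≥0, the least number of nonzero b_β is exactly C(n+1,2)−1. -/
theorem result :
    ∀ n d : ℕ, 5 ≤ n → 2 ≤ d →
      (∃ c : (Fin n → ℕ) → ℝ,
          (∃ α ∈ Finset.Nat.antidiagonalTuple n d, c α < 0) ∧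
          (∀ β ∈ Finset.Nat.antidiagonalTuple n (d + 1),
            0 ≤ ∑ j ∈ Finset.univ.filter (fun j : Fin n => 1 ≤ β j), c (β - Pi.single j 1)) ∧
          ((Finset.Nat.antidiagonalTuple n (d + 1)).filter
              (fun β => ∑ j ∈ Finset.univ.filter (fun j : Fin n => 1 ≤ β j),
                  c (β - Pi.single j 1) ≠ 0)).card = (n + 1).choose 2 - 1) ∧
      (∀ c : (Fin n → ℕ) → ℝ,
          (∃ α ∈ Finset.Nat.antidiagonalTuple n d, c α < 0) →
          (∀ β ∈ Finset.Nat.antidiagonalTuple n (d + 1),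
            0 ≤ ∑ j ∈ Finset.univ.filter (fun j : Fin n => 1 ≤ β j), c (β - Pi.single j 1)) →
          (n + 1).choose 2 - 1 ≤
            ((Finset.Nat.antidiagonalTuple n (d + 1)).filter
              (fun β => ∑ j ∈ Finset.univ.filter (fun j : Fin n => 1 ≤ β j),
                  c (β - Pi.single j 1) ≠ 0)).card) := by
  intro n d hn hd
  have low : ∀ c : (Fin n → ℕ) → ℝ,
      (∃ α ∈ Finset.Nat.antidiagonalTuple n d, c α < 0) →
      (∀ β ∈ Finset.Nat.antidiagonalTuple n (d + 1),
        0 ≤ ∑ j ∈ Finset.univ.filter (fun j : Fin n => 1 ≤ β j), c (β - Pi.single j 1)) →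
      (n + 1).choose 2 - 1 ≤
        ((Finset.Nat.antidiagonalTuple n (d + 1)).filter
          (fun β => ∑ j ∈ Finset.univ.filter (fun j : Fin n => 1 ≤ β j),
              c (β - Pi.single j 1) ≠ 0)).card := by
    intro c h1 h2
    obtain ⟨P, N, hC, hcard⟩ := Pool.Agent.W739.SOS.lower_link c h1 h2
    exact (Pool.Agent.W739.SOS.lower n hn Finset.univ P N d hC (by simp)).trans hcard
  refine ⟨?_, low⟩
  obtain ⟨c, h1, h2, h3⟩ := Pool.Agent.W739.SOS.example_upper n d (by omega) hd
  exact ⟨c, h1, fun β _ => h2 β, le_antisymm h3 (low c h1 (fun β _ => h2 β))⟩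

end Pool.Agent.S04373
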