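import Pool.Statements.S04415
import Pool.Agent.W672.Part4c

set_option autoImplicit false
open scoped TensorProduct
open Pool Pool.MP_3d22c5_an

namespace Pool.Agent.S04415

/-- If the rational 2-step nilpotent Lie algebra of a finite graph has an automorphism with integral char poly, constant term ±1 and no eigenvalue of modulus 1, then so does every rational Lie algebra whose real form is isomorphic to its real form. -/
theorem result :
    ∀ (n : ℕ) (G : SimpleGraph (Fin n)) (N : Type) [LieRing N] [LieAlgebra ℚ N]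
      [FiniteDimensional ℚ N] (b : Module.Basis (Fin n ⊕ G.edgeSet) ℚ N),
      (∀ (i j : Fin n) (h : G.Adj i j), i < j →
          ⁅b (Sum.inl i), b (Sum.inl j)⁆ = b (Sum.inr ⟨s(i, j), G.mem_edgeSet.mpr h⟩)) →
      (∀ i j : Fin n, ¬ G.Adj i j → ⁅b (Sum.inl i), b (Sum.inl j)⁆ = 0) →
      (∀ (e : G.edgeSet) (k : Fin n ⊕ G.edgeSet), ⁅b (Sum.inr e), b k⁆ = 0) →
      (∃ f : N ≃ₗ⁅ℚ⁆ N, ∃ p : Polynomial ℤ,
          p.map (Int.castRingHom ℚ) = LinearMap.charpoly f.toLinearEquiv.toLinearMap ∧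
          (p.coeff 0 = 1 ∨ p.coeff 0 = -1) ∧
          ∀ z : ℂ, (p.map (Int.castRingHom ℂ)).IsRoot z → ‖z‖ ≠ 1) →
      ∀ (M : Type) [LieRing M] [LieAlgebra ℚ M] [FiniteDimensional ℚ M],
        Nonempty ((ℝ ⊗[ℚ] M) ≃ₗ⁅ℝ⁆ (ℝ ⊗[ℚ] N)) →
        ∃ g : M ≃ₗ⁅ℚ⁆ M, ∃ q : Polynomial ℤ,
          q.map (Int.castRingHom ℚ) = LinearMap.charpoly g.toLinearEquiv.toLinearMap ∧
          (q.coeff 0 = 1 ∨ q.coeff 0 = -1) ∧
          ∀ z : ℂ, (q.map (Int.castRingHom ℂ)).IsRoot z → ‖z‖ ≠ 1 := by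
  classical
  intro n G N _ _ _ b h1 h2 h3 hf M _ _ _ hM
  obtain ⟨f, p, hp, hp0, hr⟩ := hf
  obtain ⟨e⟩ := hM
  -- coordinates on `N`
  obtain ⟨gN⟩ := Pool.Agent.W672.GDat.ofBasis b h1 h2 h3
  obtain ⟨hc1, hc2⟩ := Pool.Agent.W672.part1 gN f p hp hp0 hr
  -- coordinates on the real form
  obtain ⟨gR⟩ := Pool.Agent.W672.GDat.ofBasis (k := ℝ) (L := ℝ ⊗[ℚ] N) (b.baseChange ℝ)
    (by
      intro i j h hij
      rw [Module.Basis.baseChange_apply, Module.Basis.baseChange_apply,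
        Module.Basis.baseChange_apply, LieAlgebra.ExtendScalars.bracket_tmul, mul_one,
        h1 i j h hij])
    (by
      intro i j h
      rw [Module.Basis.baseChange_apply, Module.Basis.baseChange_apply,
        LieAlgebra.ExtendScalars.bracket_tmul, h2 i j h, TensorProduct.tmul_zero])
    (by
      intro e l
      rw [Module.Basis.baseChange_apply, Module.Basis.baseChange_apply,
        LieAlgebra.ExtendScalars.bracket_tmul, h3 e l, TensorProduct.tmul_zero])
  obtain ⟨mo⟩ := Pool.Agent.W672.exists_model (gR.transport e)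
  exact Pool.Agent.W672.part4 mo hc1 hc2

end Pool.Agent.S04415
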