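import Pool.Statements.S04422
import Pool.Agent.W717.UR.Asm
-- import your own Pool.Agent.* helpers here

set_option autoImplicit false
open Topology
open Pool Pool.MP_3dc43d_an

namespace Pool.Agent.S04422

/-- The negation of the preceding statement: For every real or complex Banach space X and bounded operator T, if the uniformly recurrent vectors (return times to each neighbourhood have bounded gaps) are dense, then some dense linear subspace consists entirely of uniformly recurrent vectors. -/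
theorem result :
    ¬ (∀ (𝕂 : Type) [RCLike 𝕂] (X : Type) [NormedAddCommGroup X] [NormedSpace 𝕂 X]
      [CompleteSpace X] (T : X →L[𝕂] X),
      Dense {x : X | ∀ U ∈ 𝓝 x, ∃ N : ℕ, ∀ m : ℕ, ∃ n : ℕ,
          m ≤ n ∧ n ≤ m + N ∧ 1 ≤ n ∧ (T ^ n) x ∈ U} →
      ∃ M : Submodule 𝕂 X, Dense (M : Set X) ∧
        ∀ x ∈ M, ∀ U ∈ 𝓝 x, ∃ N : ℕ, ∀ m : ℕ, ∃ n : ℕ,
          m ≤ n ∧ n ≤ m + N ∧ 1 ≤ n ∧ (T ^ n) x ∈ U) := by
  intro H
  obtain ⟨X, i1, i2, i3, T, hd, hn⟩ := Pool.Agent.W717.UR.asm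
  exact hn (H ℝ X T hd)

end Pool.Agent.S04422
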