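import Pool.Statements.S04445
import Pool.Agent.W717.G.Final

set_option autoImplicit false
open Pool Pool.MP_402c18_an

namespace Pool.Agent.S04445

/-- For a finite group G, if A over Z+G is G-primitive and B over ZG has the same conjugacy-class trace series (tr A^r − tr B^r killed by κ for all r≥1), then B is shift equivalent over ZG to some G-primitive matrix C. -/
theorem result :
    ∀ (G : Type) [Group G] [Fintype G] (n m : ℕ)
      (A : Matrix (Fin n) (Fin n) (MonoidAlgebra ℤ G))
      (B : Matrix (Fin m) (Fin m) (MonoidAlgebra ℤ G)),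
      0 < n →
      (∀ i j, A i j ∈ AddSubmonoid.closure
          (Set.range (fun g : G => MonoidAlgebra.of ℤ G g))) →
      (∃ p : ℕ, 0 < p ∧ ∀ i j,
          (A ^ p) i j - ∑ g : G, MonoidAlgebra.of ℤ G g ∈ AddSubmonoid.closure
            (Set.range (fun g : G => MonoidAlgebra.of ℤ G g))) →
      (∀ r : ℕ, 0 < r →
          Matrix.trace (A ^ r) - Matrix.trace (B ^ r) ∈ AddSubgroup.closure
            {x : MonoidAlgebra ℤ G | ∃ g h : G,
              x = MonoidAlgebra.of ℤ G g - MonoidAlgebra.of ℤ G (h * g * h⁻¹)}) →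
      ∃ (k : ℕ) (C : Matrix (Fin k) (Fin k) (MonoidAlgebra ℤ G)),
        0 < k ∧
        (∀ i j, C i j ∈ AddSubmonoid.closure
            (Set.range (fun g : G => MonoidAlgebra.of ℤ G g))) ∧
        (∃ p : ℕ, 0 < p ∧ ∀ i j,
            (C ^ p) i j - ∑ g : G, MonoidAlgebra.of ℤ G g ∈ AddSubmonoid.closure
              (Set.range (fun g : G => MonoidAlgebra.of ℤ G g))) ∧
        ∃ (l : ℕ) (R : Matrix (Fin m) (Fin k) (MonoidAlgebra ℤ G))
          (S : Matrix (Fin k) (Fin m) (MonoidAlgebra ℤ G)),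
          B * R = R * C ∧ S * B = C * S ∧ R * S = B ^ l ∧ S * R = C ^ l := by
  intro G _ _ n m A B hn hA hAp htr
  obtain ⟨k, C, h1, h2, h3, l, R, S, _, h4⟩ := Pool.Agent.W717.G.se_final' G n m A B hn hA hAp (fun r hr c => by
    have h := Pool.Agent.W717.G.kz_of_closure (htr r hr) c
    rw [Pool.Agent.W717.G.kz_sub] at h
    exact sub_eq_zero.mp h)
  exact ⟨k, C, h1, h2, h3, l, R, S, h4⟩

end Pool.Agent.S04445
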