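import Pool.Statements.S04457
-- import your own Pool.Agent.* helpers here
import Pool.Agent.W91.QL.PPm
import Pool.Agent.W381.QL.Unc
import Pool.Agent.W28.QL.Sys
import Pool.Agent.W247.QL.NS
import Pool.Agent.W253.QL.FinT
import Pool.Agent.W579.QL.Lim
import Pool.Agent.W382.QL.Rect

set_option autoImplicit false
open Pool Pool.MP_410ea2_an

namespace Pool.Agent.S04457

/-- There is a quasiconformal homeomorphism f of the plane (metric definition) and an uncountable set E of reals such that every rectifiable curve lying in f of the union of the vertical lines over E is constant. -/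
theorem result :
    ∃ f : ℂ ≃ₜ ℂ,
      (∃ H : ℝ, ∀ x : ℂ, ∃ δ > (0 : ℝ), ∀ y z : ℂ,
          dist y x = dist z x → dist y x < δ →
            dist (f y) (f x) ≤ H * dist (f z) (f x)) ∧
      ∃ E : Set ℝ, ¬ E.Countable ∧
        ∀ γ : ℝ → ℂ, ContinuousOn γ (Set.Icc 0 1) →
          BoundedVariationOn γ (Set.Icc 0 1) →
          (∀ t ∈ Set.Icc (0 : ℝ) 1, γ t ∈ f '' {z : ℂ | z.re ∈ E}) →
          ∀ s ∈ Set.Icc (0 : ℝ) 1, ∀ t ∈ Set.Icc (0 : ℝ) 1, γ s = γ t := by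
  obtain ⟨hunc, hne⟩ := Pool.Agent.W381.QL.t_unc
  have hs := Pool.Agent.W28.QL.t_Sys Pool.Agent.W91.QL.t_PP hne
  obtain ⟨hN, hQ⟩ := Pool.Agent.W247.QL.t_NS _ _ _ hs
  have hF := Pool.Agent.W253.QL.t_Fin _ _ _ hs hN hQ
  obtain ⟨f, h1, h2⟩ := Pool.Agent.W579.QL.t_Lim _ _ _ hs hF
  exact ⟨f, ⟨16, fun x => ⟨1, one_pos, fun y z hyz hlt => h1 x y z hyz hlt⟩⟩, _, hunc,
    Pool.Agent.W382.QL.t_Rect f _ h2⟩

end Pool.Agent.S04457
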