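-- Derived from the starting helper theorem Pool.Agent.H352R4.CA.alpha_remove (never filed).
import Pool.Statements.S04503
import Pool.Agent.H352R4.CA.End

set_option autoImplicit false
open Filter Topology
open scoped ENNReal NNReal
open Pool Pool.MP_437602_an

namespace Pool.Agent.S04503

open Pool.Agent.H352R4.CA in
/-- for a compact set `S` the extended-real capacity is `ofReal (alpha S)` -/
theorem cap_eq (α : Set ℂ → ℝ≥0∞)
    (hα : ∀ S : Set ℂ, α S =
        ⨆ (F : Set ℂ) (_ : IsCompact F) (_ : F ⊆ S) (f : ℂ → ℂ) (c : ℂ)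
          (_ : Continuous f ∧ DifferentiableOn ℂ f Fᶜ ∧ (∀ z, ‖f z‖ ≤ 1) ∧
                Tendsto f (cocompact ℂ) (𝓝 0) ∧
                Tendsto (fun z => z * f z) (cocompact ℂ) (𝓝 c)),
          ((‖c‖₊ : ℝ≥0) : ℝ≥0∞)) {S : Set ℂ} (hS : IsCompact S) :
    α S = ENNReal.ofReal (alpha S) := by
  rw [hα S]
  apply le_antisymm
  · refine iSup_le fun F => iSup_le fun hF => iSup_le fun hFS => iSup_le fun f => iSup_le fun c =>
      iSup_le fun h => ?_
    obtain ⟨h1, h2, h3, h4, h5⟩ := h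
    have h6 : ‖c‖ ≤ alpha F := le_alpha hF ⟨h1, h2, h5⟩ h3
    have h7 : ‖c‖ ≤ alpha S := h6.trans (alpha_mono hS hFS)
    rw [← ENNReal.ofReal_coe_nnreal, coe_nnnorm]
    exact ENNReal.ofReal_le_ofReal h7
  · refine ENNReal.le_of_forall_pos_le_add ?_
    intro ε hε _
    -- pick an almost extremal function
    rcases (alpha_nonneg S).eq_or_lt with h0 | h0
    · rw [← h0]; simp
    have hne : {c | ∃ h l, Ac S h l ∧ (∀ z, ‖h z‖ ≤ 1) ∧ c = ‖l‖}.Nonempty := by
      by_contra hne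
      rw [Set.not_nonempty_iff_eq_empty] at hne
      unfold alpha at h0
      rw [hne, Real.sSup_empty] at h0
      exact lt_irrefl _ h0
    obtain ⟨c, ⟨f, l, hf, hb, rfl⟩, hc⟩ := exists_lt_of_lt_csSup hne
      (show alpha S - ε < sSup {c | ∃ h l, Ac S h l ∧ (∀ z, ‖h z‖ ≤ 1) ∧ c = ‖l‖} from by
        have : (0:ℝ) < ε := by exact_mod_cast hε
        show alpha S - ε < alpha S
        linarith)
    have h1 : (‖l‖₊ : ℝ≥0∞) ≤ ⨆ (F : Set ℂ) (_ : IsCompact F) (_ : F ⊆ S) (f : ℂ → ℂ) (c : ℂ)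
          (_ : Continuous f ∧ DifferentiableOn ℂ f Fᶜ ∧ (∀ z, ‖f z‖ ≤ 1) ∧
                Tendsto f (cocompact ℂ) (𝓝 0) ∧
                Tendsto (fun z => z * f z) (cocompact ℂ) (𝓝 c)),
          ((‖c‖₊ : ℝ≥0) : ℝ≥0∞) := by
      refine le_iSup_of_le S (le_iSup_of_le hS (le_iSup_of_le subset_rfl (le_iSup_of_le f
        (le_iSup_of_le l (le_iSup_of_le ⟨hf.cont, hf.hol, hb, hf.zero, hf.lim⟩ le_rfl)))))
    refine le_trans ?_ (add_le_add h1 le_rfl)
    rw [← ENNReal.ofReal_coe_nnreal, ← ENNReal.ofReal_coe_nnreal (p := ε), coe_nnnorm,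
      ← ENNReal.ofReal_add (norm_nonneg _) (NNReal.coe_nonneg ε)]
    exact ENNReal.ofReal_le_ofReal (by linarith)

/-- For the (uniquely determined) continuous analytic capacity α(S)=sup over compact F⊆S and continuous f on ℂ, holomorphic off F, ∣f∣≤1, f(∞)=0, of ∣lim z f(z)∣: for compact K,E with α(K)=0, α(E\K)=α(E). -/
theorem result :
    ∀ α : Set ℂ → ℝ≥0∞,
      (∀ S : Set ℂ, α S =
        ⨆ (F : Set ℂ) (_ : IsCompact F) (_ : F ⊆ S) (f : ℂ → ℂ) (c : ℂ)
          (_ : Continuous f ∧ DifferentiableOn ℂ f Fᶜ ∧ (∀ z, ‖f z‖ ≤ 1) ∧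
                Tendsto f (cocompact ℂ) (𝓝 0) ∧
                Tendsto (fun z => z * f z) (cocompact ℂ) (𝓝 c)),
          ((‖c‖₊ : ℝ≥0) : ℝ≥0∞)) →
      ∀ K E : Set ℂ, IsCompact K → IsCompact E → α K = 0 → α (E \ K) = α E := by
  intro α hα K E hK hE h0
  have hcap : ∀ S : Set ℂ, IsCompact S → α S = ENNReal.ofReal (Pool.Agent.H352R4.CA.alpha S) :=
    fun S hS => cap_eq α hα hS
  have hK0 : Pool.Agent.H352R4.CA.alpha K = 0 := by
    rw [hcap K hK, ENNReal.ofReal_eq_zero] at h0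
    exact le_antisymm h0 (Pool.Agent.H352R4.CA.alpha_nonneg K)
  have hmono : ∀ S T : Set ℂ, S ⊆ T → α S ≤ α T := by
    intro S T hST
    rw [hα S, hα T]
    refine iSup_mono fun F => iSup_mono fun hF => ?_
    exact iSup_le fun hFS => le_iSup_of_le (hFS.trans hST) le_rfl
  refine le_antisymm (hmono _ _ Set.sdiff_subset) ?_
  rw [hcap E hE, ← Pool.Agent.H352R4.CA.alpha_remove hE hK hK0]
  by_cases htop : α (E \ K) = ⊤
  · rw [htop]; exact le_top
  rw [← ENNReal.ofReal_toReal htop]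
  refine ENNReal.ofReal_le_ofReal (Real.sSup_le ?_ ENNReal.toReal_nonneg)
  rintro c ⟨L, hL, hLE, rfl⟩
  have h1 : α L ≤ α (E \ K) := hmono _ _ hLE
  rw [hcap L hL] at h1
  exact (ENNReal.ofReal_le_iff_le_toReal htop).1 h1

end Pool.Agent.S04503
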