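import Pool.Statements.S04554
import Pool.Agent.W71.IetF

set_option autoImplicit false
open Pool Pool.MP_483d01_an

namespace Pool.Agent.S04554

/-- The negation of the preceding statement: For any permutation and any positive length vector a whose interval exchange has a unique invariant probability measure, and any direction b, there is ε>0 such that for almost every t in (−ε,ε) the lengths a+tb are again uniquely ergodic. -/
theorem result :
    ¬ (∀ (d : ℕ) (π : Equiv.Perm (Fin d)) (UE : (Fin d → ℝ) → Prop),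
    (∀ v : Fin d → ℝ, UE v ↔ ∃! μ : MeasureTheory.Measure ℝ,
        MeasureTheory.IsProbabilityMeasure μ ∧
        μ ((Set.Ico (0 : ℝ) (∑ i : Fin d, v i))ᶜ) = 0 ∧
        MeasureTheory.Measure.map (fun x : ℝ => x + ∑ j : Fin d,
          (Set.Ico (∑ i ∈ (Finset.univ : Finset (Fin d)).filter (fun i : Fin d => i < j), v i)
             ((∑ i ∈ (Finset.univ : Finset (Fin d)).filter (fun i : Fin d => i < j), v i) + v j)).indicator
            (fun _ : ℝ => (∑ i ∈ (Finset.univ : Finset (Fin d)).filter (fun i : Fin d => π i < π j), v i) -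
                      ∑ i ∈ (Finset.univ : Finset (Fin d)).filter (fun i : Fin d => i < j), v i) x) μ = μ) →
    ∀ a b : Fin d → ℝ, (∀ i, 0 < a i) → UE a →
      ∃ ε : ℝ, 0 < ε ∧
        ∀ᵐ t : ℝ ∂(MeasureTheory.volume.restrict (Set.Ioo (-ε) ε)), UE (a + t • b)) := by
  intro H
  obtain ⟨r, h1, h2, hr⟩ := Pool.Agent.W71.Iet.exists_lam
  obtain ⟨s, g1, g2, hs⟩ := Pool.Agent.W71.Iet.exists_mu
  have hE := Pool.Agent.W71.Iet.eig_al r h1 h2 hr
  have hr0 : 0 < r := by linarith
  have hs0 : 0 < s := by linarith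
  obtain ⟨ε, hε, hae⟩ := H 7 Pool.Agent.W71.Iet.p0
    (fun v => ∃! m : MeasureTheory.Measure ℝ, Pool.Agent.W71.Iet.IsInv Pool.Agent.W71.Iet.p0 v m)
    (fun v => Iff.rfl) (Pool.Agent.W71.Iet.al r) (Pool.Agent.W71.Iet.al s) hE.pos hE.ue
  have hq1 : s / r < 1 := by rw [div_lt_one hr0]; linarith
  have hq0 : 0 < s / r := div_pos hs0 hr0
  obtain ⟨n, hn⟩ := exists_pow_lt_of_lt_one hε hq1
  have hqn : 0 < (s / r) ^ n := pow_pos hq0 n
  rw [MeasureTheory.ae_restrict_iff' measurableSet_Ioo, MeasureTheory.ae_iff] at hae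
  have hsub : Set.Icc (2/5 * (s / r) ^ n) (3/5 * (s / r) ^ n) ⊆
      {t : ℝ | ¬ (t ∈ Set.Ioo (-ε) ε → ∃! m : MeasureTheory.Measure ℝ,
        Pool.Agent.W71.Iet.IsInv Pool.Agent.W71.Iet.p0
          (Pool.Agent.W71.Iet.al r + t • Pool.Agent.W71.Iet.al s) m)} := by
    intro t ht hcon
    have ht1 : t ∈ Set.Ioo (-ε) ε := ⟨by nlinarith [ht.1], by nlinarith [ht.2]⟩
    have h3 := hcon ht1
    have e1 : t / (s / r) ^ n * (s / r) ^ n = t := div_mul_cancel₀ t hqn.ne'
    have b1 : 2/5 ≤ t / (s / r) ^ n := by rw [le_div_iff₀ hqn]; exact ht.1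
    have b2 : t / (s / r) ^ n ≤ 3/5 := by rw [div_le_iff₀ hqn]; exact ht.2
    have h4 := Pool.Agent.W71.Iet.NP_all r s h1 h2 g1 g2 hr hs _ b1 b2 n
    rw [e1] at h4
    have hpos : ∀ k, 0 < (Pool.Agent.W71.Iet.al r + t • Pool.Agent.W71.Iet.al s) k := by
      intro k
      have hqn1 : (s / r) ^ n ≤ 1 := pow_le_one₀ hq0.le hq1.le
      exact Pool.Agent.W71.Iet.comb_pos r s h1 h2 g1 g2 t (by nlinarith [ht.1])
        (by nlinarith [ht.2]) k
    exact Pool.Agent.W71.Iet.per_not_ue Pool.Agent.W71.Iet.p0 _ (fun k => (hpos k).le) h4 h3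
  have hnull := MeasureTheory.measure_mono_null hsub hae
  rw [Real.volume_Icc, ENNReal.ofReal_eq_zero] at hnull
  linarith

end Pool.Agent.S04554
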