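import Pool.Statements.S04573
import Pool.Agent.W737.SB.All

set_option autoImplicit false
open Pool Pool.MP_49b044_an

namespace Pool.Agent.S04573

/-- If a bounded domain in C^n is biholomorphic to the unit ball and has a C^2 defining function, then it has a C^2 defining function whose Levi form is positive definite on the complex tangent space at every boundary point. -/
theorem result : ∀ n : ℕ, ∀ Ω : Set (EuclideanSpace ℂ (Fin n)),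
    Bornology.IsBounded Ω →
    (∃ φ ψ : EuclideanSpace ℂ (Fin n) → EuclideanSpace ℂ (Fin n),
        DifferentiableOn ℂ φ (Metric.ball 0 1) ∧ DifferentiableOn ℂ ψ Ω ∧
        Set.MapsTo φ (Metric.ball 0 1) Ω ∧ Set.MapsTo ψ Ω (Metric.ball 0 1) ∧
        (∀ z ∈ Metric.ball (0 : EuclideanSpace ℂ (Fin n)) 1, ψ (φ z) = z) ∧
        (∀ w ∈ Ω, φ (ψ w) = w)) →
    (∃ ρ : EuclideanSpace ℂ (Fin n) → ℝ, ContDiff ℝ 2 ρ ∧ Ω = {z | ρ z < 0} ∧
        ∀ z, ρ z = 0 → fderiv ℝ ρ z ≠ 0) →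
    ∃ ρ : EuclideanSpace ℂ (Fin n) → ℝ, ContDiff ℝ 2 ρ ∧ Ω = {z | ρ z < 0} ∧
        (∀ z, ρ z = 0 → fderiv ℝ ρ z ≠ 0) ∧
        ∀ p, ρ p = 0 → ∀ w : EuclideanSpace ℂ (Fin n), w ≠ 0 →
          fderiv ℝ ρ p w = 0 → fderiv ℝ ρ p (Complex.I • w) = 0 →
          0 < fderiv ℝ (fderiv ℝ ρ) p w w
                + fderiv ℝ (fderiv ℝ ρ) p (Complex.I • w) (Complex.I • w) := by
  intro n Ω hb hbi hρ
  obtain ⟨φ, ψ, h1, h2, h3, h4, h5, h6⟩ := hbi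
  obtain ⟨ρ, r1, r2, r3⟩ := hρ
  have D : Pool.Agent.W737.SB.Dat Ω ρ :=
    ⟨r1, r2, hb, r3, φ, ψ, φ 0, ⟨h1, h3, h2, h4, h5, h6, rfl⟩⟩
  refine ⟨ρ, r1, r2, r3, ?_⟩
  intro p hp w hw hw1 hw2
  by_contra hcon
  push Not at hcon
  exact Pool.Agent.W737.SB.not_bad D p ⟨hp, w, hw, hw1, hw2, hcon⟩

end Pool.Agent.S04573
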