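import Pool.Statements.S04589
import Pool.Agent.W775.WH.Asm

set_option autoImplicit false
open MeasureTheory
open Pool Pool.MP_4aaa5f_an

namespace Pool.Agent.S04589

/-- In the plane, if u is convex on an open convex set and its Monge–Ampère measure lies between λ and 1/λ times Lebesgue measure (0<λ<1), then on each compact subset the Hessian lies in weak L^p with p=(1+λ²)/(1−λ²). -/
theorem result :
    ∀ (Ω : Set (EuclideanSpace ℝ (Fin 2))) (u : EuclideanSpace ℝ (Fin 2) → ℝ) (l : ℝ),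
      IsOpen Ω → Convex ℝ Ω → ConvexOn ℝ Ω u → 0 < l → l < 1 →
      (∀ B : Set (EuclideanSpace ℝ (Fin 2)), MeasurableSet B → B ⊆ Ω →
        ENNReal.ofReal l * volume B ≤
            volume (⋃ x ∈ B, {p : EuclideanSpace ℝ (Fin 2) |
              ∀ y ∈ Ω, u x + inner ℝ p (y - x) ≤ u y}) ∧
        volume (⋃ x ∈ B, {p : EuclideanSpace ℝ (Fin 2) |
              ∀ y ∈ Ω, u x + inner ℝ p (y - x) ≤ u y}) ≤
            ENNReal.ofReal l⁻¹ * volume B) →
      ∀ K : Set (EuclideanSpace ℝ (Fin 2)), IsCompact K → K ⊆ Ω →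
        ∃ C : ℝ, ∀ s : ℝ, 0 < s →
          ENNReal.ofReal (s ^ ((1 + l ^ 2) / (1 - l ^ 2))) *
              volume {x ∈ K | s < ‖fderiv ℝ (fderiv ℝ u) x‖} ≤ ENNReal.ofReal C :=
  Pool.Agent.W775.WH.Asm.main

end Pool.Agent.S04589
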