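import Pool.Statements.S04606
import Pool.Agent.Results.MP_4bee3f_an.EndpointGainFails

set_option autoImplicit false
open MeasureTheory
open Pool Pool.MP_4bee3f_an

namespace Pool.Agent.S04606

/-- The negation of the preceding statement: For all n≥2, k, open connected Ω⊆ℝⁿ, and linear elliptic systems with a locally Lipschitz a.e. solution u whose a.e. Jacobian equals a nonvanishing J: if A,B,c,J are C^{k,1} then u is C^{k+1,1}, and if A,B,c,J are C^{k+1} then u is C^{k+2}. -/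
theorem result :
    ¬ (∀ (n : ℕ), 2 ≤ n → ∀ (k : ℕ) (Ω : Set (EuclideanSpace ℝ (Fin n))), IsOpen Ω → IsConnected Ω →
  ∀ (A : Fin n → Fin n → Fin n → EuclideanSpace ℝ (Fin n) → ℝ)
    (B : Fin n → Fin n → EuclideanSpace ℝ (Fin n) → ℝ)
    (c : Fin n → EuclideanSpace ℝ (Fin n) → ℝ)
    (u : Fin n → EuclideanSpace ℝ (Fin n) → ℝ)
    (J : EuclideanSpace ℝ (Fin n) → ℝ),
  (∀ x ∈ Ω, ∀ ξ : Fin n → ℝ, ξ ≠ 0 →
      (Matrix.of fun i l => ∑ j, ξ j * A j i l x).det ≠ 0) →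
  (∀ i, ∀ x ∈ Ω, ∃ C : NNReal, ∃ U ∈ nhds x, LipschitzOnWith C (u i) (U ∩ Ω)) →
  (∀ᵐ x ∂(volume.restrict Ω), ∀ i,
      ∑ j, ∑ l, A j i l x * fderiv ℝ (u l) x (EuclideanSpace.single j 1)
        + ∑ l, B i l x * u l x = c i x) →
  (∀ x ∈ Ω, J x ≠ 0) →
  (∀ᵐ x ∂(volume.restrict Ω),
      (Matrix.of fun i j => fderiv ℝ (u i) x (EuclideanSpace.single j 1)).det = J x) →
  (((∀ j i l, ContDiffOn ℝ k (A j i l) Ω ∧ ∀ x ∈ Ω, ∃ C : NNReal, ∃ U ∈ nhds x,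
        LipschitzOnWith C (iteratedFDeriv ℝ k (A j i l)) (U ∩ Ω)) ∧
    (∀ i l, ContDiffOn ℝ k (B i l) Ω ∧ ∀ x ∈ Ω, ∃ C : NNReal, ∃ U ∈ nhds x,
        LipschitzOnWith C (iteratedFDeriv ℝ k (B i l)) (U ∩ Ω)) ∧
    (∀ i, ContDiffOn ℝ k (c i) Ω ∧ ∀ x ∈ Ω, ∃ C : NNReal, ∃ U ∈ nhds x,
        LipschitzOnWith C (iteratedFDeriv ℝ k (c i)) (U ∩ Ω)) ∧
    (ContDiffOn ℝ k J Ω ∧ ∀ x ∈ Ω, ∃ C : NNReal, ∃ U ∈ nhds x,
        LipschitzOnWith C (iteratedFDeriv ℝ k J) (U ∩ Ω)) →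
    ∀ i, ContDiffOn ℝ (k + 1) (u i) Ω ∧ ∀ x ∈ Ω, ∃ C : NNReal, ∃ U ∈ nhds x,
        LipschitzOnWith C (iteratedFDeriv ℝ (k + 1) (u i)) (U ∩ Ω)) ∧
   ((∀ j i l, ContDiffOn ℝ (k + 1) (A j i l) Ω) ∧
    (∀ i l, ContDiffOn ℝ (k + 1) (B i l) Ω) ∧
    (∀ i, ContDiffOn ℝ (k + 1) (c i) Ω) ∧
    ContDiffOn ℝ (k + 1) J Ω →
    ∀ i, ContDiffOn ℝ (k + 2) (u i) Ω))) := by
  intro H
  obtain ⟨-, Ω, A, B, c, u, x₀, hop, hcon, hx₀, hell, hA, hB, hc, hsol, hJ0, hJ, hnot⟩ :=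
    Pool.Agent.Results.MP_4bee3f_an.EndpointGainFails.result 0
  have hdiff : ∀ᵐ x ∂(volume.restrict Ω), DifferentiableAt ℝ u x := by
    filter_upwards [hsol.2] with x hx using hx.1
  have hcomp : ∀ x, DifferentiableAt ℝ u x → ∀ i : Fin 2, ∀ v,
      fderiv ℝ (fun y => u y i) x v = fderiv ℝ u x v i := by
    intro x hx i v
    have h1 := (EuclideanSpace.proj (𝕜 := ℝ) i : EuclideanSpace ℝ (Fin 2) →L[ℝ] ℝ).hasFDerivAt.comp x
      hx.hasFDerivAt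
    have h2 : HasFDerivAt (fun y => u y i) _ x := h1
    rw [h2.fderiv]
    rfl
  have key := (H 2 le_rfl 0 Ω hop hcon (fun j i l x => A j x i l) (fun i l x => B x i l)
    (fun i x => c x i) (fun i x => u x i)
    (Pool.Agent.Results.MP_4bee3f_an.EndpointGainFails.jac u) ?_ ?_ ?_ ?_ ?_).2 ?_
  · -- conclusion
    have hu : ContDiffOn ℝ (2 : ℕ) u Ω := by
      rw [contDiffOn_euclidean]
      intro i
      have := key i
      simpa using this
    exact hnot Ω hop hx₀ (le_refl _)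
      (Pool.Agent.Results.MP_4bee3f_an.EndpointGainFails.HolderClass.of_zero hop hu)
  · intro x hx ξ hξ
    have := hell x hx ξ hξ
    convert this using 2
    ext i l
    simp [Matrix.sum_apply]
  · intro i x hx
    obtain ⟨K, t, ht, hK⟩ := hsol.1 hx
    obtain ⟨U, hU, hUt⟩ := mem_nhdsWithin_iff_exists_mem_nhds_inter.1 ht
    refine ⟨K, U, hU, ?_⟩
    intro y hy z hz
    refine le_trans ?_ (hK (hUt hy) (hUt hz))
    rw [edist_dist, edist_dist]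
    refine ENNReal.ofReal_le_ofReal ?_
    rw [dist_eq_norm, dist_eq_norm]
    exact PiLp.norm_apply_le (u y - u z) i
  · filter_upwards [hsol.2] with x hx i
    obtain ⟨hd, hs⟩ := hx
    have h3 := congrFun hs i
    simp only [Pi.add_apply, Finset.sum_apply, Matrix.mulVec, dotProduct] at h3
    rw [← h3]
    congr 1
    refine Finset.sum_congr rfl fun j _ => Finset.sum_congr rfl fun l _ => ?_
    rw [hcomp x hd]
    rfl
  · exact hJ0
  · filter_upwards [hdiff] with x hd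
    unfold Pool.Agent.Results.MP_4bee3f_an.EndpointGainFails.jac
    congr 1
    ext i j
    simp only [Matrix.of_apply]
    rw [hcomp x hd]
    rfl
  · refine ⟨fun j i l => ?_, fun i l => ?_, fun i => ?_, ?_⟩
    · simpa using (hA j i l).1
    · simpa using (hB i l).1
    · simpa using (hc i).1
    · simpa using hJ.1

end Pool.Agent.S04606
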