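import Pool.Statements.S04624
-- import your own Pool.Agent.* helpers here

set_option autoImplicit false
open MeasureTheory
open Pool Pool.MP_4d58d7_an

namespace Pool.Agent.S04624

/-- the sketch with off-diagonal entry `s / 200` -/
noncomputable def om (s : ℝ) : Fin 2 → Fin 2 → ℝ := ![![201 / 200, s / 200], ![s / 200, 201 / 200]]

/-- the pseudoinverse of the sketched matrix -/
noncomputable def gm (s : ℝ) : Matrix (Fin 1) (Fin 2) ℝ := !![20100 / 20201, s * 100 / 20201]

/-- the matrix `A` -/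
noncomputable def ma : Matrix (Fin 2) (Fin 1) ℝ := !![1; 0]

/-- the matrix `B` -/
noncomputable def mb : Matrix (Fin 2) (Fin 1) ℝ := !![1; 1]

theorem rank_ma : ma.rank = 1 := by
  apply le_antisymm
  · simpa using Matrix.rank_le_width ma
  · rw [Nat.one_le_iff_ne_zero]
    intro h
    have h1 : Module.finrank ℝ (LinearMap.range ma.mulVecLin) = 0 := h
    have h2 : LinearMap.range ma.mulVecLin = ⊥ := Submodule.finrank_eq_zero.1 h1
    have h3 : ma.mulVecLin (fun _ => 1) = 0 := by
      have : ma.mulVecLin (fun _ => 1) ∈ LinearMap.range ma.mulVecLin :=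
        LinearMap.mem_range_self _ _
      rw [h2] at this
      simpa using this
    have h4 := congrFun h3 0
    simp [ma, Matrix.mulVec, dotProduct] at h4

/-- the set in the statement, for this data -/
def good (K : ℝ) : Set (Fin 2 → Fin 2 → ℝ) := {ω | ∀ G : Matrix (Fin 1) (Fin 2) ℝ,
          (Matrix.transpose (Matrix.of ω) * ma) * G * (Matrix.transpose (Matrix.of ω) * ma)
              = Matrix.transpose (Matrix.of ω) * ma →
          G * (Matrix.transpose (Matrix.of ω) * ma) * G = G →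
          Matrix.transpose ((Matrix.transpose (Matrix.of ω) * ma) * G)
              = (Matrix.transpose (Matrix.of ω) * ma) * G →
          Matrix.transpose (G * (Matrix.transpose (Matrix.of ω) * ma))
              = G * (Matrix.transpose (Matrix.of ω) * ma) →
          ∀ X : Matrix (Fin 1) (Fin 1) ℝ,
            Real.sqrt (∑ i, ∑ j, ((ma * (G * Matrix.transpose (Matrix.of ω) * mb) - mb) i j) ^ 2) ≤
              K * Real.sqrt (∑ i, ∑ j, ((ma * X - mb) i j) ^ 2)}

theorem not_good_om (s : ℝ) (hs : s = 1 ∨ s = -1) (K : ℝ) (hK : K ≤ 1 + 1 / 1000000) :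
    om s ∉ good K := by
  intro h
  have hs2 : s * s = 1 := by rcases hs with rfl | rfl <;> norm_num
  have h1 := h (gm s) ?_ ?_ ?_ ?_ !![1]
  · have e2 : (∑ i, ∑ j, ((ma * (!![1] : Matrix (Fin 1) (Fin 1) ℝ) - mb) i j) ^ 2) = (1 : ℝ) := by
      simp [ma, mb, Fin.sum_univ_two]
    rw [e2, Real.sqrt_one, mul_one] at h1
    have e1 : (1 + 1 / 1000000 : ℝ) < Real.sqrt (∑ i, ∑ j,
        ((ma * (gm s * Matrix.transpose (Matrix.of (om s)) * mb) - mb) i j) ^ 2) := by
      apply Real.lt_sqrt_of_sq_lt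
      simp only [ma, mb, gm, om, Fin.sum_univ_two, Matrix.mul_apply, Matrix.sub_apply,
        Matrix.transpose_apply, Matrix.of_apply]
      rcases hs with rfl | rfl <;> simp <;> norm_num
    linarith
  all_goals
    ext i j
    simp only [Matrix.mul_apply, Matrix.transpose_apply, Matrix.of_apply, Fin.sum_univ_two,
      Finset.univ_unique, Finset.sum_singleton, ma, gm, om]
    fin_cases i <;> fin_cases j <;> rcases hs with rfl | rfl <;> simp <;> norm_num

theorem not_good_zero (K : ℝ) (hK : K ≤ 1 + 1 / 1000000) :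
    (0 : Fin 2 → Fin 2 → ℝ) ∉ good K := by
  intro h
  have h1 := h 0 ?_ ?_ ?_ ?_ !![1]
  · have e2 : (∑ i, ∑ j, ((ma * (!![1] : Matrix (Fin 1) (Fin 1) ℝ) - mb) i j) ^ 2) = (1 : ℝ) := by
      simp [ma, mb, Fin.sum_univ_two]
    rw [e2, Real.sqrt_one, mul_one] at h1
    have e1 : (1 + 1 / 1000000 : ℝ) < Real.sqrt (∑ i, ∑ j,
        ((ma * ((0 : Matrix (Fin 1) (Fin 2) ℝ) *
          Matrix.transpose (Matrix.of (0 : Fin 2 → Fin 2 → ℝ)) * mb) - mb) i j) ^ 2) := by
      apply Real.lt_sqrt_of_sq_lt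
      simp [ma, mb, Fin.sum_univ_two]
      norm_num
    linarith
  all_goals
    ext i j
    simp [Matrix.mul_apply]

/-- the weight of the two nonzero atoms -/
noncomputable def wa : ENNReal := ENNReal.ofReal (10000 / 20201)

/-- the weight of the zero atom -/
noncomputable def wb : ENNReal := ENNReal.ofReal (201 / 20201)

/-- the law of the sketch -/
noncomputable def law : Measure (Fin 2 → Fin 2 → ℝ) :=
  wa • Measure.dirac (om 1) + wa • Measure.dirac (om (-1)) + wb • Measure.dirac 0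

theorem weights : wa + wa + wb = 1 := by
  unfold wa wb
  rw [← ENNReal.ofReal_add (by norm_num) (by norm_num),
    ← ENNReal.ofReal_add (by norm_num) (by norm_num)]
  norm_num

instance law_prob : IsProbabilityMeasure law := by
  refine ⟨?_⟩
  unfold law
  simp [weights]

theorem law_apply (s : Set (Fin 2 → Fin 2 → ℝ)) :
    law s = wa * s.indicator 1 (om 1) + wa * s.indicator 1 (om (-1)) + wb * s.indicator 1 0 := by
  unfold law
  simp [Measure.dirac_apply]

theorem integral_law (f : (Fin 2 → Fin 2 → ℝ) → ℝ) :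
    ∫ ω, f ω ∂law = 10000 / 20201 * f (om 1) + 10000 / 20201 * f (om (-1)) +
      201 / 20201 * f 0 := by
  have hint : ∀ (w : ENNReal) (x : Fin 2 → Fin 2 → ℝ), w ≠ ⊤ → Integrable f (w • Measure.dirac x) := by
    intro w x hw
    exact (integrable_dirac (by simp)).smul_measure hw
  have ha : wa ≠ ⊤ := ENNReal.ofReal_ne_top
  have hb : wb ≠ ⊤ := ENNReal.ofReal_ne_top
  unfold law
  rw [integral_add_measure ((hint _ _ ha).add_measure (hint _ _ ha)) (hint _ _ hb),
    integral_add_measure (hint _ _ ha) (hint _ _ ha), integral_smul_measure,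
    integral_smul_measure, integral_smul_measure, integral_dirac, integral_dirac, integral_dirac]
  unfold wa wb
  rw [ENNReal.toReal_ofReal (by norm_num), ENNReal.toReal_ofReal (by norm_num)]
  simp only [smul_eq_mul]

theorem iso (x : Fin 2 → ℝ) :
    ∫ ω, (∑ j, (∑ i, ω i j * x i) ^ 2) ∂law = ∑ i, x i ^ 2 := by
  rw [integral_law]
  simp only [om, Fin.sum_univ_two]
  simp
  ring

theorem inj (ε : ℝ) (hε : 0 < ε) (V : Submodule ℝ (Fin 2 → ℝ)) :
    ENNReal.ofReal (99 / 100) ≤
      law {ω | ∀ x ∈ V, (1 - ε) * ∑ i, x i ^ 2 ≤ ∑ j, (∑ i, ω i j * x i) ^ 2} := by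
  have key : ∀ s : ℝ, s = 1 ∨ s = -1 → om s ∈
      {ω : Fin 2 → Fin 2 → ℝ | ∀ x ∈ V, (1 - ε) * ∑ i, x i ^ 2 ≤ ∑ j, (∑ i, ω i j * x i) ^ 2} := by
    rintro s hs x -
    simp only [om, Fin.sum_univ_two]
    simp
    rcases hs with rfl | rfl
    · nlinarith [mul_nonneg hε.le (add_nonneg (sq_nonneg (x 0)) (sq_nonneg (x 1))),
        sq_nonneg (x 0 + x 1)]
    · nlinarith [mul_nonneg hε.le (add_nonneg (sq_nonneg (x 0)) (sq_nonneg (x 1))),
        sq_nonneg (x 0 - x 1)]
  rw [law_apply, Set.indicator_of_mem (key 1 (Or.inl rfl)),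
    Set.indicator_of_mem (key (-1) (Or.inr rfl))]
  simp only [Pi.one_apply, mul_one]
  refine le_trans ?_ (le_add_of_nonneg_right zero_le)
  unfold wa
  rw [← ENNReal.ofReal_add (by norm_num) (by norm_num)]
  exact ENNReal.ofReal_le_ofReal (by norm_num)

/-- The negation of the preceding statement: There are constants C and c₀>0 such that, for any isotropic n×k random matrix Ω that is a dimension-d OSI with injectivity 1−ε and failure 0.01, sketch-and-solve has error at most (1+Cε)·OPT with probability at least c₀. -/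
theorem result :
    ¬ (∃ C : ℝ, ∃ c₀ : ℝ, 0 < c₀ ∧
    ∀ (n d p k : ℕ), 0 < n → 0 < d → 0 < p → 0 < k →
    ∀ ε : ℝ, 0 < ε → ε < 1 →
    ∀ (A : Matrix (Fin n) (Fin d) ℝ), A.rank = d →
    ∀ (B : Matrix (Fin n) (Fin p) ℝ),
    ∀ (μ : Measure (Fin n → Fin k → ℝ)) [IsProbabilityMeasure μ],
      (∀ x : Fin n → ℝ, ∫ ω, (∑ j, (∑ i, ω i j * x i) ^ 2) ∂μ = ∑ i, x i ^ 2) →
      (∀ V : Submodule ℝ (Fin n → ℝ), Module.finrank ℝ V = d →
         ENNReal.ofReal (99 / 100) ≤
           μ {ω | ∀ x ∈ V, (1 - ε) * ∑ i, x i ^ 2 ≤ ∑ j, (∑ i, ω i j * x i) ^ 2}) →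
      ENNReal.ofReal c₀ ≤ μ {ω | ∀ G : Matrix (Fin d) (Fin k) ℝ,
          (Matrix.transpose (Matrix.of ω) * A) * G * (Matrix.transpose (Matrix.of ω) * A)
              = Matrix.transpose (Matrix.of ω) * A →
          G * (Matrix.transpose (Matrix.of ω) * A) * G = G →
          Matrix.transpose ((Matrix.transpose (Matrix.of ω) * A) * G)
              = (Matrix.transpose (Matrix.of ω) * A) * G →
          Matrix.transpose (G * (Matrix.transpose (Matrix.of ω) * A))
              = G * (Matrix.transpose (Matrix.of ω) * A) →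
          ∀ X : Matrix (Fin d) (Fin p) ℝ,
            Real.sqrt (∑ i, ∑ j, ((A * (G * Matrix.transpose (Matrix.of ω) * B) - B) i j) ^ 2) ≤
              (1 + C * ε) * Real.sqrt (∑ i, ∑ j, ((A * X - B) i j) ^ 2)}) := by
  rintro ⟨C, c₀, hc, H⟩
  have hC : 0 < |C| + 1 := by positivity
  have hε : 0 < 1 / (1000000 * (|C| + 1)) := by positivity
  have hε1 : 1 / (1000000 * (|C| + 1)) < 1 := by
    rw [div_lt_one (by positivity)]
    nlinarith [abs_nonneg C]
  have h := H 2 1 1 2 (by norm_num) (by norm_num) (by norm_num) (by norm_num) _ hε hε1 ma rank_ma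
    mb law iso (fun V _ => inj _ hε V)
  have hK : 1 + C * (1 / (1000000 * (|C| + 1))) ≤ 1 + 1 / 1000000 := by
    have h1 : C * (1 / (1000000 * (|C| + 1))) ≤ 1 / 1000000 := by
      rw [mul_one_div, div_le_div_iff₀ (by positivity) (by norm_num)]
      nlinarith [le_abs_self C, abs_nonneg C]
    linarith
  have h0 : law (good (1 + C * (1 / (1000000 * (|C| + 1))))) = 0 := by
    rw [law_apply, Set.indicator_of_notMem (not_good_om 1 (Or.inl rfl) _ hK),
      Set.indicator_of_notMem (not_good_om (-1) (Or.inr rfl) _ hK),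
      Set.indicator_of_notMem (not_good_zero _ hK)]
    simp
  have h2 : ENNReal.ofReal c₀ ≤ law (good (1 + C * (1 / (1000000 * (|C| + 1))))) := h
  rw [h0, nonpos_iff_eq_zero, ENNReal.ofReal_eq_zero] at h2
  linarith

end Pool.Agent.S04624
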