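import Pool.Statements.S04627
import Pool.Agent.W794.Mm
import Pool.Agent.W794.Lip
import Pool.Agent.Helper859.Stk.Final

set_option autoImplicit false
open MeasureTheory
open Pool Pool.MP_4db88f_an

namespace Pool.Agent.S04627

open Pool.Agent.Helper859.Stk Pool.Agent.W794.Fib in
/-- a pair of data with non congruent domains -/
theorem exists_pair : ∃ (t : ℂ) (R : ℝ) (_ : t ^ 2 = -7) (_ : 1729 < R)
    (D₁ : Dat (fun x => pS t x - Complex.I) R) (D₂ : Dat (fun x => pS (-t) x - Complex.I) R),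
    ¬ ∃ e : ℂ ≃ᵢ ℂ, e '' (D₁.F '' Metric.ball (0 : ℂ) 1) = D₂.F '' Metric.ball (0 : ℂ) 1 := by
  set t : ℂ := (Real.sqrt 7 : ℝ) * Complex.I with htdef
  have ht : t ^ 2 = -7 := by
    rw [htdef, mul_pow, Complex.I_sq, ← Complex.ofReal_pow, Real.sq_sqrt (by norm_num)]
    norm_num
  obtain ⟨R₁, h₁⟩ := exists_dat_pS ht
  obtain ⟨R₂, h₂⟩ := exists_dat_pS (sq_neg ht)
  by_contra hcon
  have key : ∀ R : ℝ, max (max R₁ R₂) 1730 ≤ R → ∃ χ : ℂ → ℂ,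
      DifferentiableOn ℂ χ {x | ‖pS t x - Complex.I‖ < R} ∧
      (∀ x, ‖pS t x - Complex.I‖ < R → pS (-t) (χ x) = pS t x) ∧ χ 0 = 0 := by
    intro R hR
    have e1 : R₁ ≤ R := le_trans (le_trans (le_max_left _ _) (le_max_left _ _)) hR
    have e2 : R₂ ≤ R := le_trans (le_trans (le_max_right _ _) (le_max_left _ _)) hR
    have e3 : 1729 < R := lt_of_lt_of_le (by norm_num) (le_trans (le_max_right _ _) hR)
    obtain ⟨hR0, -, ⟨D₁⟩⟩ := h₁ R e1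
    obtain ⟨-, -, ⟨D₂⟩⟩ := h₂ R e2
    by_contra hno
    apply hcon
    refine ⟨t, R, ht, e3, D₁, D₂, ?_⟩
    rintro ⟨e, he⟩
    exact hno (chi_of_congruent ht e3 D₁ D₂ e he)
  obtain ⟨χ, hd, hχ, h0⟩ := NC4.no_chi ht (max (max R₁ R₂) 1730)
    (fun R hR => (h₁ R (le_trans (le_trans (le_max_left _ _) (le_max_left _ _)) hR)).2.1) key
  exact NC5.chi_false ht hd hχ h0

open Pool.Agent.Helper859.Stk Pool.Agent.W794.Fib in
theorem dom_props {F G : ℂ → ℂ} (h : Conf F G) :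
    IsOpen (Om F) ∧ IsConnected (Om F) ∧ Bornology.IsBounded (Om F) := by
  have hsub : Metric.closedBall (0 : ℂ) 1 ⊆ Metric.ball (0 : ℂ) (3 / 2) :=
    Metric.closedBall_subset_ball (by norm_num)
  have hc : ContinuousOn F (Metric.ball (0 : ℂ) (3 / 2)) := fun z hz =>
    (h.dF z hz).continuousAt.continuousWithinAt
  refine ⟨?_, ?_, ?_⟩
  · exact Ph.toHomeomorph.isOpenMap _ (L03a.topo h).1
  · refine IsConnected.image ?_ _ Ph.continuous.continuousOn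
    refine IsConnected.image ?_ _ (hc.mono (Metric.ball_subset_closedBall.trans hsub))
    exact ⟨⟨0, by simp⟩, (convex_ball (0 : ℂ) 1).isPreconnected⟩
  · have h1 : IsCompact (Ph '' (F '' Metric.closedBall (0 : ℂ) 1)) :=
      ((isCompact_closedBall (0 : ℂ) 1).image_of_continuousOn (hc.mono hsub)).image Ph.continuous
    exact h1.isBounded.subset (Set.image_mono (Set.image_mono Metric.ball_subset_closedBall))

/-- There are two bounded connected open plane sets with Lipschitz boundary whose Steklov eigenvalues (defined by min-max of boundary Rayleigh quotients over C¹ functions) all agree, yet no isometry of the plane maps one onto the other. -/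
theorem result :
  ∃ Ω₁ Ω₂ : Set (EuclideanSpace ℝ (Fin 2)),
    IsOpen Ω₁ ∧ IsConnected Ω₁ ∧ Bornology.IsBounded Ω₁ ∧
    (∀ p ∈ frontier Ω₁, ∃ r : ℝ, 0 < r ∧
      ∃ a b : EuclideanSpace ℝ (Fin 2), ‖a‖ = 1 ∧ ‖b‖ = 1 ∧ inner ℝ a b = 0 ∧
      ∃ g : ℝ → ℝ, ∃ K : NNReal, LipschitzWith K g ∧
        ∀ x ∈ Metric.ball p r, (x ∈ Ω₁ ↔ g (inner ℝ (x - p) a) < inner ℝ (x - p) b)) ∧
    IsOpen Ω₂ ∧ IsConnected Ω₂ ∧ Bornology.IsBounded Ω₂ ∧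
    (∀ p ∈ frontier Ω₂, ∃ r : ℝ, 0 < r ∧
      ∃ a b : EuclideanSpace ℝ (Fin 2), ‖a‖ = 1 ∧ ‖b‖ = 1 ∧ inner ℝ a b = 0 ∧
      ∃ g : ℝ → ℝ, ∃ K : NNReal, LipschitzWith K g ∧
        ∀ x ∈ Metric.ball p r, (x ∈ Ω₂ ↔ g (inner ℝ (x - p) a) < inner ℝ (x - p) b)) ∧
    (∀ k : ℕ,
      sInf {s : ℝ | ∃ V : Submodule ℝ (EuclideanSpace ℝ (Fin 2) → ℝ),
        (∀ u ∈ V, ContDiff ℝ 1 u) ∧ Module.finrank ℝ V = k + 1 ∧
        (∀ u ∈ V, u ≠ 0 → 0 < ∫ x in frontier Ω₁, u x ^ 2 ∂μH[1]) ∧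
        s = sSup {t : ℝ | ∃ u ∈ V, u ≠ 0 ∧
          t = (∫ x in Ω₁, ‖fderiv ℝ u x‖ ^ 2) / ∫ x in frontier Ω₁, u x ^ 2 ∂μH[1]}}
      =
      sInf {s : ℝ | ∃ V : Submodule ℝ (EuclideanSpace ℝ (Fin 2) → ℝ),
        (∀ u ∈ V, ContDiff ℝ 1 u) ∧ Module.finrank ℝ V = k + 1 ∧
        (∀ u ∈ V, u ≠ 0 → 0 < ∫ x in frontier Ω₂, u x ^ 2 ∂μH[1]) ∧
        s = sSup {t : ℝ | ∃ u ∈ V, u ≠ 0 ∧
          t = (∫ x in Ω₂, ‖fderiv ℝ u x‖ ^ 2) / ∫ x in frontier Ω₂, u x ^ 2 ∂μH[1]}}) ∧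
    ¬ ∃ f : EuclideanSpace ℝ (Fin 2) ≃ᵢ EuclideanSpace ℝ (Fin 2), f '' Ω₁ = Ω₂ := by
  obtain ⟨t, R, ht, hR, D₁, D₂, hnc⟩ := exists_pair
  obtain ⟨o1, c1, b1⟩ := dom_props D₁.conf
  obtain ⟨o2, c2, b2⟩ := dom_props D₂.conf
  refine ⟨Pool.Agent.W794.Fib.Om D₁.F, Pool.Agent.W794.Fib.Om D₂.F, o1, c1, b1,
    Pool.Agent.W794.Fib.lip_Om D₁.conf, o2, c2, b2, Pool.Agent.W794.Fib.lip_Om D₂.conf,
    fun k => Pool.Agent.W794.Fib.sInf_eq hR ht D₁ D₂ k, ?_⟩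
  rintro ⟨f, hf⟩
  apply hnc
  refine ⟨(Pool.Agent.W794.Fib.Ph.toIsometryEquiv.trans f).trans
    Pool.Agent.W794.Fib.Ph.symm.toIsometryEquiv, ?_⟩
  have h1 : ((Pool.Agent.W794.Fib.Ph.toIsometryEquiv.trans f).trans
      Pool.Agent.W794.Fib.Ph.symm.toIsometryEquiv) '' (D₁.F '' Metric.ball (0 : ℂ) 1) =
      Pool.Agent.W794.Fib.Ph.symm '' (f '' (Pool.Agent.W794.Fib.Om D₁.F)) := by
    unfold Pool.Agent.W794.Fib.Om
    simp only [Set.image_image]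
    rfl
  rw [h1, hf]
  unfold Pool.Agent.W794.Fib.Om
  rw [Set.image_image]
  simp

end Pool.Agent.S04627
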