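import Pool.Statements.S04664
import Pool.Agent.Results.MP_510402_an.SlowGrowthNoAP

set_option autoImplicit false
open Pool Pool.MP_510402_an

namespace Pool.Agent.S04664

/-- The negation of the preceding statement: For a real Banach space X, suppose that for each ε>0 every n-dimensional subspace is eventually within Banach–Mazur distance ε·ln n of Euclidean n-space. Then every Banach space isometrically embedded in X has the approximation property. -/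
theorem result :
    ¬ (∀ (X : Type) [NormedAddCommGroup X] [NormedSpace ℝ X] [CompleteSpace X],
      (∀ ε : ℝ, 0 < ε → ∃ N : ℕ, ∀ n : ℕ, N ≤ n →
        ∀ E : Submodule ℝ X, Module.finrank ℝ E = n →
          ∃ T : E →ₗ[ℝ] EuclideanSpace ℝ (Fin n),
            ∀ x : E, ‖x‖ ≤ ‖T x‖ ∧ ‖T x‖ ≤ ε * Real.log (n : ℝ) * ‖x‖) →
      ∀ (Z : Type) [NormedAddCommGroup Z] [NormedSpace ℝ Z] [CompleteSpace Z],
        ∀ (_ι : Z →ₗᵢ[ℝ] X),
        ∀ K : Set Z, IsCompact K → ∀ δ : ℝ, 0 < δ →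
          ∃ T : Z →L[ℝ] Z, FiniteDimensional ℝ (LinearMap.range (T : Z →ₗ[ℝ] Z)) ∧
            ∀ x ∈ K, ‖T x - x‖ < δ) := by
  intro h
  obtain ⟨X, i1, i2, hc, -, -, hlim, Y, hY, hap⟩ :=
    Pool.Agent.Results.MP_510402_an.SlowGrowthNoAP.result ℝ
  letI := i1
  letI := i2
  haveI := hc
  haveI : CompleteSpace Y := hY.completeSpace_coe
  apply hap
  refine h X ?_ Y Y.subtypeₗᵢ
  intro ε hε
  have h2 : ∀ᶠ n : ℕ in Filter.atTop, Pool.Agent.Results.MP_510402_an.SlowGrowthNoAP.dn ℝ X n /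
      ENNReal.ofReal (Real.log n) < ENNReal.ofReal ε :=
    (tendsto_order.1 hlim).2 _ (ENNReal.ofReal_pos.2 hε)
  obtain ⟨N, hN⟩ := Filter.eventually_atTop.1 h2
  refine ⟨max N 2, fun n hn E hE => ?_⟩
  have hn2 : 2 ≤ n := le_trans (le_max_right _ _) hn
  have hlog : 0 < Real.log n := Real.log_pos (by exact_mod_cast hn2)
  have h3 : Pool.Agent.Results.MP_510402_an.SlowGrowthNoAP.dn ℝ X n <
      ENNReal.ofReal (ε * Real.log n) := by
    have := hN n (le_trans (le_max_left _ _) hn)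
    rw [ENNReal.div_lt_iff (Or.inl (by simpa using hlog)) (Or.inl ENNReal.ofReal_ne_top)] at this
    rwa [← ENNReal.ofReal_mul hε.le] at this
  haveI : FiniteDimensional ℝ E := FiniteDimensional.of_finrank_pos (by omega)
  have h4 : Pool.Agent.Results.MP_510402_an.SlowGrowthNoAP.distEucl ℝ E n <
      ENNReal.ofReal (ε * Real.log n) :=
    lt_of_le_of_lt (le_iSup (fun E : {E : Submodule ℝ X // FiniteDimensional ℝ E ∧
      Module.finrank ℝ E = n} =>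
      Pool.Agent.Results.MP_510402_an.SlowGrowthNoAP.distEucl ℝ E.1 n) ⟨E, ‹_›, hE⟩) h3
  unfold Pool.Agent.Results.MP_510402_an.SlowGrowthNoAP.distEucl at h4
  rw [iInf_lt_iff] at h4
  obtain ⟨T, hT⟩ := h4
  rw [ENNReal.ofReal_lt_ofReal_iff (by positivity)] at hT
  refine ⟨‖(T.symm : EuclideanSpace ℝ (Fin n) →L[ℝ] E)‖ •
    (T.toLinearEquiv : E →ₗ[ℝ] EuclideanSpace ℝ (Fin n)), fun x => ?_⟩
  have h5 : ‖x‖ ≤ ‖(T.symm : EuclideanSpace ℝ (Fin n) →L[ℝ] E)‖ * ‖T x‖ := by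
    have := (T.symm : EuclideanSpace ℝ (Fin n) →L[ℝ] E).le_opNorm (T x)
    simpa using this
  have h6 : ‖T x‖ ≤ ‖(T : E →L[ℝ] EuclideanSpace ℝ (Fin n))‖ * ‖x‖ :=
    (T : E →L[ℝ] EuclideanSpace ℝ (Fin n)).le_opNorm x
  have h7 : ‖(‖(T.symm : EuclideanSpace ℝ (Fin n) →L[ℝ] E)‖ •
      (T.toLinearEquiv : E →ₗ[ℝ] EuclideanSpace ℝ (Fin n))) x‖ =
      ‖(T.symm : EuclideanSpace ℝ (Fin n) →L[ℝ] E)‖ * ‖T x‖ := by
    rw [LinearMap.smul_apply, norm_smul, norm_norm]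
    rfl
  rw [h7]
  refine ⟨h5, ?_⟩
  calc ‖(T.symm : EuclideanSpace ℝ (Fin n) →L[ℝ] E)‖ * ‖T x‖
      ≤ ‖(T.symm : EuclideanSpace ℝ (Fin n) →L[ℝ] E)‖ *
        (‖(T : E →L[ℝ] EuclideanSpace ℝ (Fin n))‖ * ‖x‖) :=
        mul_le_mul_of_nonneg_left h6 (norm_nonneg _)
    _ = (‖(T : E →L[ℝ] EuclideanSpace ℝ (Fin n))‖ *
        ‖(T.symm : EuclideanSpace ℝ (Fin n) →L[ℝ] E)‖) * ‖x‖ := by ring
    _ ≤ ε * Real.log n * ‖x‖ := mul_le_mul_of_nonneg_right hT.le (norm_nonneg _)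

end Pool.Agent.S04664
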