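import Pool.Statements.S04735
import Pool.Agent.Sq58.Main
import Pool.Agent.Helper540.Osgood

set_option autoImplicit false
open Filter Topology
open Pool Pool.MP_58a9b9_an

namespace Pool.Agent.S04735

/-- A holomorphic inverse on a ball of an injective holomorphic map between open sets of `ℂⁿ`. -/
theorem exists_inverse {n : ℕ} {D : Set (EuclideanSpace ℂ (Fin n))} (hD : IsOpen D)
    {f : EuclideanSpace ℂ (Fin n) → EuclideanSpace ℂ (Fin n)}
    (hf : DifferentiableOn ℂ f D) (hinj : Set.InjOn f D) {R : ℝ}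
    (hsub : Metric.ball 0 R ⊆ f '' D) :
    ∃ g : EuclideanSpace ℂ (Fin n) → EuclideanSpace ℂ (Fin n),
      DifferentiableOn ℂ g (Metric.ball 0 R) ∧ Set.MapsTo g (Metric.ball 0 R) D ∧
      ∀ x ∈ D, ‖f x‖ < R → g (f x) = x := by
  have hgmem : ∀ y ∈ f '' D, Function.invFunOn f D y ∈ D ∧ f (Function.invFunOn f D y) = y :=
    fun y hy => ⟨Function.invFunOn_mem hy, Function.invFunOn_eq hy⟩
  refine ⟨Function.invFunOn f D, ?_, fun y hy => (hgmem y (hsub hy)).1, ?_⟩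
  · exact Pool.Agent.Helper540.differentiableOn_of_comp rfl hD Metric.isOpen_ball hf hinj
      (g := id) differentiableOn_id (fun y hy => (hgmem y (hsub hy)).1)
      (fun y hy => (hgmem y (hsub hy)).2)
  · intro x hx hxR
    obtain ⟨p, q⟩ := hgmem _ (Set.mem_image_of_mem f hx)
    exact hinj p hx q

/-- For a bounded convex domain in C^n (n≥2) with smooth finite-line-type boundary near p, if points z_k tend to p inside a paraboloid and the squeezing function at z_k tends to 1, then the Levi form at p is positive definite. -/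
theorem result :
    ∀ (n : ℕ), 2 ≤ n → ∀ (D : Set (EuclideanSpace ℂ (Fin n))),
      IsOpen D → D.Nonempty → Convex ℝ D → Bornology.IsBounded D →
      ∀ p ∈ frontier D,
      ∀ (U : Set (EuclideanSpace ℂ (Fin n))) (ρ : EuclideanSpace ℂ (Fin n) → ℝ),
        IsOpen U → p ∈ U → ContDiffOn ℝ (⊤ : ℕ∞) ρ U →
        (∀ z ∈ U, fderiv ℝ ρ z ≠ 0) →
        (∀ z ∈ U, z ∈ D ↔ ρ z < 0) →
        (∃ L : ℕ, ∀ q ∈ U, ρ q = 0 → ∀ v : EuclideanSpace ℂ (Fin n), v ≠ 0 →
          ∃ k : ℕ, 1 ≤ k ∧ k ≤ L ∧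
            iteratedFDeriv ℝ k (fun ζ : ℂ => ρ (q + ζ • v)) 0 ≠ 0) →
        ∀ z : ℕ → EuclideanSpace ℂ (Fin n), (∀ k, z k ∈ D) →
          Tendsto z atTop (𝓝 p) →
          (∃ C : ℝ, ∀ k, ‖z k - p‖ ^ 2 ≤ C * Metric.infDist (z k) (frontier D)) →
          (∀ ε : ℝ, 0 < ε → ∀ᶠ k in atTop,
            ∃ f : EuclideanSpace ℂ (Fin n) → EuclideanSpace ℂ (Fin n),
              DifferentiableOn ℂ f D ∧ Set.InjOn f D ∧
              Set.MapsTo f D (Metric.ball 0 1) ∧ f (z k) = 0 ∧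
              Metric.ball 0 (1 - ε) ⊆ f '' D) →
          ∀ w : EuclideanSpace ℂ (Fin n), w ≠ 0 →
            fderiv ℝ ρ p w = 0 → fderiv ℝ ρ p (Complex.I • w) = 0 →
            0 < iteratedFDeriv ℝ 2 ρ p ![w, w] +
                iteratedFDeriv ℝ 2 ρ p ![Complex.I • w, Complex.I • w] := by
  intro n _ D hDo _ hDc _ p hp U ρ hU hpU hρ hgrad hDU hL z hz hzp hpar hs w hw h1 h2
  obtain ⟨L, hL⟩ := hL
  obtain ⟨C, hC⟩ := hpar
  have hcont : ContinuousAt ρ p := (hρ.contDiffAt (hU.mem_nhds hpU)).continuousAt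
  have hρp : ρ p = 0 := by
    rw [hDo.frontier_eq] at hp
    have hge : 0 ≤ ρ p := by
      by_contra hc
      push Not at hc
      exact hp.2 ((hDU p hpU).2 hc)
    have hle : ρ p ≤ 0 := by
      by_contra hc
      push Not at hc
      have h3 : ∀ᶠ y in 𝓝 p, 0 < ρ y ∧ y ∈ U :=
        (hcont.eventually_const_lt hc).and (hU.mem_nhds hpU)
      obtain ⟨y, hyD, hy⟩ := (mem_closure_iff_frequently.1 hp.1).and_eventually h3 |>.exists
      have := (hDU y hy.2).1 hyD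
      linarith [hy.1]
    linarith
  obtain ⟨g, hg⟩ : ∃ g : EuclideanSpace ℂ (Fin n), fderiv ℝ ρ p g ≠ 0 := by
    by_contra hcon
    push Not at hcon
    exact hgrad p hpU (ContinuousLinearMap.ext hcon)
  obtain ⟨k, hk1, _, hk⟩ := hL p hpU hρp w hw
  refine Sq58.main_abs hDo hDc hp hU hpU hρ hDU (n := g) hg hz hzp
    ⟨Real.sqrt C, Eventually.of_forall fun ν => ⟨0, ?_⟩⟩ ?_ ⟨k, hk1, hk⟩ h1 h2
  · rw [zero_smul, sub_zero]
    have h3 := hC ν
    have h4 : ‖z ν - p‖ ≤ Real.sqrt (C * Metric.infDist (z ν) (frontier D)) :=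
      Real.le_sqrt_of_sq_le h3
    refine h4.trans (le_of_eq ?_)
    rw [Real.sqrt_mul' _ Metric.infDist_nonneg]
  · intro R hR0 hR1
    filter_upwards [hs (1 - R) (by linarith)] with ν hν
    obtain ⟨f, hf1, hf2, hf3, hf4, hf5⟩ := hν
    rw [show (1 : ℝ) - (1 - R) = R by ring] at hf5
    obtain ⟨g, hg1, hg2, hg3⟩ := exists_inverse hDo hf1 hf2 hf5
    exact ⟨f, g, hf1, hf3, hf4, hg1, hg2, hg3⟩

end Pool.Agent.S04735
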