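import Pool.Statements.S04744
import Pool.Agent.W662.SK.Fin

set_option autoImplicit false
open Pool Pool.MP_5a22e6_an

namespace Pool.Agent.S04744

/-- The negation of the preceding statement: There is one ε>0 such that for any Hilbert space H, any norm-closed separable unital C*-algebra A in B(H) and any C*-algebra B in B(H) whose unit balls are within Hausdorff distance ε, A and B are *-isomorphic. -/
theorem result :
    ¬ (∃ ε : ℝ, 0 < ε ∧
      ∀ (H : Type) [NormedAddCommGroup H] [InnerProductSpace ℂ H] [CompleteSpace H]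
        (A B : NonUnitalStarSubalgebra ℂ (H →L[ℂ] H)),
        IsClosed (A : Set (H →L[ℂ] H)) →
        IsClosed (B : Set (H →L[ℂ] H)) →
        TopologicalSpace.SeparableSpace A →
        (∃ e ∈ A, ∀ a ∈ A, e * a = a ∧ a * e = a) →
        Metric.hausdorffDist {x : H →L[ℂ] H | x ∈ A ∧ ‖x‖ ≤ 1}
            {x : H →L[ℂ] H | x ∈ B ∧ ‖x‖ ≤ 1} < ε →
        Nonempty (A ≃⋆ₐ[ℂ] B)) := by
  exact Pool.Agent.W662.SK.main Pool.Agent.W662.SK.PA' Pool.Agent.W662.SK.L1'
    Pool.Agent.W662.SK.L2' Pool.Agent.W662.SK.L3' Pool.Agent.W662.SK.L4' Pool.Agent.W662.SK.B5'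
    Pool.Agent.W662.SK.B6' Pool.Agent.W662.SK.B7' Pool.Agent.W662.SK.B9' Pool.Agent.W662.SK.INV'

end Pool.Agent.S04744
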