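import Pool.Statements.S04820
import Pool.Agent.W646.Sp.Main
import Pool.Agent.W848.SpecB
-- import your own Pool.Agent.* helpers here

set_option autoImplicit false
open MeasureTheory Matrix
open scoped ENNReal Real
open Pool Pool.MP_5f557b_an

namespace Pool.Agent.S04820

/-- The negation of the preceding statement: For expanding integer R and simple digits B with 0 in B, 2 ≤ #B < ∣det R∣ and ℤ[R,B] = ℤ^d: if the self-affine measure has an orthonormal basis of exponentials, then some L in ℤ^d with #L = #B makes (R,B,L) a Hadamard triple. -/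
theorem result :
    ¬ (∀ (d : ℕ), 1 ≤ d → ∀ (R : Matrix (Fin d) (Fin d) ℤ) (B : Finset (Fin d → ℤ)),
    (∀ z : ℂ, (R.map (Int.cast : ℤ → ℂ)).charpoly.IsRoot z → 1 < ‖z‖) →
    (∀ b ∈ B, ∀ b' ∈ B, b ≠ b' → ¬ ∃ v : Fin d → ℤ, R *ᵥ v = b - b') →
    2 ≤ B.card → (B.card : ℤ) < |R.det| → (0 : Fin d → ℤ) ∈ B →
    AddSubgroup.closure {v : Fin d → ℤ | ∃ k : ℕ, ∃ b ∈ B, v = (R ^ k) *ᵥ b} = ⊤ →
    ∀ μ : Measure (Fin d → ℝ), IsProbabilityMeasure μ →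
      μ = ((B.card : ℝ≥0∞)⁻¹) • ∑ b ∈ B,
            μ.map (fun x => (R.map (Int.cast : ℤ → ℝ))⁻¹ *ᵥ (x + fun i => (b i : ℝ))) →
      (∃ Λ : Set (Fin d → ℝ),
        (∀ l ∈ Λ, ∀ l' ∈ Λ,
          (l = l' → ∫ x, Complex.exp (2 * π * Complex.I * ((∑ i, (l i - l' i) * x i : ℝ) : ℂ)) ∂μ = 1) ∧
          (l ≠ l' → ∫ x, Complex.exp (2 * π * Complex.I * ((∑ i, (l i - l' i) * x i : ℝ) : ℂ)) ∂μ = 0)) ∧
        (∀ f : (Fin d → ℝ) → ℂ, MemLp f 2 μ →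
          (∀ l ∈ Λ, ∫ x, f x * Complex.exp (-(2 * π * Complex.I * ((∑ i, l i * x i : ℝ) : ℂ))) ∂μ = 0) →
          f =ᵐ[μ] 0)) →
      ∃ L : Finset (Fin d → ℤ), L.card = B.card ∧
        ∀ l ∈ L, ∀ l' ∈ L,
          (l = l' → ∑ b ∈ B, Complex.exp (2 * π * Complex.I *
              ((∑ i, ((R.map (Int.cast : ℤ → ℝ))⁻¹ *ᵥ (fun j => (b j : ℝ))) i * ((l i : ℝ) - (l' i : ℝ)) : ℝ) : ℂ))
              = (B.card : ℂ)) ∧
          (l ≠ l' → ∑ b ∈ B, Complex.exp (2 * π * Complex.I *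
              ((∑ i, ((R.map (Int.cast : ℤ → ℝ))⁻¹ *ᵥ (fun j => (b j : ℝ))) i * ((l i : ℝ) - (l' i : ℝ)) : ℝ) : ℂ))
              = 0)) := 
  Pool.Agent.W646.Sp.negation Pool.Agent.W848.SpecB.no_hadamard


end Pool.Agent.S04820
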