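import Pool.Statements.S04841
import Pool.Agent.W718.OneD.Final

set_option autoImplicit false
open Pool Pool.MP_60e615_an

namespace Pool.Agent.S04841

/-- There is a nonempty closed shift-invariant set X of finite-alphabet bi-infinite sequences and an injective homomorphism from the discrete Heisenberg group into the group of shift-commuting homeomorphisms of X. -/
theorem result :
    ∃ (k : ℕ) (X : Set (ℤ → ℕ)), X.Nonempty ∧ IsClosed X ∧ (∀ x ∈ X, ∀ n : ℤ, x n < k) ∧
      (∀ x : ℤ → ℕ, x ∈ X ↔ (fun n : ℤ => x (n + 1)) ∈ X) ∧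
      ∃ ρ : ℤ × ℤ × ℤ → Equiv.Perm X, Function.Injective ρ ∧
        (∀ a b c a' b' c' : ℤ,
          ρ (a + a', b + b', c + c' + a * b') = ρ (a, b, c) * ρ (a', b', c')) ∧
        (∀ g : ℤ × ℤ × ℤ, Continuous (ρ g)) ∧
        (∀ g : ℤ × ℤ × ℤ, ∀ p q : X,
          ((q : ℤ → ℕ) = fun n : ℤ => (p : ℤ → ℕ) (n + 1)) →
            (((ρ g q : X) : ℤ → ℕ) = fun n : ℤ => ((ρ g p : X) : ℤ → ℕ) (n + 1))) := by
  exact Pool.Agent.W718.OneD.heis_one_dim

end Pool.Agent.S04841
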