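import Pool.Statements.S04846
import Pool.Agent.W726.FlowSpec
import Pool.Agent.W726.FlowDim

set_option autoImplicit false
open scoped FourierTransform
open Pool Pool.MP_6153ad_an

namespace Pool.Agent.S04846

open Pool.Agent.W726.FlowSpace Pool.Agent.W726.FlowSpec

lemma mem_S (n : ℕ) : sn n ∈ S := Or.inr ⟨n, rfl⟩

lemma mem_S0 : (0:ℝ) ∈ S := Or.inl rfl

/-- base points -/
noncomputable def pt (s : ℝ) (hs : s ∈ S) : X := π ⟨(s, 0), ⟨hs, trivial⟩⟩

lemma vadd_pt (s : ℝ) (hs : s ∈ S) (r : ℝ) (hr : ∃ k : ℤ, (1 + s) * r / 2 = k) :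
    r +ᵥ pt s hs = pt s hs := by
  apply Subtype.ext
  rw [vadd_val]
  change act r (F (s, 0)) = F (s, 0)
  rw [act_F]
  obtain ⟨k, hk⟩ := hr
  simp only
  rw [hk]
  congr 2
  have : ((k : ℝ) : AddCircle (1:ℝ)) = ((0:ℝ) : AddCircle (1:ℝ)) := by
    rw [coe_eq_iff]; exact ⟨k, by simp⟩
  rw [this]; simp

lemma vadd_pt0 (r : ℝ) (hr : ∃ k : ℤ, r = k) :
    r +ᵥ pt 0 mem_S0 = pt 0 mem_S0 := by
  apply Subtype.ext
  rw [vadd_val]
  change act r (F (0, 0)) = F (0, 0)
  obtain ⟨k, hk⟩ := hr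
  unfold act F
  refine Prod.ext rfl (Prod.ext ?_ ?_)
  · simp only
    have : (((1 + 0) * r : ℝ) : AddCircle (1:ℝ)) = ((0:ℝ) : AddCircle (1:ℝ)) := by
      rw [coe_eq_iff]; exact ⟨k, by simp [hk]⟩
    rw [this]; simp
  · simp

lemma fixed_ge_one (r : ℝ) (hr : 0 < r) (x : X) (hx : r +ᵥ x = x) : 1 ≤ r := by
  obtain ⟨⟨⟨s, φ⟩, hs, _⟩, rfl⟩ := π_surj x
  simp only at hs
  have h := congrArg Subtype.val hx
  rw [vadd_val] at h
  change act r (F (s, φ)) = F (s, φ) at h
  rcases hs with hs0 | ⟨n, hn⟩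
  · have h1 := congrArg (fun y : Y => y.2.1) h
    unfold act at h1
    simp only at h1
    have h2 : (((1 + s) * r : ℝ) : AddCircle (1:ℝ)) = 0 := by
      have : (F (s, φ)).1 = s := rfl
      rw [this] at h1
      exact add_eq_left.mp h1
    have h3 : (((1 + s) * r : ℝ) : AddCircle (1:ℝ)) = ((0:ℝ) : AddCircle (1:ℝ)) := by
      rw [h2]; simp
    rw [coe_eq_iff] at h3
    obtain ⟨k, hk⟩ := h3
    rw [hs0] at hk
    have h4 : r = k := by linarith
    have h5 : (0:ℝ) < k := by linarith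
    have h6 : 0 < k := by exact_mod_cast h5
    have h7 : (1:ℝ) ≤ k := by exact_mod_cast h6
    linarith
  · rw [act_F] at h
    have h1 := congrArg (fun y : Y => y.2.2) h
    unfold F at h1
    simp only at h1
    have hne : ((s : ℝ) : ℂ) ≠ 0 := by
      rw [← hn]; exact_mod_cast (sn_pos n).ne'
    have h2 := fourier_inj (mul_left_cancel₀ hne h1)
    have h3 : (((1 + s) * r / 2 : ℝ) : AddCircle (1:ℝ)) = ((0:ℝ) : AddCircle (1:ℝ)) := by
      simpa using h2
    rw [coe_eq_iff] at h3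
    obtain ⟨k, hk⟩ := h3
    have hsp : 0 < s := by rw [← hn]; exact sn_pos n
    have hsl : s ≤ 1/2 := by rw [← hn]; exact sn_le n
    have h5 : (0:ℝ) < k := by
      have : 0 < (1 + s) * r / 2 := by positivity
      linarith
    have h6 : 0 < k := by exact_mod_cast h5
    have h7 : (1:ℝ) ≤ k := by exact_mod_cast h6
    nlinarith

/-- The negation of the preceding statement: For a compact metrizable real flow with mean dimension below a>0 and each r-periodic set of covering dimension at most ⌊ar⌋, there is a continuous injective shift-equivariant map into functions bounded by 1 whose Fourier transform is supported in [-a,a]. -/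
theorem result :
    ¬ (∀ (X : Type) [TopologicalSpace X] [CompactSpace X] [TopologicalSpace.MetrizableSpace X]
    [AddAction ℝ X] [ContinuousVAdd ℝ X] (a : ℝ), 0 < a →
    (∃ c : ℝ, c < a ∧ ∀ (k : ℕ) (α : Fin k → Set X), (∀ i, IsOpen (α i)) →
      (⋃ i, α i) = Set.univ →
      ∃ n : ℕ, 0 < n ∧ ∃ (m : ℕ) (γ : Fin m → Set X), (∀ j, IsOpen (γ j)) ∧
        (⋃ j, γ j) = Set.univ ∧
        (∀ j, ∃ s : Fin n → Fin k, γ j ⊆ {x | ∀ i : Fin n, ((i : ℕ) : ℝ) +ᵥ x ∈ α (s i)}) ∧
        ∀ x : X, (({j : Fin m | x ∈ γ j}.ncard : ℝ) - 1 < c * n)) →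
    (∀ r : ℝ, 0 < r → ∀ (k : ℕ) (α : Fin k → Set X), (∀ i, IsOpen (α i)) →
      {x : X | r +ᵥ x = x} ⊆ ⋃ i, α i →
      ∃ (m : ℕ) (γ : Fin m → Set X), (∀ j, IsOpen (γ j)) ∧
        {x : X | r +ᵥ x = x} ⊆ ⋃ j, γ j ∧
        (∀ j, ∃ i, γ j ∩ {x : X | r +ᵥ x = x} ⊆ α i) ∧
        ∀ x ∈ {x : X | r +ᵥ x = x}, {j : Fin m | x ∈ γ j}.ncard ≤ ⌊a * r⌋₊ + 1) →
    ∃ Φ : X → C(ℝ, ℝ), Continuous Φ ∧ Function.Injective Φ ∧
      (∀ (x : X) (t : ℝ), |Φ x t| ≤ 1) ∧
      (∀ (x : X) (φ : SchwartzMap ℝ ℂ), HasCompactSupport (⇑φ) →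
        Disjoint (tsupport (⇑φ)) (Set.Icc (-a) a) →
        ∫ t, ((Φ x t : ℝ) : ℂ) * 𝓕 (⇑φ : ℝ → ℂ) t = 0) ∧
      ∀ (r : ℝ) (x : X) (t : ℝ), Φ (r +ᵥ x) t = Φ x (t + r)) := by
  intro h
  obtain ⟨Φ, hΦc, hΦi, hΦb, hΦs, hΦe⟩ := h X 1 one_pos (by
    refine ⟨1/2, by norm_num, ?_⟩
    intro k α hα hcov
    refine ⟨4, by norm_num, ?_⟩
    obtain ⟨m, γ, h1, h2, h3, h4⟩ := dim_one
      (U := fun s : Fin 4 → Fin k => {x : X | ∀ i : Fin 4, ((i : ℕ) : ℝ) +ᵥ x ∈ α (s i)})
      (fun s => by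
        have : {x : X | ∀ i : Fin 4, ((i : ℕ) : ℝ) +ᵥ x ∈ α (s i)} =
            ⋂ i : Fin 4, (fun x : X => ((i : ℕ) : ℝ) +ᵥ x) ⁻¹' (α (s i)) := by
          ext x; simp
        rw [this]
        exact isOpen_iInter_of_finite fun i => (hα _).preimage (continuous_const_vadd _))
      (by
        rw [Set.eq_univ_iff_forall]
        intro x
        rw [Set.mem_iUnion]
        have : ∀ i : Fin 4, ∃ j : Fin k, ((i : ℕ) : ℝ) +ᵥ x ∈ α j := by
          intro i
          have : ((i : ℕ) : ℝ) +ᵥ x ∈ ⋃ i, α i := by rw [hcov]; trivial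
          rwa [Set.mem_iUnion] at this
        choose s hs using this
        exact ⟨s, hs⟩)
    refine ⟨m, γ, h1, h2, h3, fun x => ?_⟩
    have : (({j : Fin m | x ∈ γ j}.ncard : ℝ)) ≤ 2 := by exact_mod_cast h4 x
    push_cast
    linarith) (by
    intro r hr k α hα hcov
    by_cases hne : {x : X | r +ᵥ x = x} = ∅
    · refine ⟨0, fun j => j.elim0, fun j => j.elim0, ?_, fun j => j.elim0, ?_⟩
      · rw [hne]; exact Set.empty_subset _
      · rw [hne]; intro x hx; exact absurd hx (Set.notMem_empty x)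
    · rw [← Ne, ← Set.nonempty_iff_ne_empty] at hne
      obtain ⟨x0, hx0⟩ := hne
      have hr1 : 1 ≤ r := fixed_ge_one r hr x0 hx0
      have hi0 : Nonempty (Fin k) := by
        have := hcov hx0
        rw [Set.mem_iUnion] at this
        exact ⟨this.choose⟩
      have hcl : IsClosed {x : X | r +ᵥ x = x} :=
        isClosed_eq (continuous_const_vadd r) continuous_id
      obtain ⟨m, γ, h1, h2, h3, h4⟩ := dim_one
        (U := fun i : Option (Fin k) => i.elim ({x : X | r +ᵥ x = x}ᶜ) α)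
        (fun i => by
          cases i with
          | none => exact hcl.isOpen_compl
          | some i => exact hα i)
        (by
          rw [Set.eq_univ_iff_forall]
          intro x
          rw [Set.mem_iUnion]
          by_cases hx : x ∈ {x : X | r +ᵥ x = x}
          · have := hcov hx
            rw [Set.mem_iUnion] at this
            exact ⟨some this.choose, this.choose_spec⟩
          · exact ⟨none, hx⟩)
      refine ⟨m, γ, h1, by rw [h2]; exact Set.subset_univ _, fun j => ?_, fun x _ => ?_⟩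
      · obtain ⟨i, hi⟩ := h3 j
        cases i with
        | none =>
          refine ⟨hi0.some, ?_⟩
          rintro y ⟨hy1, hy2⟩
          exact absurd hy2 (hi hy1)
        | some i => exact ⟨i, fun y hy => hi hy.1⟩
      · have h5 : 1 ≤ ⌊1 * r⌋₊ := by
          rw [one_mul]
          exact Nat.le_floor (by simpa using hr1)
        exact (h4 x).trans (by omega))
  -- the functions of the base points
  have hsum : ∀ n : ℕ, ∀ t t' : ℝ,
      Φ (pt (sn n) (mem_S n)) t + Φ (pt (sn n) (mem_S n)) (t + 1 / (1 + sn n))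
      = Φ (pt (sn n) (mem_S n)) t' +
        Φ (pt (sn n) (mem_S n)) (t' + 1 / (1 + sn n)) := by
    intro n t t'
    set x : X := pt (sn n) (mem_S n) with hx
    set T : ℝ := 1 / (1 + sn n) with hT
    have hs := sn_pos n
    have hT0 : 0 < T := by rw [hT]; positivity
    have hT1 : T < 1 := by
      rw [hT, div_lt_one (by positivity)]; linarith
    have hper : ∀ t, Φ x (t + 2 * T) = Φ x t := by
      intro t
      rw [← hΦe, hx, vadd_pt]
      refine ⟨1, ?_⟩
      rw [hT]; field_simp; norm_num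
    refine const_of (fun t => Φ x t + Φ x (t + T)) ?_ 2 ?_ T hT0 hT1 ?_ ?_ t t'
    · exact (Φ x).continuous.add ((Φ x).continuous.comp (continuous_id.add continuous_const))
    · intro t
      calc |Φ x t + Φ x (t + T)| ≤ |Φ x t| + |Φ x (t + T)| := abs_add_le _ _
        _ ≤ 2 := by linarith [hΦb x t, hΦb x (t + T)]
    · intro t
      rw [show t + T + T = t + 2 * T by ring, hper]
      ring
    · intro φ u hφ1 hφ2
      have e1 := hΦs (u +ᵥ x) φ hφ1 hφ2
      have e2 := hΦs ((u + T) +ᵥ x) φ hφ1 hφ2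
      simp only [hΦe] at e1 e2
      have hint : ∀ v : ℝ, MeasureTheory.Integrable
          (fun t => ((Φ x (t + v) : ℝ) : ℂ) * 𝓕 (⇑φ : ℝ → ℂ) t) := by
        intro v
        have hF : MeasureTheory.Integrable (𝓕 (⇑φ : ℝ → ℂ)) := by
          have := (𝓕 φ).integrable (μ := MeasureTheory.volume)
          rwa [SchwartzMap.fourier_coe] at this
        refine hF.bdd_mul (c := 1) ?_ ?_
        · apply Continuous.aestronglyMeasurable
          exact Complex.continuous_ofReal.comp ((Φ x).continuous.comp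
            (continuous_id.add continuous_const))
        · filter_upwards with t
          rw [Complex.norm_real]
          exact hΦb _ _
      have e3 : ∀ t, ((Φ x (t + u) + Φ x (t + u + T) : ℝ) : ℂ) * 𝓕 (⇑φ : ℝ → ℂ) t
          = ((Φ x (t + u) : ℝ) : ℂ) * 𝓕 (⇑φ : ℝ → ℂ) t
            + ((Φ x (t + (u + T)) : ℝ) : ℂ) * 𝓕 (⇑φ : ℝ → ℂ) t := by
        intro t
        rw [← add_assoc]
        push_cast
        ring
      simp_rw [e3]
      rw [MeasureTheory.integral_add (hint u) (hint (u + T)), e1, e2, add_zero]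
  -- passing to the limit
  have hlim : Filter.Tendsto (fun n => pt (sn n) (mem_S n)) Filter.atTop
      (nhds (pt 0 mem_S0)) := by
    have h1 : Filter.Tendsto (fun n => (⟨(sn n, 0), ⟨mem_S n, trivial⟩⟩ : KT)) Filter.atTop
        (nhds (⟨(0, 0), ⟨mem_S0, trivial⟩⟩ : KT)) := by
      have : Filter.Tendsto (fun n => ((sn n, 0) : ℝ × AddCircle (1:ℝ))) Filter.atTop
        (nhds (0, 0)) := tendsto_sn.prodMk_nhds tendsto_const_nhds
      exact tendsto_subtype_rng.mpr this
    exact (π_cont.tendsto _).comp h1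
  have hlimΦ := (hΦc.tendsto _).comp hlim
  set x0 : X := pt 0 mem_S0 with hx0
  have hTlim : Filter.Tendsto (fun n => 1 / (1 + sn n)) Filter.atTop (nhds (1:ℝ)) := by
    have : Filter.Tendsto (fun n => 1 / (1 + sn n)) Filter.atTop (nhds (1 / (1 + 0) : ℝ)) :=
      tendsto_const_nhds.div (tendsto_const_nhds.add tendsto_sn) (by norm_num)
    simpa using this
  have hev : ∀ t : ℝ, Filter.Tendsto (fun n => Φ (pt (sn n) (mem_S n)) t +
      Φ (pt (sn n) (mem_S n)) (t + 1 / (1 + sn n))) Filter.atTop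
      (nhds (Φ x0 t + Φ x0 (t + 1))) := by
    intro t
    refine Filter.Tendsto.add ?_ ?_
    · have hc : Continuous fun q : C(ℝ, ℝ) => q t := continuous_eval_const t
      exact (hc.tendsto _).comp hlimΦ
    · have hc : Continuous fun q : C(ℝ, ℝ) × ℝ => q.1 q.2 := continuous_eval
      exact (hc.tendsto (Φ x0, t + 1)).comp (hlimΦ.prodMk_nhds (tendsto_const_nhds.add hTlim))
  have hconst : ∀ t t' : ℝ, Φ x0 t = Φ x0 t' := by
    intro t t'
    have h1 := tendsto_nhds_unique (hev t) ((hev t').congr fun n => hsum n t' t)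
    have hp : ∀ t, Φ x0 (t + 1) = Φ x0 t := by
      intro t
      rw [← hΦe, hx0, vadd_pt0 1 ⟨1, by norm_num⟩]
    rw [hp, hp] at h1
    linarith
  have hfix : (1/2 : ℝ) +ᵥ x0 = x0 := by
    apply hΦi
    ext t
    rw [hΦe]
    exact hconst _ _
  have h1 := congrArg (fun y : X => y.1.2.1) hfix
  simp only [vadd_val] at h1
  change (0 : AddCircle (1:ℝ)) + 0 + (((1 + 0) * (1/2) : ℝ) : AddCircle (1:ℝ)) = 0 + 0 at h1
  have h2 : (((1 + 0) * (1/2) : ℝ) : AddCircle (1:ℝ)) = ((0:ℝ) : AddCircle (1:ℝ)) := by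
    simpa using h1
  rw [coe_eq_iff] at h2
  obtain ⟨k, hk⟩ := h2
  have h3 : (k : ℝ) = 1 / 2 := by linarith
  have h4 : (2 * k : ℝ) = 1 := by linarith
  have h5 : 2 * k = 1 := by exact_mod_cast h4
  omega

end Pool.Agent.S04846
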