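import Pool.Statements.S04878
import Pool.Agent.H707F.LF.Wrap
import Pool.Agent.W665.IndWords

set_option autoImplicit false
open scoped InnerProductSpace
open Pool Pool.MP_64d6f1_an Pool.Agent.Helper278

namespace Pool.Agent.S04878

/-- The negation of the preceding statement: In any tracial von Neumann algebra, unitaries of the ultrapower that are k-independent (centered alternating words of length 1..k have trace 0) have unitary lifts that are (k-1)-independent at every index. -/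
theorem result :
    ¬ (∀ (H : Type) [NormedAddCommGroup H] [InnerProductSpace ℂ H] [CompleteSpace H]
    (N : VonNeumannAlgebra H) (ξ : ℕ → H) (τ : (H →L[ℂ] H) → ℂ),
    Summable (fun i => ‖ξ i‖ ^ 2) →
    (∀ x : H →L[ℂ] H, τ x = ∑' i, ⟪ξ i, x (ξ i)⟫_ℂ) →
    τ (1 : H →L[ℂ] H) = 1 →
    (∀ x ∈ N, ∀ y ∈ N, τ (x * y) = τ (y * x)) →
    (∀ x ∈ N, τ (star x * x) = 0 → x = 0) →
    ∀ (𝒰 : Ultrafilter ℕ), (↑𝒰 : Filter ℕ) ≤ Filter.cofinite →
    ∀ (k : ℕ), 2 ≤ k →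
    ∀ (u v : ℕ → unitary (H →L[ℂ] H)),
      (∀ n, (u n : H →L[ℂ] H) ∈ N) → (∀ n, (v n : H →L[ℂ] H) ∈ N) →
      (∀ m : ℕ, 1 ≤ m → m ≤ k → ∀ (s : ℕ) (e : Fin m → ℤ),
        Filter.Tendsto
          (fun n => τ (List.prod (List.ofFn (fun i : Fin m =>
            (((if (i.val + s) % 2 = 0 then u n else v n) ^ (e i) : unitary (H →L[ℂ] H)) : H →L[ℂ] H)
            - algebraMap ℂ (H →L[ℂ] H) (τ
                (((if (i.val + s) % 2 = 0 then u n else v n) ^ (e i) : unitary (H →L[ℂ] H)) : H →L[ℂ] H))))))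
          (↑𝒰 : Filter ℕ) (nhds 0)) →
      ∃ (u' v' : ℕ → unitary (H →L[ℂ] H)),
        (∀ n, (u' n : H →L[ℂ] H) ∈ N) ∧ (∀ n, (v' n : H →L[ℂ] H) ∈ N) ∧
        Filter.Tendsto
          (fun n => τ (star ((u' n : H →L[ℂ] H) - (u n : H →L[ℂ] H))
            * ((u' n : H →L[ℂ] H) - (u n : H →L[ℂ] H)))) (↑𝒰 : Filter ℕ) (nhds 0) ∧
        Filter.Tendsto
          (fun n => τ (star ((v' n : H →L[ℂ] H) - (v n : H →L[ℂ] H))
            * ((v' n : H →L[ℂ] H) - (v n : H →L[ℂ] H)))) (↑𝒰 : Filter ℕ) (nhds 0) ∧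
        ∀ n : ℕ, ∀ m : ℕ, 1 ≤ m → m ≤ k - 1 → ∀ (s : ℕ) (e : Fin m → ℤ),
          τ (List.prod (List.ofFn (fun i : Fin m =>
            (((if (i.val + s) % 2 = 0 then u' n else v' n) ^ (e i) : unitary (H →L[ℂ] H)) : H →L[ℂ] H)
            - algebraMap ℂ (H →L[ℂ] H) (τ
                (((if (i.val + s) % 2 = 0 then u' n else v' n) ^ (e i) : unitary (H →L[ℂ] H)) : H →L[ℂ] H))))) = 0) := by
  intro hall
  obtain ⟨K, i1, i2, i3, N, τ₀, ⟨h1, h2⟩, -, hnot⟩ := Pool.Agent.H707F.LF.fails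
  refine hnot ?_
  have h1' := h1
  obtain ⟨ξ, hξ, hT⟩ := h1'
  refine Pool.Agent.W665.lifts_of_seq (mkState N τ₀ h1 h2) ξ hT ?_
  intro U hU u v hmem hd
  have hw := Pool.Agent.W665.words_tendsto (mkState N τ₀ h1 h2) ξ hξ hT (U : Filter ℕ) u v
    (fun n => (hmem n).1) (fun n => (hmem n).2) hd
  obtain ⟨u', v', hu', hv', hu2, hv2, hind⟩ := hall K N ξ (Pool.Agent.W665.extT ξ) hξ
    (fun x => rfl)
    (Pool.Agent.W665.extT_one (mkState N τ₀ h1 h2) ξ hT)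
    (Pool.Agent.W665.extT_tracial (mkState N τ₀ h1 h2) ξ hT)
    (Pool.Agent.W665.extT_faithful (mkState N τ₀ h1 h2) ξ hT) U hU 3 (by norm_num) u v
    (fun n => (hmem n).1) (fun n => (hmem n).2) hw
  refine ⟨u', v', fun n => ⟨hu' n, hv' n⟩, hu2, hv2, fun n k l => ?_⟩
  exact Pool.Agent.W665.df_zero_of_word (mkState N τ₀ h1 h2) ξ hξ hT (u' n) (v' n) k l
    (hind n 2 (by norm_num) (by norm_num) 0 ![k, l])

end Pool.Agent.S04878
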