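import Pool.Statements.S04892
import Pool.Agent.W789.Iso.Final

/-!
Counterexample in dimension three.  Given `c > 0` let `h = 4/c + 2`, `a = 2(h+1)` and
`Ω = {|x| < 1, |z| < h, |y| < b (1 - √(x²+z²)/a)}` with `b` very small.  A half-volume minimizer
`E` exists by compactness.  Comparing with a slightly bent graph `z < t(1-3x²)+s` shows that
the perimeter of `E` is smaller than the area of the section `{z = 0}` by a fixed factor.
A trapping cone of proportion at least `c` has to contain a thin sector around some ray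
away from the section `{z = 0}`; a rotational divergence-controlled field whose divergence is
concentrated in that sector shows that the perimeter of a set trapped in this way is at least
(almost) the area of the section, uniformly as `b → 0`: a contradiction.
-/

set_option autoImplicit false
open Pool Pool.MP_65ff7c_an

namespace Pool.Agent.S04892

/-- The negation of the preceding statement: Some absolute c>0 works in every dimension: if Ω is bounded open convex origin-symmetric and E is a half-volume relative-perimeter minimizer in Ω, some convex cone Γ has Ω∩Γ in E and Ω∩(−Γ) outside E (up to null sets), with ∣Ω∩Γ∣ ≥ c∣Ω∣. -/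
theorem result :
    ¬ (∃ c : ℝ, 0 < c ∧
      ∀ (n : ℕ) (Ω E : Set (EuclideanSpace ℝ (Fin n))),
        IsOpen Ω → Ω.Nonempty → Convex ℝ Ω → Bornology.IsBounded Ω →
        (∀ x ∈ Ω, -x ∈ Ω) →
        MeasurableSet E → E ⊆ Ω →
        MeasureTheory.volume E = MeasureTheory.volume Ω / 2 →
        (∀ F : Set (EuclideanSpace ℝ (Fin n)), MeasurableSet F → F ⊆ Ω →
          MeasureTheory.volume F = MeasureTheory.volume E →
          ∀ φ : EuclideanSpace ℝ (Fin n) → EuclideanSpace ℝ (Fin n),
            ContDiff ℝ 1 φ → HasCompactSupport φ → tsupport φ ⊆ Ω →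
            (∀ x, ‖φ x‖ ≤ 1) →
            ∀ ε : ℝ, 0 < ε →
              ∃ ψ : EuclideanSpace ℝ (Fin n) → EuclideanSpace ℝ (Fin n),
                ContDiff ℝ 1 ψ ∧ HasCompactSupport ψ ∧ tsupport ψ ⊆ Ω ∧
                (∀ x, ‖ψ x‖ ≤ 1) ∧
                (∫ x in E, LinearMap.trace ℝ (EuclideanSpace ℝ (Fin n))
                    (fderiv ℝ φ x).toLinearMap) ≤
                  (∫ x in F, LinearMap.trace ℝ (EuclideanSpace ℝ (Fin n))
                    (fderiv ℝ ψ x).toLinearMap) + ε) →
        ∃ Γ : ConvexCone ℝ (EuclideanSpace ℝ (Fin n)),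
          MeasureTheory.volume ((Ω ∩ (Γ : Set (EuclideanSpace ℝ (Fin n)))) \ E) = 0 ∧
          MeasureTheory.volume ((Ω ∩ {x | -x ∈ Γ}) ∩ E) = 0 ∧
          ENNReal.ofReal c * MeasureTheory.volume Ω ≤
            MeasureTheory.volume (Ω ∩ (Γ : Set (EuclideanSpace ℝ (Fin n))))) := by
  rintro ⟨c, hc, H⟩
  obtain ⟨Ω, E, h1, h2, h3, h4, h5, h6, h7, h8, ⟨I, hI, hImin⟩, hΓ⟩ :=
    Pool.Agent.W789.Iso.main c hc
  obtain ⟨Γ, k1, k2, k3⟩ := H 3 Ω E h1 h2 h3 h4 h5 h6 h7 h8 (by
    intro F hF hFO hFv φ hφ1 hφ2 hφ3 hφ4 ε hε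
    by_contra hcon
    push Not at hcon
    have hle : I ≤ (∫ x in E, Pool.Agent.W789.Iso.dv φ x) - ε := by
      refine hImin F hF hFO hFv _ ?_
      rintro ψ ⟨a1, a2, a3, a4⟩
      have h9 := hcon ψ a1 a2 a3 a4
      have h10 : (∫ x in F, Pool.Agent.W789.Iso.dv ψ x) + ε <
        ∫ x in E, Pool.Agent.W789.Iso.dv φ x := h9
      linarith
    have h11 := hI φ ⟨hφ1, hφ2, hφ3, hφ4⟩
    linarith)
  exact hΓ Γ k1 k2 k3

end Pool.Agent.S04892
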