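import Pool.Statements.S04908
import Pool.Agent.Results.MP_68b5a7_an.InteriorPoint

set_option autoImplicit false
open Pool Pool.MP_68b5a7_an

namespace Pool.Agent.S04908

/-- The negation of the preceding statement: For every partition of [0,1)² into finitely many half-open rectangles whose translates also partition it, the piecewise-translation map returns every point to within ε of itself, in Euclidean torus distance, at some time N ≥ 1. -/
theorem result :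
    ¬ (∀ (m : ℕ) (a1 b1 a2 b2 v1 v2 : Fin m → ℝ) (φ : ℝ × ℝ → ℝ × ℝ),
      Pairwise (fun r s : Fin m =>
        Disjoint (Set.Ico (a1 r) (b1 r) ×ˢ Set.Ico (a2 r) (b2 r))
          (Set.Ico (a1 s) (b1 s) ×ˢ Set.Ico (a2 s) (b2 s))) →
      (⋃ r : Fin m, Set.Ico (a1 r) (b1 r) ×ˢ Set.Ico (a2 r) (b2 r))
          = Set.Ico (0:ℝ) 1 ×ˢ Set.Ico (0:ℝ) 1 →
      Pairwise (fun r s : Fin m =>
        Disjoint
          (Set.Ico (a1 r + v1 r) (b1 r + v1 r) ×ˢ Set.Ico (a2 r + v2 r) (b2 r + v2 r))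
          (Set.Ico (a1 s + v1 s) (b1 s + v1 s) ×ˢ Set.Ico (a2 s + v2 s) (b2 s + v2 s))) →
      (⋃ r : Fin m,
          Set.Ico (a1 r + v1 r) (b1 r + v1 r) ×ˢ Set.Ico (a2 r + v2 r) (b2 r + v2 r))
          = Set.Ico (0:ℝ) 1 ×ˢ Set.Ico (0:ℝ) 1 →
      (∀ r : Fin m, ∀ x ∈ Set.Ico (a1 r) (b1 r) ×ˢ Set.Ico (a2 r) (b2 r),
          φ x = (x.1 + v1 r, x.2 + v2 r)) →
      ∀ x ∈ Set.Ico (0:ℝ) 1 ×ˢ Set.Ico (0:ℝ) 1, ∀ ε : ℝ, 0 < ε →
        ∃ N : ℕ, 1 ≤ N ∧ ∃ k1 k2 : ℤ,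
          ((φ^[N] x).1 - x.1 + (k1 : ℝ)) ^ 2 + ((φ^[N] x).2 - x.2 + (k2 : ℝ)) ^ 2 ≤ ε ^ 2) := by
  intro h
  obtain ⟨ι, hι, a, b, c, d, v, φ, hex, p, hp, hrec⟩ :=
    Pool.Agent.Results.MP_68b5a7_an.InteriorPoint.result
  obtain ⟨m, ⟨e⟩⟩ := Finite.exists_equiv_fin ι
  have hmaps : ∀ x ∈ Set.Ico (0:ℝ) 1 ×ˢ Set.Ico (0:ℝ) 1, φ x ∈ Set.Ico (0:ℝ) 1 ×ˢ Set.Ico (0:ℝ) 1 := by
    intro x hx
    have h1 : x ∈ ⋃ i, Pool.Agent.Results.MP_68b5a7_an.InteriorPoint.Rect (a i) (b i) (c i) (d i) := by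
      rw [hex.cover]
      exact hx
    obtain ⟨i, hi⟩ := Set.mem_iUnion.1 h1
    have h2 : φ x ∈ ⋃ i, Pool.Agent.Results.MP_68b5a7_an.InteriorPoint.Rect (a i + (v i).1)
        (b i + (v i).1) (c i + (v i).2) (d i + (v i).2) := by
      refine Set.mem_iUnion.2 ⟨i, ?_⟩
      rw [hex.trans i x hi]
      obtain ⟨⟨h3, h4⟩, h5, h6⟩ := hi
      exact ⟨⟨by simpa using h3, by simpa using h4⟩, by simpa using h5, by simpa using h6⟩
    rw [hex.cover'] at h2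
    exact h2
  have hpI : p ∈ Set.Ico (0:ℝ) 1 ×ˢ Set.Ico (0:ℝ) 1 :=
    ⟨⟨hp.1.1.le, hp.1.2⟩, hp.2.1.le, hp.2.2⟩
  have hit : ∀ N : ℕ, φ^[N] p ∈ Set.Ico (0:ℝ) 1 ×ˢ Set.Ico (0:ℝ) 1 := by
    intro N
    induction N with
    | zero => exact hpI
    | succ N ih =>
      rw [Function.iterate_succ_apply']
      exact hmaps _ ih
  set δ : ℝ := min (min (p.1) (1 - p.1)) (min (p.2) (1 - p.2)) with hδ
  have hδ0 : 0 < δ := by
    rw [hδ]
    refine lt_min (lt_min hp.1.1 ?_) (lt_min hp.2.1 ?_)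
    · linarith [hp.1.2]
    · linarith [hp.2.2]
  have hd1 : δ ≤ p.1 := (min_le_left _ _).trans (min_le_left _ _)
  have hd2 : δ ≤ 1 - p.1 := (min_le_left _ _).trans (min_le_right _ _)
  have hd3 : δ ≤ p.2 := (min_le_right _ _).trans (min_le_left _ _)
  have hd4 : δ ≤ 1 - p.2 := (min_le_right _ _).trans (min_le_right _ _)
  have hε0 : 0 < min (1 / 4) (δ / 2) := lt_min (by norm_num) (by linarith)
  obtain ⟨N, hN, k1, k2, hk⟩ := h m (fun r => a (e.symm r)) (fun r => b (e.symm r))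
    (fun r => c (e.symm r)) (fun r => d (e.symm r)) (fun r => (v (e.symm r)).1)
    (fun r => (v (e.symm r)).2) φ
    (fun r s hrs => hex.disjoint _ _ (fun h1 => hrs (e.symm.injective h1)))
    (by exact (e.symm.surjective.iUnion_comp (fun i => Set.Ico (a i) (b i) ×ˢ
        Set.Ico (c i) (d i))).trans hex.cover)
    (fun r s hrs => hex.disjoint' _ _ (fun h1 => hrs (e.symm.injective h1)))
    (by exact (e.symm.surjective.iUnion_comp (fun i => Set.Ico (a i + (v i).1) (b i + (v i).1) ×ˢ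
        Set.Ico (c i + (v i).2) (d i + (v i).2))).trans hex.cover')
    (fun r x hx => by
      rw [hex.trans _ x hx]
      rfl)
    p hpI (min (1 / 4) (δ / 2)) hε0
  have hb := hit N
  set x := φ^[N] p with hx
  obtain ⟨⟨hx1, hx2⟩, hx3, hx4⟩ := hb
  have hle1 : min (1 / 4) (δ / 2) ≤ 1 / 4 := min_le_left _ _
  have hle2 : min (1 / 4) (δ / 2) ≤ δ / 2 := min_le_right _ _
  set ε := min (1 / 4) (δ / 2) with hε
  have hA : |x.1 - p.1 + k1| ≤ ε := by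
    refine abs_le_of_sq_le_sq' ?_ hε0.le |> abs_le.2
    nlinarith [sq_nonneg (x.2 - p.2 + (k2 : ℝ))]
  have hB : |x.2 - p.2 + k2| ≤ ε := by
    refine abs_le_of_sq_le_sq' ?_ hε0.le |> abs_le.2
    nlinarith [sq_nonneg (x.1 - p.1 + (k1 : ℝ))]
  rw [abs_le] at hA hB
  have hk1 : k1 = 0 := by
    have h3 : (-1 : ℝ) < k1 := by linarith
    have h4 : (k1 : ℝ) < 1 := by linarith
    have h5 : (-1 : ℤ) < k1 := by exact_mod_cast h3
    have h6 : k1 < 1 := by exact_mod_cast h4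
    omega
  have hk2 : k2 = 0 := by
    have h3 : (-1 : ℝ) < k2 := by linarith
    have h4 : (k2 : ℝ) < 1 := by linarith
    have h5 : (-1 : ℤ) < k2 := by exact_mod_cast h3
    have h6 : k2 < 1 := by exact_mod_cast h4
    omega
  rw [hk1, hk2, Int.cast_zero, add_zero, add_zero] at hk
  have h7 := hrec N hN
  unfold Pool.Agent.Results.MP_68b5a7_an.InteriorPoint.euclidDist at h7
  rw [← hx] at h7
  have h8 : Real.sqrt ((x.1 - p.1) ^ 2 + (x.2 - p.2) ^ 2) ≤ 1 / 4 := by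
    rw [Real.sqrt_le_left (by norm_num)]
    nlinarith
  linarith

end Pool.Agent.S04908
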