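import Pool.Statements.S04980
import Pool.Agent.Results.MP_6ded3d_an.PlanarNonsmoothMinimizer

set_option autoImplicit false
open MeasureTheory Set
open Pool Pool.MP_6ded3d_an

namespace Pool.Agent.S04980

open Pool.Agent.Results.MP_6ded3d_an

/-- The negation of the preceding statement: For all n≥2, bounded domains Ω, p>1 and homeomorphic g of finite distortion with L^p inner distortion, every homeomorphism with g's boundary values minimizing the L^p inner-distortion energy is a C^∞ diffeomorphism of Ω onto g(Ω). -/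
theorem result :
    ¬ (∀ (n : ℕ), 2 ≤ n →
  ∀ (Ω : Set (EuclideanSpace ℝ (Fin n))), IsOpen Ω → IsConnected Ω → Bornology.IsBounded Ω →
  ∀ (opNorm : Matrix (Fin n) (Fin n) ℝ → ℝ),
    (∀ A : Matrix (Fin n) (Fin n) ℝ,
      opNorm A = ‖LinearMap.toContinuousLinearMap (Matrix.toEuclideanLin A)‖) →
  ∀ (FD : (EuclideanSpace ℝ (Fin n) → EuclideanSpace ℝ (Fin n)) →
      (EuclideanSpace ℝ (Fin n) → Matrix (Fin n) (Fin n) ℝ) → Prop),
    (∀ (f : EuclideanSpace ℝ (Fin n) → EuclideanSpace ℝ (Fin n))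
       (Df : EuclideanSpace ℝ (Fin n) → Matrix (Fin n) (Fin n) ℝ),
      FD f Df ↔
      ((∀ i : Fin n, LocallyIntegrableOn (fun x => WithLp.ofLp (f x) i) Ω) ∧
       (∀ i j : Fin n, LocallyIntegrableOn (fun x => Df x i j) Ω) ∧
       (∀ φ : EuclideanSpace ℝ (Fin n) → ℝ,
          ContDiff ℝ ((⊤ : ℕ∞) : WithTop ℕ∞) φ → HasCompactSupport φ → tsupport φ ⊆ Ω →
          ∀ i j : Fin n,
            ∫ x in Ω, WithLp.ofLp (f x) i * fderiv ℝ φ x (EuclideanSpace.single j (1 : ℝ))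
              = - ∫ x in Ω, Df x i j * φ x) ∧
       LocallyIntegrableOn (fun x => (Df x).det) Ω ∧
       (∀ᵐ x ∂(volume.restrict Ω), 0 ≤ (Df x).det) ∧
       ∃ K : EuclideanSpace ℝ (Fin n) → ℝ, Measurable K ∧ (∀ x ∈ Ω, 1 ≤ K x) ∧
         ∀ᵐ x ∂(volume.restrict Ω), opNorm (Df x) ^ n ≤ K x * (Df x).det)) →
  ∀ (KI : (EuclideanSpace ℝ (Fin n) → Matrix (Fin n) (Fin n) ℝ) → EuclideanSpace ℝ (Fin n) → ℝ),
    (∀ (Df : EuclideanSpace ℝ (Fin n) → Matrix (Fin n) (Fin n) ℝ) (x : EuclideanSpace ℝ (Fin n)),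
      KI Df x = if 0 < (Df x).det
        then opNorm (Df x).adjugate ^ n / (Df x).det ^ (n - 1) else 1) →
  ∀ p : ℝ, 1 < p →
  ∀ g : EuclideanSpace ℝ (Fin n) → EuclideanSpace ℝ (Fin n),
    ContinuousOn g (closure Ω) → InjOn g (closure Ω) → g '' closure Ω = closure (g '' Ω) →
    (∃ Dg : EuclideanSpace ℝ (Fin n) → Matrix (Fin n) (Fin n) ℝ,
      FD g Dg ∧ ∫⁻ x in Ω, ENNReal.ofReal (KI Dg x ^ p) < ⊤) →
  ∀ (f : EuclideanSpace ℝ (Fin n) → EuclideanSpace ℝ (Fin n))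
    (Df : EuclideanSpace ℝ (Fin n) → Matrix (Fin n) (Fin n) ℝ),
    ContinuousOn f (closure Ω) → InjOn f (closure Ω) → f '' closure Ω = closure (g '' Ω) →
    (∀ x ∈ frontier Ω, f x = g x) → FD f Df →
    (∀ (h : EuclideanSpace ℝ (Fin n) → EuclideanSpace ℝ (Fin n))
       (Dh : EuclideanSpace ℝ (Fin n) → Matrix (Fin n) (Fin n) ℝ),
       ContinuousOn h (closure Ω) → InjOn h (closure Ω) → h '' closure Ω = closure (g '' Ω) →
       (∀ x ∈ frontier Ω, h x = g x) → FD h Dh →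
       ∫⁻ x in Ω, ENNReal.ofReal (KI Df x ^ p) ≤ ∫⁻ x in Ω, ENNReal.ofReal (KI Dh x ^ p)) →
    (f '' Ω = g '' Ω ∧ ContDiffOn ℝ ((⊤ : ℕ∞) : WithTop ℕ∞) f Ω ∧
      ∃ f' : EuclideanSpace ℝ (Fin n) → EuclideanSpace ℝ (Fin n),
        MapsTo f' (g '' Ω) Ω ∧ (∀ x ∈ Ω, f' (f x) = x) ∧ (∀ y ∈ g '' Ω, f (f' y) = y) ∧
        ContDiffOn ℝ ((⊤ : ℕ∞) : WithTop ℕ∞) f' (g '' Ω))) := by
  intro H
  obtain ⟨Ω, g, Dg, ⟨hΩo, hΩc, hΩb⟩, hg, hmin, hC2, -⟩ :=
    PlanarNonsmoothMinimizer.planar_example 2 (by norm_num)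
  have hcl : IsCompact (closure Ω) := hΩb.isCompact_closure
  have hFD : ∀ (f : EuclideanSpace ℝ (Fin 2) → EuclideanSpace ℝ (Fin 2))
       (Df : EuclideanSpace ℝ (Fin 2) → Matrix (Fin 2) (Fin 2) ℝ),
      PlanarNonsmoothMinimizer.FiniteDistortion Ω f Df ↔
      ((∀ i : Fin 2, LocallyIntegrableOn (fun x => WithLp.ofLp (f x) i) Ω) ∧
       (∀ i j : Fin 2, LocallyIntegrableOn (fun x => Df x i j) Ω) ∧
       (∀ φ : EuclideanSpace ℝ (Fin 2) → ℝ,
          ContDiff ℝ ((⊤ : ℕ∞) : WithTop ℕ∞) φ → HasCompactSupport φ → tsupport φ ⊆ Ω →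
          ∀ i j : Fin 2,
            ∫ x in Ω, WithLp.ofLp (f x) i * fderiv ℝ φ x (EuclideanSpace.single j (1 : ℝ))
              = - ∫ x in Ω, Df x i j * φ x) ∧
       LocallyIntegrableOn (fun x => (Df x).det) Ω ∧
       (∀ᵐ x ∂(volume.restrict Ω), 0 ≤ (Df x).det) ∧
       ∃ K : EuclideanSpace ℝ (Fin 2) → ℝ, Measurable K ∧ (∀ x ∈ Ω, 1 ≤ K x) ∧
         ∀ᵐ x ∂(volume.restrict Ω),
           PlanarNonsmoothMinimizer.opNorm (Df x) ^ 2 ≤ K x * (Df x).det) := by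
    intro f Df
    constructor
    · rintro ⟨⟨w1, w2, w3⟩, h2, h3, K, hK1, hK2, hK3⟩
      refine ⟨w1, w2, fun φ a b c i j => ?_, h2, h3, K, hK1, fun x _ => hK2 x, hK3⟩
      have h := w3 φ ⟨a, b, c⟩ i j
      have e1 : ∫ x in Ω, WithLp.ofLp (f x) i * fderiv ℝ φ x (EuclideanSpace.single j (1 : ℝ))
          = ∫ x in Ω, PlanarNonsmoothMinimizer.dj φ j x * f x i :=
        integral_congr_ae (Filter.Eventually.of_forall fun x => mul_comm _ _)
      have e2 : ∫ x in Ω, Df x i j * φ x = ∫ x in Ω, φ x * Df x i j :=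
        integral_congr_ae (Filter.Eventually.of_forall fun x => mul_comm _ _)
      exact e1.trans (h.trans (congrArg Neg.neg e2.symm))
    · rintro ⟨w1, w2, w3, h2, h3, K, hK1, hK2, hK3⟩
      refine ⟨⟨w1, w2, fun φ hφ i j => ?_⟩, h2, h3, fun x => max (K x) 1,
        hK1.max measurable_const, fun x => le_max_right _ _, ?_⟩
      · have h := w3 φ hφ.1 hφ.2.1 hφ.2.2 i j
        have e1 : ∫ x in Ω, WithLp.ofLp (f x) i * fderiv ℝ φ x (EuclideanSpace.single j (1 : ℝ))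
            = ∫ x in Ω, PlanarNonsmoothMinimizer.dj φ j x * f x i :=
          integral_congr_ae (Filter.Eventually.of_forall fun x => mul_comm _ _)
        have e2 : ∫ x in Ω, Df x i j * φ x = ∫ x in Ω, φ x * Df x i j :=
          integral_congr_ae (Filter.Eventually.of_forall fun x => mul_comm _ _)
        exact e1.symm.trans (h.trans (congrArg Neg.neg e2))
      · filter_upwards [hK3, h3, ae_restrict_mem hΩo.measurableSet] with x hx hx2 hx3
        rw [max_eq_left (hK2 x hx3)]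
        exact hx
  have hhom : ∀ h : EuclideanSpace ℝ (Fin 2) → EuclideanSpace ℝ (Fin 2),
      ContinuousOn h (closure Ω) → InjOn h (closure Ω) → h '' closure Ω = closure (g '' Ω) →
      PlanarNonsmoothMinimizer.IsHomeoOnto h (closure Ω) (closure (g '' Ω)) := by
    intro h h1 h2 h3
    rw [← h3]
    exact PlanarNonsmoothMinimizer.isHomeoOnto_of_compact hcl h1 h2
  have hlt : ∫⁻ x in Ω, ENNReal.ofReal (PlanarNonsmoothMinimizer.innerDistortion (Dg x) ^ (2:ℝ))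
      < ⊤ := by
    have h1 := hg.distortion_Lp
    have h2 := h1.2
    have h3 := lintegral_rpow_enorm_lt_top_of_eLpNorm_lt_top (by norm_num) (by norm_num) h2
    refine lt_of_le_of_lt (lintegral_mono fun x => ?_) h3
    rw [ENNReal.toReal_ofReal (by norm_num), Real.enorm_eq_ofReal_abs,
      ENNReal.ofReal_rpow_of_nonneg (abs_nonneg _) (by norm_num : (0:ℝ) ≤ 2)]
    apply ENNReal.ofReal_le_ofReal
    simp
  have key := H 2 le_rfl Ω hΩo hΩc hΩb PlanarNonsmoothMinimizer.opNorm (fun A => rfl)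
    (fun f Df => PlanarNonsmoothMinimizer.FiniteDistortion Ω f Df) hFD
    (fun Df x => PlanarNonsmoothMinimizer.innerDistortion (Df x)) (fun Df x => rfl)
    2 (by norm_num) g hg.homeo.1 hg.homeo.2.1.injOn hg.homeo.2.1.image_eq
    ⟨Dg, hg.finiteDistortion, hlt⟩ g Dg hg.homeo.1 hg.homeo.2.1.injOn hg.homeo.2.1.image_eq
    (fun x _ => rfl) hg.finiteDistortion
    (fun h Dh a b c d e => hmin.2 h Dh ⟨hhom h a b c, e, fun x hx => d x hx⟩)
  exact hC2 (contDiffOn_infty.1 key.2.1 2)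

end Pool.Agent.S04980
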