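import Pool.Statements.S05015
import Pool.Agent.Helper224.Asy10
import Pool.Agent.Helper802.JS.basis_proj

set_option autoImplicit false
open Pool Pool.MP_70ce06_an

namespace Pool.Agent.S05015

open Pool.Agent.Helper224 Filter Topology

section strat
variable {V : Type*} [NormedAddCommGroup V] [NormedSpace ℝ V]

lemma strat_of_game (S : ℕ → Set V) (n : ℕ) : ∀ P : (Fin n → V) → Prop, Asy6.Game S n P →
    ∃ f : (Fin n → ℕ) → Fin n → V,
      (∀ k k' : Fin n → ℕ, ∀ i : Fin n, (∀ j : Fin n, j ≤ i → k j = k' j) → f k i = f k' i) ∧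
      (∀ (k : Fin n → ℕ) (i : Fin n), f k i ∈ S (k i)) ∧ ∀ k, P (f k) := by
  induction n with
  | zero =>
    intro P h
    refine ⟨fun _ => Fin.elim0, fun _ _ i => i.elim0, fun _ i => i.elim0, fun _ => h⟩
  | succ n ih =>
    intro P h
    have h' : ∀ k : ℕ, ∃ x ∈ S k, Asy6.Game S n (fun y => P (Fin.cons x y)) := h
    choose x hx hg using h'
    have h2 := fun k => ih _ (hg k)
    choose f hf1 hf2 hf3 using h2
    refine ⟨fun k => Fin.cons (x (k 0)) (f (k 0) (fun i => k i.succ)), ?_, ?_, ?_⟩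
    · intro k k' i hk
      have h0 : k 0 = k' 0 := hk 0 (Fin.zero_le _)
      refine Fin.cases ?_ ?_ i (motive := fun i => (∀ j : Fin (n+1), j ≤ i → k j = k' j) →
        (Fin.cons (x (k 0)) (f (k 0) (fun i => k i.succ)) : Fin (n+1) → V) i =
        (Fin.cons (x (k' 0)) (f (k' 0) (fun i => k' i.succ)) : Fin (n+1) → V) i) hk
      · intro _
        simp [h0]
      · intro i hki
        simp only [Fin.cons_succ]
        rw [h0]
        apply hf1
        intro j hj
        exact hki j.succ (Fin.succ_le_succ_iff.mpr hj)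
    · intro k i
      refine Fin.cases ?_ ?_ i
      · simpa using hx (k 0)
      · intro i
        simp only [Fin.cons_succ]
        exact hf2 (k 0) (fun i => k i.succ) i
    · intro k
      exact hf3 (k 0) _

lemma game_of_strat (S : ℕ → Set V) (n : ℕ) : ∀ P : (Fin n → V) → Prop,
    (∃ f : (Fin n → ℕ) → Fin n → V,
      (∀ k k' : Fin n → ℕ, ∀ i : Fin n, (∀ j : Fin n, j ≤ i → k j = k' j) → f k i = f k' i) ∧
      (∀ (k : Fin n → ℕ) (i : Fin n), f k i ∈ S (k i)) ∧ ∀ k, P (f k)) → Asy6.Game S n P := by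
  induction n with
  | zero =>
    rintro P ⟨f, -, -, hf⟩
    have h := hf Fin.elim0
    have e : f Fin.elim0 = Fin.elim0 := funext fun i => i.elim0
    rw [e] at h
    exact h
  | succ n ih =>
    rintro P ⟨f, hf1, hf2, hf3⟩ k
    refine ⟨f (Fin.cons k 0) 0, hf2 (Fin.cons k 0) 0, ih _ ?_⟩
    refine ⟨fun k' i => f (Fin.cons k k') i.succ, ?_, ?_, ?_⟩
    · intro a b i hab
      apply hf1
      intro j
      refine Fin.cases ?_ ?_ j
      · intro _; simp
      · intro j hj
        simp only [Fin.cons_succ]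
        exact hab j (Fin.succ_le_succ_iff.mp hj)
    · intro k' i
      have := hf2 (Fin.cons k k') i.succ
      simpa using this
    · intro k'
      have h := hf3 (Fin.cons k k')
      convert h using 1
      funext i
      refine Fin.cases ?_ ?_ i
      · simp only [Fin.cons_zero]
        apply hf1
        intro j hj
        have : j = 0 := le_antisymm hj (Fin.zero_le _)
        subst this
        simp
      · intro i
        simp only [Fin.cons_succ]

end strat

/-- For every real Banach space with a Schauder basis: if all sequences in its n-th asymptotic structure have Banach–Mazur distance to ℓ₁ⁿ bounded by a uniform K, then they are all uniformly equivalent to the unit vector basis of ℓ₁ⁿ. -/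
theorem result :
  ∀ (X : Type) [NormedAddCommGroup X] [NormedSpace ℝ X] [CompleteSpace X] (e : ℕ → X),
    (∀ x : X, ∃! c : ℕ → ℝ,
      Filter.Tendsto (fun m => ∑ i ∈ Finset.range m, c i • e i) Filter.atTop (nhds x)) →
    ∀ S : (n : ℕ) → ((Fin n → ℝ) → ℝ) → Prop,
    (∀ (n : ℕ) (N : (Fin n → ℝ) → ℝ), S n N ↔
      ((∀ a b : Fin n → ℝ, N (a + b) ≤ N a + N b) ∧
       (∀ (c : ℝ) (a : Fin n → ℝ), N (c • a) = |c| * N a) ∧
       (∀ a : Fin n → ℝ, N a = 0 → a = 0) ∧
       (∀ i : Fin n, N (Pi.single i (1 : ℝ)) = 1) ∧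
       ∀ ε : ℝ, 0 < ε → ∃ f : (Fin n → ℕ) → Fin n → X,
         (∀ k k' : Fin n → ℕ, ∀ i : Fin n, (∀ j : Fin n, j ≤ i → k j = k' j) → f k i = f k' i) ∧
         (∀ (k : Fin n → ℕ) (i : Fin n), ‖f k i‖ = 1 ∧
            f k i ∈ closure ((Submodule.span ℝ (e '' Set.Ici (k i)) : Submodule ℝ X) : Set X)) ∧
         ∀ k : Fin n → ℕ, ∃ A B : ℝ, 0 < A ∧ 0 < B ∧ A * B ≤ 1 + ε ∧
           ∀ a : Fin n → ℝ, N a ≤ A * ‖∑ i, a i • f k i‖ ∧ ‖∑ i, a i • f k i‖ ≤ B * N a)) →
    (∃ K : ℝ, ∀ (n : ℕ) (N : (Fin n → ℝ) → ℝ), S n N →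
      ∃ T : (Fin n → ℝ) ≃ₗ[ℝ] (Fin n → ℝ), ∃ A B : ℝ, 0 < A ∧ 0 < B ∧ A * B ≤ K ∧
        ∀ a : Fin n → ℝ, N a ≤ A * ∑ i, |T a i| ∧ ∑ i, |T a i| ≤ B * N a) →
    ∃ K : ℝ, ∀ (n : ℕ) (N : (Fin n → ℝ) → ℝ), S n N →
      ∃ A B : ℝ, 0 < A ∧ 0 < B ∧ A * B ≤ K ∧
        ∀ a : Fin n → ℝ, N a ≤ A * ∑ i, |a i| ∧ ∑ i, |a i| ≤ B * N a := by
  intro X _ _ _ e he S hS hK
  obtain ⟨K, hK⟩ := hK
  let Xt : ℕ → Submodule ℝ X := fun k => (Submodule.span ℝ (e '' Set.Ici k)).topologicalClosure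
  have hXt : ∀ k x, x ∈ Xt k ↔
      x ∈ closure ((Submodule.span ℝ (e '' Set.Ici k) : Submodule ℝ X) : Set X) :=
    fun k x => Iff.rfl
  have hanti : Antitone Xt := by
    intro k l hkl
    apply Submodule.topologicalClosure_mono
    apply Submodule.span_mono
    apply Set.image_mono
    exact Set.Ici_subset_Ici.mpr hkl
  have hne0 : ∀ k, e k ≠ 0 := by
    intro k hk
    have h1 : Tendsto (fun m => ∑ i ∈ Finset.range m, (0 : ℕ → ℝ) i • e i) atTop (𝓝 0) := by
      simp
    have h2 : Tendsto (fun m => ∑ i ∈ Finset.range m, (Pi.single k (1:ℝ) : ℕ → ℝ) i • e i)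
        atTop (𝓝 0) := by
      have : ∀ m, ∑ i ∈ Finset.range m, (Pi.single k (1:ℝ) : ℕ → ℝ) i • e i = 0 := by
        intro m
        apply Finset.sum_eq_zero
        intro i _
        by_cases hik : i = k
        · subst hik; simp [hk]
        · simp [Pi.single_apply, hik]
      simp [this]
    have h3 := (he 0).unique h1 h2
    have h4 := congrFun h3 k
    simp at h4
  have hne : ∀ k, (Asy6.Sph Xt k).Nonempty := by
    intro k
    refine ⟨‖e k‖⁻¹ • e k, ?_, ?_⟩
    · apply Submodule.smul_mem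
      apply Submodule.le_topologicalClosure
      apply Submodule.subset_span
      exact ⟨k, le_refl k, rfl⟩
    · rw [norm_smul, norm_inv, norm_norm]
      exact inv_mul_cancel₀ (norm_ne_zero_iff.mpr (hne0 k))
  obtain ⟨P, C, hP0, hPC, hPP, hPt, hPd⟩ := Pool.Agent.Helper802.JB.N_basis_proj.basis_proj e he
  -- P k kills the tail
  have hPk : ∀ k i, k ≤ i → P k (e i) = 0 := by
    intro k i hki
    -- expansion of e i is unique
    have hcoef : ∀ x : X, ∃ c : ℕ → ℝ, (∀ N, P N x = ∑ j ∈ Finset.range N, c j • e j) := by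
      intro x
      choose c hc using fun n => hPd n x
      refine ⟨c, fun N => ?_⟩
      induction N with
      | zero => simp [hP0]
      | succ N ih => rw [Finset.sum_range_succ, ← ih, ← hc]; abel
    obtain ⟨c, hc⟩ := hcoef (e i)
    have h1 : Tendsto (fun m => ∑ j ∈ Finset.range m, c j • e j) atTop (𝓝 (e i)) := by
      refine (hPt (e i)).congr (fun N => hc N)
    have h2 : Tendsto (fun m => ∑ j ∈ Finset.range m, (Pi.single i (1:ℝ) : ℕ → ℝ) j • e j)
        atTop (𝓝 (e i)) := by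
      apply tendsto_const_nhds.congr'
      filter_upwards [eventually_gt_atTop i] with m hm
      rw [Finset.sum_eq_single i]
      · simp
      · intro j _ hj; simp [Pi.single_apply, hj]
      · intro h; exact absurd (Finset.mem_range.mpr hm) h
    have h3 : c = Pi.single i 1 := (he (e i)).unique h1 h2
    rw [hc k, h3]
    apply Finset.sum_eq_zero
    intro j hj
    have : j ≠ i := by
      have := Finset.mem_range.mp hj
      omega
    simp [Pi.single_apply, this]
  have hPtail : ∀ k z, z ∈ Xt k → P k z = 0 := by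
    intro k z hz
    have h1 : Xt k ≤ (P k).toLinearMap.ker := by
      apply Submodule.topologicalClosure_minimal
      · rw [Submodule.span_le]
        rintro _ ⟨i, hi, rfl⟩
        exact hPk k i hi
      · exact (P k).isClosed_ker
    exact h1 hz
  have hT : Asy5.TailIneq Xt (max C 1) := by
    intro v ε hε
    have h1 := hPt v
    rw [Metric.tendsto_atTop] at h1
    obtain ⟨k, hk⟩ := h1 ε hε
    refine ⟨k, fun z hz => ?_⟩
    have h2 := hk k le_rfl
    rw [dist_eq_norm] at h2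
    have h3 : P k (v + z) = P k v := by rw [map_add, hPtail k z hz, add_zero]
    calc ‖v‖ = ‖P k v - (P k v - v)‖ := by rw [sub_sub_cancel]
      _ ≤ ‖P k v‖ + ‖P k v - v‖ := norm_sub_le _ _
      _ ≤ ‖P k (v + z)‖ + ε := by rw [h3]; linarith
      _ ≤ ‖P k‖ * ‖v + z‖ + ε := by
          have := (P k).le_opNorm (v + z)
          linarith
      _ ≤ max C 1 * ‖v + z‖ + ε := by
          have := mul_le_mul_of_nonneg_right ((hPC k).trans (le_max_left C 1)) (norm_nonneg (v + z))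
          linarith
  -- translation between the two descriptions of membership
  have hmem1 : ∀ (n : ℕ) (N : Seminorm ℝ (Fin n → ℝ)), Asy6.IsMem (Asy6.Sph Xt) n N → S n N := by
    intro n N hN
    obtain ⟨hN1, hN2, hN3⟩ := hN
    rw [hS]
    refine ⟨fun a b => map_add_le_add N a b, fun c a => by rw [map_smul_eq_mul, Real.norm_eq_abs],
      hN1, hN2, fun ε hε => ?_⟩
    obtain ⟨f, hf1, hf2, hf3⟩ := strat_of_game _ n _ (hN3 ε hε)
    refine ⟨f, hf1, fun k i => ⟨(hf2 k i).2, (hf2 k i).1⟩, fun k => ?_⟩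
    obtain ⟨A, B, hA, hB, hAB, hc⟩ := hf3 k
    refine ⟨A, B, hA, hB, hAB, fun a => ⟨?_, (hc a).2⟩⟩
    have := (hc a).1
    rwa [inv_mul_le_iff₀ hA] at this
  have hmem2 : ∀ (n : ℕ) (N : (Fin n → ℝ) → ℝ), S n N →
      ∃ N' : Seminorm ℝ (Fin n → ℝ), (∀ a, N' a = N a) ∧ Asy6.IsMem (Asy6.Sph Xt) n N' := by
    intro n N hN
    rw [hS] at hN
    obtain ⟨h1, h2, h3, h4, h5⟩ := hN
    let N' : Seminorm ℝ (Fin n → ℝ) := Seminorm.of N h1 (fun c a => by
      rw [h2, Real.norm_eq_abs])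
    refine ⟨N', fun a => rfl, h3, h4, fun ε hε => ?_⟩
    obtain ⟨f, hf1, hf2, hf3⟩ := h5 ε hε
    apply game_of_strat
    refine ⟨f, hf1, fun k i => ⟨(hf2 k i).2, (hf2 k i).1⟩, fun k => ?_⟩
    obtain ⟨A, B, hA, hB, hAB, hc⟩ := hf3 k
    refine ⟨A, B, hA, hB, hAB, fun a => ⟨?_, (hc a).2⟩⟩
    rw [inv_mul_le_iff₀ hA]
    exact (hc a).1
  have hH : Asy8.Hyp Xt (max K 1) := by
    intro n N hN
    obtain ⟨T, A, B, hA, hB, hAB, hT⟩ := hK n N (hmem1 n N hN)
    let T' : (Fin n → ℝ) ≃ₗ[ℝ] (Fin n → ℝ) := T.trans (LinearEquiv.smulOfNeZero ℝ (Fin n → ℝ) A hA.ne')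
    have hT' : ∀ a i, T' a i = A * T a i := fun a i => rfl
    have hsum : ∀ a, ∑ i, |T' a i| = A * ∑ i, |T a i| := by
      intro a
      rw [Finset.mul_sum]
      apply Finset.sum_congr rfl
      intro i _
      rw [hT', abs_mul, abs_of_pos hA]
    refine ⟨T', fun a => ?_, fun a => ?_⟩
    · rw [hsum]; exact (hT a).1
    · rw [hsum]
      have hN0 : 0 ≤ N a := apply_nonneg N a
      calc A * ∑ i, |T a i| ≤ A * (B * N a) := mul_le_mul_of_nonneg_left (hT a).2 hA.le
        _ = (A * B) * N a := by ring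
        _ ≤ max K 1 * N a := mul_le_mul_of_nonneg_right (hAB.trans (le_max_left _ _)) hN0
  obtain ⟨θ, hθ, hmain⟩ := Asy10.main_abs hanti hne (lt_max_of_lt_right one_pos) hT
    (lt_max_of_lt_right one_pos) hH
  refine ⟨θ⁻¹, fun n N hN => ?_⟩
  obtain ⟨N', hN', hM⟩ := hmem2 n N hN
  refine ⟨1, θ⁻¹, one_pos, inv_pos.mpr hθ, by rw [one_mul], fun a => ⟨?_, ?_⟩⟩
  · rw [one_mul, ← hN']
    exact Asy6.sem_le N' hM.2.1 a
  · rw [← hN', ← div_eq_inv_mul, le_div_iff₀ hθ, mul_comm]
    exact hmain n N' hM a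

end Pool.Agent.S05015
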