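import Pool.Statements.S05046
import Pool.Agent.W738.Mesh.Final

set_option autoImplicit false
open Pool Pool.MP_72afba_an

namespace Pool.Agent.S05046

/-- The negation of the preceding statement: Any set of integers satisfying the mesh condition (at most K·n·s points among sums Σk_i m_i with Σ∣m_i∣ ≤ 2^s) is subgaussian: Λ-polynomials satisfy ‖f‖_p ≤ C√p‖f‖_2 for all p ≥ 2. -/
theorem result :
    ¬ (∀ Λ : Set ℤ,
    (∃ K : ℝ, 0 < K ∧ ∀ n s : ℕ, 0 < n → 0 < s → ∀ k : Fin n → ℤ,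
      ((Λ ∩ {z : ℤ | ∃ m : Fin n → ℤ, (∑ i, |m i|) ≤ (2 : ℤ) ^ s ∧ z = ∑ i, k i * m i}).ncard : ℝ)
        ≤ K * (n : ℝ) * (s : ℝ)) →
    ∃ C : ℝ, 0 < C ∧ ∀ A : Finset ℤ, (↑A : Set ℤ) ⊆ Λ → ∀ a : ℤ → ℂ, ∀ p : ℝ, 2 ≤ p →
      (∫ x in (0:ℝ)..1,
          ‖∑ j ∈ A, a j * Complex.exp (2 * (Real.pi : ℂ) * Complex.I * (j : ℂ) * (x : ℂ))‖ ^ p) ^ (1 / p)
        ≤ C * Real.sqrt p * Real.sqrt (∑ j ∈ A, ‖a j‖ ^ 2)) := by
  intro H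
  obtain ⟨n, N, v, h0, hs, hn, hn2, hv, hg⟩ := Pool.Agent.W738.Mesh.exists_seq
  have hinj := Pool.Agent.W738.Mesh.v_inj h0 hs hn hg
  obtain ⟨C, hC, h⟩ := H (Set.range v) ⟨6, by norm_num, fun r s hr hs1 k =>
    Pool.Agent.W738.Mesh.mesh_cond h0 hs hn hv hg r s hr hs1 k⟩
  exact Pool.Agent.W738.Mesh.not_subgaussian hs hn hn2 hv hinj C hC h

end Pool.Agent.S05046
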