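import Pool.Statements.S05062
import Pool.Agent.Results.MP_74ad1e_an.CommutingPairFails

set_option autoImplicit false
open MeasureTheory
open Pool Pool.MP_74ad1e_an

namespace Pool.Agent.S05062

/-- The negation of the preceding statement: Every set S of integers that is a set of 2-recurrence also works for any two commuting invertible measure-preserving maps: each positive-measure set A meets its images under T1^n and T2^n in positive measure for some nonzero n in S. -/
theorem result :
    ¬ (∀ S : Set ℤ,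
      (∀ (X : Type) [MeasurableSpace X] (μ : Measure X) [IsProbabilityMeasure μ]
          (T : X ≃ᵐ X), MeasurePreserving T μ μ →
          ∀ A : Set X, MeasurableSet A → 0 < μ A →
            ∃ n ∈ S, n ≠ 0 ∧
              0 < μ (A ∩ ⇑((T.toEquiv : Equiv.Perm X) ^ n) '' A
                      ∩ ⇑((T.toEquiv : Equiv.Perm X) ^ (2 * n)) '' A)) →
      ∀ (X : Type) [MeasurableSpace X] (μ : Measure X) [IsProbabilityMeasure μ]
        (T₁ T₂ : X ≃ᵐ X), MeasurePreserving T₁ μ μ → MeasurePreserving T₂ μ μ →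
        Commute (T₁.toEquiv : Equiv.Perm X) (T₂.toEquiv : Equiv.Perm X) →
        ∀ A : Set X, MeasurableSet A → 0 < μ A →
          ∃ n ∈ S, n ≠ 0 ∧
            0 < μ (A ∩ ⇑((T₁.toEquiv : Equiv.Perm X) ^ n) '' A
                    ∩ ⇑((T₂.toEquiv : Equiv.Perm X) ^ n) '' A)) := by
  intro h
  obtain ⟨hrec, X, i1, _, μ, i3, T₁, T₂, A, h1, h2, h3, h4, h5, h6⟩ :=
    Pool.Agent.Results.MP_74ad1e_an.CommutingPairFails.result.{0}
  obtain ⟨n, hn, hn0, hpos⟩ := h Pool.Agent.Results.MP_74ad1e_an.CommutingPairFails.digitSet (by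
    intro Y _ ν _ T hT B hB hνB
    obtain ⟨n, hn, hn0, hpos⟩ := hrec Y ν T hT B hB hνB
    refine ⟨n, hn, hn0, lt_of_lt_of_le hpos (measure_mono ?_)⟩
    intro y hy
    simp only [Set.mem_iInter, Finset.mem_range] at hy
    have y0 := hy 0 (by norm_num)
    have y1 := hy 1 (by norm_num)
    have y2 := hy 2 (by norm_num)
    unfold Pool.Agent.Results.MP_74ad1e_an.CommutingPairFails.zpw at y0 y1 y2
    simp only [Nat.cast_zero, zero_mul, zpow_zero, Equiv.Perm.coe_one, Set.image_id] at y0
    simp only [Nat.cast_one, one_mul] at y1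
    simp only [Nat.cast_ofNat] at y2
    exact ⟨⟨y0, y1⟩, y2⟩) X μ T₁ T₂ h1 h2 (by
      apply Equiv.ext
      intro x
      exact h3 x) A h4 h5
  have h7 := h6 n hn hn0
  unfold Pool.Agent.Results.MP_74ad1e_an.CommutingPairFails.zpw at h7
  exact absurd h7 hpos.ne'

end Pool.Agent.S05062
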