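import Pool.Statements.S05072
import Pool.Agent.Results.MP_75b936_an.SelfIntegrating

set_option autoImplicit false
open Pool Pool.MP_75b936_an

namespace Pool.Agent.S05072


open MeasureTheory Set Pool.Agent.Results.MP_75b936_an.SelfIntegrating

variable {ι : Type}

/-- `P` is given by a rational combination without divisions. -/
def Expr (P : MvPolynomial ι ℤ) : Prop :=
  ∃ e : RatComb ι, ∀ (g : ι → ℝ → ℝ) (x : ℝ), e.DefinedAt g x ∧
    e.value g x = MvPolynomial.aeval (fun i => g i x) P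

lemma Expr.X (i : ι) : Expr (MvPolynomial.X i : MvPolynomial ι ℤ) :=
  ⟨RatComb.gen i, fun g x => ⟨trivial, by simp [RatComb.value]⟩⟩

lemma Expr.add {P Q : MvPolynomial ι ℤ} (hP : Expr P) (hQ : Expr Q) : Expr (P + Q) := by
  obtain ⟨a, ha⟩ := hP
  obtain ⟨b, hb⟩ := hQ
  refine ⟨RatComb.add a b, fun g x => ⟨⟨(ha g x).1, (hb g x).1⟩, ?_⟩⟩
  rw [map_add, ← (ha g x).2, ← (hb g x).2]
  rfl

lemma Expr.sub {P Q : MvPolynomial ι ℤ} (hP : Expr P) (hQ : Expr Q) : Expr (P - Q) := by
  obtain ⟨a, ha⟩ := hP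
  obtain ⟨b, hb⟩ := hQ
  refine ⟨RatComb.sub a b, fun g x => ⟨⟨(ha g x).1, (hb g x).1⟩, ?_⟩⟩
  rw [map_sub, ← (ha g x).2, ← (hb g x).2]
  rfl

lemma Expr.mul {P Q : MvPolynomial ι ℤ} (hP : Expr P) (hQ : Expr Q) : Expr (P * Q) := by
  obtain ⟨a, ha⟩ := hP
  obtain ⟨b, hb⟩ := hQ
  refine ⟨RatComb.mul a b, fun g x => ⟨⟨(ha g x).1, (hb g x).1⟩, ?_⟩⟩
  rw [map_mul, ← (ha g x).2, ← (hb g x).2]
  rfl

lemma Expr.zero [h : Nonempty ι] : Expr (0 : MvPolynomial ι ℤ) := by
  obtain ⟨i⟩ := h
  have := (Expr.X i).sub (Expr.X i)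
  rwa [sub_self] at this

lemma Expr.neg [h : Nonempty ι] {P : MvPolynomial ι ℤ} (hP : Expr P) : Expr (-P) := by
  have := (Expr.zero (ι := ι)).sub hP
  rwa [zero_sub] at this

lemma Expr.C_mul [h : Nonempty ι] {P : MvPolynomial ι ℤ} (hP : Expr P) (a : ℤ) :
    Expr (MvPolynomial.C a * P) := by
  have hn : ∀ n : ℕ, Expr (MvPolynomial.C (n : ℤ) * P) := by
    intro n
    induction n with
    | zero => simpa using Expr.zero
    | succ n ih =>
      have := ih.add hP
      convert this using 1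
      push_cast
      rw [map_add, map_one]
      ring
  obtain ⟨n, rfl | rfl⟩ := a.eq_nat_or_neg
  · exact hn n
  · have := (hn n).neg
    rwa [← neg_mul, ← map_neg] at this

lemma Expr.mul_left [h : Nonempty ι] (A : MvPolynomial ι ℤ) {P : MvPolynomial ι ℤ} (hP : Expr P) :
    Expr (A * P) := by
  induction A using MvPolynomial.induction_on with
  | C a => exact hP.C_mul a
  | add p q hp hq => rw [add_mul]; exact hp.add hq
  | mul_X p i hp =>
    have : p * MvPolynomial.X i * P = MvPolynomial.X i * (p * P) := by ring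
    rw [this]
    exact (Expr.X i).mul hp

lemma Expr.of_constantCoeff [h : Nonempty ι] {P : MvPolynomial ι ℤ}
    (hP : MvPolynomial.constantCoeff P = 0) : Expr P := by
  have hmem : P ∈ Ideal.span (MvPolynomial.X '' (Set.univ : Set ι) : Set (MvPolynomial ι ℤ)) := by
    rw [MvPolynomial.mem_ideal_span_X_image]
    intro m hm
    by_contra hcon
    push Not at hcon
    have h0 : m = 0 := by
      ext i
      simpa using hcon i (Set.mem_univ i)
    rw [h0] at hm
    rw [MvPolynomial.mem_support_iff] at hm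
    exact hm hP
  refine Submodule.span_induction (p := fun x _ => Expr x) ?_ ?_ ?_ ?_ hmem
  · rintro x ⟨i, -, rfl⟩
    exact Expr.X i
  · exact Expr.zero
  · intro x y _ _ hx hy
    exact hx.add hy
  · intro a x _ hx
    exact Expr.mul_left a hx

lemma foldr_replicate' (f : Fin 3 → ℝ → ℝ) (n : ℕ) (x : ℝ) :
    (List.replicate n (1 : Fin 3) ++ [2]).foldr (fun j y => f j y) x = (f 1)^[n] (f 2 x) := by
  induction n with
  | zero => rfl
  | succ n ih =>
    rw [List.replicate_succ, List.cons_append, Function.iterate_succ_apply', ← ih]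
    rfl

/-- The negation of the preceding statement: For any continuous f_1..f_n not all zero there are a rational combination R of them, defined on an open interval I, such that no antiderivative of R on I equals on I a rational combination of superpositions of the f_i. -/
theorem result :
    ¬ (∀ n : ℕ, ∀ f : Fin n → ℝ → ℝ, (∀ i, Continuous (f i)) → (∃ i x, f i x ≠ 0) →
      ∃ (R : ℝ → ℝ) (I : Set ℝ), IsOpen I ∧ I.OrdConnected ∧ I.Nonempty ∧
        (∃ P Q : MvPolynomial (Fin n) ℤ, MvPolynomial.constantCoeff P = 0 ∧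
          ((∀ x ∈ I, R x = MvPolynomial.aeval (fun i => f i x) P) ∨
           (MvPolynomial.constantCoeff Q = 0 ∧
             ∀ x ∈ I, MvPolynomial.aeval (fun i => f i x) Q ≠ 0 ∧
               R x = MvPolynomial.aeval (fun i => f i x) P /
                 MvPolynomial.aeval (fun i => f i x) Q))) ∧
        ¬ ∃ F : ℝ → ℝ, (∀ x ∈ I, HasDerivAt F (R x) x) ∧
          ∃ P Q : MvPolynomial (Fin n × List (Fin n)) ℤ, MvPolynomial.constantCoeff P = 0 ∧
            ((∀ x ∈ I, F x =
                MvPolynomial.aeval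
                  (fun v : Fin n × List (Fin n) => f v.1 (v.2.foldr (fun j y => f j y) x)) P) ∨
             (MvPolynomial.constantCoeff Q = 0 ∧
               ∀ x ∈ I,
                 MvPolynomial.aeval
                   (fun v : Fin n × List (Fin n) => f v.1 (v.2.foldr (fun j y => f j y) x)) Q ≠ 0 ∧
                 F x =
                   MvPolynomial.aeval
                     (fun v : Fin n × List (Fin n) => f v.1 (v.2.foldr (fun j y => f j y) x)) P /
                   MvPolynomial.aeval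
                     (fun v : Fin n × List (Fin n) => f v.1 (v.2.foldr (fun j y => f j y) x)) Q))) := by
  intro H
  have : Nonempty (RatComb (Fin 3) × ℚ) := ⟨(RatComb.gen 0, 0)⟩
  obtain ⟨E, hE⟩ := exists_surjective_nat (RatComb (Fin 3) × ℚ)
  obtain ⟨δ, φ, hφc, hφ1, hδ, hφ⟩ := exists_fixed E
  set f : Fin 3 → ℝ → ℝ := ![φ, halve, squash] with hf
  have hvec : ∀ t, vec φ t = fun i => f i t := by
    intro t
    funext i
    fin_cases i
    · exact clip_of_abs (hφ1 t)
    · rfl
    · rfl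
  have hfc : ∀ i, Continuous (f i) := by
    intro i
    fin_cases i
    · exact hφc
    · exact halve_cont
    · exact squash_cont
  have hfn : ∃ i x, f i x ≠ 0 := by
    refine ⟨2, 0, ?_⟩
    show squash 0 ≠ 0
    have := (squash_mem 0).1
    linarith
  obtain ⟨R, I, hI, hconn, hne, hR, hF⟩ := H 3 f hfc hfn
  -- a rational combination for `R`
  obtain ⟨e, he⟩ : ∃ e : RatComb (Fin 3), ∀ x ∈ I, e.DefinedAt f x ∧ R x = e.value f x := by
    obtain ⟨P, Q, hP, hPQ⟩ := hR
    obtain ⟨a, ha⟩ := Expr.of_constantCoeff hP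
    rcases hPQ with h | ⟨hQ, h⟩
    · exact ⟨a, fun x hx => ⟨(ha f x).1, by rw [h x hx, (ha f x).2]⟩⟩
    · obtain ⟨b, hb⟩ := Expr.of_constantCoeff hQ
      refine ⟨RatComb.div a b, fun x hx => ⟨⟨(ha f x).1, (hb f x).1, ?_⟩, ?_⟩⟩
      · rw [(hb f x).2]
        exact (h x hx).1
      · rw [(h x hx).2, ← (ha f x).2, ← (hb f x).2]
        rfl
  apply hF
  obtain ⟨q, hq⟩ : ∃ q : ℚ, (q : ℝ) ∈ I := by
    obtain ⟨q, hq⟩ := Rat.denseRange_cast.exists_mem_open hI hne
    exact ⟨q, hq⟩
  obtain ⟨j, hj⟩ := hE (e, q)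
  have c1 := RatComb.nd_cont (vec φ) (vec_cont hφc) e
  have hdef : ∀ x ∈ I, e.DefinedAt f x := fun x hx => (he x hx).1
  have hne0 : ∀ x ∈ I, (e.nd (vec φ x)).2 ≠ 0 := by
    intro x hx
    rw [hvec]
    exact (RatComb.nd_spec f e x).1.mp (hdef x hx)
  have hsub : ∀ x ∈ I, ∀ t ∈ uIcc (q : ℝ) x, (e.nd (vec φ t)).2 ≠ 0 := by
    intro x hx t ht
    exact hne0 t (hconn.uIcc_subset hq hx ht)
  refine ⟨prim (fun t => (e.nd (vec φ t)).1) (fun t => (e.nd (vec φ t)).2) q, ?_, ?_⟩
  · intro x hx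
    have h := prim_hasDeriv c1.1 c1.2 (hsub x hx)
    rw [(he x hx).2, (RatComb.nd_spec f e x).2 (hdef x hx), ← hvec]
    exact h
  · set l : ℕ → Fin 3 × List (Fin 3) := fun k => (0, List.replicate k 1 ++ [2]) with hl
    have hval : ∀ (b : Bool) (x : ℝ),
        f (l (2 * j + b.toNat)).1 ((l (2 * j + b.toNat)).2.foldr (fun j y => f j y) x)
        = δ j * cod b e q φ x := by
      intro b x
      have e1 : f (l (2 * j + b.toNat)).1 ((l (2 * j + b.toNat)).2.foldr (fun j y => f j y) x)
          = φ (halve^[2 * j + b.toNat] (squash x)) := by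
        show f 0 ((List.replicate (2 * j + b.toNat) (1 : Fin 3) ++ [2]).foldr (fun j y => f j y) x) = _
        rw [foldr_replicate']
        rfl
      have hs := squash_mem x
      rw [e1, halve_iter _ (by linarith) hs.2.le, hφ j b x, hj]
    refine ⟨MvPolynomial.X (l (2 * j + true.toNat)), MvPolynomial.X (l (2 * j + false.toNat)),
      by simp, Or.inr ⟨by simp, ?_⟩⟩
    intro x hx
    obtain ⟨r1, r2⟩ := code_ratio (N := fun t => (e.nd (vec φ t)).1)
      (D := fun t => (e.nd (vec φ t)).2) c1.2 (hsub x hx)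
    have hδj := (hδ j).ne'
    rw [MvPolynomial.aeval_X, MvPolynomial.aeval_X, hval, hval]
    refine ⟨mul_ne_zero hδj r1, ?_⟩
    rw [mul_div_mul_left _ _ hδj]
    exact r2.symm

end Pool.Agent.S05072
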