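import Pool.Statements.S05104
-- import your own Pool.Agent.* helpers here
import Pool.Agent.W747.FT.Fun

set_option autoImplicit false
open Pool Pool.MP_791656_an

namespace Pool.Agent.S05104

/-- The negation of the preceding statement: For every bounded convex nonempty open plane set with area A, polar moment of inertia I about its centroid, and first Dirichlet eigenvalue λ (Rayleigh infimum), 9π²/2 < λA³/I ≤ 12π². -/
theorem result :
    ¬ (∀ (Ω : Set (EuclideanSpace ℝ (Fin 2))), IsOpen Ω → Convex ℝ Ω →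
      Bornology.IsBounded Ω → Ω.Nonempty →
      ∀ (A I lam : ℝ) (c : EuclideanSpace ℝ (Fin 2)),
        A = (MeasureTheory.volume Ω).toReal →
        c = A⁻¹ • ∫ x in Ω, x →
        I = ∫ x in Ω, ‖x - c‖ ^ 2 →
        lam = sInf {r : ℝ | ∃ u : EuclideanSpace ℝ (Fin 2) → ℝ,
          ContDiff ℝ 1 u ∧ HasCompactSupport u ∧ tsupport u ⊆ Ω ∧ u ≠ 0 ∧
          r = (∫ x, ‖fderiv ℝ u x‖ ^ 2) / (∫ x, u x ^ 2)} →
        9 / 2 * Real.pi ^ 2 < lam * A ^ 3 / I ∧ lam * A ^ 3 / I ≤ 12 * Real.pi ^ 2) := by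
  intro H
  set A : ℝ := (MeasureTheory.volume Pool.Agent.W747.FT.Om).toReal with hA
  set c : EuclideanSpace ℝ (Fin 2) := A⁻¹ • ∫ x in Pool.Agent.W747.FT.Om, x with hc
  have hlt := (H Pool.Agent.W747.FT.Om Pool.Agent.W747.FT.isOpen_Om Pool.Agent.W747.FT.convex_Om
    Pool.Agent.W747.FT.bounded_Om Pool.Agent.W747.FT.nonempty_Om A _ _ c hA hc rfl rfl).2
  have hA1 : A = (143/16) / √3 := by
    rw [← Pool.Agent.W747.FT.area_Om, MeasureTheory.integral_const, smul_eq_mul, mul_one, hA,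
      MeasureTheory.measureReal_def, MeasureTheory.Measure.restrict_apply_univ]
  have hs3 : (0:ℝ) < √3 := by positivity
  have hs : √3 * √3 = 3 := Real.mul_self_sqrt (by norm_num)
  have hfin : MeasureTheory.volume Pool.Agent.W747.FT.Om ≠ ⊤ :=
    Pool.Agent.W747.FT.bounded_Om.measure_lt_top.ne
  have hidint : MeasureTheory.IntegrableOn (fun x : EuclideanSpace ℝ (Fin 2) => x)
      Pool.Agent.W747.FT.Om := by
    have h1 : MeasureTheory.IntegrableOn (fun x : EuclideanSpace ℝ (Fin 2) => x)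
        (closure Pool.Agent.W747.FT.Om) :=
      continuous_id.continuousOn.integrableOn_compact
        Pool.Agent.W747.FT.bounded_Om.isCompact_closure
    exact h1.mono_set subset_closure
  have hcomp : ∀ i : Fin 2, c i = A⁻¹ * ∫ x in Pool.Agent.W747.FT.Om, x i := by
    intro i
    have h1 := (EuclideanSpace.proj (𝕜 := ℝ) i).integral_comp_comm (μ := MeasureTheory.volume.restrict
      Pool.Agent.W747.FT.Om) hidint
    have h2 : (∫ x in Pool.Agent.W747.FT.Om, x) i = ∫ x in Pool.Agent.W747.FT.Om, x i := h1.symm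
    rw [hc, ← h2]
    rfl
  have hc0 : c 0 = 157/78 := by
    rw [hcomp, Pool.Agent.W747.FT.mom0_Om, hA1]
    field_simp
    norm_num
  have hc1 : c 1 = 0 := by
    rw [hcomp, Pool.Agent.W747.FT.mom1_Om, mul_zero]
  have hI : ∫ x in Pool.Agent.W747.FT.Om, ‖x - c‖ ^ 2 = (263219/29952) / √3 := by
    rw [← Pool.Agent.W747.FT.inertia_Om]
    congr 1
    funext x
    rw [EuclideanSpace.norm_sq_eq, Fin.sum_univ_two]
    simp [hc0, hc1]
  rw [hI] at hlt
  set lam := sInf {r : ℝ | ∃ u : EuclideanSpace ℝ (Fin 2) → ℝ,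
          ContDiff ℝ 1 u ∧ HasCompactSupport u ∧ tsupport u ⊆ Pool.Agent.W747.FT.Om ∧ u ≠ 0 ∧
          r = (∫ x, ‖fderiv ℝ u x‖ ^ 2) / (∫ x, u x ^ 2)} with hlam
  have hlow : 4 * Real.pi^2 / 9 ≤ lam := by
    apply le_csInf
    · obtain ⟨x₀, hx₀⟩ := Pool.Agent.W747.FT.nonempty_Om
      obtain ⟨f, hf1, hf2, hf3, hf4, hf5⟩ := exists_contDiff_tsupport_subset (n := 1)
        (Pool.Agent.W747.FT.isOpen_Om.mem_nhds hx₀)
      refine ⟨_, f, hf3, hf2, hf1, ?_, rfl⟩
      intro h0
      rw [h0] at hf5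
      simp at hf5
    · rintro r ⟨u, hu1, hu2, hu3, hu4, rfl⟩
      have hb := Pool.Agent.W747.FT.barta (μ := 4 * Real.pi^2/9) Pool.Agent.W747.FT.contDiff_v
        Pool.Agent.W747.FT.v_pos (fun x _ => (Pool.Agent.W747.FT.lap_v x).le) hu1 hu2 hu3
      have hpos : 0 < ∫ x, u x ^ 2 := by
        have hcont : Continuous fun x => u x ^ 2 := hu1.continuous.pow 2
        have hcs : HasCompactSupport fun x => u x ^ 2 :=
          hu2.comp_left (g := fun t : ℝ => t^2) (by norm_num)
        obtain ⟨x₁, hx₁⟩ := Function.ne_iff.mp hu4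
        refine hcont.integral_pos_of_hasCompactSupport_nonneg_nonzero hcs
          (fun x => sq_nonneg _) (x := x₁) ?_
        exact pow_ne_zero 2 hx₁
      rw [le_div_iff₀ hpos]
      exact hb
  have hpi : 0 < Real.pi^2 := by positivity
  have h3 : A^3 / (263219/29952 / √3) = (143/16)^3 / 3 / (263219/29952) := by
    rw [hA1, div_pow, show √3^3 = 3 * √3 by rw [pow_succ, pow_two, hs]]
    field_simp
  have h4 : lam * A ^ 3 / (263219/29952 / √3) = lam * (A^3 / (263219/29952 / √3)) := by ring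
  rw [h4, h3] at hlt
  have h5 : (4 * Real.pi^2 / 9) * ((143/16)^3 / 3 / (263219/29952)) ≤
      lam * ((143/16)^3 / 3 / (263219/29952)) :=
    mul_le_mul_of_nonneg_right hlow (by norm_num)
  nlinarith

end Pool.Agent.S05104
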