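import Pool.Statements.S05106

set_option autoImplicit false
open Pool Pool.MP_7987d1_an

namespace Pool.Agent.S05106

open Real in
/-- The travelling wave `u(x,t) = σ(x₀/√2 + 3t/2)` with `σ` the logistic function. -/
noncomputable def wave (p : EuclideanSpace ℝ (Fin (0 + 1)) × ℝ) : ℝ :=
  Real.sigmoid ((√2)⁻¹ * p.1 0 + (3 / 2) * p.2)

/-- The first coordinate as a continuous linear map. -/
noncomputable def L : EuclideanSpace ℝ (Fin (0 + 1)) →L[ℝ] ℝ :=
  EuclideanSpace.proj (𝕜 := ℝ) (0 : Fin (0 + 1))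

lemma hasFDeriv_wave (k b : ℝ) (y : EuclideanSpace ℝ (Fin (0 + 1))) :
    HasFDerivAt (fun y : EuclideanSpace ℝ (Fin (0 + 1)) => Real.sigmoid (k * y 0 + b))
      ((Real.sigmoid (k * y 0 + b) * (1 - Real.sigmoid (k * y 0 + b)) * k) • L) y := by
  have h1 : HasFDerivAt (fun y : EuclideanSpace ℝ (Fin (0 + 1)) => k * y 0 + b) (k • L) y := by
    have := (L.hasFDerivAt (x := y)).const_mul k
    exact this.add_const b
  have h2 := (Real.hasDerivAt_sigmoid (k * y 0 + b)).comp_hasFDerivAt y h1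
  rw [smul_smul] at h2
  exact h2

lemma fderiv_wave (k b : ℝ) :
    fderiv ℝ (fun y : EuclideanSpace ℝ (Fin (0 + 1)) => Real.sigmoid (k * y 0 + b)) =
      fun y => (Real.sigmoid (k * y 0 + b) * (1 - Real.sigmoid (k * y 0 + b)) * k) • L :=
  funext fun y => (hasFDeriv_wave k b y).fderiv

lemma fderiv2_wave (k b : ℝ) (x : EuclideanSpace ℝ (Fin (0 + 1))) :
    fderiv ℝ (fderiv ℝ (fun y : EuclideanSpace ℝ (Fin (0 + 1)) => Real.sigmoid (k * y 0 + b))) x =
      ((Real.sigmoid (k * x 0 + b) * (1 - Real.sigmoid (k * x 0 + b)) *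
        (1 - 2 * Real.sigmoid (k * x 0 + b)) * k ^ 2) • L).smulRight L := by
  rw [fderiv_wave]
  have h := hasFDeriv_wave k b x
  have hd : HasDerivAt (fun z : ℝ => Real.sigmoid z * (1 - Real.sigmoid z) * k)
      (Real.sigmoid (k * x 0 + b) * (1 - Real.sigmoid (k * x 0 + b)) *
        (1 - 2 * Real.sigmoid (k * x 0 + b)) * k) (k * x 0 + b) := by
    have h0 := Real.hasDerivAt_sigmoid (k * x 0 + b)
    have h1 := (h0.mul (h0.const_sub 1)).mul_const k
    refine h1.congr_deriv ?_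
    ring
  have hl : HasFDerivAt (fun y : EuclideanSpace ℝ (Fin (0 + 1)) => k * y 0 + b) (k • L) x := by
    have := (L.hasFDerivAt (x := x)).const_mul k
    exact this.add_const b
  have h2 := (hd.comp_hasFDerivAt x hl).smul_const L
  refine HasFDerivAt.fderiv (h2.congr_fderiv ?_)
  rw [smul_smul]
  congr 2
  ring

lemma contDiff_wave : ContDiffOn ℝ 2 wave {p | p.2 < 0} := by
  apply ContDiff.contDiffOn
  have hs : ContDiff ℝ 2 Real.sigmoid := contDiff_sigmoid.of_le le_top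
  have hl : ContDiff ℝ 2 (fun p : EuclideanSpace ℝ (Fin (0 + 1)) × ℝ =>
      (√2)⁻¹ * p.1 0 + (3 / 2) * p.2) := by
    have : ContDiff ℝ 2 (fun p : EuclideanSpace ℝ (Fin (0 + 1)) × ℝ => L p.1) :=
      L.contDiff.comp contDiff_fst
    exact (contDiff_const.mul this).add (contDiff_const.mul contDiff_snd)
  exact hs.comp hl

lemma wave_admissible (x : EuclideanSpace ℝ (Fin (0 + 1))) (t : ℝ) :
    |wave (x, t)| ≤ 1 ∧
      (∑ i : Fin (0 + 1), iteratedFDeriv ℝ 2 (fun y => wave (y, t)) x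
          (fun _ => EuclideanSpace.single i (1 : ℝ)))
        - deriv (fun s => wave (x, s)) t = wave (x, t) ^ 3 - wave (x, t) ∧
      0 < fderiv ℝ (fun y => wave (y, t)) x (EuclideanSpace.single (Fin.last 0) (1 : ℝ)) ∧
      0 ≤ deriv (fun s => wave (x, s)) t := by
  have hpos : 0 < (√2 : ℝ)⁻¹ := by positivity
  have hk2 : ((√2 : ℝ)⁻¹) ^ 2 = 1 / 2 := by
    rw [inv_pow, Real.sq_sqrt (by norm_num)]; norm_num
  have hs0 := Real.sigmoid_pos ((√2)⁻¹ * x 0 + (3 / 2) * t)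
  have hs1 := Real.sigmoid_lt_one ((√2)⁻¹ * x 0 + (3 / 2) * t)
  have hs2 : 0 < 1 - Real.sigmoid ((√2)⁻¹ * x 0 + (3 / 2) * t) := by linarith
  have hslice : (fun y : EuclideanSpace ℝ (Fin (0 + 1)) => wave (y, t)) =
      fun y => Real.sigmoid ((√2)⁻¹ * y 0 + (3 / 2) * t) := rfl
  have htime : HasDerivAt (fun s => wave (x, s))
      (Real.sigmoid ((√2)⁻¹ * x 0 + (3 / 2) * t) *
        (1 - Real.sigmoid ((√2)⁻¹ * x 0 + (3 / 2) * t)) * (3 / 2)) t := by
    have h1 : HasDerivAt (fun s : ℝ => (√2)⁻¹ * x 0 + (3 / 2) * s) (3 / 2) t := by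
      have := ((hasDerivAt_id t).const_mul (3 / 2 : ℝ)).const_add ((√2)⁻¹ * x 0)
      simpa using this
    exact (Real.hasDerivAt_sigmoid ((√2)⁻¹ * x 0 + (3 / 2) * t)).comp t h1
  have hw : wave (x, t) = Real.sigmoid ((√2)⁻¹ * x 0 + (3 / 2) * t) := rfl
  refine ⟨?_, ?_, ?_, ?_⟩
  · rw [hw, abs_le]
    constructor <;> linarith
  · rw [htime.deriv, hslice, hw]
    simp only [iteratedFDeriv_two_apply]
    rw [fderiv2_wave]
    simp [L]
    ring
  · rw [hslice, fderiv_wave]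
    simp [L]
    positivity
  · rw [htime.deriv]
    positivity

theorem result :
    ¬ (∀ m : ℕ, m + 1 ≤ 8 → ∀ u : EuclideanSpace ℝ (Fin (m + 1)) × ℝ → ℝ,
    ContDiffOn ℝ 2 u {p | p.2 < 0} →
    (∀ x : EuclideanSpace ℝ (Fin (m + 1)), ∀ t : ℝ, t < 0 →
      |u (x, t)| ≤ 1 ∧
      (∑ i : Fin (m + 1), iteratedFDeriv ℝ 2 (fun y => u (y, t)) x
          (fun _ => EuclideanSpace.single i (1 : ℝ)))
        - deriv (fun s => u (x, s)) t = u (x, t) ^ 3 - u (x, t) ∧
      0 < fderiv ℝ (fun y => u (y, t)) x (EuclideanSpace.single (Fin.last m) (1 : ℝ)) ∧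
      0 ≤ deriv (fun s => u (x, s)) t) →
    ∃ ν : EuclideanSpace ℝ (Fin (m + 1)), ‖ν‖ = 1 ∧
      ∃ g : ℝ → ℝ, ∀ x : EuclideanSpace ℝ (Fin (m + 1)), ∀ t : ℝ, t < 0 →
        u (x, t) = g (inner ℝ ν x)) := by
  intro H
  obtain ⟨ν, -, g, hg⟩ := H 0 (by norm_num) wave contDiff_wave
    (fun x t _ => wave_admissible x t)
  have h1 := hg 0 (-1) (by norm_num)
  have h2 := hg 0 (-2) (by norm_num)
  have h3 : wave (0, -1) = wave (0, -2) := by rw [h1, h2]
  unfold wave at h3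
  have h4 := Real.sigmoid_injective h3
  norm_num at h4

end Pool.Agent.S05106
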