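import Pool.Statements.S05129
import Pool.Agent.Results.MP_7b81ff_an.SeparableIffUnique
import Pool.Agent.W685.OS.OSax

set_option autoImplicit false
open Pool Pool.MP_7b81ff_an

namespace Pool.Agent.S05129

open Pool.Agent.Helper685.OSep Pool.Agent.W685.OS

theorem dlt_iff {E : Type} [NormedAddCommGroup E] [NormedSpace ℂ E] [FiniteDimensional ℂ E]
    [Nontrivial E] (N M : OS E) (ε : ℝ) (hε : 0 < ε) :
    (∃ u : E ≃ₗ[ℂ] E, ∃ a b : ℝ, a * b < 1 + ε ∧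
        ∀ (k : ℕ) (x : Matrix (Fin k) (Fin k) E),
          M.norms k (x.map fun e => u e) ≤ a * N.norms k x ∧
          N.norms k (x.map fun e => u.symm e) ≤ b * M.norms k x) ↔
      dist (OSClass.mk N) (OSClass.mk M) < Real.log (1 + ε) := by
  rw [dist_mk]
  have hge := dcb_ge_one N.isOS M.isOS
  have hpos : 0 < dcb N.norms M.norms := by linarith
  rw [Real.log_lt_log_iff hpos (by linarith)]
  constructor
  · rintro ⟨u, a, b, hab, h⟩
    obtain ⟨e, he⟩ := exists_ne (0 : E)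
    have hN1 := ruan_of_isOS N.isOS
    have hM1 := ruan_of_isOS M.isOS
    have hepos : 0 < ‖e‖ := norm_pos_iff.2 he
    have ha : 0 ≤ a := by
      have h1 := (h 1 (Matrix.of fun _ _ => e)).1
      rw [hN1.one] at h1
      have h2 := hM1.nonneg 1 ((Matrix.of fun _ _ => e : Matrix (Fin 1) (Fin 1) E).map fun e => u e)
      by_contra hneg
      push Not at hneg
      nlinarith
    have hb : 0 ≤ b := by
      have h1 := (h 1 (Matrix.of fun _ _ => e)).2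
      rw [hM1.one] at h1
      have h2 := hN1.nonneg 1 ((Matrix.of fun _ _ => e : Matrix (Fin 1) (Fin 1) E).map
        fun e => u.symm e)
      by_contra hneg
      push Not at hneg
      nlinarith
    refine lt_of_le_of_lt (csInf_le (dset_bdd _ _) ?_) hab
    exact ⟨u, a, b, ⟨ha, fun n x => (h n x).1⟩, ⟨hb, fun n x => (h n x).2⟩, rfl⟩
  · intro h
    obtain ⟨r, ⟨u, A, B, h1, h2, rfl⟩, hr⟩ := exists_lt_of_csInf_lt (dset_nonempty N.isOS M.isOS) h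
    exact ⟨u, A, B, hr, fun k x => ⟨h1.2 k x, h2.2 k x⟩⟩

/-- For every finite-dimensional complex normed space, the space of its operator space structures with the cb Banach–Mazur distance is separable iff it is compact iff any two structures are completely isometric. -/
theorem result :
  ∀ (E : Type) [NormedAddCommGroup E] [NormedSpace ℂ E] [FiniteDimensional ℂ E]
    (IsOS : (∀ k : ℕ, Matrix (Fin k) (Fin k) E → ℝ) → Prop)
    (Dlt : (∀ k : ℕ, Matrix (Fin k) (Fin k) E → ℝ) →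
      (∀ k : ℕ, Matrix (Fin k) (Fin k) E → ℝ) → ℝ → Prop),
    (∀ N, IsOS N ↔
      ((∀ x : E, N 1 (Matrix.of fun _ _ => x) = ‖x‖) ∧
       (∀ (k : ℕ) (x y : Matrix (Fin k) (Fin k) E), N k (x + y) ≤ N k x + N k y) ∧
       (∀ (k : ℕ) (c : ℂ) (x : Matrix (Fin k) (Fin k) E), N k (c • x) = ‖c‖ * N k x) ∧
       (∀ (k m : ℕ) (x : Matrix (Fin k) (Fin k) E) (y : Matrix (Fin m) (Fin m) E),
          N (k + m) (Matrix.reindex finSumFinEquiv finSumFinEquiv (Matrix.fromBlocks x 0 0 y))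
            = max (N k x) (N m y)) ∧
       (∀ (k m : ℕ) (α : Matrix (Fin k) (Fin m) ℂ) (β : Matrix (Fin m) (Fin k) ℂ)
          (x : Matrix (Fin m) (Fin m) E) (a b : ℝ), 0 ≤ a → 0 ≤ b →
          (∀ v : Fin m → ℂ, ∑ i, ‖∑ p, α i p * v p‖ ^ 2 ≤ a ^ 2 * ∑ p, ‖v p‖ ^ 2) →
          (∀ v : Fin k → ℂ, ∑ q, ‖∑ j, β q j * v j‖ ^ 2 ≤ b ^ 2 * ∑ j, ‖v j‖ ^ 2) →
          N k (Matrix.of fun i j => ∑ p, ∑ q, (α i p * β q j) • x p q) ≤ a * N m x * b))) →
    (∀ N N' t, Dlt N N' t ↔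
      ∃ u : E ≃ₗ[ℂ] E, ∃ a b : ℝ, a * b < t ∧
        ∀ (k : ℕ) (x : Matrix (Fin k) (Fin k) E),
          N' k (x.map fun e => u e) ≤ a * N k x ∧
          N k (x.map fun e => u.symm e) ≤ b * N' k x) →
    (((∃ D : ℕ → (∀ k : ℕ, Matrix (Fin k) (Fin k) E → ℝ), (∀ i, IsOS (D i)) ∧
          ∀ N, IsOS N → ∀ ε : ℝ, 0 < ε → ∃ i, Dlt N (D i) (1 + ε)) ↔
        (∀ S : ℕ → (∀ k : ℕ, Matrix (Fin k) (Fin k) E → ℝ), (∀ j, IsOS (S j)) →
          ∃ N, IsOS N ∧ ∃ φ : ℕ → ℕ, StrictMono φ ∧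
            ∀ ε : ℝ, 0 < ε → ∃ J : ℕ, ∀ j, J ≤ j → Dlt (S (φ j)) N (1 + ε))) ∧
     ((∀ S : ℕ → (∀ k : ℕ, Matrix (Fin k) (Fin k) E → ℝ), (∀ j, IsOS (S j)) →
          ∃ N, IsOS N ∧ ∃ φ : ℕ → ℕ, StrictMono φ ∧
            ∀ ε : ℝ, 0 < ε → ∃ J : ℕ, ∀ j, J ≤ j → Dlt (S (φ j)) N (1 + ε)) ↔
        (∀ N N', IsOS N → IsOS N' → ∀ ε : ℝ, 0 < ε → Dlt N N' (1 + ε)))) := by
  intro E _ _ _ IsOS Dlt hIs hD
  -- the two descriptions of the operator space structures agree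
  have hOS : ∀ N, IsOS N ↔ IsOSStructure E N := by
    intro N
    rw [hIs, ← ruan_iff]
    constructor
    · rintro ⟨h1, h2, h3, h4, h5⟩
      exact ⟨h1, h2, h3, h4, h5⟩
    · intro h
      exact ⟨h.one, h.add, h.smul, h.block, h.bim⟩
  obtain ⟨N₀⟩ := Pool.Agent.Results.MP_7b81ff_an.SeparableIffUnique.nonempty_OS E
  -- (iii) implies (ii) and (i)
  have h32 : (∀ N N', IsOS N → IsOS N' → ∀ ε : ℝ, 0 < ε → Dlt N N' (1 + ε)) →
      (∀ S : ℕ → (∀ k : ℕ, Matrix (Fin k) (Fin k) E → ℝ), (∀ j, IsOS (S j)) →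
          ∃ N, IsOS N ∧ ∃ φ : ℕ → ℕ, StrictMono φ ∧
            ∀ ε : ℝ, 0 < ε → ∃ J : ℕ, ∀ j, J ≤ j → Dlt (S (φ j)) N (1 + ε)) := by
    intro h S hS
    exact ⟨S 0, hS 0, id, strictMono_id, fun ε hε => ⟨0, fun j _ => h _ _ (hS _) (hS _) ε hε⟩⟩
  have h31 : (∀ N N', IsOS N → IsOS N' → ∀ ε : ℝ, 0 < ε → Dlt N N' (1 + ε)) →
      (∃ D : ℕ → (∀ k : ℕ, Matrix (Fin k) (Fin k) E → ℝ), (∀ i, IsOS (D i)) ∧
          ∀ N, IsOS N → ∀ ε : ℝ, 0 < ε → ∃ i, Dlt N (D i) (1 + ε)) := by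
    intro h
    exact ⟨fun _ => N₀.norms, fun _ => (hOS _).2 N₀.isOS,
      fun N hN ε hε => ⟨0, h _ _ hN ((hOS _).2 N₀.isOS) ε hε⟩⟩
  -- a single point gives (iii)
  have hpt : (∃ p : OSClass E, ∀ q : OSClass E, q = p) →
      (∀ N N', IsOS N → IsOS N' → ∀ ε : ℝ, 0 < ε → Dlt N N' (1 + ε)) := by
    rintro ⟨p, hp⟩ N N' hN hN' ε hε
    have h1 : OSClass.mk ⟨N, (hOS N).1 hN⟩ = OSClass.mk ⟨N', (hOS N').1 hN'⟩ :=
      (hp _).trans (hp _).symm
    have h2 : CompletelyIsometric N N' := Quotient.exact (s := ciSetoid E) h1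
    obtain ⟨u, hu⟩ := h2
    rw [hD]
    refine ⟨u, 1, 1, by linarith, fun k x => ⟨?_, ?_⟩⟩
    · rw [one_mul]
      exact (hu k x).le
    · rw [one_mul]
      have e := hu k (x.map u.symm)
      have e2 : (x.map u.symm).map u = x := by
        ext1 i j
        exact u.apply_symm_apply (x i j)
      rw [e2] at e
      exact e.symm.le
  have htfae := Pool.Agent.Results.MP_7b81ff_an.SeparableIffUnique.result E
  rcases subsingleton_or_nontrivial E with hE | hE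
  · have h3 : ∀ N N', IsOS N → IsOS N' → ∀ ε : ℝ, 0 < ε → Dlt N N' (1 + ε) := by
      apply hpt
      refine ⟨OSClass.mk N₀, fun q => ?_⟩
      obtain ⟨M, rfl⟩ : ∃ M : OS E, OSClass.mk M = q := Quotient.exists_rep (s := ciSetoid E) q
      refine Quotient.sound (s := ciSetoid E) ?_
      refine ⟨LinearEquiv.refl ℂ E, fun n x => ?_⟩
      have h1 : x = 0 := by ext1 i j; exact Subsingleton.elim _ _
      have h2 : x.map (LinearEquiv.refl ℂ E) = 0 := by ext1 i j; exact Subsingleton.elim _ _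
      rw [h2, h1, str_zero M.isOS, str_zero N₀.isOS]
    exact ⟨⟨fun _ => h32 h3, fun _ => h31 h3⟩, ⟨fun _ => h3, fun _ => h32 h3⟩⟩
  · -- `Dlt` and the metric
    have hDl : ∀ (N M : OS E) (ε : ℝ), 0 < ε → (Dlt N.norms M.norms (1 + ε) ↔
        dist (OSClass.mk N) (OSClass.mk M) < Real.log (1 + ε)) := by
      intro N M ε hε
      rw [hD]
      exact dlt_iff N M ε hε
    have hlog : ∀ r : ℝ, 0 < r → ∃ ε : ℝ, 0 < ε ∧ Real.log (1 + ε) = r := by
      intro r hr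
      refine ⟨Real.exp r - 1, ?_, ?_⟩
      · have := Real.add_one_lt_exp hr.ne'
        linarith
      · rw [add_sub_cancel, Real.log_exp]
    have h13 : (∃ D : ℕ → (∀ k : ℕ, Matrix (Fin k) (Fin k) E → ℝ), (∀ i, IsOS (D i)) ∧
          ∀ N, IsOS N → ∀ ε : ℝ, 0 < ε → ∃ i, Dlt N (D i) (1 + ε)) →
        (∀ N N', IsOS N → IsOS N' → ∀ ε : ℝ, 0 < ε → Dlt N N' (1 + ε)) := by
      rintro ⟨D, hD1, hD2⟩
      apply hpt
      refine (htfae.out 0 2).1 ?_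
      set s : Set (OSClass E) := Set.range fun i => OSClass.mk ⟨D i, (hOS _).1 (hD1 i)⟩ with hs
      refine ⟨⟨s, Set.countable_range _, ?_⟩⟩
      rw [Metric.dense_iff]
      intro q r hr
      obtain ⟨M, rfl⟩ : ∃ M : OS E, OSClass.mk M = q := Quotient.exists_rep (s := ciSetoid E) q
      obtain ⟨ε, hε, hεr⟩ := hlog r hr
      obtain ⟨i, hi⟩ := hD2 M.norms ((hOS _).2 M.isOS) ε hε
      rw [hDl M ⟨D i, (hOS _).1 (hD1 i)⟩ ε hε, hεr] at hi
      exact ⟨_, by rwa [Metric.mem_ball, dist_comm], ⟨i, rfl⟩⟩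
    have h23 : (∀ S : ℕ → (∀ k : ℕ, Matrix (Fin k) (Fin k) E → ℝ), (∀ j, IsOS (S j)) →
          ∃ N, IsOS N ∧ ∃ φ : ℕ → ℕ, StrictMono φ ∧
            ∀ ε : ℝ, 0 < ε → ∃ J : ℕ, ∀ j, J ≤ j → Dlt (S (φ j)) N (1 + ε)) →
        (∀ N N', IsOS N → IsOS N' → ∀ ε : ℝ, 0 < ε → Dlt N N' (1 + ε)) := by
      intro h
      apply hpt
      refine (htfae.out 1 2).1 ?_
      have hseq : IsSeqCompact (Set.univ : Set (OSClass E)) := by
        intro x _
        have hx : ∀ n, ∃ M : OS E, OSClass.mk M = x n := fun n =>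
          Quotient.exists_rep (s := ciSetoid E) (x n)
        choose M hM using hx
        obtain ⟨N, hN, φ, hφ, hlim⟩ := h (fun n => (M n).norms) (fun n => (hOS _).2 (M n).isOS)
        refine ⟨OSClass.mk ⟨N, (hOS N).1 hN⟩, trivial, φ, hφ, ?_⟩
        rw [Metric.tendsto_atTop]
        intro r hr
        obtain ⟨ε, hε, hεr⟩ := hlog r hr
        obtain ⟨J, hJ⟩ := hlim ε hε
        refine ⟨J, fun j hj => ?_⟩
        have h1 := (hDl (M (φ j)) ⟨N, (hOS N).1 hN⟩ ε hε).1 (hJ j hj)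
        rw [hεr, hM] at h1
        exact h1
      exact ⟨hseq.isCompact⟩
    exact ⟨⟨fun h => h32 (h13 h), fun h => h31 (h23 h)⟩, ⟨h23, h32⟩⟩

end Pool.Agent.S05129
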