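import Pool.Statements.S05140
import Pool.Agent.W685.RT.Final
import Pool.Agent.W685.RT.Exist

set_option autoImplicit false
open Pool Pool.MP_7c4fde_an

namespace Pool.Agent.S05140

/-- The negation of the preceding statement: On every infinite-dimensional separable complex Banach space, every bounded operator with spectrum {0} has a rank-exactly-one bounded perturbation F such that T + F also has spectrum {0}. -/
theorem result :
    ¬ (∀ (X : Type) [NormedAddCommGroup X] [NormedSpace ℂ X] [CompleteSpace X]
      [TopologicalSpace.SeparableSpace X],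
      ¬ FiniteDimensional ℂ X →
      ∀ T : X →L[ℂ] X, spectrum ℂ T = {0} →
        ∃ F : X →L[ℂ] X,
          Module.finrank ℂ (LinearMap.range (F : X →ₗ[ℂ] X)) = 1 ∧
          spectrum ℂ (T + F) = {0}) := by
  intro h
  obtain ⟨R⟩ := Pool.Agent.W685.RT.exists_par
  obtain ⟨h1, h2⟩ := Pool.Agent.W685.RT.final R
  obtain ⟨F, h3, h4⟩ := h Pool.Agent.W685.RT.L1 Pool.Agent.W685.RT.not_finiteDimensional_L1 R.T h1
  exact h2 F h3 h4

end Pool.Agent.S05140
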