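import Pool.Statements.S05156
-- import your own Pool.Agent.* helpers here

set_option autoImplicit false
open Pool Pool.MP_7d5b5f_an

namespace Pool.Agent.S05156

/-- The negation of the preceding statement: For each p>1 there is C, independent of dimension d and coordinate k, so the discrete Riesz transform with kernel Γ((d+1)/2)π^{-(d+1)/2} x_k/∣x∣^{d+1} on ℤ^d is bounded on ℓ^p with norm at most C (tested on finitely supported f). -/
theorem result :
    ¬ (∀ p : ℝ, 1 < p → ∃ C : ℝ, 0 < C ∧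
      ∀ (d : ℕ) (k : Fin d) (S T : Finset (Fin d → ℤ)) (f : (Fin d → ℤ) → ℝ),
        ∑ n ∈ T, |∑ m ∈ S,
            ((Real.Gamma (((d : ℝ) + 1) / 2) / Real.pi ^ (((d : ℝ) + 1) / 2)) *
              (((n k - m k : ℤ) : ℝ) /
                (Real.sqrt (∑ i, (((n i - m i : ℤ) : ℝ)) ^ 2)) ^ (d + 1))) * f m| ^ p
          ≤ C ^ p * ∑ m ∈ S, |f m| ^ p) := by
  intro h
  obtain ⟨C, hC, h⟩ := h 2 (by norm_num)
  -- choose `N` with `π ^ N / N! < 1 / (C * π)`
  have hpi : (0 : ℝ) < Real.pi := Real.pi_pos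
  have ht := FloorSemiring.tendsto_pow_div_factorial_atTop Real.pi
  have hpos : (0 : ℝ) < 1 / (C * Real.pi) := by positivity
  obtain ⟨N, hN⟩ := (ht.eventually (gt_mem_nhds hpos)).exists
  have hfac : (0 : ℝ) < (N.factorial : ℝ) := by exact_mod_cast N.factorial_pos
  have h1 : C * Real.pi ^ (N + 1) < (N.factorial : ℝ) := by
    rw [div_lt_div_iff₀ hfac (by positivity)] at hN
    rw [pow_succ]
    linarith
  -- the value of the kernel at the unit vector
  have hcast : (((2 * N + 1 : ℕ) : ℝ) + 1) / 2 = (N : ℝ) + 1 := by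
    push_cast; ring
  have hk := h (2 * N + 1) ⟨0, by omega⟩ {0} {Pi.single ⟨0, by omega⟩ 1} (fun _ => 1)
  simp only [Finset.sum_singleton, hcast, Pi.zero_apply, sub_zero, abs_one, Real.one_rpow,
    mul_one, Pi.single_eq_same, Int.cast_one] at hk
  have hs : (∑ i, (((Pi.single (⟨0, by omega⟩ : Fin (2 * N + 1)) (1 : ℤ) :
      Fin (2 * N + 1) → ℤ) i : ℤ) : ℝ) ^ 2) = 1 := by
    rw [Finset.sum_eq_single (⟨0, by omega⟩ : Fin (2 * N + 1))]
    · simp
    · intro b _ hb
      rw [Pi.single_eq_of_ne hb]; simp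
    · intro hb; exact absurd (Finset.mem_univ _) hb
  rw [hs, Real.sqrt_one, one_pow, div_one, mul_one, Real.Gamma_nat_eq_factorial] at hk
  have h2 : (Real.pi : ℝ) ^ ((N : ℝ) + 1) = Real.pi ^ (N + 1) := by
    rw [← Real.rpow_natCast]; push_cast; rfl
  rw [h2] at hk
  have hq : 0 < (N.factorial : ℝ) / Real.pi ^ (N + 1) := by positivity
  have h3 : C < (N.factorial : ℝ) / Real.pi ^ (N + 1) := by
    rw [lt_div_iff₀ (by positivity)]; exact h1
  have h4 := Real.rpow_lt_rpow hC.le h3 (by norm_num : (0 : ℝ) < 2)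
  rw [abs_of_pos hq] at hk
  exact absurd h4 (not_lt.2 hk)

end Pool.Agent.S05156
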