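import Pool.Statements.S05168
import Pool.Agent.W784.HS.F

/-!
A hollow solid with constant potential in its cavity that is not a pair of homothetic ellipsoids.

The outer domain `U` is the union of two unit balls whose centres have distance `1/50`. Among the
densities between zero and the indicator function of `U` we minimise the Coulomb energy minus a
multiple of the mass; the maximum principle and the method of moving planes show that the minimiser
is the indicator function of `U` minus a strictly star-shaped compact set, on which its potential is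
constant. The boundary of `U` contains three points of a line, so it is not an ellipsoid.
-/

set_option autoImplicit false
open MeasureTheory
open Pool Pool.MP_7dd24e_an

namespace Pool.Agent.S05168

/-- The negation of the preceding statement: If two nested topological spheres in R^3 bound a shell whose Newtonian potential is constant in the inner cavity, then the two surfaces are the images of concentric spheres of radii 1 and k<1 under one invertible affine map. -/
theorem result :
    ¬ (∀ (S S₁ U T₁ : Set (EuclideanSpace ℝ (Fin 3))),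
    Nonempty (S ≃ₜ Metric.sphere (0 : EuclideanSpace ℝ (Fin 3)) 1) →
    Nonempty (S₁ ≃ₜ Metric.sphere (0 : EuclideanSpace ℝ (Fin 3)) 1) →
    IsOpen U → IsConnected U → Bornology.IsBounded U → frontier U = S →
    IsOpen T₁ → IsConnected T₁ → Bornology.IsBounded T₁ → frontier T₁ = S₁ →
    closure T₁ ⊆ U →
    (∃ c : ℝ, ∀ P ∈ T₁, ∫ M in U \ closure T₁, (dist P M)⁻¹ = c) →
    ∃ (f : EuclideanSpace ℝ (Fin 3) ≃ᵃ[ℝ] EuclideanSpace ℝ (Fin 3)) (k : ℝ),
      0 < k ∧ k < 1 ∧
      S = f '' Metric.sphere (0 : EuclideanSpace ℝ (Fin 3)) 1 ∧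
      S₁ = f '' Metric.sphere (0 : EuclideanSpace ℝ (Fin 3)) k) := by
  intro H
  obtain ⟨U, T₁, h1, h2, h3, h4, h5, h6, h7, h8, h9, h10, A, B, C, hA, hB, hC, hne, hmid⟩ :=
    Pool.Agent.W784.HS.main
  obtain ⟨f, k, -, -, hS, -⟩ := H (frontier U) (frontier T₁) U T₁ h1 h2 h3 h4 h5 rfl h6 h7 h8 rfl h9 h10
  rw [hS] at hA hB hC
  obtain ⟨a, ha, rfl⟩ := hA
  obtain ⟨b, hb, rfl⟩ := hB
  obtain ⟨c, hc, rfl⟩ := hC
  rw [mem_sphere_zero_iff_norm] at ha hb hc
  have hm : f b = f ((1/2 : ℝ) • (a + c)) := by
    rw [hmid]
    have e1 : (1/2 : ℝ) • (a + c) = AffineMap.lineMap a c (1/2 : ℝ) := by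
      rw [AffineMap.lineMap_apply_module]
      module
    have e2 : (1/2 : ℝ) • (f a + f c) = AffineMap.lineMap (f a) (f c) (1/2 : ℝ) := by
      rw [AffineMap.lineMap_apply_module]
      module
    rw [e1, e2]
    exact (AffineEquiv.apply_lineMap f a c (1/2 : ℝ)).symm
  have hb2 := f.injective hm
  have hp := parallelogram_law_with_norm ℝ a c
  rw [hb2, norm_smul] at hb
  have h12 : ‖(1/2 : ℝ)‖ = 1/2 := by norm_num
  rw [h12] at hb
  have h13 : ‖a + c‖ = 2 := by linarith
  rw [ha, hc, h13] at hp
  have h14 : ‖a - c‖ = 0 := by nlinarith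
  exact hne (by rw [sub_eq_zero.1 (norm_eq_zero.1 h14)])

end Pool.Agent.S05168
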