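import Pool.Statements.S05183
import Pool.Agent.W278.FiveFour

set_option autoImplicit false
open Matrix
open Pool Pool.MP_7e554c_an

namespace Pool.Agent.S05183

/-- For every complex square matrix A and polynomial p with ∣p∣ at most 1 on the numerical range of A, every point of the numerical range of p(A) has modulus at most 5/4. -/
theorem result :
    ∀ (n : ℕ) (A : Matrix (Fin n) (Fin n) ℂ) (p : Polynomial ℂ),
      (∀ x : Fin n → ℂ, dotProduct (star x) x = 1 →
        ‖p.eval (dotProduct (star x) (Matrix.mulVec A x))‖ ≤ 1) →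
      ∀ x : Fin n → ℂ, dotProduct (star x) x = 1 →
        ‖dotProduct (star x) (Matrix.mulVec (Polynomial.aeval A p) x)‖ ≤ (5 : ℝ) / 4 := by
  intro n A p hA x hx
  rcases Nat.eq_zero_or_pos n with h0 | hn
  · subst h0
    simp [dotProduct] at hx
  haveI : NeZero n := ⟨hn.ne'⟩
  haveI : Nontrivial (EuclideanSpace ℂ (Fin n)) := by
    infer_instance
  set φ := Matrix.toEuclideanCLM (n := Fin n) (𝕜 := ℂ) with hφ
  have hmat : φ (Polynomial.aeval A p) = Polynomial.aeval (φ A) p :=
    (Polynomial.aeval_algHom_apply (φ.toAlgEquiv.toAlgHom) A p).symm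
  have hin : ∀ (B : Matrix (Fin n) (Fin n) ℂ) (v : Fin n → ℂ),
      inner ℂ (WithLp.toLp 2 v : EuclideanSpace ℂ (Fin n)) (φ B (WithLp.toLp 2 v)) =
        dotProduct (star v) (Matrix.mulVec B v) := by
    intro B v
    rw [EuclideanSpace.inner_eq_star_dotProduct, dotProduct_comm]
    rfl
  have hno : ∀ v : Fin n → ℂ, ‖(WithLp.toLp 2 v : EuclideanSpace ℂ (Fin n))‖ = 1 ↔
      dotProduct (star v) v = 1 := by
    intro v
    have h1 : inner ℂ (WithLp.toLp 2 v : EuclideanSpace ℂ (Fin n)) (WithLp.toLp 2 v) =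
        dotProduct (star v) v := by
      rw [EuclideanSpace.inner_eq_star_dotProduct, dotProduct_comm]
    rw [← h1, inner_self_eq_norm_sq_to_K]
    constructor
    · intro h; rw [h]; simp
    · intro h
      have h2 : ‖(WithLp.toLp 2 v : EuclideanSpace ℂ (Fin n))‖ ^ 2 = 1 := by
        have h3 : ((‖(WithLp.toLp 2 v : EuclideanSpace ℂ (Fin n))‖ ^ 2 : ℝ) : ℂ) = ((1 : ℝ) : ℂ) := by
          rw [Complex.ofReal_one, ← h]; push_cast; rfl
        exact Complex.ofReal_injective h3
      exact (pow_eq_one_iff_of_nonneg (norm_nonneg _) two_ne_zero).mp h2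
  have hp : ∀ w ∈ Pool.Agent.W753.CZ.numRange (φ A), ‖p.eval w‖ ≤ 1 := by
    rintro w ⟨y, hy, rfl⟩
    have h1 := hA (WithLp.ofLp y) ((hno _).mp (by simpa using hy))
    rw [← hin A (WithLp.ofLp y)] at h1
    simpa using h1
  have h := Pool.Agent.W278.FiveFour.five_four (φ A) p hp (WithLp.toLp 2 x) ((hno x).mpr hx)
  rw [← hmat, hin] at h
  exact h

end Pool.Agent.S05183
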