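import Pool.Statements.S05226
import Pool.Agent.H707F.LF.Wrap
import Pool.Agent.W665.IndLift

set_option autoImplicit false
open scoped InnerProductSpace
open Pool Pool.MP_81d1ca_an Pool.Agent.Helper278

namespace Pool.Agent.S05226

/-- The negation of the preceding statement: For every tracial von Neumann algebra (N,τ) and non-principal ultrafilter U, any unitaries u,v of N^U that are independent for the ultrapower trace have unitary lifts (uₙ),(vₙ) with uₙ,vₙ independent in N for every n. -/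
theorem result :
    ¬ (∀ (H : Type) [NormedAddCommGroup H] [InnerProductSpace ℂ H] [CompleteSpace H]
    (N : VonNeumannAlgebra H) (τ : (H →L[ℂ] H) → ℂ),
    (∃ ξ : ℕ → H, Summable (fun i => ‖ξ i‖ ^ 2) ∧
        ∀ x ∈ N, HasSum (fun i => ⟪ξ i, x (ξ i)⟫_ℂ) (τ x)) →
    τ 1 = 1 →
    (∀ x ∈ N, ∀ y ∈ N, τ (x * y) = τ (y * x)) →
    (∀ x ∈ N, τ (star x * x) = 0 → x = 0) →
    ∀ (U : Ultrafilter ℕ), (U : Filter ℕ) ≤ Filter.cofinite →
    ∀ (u v : ℕ → unitary (H →L[ℂ] H)),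
      (∀ n, (u n : H →L[ℂ] H) ∈ N ∧ (v n : H →L[ℂ] H) ∈ N) →
      (∀ k l : ℤ, Filter.Tendsto
          (fun n => τ (((u n ^ k : unitary (H →L[ℂ] H)) : H →L[ℂ] H) *
                        ((v n ^ l : unitary (H →L[ℂ] H)) : H →L[ℂ] H)) -
                    τ ((u n ^ k : unitary (H →L[ℂ] H)) : H →L[ℂ] H) *
                    τ ((v n ^ l : unitary (H →L[ℂ] H)) : H →L[ℂ] H))
          (U : Filter ℕ) (nhds 0)) →
      ∃ u' v' : ℕ → unitary (H →L[ℂ] H),
        (∀ n, (u' n : H →L[ℂ] H) ∈ N ∧ (v' n : H →L[ℂ] H) ∈ N) ∧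
        Filter.Tendsto
          (fun n => τ (star ((u' n : H →L[ℂ] H) - (u n : H →L[ℂ] H)) *
                        ((u' n : H →L[ℂ] H) - (u n : H →L[ℂ] H))))
          (U : Filter ℕ) (nhds 0) ∧
        Filter.Tendsto
          (fun n => τ (star ((v' n : H →L[ℂ] H) - (v n : H →L[ℂ] H)) *
                        ((v' n : H →L[ℂ] H) - (v n : H →L[ℂ] H))))
          (U : Filter ℕ) (nhds 0) ∧
        ∀ n (k l : ℤ),
          τ (((u' n ^ k : unitary (H →L[ℂ] H)) : H →L[ℂ] H) *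
             ((v' n ^ l : unitary (H →L[ℂ] H)) : H →L[ℂ] H)) =
          τ ((u' n ^ k : unitary (H →L[ℂ] H)) : H →L[ℂ] H) *
          τ ((v' n ^ l : unitary (H →L[ℂ] H)) : H →L[ℂ] H)) := by
  intro hall
  obtain ⟨K, i1, i2, i3, N, τ₀, ⟨h1, h2⟩, -, hnot⟩ := Pool.Agent.H707F.LF.fails
  refine hnot ?_
  have h1' := h1
  obtain ⟨ξ, hξ, hT⟩ := h1'
  have hS := fun x : K →L[ℂ] K => summable_inner ξ ξ hξ hξ x
  exact Pool.Agent.W665.lifts_of_seq (mkState N τ₀ h1 h2) ξ hT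
    (hall K N (Pool.Agent.W665.extT ξ) ⟨ξ, hξ, fun x _ => (hS x).hasSum⟩
      (Pool.Agent.W665.extT_one (mkState N τ₀ h1 h2) ξ hT)
      (Pool.Agent.W665.extT_tracial (mkState N τ₀ h1 h2) ξ hT)
      (Pool.Agent.W665.extT_faithful (mkState N τ₀ h1 h2) ξ hT))

end Pool.Agent.S05226
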