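import Pool.Statements.S05228
import Pool.Agent.H345R3.HomP

set_option autoImplicit false
open Pool Pool.MP_8222c7_an

namespace Pool.Agent.S05228

/-- The negation of the preceding statement: Every non-radical commutative amenable complex Banach algebra A has this property: two continuous homomorphisms from A into a commutative Banach algebra whose difference takes only quasinilpotent (radical) values are equal. -/
theorem result :
    ¬ (∀ (A : Type) [NonUnitalNormedCommRing A] [NormedSpace ℂ A] [IsScalarTower ℂ A A]
      [SMulCommClass ℂ A A] [CompleteSpace A],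
      (∃ a : A, ¬ quasispectrum ℂ a ⊆ {0}) →
      (∀ (E : Type) [NormedAddCommGroup E] [NormedSpace ℂ E] [CompleteSpace E]
        (l r : A →L[ℂ] (E →L[ℂ] E)),
        (∀ a b : A, l (a * b) = (l a).comp (l b)) →
        (∀ a b : A, r (a * b) = (r b).comp (r a)) →
        (∀ a b : A, (l a).comp (r b) = (r b).comp (l a)) →
        ∀ D : A →L[ℂ] (E →L[ℂ] ℂ),
          (∀ (a b : A) (x : E), D (a * b) x = D b (r a x) + D a (l b x)) →
          ∃ f : E →L[ℂ] ℂ, ∀ (a : A) (x : E), D a x = f (r a x) - f (l a x)) →
      ∀ (B : Type) [NonUnitalNormedCommRing B] [NormedSpace ℂ B] [IsScalarTower ℂ B B]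
        [SMulCommClass ℂ B B] [CompleteSpace B]
        (φ ψ : A →ₙₐ[ℂ] B), Continuous φ → Continuous ψ →
        (∀ a : A, quasispectrum ℂ (φ a - ψ a) ⊆ {0}) → φ = ψ) := by
  intro h
  obtain ⟨A, iA, iA2, hA, -, -, hAm, B, iB, iB2, hB, -, φ, ψ, hφ, hψ, hsurj, -, hrad, hne⟩ :=
    Pool.Agent.H345R3.HomP.main
  have hBn : Nontrivial B := by
    by_contra hcon
    rw [not_nontrivial_iff_subsingleton] at hcon
    apply hne
    ext a
    exact Subsingleton.elim _ _
  have hAn : Nontrivial A := by
    by_contra hcon
    rw [not_nontrivial_iff_subsingleton] at hcon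
    exact not_subsingleton B (hsurj.subsingleton)
  rw [H611R3.ZL.amenable_iff] at hAm
  have key := h A ?_ ?_ B φ.toNonUnitalAlgHom ψ.toNonUnitalAlgHom hφ hψ ?_
  · apply hne
    ext a
    exact DFunLike.congr_fun key a
  · refine ⟨1, ?_⟩
    intro hs
    have h1 : (1 : ℂ) ∈ quasispectrum ℂ (1 : A) := by
      rw [quasispectrum_eq_spectrum_union_zero]
      left
      rw [spectrum.one_eq]
      rfl
    have := hs h1
    simp at this
  · intro E _ _ _ l r hl hr hlr D hD
    exact hAm E inferInstance inferInstance inferInstance l r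
      (fun a b x => by rw [hl]; rfl) (fun a b x => by rw [hr]; rfl)
      (fun a b x => by
        have := DFunLike.congr_fun (hlr a b) x
        exact this) D hD
  · intro a z hz
    rw [quasispectrum_eq_spectrum_union_zero] at hz
    rcases hz with hz | hz
    · by_contra hz0
      have hz1 : z ≠ 0 := hz0
      have hm := hrad a
      rw [Ideal.mem_jacobson_bot] at hm
      apply hz
      have h2 := hm (algebraMap ℂ B (-z⁻¹))
      have h3 : algebraMap ℂ B z - (φ a - ψ a)
          = algebraMap ℂ B z * ((φ a - ψ a) * algebraMap ℂ B (-z⁻¹) + 1) := by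
        have h4 : algebraMap ℂ B z * algebraMap ℂ B (-z⁻¹) = -1 := by
          rw [← map_mul, mul_neg, mul_inv_cancel₀ hz1, map_neg, map_one]
        linear_combination (-(φ a - ψ a)) * h4
      change IsUnit (algebraMap ℂ B z - (φ a - ψ a))
      rw [h3]
      exact (((isUnit_iff_ne_zero.2 hz1).map (algebraMap ℂ B))).mul h2
    · exact hz

end Pool.Agent.S05228
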