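import Pool.Statements.S05242
-- import your own Pool.Agent.* helpers here

set_option autoImplicit false
open Pool Pool.MP_830bfa_an

namespace Pool.Agent.S05242

open Matrix

/-- The auxiliary coordinate. -/
def pp (v : Fin 6 → ℝ) : ℝ := v 1 - 3 * v 0 * v 3

/-- The polynomial map of six-space. -/
def phi (v : Fin 6 → ℝ) : Fin 6 → ℝ :=
  ![v 0 - 3 * v 0 ^ 2 * pp v - v 0 ^ 3 * v 3,
    v 1 + 24 * v 0 * pp v ^ 2 + 12 * v 0 ^ 2 * pp v * v 3 - v 2,
    v 2 + 36 * v 0 ^ 2 * pp v ^ 3 + 12 * v 0 ^ 3 * pp v ^ 2 * v 3,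
    v 3 + 6 * v 0 * pp v * v 3 + 8 * pp v ^ 2 - v 4,
    v 4 + 12 * v 0 ^ 2 * pp v ^ 2 * v 3 + 28 * v 0 * pp v ^ 3 - v 5,
    v 5 + 8 * v 0 ^ 3 * pp v ^ 3 * v 3 + 24 * v 0 ^ 2 * pp v ^ 4]

/-- Its Jacobian matrix, in terms of `x = v 0`, `p = pp v`, `z = v 3`. -/
def jac {R : Type*} [CommRing R] (x p z : R) : Matrix (Fin 6) (Fin 6) R :=
  !![1 - 6 * x * p + 6 * x ^ 2 * z, -3 * x ^ 2, 0, 8 * x ^ 3, 0, 0;
     24 * p ^ 2 + 24 * x * p * z - 3 * z * (48 * x * p + 12 * x ^ 2 * z),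
       1 + (48 * x * p + 12 * x ^ 2 * z), -1,
       12 * x ^ 2 * p - 3 * x * (48 * x * p + 12 * x ^ 2 * z), 0, 0;
     72 * x * p ^ 3 + 36 * x ^ 2 * p ^ 2 * z - 3 * z * (108 * x ^ 2 * p ^ 2 + 24 * x ^ 3 * p * z),
       108 * x ^ 2 * p ^ 2 + 24 * x ^ 3 * p * z, 1,
       12 * x ^ 3 * p ^ 2 - 3 * x * (108 * x ^ 2 * p ^ 2 + 24 * x ^ 3 * p * z), 0, 0;
     6 * p * z - 3 * z * (6 * x * z + 16 * p), 6 * x * z + 16 * p, 0,
       1 + 6 * x * p - 3 * x * (6 * x * z + 16 * p), -1, 0;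
     24 * x * p ^ 2 * z + 28 * p ^ 3 - 3 * z * (24 * x ^ 2 * p * z + 84 * x * p ^ 2),
       24 * x ^ 2 * p * z + 84 * x * p ^ 2, 0,
       12 * x ^ 2 * p ^ 2 - 3 * x * (24 * x ^ 2 * p * z + 84 * x * p ^ 2), 1, -1;
     24 * x ^ 2 * p ^ 3 * z + 48 * x * p ^ 4 - 3 * z * (24 * x ^ 3 * p ^ 2 * z + 96 * x ^ 2 * p ^ 3),
       24 * x ^ 3 * p ^ 2 * z + 96 * x ^ 2 * p ^ 3, 0,
       8 * x ^ 3 * p ^ 3 - 3 * x * (24 * x ^ 3 * p ^ 2 * z + 96 * x ^ 2 * p ^ 3), 0, 1]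

theorem hasFDerivAt_pp (v : Fin 6 → ℝ) :
    HasFDerivAt pp (ContinuousLinearMap.proj (R := ℝ) (φ := fun _ : Fin 6 => ℝ) 1 -
      (3 * v 3) • ContinuousLinearMap.proj (R := ℝ) (φ := fun _ : Fin 6 => ℝ) 0 -
      (3 * v 0) • ContinuousLinearMap.proj (R := ℝ) (φ := fun _ : Fin 6 => ℝ) 3) v := by
  have h0 := hasFDerivAt_apply (𝕜 := ℝ) (F' := fun _ : Fin 6 => ℝ) (0 : Fin 6) v
  have h1 := hasFDerivAt_apply (𝕜 := ℝ) (F' := fun _ : Fin 6 => ℝ) (1 : Fin 6) v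
  have h3 := hasFDerivAt_apply (𝕜 := ℝ) (F' := fun _ : Fin 6 => ℝ) (3 : Fin 6) v
  have := h1.sub ((h0.const_mul 3).mul h3)
  refine (this.congr_fderiv ?_)
  ext w
  simp
  ring

theorem hasFDerivAt_phi (v : Fin 6 → ℝ) :
    HasFDerivAt phi (LinearMap.toContinuousLinearMap (Matrix.toLin' (jac (v 0) (pp v) (v 3)))) v := by
  have h0 := hasFDerivAt_apply (𝕜 := ℝ) (F' := fun _ : Fin 6 => ℝ) (0 : Fin 6) v
  have h1 := hasFDerivAt_apply (𝕜 := ℝ) (F' := fun _ : Fin 6 => ℝ) (1 : Fin 6) v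
  have h2 := hasFDerivAt_apply (𝕜 := ℝ) (F' := fun _ : Fin 6 => ℝ) (2 : Fin 6) v
  have h3 := hasFDerivAt_apply (𝕜 := ℝ) (F' := fun _ : Fin 6 => ℝ) (3 : Fin 6) v
  have h4 := hasFDerivAt_apply (𝕜 := ℝ) (F' := fun _ : Fin 6 => ℝ) (4 : Fin 6) v
  have h5 := hasFDerivAt_apply (𝕜 := ℝ) (F' := fun _ : Fin 6 => ℝ) (5 : Fin 6) v
  have hp := hasFDerivAt_pp v
  rw [hasFDerivAt_pi']
  intro i
  fin_cases i
  · have := (h0.sub (((h0.pow 2).const_mul 3).mul hp)).sub ((h0.pow 3).mul h3)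
    refine (this.congr_fderiv ?_)
    ext w
    simp [jac, dotProduct, Fin.sum_univ_six]
    ring
  · have := (((h1.add ((h0.const_mul 24).mul (hp.pow 2)))).add
      ((((h0.pow 2).const_mul 12).mul hp).mul h3)).sub h2
    refine (this.congr_fderiv ?_)
    ext w
    simp [jac, dotProduct, Fin.sum_univ_six]
    ring
  · have := ((h2.add (((h0.pow 2).const_mul 36).mul (hp.pow 3)))).add
      ((((h0.pow 3).const_mul 12).mul (hp.pow 2)).mul h3)
    refine (this.congr_fderiv ?_)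
    ext w
    simp [jac, dotProduct, Fin.sum_univ_six]
    ring
  · have := ((h3.add (((h0.const_mul 6).mul hp).mul h3)).add ((hp.pow 2).const_mul 8)).sub h4
    refine (this.congr_fderiv ?_)
    ext w
    simp [jac, dotProduct, Fin.sum_univ_six]
    ring
  · have := ((h4.add ((((h0.pow 2).const_mul 12).mul (hp.pow 2)).mul h3)).add
      ((h0.const_mul 28).mul (hp.pow 3))).sub h5
    refine (this.congr_fderiv ?_)
    ext w
    simp [jac, dotProduct, Fin.sum_univ_six]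
    ring
  · have := ((h5.add ((((h0.pow 3).const_mul 8).mul (hp.pow 3)).mul h3)).add
      (((h0.pow 2).const_mul 24).mul (hp.pow 4)))
    refine (this.congr_fderiv ?_)
    ext w
    simp [jac, dotProduct, Fin.sum_univ_six]
    ring

/-- The only eigenvalue of the Jacobian is `1`. -/
theorem eig (x' p' z' : ℝ) (μ : ℂ) (a : Fin 6 → ℂ)
    (h : (jac x' p' z').map (algebraMap ℝ ℂ) *ᵥ a = μ • a) (hμ : μ ≠ 1) : a = 0 := by
  set x : ℂ := (x' : ℂ) with hx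
  set p : ℂ := (p' : ℂ) with hp
  set z : ℂ := (z' : ℂ) with hz
  set ν := μ - 1 with hν
  have hν0 : ν ≠ 0 := sub_ne_zero.2 hμ
  have e0 := congrFun h 0
  have e1 := congrFun h 1
  have e2 := congrFun h 2
  have e3 := congrFun h 3
  have e4 := congrFun h 4
  have e5 := congrFun h 5
  have hμ' : μ = ν + 1 := by rw [hν]; ring
  simp [jac, Matrix.mulVec, dotProduct, Fin.sum_univ_six, hμ', ← hx, ← hp, ← hz] at e0 e1 e2 e3 e4 e5
  let P : Matrix (Fin 3) (Fin 3) ℂ :=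
    !![ν - (- 6 * x * p + 6 * x ^ 2 * z), 3 * x ^ 2, - 8 * x ^ 3;
      -ν * (24 * p ^ 2 + 24 * x * p * z - 3 * z * (48 * x * p + 12 * x ^ 2 * z)) +
        (72 * x * p ^ 3 + 36 * x ^ 2 * p ^ 2 * z - 3 * z * (108 * x ^ 2 * p ^ 2 + 24 * x ^ 3 * p * z)),
      ν ^ 2 - ν * (48 * x * p + 12 * x ^ 2 * z) + (108 * x ^ 2 * p ^ 2 + 24 * x ^ 3 * p * z),
      -ν * (12 * x ^ 2 * p - 3 * x * (48 * x * p + 12 * x ^ 2 * z)) +
        (12 * x ^ 3 * p ^ 2 - 3 * x * (108 * x ^ 2 * p ^ 2 + 24 * x ^ 3 * p * z));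
      -ν ^ 2 * (6 * p * z - 3 * z * (6 * x * z + 16 * p)) +
        ν * (24 * x * p ^ 2 * z + 28 * p ^ 3 - 3 * z * (24 * x ^ 2 * p * z + 84 * x * p ^ 2)) -
        (24 * x ^ 2 * p ^ 3 * z + 48 * x * p ^ 4 -
          3 * z * (24 * x ^ 3 * p ^ 2 * z + 96 * x ^ 2 * p ^ 3)),
      -ν ^ 2 * (6 * x * z + 16 * p) + ν * (24 * x ^ 2 * p * z + 84 * x * p ^ 2) -
        (24 * x ^ 3 * p ^ 2 * z + 96 * x ^ 2 * p ^ 3),
      ν ^ 3 - ν ^ 2 * (6 * x * p - 3 * x * (6 * x * z + 16 * p)) +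
        ν * (12 * x ^ 2 * p ^ 2 - 3 * x * (24 * x ^ 2 * p * z + 84 * x * p ^ 2)) -
        (8 * x ^ 3 * p ^ 3 - 3 * x * (24 * x ^ 3 * p ^ 2 * z + 96 * x ^ 2 * p ^ 3))]
  have hdet : P.det = ν ^ 6 := by
    rw [Matrix.det_fin_three]
    simp only [P, Matrix.of_apply, Matrix.cons_val', Matrix.cons_val_zero, Matrix.cons_val_one,
      Matrix.cons_val, Matrix.cons_val_fin_one, Matrix.empty_val']
    ring
  have hP : P *ᵥ ![a 0, a 1, a 3] = 0 := by
    funext i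
    fin_cases i
    · simp [P, Matrix.mulVec, dotProduct, Fin.sum_univ_three]
      linear_combination -e0
    · simp [P, Matrix.mulVec, dotProduct, Fin.sum_univ_three]
      linear_combination -ν * e1 + e2
    · simp [P, Matrix.mulVec, dotProduct, Fin.sum_univ_three]
      linear_combination -ν ^ 2 * e3 + ν * e4 - e5
  have h3 := Matrix.eq_zero_of_mulVec_eq_zero (by rw [hdet]; exact pow_ne_zero 6 hν0) hP
  have a0 : a 0 = 0 := by simpa using congrFun h3 0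
  have a1 : a 1 = 0 := by simpa using congrFun h3 1
  have a3 : a 3 = 0 := by simpa using congrFun h3 2
  have a2 : a 2 = 0 := by
    have : ν * a 2 = 0 := by rw [a0, a1, a3] at e2; linear_combination -e2
    exact (mul_eq_zero.1 this).resolve_left hν0
  have a5 : a 5 = 0 := by
    have : ν * a 5 = 0 := by rw [a0, a1, a3] at e5; linear_combination -e5
    exact (mul_eq_zero.1 this).resolve_left hν0
  have a4 : a 4 = 0 := by
    have : ν * a 4 = 0 := by rw [a0, a1, a3, a5] at e4; linear_combination -e4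
    exact (mul_eq_zero.1 this).resolve_left hν0
  funext i
  fin_cases i <;> assumption

theorem root (x p z : ℝ) (μ : ℂ) (h : Polynomial.aeval μ (jac x p z).charpoly = 0) : μ = 1 := by
  by_contra hμ
  have h1 : ((jac x p z).map (algebraMap ℝ ℂ)).charpoly.eval μ = 0 := by
    rw [Matrix.charpoly_map, Polynomial.eval_map, ← Polynomial.aeval_def]
    exact h
  rw [Matrix.eval_charpoly, ← Matrix.exists_mulVec_eq_zero_iff] at h1
  obtain ⟨a, ha, h2⟩ := h1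
  apply ha
  apply eig x p z μ a _ hμ
  rw [Matrix.sub_mulVec] at h2
  have h3 : (Matrix.scalar (Fin 6)) μ *ᵥ a = μ • a := by
    simp [Matrix.scalar_apply, Matrix.diagonal_const_mulVec]
  rw [h3] at h2
  exact (sub_eq_zero.1 h2).symm

/-- The negation of the preceding statement: For every n ≥ 2, a C¹ map f from ℝⁿ to ℝⁿ whose Jacobian is everywhere invertible, with every complex eigenvalue of every Jacobian of modulus at least some fixed ε > 0, is injective. -/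
theorem result :
    ¬ (∀ n : ℕ, 2 ≤ n → ∀ f : (Fin n → ℝ) → (Fin n → ℝ), ContDiff ℝ 1 f →
      (∀ x : Fin n → ℝ,
        (LinearMap.toMatrix' ((fderiv ℝ f x : (Fin n → ℝ) →L[ℝ] (Fin n → ℝ)) :
          (Fin n → ℝ) →ₗ[ℝ] (Fin n → ℝ))).det ≠ 0) →
      (∃ ε : ℝ, 0 < ε ∧ ∀ x : Fin n → ℝ, ∀ z : ℂ,
        Polynomial.aeval z
          (LinearMap.toMatrix' ((fderiv ℝ f x : (Fin n → ℝ) →L[ℝ] (Fin n → ℝ)) :
            (Fin n → ℝ) →ₗ[ℝ] (Fin n → ℝ))).charpoly = 0 → ε ≤ ‖z‖) →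
      Function.Injective f) := by
  intro H
  have hM : ∀ v : Fin 6 → ℝ, LinearMap.toMatrix' ((fderiv ℝ phi v : (Fin 6 → ℝ) →L[ℝ] (Fin 6 → ℝ)) :
          (Fin 6 → ℝ) →ₗ[ℝ] (Fin 6 → ℝ)) = jac (v 0) (pp v) (v 3) := by
    intro v
    rw [(hasFDerivAt_phi v).fderiv]
    simp
  have hC : ContDiff ℝ 1 phi := by
    rw [contDiff_pi]
    intro i
    fin_cases i <;> simp [phi, pp] <;> fun_prop
  have hinj := H 6 (by norm_num) phi hC (by
    intro v hv
    rw [hM] at hv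
    have := root (v 0) (pp v) (v 3) 0 (by
      rw [← Polynomial.coeff_zero_eq_aeval_zero']
      rw [Matrix.det_eq_sign_charpoly_coeff] at hv
      have : (jac (v 0) (pp v) (v 3)).charpoly.coeff 0 = 0 := by simpa using hv
      simp [this])
    exact zero_ne_one this) ⟨1, one_pos, by
    intro v z hz
    rw [hM] at hz
    rw [root _ _ _ _ hz]
    simp⟩
  have heq : phi ![1, 3, 0, 1, 0, 0] = phi ![0, 3, 0, -71, 0, 0] := by
    funext i
    fin_cases i <;> simp [phi, pp] <;> norm_num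
  have := congrFun (hinj heq) 0
  simp at this

end Pool.Agent.S05242
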