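import Pool.Statements.S05244
import Pool.Agent.W693.LF9

set_option autoImplicit false
open Pool Pool.MP_8329b3_an

namespace Pool.Agent.S05244

/-- The negation of the preceding statement: For every infinite pointed metric space M, its Lipschitz-free space (given by its universal property) is linearly isomorphic, as a real Banach space, to the ℓ1-sum of countably many copies of itself. -/
theorem result :
    ¬ (∀ (M : Type) [MetricSpace M] [Infinite M] (x0 : M)
      (X : Type) [NormedAddCommGroup X] [NormedSpace ℝ X] [CompleteSpace X]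
      (δ : M → X),
      δ x0 = 0 →
      LipschitzWith 1 δ →
      Dense ((Submodule.span ℝ (Set.range δ) : Submodule ℝ X) : Set X) →
      (∀ (f : M → ℝ) (L : NNReal), LipschitzWith L f → f x0 = 0 →
        ∃ φ : X →L[ℝ] ℝ, ‖φ‖ ≤ (L : ℝ) ∧ ∀ x : M, φ (δ x) = f x) →
      Nonempty (X ≃L[ℝ] lp (fun _ : ℕ => X) 1)) := by
  intro hall
  obtain ⟨k, R, a, hp, hno⟩ := Pool.Agent.W693.LF.no_iso
  letI : MetricSpace (Pool.Agent.W693.LF.MM k R a) := Pool.Agent.W693.LF.metMM hp
  haveI : Infinite (Pool.Agent.W693.LF.MM k R a) := Pool.Agent.W693.LF.infinite_MM hp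
  obtain ⟨X, _, _, _, δ, h1, h2, h3, h4⟩ := Pool.Agent.W693.LF.exists_free
    (Pool.Agent.W693.LF.MM k R a) (Pool.Agent.W693.LF.bp k R a)
  obtain ⟨T⟩ := hall (Pool.Agent.W693.LF.MM k R a) (Pool.Agent.W693.LF.bp k R a) X δ h1 h2 h3 h4
  refine hno X δ ⟨h1, fun x y => ?_, h3, fun F L hL hF hF0 => ?_⟩ T
  · have h5 := h2.dist_le_mul x y
    rw [NNReal.coe_one, one_mul, dist_eq_norm] at h5
    exact h5
  · obtain ⟨φ, hφ1, hφ2⟩ := h4 F ⟨L, hL⟩ (LipschitzWith.of_dist_le_mul fun x y => by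
      rw [Real.dist_eq]
      exact hF x y) hF0
    exact ⟨φ, hφ1, hφ2⟩

end Pool.Agent.S05244
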