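import Pool.Statements.S05279
import Pool.Agent.W402.SF.BC
import Pool.Agent.W402.SF.Aff
import Pool.Agent.W655.SF3
import Pool.Agent.W655.SF4
import Pool.Agent.W358.SFInterp
import Pool.Agent.W358.SFCyc
import Pool.Agent.W358.SFTens
import Pool.Agent.W342.SF.Span
import Pool.Agent.W342.SF.Trig
import Pool.Agent.W744.SF.Koop
import Pool.Agent.W744.SF.Asm
import Pool.Agent.W744.SF.Tr2

set_option autoImplicit false
open MeasureTheory Filter Topology
open Pool Pool.MP_86b0a6_an

namespace Pool.Agent.S05279

/-- For comeager many measure-preserving automorphisms T of [0,1], some continuous flow T_t with T_1=T exists so that for all k≥1 and 0<t_1<…<t_k the operator U_{t_1}⊗…⊗U_{t_k} has a cyclic vector on L²_0^{⊗k}. -/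
theorem result :
    {T : {T : unitInterval ≃ᵐ unitInterval //
          MeasurePreserving (⇑T) (volume : Measure unitInterval) (volume : Measure unitInterval)} |
      ∃ Φ : ℝ → {T : unitInterval ≃ᵐ unitInterval //
          MeasurePreserving (⇑T) (volume : Measure unitInterval) (volume : Measure unitInterval)},
        (∀ s t : ℝ, ∀ᵐ x : unitInterval ∂(volume : Measure unitInterval),
          (⇑(Φ (s + t)).1) x = (⇑(Φ s).1) ((⇑(Φ t).1) x)) ∧
        (∀ A : Set unitInterval, MeasurableSet A → ∀ t₀ : ℝ,
          Tendsto (fun s : ℝ => (volume : Measure unitInterval)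
              (symmDiff ((⇑(Φ s).1) '' A) ((⇑(Φ t₀).1) '' A)))
            (𝓝 t₀) (𝓝 0)) ∧
        (∀ᵐ x : unitInterval ∂(volume : Measure unitInterval), (⇑(Φ 1).1) x = (⇑T.1) x) ∧
        ∀ k : ℕ, 1 ≤ k → ∀ t : Fin k → ℝ, StrictMono t → (∀ i, 0 < t i) →
          ∃ f : (Fin k → unitInterval) → ℂ, MemLp f 2 (volume : Measure (Fin k → unitInterval)) ∧
            (∀ i : Fin k, ∀ g : (Fin k → unitInterval) → ℂ,
              MemLp g 2 (volume : Measure (Fin k → unitInterval)) →
              (∀ (x : Fin k → unitInterval) (y : unitInterval), g (Function.update x i y) = g x) →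
              ∫ x, f x * starRingEnd ℂ (g x) ∂(volume : Measure (Fin k → unitInterval)) = 0) ∧
            ∀ h : (Fin k → unitInterval) → ℂ, MemLp h 2 (volume : Measure (Fin k → unitInterval)) →
              (∀ i : Fin k, ∀ g : (Fin k → unitInterval) → ℂ,
                MemLp g 2 (volume : Measure (Fin k → unitInterval)) →
                (∀ (x : Fin k → unitInterval) (y : unitInterval), g (Function.update x i y) = g x) →
                ∫ x, h x * starRingEnd ℂ (g x) ∂(volume : Measure (Fin k → unitInterval)) = 0) →
              ∀ ε : ℝ, 0 < ε → ∃ N : Finset ℤ, ∃ c : ℤ → ℂ,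
                eLpNorm (fun x : Fin k → unitInterval => h x - ∑ n ∈ N, c n *
                  f (fun i : Fin k =>
                    (⇑(((Φ (t i)).1.toEquiv : Equiv.Perm unitInterval) ^ n)) (x i)))
                  2 (volume : Measure (Fin k → unitInterval)) < ENNReal.ofReal ε}
    ∈ @residual {T : unitInterval ≃ᵐ unitInterval //
          MeasurePreserving (⇑T) (volume : Measure unitInterval) (volume : Measure unitInterval)}
      (TopologicalSpace.generateFrom
        {U : Set {T : unitInterval ≃ᵐ unitInterval //
            MeasurePreserving (⇑T) (volume : Measure unitInterval) (volume : Measure unitInterval)} |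
          ∃ T₀ : {T : unitInterval ≃ᵐ unitInterval //
            MeasurePreserving (⇑T) (volume : Measure unitInterval) (volume : Measure unitInterval)},
          ∃ A : Set unitInterval, MeasurableSet A ∧ ∃ ε : ℝ, 0 < ε ∧
            U = {S : {T : unitInterval ≃ᵐ unitInterval //
                  MeasurePreserving (⇑T) (volume : Measure unitInterval)
                    (volume : Measure unitInterval)} |
                (volume : Measure unitInterval) (symmDiff ((⇑S.1) '' A) ((⇑T₀.1) '' A))
                  < ENNReal.ofReal ε}}) := by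
  exact Pool.Agent.W744.SF.transfer Pool.Agent.W358.SFT.main Pool.Agent.W342.SF.main
    (Pool.Agent.W744.SF.model
      (Pool.Agent.W655.SF4.main Pool.Agent.W402.SF.main Pool.Agent.W402.SF.Aff.main Pool.Agent.W655.SF3.main)
      Pool.Agent.W358.SFI.main Pool.Agent.W342.SF.Trig.main Pool.Agent.W358.SFT.main
      Pool.Agent.W744.SF.Koop.main Pool.Agent.W358.SFC.main)

end Pool.Agent.S05279
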