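import Pool.Statements.S05304
import Pool.Agent.W717.WeissFrozen

set_option autoImplicit false
open Pool Pool.MP_8988f3_an
open Filter Topology

namespace Pool.Agent.S05304

open Pool.Agent.Helper830.Weiss Pool.Agent.W717.WeissFrozen

/-- The negation of the preceding statement: For d ≥ 2, every ℤ^d subshift that is a sliding-block-code image of a finite-type ℤ^d shift is the sliding-block-code image of some finite-type ℤ^d shift having the same topological entropy. -/
theorem result :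
    ¬ (∀ (d : ℕ), 2 ≤ d → ∀ (k : ℕ) (X : Set ((Fin d → ℤ) → Fin k)),
    (∃ (m : ℕ) (F : Finset (Fin d → ℤ)) (P : Set (F → Fin m)) (G : Finset (Fin d → ℤ))
        (Φ : (G → Fin m) → Fin k),
      X = {x | ∃ y : (Fin d → ℤ) → Fin m,
        (∀ v : Fin d → ℤ, (fun u : F => y ((u : Fin d → ℤ) + v)) ∈ P) ∧
        x = fun v => Φ (fun u : G => y ((u : Fin d → ℤ) + v))}) →
    ∃ (m : ℕ) (F : Finset (Fin d → ℤ)) (P : Set (F → Fin m)) (G : Finset (Fin d → ℤ))
        (Φ : (G → Fin m) → Fin k) (Y : Set ((Fin d → ℤ) → Fin m)),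
      Y = {y | ∀ v : Fin d → ℤ, (fun u : F => y ((u : Fin d → ℤ) + v)) ∈ P} ∧
      X = {x | ∃ y ∈ Y, x = fun v => Φ (fun u : G => y ((u : Fin d → ℤ) + v))} ∧
      (⨅ n : ℕ, Real.log ((({p : (Fin d → Fin (n+1)) → Fin m |
          ∃ y ∈ Y, ∀ i, p i = y (fun j => ((i j : ℕ) : ℤ))}.ncard : ℕ) : ℝ))
          / ((n : ℝ) + 1) ^ d) =
      (⨅ n : ℕ, Real.log ((({p : (Fin d → Fin (n+1)) → Fin k |
          ∃ x ∈ X, ∀ i, p i = x (fun j => ((i j : ℕ) : ℤ))}.ncard : ℕ) : ℝ))
          / ((n : ℝ) + 1) ^ d)) := by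
  intro H
  classical
  obtain ⟨h, hent, hcov⟩ := weiss_SF
  obtain ⟨hne, C0, P0, hX0⟩ := XF_sft
  obtain ⟨hSne, hScl, hSinv⟩ := SF_sofic.isShift
  obtain ⟨F0, P0', hF0⟩ := sft_to _ XF C0 P0 hX0
  have hsofic := H 2 le_rfl (Fintype.card Vis) {x | (fun v : ℤ × ℤ => x ![v.1, v.2]) ∈ SF} ?_
  swap
  · refine ⟨Fintype.card St, F0, P0', {0}, fun w => eV (vis (eH.symm (w ⟨0, by simp⟩))), ?_⟩
    ext x
    simp only [Set.mem_setOf_eq]
    constructor
    · rintro ⟨y, hy, hv⟩
      have hv' : ∀ v : ℤ × ℤ, eV.symm (x ![v.1, v.2]) = vis (y v) := hv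
      refine ⟨fun w => eH (y (w 0, w 1)), ?_, ?_⟩
      · apply (hF0 (fun w => eH (y (w 0, w 1)))).2
        change (fun v : ℤ × ℤ => eH.symm (eH (y (![v.1, v.2] 0, ![v.1, v.2] 1)))) ∈ X0
        simpa using hy
      · funext w
        have h1 := hv' (w 0, w 1)
        have h2 : ![(w 0, w 1).1, (w 0, w 1).2] = w := by
          funext j
          fin_cases j <;> rfl
        rw [h2] at h1
        simp only [zero_add, Equiv.symm_apply_apply]
        rw [← h1, Equiv.apply_symm_apply]
    · rintro ⟨y, hy, rfl⟩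
      have hy := (hF0 y).1 hy
      refine ⟨fun v => eH.symm (y ![v.1, v.2]), hy, fun v => ?_⟩
      simp
  obtain ⟨m, F, P, G, Φ, Y, hY, hX, hEq⟩ := hsofic
  have hXmem : ∀ x : (Fin 2 → ℤ) → Fin (Fintype.card Vis),
      ((fun v : ℤ × ℤ => x ![v.1, v.2]) ∈ SF ↔
        ∃ y ∈ Y, x = fun v => Φ (fun u : G => y ((u : Fin 2 → ℤ) + v))) := by
    intro x
    have := Set.ext_iff.1 hX x
    exact this
  -- the transported cover
  have hfac : IsFactorCode (tr Y) SF
      (fun x v => Φ (fun u : G => x (u.1 0 + v.1, u.1 1 + v.2))) := by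
    refine ⟨?_, ?_, ?_⟩
    · apply Continuous.continuousOn
      apply continuous_pi
      intro v
      exact (continuous_of_discreteTopology (f := Φ)).comp
        (continuous_pi fun u => continuous_apply _)
    · intro x _ v
      funext w
      change Φ (fun u : G => x ((u.1 0 + w.1, u.1 1 + w.2) + v)) =
        Φ (fun u : G => x (u.1 0 + (w + v).1, u.1 1 + (w + v).2))
      congr 1
      funext u
      congr 1
      ext <;> simp [add_assoc]
    · ext s
      constructor
      · rintro ⟨x, hx, rfl⟩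
        have h1 := (hXmem (fun w => Φ (fun u : G => x (u.1 0 + w 0, u.1 1 + w 1)))).2
          ⟨fun w => x (w 0, w 1), hx, by funext w; rfl⟩
        exact h1
      · intro hs
        obtain ⟨y, hy, hxy⟩ := (hXmem (fun w => s (w 0, w 1))).1 (by
          change (fun v : ℤ × ℤ => s (![v.1, v.2] 0, ![v.1, v.2] 1)) ∈ SF
          simpa using hs)
        refine ⟨fun v => y ![v.1, v.2], ?_, ?_⟩
        · change (fun w : Fin 2 → ℤ => y ![w 0, w 1]) ∈ Y
          have : (fun w : Fin 2 → ℤ => y ![w 0, w 1]) = y := by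
            funext w
            congr 1
            funext j
            fin_cases j <;> rfl
          rw [this]
          exact hy
        · funext v
          have h1 := congrFun hxy ![v.1, v.2]
          simp only [Matrix.cons_val_zero, Matrix.cons_val_one, Prod.mk.eta] at h1
          rw [h1]
          change Φ (fun u : G => y ![u.1 0 + v.1, u.1 1 + v.2]) = Φ (fun u : G => y (u.1 + ![v.1, v.2]))
          congr 1
          funext u
          congr 1
          funext j
          fin_cases j <;> simp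
  have hsft : IsSFT (tr Y) := by
    refine ⟨?_, ?_⟩
    · obtain ⟨s, hs⟩ := hSne
      rw [← hfac.2.2] at hs
      obtain ⟨x, hx, _⟩ := hs
      exact ⟨x, hx⟩
    · rw [hY]
      exact sft_from m F P
  obtain ⟨h', hent', hlt⟩ := hcov m (tr Y) hsft ⟨_, hfac⟩
  obtain ⟨hTne, _, hTinv⟩ := hsft.isShift
  have e1 := iInf_eq (tr Y) hTne hTinv h' hent'
  have e2 := iInf_eq SF hSne hSinv h hent
  have htr : tr {x : (Fin 2 → ℤ) → Fin (Fintype.card Vis) | (fun v : ℤ × ℤ => x ![v.1, v.2]) ∈ SF} = SF := by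
    ext x
    change (fun v : ℤ × ℤ => x (![v.1, v.2] 0, ![v.1, v.2] 1)) ∈ SF ↔ _
    simp
  simp only [pat_tr, htr] at hEq
  rw [e1, e2] at hEq
  linarith

end Pool.Agent.S05304
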