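import Pool.Statements.S05335
import Pool.Agent.W96.NI.CK

set_option autoImplicit false
open Pool Pool.MP_8c09cc_an

namespace Pool.Agent.S05335

/-- For every k ≥ 1, nontrivial complex Banach space X and nonempty compact Hausdorff K, the k-th polynomial numerical index of C(K,X) equals that of X: a constant c bounds v(P) ≥ c‖P‖ for all k-homogeneous P on X iff it does on C(K,X). -/
theorem result :
  ∀ (k : ℕ), 1 ≤ k →
  ∀ (X : Type) [NormedAddCommGroup X] [NormedSpace ℂ X] [CompleteSpace X] [Nontrivial X],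
  ∀ (K : Type) [TopologicalSpace K] [CompactSpace K] [T2Space K] [Nonempty K],
  ∀ c : ℝ,
    (∀ (A : ContinuousMultilinearMap ℂ (fun _ : Fin k => X) X) (y : X), ‖y‖ ≤ 1 →
      ∀ ε : ℝ, 0 < ε →
        ∃ (x : X) (f : X →L[ℂ] ℂ), ‖x‖ = 1 ∧ ‖f‖ = 1 ∧ f x = 1 ∧
          c * ‖A (fun _ => y)‖ - ε < ‖f (A (fun _ => x))‖) ↔
    (∀ (A : ContinuousMultilinearMap ℂ (fun _ : Fin k => C(K, X)) C(K, X)) (y : C(K, X)),
      ‖y‖ ≤ 1 → ∀ ε : ℝ, 0 < ε →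
        ∃ (x : C(K, X)) (f : C(K, X) →L[ℂ] ℂ), ‖x‖ = 1 ∧ ‖f‖ = 1 ∧ f x = 1 ∧
          c * ‖A (fun _ => y)‖ - ε < ‖f (A (fun _ => x))‖) := by
  intro k hk X _ _ _ _ K _ _ _ _ c
  exact ⟨fun h => Pool.Agent.W96.NI.NB_C h, fun h => Pool.Agent.W96.NI.NB_of_C h⟩

end Pool.Agent.S05335
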