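import Pool.Statements.S05358
import Pool.Agent.Results.MP_8dcfde_an.NotOpen

set_option autoImplicit false
open Pool Pool.MP_8dcfde_an

namespace Pool.Agent.S05358

/-- The negation of the preceding statement: For n ≥ 3 and a domain Ω in ℝⁿ, every continuous non-constant W^{1,n} map f on Ω of finite distortion with distortion K_f = ∣Df∣ⁿ/J_f in L^{n−1}(Ω) maps open subsets of Ω to open sets. -/
theorem result :
    ¬ (∀ (n : ℕ), 3 ≤ n →
    ∀ (Ω : Set (EuclideanSpace ℝ (Fin n))), IsOpen Ω → IsConnected Ω →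
    ∀ (f : EuclideanSpace ℝ (Fin n) → EuclideanSpace ℝ (Fin n))
      (Df : EuclideanSpace ℝ (Fin n) →
        (EuclideanSpace ℝ (Fin n) →L[ℝ] EuclideanSpace ℝ (Fin n))),
      ContinuousOn f Ω →
      MeasureTheory.MemLp f ((n : ℕ) : ENNReal) (MeasureTheory.volume.restrict Ω) →
      MeasureTheory.MemLp Df ((n : ℕ) : ENNReal) (MeasureTheory.volume.restrict Ω) →
      (∀ φ : EuclideanSpace ℝ (Fin n) → ℝ,
          ContDiff ℝ ((⊤ : ℕ∞) : WithTop ℕ∞) φ → HasCompactSupport φ → tsupport φ ⊆ Ω →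
          ∀ v : EuclideanSpace ℝ (Fin n),
            ∫ x in Ω, (fderiv ℝ φ x v) • f x = - ∫ x in Ω, φ x • Df x v) →
      (∀ᵐ x ∂(MeasureTheory.volume.restrict Ω),
          0 ≤ LinearMap.det (Df x).toLinearMap ∧
          (LinearMap.det (Df x).toLinearMap = 0 → Df x = 0)) →
      MeasureTheory.MemLp
          (fun x => if 0 < LinearMap.det (Df x).toLinearMap
            then ‖Df x‖ ^ n / LinearMap.det (Df x).toLinearMap else (1 : ℝ))
          ((n - 1 : ℕ) : ENNReal) (MeasureTheory.volume.restrict Ω) →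
      (¬ ∃ c : EuclideanSpace ℝ (Fin n), ∀ x ∈ Ω, f x = c) →
      ∀ U : Set (EuclideanSpace ℝ (Fin n)), U ⊆ Ω → IsOpen U → IsOpen (f '' U)) := by
  intro h
  obtain ⟨Ω, f, Df, ⟨hO, hC, _, _⟩, hL, ⟨hf, hDf, hW⟩, _, hJ, hK, hn, hno⟩ :=
    Pool.Agent.Results.MP_8dcfde_an.NotOpen.result
  refine hno (h 3 le_rfl Ω hO hC f Df hL.continuousOn ?_ ?_ hW ?_ ?_ hn Ω subset_rfl hO)
  · exact_mod_cast hf
  · exact_mod_cast hDf
  · filter_upwards [hJ] with x hx
    have hx' : 0 < LinearMap.det (Df x).toLinearMap := hx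
    exact ⟨hx'.le, fun h0 => absurd h0 hx'.ne'⟩
  · exact_mod_cast hK

end Pool.Agent.S05358
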