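import Pool.Statements.S05360
import Pool.Agent.W689.PF.Fin

set_option autoImplicit false
open Pool Pool.MP_8de585_an

namespace Pool.Agent.S05360

open Pool.Agent.S04901.CK Pool.Agent.W689.PF

/-- the range of the first coordinate projection -/
noncomputable def rangeEquiv (X : Type) [NormedAddCommGroup X] [NormedSpace ℝ X]
    (P : X × X →L[ℝ] X × X) (i : X →L[ℝ] X × X) (p : X × X →L[ℝ] X)
    (h1 : ∀ x, p (i x) = x) (h2 : ∀ y, P y = i (p y)) :
    X ≃L[ℝ] LinearMap.range (P : X × X →ₗ[ℝ] X × X) :=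
  ContinuousLinearEquiv.equivOfInverse
    (i.codRestrict (LinearMap.range (P : X × X →ₗ[ℝ] X × X))
      (fun x => ⟨i x, by show P (i x) = i x; rw [h2, h1]⟩))
    (p.comp (LinearMap.range (P : X × X →ₗ[ℝ] X × X)).subtypeL)
    (fun x => h1 x)
    (fun y => by
      obtain ⟨y, ⟨z, hz⟩⟩ := y
      apply Subtype.ext
      show i (p y) = y
      have hz' : P z = y := hz
      rw [← hz', h2 z, h1])

/-- The negation of the preceding statement: Every real or complex Banach space in which, for each operator T, the identity factors through T or through I−T, is primary: for each bounded projection P, X is isomorphic to the range of P or of I−P. -/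
theorem result :
    ¬ (∀ (𝕜 : Type) [RCLike 𝕜] (X : Type) [NormedAddCommGroup X] [NormedSpace 𝕜 X]
      [CompleteSpace X],
      (∀ T : X →L[𝕜] X,
          (∃ A B : X →L[𝕜] X, A * T * B = 1) ∨
          (∃ A B : X →L[𝕜] X, A * ((1 : X →L[𝕜] X) - T) * B = 1)) →
      ∀ P : X →L[𝕜] X, P * P = P →
        Nonempty (X ≃L[𝕜] LinearMap.range (P : X →ₗ[𝕜] X)) ∨
        Nonempty (X ≃L[𝕜] LinearMap.range
          (((1 : X →L[𝕜] X) - P : X →L[𝕜] X) : X →ₗ[𝕜] X))) := by
  intro H
  obtain ⟨I, Φ, hms⟩ := exists_fam'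
  let i1 := ContinuousLinearMap.inl ℝ (XS Φ) (XS Φ)
  let i2 := ContinuousLinearMap.inr ℝ (XS Φ) (XS Φ)
  let p1 := ContinuousLinearMap.fst ℝ (XS Φ) (XS Φ)
  let p2 := ContinuousLinearMap.snd ℝ (XS Φ) (XS Φ)
  have h := H ℝ (XS Φ × XS Φ) (fun T => by
    rcases pfp Φ hms T with ⟨A, B, hAB⟩ | ⟨A, B, hAB⟩
    · refine Or.inl ⟨A, B, ?_⟩
      apply ContinuousLinearMap.ext
      intro y
      exact hAB y
    · refine Or.inr ⟨A, B, ?_⟩
      apply ContinuousLinearMap.ext
      intro y
      exact hAB y) (i1.comp p1) (by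
      apply ContinuousLinearMap.ext
      intro y
      rfl)
  rcases h with h | h
  · obtain ⟨e⟩ := h
    exact no_sq Φ ((rangeEquiv (XS Φ) (i1.comp p1) i1 p1 (fun _ => rfl) (fun _ => rfl)).trans
      e.symm)
  · obtain ⟨e⟩ := h
    exact no_sq Φ ((rangeEquiv (XS Φ) (1 - i1.comp p1) i2 p2 (fun _ => rfl) (fun y => by
      show y - (y.1, (0 : XS Φ)) = ((0 : XS Φ), y.2)
      ext1 <;> simp)).trans e.symm)

end Pool.Agent.S05360
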