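import Pool.Statements.S05366
import Pool.Agent.Helper593.Fac15

set_option autoImplicit false
open MeasureTheory Set
open Pool Pool.MP_8e7914_an

namespace Pool.Agent.S05366

open Pool.Agent.Results.MP_8e7914_an.NoFactorization Filter
open scoped Topology

/-- The example of the starting files, in the form needed for the frozen statement. -/
theorem exists_example (ω : ℝ) (hω : 0 < ω) : ∃ (s : ℝ → ℂ) (S : L2 ω →L[ℂ] L2 ω)
    (M N E : L2 ω) (R : ℝ → (L2 ω →L[ℂ] L2 ω)) (D : Fin 2 → Fin 2 → ℝ → ℂ),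
    (∀ f : L2 ω, ∀ x ∈ Icc 0 ω, (∫ y in (0:ℝ)..x, (S f) y) =
      (∫ t, s (x - t) * f t ∂(mu ω)) - ∫ t, s (-t) * f t ∂(mu ω)) ∧
    (∀ᵐ x ∂(mu ω), M x = s x) ∧ (∀ᵐ x ∂(mu ω), N x = - s (-x)) ∧ (∀ᵐ x ∂(mu ω), E x = 1) ∧
    (∀ ξ ∈ Icc 0 ω, IsInvL S ξ (R ξ)) ∧
    (∀ i j, Integrable (D i j) (mu ω)) ∧
    (∀ i j, ∀ ξ ∈ Icc 0 ω, BmatL R M N E ξ i j = ∫ x in (0:ℝ)..ξ, D i j x) ∧
    (∀ᵐ x ∂(mu ω), (Matrix.of fun i j => D i j x).rank = 1) ∧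
    ¬ HasLeftFacL S := by
  obtain ⟨A, L, M, hsc⟩ := exists_Scales hω
  obtain ⟨T, hT, hlim⟩ := hsc.strong_limit
  obtain ⟨g₁, hg₁, hg₁'⟩ := hsc.exists_Mlim hω norm_one_C
  obtain ⟨g₂, hg₂, hg₂'⟩ := hsc.exists_Mlim hω norm_neg_one_C
  choose D hD1 hD2 hD3 using fun b b' => hsc.exists_D hω b b'
  have hc1 : Tendsto (fun n => toL ω (Gf 1 false (L n))) atTop (𝓝 (toL ω 1)) :=
    tendsto_const_nhds
  have hc2 : Tendsto (fun n => toL ω (Gf (-1) false (L n))) atTop (𝓝 (toL ω 1)) :=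
    tendsto_const_nhds
  refine ⟨sker A, 1 + T, g₁, g₂, toL ω 1, Rop T, fun i j x => (!![D true false x, D true true x;
        D false false x, D false true x] : Matrix (Fin 2) (Fin 2) ℂ) i j, ?_, ?_, ?_, ?_,
        fun ξ _ => isInvL_Rop hT ξ, ?_, ?_, ?_, ?_⟩
  · intro f x hx
    have h := hsc.conv hlim f hx
    simp only [zero_sub] at h
    rw [h]
    ring
  · filter_upwards [hg₁, ae_restrict_mem measurableSet_Ioc] with x hx hx2
    rw [hx]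
    unfold Mlim sker
    rw [Real.sign_of_pos hx2.1]
    push_cast
    ring
  · filter_upwards [hg₂, ae_restrict_mem measurableSet_Ioc] with x hx hx2
    rw [hx]
    unfold Mlim sker
    rw [Real.sign_of_neg (by linarith [hx2.1]), Tau_neg]
    push_cast
    ring
  · filter_upwards [toL_ae ω 1] with x hx
    rw [hx]
    rfl
  · intro i j
    fin_cases i <;> fin_cases j
    · exact hD1 true false
    · exact hD1 true true
    · exact hD1 false false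
    · exact hD1 false true
  · intro i j ξ hξ
    fin_cases i <;> fin_cases j
    · change ∫ x in (0:ℝ)..ξ, Rop T ξ g₁ x = ∫ x in (0:ℝ)..ξ, D true false x
      rw [integral_Us hT g₁ hξ]
      exact hsc.pair_eq hω hT hlim (b := true) (b' := false) hg₁' hc2 (hD1 _ _) (hD3 _ _)
        hξ.1 hξ.2
    · change ∫ x in (0:ℝ)..ξ, Rop T ξ g₁ x * g₂ x = ∫ x in (0:ℝ)..ξ, D true true x
      rw [integral_Us_mul hT g₁ g₂ hξ]
      exact hsc.pair_eq hω hT hlim (b := true) (b' := true) hg₁' hg₂' (hD1 _ _) (hD3 _ _)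
        hξ.1 hξ.2
    · change ∫ x in (0:ℝ)..ξ, Rop T ξ (toL ω 1) x = ∫ x in (0:ℝ)..ξ, D false false x
      rw [integral_Us hT (toL ω 1) hξ]
      exact hsc.pair_eq hω hT hlim (b := false) (b' := false) hc1 hc2 (hD1 _ _) (hD3 _ _)
        hξ.1 hξ.2
    · change ∫ x in (0:ℝ)..ξ, Rop T ξ (toL ω 1) x * g₂ x = ∫ x in (0:ℝ)..ξ, D false true x
      rw [integral_Us_mul hT (toL ω 1) g₂ hξ]
      exact hsc.pair_eq hω hT hlim (b := false) (b' := true) hc1 hg₂' (hD1 _ _) (hD3 _ _)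
        hξ.1 hξ.2
  · filter_upwards [hsc.det_ae hD2] with x hx2
    have e : (Matrix.of fun i j => (!![D true false x, D true true x;
        D false false x, D false true x] : Matrix (Fin 2) (Fin 2) ℂ) i j) =
        !![D true false x, D true true x; D false false x, D false true x] := by
      ext i j; rfl
    rw [e]
    exact rank_eq_one hx2.1 hx2.2
  · intro hf
    obtain ⟨C, hC⟩ := VQ_le_of_factorization hω hT (fun U V => T_inner hlim U V) hf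
    obtain ⟨m, hm⟩ := hsc.VQ_unbounded hω hT hlim C
    exact absurd (hC m) (not_le.mpr hm)

/-- a.e. on a subinterval, from the volume formulation -/
lemma ae_of {ω : ℝ} {p : ℝ → Prop} {a b : ℝ} (ha : 0 ≤ a)  (hb : b ≤ ω)
    (h : ∀ᵐ x ∂(mu ω), a < x → x ≤ b → p x) :
    ∀ᵐ x ∂(volume : Measure ℝ), x ∈ Ioo a b → p x := by
  rw [ae_restrict_iff' measurableSet_Ioc] at h
  filter_upwards [h] with x hx hx2
  exact hx ⟨by linarith [hx2.1], by linarith [hx2.2]⟩ hx2.1 hx2.2.le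

lemma ae_to {ω : ℝ} {p : ℝ → Prop} {a b : ℝ}
    (h : ∀ᵐ x ∂(volume : Measure ℝ), x ∈ Ioo a b → p x) :
    ∀ᵐ x ∂(mu ω), a < x → x ≤ b → p x := by
  have hne : ∀ᵐ t ∂(volume : Measure ℝ), t ≠ b := by simp [ae_iff, measure_singleton]
  apply ae_restrict_of_ae
  filter_upwards [h, hne] with x hx hxb h1 h2
  exact hx ⟨h1, lt_of_le_of_ne h2 hxb⟩

lemma proj_eq_self {ω ξ : ℝ} {f : L2 ω}
    (h : ∀ᵐ x ∂(volume : Measure ℝ), x ∈ Ioo ξ ω → f x = 0) : proj ω ξ f = f := by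
  apply Lp.ext
  filter_upwards [proj_ae ω ξ f, ae_to (ω := ω) h, ae_restrict_mem measurableSet_Ioc] with x h1 h2 h3
  rw [h1]
  by_cases hx : x ≤ ξ
  · rw [indicator_of_mem (s := Icc 0 ξ) ⟨h3.1.le, hx⟩]
  · rw [indicator_of_notMem (s := Icc 0 ξ) (fun h' => hx h'.2), h2 (not_le.1 hx) h3.2]

lemma proj_eq_zero {ω ξ : ℝ} {f : L2 ω}
    (h : ∀ᵐ x ∂(volume : Measure ℝ), x ∈ Ioo 0 ξ → f x = 0) : proj ω ξ f = 0 := by
  apply Lp.ext
  filter_upwards [proj_ae ω ξ f, ae_to (ω := ω) h, ae_restrict_mem measurableSet_Ioc,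
    Lp.coeFn_zero ℂ 2 (mu ω)] with x h1 h2 h3 h4
  rw [h1, h4]
  by_cases hx : x ≤ ξ
  · rw [indicator_of_mem (s := Icc 0 ξ) ⟨h3.1.le, hx⟩, h2 h3.1 hx]
    rfl
  · rw [indicator_of_notMem (s := Icc 0 ξ) (fun h' => hx h'.2)]
    rfl

lemma proj_eq_proj {ω ξ : ℝ} {f g : L2 ω}
    (h : ∀ᵐ x ∂(volume : Measure ℝ), x ∈ Ioo 0 ξ → f x = g x) : proj ω ξ f = proj ω ξ g := by
  apply Lp.ext
  filter_upwards [proj_ae ω ξ f, proj_ae ω ξ g, ae_to (ω := ω) h,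
    ae_restrict_mem measurableSet_Ioc] with x h1 h1' h2 h3
  rw [h1, h1']
  by_cases hx : x ≤ ξ
  · rw [indicator_of_mem (s := Icc 0 ξ) ⟨h3.1.le, hx⟩,
      indicator_of_mem (s := Icc 0 ξ) ⟨h3.1.le, hx⟩, h2 h3.1 hx]
  · rw [indicator_of_notMem (s := Icc 0 ξ) (fun h' => hx h'.2),
      indicator_of_notMem (s := Icc 0 ξ) (fun h' => hx h'.2)]

lemma vanish_of_proj_eq_self {ω ξ : ℝ} (hξ : ξ ∈ Icc 0 ω) {f : L2 ω} (h : proj ω ξ f = f) :
    ∀ᵐ x ∂(volume : Measure ℝ), x ∈ Ioo ξ ω → f x = 0 := by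
  apply ae_of hξ.1 le_rfl
  have h0 := proj_ae ω ξ f
  rw [h] at h0
  filter_upwards [h0] with x h1 h2 h3
  rw [h1, indicator_of_notMem (s := Icc 0 ξ) (fun h' => absurd h'.2 (not_le.2 h2))]

lemma eq_of_proj_eq {ω ξ : ℝ} (hξ : ξ ∈ Icc 0 ω) {f g : L2 ω} (h : proj ω ξ f = proj ω ξ g) :
    ∀ᵐ x ∂(volume : Measure ℝ), x ∈ Ioo 0 ξ → f x = g x := by
  apply ae_of le_rfl hξ.2
  have h0 := proj_ae ω ξ f
  rw [h] at h0
  filter_upwards [h0, proj_ae ω ξ g] with x h1 h2 h3 h4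
  rw [h2, indicator_of_mem (s := Icc 0 ξ) ⟨h3.le, h4⟩,
    indicator_of_mem (s := Icc 0 ξ) ⟨h3.le, h4⟩] at h1
  exact h1.symm

lemma upper_of {ω : ℝ} {Q : L2 ω →L[ℂ] L2 ω}
    (h : ∀ ξ ∈ Icc (0:ℝ) ω, ∀ f : L2 ω,
      (∀ᵐ x ∂(volume : Measure ℝ), x ∈ Ioo ξ ω → f x = 0) →
      (∀ᵐ x ∂(volume : Measure ℝ), x ∈ Ioo ξ ω → (Q f) x = 0)) : UpperTriL Q := by
  intro ξ hξ
  ext1 f
  simp only [ContinuousLinearMap.comp_apply]
  symm
  apply proj_eq_self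
  apply h ξ hξ
  apply vanish_of_proj_eq_self hξ
  exact proj_proj le_rfl f

lemma lower_of {ω : ℝ} {Q : L2 ω →L[ℂ] L2 ω}
    (h : ∀ ξ ∈ Icc (0:ℝ) ω, ∀ f : L2 ω,
      (∀ᵐ x ∂(volume : Measure ℝ), x ∈ Ioo 0 ξ → f x = 0) →
      (∀ᵐ x ∂(volume : Measure ℝ), x ∈ Ioo 0 ξ → (Q f) x = 0)) : LowerTriL Q := by
  intro ξ hξ
  have h1 : proj ω ξ ∘L Q = proj ω ξ ∘L Q ∘L proj ω ξ := by
    ext1 f
    simp only [ContinuousLinearMap.comp_apply]
    have h2 : proj ω ξ (Q (f - proj ω ξ f)) = 0 := by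
      apply proj_eq_zero
      apply h ξ hξ
      have h3 : proj ω ξ (f - proj ω ξ f) = proj ω ξ 0 := by
        rw [map_sub, proj_proj le_rfl, sub_self, map_zero]
      have h4 := eq_of_proj_eq hξ h3
      have h5 := ae_to (ω := ω) h4
      apply ae_of le_rfl hξ.2
      filter_upwards [h5, Lp.coeFn_zero ℂ 2 (mu ω)] with x h6 h7 h8 h9
      rw [h6 h8 h9, h7]
      rfl
    rw [map_sub, map_sub, sub_eq_zero] at h2
    exact h2
  have h2 := congrArg ContinuousLinearMap.adjoint h1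
  rw [ContinuousLinearMap.adjoint_comp, ContinuousLinearMap.adjoint_comp,
    ContinuousLinearMap.adjoint_comp, adjoint_proj, ContinuousLinearMap.comp_assoc] at h2
  exact h2

/-- The negation of the preceding statement: For s square-integrable on [-ω,ω]: if S f = d/dx ∫ s(x−t)f(t)dt is bounded on L²(0,ω), all sections S_ξ are invertible, and B(ξ) is absolutely continuous with B′ of rank 1 a.e., then S = S₋S₊ with S₊ upper and S₋ lower triangular, each boundedly invertible with triangular inverse. -/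
theorem result :
    ¬ (∀ ω : ℝ, 0 < ω → ∀ s : ℝ → ℂ,
      MemLp s 2 (volume.restrict (Ioo (0:ℝ) ω)) →
      MemLp (fun x => s (-x)) 2 (volume.restrict (Ioo (0:ℝ) ω)) →
      ∀ S : Lp ℂ 2 (volume.restrict (Ioo (0:ℝ) ω)) →L[ℂ] Lp ℂ 2 (volume.restrict (Ioo (0:ℝ) ω)),
      (∀ f : Lp ℂ 2 (volume.restrict (Ioo (0:ℝ) ω)), ∀ x ∈ Icc (0:ℝ) ω,
          (∫ y in (0:ℝ)..x, ⇑(S f) y) =
            (∫ t in (0:ℝ)..ω, s (x - t) * ⇑f t) - ∫ t in (0:ℝ)..ω, s (-t) * ⇑f t) →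
      (∀ ξ ∈ Icc (0:ℝ) ω, ∀ h : Lp ℂ 2 (volume.restrict (Ioo (0:ℝ) ω)),
          ∃! u : Lp ℂ 2 (volume.restrict (Ioo (0:ℝ) ω)),
            (∀ᵐ x ∂(volume : Measure ℝ), x ∈ Ioo ξ ω → ⇑u x = 0) ∧
            (∀ᵐ x ∂(volume : Measure ℝ), x ∈ Ioo 0 ξ → ⇑(S u) x = ⇑h x)) →
      (∃ U V : ℝ → Lp ℂ 2 (volume.restrict (Ioo (0:ℝ) ω)),
          (∀ ξ ∈ Icc (0:ℝ) ω,
            (∀ᵐ x ∂(volume : Measure ℝ), x ∈ Ioo ξ ω → ⇑(U ξ) x = 0) ∧
            (∀ᵐ x ∂(volume : Measure ℝ), x ∈ Ioo 0 ξ → ⇑(S (U ξ)) x = s x) ∧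
            (∀ᵐ x ∂(volume : Measure ℝ), x ∈ Ioo ξ ω → ⇑(V ξ) x = 0) ∧
            (∀ᵐ x ∂(volume : Measure ℝ), x ∈ Ioo 0 ξ → ⇑(S (V ξ)) x = 1)) ∧
          ∃ D : Fin 2 → Fin 2 → ℝ → ℂ,
            (∀ i j, IntegrableOn (D i j) (Icc (0:ℝ) ω)) ∧
            (∀ ξ ∈ Icc (0:ℝ) ω,
              (∫ x in (0:ℝ)..ξ, ⇑(U ξ) x) = (∫ x in (0:ℝ)..ξ, D 0 0 x) ∧
              (∫ x in (0:ℝ)..ξ, ⇑(U ξ) x * (-s (-x))) = (∫ x in (0:ℝ)..ξ, D 0 1 x) ∧
              (∫ x in (0:ℝ)..ξ, ⇑(V ξ) x) = (∫ x in (0:ℝ)..ξ, D 1 0 x) ∧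
              (∫ x in (0:ℝ)..ξ, ⇑(V ξ) x * (-s (-x))) = (∫ x in (0:ℝ)..ξ, D 1 1 x)) ∧
            (∀ᵐ x ∂(volume : Measure ℝ), x ∈ Ioo 0 ω →
              (Matrix.of fun i j => D i j x).rank = 1)) →
      ∃ Sm Sp : Lp ℂ 2 (volume.restrict (Ioo (0:ℝ) ω)) ≃L[ℂ] Lp ℂ 2 (volume.restrict (Ioo (0:ℝ) ω)),
        (∀ ξ ∈ Icc (0:ℝ) ω, ∀ f : Lp ℂ 2 (volume.restrict (Ioo (0:ℝ) ω)),
          (∀ᵐ x ∂(volume : Measure ℝ), x ∈ Ioo ξ ω → ⇑f x = 0) →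
          ((∀ᵐ x ∂(volume : Measure ℝ), x ∈ Ioo ξ ω → ⇑(Sp f) x = 0) ∧
           (∀ᵐ x ∂(volume : Measure ℝ), x ∈ Ioo ξ ω → ⇑(Sp.symm f) x = 0))) ∧
        (∀ ξ ∈ Icc (0:ℝ) ω, ∀ f : Lp ℂ 2 (volume.restrict (Ioo (0:ℝ) ω)),
          (∀ᵐ x ∂(volume : Measure ℝ), x ∈ Ioo 0 ξ → ⇑f x = 0) →
          ((∀ᵐ x ∂(volume : Measure ℝ), x ∈ Ioo 0 ξ → ⇑(Sm f) x = 0) ∧
           (∀ᵐ x ∂(volume : Measure ℝ), x ∈ Ioo 0 ξ → ⇑(Sm.symm f) x = 0))) ∧
        (∀ f : Lp ℂ 2 (volume.restrict (Ioo (0:ℝ) ω)), S f = Sm (Sp f))) := by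
  intro H
  obtain ⟨s, S, M, N, E, R, D, hconv, hM, hN, hE, hR, hD, hB, hrank, hno⟩ :=
    exists_example 1 one_pos
  have H1 := H 1 one_pos s
  have hμ : volume.restrict (Ioo (0:ℝ) 1) = mu 1 := restrict_Ioo_eq_restrict_Ioc
  generalize volume.restrict (Ioo (0:ℝ) 1) = μ at H1 hμ
  subst hμ
  have hint1 : ∀ g : ℝ → ℂ, ∫ t in (0:ℝ)..1, g t = ∫ t, g t ∂(mu 1) := fun g => by
    rw [intervalIntegral.integral_of_le zero_le_one]
  have hRs : ∀ ξ ∈ Icc (0:ℝ) 1, ∀ h : L2 1, proj 1 ξ (R ξ h) = R ξ h := by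
    intro ξ hξ h
    have h1 := congrArg (fun Q : L2 1 →L[ℂ] L2 1 => Q h) (hR ξ hξ).1
    simp only [ContinuousLinearMap.comp_apply] at h1
    rw [h1, proj_proj le_rfl]
  have hSR : ∀ ξ ∈ Icc (0:ℝ) 1, ∀ h : L2 1, proj 1 ξ (S (R ξ h)) = proj 1 ξ h := by
    intro ξ hξ h
    have h1 := congrArg (fun Q : L2 1 →L[ℂ] L2 1 => Q h) (hR ξ hξ).2.1
    simp only [ContinuousLinearMap.comp_apply] at h1
    rwa [hRs ξ hξ] at h1
  have hRu : ∀ ξ ∈ Icc (0:ℝ) 1, ∀ u h : L2 1, proj 1 ξ u = u → proj 1 ξ (S u) = proj 1 ξ h →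
      u = R ξ h := by
    intro ξ hξ u h hu hS
    have h1 := congrArg (fun Q : L2 1 →L[ℂ] L2 1 => Q u) (hR ξ hξ).2.2
    simp only [ContinuousLinearMap.comp_apply] at h1
    rw [hu, hS] at h1
    rw [← h1]
    have h2 := congrArg (fun Q : L2 1 →L[ℂ] L2 1 => Q h) (hR ξ hξ).1
    have h3 := congrArg (fun Q : L2 1 →L[ℂ] L2 1 => Q (proj 1 ξ h)) (hR ξ hξ).1
    simp only [ContinuousLinearMap.comp_apply] at h2 h3
    rw [h3, proj_proj le_rfl, ← h2]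
  obtain ⟨Sm, Sp, hSp, hSm, hS⟩ := H1 ((memLp_congr_ae hM).1 (Lp.memLp M))
    (by
      have h1 : MemLp (fun x => - s (-x)) 2 (mu 1) := (memLp_congr_ae hN).1 (Lp.memLp N)
      have h2 := h1.neg
      refine (memLp_congr_ae (Eventually.of_forall fun x => ?_)).1 h2
      simp)
    S
    (by
      intro f x hx
      rw [hconv f x hx, hint1, hint1])
    (by
      intro ξ hξ h
      refine ⟨R ξ h, ⟨vanish_of_proj_eq_self hξ (hRs ξ hξ h), eq_of_proj_eq hξ (hSR ξ hξ h)⟩, ?_⟩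
      rintro u ⟨hu1, hu2⟩
      exact hRu ξ hξ u h (proj_eq_self hu1) (proj_eq_proj hu2))
    (by
      refine ⟨fun ξ => R ξ M, fun ξ => R ξ E, ?_, D, ?_, ?_, ?_⟩
      · intro ξ hξ
        refine ⟨vanish_of_proj_eq_self hξ (hRs ξ hξ M), ?_,
          vanish_of_proj_eq_self hξ (hRs ξ hξ E), ?_⟩
        · have h1 := eq_of_proj_eq hξ (hSR ξ hξ M)
          have h2 : ∀ᵐ x ∂(volume : Measure ℝ), x ∈ Ioo 0 ξ → M x = s x := by
            apply ae_of le_rfl hξ.2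
            filter_upwards [hM] with x h1 _ _
            exact h1
          filter_upwards [h1, h2] with x a b hx
          rw [a hx, b hx]
        · have h1 := eq_of_proj_eq hξ (hSR ξ hξ E)
          have h2 : ∀ᵐ x ∂(volume : Measure ℝ), x ∈ Ioo 0 ξ → E x = 1 := by
            apply ae_of le_rfl hξ.2
            filter_upwards [hE] with x h1 _ _
            exact h1
          filter_upwards [h1, h2] with x a b hx
          rw [a hx, b hx]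
      · intro i j
        rw [integrableOn_Icc_iff_integrableOn_Ioc]
        exact hD i j
      · intro ξ hξ
        have hcongr : ∀ (g : ℝ → ℂ), (∫ x in (0:ℝ)..ξ, g x * (-s (-x))) =
            ∫ x in (0:ℝ)..ξ, g x * N x := by
          intro g
          rw [intervalIntegral.integral_of_le hξ.1, intervalIntegral.integral_of_le hξ.1]
          apply integral_congr_ae
          have h1 := ae_restrict_of_ae_restrict_of_subset (Ioc_subset_Ioc_right hξ.2) hN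
          filter_upwards [h1] with t ht
          rw [ht]
        rw [hcongr, hcongr]
        exact ⟨hB 0 0 ξ hξ, hB 0 1 ξ hξ, hB 1 0 ξ hξ, hB 1 1 ξ hξ⟩
      · apply ae_of le_rfl le_rfl
        filter_upwards [hrank] with x hx _ _
        exact hx)
  apply hno
  refine ⟨Sm, Sm.symm, Sp, Sp.symm, ?_, ?_, ?_, ?_, ?_, ?_, ?_, ?_, ?_⟩
  · ext1 f; simp
  · ext1 f; simp
  · ext1 f; simp
  · ext1 f; simp
  · exact lower_of fun ξ hξ f hf => (hSm ξ hξ f hf).1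
  · exact lower_of fun ξ hξ f hf => (hSm ξ hξ f hf).2
  · exact upper_of fun ξ hξ f hf => (hSp ξ hξ f hf).1
  · exact upper_of fun ξ hξ f hf => (hSp ξ hξ f hf).2
  · ext1 f
    exact hS f

end Pool.Agent.S05366
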