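import Pool.Statements.S05396
import Pool.Agent.Results.MP_9159b8_an.NonAnalytic

set_option autoImplicit false
open MeasureTheory
open scoped MeasureTheory
open Pool Pool.MP_9159b8_an

namespace Pool.Agent.S05396

/-- The negation of the preceding statement: Let Ω be a bounded domain bounded by finitely many disjoint rectifiable Jordan curves, with area mean of Re f equal to its arc-length boundary mean for every f holomorphic inside and continuous up to the boundary. Then near each boundary point the boundary is a regular real-analytic arc. -/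
theorem result :
    ¬ (∀ (Ω : Set ℂ), IsOpen Ω → IsConnected Ω → Bornology.IsBounded Ω →
      (∃ (n : ℕ) (γ : Fin n → Circle → ℂ),
        (∀ i, Continuous (γ i)) ∧ (∀ i, Function.Injective (γ i)) ∧
        (∀ i j, i ≠ j → Disjoint (Set.range (γ i)) (Set.range (γ j))) ∧
        (∀ i, μH[1] (Set.range (γ i)) < ⊤) ∧
        frontier Ω = ⋃ i, Set.range (γ i)) →
      (∀ f : ℂ → ℂ, DifferentiableOn ℂ f Ω → ContinuousOn f (closure Ω) →
        (volume Ω).toReal⁻¹ * ∫ z in Ω, (f z).re =
          (μH[1] (frontier Ω)).toReal⁻¹ * ∫ z in frontier Ω, (f z).re ∂μH[1]) →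
      ∀ p ∈ frontier Ω, ∃ U : Set ℂ, IsOpen U ∧ p ∈ U ∧
        ∃ (a b : ℝ) (g : ℝ → ℂ), a < b ∧ AnalyticOnNhd ℝ g (Set.Ioo a b) ∧
          Set.InjOn g (Set.Ioo a b) ∧ (∀ t ∈ Set.Ioo a b, deriv g t ≠ 0) ∧
          frontier Ω ∩ U = g '' Set.Ioo a b) := by
  intro H
  obtain ⟨Ω, hO, hC, hB, ⟨f, hfc, hfi, hfd, hf1, hf2⟩, h0, h1, hQ, p, hp, hn⟩ :=
    Pool.Agent.Results.MP_9159b8_an.NonAnalytic.result
  have hsub : ∀ x : Circle, (x : ℂ) ∈ Metric.closedBall (0 : ℂ) 1 := by
    intro x
    rw [mem_closedBall_zero_iff, Circle.norm_coe]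
  have hrange : Set.range (fun x : Circle => f (x : ℂ)) = frontier Ω := by
    rw [← hf2]
    ext w
    constructor
    · rintro ⟨x, rfl⟩
      exact ⟨x, by rw [mem_sphere_zero_iff_norm, Circle.norm_coe], rfl⟩
    · rintro ⟨z, hz, rfl⟩
      exact ⟨⟨z, by simpa [Submonoid.unitSphere] using hz⟩, rfl⟩
  have hγ : ∃ (n : ℕ) (γ : Fin n → Circle → ℂ),
      (∀ i, Continuous (γ i)) ∧ (∀ i, Function.Injective (γ i)) ∧
      (∀ i j, i ≠ j → Disjoint (Set.range (γ i)) (Set.range (γ j))) ∧
      (∀ i, μH[1] (Set.range (γ i)) < ⊤) ∧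
      frontier Ω = ⋃ i, Set.range (γ i) := by
    refine ⟨1, fun _ x => f (x : ℂ), fun _ => ?_, fun _ => ?_, fun i j hij => ?_,
      fun _ => ?_, ?_⟩
    · exact hfc.comp_continuous continuous_subtype_val hsub
    · intro x y hxy
      exact Circle.ext (hfi (hsub x) (hsub y) hxy)
    · exact absurd (Subsingleton.elim i j) hij
    · show μH[1] (Set.range (fun x : Circle => f (x : ℂ))) < ⊤
      rw [hrange]; exact h1
    · rw [Set.iUnion_const]; exact hrange.symm
  obtain ⟨U, hU, hpU, a, b, g, hab, hg, hgi, hgd, hgU⟩ := H Ω hO hC hB hγ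
    (fun F hF hF' => hQ F hF' hF) p hp
  apply hn U hU hpU
  have hba : 0 < b - a := sub_pos.2 hab
  have hmap : ∀ t ∈ Set.Ioo (0 : ℝ) 1, a + (b - a) * t ∈ Set.Ioo a b := by
    intro t ht
    constructor
    · have := mul_pos hba ht.1
      linarith
    · have := mul_lt_mul_of_pos_left ht.2 hba
      linarith
  refine ⟨fun t => g (a + (b - a) * t), fun t ht => ?_, fun s hs t ht hst => ?_, ?_⟩
  · have h1 : AnalyticAt ℝ (fun t : ℝ => a + (b - a) * t) t := by fun_prop
    exact AnalyticAt.comp_of_eq (g := g) (f := fun t : ℝ => a + (b - a) * t)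
      (hg _ (hmap t ht)) h1 rfl
  · have := hgi (hmap s hs) (hmap t ht) hst
    have h2 : (b - a) * s = (b - a) * t := by linarith
    exact mul_left_cancel₀ hba.ne' h2
  · rw [hgU]
    ext w
    constructor
    · rintro ⟨t, ht, rfl⟩
      refine ⟨(t - a) / (b - a), ⟨div_pos (by linarith [ht.1]) hba, ?_⟩, ?_⟩
      · rw [div_lt_one hba]; linarith [ht.2]
      · show g (a + (b - a) * ((t - a) / (b - a))) = g t
        congr 1
        field_simp
        ring
    · rintro ⟨t, ht, rfl⟩
      exact ⟨_, hmap t ht, rfl⟩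

end Pool.Agent.S05396
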