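-- Proof of the frozen statement S05404.
import Pool.Statements.S05404
import Pool.Agent.Helper983.SL.Smooth

set_option autoImplicit false
open Pool Pool.MP_91c4ba_an

namespace Pool.Agent.S05404

/-- The negation of the preceding statement: For every k in ℕ∪{∞} and real Banach space X with a C^k Lipschitz bump (nonzero, bounded support), every Lipschitz map from X into any real Banach space Y is uniformly within any ε>0 of some C^k Lipschitz map. -/
theorem result :
    ¬ (∀ (k : ℕ∞) (X : Type) [NormedAddCommGroup X] [NormedSpace ℝ X] [CompleteSpace X],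
      (∃ b : X → ℝ, ContDiff ℝ ((k : ℕ∞) : WithTop ℕ∞) b ∧ (∃ L : NNReal, LipschitzWith L b) ∧
          b ≠ 0 ∧ Bornology.IsBounded (Function.support b)) →
      ∀ (Y : Type) [NormedAddCommGroup Y] [NormedSpace ℝ Y] [CompleteSpace Y] (f : X → Y),
        (∃ K : NNReal, LipschitzWith K f) →
        ∀ ε : ℝ, 0 < ε →
          ∃ g : X → Y, ContDiff ℝ ((k : ℕ∞) : WithTop ℕ∞) g ∧
            (∃ L : NNReal, LipschitzWith L g) ∧ ∀ x, ‖f x - g x‖ ≤ ε) := by
  intro H0
  obtain ⟨X, Y, i1, i2, i3, i4, i5, i6, ⟨b, hb1, hb2, ⟨x0, hx0⟩, hb4⟩, f, hf, hι, H⟩ :=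
    Pool.Agent.Helper983.SL.final_top
  obtain ⟨g, hg1, hg2, hg3⟩ := H0 ⊤ X ⟨b, hb1, hb2, (fun h => hx0 (by rw [h]; rfl)), hb4⟩ Y f hf 1 one_pos
  refine H g (hg1.of_le ?_) hg2 ⟨1, ?_⟩
  · exact_mod_cast le_top
  · rintro _ ⟨x, rfl⟩
    exact hg3 x

end Pool.Agent.S05404
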