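import Pool.Statements.S05406
import Pool.Agent.W697.BP.Final

set_option autoImplicit false
open Pool Pool.MP_91c8d1_an

namespace Pool.Agent.S05406

/-- The negation of the preceding statement: No nonempty compact metric space splits into disjoint Borel pieces A_1..A_n, B_1..B_m whose distance-preserving bijective images C_i of A_i cover the space, and images D_j of B_j also cover it. -/
theorem result :
    ¬ (∀ (X : Type) [MetricSpace X] [CompactSpace X] [Nonempty X]
      [MeasurableSpace X] [BorelSpace X],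
      ¬ ∃ (n m : ℕ) (A C : Fin n → Set X) (B D : Fin m → Set X)
          (f : Fin n → X → X) (g : Fin m → X → X),
        1 ≤ n ∧ 1 ≤ m ∧
        (∀ i j : Fin n, i ≠ j → Disjoint (A i) (A j)) ∧
        (∀ i j : Fin m, i ≠ j → Disjoint (B i) (B j)) ∧
        (∀ (i : Fin n) (j : Fin m), Disjoint (A i) (B j)) ∧
        (∀ i : Fin n, MeasurableSet (A i)) ∧
        (∀ j : Fin m, MeasurableSet (B j)) ∧
        (∀ i : Fin n, Set.BijOn (f i) (A i) (C i) ∧
          ∀ x ∈ A i, ∀ y ∈ A i, dist (f i x) (f i y) = dist x y) ∧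
        (∀ j : Fin m, Set.BijOn (g j) (B j) (D j) ∧
          ∀ x ∈ B j, ∀ y ∈ B j, dist (g j x) (g j y) = dist x y) ∧
        (⋃ i, C i) = Set.univ ∧
        (⋃ j, D j) = Set.univ) := by
  intro h
  exact h Pool.Agent.Results.MP_a2dbe0_an.NoInvariantMeasure.E Pool.Agent.W697.BP.paradox

end Pool.Agent.S05406
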