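import Pool.Statements.S05410
import Pool.Agent.W804.Pend.Calib
import Pool.Agent.W804.Pend.Flow
import Pool.Agent.W804.Pend.Period
import Pool.Agent.W804.Pend.Het

set_option autoImplicit false
open Pool Pool.MP_9251a8_an

namespace Pool.Agent.S05410

open Pool.Agent.W804.Pend MeasureTheory Set
open scoped Real

/-- the three properties of the family -/
def Fol (V : ℝ → (Fin 1 → ℝ) → ℝ) (α : Fin 1 → ℝ) (F : Set ((Fin 1 → ℝ) → ℝ)) : Prop :=
      (∀ u ∈ F, ContDiff ℝ (⊤ : ℕ∞) u ∧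
        (∀ φ : (Fin 1 → ℝ) → ℝ, ContDiff ℝ (⊤ : ℕ∞) φ → HasCompactSupport φ →
          ∀ R : ℝ, tsupport φ ⊆ Metric.ball (0 : Fin 1 → ℝ) R →
            ∫ x in Metric.ball (0 : Fin 1 → ℝ) R,
                ((1 / 2 : ℝ) * ∑ i : Fin 1, (fderiv ℝ u x (Pi.single i (1 : ℝ))) ^ 2 - V (u x) x) ≤
            ∫ x in Metric.ball (0 : Fin 1 → ℝ) R,
                ((1 / 2 : ℝ) * ∑ i : Fin 1,
                    (fderiv ℝ (fun y => u y + φ y) x (Pi.single i (1 : ℝ))) ^ 2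
                  - V (u x + φ x) x)) ∧
        (∃ C : ℝ, ∀ x : Fin 1 → ℝ, |u x - ∑ i : Fin 1, α i * x i| ≤ C)) ∧
      (∀ u ∈ F, ∀ k : Fin 1 → ℤ, ∀ l : ℤ,
        (fun x : Fin 1 → ℝ => u (x + fun i => (k i : ℝ)) + (l : ℝ)) ∈ F) ∧
      (∀ x : Fin 1 → ℝ, ∀ y : ℝ, ∃! u : (Fin 1 → ℝ) → ℝ, u ∈ F ∧ u x = y)

/-- the potential -/
noncomputable def pot : ℝ → (Fin 1 → ℝ) → ℝ := fun u _ => Real.cos (2 * π * u)

/-- slope zero -/
theorem fol_zero (α : Fin 1 → ℝ) (h : α 0 = 0) : ∃ F, Fol pot α F := by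
  refine ⟨{u | ∃ l : ℤ, ∃ τ : ℝ, 0 ≤ τ ∧ u = fun x => het l τ (x 0)}, ?_, ?_, ?_⟩
  · rintro u ⟨l, τ, hτ, rfl⟩
    refine ⟨(het_smooth l τ).comp (contDiff_apply ℝ ℝ (0 : Fin 1)), ?_, |(l : ℝ)| + 1, ?_⟩
    · intro φ hφ _ R hs
      exact minimal (V := fun u => Real.cos (2 * π * u)) (E := 1) spd0_cont spd0_sq
        (het_smooth l τ) (fun t => het_deriv l τ t hτ) φ hφ R hs
    · intro x
      rw [Fin.sum_univ_one, h, zero_mul, sub_zero]
      exact het_bdd l τ (x 0) hτ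
  · rintro u ⟨l, τ, hτ, rfl⟩ k m
    refine ⟨l + m, τ * Real.exp (2 * π * k 0), mul_nonneg hτ (Real.exp_pos _).le, ?_⟩
    ext x
    exact het_shift l τ (x 0) (k 0) m
  · intro x y
    obtain ⟨l, τ, hτ, h1, h2⟩ := het_through (x 0) y
    refine ⟨fun x => het l τ (x 0), ⟨⟨l, τ, hτ, rfl⟩, h1⟩, ?_⟩
    rintro u ⟨⟨l', τ', hτ', rfl⟩, h3⟩
    obtain ⟨rfl, rfl⟩ := h2 l' τ' hτ' h3
    rfl

/-- positive slope and negative slope: `σ = 1` or `σ = -1` -/
theorem fol_ne (α : Fin 1 → ℝ) (h : α 0 ≠ 0) : ∃ F, Fol pot α F := by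
  obtain ⟨σ, hσ, hσα⟩ : ∃ σ : ℤ, (σ = 1 ∨ σ = -1) ∧ 0 < σ * α 0 := by
    rcases lt_or_gt_of_ne h with h | h
    · exact ⟨-1, Or.inr rfl, by push_cast; linarith⟩
    · exact ⟨1, Or.inl rfl, by push_cast; linarith⟩
  have hσ2 : (σ : ℝ) * σ = 1 := by rcases hσ with rfl | rfl <;> norm_num
  obtain ⟨s, hs⟩ := per_all (1 / (σ * α 0)) (by positivity)
  obtain ⟨g, hgs, hgd, hgi, hgsur, hgp, C, hgC⟩ := flow (spd_smooth s) (spd_pos s) (spd_per s)
  have hper : ∫ u in (0 : ℝ)..1, (spd s u)⁻¹ = 1 / (σ * α 0) := hs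
  rw [hper] at hgC
  simp_rw [hper] at hgp
  refine ⟨{u | ∃ c : ℝ, u = fun x => g (σ * x 0 + c)}, ?_, ?_, ?_⟩
  · rintro u ⟨c, rfl⟩
    have hv : ContDiff ℝ (⊤ : ℕ∞) (fun t : ℝ => g (σ * t + c)) := by
      apply hgs.comp
      fun_prop
    refine ⟨hv.comp (contDiff_apply ℝ ℝ (0 : Fin 1)), ?_, C + |c * (σ * α 0)|, ?_⟩
    · intro φ hφ _ R hs'
      apply minimal (V := fun u => Real.cos (2 * π * u)) (E := 1 + Real.exp s)
        (f := fun u => σ * spd s u) (v := fun t => g (σ * t + c)) _ _ hv _ φ hφ R hs'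
      · exact continuous_const.mul (spd_smooth s).continuous
      · intro u
        rw [spd_sq s u]
        have : ((σ : ℝ) * spd s u) ^ 2 = (σ * σ) * spd s u ^ 2 := by ring
        rw [this, hσ2, one_mul]
      · intro t
        have h1 : HasDerivAt (fun t : ℝ => (σ : ℝ) * t + c) σ t := by
          simpa using ((hasDerivAt_id t).const_mul (σ : ℝ)).add_const c
        have h2 : HasDerivAt g (spd s (g (σ * t + c))) (σ * t + c) := by
          rw [← hgd]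
          exact (hgs.differentiable (by simp) _).hasDerivAt
        have h3 := h2.comp t h1
        have h4 : deriv (fun t => g (σ * t + c)) t = spd s (g (σ * t + c)) * σ := h3.deriv
        rw [h4, mul_comm]
    · intro x
      rw [Fin.sum_univ_one]
      have h1 := hgC (σ * x 0 + c)
      have h2 : ((σ : ℝ) * x 0 + c) / (1 / (σ * α 0)) = α 0 * x 0 + c * (σ * α 0) := by
        rw [div_div_eq_mul_div, div_one]
        calc ((σ : ℝ) * x 0 + c) * (σ * α 0) = (σ * σ) * (α 0 * x 0) + c * (σ * α 0) := by ring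
          _ = _ := by rw [hσ2, one_mul]
      rw [h2] at h1
      calc |g (σ * x 0 + c) - α 0 * x 0| =
          |(g (σ * x 0 + c) - (α 0 * x 0 + c * (σ * α 0))) + c * (σ * α 0)| := by ring_nf
        _ ≤ _ := (abs_add_le _ _).trans (by linarith)
  · rintro u ⟨c, rfl⟩ k m
    refine ⟨σ * k 0 + c + m * (1 / (σ * α 0)), ?_⟩
    ext x
    have h1 := hgp (σ * (x 0 + k 0) + c) m
    show g (σ * (x 0 + (k 0 : ℝ)) + c) + m = _
    rw [← h1]
    congr 1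
    ring
  · intro x y
    obtain ⟨t, ht⟩ := hgsur y
    refine ⟨fun x' => g (σ * x' 0 + (t - σ * x 0)), ⟨⟨_, rfl⟩, ?_⟩, ?_⟩
    · show g (σ * x 0 + (t - σ * x 0)) = y
      rw [← ht]
      congr 1
      ring
    · rintro u ⟨⟨c, rfl⟩, h3⟩
      have h4 : g (σ * x 0 + c) = g t := by rw [ht]; exact h3
      have h5 := hgi h4
      have h6 : c = t - σ * x 0 := by linarith
      rw [h6]

/-- The negation of the preceding statement: For n≥1 and smooth V(u,x) 1-periodic in all variables: if every slope α admits a ℤⁿ⁺¹-invariant family of smooth minimizers of ∫½∣∇u∣²−V(u,x) of slope α whose graphs pass exactly once through each point, then V does not depend on u. -/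
theorem result :
    ¬ (∀ n : ℕ, 1 ≤ n → ∀ V : ℝ → (Fin n → ℝ) → ℝ,
    ContDiff ℝ (⊤ : ℕ∞) (fun p : ℝ × (Fin n → ℝ) => V p.1 p.2) →
    (∀ (u : ℝ) (x : Fin n → ℝ), V (u + 1) x = V u x) →
    (∀ (u : ℝ) (x : Fin n → ℝ) (i : Fin n), V u (x + (Pi.single i (1 : ℝ) : Fin n → ℝ)) = V u x) →
    (∀ α : Fin n → ℝ, ∃ F : Set ((Fin n → ℝ) → ℝ),
      (∀ u ∈ F, ContDiff ℝ (⊤ : ℕ∞) u ∧
        (∀ φ : (Fin n → ℝ) → ℝ, ContDiff ℝ (⊤ : ℕ∞) φ → HasCompactSupport φ →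
          ∀ R : ℝ, tsupport φ ⊆ Metric.ball (0 : Fin n → ℝ) R →
            ∫ x in Metric.ball (0 : Fin n → ℝ) R,
                ((1 / 2 : ℝ) * ∑ i : Fin n, (fderiv ℝ u x (Pi.single i (1 : ℝ))) ^ 2 - V (u x) x) ≤
            ∫ x in Metric.ball (0 : Fin n → ℝ) R,
                ((1 / 2 : ℝ) * ∑ i : Fin n,
                    (fderiv ℝ (fun y => u y + φ y) x (Pi.single i (1 : ℝ))) ^ 2
                  - V (u x + φ x) x)) ∧
        (∃ C : ℝ, ∀ x : Fin n → ℝ, |u x - ∑ i : Fin n, α i * x i| ≤ C)) ∧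
      (∀ u ∈ F, ∀ k : Fin n → ℤ, ∀ l : ℤ,
        (fun x : Fin n → ℝ => u (x + fun i => (k i : ℝ)) + (l : ℝ)) ∈ F) ∧
      (∀ x : Fin n → ℝ, ∀ y : ℝ, ∃! u : (Fin n → ℝ) → ℝ, u ∈ F ∧ u x = y)) →
    ∀ u₁ u₂ : ℝ, ∀ x : Fin n → ℝ, V u₁ x = V u₂ x) := by
  intro H
  have h1 := H 1 le_rfl pot ?_ ?_ ?_ ?_ 0 (1 / 2) 0
  · simp only [pot] at h1
    rw [mul_zero, Real.cos_zero] at h1
    have h2 : 2 * π * (1 / 2) = π := by ring
    rw [h2, Real.cos_pi] at h1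
    norm_num at h1
  · unfold pot
    fun_prop
  · intro u x
    simp only [pot]
    rw [mul_add, mul_one, Real.cos_add_two_pi]
  · intro u x i
    rfl
  · intro α
    by_cases h : α 0 = 0
    · exact fol_zero α h
    · exact fol_ne α h

end Pool.Agent.S05410
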