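import Pool.Statements.S05428
import Pool.Agent.Results.MP_935ebb_an.Disproof

set_option autoImplicit false
open Pool Pool.MP_935ebb_an

namespace Pool.Agent.S05428

open Filter Topology Pool.Agent.Results.MP_935ebb_an Pool.Agent.Results.MP_935ebb_an.Disproof

/-- the proportion of `A` in the finite subgroup `K n` -/
noncomputable def ra (A : Set Gp) (n : ℕ) : ℝ :=
  (Set.ncard {x : K n | (x : Gp) ∈ A} : ℝ) / Fintype.card (K n)

lemma card_pos (n : ℕ) : (0 : ℝ) < Fintype.card (K n) := by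
  have := Fintype.card_pos (α := K n)
  exact_mod_cast this

lemma ra_nonneg (A : Set Gp) (n : ℕ) : 0 ≤ ra A n := by
  unfold ra
  positivity

lemma ra_le_one (A : Set Gp) (n : ℕ) : ra A n ≤ 1 := by
  unfold ra
  rw [div_le_one (card_pos n)]
  have h : Set.ncard {x : K n | (x : Gp) ∈ A} ≤ Nat.card (K n) := Set.ncard_le_card _
  rw [Nat.card_eq_fintype_card] at h
  exact_mod_cast h

lemma ra_univ (n : ℕ) : ra Set.univ n = 1 := by
  unfold ra
  have h : {x : K n | (x : Gp) ∈ (Set.univ : Set Gp)} = Set.univ := by ext; simp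
  rw [h, Set.ncard_univ, Nat.card_eq_fintype_card]
  exact div_self (card_pos n).ne'

lemma ra_union (A B : Set Gp) (h : Disjoint A B) (n : ℕ) : ra (A ∪ B) n = ra A n + ra B n := by
  unfold ra
  have h1 : {x : K n | (x : Gp) ∈ A ∪ B} = {x : K n | (x : Gp) ∈ A} ∪ {x : K n | (x : Gp) ∈ B} := by
    ext; simp
  have h2 : Disjoint {x : K n | (x : Gp) ∈ A} {x : K n | (x : Gp) ∈ B} := by
    rw [Set.disjoint_left] at h ⊢
    intro x hx hx'
    exact h hx hx'
  rw [h1, Set.ncard_union_eq h2 (Set.toFinite _) (Set.toFinite _), ← add_div]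
  push_cast
  rfl

lemma ra_inv (g : Gp) (A : Set Gp) (n : ℕ) (hg : g ∈ K n) : ra ((fun x => g * x) '' A) n = ra A n := by
  unfold ra
  have h1 : {x : K n | (x : Gp) ∈ (fun x => g * x) '' A} =
      (Equiv.mulLeft (⟨g, hg⟩ : K n)) '' {x : K n | (x : Gp) ∈ A} := by
    ext x
    simp only [Set.mem_ofPred_eq, Set.mem_image]
    constructor
    · rintro ⟨y, hy, hxy⟩
      have hy' : y ∈ K n := by
        have : y = g⁻¹ * x := by rw [← hxy]; group
        rw [this]
        exact (K n).mul_mem ((K n).inv_mem hg) x.2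
      exact ⟨⟨y, hy'⟩, hy, Subtype.ext hxy⟩
    · rintro ⟨y, hy, rfl⟩
      exact ⟨y, hy, rfl⟩
  rw [h1, Set.ncard_image_of_injective _ (Equiv.injective _)]

lemma exists_mean : ∃ μ : Set Gp → ℝ, (∀ A, 0 ≤ μ A) ∧ μ Set.univ = 1 ∧
    (∀ A B : Set Gp, Disjoint A B → μ (A ∪ B) = μ A + μ B) ∧
    (∀ (g : Gp) (A : Set Gp), μ ((fun x => g * x) '' A) = μ A) := by
  let U : Ultrafilter ℕ := Ultrafilter.of atTop
  have hU : (U : Filter ℕ) ≤ atTop := Ultrafilter.of_le _
  have hlim : ∀ A : Set Gp, ∃ r : ℝ, 0 ≤ r ∧ Tendsto (ra A) U (𝓝 r) := by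
    intro A
    obtain ⟨r, hr, hle⟩ := (isCompact_Icc (a := (0 : ℝ)) (b := 1)).ultrafilter_le_nhds
      (U.map (ra A)) (by
        rw [le_principal_iff]
        change ∀ᶠ n in (U : Filter ℕ), ra A n ∈ Set.Icc (0 : ℝ) 1
        exact Eventually.of_forall fun n => ⟨ra_nonneg A n, ra_le_one A n⟩)
    exact ⟨r, hr.1, hle⟩
  choose μ hμ0 hμ using hlim
  refine ⟨μ, hμ0, ?_, ?_, ?_⟩
  · refine tendsto_nhds_unique (hμ Set.univ) ?_
    simp only [funext ra_univ]
    exact tendsto_const_nhds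
  · intro A B hAB
    refine tendsto_nhds_unique (hμ (A ∪ B)) ?_
    rw [funext (ra_union A B hAB)]
    exact (hμ A).add (hμ B)
  · intro g A
    refine tendsto_nhds_unique (hμ _) ((hμ A).congr' ?_)
    obtain ⟨n0, hn0⟩ := exists_K g
    have : ∀ᶠ n in (U : Filter ℕ), n0 ≤ n := hU (eventually_ge_atTop n0)
    filter_upwards [this] with n hn
    exact (ra_inv g A n (K_mono hn hn0)).symm

lemma finite_gen (H : Subgroup Gp) (hH : ∀ x ∈ H, ∀ y ∈ H, x * y = y * x) :
    ∃ s : Finset (lp (fun _ : Gp => ℂ) 1),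
      (∀ v ∈ s, ∀ x : Gp, x ∉ H → v x = 0) ∧
      ∀ f : lp (fun _ : Gp => ℂ) 1, (∀ x : Gp, x ∉ H → f x = 0) →
        f ∈ Disproof.Id ⊔ Submodule.span ℂ (s : Set (lp (fun _ : Gp => ℂ) 1)) := by
  classical
  set P := Submodule.comap (l1sub H).subtype Disproof.Id with hP
  have hfd : FiniteDimensional ℂ (l1sub H ⧸ P) := abelian_fd H hH
  obtain ⟨t, ht⟩ := Module.finite_def.mp hfd
  -- lift the generators
  have hsurj : Function.Surjective P.mkQ := Submodule.mkQ_surjective P
  choose l hl using hsurj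
  refine ⟨t.image (fun q => ((l q : l1sub H) : lp (fun _ : Gp => ℂ) 1)), ?_, ?_⟩
  · intro v hv
    rw [Finset.mem_image] at hv
    obtain ⟨q, -, rfl⟩ := hv
    exact (l q).2
  · intro f hf
    set f' : l1sub H := ⟨f, hf⟩ with hf'
    have h1 : P.mkQ f' ∈ Submodule.span ℂ (t : Set (l1sub H ⧸ P)) := by rw [ht]; trivial
    have h2 : Submodule.span ℂ (t : Set (l1sub H ⧸ P)) =
        (Submodule.span ℂ (l '' (t : Set (l1sub H ⧸ P)))).map P.mkQ := by
      rw [Submodule.map_span, ← Set.image_comp]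
      congr 1
      ext q
      simp only [Function.comp_apply, hl, Set.image_id']
    rw [h2] at h1
    obtain ⟨y, hy, hyf⟩ := h1
    have h3 : f' - y ∈ P := by
      rw [← Submodule.ker_mkQ P, LinearMap.mem_ker, map_sub, hyf, sub_self]
    have h4 : (f : lp (fun _ : Gp => ℂ) 1) = ((f' - y : l1sub H) : lp (fun _ : Gp => ℂ) 1)
        + ((y : l1sub H) : lp (fun _ : Gp => ℂ) 1) := by
      rw [← Submodule.coe_add, sub_add_cancel]
    rw [h4]
    apply Submodule.add_mem_sup
    · exact h3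
    · have h5 : ((y : l1sub H) : lp (fun _ : Gp => ℂ) 1) ∈
          (Submodule.span ℂ (l '' (t : Set (l1sub H ⧸ P)))).map (l1sub H).subtype := ⟨y, hy, rfl⟩
      rw [Submodule.map_span, ← Set.image_comp] at h5
      rw [Finset.coe_image]
      exact h5

/-- The negation of the preceding statement: For every amenable group G and closed two-sided convolution ideal I of l1(G): if I meets l1(H) in a finite-codimensional subspace of l1(H) for every abelian subgroup H, then l1(G)/I is finite-dimensional. -/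
theorem result :
    ¬ (∀ (G : Type) [Group G],
      (∃ μ : Set G → ℝ, (∀ A, 0 ≤ μ A) ∧ μ Set.univ = 1 ∧
        (∀ A B : Set G, Disjoint A B → μ (A ∪ B) = μ A + μ B) ∧
        (∀ (g : G) (A : Set G), μ ((fun x => g * x) '' A) = μ A)) →
      ∀ I : Submodule ℂ (lp (fun _ : G => ℂ) 1),
        IsClosed (I : Set (lp (fun _ : G => ℂ) 1)) →
        (∀ f g : lp (fun _ : G => ℂ) 1, g ∈ I → ∀ h : lp (fun _ : G => ℂ) 1,
          (∀ x : G, h x = ∑' y : G, f y * g (y⁻¹ * x)) → h ∈ I) →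
        (∀ f g : lp (fun _ : G => ℂ) 1, g ∈ I → ∀ h : lp (fun _ : G => ℂ) 1,
          (∀ x : G, h x = ∑' y : G, g y * f (y⁻¹ * x)) → h ∈ I) →
        (∀ H : Subgroup G, (∀ a ∈ H, ∀ b ∈ H, a * b = b * a) →
          ∃ s : Finset (lp (fun _ : G => ℂ) 1),
            (∀ v ∈ s, ∀ x : G, x ∉ H → v x = 0) ∧
            ∀ f : lp (fun _ : G => ℂ) 1, (∀ x : G, x ∉ H → f x = 0) →
              f ∈ I ⊔ Submodule.span ℂ (s : Set (lp (fun _ : G => ℂ) 1))) →
        FiniteDimensional ℂ (lp (fun _ : G => ℂ) 1 ⧸ I)) := by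
  intro h
  refine not_fd (h Gp exists_mean Disproof.Id Id_closed ?_ ?_ finite_gen)
  · intro f g hg k hk
    have : k = conv f g := by ext x; exact hk x
    rw [this]
    exact (Id_ideal f g hg).1
  · intro f g hg k hk
    have : k = conv g f := by ext x; exact hk x
    rw [this]
    exact (Id_ideal f g hg).2

end Pool.Agent.S05428
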