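import Pool.Statements.S05453
import Pool.Agent.W696.QR.Quot
import Pool.Agent.W571.QR.GS
import Pool.Agent.W571.QR.AUS
import Pool.Agent.W641.QRSeq

set_option autoImplicit false
open Pool Pool.MP_94c330_an

namespace Pool.Agent.S05453

/-- For real Banach spaces X, Y: if Y is quasi-reflexive (image in bidual has finite codimension) and asymptotically uniformly smooth, and X coarse Lipschitz embeds into Y, then X is quasi-reflexive. -/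
theorem result :
    ∀ (X : Type) [NormedAddCommGroup X] [NormedSpace ℝ X] [CompleteSpace X]
      (Y : Type) [NormedAddCommGroup Y] [NormedSpace ℝ Y] [CompleteSpace Y],
      (∃ n : ℕ, ∃ ψ : Fin n → StrongDual ℝ (StrongDual ℝ Y),
        ∀ z : StrongDual ℝ (StrongDual ℝ Y), ∃ y : Y, ∃ c : Fin n → ℝ,
          z = NormedSpace.inclusionInDoubleDual ℝ Y y + ∑ i, c i • ψ i) →
      (∀ ε : ℝ, ε > 0 → ∃ δ : ℝ, δ > 0 ∧ ∀ t : ℝ, 0 < t → t < δ →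
        ∀ x : Y, ‖x‖ = 1 → ∃ n : ℕ, ∃ φ : Fin n → StrongDual ℝ Y,
          ∀ y : Y, (∀ i, φ i y = 0) → ‖y‖ ≤ t → ‖x + y‖ ≤ 1 + ε * t) →
      (∃ f : X → Y, ∃ A : ℝ, A > 0 ∧ ∃ B : ℝ, B > 0 ∧ ∃ C : ℝ, C ≥ 0 ∧
        ∀ a b : X, ‖a - b‖ / A - C ≤ ‖f a - f b‖ ∧ ‖f a - f b‖ ≤ B * ‖a - b‖ + C) →
      (∃ n : ℕ, ∃ ψ : Fin n → StrongDual ℝ (StrongDual ℝ X),
        ∀ z : StrongDual ℝ (StrongDual ℝ X), ∃ x : X, ∃ c : Fin n → ℝ,
          z = NormedSpace.inclusionInDoubleDual ℝ X x + ∑ i, c i • ψ i) := by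
  intro X _ _ _ Y _ _ _ hqr haus hemb
  obtain ⟨f, A, hA, B, hB, C, hC, hf⟩ := hemb
  have hF : Pool.Agent.W696.QR.CLU f B C := ⟨hB.le, hC, fun u v => (hf u v).2⟩
  have hl : ∀ u v, ‖u - v‖ / A - C ≤ ‖f u - f v‖ := fun u v => (hf u v).1
  obtain ⟨m, Qm, σ, P, hsplit, hPJ, hQJ⟩ := Pool.Agent.W571.QR.main_split Y hqr
  obtain ⟨kQ, hkQ0, hkQ⟩ := Pool.Agent.W696.QR.clm_bound
    (E := StrongDual ℝ (StrongDual ℝ Y)) (E' := Fin m → ℝ) Qm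
  obtain ⟨kσ, hkσ0, hkσ⟩ := Pool.Agent.W696.QR.clm_bound
    (E := Fin m → ℝ) (E' := StrongDual ℝ (StrongDual ℝ Y)) σ
  obtain ⟨kP, hkP0, hkP⟩ := Pool.Agent.W696.QR.clm_bound
    (E := StrongDual ℝ (StrongDual ℝ Y)) (E' := Y) P
  let d : Pool.Agent.W696.QR.Dec Y :=
    { m := m, Q := Qm.toLinearMap, σ := σ.toLinearMap, P := P.toLinearMap, kQ := kQ, kσ := kσ,
      kP := kP, hQ0 := hkQ0, hσ0 := hkσ0, hP0 := hkP0, hQ := hkQ, hσ := hkσ, hP := hkP,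
      split := hsplit, PJ := hPJ, QJ := hQJ }
  have hAu : ∀ ε : ℝ, 0 < ε → ∃ R : ℝ, 0 < R ∧ Pool.Agent.W696.QR.AusC Y ε R :=
    fun ε hε => Pool.Agent.W571.QR.main_aus Y haus ε hε
  by_contra hcon
  obtain ⟨Q, _, _, π, h1, h2, h3, h4⟩ := Pool.Agent.W696.QR.quot_exists
    (X := X) (E := StrongDual ℝ (StrongDual ℝ X)) (NormedSpace.inclusionInDoubleDualLi ℝ (E := X))
  have hQ : ¬ FiniteDimensional ℝ Q := fun h => hcon (h4 h)
  exact Pool.Agent.W696.QR.final hF hA hl d hAu π h1 h2 h3 hQ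
    Pool.Agent.W641.QRS.main (Pool.Agent.W571.QR.main_goldstine X)

end Pool.Agent.S05453
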