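import Pool.Statements.S05466
import Pool.Agent.W720.Osc

set_option autoImplicit false
open MeasureTheory Filter Topology
open Pool Pool.MP_95eb0c_an
open Pool.Agent.W720.Osc

namespace Pool.Agent.S05466

/-- The negation of the preceding statement: For ideal gas γ>1, any sequence of bounded weak solutions of 1D Lagrangian gas dynamics on t>0 with uniform bounds τ,p bounded away from 0 and ∣v∣≤V, converging weak-* in L^∞, has velocity and pressure converging in L¹ on every compact subset. -/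
theorem result :
    ¬ (∀ (γ : ℝ), 1 < γ →
  ∀ (τe ve pe : ℕ → ℝ × ℝ → ℝ) (τ v p : ℝ × ℝ → ℝ) (τm τM pm pM V : ℝ),
  0 < τm → τm ≤ τM → 0 < pm → pm ≤ pM →
  (∀ n, AEStronglyMeasurable (τe n) (volume.restrict {z : ℝ × ℝ | 0 < z.2}) ∧
        AEStronglyMeasurable (ve n) (volume.restrict {z : ℝ × ℝ | 0 < z.2}) ∧
        AEStronglyMeasurable (pe n) (volume.restrict {z : ℝ × ℝ | 0 < z.2})) →
  (∀ n, ∀ᵐ z ∂(volume.restrict {z : ℝ × ℝ | 0 < z.2}),
        τm ≤ τe n z ∧ τe n z ≤ τM ∧ pm ≤ pe n z ∧ pe n z ≤ pM ∧ |ve n z| ≤ V) →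
  (∀ n, ∀ φ : ℝ × ℝ → ℝ, ContDiff ℝ ((⊤ : ℕ∞) : WithTop ℕ∞) φ → HasCompactSupport φ →
      tsupport φ ⊆ {z : ℝ × ℝ | 0 < z.2} →
      (∫ z in {z : ℝ × ℝ | 0 < z.2},
          (τe n z * fderiv ℝ φ z (0, 1) - ve n z * fderiv ℝ φ z (1, 0))) = 0 ∧
      (∫ z in {z : ℝ × ℝ | 0 < z.2},
          (ve n z * fderiv ℝ φ z (0, 1) + pe n z * fderiv ℝ φ z (1, 0))) = 0 ∧
      (∫ z in {z : ℝ × ℝ | 0 < z.2},
          ((ve n z ^ 2 / 2 + pe n z * τe n z / (γ - 1)) * fderiv ℝ φ z (0, 1)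
            + pe n z * ve n z * fderiv ℝ φ z (1, 0))) = 0) →
  AEStronglyMeasurable τ (volume.restrict {z : ℝ × ℝ | 0 < z.2}) →
  AEStronglyMeasurable v (volume.restrict {z : ℝ × ℝ | 0 < z.2}) →
  AEStronglyMeasurable p (volume.restrict {z : ℝ × ℝ | 0 < z.2}) →
  (∃ C : ℝ, ∀ᵐ z ∂(volume.restrict {z : ℝ × ℝ | 0 < z.2}),
      |τ z| ≤ C ∧ |v z| ≤ C ∧ |p z| ≤ C) →
  (∀ g : ℝ × ℝ → ℝ, Integrable g (volume.restrict {z : ℝ × ℝ | 0 < z.2}) →
      Tendsto (fun n => ∫ z in {z : ℝ × ℝ | 0 < z.2}, τe n z * g z) atTop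
        (𝓝 (∫ z in {z : ℝ × ℝ | 0 < z.2}, τ z * g z)) ∧
      Tendsto (fun n => ∫ z in {z : ℝ × ℝ | 0 < z.2}, ve n z * g z) atTop
        (𝓝 (∫ z in {z : ℝ × ℝ | 0 < z.2}, v z * g z)) ∧
      Tendsto (fun n => ∫ z in {z : ℝ × ℝ | 0 < z.2}, pe n z * g z) atTop
        (𝓝 (∫ z in {z : ℝ × ℝ | 0 < z.2}, p z * g z))) →
  ∀ K : Set (ℝ × ℝ), IsCompact K → K ⊆ {z : ℝ × ℝ | 0 < z.2} →
    Tendsto (fun n => ∫ z in K, |ve n z - v z|) atTop (𝓝 0) ∧
    Tendsto (fun n => ∫ z in K, |pe n z - p z|) atTop (𝓝 0)) := by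
  intro H
  have hHm : MeasurableSet {z : ℝ × ℝ | 0 < z.2} := measurableSet_lt measurable_const measurable_snd
  -- the square wave and its complement
  let c : ℕ → ℝ × ℝ → ℝ := fun n z => sq ((n : ℝ) + 1) (z.1 - z.2)
  have hcm : ∀ n, Measurable (c n) := fun n => (sq_meas _).comp (measurable_fst.sub measurable_snd)
  have hc0 : ∀ n z, 0 ≤ c n z := fun n z => sq_nonneg _ _
  have hc1 : ∀ n z, c n z ≤ 1 := fun n z => sq_le _ _
  have hcc : ∀ n z, c n z = 0 ∨ c n z = 1 := fun n z => sq_cases _ _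
  have hcb : ∀ n, ∀ z, ‖c n z‖ ≤ 1 := fun n z => by
    rw [Real.norm_eq_abs, abs_of_nonneg (hc0 n z)]; exact hc1 n z
  -- the weak equations
  have hweak : ∀ n, ∀ φ : ℝ × ℝ → ℝ, ContDiff ℝ ((⊤ : ℕ∞) : WithTop ℕ∞) φ → HasCompactSupport φ →
      tsupport φ ⊆ {z : ℝ × ℝ | 0 < z.2} → ∀ a b k : ℝ,
      ∫ z in {z : ℝ × ℝ | 0 < z.2}, (a * fderiv ℝ φ z (0, 1) + b * fderiv ℝ φ z (1, 0)
        + k * (c n z * fderiv ℝ φ z (1, 1))) = 0 := by
    intro n φ hφ hs ht a b k
    have hfd : ∀ v : ℝ × ℝ, Integrable fun z => fderiv ℝ φ z v := fun v =>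
      ((hφ.continuous_fderiv (by simp)).clm_apply continuous_const).integrable_of_hasCompactSupport
        (hs.fderiv_apply (𝕜 := ℝ) v)
    have hc' : Integrable fun z => c n z * fderiv ℝ φ z (1, 1) :=
      (hfd _).bdd_mul (c := 1) (hcm n).aestronglyMeasurable (Eventually.of_forall (hcb n))
    rw [setIntegral_eq_integral_of_forall_compl_eq_zero]
    · have i1 : Integrable fun z => a * fderiv ℝ φ z (0, 1) := (hfd _).const_mul a
      have i2 : Integrable fun z => b * fderiv ℝ φ z (1, 0) := (hfd _).const_mul b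
      have i3 : Integrable fun z => a * fderiv ℝ φ z (0, 1) + b * fderiv ℝ φ z (1, 0) := i1.add i2
      rw [integral_add i3 (hc'.const_mul k), integral_add i1 i2, integral_const_mul,
        integral_const_mul, integral_const_mul, dir_int _ φ hφ hs, dir_int _ φ hφ hs]
      have := char_int (sq ((n : ℝ) + 1)) (sq_meas _)
        (fun y => by rw [abs_of_nonneg (sq_nonneg _ _)]; exact sq_le _ _) φ hφ hs
      show a * 0 + b * 0 + k * ∫ z : ℝ × ℝ, sq ((n : ℝ) + 1) (z.1 - z.2) * fderiv ℝ φ z (1, 1) = 0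
      rw [this]; ring
    · intro z hz
      have h0 : fderiv ℝ φ z = 0 := fderiv_of_notMem_tsupport (𝕜 := ℝ) (fun h => hz (ht h))
      simp [h0]
  have hsplit : ∀ (φ : ℝ × ℝ → ℝ) (z : ℝ × ℝ),
      fderiv ℝ φ z (1, 1) = fderiv ℝ φ z (0, 1) + fderiv ℝ φ z (1, 0) := by
    intro φ z
    rw [← map_add]; simp
  have hconv : ∀ (a b : ℝ) (g : ℝ × ℝ → ℝ),
      Integrable g (volume.restrict {z : ℝ × ℝ | 0 < z.2}) →
      Tendsto (fun n => ∫ z in {z : ℝ × ℝ | 0 < z.2}, (a + b * c n z) * g z) atTop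
        (𝓝 (∫ z in {z : ℝ × ℝ | 0 < z.2}, (a + b / 2) * g z)) := by
    intro a b g hg
    have hG : Integrable (Set.indicator {z : ℝ × ℝ | 0 < z.2} g) := (integrable_indicator_iff hHm).mpr hg
    have h1 := sq_weak _ hG
    have h2 : ∀ n, Integrable (fun z => c n z * g z) (volume.restrict {z : ℝ × ℝ | 0 < z.2}) :=
      fun n => hg.bdd_mul (c := 1) (hcm n).aestronglyMeasurable (Eventually.of_forall (hcb n))
    have e1 : ∀ n, ∫ z in {z : ℝ × ℝ | 0 < z.2}, (a + b * c n z) * g z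
        = a * (∫ z in {z : ℝ × ℝ | 0 < z.2}, g z)
          + b * ∫ z, sq ((n : ℝ) + 1) (z.1 - z.2) * Set.indicator {z : ℝ × ℝ | 0 < z.2} g z := by
      intro n
      have e2 : ∫ z, sq ((n : ℝ) + 1) (z.1 - z.2) * Set.indicator {z : ℝ × ℝ | 0 < z.2} g z
          = ∫ z in {z : ℝ × ℝ | 0 < z.2}, c n z * g z := by
        rw [← integral_indicator hHm]
        refine integral_congr_ae (Eventually.of_forall fun z => ?_)
        by_cases hz : z ∈ {z : ℝ × ℝ | 0 < z.2}
        · simp only [Set.indicator_of_mem hz]; rfl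
        · simp only [Set.indicator_of_notMem hz, mul_zero]
      rw [e2, ← integral_const_mul, ← integral_const_mul, ← integral_add (hg.const_mul a)
        ((h2 n).const_mul b)]
      refine integral_congr_ae (Eventually.of_forall fun z => ?_)
      simp only
      ring
    have e3 : ∫ z in {z : ℝ × ℝ | 0 < z.2}, (a + b / 2) * g z
        = a * (∫ z in {z : ℝ × ℝ | 0 < z.2}, g z)
          + b * (1 / 2 * ∫ z, Set.indicator {z : ℝ × ℝ | 0 < z.2} g z) := by
      rw [integral_const_mul, integral_indicator hHm]; ring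
    rw [e3]
    refine Tendsto.congr (fun n => (e1 n).symm) ?_
    exact (h1.const_mul b).const_add _
  have key := H 2 (by norm_num) (fun n z => 2 + (-1) * c n z) (fun n z => 0 + 1 * c n z)
    (fun n z => 1 / 4 + 1 * c n z) (fun _ => 2 + (-1) / 2) (fun _ => 0 + 1 / 2)
    (fun _ => 1 / 4 + 1 / 2) 1 2 (1 / 4) (5 / 4) 1 (by norm_num) (by norm_num) (by norm_num)
    (by norm_num)
    (fun n => ⟨((hcm n).const_mul _ |>.const_add _).aestronglyMeasurable,
      ((hcm n).const_mul _ |>.const_add _).aestronglyMeasurable,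
      ((hcm n).const_mul _ |>.const_add _).aestronglyMeasurable⟩)
    (fun n => Eventually.of_forall fun z => by
      have h0 := hc0 n z
      have h1 := hc1 n z
      refine ⟨by linarith, by linarith, by linarith, by linarith, ?_⟩
      rw [abs_of_nonneg (by linarith)]; linarith)
    (fun n φ hφ hs ht => by
      refine ⟨?_, ?_, ?_⟩
      · refine Eq.trans ?_ (hweak n φ hφ hs ht 2 0 (-1))
        refine integral_congr_ae (Eventually.of_forall fun z => ?_)
        simp only [hsplit]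
        ring
      · refine Eq.trans ?_ (hweak n φ hφ hs ht 0 (1 / 4) 1)
        refine integral_congr_ae (Eventually.of_forall fun z => ?_)
        simp only [hsplit]
        ring
      · refine Eq.trans ?_ (hweak n φ hφ hs ht (1 / 2) 0 (5 / 4))
        refine integral_congr_ae (Eventually.of_forall fun z => ?_)
        simp only [hsplit]
        rcases hcc n z with h | h
        · rw [h]; ring
        · rw [h]; ring)
    aestronglyMeasurable_const aestronglyMeasurable_const aestronglyMeasurable_const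
    ⟨2, Eventually.of_forall fun z => by
      refine ⟨?_, ?_, ?_⟩ <;> rw [abs_of_nonneg (by norm_num)] <;> norm_num⟩
    (fun g hg => ⟨hconv 2 (-1) g hg, hconv 0 1 g hg, hconv (1 / 4) 1 g hg⟩)
    (Set.Icc (0 : ℝ) 1 ×ˢ Set.Icc (1 : ℝ) 2) (isCompact_Icc.prod isCompact_Icc)
    (fun z hz => lt_of_lt_of_le one_pos hz.2.1)
  have h1 := key.1
  have h2 : ∀ n : ℕ, ∫ z in Set.Icc (0 : ℝ) 1 ×ˢ Set.Icc (1 : ℝ) 2,
      |(0 + 1 * c n z) - (0 + 1 / 2)| = 1 / 2 := by
    intro n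
    have e : ∀ z, |(0 + 1 * c n z) - (0 + 1 / 2)| = (1 / 2 : ℝ) := by
      intro z
      rcases hcc n z with h | h
      · rw [h]; norm_num
      · rw [h]; norm_num
    simp only [e]
    rw [setIntegral_const]
    have : (volume : Measure (ℝ × ℝ)).real (Set.Icc (0 : ℝ) 1 ×ˢ Set.Icc (1 : ℝ) 2) = 1 := by
      rw [Measure.volume_eq_prod, measureReal_def, Measure.prod_prod, Real.volume_Icc,
        Real.volume_Icc]
      norm_num
    rw [this]; norm_num
  have h3 : Tendsto (fun _ : ℕ => (1 / 2 : ℝ)) atTop (𝓝 0) := h1.congr h2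
  have := tendsto_nhds_unique h3 tendsto_const_nhds
  norm_num at this

end Pool.Agent.S05466
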