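import Pool.Statements.S05488
import Pool.Agent.W669.QNS

set_option autoImplicit false
open Pool Pool.MP_97b573_an

namespace Pool.Agent.S05488

open Pool.Agent.W669.QNS

/-- the element `∑ 2^{-k-1} X^{μ_k}` -/
noncomputable def F : ℚ → ℂ := Function.extend mu (fun k => ((lam k : ℝ) : ℂ)) 0

lemma mu_inj : Function.Injective mu := mu_strictAnti.injective

lemma F_mu (k : ℕ) : F (mu k) = ((lam k : ℝ) : ℂ) := mu_inj.extend_apply _ _ _

lemma F_ne {q : ℚ} (h : F q ≠ 0) : ∃ k, mu k = q := by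
  by_contra hcon
  exact h (Function.extend_apply' _ _ _ hcon)

lemma Phi_norm_le {s : ℚ} (h0 : 0 ≤ s) : ‖((Phi s : ℝ) : ℂ)‖ ≤ om s := by
  rw [Complex.norm_real]
  exact Phi_le h0

/-- the weighted space -/
def Mem (f : ℚ → ℂ) : Prop := (∀ q : ℚ, q < 0 → f q = 0) ∧ Summable (fun q : ℚ => ‖f q‖ * om q)

lemma pair_bound {f : ℚ → ℂ} (hf : ∀ q : ℚ, q < 0 → f q = 0) {s : ℚ} (hs : 0 ≤ s) (q : ℚ) :
    ‖f q * ((Phi (q + s) : ℝ) : ℂ)‖ ≤ ‖f q‖ * om q * om s := by
  by_cases h : q < 0
  · rw [hf q h]; simp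
  · push Not at h
    rw [norm_mul, mul_assoc]
    exact mul_le_mul_of_nonneg_left ((Phi_norm_le (add_nonneg h hs)).trans (om_add h hs))
      (norm_nonneg _)

lemma pair_summable {f : ℚ → ℂ} (hf : Mem f) {s : ℚ} (hs : 0 ≤ s) :
    Summable fun q : ℚ => f q * ((Phi (q + s) : ℝ) : ℂ) :=
  Summable.of_norm_bounded (hf.2.mul_right (om s)) (pair_bound hf.1 hs)

/-- the ideal -/
def Id : Set (ℚ → ℂ) := {f | Mem f ∧ ∀ s : ℚ, 0 ≤ s → ∑' q : ℚ, f q * ((Phi (q + s) : ℝ) : ℂ) = 0}

lemma mem_add {f g : ℚ → ℂ} (hf : Mem f) (hg : Mem g) : Mem (f + g) := by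
  refine ⟨fun q hq => by simp [hf.1 q hq, hg.1 q hq], ?_⟩
  refine Summable.of_nonneg_of_le (fun q => mul_nonneg (norm_nonneg _) (om_pos q).le) (fun q => ?_)
    (hf.2.add hg.2)
  rw [← add_mul]
  exact mul_le_mul_of_nonneg_right (norm_add_le _ _) (om_pos q).le

lemma mem_smul {f : ℚ → ℂ} (c : ℂ) (hf : Mem f) : Mem (c • f) := by
  refine ⟨fun q hq => by simp [hf.1 q hq], ?_⟩
  refine (hf.2.mul_left ‖c‖).congr fun q => ?_
  simp only [Pi.smul_apply, smul_eq_mul, norm_mul]
  ring

/-- `(t, s) ↦ (s, t - s)` -/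
def sh : ℚ × ℚ ≃ ℚ × ℚ where
  toFun p := (p.2, p.1 - p.2)
  invFun p := (p.1 + p.2, p.1)
  left_inv p := by ext <;> simp
  right_inv p := by ext <;> simp

lemma summable_AB {a f : ℚ → ℂ} (ha : Mem a) (hf : Mem f) :
    Summable fun p : ℚ × ℚ => (‖a p.2‖ * om p.2) * (‖f (p.1 - p.2)‖ * om (p.1 - p.2)) := by
  have h1 : Summable fun p : ℚ × ℚ => (‖a p.1‖ * om p.1) * (‖f p.2‖ * om p.2) := by
    refine Summable.mul_of_nonneg (f := fun q : ℚ => ‖a q‖ * om q) (g := fun q : ℚ => ‖f q‖ * om q)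
      ha.2 hf.2 ?_ ?_
    · intro q
      exact mul_nonneg (norm_nonneg _) (om_pos q).le
    · intro q
      exact mul_nonneg (norm_nonneg _) (om_pos q).le
  exact (sh.summable_iff (f := fun p : ℚ × ℚ => (‖a p.1‖ * om p.1) * (‖f p.2‖ * om p.2))).2 h1

lemma AB_bound {a f : ℚ → ℂ} (ha : Mem a) (hf : Mem f) (t s : ℚ) :
    ‖a s * f (t - s)‖ * om t ≤ (‖a s‖ * om s) * (‖f (t - s)‖ * om (t - s)) := by
  by_cases hs : s < 0
  · rw [ha.1 s hs]; simp
  · by_cases ht : t - s < 0
    · rw [hf.1 _ ht]; simp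
    · push Not at hs ht
      have h := om_add hs ht
      rw [add_sub_cancel] at h
      rw [norm_mul]
      calc ‖a s‖ * ‖f (t - s)‖ * om t ≤ ‖a s‖ * ‖f (t - s)‖ * (om s * om (t - s)) :=
            mul_le_mul_of_nonneg_left h (by positivity)
        _ = _ := by ring

lemma mem_conv {a f : ℚ → ℂ} (ha : Mem a) (hf : Mem f) :
    Mem (fun t : ℚ => ∑' s : ℚ, a s * f (t - s)) := by
  have h1 := summable_AB ha hf
  constructor
  · intro t ht
    have : (fun s : ℚ => a s * f (t - s)) = fun _ => 0 := by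
      funext s
      by_cases hs : s < 0
      · rw [ha.1 s hs, zero_mul]
      · rw [hf.1 (t - s) (by linarith), mul_zero]
    simp only [this, tsum_zero]
  · refine Summable.of_nonneg_of_le (fun q => mul_nonneg (norm_nonneg _) (om_pos q).le) (fun t => ?_)
      h1.prod
    have h2 : Summable fun s : ℚ => ‖a s * f (t - s)‖ * om t :=
      Summable.of_nonneg_of_le (fun s => mul_nonneg (norm_nonneg _) (om_pos t).le)
        (fun s => AB_bound ha hf t s) (h1.prod_factor t)
    have h3 : Summable fun s : ℚ => ‖a s * f (t - s)‖ := by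
      have := h2.mul_right (om t)⁻¹
      refine this.congr fun s => ?_
      have := (om_pos t).ne'
      field_simp
    calc ‖∑' s : ℚ, a s * f (t - s)‖ * om t ≤ (∑' s : ℚ, ‖a s * f (t - s)‖) * om t :=
          mul_le_mul_of_nonneg_right (norm_tsum_le_tsum_norm h3) (om_pos t).le
      _ = ∑' s : ℚ, ‖a s * f (t - s)‖ * om t := by rw [tsum_mul_right]
      _ ≤ _ := h2.tsum_le_tsum (fun s => AB_bound ha hf t s) (h1.prod_factor t)

lemma conv_zero {a f : ℚ → ℂ} (ha : Mem a) (hf : f ∈ Id) {r : ℚ} (hr : 0 ≤ r) :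
    ∑' t : ℚ, (∑' s : ℚ, a s * f (t - s)) * ((Phi (t + r) : ℝ) : ℂ) = 0 := by
  have hfm := hf.1
  have h1 := summable_AB ha hfm
  have h2 : Summable (Function.uncurry fun t s : ℚ => a s * f (t - s) * ((Phi (t + r) : ℝ) : ℂ)) := by
    refine Summable.of_norm_bounded (h1.mul_right (om r)) fun p => ?_
    obtain ⟨t, s⟩ := p
    simp only [Function.uncurry]
    by_cases hs : s < 0
    · rw [ha.1 s hs]; simp
    · by_cases ht : t - s < 0
      · rw [hfm.1 _ ht]; simp
      · push Not at hs ht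
        have ht0 : 0 ≤ t := by linarith
        rw [norm_mul]
        calc ‖a s * f (t - s)‖ * ‖((Phi (t + r) : ℝ) : ℂ)‖
            ≤ ‖a s * f (t - s)‖ * (om t * om r) :=
              mul_le_mul_of_nonneg_left ((Phi_norm_le (add_nonneg ht0 hr)).trans (om_add ht0 hr))
                (norm_nonneg _)
          _ = ‖a s * f (t - s)‖ * om t * om r := by ring
          _ ≤ _ := mul_le_mul_of_nonneg_right (AB_bound ha hfm t s) (om_pos r).le
  simp only [← tsum_mul_right]
  rw [← h2.tsum_comm]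
  have h3 : ∀ s : ℚ, ∑' t : ℚ, a s * f (t - s) * ((Phi (t + r) : ℝ) : ℂ) = 0 := by
    intro s
    by_cases hs : s < 0
    · simp [ha.1 s hs]
    · push Not at hs
      have h4 := (Equiv.addRight s).tsum_eq fun t : ℚ => a s * f (t - s) * ((Phi (t + r) : ℝ) : ℂ)
      rw [← h4]
      have h5 : ∀ u : ℚ, a s * f ((Equiv.addRight s) u - s) * ((Phi ((Equiv.addRight s) u + r) : ℝ) : ℂ)
          = a s * (f u * ((Phi (u + (s + r)) : ℝ) : ℂ)) := by
        intro u
        simp only [Equiv.coe_addRight]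
        rw [add_sub_cancel_right, mul_assoc, add_assoc]
      simp only [h5]
      rw [tsum_mul_left, hf.2 (s + r) (add_nonneg hs hr), mul_zero]
  simp only [h3, tsum_zero]

lemma F_mem : F ∈ Id := by
  refine ⟨⟨fun q hq => ?_, ?_⟩, fun s hs => ?_⟩
  · by_contra h
    obtain ⟨k, rfl⟩ := F_ne h
    exact absurd hq (not_lt.mpr (mu_pos k).le)
  · have h : Function.support (fun q : ℚ => ‖F q‖ * om q) ⊆ Set.range mu := by
      intro q hq
      have : F q ≠ 0 := by
        intro h0
        apply hq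
        simp [h0]
      exact F_ne this
    rw [← mu_inj.summable_iff (fun x hx => by
      by_contra hne
      exact hx (h hne))]
    refine Summable.of_nonneg_of_le (fun k => mul_nonneg (norm_nonneg _) (om_pos _).le) (fun k => ?_)
      ((summable_geometric_of_lt_one (by norm_num : (0 : ℝ) ≤ 1 / 2) (by norm_num)).mul_left 4)
    simp only [Function.comp]
    rw [F_mu, Complex.norm_real, Real.norm_of_nonneg (lam_pos k).le]
    have h1 := om_mu k
    have h2 : lam k ≤ (1 / 2) ^ k := by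
      unfold lam
      exact pow_le_pow_of_le_one (by norm_num) (by norm_num) (Nat.le_succ k)
    have h3 := lam_pos k
    have h4 := om_pos (mu k)
    nlinarith
  · have h : Function.support (fun q : ℚ => F q * ((Phi (q + s) : ℝ) : ℂ)) ⊆ Set.range mu := by
      intro q hq
      exact F_ne (left_ne_zero_of_mul hq)
    rw [← mu_inj.tsum_eq h]
    simp only [F_mu]
    have h1 := tsum_Phi hs
    have h2 : ∀ i, ((lam i : ℝ) : ℂ) * ((Phi (mu i + s) : ℝ) : ℂ)
        = ((lam i * Phi (s + mu i) : ℝ) : ℂ) := by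
      intro i
      push_cast
      rw [add_comm]
    simp only [h2]
    rw [← Complex.ofReal_tsum, h1, Complex.ofReal_zero]

/-- the point mass at `1` -/
noncomputable def P : ℚ → ℂ := fun q => if q = 1 then 1 else 0

lemma P_not_mem : P ∉ Id := by
  intro h
  have h1 := h.2 0 le_rfl
  rw [tsum_eq_single 1] at h1
  · simp [P, Phi_one] at h1
  · intro q hq
    simp [P, hq]

lemma P_mem : Mem P := by
  refine ⟨fun q hq => if_neg (by linarith), ?_⟩
  apply summable_of_ne_finset_zero (s := {1})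
  intro q hq
  rw [Finset.mem_singleton] at hq
  simp [P, hq]

/-- The negation of the preceding statement: For every radical weight ω on the nonnegative rationals, every closed ideal of the weighted convolution algebra ℓ¹(ℚ⁺,ω) is {0} or consists of all elements vanishing below some real α ≥ 0 (strictly or non-strictly). -/
theorem result :
    ¬ (∀ ω : ℚ → ℝ,
    (∀ q : ℚ, 0 ≤ q → 0 < ω q) →
    (∀ s t : ℚ, 0 ≤ s → 0 ≤ t → ω (s + t) ≤ ω s * ω t) →
    (∀ t : ℚ, 0 < t →
      Filter.Tendsto (fun n : ℕ => ω ((n : ℚ) * t) ^ ((1 : ℝ) / (n : ℝ)))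
        Filter.atTop (nhds 0)) →
    ∀ I : Set (ℚ → ℂ),
      (∀ f ∈ I, (∀ q : ℚ, q < 0 → f q = 0) ∧ Summable (fun q : ℚ => ‖f q‖ * ω q)) →
      (0 : ℚ → ℂ) ∈ I →
      (∀ f ∈ I, ∀ g ∈ I, f + g ∈ I) →
      (∀ c : ℂ, ∀ f ∈ I, c • f ∈ I) →
      (∀ a : ℚ → ℂ, (∀ q : ℚ, q < 0 → a q = 0) →
         Summable (fun q : ℚ => ‖a q‖ * ω q) →
         ∀ f ∈ I, (fun t : ℚ => ∑' s : ℚ, a s * f (t - s)) ∈ I) →
      (∀ f : ℚ → ℂ, (∀ q : ℚ, q < 0 → f q = 0) →
         Summable (fun q : ℚ => ‖f q‖ * ω q) →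
         (∀ ε : ℝ, 0 < ε → ∃ g ∈ I, ∑' q : ℚ, ‖f q - g q‖ * ω q < ε) → f ∈ I) →
      (I = {(0 : ℚ → ℂ)} ∨ ∃ α : ℝ, 0 ≤ α ∧
        (I = {f : ℚ → ℂ | (∀ q : ℚ, q < 0 → f q = 0) ∧
                Summable (fun q : ℚ => ‖f q‖ * ω q) ∧
                ∀ q : ℚ, (q : ℝ) < α → f q = 0} ∨
         I = {f : ℚ → ℂ | (∀ q : ℚ, q < 0 → f q = 0) ∧
                Summable (fun q : ℚ => ‖f q‖ * ω q) ∧
                ∀ q : ℚ, (q : ℝ) ≤ α → f q = 0}))) := by
  intro H
  have key := H om (fun q _ => om_pos q) (fun s t hs ht => om_add hs ht) ?_ Id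
    (fun f hf => hf.1) ?_ ?_ ?_ ?_ ?_
  · rcases key with h | ⟨α, hα, h | h⟩
    · have h1 := F_mem
      rw [h, Set.mem_singleton_iff] at h1
      have h2 := F_mu 0
      rw [h1] at h2
      have h3 := lam_pos 0
      simp only [Pi.zero_apply] at h2
      have h4 : lam 0 = 0 := by exact_mod_cast h2.symm
      linarith
    · have h0 : α ≤ 0 := by
        by_contra hc
        push Not at hc
        obtain ⟨n, hn⟩ := exists_nat_gt (1 / α)
        have h1 := F_mem
        rw [h] at h1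
        have h2 : ((mu n : ℚ) : ℝ) < α := by
          have h3 : ((mu n : ℚ) : ℝ) * (n + 1) ≤ 1 := by exact_mod_cast mu_small' n
          have h4 : (0 : ℝ) < ((mu n : ℚ) : ℝ) := by exact_mod_cast mu_pos n
          rw [div_lt_iff₀ hc] at hn
          by_contra hcon
          push Not at hcon
          have h5 : (0 : ℝ) ≤ n := by positivity
          nlinarith
        have h3 := h1.2.2 (mu n) h2
        rw [F_mu] at h3
        have h4 : lam n = 0 := by exact_mod_cast h3
        linarith [lam_pos n]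
      apply P_not_mem
      rw [h]
      refine ⟨P_mem.1, P_mem.2, fun q hq => P_mem.1 q ?_⟩
      have : (q : ℝ) < 0 := by linarith
      exact_mod_cast this
    · have h0 : α ≤ 0 := by
        by_contra hc
        push Not at hc
        obtain ⟨n, hn⟩ := exists_nat_gt (1 / α)
        have h1 := F_mem
        rw [h] at h1
        have h2 : ((mu n : ℚ) : ℝ) < α := by
          have h3 : ((mu n : ℚ) : ℝ) * (n + 1) ≤ 1 := by exact_mod_cast mu_small' n
          have h4 : (0 : ℝ) < ((mu n : ℚ) : ℝ) := by exact_mod_cast mu_pos n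
          rw [div_lt_iff₀ hc] at hn
          by_contra hcon
          push Not at hcon
          have h5 : (0 : ℝ) ≤ n := by positivity
          nlinarith
        have h3 := h1.2.2 (mu n) h2.le
        rw [F_mu] at h3
        have h4 : lam n = 0 := by exact_mod_cast h3
        linarith [lam_pos n]
      apply P_not_mem
      rw [h]
      refine ⟨P_mem.1, P_mem.2, fun q hq => if_neg ?_⟩
      rintro rfl
      push_cast at hq
      linarith
  · -- radical
    intro t ht
    have htR : (0 : ℝ) < t := by exact_mod_cast ht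
    have h1 : Filter.Tendsto (fun n : ℕ => Real.exp (-((n : ℝ) * (t : ℝ) ^ 2))) Filter.atTop
        (nhds 0) := by
      apply Real.tendsto_exp_neg_atTop_nhds_zero.comp
      exact tendsto_natCast_atTop_atTop.atTop_mul_const (by positivity)
    refine h1.congr' ?_
    obtain ⟨N, hN⟩ := exists_nat_gt (1 / t)
    filter_upwards [Filter.eventually_ge_atTop (N + 1)] with n hn
    have h2 : 1 < (n : ℚ) * t := by
      rw [div_lt_iff₀ ht] at hN
      have h3 : (N : ℚ) ≤ n := by exact_mod_cast (Nat.le_succ N).trans hn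
      nlinarith
    have hn0 : (0 : ℝ) < n := by
      have : 0 < n := by omega
      exact_mod_cast this
    unfold om
    rw [if_neg (not_le.mpr h2), ← Real.exp_mul]
    congr 1
    push_cast
    field_simp
  · exact ⟨⟨fun _ _ => rfl, by simp⟩, fun s _ => by simp⟩
  · intro f hf g hg
    refine ⟨mem_add hf.1 hg.1, fun s hs => ?_⟩
    simp only [Pi.add_apply, add_mul]
    rw [(pair_summable hf.1 hs).tsum_add (pair_summable hg.1 hs), hf.2 s hs, hg.2 s hs, add_zero]
  · intro c f hf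
    refine ⟨mem_smul c hf.1, fun s hs => ?_⟩
    simp only [Pi.smul_apply, smul_eq_mul, mul_assoc]
    rw [tsum_mul_left, hf.2 s hs, mul_zero]
  · intro a ha ha' f hf
    exact ⟨mem_conv ⟨ha, ha'⟩ hf.1, fun s hs => conv_zero ⟨ha, ha'⟩ hf hs⟩
  · intro f hf hf' happ
    refine ⟨⟨hf, hf'⟩, fun s hs => ?_⟩
    have hfm : Mem f := ⟨hf, hf'⟩
    rw [← norm_eq_zero]
    apply le_antisymm _ (norm_nonneg _)
    apply le_of_forall_pos_le_add
    intro ε hε
    rw [zero_add]
    obtain ⟨g, hg, hlt⟩ := happ (ε / om s) (div_pos hε (om_pos s))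
    have hfg : Mem (f + (-1 : ℂ) • g) := mem_add hfm (mem_smul _ hg.1)
    have h1 : ∑' q : ℚ, f q * ((Phi (q + s) : ℝ) : ℂ)
        = ∑' q : ℚ, (f + (-1 : ℂ) • g) q * ((Phi (q + s) : ℝ) : ℂ) := by
      have h2 : ∀ q : ℚ, (f + (-1 : ℂ) • g) q * ((Phi (q + s) : ℝ) : ℂ)
          = f q * ((Phi (q + s) : ℝ) : ℂ) - g q * ((Phi (q + s) : ℝ) : ℂ) := by
        intro q
        simp only [Pi.add_apply, Pi.smul_apply, smul_eq_mul]
        ring
      simp only [h2]
      rw [(pair_summable hfm hs).tsum_sub (pair_summable hg.1 hs), hg.2 s hs, sub_zero]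
    rw [h1]
    have h3 := hfg.2.mul_right (om s)
    calc ‖∑' q : ℚ, (f + (-1 : ℂ) • g) q * ((Phi (q + s) : ℝ) : ℂ)‖
        ≤ ∑' q : ℚ, ‖(f + (-1 : ℂ) • g) q‖ * om q * om s :=
          tsum_of_norm_bounded h3.hasSum (pair_bound hfg.1 hs)
      _ = (∑' q : ℚ, ‖(f + (-1 : ℂ) • g) q‖ * om q) * om s := tsum_mul_right
      _ ≤ (ε / om s) * om s := by
          apply mul_le_mul_of_nonneg_right _ (om_pos s).le
          refine le_trans (le_of_eq ?_) hlt.le
          apply tsum_congr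
          intro q
          simp only [Pi.add_apply, Pi.smul_apply, smul_eq_mul]
          congr 2
          ring
      _ = ε := div_mul_cancel₀ _ (om_pos s).ne'

end Pool.Agent.S05488
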