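import Pool.Statements.S05498
import Pool.Agent.Results.MP_987215_an.PointwiseFails

set_option autoImplicit false
open Classical
open Pool Pool.MP_987215_an

namespace Pool.Agent.S05498

/-- The negation of the preceding statement: For n≥1, k≤n-1 and self-conjugate nodes in the closed unit disc, the least upper bound of the k-th derivative Hermite interpolation error at 1, over entire g with n-th derivative bounded by 1 on the disc, equals the k-th derivative of the nodal polynomial at 1 in modulus, divided by n!. -/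
theorem result :
    ¬ (∀ (n : ℕ), 1 ≤ n → ∀ k : ℕ, k ≤ n - 1 → ∀ z : Fin n → ℂ, (∀ j, ‖z j‖ ≤ 1) →
    (∀ w : ℂ, w.im ≠ 0 →
      (Finset.univ.filter (fun j => z j = w)).card =
        (Finset.univ.filter (fun j => z j = starRingEnd ℂ w)).card) →
    (∀ w : ℂ, w.im = 0 → Even (Finset.univ.filter (fun j => z j = w)).card) →
    IsLUB {e : ℝ | ∃ g : ℂ → ℂ, ∃ p : Polynomial ℂ,
        Differentiable ℂ g ∧
        (∀ w : ℂ, ‖w‖ ≤ 1 → ‖iteratedDeriv n g w‖ ≤ 1) ∧
        p.degree < (n : WithBot ℕ) ∧
        (∀ j : Fin n, ∀ i : ℕ, i < (Finset.univ.filter (fun l => z l = z j)).card →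
          iteratedDeriv i (fun x => p.eval x) (z j) = iteratedDeriv i g (z j)) ∧
        e = ‖iteratedDeriv k g 1 - iteratedDeriv k (fun x => p.eval x) 1‖}
      (‖iteratedDeriv k (fun x => (∏ j : Fin n, (Polynomial.X - Polynomial.C (z j))).eval x) 1‖
        / (n.factorial : ℝ))) := by
  intro H
  have hcard : ∀ w : ℂ, (Finset.univ.filter
      (fun j => Results.MP_987215_an.PointwiseFails.pair (4/5) (3/5) j = w)).card
      = Results.MP_987215_an.PointwiseFails.mult
          (Results.MP_987215_an.PointwiseFails.pair (4/5) (3/5)) w := by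
    intro w
    unfold Results.MP_987215_an.PointwiseFails.mult
    congr
  have hsc := Results.MP_987215_an.PointwiseFails.pair_selfConjugate (4/5) (3/5) (by norm_num)
  have h := H 2 (by norm_num) 1 (by norm_num)
    (Results.MP_987215_an.PointwiseFails.pair (4/5) (3/5)) (by
      intro j
      have hn : ∀ a b : ℝ, a ^ 2 + b ^ 2 = 1 → ‖(⟨a, b⟩ : ℂ)‖ ≤ 1 := by
        intro a b hab
        rw [Complex.norm_def, Complex.normSq_mk]
        apply Real.sqrt_le_one.2
        nlinarith
      fin_cases j
      · exact hn _ _ (by norm_num)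
      · exact hn _ _ (by norm_num))
    (by
      intro w hw
      rw [hcard, hcard]
      exact hsc.1 w hw)
    (by
      intro w hw
      rw [hcard]
      exact hsc.2 w hw)
  have hint := Results.MP_987215_an.PointwiseFails.ptest_interpolant (4/5) (3/5) (by norm_num)
  have h1 := h.1 ⟨Results.MP_987215_an.PointwiseFails.gtest,
    Results.MP_987215_an.PointwiseFails.ptest (4/5) (3/5),
    Results.MP_987215_an.PointwiseFails.gtest_inClass.1,
    Results.MP_987215_an.PointwiseFails.gtest_inClass.2, hint.1, (by
      intro j i hi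
      rw [hcard] at hi
      exact hint.2 _ i hi), rfl⟩
  have hd : ∀ (p : Polynomial ℂ) (x : ℂ), iteratedDeriv 1 (fun x => p.eval x) x
      = (Polynomial.derivative^[1] p).eval x := by
    intro p x
    rw [iteratedDeriv_one, Polynomial.deriv, Function.iterate_one]
  rw [hd, hd] at h1
  have hnod : (∏ j : Fin 2, (Polynomial.X - Polynomial.C
      (Results.MP_987215_an.PointwiseFails.pair (4/5) (3/5) j)))
      = Results.MP_987215_an.PointwiseFails.nodal
        (Results.MP_987215_an.PointwiseFails.pair (4/5) (3/5)) := rfl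
  rw [hnod, Results.MP_987215_an.PointwiseFails.deriv_ptest,
    Results.MP_987215_an.PointwiseFails.deriv_nodal,
    Results.MP_987215_an.PointwiseFails.iteratedDeriv_gtest] at h1
  have e1 : ((1:ℂ) ^ 2 / 2 - (((3 * (4/5 : ℝ) ^ 2 - (3/5 : ℝ) ^ 2) / 6 : ℝ) : ℂ))
      = ((6/25 : ℝ) : ℂ) := by
    push_cast
    norm_num
  have e2 : (2 * (1:ℂ) - ((2 * (4/5 : ℝ) : ℝ) : ℂ)) = ((2/5 : ℝ) : ℂ) := by
    push_cast
    norm_num
  rw [e1, e2, Complex.norm_real, Complex.norm_real] at h1
  norm_num at h1

end Pool.Agent.S05498
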