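import Pool.Statements.S05570
import Pool.Agent.W683.BH.Fin

set_option autoImplicit false
open scoped BoundedContinuousFunction
open Pool Pool.MP_9e0ccb_an

namespace Pool.Agent.S05570

/-- The negation of the preceding statement: For every nonseparable real Hilbert space H, the space of continuous real functions on its weakly topologized closed unit ball is linearly homeomorphic to C(L) for some compact Hausdorff totally disconnected space L. -/
theorem result :
    ¬ (∀ (H : Type) [NormedAddCommGroup H] [InnerProductSpace ℝ H] [CompleteSpace H],
      ¬ TopologicalSpace.SeparableSpace H →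
      ∃ (L : Type) (_ : TopologicalSpace L),
        CompactSpace L ∧ T2Space L ∧ TotallyDisconnectedSpace L ∧
        Nonempty ((↥(toWeakSpace ℝ H '' Metric.closedBall (0 : H) 1) →ᵇ ℝ) ≃L[ℝ] (L →ᵇ ℝ))) := by
  exact Pool.Agent.W683.BH.frozen

end Pool.Agent.S05570
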