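import Pool.Statements.S05571
-- import your own Pool.Agent.* helpers here
import Pool.Agent.W735.IW.Asm

set_option autoImplicit false
open Filter Topology MeasureTheory
open scoped ENNReal
open Pool Pool.MP_9e2694_an

namespace Pool.Agent.S05571

/-- Let N(p) be the best constant with ‖Tg‖_p ≤ N(p)‖g‖_p for all smooth compactly supported g on the plane, T the principal-value Beurling transform. Then the liminf of N(p)/p as p→∞ equals 1. -/
theorem result :
    Filter.liminf
      (fun p : ℝ =>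
        sInf {C : ℝ≥0∞ | ∀ g : ℂ → ℂ, ContDiff ℝ (⊤ : ℕ∞) g → HasCompactSupport g →
          ∀ Tg : ℂ → ℂ,
            (∀ x : ℂ, Tendsto
              (fun ε : ℝ => -(1 / (Real.pi : ℂ)) *
                ∫ y in {y : ℂ | ε < ‖x - y‖}, g y / (x - y) ^ 2)
              (𝓝[>] (0 : ℝ)) (𝓝 (Tg x))) →
            eLpNorm Tg (ENNReal.ofReal p) volume ≤ C * eLpNorm g (ENNReal.ofReal p) volume}
        / ENNReal.ofReal p)
      atTop = 1 := by
  have hN : ∀ p : ℝ, 3 ≤ p →
      sInf {C : ℝ≥0∞ | ∀ g : ℂ → ℂ, ContDiff ℝ (⊤ : ℕ∞) g → HasCompactSupport g →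
          ∀ Tg : ℂ → ℂ,
            (∀ x : ℂ, Tendsto
              (fun ε : ℝ => -(1 / (Real.pi : ℂ)) *
                ∫ y in {y : ℂ | ε < ‖x - y‖}, g y / (x - y) ^ 2)
              (𝓝[>] (0 : ℝ)) (𝓝 (Tg x))) →
            eLpNorm Tg (ENNReal.ofReal p) volume ≤ C * eLpNorm g (ENNReal.ofReal p) volume}
        = ENNReal.ofReal (p - 1) := by
    intro p hp
    refine le_antisymm (sInf_le ?_) (le_sInf ?_)
    · intro g hg hc Tg hT
      exact Pool.Agent.W735.IW.Asm.ub p (by linarith) g hg hc Tg hT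
    · intro C hC
      refine Pool.Agent.W735.IW.Asm.lb p (by linarith) C (fun f hf hc => ?_)
      exact hC (Pool.Agent.W488.IW.dzb f) (Pool.Agent.W191.IW.Pvc.contDiff_dzb hf)
        (Pool.Agent.W191.IW.Pvc.hasCompactSupport_dzb hc) _
        (Pool.Agent.W735.IW.Asm.pvc f hf hc)
  have hlim : Tendsto (fun p : ℝ => ENNReal.ofReal (p - 1) / ENNReal.ofReal p) atTop (𝓝 1) := by
    have h1 : Tendsto (fun p : ℝ => (p - 1) / p) atTop (𝓝 1) := by
      have h2 : Tendsto (fun p : ℝ => 1 - p⁻¹) atTop (𝓝 (1 - 0)) :=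
        tendsto_const_nhds.sub tendsto_inv_atTop_zero
      rw [sub_zero] at h2
      refine h2.congr' ?_
      filter_upwards [eventually_gt_atTop (0 : ℝ)] with p hp
      field_simp
    have h3 := ENNReal.tendsto_ofReal h1
    rw [ENNReal.ofReal_one] at h3
    refine h3.congr' ?_
    filter_upwards [eventually_gt_atTop (0 : ℝ)] with p hp
    exact ENNReal.ofReal_div_of_pos hp
  refine Tendsto.liminf_eq (hlim.congr' ?_)
  filter_upwards [eventually_ge_atTop (3 : ℝ)] with p hp
  rw [hN p hp]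

end Pool.Agent.S05571
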