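import Pool.Statements.S05584
import Pool.Agent.Helper140.HenkinRadial

set_option autoImplicit false
open Pool Pool.MP_9f272e_an

namespace Pool.Agent.S05584

/-- The negation of the preceding statement: For n ≥ 2 and every bounded holomorphic f on the unit ball of ℂⁿ, the set of sphere points where the radial limit of f fails to exist has measure zero for every representing measure of the origin for the ball algebra. -/
theorem result :
    ¬ (∀ n : ℕ, 2 ≤ n →
    ∀ f : EuclideanSpace ℂ (Fin n) → ℂ,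
      DifferentiableOn ℂ f (Metric.ball (0 : EuclideanSpace ℂ (Fin n)) 1) →
      (∃ C : ℝ, ∀ z ∈ Metric.ball (0 : EuclideanSpace ℂ (Fin n)) 1, ‖f z‖ ≤ C) →
    ∀ μ : MeasureTheory.Measure (EuclideanSpace ℂ (Fin n)),
      MeasureTheory.IsFiniteMeasure μ →
      μ (Metric.sphere (0 : EuclideanSpace ℂ (Fin n)) 1)ᶜ = 0 →
      (∀ g : EuclideanSpace ℂ (Fin n) → ℂ,
        ContinuousOn g (Metric.closedBall (0 : EuclideanSpace ℂ (Fin n)) 1) →
        DifferentiableOn ℂ g (Metric.ball (0 : EuclideanSpace ℂ (Fin n)) 1) →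
        ∫ z, g z ∂μ = g 0) →
      μ {ζ | ζ ∈ Metric.sphere (0 : EuclideanSpace ℂ (Fin n)) 1 ∧
          ¬ ∃ L : ℂ, Filter.Tendsto (fun r : ℝ => f ((r : ℂ) • ζ))
              (nhdsWithin 1 (Set.Iio 1)) (nhds L)} = 0) := by
  intro h
  obtain ⟨ρ, hfin, hsph, hrep, hne⟩ := Pool.Agent.Helper140.NT.main_henkin
  exact hne (h 2 le_rfl Pool.Agent.Helper140.NT.ffin Pool.Agent.Helper140.NT.ffin_diff
    ⟨3 + Pool.Agent.Helper140.NT.M1, fun z hz => Pool.Agent.Helper140.NT.ffin_bdd z
      (by simpa using hz)⟩ ρ hfin hsph hrep)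

end Pool.Agent.S05584
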