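import Pool.Statements.S05628
import Pool.Agent.Helper269.OneRadius

set_option autoImplicit false
open MeasureTheory
open Pool Pool.MP_a19bc9_an

namespace Pool.Agent.S05628

open Pool.Agent.Helper269.OneRadius in
lemma N_eq {n : ℕ} (z : Fin n → ℂ) : ∑ j, ‖z j‖ ^ 2 = N z := by
  simp [N, Complex.normSq_eq_norm_sq]

/-- The negation of the preceding statement: For every n ≥ 1, a bounded continuous complex function on the unit ball of ℂⁿ that satisfies the invariant sphere-mean identity at each point for at least one radius satisfies it at every point for every radius in (0,1), i.e. is M-harmonic. -/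
theorem result :
    ¬ (∀ n : ℕ, 1 ≤ n →
  ∀ (φ : (Fin n → ℂ) → (Fin n → ℂ) → (Fin n → ℂ)),
    (∀ z w, φ z w = (1 - ∑ j, w j * starRingEnd ℂ (z j))⁻¹ •
        (z - ((∑ j, w j * starRingEnd ℂ (z j)) / (∑ j, z j * starRingEnd ℂ (z j))) • z
          - ((Real.sqrt (1 - ∑ j, ‖z j‖ ^ 2) : ℝ) : ℂ) •
              (w - ((∑ j, w j * starRingEnd ℂ (z j)) / (∑ j, z j * starRingEnd ℂ (z j))) • z))) →
  ∀ (B : Set (Fin n → ℂ)), B = {x : Fin n → ℂ | ∑ j, ‖x j‖ ^ 2 < 1} →
  ∀ (avg : ((Fin n → ℂ) → ℂ) → (Fin n → ℂ) → ℝ → ℂ),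
    (∀ u z r, avg u z r = ((MeasureTheory.volume B).toReal : ℂ)⁻¹ *
        ∫ x in B, u (φ z (((r / Real.sqrt (∑ j, ‖x j‖ ^ 2) : ℝ) : ℂ) • x))) →
  ∀ u : (Fin n → ℂ) → ℂ, ContinuousOn u B → (∃ M : ℝ, ∀ z ∈ B, ‖u z‖ ≤ M) →
    (∀ z ∈ B, ∃ r : ℝ, 0 < r ∧ r < 1 ∧ avg u z r = u z) →
    ∀ z ∈ B, ∀ r : ℝ, 0 < r → r < 1 → avg u z r = u z) := by
  intro H
  classical
  have hBo : IsOpen {x : Fin 1 → ℂ | ∑ j, ‖x j‖ ^ 2 < 1} :=
    isOpen_lt (by fun_prop) continuous_const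
  have hBne : volume {x : Fin 1 → ℂ | ∑ j, ‖x j‖ ^ 2 < 1} ≠ 0 :=
    (hBo.measure_pos volume ⟨0, by simp⟩).ne'
  have hBfin : volume {x : Fin 1 → ℂ | ∑ j, ‖x j‖ ^ 2 < 1} ≠ ⊤ := by
    have hsub : {x : Fin 1 → ℂ | ∑ j, ‖x j‖ ^ 2 < 1} ⊆ Metric.ball 0 1 := by
      intro x hx
      rw [mem_ball_zero_iff, pi_norm_lt_iff one_pos]
      intro i
      have h1 : ∑ j, ‖x j‖ ^ 2 < 1 := hx
      have h2 : ‖x i‖ ^ 2 ≤ ∑ j, ‖x j‖ ^ 2 :=
        Finset.single_le_sum (f := fun j => ‖x j‖ ^ 2) (fun j _ => by positivity)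
          (Finset.mem_univ i)
      nlinarith [norm_nonneg (x i)]
    exact ((measure_mono hsub).trans_lt Metric.isBounded_ball.measure_lt_top).ne
  set B : Set (Fin 1 → ℂ) := {x : Fin 1 → ℂ | ∑ j, ‖x j‖ ^ 2 < 1} with hB
  let P : Measure (Fin 1 → ℂ) := (volume B)⁻¹ • volume.restrict B
  have hP : IsProbabilityMeasure P := by
    constructor
    simp only [P, Measure.smul_apply, Measure.restrict_apply MeasurableSet.univ, Set.univ_inter,
      smul_eq_mul]
    exact ENNReal.inv_mul_cancel hBne hBfin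
  let ζ : (Fin 1 → ℂ) → (Fin 1 → ℂ) := fun x => (((Real.sqrt (∑ j, ‖x j‖ ^ 2))⁻¹ : ℝ) : ℂ) • x
  have hζm : Measurable ζ := by
    have h1 : Measurable fun x : Fin 1 → ℂ => (((Real.sqrt (∑ j, ‖x j‖ ^ 2))⁻¹ : ℝ) : ℂ) := by
      fun_prop
    exact h1.smul measurable_id
  have hae : ∀ᵐ x ∂P, Pool.Agent.Helper269.OneRadius.N (ζ x) = 1 := by
    have h0 : ∀ᵐ x ∂P, x ≠ 0 := by
      have h1 : ∀ᵐ x ∂(volume : Measure (Fin 1 → ℂ)), x ≠ 0 := by
        simp [ae_iff]
      exact Measure.ae_smul_measure (ae_restrict_of_ae h1) _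
    filter_upwards [h0] with x hx
    simp only [ζ]
    rw [Pool.Agent.Helper269.OneRadius.N_smul, N_eq]
    have hpos : 0 < Pool.Agent.Helper269.OneRadius.N x := by
      rw [← N_eq]
      by_contra hcon
      apply hx
      have h3 : ∑ j, ‖x j‖ ^ 2 = 0 := le_antisymm (not_lt.mp hcon) (by positivity)
      rw [Finset.sum_eq_zero_iff_of_nonneg (fun j _ => by positivity)] at h3
      funext j
      have := h3 j (Finset.mem_univ j)
      simpa using this
    rw [Complex.normSq_ofReal, ← mul_inv, Real.mul_self_sqrt hpos.le]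
    exact inv_mul_cancel₀ hpos.ne'
  let av : ((Fin 1 → ℂ) → ℂ) → (Fin 1 → ℂ) → ℝ → ℂ := fun u z r =>
    ((MeasureTheory.volume B).toReal : ℂ)⁻¹ *
        ∫ x in B, u (Pool.Agent.Helper269.OneRadius.phi z
          (((r / Real.sqrt (∑ j, ‖x j‖ ^ 2) : ℝ) : ℂ) • x))
  have hav : ∀ (z : Fin 1 → ℂ) (r : ℝ),
      av (fun x => (Pool.Agent.Helper269.OneRadius.u x : ℂ)) z r =
        ((∫ x, Pool.Agent.Helper269.OneRadius.u
          (Pool.Agent.Helper269.OneRadius.phi z ((r : ℂ) • ζ x)) ∂P : ℝ) : ℂ) := by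
    intro z r
    simp only [av, P]
    rw [integral_smul_measure]
    have h1 : ∀ x : Fin 1 → ℂ, ((r / Real.sqrt (∑ j, ‖x j‖ ^ 2) : ℝ) : ℂ) • x = (r : ℂ) • ζ x := by
      intro x
      simp only [ζ]
      rw [smul_smul]
      push_cast
      rw [div_eq_mul_inv]
    simp only [h1]
    rw [ENNReal.toReal_inv, smul_eq_mul, Complex.ofReal_mul, Complex.ofReal_inv]
    congr 1
    exact integral_complex_ofReal
  have h := H 1 le_rfl Pool.Agent.Helper269.OneRadius.phi (fun z w => by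
      simp only [Pool.Agent.Helper269.OneRadius.phi, N_eq, Pool.Agent.Helper269.OneRadius.N]
      ) B rfl av (fun u z r => rfl)
      (fun x => (Pool.Agent.Helper269.OneRadius.u x : ℂ))
      (by
        have hset : B = {z | Pool.Agent.Helper269.OneRadius.N z < 1} := by
          rw [hB]; ext x; simp only [Set.mem_ofPred_eq, N_eq]
        rw [hset]
        exact Complex.continuous_ofReal.comp_continuousOn
          Pool.Agent.Helper269.OneRadius.continuousOn_u)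
      ⟨1, fun z hz => by
        rw [Complex.norm_real, Real.norm_eq_abs]
        have h1 : ∑ j, ‖z j‖ ^ 2 < 1 := hz
        rw [N_eq] at h1
        exact (Pool.Agent.Helper269.OneRadius.abs_u_le z).trans h1.le⟩
      (fun z hz => by
        have h1 : ∑ j, ‖z j‖ ^ 2 < 1 := hz
        rw [N_eq] at h1
        obtain ⟨r, h0, h2, h3⟩ := Pool.Agent.Helper269.OneRadius.one_radius h1 P ζ hζm hae
        refine ⟨r, h0, h2, ?_⟩
        rw [hav z r, ← h3])
      0 (by show ∑ j, ‖(0 : Fin 1 → ℂ) j‖ ^ 2 < 1; simp) (1 / 2) (by norm_num) (by norm_num)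
  rw [hav] at h
  exact Pool.Agent.Helper269.OneRadius.not_mean P ζ hae (by exact_mod_cast h.symm)

end Pool.Agent.S05628
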