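import Pool.Statements.S05648
import Pool.Agent.W801.Poho5

set_option autoImplicit false
open MeasureTheory Filter Topology
open Pool Pool.MP_a271d0_an

namespace Pool.Agent.S05648

open Pool.Agent.W801.Poho in
/-- The negation of the preceding statement: For every N≥3, smooth bounded domain Ω in R^N with 0 on its boundary, s in (0,2) and 2*(s)-1<p<(N+2)/(N-2), there is an H^1_0 function u>0 on Ω weakly solving Δu - u^p + u^(2*(s)-1)/∣x∣^s = 0. -/
theorem result :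
    ¬ (∀ (N : ℕ), 3 ≤ N →
  ∀ (Ω : Set (EuclideanSpace ℝ (Fin N))),
    IsOpen Ω → IsConnected Ω → Bornology.IsBounded Ω →
    (∃ ρ : EuclideanSpace ℝ (Fin N) → ℝ,
        ContDiff ℝ ((⊤ : ℕ∞) : WithTop ℕ∞) ρ ∧ Ω = {x | ρ x < 0} ∧
        ∀ x ∈ frontier Ω, fderiv ℝ ρ x ≠ 0) →
    (0 : EuclideanSpace ℝ (Fin N)) ∈ frontier Ω →
  ∀ s : ℝ, 0 < s → s < 2 →
  ∀ p : ℝ, 2 * ((N : ℝ) - s) / ((N : ℝ) - 2) - 1 < p →
    p < ((N : ℝ) + 2) / ((N : ℝ) - 2) →
  ∃ u : EuclideanSpace ℝ (Fin N) → ℝ,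
  ∃ G : EuclideanSpace ℝ (Fin N) → EuclideanSpace ℝ (Fin N),
    MemLp u 2 volume ∧ MemLp G 2 volume ∧
    (∃ φ : ℕ → EuclideanSpace ℝ (Fin N) → ℝ,
        (∀ n, ContDiff ℝ ((⊤ : ℕ∞) : WithTop ℕ∞) (φ n) ∧
              HasCompactSupport (φ n) ∧ tsupport (φ n) ⊆ Ω) ∧
        Tendsto (fun n => eLpNorm (fun x => φ n x - u x) 2 volume) atTop (𝓝 0) ∧
        Tendsto (fun n => eLpNorm (fun x => gradient (φ n) x - G x) 2 volume)
          atTop (𝓝 0)) ∧
    (∀ᵐ x ∂(volume : Measure (EuclideanSpace ℝ (Fin N))), x ∈ Ω → 0 < u x) ∧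
    ∀ ψ : EuclideanSpace ℝ (Fin N) → ℝ,
      ContDiff ℝ ((⊤ : ℕ∞) : WithTop ℕ∞) ψ → HasCompactSupport ψ → tsupport ψ ⊆ Ω →
        Integrable (fun x => inner ℝ (G x) (gradient ψ x)) volume ∧
        Integrable (fun x => u x ^ p * ψ x) volume ∧
        Integrable (fun x => u x ^ (2 * ((N : ℝ) - s) / ((N : ℝ) - 2) - 1) * ψ x / ‖x‖ ^ s)
          volume ∧
        ∫ x, (inner ℝ (G x) (gradient ψ x) + u x ^ p * ψ x
              - u x ^ (2 * ((N : ℝ) - s) / ((N : ℝ) - 2) - 1) * ψ x / ‖x‖ ^ s) = 0) := by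
  intro hall
  set c : E := EuclideanSpace.single 0 1 with hc
  have hcn : ‖c‖ = 1 := by simp [hc]
  set Ω : Set E := Metric.ball c 1 with hΩdef
  have hfr : frontier Ω = Metric.sphere c 1 := frontier_ball c one_ne_zero
  have hρ : ∃ ρ : E → ℝ,
        ContDiff ℝ ((⊤ : ℕ∞) : WithTop ℕ∞) ρ ∧ Ω = {x | ρ x < 0} ∧
        ∀ x ∈ frontier Ω, fderiv ℝ ρ x ≠ 0 := by
    refine ⟨fun x => ‖x - c‖ ^ 2 - 1, ?_, ?_, ?_⟩
    · exact ((contDiff_id.sub contDiff_const).norm_sq ℝ).sub contDiff_const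
    · ext x
      simp only [hΩdef, Metric.mem_ball, dist_eq_norm, Set.mem_setOf_eq, sub_neg]
      rw [sq_lt_one_iff₀ (norm_nonneg _)]
    · intro x hx
      rw [hfr, mem_sphere_iff_norm] at hx
      have h1 : HasFDerivAt (fun x : E => ‖x - c‖ ^ 2 - 1)
          (2 • (innerSL ℝ (x - c))) x := by
        have h2 : HasFDerivAt (fun x : E => x - c) (ContinuousLinearMap.id ℝ E) x :=
          (hasFDerivAt_id x).sub_const c
        have h3 := h2.norm_sq
        have h4 := h3.sub_const 1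
        rw [ContinuousLinearMap.comp_id] at h4
        exact h4
      rw [h1.fderiv]
      intro h0
      have h5 := congrArg (fun L : E →L[ℝ] ℝ => L (x - c)) h0
      simp only [smul_apply, innerSL_apply_apply, real_inner_self_eq_norm_sq,
        hx] at h5
      norm_num at h5
  obtain ⟨u, G, hu, hG, happ, hpos, hweak⟩ := hall 3 le_rfl Ω Metric.isOpen_ball
    ⟨Metric.nonempty_ball.2 one_pos, (convex_ball c 1).isPreconnected⟩
    Metric.isBounded_ball hρ (by rw [hfr]; simp [hcn]) 1 one_pos (by norm_num) 4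
    (by norm_num) (by norm_num)
  have hpair : IsPair Ω u G := ⟨hu, hG, happ⟩
  have hnn : ∀ᵐ x, 0 ≤ u x := by
    filter_upwards [hpos, hpair.ae_zero] with x h1 h2
    by_cases hx : x ∈ Ω
    · exact (h1 hx).le
    · exact (h2 hx).ge
  have hW : Weak Ω u G := by
    intro ψ hψ
    obtain ⟨h1, h2, h3, h4⟩ := hweak ψ hψ.1 hψ.2.1 hψ.2.2
    have e1 : ∀ x : E, u x ^ (4 : ℝ) * ψ x = u x ^ 4 * ψ x := by
      intro x
      have : u x ^ (4 : ℝ) = u x ^ 4 := by exact_mod_cast Real.rpow_natCast (u x) 4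
      rw [this]
    have e2 : ∀ x : E, u x ^ (2 * (((3 : ℕ) : ℝ) - 1) / (((3 : ℕ) : ℝ) - 2) - 1) * ψ x
        / ‖x‖ ^ (1 : ℝ) = u x ^ 3 * (‖x‖⁻¹ * ψ x) := by
      intro x
      have h5 : (2 * (((3 : ℕ) : ℝ) - 1) / (((3 : ℕ) : ℝ) - 2) - 1) = ((3 : ℕ) : ℝ) := by norm_num
      rw [h5, Real.rpow_natCast, Real.rpow_one]
      ring
    simp_rw [e1] at h2 h4
    simp_rw [e2] at h3 h4
    have h12 : Integrable (fun x => (inner ℝ (G x) (gradient ψ x) : ℝ) + u x ^ 4 * ψ x) volume :=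
      h1.add h2
    rw [integral_sub h12 h3, integral_add h1 h2] at h4
    exact h4
  have hstar : ∀ t : ℝ, 1 ≤ t → ∀ x : E, t • x ∈ Ω → x ∈ Ω := by
    intro t ht x hx
    rw [hΩdef, Metric.mem_ball, dist_eq_norm] at hx ⊢
    have ht0 : 0 < t := by linarith
    have h1 : x - c = (1 / t) • (t • x - c) - (1 - 1 / t) • c := by
      rw [smul_sub, smul_smul, one_div, inv_mul_cancel₀ ht0.ne', one_smul, sub_smul, one_smul]
      abel
    have h2 : 1 / t ≤ 1 := by rw [div_le_one ht0]; exact ht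
    have h3 : 0 < 1 / t := by positivity
    calc ‖x - c‖ = ‖(1 / t) • (t • x - c) - (1 - 1 / t) • c‖ := by rw [← h1]
      _ ≤ ‖(1 / t) • (t • x - c)‖ + ‖(1 - 1 / t) • c‖ := norm_sub_le _ _
      _ = (1 / t) * ‖t • x - c‖ + (1 - 1 / t) := by
          rw [norm_smul, norm_smul, Real.norm_of_nonneg h3.le,
            Real.norm_of_nonneg (by linarith), hcn, mul_one]
      _ < (1 / t) * 1 + (1 - 1 / t) := by
          have := mul_lt_mul_of_pos_left hx h3
          linarith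
      _ = 1 := by ring
  have hz := nonexistence hpair hW hnn hstar
  have hbad : ∀ᵐ x : E, x ∉ Ω := by
    filter_upwards [hz, hpos] with x h1 h2 h3
    have := h2 h3
    rw [h1] at this
    exact lt_irrefl _ this
  have h0 : volume Ω = 0 := by
    have := (ae_iff.1 hbad)
    simpa using this
  have h1 : 0 < volume Ω := Metric.measure_ball_pos volume c one_pos
  rw [h0] at h1
  exact lt_irrefl _ h1

end Pool.Agent.S05648
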