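import Pool.Statements.S05662
import Pool.Agent.HS.M_cube_weak_fail

set_option autoImplicit false
open Pool Pool.MP_a2e4e3_an

namespace Pool.Agent.S05662

/-- Weak heat smoothing on tail spaces fails: derived from the theorem `cube_weak_fail`. -/
theorem result :
    ¬ (∀ p : ℝ, 1 < p → ∃ c : ℝ, 0 < c ∧ ∀ d : ℕ, 1 ≤ d → ∀ n : ℕ, ∀ f : (Fin n → Bool) → ℝ,
      (∀ S : Finset (Fin n), S.card < d →
        ∑ x : Fin n → Bool, f x * ∏ i ∈ S, (if x i then (-1 : ℝ) else 1) = 0) →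
      (d : ℝ) * c * ((∑ x : Fin n → Bool, |f x| ^ p) / (2 : ℝ) ^ n) ^ (1 / p) ≤
        ((∑ x : Fin n → Bool,
            |∑ i : Fin n, (f x - f (Function.update x i (!x i))) / 2| ^ p) / (2 : ℝ) ^ n) ^ (1 / p)) := by
  intro h
  obtain ⟨c, hc, H⟩ := h (3 / 2) (by norm_num)
  obtain ⟨d, N, f, hd, hf, hlt⟩ := HS.cube_weak_fail (3 / 2) c (by norm_num) (by norm_num) hc
  exact absurd (H d hd N f hf) (not_le.mpr hlt)

end Pool.Agent.S05662
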