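import Pool.Statements.S05680
import Pool.Agent.W790.CHD.Enneper2
import Pool.Agent.W790.CHD.Planar
import Pool.Agent.W790.CHD.Reflect

set_option autoImplicit false
open Pool Pool.MP_a50f86_an
open Pool.Agent.W790.CHD

namespace Pool.Agent.S05680

/-- The negation of the preceding statement: For every bounded convex smoothly bounded domain in R^n (n≥3), point p and nonzero conformal frame (u,v), there is a conformal harmonic disc with maximal scaling at p, unique on the disc, and it is an injective immersion proper into the domain. -/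
theorem result :
    ¬ (∀ n : ℕ, 3 ≤ n → ∀ Ω : Set (EuclideanSpace ℝ (Fin n)),
    IsOpen Ω → Bornology.IsBounded Ω → Convex ℝ Ω →
    (∃ U : Set (EuclideanSpace ℝ (Fin n)), ∃ ρ : EuclideanSpace ℝ (Fin n) → ℝ,
        IsOpen U ∧ closure Ω ⊆ U ∧ ContDiffOn ℝ ((⊤ : ℕ∞) : WithTop ℕ∞) ρ U ∧
        Ω = {x | x ∈ U ∧ ρ x < 0} ∧ ∀ x ∈ frontier Ω, fderiv ℝ ρ x ≠ 0) →
    ∀ p ∈ Ω, ∀ u v : EuclideanSpace ℝ (Fin n),
      ‖u‖ = ‖v‖ → inner ℝ u v = 0 → u ≠ 0 →
      ∃ f : ℂ → EuclideanSpace ℝ (Fin n),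
        (∃ r : ℝ, 0 < r ∧
          (ContDiffOn ℝ 2 f (Metric.ball (0 : ℂ) 1) ∧
            (∀ z ∈ Metric.ball (0 : ℂ) 1, f z ∈ Ω) ∧
            (∀ z ∈ Metric.ball (0 : ℂ) 1,
              ‖fderiv ℝ f z (1 : ℂ)‖ = ‖fderiv ℝ f z Complex.I‖ ∧
              inner ℝ (fderiv ℝ f z (1 : ℂ)) (fderiv ℝ f z Complex.I) = 0) ∧
            (∀ z ∈ Metric.ball (0 : ℂ) 1,
              fderiv ℝ (fun w => fderiv ℝ f w (1 : ℂ)) z (1 : ℂ) +
                fderiv ℝ (fun w => fderiv ℝ f w Complex.I) z Complex.I = 0)) ∧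
          f 0 = p ∧ fderiv ℝ f 0 (1 : ℂ) = r • u ∧ fderiv ℝ f 0 Complex.I = r • v ∧
          ∀ g : ℂ → EuclideanSpace ℝ (Fin n), ∀ s : ℝ, 0 < s →
            (ContDiffOn ℝ 2 g (Metric.ball (0 : ℂ) 1) ∧
              (∀ z ∈ Metric.ball (0 : ℂ) 1, g z ∈ Ω) ∧
              (∀ z ∈ Metric.ball (0 : ℂ) 1,
                ‖fderiv ℝ g z (1 : ℂ)‖ = ‖fderiv ℝ g z Complex.I‖ ∧
                inner ℝ (fderiv ℝ g z (1 : ℂ)) (fderiv ℝ g z Complex.I) = 0) ∧
              (∀ z ∈ Metric.ball (0 : ℂ) 1,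
                fderiv ℝ (fun w => fderiv ℝ g w (1 : ℂ)) z (1 : ℂ) +
                  fderiv ℝ (fun w => fderiv ℝ g w Complex.I) z Complex.I = 0)) →
            g 0 = p → fderiv ℝ g 0 (1 : ℂ) = s • u → fderiv ℝ g 0 Complex.I = s • v →
            s ≤ r) ∧
        (∀ h : ℂ → EuclideanSpace ℝ (Fin n),
          (∃ r : ℝ, 0 < r ∧
            (ContDiffOn ℝ 2 h (Metric.ball (0 : ℂ) 1) ∧
              (∀ z ∈ Metric.ball (0 : ℂ) 1, h z ∈ Ω) ∧
              (∀ z ∈ Metric.ball (0 : ℂ) 1,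
                ‖fderiv ℝ h z (1 : ℂ)‖ = ‖fderiv ℝ h z Complex.I‖ ∧
                inner ℝ (fderiv ℝ h z (1 : ℂ)) (fderiv ℝ h z Complex.I) = 0) ∧
              (∀ z ∈ Metric.ball (0 : ℂ) 1,
                fderiv ℝ (fun w => fderiv ℝ h w (1 : ℂ)) z (1 : ℂ) +
                  fderiv ℝ (fun w => fderiv ℝ h w Complex.I) z Complex.I = 0)) ∧
            h 0 = p ∧ fderiv ℝ h 0 (1 : ℂ) = r • u ∧ fderiv ℝ h 0 Complex.I = r • v ∧
            ∀ g : ℂ → EuclideanSpace ℝ (Fin n), ∀ s : ℝ, 0 < s →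
              (ContDiffOn ℝ 2 g (Metric.ball (0 : ℂ) 1) ∧
                (∀ z ∈ Metric.ball (0 : ℂ) 1, g z ∈ Ω) ∧
                (∀ z ∈ Metric.ball (0 : ℂ) 1,
                  ‖fderiv ℝ g z (1 : ℂ)‖ = ‖fderiv ℝ g z Complex.I‖ ∧
                  inner ℝ (fderiv ℝ g z (1 : ℂ)) (fderiv ℝ g z Complex.I) = 0) ∧
                (∀ z ∈ Metric.ball (0 : ℂ) 1,
                  fderiv ℝ (fun w => fderiv ℝ g w (1 : ℂ)) z (1 : ℂ) +
                    fderiv ℝ (fun w => fderiv ℝ g w Complex.I) z Complex.I = 0)) →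
              g 0 = p → fderiv ℝ g 0 (1 : ℂ) = s • u → fderiv ℝ g 0 Complex.I = s • v →
              s ≤ r) →
          Set.EqOn h f (Metric.ball (0 : ℂ) 1)) ∧
        Set.InjOn f (Metric.ball (0 : ℂ) 1) ∧
        (∀ z ∈ Metric.ball (0 : ℂ) 1, fderiv ℝ f z (1 : ℂ) ≠ 0) ∧
        (∀ K : Set (EuclideanSpace ℝ (Fin n)), IsCompact K → K ⊆ Ω →
          IsCompact (Metric.ball (0 : ℂ) 1 ∩ f ⁻¹' K))) := by
  intro H
  have hn1 : ‖(EuclideanSpace.single 0 1 : EuclideanSpace ℝ (Fin 3))‖ =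
      ‖(EuclideanSpace.single 1 1 : EuclideanSpace ℝ (Fin 3))‖ := by simp
  have hn2 : inner ℝ (EuclideanSpace.single 0 1 : EuclideanSpace ℝ (Fin 3))
      (EuclideanSpace.single 1 1 : EuclideanSpace ℝ (Fin 3)) = 0 := by
    rw [EuclideanSpace.inner_single_left]
    simp
  have hn3 : (EuclideanSpace.single 0 1 : EuclideanSpace ℝ (Fin 3)) ≠ 0 := by
    intro h
    have h' := congrArg (fun x : EuclideanSpace ℝ (Fin 3) => x 0) h
    simp at h'
  obtain ⟨f, ⟨r, hr, hf, hf0, hfx, hfy, hmax⟩, huniq, -, -, -⟩ :=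
    H 3 le_rfl Om isOpen_Om isBounded_Om convex_Om smooth_boundary 0 zero_mem_Om
      (EuclideanSpace.single 0 1) (EuclideanSpace.single 1 1) hn1 hn2 hn3
  have hf' : CH f := hf
  -- the Enneper disc is a competitor
  have hE : (11 / 10 : ℝ) ≤ r := by
    refine hmax gE (11 / 10) (by norm_num) ⟨?_, fun z hz => gE_mem hz, fun z _ => gE_conf z,
      fun z _ => gE_harm z⟩ gE_zero ?_ ?_
    · exact (contDiff_gE.of_le (by norm_cast)).contDiffOn
    · rw [gE_x]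
      ext i
      fin_cases i <;> simp
    · rw [gE_y]
      ext i
      fin_cases i <;> simp
  -- the reflected disc is extremal, too
  have hT0 : T (0 : EuclideanSpace ℝ (Fin 3)) = 0 := map_zero T
  have hTu : T (r • EuclideanSpace.single 0 1 : EuclideanSpace ℝ (Fin 3)) =
      r • EuclideanSpace.single 0 1 := by
    ext i
    rw [T_apply]
    fin_cases i <;> simp
  have hTv : T (r • EuclideanSpace.single 1 1 : EuclideanSpace ℝ (Fin 3)) =
      r • EuclideanSpace.single 1 1 := by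
    ext i
    rw [T_apply]
    fin_cases i <;> simp
  have heq := huniq (fun w => T (f w)) ⟨r, hr, CH_T hf', by simp only [hf0, hT0],
    by rw [fderiv_T, hfx, hTu], by rw [fderiv_T, hfy, hTv], hmax⟩
  have h2 : ∀ z ∈ Metric.ball (0 : ℂ) 1, f z 2 = 0 := by
    intro z hz
    have h4 : T (f z) = f z := heq hz
    have h3 : T (f z) 2 = f z 2 := by rw [h4]
    rw [T_apply] at h3
    simp only [if_true] at h3
    linarith
  have := planar_bound hr hf.1 hf.2.1 hf.2.2.1 hf.2.2.2 h2 hf0 hfx hfy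
  linarith

end Pool.Agent.S05680
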