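import Pool.Statements.S05685
import Pool.Agent.W753.CZ.Unital

set_option autoImplicit false
open Pool Pool.MP_a561ac_an

namespace Pool.Agent.S05685

/-- For T on a Hilbert space, Ω bounded open containing its spectrum: if a unital antilinear sup-norm contraction α on A(Ω) satisfies ‖f(T)+α(f)(T)*‖ ≤ 2‖f‖_Ω for all f, then ‖f(T)‖ ≤ 2‖f‖_Ω for all f (f(T) via holomorphic calculus). -/
theorem result :
  ∀ (H : Type) [NormedAddCommGroup H] [InnerProductSpace ℂ H] [CompleteSpace H]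
    (T : H →L[ℂ] H) (Ω : Set ℂ), IsOpen Ω → Bornology.IsBounded Ω → spectrum ℂ T ⊆ Ω →
    ∀ (χ : ℂ → ℂ), ContDiff ℝ 1 χ → HasCompactSupport χ → tsupport χ ⊆ Ω →
    (∃ U : Set ℂ, IsOpen U ∧ spectrum ℂ T ⊆ U ∧ Set.EqOn χ 1 U) →
    ∀ (Φ : (ℂ → ℂ) → (H →L[ℂ] H)),
    (∀ f : ℂ → ℂ, Φ f = -(1 / (Real.pi : ℂ)) • ∫ z : ℂ,
        (f z * ((1 / 2 : ℂ) * (fderiv ℝ χ z 1 + Complex.I * fderiv ℝ χ z Complex.I)))
          • resolvent T z) →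
    ∀ (α : (ℂ → ℂ) → (ℂ → ℂ)),
    (∀ f : ℂ → ℂ, (ContinuousOn f (closure Ω) ∧ DifferentiableOn ℂ f Ω) →
        (ContinuousOn (α f) (closure Ω) ∧ DifferentiableOn ℂ (α f) Ω)) →
    (∀ f g : ℂ → ℂ, (ContinuousOn f (closure Ω) ∧ DifferentiableOn ℂ f Ω) →
        (ContinuousOn g (closure Ω) ∧ DifferentiableOn ℂ g Ω) →
        Set.EqOn f g (closure Ω) → Set.EqOn (α f) (α g) (closure Ω)) →
    Set.EqOn (α 1) 1 (closure Ω) →
    (∀ f g : ℂ → ℂ, (ContinuousOn f (closure Ω) ∧ DifferentiableOn ℂ f Ω) →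
        (ContinuousOn g (closure Ω) ∧ DifferentiableOn ℂ g Ω) →
        Set.EqOn (α (f + g)) (α f + α g) (closure Ω)) →
    (∀ (c : ℂ) (f : ℂ → ℂ), (ContinuousOn f (closure Ω) ∧ DifferentiableOn ℂ f Ω) →
        Set.EqOn (α (c • f)) ((starRingEnd ℂ) c • α f) (closure Ω)) →
    (∀ f : ℂ → ℂ, (ContinuousOn f (closure Ω) ∧ DifferentiableOn ℂ f Ω) →
        ∀ M : ℝ, (∀ z ∈ closure Ω, ‖f z‖ ≤ M) → ∀ z ∈ closure Ω, ‖α f z‖ ≤ M) →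
    (∀ f : ℂ → ℂ, (ContinuousOn f (closure Ω) ∧ DifferentiableOn ℂ f Ω) →
        ∀ M : ℝ, (∀ z ∈ closure Ω, ‖f z‖ ≤ M) → ‖Φ f + star (Φ (α f))‖ ≤ 2 * M) →
    ∀ f : ℂ → ℂ, (ContinuousOn f (closure Ω) ∧ DifferentiableOn ℂ f Ω) →
        ∀ M : ℝ, (∀ z ∈ closure Ω, ‖f z‖ ≤ M) → ‖Φ f‖ ≤ 2 * M := by
  intro H _ _ _ T Ω hΩ _ hσ χ hχ1 hχ2 hχ3 hχ4 Φ hΦ α hα1 hα2 hα3 hα4 hα5 hα6 hΦα f hf M hM
  have hΦ' : ∀ g : ℂ → ℂ, Φ g = Pool.Agent.W753.CZ.Phi T χ g := fun g => hΦ g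
  have hχ : Pool.Agent.W753.CZ.Good T Ω χ := ⟨hχ1, hχ2, hχ3, hχ4⟩
  have hcl : Ω ⊆ closure Ω := subset_closure
  simp only [hΦ'] at hΦα ⊢
  rcases lt_trichotomy M 0 with hM0 | hM0 | hM0
  · have h1 := hΦα f hf M hM
    have h2 := norm_nonneg (Pool.Agent.W753.CZ.Phi T χ f + star (Pool.Agent.W753.CZ.Phi T χ (α f)))
    linarith
  · obtain ⟨C, hC0, hC⟩ := Pool.Agent.W753.CZ.phi_bound hΩ hχ
    have := hC f 0 hf.2.continuousOn (fun z hz => by rw [← hM0]; exact hM z (hcl hz)) le_rfl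
    rw [hM0]
    linarith
  · have hMc : (M : ℂ) ≠ 0 := by exact_mod_cast hM0.ne'
    set f1 : ℂ → ℂ := (M : ℂ)⁻¹ • f with hf1
    have hff1 : f = fun z => (M : ℂ) * f1 z := by
      ext z
      rw [hf1, Pi.smul_apply, smul_eq_mul, ← mul_assoc, mul_inv_cancel₀ hMc, one_mul]
    have hf1A : ContinuousOn f1 (closure Ω) ∧ DifferentiableOn ℂ f1 Ω :=
      ⟨hf.1.const_smul _, hf.2.const_smul _⟩
    have hf1b : ∀ z ∈ closure Ω, ‖f1 z‖ ≤ 1 := by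
      intro z hz
      rw [hf1, Pi.smul_apply, smul_eq_mul, norm_mul, norm_inv, Complex.norm_real,
        Real.norm_of_nonneg hM0.le, inv_mul_le_iff₀ hM0, mul_one]
      exact hM z hz
    have hpow : ∀ n : ℕ, ContinuousOn (f1 ^ n) (closure Ω) ∧ DifferentiableOn ℂ (f1 ^ n) Ω :=
      fun n => ⟨hf1A.1.pow n, hf1A.2.pow n⟩
    have key := Pool.Agent.W753.CZ.unital_one T Ω hΩ χ hχ α hα1 hα3 hα4 hα5 1 zero_le_one f1 hf1A
      hf1b (fun n z hz => hα6 _ (hpow n) 1 (fun w hw => by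
        rw [Pi.pow_apply, norm_pow]
        exact pow_le_one₀ (norm_nonneg _) (hf1b w hw)) z hz) hΦα
    rw [hff1, Pool.Agent.W753.CZ.phi_smul, norm_smul, Complex.norm_real,
      Real.norm_of_nonneg hM0.le]
    nlinarith

end Pool.Agent.S05685
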