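import Pool.Statements.S05709
import Pool.Agent.Helper31.FarDual

set_option autoImplicit false
open Pool Pool.MP_a66ead_an

namespace Pool.Agent.S05709

/-- For every real Banach space X whose bidual modulo X is infinite-dimensional and every λ ≥ 1, some equivalent norm on X has Banach–Mazur distance at least λ to every space isometric to a dual space. -/
theorem result :
    ∀ (X : Type) [NormedAddCommGroup X] [NormedSpace ℝ X] [CompleteSpace X],
      (∀ n : ℕ, ∃ φ : Fin n → ((X →L[ℝ] ℝ) →L[ℝ] ℝ),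
        ∀ (c : Fin n → ℝ) (x : X),
          (∀ f : X →L[ℝ] ℝ, ∑ i, c i * φ i f = f x) → c = 0) →
      ∀ l : ℝ, 1 ≤ l →
        ∃ N : Seminorm ℝ X,
          (∃ a b : ℝ, 0 < a ∧ 0 < b ∧ ∀ x : X, a * ‖x‖ ≤ N x ∧ N x ≤ b * ‖x‖) ∧
          ∀ (Z : Type) [NormedAddCommGroup Z] [NormedSpace ℝ Z]
            (T : X ≃ₗ[ℝ] (Z →L[ℝ] ℝ)) (a b : ℝ),
            (∀ x : X, ‖T x‖ ≤ a * N x) → (∀ x : X, N x ≤ b * ‖T x‖) → l ≤ a * b := by
  intro X _ _ _ hX lam hlam
  have hX' : ¬ FiniteDimensional ℝ (StrongDual ℝ (StrongDual ℝ X) ⧸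
      LinearMap.range (NormedSpace.inclusionInDoubleDual ℝ X).toLinearMap) := by
    intro hfin
    set R := LinearMap.range (NormedSpace.inclusionInDoubleDual ℝ X).toLinearMap with hR
    obtain ⟨φ, hφ⟩ := hX (Module.finrank ℝ (StrongDual ℝ (StrongDual ℝ X) ⧸ R) + 1)
    have hli : LinearIndependent ℝ (fun i => R.mkQ (φ i)) := by
      rw [Fintype.linearIndependent_iff]
      intro c hc
      have h1 : R.mkQ (∑ i, c i • φ i) = 0 := by
        rw [map_sum, ← hc]
        refine Finset.sum_congr rfl fun i _ => ?_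
        rw [map_smul]
      rw [Submodule.mkQ_apply, Submodule.Quotient.mk_eq_zero] at h1
      obtain ⟨x, hx⟩ := h1
      have h2 := hφ c x (fun f => by
        have h3 := congrArg (fun g : StrongDual ℝ (StrongDual ℝ X) => g f) hx
        simp only [ContinuousLinearMap.coe_coe, NormedSpace.dual_def,
          ContinuousLinearMap.sum_apply, ContinuousLinearMap.smul_apply, smul_eq_mul] at h3
        exact h3.symm)
      intro i
      exact congrFun h2 i
    have h4 := hli.fintype_card_le_finrank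
    simp only [Fintype.card_fin] at h4
    omega
  obtain ⟨x, f, hx, hf, hfx, hnull⟩ := Pool.Agent.Helper31.Renorm.exists_array_null hX'
  set D : ℕ := ⌈lam⌉₊ with hD
  have hDlam : lam ≤ D := Nat.le_ceil lam
  have hD0 : (0 : ℝ) ≤ D := Nat.cast_nonneg D
  have hK : (0 : ℝ) ≤ 8 * (D : ℝ) + 1 := by positivity
  refine ⟨Pool.Agent.Helper31.Renorm.newSeminorm (𝕜 := ℝ) x D hK, ?_, ?_⟩
  · refine ⟨(8 * (D : ℝ) + 1)⁻¹, 8 * (D : ℝ) + 1, by positivity, by positivity, fun y => ⟨?_, ?_⟩⟩
    · exact Pool.Agent.Helper31.Renorm.mul_le_newNorm hx D (by linarith) y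
    · exact Pool.Agent.Helper31.Renorm.newNorm_le_mul x D hK y
  · intro Z _ _ T a b h1 h2
    -- a vector of positive norm
    have hne : x 0 0 ≠ 0 := by
      intro h0
      have h5 := hfx 0 0 0 0
      rw [h0, map_zero] at h5
      simp at h5
    have hpos : 0 < ‖x 0 0‖ := norm_pos_iff.2 hne
    have hN : 0 < Pool.Agent.Helper31.Renorm.newSeminorm (𝕜 := ℝ) x D hK (x 0 0) := by
      have h6 := Pool.Agent.Helper31.Renorm.mul_le_newNorm (𝕜 := ℝ) hx D
        (K := 8 * (D : ℝ) + 1) (by linarith) (x 0 0)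
      refine lt_of_lt_of_le ?_ h6
      positivity
    have hT : 0 < ‖T (x 0 0)‖ := norm_pos_iff.2 (by
      intro h7
      exact hne (T.map_eq_zero_iff.1 h7))
    have ha : 0 ≤ a := by
      by_contra hcon
      push Not at hcon
      have := h1 (x 0 0)
      nlinarith
    have hb : 0 ≤ b := by
      by_contra hcon
      push Not at hcon
      have := h2 (x 0 0)
      nlinarith
    have key := Pool.Agent.Helper31.Renorm.main_estimate hx hf hfx hnull D le_rfl T
      (α := a) (β := b) ha hb h1 h2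
    exact hDlam.trans key

end Pool.Agent.S05709
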