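import Pool.Statements.S05718
import Pool.Agent.W675.FSd

set_option autoImplicit false
open MeasureTheory Filter Topology
open Pool Pool.MP_a70d84_an

namespace Pool.Agent.S05718

open Pool.Agent.W675.FS
open scoped ComplexConjugate

lemma memLp_sy : MemLp sy ⊤ (volume : Measure (AddCircle (1 : ℝ))) := by
  apply memLp_top_of_bound measurable_sy.aestronglyMeasurable 1
  exact Eventually.of_forall fun θ => (norm_sy θ).le

lemma memLp_csy : MemLp (fun θ => conj (sy θ)) ⊤ (volume : Measure (AddCircle (1 : ℝ))) := by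
  have hm : Measurable (fun θ => conj (sy θ)) := Complex.continuous_conj.measurable.comp measurable_sy
  apply memLp_top_of_bound hm.aestronglyMeasurable 1
  exact Eventually.of_forall fun θ => by rw [RCLike.norm_conj]; exact (norm_sy θ).le

lemma memLp_one : MemLp (fun _ => (1:ℂ)) ⊤ (volume : Measure (AddCircle (1 : ℝ))) :=
  memLp_top_of_bound aestronglyMeasurable_const 1 (Eventually.of_forall fun θ => by simp)

lemma coeff_toLp {f : AddCircle (1 : ℝ) → ℂ} (hf : MemLp f ⊤ (volume : Measure (AddCircle (1 : ℝ))))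
    (m : ℤ) : fourierCoeff (⇑(hf.toLp f) : AddCircle (1 : ℝ) → ℂ) m = fourierCoeff f m := by
  have h : (⇑(hf.toLp f) : AddCircle (1 : ℝ) → ℂ) =ᵐ[AddCircle.haarAddCircle] f := by
    have h1 := hf.coeFn_toLp
    have h2 : ae (AddCircle.haarAddCircle : Measure (AddCircle (1:ℝ))) =
        ae (volume : Measure (AddCircle (1:ℝ))) := by rw [haar_eq]
    unfold Filter.EventuallyEq
    rw [h2]
    exact h1
  exact congrFun (fourierCoeff_congr_ae h) m

lemma coeff_csy (m : ℤ) : fourierCoeff (fun θ => conj (sy θ)) m = fourierCoeff sy (-m) := by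
  rw [← coeff_real (-m)]
  unfold fourierCoeff
  rw [← integral_conj]
  congr 1
  funext θ
  rw [smul_eq_mul, smul_eq_mul, map_mul, ← fourier_neg, neg_neg]

lemma coeff_one (m : ℤ) : fourierCoeff (fun _ : AddCircle (1 : ℝ) => (1:ℂ)) m =
    if m = 0 then 1 else 0 := by
  have h := congrFun (fourierCoeff_fourier (T := (1:ℝ)) 0) m
  rw [Pi.single_apply] at h
  rw [← h]
  congr 1
  funext θ
  simp

lemma limits_zero {K K' : H →L[ℂ] H} (hK' : IsCompactOperator K')
    {C X : ℕ → H →L[ℂ] H} (hC : Tendsto (fun n => ‖C n‖) atTop (𝓝 0))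
    (hX : ∀ n, X n = PP n * K * PP n + WW n * K' * WW n + C n)
    (h0 : ∀ x, Tendsto (fun n => X n x) atTop (𝓝 0)) : K = 0 := by
  ext1 x
  have h1 : Tendsto (fun n => PP n (K (PP n x))) atTop (𝓝 (K x)) :=
    tendsto_PQ (Q := K) (y := fun _ => x) tendsto_const_nhds
  have h2 : Tendsto (fun n => WW n (K' (WW n x))) atTop (𝓝 0) := by
    have h3 := compact_WW hK' x
    rw [tendsto_zero_iff_norm_tendsto_zero] at h3 ⊢
    exact squeeze_zero (fun n => norm_nonneg _) (fun n => norm_WW_le n _) h3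
  have h3 : Tendsto (fun n => C n x) atTop (𝓝 0) := by
    rw [tendsto_zero_iff_norm_tendsto_zero]
    have h4 := hC.mul_const ‖x‖
    rw [zero_mul] at h4
    exact squeeze_zero (fun n => norm_nonneg _) (fun n => (C n).le_opNorm x) h4
  have h4 := (h1.add h2).add h3
  rw [add_zero, add_zero] at h4
  have h5 : Tendsto (fun n => X n x) atTop (𝓝 (K x)) := by
    refine h4.congr fun n => ?_
    rw [hX]
    rfl
  exact tendsto_nhds_unique h5 (h0 x)

/-- The negation of the preceding statement: On ℓ²(ℕ), a finite-section sequence has the form P_nKP_n+W_nK'W_n+C_n (K,K' compact, ‖C_n‖→0) iff it lies in the closed algebra generated by P_nT(a)P_n, a∈L^∞, and both s-lim A_n and s-lim W_nA_nW_n are compact. -/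
theorem result :
    ¬ (∀ (P W : ℕ → (lp (fun _ : ℕ => ℂ) 2 →L[ℂ] lp (fun _ : ℕ => ℂ) 2)),
    (∀ (n : ℕ) (x : lp (fun _ : ℕ => ℂ) 2) (j : ℕ), (P n x) j = if j ≤ n then x j else 0) →
    (∀ (n : ℕ) (x : lp (fun _ : ℕ => ℂ) 2) (j : ℕ), (W n x) j = if j ≤ n then x (n - j) else 0) →
    ∀ A : ℕ → (lp (fun _ : ℕ => ℂ) 2 →L[ℂ] lp (fun _ : ℕ => ℂ) 2),
      (∃ K K' : lp (fun _ : ℕ => ℂ) 2 →L[ℂ] lp (fun _ : ℕ => ℂ) 2,
        IsCompactOperator K ∧ IsCompactOperator K' ∧
        ∃ C : ℕ → (lp (fun _ : ℕ => ℂ) 2 →L[ℂ] lp (fun _ : ℕ => ℂ) 2),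
          (∀ n, C n = P n * C n * P n) ∧
          Tendsto (fun n => ‖C n‖) atTop (𝓝 0) ∧
          ∀ n, A n = P n * K * P n + W n * K' * W n + C n)
      ↔
      ((∀ ε : ℝ, 0 < ε →
          ∃ B ∈ NonUnitalAlgebra.adjoin ℂ
            {G : ℕ → (lp (fun _ : ℕ => ℂ) 2 →L[ℂ] lp (fun _ : ℕ => ℂ) 2) |
              ∃ a : Lp ℂ ⊤ (volume : Measure (AddCircle (1 : ℝ))),
              ∃ T : lp (fun _ : ℕ => ℂ) 2 →L[ℂ] lp (fun _ : ℕ => ℂ) 2,
                (∀ j k : ℕ, (T (lp.single 2 k (1 : ℂ) : lp (fun _ : ℕ => ℂ) 2)) j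
                    = fourierCoeff (⇑a : AddCircle (1 : ℝ) → ℂ) ((j : ℤ) - (k : ℤ))) ∧
                ∀ n, G n = P n * T * P n},
            ∀ n, ‖A n - B n‖ ≤ ε) ∧
       (∃ K : lp (fun _ : ℕ => ℂ) 2 →L[ℂ] lp (fun _ : ℕ => ℂ) 2,
          IsCompactOperator K ∧ ∀ x, Tendsto (fun n => A n x) atTop (𝓝 (K x))) ∧
       (∃ K : lp (fun _ : ℕ => ℂ) 2 →L[ℂ] lp (fun _ : ℕ => ℂ) 2,
          IsCompactOperator K ∧
          ∀ x, Tendsto (fun n => (W n * A n * W n) x) atTop (𝓝 (K x))))) := by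
  intro hyp
  obtain ⟨K, K', hK, hK', C, -, hC, hZ⟩ := (hyp PP WW PP_apply WW_apply Z).2 ⟨by
      intro ε hε
      refine ⟨Z, ?_, fun n => by rw [sub_self, norm_zero]; exact hε.le⟩
      set S : Set (ℕ → (H →L[ℂ] H)) := {G : ℕ → (H →L[ℂ] H) |
              ∃ a : Lp ℂ ⊤ (volume : Measure (AddCircle (1 : ℝ))),
              ∃ T : H →L[ℂ] H,
                (∀ j k : ℕ, (T (lp.single 2 k (1 : ℂ) : H)) j
                    = fourierCoeff (⇑a : AddCircle (1 : ℝ) → ℂ) ((j : ℤ) - (k : ℤ))) ∧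
                ∀ n, G n = PP n * T * PP n} with hS
      have g1 : (fun n => PP n) ∈ NonUnitalAlgebra.adjoin ℂ S := by
        apply NonUnitalAlgebra.subset_adjoin
        refine ⟨memLp_one.toLp _, 1, ?_, ?_⟩
        · intro j k
          rw [coeff_toLp, coeff_one]
          have := s_apply k j
          rw [one_apply_eq_self, this]
          by_cases h : j = k
          · rw [if_pos h, if_pos (by omega)]
          · rw [if_neg h, if_neg (by omega)]
        · intro n
          rw [mul_one, mPP]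
      have g2 : (fun n => PP n * T * PP n) ∈ NonUnitalAlgebra.adjoin ℂ S := by
        apply NonUnitalAlgebra.subset_adjoin
        refine ⟨memLp_sy.toLp _, T, ?_, fun n => rfl⟩
        intro j k
        rw [coeff_toLp]
        exact T_apply j k
      have g3 : (fun n => PP n * Ts * PP n) ∈ NonUnitalAlgebra.adjoin ℂ S := by
        apply NonUnitalAlgebra.subset_adjoin
        refine ⟨memLp_csy.toLp _, Ts, ?_, fun n => rfl⟩
        intro j k
        rw [coeff_toLp, coeff_csy, neg_sub]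
        exact Ts_apply j k
      exact mul_mem (sub_mem g1 (mul_mem g2 g3)) (sub_mem g1 (mul_mem g3 g2)),
    ⟨0, isCompactOperator_zero, fun x => by simpa using Z_tendsto x⟩,
    ⟨0, isCompactOperator_zero, fun x => by simpa using WZW_tendsto x⟩⟩
  have hK0 : K = 0 := limits_zero hK' hC hZ Z_tendsto
  have hK0' : K' = 0 := by
    refine limits_zero (K := K') (K' := K) hK (C := fun n => WW n * C n * WW n)
      (X := fun n => WW n * Z n * WW n) ?_ ?_ WZW_tendsto
    · refine squeeze_zero (fun n => norm_nonneg _) (fun n => ?_) hC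
      have hWn : ‖WW n‖ ≤ 1 := ContinuousLinearMap.opNorm_le_bound _ zero_le_one fun x => by
        rw [one_mul]; exact norm_WW_le n x
      have e1 : ‖WW n * C n‖ ≤ ‖C n‖ := (norm_mul_le (WW n) (C n)).trans
        (mul_le_of_le_one_left (norm_nonneg _) hWn)
      exact (norm_mul_le (WW n * C n) (WW n)).trans
        ((mul_le_of_le_one_right (norm_nonneg _) hWn).trans e1)
    · intro n
      have e1 : WW n * Z n * WW n = WW n * (PP n * K * PP n + WW n * K' * WW n + C n) * WW n := by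
        rw [← hZ n]
      rw [e1, mul_add, mul_add, add_mul, add_mul]
      have e2 : WW n * (PP n * K * PP n) * WW n = WW n * K * WW n := by
        calc WW n * (PP n * K * PP n) * WW n = (WW n * PP n) * K * (PP n * WW n) := by
              simp only [mul_assoc]
          _ = _ := by rw [mWP, mPW]
      have e3 : WW n * (WW n * K' * WW n) * WW n = PP n * K' * PP n := by
        calc WW n * (WW n * K' * WW n) * WW n = (WW n * WW n) * K' * (WW n * WW n) := by
              simp only [mul_assoc]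
          _ = _ := by rw [mWW]
      rw [e2, e3]
      abel
  have hCZ : ∀ n, Z n = C n := by
    intro n
    rw [hZ n, hK0, hK0']
    simp
  have h1 : ∀ᶠ n in atTop, ‖C n‖ < (1 / 8 : ℝ) ^ 3 := hC.eventually (gt_mem_nhds (by norm_num))
  obtain ⟨n, hn1, hn2⟩ := (h1.and (eventually_ge_atTop 100)).exists
  have h2 := lower_norm n hn2
  rw [hCZ n] at h2
  exact absurd hn1 (not_lt.2 h2)

end Pool.Agent.S05718
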