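import Pool.Statements.S05741
import Pool.Agent.W807.TF.Final
import Pool.Agent.W807.TF.Pot2
import Pool.Agent.W807.TF.KW
import Pool.Agent.W807.TF.TW
import Pool.Agent.W807.TF.MP
import Pool.Agent.W807.TF.Lip
import Pool.Agent.W807.TF.Fin3
import Pool.Agent.W807.TF.Int3
import Pool.Agent.W749.TF.Id
import Pool.Agent.W749.TF.Sk2
import Pool.Agent.W749.TF.D
import Pool.Agent.W749.TF.C3

set_option autoImplicit false
open Pool Pool.MP_a93f81_an

namespace Pool.Agent.S05741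

/-- For any measurable datum in [0,1], weak solutions of u_t+(u(1-(1/ε)∫_x^{x+ε}u))_x=0 converge in L¹_loc as ε→0+ to the Kruzhkov entropy solution of u_t+(u(1-u))_x=0 with the same datum. -/
theorem result :
    ∀ (ub : ℝ → ℝ), Measurable ub → (∀ x, 0 ≤ ub x ∧ ub x ≤ 1) →
    ∀ (u : ℝ → ℝ → ℝ → ℝ) (w : ℝ → ℝ → ℝ),
    (∀ ε : ℝ, 0 < ε →
      Measurable (Function.uncurry (u ε)) ∧
      (∀ t x, 0 ≤ u ε t x ∧ u ε t x ≤ 1) ∧
      ∀ φ : ℝ → ℝ → ℝ, ContDiff ℝ (⊤ : ℕ∞) (Function.uncurry φ) →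
        HasCompactSupport (Function.uncurry φ) →
        (∫ t in Set.Ioi (0:ℝ), ∫ x : ℝ,
          (u ε t x * deriv (fun s => φ s x) t
            + u ε t x * (1 - (1 / ε) * ∫ y in x..(x + ε), u ε t y)
              * deriv (fun y => φ t y) x))
          + (∫ x : ℝ, ub x * φ 0 x) = 0) →
    Measurable (Function.uncurry w) →
    (∀ t x, 0 ≤ w t x ∧ w t x ≤ 1) →
    (∀ k : ℝ, ∀ φ : ℝ → ℝ → ℝ, ContDiff ℝ (⊤ : ℕ∞) (Function.uncurry φ) →
        HasCompactSupport (Function.uncurry φ) → (∀ t x, 0 ≤ φ t x) →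
        0 ≤ (∫ t in Set.Ioi (0:ℝ), ∫ x : ℝ,
          (|w t x - k| * deriv (fun s => φ s x) t
            + Real.sign (w t x - k) * (w t x * (1 - w t x) - k * (1 - k))
              * deriv (fun y => φ t y) x))
          + (∫ x : ℝ, |ub x - k| * φ 0 x)) →
    ∀ T R : ℝ, 0 < T → 0 < R →
      Filter.Tendsto
        (fun ε : ℝ => ∫ t in (0:ℝ)..T, ∫ x in (-R)..R, |u ε t x - w t x|)
        (nhdsWithin 0 (Set.Ioi 0)) (nhds 0) :=
  Pool.Agent.W807.TF.main Pool.Agent.W807.TF.taskPot Pool.Agent.W807.TF.taskKW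
    (Pool.Agent.W807.TF.taskW (Pool.Agent.W807.TF.taskMP Pool.Agent.W807.TF.taskLip))
    (Pool.Agent.W807.TF.taskFin (Pool.Agent.W807.TF.taskInt
      (Pool.Agent.W749.TF.taskSk Pool.Agent.W749.TF.taskId)
      (Pool.Agent.W749.TF.taskC Pool.Agent.W807.TF.taskHL Pool.Agent.W807.TF.taskA
        (Pool.Agent.W749.TF.taskD Pool.Agent.W749.TF.taskId) Pool.Agent.W807.TF.taskWk)))

end Pool.Agent.S05741
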