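import Pool.Statements.S05747
import Pool.Agent.W784.PS.Final

set_option autoImplicit false
open Classical MeasureTheory
open Pool Pool.MP_a9e9e6_an

namespace Pool.Agent.S05747

/-- For every compact planar set K, its Newtonian capacity (1/min energy with kernel 1/∣x−y∣) is at most 2/π times its logarithmic capacity (exp of minus the min log energy), with equality when K is a closed disk. -/
theorem result :
  ∀ K : Set (EuclideanSpace ℝ (Fin 2)), IsCompact K →
    ∀ a b : ENNReal,
      a = (⨆ (μ : Measure (EuclideanSpace ℝ (Fin 2))) (_ : IsProbabilityMeasure μ)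
            (_ : μ Kᶜ = 0),
            (∫⁻ x, ∫⁻ y, (edist x y)⁻¹ ∂μ ∂μ)⁻¹) →
      b = (⨆ (μ : Measure (EuclideanSpace ℝ (Fin 2))) (_ : IsProbabilityMeasure μ)
            (_ : μ Kᶜ = 0)
            (_ : (∫⁻ x, ∫⁻ y, (if x = y then (⊤ : ENNReal)
                    else ENNReal.ofReal (-Real.log (dist x y))) ∂μ ∂μ) ≠ ⊤),
            ENNReal.ofReal (Real.exp
              ((∫⁻ x, ∫⁻ y, ENNReal.ofReal (Real.log (dist x y)) ∂μ ∂μ).toReal
                - (∫⁻ x, ∫⁻ y, (if x = y then (⊤ : ENNReal)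
                    else ENNReal.ofReal (-Real.log (dist x y))) ∂μ ∂μ).toReal))) →
      (a ≤ ENNReal.ofReal (2 / Real.pi) * b ∧
        ((∃ (c : EuclideanSpace ℝ (Fin 2)) (r : ℝ), 0 < r ∧ K = Metric.closedBall c r) →
          a = ENNReal.ofReal (2 / Real.pi) * b)) := by
  intro K hK a b ha hb
  have hpi := Real.pi_pos
  have hEn : ∀ μ : Measure (EuclideanSpace ℝ (Fin 2)), (∫⁻ x, ∫⁻ y, (edist x y)⁻¹ ∂μ ∂μ) =
      Pool.Agent.Helper88.RB.En (n := 2) 1 μ := by
    intro μ
    unfold Pool.Agent.Helper88.RB.En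
    refine lintegral_congr fun x => lintegral_congr fun y => ?_
    rw [edist_dist, ENNReal.rpow_neg_one]
  have hng : ∀ μ : Measure (EuclideanSpace ℝ (Fin 2)),
      (∫⁻ x, ∫⁻ y, (if x = y then (⊤ : ENNReal)
        else ENNReal.ofReal (-Real.log (dist x y))) ∂μ ∂μ) = Pool.Agent.W784.PS.ngE μ := by
    intro μ
    unfold Pool.Agent.W784.PS.ngE
    refine lintegral_congr fun x => lintegral_congr fun y => ?_
    by_cases h : x = y
    · rw [if_pos h, if_pos h]
    · rw [if_neg h, if_neg h]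
  simp only [hng] at hb
  have hb' : b = ⨆ (μ : Measure (EuclideanSpace ℝ (Fin 2))) (_ : IsProbabilityMeasure μ)
      (_ : μ Kᶜ = 0) (_ : Pool.Agent.W784.PS.ngE μ ≠ ⊤),
      ENNReal.ofReal (Real.exp ((Pool.Agent.W784.PS.psE μ).toReal -
        (Pool.Agent.W784.PS.ngE μ).toReal)) := hb
  have h1 : a ≤ ENNReal.ofReal (2 / Real.pi) * b := by
    rcases K.eq_empty_or_nonempty with hemp | hne
    · have ha0 : a = 0 := by
        rw [ha]
        refine le_antisymm ?_ zero_le
        refine iSup_le fun μ => iSup_le fun i1 => iSup_le fun i2 => ?_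
        exfalso
        rw [hemp, Set.compl_empty, measure_univ] at i2
        exact one_ne_zero i2
      rw [ha0]
      exact zero_le
    · have h2 := Pool.Agent.W784.PS.main_ineq hK hne
      rw [← hb'] at h2
      refine le_trans ?_ h2
      rw [ha]
      refine iSup_le fun μ => iSup_le fun i1 => iSup_le fun i2 => ?_
      rw [ENNReal.inv_le_inv, hEn]
      unfold Pool.Agent.Helper88.RB.EI
      exact iInf_le_of_le μ (iInf_le_of_le measure_univ (iInf_le_of_le i2 le_rfl))
  refine ⟨h1, ?_⟩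
  rintro ⟨c, r, hr, hKd⟩
  refine le_antisymm h1 ?_
  obtain ⟨μ, i1, i2, i3⟩ := Pool.Agent.W784.PS.disk_newton c r hr
  have ha2 : ENNReal.ofReal (2 * r / Real.pi) ≤ a := by
    have h3 : (∫⁻ x, ∫⁻ y, (edist x y)⁻¹ ∂μ ∂μ)⁻¹ ≤ a := by
      rw [ha]
      refine le_iSup_of_le μ (le_iSup_of_le i1 (le_iSup_of_le ?_ le_rfl))
      rw [hKd]
      exact i2
    refine le_trans ?_ h3
    rw [ENNReal.le_inv_iff_le_inv, ← ENNReal.ofReal_inv_of_pos (by positivity)]
    refine i3.trans (ENNReal.ofReal_le_ofReal ?_)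
    rw [inv_div]
  have hb2 : b ≤ ENNReal.ofReal r := by
    rw [hb]
    refine iSup_le fun σ => iSup_le fun j1 => iSup_le fun j2 => iSup_le fun j3 => ?_
    apply ENNReal.ofReal_le_ofReal
    rw [hKd] at j2
    have hng2 : (∫⁻ x, ∫⁻ y, (if x = y then (⊤ : ENNReal)
        else ENNReal.ofReal (-Real.log (dist x y))) ∂σ ∂σ) = Pool.Agent.W784.PS.ngE σ := hng σ
    have h4 := Pool.Agent.W329.PS.disk_log c r hr σ j2
    have h5 : ∀ (d : DecidableEq (EuclideanSpace ℝ (Fin 2))),
        (∫⁻ x, ∫⁻ y, (@ite _ (x = y) (d x y) (⊤ : ENNReal)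
        (ENNReal.ofReal (-Real.log (dist x y)))) ∂σ ∂σ) = Pool.Agent.W784.PS.ngE σ := by
      intro d
      unfold Pool.Agent.W784.PS.ngE
      refine lintegral_congr fun x => lintegral_congr fun y => ?_
      by_cases h : x = y
      · rw [if_pos h, if_pos h]
      · rw [if_neg h, if_neg h]
    simp only [h5] at h4
    calc Real.exp _ ≤ Real.exp (Real.log r) := Real.exp_le_exp.2 (h4 j3)
      _ = r := Real.exp_log hr
  calc ENNReal.ofReal (2 / Real.pi) * b ≤ ENNReal.ofReal (2 / Real.pi) * ENNReal.ofReal r := by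
        gcongr
    _ = ENNReal.ofReal (2 * r / Real.pi) := by
        rw [← ENNReal.ofReal_mul (by positivity)]
        congr 1
        ring
    _ ≤ a := ha2

end Pool.Agent.S05747
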