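import Pool.Statements.S05760
import Pool.Agent.W723.WL.Arc

set_option autoImplicit false
open Pool Pool.MP_aa8c71_an

namespace Pool.Agent.S05760

/-- The negation of the preceding statement: For every transcendental entire f and every Fatou component U with f(U) inside U, each connected component of the complement of the closure of U contains a point of the Julia set (Fatou set defined by chordal equicontinuity of iterates). -/
theorem result :
    ¬ (∀ f : ℂ → ℂ, Differentiable ℂ f →
      (¬ ∃ p : Polynomial ℂ, ∀ z, f z = p.eval z) →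
      ∀ F : Set ℂ,
        F = {z : ℂ | ∃ V : Set ℂ, IsOpen V ∧ z ∈ V ∧
              ∀ y ∈ V, ∀ ε : ℝ, 0 < ε → ∃ δ : ℝ, 0 < δ ∧
                ∀ w : ℂ, dist w y < δ → ∀ n : ℕ,
                  2 * ‖f^[n] y - f^[n] w‖ /
                    (Real.sqrt (1 + ‖f^[n] y‖ ^ 2) * Real.sqrt (1 + ‖f^[n] w‖ ^ 2)) < ε} →
        ∀ z₀ ∈ F, f '' (connectedComponentIn F z₀) ⊆ connectedComponentIn F z₀ →
          ∀ x ∈ (closure (connectedComponentIn F z₀))ᶜ,
            ∃ y ∈ connectedComponentIn (closure (connectedComponentIn F z₀))ᶜ x, y ∉ F) := by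
  intro h
  obtain ⟨y, hy1, hy2⟩ := h Pool.Agent.W723.WL.F Pool.Agent.W723.WL.F_diff
    Pool.Agent.W723.WL.F_not_poly (Pool.Agent.W723.WL.Fat Pool.Agent.W723.WL.F) rfl 0
    (Pool.Agent.W723.WL.At_sub_Fat Pool.Agent.W723.WL.zero_At) Pool.Agent.W723.WL.F_U
    (Pool.Agent.W723.WL.w 0)
    (Pool.Agent.W723.WL.interior_S_closure Pool.Agent.W723.WL.w0_interior)
  exact hy2 (Pool.Agent.W723.WL.comp_sub hy1)

end Pool.Agent.S05760
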