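import Pool.Statements.S05773
import Pool.Agent.W737.SQ.Core
import Pool.Agent.W599.SQ.Bdry
import Pool.Agent.W599.SQ.Circle
import Pool.Agent.W599.SQ.Grad
import Pool.Agent.W599.SQ.Taylor
import Pool.Agent.W599.SQ.Normal
import Pool.Agent.W599.SQ.Psc
import Pool.Agent.W803.SQ.Levi
import Pool.Agent.W803.SQ.Disc
import Pool.Agent.W803.SQ.Flat
import Pool.Agent.W803.SQ.Jet

set_option autoImplicit false
open Pool Pool.MP_ab90d5_an

namespace Pool.Agent.S05773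

/-- Every bounded pseudoconvex domain in C^n with C^∞ boundary whose squeezing function tends to 1 at the boundary is strongly pseudoconvex, i.e. its Levi form is positive definite on the complex tangent space at each boundary point. -/
theorem result :
    ∀ (n : ℕ) (Ω : Set (EuclideanSpace ℂ (Fin n))) (ρ : EuclideanSpace ℂ (Fin n) → ℝ),
      IsOpen Ω → IsConnected Ω → Bornology.IsBounded Ω →
      ContDiff ℝ ((⊤ : ℕ∞) : WithTop ℕ∞) ρ →
      Ω = {x | ρ x < 0} →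
      (∀ p ∈ frontier Ω, fderiv ℝ ρ p ≠ 0) →
      (∀ p ∈ frontier Ω, ∀ w : EuclideanSpace ℂ (Fin n),
        fderiv ℝ ρ p w = 0 → fderiv ℝ ρ p (Complex.I • w) = 0 →
        0 ≤ fderiv ℝ (fderiv ℝ ρ) p w w
              + fderiv ℝ (fderiv ℝ ρ) p (Complex.I • w) (Complex.I • w)) →
      (∀ ε : ℝ, 0 < ε → ∃ δ : ℝ, 0 < δ ∧ ∀ z ∈ Ω, Metric.infDist z Ωᶜ < δ →
        ∃ f : EuclideanSpace ℂ (Fin n) → EuclideanSpace ℂ (Fin n),
          DifferentiableOn ℂ f Ω ∧ Set.InjOn f Ω ∧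
          f '' Ω ⊆ Metric.ball 0 1 ∧ f z = 0 ∧
          Metric.ball 0 (1 - ε) ⊆ f '' Ω) →
      ∀ p ∈ frontier Ω, ∀ w : EuclideanSpace ℂ (Fin n), w ≠ 0 →
        fderiv ℝ ρ p w = 0 → fderiv ℝ ρ p (Complex.I • w) = 0 →
        0 < fderiv ℝ (fderiv ℝ ρ) p w w
              + fderiv ℝ (fderiv ℝ ρ) p (Complex.I • w) (Complex.I • w) := by
  intro n Ω ρ _ _ hb hρ hΩ hnz hpsc hsq p hp w hw h1 h2
  refine lt_of_le_of_ne (hpsc p hp w h1 h2) ?_
  intro h3
  exact W737.SQ.core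
    (W599.SQ.Normal.main W599.SQ.Psc.main W599.SQ.Circle.main W599.SQ.Taylor.main
      W599.SQ.Grad.main)
    W803.SQ.disc_main (W803.SQ.main W599.SQ.Bdry.main) W803.SQ.flat_main W803.SQ.jet_main
    (Ω := Ω) (ρ := ρ) ⟨hρ, hΩ, hb, hnz, hpsc⟩ hsq hp hw h1 h2 h3.symm

end Pool.Agent.S05773
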