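import Pool.Statements.S05778
import Pool.Agent.W699.TF.C

set_option autoImplicit false
open Pool Pool.MP_aba4f2_an

namespace Pool.Agent.S05778

open Pool.Agent.W699.TF in
/-- The negation of the preceding statement: Every continuous 1-periodic complex function on the reals with zero integral over [0,1] equals a finite sum of differences g_j(t) − g_j(t − a_j), with each g_j continuous and 1-periodic and each a_j real. -/
theorem result :
    ¬ (∀ f : ℝ → ℂ, Continuous f → Function.Periodic f 1 →
      (∫ t in (0:ℝ)..1, f t) = 0 →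
      ∃ N : ℕ, 1 ≤ N ∧ ∃ a : Fin N → ℝ, ∃ g : Fin N → ℝ → ℂ,
        (∀ j, Continuous (g j) ∧ Function.Periodic (g j) 1) ∧
        ∀ t : ℝ, f t = ∑ j : Fin N, (g j t - g j (t - a j))) := by
  intro hall
  obtain ⟨F, hF⟩ := not_all
  set c : ℂ := ∫ t in (0:ℝ)..1, F (t : G) with hc
  have hcont : Continuous fun t : ℝ => F (t : G) := F.continuous.comp (AddCircle.continuous_mk' 1)
  obtain ⟨N, hN, a, g, hg, hfg⟩ := hall (fun t => F (t : G) - c) (hcont.sub continuous_const)
    (fun t => by simp) (by
      rw [intervalIntegral.integral_sub (hcont.intervalIntegrable 0 1) (by simp)]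
      simp [hc])
  obtain ⟨N, rfl⟩ : ∃ N', N = N' + 1 := ⟨N - 1, by omega⟩
  have hb : ∀ j, ∃ C : ℝ, ∀ t, ‖g j t‖ ≤ C := by
    intro j
    obtain ⟨C, hC⟩ := ((hg j).2.isBounded_of_continuous one_ne_zero (hg j).1).exists_norm_le
    exact ⟨C, fun t => hC _ ⟨t, rfl⟩⟩
  choose C hC using hb
  obtain ⟨M, hM⟩ := exists_nat_ge (∑ j, |C j|)
  refine hF (N, M) ⟨c, fun j => (a j : G), fun j => (hg j).2.lift, ?_, ?_⟩
  · intro j z
    induction z using QuotientAddGroup.induction_on with
    | H t =>
      have h1 : (hg j).2.lift (t : G) = g j t := (hg j).2.lift_coe t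
      have h2 : |C j| ≤ ∑ j, |C j| := Finset.single_le_sum (f := fun j => |C j|)
        (fun _ _ => abs_nonneg _) (Finset.mem_univ j)
      change ‖(hg j).2.lift (t : G)‖ ≤ _
      rw [h1]
      exact ((hC j t).trans (le_abs_self _)).trans (h2.trans hM)
  · intro z
    induction z using QuotientAddGroup.induction_on with
    | H t =>
      have h := hfg t
      change F (t : G) = _
      rw [sub_eq_iff_eq_add'] at h
      rw [h]
      congr 1

end Pool.Agent.S05778
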