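import Pool.Statements.S05853
import Pool.Agent.W775.Berg9

set_option autoImplicit false
open Polynomial MeasureTheory
open Pool Pool.MP_b1555f_an

namespace Pool.Agent.S05853

open Pool.Agent.W775.Berg

lemma lift_prod (k N j : ℕ) (t : ℕ → ℝ) :
    lift k N (∏ ν ∈ Finset.range j, (X - C (t ν))) =
      X ^ k * (∏ ν ∈ Finset.range j, (X - C ((t ν : ℝ) : ℂ))).comp (X ^ N) := by
  unfold lift
  rw [Polynomial.map_prod]
  simp

lemma main_case {ω : ℂ} {N : ℕ} (h : Geo ω N) {k : ℕ} (hk : k < N) (hg : Good ω N (k + 1))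
    {j : ℕ} (hj : 1 ≤ j) {p p' : ℂ[X]} (hp : p.Monic) (hpd : p.natDegree = j * N + k)
    (horth : ∀ r : ℂ[X], r.natDegree < j * N + k →
      ∫ z in interior (convexHull ℝ {w : ℂ | w ^ N = 1}), p.eval z * (starRingEnd ℂ) (r.eval z) = 0)
    (hp' : p'.Monic) (hpd' : p'.natDegree = (j + 1) * N + k)
    (horth' : ∀ r : ℂ[X], r.natDegree < (j + 1) * N + k →
      ∫ z in interior (convexHull ℝ {w : ℂ | w ^ N = 1}), p'.eval z * (starRingEnd ℂ) (r.eval z) = 0) :
    ∃ t s : ℕ → ℝ,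
        p = X ^ k * (∏ ν ∈ Finset.range j, (X - C ((t ν : ℝ) : ℂ))).comp (X ^ N) ∧
        p' = X ^ k * (∏ ν ∈ Finset.range (j + 1), (X - C ((s ν : ℝ) : ℂ))).comp (X ^ N) ∧
        0 < s 0 ∧ s j < 1 ∧ ∀ ν, ν < j → s ν < t ν ∧ t ν < s (ν + 1) := by
  obtain ⟨q, hq, hqd, hqo, hpq⟩ := from_orth h hk hj hp hpd horth
  obtain ⟨q', hq', hqd', hqo', hpq'⟩ := from_orth h hk (Nat.le_succ_of_le hj) hp' hpd' horth'
  obtain ⟨t, s, ht, hs, h0, h1, h2⟩ := interlace hg (by omega) hj hq hqd hq' hqd' hqo hqo'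
  refine ⟨t, s, ?_, ?_, h0, h1, h2⟩
  · rw [hpq, ht, lift_prod]
  · rw [hpq', hs, lift_prod]

/-- For N=3,4, k<N, j≥1: the monic Bergman orthogonal polynomials of degrees jN+k and (j+1)N+k on the regular N-gon are z^k q(z^N), with q having real roots in (0,1), simple and strictly interlacing. -/
theorem result :
    ∀ N : ℕ, (N = 3 ∨ N = 4) → ∀ k : ℕ, k < N → ∀ j : ℕ, 1 ≤ j →
    ∀ p p' : Polynomial ℂ,
      p.Monic → p.natDegree = j * N + k →
      (∀ r : Polynomial ℂ, r.natDegree < j * N + k →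
        ∫ z in interior (convexHull ℝ {w : ℂ | w ^ N = 1}),
          p.eval z * (starRingEnd ℂ) (r.eval z) = 0) →
      p'.Monic → p'.natDegree = (j + 1) * N + k →
      (∀ r : Polynomial ℂ, r.natDegree < (j + 1) * N + k →
        ∫ z in interior (convexHull ℝ {w : ℂ | w ^ N = 1}),
          p'.eval z * (starRingEnd ℂ) (r.eval z) = 0) →
      ∃ t s : ℕ → ℝ,
        p = X ^ k * (∏ ν ∈ Finset.range j, (X - C ((t ν : ℝ) : ℂ))).comp (X ^ N) ∧
        p' = X ^ k * (∏ ν ∈ Finset.range (j + 1), (X - C ((s ν : ℝ) : ℂ))).comp (X ^ N) ∧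
        0 < s 0 ∧ s j < 1 ∧ ∀ ν, ν < j → s ν < t ν ∧ t ν < s (ν + 1) := by
  intro N hN k hk j hj p p' hp hpd horth hp' hpd' horth'
  rcases hN with rfl | rfl
  · exact main_case geo_three hk (good_three (k + 1) (by omega) (by omega)) hj hp hpd horth hp' hpd'
      horth'
  · exact main_case geo_four hk (good_four (k + 1) (by omega) (by omega)) hj hp hpd horth hp' hpd'
      horth'

end Pool.Agent.S05853
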