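import Pool.Statements.S05866
import Pool.Agent.Helper406.AltSpace

set_option autoImplicit false
open Pool Pool.MP_b372c7_an

namespace Pool.Agent.S05866

open Pool.Agent.Helper406.AltMethod Filter Topology

/-- The frozen form of the alternating method follows from a two-sided parallelogram inequality. -/
lemma frozen_method {𝕜 E : Type*} [RCLike 𝕜] [NormedAddCommGroup E] [NormedSpace 𝕜 E]
    [CompleteSpace E] {m M : ℝ} (hm0 : 0 < m) (hM0 : 0 < M)
    (hm : ∀ x y : E, 2 * ‖x‖ ^ 2 + 2 * m * ‖y‖ ^ 2 ≤ ‖x + y‖ ^ 2 + ‖x - y‖ ^ 2)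
    (hM : ∀ x y : E, ‖x + y‖ ^ 2 + ‖x - y‖ ^ 2 ≤ 2 * ‖x‖ ^ 2 + 2 * M * ‖y‖ ^ 2)
    (G₁ G₂ : Submodule 𝕜 E) (r : ℕ → E)
    (h1 : ∀ k : ℕ, r (2 * k) - r (2 * k + 1) ∈ G₁ ∧
            ‖r (2 * k + 1)‖ = Metric.infDist (r (2 * k)) (G₁ : Set E))
    (h2 : ∀ k : ℕ, r (2 * k + 1) - r (2 * k + 2) ∈ G₂ ∧
            ‖r (2 * k + 2)‖ = Metric.infDist (r (2 * k + 1)) (G₂ : Set E)) :
    ∃ y : E, Filter.Tendsto r Filter.atTop (nhds y) ∧
          r 0 - y ∈ (G₁ ⊔ G₂).topologicalClosure ∧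
          ‖y‖ = Metric.infDist (r 0) ((G₁ ⊔ G₂).topologicalClosure : Set E) := by
  let _ : NormedSpace ℝ E := NormedSpace.restrictScalars ℝ 𝕜 E
  have _ : IsScalarTower ℝ 𝕜 E := RestrictScalars.isScalarTower ℝ 𝕜 E
  have hGc : IsClosed ((G₁ ⊔ G₂).topologicalClosure : Set E) :=
    (G₁ ⊔ G₂).isClosed_topologicalClosure
  obtain ⟨g, hg, -⟩ := existsUnique_nearest hm0 hm (G₁ ⊔ G₂).topologicalClosure hGc (r 0)
  have hcase : ∀ k : ℕ, (∃ j, k = 2 * j) ∨ (∃ j, k = 2 * j + 1) := by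
    intro k
    rcases Nat.even_or_odd' k with ⟨j, hj | hj⟩
    · exact Or.inl ⟨j, hj⟩
    · exact Or.inr ⟨j, hj⟩
  have hlim : Tendsto r atTop (𝓝 (r 0 - g)) := by
    refine tendsto_residual hm0 hM0 hm hM (G₁.restrictScalars ℝ) (G₂.restrictScalars ℝ)
      ((G₁ ⊔ G₂).topologicalClosure.restrictScalars ℝ) ?_ ?_ ?_
      (fun k => (altSpace G₁ G₂ (k + 1)).restrictScalars ℝ) ?_ r ?_ ?_ _ hg.1 hg.2
    · intro y hy
      exact (G₁ ⊔ G₂).le_topologicalClosure (Submodule.mem_sup_left hy)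
    · intro y hy
      exact (G₁ ⊔ G₂).le_topologicalClosure (Submodule.mem_sup_right hy)
    · intro z hz ε hε
      have hz' : z ∈ closure ((G₁ ⊔ G₂ : Submodule 𝕜 E) : Set E) := hz
      rw [Metric.mem_closure_iff] at hz'
      obtain ⟨b, hb, hdist⟩ := hz' ε hε
      obtain ⟨a₁, ha₁, a₂, ha₂, rfl⟩ := Submodule.mem_sup.mp hb
      exact ⟨a₁, ha₁, a₂, ha₂, by rwa [← dist_eq_norm]⟩
    · intro k
      unfold altSpace
      rcases Nat.even_or_odd k with hk | hk
      · left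
        have h1 : Odd (k + 1) := hk.add_one
        have h2 : ¬ Odd (k + 1 + 1) := by
          rw [Nat.not_odd_iff_even]; exact h1.add_one
        simp [h1, h2]
      · right
        have h1 : ¬ Odd (k + 1) := by
          rw [Nat.not_odd_iff_even]; exact hk.add_one
        have h2 : Odd (k + 1 + 1) := by
          rw [Nat.not_odd_iff_even] at h1; exact h1.add_one
        simp [h1, h2]
    · intro k
      show r k - r (k + 1) ∈ altSpace G₁ G₂ (k + 1)
      unfold altSpace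
      rcases hcase k with ⟨j, rfl⟩ | ⟨j, rfl⟩
      · rw [if_pos (show Odd (2 * j + 1) from ⟨j, rfl⟩)]
        exact (h1 j).1
      · rw [if_neg (by rw [Nat.not_odd_iff_even]; exact ⟨j + 1, by ring⟩)]
        exact (h2 j).1
    · intro k h hh
      have hh' : h ∈ altSpace G₁ G₂ (k + 1) := hh
      unfold altSpace at hh'
      rcases hcase k with ⟨j, rfl⟩ | ⟨j, rfl⟩
      · rw [if_pos (show Odd (2 * j + 1) from ⟨j, rfl⟩)] at hh'
        rw [(h1 j).2, ← dist_eq_norm]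
        exact Metric.infDist_le_dist_of_mem hh'
      · rw [if_neg (by rw [Nat.not_odd_iff_even]; exact ⟨j + 1, by ring⟩)] at hh'
        show ‖r (2 * j + 2)‖ ≤ _
        rw [(h2 j).2, ← dist_eq_norm]
        exact Metric.infDist_le_dist_of_mem hh'
  refine ⟨r 0 - g, hlim, ?_, ?_⟩
  · rw [sub_sub_cancel]
    exact hg.1
  · apply le_antisymm
    · refine (Metric.le_infDist ⟨g, hg.1⟩).mpr ?_
      intro h hh
      rw [dist_eq_norm]
      exact hg.2 h hh
    · rw [← dist_eq_norm]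
      exact Metric.infDist_le_dist_of_mem hg.1

/-- The negation of the preceding statement: Every infinite-dimensional real or complex Banach space that is reflexive, strictly convex and admits the alternating method for metric projections satisfies the parallelogram law, i.e. its norm comes from an inner product. -/
theorem result :
    ¬ (∀ (𝕜 : Type) [RCLike 𝕜] (E : Type) [NormedAddCommGroup E] [NormedSpace 𝕜 E] [CompleteSpace E],
    ¬ FiniteDimensional 𝕜 E →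
    Function.Surjective (NormedSpace.inclusionInDoubleDual 𝕜 E) →
    (∀ x y : E, ‖x‖ = 1 → ‖y‖ = 1 → x ≠ y → ‖x + y‖ < 2) →
    (∀ (G₁ G₂ : Submodule 𝕜 E), IsClosed (G₁ : Set E) → IsClosed (G₂ : Set E) →
      ∀ r : ℕ → E,
        (∀ k : ℕ, r (2 * k) - r (2 * k + 1) ∈ G₁ ∧
            ‖r (2 * k + 1)‖ = Metric.infDist (r (2 * k)) (G₁ : Set E)) →
        (∀ k : ℕ, r (2 * k + 1) - r (2 * k + 2) ∈ G₂ ∧
            ‖r (2 * k + 2)‖ = Metric.infDist (r (2 * k + 1)) (G₂ : Set E)) →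
        ∃ y : E, Filter.Tendsto r Filter.atTop (nhds y) ∧
          r 0 - y ∈ (G₁ ⊔ G₂).topologicalClosure ∧
          ‖y‖ = Metric.infDist (r 0) ((G₁ ⊔ G₂).topologicalClosure : Set E)) →
    ∀ x y : E, ‖x + y‖ ^ 2 + ‖x - y‖ ^ 2 = 2 * (‖x‖ ^ 2 + ‖y‖ ^ 2)) := by
  intro H
  have hc : CompleteSpace (X ℝ) := X_complete ℝ
  have key := H ℝ (X ℝ) (X_infinite ℝ) (reflexive_of_equiv (equivK ℝ) hilbert_reflexive)
    (fun x y hx hy hxy => strict_convex (𝕜 := ℝ) (m := 1 / 10) (by norm_num) (X_lower ℝ) x y hx hy hxy)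
    (fun G₁ G₂ _ _ r h1 h2 => frozen_method (m := 1 / 10) (M := 2) (by norm_num) (by norm_num)
      (X_lower ℝ) (X_upper ℝ) G₁ G₂ r h1 h2)
  -- the norm would satisfy the parallelogram law, hence come from an inner product
  apply X_not_inner ℝ
  let _ : InnerProductSpace ℝ (X ℝ) := InnerProductSpace.ofNorm ℝ (fun x y => by
    have := key x y
    nlinarith [this])
  refine ⟨(InnerProductSpace.toCore : InnerProductSpace.Core ℝ (X ℝ)), fun x => ?_⟩
  exact norm_sq_eq_re_inner (𝕜 := ℝ) x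

end Pool.Agent.S05866
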