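import Pool.Statements.S05882
import Pool.Agent.Helper540.HC.CubeMain

set_option autoImplicit false
open Pool Pool.MP_b4c0b6_an

namespace Pool.Agent.S05882

/-- The vertex of the cube given by a set `T`: the coordinate `i` is `-1` when `i ∈ T`. -/
theorem prod_eq {n : ℕ} (S : Finset (Fin n)) (x : Fin n → Bool) :
    ∏ i ∈ S, (if x i then (1 : ℝ) else -1) =
      (-1 : ℝ) ^ (S ∩ Finset.univ.filter (fun i => x i = false)).card := by
  have h1 : ∏ i ∈ S, (if x i then (1 : ℝ) else -1) =
      ∏ i ∈ S, (if x i = false then (-1 : ℝ) else 1) := by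
    apply Finset.prod_congr rfl
    intro i _
    cases x i <;> simp
  rw [h1, Finset.prod_ite, Finset.prod_const, Finset.prod_const_one, mul_one]
  congr 2
  ext i
  simp

theorem sum_eq {n : ℕ} (F : (Finset (Fin n)) → ℝ) :
    ∑ x : Fin n → Bool, F (Finset.univ.filter (fun i => x i = false)) = ∑ T, F T := by
  apply Finset.sum_nbij' (i := fun x => Finset.univ.filter (fun i => x i = false))
    (j := fun T => fun i => decide (i ∉ T))
  · intro a _; exact Finset.mem_univ _
  · intro a _; exact Finset.mem_univ _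
  · intro a _
    funext i
    cases h : a i <;> simp [h]
  · intro T _
    ext i
    simp
  · intro a _; rfl

/-- The negation of the preceding statement: For every real p>1 there is c>0 such that for all d,n≥1 and every function on {-1,1}^n of degree at most d (given by Fourier coefficients), the uniform L_p norm of its Laplacian is at most c·d times the L_p norm of the function. -/
theorem result :
    ¬ (∀ p : ℝ, 1 < p → ∃ c : ℝ, 0 < c ∧
      ∀ d n : ℕ, 1 ≤ d → 1 ≤ n →
        ∀ a : Finset (Fin n) → ℝ, (∀ S : Finset (Fin n), d < S.card → a S = 0) →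
          ((∑ T : Finset (Fin n),
                |∑ S : Finset (Fin n), a S * (S.card : ℝ) * (-1 : ℝ) ^ (S ∩ T).card| ^ p)
              / (2 : ℝ) ^ n) ^ (1 / p)
            ≤ c * (d : ℝ) *
              ((∑ T : Finset (Fin n),
                  |∑ S : Finset (Fin n), a S * (-1 : ℝ) ^ (S ∩ T).card| ^ p)
                / (2 : ℝ) ^ n) ^ (1 / p)) := by
  intro hall
  obtain ⟨C, hC, h⟩ := hall (3 / 2) (by norm_num)
  obtain ⟨n, d, hn, hd, c, hc, hlt⟩ :=
    HC.cube_main (3 / 2) (by norm_num) (by norm_num) C hC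
  have key := h d n hd hn c hc
  have e1 : ∑ x : Fin n → Bool,
      |∑ S : Finset (Fin n), c S * ∏ i ∈ S, (if x i then (1 : ℝ) else -1)| ^ (3 / 2 : ℝ) =
      ∑ T : Finset (Fin n),
        |∑ S : Finset (Fin n), c S * (-1 : ℝ) ^ (S ∩ T).card| ^ (3 / 2 : ℝ) := by
    rw [← sum_eq]
    simp only [prod_eq]
  have e2 : ∑ x : Fin n → Bool, |∑ S : Finset (Fin n), (S.card : ℝ) * c S *
          ∏ i ∈ S, (if x i then (1 : ℝ) else -1)| ^ (3 / 2 : ℝ) =
      ∑ T : Finset (Fin n),
        |∑ S : Finset (Fin n), c S * (S.card : ℝ) * (-1 : ℝ) ^ (S ∩ T).card| ^ (3 / 2 : ℝ) := by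
    rw [← sum_eq]
    simp only [prod_eq, mul_comm (c _)]
  rw [e1, e2] at hlt
  set A := ∑ T : Finset (Fin n),
        |∑ S : Finset (Fin n), c S * (-1 : ℝ) ^ (S ∩ T).card| ^ (3 / 2 : ℝ) with hA
  set B := ∑ T : Finset (Fin n),
        |∑ S : Finset (Fin n), c S * (S.card : ℝ) * (-1 : ℝ) ^ (S ∩ T).card| ^ (3 / 2 : ℝ) with hB
  have hA0 : 0 ≤ A := Finset.sum_nonneg (fun x _ => by positivity)
  have e3 : C * (d : ℝ) * (A / (2 : ℝ) ^ n) ^ (1 / (3 / 2) : ℝ) =
      (((C * (d : ℝ)) ^ (3 / 2 : ℝ) * A) / 2 ^ n) ^ (1 / (3 / 2) : ℝ) := by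
    rw [mul_div_assoc, Real.mul_rpow (by positivity) (by positivity),
      ← Real.rpow_mul (by positivity), mul_one_div_cancel (by norm_num), Real.rpow_one]
  rw [e3] at key
  refine absurd key (not_le.2 ?_)
  apply Real.rpow_lt_rpow (by positivity) _ (by norm_num)
  gcongr

end Pool.Agent.S05882
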