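import Pool.Statements.S05885
import Pool.Agent.Helper242.RM.Fin2

set_option autoImplicit false
open Pool Pool.MP_b608a7_an

namespace Pool.Agent.S05885

open Pool.Agent.Helper242.RM Module Module.End

/-- the operator minus l, on all functions -/
noncomputable def Op (l : ℂ) (h : ℂ → ℂ) : ℂ → ℂ := fun y =>
  (∑' m : ℕ, ((y + ((m : ℂ) + 1)) ^ 2)⁻¹ * h (1 / (y + ((m : ℂ) + 1)))) - l * h y

/-- the operator on X -/
noncomputable abbrev G2 : Module.End ℂ X := G 2 (by norm_num)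

/-- an element of X from a function -/
noncomputable def mk (f : ℂ → ℂ) (hc : ContinuousOn f (Metric.closedBall (1 : ℂ) (3 / 2 : ℝ)))
    (hd : DifferentiableOn ℂ f (Metric.ball (1 : ℂ) (3 / 2 : ℝ))) : X :=
  ⟨⟨fun z : Disc => f z, hc.domRestrict⟩, by
    change DifferentiableOn ℂ _ _
    refine hd.congr ?_
    intro z hz
    have hz' : z ∈ Disc := Metric.ball_subset_closedBall hz
    simp only [ext, dif_pos hz']
    rfl⟩

/-- f represents F on the disc -/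
def Rep (f : ℂ → ℂ) (F : X) : Prop := ∀ z : Disc, (F : C(Disc, ℂ)) z = f z

lemma rep_mk (f : ℂ → ℂ) (hc : ContinuousOn f (Metric.closedBall (1 : ℂ) (3 / 2 : ℝ)))
    (hd : DifferentiableOn ℂ f (Metric.ball (1 : ℂ) (3 / 2 : ℝ))) : Rep f (mk f hc hd) :=
  fun _ => rfl

lemma ext_of_rep {f : ℂ → ℂ} {F : X} (h : Rep f F) (z : ℂ) (hz : z ∈ Disc) :
    ext (F : C(Disc, ℂ)) z = f z := by
  simp only [ext, dif_pos hz]
  exact h ⟨z, hz⟩

lemma Gval_rep {f : ℂ → ℂ} {F : X} (h : Rep f F) (z : Disc) :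
    Gval 2 (F : C(Disc, ℂ)) z
      = ∑' m : ℕ, (((z:ℂ) + ((m : ℂ) + 1)) ^ 2)⁻¹ * f (1 / ((z:ℂ) + ((m : ℂ) + 1))) := by
  unfold Gval
  refine tsum_congr fun n => ?_
  rw [ext_of_rep h _ (gv_inv_mem z z.2 n), one_div]
  congr 1
  have : (-((2:ℝ) : ℂ)) = ((-2 : ℤ) : ℂ) := by push_cast; rfl
  rw [this, Complex.cpow_intCast]
  rw [zpow_neg]
  norm_cast

lemma rep_step {l : ℂ} {f : ℂ → ℂ} {F : X} (h : Rep f F) :
    Rep (Op l f) ((G2 - l • (1 : Module.End ℂ X)) F) := by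
  intro z
  have h1 : ((G2 F : X) : C(Disc, ℂ)) z = Gval 2 (F : C(Disc, ℂ)) z := rfl
  have h2 : (((G2 - l • (1 : Module.End ℂ X)) F : X) : C(Disc, ℂ)) z
      = ((G2 F : X) : C(Disc, ℂ)) z - l * (F : C(Disc, ℂ)) z := rfl
  rw [h2, h1, Gval_rep h, h z]
  rfl

lemma rep_iter {l : ℂ} {f : ℂ → ℂ} {F : X} (h : Rep f F) (k : ℕ) :
    Rep ((Op l)^[k] f) (((G2 - l • (1 : Module.End ℂ X)) ^ k) F) := by
  induction k with
  | zero => simpa using h
  | succ k ih =>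
    rw [Function.iterate_succ_apply', pow_succ']
    exact rep_step ih

lemma mem_gen {l : ℂ} {f : ℂ → ℂ} {F : X} (h : Rep f F)
    (hk : ∃ k : ℕ, ∀ x ∈ Metric.closedBall (1 : ℂ) (3 / 2 : ℝ), (Op l)^[k] f x = 0) :
    F ∈ maxGenEigenspace G2 l := by
  obtain ⟨k, hk⟩ := hk
  rw [mem_maxGenEigenspace]
  refine ⟨k, ?_⟩
  have h1 := rep_iter (l := l) h k
  apply Subtype.ext
  ext z
  exact (h1 z).trans (hk z z.2)

lemma hasEigenvalue_of_mem {l : ℂ} {F : X} (hF : F ∈ maxGenEigenspace G2 l) (h0 : F ≠ 0) :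
    HasEigenvalue G2 l := by
  rw [mem_maxGenEigenspace] at hF
  obtain ⟨k, hk⟩ := hF
  apply hasEigenvalue_of_hasGenEigenvalue (k := k)
  intro hbot
  have h1 : F ∈ genEigenspace G2 l (k : ℕ∞) := by
    rw [mem_genEigenspace_nat, LinearMap.mem_ker]
    exact hk
  have h2 : F ∈ (⊥ : Submodule ℂ X) := hbot ▸ h1
  exact h0 ((Submodule.mem_bot ℂ).1 h2)

/-- For the Gauss-Kuzmin-Wirsing operator on functions continuous on ∣x-1∣≤3/2 and analytic inside, every nonzero eigenvalue has a generalized eigenspace of dimension at most one, and distinct nonzero eigenvalues have distinct absolute values. -/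
theorem result :
    (∀ l : ℂ, l ≠ 0 → ∀ f g : ℂ → ℂ,
      ContinuousOn f (Metric.closedBall (1 : ℂ) (3 / 2 : ℝ)) →
      DifferentiableOn ℂ f (Metric.ball (1 : ℂ) (3 / 2 : ℝ)) →
      ContinuousOn g (Metric.closedBall (1 : ℂ) (3 / 2 : ℝ)) →
      DifferentiableOn ℂ g (Metric.ball (1 : ℂ) (3 / 2 : ℝ)) →
      (∃ k : ℕ, ∀ x ∈ Metric.closedBall (1 : ℂ) (3 / 2 : ℝ),
        (fun h : ℂ → ℂ => fun y : ℂ =>
          (∑' m : ℕ, ((y + ((m : ℂ) + 1)) ^ 2)⁻¹ * h (1 / (y + ((m : ℂ) + 1)))) - l * h y)^[k] f x = 0) →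
      (∃ k : ℕ, ∀ x ∈ Metric.closedBall (1 : ℂ) (3 / 2 : ℝ),
        (fun h : ℂ → ℂ => fun y : ℂ =>
          (∑' m : ℕ, ((y + ((m : ℂ) + 1)) ^ 2)⁻¹ * h (1 / (y + ((m : ℂ) + 1)))) - l * h y)^[k] g x = 0) →
      ∃ c : ℂ, (∀ x ∈ Metric.closedBall (1 : ℂ) (3 / 2 : ℝ), f x = c * g x) ∨
               (∀ x ∈ Metric.closedBall (1 : ℂ) (3 / 2 : ℝ), g x = c * f x)) ∧
    (∀ l μ : ℂ, l ≠ 0 → μ ≠ 0 →
      (∃ f : ℂ → ℂ, ContinuousOn f (Metric.closedBall (1 : ℂ) (3 / 2 : ℝ)) ∧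
        DifferentiableOn ℂ f (Metric.ball (1 : ℂ) (3 / 2 : ℝ)) ∧
        (∃ x ∈ Metric.closedBall (1 : ℂ) (3 / 2 : ℝ), f x ≠ 0) ∧
        ∀ x ∈ Metric.closedBall (1 : ℂ) (3 / 2 : ℝ),
          (∑' m : ℕ, ((x + ((m : ℂ) + 1)) ^ 2)⁻¹ * f (1 / (x + ((m : ℂ) + 1)))) = l * f x) →
      (∃ g : ℂ → ℂ, ContinuousOn g (Metric.closedBall (1 : ℂ) (3 / 2 : ℝ)) ∧
        DifferentiableOn ℂ g (Metric.ball (1 : ℂ) (3 / 2 : ℝ)) ∧
        (∃ x ∈ Metric.closedBall (1 : ℂ) (3 / 2 : ℝ), g x ≠ 0) ∧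
        ∀ x ∈ Metric.closedBall (1 : ℂ) (3 / 2 : ℝ),
          (∑' m : ℕ, ((x + ((m : ℂ) + 1)) ^ 2)⁻¹ * g (1 / (x + ((m : ℂ) + 1)))) = μ * g x) →
      ‖l‖ = ‖μ‖ → l = μ) := by
  obtain ⟨lam, hdec, -, -, hdim, hall⟩ := spectrum_main 2 (by norm_num)
  constructor
  · intro l hl f g hfc hfd hgc hgd hf hg
    set F : X := mk f hfc hfd with hF
    set K : X := mk g hgc hgd with hK
    have hFr : Rep f F := rep_mk f hfc hfd
    have hKr : Rep g K := rep_mk g hgc hgd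
    have hF1 : F ∈ maxGenEigenspace G2 l := mem_gen hFr hf
    have hK1 : K ∈ maxGenEigenspace G2 l := mem_gen hKr hg
    by_cases hF0 : F = 0
    · refine ⟨0, Or.inl fun x hx => ?_⟩
      have := hFr ⟨x, hx⟩
      rw [hF0] at this
      rw [zero_mul]
      exact this.symm
    · have hev := hasEigenvalue_of_mem hF1 hF0
      obtain ⟨j, hj⟩ := hall l hl hev
      have hd := hdim j
      rw [← hj] at hd
      have h1 := (finrank_eq_one_iff_of_nonzero' (⟨F, hF1⟩ : maxGenEigenspace G2 l)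
        (fun h => hF0 (congrArg Subtype.val h))).1 hd ⟨K, hK1⟩
      obtain ⟨c, hc⟩ := h1
      refine ⟨c, Or.inr fun x hx => ?_⟩
      have h2 : c • F = K := congrArg Subtype.val hc
      have h3 := hKr ⟨x, hx⟩
      have h4 := hFr ⟨x, hx⟩
      rw [← h2] at h3
      have h5 : ((c • F : X) : C(Disc, ℂ)) ⟨x, hx⟩ = c * (F : C(Disc, ℂ)) ⟨x, hx⟩ := rfl
      rw [h5, h4] at h3
      exact h3.symm
  · have key : ∀ l : ℂ, l ≠ 0 →
        (∃ f : ℂ → ℂ, ContinuousOn f (Metric.closedBall (1 : ℂ) (3 / 2 : ℝ)) ∧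
        DifferentiableOn ℂ f (Metric.ball (1 : ℂ) (3 / 2 : ℝ)) ∧
        (∃ x ∈ Metric.closedBall (1 : ℂ) (3 / 2 : ℝ), f x ≠ 0) ∧
        ∀ x ∈ Metric.closedBall (1 : ℂ) (3 / 2 : ℝ),
          (∑' m : ℕ, ((x + ((m : ℂ) + 1)) ^ 2)⁻¹ * f (1 / (x + ((m : ℂ) + 1)))) = l * f x) →
        ∃ j, l = (lam j : ℂ) := by
      rintro l hl ⟨f, hfc, hfd, ⟨x, hx, hfx⟩, hf⟩
      set F : X := mk f hfc hfd with hF
      have hFr : Rep f F := rep_mk f hfc hfd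
      have hF1 : F ∈ maxGenEigenspace G2 l := mem_gen hFr ⟨1, fun y hy => by
        simp only [Function.iterate_one, Op]
        rw [hf y hy, sub_self]⟩
      have hF0 : F ≠ 0 := by
        intro h0
        have := hFr ⟨x, hx⟩
        rw [h0] at this
        exact hfx this.symm
      exact hall l hl (hasEigenvalue_of_mem hF1 hF0)
    intro l μ hl hμ hf hg hn
    obtain ⟨i, hi⟩ := key l hl hf
    obtain ⟨j, hj⟩ := key μ hμ hg
    rw [hi, hj, Complex.norm_real, Complex.norm_real, Real.norm_eq_abs, Real.norm_eq_abs] at hn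
    have hanti : StrictAnti (fun j => |lam j|) := strictAnti_nat_of_succ_lt hdec
    rw [hi, hj, hanti.injective hn]

end Pool.Agent.S05885
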