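import Pool.Statements.S05947
import Pool.Agent.W754.NoOverlap2

set_option autoImplicit false
open MeasureTheory Matrix
open Pool Pool.MP_bc76ba_an

namespace Pool.Agent.S05947

/-- For an expanding integer matrix R and finite digit set B in Z^d, if the equal-weight self-affine measure is spectral, then the pieces R^{-1}(T+b) of its attractor T pairwise meet in a set of measure zero. -/
theorem result :
  ∀ (d : ℕ) (R : Matrix (Fin d) (Fin d) ℤ) (B : Finset (Fin d → ℤ))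
    (φ : (Fin d → ℤ) → (Fin d → ℝ) → (Fin d → ℝ))
    (μ : MeasureTheory.Measure (Fin d → ℝ)),
    (∀ z : ℂ, (R.map (Int.castRingHom ℂ)).charpoly.IsRoot z → 1 < ‖z‖) →
    (∀ b x, φ b x = (R.map (Int.castRingHom ℝ))⁻¹ *ᵥ (x + fun i => (b i : ℝ))) →
    MeasureTheory.IsProbabilityMeasure μ →
    μ = ∑ b ∈ B, ((B.card : ENNReal)⁻¹) • μ.map (φ b) →
    (∃ (Λ : Set (Fin d → ℝ)) (e : Λ → MeasureTheory.Lp ℂ 2 μ),
      (∀ l : Λ, (e l : (Fin d → ℝ) → ℂ) =ᵐ[μ]
        fun x => Complex.exp (2 * Real.pi * Complex.I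
          * ((∑ i, (l : Fin d → ℝ) i * x i : ℝ) : ℂ))) ∧
      Orthonormal ℂ e ∧
      (Submodule.span ℂ (Set.range e)).topologicalClosure = ⊤) →
    ∀ T : Set (Fin d → ℝ), IsCompact T → T.Nonempty → T = ⋃ b ∈ B, φ b '' T →
    ∀ b ∈ B, ∀ b' ∈ B, b ≠ b' → μ (φ b '' T ∩ φ b' '' T) = 0 := by
  intro d R B φ μ hroot hφ hprob hμ hspec T hT hTne hTeq b hb b' hb' hbb
  obtain ⟨Λ, e, he, ho, hs⟩ := hspec
  have hB : B.Nonempty := ⟨b, hb⟩
  obtain ⟨hA, hdet, c, hc, hcb⟩ := Pool.Agent.W754.int_pow_inv_tendsto R hroot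
  have hφ' : ∀ b x, φ b x =
      Matrix.mulVec (R.map (Int.castRingHom ℝ))⁻¹ (x + Pool.Agent.W754.toR b) := hφ
  have hφc : ∀ c, Continuous (φ c) := by
    intro c
    have h1 : φ c = fun x =>
        Matrix.mulVec (R.map (Int.castRingHom ℝ))⁻¹ (x + Pool.Agent.W754.toR c) :=
      funext fun x => hφ' c x
    rw [h1]
    exact ((Matrix.mulVecLin (R.map (Int.castRingHom ℝ))⁻¹).continuous_of_finiteDimensional).comp
      (continuous_id.add continuous_const)
  have hφm : ∀ b ∈ B, Measurable (φ b) := fun b _ => (hφc b).measurable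
  have hμS : ∀ S : Set (Fin d → ℝ), MeasurableSet S →
      μ S = (B.card : ENNReal)⁻¹ * ∑ b ∈ B, μ (φ b ⁻¹' S) := by
    intro S hS
    conv_lhs => rw [hμ]
    rw [MeasureTheory.Measure.finsetSum_apply, Finset.mul_sum]
    refine Finset.sum_congr rfl fun b hb => ?_
    rw [MeasureTheory.Measure.smul_apply, MeasureTheory.Measure.map_apply (hφm b hb) hS,
      smul_eq_mul]
  have hTsub : ∀ b ∈ B, φ b '' T ⊆ T := by
    intro b hb x hx
    rw [hTeq]
    simp only [Set.mem_iUnion, exists_prop]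
    exact ⟨b, hb, hx⟩
  have hTμ : μ Tᶜ = 0 := Pool.Agent.W754.attractor_full R B hB φ μ hA hφ' hφm c hc hcb hμS T hT
    hTne hTsub
  refine Pool.Agent.W754.no_overlap_of_dig_injective R B hB φ μ hA hφ' hφm hμS T hT hTμ hTeq ?_
    b hb b' hb' hbb
  intro k L1 hL1 L2 hL2 hdig
  exact Pool.Agent.W754.dig_injective_of_spectral R B hB hdet φ μ hA hφ' hφm hμS T hT hTne hTμ
    Λ e he ho hs k L1 hL1 L2 hL2 hdig

end Pool.Agent.S05947
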