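import Pool.Statements.S06057
import Pool.Agent.Results.MP_c42e77_an.ContinuumLevel

set_option autoImplicit false
open Pool Pool.MP_c42e77_an

namespace Pool.Agent.S06057

/-- For every summable sequence of positive reals, the set of reals t that arise as a subsum in continuum-many ways is either empty or contains a subset homeomorphic to the Cantor space. -/
theorem result :
    ∀ x : ℕ → ℝ, (∀ n, 0 < x n) → Summable x →
      ({t : ℝ | Cardinal.mk (↥{ε : ℕ → Bool | (∑' n, if ε n then x n else 0) = t})
            = Cardinal.continuum} = ∅ ∨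
        ∃ C : Set ℝ,
          C ⊆ {t : ℝ | Cardinal.mk (↥{ε : ℕ → Bool | (∑' n, if ε n then x n else 0) = t})
                = Cardinal.continuum} ∧
          Nonempty (C ≃ₜ (ℕ → Bool))) := by
  intro x hx hs
  rcases Pool.Agent.Results.MP_c42e77_an.ContinuumLevel.result x hx hs with h | ⟨C, hC, ⟨e⟩⟩
  · exact Or.inl h
  · exact Or.inr ⟨C, hC, ⟨e.trans cantorSetHomeomorphNatToBool⟩⟩

end Pool.Agent.S06057
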