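import Pool.Statements.S06063
import Pool.Agent.W673.Mk.Fin

set_option autoImplicit false
open Pool Pool.MP_c4a887_an

namespace Pool.Agent.S06063

/-- For every M ≥ 1 there is C ≥ 0 such that any real d×d matrix Q, in any dimension d, with max column abs-sum of exp(-Q) at most M and exp(tQ) column stochastic for all t ≥ 0, has max column abs-sum at most C. -/
theorem result :
    ∀ M : ℝ, 1 ≤ M → ∃ C : ℝ, 0 ≤ C ∧
      ∀ d : ℕ, ∀ Q : Matrix (Fin d) (Fin d) ℝ,
        (∀ j : Fin d, ∑ i : Fin d, |NormedSpace.exp (-Q) i j| ≤ M) →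
        (∀ t : ℝ, 0 ≤ t →
          (∀ i j : Fin d, 0 ≤ NormedSpace.exp (t • Q) i j) ∧
          (∀ j : Fin d, ∑ i : Fin d, NormedSpace.exp (t • Q) i j = 1)) →
        ∀ j : Fin d, ∑ i : Fin d, |Q i j| ≤ C :=
  fun M hM => Pool.Agent.W673.Mk.main M hM

end Pool.Agent.S06063
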