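import Pool.Statements.S06190
import Pool.Agent.W665.JCB.Final

set_option autoImplicit false
open scoped CStarMatrix
open Pool Pool.MP_cdaa24_an

namespace Pool.Agent.S06190

/-- The negation of the preceding statement: For all C*-algebras A, B and Hilbert spaces H, every jointly completely bounded bilinear map A×B→B(H) splits as φ₁(a,b)+φ₂(b,a), with φ₁ multiplicatively (Haagerup) bounded on A×B and φ₂ multiplicatively bounded on B×A. -/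
theorem result :
    ¬ (∀ (A B H : Type) [NonUnitalCStarAlgebra A] [PartialOrder A] [StarOrderedRing A]
      [NonUnitalCStarAlgebra B] [PartialOrder B] [StarOrderedRing B]
      [NormedAddCommGroup H] [InnerProductSpace ℂ H] [CompleteSpace H]
      (φ : A →ₗ[ℂ] B →ₗ[ℂ] (H →L[ℂ] H)),
      (∃ C : ℝ, ∀ (n m : ℕ) (a : CStarMatrix (Fin n) (Fin n) A)
          (b : CStarMatrix (Fin m) (Fin m) B) (x : Fin n × Fin m → H),
          ∑ p : Fin n × Fin m, ‖∑ q : Fin n × Fin m, φ (a p.1 q.1) (b p.2 q.2) (x q)‖ ^ 2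
            ≤ (C * ‖a‖ * ‖b‖) ^ 2 * ∑ q : Fin n × Fin m, ‖x q‖ ^ 2) →
      ∃ (φ₁ : A →ₗ[ℂ] B →ₗ[ℂ] (H →L[ℂ] H)) (φ₂ : B →ₗ[ℂ] A →ₗ[ℂ] (H →L[ℂ] H)),
        (∃ C : ℝ, ∀ (n : ℕ) (a : CStarMatrix (Fin n) (Fin n) A)
            (b : CStarMatrix (Fin n) (Fin n) B) (x : Fin n → H),
            ∑ i : Fin n, ‖∑ j : Fin n, ∑ k : Fin n, φ₁ (a i k) (b k j) (x j)‖ ^ 2
              ≤ (C * ‖a‖ * ‖b‖) ^ 2 * ∑ j : Fin n, ‖x j‖ ^ 2) ∧
        (∃ C : ℝ, ∀ (n : ℕ) (b : CStarMatrix (Fin n) (Fin n) B)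
            (a : CStarMatrix (Fin n) (Fin n) A) (x : Fin n → H),
            ∑ i : Fin n, ‖∑ j : Fin n, ∑ k : Fin n, φ₂ (b i k) (a k j) (x j)‖ ^ 2
              ≤ (C * ‖b‖ * ‖a‖) ^ 2 * ∑ j : Fin n, ‖x j‖ ^ 2) ∧
        ∀ (a : A) (b : B), φ a b = φ₁ a b + φ₂ b a) := by
  intro hmain
  have hex : ∀ k : ℕ, ∃ p : ℕ, 4 * 256 ^ k ≤ p ∧ p.Prime := fun k =>
    Nat.exists_infinite_primes (4 * 256 ^ k)
  choose P hPle hPp using hex
  haveI hP : ∀ k, Fact (P k).Prime := fun k => ⟨hPp k⟩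
  have h2 : ∀ k, P k ≠ 2 := by
    intro k hk
    have h1 := hPle k
    have h3 : 1 ≤ 256 ^ k := Nat.one_le_pow _ _ (by norm_num)
    omega
  letI o : PartialOrder (W665.JCB.LI (W665.JCB.IX P)) :=
    CStarAlgebra.spectralOrder (W665.JCB.LI (W665.JCB.IX P))
  haveI so : StarOrderedRing (W665.JCB.LI (W665.JCB.IX P)) :=
    CStarAlgebra.spectralOrderedRing (W665.JCB.LI (W665.JCB.IX P))
  let H : Type := lp (fun _ : ℕ => ℂ) 2
  let bs : ℕ → H := fun i => (default : HilbertBasis ℕ ℂ (lp (fun _ : ℕ => ℂ) 2)) i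
  have hbs : Orthonormal ℂ bs := (default : HilbertBasis ℕ ℂ (lp (fun _ : ℕ => ℂ) 2)).orthonormal
  obtain ⟨φ₁, φ₂, ⟨C₁, h₁⟩, ⟨C₂, h₂⟩, hdec⟩ := hmain (W665.JCB.LI (W665.JCB.IX P))
    (W665.JCB.LI (W665.JCB.IX P)) H (W665.JCB.PP P hbs h2)
    ⟨2, fun n m a b x => W665.JCB.PP_jcb P hbs h2 n m a b x⟩
  have hlow : ∀ k : ℕ, (4 : ℝ) ^ k ≤ 2 * (C₁ ^ 2 + C₂ ^ 2) := by
    intro k
    have h := W665.JCB.dec_lower P hbs h2 φ₁ φ₂ C₁ C₂ h₁ h₂ hdec k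
    refine le_trans ?_ h
    exact W665.JCB.growth P k (hPle k)
  obtain ⟨k, hk⟩ := pow_unbounded_of_one_lt (2 * (C₁ ^ 2 + C₂ ^ 2)) (by norm_num : (1 : ℝ) < 4)
  exact absurd (hlow k) (not_le.2 hk)

end Pool.Agent.S06190
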