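import Pool.Statements.S06198
import Pool.Agent.Results.MP_cea7e0_an.Unstable

set_option autoImplicit false
open Pool Pool.MP_cea7e0_an

namespace Pool.Agent.S06198

/-- The negation of the preceding statement: For n≥0, r≥2, d≥r and a real sequence f_0..f_n (zero elsewhere) with f_0,f_n>0 and all Toeplitz minors of order ≤d nonnegative, if the Pochhammer–determinant polynomial P_n^r is nonzero then all its roots have negative real part and all its coefficients are positive. -/
theorem result :
    ¬ (∀ (n r d : ℕ), 2 ≤ r → r ≤ d → ∀ f : ℤ → ℝ,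
      (∀ k : ℤ, (k < 0 ∨ (n : ℤ) < k) → f k = 0) →
      0 < f 0 → 0 < f (n : ℤ) →
      (∀ m : ℕ, m ≤ d → ∀ a b : Fin m → ℤ, StrictMono a → StrictMono b →
          0 ≤ (Matrix.of fun s t => f (a s - b t)).det) →
      ∀ P : Polynomial ℝ,
        P = ∑ k ∈ Finset.Nat.antidiagonalTuple r n,
          Polynomial.C ((Nat.multinomial Finset.univ k : ℝ) * ∏ i, f ((k i : ℕ) : ℤ)) *
          (Matrix.of fun (i j : Fin r) => (ascPochhammer ℝ (k i)).comp
              (Polynomial.X + Polynomial.C (((j : ℕ) : ℝ) - ((i : ℕ) : ℝ)))).det →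
        P ≠ 0 →
        (∀ z : ℂ, Polynomial.aeval z P = 0 → z.re < 0) ∧
        (∀ i : ℕ, i ≤ P.natDegree → 0 < P.coeff i)) := by
  intro h
  obtain ⟨n, r, f, hr, hpos, hPF, hne, z, hz, hz0⟩ :=
    Pool.Agent.Results.MP_cea7e0_an.Unstable.result
  have hext : ∀ k : ℕ, k ≤ n → Pool.Agent.Results.MP_cea7e0_an.Unstable.ext n f (k : ℤ) = f k := by
    intro k hk
    unfold Pool.Agent.Results.MP_cea7e0_an.Unstable.ext
    rw [if_pos ⟨by positivity, by exact_mod_cast hk⟩, Int.toNat_natCast]
  have h1 := h n r r hr le_rfl (Pool.Agent.Results.MP_cea7e0_an.Unstable.ext n f) (by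
      intro k hk
      unfold Pool.Agent.Results.MP_cea7e0_an.Unstable.ext
      rw [if_neg]
      omega) (by
      have := hext 0 (Nat.zero_le _)
      rw [Nat.cast_zero] at this
      rw [this]
      exact hpos 0 (Nat.zero_le _)) (by
      rw [hext n le_rfl]
      exact hpos n le_rfl) hPF
    (Pool.Agent.Results.MP_cea7e0_an.Unstable.toeplitzPoly n r f) (by
      unfold Pool.Agent.Results.MP_cea7e0_an.Unstable.toeplitzPoly
      refine Finset.sum_congr rfl fun k hk => ?_
      rw [Finset.Nat.mem_antidiagonalTuple] at hk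
      have h2 : ∏ i, f (k i) =
          ∏ i, Pool.Agent.Results.MP_cea7e0_an.Unstable.ext n f ((k i : ℕ) : ℤ) := by
        refine Finset.prod_congr rfl fun i _ => ?_
        rw [hext]
        rw [← hk]
        exact Finset.single_le_sum (f := k) (fun _ _ => Nat.zero_le _) (Finset.mem_univ i)
      rw [h2]) hne
  exact absurd (h1.1 z hz0) (not_lt.2 hz.le)

end Pool.Agent.S06198
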