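import Pool.Statements.S06296
import Pool.Agent.W560.MaxMult

set_option autoImplicit false
open Pool Pool.MP_d5976f_an

namespace Pool.Agent.S06296

/-- The negation of the preceding statement: For every complex polynomial p of degree d ≥ 2 and every n ≥ 2, the n-th iterate of p has a fixed point whose multiplier has modulus at least d^n. -/
theorem result :
    ¬ (∀ p : Polynomial ℂ, 2 ≤ p.natDegree → ∀ n : ℕ, 2 ≤ n →
      ∃ z : ℂ,
        ((fun q : Polynomial ℂ => p.comp q)^[n] Polynomial.X).eval z = z ∧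
        ((p.natDegree : ℝ) ^ n ≤
          ‖(Polynomial.derivative
              ((fun q : Polynomial ℂ => p.comp q)^[n] Polynomial.X)).eval z‖)) := by
  intro h
  have hdeg : (Polynomial.C (149/50 : ℂ) * Polynomial.X - Polynomial.X ^ 3).natDegree = 3 := by
    compute_degree!
  obtain ⟨z, hz, hn⟩ := h (Polynomial.C (149/50 : ℂ) * Polynomial.X - Polynomial.X ^ 3)
    (by rw [hdeg]; norm_num) 3 (by norm_num)
  rw [hdeg] at hn
  simp only [Function.iterate_succ, Function.iterate_zero, Function.comp_apply, id_eq] at hz hn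
  obtain ⟨z1, h1⟩ : ∃ z1, z1 = (149/50)*z - z^3 := ⟨_, rfl⟩
  obtain ⟨z2, h2⟩ : ∃ z2, z2 = (149/50)*z1 - z1^3 := ⟨_, rfl⟩
  have h3 : z = (149/50)*z2 - z2^3 := by
    rw [h2, h1]
    simpa using hz.symm
  have hb := Pool.Agent.W560.MaxMult.multiplier_bound z z1 z2 h1 h2 h3
  have key : ∀ p q : Polynomial ℂ, (Polynomial.derivative (p.comp q)).eval z =
      (Polynomial.derivative q).eval z * (Polynomial.derivative p).eval (q.eval z) := by
    intro p q
    rw [Polynomial.derivative_comp, Polynomial.eval_mul, Polynomial.eval_comp]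
  have hd' : ∀ w : ℂ, (Polynomial.derivative
      (Polynomial.C (149/50 : ℂ) * Polynomial.X - Polynomial.X ^ 3)).eval w
        = 149/50 - 3*w^2 := by
    intro w; simp; norm_num
  have he : ∀ w : ℂ, (Polynomial.C (149/50 : ℂ) * Polynomial.X - Polynomial.X ^ 3).eval w
        = (149/50)*w - w^3 := by
    intro w; simp
  have hd : (Polynomial.derivative
      ((Polynomial.C (149/50 : ℂ) * Polynomial.X - Polynomial.X ^ 3).comp
        ((Polynomial.C (149/50 : ℂ) * Polynomial.X - Polynomial.X ^ 3).comp
          ((Polynomial.C (149/50 : ℂ) * Polynomial.X - Polynomial.X ^ 3).comp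
            Polynomial.X)))).eval z =
      (149/50 - 3*z^2)*(149/50 - 3*z1^2)*(149/50 - 3*z2^2) := by
    rw [key, key, key, h2, h1]
    simp only [Polynomial.eval_comp, he, hd', Polynomial.eval_X, Polynomial.derivative_X,
      Polynomial.eval_one, one_mul]
  rw [hd] at hn
  have h27 : ((3 : ℕ) : ℝ)^3 = 27 := by norm_num
  rw [h27] at hn
  exact absurd hb (not_lt.mpr hn)

end Pool.Agent.S06296
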