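import Pool.Statements.S06320
import Pool.Agent.H173R2.HWE

set_option autoImplicit false
open Matrix
open Pool Pool.MP_d71970_an

namespace Pool.Agent.S06320

/-- The negation of the preceding statement: For real p ≥ 1, suppose every pair of normal complex matrices of any size has a matching of their eigenvalues whose l^p distance is at most the Schatten p-norm of their difference. Then p equals 2. -/
theorem result :
    ¬ (∀ p : ℝ, 1 ≤ p →
      (∀ n : ℕ, ∀ α β : Fin n → ℂ,
        ∀ U ∈ Matrix.unitaryGroup (Fin n) ℂ, ∀ V ∈ Matrix.unitaryGroup (Fin n) ℂ,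
          ∃ σ : Equiv.Perm (Fin n),
            (∑ i, ‖α i - β (σ i)‖ ^ p) ^ (1 / p) ≤
              (∑ i, Real.sqrt ((Matrix.isHermitian_conjTranspose_mul_self
                  (U * Matrix.diagonal α * star U - V * Matrix.diagonal β * star V)).eigenvalues i) ^ p)
                ^ (1 / p)) →
      p = 2) := by
  intro hall
  have h42 : (4 : ℝ) = 2 := by
    refine hall 4 (by norm_num) ?_
    intro n α β U hU V hV
    have key : ∀ (W : Matrix (Fin n) (Fin n) ℂ), W ∈ Matrix.unitaryGroup (Fin n) ℂ →
        ∀ γ : Fin n → ℂ, (W * Matrix.diagonal γ * star W)ᴴ * (W * Matrix.diagonal γ * star W) =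
          (W * Matrix.diagonal γ * star W) * (W * Matrix.diagonal γ * star W)ᴴ ∧
        (W * Matrix.diagonal γ * star W).charpoly =
          ∏ i, (Polynomial.X - Polynomial.C (γ i)) := by
      intro W hW γ
      have h1 : star W * W = 1 := Matrix.mem_unitaryGroup_iff'.1 hW
      have h1' : Wᴴ * W = 1 := h1
      constructor
      · rw [Matrix.star_eq_conjTranspose]
        simp only [conjTranspose_mul, conjTranspose_conjTranspose, diagonal_conjTranspose]
        have e1 : W * (diagonal (star γ) * Wᴴ) * (W * diagonal γ * Wᴴ) =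
            W * (diagonal (star γ) * (Wᴴ * W) * diagonal γ) * Wᴴ := by
          simp only [Matrix.mul_assoc]
        have e2 : W * diagonal γ * Wᴴ * (W * (diagonal (star γ) * Wᴴ)) =
            W * (diagonal γ * (Wᴴ * W) * diagonal (star γ)) * Wᴴ := by
          simp only [Matrix.mul_assoc]
        rw [e1, e2, h1', Matrix.mul_one, Matrix.mul_one, diagonal_mul_diagonal,
          diagonal_mul_diagonal]
        congr 2
        congr 1
        funext i
        exact mul_comm _ _
      · rw [charpoly_mul_comm, ← Matrix.mul_assoc, h1, Matrix.one_mul, charpoly_diagonal]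
    obtain ⟨hA, hα⟩ := key U hU α
    obtain ⟨hB, hβ⟩ := key V hV β
    obtain ⟨σ, hσ⟩ := Pool.Agent.H173R2.HW.main_normal _ _ hA hB α β hα hβ
    refine ⟨σ, ?_⟩
    have h3 := Pool.Agent.H173R2.HW.sum_singular
      (U * Matrix.diagonal α * star U - V * Matrix.diagonal β * star V)
    have h4 : (∑ i, ‖α i - β (σ i)‖ ^ (4 : ℝ)) = ∑ i, ‖α i - β (σ i)‖ ^ 4 := by
      refine Finset.sum_congr rfl fun i _ => ?_
      rw [show (4 : ℝ) = ((4 : ℕ) : ℝ) by norm_num, Real.rpow_natCast]
    unfold Pool.Agent.H173R2.HW.singularValue at h3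
    rw [h3, h4]
    exact Real.rpow_le_rpow (Finset.sum_nonneg fun i _ => by positivity) hσ (by norm_num)
  norm_num at h42

end Pool.Agent.S06320
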