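import Pool.Statements.S06395
import Pool.Agent.W789.SOP.Final
import Pool.Agent.W789.SOP.Support
import Pool.Agent.W789.SOP.Ext
import Pool.Agent.W789.SOP.Compact1

set_option autoImplicit false
open MeasureTheory Polynomial
open Pool Pool.MP_dd438b_an

namespace Pool.Agent.S06395

open Set Pool.Agent.W789.SOP in
theorem classify {φ ψ η : Measure ℝ} {p : ℕ → ℝ[X]}
    (hφ : ∀ k : ℕ, Integrable (fun x : ℝ => x ^ k) φ)
    (hψ : ∀ k : ℕ, Integrable (fun x : ℝ => x ^ k) ψ)
    (hη : ∀ k : ℕ, Integrable (fun x : ℝ => x ^ k) η)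
    (hinf : ∀ s : Finset ℝ, φ ((↑s : Set ℝ)ᶜ) ≠ 0) (hη0 : η ≠ 0)
    (hdeg : ∀ n : ℕ, (p n).degree = ((n : ℕ) : WithBot ℕ))
    (orth : ∀ n m : ℕ, n ≠ m → ∫ x, (p n).eval x * (p m).eval x ∂φ = 0)
    (hne : ∀ n : ℕ, ∫ x, (p n).eval x * (p n).eval x ∂φ ≠ 0)
    (orthS : ∀ n m : ℕ, n ≠ m →
      (∫ x, (p n).eval x * (p m).eval x ∂φ)
        + (∫ x, (Polynomial.derivative (p n)).eval x
              * (Polynomial.derivative (p m)).eval x ∂ψ)
        + (∫ x, (Polynomial.derivative (Polynomial.derivative (p n))).eval x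
              * (Polynomial.derivative (Polynomial.derivative (p m))).eval x ∂η) = 0) :
    Cla (ev φ hφ) := by
  have hmul : ∀ (μ : Measure ℝ) (hμ : ∀ k : ℕ, Integrable (fun x : ℝ => x ^ k) μ) (f g : ℝ[X]),
      ev μ hμ (f * g) = ∫ x, f.eval x * g.eval x ∂μ := by
    intro μ hμ f g
    rw [ev_apply]; simp only [eval_mul]
  have ho : ∀ n m, n ≠ m → ev φ hφ (p n * p m) = 0 := fun n m hnm => by
    rw [hmul, orth n m hnm]
  have hu : ∀ n, ev φ hφ (p n * p n) ≠ 0 := fun n => by rw [hmul]; exact hne n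
  have hS : ∀ n m, n ≠ m → ev ψ hψ (derivative (p n) * derivative (p m))
      + ev η hη (derivative (derivative (p n)) * derivative (derivative (p m))) = 0 := by
    intro n m hnm
    have h1 := orthS n m hnm
    rw [orth n m hnm, zero_add] at h1
    rw [hmul, hmul]; exact h1
  obtain ⟨a, b, c, d, ha, hb, hc, hd, hw, hA, hB⟩ :=
    reduction (ev φ hφ) (ev ψ hψ) (ev η hη) p hdeg ho hu hS
  have hfφ : IsFiniteMeasure φ := by
    have h0 := hφ 0
    simp only [pow_zero] at h0
    exact (integrable_const_iff_isFiniteMeasure one_ne_zero).mp h0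
  have hfη : IsFiniteMeasure η := by
    have h0 := hη 0
    simp only [pow_zero] at h0
    exact (integrable_const_iff_isFiniteMeasure one_ne_zero).mp h0
  have hane : a ≠ 0 := by
    intro h0
    have h1 := hw 1
    rw [h0, zero_mul, map_zero, ev_apply] at h1
    simp only [eval_one, integral_const, smul_eq_mul, mul_one] at h1
    have h2 : η univ = 0 := (measureReal_eq_zero_iff).mp h1
    exact hη0 (Measure.measure_univ_eq_zero.mp h2)
  have hpos : ∀ q : ℝ[X], q ≠ 0 → 0 < ev φ hφ (q * q) := by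
    intro q hq
    exact ev_pos hφ hinf (mul_ne_zero hq hq)
      (Filter.Eventually.of_forall fun x => by rw [eval_mul]; exact mul_self_nonneg _)
  have hsys : Sys (ev φ hφ) a b c d := ⟨hpos, hA, hB, hane⟩
  rcases Nat.lt_or_ge b.natDegree a.natDegree with hn | hn
  · obtain ⟨R, hR, hsupp⟩ := compact_support hφ hA hane hn
    have hext := ext_of_poly hφ hA hB hR hsupp
    obtain ⟨P, Q, κ, b', hPQ, hκ, hae, hbe, h1, h2⟩ :=
      compact_structure hext hane ha hinf hsupp
    exact cla_compact hφ hinf hsys hb hc hPQ hκ hae hbe h1 h2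
  · exact cla_unbounded hsys ha hc hd hn

/-- If real polynomials pₙ of degree n are orthogonal for both ∫fg dφ and ∫fg dφ+∫f'g' dψ+∫f''g'' dη (η≠0, φ infinite support, finite moments), then some pₙ(ax+b) is orthogonal for a classical or Krall-type measure. -/
theorem result :
  ∀ (φ ψ η : MeasureTheory.Measure ℝ) (p : ℕ → Polynomial ℝ),
    (∀ k : ℕ, MeasureTheory.Integrable (fun x : ℝ => x ^ k) φ) →
    (∀ k : ℕ, MeasureTheory.Integrable (fun x : ℝ => x ^ k) ψ) →
    (∀ k : ℕ, MeasureTheory.Integrable (fun x : ℝ => x ^ k) η) →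
    (∀ s : Finset ℝ, φ ((↑s : Set ℝ)ᶜ) ≠ 0) →
    η ≠ 0 →
    (∀ n : ℕ, (p n).degree = ((n : ℕ) : WithBot ℕ)) →
    (∀ n m : ℕ, n ≠ m → ∫ x, (p n).eval x * (p m).eval x ∂φ = 0) →
    (∀ n : ℕ, ∫ x, (p n).eval x * (p n).eval x ∂φ ≠ 0) →
    (∀ n m : ℕ, n ≠ m →
      (∫ x, (p n).eval x * (p m).eval x ∂φ)
        + (∫ x, (Polynomial.derivative (p n)).eval x
              * (Polynomial.derivative (p m)).eval x ∂ψ)
        + (∫ x, (Polynomial.derivative (Polynomial.derivative (p n))).eval x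
              * (Polynomial.derivative (Polynomial.derivative (p m))).eval x ∂η) = 0) →
    (∀ n : ℕ,
      (∫ x, (p n).eval x * (p n).eval x ∂φ)
        + (∫ x, (Polynomial.derivative (p n)).eval x
              * (Polynomial.derivative (p n)).eval x ∂ψ)
        + (∫ x, (Polynomial.derivative (Polynomial.derivative (p n))).eval x
              * (Polynomial.derivative (Polynomial.derivative (p n))).eval x ∂η) ≠ 0) →
    ∃ μ : MeasureTheory.Measure ℝ,
      ((∃ α β : ℝ, -1 < α ∧ -1 < β ∧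
          μ = MeasureTheory.volume.withDensity (fun x : ℝ => ENNReal.ofReal
            ((Set.Icc (-1 : ℝ) 1).indicator (fun y : ℝ => (1 - y) ^ α * (1 + y) ^ β) x)))
        ∨ (∃ α : ℝ, -1 < α ∧
          μ = MeasureTheory.volume.withDensity (fun x : ℝ => ENNReal.ofReal
            ((Set.Ioi (0 : ℝ)).indicator (fun y : ℝ => y ^ α * Real.exp (-y)) x)))
        ∨ (μ = MeasureTheory.volume.withDensity (fun x : ℝ => ENNReal.ofReal
            (Real.exp (-(x ^ 2)))))
        ∨ (∃ A : ℝ, 0 < A ∧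
          μ = MeasureTheory.volume.restrict (Set.Icc (-1 : ℝ) 1)
            + ENNReal.ofReal (1 / A) • (MeasureTheory.Measure.dirac (-1 : ℝ)
                + MeasureTheory.Measure.dirac (1 : ℝ)))
        ∨ (∃ R : ℝ, 0 < R ∧
          μ = MeasureTheory.volume.withDensity (fun x : ℝ => ENNReal.ofReal
            ((Set.Ioi (0 : ℝ)).indicator (fun y : ℝ => Real.exp (-y)) x))
            + ENNReal.ofReal (1 / R) • MeasureTheory.Measure.dirac (0 : ℝ))
        ∨ (∃ α M : ℝ, -1 < α ∧ 0 < M ∧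
          μ = MeasureTheory.volume.withDensity (fun x : ℝ => ENNReal.ofReal
            ((Set.Ico (0 : ℝ) 1).indicator (fun y : ℝ => (1 - y) ^ α) x))
            + ENNReal.ofReal (1 / M) • MeasureTheory.Measure.dirac (0 : ℝ)))
      ∧ ∃ a b : ℝ, a ≠ 0 ∧
        (∀ n : ℕ, ((p n).comp (Polynomial.C a * Polynomial.X + Polynomial.C b)).degree
            = ((n : ℕ) : WithBot ℕ)) ∧
        (∀ n m : ℕ, n ≠ m →
          ∫ x, ((p n).comp (Polynomial.C a * Polynomial.X + Polynomial.C b)).eval x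
            * ((p m).comp (Polynomial.C a * Polynomial.X + Polynomial.C b)).eval x ∂μ = 0) ∧
        (∀ n : ℕ,
          ∫ x, ((p n).comp (Polynomial.C a * Polynomial.X + Polynomial.C b)).eval x
            * ((p n).comp (Polynomial.C a * Polynomial.X + Polynomial.C b)).eval x ∂μ ≠ 0) := by
  intro φ ψ η p hφ hψ hη hinf hη0 hdeg orth hne orthS _
  obtain ⟨μ, hfam, a, b, c, ha, hc, h⟩ :=
    classify hφ hψ hη hinf hη0 hdeg orth hne orthS
  exact ⟨μ, hfam, Pool.Agent.W789.SOP.good_of hdeg orth hne ha hc h⟩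

end Pool.Agent.S06395
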