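-- Proof of the frozen statement S06412 (the negation): there is a real Banach space X such that C[0, ω^ω] is
-- (isomorphic to) a complemented subspace of C(βℕ, X) although no complemented subspace of X is isomorphic to c_0.
--
-- X is the space of the bounded functions x on the finite words w = (s_0, …, s_{m-1}) in the letters 0, +, - with
--     x(w 0) = x(w)   and   x(w +) + x(w -) = 2 x(w).
-- It is weak* closed in ℓ_∞, so an operator from c_0 to X extends to an operator from ℓ_∞ to X, and c_0 is not
-- complemented in X by the lemma of Phillips.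
-- For a subset A of ℕ and an independent sequence of signs r_0, r_1, …  let r|A be the sequence of signs restricted to A
-- (and 0 off A).  The operator P : C(βℕ, X) → C(2^ℕ) is (P G)(A) = lim_m E [G(n)((r|A) up to m)], where E is a shift
-- invariant mean on ℕ and the signs r_i are given by the binary digits of n. Continuity in A: the increments of the
-- martingale x((r|A) up to m) over disjoint blocks are orthogonal.
-- The right inverse J is (J f)(n)(w) = f(supp w) as long as the word w agrees with the signs of n, and after the first
-- disagreement the value 2 f(before) - f(after) is kept.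
-- Finally [0, ω^ω] is a retract of 2^ℕ.
import Pool.Statements.S06412
import Pool.Agent.W688.CBX.OpJ
import Pool.Agent.W688.CBX.NoC0
import Pool.Agent.W688.CBX.Retract

set_option autoImplicit false
open scoped BoundedContinuousFunction
open Pool Pool.MP_dec21a_an

namespace Pool.Agent.S06412

/-- The negation of the preceding statement: For every real Banach space X: if C[0, ω^ω] embeds as a complemented subspace of C(βℕ, X), i.e. bounded T, P with P∘T = id, then c_0 embeds as a complemented subspace of X. -/
theorem result :
    ¬ (∀ (X : Type) [NormedAddCommGroup X] [NormedSpace ℝ X] [CompleteSpace X],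
      (∃ (T : (Set.Icc (0 : Ordinal.{0}) (Ordinal.omega0.{0} ^ Ordinal.omega0.{0}) →ᵇ ℝ)
              →L[ℝ] (StoneCech ℕ →ᵇ X))
          (P : (StoneCech ℕ →ᵇ X)
              →L[ℝ] (Set.Icc (0 : Ordinal.{0}) (Ordinal.omega0.{0} ^ Ordinal.omega0.{0}) →ᵇ ℝ)),
          P.comp T = ContinuousLinearMap.id ℝ _) →
      ∃ (T : ZeroAtInftyContinuousMap ℕ ℝ →L[ℝ] X)
        (P : X →L[ℝ] ZeroAtInftyContinuousMap ℕ ℝ),
        P.comp T = ContinuousLinearMap.id ℝ _) := by
  intro hall
  obtain ⟨a, b, ha, hb, hab⟩ := W688.CBX.exists_ab
  obtain ⟨T, P, h⟩ := hall W688.CBX.X ⟨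
    W688.CBX.JJ.comp (BoundedContinuousFunction.compContinuousCLM ℝ ℝ ⟨b, hb⟩),
    (BoundedContinuousFunction.compContinuousCLM ℝ ℝ ⟨a, ha⟩).comp W688.CBX.PP, by
      ext f z
      have h1 := congrArg (fun L => L (BoundedContinuousFunction.compContinuousCLM ℝ ℝ ⟨b, hb⟩ f) (a z))
        W688.CBX.PP_JJ
      have h2 : f (b (a z)) = f z := by rw [hab]
      exact h1.trans h2⟩
  exact W688.CBX.no_c0 T P h

end Pool.Agent.S06412
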