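import Pool.Statements.S06444
import Pool.Agent.W685.PA.Space
import Pool.Agent.W685.PA.Onl

set_option autoImplicit false
open MeasureTheory
open scoped ENNReal
open Pool Pool.MP_e081a1_an

namespace Pool.Agent.S06444

/-- The negation of the preceding statement: For every p in [1,∞) other than 2, every bounded geometry metric space with the p-operator norm localization property (ℓ^p-valued L^p, all nonzero locally finite Borel measures) has Yu's property A. -/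
theorem result :
    ¬ (∀ (p : ℝ≥0∞) [Fact (1 ≤ p)], p ≠ ⊤ → p ≠ 2 →
    ∀ (X : Type) [MetricSpace X] [MeasurableSpace X] [BorelSpace X],
      (∀ R : ℝ, 0 < R → ∃ N : ℕ, ∀ x : X,
          (Metric.ball x R).Finite ∧ (Metric.ball x R).ncard ≤ N) →
      (∃ c : ℝ, 0 < c ∧ c ≤ 1 ∧ ∃ f : ℕ → ℕ, Monotone f ∧
        ∀ (ν : Measure X) [IsLocallyFiniteMeasure ν], ν ≠ 0 → ∀ r : ℕ,
          ∀ T : Lp (lp (fun _ : ℕ => ℝ) p) p ν →L[ℝ] Lp (lp (fun _ : ℕ => ℝ) p) p ν,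
            (∀ x y : X, (r : ℝ) < dist x y →
              ∃ U V : Set X, IsOpen U ∧ IsOpen V ∧ x ∈ U ∧ y ∈ V ∧
                ∀ g : Lp (lp (fun _ : ℕ => ℝ) p) p ν,
                  (∀ᵐ z ∂ν, z ∉ U → ⇑g z = 0) → ∀ᵐ z ∂ν, z ∈ V → ⇑(T g) z = 0) →
            ∃ ξ : Lp (lp (fun _ : ℕ => ℝ) p) p ν, ξ ≠ 0 ∧
              (∃ S : Set X, (∀ a ∈ S, ∀ b ∈ S, dist a b ≤ (f r : ℝ)) ∧
                ∀ᵐ z ∂ν, z ∉ S → ⇑ξ z = 0) ∧
              c * ‖T‖ * ‖ξ‖ ≤ ‖T ξ‖) →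
      (∀ R : ℝ, 0 < R → ∀ ε : ℝ, 0 < ε →
        ∃ S : ℝ, ∃ A : X → Set (X × ℕ),
          (∀ x, (A x).Finite) ∧ (∀ x, (x, 0) ∈ A x) ∧
          (∀ x, ∀ w ∈ A x, dist w.1 x ≤ S) ∧
          ∀ x y, dist x y < R →
            ((symmDiff (A x) (A y)).ncard : ℝ) < ε * ((A x ∩ A y).ncard : ℝ))) := by
  intro h
  have : Fact ((1 : ℝ≥0∞) ≤ 1) := ⟨le_rfl⟩
  have : Countable Pool.Agent.W685.PA.X := by
    have h1 : (Set.univ : Set Pool.Agent.W685.PA.X) = ⋃ m : ℕ, {p | p.1 < m} := by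
      ext p
      simp only [Set.mem_univ, Set.mem_iUnion, true_iff]
      exact ⟨p.1 + 1, Nat.lt_succ_self _⟩
    rw [← Set.countable_univ_iff, h1]
    exact Set.countable_iUnion fun m => (Pool.Agent.W685.PA.fin_lt m).countable
  refine Pool.Agent.W685.PA.not_propertyA (h 1 ENNReal.one_ne_top (by norm_num)
    Pool.Agent.W685.PA.X Pool.Agent.W685.PA.bounded_geometry ?_)
  refine ⟨1 / 2, by norm_num, by norm_num, fun _ => 0, fun _ _ _ => le_rfl, ?_⟩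
  intro ν _ hν r T _
  have hc : (lp.single 1 (0 : ℕ) (1 : ℝ) : lp (fun _ : ℕ => ℝ) 1) ≠ 0 := by
    intro h0
    have h1 := congrArg (fun f : lp (fun _ : ℕ => ℝ) 1 => f 0) h0
    simp at h1
  obtain ⟨ξ, h1, ⟨x, hx⟩, h2⟩ := Pool.Agent.W685.PA.onl_one (ν := ν) (fun x => by
    exact (isCompact_singleton.measure_lt_top).ne) hν _ hc T
  refine ⟨ξ, h1, ⟨{x}, ?_, hx⟩, h2⟩
  rintro a rfl b rfl
  simp

end Pool.Agent.S06444
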