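import Pool.Statements.S06483
import Pool.Agent.Results.MP_e3b298_an.RobinsonConj

set_option autoImplicit false
open Pool Pool.MP_e3b298_an

namespace Pool.Agent.S06483

open Pool.Agent.Results.MP_e3b298_an.RobinsonConj in
theorem asc_eq (x : ℝ) (k : ℕ) : (ascPochhammer ℝ k).eval x = rp x k := by
  induction k with
  | zero => simp [rp]
  | succ k ih =>
    rw [ascPochhammer_succ_right, Polynomial.eval_mul, ih, rp_succ]
    simp

open Pool.Agent.Results.MP_e3b298_an.RobinsonConj in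
theorem coefF (n : ℕ) (β : ℝ) (k : ℕ) :
    ((n.descFactorial k : ℝ) / (ascPochhammer ℝ k).eval (β + (n : ℝ))) *
      ((ascPochhammer ℝ k).eval β / (k.factorial : ℝ)) = fc n β k := by
  rw [asc_eq, asc_eq, fc, Nat.descFactorial_eq_factorial_mul_choose]
  have h2 : (k.factorial : ℝ) ≠ 0 := by exact_mod_cast k.factorial_ne_zero
  push_cast
  rw [div_mul_div_comm, mul_comm (rp (β + n) k) _]
  rw [mul_assoc, mul_div_mul_left _ _ h2]

open Pool.Agent.Results.MP_e3b298_an.RobinsonConj in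
theorem coefG (n : ℕ) (β : ℝ) (k : ℕ) :
    ((n.descFactorial (k + 1) : ℝ) / (ascPochhammer ℝ (k + 1)).eval (β + (n : ℝ))) *
      ((ascPochhammer ℝ k).eval β / (k.factorial : ℝ)) = gc n β (k + 1) := by
  rw [asc_eq, asc_eq, gc, Nat.descFactorial_eq_factorial_mul_choose, Nat.factorial_succ]
  have h2 : (k.factorial : ℝ) ≠ 0 := by exact_mod_cast k.factorial_ne_zero
  rw [Nat.add_sub_cancel]
  push_cast
  rw [div_mul_div_comm, mul_comm (rp (β + n) (k + 1)) _]
  rw [show ((k : ℝ) + 1) * (k.factorial : ℝ) * (n.choose (k + 1) : ℝ) * rp β k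
      = (k.factorial : ℝ) * ((n.choose (k + 1) : ℝ) * ((k : ℝ) + 1) * rp β k) by ring,
    mul_div_mul_left _ _ h2]

/-- For all integers n≥1, reals β≥1, ∣x∣=1 and ∣z∣<1, the Hadamard product of P_n^β with (1+xz)(1−z)^(−β), written as its finite coefficient sum, is nonzero at z; that is, P_n^β lies in T(1,β). -/
theorem result :
    ∀ n : ℕ, 1 ≤ n → ∀ β : ℝ, 1 ≤ β → ∀ x : ℂ, ‖x‖ = 1 → ∀ z : ℂ, ‖z‖ < 1 →
      (∑ k ∈ Finset.range (n + 1),
          (((n.descFactorial k : ℝ) / (ascPochhammer ℝ k).eval (β + (n : ℝ)) : ℝ) : ℂ) *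
          ((((ascPochhammer ℝ k).eval β / (k.factorial : ℝ)) : ℝ) : ℂ) * z ^ k)
      + x * (∑ k ∈ Finset.range n,
          (((n.descFactorial (k + 1) : ℝ) / (ascPochhammer ℝ (k + 1)).eval (β + (n : ℝ)) : ℝ) : ℂ) *
          ((((ascPochhammer ℝ k).eval β / (k.factorial : ℝ)) : ℝ) : ℂ) * z ^ (k + 1)) ≠ 0 := by
  intro n hn β hβ x hx z hz h0
  have hF : (∑ k ∈ Finset.range (n + 1),
          (((n.descFactorial k : ℝ) / (ascPochhammer ℝ k).eval (β + (n : ℝ)) : ℝ) : ℂ) *
          ((((ascPochhammer ℝ k).eval β / (k.factorial : ℝ)) : ℝ) : ℂ) * z ^ k)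
      = Polynomial.aeval z (Pool.Agent.Results.MP_e3b298_an.RobinsonConj.F n β) := by
    rw [Pool.Agent.Results.MP_e3b298_an.RobinsonConj.F, map_sum]
    apply Finset.sum_congr rfl
    intro k _
    rw [← Complex.ofReal_mul, coefF]
    simp only [map_mul, map_pow, Polynomial.aeval_X, Polynomial.aeval_C, Complex.coe_algebraMap]
  have hG : (∑ k ∈ Finset.range n,
          (((n.descFactorial (k + 1) : ℝ) / (ascPochhammer ℝ (k + 1)).eval (β + (n : ℝ)) : ℝ) : ℂ) *
          ((((ascPochhammer ℝ k).eval β / (k.factorial : ℝ)) : ℝ) : ℂ) * z ^ (k + 1))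
      = Polynomial.aeval z (Pool.Agent.Results.MP_e3b298_an.RobinsonConj.G n β) := by
    rw [Pool.Agent.Results.MP_e3b298_an.RobinsonConj.G, map_sum, Finset.sum_range_succ']
    have h0' : Polynomial.aeval z (Polynomial.C
        (Pool.Agent.Results.MP_e3b298_an.RobinsonConj.gc n β 0) * Polynomial.X ^ 0) = 0 := by
      simp [Pool.Agent.Results.MP_e3b298_an.RobinsonConj.gc]
    rw [h0', add_zero]
    apply Finset.sum_congr rfl
    intro k _
    rw [← Complex.ofReal_mul, coefG]
    simp only [map_mul, map_pow, Polynomial.aeval_X, Polynomial.aeval_C, Complex.coe_algebraMap]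
  rw [hF, hG] at h0
  have h1 : Polynomial.aeval z (Pool.Agent.Results.MP_e3b298_an.RobinsonConj.F n β)
      = -(x * Polynomial.aeval z (Pool.Agent.Results.MP_e3b298_an.RobinsonConj.G n β)) := by
    linear_combination h0
  have h2 := congrArg norm h1
  rw [norm_neg, norm_mul, hx, one_mul] at h2
  have := Pool.Agent.Results.MP_e3b298_an.RobinsonConj.main n hβ z hz
  linarith

end Pool.Agent.S06483
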