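import Pool.Statements.S06499
import Pool.Agent.W14.US.Small
import Pool.Agent.W14.US.Strip
import Pool.Agent.W14.US.Cut
import Pool.Agent.W14.US.Calc
import Pool.Agent.W14.US.Bd
import Pool.Agent.W14.US.Step
import Pool.Agent.W550.US.Der
import Pool.Agent.W165.US.Iter
import Pool.Agent.W897.US.Lim
import Pool.Agent.W866.US.Fin

set_option autoImplicit false
open Pool Pool.MP_e53853_an

namespace Pool.Agent.S06499

/-- There is a domain D, a nonempty perfect totally disconnected set P inside D, and f continuous on D, holomorphic on D minus P, not analytic at any point of P, with f(P) totally disconnected. -/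
theorem result :
    ∃ (D P : Set ℂ) (f : ℂ → ℂ),
      IsOpen D ∧ IsConnected D ∧
      P ⊆ D ∧ P.Nonempty ∧ Perfect P ∧ IsTotallyDisconnected P ∧
      ContinuousOn f D ∧
      DifferentiableOn ℂ f (D \ P) ∧
      (∀ p ∈ P, ¬ AnalyticAt ℂ f p) ∧
      IsTotallyDisconnected (f '' P) := by
  have hder := Pool.Agent.W550.US.der
  have hstep := Pool.Agent.W14.US.step' hder Pool.Agent.W14.US.lin Pool.Agent.W14.US.bd
    Pool.Agent.W14.US.strip Pool.Agent.W14.US.cut Pool.Agent.W14.US.calc'
  have hiter := Pool.Agent.W165.US.iter hder Pool.Agent.W14.US.calc' hstep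
  have hF := Pool.Agent.W897.US.lim hder Pool.Agent.W14.US.cr hiter
  exact Pool.Agent.W866.US.fin hF

end Pool.Agent.S06499
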