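import Pool.Statements.S06506
import Pool.Agent.W774.HardyTrivial

set_option autoImplicit false
open Pool Pool.MP_e5f19a_an

namespace Pool.Agent.S06506

/-- The negation of the preceding statement: Every domain in ℂ whose complement has positive logarithmic capacity (it contains a compact set carrying a finite-energy probability measure) has a non-constant holomorphic f on it with ∣f∣² bounded by a harmonic function. -/
theorem result :
    ¬ (∀ Ω : Set ℂ, IsOpen Ω → IsConnected Ω →
      (∃ K : Set ℂ, IsCompact K ∧ K ⊆ Ωᶜ ∧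
        ∃ μ : MeasureTheory.Measure ℂ, MeasureTheory.IsProbabilityMeasure μ ∧
          MeasureTheory.NoAtoms μ ∧ μ Kᶜ = 0 ∧
          MeasureTheory.Integrable (fun p : ℂ × ℂ => Real.log ‖p.1 - p.2‖) (μ.prod μ)) →
      ∃ f : ℂ → ℂ, DifferentiableOn ℂ f Ω ∧
        (∃ u : ℂ → ℝ,
          (∀ z ∈ Ω, ∃ r > 0, Metric.ball z r ⊆ Ω ∧
            ∃ g : ℂ → ℂ, DifferentiableOn ℂ g (Metric.ball z r) ∧
              ∀ w ∈ Metric.ball z r, u w = (g w).re) ∧
          ∀ z ∈ Ω, ‖f z‖ ^ 2 ≤ u z) ∧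
        ∃ z ∈ Ω, ∃ w ∈ Ω, f z ≠ f w) := by
  intro H
  have hopen : IsOpen (Pool.Agent.W774.CantorMeas.E)ᶜ :=
    Pool.Agent.W774.CantorMeas.E_compact.isClosed.isOpen_compl
  have hconn : IsConnected (Pool.Agent.W774.CantorMeas.E)ᶜ :=
    Pool.Agent.W774.HardyTrivial.connected_compl Pool.Agent.W774.CantorMeas.volume_cantor
  obtain ⟨f, hf, ⟨u, hu, hfu⟩, z, hz, w, hw, hne⟩ := H (Pool.Agent.W774.CantorMeas.E)ᶜ hopen hconn
    ⟨Pool.Agent.W774.CantorMeas.E, Pool.Agent.W774.CantorMeas.E_compact, by rw [compl_compl],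
      Pool.Agent.W774.CantorMeas.mu, inferInstance,
      (inferInstance : MeasureTheory.NullSingletonClass Pool.Agent.W774.CantorMeas.mu),
      Pool.Agent.W774.CantorMeas.mu_compl, Pool.Agent.W774.CantorMeas.energy⟩
  have h1 : ∀ z : ℂ, 0 < z.im → f z = f Complex.I :=
    Pool.Agent.W774.HardyTrivial.trivial_of_null isClosed_cantorSet
      Pool.Agent.W774.CantorMeas.volume_cantor hf hu hfu
  have hI : Complex.I ∈ (Pool.Agent.W774.CantorMeas.E)ᶜ := by
    rintro ⟨x, -, hx⟩
    have := congrArg Complex.im hx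
    simp at this
  have h2 : Set.EqOn f (fun _ => f Complex.I) (Pool.Agent.W774.CantorMeas.E)ᶜ := by
    refine AnalyticOnNhd.eqOn_of_preconnected_of_eventuallyEq (𝕜 := ℂ)
      (hf.analyticOnNhd hopen) analyticOnNhd_const hconn.isPreconnected hI ?_
    have hmem : {z : ℂ | 0 < z.im} ∈ nhds Complex.I :=
      (isOpen_lt continuous_const Complex.continuous_im).mem_nhds (by simp)
    filter_upwards [hmem] with z hz
    exact h1 z hz
  exact hne ((h2 hz).trans (h2 hw).symm)

end Pool.Agent.S06506
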