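import Pool.Statements.S06510
import Pool.Agent.Results.MP_e6ddea_an.PuncturedDisc

set_option autoImplicit false
open Pool Pool.MP_e6ddea_an

namespace Pool.Agent.S06510

/-- The negation of the preceding statement: For every non-simply-connected plane domain D with Green function g at z₀ and every normalized minimal positive harmonic K on D, some maximal Green line of g leaving z₀ has K equal to the Harnack function at each of its points. -/
theorem result :
    ¬ (∀ (D : Set ℂ), IsOpen D → IsConnected D → ¬ SimplyConnectedSpace D →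
    ∀ z₀ ∈ D, ∀ g : ℂ → ℝ,
      (InnerProductSpace.HarmonicOnNhd g (D \ {z₀}) ∧
        (∀ z ∈ D \ {z₀}, 0 < g z) ∧
        (∃ h : ℂ → ℝ, InnerProductSpace.HarmonicOnNhd h D ∧
          ∀ z ∈ D \ {z₀}, h z = g z + Real.log ‖z - z₀‖) ∧
        (∀ u : ℂ → ℝ,
          (InnerProductSpace.HarmonicOnNhd u (D \ {z₀}) ∧
            (∀ z ∈ D \ {z₀}, 0 < u z) ∧
            (∃ h : ℂ → ℝ, InnerProductSpace.HarmonicOnNhd h D ∧
              ∀ z ∈ D \ {z₀}, h z = u z + Real.log ‖z - z₀‖)) →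
          ∀ z ∈ D \ {z₀}, g z ≤ u z)) →
    ∀ K : ℂ → ℝ,
      (InnerProductSpace.HarmonicOnNhd K D ∧ (∀ z ∈ D, 0 < K z) ∧ K z₀ = 1 ∧
        ∀ u : ℂ → ℝ, InnerProductSpace.HarmonicOnNhd u D →
          (∀ z ∈ D, 0 < u z ∧ u z ≤ K z) →
          ∃ c : ℝ, ∀ z ∈ D, u z = c * K z) →
    ∃ (m : ℝ) (γ : ℝ → ℂ),
      (∀ s : ℝ, m < s →
        γ s ∈ D ∧ γ s ≠ z₀ ∧ gradient g (γ s) ≠ 0 ∧ g (γ s) = s ∧
        HasDerivAt γ ((‖gradient g (γ s)‖ ^ 2)⁻¹ • gradient g (γ s)) s) ∧
      Filter.Tendsto γ Filter.atTop (nhds z₀) ∧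
      (¬ ∃ (m' : ℝ) (γ' : ℝ → ℂ), m' < m ∧ (∀ s : ℝ, m < s → γ' s = γ s) ∧
        ∀ s : ℝ, m' < s →
          γ' s ∈ D ∧ γ' s ≠ z₀ ∧ gradient g (γ' s) ≠ 0 ∧
          HasDerivAt γ' ((‖gradient g (γ' s)‖ ^ 2)⁻¹ • gradient g (γ' s)) s) ∧
      ∀ s : ℝ, m < s →
        ∀ u : ℂ → ℝ, InnerProductSpace.HarmonicOnNhd u D → (∀ z ∈ D, 0 < u z) →
          u z₀ ≤ 1 → u (γ s) ≤ K (γ s)) := by
  intro H
  have hG := Results.MP_e6ddea_an.PuncturedDisc.isGreenFn_gr
    Results.MP_e6ddea_an.PuncturedDisc.zero_mem_DD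
  have hopen := Results.MP_e6ddea_an.PuncturedDisc.isOpen_DD
  obtain ⟨m, γ, hγ, -, hmax, htouch⟩ := H Results.MP_e6ddea_an.PuncturedDisc.DD
    hopen Results.MP_e6ddea_an.PuncturedDisc.isConnected_DD
    Results.MP_e6ddea_an.PuncturedDisc.not_isSimplyConnected_DD 0
    Results.MP_e6ddea_an.PuncturedDisc.zero_mem_DD
    (Results.MP_e6ddea_an.PuncturedDisc.gr 0)
    (by
      refine ⟨hG.1.1, hG.1.2, ⟨fun _ => 0, ?_, ?_⟩, ?_⟩
      · intro z _
        exact InnerProductSpace.harmonicAt_const (0 : ℝ)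
      · intro z _
        rw [Results.MP_e6ddea_an.PuncturedDisc.gr_zero]
        simp
      · rintro u ⟨hu1, hu2, h, hh1, hh2⟩
        refine hG.2.2 u ⟨hu1, hu2⟩ ⟨h, hh1 0 Results.MP_e6ddea_an.PuncturedDisc.zero_mem_DD, ?_⟩
        have hn : Results.MP_e6ddea_an.PuncturedDisc.DD ∈ nhds (0 : ℂ) :=
          hopen.mem_nhds Results.MP_e6ddea_an.PuncturedDisc.zero_mem_DD
        filter_upwards [mem_nhdsWithin_of_mem_nhds hn, self_mem_nhdsWithin] with z hz1 hz2
        rw [hh2 z ⟨hz1, hz2⟩]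
        ring)
    (Results.MP_e6ddea_an.PuncturedDisc.pk 1)
    (by
      have hP := Results.MP_e6ddea_an.PuncturedDisc.posHarmonic_pk (u := 1) (by simp)
      refine ⟨hP.1, hP.2, Results.MP_e6ddea_an.PuncturedDisc.pk_zero (by simp), ?_⟩
      intro u hu1 hu2
      exact Results.MP_e6ddea_an.PuncturedDisc.minimal_DD.2 u hu1
        (fun z hz => ⟨(hu2 z hz).1.le, (hu2 z hz).2⟩))
  -- the curve is `exp (-s) u`
  have hgrad : ∀ z : ℂ, z ≠ 0 →
      gradient (Results.MP_e6ddea_an.PuncturedDisc.gr 0) z = -(((‖z‖ ^ 2)⁻¹ : ℝ) • z) :=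
    fun z hz => (Results.MP_e6ddea_an.PuncturedDisc.gradient_gr_zero hz).gradient
  have hfield : ∀ z : ℂ, z ≠ 0 →
      ((‖gradient (Results.MP_e6ddea_an.PuncturedDisc.gr 0) z‖ ^ 2)⁻¹ •
        gradient (Results.MP_e6ddea_an.PuncturedDisc.gr 0) z) = -z := by
    intro z hz
    have hp : 0 < ‖z‖ := norm_pos_iff.mpr hz
    rw [hgrad z hz, norm_neg, norm_smul, Real.norm_of_nonneg (by positivity), smul_neg, smul_smul]
    have : (((‖z‖ ^ 2)⁻¹ * ‖z‖) ^ 2)⁻¹ * (‖z‖ ^ 2)⁻¹ = 1 := by
      field_simp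
    rw [this, one_smul]
  have hder : ∀ s, m < s → HasDerivAt γ (-γ s) s := by
    intro s hs
    have h1 := (hγ s hs).2.2.2.2
    rw [hfield _ (hγ s hs).2.1] at h1
    exact h1
  have hnorm : ∀ s, m < s → ‖γ s‖ = Real.exp (-s) := by
    intro s hs
    have h1 := (hγ s hs).2.2.2.1
    rw [Results.MP_e6ddea_an.PuncturedDisc.gr_zero] at h1
    have h2 : Real.log ‖γ s‖ = -s := by
      have : -Real.log ‖γ s‖ = s := h1
      linarith
    rw [← h2, Real.exp_log (norm_pos_iff.mpr (hγ s hs).2.1)]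
  have hconst : ∀ s, m < s → HasDerivAt (fun t : ℝ => Real.exp t • γ t) 0 s := by
    intro s hs
    have h1 := (Real.hasDerivAt_exp s).smul (hder s hs)
    have h2 : Real.exp s • -γ s + Real.exp s • γ s = 0 := by
      rw [smul_neg, neg_add_cancel]
    rw [h2] at h1
    exact h1
  have hform : ∃ u : ℂ, ‖u‖ = 1 ∧ ∀ s, m < s → γ s = ((Real.exp (-s) : ℝ) : ℂ) * u := by
    have hs0 : m < m + 1 := by linarith
    refine ⟨Real.exp (m + 1) • γ (m + 1), ?_, ?_⟩
    · rw [norm_smul, hnorm _ hs0, Real.norm_of_nonneg (Real.exp_pos _).le, ← Real.exp_add]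
      simp
    · intro s hs
      have h1 := isOpen_Ioi.is_const_of_deriv_eq_zero (s := Set.Ioi m) isPreconnected_Ioi
        (f := fun t : ℝ => Real.exp t • γ t)
        (fun t ht => (hconst t ht).differentiableAt.differentiableWithinAt)
        (fun t ht => (hconst t ht).deriv) hs hs0
      have h2 : Real.exp s • γ s = Real.exp (m + 1) • γ (m + 1) := h1
      rw [← h2, Complex.real_smul, ← mul_assoc, ← Complex.ofReal_mul, ← Real.exp_add]
      simp
  obtain ⟨u, hu, huγ⟩ := hform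
  by_cases hu1 : u = 1
  · subst hu1
    have hlog : Real.log 2 < Real.log (16 / 7) := Real.log_lt_log (by norm_num) (by norm_num)
    have hm : m < Real.log (16 / 7) := by
      by_contra hcon
      push Not at hcon
      apply hmax
      refine ⟨Real.log 2, fun s => ((Real.exp (-s) : ℝ) : ℂ), lt_of_lt_of_le hlog hcon, ?_, ?_⟩
      · intro s hs
        rw [huγ s hs, mul_one]
      · intro s hs
        have hl2 : 0 < Real.log 2 := Real.log_pos (by norm_num)
        have hne : ((Real.exp (-s) : ℝ) : ℂ) ≠ 0 := by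
          exact_mod_cast (Real.exp_pos (-s)).ne'
        have hlt : Real.exp (-s) < 1 / 2 := by
          have h1 : Real.exp (-s) < Real.exp (-Real.log 2) := Real.exp_lt_exp.mpr (by linarith)
          rw [Real.exp_neg (Real.log 2), Real.exp_log (by norm_num)] at h1
          linarith
        refine ⟨?_, hne, ?_, ?_⟩
        · rw [Results.MP_e6ddea_an.PuncturedDisc.mem_DD]
          constructor
          · rw [Results.MP_e6ddea_an.PuncturedDisc.norm_ofReal_pos (Real.exp_pos _)]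
            linarith
          · intro hcon2
            have h3 : ((Real.exp (-s) : ℝ) : ℂ) = ((1 / 2 : ℝ) : ℂ) := by
              have h7 : ((Real.exp (-s) : ℝ) : ℂ) = 1 / 2 := hcon2
              rw [h7]; push_cast; rfl
            have h4 : Real.exp (-s) = 1 / 2 := by exact_mod_cast h3
            linarith
        · rw [hgrad _ hne]
          rw [neg_ne_zero]
          apply smul_ne_zero _ hne
          have := norm_pos_iff.mpr hne
          positivity
        · rw [hfield _ hne]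
          have h5 : HasDerivAt (fun t : ℝ => Real.exp (-t)) (-Real.exp (-s)) s := by
            have := (hasDerivAt_neg s).exp
            simpa using this
          have h6 := h5.ofReal_comp
          simpa using h6
    have h1 := htouch _ hm Results.MP_e6ddea_an.PuncturedDisc.ka
      Results.MP_e6ddea_an.PuncturedDisc.posHarmonic_ka.1
      Results.MP_e6ddea_an.PuncturedDisc.posHarmonic_ka.2
      Results.MP_e6ddea_an.PuncturedDisc.ka_zero.le
    have h2 : γ (Real.log (16 / 7)) = ((7 / 16 : ℝ) : ℂ) := by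
      rw [huγ _ hm, mul_one, Real.exp_neg, Real.exp_log (by norm_num)]
      norm_num
    rw [h2] at h1
    exact absurd Results.MP_e6ddea_an.PuncturedDisc.ka_big (not_lt.mpr h1)
  · have hs : m < max m 0 + 1 := lt_of_le_of_lt (le_max_left m 0) (by linarith)
    have hs0 : 0 < max m 0 + 1 := lt_of_le_of_lt (le_max_right m 0) (by linarith)
    have h1 := htouch _ hs (Results.MP_e6ddea_an.PuncturedDisc.pk u)
      (Results.MP_e6ddea_an.PuncturedDisc.posHarmonic_pk hu).1
      (Results.MP_e6ddea_an.PuncturedDisc.posHarmonic_pk hu).2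
      (Results.MP_e6ddea_an.PuncturedDisc.pk_zero hu).le
    rw [huγ _ hs] at h1
    have h2 := Results.MP_e6ddea_an.PuncturedDisc.pk_lt hu hu1
      (Real.exp_pos (-(max m 0 + 1))) (by rw [Real.exp_lt_one_iff]; linarith)
    exact absurd h2 (not_lt.mpr h1)

end Pool.Agent.S06510
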