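import Pool.Statements.S06521
import Pool.Agent.W708.NU

set_option autoImplicit false
open Pool Pool.MP_e7ec4f_an

namespace Pool.Agent.S06521

open Pool.Agent.W708.NU in
/-- There is a real or complex quasi-Banach space with a bounded biorthogonal basis that is nearly unconditional (coordinates at least a can be projected boundedly) but not truncation quasi-greedy. -/
theorem result :
    ∃ (𝕂 : Type) (_ : RCLike 𝕂) (X : Type) (_ : AddCommGroup X) (_ : Module 𝕂 X)
      (q : X → ℝ) (κ : ℝ) (x : ℕ → X) (xs : ℕ → X →ₗ[𝕂] 𝕂),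
      (∀ f : X, 0 ≤ q f) ∧
      (∀ f : X, q f = 0 → f = 0) ∧
      (∀ (c : 𝕂) (f : X), q (c • f) = ‖c‖ * q f) ∧
      (∀ f g : X, q (f + g) ≤ κ * (q f + q g)) ∧
      (∀ u : ℕ → X, (∀ ε : ℝ, 0 < ε → ∃ N : ℕ, ∀ m ≥ N, ∀ n ≥ N, q (u m - u n) < ε) →
        ∃ f : X, ∀ ε : ℝ, 0 < ε → ∃ N : ℕ, ∀ n ≥ N, q (u n - f) < ε) ∧
      (∃ B : ℝ, ∀ n : ℕ, q (x n) ≤ B) ∧
      (∃ M : ℝ, ∀ (n : ℕ) (f : X), ‖xs n f‖ ≤ M * q f) ∧
      (∀ m n : ℕ, xs m (x n) = if m = n then 1 else 0) ∧
      (∀ f : X, ∀ ε : ℝ, 0 < ε → ∃ g ∈ Submodule.span 𝕂 (Set.range x), q (f - g) < ε) ∧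
      (∀ a : ℝ, 0 < a → a ≤ 1 → ∃ C : ℝ, ∀ f : X, (∀ n : ℕ, ‖xs n f‖ ≤ 1) →
        ∀ A : Finset ℕ, (∀ n ∈ A, a ≤ ‖xs n f‖) →
          q (∑ n ∈ A, xs n f • x n) ≤ C * q f) ∧
      ¬ (∃ C : ℝ, ∀ f : X, ∀ A : Finset ℕ, A.Nonempty →
          (∀ n ∈ A, ∀ k : ℕ, k ∉ A → ‖xs k f‖ ≤ ‖xs n f‖) →
          ∀ t : ℝ, (∀ n ∈ A, t ≤ ‖xs n f‖) →
            t * q (∑ n ∈ A, (xs n f / ((‖xs n f‖ : ℝ) : 𝕂)) • x n) ≤ C * q f) := by
  let e : I ≃ ℕ := Denumerable.eqv I
  refine ⟨ℝ, inferInstance, Pool.Agent.W708.NU.X, inferInstance, inferInstance,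
    Pool.Agent.W708.NU.q, 1, fun n => ee (e.symm n),
    fun n => (LinearMap.proj (R := ℝ) (φ := fun _ : I => ℝ) (e.symm n)).comp
      (Submodule.subtype Pool.Agent.W708.NU.X), q_nonneg, fun f => q_eq_zero, q_smul, ?_, complete,
    ⟨3 / 2, fun n => q_ee _⟩, ⟨1, fun n f => ?_⟩, ?_, ?_, ?_, ?_⟩
  · intro f g; rw [one_mul]; exact q_add f g
  · rw [one_mul]; exact abs_le_q f _
  · intro m n
    simp only [LinearMap.coe_comp, LinearMap.coe_proj, Submodule.coe_subtype, Function.comp_apply,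
      Function.eval, ee_apply, EmbeddingLike.apply_eq_iff_eq]
  · intro f ε hε
    obtain ⟨T, hT⟩ := Pool.Agent.W708.NU.dense f ε hε
    refine ⟨res T f.1, ?_, hT⟩
    rw [res_eq_sum]
    refine Submodule.sum_mem _ fun x _ => Submodule.smul_mem _ _ (Submodule.subset_span ⟨e x, ?_⟩)
    simp
  · intro a ha ha1
    obtain ⟨C, hC⟩ := nearly a ha ha1
    refine ⟨C, fun f hf A hA => ?_⟩
    have h1 := hC f (fun x => by simpa using hf (e x)) (A.map e.symm.toEmbedding) (by
      intro x hx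
      obtain ⟨n, hn, rfl⟩ := Finset.mem_map.1 hx
      simpa using hA n hn)
    rw [res_eq_sum, Finset.sum_map] at h1
    exact h1
  · rintro ⟨C, hC⟩
    obtain ⟨k, hk⟩ := pow_unbounded_of_one_lt (2 * max C 0) (show (1 : ℝ) < 2 by norm_num)
    have hsupp : ∀ x : I, x ∈ supp (k + 1) ↔ (F (k + 1)).1 x ≠ 0 := by
      intro x
      rw [F_apply]
      split_ifs with h
      · simp [h]
      · simp [h]
    have h1 := hC (F (k + 1)) ((supp (k + 1)).map e.toEmbedding) ?_ ?_ ((1 / 2) ^ (k + 1)) ?_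
    · have h2 : ∑ n ∈ (supp (k + 1)).map e.toEmbedding,
          ((((LinearMap.proj (R := ℝ) (φ := fun _ : I => ℝ) (e.symm n)).comp
            (Submodule.subtype Pool.Agent.W708.NU.X)) (F (k + 1))) /
            ((‖((LinearMap.proj (R := ℝ) (φ := fun _ : I => ℝ) (e.symm n)).comp
            (Submodule.subtype Pool.Agent.W708.NU.X)) (F (k + 1))‖ : ℝ) : ℝ)) • ee (e.symm n) =
          res (supp (k + 1)) (fun _ => 1) := by
        rw [res_eq_sum, Finset.sum_map]
        refine Finset.sum_congr rfl fun x hx => ?_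
        simp only [Equiv.coe_toEmbedding, Equiv.symm_apply_apply, LinearMap.coe_comp,
          LinearMap.coe_proj, Submodule.coe_subtype, Function.comp_apply, Function.eval]
        congr 1
        rw [F_apply, if_pos hx, Real.norm_eq_abs, abs_of_pos (by positivity)]
        exact div_self (by positivity)
      have h3 := q_ones k
      have h4 := q_F (k + 1)
      rw [← h2] at h3
      have h5 : (1 / 2 : ℝ) ^ (k + 1) * 4 ^ k ≤ C * q (F (k + 1)) :=
        le_trans (mul_le_mul_of_nonneg_left h3 (by positivity)) h1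
      have h6 : C * q (F (k + 1)) ≤ max C 0 := by
        calc C * q (F (k + 1)) ≤ max C 0 * q (F (k + 1)) :=
              mul_le_mul_of_nonneg_right (le_max_left _ _) (q_nonneg _)
          _ ≤ max C 0 * 1 := mul_le_mul_of_nonneg_left h4 (le_max_right _ _)
          _ = _ := mul_one _
      have h7 : (1 / 2 : ℝ) ^ (k + 1) * 4 ^ k = 2 ^ k / 2 := by
        rw [pow_succ, show (4 : ℝ) = 2 * 2 by norm_num, mul_pow, one_div, inv_pow]
        field_simp
      rw [h7] at h5
      linarith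
    · refine ⟨e (k + 1, 0, 0), Finset.mem_map_of_mem _ ((mem_supp _ _).2 ⟨rfl, by simp, by simp⟩)⟩
    · intro n hn l hl
      have hl' : e.symm l ∉ supp (k + 1) := by
        intro h; apply hl
        exact Finset.mem_map.2 ⟨_, h, by simp⟩
      simp only [LinearMap.coe_comp, LinearMap.coe_proj, Submodule.coe_subtype,
        Function.comp_apply, Function.eval]
      rw [F_apply, if_neg hl', norm_zero]
      exact norm_nonneg _
    · intro n hn
      obtain ⟨x, hx, rfl⟩ := Finset.mem_map.1 hn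
      simp only [LinearMap.coe_comp, LinearMap.coe_proj, Submodule.coe_subtype,
        Function.comp_apply, Function.eval, Equiv.coe_toEmbedding, Equiv.symm_apply_apply]
      rw [F_apply, if_pos hx, Real.norm_eq_abs, abs_of_pos (by positivity)]
      exact pow_le_pow_of_le_one (by norm_num) (by norm_num) ((mem_supp _ _).1 hx).2.1

end Pool.Agent.S06521
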