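import Pool.Statements.S06533
import Pool.Agent.W742.OR.Step

set_option autoImplicit false
open MeasureTheory Filter Topology
open Pool Pool.MP_e8a8db_an

namespace Pool.Agent.S06533

/-- Every nontrivial mixing measure-preserving system on a probability space has an over-recurrent set, or a bounded non-constant function f with ∫ f·f∘T^n ≥ (∫ f)^2 for all n ≥ 1. -/
theorem result :
    ∀ (X : Type) [MeasurableSpace X] (μ : Measure X) [IsProbabilityMeasure μ] (T : X → X),
      MeasurePreserving T μ μ →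
      (∃ A : Set X, MeasurableSet A ∧ 0 < μ A ∧ μ A < 1) →
      (∀ A B : Set X, MeasurableSet A → MeasurableSet B →
        Tendsto (fun n : ℕ => μ (A ∩ T^[n] ⁻¹' B)) atTop (𝓝 (μ A * μ B))) →
      (∃ A : Set X, MeasurableSet A ∧ 0 < μ A ∧ μ A < 1 ∧
          ∀ n : ℕ, 1 ≤ n → μ A ^ 2 ≤ μ (A ∩ T^[n] ⁻¹' A)) ∨
      (∃ f : X → ℝ, MemLp f ⊤ μ ∧ (¬ ∃ c : ℝ, f =ᵐ[μ] fun _ => c) ∧
          ∀ n : ℕ, 1 ≤ n → (∫ x, f x ∂μ) ^ 2 ≤ ∫ x, f x * f (T^[n] x) ∂μ) := by
  intro X _ μ _ T hT ⟨A, hA, hA0, hA1⟩ hmix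
  right
  have h0 : 0 < μ.real A := ENNReal.toReal_pos hA0.ne' (measure_ne_top μ A)
  have h1 : μ.real A < 1 := by
    have h5 := (ENNReal.toReal_lt_toReal (measure_ne_top μ A) ENNReal.one_ne_top).2 hA1
    rw [ENNReal.toReal_one] at h5
    exact h5
  obtain ⟨f, hfm, ⟨C, hC⟩, hmean, hpos, hcor⟩ :=
    Pool.Agent.W742.OR.over_recurrent hT hmix hA h0 h1
  refine ⟨f, MemLp.of_bound hfm.aestronglyMeasurable C (Eventually.of_forall fun x => hC x),
    ?_, fun n hn => ?_⟩
  · rintro ⟨c, hc⟩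
    have h2 : ∫ x, f x ∂μ = c := by
      rw [integral_congr_ae hc]
      simp
    have h3 : c = 0 := by rw [← h2, hmean]
    have h4 : ∫ x, f x * f x ∂μ = 0 := by
      have : (fun x => f x * f x) =ᵐ[μ] fun _ => (0:ℝ) := by
        filter_upwards [hc] with x hx
        rw [hx, h3]
        simp
      rw [integral_congr_ae this]
      simp
    linarith
  · rw [hmean]
    simpa using hcor n hn

end Pool.Agent.S06533
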