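import Pool.Statements.S06560
import Pool.Agent.W735.HypCone

set_option autoImplicit false
open Pool Pool.MP_eb1abe_an

namespace Pool.Agent.S06560

/-- The negation of the preceding statement: Every degree d≥2 holomorphic self-map of P² (in homogeneous coordinates) is hyperbolic on every compact totally invariant set disjoint from its postcritical set: continuous invariant splitting over the natural extension, uniformly expanding/contracting. -/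
theorem result :
    ¬ (∀ (d : ℕ), 2 ≤ d → ∀ (F : Fin 3 → MvPolynomial (Fin 3) ℂ), (∀ i, (F i).IsHomogeneous d) →
  (∀ x : Fin 3 → ℂ, (∀ i, MvPolynomial.eval x (F i) = 0) → x = 0) →
  ∀ Φ : (Fin 3 → ℂ) → (Fin 3 → ℂ), (∀ x i, Φ x i = MvPolynomial.eval x (F i)) →
  ∀ K : Set (Fin 3 → ℂ), (0 : Fin 3 → ℂ) ∉ K →
  (∀ v ∈ K, ∀ t : ℂ, t ≠ 0 → t • v ∈ K) →
  IsClosed (insert (0 : Fin 3 → ℂ) K) →
  (∀ v : Fin 3 → ℂ, v ≠ 0 → (Φ v ∈ K ↔ v ∈ K)) →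
  Disjoint K (closure {w : Fin 3 → ℂ | ∃ n : ℕ, 1 ≤ n ∧ ∃ c : Fin 3 → ℂ, c ≠ 0 ∧
      Matrix.det (Matrix.of fun i j => MvPolynomial.eval c (MvPolynomial.pderiv j (F i))) = 0 ∧
      w = (Φ^[n]) c}) →
  ∀ H : Set (ℕ → Fin 3 → ℂ), H = {u | ∀ k, u k ∈ K ∧ ∃ t : ℂ, Φ (u (k + 1)) = t • u k} →
  ∃ Eu Es : (ℕ → Fin 3 → ℂ) → Submodule ℂ (Fin 3 → ℂ),
    (∀ u ∈ H, ∀ u' ∈ H, (∀ k, ∃ t : ℂ, u' k = t • u k) → Eu u' = Eu u ∧ Es u' = Es u) ∧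
    (∀ u ∈ H, u 0 ∈ Eu u ∧ u 0 ∈ Es u ∧ Eu u ⊔ Es u = ⊤ ∧
        Eu u ⊓ Es u = Submodule.span ℂ {u 0}) ∧
    (∀ u ∈ H, ∀ w : Fin 3 → ℂ,
        (w ∈ Eu u → fderiv ℂ Φ (u 0) w ∈ Eu (fun k => if k = 0 then Φ (u 0) else u (k - 1))) ∧
        (w ∈ Es u → fderiv ℂ Φ (u 0) w ∈ Es (fun k => if k = 0 then Φ (u 0) else u (k - 1)))) ∧
    (∀ u ∈ H, ∀ U : ℕ → ℕ → Fin 3 → ℂ, (∀ m, U m ∈ H) →
        (∀ k, Filter.Tendsto (fun m => U m k) Filter.atTop (nhds (u k))) →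
        (∀ᶠ m in Filter.atTop, Module.finrank ℂ (Eu (U m)) = Module.finrank ℂ (Eu u) ∧
            Module.finrank ℂ (Es (U m)) = Module.finrank ℂ (Es u)) ∧
        (∀ w ∈ Eu u, ∃ W : ℕ → Fin 3 → ℂ, (∀ m, W m ∈ Eu (U m)) ∧
            Filter.Tendsto W Filter.atTop (nhds w)) ∧
        (∀ w ∈ Es u, ∃ W : ℕ → Fin 3 → ℂ, (∀ m, W m ∈ Es (U m)) ∧
            Filter.Tendsto W Filter.atTop (nhds w))) ∧
    ∃ c C lam mu : ℝ, 0 < c ∧ 0 < C ∧ 1 < lam ∧ mu < 1 ∧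
      ∀ u ∈ H, ∀ n : ℕ, 1 ≤ n → ∀ w : Fin 3 → ℂ,
        (w ∈ Eu u →
          c * lam ^ n * (Metric.infDist w (Set.range fun t : ℂ => t • u 0) / ‖u 0‖) ≤
            Metric.infDist (fderiv ℂ (Φ^[n]) (u 0) w) (Set.range fun t : ℂ => t • (Φ^[n]) (u 0)) /
              ‖(Φ^[n]) (u 0)‖) ∧
        (w ∈ Es u →
          Metric.infDist (fderiv ℂ (Φ^[n]) (u 0) w) (Set.range fun t : ℂ => t • (Φ^[n]) (u 0)) /
              ‖(Φ^[n]) (u 0)‖ ≤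
            C * mu ^ n * (Metric.infDist w (Set.range fun t : ℂ => t • u 0) / ‖u 0‖))) := by
  open Pool.Agent.W735.HypCone Pool.Agent.Results.MP_eb1abe_an.NotHyperbolic in
  intro hall
  obtain ⟨K, h1, h2, h3, h4, h5, hx0⟩ := main
  have hH : (fun _ : ℕ => x0) ∈ {u : ℕ → Fin 3 → ℂ | ∀ k, u k ∈ K ∧ ∃ t : ℂ,
      ex.lift (u (k + 1)) = t • u k} :=
    fun _ => ⟨hx0, 1, by rw [one_smul]; exact lift_x0⟩
  obtain ⟨Eu, Es, -, hsum, -, -, c, C, lam, mu, hc, hC, hlam, hmu, hexp⟩ :=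
    hall 2 le_rfl exF exF_hom ex.onlyZero ex.lift (fun _ _ => rfl) K h1 h2 h3 h4 h5 _ rfl
  obtain ⟨-, -, htop, -⟩ := hsum _ hH
  have hu := sub_of_exp (W := Eu fun _ => x0) hc hlam
    (fun n hn w hw => (hexp _ hH n hn w).1 hw)
  have hs := sub_of_contr (W := Es fun _ => x0) hC hmu
    (fun n hn w hw => (hexp _ hH n hn w).2 hw)
  have h6 : (![1, 0, 0] : Fin 3 → ℂ) ∈ (Eu fun _ => x0) ⊔ (Es fun _ => x0) := by
    rw [htop]; exact Submodule.mem_top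
  obtain ⟨a, ha, b, hb, hab⟩ := Submodule.mem_sup.1 h6
  have ha0 : a 0 = 0 := norm_le_zero_iff.1 ((le_max_left _ _).trans (hu a ha))
  have hb0 : b 0 = 0 := norm_le_zero_iff.1 ((le_max_left _ _).trans (hs b hb))
  have := congrFun hab 0
  simp [ha0, hb0] at this

end Pool.Agent.S06560
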