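import Pool.Statements.S06562
import Pool.Agent.Helper203.WLStmt
import Pool.Agent.Helper203.WLFin

set_option autoImplicit false
open scoped ENNReal NNReal Topology
open Filter
open Pool Pool.MP_eb6598_an

namespace Pool.Agent.S06562

open WLim in
/-- The coefficient formulas of the antidiagonal and of the range form agree. -/
lemma act_eq {E : Type} [NormedAddCommGroup E] [InnerProductSpace ℂ E]
    (b : ℕ → (E →L[ℂ] E)) (f : ℕ → E) (n : ℕ) :
    ∑ k ∈ Finset.range (n + 1), (b k) (f (n - k)) =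
      ∑ p ∈ Finset.HasAntidiagonal.antidiagonal n, b p.1 (f p.2) := by
  rw [Finset.Nat.sum_antidiagonal_eq_sum_range_succ (fun i j => (b i) (f j)) n]

/-- The approximation numbers of the diagonal operator. -/
lemma approx_le (n : ℕ) :
    (⨅ (F : WaveLimit.L2N →L[ℂ] WaveLimit.L2N)
      (_ : Module.rank ℂ (LinearMap.range (F : WaveLimit.L2N →ₗ[ℂ] WaveLimit.L2N)) ≤
        (n : Cardinal)), ENNReal.ofReal ‖WaveLimit.Kop - F‖) ≤ ENNReal.ofReal (WaveLimit.cc n) := by
  set F : WaveLimit.L2N →L[ℂ] WaveLimit.L2N :=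
    ∑ i ∈ Finset.range n, (WaveLimit.cc i : ℂ) •
      ((innerSL ℂ (WaveLimit.ee i)).smulRight (WaveLimit.ee i)) with hF
  have hr : Module.rank ℂ (LinearMap.range (F : WaveLimit.L2N →ₗ[ℂ] WaveLimit.L2N)) ≤
      (n : Cardinal) := by
    have hsub : LinearMap.range (F : WaveLimit.L2N →ₗ[ℂ] WaveLimit.L2N) ≤
        Submodule.span ℂ (WaveLimit.ee '' (Finset.range n : Set ℕ)) := by
      rintro _ ⟨v, rfl⟩
      have : (F : WaveLimit.L2N →ₗ[ℂ] WaveLimit.L2N) v =
          ∑ i ∈ Finset.range n, ((WaveLimit.cc i : ℂ) * inner ℂ (WaveLimit.ee i) v) •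
            WaveLimit.ee i := by
        change F v = _
        rw [hF, _root_.sum_apply]
        refine Finset.sum_congr rfl (fun i _ => ?_)
        change (WaveLimit.cc i : ℂ) • (inner ℂ (WaveLimit.ee i) v • WaveLimit.ee i) = _
        rw [smul_smul]
      rw [this]
      refine Submodule.sum_mem _ (fun i hi => Submodule.smul_mem _ _ ?_)
      exact Submodule.subset_span ⟨i, by simpa using hi, rfl⟩
    refine (Submodule.rank_mono hsub).trans ?_
    classical
    have h2 : (WaveLimit.ee '' (Finset.range n : Set ℕ)) =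
        (((Finset.range n).image WaveLimit.ee : Finset WaveLimit.L2N) : Set WaveLimit.L2N) := by
      simp
    rw [h2]
    refine (rank_span_finset_le _).trans ?_
    have h3 := Finset.card_image_le (s := Finset.range n) (f := WaveLimit.ee)
    rw [Finset.card_range] at h3
    exact_mod_cast h3
  refine (iInf₂_le F hr).trans ?_
  exact ENNReal.ofReal_le_ofReal (WaveLimit.Kop_sub_norm n)

lemma matsaev_sum :
    ∑' n : ℕ, (⨅ (F : WaveLimit.L2N →L[ℂ] WaveLimit.L2N)
      (_ : Module.rank ℂ (LinearMap.range (F : WaveLimit.L2N →ₗ[ℂ] WaveLimit.L2N)) ≤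
        (n : Cardinal)), ENNReal.ofReal ‖WaveLimit.Kop - F‖) / ((n : ℝ≥0∞) + 1) < ⊤ := by
  have hs : Summable (fun j : ℕ => WaveLimit.cc j / ((j : ℝ) + 1)) := by
    have h := (Real.summable_nat_rpow (p := (-(3 / 2) : ℝ))).mpr (by norm_num)
    have h2 := (summable_nat_add_iff 1).mpr h
    refine h2.congr (fun j => ?_)
    unfold WaveLimit.cc
    have hx : (0 : ℝ) < (j : ℝ) + 1 := by positivity
    have e1 : (((j + 1 : ℕ) : ℝ)) = (j : ℝ) + 1 := by push_cast; rfl
    rw [e1]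
    have e2 : ((j : ℝ) + 1) ^ (-(1 / 2) : ℝ) / ((j : ℝ) + 1)
        = ((j : ℝ) + 1) ^ (-(1 / 2) - 1 : ℝ) := by
      rw [Real.rpow_sub hx, Real.rpow_one]
    rw [e2]
    norm_num
  have hnn : ∀ j : ℕ, 0 ≤ WaveLimit.cc j / ((j : ℝ) + 1) := fun j =>
    div_nonneg (WaveLimit.cc_pos j).le (by positivity)
  have h1 : ∑' j : ℕ, ENNReal.ofReal (WaveLimit.cc j / ((j : ℝ) + 1)) < ⊤ :=
    hs.tsum_ofReal_lt_top
  refine lt_of_le_of_lt (ENNReal.tsum_le_tsum (fun n => ?_)) h1
  rw [ENNReal.ofReal_div_of_pos (by positivity)]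
  have h2 : ENNReal.ofReal ((n : ℝ) + 1) = (n : ℝ≥0∞) + 1 := by
    rw [ENNReal.ofReal_add (by positivity) (by norm_num), ENNReal.ofReal_natCast,
      ENNReal.ofReal_one]
  rw [h2]
  exact ENNReal.div_le_div_right (approx_le n) _

/-- The negation of the preceding statement: If φ has positive real part and Re φ(0) is of Matsaev class, then every element of the overlapping space is an 𝓛-limit of (1+T)uⱼ for square-summable uⱼ Cauchy in 𝓛(φ), i.e. the wave-limit W is onto 𝓛. -/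
theorem result :
    ¬ (∀ (E : Type) [NormedAddCommGroup E] [InnerProductSpace ℂ E] [CompleteSpace E]
      (φ b : ℕ → (E →L[ℂ] E)),
      (∀ z : ℂ, ‖z‖ < 1 → ∃ Φ : E →L[ℂ] E,
          HasSum (fun n : ℕ => z ^ n • φ n) Φ ∧ ∀ x : E, 0 ≤ (inner ℂ (Φ x) x).re) →
      (∀ n : ℕ, b n + ∑ k ∈ Finset.range (n + 1), φ k * b (n - k)
          = (if n = 0 then (1 : E →L[ℂ] E) else 0) - φ n) →
      ∀ A : E →L[ℂ] E,
      (∀ x y : E, (inner ℂ (A x) y : ℂ)
          = (1 / 2 : ℂ) * ((inner ℂ ((φ 0) x) y : ℂ) + (inner ℂ x ((φ 0) y) : ℂ))) →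
      (IsCompactOperator (A : E → E) ∧
        ∑' n : ℕ, (⨅ (F : E →L[ℂ] E)
            (_ : Module.rank ℂ (LinearMap.range (F : E →ₗ[ℂ] E)) ≤ (n : Cardinal)),
            ENNReal.ofReal ‖A - F‖) / ((n : ℝ≥0∞) + 1) < ⊤) →
      ∀ M Ms R : lp (fun _ : ℕ => E) 2 →L[ℂ] lp (fun _ : ℕ => E) 2,
      (∀ (f : lp (fun _ : ℕ => E) 2) (n : ℕ),
          (M f) n = ∑ k ∈ Finset.range (n + 1), (b k) (f (n - k))) →
      (∀ f g : lp (fun _ : ℕ => E) 2, (inner ℂ (M f) g : ℂ) = (inner ℂ f (Ms g) : ℂ)) →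
      (∀ f g : lp (fun _ : ℕ => E) 2, (inner ℂ (R f) g : ℂ) = (inner ℂ f (R g) : ℂ)) →
      (∀ f : lp (fun _ : ℕ => E) 2, 0 ≤ (inner ℂ (R f) f : ℂ).re) →
      (∀ f : lp (fun _ : ℕ => E) 2, R (R f) = f - M (Ms f)) →
      ∀ g : ℕ → E,
        (∑' n, ENNReal.ofReal (‖g n‖ ^ 2)) +
          (⨅ (x : lp (fun _ : ℕ => E) 2)
            (_ : ∀ n : ℕ, (R x) n = ∑ k ∈ Finset.range (n + 1), (b k) (g (n - k))),
            ENNReal.ofReal (‖x‖ ^ 2)) < ⊤ →
        ∃ u : ℕ → lp (fun _ : ℕ => E) 2,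
          (∀ j : ℕ,
            (⨅ (x : lp (fun _ : ℕ => E) 2)
              (_ : ∀ n : ℕ, (R x) n
                  = (u j) n + ∑ k ∈ Finset.range (n + 1), (b k) ((u j) (n - k))),
              ENNReal.ofReal (‖x‖ ^ 2)) < ⊤) ∧
          (∀ ε : ℝ≥0∞, 0 < ε → ∃ N : ℕ, ∀ i ≥ N, ∀ j ≥ N,
            (⨅ (x : lp (fun _ : ℕ => E) 2)
              (_ : ∀ n : ℕ, (R x) n
                  = ((u i) n - (u j) n) +
                    ∑ k ∈ Finset.range (n + 1), (b k) ((u i) (n - k) - (u j) (n - k))),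
              ENNReal.ofReal (‖x‖ ^ 2)) < ε) ∧
          Tendsto
            (fun j : ℕ =>
              (∑' n, ENNReal.ofReal (‖(u j + Ms (u j)) n - g n‖ ^ 2)) +
              (⨅ (x : lp (fun _ : ℕ => E) 2)
                (_ : ∀ n : ℕ, (R x) n
                    = ∑ k ∈ Finset.range (n + 1),
                        (b k) ((u j + Ms (u j)) (n - k) - g (n - k))),
                ENNReal.ofReal (‖x‖ ^ 2)))
            atTop (𝓝 0)) := by
  intro hmain
  obtain ⟨δ, hpos, h10, hT⟩ := WaveLimit.exists_delta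
  have h0 : 0 ≤ δ := hpos.le
  have h1 : δ ≤ 1 := by linarith
  set D := WaveLimit.DD δ h0 h1 with hD
  have hφ0 : D.φc 0 = WaveLimit.Kop := by
    have := WaveLimit.phi0 δ h0 h1
    rw [← this, hD]
    simp [WaveLimit.Coll.φ]
  have hsym : ∀ x y : WaveLimit.L2N,
      inner ℂ (WaveLimit.Kop x) y = (inner ℂ x (WaveLimit.Kop y) : ℂ) :=
    fun x y => WaveLimit.dg_symm _ _ _ _ _
  -- the survivor
  set u0 : WaveLimit.L2N := lp.single 2 0 1 with hu0
  set U : WaveLimit.CZ WaveLimit.L2N := lp.single 2 0 u0 with hU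
  have hsv := D.survivor u0 (1 / 2) (by norm_num) (fun n => WaveLimit.X_lower δ h0 h1 hT n)
  rw [← hU] at hsv
  set f : WaveLimit.CZ WaveLimit.L2N := U - ContinuousLinearMap.adjoint D.M (D.M U) with hf
  have hf0 : f ≠ 0 := by
    intro h0
    have h1 : inner ℂ f U = (0 : ℂ) := by rw [h0, inner_zero_left]
    rw [hf, inner_sub_left, ContinuousLinearMap.adjoint_inner_left] at h1
    have h2 := congrArg Complex.re h1
    rw [Complex.sub_re] at h2
    have n1 : (inner ℂ U U : ℂ).re = ‖U‖ ^ 2 := inner_self_eq_norm_sq (𝕜 := ℂ) U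
    have n2 : (inner ℂ (D.M U) (D.M U) : ℂ).re = ‖D.M U‖ ^ 2 :=
      inner_self_eq_norm_sq (𝕜 := ℂ) (D.M U)
    rw [n1, n2] at h2
    simp at h2
    nlinarith
  have hMf : WaveLimit.defect D.M (WaveLimit.defect D.M (D.M U)) = D.M f := by
    rw [WaveLimit.defect_defect _ D.M_norm_le, hf, map_sub]
  have hMn : ∀ (v : WaveLimit.CZ WaveLimit.L2N) (n : ℕ),
      (D.M v) n = ∑ k ∈ Finset.range (n + 1), (D.Bc k) (v (n - k)) := by
    intro v n
    rw [act_eq]
    exact D.out_conv _ n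
  have hkey := hmain WaveLimit.L2N D.φc D.Bc ?_ ?_ WaveLimit.Kop ?_
    ⟨WaveLimit.Kop_compact, matsaev_sum⟩ D.M (ContinuousLinearMap.adjoint D.M)
    (WaveLimit.defect D.M) hMn ?_ ?_ ?_ ?_ (fun n => f n) ?_
  rotate_left
  · intro z hz
    have hs := D.φ_summable z hz
    refine ⟨∑' n : ℕ, z ^ n • PowerSeries.coeff n D.φ, ?_, fun x => ?_⟩
    · have := hs.hasSum
      have e : (fun n : ℕ => z ^ n • PowerSeries.coeff n D.φ) = fun n : ℕ => z ^ n • D.φc n := by
        funext n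
        simp [WaveLimit.Coll.φ]
      rw [e] at this ⊢
      exact this
    · have h3 := (D.posRealPart z hz).2 x
      rw [← inner_conj_symm, Complex.conj_re] at h3
      exact h3
  · intro n
    ext1 c
    have h3 := D.conv_eq c n
    rw [add_apply, sub_apply, _root_.sum_apply]
    have h4 : ∑ k ∈ Finset.range (n + 1), (D.φc k * D.Bc (n - k)) c =
        ∑ p ∈ Finset.HasAntidiagonal.antidiagonal n, D.φc p.1 (D.Bc p.2 c) :=
      act_eq D.φc (fun j => D.Bc j c) n
    rw [h4, h3]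
    congr 1
    split_ifs <;> simp
  · intro x y
    rw [hφ0, hsym]
    ring
  · intro v w
    rw [ContinuousLinearMap.adjoint_inner_right]
  · intro v w
    exact WaveLimit.defect_symm D.M v w
  · intro v
    have h1 : 0 ≤ WaveLimit.defect D.M := CFC.sqrt_nonneg _
    rw [ContinuousLinearMap.nonneg_iff_isPositive] at h1
    exact h1.2 v
  · intro v
    exact WaveLimit.defect_defect D.M D.M_norm_le v
  · refine ENNReal.add_lt_top.mpr ⟨?_, ?_⟩
    · have := WaveLimit.lp_summable_sq f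
      exact this.tsum_ofReal_lt_top
    · refine lt_of_le_of_lt (iInf₂_le (WaveLimit.defect D.M (D.M U)) (fun n => ?_))
        ENNReal.ofReal_lt_top
      rw [hMf, hMn]
  obtain ⟨u, hu, -, hlim⟩ := hkey
  have hu0 : ∀ j, u j = 0 := by
    intro j
    have h3 := hu j
    simp only [iInf_lt_iff] at h3
    obtain ⟨x, hx, -⟩ := h3
    refine D.core' (fun h hs => WaveLimit.noSmooth δ h0 h1 hpos h10 h hs) (u j) x ?_
    apply lp.ext
    funext n
    rw [hx n]
    change (u j) n + (D.M (u j)) n = _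
    rw [hMn]
  have hval : ∀ j : ℕ, ENNReal.ofReal (‖f‖ ^ 2) ≤
      (∑' n, ENNReal.ofReal (‖(u j + ContinuousLinearMap.adjoint D.M (u j)) n - f n‖ ^ 2)) +
      (⨅ (x : WaveLimit.CZ WaveLimit.L2N)
        (_ : ∀ n : ℕ, (WaveLimit.defect D.M x) n
            = ∑ k ∈ Finset.range (n + 1),
                (D.Bc k) ((u j + ContinuousLinearMap.adjoint D.M (u j)) (n - k) - f (n - k))),
        ENNReal.ofReal (‖x‖ ^ 2)) := by
    intro j
    refine le_trans ?_ (le_add_right le_rfl)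
    rw [hu0 j, map_zero, add_zero]
    have h3 : ∀ n : ℕ, ‖(0 : WaveLimit.CZ WaveLimit.L2N) n - f n‖ ^ 2 = ‖f n‖ ^ 2 := by
      intro n
      have : (0 : WaveLimit.CZ WaveLimit.L2N) n = 0 := rfl
      rw [this, zero_sub, norm_neg]
    simp_rw [h3]
    rw [WaveLimit.lp_norm_sq f, ENNReal.ofReal_tsum_of_nonneg (fun n => by positivity)
      (WaveLimit.lp_summable_sq f)]
  have h5 := ge_of_tendsto' hlim hval
  have h6 : 0 < ENNReal.ofReal (‖f‖ ^ 2) := by
    rw [ENNReal.ofReal_pos]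
    have := norm_pos_iff.mpr hf0
    positivity
  exact absurd h5 (not_le.mpr h6)

end Pool.Agent.S06562
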