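import Pool.Statements.S06580
import Pool.Agent.W686.Shift

set_option autoImplicit false
open Filter Topology MeasureTheory
open Pool Pool.MP_ec63c8_an

namespace Pool.Agent.S06580

/-- The negation of the preceding statement: For every bounded strongly continuous semigroup T on a complex Banach space and every x, T(t)x tends to 0 iff a times the integral over s of the squared norm of the Laplace-transform resolvent at a+is applied to x tends to 0 as a tends to 0 from above. -/
theorem result :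
    ¬ (∀ (X : Type) [NormedAddCommGroup X] [NormedSpace ℂ X] [CompleteSpace X]
      (T : ℝ → (X →L[ℂ] X)),
      T 0 = 1 →
      (∀ s t : ℝ, 0 ≤ s → 0 ≤ t → T (s + t) = T s * T t) →
      (∀ x : X, ContinuousOn (fun t : ℝ => T t x) (Set.Ici (0 : ℝ))) →
      (∃ M : ℝ, ∀ t : ℝ, 0 ≤ t → ‖T t‖ ≤ M) →
      ∀ x : X,
        (Tendsto (fun t : ℝ => T t x) atTop (𝓝 0) ↔
          Tendsto
            (fun a : ℝ => ENNReal.ofReal a *
              ∫⁻ s : ℝ,
                ((‖∫ t in Set.Ioi (0 : ℝ),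
                    Complex.exp (-(((a : ℂ) + (s : ℂ) * Complex.I) * (t : ℂ))) • T t x‖₊ : ENNReal)) ^ 2)
            (𝓝[>] (0 : ℝ)) (𝓝 0))) := by
  intro H
  have h := H (ZeroAtInftyContinuousMap ℝ ℂ) Pool.Agent.W686.Shift.T Pool.Agent.W686.Shift.T_zero
    (fun s t _ _ => Pool.Agent.W686.Shift.T_add s t)
    (fun x => (Pool.Agent.W686.Shift.T_cont x).continuousOn)
    ⟨1, fun t _ => Pool.Agent.W686.Shift.norm_T_le t⟩ Pool.Agent.W686.Shift.G
  obtain ⟨K, hK, hb⟩ := Pool.Agent.W686.Shift.resolvent_bound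
  have hT : Tendsto (fun t : ℝ => Pool.Agent.W686.Shift.T t Pool.Agent.W686.Shift.G) atTop (𝓝 0) := by
    refine h.2 ?_
    have hfin : ∫⁻ s : ℝ, ENNReal.ofReal (K * (1 + s ^ 2)⁻¹) ≠ ⊤ := by
      have := (integrable_inv_one_add_sq.const_mul K)
      exact this.lintegral_lt_top.ne
    have hle : ∀ᶠ a : ℝ in 𝓝[>] (0 : ℝ), ENNReal.ofReal a *
              ∫⁻ s : ℝ,
                ((‖∫ t in Set.Ioi (0 : ℝ),
                    Complex.exp (-(((a : ℂ) + (s : ℂ) * Complex.I) * (t : ℂ))) •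
                      Pool.Agent.W686.Shift.T t Pool.Agent.W686.Shift.G‖₊ : ENNReal)) ^ 2
        ≤ ENNReal.ofReal a * ∫⁻ s : ℝ, ENNReal.ofReal (K * (1 + s ^ 2)⁻¹) := by
      filter_upwards [self_mem_nhdsWithin] with a ha
      refine mul_le_mul_right (lintegral_mono fun s => ?_) _
      have h1 := hb a s ha
      refine le_trans (le_of_eq ?_) (ENNReal.ofReal_le_ofReal h1)
      rw [ENNReal.ofReal_pow (norm_nonneg _), ofReal_norm]
      rfl
    refine tendsto_of_tendsto_of_tendsto_of_le_of_le' tendsto_const_nhds ?_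
      (Filter.Eventually.of_forall fun a => zero_le) hle
    have h0 : Tendsto (fun a : ℝ => ENNReal.ofReal a) (𝓝[>] (0 : ℝ)) (𝓝 0) := by
      have := (ENNReal.continuous_ofReal.tendsto 0).mono_left (nhdsWithin_le_nhds (s := Set.Ioi (0 : ℝ)))
      rwa [ENNReal.ofReal_zero] at this
    have := ENNReal.Tendsto.mul_const (b := ∫⁻ s : ℝ, ENNReal.ofReal (K * (1 + s ^ 2)⁻¹)) h0 (Or.inr hfin)
    rwa [zero_mul] at this
  have h2 := hT.norm
  rw [norm_zero] at h2
  have h3 := ge_of_tendsto' h2 Pool.Agent.W686.Shift.orbit_norm_ge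
  linarith

end Pool.Agent.S06580
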