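import Pool.Statements.S06588
import Pool.Agent.W731.Levi
import Pool.Agent.W731.NoHC
import Pool.Agent.Helper303.HullB
import Pool.Agent.Helper303.Conn
-- import your own Pool.Agent.* helpers here

set_option autoImplicit false
open Pool Pool.MP_eccbcf_an

namespace Pool.Agent.S06588

open Pool.Agent.Helper303 Pool.Agent.W731 Topology

/-- the coordinate identification -/
noncomputable abbrev ce : EuclideanSpace ℂ (Fin 2) ≃L[ℂ] (Fin 2 → ℂ) := EuclideanSpace.equiv (Fin 2) ℂ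

/-- the domain in coordinates -/
def Dm (Q : Cheese) : Set (Fin 2 → ℂ) := {z | rho Q (ce.symm z) < 0}

lemma Dm_eq (Q : Cheese) : Dm Q = ce.symm ⁻¹' Om Q := rfl

lemma Dm_image (Q : Cheese) : Dm Q = ce '' Om Q := by
  rw [Dm_eq]
  ext z
  constructor
  · intro hz
    exact ⟨ce.symm z, hz, ce.apply_symm_apply z⟩
  · rintro ⟨x, hx, rfl⟩
    show ce.symm (ce x) ∈ Om Q
    rwa [ce.symm_apply_apply]

lemma closure_Dm (Q : Cheese) : closure (Dm Q) = ce.symm ⁻¹' closure (Om Q) := by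
  rw [Dm_eq]
  exact (ce.symm.toHomeomorph.preimage_closure (Om Q)).symm

lemma frontier_Dm (Q : Cheese) : frontier (Dm Q) = ce.symm ⁻¹' frontier (Om Q) := by
  rw [Dm_eq]
  exact (ce.symm.toHomeomorph.preimage_frontier (Om Q)).symm

lemma isOpen_Dm (Q : Cheese) : IsOpen (Dm Q) := (isOpen_Om Q).preimage ce.symm.continuous

lemma isBounded_Dm (Q : Cheese) : Bornology.IsBounded (Dm Q) := by
  have h1 : IsCompact (closure (Dm Q)) := by
    rw [closure_Dm]
    exact ce.symm.toHomeomorph.isCompact_preimage.2 (isCompact_closure_Om Q)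
  exact h1.isBounded.subset subset_closure

lemma isConnected_Dm (Q : Cheese) : IsConnected (Dm Q) := by
  rw [Dm_image]
  exact (isConnected_Om Q).image _ ce.continuous.continuousOn

lemma contDiff_rs (Q : Cheese) :
    ContDiff ℝ ((⊤ : ℕ∞) : WithTop ℕ∞) (fun z : Fin 2 → ℂ => rho Q (ce.symm z)) :=
  (contDiff_rho Q).comp (ce.symm.contDiff.restrict_scalars ℝ)

lemma fderiv_rs (Q : Cheese) {z : Fin 2 → ℂ} (hz : rho Q (ce.symm z) = 0) :
    fderiv ℝ (fun z : Fin 2 → ℂ => rho Q (ce.symm z)) z ≠ 0 := by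
  intro h0
  refine fderiv_rho_ne Q hz ?_
  have h1 : HasFDerivAt (fun z : Fin 2 → ℂ => rho Q (ce.symm z)) (0 : (Fin 2 → ℂ) →L[ℝ] ℝ) z := by
    rw [← h0]
    exact (((contDiff_rs Q).differentiable (by simp)) z).hasFDerivAt
  have h2 := (ce.hasFDerivAt (x := ce.symm z)).restrictScalars ℝ
  have h3 : HasFDerivAt (fun z : Fin 2 → ℂ => rho Q (ce.symm z)) (0 : (Fin 2 → ℂ) →L[ℝ] ℝ)
      (ce (ce.symm z)) := by rwa [ce.apply_symm_apply]
  have h4 := h3.comp (ce.symm z) h2
  rw [ContinuousLinearMap.zero_comp] at h4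
  have h5 : ((fun z : Fin 2 → ℂ => rho Q (ce.symm z)) ∘ ce) = rho Q := by
    funext x
    simp only [Function.comp]
    rw [ce.symm_apply_apply]
  rw [h5] at h4
  exact h4.fderiv

lemma psc_Dm (Q : Cheese) : BK.PscC (Dm Q) := by
  obtain ⟨hc, hsub⟩ := ex_psh Q
  refine ⟨fun z => ex Q (ce.symm z), ?_, ?_, ?_⟩
  · exact hc.comp ce.symm.continuous.continuousOn fun z hz => hz
  · intro M
    have h1 : {x | x ∈ Dm Q ∧ ex Q (ce.symm x) ≤ M} =
        ce.symm.toHomeomorph ⁻¹' {x | x ∈ Om Q ∧ ex Q x ≤ M} := rfl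
    have h2 := ce.symm.toHomeomorph.isCompact_preimage.2 (ex_compact Q M)
    rw [← h1] at h2
    exact h2
  · intro a b hab
    have h0 : ∀ (ζ : ℂ) (a b : Fin 2 → ℂ), ce.symm (a + ζ • b) = ce.symm a + ζ • ce.symm b := by
      intro ζ a b
      rw [map_add, map_smul]
    have h1 := hsub (ce.symm a) (by
      have := hab 0 (by simp)
      rwa [zero_smul, add_zero] at this) (ce.symm b) 1 one_pos (by
      intro ζ hζ
      rw [← h0]
      exact hab ζ hζ)
    simp only [Complex.ofReal_one, one_mul, ← h0] at h1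
    exact h1

lemma hull_Dm (Q : Cheese) (K : Set (Fin 2 → ℂ)) (hK : K ⊆ closure (Dm Q)) (hKc : IsCompact K) :
    {z ∈ closure (Dm Q) | ∀ φ : (Fin 2 → ℂ) → ℝ, ContinuousOn φ (closure (Dm Q)) →
          (∀ a ∈ Dm Q, ∀ b : Fin 2 → ℂ, ∀ r : ℝ, 0 ≤ r →
              (∀ ζ : ℂ, ‖ζ‖ ≤ r → a + ζ • b ∈ Dm Q) →
              φ a ≤ (2 * Real.pi)⁻¹ * ∫ θ in (0:ℝ)..(2 * Real.pi),
                φ (a + ((r : ℂ) * Complex.exp ((θ : ℂ) * Complex.I)) • b)) →
          ∀ c : ℝ, (∀ w ∈ K, φ w ≤ c) → φ z ≤ c} ∩ frontier (Dm Q)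
        = K ∩ frontier (Dm Q) := by
  apply Set.Subset.antisymm
  · rintro z ⟨⟨hz1, hz2⟩, hz3⟩
    refine ⟨?_, hz3⟩
    set K' : Set (EuclideanSpace ℂ (Fin 2)) := ce ⁻¹' K with hK'
    have hK'c : IsCompact K' := ce.toHomeomorph.isCompact_preimage.2 hKc
    have hK's : K' ⊆ closure (Om Q) := by
      intro x hx
      have h1 := hK hx
      rw [closure_Dm] at h1
      have h2 : ce.symm (ce x) ∈ closure (Om Q) := h1
      rwa [ce.symm_apply_apply] at h2
    have hall := hull_all Q K' hK's hK'c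
    have hmem : ce.symm z ∈ K' ∩ frontier (Om Q) := by
      rw [← hall]
      refine ⟨⟨?_, ?_⟩, ?_⟩
      · rw [closure_Dm] at hz1
        exact hz1
      · intro φ hφ hpsh
        have h1 := hz2 (fun w => φ (ce.symm w)) ?_ ?_ (sSup (φ '' K')) ?_
        · exact h1
        · rw [closure_Dm]
          exact hφ.comp ce.symm.continuous.continuousOn fun z hz => hz
        · intro a ha b r hr hd
          have h0 : ∀ (ζ : ℂ) (a b : Fin 2 → ℂ),
              ce.symm (a + ζ • b) = ce.symm a + ζ • ce.symm b := by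
            intro ζ a b
            rw [map_add, map_smul]
          rcases hr.lt_or_eq with hr | hr
          · have h2 := hpsh.2 (ce.symm a) ha (ce.symm b) r hr (by
              intro ζ hζ
              rw [← h0]
              exact hd ζ hζ)
            simp only [← h0] at h2
            exact h2
          · subst hr
            have hpi : (Real.pi : ℝ) ≠ 0 := Real.pi_ne_zero
            simp only [Complex.ofReal_zero, zero_mul, zero_smul, add_zero,
              intervalIntegral.integral_const, sub_zero, smul_eq_mul]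
            rw [inv_mul_cancel_left₀ (by positivity)]
        · intro w hw
          have hw' : ce.symm w ∈ K' := by
            show ce (ce.symm w) ∈ K
            rwa [ce.apply_symm_apply]
          refine le_csSup ?_ ⟨_, hw', rfl⟩
          exact (hK'c.image_of_continuousOn (hφ.mono hK's)).bddAbove
      · rw [frontier_Dm] at hz3
        exact hz3
    have h1 : ce (ce.symm z) ∈ K := hmem.1
    rwa [ce.apply_symm_apply] at h1
  · rintro z ⟨hz1, hz2⟩
    exact ⟨⟨hK hz1, fun φ _ _ c hc => hc z hz1⟩, hz2⟩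

/-- The negation of the preceding statement: For n ≥ 1, if Ω ⊂ ℂⁿ is a bounded, smoothly bounded, pseudoconvex (holomorphically convex) domain whose hulls from continuous psh functions meet ∂Ω only in K∩∂Ω, then every open U ⊇ Ω̄ contains a holomorphically convex open V ⊇ Ω̄. -/
theorem result :
    ¬ (∀ n : ℕ, 1 ≤ n → ∀ Ω : Set (Fin n → ℂ),
    IsOpen Ω → IsConnected Ω → Bornology.IsBounded Ω →
    (∃ ρ : (Fin n → ℂ) → ℝ, ContDiff ℝ ((⊤ : ℕ∞) : WithTop ℕ∞) ρ ∧
        Ω = {z | ρ z < 0} ∧ ∀ z, ρ z = 0 → fderiv ℝ ρ z ≠ 0) →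
    (∀ K ⊆ Ω, IsCompact K →
      IsCompact {z ∈ Ω | ∀ f : (Fin n → ℂ) → ℂ, DifferentiableOn ℂ f Ω →
        ∀ c : ℝ, (∀ w ∈ K, ‖f w‖ ≤ c) → ‖f z‖ ≤ c}) →
    (∀ K ⊆ closure Ω, IsCompact K →
      {z ∈ closure Ω | ∀ φ : (Fin n → ℂ) → ℝ, ContinuousOn φ (closure Ω) →
          (∀ a ∈ Ω, ∀ b : Fin n → ℂ, ∀ r : ℝ, 0 ≤ r →
              (∀ ζ : ℂ, ‖ζ‖ ≤ r → a + ζ • b ∈ Ω) →
              φ a ≤ (2 * Real.pi)⁻¹ * ∫ θ in (0:ℝ)..(2 * Real.pi),
                φ (a + ((r : ℂ) * Complex.exp ((θ : ℂ) * Complex.I)) • b)) →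
          ∀ c : ℝ, (∀ w ∈ K, φ w ≤ c) → φ z ≤ c} ∩ frontier Ω
        = K ∩ frontier Ω) →
    ∀ U : Set (Fin n → ℂ), IsOpen U → closure Ω ⊆ U →
      ∃ V : Set (Fin n → ℂ), IsOpen V ∧ closure Ω ⊆ V ∧ V ⊆ U ∧
        ∀ K ⊆ V, IsCompact K →
          IsCompact {z ∈ V | ∀ f : (Fin n → ℂ) → ℂ, DifferentiableOn ℂ f V →
            ∀ c : ℝ, (∀ w ∈ K, ‖f w‖ ≤ c) → ‖f z‖ ≤ c}) := by
  intro H
  obtain ⟨Q⟩ := exists_cheese
  obtain ⟨V, hV, hcl, hVU, hconv⟩ := H 2 (by norm_num) (Dm Q) (isOpen_Dm Q) (isConnected_Dm Q)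
    (isBounded_Dm Q) ⟨fun z => rho Q (ce.symm z), contDiff_rs Q, rfl, fun z hz => fderiv_rs Q hz⟩
    (fun K hK hKc => holo_convex (isOpen_Dm Q) (isBounded_Dm Q) (psc_Dm Q) hK hKc)
    (fun K hK hKc => hull_Dm Q K hK hKc)
    {z | rho Q (ce.symm z) < a1c / 4}
    (isOpen_lt ((continuous_rho Q).comp ce.symm.continuous) continuous_const)
    (by
      rw [closure_Dm]
      intro z hz
      have h0 : ce.symm z ∈ closure (Om Q) := hz
      rw [closure_Om] at h0
      have h1 := (mem_le Q (ce.symm z) 0).1 h0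
      have h2 : a1c = 1 / 200000 := rfl
      show rho Q (ce.symm z) < a1c / 4
      rw [h2]
      linarith)
  have hclV : closure (Om Q) ⊆ ce ⁻¹' V := by
    intro x hx
    apply hcl
    rw [closure_Dm]
    show ce.symm (ce x) ∈ closure (Om Q)
    rwa [ce.symm_apply_apply]
  refine no_hc Q (V := ce ⁻¹' V) (hV.preimage ce.continuous) hclV ?_ ?_
  · intro x hx
    have h1 : rho Q (ce.symm (ce x)) < a1c / 4 := hVU hx
    rwa [ce.symm_apply_apply] at h1
  · have hK := hconv (closure (Dm Q)) hcl (by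
      rw [closure_Dm]
      exact ce.symm.toHomeomorph.isCompact_preimage.2 (isCompact_closure_Om Q))
    have hK2 := ce.toHomeomorph.isCompact_preimage.2 hK
    have hset : {z | z ∈ ce ⁻¹' V ∧ ∀ f : E2 → ℂ, DifferentiableOn ℂ f (ce ⁻¹' V) → ∀ c : ℝ,
        (∀ w ∈ closure (Om Q), ‖f w‖ ≤ c) → ‖f z‖ ≤ c} =
        ce.toHomeomorph ⁻¹' {z | z ∈ V ∧ ∀ f : (Fin 2 → ℂ) → ℂ, DifferentiableOn ℂ f V →
          ∀ c : ℝ, (∀ w ∈ closure (Dm Q), ‖f w‖ ≤ c) → ‖f z‖ ≤ c} := by
      ext x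
      constructor
      · rintro ⟨h1, h2⟩
        refine ⟨h1, fun f hf c hc => ?_⟩
        have h3 := h2 (fun y => f (ce y)) (hf.comp ce.differentiable.differentiableOn
          fun y hy => hy) c (by
            intro w hw
            refine hc (ce w) ?_
            rw [closure_Dm]
            show ce.symm (ce w) ∈ closure (Om Q)
            rwa [ce.symm_apply_apply])
        exact h3
      · rintro ⟨h1, h2⟩
        refine ⟨h1, fun f hf c hc => ?_⟩
        have h3 := h2 (fun y => f (ce.symm y)) (hf.comp ce.symm.differentiable.differentiableOn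
          (by
            intro y hy
            show ce (ce.symm y) ∈ V
            rwa [ce.apply_symm_apply])) c (by
            intro w hw
            refine hc (ce.symm w) ?_
            rw [closure_Dm] at hw
            exact hw)
        have h4 : ce.symm (ce.toHomeomorph x) = x := ce.symm_apply_apply x
        simp only [h4] at h3
        exact h3
    rw [hset]
    exact hK2

end Pool.Agent.S06588
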