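import Pool.Statements.S06612
import Pool.Agent.Helper499.Sep

set_option autoImplicit false
open Pool Pool.MP_eebf92_an

namespace Pool.Agent.S06612

/-- The negation of the preceding statement: For every k in ℕ∪{∞} with k ≥ 1 and every real Banach space with an equivalent norm that is C^k away from 0, every convex Lipschitz real function is uniformly ε-approximable by a convex C^k function, for every ε > 0. -/
theorem result :
    ¬ (∀ (k : ℕ∞), 1 ≤ k →
      ∀ (X : Type) [NormedAddCommGroup X] [NormedSpace ℝ X] [CompleteSpace X],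
        (∃ N : X → ℝ,
            (∀ x y : X, N (x + y) ≤ N x + N y) ∧
            (∀ (c : ℝ) (x : X), N (c • x) = |c| * N x) ∧
            (∃ a b : ℝ, 0 < a ∧ 0 < b ∧ ∀ x : X, a * ‖x‖ ≤ N x ∧ N x ≤ b * ‖x‖) ∧
            ContDiffOn ℝ (k : WithTop ℕ∞) N ({0}ᶜ : Set X)) →
        ∀ f : X → ℝ, ConvexOn ℝ Set.univ f → (∃ K, LipschitzWith K f) →
          ∀ ε : ℝ, 0 < ε →
            ∃ φ : X → ℝ, ConvexOn ℝ Set.univ φ ∧ ContDiff ℝ (k : WithTop ℕ∞) φ ∧
              ∀ x : X, |f x - φ x| ≤ ε) := by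
  intro H
  obtain ⟨N, ⟨a, b, ha, hb, hN⟩, hsm⟩ := Pool.Agent.Helper499.XX_smooth
  obtain ⟨φ, hφc, hφs, hφ⟩ := H ⊤ le_top Pool.Agent.Helper499.XX
    ⟨fun x => N x, fun x y => map_add_le_add N x y,
      fun c x => by
        show N (c • x) = |c| * N x
        rw [map_smul_eq_mul, Real.norm_eq_abs],
      ⟨a, b, ha, hb, hN⟩, hsm⟩
    Pool.Agent.Helper499.ff Pool.Agent.Helper499.ff_convex ⟨_, Pool.Agent.Helper499.ff_lip⟩ 1 one_pos
  have h2 : ContDiff ℝ 2 φ := contDiff_infty.1 hφs 2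
  exact Pool.Agent.Helper499.ff_no_approx φ h2 hφc 1 hφ

end Pool.Agent.S06612
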