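import Pool.Statements.S06628
import Pool.Agent.W766.OverSat

set_option autoImplicit false
open Pool Pool.MP_efa496_an

namespace Pool.Agent.S06628

open Pool.Agent.Results.MP_efa496_an.OverSaturation

/-- The negation of the preceding statement: For G a complex domain and P a Hausdorff locally convex uniformly stable ℂ[z]-module of holomorphic ℂ^q-valued functions with condition (3), every divisorial submodule of local rank k is saturated w.r.t. every f in P. -/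
theorem result :
    ¬ (∀ (G : Set ℂ), IsOpen G → IsConnected G →
 ∀ (q : ℕ), 1 ≤ q →
 ∀ (P : Submodule ℂ (ℂ → Fin q → ℂ)),
 (∀ f ∈ P, DifferentiableOn ℂ f G ∧ ∀ w ∉ G, f w = 0) →
 (∀ (p : Polynomial ℂ), ∀ f ∈ P, (fun w => p.eval w • f w) ∈ P) →
 ∀ (τ : TopologicalSpace ↥P),
 @T2Space ↥P τ → @IsTopologicalAddGroup ↥P τ _ → @ContinuousSMul ℂ ↥P _ _ τ →
 (∀ V ∈ @nhds ↥P τ 0, ∃ U ∈ @nhds ↥P τ 0, U ⊆ V ∧
   ∀ x ∈ U, ∀ y ∈ U, ∀ t : ℝ, 0 ≤ t → t ≤ 1 → (t : ℂ) • x + ((1 - t : ℝ) : ℂ) • y ∈ U) →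
 (∀ (p : Polynomial ℂ) (g : ↥P → ↥P),
   (∀ x : ↥P, ((g x : ↥P) : ℂ → Fin q → ℂ) = fun w => p.eval w • (x : ℂ → Fin q → ℂ) w) →
   @Continuous ↥P ↥P τ τ g) →
 (∀ V ∈ @nhds ↥P τ 0, ∃ U ∈ @nhds ↥P τ 0, ∀ (c : ℂ), ∀ x ∈ U, ∀ g : ℂ → Fin q → ℂ,
   DifferentiableOn ℂ g G → (∀ w ∉ G, g w = 0) →
   (∀ w ∈ G, (x : ℂ → Fin q → ℂ) w = (w - c) • g w) →
   ∃ y ∈ V, (y : ℂ → Fin q → ℂ) = g) →
 (∀ (n : ℕ) (F : Fin n → ↥P),
   (∀ g : ℂ → Fin q → ℂ, DifferentiableOn ℂ g G → (∀ w ∉ G, g w = 0) →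
     (∀ w ∈ G, ∀ i, ‖g w i‖ ≤ ∑ m, ‖(F m : ℂ → Fin q → ℂ) w i‖) → g ∈ P) ∧
   (∀ V ∈ @nhds ↥P τ 0, ∃ r : ℝ, 0 < r ∧ ∀ a : ℂ, r ≤ ‖a‖ → ∀ x : ↥P,
     (∀ w ∈ G, ∀ i, ‖(x : ℂ → Fin q → ℂ) w i‖ ≤ ∑ m, ‖(F m : ℂ → Fin q → ℂ) w i‖) →
     ∃ y ∈ V, x = a • y)) →
 ∀ (I : Submodule ℂ (ℂ → Fin q → ℂ)), I ≤ P →
 (∀ (p : Polynomial ℂ), ∀ f ∈ I, (fun w => p.eval w • f w) ∈ I) →
 (∀ f ∈ P, (∀ c ∈ G, ∃ (n : ℕ) (u : Fin n → ℂ → Fin q → ℂ) (h : Fin n → ℂ → ℂ),
     (∀ m, u m ∈ I) ∧ (∀ m, AnalyticAt ℂ (h m) c) ∧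
     ∀ᶠ w in nhds c, f w = ∑ m, h m w • u m w) → f ∈ I) →
 ∀ (k : ℕ),
 (∃ c ∈ G, ∃ (u : Fin k → ℂ → Fin q → ℂ) (J : Fin k → Fin q), (∀ s, u s ∈ I) ∧ StrictMono J ∧
   ¬ (∀ᶠ w in nhds c, (Matrix.of fun r s => u s w (J r)).det = 0)) →
 (∀ c ∈ G, ∀ (r : ℕ) (u : Fin r → ℂ → Fin q → ℂ) (J : Fin r → Fin q), (∀ s, u s ∈ I) →
   StrictMono J → ¬ (∀ᶠ w in nhds c, (Matrix.of fun a s => u s w (J a)).det = 0) → r ≤ k) →
 ∀ f ∈ P, ∀ V ∈ @nhds ↥P τ 0, ∀ Φ : ℂ → ℂ, DifferentiableOn ℂ Φ G →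
 (∀ z ∈ G, ∀ (u : Fin k → ↥P) (J : Fin k → Fin q), (∀ s, u s ∈ V) →
   (∀ s, (u s : ℂ → Fin q → ℂ) ∈ I) → StrictMono J →
   (Matrix.of fun r s => (u s : ℂ → Fin q → ℂ) z (J r)).det ≠ 0 →
   ‖Φ z‖ ≤ 1 + ∑ s, ‖((Matrix.of fun r s' => (u s' : ℂ → Fin q → ℂ) z (J r)).updateCol s
       (fun r => f z (J r))).det / (Matrix.of fun r s' => (u s' : ℂ → Fin q → ℂ) z (J r)).det‖) →
 ∃ C : ℝ, ∀ z ∈ G, ‖Φ z‖ ≤ C) := by
  intro h
  apply Pool.Agent.W766.OverSat.not_over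
  intro f V hV Φ hΦ hM
  let τ : TopologicalSpace (wspace wt) := wtop wt
  have hp := hws wt
  have hadd := hp.topologicalAddGroup
  have hsm := hp.continuousSMul
  have key := h Set.univ isOpen_univ isConnected_univ 2 (by norm_num) (wspace wt)
    (fun f hf => ⟨hf.1.differentiableOn, fun w hw => absurd (Set.mem_univ w) hw⟩)
    (fun p f hf => (wmul wt wt_H0 wt_H2 p ⟨f, hf⟩).2)
    τ (w_t2 wt) hadd hsm
    (by
      intro V hV
      obtain ⟨s, r, hr, hs⟩ := (hp.mem_nhds_iff 0 V).1 hV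
      refine ⟨(s.sup (fam wt)).ball 0 r, (hp.mem_nhds_iff 0 _).2 ⟨s, r, hr, subset_refl _⟩, hs, ?_⟩
      intro x hx y hy t ht0 ht1
      rw [Seminorm.mem_ball_zero] at hx hy ⊢
      have h1 : (s.sup (fam wt)) ((t : ℂ) • x + ((1 - t : ℝ) : ℂ) • y) ≤
          t * (s.sup (fam wt)) x + (1 - t) * (s.sup (fam wt)) y := by
        refine (map_add_le_add _ _ _).trans ?_
        rw [map_smul_eq_mul, map_smul_eq_mul, Complex.norm_real, Complex.norm_real,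
          Real.norm_of_nonneg ht0, Real.norm_of_nonneg (by linarith)]
      refine lt_of_le_of_lt h1 ?_
      rcases eq_or_lt_of_le ht0 with h0 | h0
      · rw [← h0]; simpa using hy
      · nlinarith)
    (by
      intro p g hg
      have : g = wmul wt wt_H0 wt_H2 p := by
        funext x
        apply Subtype.ext
        rw [hg]
        rfl
      rw [this]
      exact WithSeminorms.continuous_of_isBounded hp hp (wmul wt wt_H0 wt_H2 p)
        (wmul_bounded wt wt_H0 wt_H2 p))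
    (by
      intro V hV
      obtain ⟨U, hU, hst⟩ := wstable wt wt_H0 _ wt_H1 wt_H2 V hV
      refine ⟨U, hU, ?_⟩
      intro c x hx g hg _ hxg
      exact hst c x hx g (differentiableOn_univ.1 hg) (fun z => (hxg z (Set.mem_univ z)).symm))
    (by
      intro n F
      obtain ⟨h1, h2⟩ := wcond3 wt wt_H0 wt_H2 n F
      refine ⟨?_, ?_⟩
      · intro g hg _ hb
        obtain ⟨f', hf'⟩ := h1 g (differentiableOn_univ.1 hg) (fun z i => hb z (Set.mem_univ z) i)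
        rw [← hf']
        exact f'.2
      · intro V hV
        obtain ⟨r, hr, hr2⟩ := (h2 hV).exists_pos
        refine ⟨r, hr, ?_⟩
        intro a ha x hx
        have h3 := hr2 a ha
        obtain ⟨y, hy, hyx⟩ := h3 (show x ∈ _ from fun z i => hx z (Set.mem_univ z) i)
        exact ⟨y, hy, hyx.symm⟩)
    (II.map (wspace wt).subtype)
    (by
      rintro _ ⟨x, -, rfl⟩
      exact x.2)
    (by
      rintro p _ ⟨x, hx, rfl⟩
      exact ⟨wmul wt wt_H0 wt_H2 p x, II_sub p x hx, rfl⟩)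
    (by
      intro f hf hloc
      refine ⟨⟨f, hf⟩, (II_div ⟨f, hf⟩).2 ?_, rfl⟩
      intro lam
      obtain ⟨n, u, g, hu, hg, hev⟩ := hloc lam (Set.mem_univ lam)
      choose u' hu' huu' using hu
      refine ⟨n, g, u', hg, hu', ?_⟩
      filter_upwards [hev] with z hz
      rw [show PP.ev ⟨f, hf⟩ z = f z from rfl, hz]
      apply Finset.sum_congr rfl
      intro m _
      rw [← huu' m]
      rfl)
    2
    (by
      refine ⟨1 / 2, Set.mem_univ _, ![e1, e2], id, ?_, strictMono_id, ?_⟩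
      · intro s
        fin_cases s
        · exact ⟨E1, E1_mem, rfl⟩
        · exact ⟨E2, E2_mem, rfl⟩
      · intro hev
        have h1 := hev.self_of_nhds
        have h2 : Complex.sin ((Real.pi : ℂ) * (1 / 2)) = 1 := by
          have : (Real.pi : ℂ) * (1 / 2) = ((Real.pi / 2 : ℝ) : ℂ) := by push_cast; ring
          rw [this, ← Complex.ofReal_sin, Real.sin_pi_div_two, Complex.ofReal_one]
        rw [Matrix.det_fin_two] at h1
        simp only [Matrix.of_apply, e1, e2, id, Matrix.cons_val_zero, Matrix.cons_val_one,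
          if_true, h2] at h1
        norm_num at h1)
    (by
      intro c _ r u J _ hJ _
      simpa using Fintype.card_le_of_injective J hJ.injective)
    f.1 f.2 V hV Φ (hΦ.differentiableOn)
    (by
      intro z _ u J huV huI hJ hdet
      have h1 := hM z
      let J' : Fin 2 ↪o Fin 2 := OrderEmbedding.ofStrictMono J hJ
      have h2 : M PP II 2 f V z ≤ 1 + ENNReal.ofReal
          (cramerSum (fun s => PP.ev (u s)) (PP.ev f) J' z) := by
        unfold M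
        gcongr
        apply sInf_le
        refine ⟨u, J', fun s => ⟨?_, huV s⟩, hdet, rfl⟩
        obtain ⟨x, hx, hxu⟩ := huI s
        have : x = u s := Subtype.ext hxu
        rw [← this]
        exact hx
      have h3 : 0 ≤ cramerSum (fun s => PP.ev (u s)) (PP.ev f) J' z :=
        Finset.sum_nonneg (fun _ _ => norm_nonneg _)
      have h4 := h1.trans h2
      rw [← ENNReal.ofReal_one, ← ENNReal.ofReal_add zero_le_one h3,
        ENNReal.ofReal_le_ofReal_iff (by positivity)] at h4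
      exact h4)
  obtain ⟨C, hC⟩ := key
  exact ⟨C, fun z => hC z (Set.mem_univ z)⟩

end Pool.Agent.S06628
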