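import Pool.Statements.S06646
import Pool.Agent.Results.MP_f04b5a_an.ArithmeticMean

set_option autoImplicit false
open Pool Pool.MP_f04b5a_an

namespace Pool.Agent.S06646

/-- The negation of the preceding statement: For every α with 0<α≤1/(1+e^π) there is N such that for all normalized univalent f, g on the unit disk, αf+(1−α)g takes each complex value at most N times in the disk. -/
theorem result :
    ¬ (∀ α : ℝ, 0 < α → α ≤ 1 / (1 + Real.exp Real.pi) →
      ∃ N : ℕ, ∀ f g : ℂ → ℂ,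
        (DifferentiableOn ℂ f (Metric.ball (0 : ℂ) 1) ∧ Set.InjOn f (Metric.ball (0 : ℂ) 1) ∧
          f 0 = 0 ∧ deriv f 0 = 1) →
        (DifferentiableOn ℂ g (Metric.ball (0 : ℂ) 1) ∧ Set.InjOn g (Metric.ball (0 : ℂ) 1) ∧
          g 0 = 0 ∧ deriv g 0 = 1) →
        ∀ w : ℂ,
          {z : ℂ | z ∈ Metric.ball (0 : ℂ) 1 ∧
              (α : ℂ) * f z + (1 - (α : ℂ)) * g z = w}.encard ≤ (N : ℕ∞)) := by
  intro h
  have he : (0 : ℝ) < Real.exp Real.pi := Real.exp_pos _
  have h0 : (0 : ℝ) < 1 / (1 + Real.exp Real.pi) := by positivity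
  have h1 : 1 / (1 + Real.exp Real.pi) < 1 := by
    rw [div_lt_one (by positivity)]
    linarith
  obtain ⟨N, hN⟩ := h _ h0 le_rfl
  obtain ⟨f, g, hf, hg, hv⟩ := Pool.Agent.Results.MP_f04b5a_an.ArithmeticMean.result _ h0 h1
  have h2 : Pool.Agent.Helper506.Means.valence (fun z => ((1 / (1 + Real.exp Real.pi) : ℝ) : ℂ) * f z +
      (1 - ((1 / (1 + Real.exp Real.pi) : ℝ) : ℂ)) * g z) ≤ (N : ℕ∞) :=
    iSup_le fun w => hN f g hf hg w
  rw [hv] at h2
  exact absurd (top_le_iff.1 h2) (ENat.coe_ne_top N)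

end Pool.Agent.S06646
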