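import Pool.Statements.S06672
import Pool.Agent.Results.MP_f23f32_an.IdempotentUltrafilter

set_option autoImplicit false
open Pool Pool.MP_f23f32_an

namespace Pool.Agent.S06672

open Pool.Agent.Results.MP_f23f32_an.IdempotentUltrafilter
open scoped InnerProductSpace

theorem result :
    ¬ (∀ (H : Type) [NormedAddCommGroup H] [InnerProductSpace ℂ H] [CompleteSpace H]
      (M A : VonNeumannAlgebra H), A ≤ M →
      (∀ x ∈ M, (∀ a ∈ A, a * x = x * a) → x ∈ A) →
      ∀ ψ : (H →L[ℂ] H) →ₗ[ℂ] (H →L[ℂ] H),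
        (∀ x ∈ M, ψ x ∈ M) →
        (∀ x ∈ M, ‖ψ x‖ ≤ ‖x‖) →
        (∀ x ∈ M, ψ (ψ x) = ψ x) →
        (∀ a ∈ A, ∀ x ∈ M,
          a * ψ x ∈ ψ '' (M : Set (H →L[ℂ] H)) ∧ ψ x * a ∈ ψ '' (M : Set (H →L[ℂ] H))) →
        ∀ x ∈ M, ∀ y ∈ M, ∀ z ∈ M,
          (1 / 2 : ℂ) • (ψ x * star (ψ y) * ψ z + ψ z * star (ψ y) * ψ x)
            ∈ ψ '' (M : Set (H →L[ℂ] H))) := by
  intro hall
  obtain ⟨ω, hω⟩ :=
    Pool.Agent.Results.MP_f23f32_an.IdempotentUltrafilter.exists_idem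
  have key := hall L2 algM algA (fun x _ => mem_algM x)
    (fun x _ hx => (mem_algA_iff x).2 fun g => hx (rho g) (rho_mem_algA g))
    (psi ω) (fun x _ => mem_algM _) (fun x _ => norm_psiFun_le ω x) (fun x _ => psi_psi ω hω x)
    (fun a ha x _ => by
      have ha' := (mem_algA_iff a).1 ha
      exact ⟨⟨a * x, mem_algM _, psi_mul_left ω a x ha'⟩,
        ⟨x * a, mem_algM _, psi_mul_right ω a x ha'⟩⟩)
    1 (mem_algM 1) B (mem_algM B) B (mem_algM B)
  rw [psi_one, psi_B ω hω] at key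
  obtain ⟨y, _, hy⟩ := key
  have h2 : psi ω ((1 / 2 : ℂ) • (1 * star B * B + B * star B * 1)) =
      (1 / 2 : ℂ) • (1 * star B * B + B * star B * 1) := by
    rw [← hy, psi_psi ω hω]
  rw [one_mul, mul_one] at h2
  have hhalf : (starRingEnd ℂ) (1 / 2 : ℂ) = 1 / 2 := by
    rw [map_div₀, map_one, map_ofNat]
  have h3 := inner_psi_of_diag ω ((1 / 2 : ℂ) • (star B * B + B * star B)) 1 (by
    intro n
    have e1 := inner_BstarB_succ n
    have e2 := inner_BBstar (n + 1)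
    rw [ContinuousLinearMap.smul_apply, ContinuousLinearMap.add_apply, inner_smul_left,
      inner_add_left, e1, e2, hhalf]
    norm_num)
  rw [h2, ContinuousLinearMap.smul_apply, ContinuousLinearMap.add_apply, inner_smul_left,
    inner_add_left, inner_BstarB_zero, inner_BBstar 0, hhalf] at h3
  norm_num at h3

end Pool.Agent.S06672
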