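import Pool.Statements.S06673
import Pool.Agent.Helper937.James13

set_option autoImplicit false
open Filter Topology
open Pool Pool.MP_f24657_an

namespace Pool.Agent.S06673

lemma mem_vset {X : Type*} [LinearOrder X] (f : X → ℝ) (s : ℝ) :
    (∃ n : ℕ, ∃ α : Fin (n + 1) → X, StrictMono α ∧
      s = ∑ i : Fin n, (f (α i.succ) - f (α i.castSucc)) ^ 2) ↔
    ∃ (a : X) (l : List X), (a :: l).Pairwise (· < ·) ∧ s = LJ.vs f a l := by
  constructor
  · rintro ⟨n, α, hα, rfl⟩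
    refine ⟨α 0, List.ofFn (fun i : Fin n => α i.succ), LJ.chain_of_fin α hα, ?_⟩
    rw [LJ.vs_ofFn]
    simp only [sq_abs]
  · rintro ⟨a, l, hl, rfl⟩
    obtain ⟨α, hα, e⟩ := LJ.exists_fin f a l hl
    refine ⟨l.length, α, hα, ?_⟩
    rw [e]
    simp only [sq_abs]

/-- The long James space J(ω₁) of continuous functions on [0,ω₁] vanishing at ω₁ with finite square variation admits an equivalent norm having two-sided directional derivatives at every nonzero point in every direction. -/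
theorem result :
    ∀ ω : Ordinal.{0}, ω = Cardinal.ord (Cardinal.aleph.{0} 1) →
    ∀ V : ((↥(Set.Iic ω)) → ℝ) → Set ℝ,
      V = (fun f => {s : ℝ | ∃ n : ℕ, ∃ α : Fin (n + 1) → ↥(Set.Iic ω),
            StrictMono α ∧
            s = ∑ i : Fin n, (f (α i.succ) - f (α i.castSucc)) ^ 2}) →
    ∀ J : Set ((↥(Set.Iic ω)) → ℝ),
      J = {f | Continuous f ∧ f ⟨ω, Set.mem_Iic.mpr (le_refl ω)⟩ = 0 ∧ BddAbove (V f)} →
    ∃ p : ((↥(Set.Iic ω)) → ℝ) → ℝ,
      (∀ f g, f ∈ J → g ∈ J → p (f + g) ≤ p f + p g) ∧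
      (∀ (a : ℝ) f, f ∈ J → p (a • f) = |a| * p f) ∧
      (∃ c C : ℝ, 0 < c ∧ 0 < C ∧ ∀ f, f ∈ J →
          c * Real.sqrt (sSup (V f)) ≤ p f ∧ p f ≤ C * Real.sqrt (sSup (V f))) ∧
      (∀ f, f ∈ J → f ≠ 0 → ∀ h, h ∈ J → ∃ d : ℝ,
          Tendsto (fun t : ℝ => (p (f + t • h) - p f) / t) (𝓝[≠] 0) (𝓝 d)) := by
  intro ω _ V hV J hJ
  letI : SuccOrder (Set.Iic ω) := SuccOrder.ofLinearWellFoundedLT (Set.Iic ω)
  have hVs : ∀ f, V f = {v | ∃ (a : Set.Iic ω) (l : List (Set.Iic ω)),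
      (a :: l).Pairwise (· < ·) ∧ v = LJ.vs f a l} := by
    intro f
    rw [hV]
    ext s
    exact mem_vset f s
  have hbdd : ∀ f, BddAbove (V f) ↔ LJ.BV f := by
    intro f
    rw [hVs f]
    constructor
    · rintro ⟨B, hB⟩
      exact ⟨B, fun a l hl => hB ⟨a, l, hl, rfl⟩⟩
    · rintro ⟨B, hB⟩
      refine ⟨B, ?_⟩
      rintro s ⟨a, l, hl, rfl⟩
      exact hB a l hl
  have hsup : ∀ f, sSup (V f) = LJ.VV f := by
    intro f
    rw [hVs f]
    rfl
  have hJ' : ∀ f, f ∈ J ↔ LJ.IsJ f := by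
    intro f
    rw [hJ]
    constructor
    · rintro ⟨h1, h2, h3⟩
      exact ⟨h1, h2, (hbdd f).1 h3⟩
    · intro h
      exact ⟨h.cont, h.top, (hbdd f).2 h.bv⟩
  obtain ⟨N, h1, h2, ⟨c, C, hc, hC, h3⟩, h4⟩ := LJ.final_norm (X := Set.Iic ω)
  refine ⟨N, ?_, ?_, ⟨c, C, hc, hC, ?_⟩, ?_⟩
  · intro f g hf hg
    exact h1 f g ((hJ' f).1 hf) ((hJ' g).1 hg)
  · intro a f hf
    exact h2 a f ((hJ' f).1 hf)
  · intro f hf
    have hf' := (hJ' f).1 hf
    rw [hsup f, ← LJ.sSup_jset hf'.bv]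
    exact h3 f hf'
  · intro f hf hne h hh
    have hf' := (hJ' f).1 hf
    have hh' := (hJ' h).1 hh
    have hne' : ∃ x, f x ≠ 0 := by
      by_contra hcon
      push Not at hcon
      exact hne (funext hcon)
    obtain ⟨L, _, _, hL⟩ := h4 f hf' hne'
    refine ⟨L h, ?_⟩
    have hd := hL h hh'
    rw [hasDerivAt_iff_tendsto_slope_zero] at hd
    refine hd.congr ?_
    intro t
    simp only [zero_add, smul_eq_mul, zero_mul, add_zero]
    rw [div_eq_inv_mul]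
    rfl

end Pool.Agent.S06673
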