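import Pool.Statements.S06682
import Pool.Agent.Results.MP_f2ff95_an.Disproof

set_option autoImplicit false
open MeasureTheory
open Pool Pool.MP_f2ff95_an

namespace Pool.Agent.S06682

open Pool.Agent.Results.MP_f2ff95_an.Disproof in
lemma mem_closure_iff_axis {z : ℂ} (hz : z ∈ Metric.ball (0 : ℂ) 1) :
    z ∈ closure ((fun x : ℝ => (x : ℂ)) '' Set.Ico 0 1) ↔
      z ∈ (fun x : ℝ => (x : ℂ)) '' Set.Ico (0:ℝ) 1 := by
  constructor
  · intro h
    have hsub : closure ((fun x : ℝ => (x : ℂ)) '' Set.Ico 0 1) ⊆ {z : ℂ | z.im = 0 ∧ 0 ≤ z.re} := by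
      apply closure_minimal
      · rintro _ ⟨x, hx, rfl⟩
        exact ⟨by simp, by simpa using hx.1⟩
      · exact (isClosed_eq Complex.continuous_im continuous_const).inter
          (isClosed_le continuous_const Complex.continuous_re)
    obtain ⟨h1, h2⟩ := hsub h
    refine ⟨z.re, ⟨h2, ?_⟩, ?_⟩
    · have : ‖z‖ < 1 := by simpa using hz
      exact (Complex.re_le_norm z).trans_lt this
    · apply Complex.ext
      · simp
      · simp [h1]
  · exact fun h => subset_closure h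

open Pool.Agent.Results.MP_f2ff95_an.Disproof in
lemma sdiff_eq_axis : Metric.ball (0 : ℂ) 1 \ closure ((fun x : ℝ => (x : ℂ)) '' Set.Ico 0 1) =
    Metric.ball (0 : ℂ) 1 \ onAxis (Set.Ico 0 1) := by
  ext z
  constructor
  · intro hz
    exact ⟨hz.1, fun h => hz.2 ((mem_closure_iff_axis hz.1).2 h)⟩
  · intro hz
    exact ⟨hz.1, fun h => hz.2 ((mem_closure_iff_axis hz.1).1 h)⟩

open Pool.Agent.Results.MP_f2ff95_an.Disproof in
lemma w0_volume_lt : volume (levelSet w0 (24/25) (9/10)) < ENNReal.ofReal (2 * Real.pi) := by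
  have hpi := Real.pi_pos
  have hsub : levelSet w0 (24/25) (9/10) ⊆ Set.Ico 0 (2 * Real.pi) \ Set.Ioo (Real.pi / 2) (3 * Real.pi / 2) := by
    rintro θ ⟨h1, h2⟩
    refine ⟨h1, fun h3 => ?_⟩
    have hcos : Real.cos θ ≤ 0 := by
      apply Real.cos_nonpos_of_pi_div_two_le_of_le h3.1.le
      have := h3.2
      linarith
    have hcc : circleMap 0 (24/25) θ = circleMap 0 cc θ := rfl
    rw [hcc] at h2
    have hn := circ_norm θ
    have hre := circ_re θ
    have hs : (1:ℝ) ≤ Real.sqrt (2 * (cc - cc * Real.cos θ)) / (1 - cc) := by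
      have hc : cc = 24/25 := rfl
      rw [le_div_iff₀ (by rw [hc]; norm_num)]
      apply Real.le_sqrt_of_sq_le
      rw [hc]
      nlinarith
    have h4 : Real.pi / 4 ≤ Real.arctan (Real.sqrt (2 * (cc - cc * Real.cos θ)) / (1 - cc)) := by
      rw [← Real.arctan_one]
      exact Real.arctan_strictMono.monotone hs
    have h5 : (1:ℝ)/2 ≤ s0 (circleMap 0 cc θ) := by
      unfold s0
      rw [hn, hre]
      calc (1:ℝ)/2 = 2 / Real.pi * (Real.pi / 4) := by field_simp; norm_num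
        _ ≤ _ := by gcongr
    unfold w0 at h2
    linarith
  refine (measure_mono hsub).trans_lt ?_
  have hsub2 : Set.Ioo (Real.pi / 2) (3 * Real.pi / 2) ⊆ Set.Ico 0 (2 * Real.pi) := by
    intro θ h
    exact ⟨by linarith [h.1], by linarith [h.2]⟩
  rw [measure_sdiff hsub2 measurableSet_Ioo.nullMeasurableSet (by simp)]
  rw [Real.volume_Ico, Real.volume_Ioo, ← ENNReal.ofReal_sub _ (by linarith)]
  rw [ENNReal.ofReal_lt_ofReal_iff (by positivity)]
  linarith

open Pool.Agent.Results.MP_f2ff95_an.Disproof in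
lemma uu_submean_ereal {z : ℂ} (hz : z ∈ Metric.ball (0 : ℂ) 1) :
    ∃ ε : ℝ, 0 < ε ∧ ∀ ρ : ℝ, 0 < ρ → ρ < ε →
      ((uu z : ℝ) : EReal) ≤ -((((ENNReal.ofReal (2 * Real.pi))⁻¹ *
            ∫⁻ θ in Set.Ioc 0 (2 * Real.pi),
              (-((uu (z + (ρ : ℂ) * Complex.exp ((θ : ℂ) * Complex.I)) : ℝ) : EReal)).toENNReal) : ENNReal) : EReal) := by
  have hpi := Real.pi_pos
  have hz1 : ‖z‖ < 1 := by simpa using hz
  obtain ⟨δ, hδ, h⟩ := uu_subMean hz1
  refine ⟨min δ (1 - ‖z‖), lt_min hδ (by linarith), fun ρ h0 h1 => ?_⟩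
  obtain ⟨hint, hle⟩ := h ρ h0 (h1.trans_le (min_le_left _ _))
  have h2 : ρ < 1 - ‖z‖ := h1.trans_le (min_le_right _ _)
  have hcm : ∀ θ : ℝ, z + (ρ : ℂ) * Complex.exp ((θ : ℂ) * Complex.I) = circleMap z ρ θ := fun θ => rfl
  have hnonpos : ∀ θ : ℝ, uu (circleMap z ρ θ) ≤ 0 := by
    intro θ
    apply uu_nonpos
    have h3 : circleMap z ρ θ = z + circleMap 0 ρ θ := by simp [circleMap]
    rw [h3]
    have h4 : ‖circleMap 0 ρ θ‖ = ρ := by rw [norm_circleMap_zero, abs_of_pos h0]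
    have := norm_add_le z (circleMap 0 ρ θ)
    linarith
  have hint2 : Integrable (fun θ => -uu (circleMap z ρ θ)) (volume.restrict (Set.Ioc 0 (2 * Real.pi))) := by
    have h5 : IntervalIntegrable (fun θ => uu (circleMap z ρ θ)) volume 0 (2 * Real.pi) := hint
    rw [intervalIntegrable_iff_integrableOn_Ioc_of_le (by positivity)] at h5
    exact h5.neg
  have hlin : ∫⁻ θ in Set.Ioc 0 (2 * Real.pi),
              (-((uu (z + (ρ : ℂ) * Complex.exp ((θ : ℂ) * Complex.I)) : ℝ) : EReal)).toENNReal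
      = ENNReal.ofReal (∫ θ in Set.Ioc 0 (2 * Real.pi), -uu (circleMap z ρ θ)) := by
    rw [ofReal_integral_eq_lintegral_ofReal hint2 (Filter.Eventually.of_forall (fun θ => by
      simpa using hnonpos θ))]
    apply lintegral_congr
    intro θ
    rw [hcm, ← EReal.coe_neg, EReal.toENNReal_of_ne_top (EReal.coe_ne_top _), EReal.toReal_coe]
  rw [hlin, ← ENNReal.ofReal_inv_of_pos (by positivity), ← ENNReal.ofReal_mul (by positivity)]
  have hnn : 0 ≤ (2 * Real.pi)⁻¹ * ∫ θ in Set.Ioc 0 (2 * Real.pi), -uu (circleMap z ρ θ) := by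
    apply mul_nonneg (by positivity)
    apply integral_nonneg
    intro θ
    simpa using hnonpos θ
  rw [EReal.coe_ennreal_ofReal, max_eq_left hnn, ← EReal.coe_neg, EReal.coe_le_coe_iff]
  refine hle.trans (le_of_eq ?_)
  rw [Real.circleAverage, intervalIntegral.integral_of_le (by positivity), integral_neg, smul_eq_mul]
  ring

open Pool.Agent.Results.MP_f2ff95_an.Disproof in
/-- The negation of the preceding statement: For E a finite union of intervals in [0,1), u_E the bounded harmonic function on the disk minus E (−1 on E, 0 on the circle), admissible r,K: every subharmonic u≤0 with min on each circle ∣z∣=t∈E at most −1 has level-set length ≥ that of u_E, with equality only for rotations of u_E. -/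
theorem result :
    ¬ (∀ (E : Set ℝ), E ⊆ Set.Ico 0 1 →
    (∃ S : Finset (Set ℝ), (∀ I ∈ S, I.OrdConnected) ∧ E = ⋃₀ (S : Set (Set ℝ))) →
    ∀ (F : Set ℂ), F = closure ((fun x : ℝ => (x : ℂ)) '' E) →
    ∀ (uE : ℂ → ℝ),
      ContDiffOn ℝ 2 uE (Metric.ball (0 : ℂ) 1 \ F) →
      (∀ z ∈ Metric.ball (0 : ℂ) 1 \ F,
        iteratedFDeriv ℝ 2 uE z ![(1 : ℂ), 1]
          + iteratedFDeriv ℝ 2 uE z ![Complex.I, Complex.I] = 0) →
      (∃ M : ℝ, ∀ z ∈ Metric.ball (0 : ℂ) 1, |uE z| ≤ M) →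
      (∀ z ∈ Metric.ball (0 : ℂ) 1 ∩ F, uE z = -1) →
      (∀ ζ ∈ Metric.ball (0 : ℂ) 1 ∩ F,
        Filter.Tendsto uE (nhdsWithin ζ (Metric.ball (0 : ℂ) 1 \ F)) (nhds (-1))) →
      (∀ ζ : ℂ, ‖ζ‖ = 1 → ζ ∉ F →
        Filter.Tendsto uE (nhdsWithin ζ (Metric.ball (0 : ℂ) 1 \ F)) (nhds 0)) →
      ∀ r K : ℝ, 0 < r → r < 1 → 0 < K → K < 1 →
      0 < volume {θ : ℝ | θ ∈ Set.Ico 0 (2 * Real.pi) ∧
            uE ((r : ℂ) * Complex.exp ((θ : ℂ) * Complex.I)) < -K} →
      volume {θ : ℝ | θ ∈ Set.Ico 0 (2 * Real.pi) ∧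
            uE ((r : ℂ) * Complex.exp ((θ : ℂ) * Complex.I)) < -K}
          < ENNReal.ofReal (2 * Real.pi) →
      ∀ u : ℂ → EReal,
        UpperSemicontinuousOn u (Metric.ball (0 : ℂ) 1) →
        (∃ z ∈ Metric.ball (0 : ℂ) 1, u z ≠ ⊥) →
        (∀ z ∈ Metric.ball (0 : ℂ) 1, ∃ ε : ℝ, 0 < ε ∧ ∀ ρ : ℝ, 0 < ρ → ρ < ε →
          u z ≤ -((((ENNReal.ofReal (2 * Real.pi))⁻¹ *
            ∫⁻ θ in Set.Ioc 0 (2 * Real.pi),
              (-u (z + (ρ : ℂ) * Complex.exp ((θ : ℂ) * Complex.I))).toENNReal) : ENNReal) : EReal)) →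
        (∀ z ∈ Metric.ball (0 : ℂ) 1, u z ≤ 0) →
        (∀ t ∈ E, (⨅ z ∈ Metric.sphere (0 : ℂ) t, u z) ≤ (-1 : EReal)) →
        volume {θ : ℝ | θ ∈ Set.Ico 0 (2 * Real.pi) ∧
            uE ((r : ℂ) * Complex.exp ((θ : ℂ) * Complex.I)) < -K}
          ≤ volume {θ : ℝ | θ ∈ Set.Ico 0 (2 * Real.pi) ∧
            u ((r : ℂ) * Complex.exp ((θ : ℂ) * Complex.I)) < (((-K : ℝ)) : EReal)} ∧
        (volume {θ : ℝ | θ ∈ Set.Ico 0 (2 * Real.pi) ∧
            u ((r : ℂ) * Complex.exp ((θ : ℂ) * Complex.I)) < (((-K : ℝ)) : EReal)}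
          = volume {θ : ℝ | θ ∈ Set.Ico 0 (2 * Real.pi) ∧
            uE ((r : ℂ) * Complex.exp ((θ : ℂ) * Complex.I)) < -K} →
          ∃ α : ℝ, ∀ z ∈ Metric.ball (0 : ℂ) 1,
            u z = ((uE (Complex.exp ((α : ℂ) * Complex.I) * z) : ℝ) : EReal))) := by
  intro H
  have hcirc : ∀ θ : ℝ, ((24/25 : ℝ) : ℂ) * Complex.exp ((θ : ℂ) * Complex.I) = circleMap 0 (24/25) θ := by
    intro θ
    simp [circleMap]
  have hlevel : {θ : ℝ | θ ∈ Set.Ico 0 (2 * Real.pi) ∧
      w0 (((24/25 : ℝ) : ℂ) * Complex.exp ((θ : ℂ) * Complex.I)) < -(9/10)} = levelSet w0 (24/25) (9/10) := by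
    ext θ
    simp only [hcirc]
    rfl
  have hlevelu : {θ : ℝ | θ ∈ Set.Ico 0 (2 * Real.pi) ∧
      ((uu (((24/25 : ℝ) : ℂ) * Complex.exp ((θ : ℂ) * Complex.I)) : ℝ) : EReal) < (((-(9/10) : ℝ)) : EReal)}
      = levelSet uu (24/25) (9/10) := by
    ext θ
    simp only [hcirc, EReal.coe_lt_coe_iff]
    rfl
  have hlt : volume (levelSet uu (24/25) (9/10)) < volume (levelSet w0 (24/25) (9/10)) := by
    refine lt_of_le_of_lt uu_levelSet_volume (lt_of_lt_of_le ?_ w0_levelSet_volume)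
    rw [ENNReal.ofReal_lt_ofReal_iff (by norm_num)]
    norm_num
  have hex := w0_extremal
  have hon : ∀ ζ ∈ Metric.ball (0 : ℂ) 1 ∩ closure ((fun x : ℝ => (x : ℂ)) '' Set.Ico 0 1),
      ζ ∈ (fun x : ℝ => (x : ℂ)) '' Set.Ico (0:ℝ) 1 := fun ζ hζ => (mem_closure_iff_axis hζ.1).1 hζ.2
  have key := H (Set.Ico 0 1) le_rfl
    ⟨{Set.Ico 0 1}, by simp [Set.ordConnected_Ico], by simp⟩
    (closure ((fun x : ℝ => (x : ℂ)) '' Set.Ico 0 1)) rfl w0
    (by rw [sdiff_eq_axis]; exact hex.harmonic.contDiffOn)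
    (by
      rw [sdiff_eq_axis]
      intro z hz
      have h1 := (hex.harmonic z hz).2.self_of_nhds
      rw [InnerProductSpace.laplacian_eq_iteratedFDeriv_complexPlane] at h1
      exact h1)
    hex.bounded
    (by
      intro z hz
      obtain ⟨x, hx, rfl⟩ := hon z hz
      exact hex.eq_slit x hx)
    (by
      intro ζ hζ
      obtain ⟨x, hx, rfl⟩ := hon ζ hζ
      rw [sdiff_eq_axis]
      exact hex.tendsto_slit x hx)
    (by
      intro ζ hζ hF
      rw [sdiff_eq_axis]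
      exact hex.tendsto_circle ζ (by simpa using hζ) hF)
    (24/25) (9/10) (by norm_num) (by norm_num) (by norm_num) (by norm_num)
    (by
      rw [hlevel]
      exact lt_of_le_of_lt bot_le hlt)
    (by
      rw [hlevel]
      exact w0_volume_lt)
    (fun z => ((uu z : ℝ) : EReal))
    (by
      intro z hz
      have h1 : ContinuousAt uu z := uu_continuousAt (by simpa using hz)
      have h2 : ContinuousAt (fun z => ((uu z : ℝ) : EReal)) z :=
        continuous_coe_real_ereal.continuousAt.comp h1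
      exact h2.continuousWithinAt.upperSemicontinuousWithinAt)
    ⟨0, by simp, EReal.coe_ne_bot _⟩
    (fun z hz => uu_submean_ereal hz)
    (fun z hz => by
      have := uu_nonpos (z := z) (by simpa using hz)
      exact_mod_cast this)
    (fun t ht => uu_mem_class.2.2 t ht)
  have h1 := key.1
  rw [hlevel, hlevelu] at h1
  exact absurd hlt (not_lt.2 h1)


end Pool.Agent.S06682
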