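import Pool.Statements.S06755
import Pool.Agent.W663.SX.Fin
import Pool.Agent.W579.SX.KW
import Pool.Agent.W701.SX.NS
import Pool.Agent.W407.SX.DO
import Pool.Agent.W85.SX.OB
import Pool.Agent.W202.SX.PH
import Pool.Agent.W737.SX.PS
import Pool.Agent.W168.SX.CS
import Pool.Agent.W59.SX.CF
import Pool.Agent.W59.SX.CO
import Pool.Agent.W880.SX.BN
import Pool.Agent.W880.SX.ST

set_option autoImplicit false
open Pool Pool.MP_f85ab1_an

namespace Pool.Agent.S06755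

/-- If a unital C*-algebra has a dense, *-closed, multiplicative filtration by finite-dimensional subspaces starting at C1 with dimensions growing subexponentially, then it has the completely positive approximation property through matrix algebras, i.e. it is nuclear. -/
theorem result :
  ∀ (A : Type) [CStarAlgebra A] (F : ℕ → Submodule ℂ A),
    Monotone F →
    F 0 = Submodule.span ℂ {(1 : A)} →
    (∀ m n : ℕ, ∀ x ∈ F m, ∀ y ∈ F n, x * y ∈ F (m + n)) →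
    (∀ n : ℕ, ∀ x ∈ F n, star x ∈ F n) →
    Dense (⋃ n : ℕ, (F n : Set A)) →
    (∀ n : ℕ, FiniteDimensional ℂ (F n)) →
    Filter.Tendsto (fun n : ℕ => ((Module.finrank ℂ (F n) : ℕ) : ℝ) ^ (1 / (n : ℝ)))
      Filter.atTop (nhds 1) →
    ∀ (S : Finset A) (ε : ℝ), 0 < ε →
      ∃ (k : ℕ)
        (φ : A →ₗ[ℂ] (EuclideanSpace ℂ (Fin k) →L[ℂ] EuclideanSpace ℂ (Fin k)))
        (ψ : (EuclideanSpace ℂ (Fin k) →L[ℂ] EuclideanSpace ℂ (Fin k)) →ₗ[ℂ] A),
        (∀ (n : ℕ) (y : Matrix (Fin n) (Fin n) A),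
          ∃ z : Matrix (Fin n) (Fin n)
              (EuclideanSpace ℂ (Fin k) →L[ℂ] EuclideanSpace ℂ (Fin k)),
            (y.conjTranspose * y).map (⇑φ) = z.conjTranspose * z) ∧
        (∀ (n : ℕ) (y : Matrix (Fin n) (Fin n)
              (EuclideanSpace ℂ (Fin k) →L[ℂ] EuclideanSpace ℂ (Fin k))),
          ∃ z : Matrix (Fin n) (Fin n) A,
            (y.conjTranspose * y).map (⇑ψ) = z.conjTranspose * z) ∧
        (∀ a : A, ‖φ a‖ ≤ ‖a‖) ∧
        (∀ b : EuclideanSpace ℂ (Fin k) →L[ℂ] EuclideanSpace ℂ (Fin k), ‖ψ b‖ ≤ ‖b‖) ∧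
        ∀ a ∈ S, ‖ψ (φ a) - a‖ < ε := by
  intro A _ F hmono h0 hmul hstar hdense hfin hg S ε hε
  rcases subsingleton_or_nontrivial A with hA | hA
  · refine ⟨0, 0, 0, fun n y => ⟨0, ?_⟩, fun n y => ⟨0, ?_⟩, fun a => ?_, fun b => ?_, fun a _ => ?_⟩
    · ext1 i j
      simp
    · exact Subsingleton.elim _ _
    · simp
    · simp
    · rw [Subsingleton.elim ((0 : (EuclideanSpace ℂ (Fin 0) →L[ℂ] EuclideanSpace ℂ (Fin 0)) →ₗ[ℂ] A)
        ((0 : A →ₗ[ℂ] (EuclideanSpace ℂ (Fin 0) →L[ℂ] EuclideanSpace ℂ (Fin 0))) a) - a) 0, norm_zero]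
      exact hε
  · have hst := Pool.Agent.W880.SX.ST.t
    have hdo := Pool.Agent.W407.SX.t Pool.Agent.W579.SX.KW.t hst Pool.Agent.W701.SX.t
    obtain ⟨k, φ, ψ, hφ, hψ, h⟩ := Pool.Agent.W663.SX.many hst hdo
      (Pool.Agent.W85.SX.OB.t hst) (Pool.Agent.W202.SX.PH.t hst)
      Pool.Agent.W737.SX.t Pool.Agent.W59.SX.tCF (Pool.Agent.W59.SX.tCO Pool.Agent.W168.SX.t)
      Pool.Agent.W880.SX.BN.t A F hmono h0 hmul hstar hdense hfin hg S ε hε
    exact ⟨k, Pool.Agent.W663.SX.transfer A k φ ψ hφ hψ S ε h⟩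

end Pool.Agent.S06755
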