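import Pool.Statements.S06766
import Pool.Agent.Results.MP_f93147_an.LacunaryHardyFails

set_option autoImplicit false
open MeasureTheory
open scoped ENNReal NNReal
open Pool Pool.MP_f93147_an

namespace Pool.Agent.S06766

/-- The negation of the preceding statement: For compactly supported finite measures μ on R^d with Fourier decay ∣ξ∣^-ε, the maximal function sup over k of ∣f*μ_{2^k}∣ obeys a weak-type (1,1) bound against the H^1 norm of f (Gaussian maximal-function norm). -/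
theorem result :
    ¬ (∀ (d : ℕ) (μ : Measure (EuclideanSpace ℝ (Fin d))), IsFiniteMeasure μ →
      (∃ K : Set (EuclideanSpace ℝ (Fin d)), IsCompact K ∧ μ Kᶜ = 0) →
      (∃ C ε : ℝ, 0 < ε ∧ ∀ ξ : EuclideanSpace ℝ (Fin d), 1 ≤ ‖ξ‖ →
          ‖∫ y, Complex.exp (((-2 * Real.pi * (inner ℝ y ξ) : ℝ) : ℂ) * Complex.I) ∂μ‖
            ≤ C * ‖ξ‖ ^ (-ε)) →
      ∃ A : ℝ≥0, ∀ f : EuclideanSpace ℝ (Fin d) → ℝ, Integrable f →
        ∀ s : ℝ, 0 < s →
          ENNReal.ofReal s *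
              volume {x | ENNReal.ofReal s <
                ⨆ k : ℤ, ‖∫ y, f (x - ((2 : ℝ) ^ k) • y) ∂μ‖ₑ}
            ≤ (A : ℝ≥0∞) * ∫⁻ x, ⨆ (t : ℝ) (_ : 0 < t),
                ‖∫ y, f (x - t • y) * Real.exp (-Real.pi * ‖y‖ ^ 2)‖ₑ) := by
  intro h
  obtain ⟨μ, i1, hK, ⟨C, ε, hε, hC⟩, f, hm, hb, hcs, h0, hfin, hbad⟩ :=
    Pool.Agent.Results.MP_f93147_an.LacunaryHardyFails.result 1 one_pos
  obtain ⟨A, hA⟩ := h 1 μ i1 hK ⟨C, ε, hε, fun ξ hξ => hC ξ (by
    rintro rfl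
    rw [norm_zero] at hξ
    linarith)⟩
  have hint : MeasureTheory.Integrable f := by
    have h1 : MeasureTheory.IntegrableOn f (tsupport f) := by
      refine MeasureTheory.Measure.integrableOn_of_bounded (M := 1) hcs.measure_lt_top.ne
        hm.aestronglyMeasurable ?_
      exact Filter.Eventually.of_forall fun x => by simpa using hb x
    exact (MeasureTheory.integrableOn_iff_integrable_of_support_subset
      (subset_tsupport f)).1 h1
  set I : ENNReal := ∫⁻ x, ⨆ (t : ℝ) (_ : 0 < t),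
            ‖∫ y, f (x - t • y) * Real.exp (-Real.pi * ‖y‖ ^ 2)‖ₑ with hI
  obtain ⟨s, hs, hs'⟩ := hbad ((A : ENNReal) * I).toNNReal
  have h2 := hA f hint s hs
  rw [ENNReal.coe_toNNReal (ENNReal.mul_lt_top ENNReal.coe_lt_top hfin).ne] at hs'
  exact absurd h2 (not_le.2 hs')

end Pool.Agent.S06766
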