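import Pool.Statements.S06782
import Pool.Agent.W26.CT.Asm3
import Pool.Agent.W499.CT.LP

set_option autoImplicit false
open Pool Pool.MP_f9ce33_an

namespace Pool.Agent.S06782

lemma toReal_43 : ((4 / 3 : ENNReal)).toReal = 4 / 3 := by
  rw [ENNReal.toReal_div]; norm_num

lemma emb_Lp (p : ENNReal) [Fact (1 ≤ p)] (hp : p ≠ ⊤) (P : ℝ) (hP : p.toReal = P) :
    Pool.Agent.W26.CT.Emb (MeasureTheory.Lp ℝ p
      (MeasureTheory.volume.restrict (Set.Icc (0:ℝ) 1))) P := by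
  subst hP
  exact fun N => Pool.Agent.W499.CT.LPart.lpEmb p hp N

lemma lhs_bound {n : ℕ} {s c : ℝ} (hs : 0 < s) (hc : 0 < c) (v : Fin n → ℝ) (hv : ∀ k, c ≤ v k) :
    (n : ℝ) ^ (1 / s) * c ≤ (∑ k, v k ^ s) ^ (1 / s) := by
  have h1 : (n : ℝ) * c ^ s ≤ ∑ k, v k ^ s := by
    calc (n : ℝ) * c ^ s = ∑ _k : Fin n, c ^ s := by simp
      _ ≤ ∑ k, v k ^ s := Finset.sum_le_sum fun k _ => Real.rpow_le_rpow hc.le (hv k) hs.le
  calc (n : ℝ) ^ (1 / s) * c = ((n : ℝ) * c ^ s) ^ (1 / s) := by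
        rw [Real.mul_rpow (by positivity) (by positivity), ← Real.rpow_mul hc.le,
          mul_one_div_cancel hs.ne', Real.rpow_one]
    _ ≤ _ := Real.rpow_le_rpow (by positivity) h1 (by positivity)

lemma rhs_bound {n : ℕ} {C : ℝ} (N : (Fin n → Bool) → ℝ) (h0 : ∀ ε, 0 ≤ N ε)
    (h : ∀ ε, N ε ≤ 24) :
    C * ((∑ ε : Fin n → Bool, (N ε) ^ 2) / 2 ^ n) ^ ((1:ℝ) / 2) ≤ |C| * 24 := by
  have h1 : (∑ ε : Fin n → Bool, (N ε) ^ 2) / 2 ^ n ≤ 24 ^ 2 := by
    rw [div_le_iff₀ (by positivity)]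
    calc ∑ ε : Fin n → Bool, (N ε) ^ 2 ≤ ∑ _ε : Fin n → Bool, (24:ℝ) ^ 2 :=
          Finset.sum_le_sum fun ε _ => pow_le_pow_left₀ (h0 ε) (h ε) 2
      _ = _ := by simp; ring
  have h2 : ((∑ ε : Fin n → Bool, (N ε) ^ 2) / 2 ^ n) ^ ((1:ℝ) / 2) ≤ 24 := by
    calc _ ≤ ((24:ℝ) ^ 2) ^ ((1:ℝ) / 2) := Real.rpow_le_rpow (by positivity) h1 (by norm_num)
      _ = 24 := by
        rw [← Real.rpow_natCast, ← Real.rpow_mul (by norm_num)]; norm_num
  have h3 : 0 ≤ ((∑ ε : Fin n → Bool, (N ε) ^ 2) / 2 ^ n) ^ ((1:ℝ) / 2) := by positivity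
  exact (mul_le_mul_of_nonneg_right (le_abs_self C) h3).trans
    (mul_le_mul_of_nonneg_left h2 (abs_nonneg C))


/-- The negation of the preceding statement: For 1<p<2 and 1<q≤2, the tensor product of L_p[0,1] and L_q[0,1] with the projective norm has finite cotype. That is, for some finite s≥2 and constant C, the ℓ_s-sum of norms of any finite family is at most C times its Rademacher average. -/
theorem result :
    ¬ (∀ (r : Fin 2 → ENNReal) [∀ i, Fact (1 ≤ r i)],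
      1 < r 0 → r 0 < 2 → 1 < r 1 → r 1 ≤ 2 →
      ∃ s : ℝ, 2 ≤ s ∧ ∃ C : ℝ,
        ∀ (n : ℕ)
          (x : Fin n → PiTensorProduct ℝ
            (fun i : Fin 2 => MeasureTheory.Lp ℝ (r i)
              (MeasureTheory.volume.restrict (Set.Icc (0:ℝ) 1)))),
          (∑ k, (PiTensorProduct.projectiveSeminorm (x k)) ^ s) ^ (1 / s)
            ≤ C * ((∑ ε : Fin n → Bool,
                    (PiTensorProduct.projectiveSeminorm
                      (∑ k, (if ε k then (1:ℝ) else -1) • x k)) ^ 2) / 2 ^ n) ^ ((1:ℝ) / 2)) := by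
  intro H
  have inst : ∀ i, Fact (1 ≤ (![4 / 3, 2] : Fin 2 → ENNReal) i) := by
    intro i
    fin_cases i
    · refine ⟨?_⟩
      change (1 : ENNReal) ≤ 4 / 3
      rw [ENNReal.le_div_iff_mul_le (by simp) (by simp)]
      norm_num
    · refine ⟨?_⟩
      change (1 : ENNReal) ≤ 2
      norm_num
  have h1 : (1 : ENNReal) < 4 / 3 := by
    rw [ENNReal.lt_div_iff_mul_lt (by simp) (by simp)]
    norm_num
  have h2 : (4 / 3 : ENNReal) < 2 := by
    rw [ENNReal.div_lt_iff (by simp) (by simp)]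
    norm_num
  obtain ⟨s, hs, C, hC⟩ := @H ![4 / 3, 2] inst h1 h2 (by change (1 : ENNReal) < 2; norm_num)
    (le_refl (2 : ENNReal))
  have hs0 : 0 < s := by linarith
  have e0 := @emb_Lp ((![4 / 3, 2] : Fin 2 → ENNReal) 0) (inst 0)
    (by change (4 / 3 : ENNReal) ≠ ⊤; exact (h2.trans (by simp)).ne) (4 / 3)
    (by change ((4 / 3 : ENNReal)).toReal = 4 / 3; exact toReal_43)
  have e1 := @emb_Lp ((![4 / 3, 2] : Fin 2 → ENNReal) 1) (inst 1)
    (by change (2 : ENNReal) ≠ ⊤; simp) 2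
    (by change ((2 : ENNReal)).toReal = 2; simp)
  obtain ⟨c, hc, hfam⟩ := Pool.Agent.W26.CT.family
    (E := fun i : Fin 2 => MeasureTheory.Lp ℝ ((![4 / 3, 2] : Fin 2 → ENNReal) i)
      (MeasureTheory.volume.restrict (Set.Icc (0:ℝ) 1))) e0 e1
  have key : ∀ n : ℕ, (n : ℝ) ^ (1 / s) * c ≤ |C| * 24 := by
    intro n
    obtain ⟨u, hu1, hu2⟩ := hfam n
    refine (lhs_bound hs0 hc (fun k => PiTensorProduct.projectiveSeminorm (u k))
      (fun k => hu2 k)).trans ((hC n u).trans ?_)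
    exact rhs_bound (fun ε : Fin n → Bool => PiTensorProduct.projectiveSeminorm
      (∑ k, (if ε k then (1:ℝ) else -1) • u k)) (fun ε => apply_nonneg _ _)
      (fun ε => hu1 (fun k => if ε k then (1:ℝ) else -1) (fun k => by split_ifs <;> simp))
  have ht : Filter.Tendsto (fun n : ℕ => (n : ℝ) ^ (1 / s)) Filter.atTop Filter.atTop :=
    (tendsto_rpow_atTop (by positivity)).comp tendsto_natCast_atTop_atTop
  obtain ⟨n, hn⟩ := (ht.eventually (Filter.eventually_gt_atTop (|C| * 24 / c))).exists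
  rw [div_lt_iff₀ hc] at hn
  exact absurd (key n) (not_le.2 hn)

end Pool.Agent.S06782
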