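import Pool.Statements.S06787
import Pool.Agent.H576.FK.Final

set_option autoImplicit false
open Pool Pool.MP_fa50a1_an

namespace Pool.Agent.S06787

open Polynomial

theorem pos_prod (s : Multiset ℝ) : (∀ r ∈ s, r < 0) →
    (∀ k ≤ s.card, 0 < (s.map fun r => (X - C r : ℝ[X])).prod.coeff k) ∧
    (∀ k, 0 ≤ (s.map fun r => (X - C r : ℝ[X])).prod.coeff k) := by
  induction s using Multiset.induction_on with
  | empty =>
    intro _
    constructor
    · intro k hk
      simp only [Multiset.card_zero, Nat.le_zero] at hk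
      subst hk
      simp
    · intro k
      simp only [Multiset.map_zero, Multiset.prod_zero, coeff_one]
      split_ifs <;> norm_num
  | cons a s ih =>
    intro h
    obtain ⟨ih1, ih2⟩ := ih fun r hr => h r (Multiset.mem_cons_of_mem hr)
    have ha : a < 0 := h a (Multiset.mem_cons_self a s)
    rw [Multiset.map_cons, Multiset.prod_cons]
    have hc0 : ((X - C a) * (s.map fun r => (X - C r : ℝ[X])).prod).coeff 0 =
        (-a) * (s.map fun r => (X - C r : ℝ[X])).prod.coeff 0 := by
      rw [sub_mul, coeff_sub, coeff_X_mul_zero, coeff_C_mul]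
      ring
    have hcs : ∀ k, ((X - C a) * (s.map fun r => (X - C r : ℝ[X])).prod).coeff (k + 1) =
        (s.map fun r => (X - C r : ℝ[X])).prod.coeff k +
          (-a) * (s.map fun r => (X - C r : ℝ[X])).prod.coeff (k + 1) := by
      intro k
      rw [sub_mul, coeff_sub, coeff_X_mul, coeff_C_mul]
      ring
    constructor
    · intro k hk
      rw [Multiset.card_cons] at hk
      rcases k with _ | k
      · rw [hc0]
        exact mul_pos (by linarith) (ih1 0 (by omega))
      · rw [hcs]
        have h1 := ih1 k (by omega)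
        have h2 := ih2 (k + 1)
        have : 0 ≤ (-a) * (s.map fun r => (X - C r : ℝ[X])).prod.coeff (k + 1) :=
          mul_nonneg (by linarith) h2
        linarith
    · intro k
      rcases k with _ | k
      · rw [hc0]
        exact mul_nonneg (by linarith) (ih2 0)
      · rw [hcs]
        exact add_nonneg (ih2 k) (mul_nonneg (by linarith) (ih2 (k + 1)))

theorem splits_of_real (p : ℝ[X]) (hr : ∀ z : ℂ, aeval z p = 0 → z.im = 0) :
    p.roots.card = p.natDegree := by
  rw [← splits_iff_card_roots]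
  apply Splits.of_splits_map_of_injective (i := algebraMap ℝ ℂ) (algebraMap ℝ ℂ).injective
    (IsAlgClosed.splits _)
  intro z hz
  have h1 : aeval z p = 0 := by
    have := (mem_roots'.1 hz).2
    rw [IsRoot.def, eval_map] at this
    rw [aeval_def]
    exact this
  exact ⟨z.re, by
    apply Complex.ext
    · simp
    · simp [hr z h1]⟩

/-- the determinant -/
noncomputable def D (p : ℝ[X]) (k : ℕ) : ℝ := Matrix.det (Matrix.of (fun i j : Fin 3 =>
            if 0 ≤ (k : ℤ) + ((j : ℕ) : ℤ) - ((i : ℕ) : ℤ)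
            then p.coeff ((k : ℤ) + ((j : ℕ) : ℤ) - ((i : ℕ) : ℤ)).toNat
            else (0 : ℝ)))

/-- the extended coefficients -/
noncomputable def ec (p : ℝ[X]) (k : ℤ) : ℝ := if 0 ≤ k then p.coeff k.toNat else 0

theorem D_eq (p : ℝ[X]) (k : ℕ) : D p k = Matrix.det (Matrix.of (fun i j : Fin 3 =>
    ec p ((k : ℤ) + ((j : ℕ) : ℤ) - ((i : ℕ) : ℤ)))) := rfl

theorem ec_shift (m : ℕ) (p : ℝ[X]) (k : ℤ) : ec (X ^ m * p) (k + m) = ec p k := by
  unfold ec
  by_cases h : 0 ≤ k
  · rw [if_pos h, if_pos (by omega)]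
    have : (k + m).toNat = k.toNat + m := by omega
    rw [this, coeff_X_pow_mul]
  · rw [if_neg h]
    split_ifs with h2
    · rw [coeff_X_pow_mul', if_neg (by omega)]
    · rfl

theorem ec_neg (m : ℕ) (p : ℝ[X]) (k : ℤ) (h : k < m) : ec (X ^ m * p) k = 0 := by
  unfold ec
  split_ifs with h2
  · rw [coeff_X_pow_mul', if_neg (by omega)]
  · rfl

theorem D_shift (m : ℕ) (p : ℝ[X]) (k : ℕ) : D (X ^ m * p) (k + m) = D p k := by
  rw [D_eq, D_eq]
  congr 1
  ext i j
  simp only [Matrix.of_apply]
  rw [← ec_shift m p]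
  congr 1
  push_cast
  ring

theorem D_small (m : ℕ) (p : ℝ[X]) (k : ℕ) (h : k < m) : D (X ^ m * p) k = 0 := by
  rw [D_eq, Matrix.det_fin_three]
  simp only [Matrix.of_apply, Fin.val_zero, Fin.val_one, Fin.val_two, Nat.cast_zero, Nat.cast_one,
    Nat.cast_ofNat, add_zero, sub_zero]
  have e : ∀ t : ℤ, t ≤ 0 → ec (X ^ m * p) (k + t) = 0 := fun t ht =>
    ec_neg m p _ (by omega)
  have e1 : ec (X ^ m * p) (k : ℤ) = 0 := by simpa using e 0 le_rfl
  have e2 : ec (X ^ m * p) ((k : ℤ) - 1) = 0 := by
    rw [sub_eq_add_neg]; exact e (-1) (by norm_num)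
  have e3 : ec (X ^ m * p) ((k : ℤ) - 2) = 0 := by
    rw [sub_eq_add_neg]; exact e (-2) (by norm_num)
  have e4 : ec (X ^ m * p) ((k : ℤ) + 1 - 1) = 0 := by
    rw [add_sub_cancel_right]; exact e1
  have e5 : ec (X ^ m * p) ((k : ℤ) + 2 - 2) = 0 := by
    rw [add_sub_cancel_right]; exact e1
  have e6 : ec (X ^ m * p) ((k : ℤ) + 1 - 2) = 0 := by
    have : (k : ℤ) + 1 - 2 = k - 1 := by ring
    rw [this]; exact e2
  rw [e1, e2, e3, e4, e5, e6]
  ring

theorem D_top (p : ℝ[X]) : D p p.natDegree = p.leadingCoeff ^ 3 := by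
  rw [D_eq, Matrix.det_fin_three]
  simp only [Matrix.of_apply, Fin.val_zero, Fin.val_one, Fin.val_two, Nat.cast_zero, Nat.cast_one,
    Nat.cast_ofNat, add_zero, sub_zero]
  have e : ∀ t : ℤ, 0 < t → ec p (p.natDegree + t) = 0 := by
    intro t ht
    unfold ec
    rw [if_pos (by omega)]
    exact coeff_eq_zero_of_natDegree_lt (by omega)
  have e1 : ec p (p.natDegree : ℤ) = p.leadingCoeff := by
    unfold ec
    rw [if_pos (by omega)]
    simp
  have e2 : ec p ((p.natDegree : ℤ) + 1) = 0 := e 1 (by norm_num)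
  have e3 : ec p ((p.natDegree : ℤ) + 2) = 0 := e 2 (by norm_num)
  have e4 : (p.natDegree : ℤ) + 1 - 1 = p.natDegree := by ring
  have e5 : (p.natDegree : ℤ) + 2 - 2 = p.natDegree := by ring
  have e6 : (p.natDegree : ℤ) + 2 - 1 = p.natDegree + 1 := by ring
  rw [e4, e5, e6, e1, e2, e3]
  ring

/-- For every real polynomial p with non-negative coefficients and only real zeros, the polynomial T_3p, whose k-th coefficient is the determinant of the 3x3 matrix (a_{k+j-i}), has non-negative coefficients and only real zeros. -/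
theorem result :
    ∀ p : Polynomial ℝ, (∀ k : ℕ, 0 ≤ p.coeff k) →
      (∀ z : ℂ, Polynomial.aeval z p = 0 → z.im = 0) →
      ∀ q : Polynomial ℝ,
        q = ∑ k ∈ Finset.range (p.natDegree + 1),
          Polynomial.C (Matrix.det (Matrix.of (fun i j : Fin 3 =>
            if 0 ≤ (k : ℤ) + ((j : ℕ) : ℤ) - ((i : ℕ) : ℤ)
            then p.coeff ((k : ℤ) + ((j : ℕ) : ℤ) - ((i : ℕ) : ℤ)).toNat
            else (0 : ℝ)))) * Polynomial.X ^ k →
        (∀ k : ℕ, 0 ≤ q.coeff k) ∧ (∀ z : ℂ, Polynomial.aeval z q = 0 → z.im = 0) := by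
  intro p hp hreal q hq
  -- `p ≠ 0`
  have hp0 : p ≠ 0 := by
    rintro rfl
    have := hreal Complex.I (by simp)
    simp at this
  have hcard := splits_of_real p hreal
  have hsplit : p.Splits := splits_iff_card_roots.2 hcard
  -- factor out the power of `X`
  obtain ⟨g, hg, hgd⟩ := exists_eq_pow_rootMultiplicity_mul_and_not_dvd p hp0 0
  set m := p.rootMultiplicity 0 with hm
  rw [C_0, sub_zero] at hg hgd
  have hg0 : g ≠ 0 := by
    rintro rfl
    exact hgd (dvd_zero _)
  have hgs : g.Splits := hsplit.of_dvd hp0 ⟨X ^ m, by rw [mul_comm]; exact hg⟩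
  have hgz : g.eval 0 ≠ 0 := by
    intro h
    apply hgd
    have := dvd_iff_isRoot.2 h
    simpa using this
  have hgc : ∀ k, 0 ≤ g.coeff k := by
    intro k
    have := hp (k + m)
    rw [hg, coeff_X_pow_mul] at this
    exact this
  have hgl : 0 < g.leadingCoeff :=
    lt_of_le_of_ne (hgc _) (leadingCoeff_ne_zero.2 hg0).symm
  -- the roots of `g` are negative
  have hgneg : ∀ r ∈ g.roots, r < 0 := by
    intro r hr
    by_contra hr0
    rw [not_lt] at hr0
    have h1 : g.eval r = 0 := (mem_roots'.1 hr).2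
    have hg00 : 0 < g.coeff 0 := by
      refine lt_of_le_of_ne (hgc 0) ?_
      rw [coeff_zero_eq_eval_zero]
      exact hgz.symm
    rw [eval_eq_sum_range] at h1
    have h2 : g.coeff 0 * r ^ 0 ≤ ∑ i ∈ Finset.range (g.natDegree + 1), g.coeff i * r ^ i :=
      Finset.single_le_sum (f := fun i => g.coeff i * r ^ i)
        (fun i _ => mul_nonneg (hgc i) (pow_nonneg hr0 i)) (Finset.mem_range.2 (by omega))
    rw [pow_zero, mul_one] at h2
    linarith
  have hgcard := splits_iff_card_roots.1 hgs
  -- all coefficients of `g` up to the degree are positive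
  have hgpos : ∀ k ≤ g.natDegree, 0 < g.coeff k := by
    intro k hk
    have h1 := hgs.eq_prod_roots
    rw [h1, coeff_C_mul]
    exact mul_pos hgl ((pos_prod g.roots hgneg).1 k (by rw [hgcard]; exact hk))
  -- the polynomial `q1`
  set q1 : ℝ[X] := ∑ k ∈ Finset.range (g.natDegree + 1), C (D g k) * X ^ k with hq1
  have hfin := Pool.Agent.H576.FK.final g hgpos hgcard 3 (by norm_num) q1 (by
    rw [hq1]
    apply Finset.sum_congr rfl
    intro k _
    congr 2
    unfold D
    congr 1
    ext i j
    simp only [Matrix.of_apply]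
    have e : (k : ℤ) + ((j : ℕ) : ℤ) - ((i : ℕ) : ℤ) = (k : ℤ) - ((i : ℕ) : ℤ) + ((j : ℕ) : ℤ) := by
      ring
    rw [e])
  obtain ⟨hqc, hqneg⟩ := hfin
  have hcoeff1 : ∀ k, q1.coeff k = if k < g.natDegree + 1 then D g k else 0 := by
    intro k
    rw [hq1, finsetSum_coeff]
    simp only [coeff_C_mul_X_pow, Finset.sum_ite_eq, Finset.mem_range]
  have hdeg : p.natDegree = m + g.natDegree := by
    rw [hg, natDegree_mul (pow_ne_zero _ X_ne_zero) hg0, natDegree_X_pow]
  -- `q = X ^ m * q1`
  have hqq : q = X ^ m * q1 := by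
    have e0 : q = ∑ k ∈ Finset.range (p.natDegree + 1), C (D p k) * X ^ k := hq
    rw [e0, hdeg, add_assoc, Finset.sum_range_add, hq1, Finset.mul_sum]
    have e1 : ∑ k ∈ Finset.range m, C (D p k) * X ^ k = 0 := by
      apply Finset.sum_eq_zero
      intro k hk
      rw [hg, D_small m g k (Finset.mem_range.1 hk), C_0, zero_mul]
    rw [e1, zero_add]
    apply Finset.sum_congr rfl
    intro k _
    have e2 : D p (m + k) = D g k := by
      conv_lhs => rw [hg, add_comm]
      exact D_shift m g k
    rw [e2, pow_add]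
    ring
  have hlead : q1.natDegree = g.natDegree := by
    apply natDegree_eq_of_le_of_coeff_ne_zero
    · rw [natDegree_le_iff_coeff_eq_zero]
      intro k hk
      rw [hcoeff1, if_neg (by omega)]
    · rw [hcoeff1, if_pos (by omega), D_top]
      exact pow_ne_zero _ hgl.ne'
  have hl1 : 0 < q1.leadingCoeff := by
    unfold leadingCoeff
    rw [hlead, hcoeff1, if_pos (by omega), D_top]
    exact pow_pos hgl 3
  have hq1s : q1.Splits := splits_iff_card_roots.2 hqc
  have hq1pos : ∀ k, 0 ≤ q1.coeff k := by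
    intro k
    rw [hq1s.eq_prod_roots, coeff_C_mul]
    exact mul_nonneg hl1.le ((pos_prod q1.roots hqneg).2 k)
  constructor
  · intro k
    rw [hqq, coeff_X_pow_mul']
    split_ifs
    · exact hq1pos _
    · exact le_rfl
  · intro z hz
    rw [hqq, map_mul, map_pow, aeval_X] at hz
    rcases mul_eq_zero.1 hz with h | h
    · have hz0 : z = 0 := by
        by_contra hne
        exact pow_ne_zero m hne h
      rw [hz0]; rfl
    · rw [hq1s.eq_prod_roots, map_mul, aeval_C] at h
      rcases mul_eq_zero.1 h with h | h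
      · exfalso
        apply hl1.ne'
        exact (algebraMap ℝ ℂ).injective (by rw [h, map_zero])
      · rw [map_multiset_prod, Multiset.map_map, Multiset.prod_eq_zero_iff] at h
        obtain ⟨r, _, hr⟩ := Multiset.mem_map.1 h
        simp only [Function.comp_apply, map_sub, aeval_X, aeval_C] at hr
        have : z = (r : ℂ) := by
          rw [sub_eq_zero] at hr
          exact hr
        rw [this]
        exact Complex.ofReal_im r

end Pool.Agent.S06787
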