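import Pool.Statements.S06792
import Pool.Agent.Results.MP_fb096d_an.NotInvariant

set_option autoImplicit false
open Pool Pool.MP_fb096d_an

namespace Pool.Agent.S06792

open Pool.Agent.Helper23.Twist Pool.Agent.Helper23.Haagerup Pool.Agent.Helper23.RDGam
open Pool.Agent.Results.MP_fb096d_an.NotInvariant

/-- moving along a word in the base group gives a word of the same length in the twisted group -/
lemma fwd : ∀ (l : List Gam), (∀ s ∈ l, s ∈ S0) → ∀ x : Gam,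
    ∃ l' : List LamG, l'.length = l.length ∧ (∀ t ∈ l', t ∈ T0) ∧
      l'.prod = (toLam x)⁻¹ * toLam (x * l.prod) := by
  intro l
  induction l with
  | nil => intro _ x; exact ⟨[], rfl, by simp, by simp⟩
  | cons a l ih =>
    intro h x
    obtain ⟨l', h1, h2, h3⟩ := ih (fun s hs => h s (by simp [hs])) (x * a)
    have ha : (toLam x)⁻¹ * toLam (x * a) ∈ T0 := by
      rw [← adj_iff]
      simpa using h a (by simp)
    refine ⟨((toLam x)⁻¹ * toLam (x * a)) :: l', by simp [h1], ?_, ?_⟩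
    · intro t ht
      rw [List.mem_cons] at ht
      rcases ht with rfl | ht
      · exact ha
      · exact h2 t ht
    · rw [List.prod_cons, h3, List.prod_cons, mul_assoc x, mul_assoc, mul_inv_cancel_left]

/-- the converse -/
lemma bwd : ∀ (l : List LamG), (∀ s ∈ l, s ∈ T0) → ∀ x : Gam,
    ∃ l' : List Gam, l'.length = l.length ∧ (∀ t ∈ l', t ∈ S0) ∧
      toLam (x * l'.prod) = toLam x * l.prod := by
  intro l
  induction l with
  | nil => intro _ x; exact ⟨[], rfl, by simp, by simp⟩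
  | cons a l ih =>
    intro h x
    obtain ⟨z, hz⟩ : ∃ z : Gam, toLam z = toLam x * a := eqv.surjective (toLam x * a)
    have ha : x⁻¹ * z ∈ S0 := by
      rw [adj_iff, hz, inv_mul_cancel_left]
      exact h a (by simp)
    obtain ⟨l', h1, h2, h3⟩ := ih (fun s hs => h s (by simp [hs])) z
    refine ⟨(x⁻¹ * z) :: l', by simp [h1], ?_, ?_⟩
    · intro t ht
      rw [List.mem_cons] at ht
      rcases ht with rfl | ht
      · exact ha
      · exact h2 t ht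
    · rw [List.prod_cons, List.prod_cons, ← mul_assoc x, mul_inv_cancel_left, h3, hz, mul_assoc]

lemma word_S {l : List Gam} (h : ∀ s ∈ l, s ∈ S0_finite.toFinset ∨ s⁻¹ ∈ S0_finite.toFinset) :
    ∀ s ∈ l, s ∈ S0 := by
  intro s hs
  rcases h s hs with h | h
  · exact S0_finite.mem_toFinset.1 h
  · have := S0_inv (S0_finite.mem_toFinset.1 h)
    rwa [inv_inv] at this

lemma word_T {l : List LamG} (h : ∀ s ∈ l, s ∈ T0_finite.toFinset ∨ s⁻¹ ∈ T0_finite.toFinset) :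
    ∀ s ∈ l, s ∈ T0 := by
  intro s hs
  rcases h s hs with h | h
  · exact T0_finite.mem_toFinset.1 h
  · have := T0_inv (T0_finite.mem_toFinset.1 h)
    rwa [inv_inv] at this

/-- The negation of the preceding statement: If two finitely generated groups are quasi-isometric for their word metrics and the first has rapid decay (convolution norm by functions on radius-r balls polynomially bounded in r), then so does the second. -/
theorem result :
    ¬ (∀ (G H : Type) [Group G] [Group H] (S : Finset G) (T : Finset H),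
    Subgroup.closure (S : Set G) = ⊤ → Subgroup.closure (T : Set H) = ⊤ →
    ∀ φ : G → H,
    (∃ K c : ℕ,
      (∀ x y : G, ∀ n : ℕ,
        (∃ l : List G, l.length ≤ n ∧ (∀ s ∈ l, s ∈ S ∨ s⁻¹ ∈ S) ∧ l.prod = x⁻¹ * y) →
        ∃ l : List H, l.length ≤ K * n + c ∧ (∀ t ∈ l, t ∈ T ∨ t⁻¹ ∈ T) ∧
          l.prod = (φ x)⁻¹ * φ y) ∧
      (∀ x y : G, ∀ n : ℕ,
        (∃ l : List H, l.length ≤ n ∧ (∀ t ∈ l, t ∈ T ∨ t⁻¹ ∈ T) ∧
          l.prod = (φ x)⁻¹ * φ y) →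
        ∃ l : List G, l.length ≤ K * n + c ∧ (∀ s ∈ l, s ∈ S ∨ s⁻¹ ∈ S) ∧
          l.prod = x⁻¹ * y) ∧
      (∀ h : H, ∃ x : G, ∃ l : List H, l.length ≤ c ∧ (∀ t ∈ l, t ∈ T ∨ t⁻¹ ∈ T) ∧
          l.prod = h⁻¹ * φ x)) →
    (∃ C : ℝ, ∃ k : ℕ, ∀ r : ℕ, ∀ f g : G →₀ ℂ,
      (∀ x ∈ f.support, ∃ l : List G, l.length ≤ r ∧ (∀ s ∈ l, s ∈ S ∨ s⁻¹ ∈ S) ∧
          l.prod = x) →
      ∀ U : Finset G, ∑ x ∈ U, ‖∑ y ∈ f.support, f y * g (y⁻¹ * x)‖ ^ 2 ≤
        C * ((r : ℝ) + 1) ^ k * (∑ y ∈ f.support, ‖f y‖ ^ 2) *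
          (∑ z ∈ g.support, ‖g z‖ ^ 2)) →
    (∃ C : ℝ, ∃ k : ℕ, ∀ r : ℕ, ∀ f g : H →₀ ℂ,
      (∀ x ∈ f.support, ∃ l : List H, l.length ≤ r ∧ (∀ t ∈ l, t ∈ T ∨ t⁻¹ ∈ T) ∧
          l.prod = x) →
      ∀ U : Finset H, ∑ x ∈ U, ‖∑ y ∈ f.support, f y * g (y⁻¹ * x)‖ ^ 2 ≤
        C * ((r : ℝ) + 1) ^ k * (∑ y ∈ f.support, ‖f y‖ ^ 2) *
          (∑ z ∈ g.support, ‖g z‖ ^ 2))) := by
  classical
  intro hall
  have hQ := hall Gam LamG S0_finite.toFinset T0_finite.toFinset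
    (by rw [S0_finite.coe_toFinset]; exact S0_gen)
    (by rw [T0_finite.coe_toFinset]; exact T0_gen) toLam
    ⟨1, 0, by
      rintro x y n ⟨l, h1, h2, h3⟩
      obtain ⟨l', h4, h5, h6⟩ := fwd l (word_S h2) x
      refine ⟨l', by omega, fun t ht => Or.inl (T0_finite.mem_toFinset.2 (h5 t ht)), ?_⟩
      rw [h6, h3, mul_inv_cancel_left], by
      rintro x y n ⟨l, h1, h2, h3⟩
      obtain ⟨l', h4, h5, h6⟩ := bwd l (word_T h2) x
      refine ⟨l', by omega, fun t ht => Or.inl (S0_finite.mem_toFinset.2 (h5 t ht)), ?_⟩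
      rw [h3, mul_inv_cancel_left] at h6
      have h7 : x * l'.prod = y := eqv.injective h6
      rw [← h7, inv_mul_cancel_left], by
      intro h
      obtain ⟨x, hx⟩ : ∃ x : Gam, toLam x = h := eqv.surjective h
      exact ⟨x, [], by simp, by simp, by rw [hx]; simp⟩⟩
  -- rapid decay of the base group
  have hG : ∃ C : ℝ, ∃ k : ℕ, ∀ r : ℕ, ∀ f g : Gam →₀ ℂ,
      (∀ x ∈ f.support, ∃ l : List Gam, l.length ≤ r ∧
        (∀ s ∈ l, s ∈ S0_finite.toFinset ∨ s⁻¹ ∈ S0_finite.toFinset) ∧ l.prod = x) →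
      ∀ U : Finset Gam, ∑ x ∈ U, ‖∑ y ∈ f.support, f y * g (y⁻¹ * x)‖ ^ 2 ≤
        C * ((r : ℝ) + 1) ^ k * (∑ y ∈ f.support, ‖f y‖ ^ 2) *
          (∑ z ∈ g.support, ‖g z‖ ^ 2) := by
    obtain ⟨C, s, hs, hRD⟩ := gam_RD S0 ⟨S0_finite, fun _ h => S0_inv h, S0_gen⟩
    refine ⟨C ^ 2, ⌈2 * s⌉₊, ?_⟩
    intro r f g hf U
    have hgz : ∀ x ∉ g.support, ‖g x‖ ^ 2 = 0 := fun x hx => by
      rw [Finsupp.notMem_support_iff.1 hx]; simp
    have hgsum : Summable (fun x => ‖g x‖ ^ 2) := summable_of_ne_finset_zero hgz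
    obtain ⟨h1, h2⟩ := hRD f g hgsum
    rw [tsum_eq_sum hgz] at h2
    have h3 : ∑ x ∈ U, ‖conv f g x‖ ^ 2 ≤ ∑' x, ‖conv f g x‖ ^ 2 :=
      h1.sum_le_tsum U (fun _ _ => by positivity)
    have h4 : (∑' x, ‖conv f g x‖ ^ 2) ≤
        C ^ 2 * weightedNorm S0 s f ^ 2 * (∑ z ∈ g.support, ‖g z‖ ^ 2) := by
      have h0 : 0 ≤ ∑' x, ‖conv f g x‖ ^ 2 := tsum_nonneg fun _ => by positivity
      calc ∑' x, ‖conv f g x‖ ^ 2 = Real.sqrt (∑' x, ‖conv f g x‖ ^ 2) ^ 2 :=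
            (Real.sq_sqrt h0).symm
        _ ≤ (C * weightedNorm S0 s f * Real.sqrt (∑ z ∈ g.support, ‖g z‖ ^ 2)) ^ 2 :=
            pow_le_pow_left₀ (Real.sqrt_nonneg _) h2 2
        _ = _ := by
            rw [mul_pow, mul_pow, Real.sq_sqrt (Finset.sum_nonneg fun _ _ => by positivity)]
    have h5 : weightedNorm S0 s f ^ 2 ≤
        ((r : ℝ) + 1) ^ ⌈2 * s⌉₊ * (∑ y ∈ f.support, ‖f y‖ ^ 2) := by
      unfold weightedNorm
      rw [Real.sq_sqrt (Finset.sum_nonneg fun _ _ => by positivity), Finset.mul_sum]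
      refine Finset.sum_le_sum fun x hx => ?_
      obtain ⟨l, hl1, hl2, hl3⟩ := hf x hx
      have hlen : wordLength S0 x ≤ r :=
        le_trans (wl_le (n := l.length) ⟨l, rfl, word_S hl2, hl3⟩) hl1
      have e0 : (wordLength S0 x : ℝ) ≤ r := by exact_mod_cast hlen
      have e2 : (1 : ℝ) ≤ 1 + (wordLength S0 x : ℝ) := by
        have : (0 : ℝ) ≤ wordLength S0 x := Nat.cast_nonneg _
        linarith
      have e3 : (1 + (wordLength S0 x : ℝ)) ^ (2 * s) ≤ ((r : ℝ) + 1) ^ ⌈2 * s⌉₊ := by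
        calc (1 + (wordLength S0 x : ℝ)) ^ (2 * s)
            ≤ (1 + (wordLength S0 x : ℝ)) ^ ((⌈2 * s⌉₊ : ℕ) : ℝ) :=
              Real.rpow_le_rpow_of_exponent_le e2 (Nat.le_ceil _)
          _ = (1 + (wordLength S0 x : ℝ)) ^ ⌈2 * s⌉₊ := Real.rpow_natCast _ _
          _ ≤ _ := by
              apply pow_le_pow_left₀ (by linarith)
              linarith
      calc ‖f x‖ ^ 2 * (1 + (wordLength S0 x : ℝ)) ^ (2 * s)
          ≤ ‖f x‖ ^ 2 * ((r : ℝ) + 1) ^ ⌈2 * s⌉₊ := by gcongr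
        _ = _ := mul_comm _ _
    calc ∑ x ∈ U, ‖∑ y ∈ f.support, f y * g (y⁻¹ * x)‖ ^ 2
        = ∑ x ∈ U, ‖conv f g x‖ ^ 2 := rfl
      _ ≤ C ^ 2 * weightedNorm S0 s f ^ 2 * (∑ z ∈ g.support, ‖g z‖ ^ 2) := h3.trans h4
      _ ≤ C ^ 2 * (((r : ℝ) + 1) ^ ⌈2 * s⌉₊ * (∑ y ∈ f.support, ‖f y‖ ^ 2)) *
            (∑ z ∈ g.support, ‖g z‖ ^ 2) := by gcongr
      _ = _ := by ring
  obtain ⟨C, k, hC⟩ := hQ hG
  -- no rapid decay for the twisted group
  have main : ∀ n : ℕ, (2 : ℝ) ^ n ≤ C * (((n + n : ℕ) : ℝ) + 1) ^ k := by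
    intro n
    set N : ℝ := (2 : ℝ) ^ n with hN
    have hNpos : 0 < N := by positivity
    have hcard : ((MM n).card : ℝ) = N := by rw [MM_card]; push_cast; rfl
    let f : LamG →₀ ℂ :=
      { support := MM n
        toFun := fun x => if x ∈ MM n then 1 else 0
        mem_support_toFun := by intro a; simp }
    have hfsupp : f.support = MM n := rfl
    have hfval : ∀ x ∈ MM n, f x = 1 := by
      intro x hx
      show (if x ∈ MM n then (1 : ℂ) else 0) = 1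
      rw [if_pos hx]
    have h1 := hC (n + n) f f (by
      intro x hx
      rw [hfsupp] at hx
      obtain ⟨l, h1, h2, h3⟩ := MM_isProd n hx
      exact ⟨l, le_of_eq h1, fun t ht => Or.inl (T0_finite.mem_toFinset.2 (h2 t ht)), h3⟩) (MM n)
    rw [hfsupp] at h1
    have hnorm : ∑ y ∈ MM n, ‖f y‖ ^ 2 = N := by
      rw [Finset.sum_congr rfl (fun x hx => by rw [hfval x hx])]
      simp [hcard]
    have hconv : ∀ x ∈ MM n, ∑ y ∈ MM n, f y * f (y⁻¹ * x) = (N : ℂ) := by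
      intro x hx
      rw [Finset.sum_congr rfl (fun y hy => by
        rw [hfval y hy, hfval _ (MM_closed n hy hx)])]
      simp only [mul_one, Finset.sum_const, nsmul_eq_mul]
      rw [← hcard]
      push_cast
      rfl
    rw [hnorm, Finset.sum_congr rfl (fun x hx => by rw [hconv x hx]), Finset.sum_const,
      nsmul_eq_mul, hcard, Complex.norm_real, Real.norm_of_nonneg hNpos.le] at h1
    have h2 : N * (N * N) ≤ (C * (((n + n : ℕ) : ℝ) + 1) ^ k) * (N * N) := by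
      calc N * (N * N) = N * N ^ 2 := by ring
        _ ≤ _ := h1
        _ = _ := by ring
    exact le_of_mul_le_mul_right h2 (by positivity)
  have hlim := tendsto_pow_const_div_const_pow_of_one_lt k (show (1 : ℝ) < 2 by norm_num)
  have hC0 : 0 ≤ C := by
    have := main 0
    simp at this
    linarith
  set D : ℝ := C * 3 ^ k + 1 with hD
  have hDpos : 0 < D := by positivity
  have hev := hlim.eventually (gt_mem_nhds (show (0 : ℝ) < 1 / D by positivity))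
  obtain ⟨n, hn1, hn2⟩ := (hev.and (Filter.eventually_ge_atTop 1)).exists
  have h2n : (0 : ℝ) < 2 ^ n := by positivity
  rw [div_lt_div_iff₀ h2n hDpos, one_mul] at hn1
  have hm := main n
  have hn1' : (1 : ℝ) ≤ n := by exact_mod_cast hn2
  have h6 : (((n + n : ℕ) : ℝ) + 1) ^ k ≤ (3 * (n : ℝ)) ^ k := by
    apply pow_le_pow_left₀ (by positivity)
    push_cast
    linarith
  have h7 : (2 : ℝ) ^ n ≤ C * 3 ^ k * (n : ℝ) ^ k := by
    calc (2 : ℝ) ^ n ≤ C * (((n + n : ℕ) : ℝ) + 1) ^ k := hm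
      _ ≤ C * (3 * (n : ℝ)) ^ k := by gcongr
      _ = _ := by rw [mul_pow]; ring
  have h8 : (0 : ℝ) < (n : ℝ) ^ k := by positivity
  have h9 : C * 3 ^ k * (n : ℝ) ^ k ≤ (n : ℝ) ^ k * D := by
    rw [hD]; nlinarith
  linarith

end Pool.Agent.S06792
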