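import Pool.Statements.S06894
import Pool.Agent.W536.LM.Main
import Pool.Agent.W536.LM.Core
import Pool.Agent.W371.LM.NAT
import Pool.Agent.W797.LM.Deg
import Pool.Agent.W735.LM.FAC
import Pool.Agent.W513.LM.Top
import Pool.Agent.W691.LM.Res0
import Pool.Agent.W318.LM.Z
import Pool.Agent.W462.LM.PropChain
import Pool.Agent.W753.LM.ETA
import Pool.Agent.W481.LM.Hens
import Pool.Agent.W412.LM.ORDA
import Pool.Agent.W198.LM.OrdB
import Pool.Agent.W847.LM.SIGN
import Pool.Agent.W3.LM.Geo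
import Pool.Agent.W696.LM.RK
import Pool.Agent.W724.LM.Rig
import Pool.Agent.W505.LM.IND
import Pool.Agent.W806.LM.GEN
import Pool.Agent.W40.LM.Steps
import Pool.Agent.W503.LM.Eq
import Pool.Agent.W768.LM.POS
import Pool.Agent.W827.LM.Fini

set_option autoImplicit false
open Pool Pool.MP_01c1f4_co

namespace Pool.Agent.S06894

/-- all parts except the finiteness statement are unconditional -/
theorem core_holds : W536.LM.S_CORE := by
  have hN := W371.LM.t_NAT
  have hD := Pool.Agent.W797.LM.t_DEG hN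
  have hF := Pool.Agent.W735.LM.t_FAC hN hD
  have hT := Pool.Agent.W513.LM.t_TOP hN hD
  have hR := Pool.Agent.W691.LM.t_RES0
  have hZ := Pool.Agent.W318.LM.t_Z hN hD hT hR
  have hP := Pool.Agent.W462.LM.t_PROP
  have hC := Pool.Agent.W462.LM.t_CHAIN
  have hE := Pool.Agent.W753.LM.t_ETA hZ hP
  have hH := W481.LM.t_HENS
  have h0 := Pool.Agent.W40.LM.t_STEP0 hH
  have h1 := Pool.Agent.W40.LM.t_STEP1 hH
  have hA := Pool.Agent.W412.LM.t_ORDA hN hF h0 h1 hE
  have hB := Pool.Agent.W198.LM.OrdB.t_ORDB hN hF h0 h1 hE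
  have hQ := Pool.Agent.W503.LM.t_EQ hN hD hF
  have hPos := Pool.Agent.W768.LM.t_POS hN hF hQ
  exact W536.LM.t_CORE hN hZ hC hA hB hQ hPos Pool.Agent.W847.LM.t_SIGN

/-- The negation of the preceding statement: Every graph that is rigid in the plane has a generic real planar realisation p for which the number of real realisations with the same edge lengths, up to congruence, equals the number of complex ones up to congruence. -/
theorem result :
    ¬ (∀ (n : ℕ) (G : SimpleGraph (Fin n)),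
    (∀ p : Fin n → Fin 2 → ℝ,
      AlgebraicIndependent ℚ (fun x : Fin n × Fin 2 => p x.1 x.2) →
      ∀ u : Fin n → Fin 2 → ℝ,
        (∀ i j, G.Adj i j → ∑ k, (p i k - p j k) * (u i k - u j k) = 0) →
        ∀ i j, ∑ k, (p i k - p j k) * (u i k - u j k) = 0) →
    ∃ p : Fin n → Fin 2 → ℝ,
      AlgebraicIndependent ℚ (fun x : Fin n × Fin 2 => p x.1 x.2) ∧
      {D : Fin n → Fin n → ℝ | ∃ q : Fin n → Fin 2 → ℝ,
          (∀ i j, G.Adj i j → ∑ k, (q i k - q j k) ^ 2 = ∑ k, (p i k - p j k) ^ 2) ∧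
          D = fun i j => ∑ k, (q i k - q j k) ^ 2}.ncard =
      {D : Fin n → Fin n → ℂ | ∃ q : Fin n → Fin 2 → ℂ,
          (∀ i j, G.Adj i j →
            ∑ k, (q i k - q j k) ^ 2 = ∑ k, ((p i k : ℂ) - (p j k : ℂ)) ^ 2) ∧
          D = fun i j => ∑ k, (q i k - q j k) ^ 2}.ncard) := by
  have hRK := Pool.Agent.W696.LM.t_RK
  exact W536.LM.final (Pool.Agent.W724.LM.Rig.t_RIG hRK) (Pool.Agent.W505.LM.t_IND hRK)
    Pool.Agent.W806.LM.t_GEN W827.LM.t_FINI W3.LM.t_GEO core_holds

end Pool.Agent.S06894
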