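import Pool.Statements.S06983
-- import your own Pool.Agent.* helpers here
import Pool.Agent.W848.N2.Fin
import Pool.Agent.W60.N2.Rev
import Pool.Agent.W73.N2.Back
import Pool.Agent.W428.N2.Tour
import Pool.Agent.W715.N2.K4
import Pool.Agent.W899.N2.SUM
import Pool.Agent.W287.N2.Rot
import Pool.Agent.W790.N2.QUAD
import Pool.Agent.W303.N2.FC4
import Pool.Agent.W402.N2.Dig

set_option autoImplicit false
open Pool Pool.MP_061df2_co

namespace Pool.Agent.S06983

/-- For every orientation of a cycle of even length 2m ≥ 4 and every η > 0, there is n0 such that for every n ≥ n0 divisible by 2m, every n-vertex digraph whose every vertex has in- and out-degree at least (1/2+η)n splits into vertex-disjoint copies of that oriented cycle. -/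
theorem result :
    ∀ m : ℕ, 2 ≤ m → ∀ d : Fin (2 * m) → Bool, ∀ η : ℝ, 0 < η →
      ∃ n0 : ℕ, ∀ n : ℕ, n0 ≤ n → 2 * m ∣ n →
        ∀ G : Digraph (Fin n),
          (∀ v : Fin n,
            ((1 : ℝ) / 2 + η) * (n : ℝ) ≤ (({w : Fin n | w ≠ v ∧ G.Adj v w}.ncard : ℕ) : ℝ) ∧
            ((1 : ℝ) / 2 + η) * (n : ℝ) ≤ (({w : Fin n | w ≠ v ∧ G.Adj w v}.ncard : ℕ) : ℝ)) →
          ∃ e : Fin (n / (2 * m)) × Fin (2 * m) ≃ Fin n,
            ∀ j : Fin (n / (2 * m)), ∀ i i' : Fin (2 * m),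
              i'.val = (i.val + 1) % (2 * m) →
                (d i = true → G.Adj (e (j, i)) (e (j, i'))) ∧
                (d i = false → G.Adj (e (j, i')) (e (j, i))) := by
  exact Pool.Agent.W848.N2.main_of
    (Pool.Agent.W303.N2.t_FC4 Pool.Agent.W287.N2.t_ROT Pool.Agent.W715.N2.t_K4 Pool.Agent.W428.N2.t_TOUR)
    (Pool.Agent.W848.N2.pos_of Pool.Agent.W287.N2.t_ROT Pool.Agent.W60.N2.t_REV Pool.Agent.W73.N2.t_BACK
      Pool.Agent.W402.N2.t_DIG Pool.Agent.W790.N2.t_QUAD Pool.Agent.W428.N2.t_TOUR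
      Pool.Agent.W715.N2.t_K4 Pool.Agent.W899.N2.SUM.t_SUM)

end Pool.Agent.S06983
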