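import Pool.Statements.S06995
import Pool.Agent.W151.TreeEnd

set_option autoImplicit false
open Pool Pool.MP_0669be_co

namespace Pool.Agent.S06995

/-- For every graph G on n vertices, the average number of vertices of a subtree of G (a subgraph that is a tree) is at most the same average for the complete graph on n vertices. -/
theorem result :
    ∀ (n : ℕ) (G : SimpleGraph (Fin n)),
      (∑ k ∈ Finset.range (n + 1),
          (k : ℝ) * (Set.ncard {H : G.Subgraph | H.coe.IsTree ∧ H.verts.ncard = k} : ℝ)) /
        (∑ k ∈ Finset.range (n + 1),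
          (Set.ncard {H : G.Subgraph | H.coe.IsTree ∧ H.verts.ncard = k} : ℝ))
      ≤
      (∑ k ∈ Finset.range (n + 1),
          (k : ℝ) * (Set.ncard {H : (⊤ : SimpleGraph (Fin n)).Subgraph |
            H.coe.IsTree ∧ H.verts.ncard = k} : ℝ)) /
        (∑ k ∈ Finset.range (n + 1),
          (Set.ncard {H : (⊤ : SimpleGraph (Fin n)).Subgraph |
            H.coe.IsTree ∧ H.verts.ncard = k} : ℝ)) := by
  intro n G
  have h := Pool.Agent.W151.TreeIneq.final G
  rw [Fintype.card_fin] at h
  simp only [Pool.Agent.W151.TreeIneq.s_eq]
  exact h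

end Pool.Agent.S06995
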