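import Pool.Statements.S07056

set_option autoImplicit false
open Pool Pool.MP_0959cd_co

namespace Pool.Agent.S07056

open Finset
open scoped Fin.NatCast Fin.CommRing

/-- The tree: `none` is the root, `some (i, none)` its five children, `some (i, some j)` the five
children of the child `i`. -/
abbrev T := Option (Fin 5 × Option (Fin 5))

/-- Arc weights: every vertex of the tree has total out-weight `1`; leaves send back arcs to their
two ancestors. -/
noncomputable def q : T → T → ℝ
  | none, some (_, none) => 1 / 5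
  | some (i, none), some (i', some _) => if i = i' then 1 / 5 else 0
  | some (_, some _), none => 1 / 2
  | some (i, some _), some (i', none) => if i = i' then 1 / 2 else 0
  | _, _ => 0

lemma q_nonneg (s t : T) : 0 ≤ q s t := by
  rcases s with _ | ⟨i, _ | j⟩ <;> rcases t with _ | ⟨i', _ | j'⟩ <;> simp only [q] <;>
    (try split_ifs) <;> norm_num

lemma q_le (s t : T) : q s t ≤ 1 := by
  rcases s with _ | ⟨i, _ | j⟩ <;> rcases t with _ | ⟨i', _ | j'⟩ <;> simp only [q] <;>
    (try split_ifs) <;> norm_num

lemma q_self (s : T) : q s s = 0 := by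
  rcases s with _ | ⟨i, _ | j⟩ <;> simp [q]

lemma q_sum (s : T) : ∑ t, q s t = 1 := by
  rcases s with _ | ⟨i, _ | j⟩
  · simp [Fintype.sum_option, Fintype.sum_prod_type, q]
  · simp [Fintype.sum_option, Fintype.sum_prod_type, q]
  · simp [Fintype.sum_option, Fintype.sum_prod_type, q]
    norm_num

lemma pred_leaf {s : T} {a b : Fin 5} (h : q s (some (a, some b)) ≠ 0) : s = some (a, none) := by
  rcases s with _ | ⟨i, _ | j⟩ <;> simp [q] at h ⊢
  exact h

lemma step_leaf {t : T} {a b : Fin 5} (h : q (some (a, some b)) t ≠ 0) :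
    t = none ∨ t = some (a, none) := by
  rcases t with _ | ⟨i, _ | j⟩ <;> simp [q] at h ⊢
  exact h.symm

lemma step_child {t : T} {a : Fin 5} (h : q (some (a, none)) t ≠ 0) :
    ∃ b, t = some (a, some b) := by
  rcases t with _ | ⟨i, _ | j⟩ <;> simp [q] at h ⊢
  exact h.symm

lemma step_root {t : T} (h : q none t ≠ 0) : ∃ a, t = some (a, none) := by
  rcases t with _ | ⟨i, _ | j⟩ <;> simp [q] at h ⊢

lemma two_ne {k : ℕ} {i : Fin (k + 2)} (h : i + 1 + 1 = i) : k = 0 := by
  have h1 : ((2 : ℕ) : Fin (k + 2)) = 0 := by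
    have h2 : i + (1 + 1) = i + 0 := by rw [← add_assoc, h, add_zero]
    have h3 := add_left_cancel h2
    rw [← h3]; push_cast; norm_num
  have h4 := (Fin.natCast_eq_zero).1 h1
  have h5 := Nat.le_of_dvd (by norm_num) h4
  omega

lemma three_ne {k : ℕ} {i : Fin (k + 2)} (h : i + 1 + 1 + 1 = i) : k ≤ 1 := by
  have h1 : ((3 : ℕ) : Fin (k + 2)) = 0 := by
    have h2 : i + (1 + 1 + 1) = i + 0 := by rw [← add_assoc, ← add_assoc, h, add_zero]
    have h3 := add_left_cancel h2
    rw [← h3]; push_cast; norm_num
  have h4 := (Fin.natCast_eq_zero).1 h1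
  have h5 := Nat.le_of_dvd (by norm_num) h4
  omega

/-- Directed cycles of the tree digraph have length at most three. -/
lemma cyc_len {k : ℕ} (c : Fin (k + 2) → T) (hc : Function.Injective c)
    (h : ∀ i, q (c i) (c (i + 1)) ≠ 0) : k ≤ 1 := by
  have key : ∀ (i : Fin (k + 2)) (a : Fin 5), c i = some (a, none) → k ≤ 1 := by
    intro i a hi
    obtain ⟨b, hb⟩ := step_child (hi ▸ h i)
    rcases step_leaf (hb ▸ h (i + 1)) with h2 | h2
    · obtain ⟨a', h3⟩ := step_root (h2 ▸ h (i + 1 + 1))
      obtain ⟨b', h4⟩ := step_child (h3 ▸ h (i + 1 + 1 + 1))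
      rcases step_leaf (h4 ▸ h (i + 1 + 1 + 1 + 1)) with h5 | h5
      · exact three_ne (hc (h5.trans h2.symm))
      · exact (two_ne (hc (h5.trans h3.symm))).trans_le (by norm_num)
    · exact (two_ne (hc (h2.trans hi.symm))).trans_le (by norm_num)
  rcases h0 : c 0 with _ | ⟨a, _ | b⟩
  · obtain ⟨a', h3⟩ := step_root (h0 ▸ h 0)
    exact key _ _ h3
  · exact key _ _ h0
  · rcases step_leaf (h0 ▸ h 0) with h2 | h2
    · obtain ⟨a', h3⟩ := step_root (h2 ▸ h (0 + 1))
      exact key _ _ h3
    · exact key _ _ h2

/-- Directed cycles of the tree digraph have weight less than one. -/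
lemma cyc_lt {k : ℕ} (c : Fin (k + 2) → T) (hc : Function.Injective c)
    (h : ∀ i, q (c i) (c (i + 1)) ≠ 0) : ∑ i, q (c i) (c (i + 1)) < 1 := by
  have hk := cyc_len c hc h
  interval_cases k
  · rw [Fin.sum_univ_two]
    have h0 := h 0
    have h1 := h 1
    have e1 : (0 : Fin (0 + 2)) + 1 = 1 := rfl
    have e2 : (1 : Fin (0 + 2)) + 1 = 0 := rfl
    rw [e1] at h0 ⊢
    rw [e2] at h1 ⊢
    revert h0 h1
    generalize c 0 = s
    generalize c 1 = t
    rcases s with _ | ⟨i, _ | j⟩ <;> rcases t with _ | ⟨i', _ | j'⟩ <;> simp [q] <;>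
      intros <;> subst_vars <;> norm_num
  · rw [Fin.sum_univ_three]
    have h0 := h 0
    have h1 := h 1
    have h2 := h 2
    have e1 : (0 : Fin (1 + 2)) + 1 = 1 := rfl
    have e2 : (1 : Fin (1 + 2)) + 1 = 2 := rfl
    have e3 : (2 : Fin (1 + 2)) + 1 = 0 := rfl
    rw [e1] at h0 ⊢
    rw [e2] at h1 ⊢
    rw [e3] at h2 ⊢
    revert h0 h1 h2
    generalize c 0 = s
    generalize c 1 = t
    generalize c 2 = u
    rcases s with _ | ⟨i, _ | j⟩ <;> rcases t with _ | ⟨i', _ | j'⟩ <;>
      rcases u with _ | ⟨i'', _ | j''⟩ <;> simp [q] <;>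
      intros <;> subst_vars <;> norm_num

/-- The weights of the counterexample: a reversed copy of the tree digraph, a copy of it, and a
perfect matching of arcs of weight one from the former to the latter. -/
noncomputable def p : Bool × T → Bool × T → ℝ
  | (true, s), (true, t) => q s t
  | (false, s), (false, t) => q t s
  | (false, s), (true, t) => if s = t then 1 else 0
  | (true, _), (false, _) => 0

lemma all_true {k : ℕ} (c : Fin (k + 2) → Bool × T)
    (h : ∀ i, p (c i) (c (i + 1)) ≠ 0) (i : Fin (k + 2)) (hi : (c i).1 = true) :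
    ∀ j, (c j).1 = true := by
  have step : ∀ i, (c i).1 = true → (c (i + 1)).1 = true := by
    intro i hi
    have h1 := h i
    rcases h2 : c i with ⟨x, s⟩
    rcases h3 : c (i + 1) with ⟨y, t⟩
    rw [h2] at hi h1
    rw [h3] at h1
    simp at hi
    subst hi
    rcases y with _ | _
    · simp [p] at h1
    · rfl
  have h2 : ∀ n : ℕ, (c (i + (n : Fin (k + 2)))).1 = true := by
    intro n
    induction n with
    | zero => simpa using hi
    | succ n ih =>
      have := step _ ih
      rw [add_assoc] at this
      simpa using this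
  intro j
  have h3 := h2 (j - i).val
  rw [Fin.cast_val_eq_self, add_sub_cancel] at h3
  exact h3

/-- The negation of the preceding statement: In every finite nonempty loopless digraph with arc weights in [0,1] where each vertex has total out-weight at least 1 and total in-weight at least 1, some directed cycle has total weight at least 1. -/
theorem result :
    ¬ (∀ (V : Type) [Fintype V] [Nonempty V] (G : Digraph V) (p : V → V → ℝ),
      (∀ v, ¬ G.Adj v v) →
      (∀ u v, 0 ≤ p u v ∧ p u v ≤ 1) →
      (∀ u v, ¬ G.Adj u v → p u v = 0) →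
      (∀ u, 1 ≤ ∑ v, p u v) →
      (∀ u, 1 ≤ ∑ v, p v u) →
      ∃ (k : ℕ) (c : Fin (k + 2) → V),
        Function.Injective c ∧
        (∀ i, G.Adj (c i) (c (i + 1))) ∧
        1 ≤ ∑ i, p (c i) (c (i + 1))) := by
  intro H
  obtain ⟨k, c, hc, hadj, hsum⟩ := H (Bool × T) ⟨fun u v => p u v ≠ 0⟩ p
    (by
      rintro ⟨x, s⟩ h
      apply h
      rcases x with _ | _ <;> simp [p, q_self])
    (by
      rintro ⟨x, s⟩ ⟨y, t⟩
      rcases x with _ | _ <;> rcases y with _ | _ <;> simp only [p]
      · exact ⟨q_nonneg _ _, q_le _ _⟩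
      · split_ifs <;> norm_num
      · norm_num
      · exact ⟨q_nonneg _ _, q_le _ _⟩)
    (by
      intro u v h
      by_contra h1
      exact h h1)
    (by
      rintro ⟨x, s⟩
      rw [Fintype.sum_prod_type, Fintype.sum_bool]
      rcases x with _ | _
      · have h1 : ∑ t, p (false, s) (true, t) = 1 := by simp [p]
        have h2 : 0 ≤ ∑ t, p (false, s) (false, t) :=
          Finset.sum_nonneg (fun t _ => by simp only [p]; exact q_nonneg _ _)
        rw [h1]; linarith
      · have h1 : ∑ t, p (true, s) (true, t) = 1 := by simp only [p]; exact q_sum s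
        have h2 : 0 ≤ ∑ t, p (true, s) (false, t) :=
          Finset.sum_nonneg (fun t _ => by simp only [p]; norm_num)
        rw [h1]; linarith)
    (by
      rintro ⟨x, s⟩
      rw [Fintype.sum_prod_type, Fintype.sum_bool]
      rcases x with _ | _
      · have h1 : ∑ t, p (false, t) (false, s) = 1 := by simp only [p]; exact q_sum s
        have h2 : 0 ≤ ∑ t, p (true, t) (false, s) :=
          Finset.sum_nonneg (fun t _ => by simp only [p]; norm_num)
        rw [h1]; linarith
      · have h1 : ∑ t, p (false, t) (true, s) = 1 := by simp [p]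
        have h2 : 0 ≤ ∑ t, p (true, t) (true, s) :=
          Finset.sum_nonneg (fun t _ => by simp only [p]; exact q_nonneg _ _)
        rw [h1]; linarith)
  have hadj' : ∀ i, p (c i) (c (i + 1)) ≠ 0 := hadj
  by_cases hex : ∃ i, (c i).1 = true
  · obtain ⟨i, hi⟩ := hex
    have hall := all_true c hadj' i hi
    have hce : ∀ i, c i = (true, (c i).2) := fun i => Prod.ext (hall i) rfl
    have hp : ∀ i, p (c i) (c (i + 1)) = q (c i).2 (c (i + 1)).2 := by
      intro i
      rw [hce i, hce (i + 1)]
      rfl
    have h1 := cyc_lt (fun i => (c i).2)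
      (by
        intro i j hij
        apply hc
        rw [hce i, hce j]
        exact Prod.ext rfl hij)
      (by
        intro i
        have := hadj' i
        rw [hp] at this
        exact this)
    rw [Finset.sum_congr rfl (fun i _ => hp i)] at hsum
    exact absurd hsum (not_le.2 h1)
  · have hall : ∀ i, (c i).1 = false := by
      intro i
      by_contra h
      exact hex ⟨i, by simpa using h⟩
    have hce : ∀ i, c i = (false, (c i).2) := fun i => Prod.ext (hall i) rfl
    have hp : ∀ i, p (c i) (c (i + 1)) = q (c (i + 1)).2 (c i).2 := by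
      intro i
      rw [hce i, hce (i + 1)]
      rfl
    have hneg : ∀ i : Fin (k + 2), -(i + 1) + 1 = -i := by
      intro i; abel
    have h1 := cyc_lt (fun i => (c (-i)).2)
      (by
        intro i j hij
        have : -i = -j := by
          apply hc
          rw [hce (-i), hce (-j)]
          exact Prod.ext rfl hij
        exact neg_injective this)
      (by
        intro i
        have := hadj' (-(i + 1))
        rw [hp, hneg] at this
        exact this)
    have h2 : ∑ i, p (c i) (c (i + 1)) = ∑ i, q (c (-i)).2 (c (-(i + 1))).2 := by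
      rw [Finset.sum_congr rfl (fun i _ => hp i)]
      refine Fintype.sum_equiv ((Equiv.addRight (1 : Fin (k + 2))).trans (Equiv.neg _)) _ _ ?_
      intro i
      simp only [Equiv.trans_apply, Equiv.coe_addRight, Equiv.neg_apply, neg_neg]
      rw [show -(-(i + 1) + 1) = i by abel]
    rw [h2] at hsum
    exact absurd hsum (not_le.2 h1)

end Pool.Agent.S07056
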