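import Pool.Statements.S07065
import Pool.Agent.W290.HamSucc
import Pool.Agent.Results.MP_098c03_co.FourConnected

set_option autoImplicit false
open Classical
open Pool Pool.MP_098c03_co

namespace Pool.Agent.S07065

open Pool.Agent.Results.MP_098c03_co.FourConnected
open Pool.Agent.H247R2.Ham4

noncomputable def PP : Finset (EuclideanSpace ℝ (Fin 2)) := Finset.univ.image cpt
noncomputable def LL : Finset (AffineSubspace ℝ (EuclideanSpace ℝ (Fin 2))) :=
  Finset.univ.image cln

theorem mem_PP (i : Fin 246) : cpt i ∈ PP := Finset.mem_image_of_mem _ (Finset.mem_univ _)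
theorem mem_LL (j : Fin 246) : cln j ∈ LL := Finset.mem_image_of_mem _ (Finset.mem_univ _)

noncomputable def eP : Fin 246 ≃ {p // p ∈ PP} :=
  Equiv.ofBijective (fun i => ⟨cpt i, mem_PP i⟩) ⟨fun i j h => cpt_inj (congrArg Subtype.val h), by
    rintro ⟨p, hp⟩
    obtain ⟨i, -, rfl⟩ := Finset.mem_image.1 hp
    exact ⟨i, rfl⟩⟩

noncomputable def eL : Fin 246 ≃ {l // l ∈ LL} :=
  Equiv.ofBijective (fun i => ⟨cln i, mem_LL i⟩) ⟨fun i j h => cln_inj (congrArg Subtype.val h), by
    rintro ⟨p, hp⟩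
    obtain ⟨i, -, rfl⟩ := Finset.mem_image.1 hp
    exact ⟨i, rfl⟩⟩

/-- the Levi graph of the frozen statement -/
noncomputable def GG : SimpleGraph ({p // p ∈ PP} ⊕ {l // l ∈ LL}) :=
  SimpleGraph.fromRel
          (fun a b : {p // p ∈ PP} ⊕ {l // l ∈ LL} =>
            ∃ p l, a = Sum.inl p ∧ b = Sum.inr l ∧
              (p : EuclideanSpace ℝ (Fin 2)) ∈
                (l : AffineSubspace ℝ (EuclideanSpace ℝ (Fin 2))))

noncomputable def eV : (Fin 246 ⊕ Fin 246) ≃ ({p // p ∈ PP} ⊕ {l // l ∈ LL}) :=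
  Equiv.sumCongr eP eL

theorem adj_iff (x y : Fin 246 ⊕ Fin 246) : GG.Adj (eV x) (eV y) ↔ C246.levi.Adj x y := by
  unfold GG
  rw [SimpleGraph.fromRel_adj]
  constructor
  · rintro ⟨-, ⟨p, l, h1, h2, h3⟩ | ⟨p, l, h1, h2, h3⟩⟩
    · rcases x with i | j <;> rcases y with i' | j'
      · simp [eV] at h2
      · left
        refine ⟨i, j', rfl, rfl, ?_⟩
        simp only [eV, Equiv.sumCongr_apply, Sum.map_inl, Sum.map_inr, Sum.inl.injEq,
          Sum.inr.injEq] at h1 h2
        rw [← h1, ← h2] at h3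
        exact h3
      · simp [eV] at h1
      · simp [eV] at h1
    · rcases x with i | j <;> rcases y with i' | j'
      · simp [eV] at h2
      · simp [eV] at h2
      · right
        refine ⟨i', j, rfl, rfl, ?_⟩
        simp only [eV, Equiv.sumCongr_apply, Sum.map_inl, Sum.map_inr, Sum.inl.injEq,
          Sum.inr.injEq] at h1 h2
        rw [← h1, ← h2] at h3
        exact h3
      · simp [eV] at h1
  · rintro (⟨i, j, rfl, rfl, h⟩ | ⟨i, j, rfl, rfl, h⟩)
    · refine ⟨by simp [eV], Or.inl ⟨eP i, eL j, rfl, rfl, h⟩⟩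
    · refine ⟨by simp [eV], Or.inr ⟨eP i, eL j, rfl, rfl, h⟩⟩

noncomputable def eG : C246.levi ≃g GG where
  toEquiv := eV
  map_rel_iff' := adj_iff _ _

theorem card_P (l : AffineSubspace ℝ (EuclideanSpace ℝ (Fin 2))) (hl : l ∈ LL) :
    (PP.filter (fun p => p ∈ l)).card = 4 := by
  obtain ⟨j, -, rfl⟩ := Finset.mem_image.1 hl
  have h := points4 j
  rw [← h, Set.ncard_eq_toFinset_card']
  refine (Finset.card_bij (fun i _ => cpt i) ?_ ?_ ?_).symm
  · intro i hi
    simp only [Set.mem_toFinset, Set.mem_ofPred_eq] at hi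
    exact Finset.mem_filter.2 ⟨mem_PP i, hi⟩
  · intro i _ i' _ h
    exact cpt_inj h
  · intro p hp
    obtain ⟨hp1, hp2⟩ := Finset.mem_filter.1 hp
    obtain ⟨i, -, rfl⟩ := Finset.mem_image.1 hp1
    exact ⟨i, by simpa using hp2, rfl⟩

theorem card_L (p : EuclideanSpace ℝ (Fin 2)) (hp : p ∈ PP) :
    (LL.filter (fun l => p ∈ l)).card = 4 := by
  obtain ⟨i, -, rfl⟩ := Finset.mem_image.1 hp
  have h := lines4 i
  rw [← h, Set.ncard_eq_toFinset_card']
  refine (Finset.card_bij (fun i _ => cln i) ?_ ?_ ?_).symm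
  · intro i hi
    simp only [Set.mem_toFinset, Set.mem_ofPred_eq] at hi
    exact Finset.mem_filter.2 ⟨mem_LL i, hi⟩
  · intro i _ i' _ h
    exact cln_inj h
  · intro p hp
    obtain ⟨hp1, hp2⟩ := Finset.mem_filter.1 hp
    obtain ⟨i, -, rfl⟩ := Finset.mem_image.1 hp1
    exact ⟨i, by simpa using hp2, rfl⟩

theorem isN_of_adj {x y : Fin 246 ⊕ Fin 246} (h : C246.levi.Adj x y) :
    isN (code x) (code y) = true := by
  rcases h with ⟨i, j, rfl, rfl, h⟩ | ⟨i, j, rfl, rfl, h⟩
  · exact (mem_iff i j).1 h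
  · exact (mem_iff' i j).1 h

theorem conn (S : Finset ({p // p ∈ PP} ⊕ {l // l ∈ LL})) (hS : S.card < 3) :
    (GG.induce ((↑S : Set ({p // p ∈ PP} ⊕ {l // l ∈ LL}))ᶜ)).Connected := by
  have h := kconn.2 (S.map eV.symm.toEmbedding) (by rw [Finset.card_map]; omega)
  have e2 : (C246.levi.induce {v | v ∉ S.map eV.symm.toEmbedding}) ≃g
      (GG.induce ((↑S : Set ({p // p ∈ PP} ⊕ {l // l ∈ LL}))ᶜ)) := by
    refine ⟨Equiv.subtypeEquiv eV ?_, ?_⟩
    · intro a
      simp
    · intro a b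
      exact adj_iff _ _
  exact e2.connected_iff.1 h

theorem noHam : ¬ GG.IsHamiltonian := by
  intro hG
  have hcard : Fintype.card ({p // p ∈ PP} ⊕ {l // l ∈ LL}) = 492 := by
    rw [← Fintype.card_congr eV]; simp
  obtain ⟨s, s1, s2, s3⟩ := Pool.Agent.W290.exists_succ GG hG (by rw [hcard]; norm_num)
  -- transport to `Fin 492`
  let dec : Fin 492 → Fin 246 ⊕ Fin 246 := fun v =>
    if h : (v : ℕ) < 246 then Sum.inl ⟨v, h⟩ else Sum.inr ⟨v - 246, by omega⟩
  have hdec : ∀ v : Fin 492, code (dec v) = v := by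
    intro v
    by_cases h : (v : ℕ) < 246
    · simp [dec, h, code]
    · simp [dec, h, code]; omega
  have hdec2 : ∀ x, dec ⟨code x, code_lt x⟩ = x := by
    intro x
    apply code_inj
    rw [hdec]
  let t : Fin 492 → Fin 492 := fun v => ⟨code (eV.symm (s (eV (dec v)))), code_lt _⟩
  refine no_cycle t ?_ ?_ ?_
  · intro v w h
    have h1 : code (eV.symm (s (eV (dec v)))) = code (eV.symm (s (eV (dec w)))) :=
      congrArg Fin.val h
    have h2 := eV.injective (s1 (eV.symm.injective (code_inj h1)))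
    apply Fin.ext
    rw [← hdec v, ← hdec w, h2]
  · intro v
    have h1 := s2 (eV (dec v))
    have h2 : C246.levi.Adj (dec v) (eV.symm (s (eV (dec v)))) := by
      rw [← adj_iff, Equiv.apply_symm_apply]; exact h1
    have h3 := isN_of_adj h2
    rw [hdec] at h3
    exact h3
  · intro S hne hS
    let T : Set ({p // p ∈ PP} ⊕ {l // l ∈ LL}) :=
      {x | (⟨code (eV.symm x), code_lt _⟩ : Fin 492) ∈ S}
    have hT := s3 T ?_ ?_
    · ext v
      simp only [Set.mem_univ, iff_true]
      have : eV (dec v) ∈ T := by rw [hT]; exact Set.mem_univ _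
      have h2 : (⟨code (eV.symm (eV (dec v))), code_lt _⟩ : Fin 492) ∈ S := this
      have h3 : (⟨code (eV.symm (eV (dec v))), code_lt _⟩ : Fin 492) = v := by
        apply Fin.ext
        change code (eV.symm (eV (dec v))) = v
        rw [Equiv.symm_apply_apply, hdec]
      rwa [h3] at h2
    · obtain ⟨v, hv⟩ := hne
      refine ⟨eV (dec v), ?_⟩
      change (⟨code (eV.symm (eV (dec v))), code_lt _⟩ : Fin 492) ∈ S
      have h3 : (⟨code (eV.symm (eV (dec v))), code_lt _⟩ : Fin 492) = v := by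
        apply Fin.ext
        change code (eV.symm (eV (dec v))) = v
        rw [Equiv.symm_apply_apply, hdec]
      rw [h3]; exact hv
    · intro x hx
      have h1 := hS _ hx
      have h2 : t ⟨code (eV.symm x), code_lt _⟩ = ⟨code (eV.symm (s x)), code_lt _⟩ := by
        apply Fin.ext
        change code (eV.symm (s (eV (dec ⟨code (eV.symm x), code_lt _⟩)))) = _
        rw [hdec2, Equiv.apply_symm_apply]
      rw [h2] at h1
      exact h1


/-- There is a nonempty finite set of plane points and lines, each point on exactly 4 of the lines and each line through exactly 4 of the points, whose point-line incidence graph is 3-connected but has no Hamiltonian cycle. -/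
theorem result :
    ∃ (P : Finset (EuclideanSpace ℝ (Fin 2)))
      (L : Finset (AffineSubspace ℝ (EuclideanSpace ℝ (Fin 2)))),
      P.Nonempty ∧
      (∀ l ∈ L, Module.finrank ℝ l.direction = 1) ∧
      (∀ p ∈ P, (L.filter (fun l => p ∈ l)).card = 4) ∧
      (∀ l ∈ L, (P.filter (fun p => p ∈ l)).card = 4) ∧
      ∃ G : SimpleGraph ({p // p ∈ P} ⊕ {l // l ∈ L}),
        G = SimpleGraph.fromRel
          (fun a b : {p // p ∈ P} ⊕ {l // l ∈ L} =>
            ∃ p l, a = Sum.inl p ∧ b = Sum.inr l ∧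
              (p : EuclideanSpace ℝ (Fin 2)) ∈
                (l : AffineSubspace ℝ (EuclideanSpace ℝ (Fin 2)))) ∧
        3 < Fintype.card ({p // p ∈ P} ⊕ {l // l ∈ L}) ∧
        (∀ S : Finset ({p // p ∈ P} ⊕ {l // l ∈ L}), S.card < 3 →
          (G.induce ((↑S : Set ({p // p ∈ P} ⊕ {l // l ∈ L}))ᶜ)).Connected) ∧
        ¬ G.IsHamiltonian := by
  refine ⟨PP, LL, ⟨cpt 0, mem_PP 0⟩, ?_, card_L, card_P, GG, rfl, ?_, ?_, ?_⟩
  · intro l hl
    obtain ⟨j, -, rfl⟩ := Finset.mem_image.1 hl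
    exact finrank_lineOf (lc_ne j)
  · have hcard : Fintype.card ({p // p ∈ PP} ⊕ {l // l ∈ LL}) = 492 := by
      rw [← Fintype.card_congr eV]; simp
    convert (by norm_num : 3 < 492) using 1
  · intro S hS
    exact conn S hS
  · convert noHam

end Pool.Agent.S07065
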