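import Pool.Statements.S07077
import Pool.Agent.W290.FrGraph

set_option autoImplicit false
open Pool Pool.MP_09d438_co

namespace Pool.Agent.S07077

/-- There is n ≥ 3 and a generalized n-gon (incidence graph of diameter n and girth 2n) in which every line has finitely many but at least 3 points and every point lies on infinitely many lines. -/
theorem result :
    ∃ (n : ℕ) (P L : Type) (I : P → L → Prop),
      3 ≤ n ∧
      (SimpleGraph.fromRel
          (fun x y : P ⊕ L => ∃ p l, x = Sum.inl p ∧ y = Sum.inr l ∧ I p l)).ediam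
        = (n : ℕ∞) ∧
      (SimpleGraph.fromRel
          (fun x y : P ⊕ L => ∃ p l, x = Sum.inl p ∧ y = Sum.inr l ∧ I p l)).egirth
        = ((2 * n : ℕ) : ℕ∞) ∧
      (∀ l : L, {p : P | I p l}.Finite ∧ 3 ≤ Set.ncard {p : P | I p l}) ∧
      (∀ p : P, {l : L | I p l}.Infinite) := by
  obtain ⟨L, δ, H, -, -⟩ := Pool.Agent.W290.Fr.State.exists_lim (s := 4) (N := 2) le_rfl le_rfl
    (Pool.Agent.W290.Fr.State.init 4 2) (by simp [Pool.Agent.W290.Fr.State.init])
  refine ⟨6, ℕ, {K // K ∈ L}, Pool.Agent.W290.Fr.inc L, by norm_num, H.ediam (by norm_num),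
    H.egirth (by norm_num), ?_, ?_⟩
  · intro l
    have h1 : {p : ℕ | Pool.Agent.W290.Fr.inc L p l} = (l.1 : Set ℕ) := rfl
    rw [h1]
    refine ⟨l.1.finite_toSet, ?_⟩
    rw [Set.ncard_coe_finset, H.card l.1 l.2]
    norm_num
  · intro p
    have h1 := H.inf p
    intro hfin
    apply h1
    have h2 : {K | K ∈ L ∧ p ∈ K} =
        Subtype.val '' {l : {K // K ∈ L} | Pool.Agent.W290.Fr.inc L p l} := by
      ext K
      constructor
      · rintro ⟨hK, hp⟩
        exact ⟨⟨K, hK⟩, hp, rfl⟩
      · rintro ⟨l, hl, rfl⟩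
        exact ⟨l.2, hl⟩
    rw [h2]
    exact hfin.image _

end Pool.Agent.S07077
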