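-- Proof of the frozen statement S07103 (Erdos-Frankl-Furedi 1985, asymptotic form).
import Pool.Statements.S07103
import Pool.Agent.W212.EFF.Lower
import Pool.Agent.W212.EFF.Upper

set_option autoImplicit false
open Filter
open Pool Pool.MP_0b1105_co

namespace Pool.Agent.S07103

/-- Let N(t) be the least n such that some family of more than n subsets of an n-set has no member inside the union of at most t other members; then N(t)/t^2 tends to 1 as t tends to infinity. -/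
theorem result :
    Tendsto
      (fun t : ℕ =>
        ((sInf {n : ℕ | ∃ F : Finset (Finset (Fin n)), n < F.card ∧
            ∀ A ∈ F, ∀ S ⊆ F.erase A, S.card ≤ t → ¬ A ⊆ S.sup id} : ℕ) : ℝ)
          / ((t : ℝ) ^ 2))
      atTop (nhds 1) := by
  have hlow : ∀ t : ℕ, 1 ≤ t → ({n : ℕ | ∃ F : Finset (Finset (Fin n)), n < F.card ∧
      ∀ A ∈ F, ∀ S ⊆ F.erase A, S.card ≤ t → ¬ A ⊆ S.sup id}).Nonempty →
      (t : ℝ) ^ 2 ≤ ((sInf {n : ℕ | ∃ F : Finset (Finset (Fin n)), n < F.card ∧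
            ∀ A ∈ F, ∀ S ⊆ F.erase A, S.card ≤ t → ¬ A ⊆ S.sup id} : ℕ) : ℝ) := by
    intro t ht hne
    obtain ⟨F, hF1, hF2⟩ := Nat.sInf_mem hne
    have h1 := W212.EFF.lower ht _ (Finset.univ) (le_refl _) F (fun A _ => Finset.subset_univ A)
      hF2 (by rw [Finset.card_univ, Fintype.card_fin]; exact hF1)
    rw [Finset.card_univ, Fintype.card_fin] at h1
    have h2 : t ^ 2 ≤ sInf {n : ℕ | ∃ F : Finset (Finset (Fin n)), n < F.card ∧
            ∀ A ∈ F, ∀ S ⊆ F.erase A, S.card ≤ t → ¬ A ⊆ S.sup id} := by omega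
    exact_mod_cast h2
  rw [tendsto_order]
  constructor
  · intro a ha
    have h0 : ∀ᶠ x : ℕ in atTop, ∃ p : ℕ, p.Prime ∧ (x : ℝ) < p ∧ (p : ℝ) ≤ (1 + 1) * (x : ℝ) :=
      tendsto_natCast_atTop_atTop.eventually (W212.EFF.exists_prime_between one_pos)
    filter_upwards [h0, eventually_ge_atTop 1] with t hp ht
    obtain ⟨p, hpp, hp1, _⟩ := hp
    have hp1' : t < p := by exact_mod_cast hp1
    have h1 := hlow t ht ⟨p ^ 2, W212.EFF.plane hpp hp1'⟩
    have h2 : (0 : ℝ) < (t : ℝ) ^ 2 := by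
      have : (1 : ℝ) ≤ t := by exact_mod_cast ht
      positivity
    refine lt_of_lt_of_le ha ?_
    rw [le_div_iff₀ h2]
    linarith
  · intro b hb
    set δ : ℝ := min 1 ((b - 1) / 4) with hδ
    have hδpos : 0 < δ := lt_min one_pos (by linarith)
    have hδ1 : δ ≤ 1 := min_le_left _ _
    have hδ2 : δ ≤ (b - 1) / 4 := min_le_right _ _
    have h0 : ∀ᶠ x : ℕ in atTop, ∃ p : ℕ, p.Prime ∧ (x : ℝ) < p ∧ (p : ℝ) ≤ (1 + δ) * (x : ℝ) :=
      tendsto_natCast_atTop_atTop.eventually (W212.EFF.exists_prime_between hδpos)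
    filter_upwards [h0, eventually_ge_atTop 1] with t hp ht
    obtain ⟨p, hpp, hp1, hp2⟩ := hp
    have hp1' : t < p := by exact_mod_cast hp1
    have h1 : sInf {n : ℕ | ∃ F : Finset (Finset (Fin n)), n < F.card ∧
            ∀ A ∈ F, ∀ S ⊆ F.erase A, S.card ≤ t → ¬ A ⊆ S.sup id} ≤ p ^ 2 :=
      Nat.sInf_le (W212.EFF.plane hpp hp1')
    have h2 : ((sInf {n : ℕ | ∃ F : Finset (Finset (Fin n)), n < F.card ∧
            ∀ A ∈ F, ∀ S ⊆ F.erase A, S.card ≤ t → ¬ A ⊆ S.sup id} : ℕ) : ℝ) ≤ (p : ℝ) ^ 2 := by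
      exact_mod_cast h1
    have ht' : (1 : ℝ) ≤ t := by exact_mod_cast ht
    have h3 : (0 : ℝ) < (t : ℝ) ^ 2 := by positivity
    rw [div_lt_iff₀ h3]
    have h4 : (p : ℝ) ^ 2 ≤ ((1 + δ) * t) ^ 2 := pow_le_pow_left₀ (Nat.cast_nonneg _) hp2 2
    have h5 : ((1 + δ) * (t : ℝ)) ^ 2 = (1 + δ) ^ 2 * (t : ℝ) ^ 2 := by ring
    have h6 : (1 + δ) ^ 2 < b := by nlinarith
    nlinarith

end Pool.Agent.S07103
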