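import Pool.Statements.S07114

set_option autoImplicit false
open Filter Topology
open Pool Pool.MP_0b90e2_co

namespace Pool.Agent.S07114

/-- The colour of the pair `u, v` of vertices of the complete graph on `2 m` vertices. The pairs
between the first `m` and the last `m` vertices are coloured freely by `f`, all others by `0`. -/
def g {m : ℕ} (f : Fin m → Fin m → Fin 25) (u v : Fin (2 * m)) : Fin 25 :=
  if h : u.1 < m ∧ m ≤ v.1 then f ⟨u.1, h.1⟩ ⟨v.1 - m, by have := v.2; omega⟩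
  else if h : v.1 < m ∧ m ≤ u.1 then f ⟨v.1, h.1⟩ ⟨u.1 - m, by have := u.2; omega⟩
  else 0

theorem g_symm {m : ℕ} (f : Fin m → Fin m → Fin 25) (u v : Fin (2 * m)) : g f u v = g f v u := by
  unfold g
  by_cases h1 : u.1 < m ∧ m ≤ v.1
  · have h2 : ¬ (v.1 < m ∧ m ≤ u.1) := by omega
    simp [h1, h2]
  · by_cases h2 : v.1 < m ∧ m ≤ u.1
    · simp [h1, h2]
    · simp [h1, h2]

/-- the colouring as a function of the edge -/
def col {m : ℕ} (f : Fin m → Fin m → Fin 25) (e : {e : Sym2 (Fin (2 * m)) // ¬ e.IsDiag}) : Fin 25 :=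
  Sym2.lift ⟨g f, g_symm f⟩ e.1

theorem col_card {m : ℕ} (f : Fin m → Fin m → Fin 25) (S : Finset (Fin (2 * m))) (hS : S.card = 4) :
    ((Finset.univ.filter
      (fun e : {e : Sym2 (Fin (2 * m)) // ¬ e.IsDiag} => e.1 ∈ S.sym2)).image (col f)).card < 6 := by
  classical
  set SA := S.filter (fun v => v.1 < m) with hSA
  set SB := S.filter (fun v => ¬ v.1 < m) with hSB
  have hsum : SA.card + SB.card = 4 := by
    rw [hSA, hSB, Finset.card_filter_add_card_filter_not, hS]
  have hsub : (Finset.univ.filter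
      (fun e : {e : Sym2 (Fin (2 * m)) // ¬ e.IsDiag} => e.1 ∈ S.sym2)).image (col f) ⊆
      insert 0 ((SA ×ˢ SB).image (fun p => g f p.1 p.2)) := by
    intro x hx
    rw [Finset.mem_image] at hx
    obtain ⟨⟨e, he⟩, hmem, rfl⟩ := hx
    rw [Finset.mem_filter] at hmem
    have hm := hmem.2
    simp only at hm
    induction e using Sym2.inductionOn with
    | hf u v =>
      have huv : u ∈ S ∧ v ∈ S := by
        rw [Finset.mem_sym2_iff] at hm
        exact ⟨hm u (Sym2.mem_mk_left u v), hm v (Sym2.mem_mk_right u v)⟩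
      have hc : col f ⟨s(u, v), he⟩ = g f u v := rfl
      rw [hc, Finset.mem_insert, Finset.mem_image]
      by_cases h1 : u.1 < m ∧ m ≤ v.1
      · right
        refine ⟨(u, v), ?_, rfl⟩
        rw [Finset.mem_product, hSA, hSB, Finset.mem_filter, Finset.mem_filter]
        exact ⟨⟨huv.1, h1.1⟩, huv.2, by simpa using h1.2⟩
      · by_cases h2 : v.1 < m ∧ m ≤ u.1
        · right
          refine ⟨(v, u), ?_, g_symm f v u⟩
          rw [Finset.mem_product, hSA, hSB, Finset.mem_filter, Finset.mem_filter]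
          exact ⟨⟨huv.2, h2.1⟩, huv.1, by simpa using h2.2⟩
        · left
          unfold g
          rw [dif_neg h1, dif_neg h2]
  have h1 := Finset.card_le_card hsub
  have h2 := Finset.card_insert_le (0 : Fin 25) ((SA ×ˢ SB).image (fun p => g f p.1 p.2))
  have h3 : ((SA ×ˢ SB).image (fun p => g f p.1 p.2)).card ≤ SA.card * SB.card := by
    refine Finset.card_image_le.trans ?_
    rw [Finset.card_product]
  have h4 : SA.card * SB.card ≤ 4 := by
    have : SB.card = 4 - SA.card := by omega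
    have hle : SA.card ≤ 4 := by omega
    rw [this]
    interval_cases SA.card <;> simp
  omega

theorem count_lower (m : ℕ) :
    25 ^ (m * m) ≤ Nat.card {c : {e : Sym2 (Fin (2 * m)) // ¬ e.IsDiag} → Fin 25 //
      ∀ S : Finset (Fin (2 * m)), S.card = 4 →
        ((Finset.univ.filter
          (fun e : {e : Sym2 (Fin (2 * m)) // ¬ e.IsDiag} => e.1 ∈ S.sym2)).image c).card < 6} := by
  classical
  have h1 : Nat.card (Fin m → Fin m → Fin 25) = 25 ^ (m * m) := by
    simp [← pow_mul]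
  rw [← h1]
  apply Nat.card_le_card_of_injective
    (fun f : Fin m → Fin m → Fin 25 => (⟨col f, col_card f⟩ : {c : {e : Sym2 (Fin (2 * m)) // ¬ e.IsDiag} → Fin 25 //
      ∀ S : Finset (Fin (2 * m)), S.card = 4 →
        ((Finset.univ.filter
          (fun e : {e : Sym2 (Fin (2 * m)) // ¬ e.IsDiag} => e.1 ∈ S.sym2)).image c).card < 6}))
  intro f f' hff
  have h2 : col f = col f' := congrArg Subtype.val hff
  funext a b
  have ha : a.1 < 2 * m := by have := a.2; omega
  have hb : b.1 + m < 2 * m := by have := b.2; omega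
  have hne : ¬ (s((⟨a.1, ha⟩ : Fin (2 * m)), (⟨b.1 + m, hb⟩ : Fin (2 * m)))).IsDiag := by
    rw [Sym2.mk_isDiag_iff]
    intro h
    have := congrArg Fin.val h
    simp only at this
    have := a.2
    omega
  have h3 := congrFun h2 ⟨s(⟨a.1, ha⟩, ⟨b.1 + m, hb⟩), hne⟩
  have h4 : ∀ f : Fin m → Fin m → Fin 25, col f ⟨s(⟨a.1, ha⟩, ⟨b.1 + m, hb⟩), hne⟩ = f a b := by
    intro f
    show g f ⟨a.1, ha⟩ ⟨b.1 + m, hb⟩ = f a b
    unfold g
    have h5 : (⟨a.1, ha⟩ : Fin (2 * m)).1 < m ∧ m ≤ (⟨b.1 + m, hb⟩ : Fin (2 * m)).1 :=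
      ⟨a.2, by simp⟩
    rw [dif_pos h5]
    congr 1
    apply Fin.ext
    simp
  rw [h4, h4] at h3
  exact h3

/-- The negation of the preceding statement: For all k≥3, 3≤s≤C(k,2), r≥s: the number of r-colorings of the edges of K_n in which every k-vertex set spans fewer than s colors, divided by C(r,s-1)·(s-1)^{C(n,2)}, tends to 1 as n→∞. -/
theorem result :
    ¬ (∀ k s r : ℕ, 3 ≤ k → 3 ≤ s → s ≤ k.choose 2 → s ≤ r →
      Tendsto
        (fun n : ℕ =>
          (Nat.card {c : {e : Sym2 (Fin n) // ¬ e.IsDiag} → Fin r //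
              ∀ S : Finset (Fin n), S.card = k →
                ((Finset.univ.filter
                    (fun e : {e : Sym2 (Fin n) // ¬ e.IsDiag} => e.1 ∈ S.sym2)).image c).card < s} : ℝ)
            / ((r.choose (s - 1) : ℝ) * ((s : ℝ) - 1) ^ (n.choose 2)))
        atTop (𝓝 1)) := by
  intro H
  have h := H 4 6 25 (by norm_num) (by norm_num) (by decide) (by norm_num)
  have h2 : Tendsto (fun m : ℕ => 2 * m) atTop atTop := by
    apply tendsto_atTop_mono (f := fun m : ℕ => m) _ tendsto_id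
    intro m; omega
  have h3 := h.comp h2
  have h4 := h3.eventually (gt_mem_nhds (show (1 : ℝ) < 2 by norm_num))
  obtain ⟨m, hm1, hm2⟩ := (h4.and (eventually_ge_atTop 8)).exists
  simp only [Function.comp_apply] at hm1
  have hc := count_lower m
  have hch : (2 * m).choose 2 = m * (2 * m - 1) := by
    rw [Nat.choose_two_right, mul_assoc, Nat.mul_div_cancel_left _ (by norm_num)]
  have hden : (0 : ℝ) < ((Nat.choose 25 (6 - 1) : ℕ) : ℝ) * (((6 : ℕ) : ℝ) - 1) ^ ((2 * m).choose 2) := by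
    have : 0 < Nat.choose 25 (6 - 1) := Nat.choose_pos (by norm_num)
    have h5 : (0 : ℝ) < ((Nat.choose 25 (6 - 1) : ℕ) : ℝ) := by exact_mod_cast this
    have h6 : (0 : ℝ) < (((6 : ℕ) : ℝ) - 1) := by norm_num
    positivity
  rw [div_lt_iff₀ hden] at hm1
  have hval : Nat.choose 25 (6 - 1) = 53130 := by decide +kernel
  rw [hval] at hm1
  have e1 : (((6 : ℕ) : ℝ) - 1) = 5 := by norm_num
  rw [e1, hch] at hm1
  have hc' : (25 : ℝ) ^ (m * m) < 2 * (((53130 : ℕ) : ℝ) * 5 ^ (m * (2 * m - 1))) := by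
    refine lt_of_le_of_lt ?_ hm1
    exact_mod_cast hc
  have e2 : (25 : ℝ) ^ (m * m) = 5 ^ (m * (2 * m - 1)) * 5 ^ m := by
    rw [← pow_add, show (25 : ℝ) = 5 ^ 2 by norm_num, ← pow_mul]
    congr 1
    obtain ⟨k, rfl⟩ : ∃ k, m = k + 1 := ⟨m - 1, by omega⟩
    have : 2 * (k + 1) - 1 = 2 * k + 1 := by omega
    rw [this]; ring
  rw [e2] at hc'
  have h5 : (0 : ℝ) < 5 ^ (m * (2 * m - 1)) := by positivity
  have h6 : (5 : ℝ) ^ m < 2 * 53130 := by
    have h7 : (5 : ℝ) ^ (m * (2 * m - 1)) * 5 ^ m < 5 ^ (m * (2 * m - 1)) * (2 * 53130) := by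
      refine hc'.trans_le (le_of_eq ?_)
      push_cast; ring
    exact lt_of_mul_lt_mul_left h7 h5.le
  have h8 : (5 : ℝ) ^ 8 ≤ 5 ^ m := pow_le_pow_right₀ (by norm_num) hm2
  norm_num at h8 h6
  linarith

end Pool.Agent.S07114
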