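import Pool.Statements.S07160

set_option autoImplicit false
open Pool Pool.MP_0cd801_co

namespace Pool.Agent.S07160

/-- the out-neighbours in the counterexample: twelve vertices, all in- and outdegrees are three -/
def out : Fin 12 → List (Fin 12) :=
  ![[3, 5, 7], [7, 10, 11], [1, 5, 8], [1, 2, 4], [0, 7, 8], [1, 6, 9], [0, 4, 11], [2, 5, 9],
    [0, 3, 10], [4, 6, 10], [2, 6, 11], [3, 8, 9]]

/-- the counterexample -/
def G : Digraph (Fin 12) := ⟨fun u v => v ∈ out u⟩

instance (u v : Fin 12) : Decidable (G.Adj u v) :=
  inferInstanceAs (Decidable (v ∈ out u))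

/-- depth first search for a path which starts at the vertex `x`, avoids the list `l`, and after `k`
further vertices returns to `0`. -/
def search : ℕ → Fin 12 → List (Fin 12) → Bool
  | 0, x, _ => decide ((0 : Fin 12) ∈ out x)
  | k + 1, x, l => (out x).any fun y => !(l.contains y) && search k y (y :: l)

theorem search_false : search 11 0 [0] = false := by decide +kernel

theorem search_of_seq (g : ℕ → Fin 12) (hg : ∀ k, g (k + 1) ∈ out (g k)) :
    ∀ (k a : ℕ) (l : List (Fin 12)),
      (∀ i, 1 ≤ i → i ≤ k → g (a + i) ∉ l) →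
      (∀ i j, 1 ≤ i → i < j → j ≤ k → g (a + i) ≠ g (a + j)) →
      g (a + k + 1) = 0 → search k (g a) l = true
  | 0, a, l, _, _, h3 => by
    simp only [search, decide_eq_true_eq]
    have h4 : g (a + 1) = 0 := h3
    have h5 := hg a
    rwa [h4] at h5
  | k + 1, a, l, h1, h2, h3 => by
    rw [search, List.any_eq_true]
    refine ⟨g (a + 1), hg a, ?_⟩
    rw [Bool.and_eq_true]
    constructor
    · have := h1 1 le_rfl (by omega)
      simpa using this
    · apply search_of_seq g hg k (a + 1) (g (a + 1) :: l)
      · intro i hi hik hmem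
        rw [show a + 1 + i = a + (i + 1) by omega] at hmem
        rcases List.mem_cons.1 hmem with h | h
        · exact h2 1 (i + 1) le_rfl (by omega) (by omega) h.symm
        · exact h1 (i + 1) (by omega) (by omega) h
      · intro i j hi hij hjk
        rw [show a + 1 + i = a + (i + 1) by omega, show a + 1 + j = a + (j + 1) by omega]
        exact h2 (i + 1) (j + 1) (by omega) (by omega) (by omega)
      · rw [show a + 1 + k + 1 = a + (k + 1) + 1 by omega]
        exact h3

/-- The negation of the preceding statement: For every d > 2 and n ≤ 4d+1, every oriented graph on n vertices in which each vertex has in-degree d and out-degree d has a directed Hamilton cycle, i.e. a cyclic ordering of all n vertices with an arc from each vertex to the next. -/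
theorem result :
    ¬ (∀ (d n : ℕ), 2 < d → n ≤ 4 * d + 1 →
      ∀ G : Digraph (Fin n),
        (∀ u v : Fin n, G.Adj u v → ¬ G.Adj v u) →
        (∀ v : Fin n, Set.ncard {u : Fin n | G.Adj v u} = d) →
        (∀ v : Fin n, Set.ncard {u : Fin n | G.Adj u v} = d) →
        ∃ f : Fin n → Fin n, Function.Bijective f ∧
          ∀ i j : Fin n, j.val = (i.val + 1) % n → G.Adj (f i) (f j)) := by
  intro h
  have hout : ∀ v : Fin 12, Set.ncard {u : Fin 12 | G.Adj v u} = 3 := by
    intro v
    rw [Set.ncard_eq_toFinset_card']
    revert v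
    decide +kernel
  have hin : ∀ v : Fin 12, Set.ncard {u : Fin 12 | G.Adj u v} = 3 := by
    intro v
    rw [Set.ncard_eq_toFinset_card']
    revert v
    decide +kernel
  obtain ⟨f, hf, hadj⟩ := h 3 12 (by norm_num) (by norm_num) G (by decide +kernel) hout hin
  obtain ⟨i₀, hi₀⟩ := hf.2 0
  have hlt : ∀ k : ℕ, (i₀.val + k) % 12 < 12 := fun k => Nat.mod_lt _ (by norm_num)
  set g : ℕ → Fin 12 := fun k => f ⟨(i₀.val + k) % 12, hlt k⟩ with hg
  have hstep : ∀ k, g (k + 1) ∈ out (g k) := by
    intro k
    exact hadj ⟨(i₀.val + k) % 12, hlt k⟩ ⟨(i₀.val + (k + 1)) % 12, hlt (k + 1)⟩ (by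
      simp only
      omega)
  have hinj : ∀ i j : ℕ, g i = g j → i % 12 = j % 12 := by
    intro i j hij
    have h1 := hf.1 hij
    rw [Fin.mk.injEq] at h1
    omega
  have g0 : g 0 = 0 := by
    have h1 : (⟨(i₀.val + 0) % 12, hlt 0⟩ : Fin 12) = i₀ := by
      apply Fin.ext
      simp only [Nat.add_zero]
      exact Nat.mod_eq_of_lt i₀.isLt
    rw [hg]
    simp only [h1, hi₀]
  have g12 : g 12 = 0 := by
    rw [← g0, hg]
    simp only
    congr 1
    apply Fin.ext
    simp only
    omega
  have key := search_of_seq g hstep 11 0 [0] ?_ ?_ (by simpa using g12)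
  · rw [g0, search_false] at key
    exact absurd key (by decide)
  · intro i hi hik hmem
    have h1 : g (0 + i) = g 0 := by rw [g0]; simpa using hmem
    have := hinj _ _ h1
    omega
  · intro i j hi hij hjk heq
    have := hinj _ _ heq
    omega

end Pool.Agent.S07160
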