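import Pool.Statements.S07177
import Pool.Agent.W213.WS.Main
-- import your own Pool.Agent.* helpers here

set_option autoImplicit false
open Pool Pool.MP_0db447_co

namespace Pool.Agent.S07177

/-- For every k at least 3 there is N such that for all n at least N, every family of at least 1.99^n subsets of an n-element set contains k distinct members whose pairwise intersections all have the same size. -/
theorem result :
    ∀ k : ℕ, 3 ≤ k → ∃ N : ℕ, ∀ n : ℕ, N ≤ n →
      ∀ F : Finset (Finset (Fin n)), (1.99 : ℝ) ^ n ≤ (F.card : ℝ) →
        ∃ S : Finset (Finset (Fin n)), S ⊆ F ∧ S.card = k ∧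
          ∃ m : ℕ, ∀ A ∈ S, ∀ B ∈ S, A ≠ B → (A ∩ B).card = m := by
  exact Pool.Agent.W213.WS.weak_sunflower

end Pool.Agent.S07177
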