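import Pool.Statements.S07181
import Pool.Agent.W606.Halving

set_option autoImplicit false
open Pool Pool.MP_0dd31c_co

namespace Pool.Agent.S07181

open Filter in
/-- the numerical condition of the local lemma holds for large uniformities -/
lemma large (c : ℝ) (h1 : 1 < c) (h2 : c < 2) :
    ∃ n₀ : ℕ, ∀ n : ℕ, n₀ ≤ n → 8 * (2 * n * ⌊c ^ n⌋₊ + 1) ≤ 2 ^ n := by
  have hc0 : 0 < c := by linarith
  have hr : |c / 2| < 1 := by
    rw [abs_of_pos (by positivity)]; linarith
  have hA : Tendsto (fun n : ℕ => (n : ℝ) ^ 1 * (c / 2) ^ n) atTop (nhds 0) :=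
    tendsto_pow_const_mul_const_pow_of_abs_lt_one 1 hr
  have hB : Tendsto (fun n : ℕ => (1 / 2 : ℝ) ^ n) atTop (nhds 0) :=
    tendsto_pow_atTop_nhds_zero_of_lt_one (by norm_num) (by norm_num)
  have hC : Tendsto (fun n : ℕ => 16 * ((n : ℝ) ^ 1 * (c / 2) ^ n) + 8 * (1 / 2 : ℝ) ^ n)
      atTop (nhds 0) := by
    have := (hA.const_mul 16).add (hB.const_mul 8)
    simpa using this
  have hev := (hC.eventually (gt_mem_nhds (show (0 : ℝ) < 1 by norm_num)))
  obtain ⟨n₀, hn₀⟩ := eventually_atTop.mp hev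
  refine ⟨n₀, fun n hn => ?_⟩
  have h := hn₀ n hn
  have h2n : (0 : ℝ) < 2 ^ n := by positivity
  have hfl : ((⌊c ^ n⌋₊ : ℕ) : ℝ) ≤ c ^ n := Nat.floor_le (by positivity)
  have hmul : 16 * ((n : ℝ) * c ^ n) + 8 < 2 ^ n := by
    have h3 := mul_lt_mul_of_pos_right h h2n
    rw [one_mul] at h3
    have h4 : (16 * ((n : ℝ) ^ 1 * (c / 2) ^ n) + 8 * (1 / 2 : ℝ) ^ n) * 2 ^ n =
        16 * ((n : ℝ) * c ^ n) + 8 := by
      rw [div_pow, div_pow, one_pow, pow_one]
      field_simp
    rw [h4] at h3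
    exact h3
  have hn0 : (0 : ℝ) ≤ n := Nat.cast_nonneg n
  have : ((8 * (2 * n * ⌊c ^ n⌋₊ + 1) : ℕ) : ℝ) ≤ ((2 ^ n : ℕ) : ℝ) := by
    push_cast
    have := mul_le_mul_of_nonneg_left hfl hn0
    nlinarith
  exact_mod_cast this

/-- For every c in (1,2) there is n0 such that for n ≥ n0 every n-uniform finite hypergraph with all degrees at most c^n has a red set of exactly half (floor) of its vertices such that no edge is all red or all blue. -/
theorem result :
    ∀ c : ℝ, 1 < c → c < 2 →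
      ∃ n₀ : ℕ, ∀ n : ℕ, n₀ ≤ n →
        ∀ F : Finset (Finset ℕ),
          (∀ A ∈ F, A.card = n) →
          (∀ v : ℕ, ((F.filter (fun A => v ∈ A)).card : ℝ) ≤ c ^ n) →
          ∃ R : Finset ℕ, R ⊆ F.biUnion id ∧
            R.card = (F.biUnion id).card / 2 ∧
            ∀ A ∈ F, (A ∩ R).Nonempty ∧ ¬ A ⊆ R := by
  intro c hc1 hc2
  obtain ⟨n₀, hn₀⟩ := large c hc1 hc2
  refine ⟨n₀, fun n hn F hF hdeg => ?_⟩
  classical
  set V : Finset ℕ := F.biUnion id with hV
  have hAV : ∀ A ∈ F, A ⊆ V := by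
    intro A hA x hx
    rw [hV, Finset.mem_biUnion]
    exact ⟨A, hA, hx⟩
  -- enumerate the vertices
  let f : Fin V.card ↪o ℕ := V.orderEmbOfFin rfl
  have hfmem : ∀ i, f i ∈ V := fun i => Finset.orderEmbOfFin_mem V rfl i
  have hfsurj : ∀ v ∈ V, ∃ i, f i = v := by
    intro v hv
    have : v ∈ Set.range f := by
      have h := Finset.range_orderEmbOfFin V rfl
      change v ∈ Set.range (V.orderEmbOfFin rfl)
      rw [h]
      exact hv
    exact this
  let φ : Finset ℕ → Finset (Fin V.card) := fun A => Finset.univ.filter (fun i => f i ∈ A)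
  have hφimg : ∀ A ∈ F, (φ A).image f = A := by
    intro A hA
    ext v
    simp only [φ, Finset.mem_image, Finset.mem_filter, Finset.mem_univ, true_and]
    constructor
    · rintro ⟨i, hi, rfl⟩; exact hi
    · intro hv
      obtain ⟨i, rfl⟩ := hfsurj v (hAV A hA hv)
      exact ⟨i, hv, rfl⟩
  have hφcard : ∀ A ∈ F, (φ A).card = n := by
    intro A hA
    rw [← hF A hA]
    conv_rhs => rw [← hφimg A hA]
    rw [Finset.card_image_of_injective _ f.injective]
  have hdeg' : ∀ i, ((F.image φ).filter (fun A => i ∈ A)).card ≤ ⌊c ^ n⌋₊ := by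
    intro i
    have h1 : (F.image φ).filter (fun A => i ∈ A) ⊆ (F.filter (fun A => f i ∈ A)).image φ := by
      intro A' hA'
      rw [Finset.mem_filter, Finset.mem_image] at hA'
      obtain ⟨⟨A, hA, rfl⟩, hi⟩ := hA'
      rw [Finset.mem_image]
      refine ⟨A, ?_, rfl⟩
      rw [Finset.mem_filter]
      refine ⟨hA, ?_⟩
      simpa [φ] using hi
    refine le_trans (Finset.card_le_card h1) (le_trans Finset.card_image_le ?_)
    exact Nat.le_floor (hdeg (f i))
  obtain ⟨R, hR1, hR2⟩ := Pool.Agent.W606.Halving.core V.card n ⌊c ^ n⌋₊ (F.image φ)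
    (by
      intro A' hA'
      rw [Finset.mem_image] at hA'
      obtain ⟨A, hA, rfl⟩ := hA'
      exact hφcard A hA) hdeg' (hn₀ n hn)
  refine ⟨R.image f, ?_, ?_, ?_⟩
  · intro v hv
    rw [Finset.mem_image] at hv
    obtain ⟨i, _, rfl⟩ := hv
    exact hfmem i
  · rw [Finset.card_image_of_injective _ f.injective, hR1]
  · intro A hA
    obtain ⟨h1, h2⟩ := hR2 (φ A) (Finset.mem_image_of_mem φ hA)
    constructor
    · obtain ⟨i, hi⟩ := h1
      rw [Finset.mem_inter] at hi
      refine ⟨f i, ?_⟩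
      rw [Finset.mem_inter]
      refine ⟨?_, Finset.mem_image_of_mem f hi.2⟩
      have := hi.1
      simpa [φ] using this
    · intro hsub
      apply h2
      intro i hi
      have h3 : f i ∈ A := by simpa [φ] using hi
      have h4 := hsub h3
      rw [Finset.mem_image] at h4
      obtain ⟨j, hj, hji⟩ := h4
      rwa [← f.injective hji]

end Pool.Agent.S07181
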