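import Pool.Statements.S07277
import Pool.Agent.W593.ZT.ALL

set_option autoImplicit false
open scoped Classical
open Pool Pool.MP_12e153_co

namespace Pool.Agent.S07277

/-- For all m≥1 and n: every 2-colouring of K_n has a monochromatic tree on m+1 vertices of diameter ≤4 iff every Z_m-colouring of K_n has such a tree with edge-colour sum 0 mod m. -/
theorem result :
    ∀ m : ℕ, 1 ≤ m → ∀ n : ℕ,
      ((∀ c : Fin n → Fin n → Fin 2, (∀ a b, c a b = c b a) →
          ∃ T : SimpleGraph (Fin (m + 1)), T.IsTree ∧ T.diam ≤ 4 ∧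
            ∃ f : Fin (m + 1) → Fin n, Function.Injective f ∧ ∃ col : Fin 2,
              ∀ u v : Fin (m + 1), T.Adj u v → c (f u) (f v) = col) ↔
       (∀ c : Fin n → Fin n → ZMod m, (∀ a b, c a b = c b a) →
          ∃ T : SimpleGraph (Fin (m + 1)), T.IsTree ∧ T.diam ≤ 4 ∧
            ∃ f : Fin (m + 1) → Fin n, Function.Injective f ∧
              (∑ u : Fin (m + 1), ∑ v : Fin (m + 1),
                (if T.Adj u v ∧ u < v then c (f u) (f v) else (0 : ZMod m))) = 0)) := by
  exact Pool.Agent.W593.ZT.final Pool.Agent.W593.ZT.all_main Pool.Agent.W318.ZT.br0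
    Pool.Agent.W397.ZT.br2

end Pool.Agent.S07277
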