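import Pool.Statements.S07316
-- import your own Pool.Agent.* helpers here

set_option autoImplicit false
open Pool Pool.MP_150b74_co

namespace Pool.Agent.S07316
open Finset

/-- number of the first level of the binary tree on which `a` and `b` have the same ancestor -/
noncomputable def dl (a b : ℕ) : ℕ := sInf {i | a / 2 ^ i = b / 2 ^ i}

lemma dl_spec (a b : ℕ) : a / 2 ^ dl a b = b / 2 ^ dl a b := by
  have h : (a + b) ∈ {i | a / 2 ^ i = b / 2 ^ i} := by
    show a / 2 ^ (a + b) = b / 2 ^ (a + b)
    have h2 : a + b < 2 ^ (a + b) := Nat.lt_two_pow_self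
    rw [Nat.div_eq_of_lt (by omega), Nat.div_eq_of_lt (by omega)]
  exact Nat.sInf_mem (s := {i | a / 2 ^ i = b / 2 ^ i}) ⟨_, h⟩

lemma dl_le {a b m : ℕ} (h : a / 2 ^ m = b / 2 ^ m) : dl a b ≤ m := Nat.sInf_le h

lemma dl_le_of_lt {a b m : ℕ} (ha : a < 2 ^ m) (hb : b < 2 ^ m) : dl a b ≤ m :=
  dl_le (by rw [Nat.div_eq_of_lt ha, Nat.div_eq_of_lt hb])

lemma dl_pos {a b : ℕ} (h : a ≠ b) : 1 ≤ dl a b := by
  by_contra hcon
  have h0 : dl a b = 0 := by omega
  have h1 := dl_spec a b
  rw [h0] at h1
  simp at h1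
  exact h h1

lemma dl_comm (a b : ℕ) : dl a b = dl b a := by
  unfold dl
  congr 1
  ext i
  exact eq_comm

lemma dl_ne {a b c : ℕ} (h1 : a < b) (h2 : b < c) : dl a b ≠ dl b c := by
  intro h
  have hp : 1 ≤ dl a b := dl_pos h1.ne
  obtain ⟨j, hj⟩ : ∃ j, dl a b = j + 1 := ⟨dl a b - 1, by omega⟩
  have e1 := dl_spec a b
  have e2 := dl_spec b c
  rw [← h] at e2
  rw [hj, pow_succ, ← Nat.div_div_eq_div_mul, ← Nat.div_div_eq_div_mul] at e1 e2
  have n1 : a / 2 ^ j ≠ b / 2 ^ j := by
    intro h3
    have := dl_le h3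
    omega
  have n2 : b / 2 ^ j ≠ c / 2 ^ j := by
    intro h3
    have := dl_le h3
    omega
  have l1 : a / 2 ^ j ≤ b / 2 ^ j := Nat.div_le_div_right h1.le
  have l2 : b / 2 ^ j ≤ c / 2 ^ j := Nat.div_le_div_right h2.le
  omega

lemma dl_ne' {a b c : ℕ} (h1 : b < a) (h2 : c < b) : dl a b ≠ dl b c := by
  rw [dl_comm a b, dl_comm b c]
  exact (dl_ne h2 h1).symm

/-- the colour of a sorted quadruple -/
noncomputable def col (a b c d : ℕ) : Fin 7 :=
  if dl a b < dl b c then
    if dl b c < dl c d then
      (if dl (dl a b) (dl b c) < dl (dl b c) (dl c d) then 0 else 1)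
    else 4
  else
    if dl b c < dl c d then 5
    else (if dl (dl a b) (dl b c) < dl (dl b c) (dl c d) then 2 else 3)

lemma inc_bound (f : ℕ → ℕ) (L : ℕ) (h : ∀ i, i < L → f i < f (i + 1)) : f 0 + L ≤ f L := by
  induction L with
  | zero => simp
  | succ L ih =>
    have h1 := ih (fun i hi => h i (by omega))
    have h2 := h L (by omega)
    omega

lemma dec_bound (f : ℕ → ℕ) (L : ℕ) (h : ∀ i, i < L → f (i + 1) < f i) : f L + L ≤ f 0 := by
  induction L with
  | zero => simp
  | succ L ih =>
    have h1 := ih (fun i hi => h i (by omega))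
    have h2 := h L (by omega)
    omega

lemma no_long {m k : ℕ} (hm : 1 ≤ m) (hk : m + 4 ≤ k) (s : ℕ → ℕ)
    (hs : ∀ i, i + 1 < k → s i < s (i + 1)) (hb : ∀ i, i < k → s i < 2 ^ (2 ^ m)) (j : Fin 7)
    (hj : ∀ i, i + 3 < k → col (s i) (s (i + 1)) (s (i + 2)) (s (i + 3)) = j) : False := by
  set D : ℕ → ℕ := fun i => dl (s i) (s (i + 1)) with hD
  set E : ℕ → ℕ := fun i => dl (D i) (D (i + 1)) with hE
  have hDb : ∀ i, i + 1 < k → D i < 2 ^ (m + 1) := by
    intro i hi
    have h1 : D i ≤ 2 ^ m := dl_le_of_lt (hb i (by omega)) (hb (i + 1) hi)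
    have h2 : 2 ^ m < 2 ^ (m + 1) := Nat.pow_lt_pow_right (by norm_num) (by omega)
    omega
  have hDne : ∀ i, i + 2 < k → D i ≠ D (i + 1) := by
    intro i hi
    exact dl_ne (hs i (by omega)) (hs (i + 1) (by omega))
  have hEb : ∀ i, i + 2 < k → E i ≤ m + 1 := by
    intro i hi
    exact dl_le_of_lt (hDb i (by omega)) (hDb (i + 1) (by omega))
  have hEp : ∀ i, i + 2 < k → 1 ≤ E i := fun i hi => dl_pos (hDne i hi)
  have key : ∀ i, i + 3 < k → j = if D i < D (i + 1) then
      if D (i + 1) < D (i + 2) then (if E i < E (i + 1) then 0 else 1) else 4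
      else if D (i + 1) < D (i + 2) then 5 else (if E i < E (i + 1) then 2 else 3) := by
    intro i hi
    rw [← hj i hi]
    rfl
  have hL : ∀ i, i < k - 3 → i + 3 < k := fun i hi => by omega
  -- increasing or decreasing `E`
  have hinc : ¬ ∀ i, i + 3 < k → E i < E (i + 1) := by
    intro h
    have h1 := inc_bound E (k - 3) (fun i hi => h i (hL i hi))
    have h2 := hEb (k - 3) (by omega)
    have h3 := hEp 0 (by omega)
    omega
  have hdec : ¬ ∀ i, i + 3 < k → E (i + 1) < E i := by
    intro h
    have h1 := dec_bound E (k - 3) (fun i hi => h i (hL i hi))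
    have h2 := hEb 0 (by omega)
    have h3 := hEp (k - 3) (by omega)
    omega
  have k0 := key 0 (by omega)
  have k1 := key 1 (by omega)
  by_cases a0 : D 0 < D 1
  · by_cases a1 : D 1 < D 2
    · -- all increasing
      have hj01 : j = 0 ∨ j = 1 := by
        rw [if_pos a0, if_pos a1] at k0
        split_ifs at k0 with h
        · exact Or.inl k0
        · exact Or.inr k0
      have hup : ∀ i, i + 3 < k → D i < D (i + 1) ∧ D (i + 1) < D (i + 2) ∧
          (j = 0 → E i < E (i + 1)) ∧ (j = 1 → ¬ E i < E (i + 1)) := by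
        intro i hi
        have ki := key i hi
        by_cases b0 : D i < D (i + 1)
        · by_cases b1 : D (i + 1) < D (i + 2)
          · refine ⟨b0, b1, ?_, ?_⟩
            · intro h
              rw [if_pos b0, if_pos b1, h] at ki
              by_contra hc
              rw [if_neg hc] at ki
              exact absurd ki (by decide)
            · intro h hc
              rw [if_pos b0, if_pos b1, h, if_pos hc] at ki
              exact absurd ki (by decide)
          · rw [if_pos b0, if_neg b1] at ki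
            rcases hj01 with h | h <;> rw [h] at ki <;> exact absurd ki (by decide)
        · rw [if_neg b0] at ki
          rcases hj01 with h | h <;> rw [h] at ki <;> split_ifs at ki <;>
            exact absurd ki (by decide)
      rcases hj01 with h | h
      · exact hinc (fun i hi => (hup i hi).2.2.1 h)
      · refine hdec (fun i hi => ?_)
        have h1 := (hup i hi).2.2.2 h
        have h2 : E i ≠ E (i + 1) := dl_ne (hup i hi).1 (hup i hi).2.1
        omega
    · -- local maximum
      rw [if_pos a0, if_neg a1] at k0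
      rw [if_neg a1] at k1
      rw [k0] at k1
      split_ifs at k1 <;> exact absurd k1 (by decide)
  · by_cases a1 : D 1 < D 2
    · -- local minimum
      rw [if_neg a0, if_pos a1] at k0
      rw [if_pos a1] at k1
      rw [k0] at k1
      split_ifs at k1 <;> exact absurd k1 (by decide)
    · have hj01 : j = 2 ∨ j = 3 := by
        rw [if_neg a0, if_neg a1] at k0
        split_ifs at k0 with h
        · exact Or.inl k0
        · exact Or.inr k0
      have hup : ∀ i, i + 3 < k → ¬ D i < D (i + 1) ∧ ¬ D (i + 1) < D (i + 2) ∧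
          (j = 2 → E i < E (i + 1)) ∧ (j = 3 → ¬ E i < E (i + 1)) := by
        intro i hi
        have ki := key i hi
        by_cases b0 : D i < D (i + 1)
        · rw [if_pos b0] at ki
          rcases hj01 with h | h <;> rw [h] at ki <;> split_ifs at ki <;>
            exact absurd ki (by decide)
        · by_cases b1 : D (i + 1) < D (i + 2)
          · rw [if_neg b0, if_pos b1] at ki
            rcases hj01 with h | h <;> rw [h] at ki <;> exact absurd ki (by decide)
          · refine ⟨b0, b1, ?_, ?_⟩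
            · intro h
              rw [if_neg b0, if_neg b1, h] at ki
              by_contra hc
              rw [if_neg hc] at ki
              exact absurd ki (by decide)
            · intro h hc
              rw [if_neg b0, if_neg b1, h, if_pos hc] at ki
              exact absurd ki (by decide)
      rcases hj01 with h | h
      · exact hinc (fun i hi => (hup i hi).2.2.1 h)
      · refine hdec (fun i hi => ?_)
        obtain ⟨g1, g2, -, g3⟩ := hup i hi
        have h1 := g3 h
        have n1 := hDne i (by omega)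
        have n2 := hDne (i + 1) (by omega)
        have h2 : E i ≠ E (i + 1) := by
          refine dl_ne' ?_ ?_
          · omega
          · have n3 : D (i + 1) ≠ D (i + 2) := n2
            show D (i + 2) < D (i + 1)
            omega
        omega

/-- the colouring -/
noncomputable def phiL : List ℕ → Fin 7
  | [a, b, c, d] => col a b c d
  | _ => 6

noncomputable def phi (n : ℕ) (e : Finset (Fin n)) : Fin 7 :=
  phiL ((e.sort (· ≤ ·)).map Fin.val)

lemma col_ne (a b c d : ℕ) : col a b c d ≠ 6 := by
  unfold col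
  split_ifs <;> decide

lemma phi_ne {n : ℕ} {e : Finset (Fin n)} (he : e.card = 4) : phi n e ≠ 6 := by
  unfold phi
  have h1 : ((e.sort (· ≤ ·)).map Fin.val).length = 4 := by
    rw [List.length_map, Finset.length_sort, he]
  generalize ((e.sort (· ≤ ·)).map Fin.val) = l at h1
  match l, h1 with
  | [a, b, c, d], _ => exact col_ne a b c d

lemma phi_eq {n : ℕ} {a b c d : Fin n} (h1 : a < b) (h2 : b < c) (h3 : c < d) :
    phi n {a, b, c, d} = col a b c d := by
  have h : ({a, b, c, d} : Finset (Fin n)) = [a, b, c, d].toFinset := by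
    simp
  unfold phi
  rw [h]
  have hnd : [a, b, c, d].Nodup := by
    have h12 := h1.trans h2
    have h23 := h2.trans h3
    have h13 := h12.trans h3
    simp [h1.ne, h2.ne, h3.ne, h12.ne, h23.ne, h13.ne]
  have hs : ([a, b, c, d].toFinset).sort (· ≤ ·) = [a, b, c, d] := by
    refine (List.toFinset_sort (· ≤ ·) hnd).2 ?_
    have h12 := h1.trans h2
    have h23 := h2.trans h3
    have h13 := h12.trans h3
    simp [h1.le, h2.le, h3.le, h12.le, h23.le, h13.le]
  rw [hs]
  rfl

lemma card_filter_mem {n : ℕ} (S : Finset (Fin n)) {v : Fin n} (hv : v ∈ S) :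
    ((S.powersetCard 4).filter (fun e => v ∈ e)).card = (S.card - 1).choose 3 := by
  have h1 : (S.powersetCard 4).filter (fun e => v ∈ e) =
      ((S.erase v).powersetCard 3).image (insert v) := by
    ext e
    simp only [mem_filter, mem_powersetCard, mem_image]
    constructor
    · rintro ⟨⟨h1, h2⟩, h3⟩
      refine ⟨e.erase v, ⟨?_, ?_⟩, insert_erase h3⟩
      · exact erase_subset_erase v h1
      · rw [card_erase_of_mem h3, h2]
    · rintro ⟨t, ⟨h1, h2⟩, rfl⟩
      have hvt : v ∉ t := fun h => by
        have := h1 h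
        simp at this
      refine ⟨⟨?_, ?_⟩, mem_insert_self _ _⟩
      · intro x hx
        rw [mem_insert] at hx
        rcases hx with rfl | hx
        · exact hv
        · exact mem_of_mem_erase (h1 hx)
      · rw [card_insert_of_notMem hvt, h2]
  rw [h1, card_image_of_injOn, card_powersetCard, card_erase_of_mem hv]
  intro t ht t' ht' hEq
  have hvt : v ∉ t := fun h => by
    have := (mem_powersetCard.1 (Finset.mem_coe.1 ht)).1 h
    simp at this
  have hvt' : v ∉ t' := fun h => by
    have := (mem_powersetCard.1 (Finset.mem_coe.1 ht')).1 h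
    simp at this
  have h2 := congrArg (fun u => u.erase v) hEq
  simpa [erase_insert hvt, erase_insert hvt'] using h2

/-- the colouring has no large set of large minimum degree -/
lemma no_set {m n k : ℕ} (hm : 1 ≤ m) (hk : m + 4 ≤ k) (hn : n ≤ 2 ^ (2 ^ m)) (S : Finset (Fin n))
    (hS : k ≤ S.card) (j : Fin 7)
    (h : ∀ v ∈ S, (if j = 6 then (1 / 2 : ℝ) else 1) * (((S.card - 1).choose 3 : ℕ) : ℝ) ≤
      (((S.powersetCard 4).filter (fun e => v ∈ e ∧ phi n e = j)).card : ℝ)) : False := by
  classical
  obtain ⟨v₀, hv₀⟩ : S.Nonempty := Finset.card_pos.1 (by omega)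
  have hch : 0 < (S.card - 1).choose 3 := Nat.choose_pos (by omega)
  by_cases hj : j = 6
  · have h1 := h v₀ hv₀
    rw [if_pos hj] at h1
    have h2 : ((S.powersetCard 4).filter (fun e => v₀ ∈ e ∧ phi n e = j)) = ∅ := by
      rw [Finset.filter_eq_empty_iff]
      rintro e he ⟨-, h3⟩
      rw [hj] at h3
      exact phi_ne (mem_powersetCard.1 he).2 h3
    rw [h2, card_empty] at h1
    have h3 : (0 : ℝ) < ((S.card - 1).choose 3 : ℕ) := by exact_mod_cast hch
    push_cast at h1
    linarith
  · -- every quadruple of `S` has colour `j`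
    have hall : ∀ e ∈ S.powersetCard 4, phi n e = j := by
      intro e he
      have hec := (mem_powersetCard.1 he).2
      obtain ⟨v, hv⟩ : e.Nonempty := Finset.card_pos.1 (by omega)
      have hvS := (mem_powersetCard.1 he).1 hv
      have h1 := h v hvS
      rw [if_neg hj, one_mul, ← card_filter_mem S hvS] at h1
      have h2 : ((S.powersetCard 4).filter (fun e => v ∈ e)).card ≤
          ((S.powersetCard 4).filter (fun e => v ∈ e ∧ phi n e = j)).card := by exact_mod_cast h1
      have h3 : (S.powersetCard 4).filter (fun e => v ∈ e ∧ phi n e = j) ⊆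
          (S.powersetCard 4).filter (fun e => v ∈ e) := by
        intro x hx
        rw [mem_filter] at hx ⊢
        exact ⟨hx.1, hx.2.1⟩
      have h4 := Finset.eq_of_subset_of_card_le h3 h2
      have h5 : e ∈ (S.powersetCard 4).filter (fun e => v ∈ e) := mem_filter.2 ⟨he, hv⟩
      rw [← h4] at h5
      exact (mem_filter.1 h5).2.2
    set f := S.orderEmbOfFin rfl with hf
    set s : ℕ → ℕ := fun i => if hi : i < S.card then (f ⟨i, hi⟩ : ℕ) else 0 with hs
    have hsv : ∀ i (hi : i < S.card), s i = (f ⟨i, hi⟩ : ℕ) := by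
      intro i hi
      simp only [hs, hi, dif_pos]
    have hlt : ∀ i (hi : i + 1 < S.card), f ⟨i, by omega⟩ < f ⟨i + 1, hi⟩ := by
      intro i hi
      exact f.strictMono (by simp [Fin.lt_def])
    refine no_long hm (k := S.card) (by omega) s ?_ ?_ j ?_
    · intro i hi
      rw [hsv i (by omega), hsv (i + 1) hi]
      exact hlt i hi
    · intro i hi
      rw [hsv i hi]
      exact lt_of_lt_of_le (f ⟨i, hi⟩).isLt hn
    · intro i hi
      rw [hsv i (by omega), hsv (i + 1) (by omega), hsv (i + 2) (by omega), hsv (i + 3) (by omega),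
        ← phi_eq (hlt i (by omega)) (hlt (i + 1) (by omega)) (hlt (i + 2) (by omega))]
      apply hall
      rw [mem_powersetCard]
      constructor
      · intro x hx
        simp only [mem_insert, mem_singleton] at hx
        rcases hx with rfl | rfl | rfl | rfl <;> exact Finset.orderEmbOfFin_mem S rfl _
      · have h12 := hlt i (by omega)
        have h23 := hlt (i + 1) (by omega)
        have h34 := hlt (i + 2) (by omega)
        have h13 := h12.trans h23
        have h24 := h23.trans h34
        have h14 := h13.trans h34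
        rw [card_insert_of_notMem, card_insert_of_notMem, card_insert_of_notMem, card_singleton]
        · simp only [mem_singleton]
          exact h34.ne
        · simp only [mem_insert, mem_singleton, not_or]
          exact ⟨h23.ne, h24.ne⟩
        · simp only [mem_insert, mem_singleton, not_or]
          exact ⟨h12.ne, h13.ne, h14.ne⟩

open Filter Asymptotics in
lemma growth (C D : ℝ) : ∃ m : ℕ, 1 ≤ m ∧
    C * ((m + 4 : ℕ) : ℝ) ^ D ≤ Real.log 2 * 2 ^ m := by
  have hl : 0 < Real.log 2 := Real.log_pos (by norm_num)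
  have h1 : (fun x : ℝ => x ^ D) =o[atTop] fun x => Real.exp (Real.log 2 * x) :=
    isLittleO_rpow_exp_pos_mul_atTop D hl
  have hc : 0 < Real.log 2 / (16 * (|C| + 1)) := by positivity
  have h2 := h1.bound hc
  have h3 : Tendsto (fun m : ℕ => ((m + 4 : ℕ) : ℝ)) atTop atTop :=
    tendsto_natCast_atTop_atTop.comp (tendsto_add_atTop_nat 4)
  obtain ⟨m, hm1, hm2⟩ := ((h3.eventually h2).and (eventually_ge_atTop 1)).exists
  refine ⟨m, hm2, ?_⟩
  have h4 : (0 : ℝ) ≤ ((m + 4 : ℕ) : ℝ) ^ D := by positivity
  rw [Real.norm_of_nonneg h4, Real.norm_of_nonneg (Real.exp_pos _).le] at hm1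
  have h5 : Real.exp (Real.log 2 * ((m + 4 : ℕ) : ℝ)) = 16 * 2 ^ m := by
    rw [mul_comm, Real.exp_nat_mul, Real.exp_log (by norm_num), pow_add]
    ring
  rw [h5] at hm1
  calc C * ((m + 4 : ℕ) : ℝ) ^ D ≤ (|C| + 1) * ((m + 4 : ℕ) : ℝ) ^ D := by
        apply mul_le_mul_of_nonneg_right _ h4
        linarith [le_abs_self C]
    _ ≤ (|C| + 1) * (Real.log 2 / (16 * (|C| + 1)) * (16 * 2 ^ m)) := by gcongr
    _ = Real.log 2 * 2 ^ m := by
        have : |C| + 1 ≠ 0 := by positivity
        field_simp

/-- The negation of the preceding statement: For r≥3, q≥2, ε>0 there is D such that for every ρ in [0,1]^q with sum below q−ε, some C gives, for all k≥1, an n with ln n ≤ C·k^D where every q-colouring of r-sets of [n] has an S of size ≥k and colour j with min colour-j degree in S ≥ ρ_j·C(∣S∣−1,r−1). -/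
theorem result :
    ¬ (∀ r q : ℕ, 3 ≤ r → 2 ≤ q → ∀ ε : ℝ, 0 < ε →
      ∃ D : ℝ, ∀ ρ : Fin q → ℝ, (∀ i, 0 ≤ ρ i ∧ ρ i ≤ 1) → ∑ i, ρ i < (q : ℝ) - ε →
        ∃ C : ℝ, ∀ k : ℕ, 1 ≤ k → ∃ n : ℕ, Real.log (n : ℝ) ≤ C * (k : ℝ) ^ D ∧
          ∀ φ : Finset (Fin n) → Fin q, ∃ S : Finset (Fin n), k ≤ S.card ∧ ∃ j : Fin q,
            ∀ v ∈ S, ρ j * (((S.card - 1).choose (r - 1) : ℕ) : ℝ) ≤
              (((S.powersetCard r).filter (fun e => v ∈ e ∧ φ e = j)).card : ℝ)) := by
  intro h
  obtain ⟨D, hD⟩ := h 4 7 (by norm_num) (by norm_num) (1 / 4) (by norm_num)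
  obtain ⟨C, hC⟩ := hD (fun j => if j = 6 then (1 / 2 : ℝ) else 1) (fun i => by
    split_ifs <;> norm_num) (by
    rw [Finset.sum_ite]
    simp only [Finset.sum_const, nsmul_eq_mul]
    have h1 : (Finset.univ.filter (fun j : Fin 7 => j = 6)).card = 1 := by decide
    have h2 : (Finset.univ.filter (fun j : Fin 7 => ¬ j = 6)).card = 6 := by decide
    rw [h1, h2]
    norm_num)
  obtain ⟨m, hm, hg⟩ := growth C D
  obtain ⟨n, hn, hφ⟩ := hC (m + 4) (by omega)
  obtain ⟨S, hS, j, hj⟩ := hφ (phi n)
  have hn2 : n ≤ 2 ^ (2 ^ m) := by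
    rcases Nat.eq_zero_or_pos n with h0 | h0
    · rw [h0]; exact Nat.zero_le _
    · have hl : 0 < Real.log 2 := Real.log_pos (by norm_num)
      have h1 : Real.log n ≤ Real.log ((2 : ℝ) ^ (2 ^ m)) := by
        rw [Real.log_pow]
        refine hn.trans (hg.trans ?_)
        push_cast
        linarith [mul_comm (Real.log 2) ((2 : ℝ) ^ m)]
      have h2 : (n : ℝ) ≤ (2 : ℝ) ^ (2 ^ m) := by
        rwa [Real.log_le_log_iff (by exact_mod_cast h0) (by positivity)] at h1
      exact_mod_cast h2
  exact no_set hm le_rfl hn2 S hS j hj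

end Pool.Agent.S07316
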