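import Pool.Statements.S07379
import Pool.Agent.W61.AJK.Main

set_option autoImplicit false
open Pool Pool.MP_17c400_co

namespace Pool.Agent.S07379

/-- For every k ≥ 3 there is C such that for every prime p > C, every n, and any k invertible n×n matrices over Z/p, some vector x makes every entry of every M_i x nonzero. -/
theorem result :
    ∀ k : ℕ, 3 ≤ k → ∃ C : ℕ, ∀ p : ℕ, p.Prime → C < p →
      ∀ n : ℕ, ∀ M : Fin k → Matrix (Fin n) (Fin n) (ZMod p),
        (∀ i, IsUnit (M i).det) →
          ∃ x : Fin n → ZMod p, ∀ i : Fin k, ∀ j : Fin n, (M i).mulVec x j ≠ 0 := by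
  intro k hk
  refine ⟨12 * k ^ 3, fun p hp hC n M hM => ?_⟩
  haveI : Fact p.Prime := ⟨hp⟩
  exact Pool.Agent.W61.AJK.main_matrices (by omega) hC.le M hM (fun _ _ => 0)

end Pool.Agent.S07379
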