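import Pool.Statements.S07520
import Pool.Agent.W319.GCI.K4A0
import Pool.Agent.W319.GCI.K5A15

set_option autoImplicit false
open Pool Pool.MP_1dface_co

namespace Pool.Agent.S07520

/-- The negation of the preceding statement: For every finite tree of maximum degree 4, there is some k ≤ 5 such that Alice, moving first in the proper edge-colouring game with k colours, has a strategy guaranteeing that every edge gets coloured. -/
theorem result :
    ¬ (∀ (V : Type) [Fintype V] [DecidableEq V] (G : SimpleGraph V) [DecidableRel G.Adj],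
    G.IsTree → G.maxDegree = 4 →
    ∃ k : ℕ, k ≤ 5 ∧ ∃ S : Set (Sym2 V → Option (Fin k)),
      (fun _ => none) ∈ S ∧
      ∀ c ∈ S,
        ((∀ e ∈ G.edgeSet, ∀ a : Fin k, c e = none →
            ¬ (∀ f ∈ G.edgeSet, f ≠ e → (∃ v, v ∈ e ∧ v ∈ f) → c f ≠ some a)) →
          ∀ e ∈ G.edgeSet, c e ≠ none) ∧
        (Even (Set.ncard {e | e ∈ G.edgeSet ∧ c e ≠ none}) →
          (∃ e ∈ G.edgeSet, ∃ a : Fin k, c e = none ∧
              (∀ f ∈ G.edgeSet, f ≠ e → (∃ v, v ∈ e ∧ v ∈ f) → c f ≠ some a)) →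
          ∃ e ∈ G.edgeSet, ∃ a : Fin k, c e = none ∧
              (∀ f ∈ G.edgeSet, f ≠ e → (∃ v, v ∈ e ∧ v ∈ f) → c f ≠ some a) ∧
              Function.update c e (some a) ∈ S) ∧
        (¬ Even (Set.ncard {e | e ∈ G.edgeSet ∧ c e ≠ none}) →
          ∀ e ∈ G.edgeSet, ∀ a : Fin k, c e = none →
              (∀ f ∈ G.edgeSet, f ≠ e → (∃ v, v ∈ e ∧ v ∈ f) → c f ≠ some a) →
              Function.update c e (some a) ∈ S)) := by
  intro h
  obtain ⟨k, hk, S, h0, hS⟩ := h (Pool.Agent.W319.GCI.VV 200) (Pool.Agent.W319.GCI.GG 200)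
    (Pool.Agent.W319.GCI.isTree_GG 200) (Pool.Agent.W319.GCI.maxDegree_GG (by norm_num))
  have hclo : Pool.Agent.W319.GCI.Clo S := by
    refine ⟨?_, ?_, ?_⟩
    · intro c hc hno
      exact (hS c hc).1 hno
    · intro c hc hev hex
      obtain ⟨e, he, a, hn, hl⟩ := hex
      obtain ⟨e', he', a', hn', hl', hu⟩ := (hS c hc).2.1 hev ⟨e, he, a, hn, hl⟩
      exact ⟨e', he', a', hn', hl', by convert hu⟩
    · intro c hc hodd e he a hn hl
      have := (hS c hc).2.2 hodd e he a hn hl
      convert this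
  have hgood := Pool.Agent.W319.GCI.good_TT hclo
  have hinit := Pool.Agent.W319.GCI.TT_init h0
  by_cases h3 : k ≤ 3
  · exact Pool.Agent.W319.GCI.few_colours h3 (by norm_num) hgood hinit
  · have h45 : k = 4 ∨ k = 5 := by omega
    rcases h45 with rfl | rfl
    · exact Pool.Agent.W319.GCI.fresh_false hgood hinit (n := 6) (by norm_num)
        (Pool.Agent.W319.GCI.K4.T0 _ _ hgood)
    · exact Pool.Agent.W319.GCI.fresh_false hgood hinit (n := 30) (by norm_num)
        (Pool.Agent.W319.GCI.K5.T0 _ _ hgood)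

end Pool.Agent.S07520
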