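import Pool.Statements.S07574

set_option autoImplicit false
open Pool Pool.MP_1f8616_co

namespace Pool.Agent.S07574

/-- the disjoint union of the chains with `n + 1` elements, `n` in `ℕ` -/
abbrev P : Type := Σ n : ℕ, Fin (n + 1)

theorem chain_finite (C : Set P) (hC : IsChain (· ≤ ·) C) : C.Finite := by
  rcases C.eq_empty_or_nonempty with h | ⟨a, ha⟩
  · rw [h]
    exact Set.finite_empty
  · have hsub : C ⊆ Set.range (fun x : Fin (a.1 + 1) => (⟨a.1, x⟩ : P)) := by
      intro b hb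
      have hfst : b.1 = a.1 := by
        rcases hC.total ha hb with h | h
        · obtain ⟨h1, _⟩ := Sigma.le_def.1 h
          exact h1.symm
        · obtain ⟨h1, _⟩ := Sigma.le_def.1 h
          exact h1
      obtain ⟨m, x⟩ := b
      simp only at hfst
      subst hfst
      exact ⟨x, rfl⟩
    exact (Set.finite_range _).subset hsub

/-- The negation of the preceding statement: Every countable poset with no saturated chain (or its reverse) that is an ω-indexed linear sum of infinite co-wellfounded chains has, for each k≥2, k disjoint chains and a partition into antichains where each antichain A meets at least min(∣A∣,k) chains. -/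
theorem result :
    ¬ (∀ (α : Type) [PartialOrder α] [Countable α],
    (¬ ∃ C : Set α, IsChain (· ≤ ·) C ∧
        (∀ x, x ∉ C → ∀ y ∈ C, ∀ z ∈ C, y < x → x < z → ¬ IsChain (· ≤ ·) (insert x C)) ∧
        ∃ f : α → ℕ,
          ((∀ x ∈ C, ∀ y ∈ C, x ≤ y → f x ≤ f y) ∧
            ∀ i : ℕ, Set.Infinite {x | x ∈ C ∧ f x = i} ∧
              ¬ ∃ s : ℕ → α, StrictMono s ∧ ∀ n, s n ∈ C ∧ f (s n) = i) ∨
          ((∀ x ∈ C, ∀ y ∈ C, x ≤ y → f y ≤ f x) ∧
            ∀ i : ℕ, Set.Infinite {x | x ∈ C ∧ f x = i} ∧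
              ¬ ∃ s : ℕ → α, StrictAnti s ∧ ∀ n, s n ∈ C ∧ f (s n) = i)) →
    ∀ k : ℕ, 2 ≤ k →
      ∃ C : Fin k → Set α, (∀ j, IsChain (· ≤ ·) (C j)) ∧
        Pairwise (fun i j => Disjoint (C i) (C j)) ∧
        ∃ g : α → ℕ, ∀ i : ℕ, IsAntichain (· ≤ ·) {x | g x = i} ∧
          min (Set.encard {x | g x = i}) (k : ℕ∞) ≤
            Set.encard {j : Fin k | (C j ∩ {x | g x = i}).Nonempty}) := by
  intro H
  have hvac := H P (by
    rintro ⟨C, hC, _, f, hf⟩
    have hfin := chain_finite C hC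
    rcases hf with ⟨_, hf⟩ | ⟨_, hf⟩
    · exact (hf 0).1 (hfin.subset fun x hx => hx.1)
    · exact (hf 0).1 (hfin.subset fun x hx => hx.1)) 2 le_rfl
  obtain ⟨C, hC, _, g, hg⟩ := hvac
  have hU : (⋃ j, C j).Finite := Set.finite_iUnion fun j => chain_finite _ (hC j)
  have hrange : Set.range g ⊆ g '' (⋃ j, C j) := by
    rintro _ ⟨x, rfl⟩
    have h1 := (hg (g x)).2
    have h2 : (1 : ℕ∞) ≤ Set.encard {y | g y = g x} := by
      rw [Set.one_le_encard_iff_nonempty]
      exact ⟨x, rfl⟩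
    have h3 : (1 : ℕ∞) ≤ min (Set.encard {y | g y = g x}) ((2 : ℕ) : ℕ∞) := by
      refine le_min h2 ?_
      norm_num
    have h4 := h3.trans h1
    rw [Set.one_le_encard_iff_nonempty] at h4
    obtain ⟨j, y, hy1, hy2⟩ := h4
    exact ⟨y, Set.mem_iUnion.2 ⟨j, hy1⟩, hy2⟩
  have hfin : (Set.range g).Finite := (hU.image g).subset hrange
  set m := hfin.toFinset.card with hm
  have hinj : Function.Injective (fun x : Fin (m + 1) => g (⟨m, x⟩ : P)) := by
    intro x y hxy
    by_contra hne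
    have hanti := (hg (g (⟨m, x⟩ : P))).1
    have hx : (⟨m, x⟩ : P) ∈ {z | g z = g (⟨m, x⟩ : P)} := rfl
    have hy : (⟨m, y⟩ : P) ∈ {z | g z = g (⟨m, x⟩ : P)} := hxy.symm
    have hne' : (⟨m, x⟩ : P) ≠ ⟨m, y⟩ := by
      intro h
      apply hne
      simpa using h
    rcases le_total x y with h | h
    · exact hanti hx hy hne' (Sigma.mk_le_mk_iff.2 h)
    · exact hanti hy hx hne'.symm (Sigma.mk_le_mk_iff.2 h)
  have hcard : m + 1 ≤ m := by
    have h1 : (Finset.univ.image (fun x : Fin (m + 1) => g (⟨m, x⟩ : P))).card = m + 1 := by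
      rw [Finset.card_image_of_injective _ hinj, Finset.card_univ, Fintype.card_fin]
    have h2 : Finset.univ.image (fun x : Fin (m + 1) => g (⟨m, x⟩ : P)) ⊆ hfin.toFinset := by
      intro z hz
      rw [Finset.mem_image] at hz
      obtain ⟨x, _, rfl⟩ := hz
      rw [Set.Finite.mem_toFinset]
      exact ⟨_, rfl⟩
    calc m + 1 = _ := h1.symm
      _ ≤ _ := Finset.card_le_card h2
  omega

end Pool.Agent.S07574
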