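import Pool.Statements.S07694
import Pool.Agent.W134.SpiralFrozen

set_option autoImplicit false
open Pool Pool.MP_24d225_co

namespace Pool.Agent.S07694

open Pool.Agent.Results.MP_24d225_co.Spiral Pool.Agent.W134.SpiralFrozen

/-- The negation of the preceding statement: Some c<1 works for all simple topological graphs: any two faces of the planarization are joined by a chain of at most c times the number of edges of G steps, each step crossing an edge segment into an adjacent face. -/
theorem result :
    ¬ (∃ c : ℝ, c < 1 ∧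
      ∀ (V : Type) [Fintype V] (G : SimpleGraph V) (pos : V → ℝ × ℝ)
        (γ : V → V → unitInterval → ℝ × ℝ) (S : Set (ℝ × ℝ)),
        Function.Injective pos →
        (∀ u v, G.Adj u v →
          Continuous (γ u v) ∧ Function.Injective (γ u v) ∧
          γ u v 0 = pos u ∧ γ u v 1 = pos v ∧
          Set.range (γ u v) = Set.range (γ v u) ∧
          ∀ w, pos w ∈ Set.range (γ u v) → w = u ∨ w = v) →
        (∀ u v x y, G.Adj u v → G.Adj x y → s(u, v) ≠ s(x, y) →
          (Set.range (γ u v) ∩ Set.range (γ x y)).Subsingleton ∧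
          ∀ p ∈ Set.range (γ u v) ∩ Set.range (γ x y),
            (∃ w, pos w = p) ∨
            ((∀ w, pos w ≠ p) ∧
              ∃ φ : (ℝ × ℝ) ≃ₜ (ℝ × ℝ), φ p = 0 ∧
                ∀ q, ‖φ q‖ < 1 →
                  ((q ∈ Set.range (γ u v) ↔ (φ q).2 = 0) ∧
                   (q ∈ Set.range (γ x y) ↔ (φ q).1 = 0)))) →
        (∀ u₁ v₁ u₂ v₂ u₃ v₃, G.Adj u₁ v₁ → G.Adj u₂ v₂ → G.Adj u₃ v₃ →
          s(u₁, v₁) ≠ s(u₂, v₂) → s(u₁, v₁) ≠ s(u₃, v₃) → s(u₂, v₂) ≠ s(u₃, v₃) →
          ∀ p, p ∈ Set.range (γ u₁ v₁) → p ∈ Set.range (γ u₂ v₂) →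
            p ∈ Set.range (γ u₃ v₃) → ∃ w, pos w = p) →
        S = Set.range pos ∪ ⋃ u, ⋃ v, ⋃ (_ : G.Adj u v), Set.range (γ u v) →
        ∀ F F' : Set (ℝ × ℝ),
          (∃ z, z ∉ S ∧ F = connectedComponentIn Sᶜ z) →
          (∃ z, z ∉ S ∧ F' = connectedComponentIn Sᶜ z) →
          ∃ (n : ℕ) (f : ℕ → Set (ℝ × ℝ)),
            (n : ℝ) ≤ c * (G.edgeSet.ncard : ℝ) ∧ f 0 = F ∧ f n = F' ∧
            (∀ i ≤ n, ∃ z, z ∉ S ∧ f i = connectedComponentIn Sᶜ z) ∧
            ∀ i < n, f i = f (i + 1) ∨
              ∃ p ∈ closure (f i) ∩ closure (f (i + 1)),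
                p ∉ Set.range pos ∧
                ∃ u v, G.Adj u v ∧ p ∈ Set.range (γ u v) ∧
                  ∀ x y, G.Adj x y → p ∈ Set.range (γ x y) → s(x, y) = s(u, v)) := by
  rintro ⟨c, hc1, hc⟩
  obtain ⟨N, hN⟩ := exists_nat_gt (2 / (1 - c) : ℝ)
  have h1c : 0 < 1 - c := by linarith
  set n := N + 1 with hn'
  have hn : 1 ≤ n := by omega
  have hbig : c * ((n : ℝ) + 2) < n := by
    rw [div_lt_iff₀ h1c] at hN
    have h2 : (N:ℝ) ≤ n := by rw [hn']; push_cast; linarith
    have h3 : 2 < n * (1 - c) := lt_of_lt_of_le hN (mul_le_mul_of_nonneg_right h2 h1c.le)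
    nlinarith
  -- the range of the drawn edge
  have hrange : ∀ u v e, (spiral n hn).ends e = s(u, v) →
      Set.range (fun t => eR (gam hn u v t)) = eR '' (spiral n hn).arc e := by
    intro u v e he
    have hadj : (spiral n hn).graph.Adj u v := ⟨e, he⟩
    rw [← (gam_spec hn hadj).2.2.2.2 e he]
    exact Set.range_comp eR (gam hn u v)
  obtain ⟨m, f, hm, hf0, hfm, hface, hstep⟩ := hc (spiral n hn).V (spiral n hn).graph
    (fun v => eR ((spiral n hn).pos v)) (fun u v t => eR (gam hn u v t))
    (eR '' Dr n)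
    (by
      intro u v h
      exact (spiral n hn).pos_injective (eR.injective h))
    (by
      intro u v huv
      obtain ⟨e, he⟩ := huv
      have hadj : (spiral n hn).graph.Adj u v := ⟨e, he⟩
      obtain ⟨g1, g2, g3, g4, g5⟩ := gam_spec hn hadj
      refine ⟨eR.continuous.comp g1, eR.injective.comp g2, ?_, ?_, ?_, ?_⟩
      · simp only [g3]
      · simp only [g4]
      · rw [hrange u v e he, hrange v u e (by rw [he, Sym2.eq_swap])]
      · intro w hw
        rw [hrange u v e he, eR.injective.mem_set_image] at hw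
        have := (spiral n hn).no_vertex e w hw
        rw [he, Sym2.mem_iff] at this
        exact this)
    (by
      rintro u v x y ⟨e, he⟩ ⟨e', he'⟩ hne
      have hee : e ≠ e' := by
        rintro rfl
        exact hne (he.symm.trans he')
      rw [hrange u v e he, hrange x y e' he', ← Set.image_inter eR.injective]
      refine ⟨((spiral n hn).inter_subsingleton e e' hee).image _, ?_⟩
      rintro p ⟨p', ⟨hp1, hp2⟩, rfl⟩
      by_cases hv : ∃ w, (spiral n hn).pos w = p'
      · left
        obtain ⟨w, hw⟩ := hv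
        exact ⟨w, by rw [hw]⟩
      · right
        push Not at hv
        refine ⟨fun w hw => hv w (eR.injective hw), ?_⟩
        obtain ⟨φ, hφ0, hφ⟩ := cross hn (e := e) (f := e') hee hp1 hp2 hv
        refine ⟨eR.symm.trans φ, ?_, ?_⟩
        · simp [hφ0]
        · intro q hq
          simp only [Homeomorph.trans_apply] at hq ⊢
          obtain ⟨h1, h2⟩ := hφ _ hq
          rw [← h1, ← h2]
          constructor
          · constructor
            · rintro ⟨z, hz, rfl⟩
              rw [eR.symm_apply_apply]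
              exact hz
            · intro h
              exact ⟨eR.symm q, h, by simp⟩
          · constructor
            · rintro ⟨z, hz, rfl⟩
              rw [eR.symm_apply_apply]
              exact hz
            · intro h
              exact ⟨eR.symm q, h, by simp⟩)
    (by
      rintro u₁ v₁ u₂ v₂ u₃ v₃ ⟨e₁, he₁⟩ ⟨e₂, he₂⟩ ⟨e₃, he₃⟩ h12 h13 h23 p hp1 hp2 hp3
      rw [hrange _ _ _ he₁] at hp1
      rw [hrange _ _ _ he₂] at hp2
      rw [hrange _ _ _ he₃] at hp3
      obtain ⟨p', hp1, rfl⟩ := hp1
      rw [eR.injective.mem_set_image] at hp2 hp3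
      obtain ⟨v, hv⟩ := (spiral n hn).no_triple e₁ e₂ e₃ p'
        (by rintro rfl; exact h12 (he₁.symm.trans he₂))
        (by rintro rfl; exact h23 (he₂.symm.trans he₃))
        (by rintro rfl; exact h13 (he₁.symm.trans he₃)) hp1 hp2 hp3
      exact ⟨v, congrArg eR hv⟩)
    (by
      rw [← drawing_eq hn]
      unfold SimpleTopGraph.drawing
      rw [Set.image_union, Set.union_comm, Set.image_iUnion]
      congr 1
      · rw [← Set.range_comp]; rfl
      · ext z
        simp only [Set.mem_iUnion]
        constructor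
        · rintro ⟨e, he⟩
          induction h : (spiral n hn).ends e with
          | _ u v =>
            refine ⟨u, v, ⟨e, h⟩, ?_⟩
            rw [hrange u v e h]
            exact he
        · rintro ⟨u, v, ⟨e, he⟩, hz⟩
          rw [hrange u v e he] at hz
          exact ⟨e, hz⟩)
    (eR '' U n 0) (eR '' U n n)
    (by
      obtain ⟨z, hz, hU⟩ := (isFace_iff hn (U n 0)).mpr ⟨0, by omega, rfl⟩
      rw [drawing_eq] at hz hU
      refine ⟨eR z, ?_, ?_⟩
      · rw [eR.injective.mem_set_image]; exact hz
      · rw [← Set.image_compl_eq eR.bijective, ← eR.image_connectedComponentIn hz, ← hU])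
    (by
      obtain ⟨z, hz, hU⟩ := (isFace_iff hn (U n n)).mpr ⟨n, le_rfl, rfl⟩
      rw [drawing_eq] at hz hU
      refine ⟨eR z, ?_, ?_⟩
      · rw [eR.injective.mem_set_image]; exact hz
      · rw [← Set.image_compl_eq eR.bijective, ← eR.image_connectedComponentIn hz, ← hU])
  -- every face of the chain is some `U n j`
  have hface' : ∀ i ≤ m, ∃ j, j ≤ n ∧ f i = eR '' U n j := by
    intro i hi
    obtain ⟨z, hz, hF⟩ := hface i hi
    obtain ⟨z', rfl⟩ := eR.surjective z
    rw [eR.injective.mem_set_image] at hz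
    refine ⟨lev n z', (mem_U hn hz).1, ?_⟩
    rw [hF, ← Set.image_compl_eq eR.bijective, ← eR.image_connectedComponentIn hz, component_eq hn hz]
  have hind : ∀ i ≤ m, ∃ j, j ≤ n ∧ j ≤ i ∧ f i = eR '' U n j := by
    intro i
    induction i with
    | zero => intro _; exact ⟨0, by omega, le_rfl, hf0⟩
    | succ i ih =>
      intro hi
      obtain ⟨j, hj, hji, hfj⟩ := ih (by omega)
      obtain ⟨j', hj', hfj'⟩ := hface' (i + 1) hi
      rcases hstep i (by omega) with h | ⟨p, ⟨hp1, hp2⟩, hpv, u, v, ⟨e, he⟩, hpe, huniq⟩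
      · exact ⟨j, hj, by omega, by rw [← h, hfj]⟩
      · refine ⟨j', hj', ?_, hfj'⟩
        obtain ⟨p', rfl⟩ := eR.surjective p
        rw [hfj, ← eR.image_closure, eR.injective.mem_set_image] at hp1
        rw [hfj', ← eR.image_closure, eR.injective.mem_set_image] at hp2
        rw [hrange u v e he, eR.injective.mem_set_image] at hpe
        have hnode : p' ∉ (spiral n hn).nodes := by
          rintro (⟨w, hw⟩ | ⟨e1, e2, h12, h1, h2⟩)
          · exact hpv ⟨w, by simp only; rw [hw]⟩
          · have huniq' : ∀ e', p' ∈ (spiral n hn).arc e' → e' = e := by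
              intro e' he'
              induction h : (spiral n hn).ends e' with
              | _ x y =>
                have := huniq x y ⟨e', h⟩ (by rw [hrange x y e' h, eR.injective.mem_set_image]; exact he')
                exact (spiral n hn).ends_injective (by rw [h, this, he])
            exact h12 ((huniq' e1 h1).trans (huniq' e2 h2).symm)
        have := touch hn hj hj' (e := e) hpe hnode hp1 hp2
        omega
  obtain ⟨j, hj, hjm, hfj⟩ := hind m le_rfl
  rw [hfm] at hfj
  have hU : U n n = U n j := eR.injective.image_injective hfj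
  have := U_inj hn le_rfl hj hU
  have hnm : n ≤ m := by omega
  rw [edge_count hn] at hm
  have hnm' : (n:ℝ) ≤ m := by exact_mod_cast hnm
  push_cast at hm
  linarith

end Pool.Agent.S07694
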