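import Pool.Statements.S07719
import Pool.Agent.W725.FSConsec

set_option autoImplicit false
open Pool Pool.MP_25e1d2_co

namespace Pool.Agent.S07719

/-- For every finite colouring of the naturals there is a sequence of positive integers y_0, y_1, ... such that all nonempty finite sums of distinct terms, and all sums y_n + 2y_{n+1} + y_{n+2}, get one and the same colour. -/
theorem result :
    ∀ (k : ℕ) (c : ℕ → Fin k), ∃ y : ℕ → ℕ, (∀ n, 0 < y n) ∧
      ∃ col : Fin k,
        (∀ s : Finset ℕ, s.Nonempty → c (∑ i ∈ s, y i) = col) ∧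
        (∀ n : ℕ, c (y n + 2 * y (n + 1) + y (n + 2)) = col) := by
  intro k c
  obtain ⟨e, Z, hpos, he, h10, h01, h11, hT⟩ := Pool.Agent.W725.FSConsec.exists_eZ
  obtain ⟨col, hcol⟩ : ∃ col : Fin k, c ⁻¹' {col} ∈ e := by
    have h : (⋃ col ∈ (Set.univ : Set (Fin k)), c ⁻¹' {col}) ∈ e := by
      have : (⋃ col ∈ (Set.univ : Set (Fin k)), c ⁻¹' {col}) = Set.univ := by
        ext x; simp
      rw [this]
      exact Filter.univ_mem
    obtain ⟨col, _, h'⟩ := (Ultrafilter.finite_biUnion_mem_iff Set.finite_univ).mp h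
    exact ⟨col, h'⟩
  obtain ⟨y, hy1, hy2⟩ := Pool.Agent.W725.FSConsec.main 2 e Z he h10 h01 h11 (hT 2)
    (c ⁻¹' {col} ∩ {n | 1 ≤ n}) (Filter.inter_mem hcol (hpos 1))
  refine ⟨y, fun n => ?_, col, fun s hs => (hy1 s hs).1, fun n => (hy2 n).1⟩
  have h1 : 1 ≤ ∑ i ∈ ({n} : Finset ℕ), y i := (hy1 {n} (Finset.singleton_nonempty n)).2
  rw [Finset.sum_singleton] at h1
  exact h1

end Pool.Agent.S07719
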