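import Pool.Statements.S07763
import Pool.Agent.Results.MP_288a40_co.SeqSpectrum

set_option autoImplicit false
open Pool Pool.MP_288a40_co

namespace Pool.Agent.S07763

/-- For every finite set S of positive integers there is a finite connected simple graph that, for each positive k, admits a k-sequential total numbering (distinct vertex and edge labels, edge label = ∣difference∣, labels exactly k..k+n+m-1) iff k is in S. -/
theorem result :
  ∀ S : Finset ℕ, (∀ k ∈ S, 1 ≤ k) →
    ∃ (V : Type) (_ : Fintype V) (G : SimpleGraph V), G.Connected ∧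
      ∀ k : ℕ, 1 ≤ k → (k ∈ S ↔
        ∃ f : V → ℕ, Function.Injective f ∧
          (∀ u v x y : V, G.Adj u v → G.Adj x y →
              Int.natAbs ((f u : ℤ) - (f v : ℤ)) = Int.natAbs ((f x : ℤ) - (f y : ℤ)) →
              s(u, v) = s(x, y)) ∧
          (∀ u v w : V, G.Adj u v → f w ≠ Int.natAbs ((f u : ℤ) - (f v : ℤ))) ∧
          Set.range f ∪ {d : ℕ | ∃ u v : V, G.Adj u v ∧ d = Int.natAbs ((f u : ℤ) - (f v : ℤ))} =
            Set.Icc k (k + Nat.card V + G.edgeSet.ncard - 1)) := by
  intro S hS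
  obtain ⟨V, hV, G, hG, h⟩ := Pool.Agent.Results.MP_288a40_co.SeqSpectrum.result S hS
  refine ⟨V, Fintype.ofFinite V, G, hG, fun k hk => ?_⟩
  rw [← h k hk]
  refine exists_congr fun f => and_congr Iff.rfl (and_congr Iff.rfl (and_congr ?_ ?_))
  · exact forall_congr' fun u => forall_congr' fun v => forall_congr' fun w =>
      forall_congr' fun _ => ne_comm
  · have : {x : ℕ | ∃ u v : V, G.Adj u v ∧ ((f u : ℤ) - (f v : ℤ)).natAbs = x} =
        {d : ℕ | ∃ u v : V, G.Adj u v ∧ d = Int.natAbs ((f u : ℤ) - (f v : ℤ))} := by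
      ext x
      constructor
      · rintro ⟨u, v, h1, h2⟩
        exact ⟨u, v, h1, h2.symm⟩
      · rintro ⟨u, v, h1, h2⟩
        exact ⟨u, v, h1, h2.symm⟩
    rw [this]

end Pool.Agent.S07763
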