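import Pool.Statements.S07802
import Pool.Agent.Results.MP_2a19ed_co.AdCut

set_option autoImplicit false
open scoped InnerProductSpace
open Pool Pool.MP_2a19ed_co

namespace Pool.Agent.S07802

open Pool.Agent.Results.MP_2a19ed_co.AdCut TopologicalSpace Matrix

abbrev Z (d : ℕ) := {K : TopologicalSpace.NonemptyCompacts (EuclideanSpace ℝ (Fin d)) //
        Convex ℝ (K : Set (EuclideanSpace ℝ (Fin d))) ∧
        (interior (K : Set (EuclideanSpace ℝ (Fin d)))).Nonempty ∧
        ∀ x ∈ (K : Set (EuclideanSpace ℝ (Fin d))), -x ∈ (K : Set (EuclideanSpace ℝ (Fin d)))}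

def toZ {d : ℕ} (C : Bodies d) : Z d :=
  ⟨⟨⟨(C.1 : Set (E d)), C.1.isCompact⟩, C.1.nonempty⟩, C.1.convex, C.2.2, C.2.1⟩

def ofZ {d : ℕ} (K : Z d) : Bodies d :=
  ⟨⟨(K.1 : Set (E d)), K.2.1, K.1.isCompact, K.1.nonempty⟩, K.2.2.2, K.2.2.1⟩

lemma isometry_toZ {d : ℕ} : Isometry (toZ : Bodies d → Z d) := by
  intro A B
  rw [Subtype.edist_eq, Subtype.edist_eq]
  change Metric.hausdorffEDist (A.1 : Set (E d)) (B.1 : Set (E d)) = edist A.1 B.1
  exact ConvexBody.hausdorffEDist_coe _ _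

def equivZ (d : ℕ) : Bodies d ≃ᵢ Z d where
  toFun := toZ
  invFun := ofZ
  left_inv := fun C => by
    apply Subtype.ext
    apply ConvexBody.ext
    rfl
  right_inv := fun K => by
    apply Subtype.ext
    apply SetLike.coe_injective
    rfl
  isometry_toFun := isometry_toZ

/-- matrix with given columns -/
def matOf {d : ℕ} (b : Fin d → E d) : Matrix (Fin d) (Fin d) ℝ := Matrix.of fun j i => b i j

lemma lattice_matOf {d : ℕ} (b : Fin d → E d) :
    lattice (matOf b) = (Submodule.span ℤ (Set.range b) : Set (E d)) := by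
  ext x
  rw [SetLike.mem_coe, Submodule.mem_span_range_iff_exists_fun]
  unfold lattice
  constructor
  · rintro ⟨z, rfl⟩
    refine ⟨z, ?_⟩
    ext j
    simp [matOf, Matrix.mulVec, dotProduct, mul_comm]
  · rintro ⟨z, rfl⟩
    refine ⟨z, ?_⟩
    ext j
    simp [matOf, Matrix.mulVec, dotProduct, mul_comm]

lemma det_matOf {d : ℕ} (b : Fin d → E d) :
    (EuclideanSpace.basisFun (Fin d) ℝ).toBasis.det b = (matOf b).det := by
  rw [Module.Basis.det_apply]
  congr 1

/-- The negation of the preceding statement: For all large d, outside a meagre set of symmetric convex bodies C in d-space, C is smooth and every densest lattice for C is unique up to scaling, eutactic and perfect with respect to C, and has exactly 2d² minimal vectors. -/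
theorem result :
    ¬ (∃ d₀ : ℕ, ∀ d : ℕ, d₀ ≤ d →
    IsMeagre {K : {K : TopologicalSpace.NonemptyCompacts (EuclideanSpace ℝ (Fin d)) //
        Convex ℝ (K : Set (EuclideanSpace ℝ (Fin d))) ∧
        (interior (K : Set (EuclideanSpace ℝ (Fin d)))).Nonempty ∧
        ∀ x ∈ (K : Set (EuclideanSpace ℝ (Fin d))), -x ∈ (K : Set (EuclideanSpace ℝ (Fin d)))} |
      ¬ ((∀ x ∈ frontier (K.1 : Set (EuclideanSpace ℝ (Fin d))),
            ∃! u : EuclideanSpace ℝ (Fin d), ‖u‖ = 1 ∧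
              ∀ y ∈ (K.1 : Set (EuclideanSpace ℝ (Fin d))), ⟪y - x, u⟫_ℝ ≤ 0) ∧
        ∀ (Λ : Module.Basis (Fin d) ℝ (EuclideanSpace ℝ (Fin d)) → Set (EuclideanSpace ℝ (Fin d))),
          (∀ b, Λ b = (Submodule.span ℤ (Set.range ⇑b) : Set (EuclideanSpace ℝ (Fin d)))) →
        ∀ (lam : Module.Basis (Fin d) ℝ (EuclideanSpace ℝ (Fin d)) → ℝ),
          (∀ b, lam b = sInf (gauge (K.1 : Set (EuclideanSpace ℝ (Fin d))) '' (Λ b \ {0}))) →
        ∀ (ρ : Module.Basis (Fin d) ℝ (EuclideanSpace ℝ (Fin d)) → ℝ),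
          (∀ b, ρ b = lam b ^ d / |(EuclideanSpace.basisFun (Fin d) ℝ).toBasis.det ⇑b|) →
        ∀ b : Module.Basis (Fin d) ℝ (EuclideanSpace ℝ (Fin d)), (∀ b', ρ b' ≤ ρ b) →
        ∀ M : Set (EuclideanSpace ℝ (Fin d)),
          M = {l | l ∈ Λ b ∧ l ≠ 0 ∧ gauge (K.1 : Set (EuclideanSpace ℝ (Fin d))) l = lam b} →
          (∀ b', (∀ b'', ρ b'' ≤ ρ b') →
              ∃ α : ℝ, 0 < α ∧ Λ b' = (fun y => α • y) '' Λ b) ∧
          (∃ u : EuclideanSpace ℝ (Fin d) → EuclideanSpace ℝ (Fin d),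
              (∀ l ∈ M, ‖u l‖ = 1 ∧
                ∀ y ∈ (K.1 : Set (EuclideanSpace ℝ (Fin d))), ⟪y, u l⟫_ℝ ≤ ⟪l, u l⟫_ℝ / lam b) ∧
              (∃ c : EuclideanSpace ℝ (Fin d) → ℝ, (∀ l ∈ M, 0 < c l) ∧
                ∑ᶠ l ∈ M, c l • (innerSL ℝ ((⟪l, u l⟫_ℝ)⁻¹ • l)).smulRight (u l)
                  = ContinuousLinearMap.id ℝ (EuclideanSpace ℝ (Fin d))) ∧
              Submodule.span ℝ
                ((fun l => (innerSL ℝ ((⟪l, u l⟫_ℝ)⁻¹ • l)).smulRight (u l)) '' M) = ⊤) ∧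
          M.ncard = 2 * d ^ 2)}) := by
  rintro ⟨d₀, h⟩
  set d := max d₀ 2 with hd
  have hd2 : 2 ≤ d := le_max_right _ _
  have h1 := h d (le_max_left _ _)
  have h2 := h1.preimage_of_isOpenMap (f := equivZ d) (equivZ d).continuous
    (equivZ d).toHomeomorph.isOpenMap
  refine Pool.Agent.Results.MP_2a19ed_co.AdCut.result d hd2 (h2.mono ?_)
  rintro C ⟨⟨B, hB⟩, hall⟩
  simp only [Set.mem_preimage, Set.mem_ofPred_eq]
  rintro ⟨-, hgood⟩
  -- a basis whose matrix is `B`
  have hunit : IsUnit ((EuclideanSpace.basisFun (Fin d) ℝ).toBasis.det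
      (fun i => (WithLp.toLp 2 (fun j => B j i) : E d))) := by
    rw [det_matOf, isUnit_iff_ne_zero]
    have h0 : matOf (fun i => (WithLp.toLp 2 (fun j => B j i) : E d)) = B := by
      ext j i
      simp [matOf]
    rw [h0]
    exact hB.1
  obtain ⟨hli, hsp⟩ := (Module.Basis.is_basis_iff_det
    (EuclideanSpace.basisFun (Fin d) ℝ).toBasis).2 hunit
  set b : Module.Basis (Fin d) ℝ (E d) := Module.Basis.mk hli hsp.ge with hb
  have hbB : matOf b = B := by
    ext j i
    simp [matOf, hb]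
  have hdens : ∀ b' : Module.Basis (Fin d) ℝ (E d), (matOf b').det ≠ 0 := by
    intro b'
    rw [← det_matOf]
    exact ((EuclideanSpace.basisFun (Fin d) ℝ).toBasis.isUnit_det b').ne_zero
  have hvol := Pool.Agent.Results.MP_2a19ed_co.AdCut.volume_pos C
  have hcoe : ((equivZ d C).1 : Set (E d)) = (C.1 : Set (E d)) := rfl
  obtain ⟨-, -, hM⟩ := hgood (fun b => (Submodule.span ℤ (Set.range ⇑b) : Set (E d)))
    (fun _ => rfl)
    (fun b => minimum C (matOf b)) (fun b' => by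
      unfold minimum
      rw [lattice_matOf, hcoe])
    (fun b => minimum C (matOf b) ^ d / |(matOf b).det|) (fun b' => by rw [det_matOf])
    b (fun b' => by
      have h3 := hB.2 (matOf b') (hdens b')
      unfold density at h3
      rw [hbB]
      have hc : 0 < (MeasureTheory.volume (C.1 : Set (E d))).toReal / 2 ^ d :=
        div_pos hvol (by positivity)
      have h4 : ∀ D : Matrix (Fin d) (Fin d) ℝ, D.det ≠ 0 → minimum C D ^ d *
          (MeasureTheory.volume (C.1 : Set (E d))).toReal / (2 ^ d * |D.det|) =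
          (MeasureTheory.volume (C.1 : Set (E d))).toReal / 2 ^ d *
            (minimum C D ^ d / |D.det|) := by
        intro D hD
        have : |D.det| ≠ 0 := abs_ne_zero.2 hD
        field_simp
      rw [h4 _ (hdens b'), h4 _ hB.1] at h3
      exact le_of_mul_le_mul_left h3 hc)
    _ rfl
  have h5 := hall B hB
  set M : Set (E d) := {l | l ∈ (Submodule.span ℤ (Set.range ⇑b) : Set (E d)) ∧ l ≠ 0 ∧
    gauge ((equivZ d C).1 : Set (E d)) l = minimum C (matOf b)} with hMdef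
  have hsub : M ⊆ minimumVectors C B := by
    rintro l ⟨hl1, -, hl2⟩
    refine ⟨?_, ?_⟩
    · rw [← hbB, lattice_matOf]; exact hl1
    · rw [hbB] at hl2; exact hl2
  have hpos : M.ncard ≠ 0 := by
    rw [hM]; positivity
  have hfin : M.Finite := Set.finite_of_ncard_ne_zero hpos
  have h6 : M.encard = ((2 * d ^ 2 : ℕ) : ℕ∞) := by
    rw [← hfin.cast_ncard_eq, hM]
  have h7 : ((2 * d ^ 2 : ℕ) : ℕ∞) ≤ (d * (d + 1) : ℕ) := by
    rw [← h6]
    exact (Set.encard_le_encard hsub).trans h5.1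
  have h8 : 2 * d ^ 2 ≤ d * (d + 1) := by exact_mod_cast h7
  nlinarith

end Pool.Agent.S07802
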