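import Pool.Statements.S07851
import Pool.Agent.W39.LE.Fin2

set_option autoImplicit false
open Classical
open Pool Pool.MP_2c6e0f_co

namespace Pool.Agent.S07851

/-- For every n and every tree T on n vertices, the Laplacian energy of the path on n vertices (sum of absolute deviations of Laplacian eigenvalues from the average degree) is at most that of T. -/
theorem result :
    ∀ n : ℕ, ∀ T : SimpleGraph (Fin n), T.IsTree →
      (Multiset.map
          (fun μ : ℝ => |μ - 2 * (Nat.card (SimpleGraph.pathGraph n).edgeSet : ℝ) / (n : ℝ)|)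
          ((SimpleGraph.pathGraph n).lapMatrix ℝ).charpoly.roots).sum
        ≤
      (Multiset.map
          (fun μ : ℝ => |μ - 2 * (Nat.card T.edgeSet : ℝ) / (n : ℝ)|)
          (T.lapMatrix ℝ).charpoly.roots).sum := by
  intro n T hT
  obtain ⟨r⟩ := hT.connected.nonempty
  have hn : 1 ≤ n := by have := r.isLt; omega
  have hn0 : (n : ℝ) ≠ 0 := by
    have : (0 : ℝ) < n := by exact_mod_cast hn
    exact this.ne'
  obtain ⟨hp, he⟩ := Pool.Agent.W800.LE.edge n hn
  have e : 2 * ((n : ℝ) - 1) / (n : ℝ) = 2 - 2 / (n : ℝ) := by field_simp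
  rw [he T hT, he _ hp, e]
  exact Pool.W39.LE.main n T hT

end Pool.Agent.S07851
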