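import Pool.Statements.S07857
import Pool.Agent.W95.TC.Touch

set_option autoImplicit false
open Pool Pool.MP_2cf721_co

namespace Pool.Agent.S07857

open Pool.Agent.W95.TC Set

/-- the closed curve as a periodic function -/
noncomputable def per (γ : Circle → ℂ) (x : ℝ) : ℂ := γ (Circle.exp (2 * Real.pi * x))

theorem per_cont {γ : Circle → ℂ} (h : Continuous γ) : Continuous (per γ) := by
  unfold per
  exact h.comp (Circle.exp.continuous.comp (continuous_const.mul continuous_id))

theorem per_per (γ : Circle → ℂ) (x : ℝ) : per γ (x + 1) = per γ x := by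
  unfold per
  rw [mul_add, mul_one, Circle.exp_add_two_pi]

theorem per_inj {γ : Circle → ℂ} (h : Function.Injective γ) (x y : ℝ) (e : per γ x = per γ y) :
    ∃ n : ℤ, x = y + n := by
  obtain ⟨n, hn⟩ := Circle.exp_eq_exp.1 (h e)
  refine ⟨n, ?_⟩
  have hpi : (2 * Real.pi : ℝ) ≠ 0 := by positivity
  apply mul_left_cancel₀ hpi
  rw [hn]
  ring

theorem per_range (γ : Circle → ℂ) : range (per γ) ⊆ range γ := by
  rintro _ ⟨x, rfl⟩
  exact ⟨_, rfl⟩

theorem circle_param (z : Circle) : ∃ x : ℝ, Circle.exp (2 * Real.pi * x) = z := by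
  refine ⟨Complex.arg z / (2 * Real.pi), ?_⟩
  have hpi : (2 * Real.pi : ℝ) ≠ 0 := by positivity
  rw [mul_div_cancel₀ _ hpi]
  exact Circle.exp_arg z

/-- For every `i` there is an arc of the curve `i` which contains all contact points. -/
theorem exists_cut {ι : Type} [Fintype ι] (γ : ι → Circle → ℂ) (hinj : ∀ i, Function.Injective (γ i))
    (hone : ∀ i j, i ≠ j → (range (γ i) ∩ range (γ j)).Subsingleton) (i : ι) :
    ∃ θ s : ℝ, 0 < s ∧ s < 1 / 4 ∧ ∀ x : ℝ, |x - θ| < s → ∀ j, j ≠ i →
      per (γ i) x ∉ range (γ j) := by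
  classical
  set B : Set Circle := {z | ∃ j, j ≠ i ∧ γ i z ∈ range (γ j)} with hB
  have hfin : B.Finite := by
    have : B ⊆ ⋃ j : ι, {z | j ≠ i ∧ γ i z ∈ range (γ j)} := by
      rintro z ⟨j, hj, hz⟩
      exact mem_iUnion.2 ⟨j, hj, hz⟩
    refine (finite_iUnion fun j => ?_).subset this
    apply Set.Subsingleton.finite
    rintro z ⟨hj, hz⟩ w ⟨_, hw⟩
    exact hinj i (hone i j hj.symm ⟨⟨z, rfl⟩, hz⟩ ⟨⟨w, rfl⟩, hw⟩)
  have hopen : IsOpen {x : ℝ | Circle.exp (2 * Real.pi * x) ∉ B} :=
    hfin.isClosed.isOpen_compl.preimage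
      (Circle.exp.continuous.comp (continuous_const.mul continuous_id))
  have hne : {x : ℝ | Circle.exp (2 * Real.pi * x) ∉ B}.Nonempty := by
    by_contra hcon
    rw [not_nonempty_iff_eq_empty] at hcon
    have hall : ∀ z : Circle, z ∈ B := by
      intro z
      obtain ⟨x, rfl⟩ := circle_param z
      by_contra hz
      have : x ∈ {x : ℝ | Circle.exp (2 * Real.pi * x) ∉ B} := hz
      rw [hcon] at this
      exact this
    have huniv : (univ : Set Circle) ⊆ B := fun z _ => hall z
    have hfinC : Finite Circle := Set.finite_univ_iff.1 (hfin.subset huniv)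
    -- the circle is infinite
    have hinjN : Function.Injective (fun n : ℕ => Circle.exp (n : ℝ)) := by
      intro m n hmn
      obtain ⟨k, hk⟩ := Circle.exp_eq_exp.1 hmn
      by_contra hne
      have hk0 : k ≠ 0 := by
        rintro rfl
        apply hne
        have : (m : ℝ) = n := by simpa using hk
        exact_mod_cast this
      have : Irrational Real.pi := irrational_pi
      apply this
      refine ⟨((m : ℚ) - n) / (2 * k), ?_⟩
      have hk0' : (k : ℝ) ≠ 0 := by exact_mod_cast hk0
      push_cast
      rw [div_eq_iff (by positivity)]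
      linarith
    exact (Finite.of_injective _ hinjN).false
  obtain ⟨θ, hθ⟩ := hne
  obtain ⟨ε, hε, hball⟩ := Metric.isOpen_iff.1 hopen θ hθ
  refine ⟨θ, min ε (1 / 8), lt_min hε (by norm_num), ?_, ?_⟩
  · exact lt_of_le_of_lt (min_le_right _ _) (by norm_num)
  · intro x hx j hj hmem
    have hxb : x ∈ Metric.ball θ ε := by
      rw [Metric.mem_ball, Real.dist_eq]
      exact lt_of_lt_of_le hx (min_le_left _ _)
    exact hball hxb ⟨j, hj, hmem⟩

/-- There is a constant c such that for every k, every finite family of Jordan curves in the plane with any two meeting in at most one point and no point on more than k curves can be colored with k+c colors, intersecting curves getting different colors. -/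
theorem result :
    ∃ c : ℕ, ∀ (k : ℕ) (ι : Type) [Fintype ι] (γ : ι → Circle → ℂ),
      (∀ i, Continuous (γ i)) →
      (∀ i, Function.Injective (γ i)) →
      (∀ i j, i ≠ j → (Set.range (γ i) ∩ Set.range (γ j)).Subsingleton) →
      (∀ p : ℂ, Set.ncard {i : ι | p ∈ Set.range (γ i)} ≤ k) →
      ∃ f : ι → Fin (k + c), ∀ i j, i ≠ j →
        (Set.range (γ i) ∩ Set.range (γ j)).Nonempty → f i ≠ f j := by
  classical
  refine ⟨C0, fun k ι _ γ hcont hinj hone hk => ?_⟩
  choose θ s hs0 hs1 hcut using fun i => exists_cut γ hinj hone i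
  -- the arcs
  set g : ι → ℝ → ℂ := fun i t => per (γ i) ((θ i + s i) + cl t * (1 - 2 * s i)) with hg
  have hgr : ∀ i, range (g i) ⊆ range (γ i) := by
    rintro i _ ⟨t, rfl⟩
    exact per_range _ ⟨_, rfl⟩
  have hfam : SFam g := by
    refine ⟨?_, ?_, ?_, ?_, ?_⟩
    · intro i
      exact (per_cont (hcont i)).comp
        (continuous_const.add (continuous_cl.mul continuous_const))
    · intro i t
      simp only [hg, cl_cl]
    · intro i x hx y hy hxy
      simp only [hg, cl_of_mem hx, cl_of_mem hy] at hxy
      obtain ⟨n, hn⟩ := per_inj (hinj i) _ _ hxy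
      have h1 := hs0 i
      have h2 := hs1 i
      have e1 : (x - y) * (1 - 2 * s i) = n := by linarith
      have h3 : |(n : ℝ)| < 1 := by
        rw [← e1, abs_mul]
        have a1 : |x - y| ≤ 1 := by
          rw [abs_le]
          constructor <;> linarith [hx.1, hx.2, hy.1, hy.2]
        have a2 : |1 - 2 * s i| < 1 := by
          rw [abs_lt]
          constructor <;> linarith
        calc |x - y| * |1 - 2 * s i| ≤ 1 * |1 - 2 * s i| :=
              mul_le_mul_of_nonneg_right a1 (abs_nonneg _)
          _ < 1 := by rw [one_mul]; exact a2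
      have h4 : n = 0 := by
        have : |n| < 1 := by exact_mod_cast h3
        exact Int.abs_lt_one_iff.1 this
      rw [h4, Int.cast_zero] at e1
      rcases mul_eq_zero.1 e1 with h | h
      · linarith
      · linarith
    · intro i j hij
      exact (hone i j hij).anti (inter_subset_inter (hgr i) (hgr j))
    · intro i j hij
      exact sep_touch (per (γ i)) (per (γ j)) (per_cont (hcont i)) (per_cont (hcont j))
        (per_per _) (per_per _) (per_inj (hinj i)) (per_inj (hinj j))
        ((hone i j hij).anti (inter_subset_inter (per_range _) (per_range _)))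
        _ _ _ _ (by linarith [hs1 i]) (by linarith [hs0 i]) (by linarith [hs1 j])
        (by linarith [hs0 j])
  -- contact points lie on the arcs
  have hcontact : ∀ i j, j ≠ i → ∀ z, z ∈ range (γ i) → z ∈ range (γ j) → z ∈ range (g i) := by
    intro i j hji z hz hzj
    obtain ⟨w, rfl⟩ := hz
    obtain ⟨x, rfl⟩ := circle_param w
    -- shift `x` into `[θ, θ + 1)`
    set y : ℝ := θ i + Int.fract (x - θ i) with hy
    have hxy : per (γ i) y = per (γ i) x := by
      unfold per
      congr 1
      rw [Circle.exp_eq_exp]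
      refine ⟨-⌊x - θ i⌋, ?_⟩
      rw [hy, Int.fract]
      push_cast
      ring
    have h0 := Int.fract_nonneg (x - θ i)
    have h1 := Int.fract_lt_one (x - θ i)
    have hzi : per (γ i) x ∈ range (γ j) := hzj
    have hlow : s i ≤ y - θ i := by
      by_contra hlt
      rw [not_le] at hlt
      refine hcut i y ?_ j hji (by rw [hxy]; exact hzi)
      rw [abs_lt]
      constructor <;> linarith [hs0 i]
    have hhigh : y - θ i ≤ 1 - s i := by
      by_contra hlt
      rw [not_le] at hlt
      refine hcut i (y - 1) ?_ j hji ?_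
      · rw [abs_lt]
        constructor <;> linarith [hs0 i]
      · have := per_per (γ i) (y - 1)
        rw [sub_add_cancel] at this
        rw [← this, hxy]
        exact hzi
    have hpos : 0 < 1 - 2 * s i := by linarith [hs1 i]
    refine ⟨(y - θ i - s i) / (1 - 2 * s i), ?_⟩
    have hmem : (y - θ i - s i) / (1 - 2 * s i) ∈ Icc (0 : ℝ) 1 := by
      constructor
      · exact div_nonneg (by linarith) hpos.le
      · rw [div_le_one hpos]
        linarith
    simp only [hg, cl_of_mem hmem]
    rw [div_mul_cancel₀ _ hpos.ne']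
    have : θ i + s i + (y - θ i - s i) = y := by ring
    rw [this, hxy]
    rfl
  have hT : ∀ z, (T g z).card ≤ k := by
    intro z
    refine le_trans ?_ (hk z)
    rw [← Set.ncard_coe_finset]
    apply Set.ncard_le_ncard
    · intro i hi
      have h1 : i ∈ T g z := Finset.mem_coe.1 hi
      exact hgr i (mem_T.1 h1)
    · exact Set.toFinite _
  have hpos : 0 < k + C0 := by
    have : 0 < C0 := by unfold C0; positivity
    omega
  obtain ⟨f, hf⟩ := colour_finset hfam k hT hpos _ Finset.univ rfl
  refine ⟨f, fun i j hij hne => hf i (Finset.mem_univ _) j (Finset.mem_univ _) hij ?_⟩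
  obtain ⟨z, hzi, hzj⟩ := hne
  exact ⟨z, hcontact i j hij.symm z hzi hzj, hcontact j i hij z hzj hzi⟩

end Pool.Agent.S07857
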