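import Pool.Statements.S07874
import Pool.Agent.Results.MP_2d87f2_co.Blowup

set_option autoImplicit false
open Pool Pool.MP_2d87f2_co

namespace Pool.Agent.S07874

/-- The negation of the preceding statement: For every infinite connected locally finite vertex-transitive graph G, every k ≥ 1 and every maximal k-separated vertex set S, the Cheeger constant of the graph on S joining points at distance ≤ 2k is at least the Cheeger constant of G. -/
theorem result :
    ¬ (∀ (V : Type) (G : SimpleGraph V), Infinite V → G.Connected →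
      (∀ v : V, (G.neighborSet v).Finite) →
      (∀ u v : V, ∃ φ : G ≃g G, φ u = v) →
      ∀ k : ℕ, 1 ≤ k →
      ∀ S : Set V,
        (∀ u ∈ S, ∀ v ∈ S, u ≠ v → k ≤ G.dist u v) →
        (∀ w : V, w ∉ S → ∃ u ∈ S, G.dist w u < k) →
        sInf {r : ℝ | ∃ A : Finset V, A.Nonempty ∧
            r = (Set.ncard {p : V × V | p.1 ∈ A ∧ p.2 ∉ A ∧ G.Adj p.1 p.2} : ℝ)
              / (A.card : ℝ)}
          ≤
        sInf {r : ℝ | ∃ A : Finset V, A.Nonempty ∧ (↑A : Set V) ⊆ S ∧
            r = (Set.ncard {p : V × V | p.1 ∈ A ∧ p.2 ∈ S ∧ p.2 ∉ A ∧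
                  G.dist p.1 p.2 ≤ 2 * k} : ℝ)
              / (A.card : ℝ)}) := by
  classical
  intro h
  obtain ⟨V, G, hinf, hconn, hlf, htr, ⟨S, hS⟩, hlt⟩ :=
    Pool.Agent.Results.MP_2d87f2_co.Blowup.result 2 le_rfl 1 one_pos
  have hlt := hlt S hS
  have hmax := hS
  have hsep := hmax.1
  have h3 := h V G hinf hconn hlf htr 2 (by norm_num) S hsep (by
    intro w hw
    by_contra hcon
    push Not at hcon
    have hsep2 : Pool.Agent.Results.MP_2d87f2_co.Blowup.Separated G 2 (insert w S) := by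
      intro u hu v hv huv
      rcases hu with rfl | hu
      · rcases hv with rfl | hv
        · exact absurd rfl huv
        · exact hcon v hv
      · rcases hv with rfl | hv
        · rw [SimpleGraph.dist_comm]
          exact hcon u hu
        · exact hsep u hu v hv huv
    exact hw (hmax.2 hsep2 (Set.subset_insert w S) (Set.mem_insert w S)))
  have key : ∀ (V : Type) (G : SimpleGraph V) (A : Finset V),
      (Pool.Agent.Results.MP_2d87f2_co.Blowup.edgeBoundary G A).ncard =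
        Set.ncard {p : V × V | p.1 ∈ A ∧ p.2 ∉ A ∧ G.Adj p.1 p.2} := by
    intro V G A
    have himg : Pool.Agent.Results.MP_2d87f2_co.Blowup.edgeBoundary G A =
        (fun p : V × V => s(p.1, p.2)) ''
          {p : V × V | p.1 ∈ A ∧ p.2 ∉ A ∧ G.Adj p.1 p.2} := by
      ext e
      constructor
      · rintro ⟨he, u, hu, v, hv, rfl⟩
        exact ⟨(u, v), ⟨hu, hv, by simpa using he⟩, rfl⟩
      · rintro ⟨⟨u, v⟩, ⟨hu, hv, hadj⟩, rfl⟩
        exact ⟨by simpa using hadj, u, hu, v, hv, rfl⟩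
    rw [himg]
    refine Set.ncard_image_of_injOn ?_
    rintro ⟨u, v⟩ ⟨hu, hv, _⟩ ⟨u', v'⟩ ⟨hu', hv', _⟩ he
    rcases Sym2.eq_iff.1 he with ⟨h1, h2⟩ | ⟨h1, h2⟩
    · simp only at h1 h2
      rw [h1, h2]
    · simp only at h1 h2 hu hv hu' hv'
      exact absurd (h1 ▸ hu) hv'
  have hG : Pool.Agent.Results.MP_2d87f2_co.Blowup.cheeger G =
      sInf {r : ℝ | ∃ A : Finset V, A.Nonempty ∧
              r = (Set.ncard {p : V × V | p.1 ∈ A ∧ p.2 ∉ A ∧ G.Adj p.1 p.2} : ℝ)
                / (A.card : ℝ)} := by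
    unfold Pool.Agent.Results.MP_2d87f2_co.Blowup.cheeger
    simp only [key]
  have hN : Pool.Agent.Results.MP_2d87f2_co.Blowup.cheeger
        (Pool.Agent.Results.MP_2d87f2_co.Blowup.netGraph G 2 S) =
      sInf {r : ℝ | ∃ A : Finset V, A.Nonempty ∧ (↑A : Set V) ⊆ S ∧
              r = (Set.ncard {p : V × V | p.1 ∈ A ∧ p.2 ∈ S ∧ p.2 ∉ A ∧
                    G.dist p.1 p.2 ≤ 2 * 2} : ℝ)
                / (A.card : ℝ)} := by
    unfold Pool.Agent.Results.MP_2d87f2_co.Blowup.cheeger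
    simp only [key]
    congr 1
    have hc : ∀ A : Finset S,
        Set.ncard {p : S × S | p.1 ∈ A ∧ p.2 ∉ A ∧
          (Pool.Agent.Results.MP_2d87f2_co.Blowup.netGraph G 2 S).Adj p.1 p.2} =
        Set.ncard {p : V × V | p.1 ∈ A.map (Function.Embedding.subtype _) ∧ p.2 ∈ S ∧
          p.2 ∉ A.map (Function.Embedding.subtype _) ∧ G.dist p.1 p.2 ≤ 2 * 2} := by
      intro A
      have himg : {p : V × V | p.1 ∈ A.map (Function.Embedding.subtype _) ∧ p.2 ∈ S ∧
          p.2 ∉ A.map (Function.Embedding.subtype _) ∧ G.dist p.1 p.2 ≤ 2 * 2} =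
          (fun p : S × S => ((p.1 : V), (p.2 : V))) ''
          {p : S × S | p.1 ∈ A ∧ p.2 ∉ A ∧
          (Pool.Agent.Results.MP_2d87f2_co.Blowup.netGraph G 2 S).Adj p.1 p.2} := by
        ext ⟨u, v⟩
        simp only [Set.mem_setOf_eq, Set.mem_image, Finset.mem_map,
          Function.Embedding.coe_subtype, Prod.mk.injEq, Prod.exists]
        constructor
        · rintro ⟨⟨a, ha, rfl⟩, hvS, hvA, hd⟩
          refine ⟨a, ⟨v, hvS⟩, ⟨ha, fun hc => hvA ⟨⟨v, hvS⟩, hc, rfl⟩, ?_, hd⟩, rfl, rfl⟩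
          rintro rfl
          exact hvA ⟨_, ha, rfl⟩
        · rintro ⟨a, b, ⟨ha, hb, _, hd⟩, rfl, rfl⟩
          refine ⟨⟨a, ha, rfl⟩, b.2, ?_, hd⟩
          rintro ⟨c, hc, hcb⟩
          exact hb (Subtype.ext hcb ▸ hc)
      rw [himg]
      refine (Set.ncard_image_of_injective _ ?_).symm
      rintro ⟨a, b⟩ ⟨c, d⟩ he
      simp only [Prod.mk.injEq] at he
      exact Prod.ext (Subtype.ext he.1) (Subtype.ext he.2)
    ext r
    constructor
    · rintro ⟨A, hA, hr⟩
      refine ⟨A.map (Function.Embedding.subtype _), ?_, ?_, ?_⟩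
      · obtain ⟨a, ha⟩ := hA
        exact ⟨a, Finset.mem_map.2 ⟨a, ha, rfl⟩⟩
      · intro x hx
        obtain ⟨a, _, rfl⟩ := Finset.mem_map.1 (Finset.mem_coe.1 hx)
        exact a.2
      · rw [hr, hc A, Finset.card_map]
    · rintro ⟨A, hA, hAS, hr⟩
      obtain ⟨B, rfl⟩ : ∃ B : Finset S, B.map (Function.Embedding.subtype _) = A := by
        refine ⟨A.subtype (· ∈ S), ?_⟩
        rw [Finset.subtype_map]
        exact Finset.filter_true_of_mem fun x hx => hAS hx
      refine ⟨B, ?_, ?_⟩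
      · obtain ⟨a, ha⟩ := hA
        obtain ⟨b, hb, _⟩ := Finset.mem_map.1 ha
        exact ⟨b, hb⟩
      · rw [hr, hc B, Finset.card_map]
  rw [one_mul, hN, hG] at hlt
  exact absurd h3 (not_le.2 hlt)

end Pool.Agent.S07874
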