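import Pool.Statements.S07891
import Pool.Agent.W310.Dressian

set_option autoImplicit false
open Pool Pool.MP_2e1090_co

namespace Pool.Agent.S07891

open Pool.Agent.W310.Dressian

/-- the minimum of three numbers is attained at least twice -/
def tri (p1 p2 p3 : ℤ) : Prop :=
  (p1 = p2 ∧ p1 ≤ p3) ∨ (p1 = p3 ∧ p1 ≤ p2) ∨ (p2 = p3 ∧ p2 ≤ p1)

instance (p1 p2 p3 : ℤ) : Decidable (tri p1 p2 p3) := by unfold tri; infer_instance

lemma pl0 : ∀ s i j k l : Fin 9, [s, i, j, k, l].Nodup →
    tri (wz (2 ^ i.val + 2 ^ j.val + 2 ^ s.val) + wz (2 ^ k.val + 2 ^ l.val + 2 ^ s.val))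
      (wz (2 ^ i.val + 2 ^ k.val + 2 ^ s.val) + wz (2 ^ j.val + 2 ^ l.val + 2 ^ s.val))
      (wz (2 ^ i.val + 2 ^ l.val + 2 ^ s.val) + wz (2 ^ j.val + 2 ^ k.val + 2 ^ s.val)) := by
  decide +kernel

lemma w_triple (a b c : Fin 9) (h1 : a ≠ b) (h2 : a ≠ c) (h3 : b ≠ c) :
    w (insert a (insert b {c})) = ((wz (2 ^ a.val + 2 ^ b.val + 2 ^ c.val) : ℤ) : ℝ) := by
  unfold w
  rw [msk_triple a b c h1 h2 h3]

lemma w_plucker (S : Finset (Fin 9)) (i j k l : Fin 9) (hS : S.card + 2 = 3)
    (hi : i ∉ S) (hj : j ∉ S) (hk : k ∉ S) (hl : l ∉ S)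
    (hij : i ≠ j) (hik : i ≠ k) (hil : i ≠ l) (hjk : j ≠ k) (hjl : j ≠ l) (hkl : k ≠ l) :
    ((w (insert i (insert j S)) + w (insert k (insert l S))
            = w (insert i (insert k S)) + w (insert j (insert l S)) ∧
          w (insert i (insert j S)) + w (insert k (insert l S))
            ≤ w (insert i (insert l S)) + w (insert j (insert k S))) ∨
         (w (insert i (insert j S)) + w (insert k (insert l S))
            = w (insert i (insert l S)) + w (insert j (insert k S)) ∧
          w (insert i (insert j S)) + w (insert k (insert l S))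
            ≤ w (insert i (insert k S)) + w (insert j (insert l S))) ∨
         (w (insert i (insert k S)) + w (insert j (insert l S))
            = w (insert i (insert l S)) + w (insert j (insert k S)) ∧
          w (insert i (insert k S)) + w (insert j (insert l S))
            ≤ w (insert i (insert j S)) + w (insert k (insert l S)))) := by
  obtain ⟨s, rfl⟩ := Finset.card_eq_one.1 (show S.card = 1 by omega)
  rw [Finset.mem_singleton] at hi hj hk hl
  rw [w_triple i j s hij hi hj, w_triple k l s hkl hk hl, w_triple i k s hik hi hk,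
    w_triple j l s hjl hj hl, w_triple i l s hil hi hl, w_triple j k s hjk hj hk]
  have h := pl0 s i j k l (by
    simp only [List.nodup_cons, List.mem_cons, List.not_mem_nil, or_false, not_or, List.nodup_nil,
      and_true, not_false_eq_true]
    exact ⟨⟨Ne.symm hi, Ne.symm hj, Ne.symm hk, Ne.symm hl⟩, ⟨hij, hik, hil⟩, ⟨hjk, hjl⟩, hkl⟩)
  unfold tri at h
  rcases h with ⟨h1, h2⟩ | ⟨h1, h2⟩ | ⟨h1, h2⟩
  · left; exact ⟨by exact_mod_cast h1, by exact_mod_cast h2⟩
  · right; left; exact ⟨by exact_mod_cast h1, by exact_mod_cast h2⟩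
  · right; right; exact ⟨by exact_mod_cast h1, by exact_mod_cast h2⟩

/-- `w` is not linear -/
lemma w_nontrivial : ¬ ∃ c : Fin 9 → ℝ, ∀ B : Finset (Fin 9), B.card = 3 →
    ∀ B' : Finset (Fin 9), B'.card = 3 → w B - ∑ i ∈ B, c i ≤ w B' - ∑ i ∈ B', c i := by
  rintro ⟨c, hc⟩
  -- minors
  have e1 : w {5, 1, 2} = 0 := by rw [w_triple _ _ _ (by decide) (by decide) (by decide)]; norm_num; decide +kernel
  have e2 : w {6, 0, 2} = 0 := by rw [w_triple _ _ _ (by decide) (by decide) (by decide)]; norm_num; decide +kernel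
  have e3 : w {6, 1, 2} = 1 := by
    rw [w_triple _ _ _ (by decide) (by decide) (by decide)]
    have : wz (2 ^ (6 : Fin 9).val + 2 ^ (1 : Fin 9).val + 2 ^ (2 : Fin 9).val) = 1 := by decide +kernel
    rw [this]; norm_num
  have e4 : w {5, 0, 2} = 2 := by
    rw [w_triple _ _ _ (by decide) (by decide) (by decide)]
    have : wz (2 ^ (5 : Fin 9).val + 2 ^ (0 : Fin 9).val + 2 ^ (2 : Fin 9).val) = 2 := by decide +kernel
    rw [this]; norm_num
  have h1 := hc {6, 1, 2} (by decide) {5, 1, 2} (by decide)
  have h2 := hc {5, 0, 2} (by decide) {6, 0, 2} (by decide)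
  rw [sum_triple _ _ _ _ (by decide) (by decide) (by decide), sum_triple _ _ _ _ (by decide) (by decide) (by decide)] at h1 h2
  linarith

lemma wval (a b c : Fin 9) (h1 : a ≠ b) (h2 : a ≠ c) (h3 : b ≠ c) (z : ℤ)
    (h : wz (2 ^ a.val + 2 ^ b.val + 2 ^ c.val) = z) : w {a, b, c} = (z : ℝ) := by
  rw [w_triple a b c h1 h2 h3, h]

/-- rank of two sets that differ in one element -/
lemma rk_le (M : Matroid (Fin 9)) (a b : Fin 9) (X : Set (Fin 9)) :
    (M.eRk (insert a X)).toNat ≤ (M.eRk (insert b X)).toNat + 1 := by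
  have h1 : M.eRk (insert a X) ≤ M.eRk (insert b X) + 1 :=
    (M.eRk_insert_le_add_one a X).trans (by gcongr; exact M.eRk_mono (Set.subset_insert b X))
  have hfin : ∀ Y : Set (Fin 9), M.eRk Y ≠ ⊤ := by
    intro Y hY
    have h2 := M.eRk_le_encard Y
    rw [hY, top_le_iff] at h2
    exact (Set.encard_ne_top_iff.2 (Set.toFinite Y)) h2
  have h2 : (M.eRk (insert b X) + 1).toNat = (M.eRk (insert b X)).toNat + 1 := by
    rw [ENat.toNat_add (hfin _) (by simp)]
    simp
  rw [← h2]
  refine ENat.toNat_le_toNat h1 ?_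
  rw [Ne, ENat.add_eq_top]
  push Not
  exact ⟨hfin _, ENat.one_ne_top⟩

theorem result :
    ∃ d n : ℕ, ∃ w : Finset (Fin n) → ℝ,
      (∀ (S : Finset (Fin n)) (i j k l : Fin n), S.card + 2 = d →
        i ∉ S → j ∉ S → k ∉ S → l ∉ S →
        i ≠ j → i ≠ k → i ≠ l → j ≠ k → j ≠ l → k ≠ l →
        ((w (insert i (insert j S)) + w (insert k (insert l S))
            = w (insert i (insert k S)) + w (insert j (insert l S)) ∧
          w (insert i (insert j S)) + w (insert k (insert l S))
            ≤ w (insert i (insert l S)) + w (insert j (insert k S))) ∨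
         (w (insert i (insert j S)) + w (insert k (insert l S))
            = w (insert i (insert l S)) + w (insert j (insert k S)) ∧
          w (insert i (insert j S)) + w (insert k (insert l S))
            ≤ w (insert i (insert k S)) + w (insert j (insert l S))) ∨
         (w (insert i (insert k S)) + w (insert j (insert l S))
            = w (insert i (insert l S)) + w (insert j (insert k S)) ∧
          w (insert i (insert k S)) + w (insert j (insert l S))
            ≤ w (insert i (insert j S)) + w (insert k (insert l S))))) ∧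
      (¬ ∃ c : Fin n → ℝ, ∀ B : Finset (Fin n), B.card = d →
          ∀ B' : Finset (Fin n), B'.card = d →
            w B - ∑ i ∈ B, c i ≤ w B' - ∑ i ∈ B', c i) ∧
      (∀ v : Finset (Fin n) → ℝ,
        (∀ (S : Finset (Fin n)) (i j k l : Fin n), S.card + 2 = d →
          i ∉ S → j ∉ S → k ∉ S → l ∉ S →
          i ≠ j → i ≠ k → i ≠ l → j ≠ k → j ≠ l → k ≠ l →
          ((v (insert i (insert j S)) + v (insert k (insert l S))
              = v (insert i (insert k S)) + v (insert j (insert l S)) ∧
            v (insert i (insert j S)) + v (insert k (insert l S))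
              ≤ v (insert i (insert l S)) + v (insert j (insert k S))) ∨
           (v (insert i (insert j S)) + v (insert k (insert l S))
              = v (insert i (insert l S)) + v (insert j (insert k S)) ∧
            v (insert i (insert j S)) + v (insert k (insert l S))
              ≤ v (insert i (insert k S)) + v (insert j (insert l S))) ∨
           (v (insert i (insert k S)) + v (insert j (insert l S))
              = v (insert i (insert l S)) + v (insert j (insert k S)) ∧
            v (insert i (insert k S)) + v (insert j (insert l S))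
              ≤ v (insert i (insert j S)) + v (insert k (insert l S))))) →
        (∀ c : Fin n → ℝ, ∃ c' : Fin n → ℝ,
          {B : Finset (Fin n) | B.card = d ∧ ∀ B' : Finset (Fin n), B'.card = d →
              w B - ∑ i ∈ B, c i ≤ w B' - ∑ i ∈ B', c i} ⊆
          {B : Finset (Fin n) | B.card = d ∧ ∀ B' : Finset (Fin n), B'.card = d →
              v B - ∑ i ∈ B, c' i ≤ v B' - ∑ i ∈ B', c' i}) →
        (∃ c : Fin n → ℝ, ∀ B : Finset (Fin n), B.card = d →
          ∀ B' : Finset (Fin n), B'.card = d →
            v B - ∑ i ∈ B, c i ≤ v B' - ∑ i ∈ B', c i) ∨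
        ((∀ c : Fin n → ℝ, ∃ c' : Fin n → ℝ,
          {B : Finset (Fin n) | B.card = d ∧ ∀ B' : Finset (Fin n), B'.card = d →
              w B - ∑ i ∈ B, c i ≤ w B' - ∑ i ∈ B', c i} =
          {B : Finset (Fin n) | B.card = d ∧ ∀ B' : Finset (Fin n), B'.card = d →
              v B - ∑ i ∈ B, c' i ≤ v B' - ∑ i ∈ B', c' i}) ∧
         (∀ c : Fin n → ℝ, ∃ c' : Fin n → ℝ,
          {B : Finset (Fin n) | B.card = d ∧ ∀ B' : Finset (Fin n), B'.card = d →
              v B - ∑ i ∈ B, c i ≤ v B' - ∑ i ∈ B', c i} =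
          {B : Finset (Fin n) | B.card = d ∧ ∀ B' : Finset (Fin n), B'.card = d →
              w B - ∑ i ∈ B, c' i ≤ w B' - ∑ i ∈ B', c' i}))) ∧
      (¬ ∃ M : Matroid (Fin n), M.E = Set.univ ∧ M.eRank = (d : ℕ∞) ∧
        (∀ c : Fin n → ℝ, ∃ c' : Fin n → ℝ,
          {B : Finset (Fin n) | B.card = d ∧ ∀ B' : Finset (Fin n), B'.card = d →
              w B - ∑ i ∈ B, c i ≤ w B' - ∑ i ∈ B', c i} =
          {B : Finset (Fin n) | B.card = d ∧ ∀ B' : Finset (Fin n), B'.card = d →
              ((d : ℝ) - ((M.eRk (B : Set (Fin n))).toNat : ℝ)) - ∑ i ∈ B, c' i ≤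
              ((d : ℝ) - ((M.eRk (B' : Set (Fin n))).toNat : ℝ)) - ∑ i ∈ B', c' i}) ∧
        (∀ c : Fin n → ℝ, ∃ c' : Fin n → ℝ,
          {B : Finset (Fin n) | B.card = d ∧ ∀ B' : Finset (Fin n), B'.card = d →
              ((d : ℝ) - ((M.eRk (B : Set (Fin n))).toNat : ℝ)) - ∑ i ∈ B, c i ≤
              ((d : ℝ) - ((M.eRk (B' : Set (Fin n))).toNat : ℝ)) - ∑ i ∈ B', c i} =
          {B : Finset (Fin n) | B.card = d ∧ ∀ B' : Finset (Fin n), B'.card = d →
              w B - ∑ i ∈ B, c' i ≤ w B' - ∑ i ∈ B', c' i})) := by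
  refine ⟨3, 9, w, w_plucker, w_nontrivial, ?_, ?_⟩
  · intro v hv H
    have hrig := rigid v H
    set L := lam v with hL
    set h := hh v with hh'
    rcases lt_trichotomy L 0 with hneg | hzero | hpos
    · exfalso
      -- an octahedron in which the minimum of `w` is attained exactly twice
      have e : ∀ a b c : Fin 9, a ≠ b → a ≠ c → b ≠ c →
          v (insert a (insert b {c})) = L * w (insert a (insert b {c})) + (h a + (h b + h c)) := by
        intro a b c hab hac hbc
        rw [hrig _ (Finset.card_eq_three.2 ⟨a, b, c, hab, hac, hbc, rfl⟩), sum_triple _ _ _ _ hab hac hbc]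
      have h1 := hv {2} 1 0 5 6 (by decide) (by decide) (by decide) (by decide) (by decide)
        (by decide) (by decide) (by decide) (by decide) (by decide) (by decide)
      rw [e 1 0 2 (by decide) (by decide) (by decide), e 5 6 2 (by decide) (by decide) (by decide),
        e 1 5 2 (by decide) (by decide) (by decide), e 0 6 2 (by decide) (by decide) (by decide),
        e 1 6 2 (by decide) (by decide) (by decide), e 0 5 2 (by decide) (by decide) (by decide)] at h1
      rw [wval 1 0 2 (by decide) (by decide) (by decide) 0 (by decide +kernel),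
        wval 5 6 2 (by decide) (by decide) (by decide) 0 (by decide +kernel),
        wval 1 5 2 (by decide) (by decide) (by decide) 0 (by decide +kernel),
        wval 0 6 2 (by decide) (by decide) (by decide) 0 (by decide +kernel),
        wval 1 6 2 (by decide) (by decide) (by decide) 1 (by decide +kernel),
        wval 0 5 2 (by decide) (by decide) (by decide) 2 (by decide +kernel)] at h1
      push_cast at h1
      rcases h1 with ⟨h1, h2⟩ | ⟨h1, h2⟩ | ⟨h1, h2⟩ <;> linarith
    · left
      refine ⟨h, fun B hB B' hB' => ?_⟩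
      rw [hrig B hB, hrig B' hB', hzero]
      linarith
    · right
      constructor
      · intro c
        refine ⟨fun i => L * c i + h i, ?_⟩
        ext B
        simp only [Set.mem_ofPred_eq]
        refine and_congr_right fun hB => forall_congr' fun B' => imp_congr_right fun hB' => ?_
        rw [hrig B hB, hrig B' hB', Finset.sum_add_distrib, Finset.sum_add_distrib,
          ← Finset.mul_sum, ← Finset.mul_sum]
        constructor
        · intro h1
          have := mul_le_mul_of_nonneg_left h1 hpos.le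
          linarith
        · intro h1
          have h2 : L * (w B - ∑ i ∈ B, c i) ≤ L * (w B' - ∑ i ∈ B', c i) := by linarith
          exact le_of_mul_le_mul_left h2 hpos
      · intro c
        refine ⟨fun i => L⁻¹ * (c i - h i), ?_⟩
        ext B
        simp only [Set.mem_ofPred_eq]
        refine and_congr_right fun hB => forall_congr' fun B' => imp_congr_right fun hB' => ?_
        rw [hrig B hB, hrig B' hB', ← Finset.mul_sum, ← Finset.mul_sum, Finset.sum_sub_distrib,
          Finset.sum_sub_distrib]
        have hinv : L * L⁻¹ = 1 := mul_inv_cancel₀ hpos.ne'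
        have hexp : ∀ x y : ℝ, L * (x - L⁻¹ * y) = L * x - y := by
          intro x y
          rw [mul_sub, ← mul_assoc, hinv, one_mul]
        constructor
        · intro h1
          have h2 : L * (w B - L⁻¹ * (∑ i ∈ B, c i - ∑ i ∈ B, h i)) ≤
              L * (w B' - L⁻¹ * (∑ i ∈ B', c i - ∑ i ∈ B', h i)) := by
            rw [hexp, hexp]
            linarith
          exact le_of_mul_le_mul_left h2 hpos
        · intro h1
          have h2 := mul_le_mul_of_nonneg_left h1 hpos.le
          rw [hexp, hexp] at h2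
          linarith
  · rintro ⟨M, hE, hr, H1, H2⟩
    set v : Finset (Fin 9) → ℝ := fun B => (((3 : ℕ) : ℝ) - ((M.eRk (B : Set (Fin 9))).toNat : ℝ))
      with hvdef
    have hrig := rigid v (fun c => by
      obtain ⟨c', hc'⟩ := H1 c
      exact ⟨c', hc'.le⟩)
    have e : ∀ a b c : Fin 9, a ≠ b → a ≠ c → b ≠ c →
        v {a, b, c} = lam v * w {a, b, c} + (hh v a + (hh v b + hh v c)) := by
      intro a b c hab hac hbc
      rw [hrig _ (Finset.card_eq_three.2 ⟨a, b, c, hab, hac, hbc, rfl⟩), sum_triple _ _ _ _ hab hac hbc]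
    have hzero : lam v = 0 := by
      have q1 := e 3 1 2 (by decide) (by decide) (by decide)
      have q2 := e 4 0 2 (by decide) (by decide) (by decide)
      have q3 := e 4 1 2 (by decide) (by decide) (by decide)
      have q4 := e 3 0 2 (by decide) (by decide) (by decide)
      have q5 := e 5 1 2 (by decide) (by decide) (by decide)
      have q6 := e 6 0 2 (by decide) (by decide) (by decide)
      have q7 := e 6 1 2 (by decide) (by decide) (by decide)
      have q8 := e 5 0 2 (by decide) (by decide) (by decide)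
      rw [wval 3 1 2 (by decide) (by decide) (by decide) 0 (by decide +kernel)] at q1
      rw [wval 4 0 2 (by decide) (by decide) (by decide) 1 (by decide +kernel)] at q2
      rw [wval 4 1 2 (by decide) (by decide) (by decide) 0 (by decide +kernel)] at q3
      rw [wval 3 0 2 (by decide) (by decide) (by decide) 0 (by decide +kernel)] at q4
      rw [wval 5 1 2 (by decide) (by decide) (by decide) 0 (by decide +kernel)] at q5
      rw [wval 6 0 2 (by decide) (by decide) (by decide) 0 (by decide +kernel)] at q6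
      rw [wval 6 1 2 (by decide) (by decide) (by decide) 1 (by decide +kernel)] at q7
      rw [wval 5 0 2 (by decide) (by decide) (by decide) 2 (by decide +kernel)] at q8
      push_cast at q1 q2 q3 q4 q5 q6 q7 q8
      -- the rank function
      have c1 : ∀ a b c : Fin 9, v {a, b, c} = 3 - ((M.eRk (insert a {b, c})).toNat : ℝ) := by
        intro a b c
        simp only [hvdef]
        push_cast
        rfl
      have b1 := rk_le M 5 6 {1, 2}
      have b2 := rk_le M 6 5 {1, 2}
      have b3 := rk_le M 5 6 {0, 2}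
      have b4 := rk_le M 6 5 {0, 2}
      rw [c1] at q1 q2 q3 q4 q5 q6 q7 q8
      obtain ⟨z, hz⟩ : ∃ z : ℤ, lam v = (z : ℝ) := by
        refine ⟨-(((M.eRk (insert 3 {1, 2})).toNat : ℤ)) - ((M.eRk (insert 4 {0, 2})).toNat : ℤ)
          + ((M.eRk (insert 4 {1, 2})).toNat : ℤ) + ((M.eRk (insert 3 {0, 2})).toNat : ℤ), ?_⟩
        push_cast
        linarith
      have hz3 : (3 * z : ℤ) = ((M.eRk (insert 5 {1, 2})).toNat : ℤ) + ((M.eRk (insert 6 {0, 2})).toNat : ℤ)
          - ((M.eRk (insert 6 {1, 2})).toNat : ℤ) - ((M.eRk (insert 5 {0, 2})).toNat : ℤ) := by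
        have : ((3 * z : ℤ) : ℝ) = ((((M.eRk (insert 5 {1, 2})).toNat : ℤ) + ((M.eRk (insert 6 {0, 2})).toNat : ℤ)
          - ((M.eRk (insert 6 {1, 2})).toNat : ℤ) - ((M.eRk (insert 5 {0, 2})).toNat : ℤ) : ℤ) : ℝ) := by
          push_cast
          rw [← hz]
          linarith
        exact_mod_cast this
      have : z = 0 := by omega
      rw [hz, this]
      simp
    obtain ⟨c', hc'⟩ := H2 (hh v)
    apply w_nontrivial
    refine ⟨c', fun B hB B' hB' => ?_⟩
    have hmem : B ∈ {B : Finset (Fin 9) | B.card = 3 ∧ ∀ B' : Finset (Fin 9), B'.card = 3 →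
              (((3 : ℕ) : ℝ) - ((M.eRk (B : Set (Fin 9))).toNat : ℝ)) - ∑ i ∈ B, hh v i ≤
              (((3 : ℕ) : ℝ) - ((M.eRk (B' : Set (Fin 9))).toNat : ℝ)) - ∑ i ∈ B', hh v i} := by
      refine ⟨hB, fun B'' hB'' => ?_⟩
      have r1 := hrig B hB
      have r2 := hrig B'' hB''
      rw [hzero] at r1 r2
      simp only [hvdef] at r1 r2 ⊢
      linarith
    rw [hc'] at hmem
    exact hmem.2 B' hB'

end Pool.Agent.S07891
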