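import Pool.Statements.S07942

set_option autoImplicit false
open Pool Pool.MP_30ed83_co

namespace Pool.Agent.S07942

lemma length_induce_eq {V : Type*} {G : SimpleGraph V} (s : Set V) {u v : V} :
    ∀ (w : G.Walk u v) (hw : ∀ x ∈ w.support, x ∈ s), (w.induce s hw).length = w.length
  | .nil, hw => rfl
  | .cons h w, hw => by simp [length_induce_eq s w]

open SimpleGraph in
/-- A graph which is not 2-colourable has an induced subgraph which is not 2-colourable and has no
induced 4-cycle (the vertex set of a shortest closed walk of odd length). -/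
lemma exists_C4_free {V : Type*} (G : SimpleGraph V) (hG : ¬ G.Colorable 2) :
    ∃ s : Set V, 3 ≤ (G.induce s).chromaticNumber ∧
      ¬ (cycleGraph 4).IsIndContained (G.induce s) := by
  classical
  have h0 : ∃ L : ℕ, Odd L ∧ ∃ u : V, ∃ w : G.Walk u u, w.length = L := by
    rw [two_colorable_iff_forall_loop_even] at hG
    push Not at hG
    obtain ⟨u, w, hw⟩ := hG
    exact ⟨w.length, Nat.not_even_iff_odd.mp hw, u, w, rfl⟩
  set L := Nat.find h0 with hL
  obtain ⟨hodd, u, w, hw⟩ := Nat.find_spec h0
  rw [← hL] at hodd hw
  have hmin : ∀ (x : V) (p : G.Walk x x), Odd p.length → L ≤ p.length := fun x p hp =>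
    Nat.find_min' h0 ⟨hp, x, p, rfl⟩
  -- the two arcs
  have arcs : ∀ i j : ℕ, i ≤ j → j ≤ L → (∃ p : G.Walk (w.getVert i) (w.getVert j), p.length = j - i) ∧
      (∃ q : G.Walk (w.getVert j) (w.getVert i), q.length = L - (j - i)) := by
    intro i j hij hj
    constructor
    · have h1 : (w.drop i).getVert (j - i) = w.getVert j := by
        rw [Walk.drop_getVert]; congr 1; omega
      refine ⟨((w.drop i).take (j - i)).copy rfl h1, ?_⟩
      rw [Walk.length_copy, Walk.take_length, Walk.drop_length, hw]
      omega
    · refine ⟨(w.drop j).append (w.take i), ?_⟩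
      rw [Walk.length_append, Walk.take_length, Walk.drop_length, hw]
      omega
  have hne : ∀ i j : ℕ, i < j → j < L → w.getVert i ≠ w.getVert j := by
    intro i j hij hj he
    obtain ⟨⟨p, hp⟩, ⟨q, hq⟩⟩ := arcs i j hij.le hj.le
    have h1 := hmin _ (p.copy rfl he.symm)
    have h2 := hmin _ (q.copy rfl he)
    rw [Walk.length_copy, hp] at h1
    rw [Walk.length_copy, hq] at h2
    rcases Nat.even_or_odd (j - i) with h | h
    · have : Odd (L - (j - i)) := by
        obtain ⟨a, ha⟩ := hodd
        obtain ⟨b, hb⟩ := h
        exact ⟨a - b, by omega⟩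
      have := h2 this
      omega
    · have := h1 h
      omega
  have hadj : ∀ i j : ℕ, i < j → j < L → G.Adj (w.getVert i) (w.getVert j) →
      j - i = 1 ∨ j - i = L - 1 := by
    intro i j hij hj ha
    obtain ⟨⟨p, hp⟩, ⟨q, hq⟩⟩ := arcs i j hij.le hj.le
    have h1 := hmin _ (p.concat ha.symm)
    have h2 := hmin _ (q.concat ha)
    rw [Walk.length_concat, hp] at h1
    rw [Walk.length_concat, hq] at h2
    rcases Nat.even_or_odd (j - i) with h | h
    · have := h1 h.add_one
      omega
    · have : Odd (L - (j - i) + 1) := by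
        obtain ⟨a, ha⟩ := hodd
        obtain ⟨b, hb⟩ := h
        exact ⟨a - b, by omega⟩
      have := h2 this
      omega
  refine ⟨{x | x ∈ w.support}, ?_, ?_⟩
  · have h3 : Odd (w.induce {x | x ∈ w.support} (fun x hx => hx)).length := by
      have h4 : (w.induce {x | x ∈ w.support} (fun x hx => hx)).length = w.length := by
        exact length_induce_eq _ w _
      rw [h4, hw]; exact hodd
    exact Walk.three_le_chromaticNumber_of_odd_loop _ h3
  · rintro ⟨e⟩
    have hidx : ∀ k : Fin 4, ∃ i : ℕ, i < L ∧ w.getVert i = (e k : V) := by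
      intro k
      have hk : (e k : V) ∈ w.support := (e k).2
      obtain ⟨i, hi, hi2⟩ := Walk.mem_support_iff_exists_getVert.mp hk
      rw [hw] at hi2
      rcases Nat.lt_or_ge i L with h | h
      · exact ⟨i, h, hi⟩
      · have : i = L := le_antisymm hi2 h
        refine ⟨0, hodd.pos, ?_⟩
        rw [← hi, this, Walk.getVert_zero, ← hw, Walk.getVert_length]
    choose f hf1 hf2 using hidx
    have hA : ∀ k l : Fin 4, (cycleGraph 4).Adj k l →
        (f k - f l = 1 ∨ f l - f k = 1 ∨ f k - f l = L - 1 ∨ f l - f k = L - 1) ∧ f k ≠ f l := by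
      intro k l hkl
      have h1 : (G.induce {x | x ∈ w.support}).Adj (e k) (e l) := e.map_adj_iff.mpr hkl
      have h2 : G.Adj (e k : V) (e l : V) := h1
      rw [← hf2 k, ← hf2 l] at h2
      rcases Nat.lt_trichotomy (f k) (f l) with h | h | h
      · have := hadj _ _ h (hf1 l) h2
        exact ⟨by omega, by omega⟩
      · rw [h] at h2
        exact absurd h2 (G.irrefl)
      · have := hadj _ _ h (hf1 k) h2.symm
        exact ⟨by omega, by omega⟩
    have hinj : ∀ k l : Fin 4, k ≠ l → f k ≠ f l := by
      intro k l hkl h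
      apply hkl
      have h1 : (e k : V) = (e l : V) := by rw [← hf2 k, ← hf2 l, h]
      exact e.injective (Subtype.ext h1)
    have a01 := hA 0 1 (by decide)
    have a12 := hA 1 2 (by decide)
    have a23 := hA 2 3 (by decide)
    have a30 := hA 3 0 (by decide)
    have n02 := hinj 0 2 (by decide)
    have n13 := hinj 1 3 (by decide)
    have b0 := hf1 0
    have b1 := hf1 1
    have b2 := hf1 2
    have b3 := hf1 3
    obtain ⟨t, ht⟩ := hodd
    generalize f 0 = x0 at *
    generalize f 1 = x1 at *
    generalize f 2 = x2 at *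
    generalize f 3 = x3 at *
    omega

/-- The negation of the preceding statement: For every finite graph F with an edge and every r, some finite graph G has chromatic number above r and clique number equal to F's, and every induced subgraph of G with no induced copy of F has chromatic number at most that of F. -/
theorem result :
    ¬ (∀ (n : ℕ) (F : SimpleGraph (Fin n)), F ≠ ⊥ →
      ∀ r : ℕ, ∃ (m : ℕ) (G : SimpleGraph (Fin m)),
        (r : ℕ∞) < G.chromaticNumber ∧
        G.cliqueNum = F.cliqueNum ∧
        ∀ s : Set (Fin m), ¬ F.IsIndContained (G.induce s) →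
          (G.induce s).chromaticNumber ≤ F.chromaticNumber) := by
  intro h
  have hF : SimpleGraph.cycleGraph 4 ≠ ⊥ := by
    intro h0
    have : (SimpleGraph.cycleGraph 4).Adj 0 1 := by decide
    rw [h0] at this
    exact this
  obtain ⟨m, G, h1, -, h3⟩ := h 4 (SimpleGraph.cycleGraph 4) hF 2
  have hG : ¬ G.Colorable 2 := by
    intro hc
    have := hc.chromaticNumber_le
    exact absurd h1 (not_lt.mpr (by exact_mod_cast this))
  obtain ⟨s, hs1, hs2⟩ := exists_C4_free G hG
  have h4 := h3 s hs2
  rw [SimpleGraph.chromaticNumber_cycleGraph_of_even 4 (by norm_num) (by decide)] at h4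
  have := hs1.trans h4
  exact absurd this (by decide)

end Pool.Agent.S07942
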