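import Pool.Statements.S07944
-- import your own Pool.Agent.* helpers here
import Pool.Agent.W39.Box

set_option autoImplicit false
open Pool Pool.MP_312c66_co

namespace Pool.Agent.S07944
open Finset Pool.Agent.W39.Box

lemma half_le {x : ℝ} (h0 : 0 ≤ x) (h1 : x ≤ 1) {t : ℕ} (ht : 1 ≤ t) : x ^ t / 2 ≤ x := by
  have h2 : x ^ t ≤ x := by
    calc x ^ t ≤ x ^ 1 := pow_le_pow_of_le_one h0 h1 ht
      _ = x := pow_one x
  linarith

lemma box4 {n t : ℕ} (ht : 1 ≤ t) {δ : ℝ} (hδ : 0 < δ) (hδ1 : δ ≤ 1)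
    (f : Fin n → Fin n → Fin n → Fin n → ℝ) (hf0 : ∀ a b c d, 0 ≤ f a b c d)
    (hf1 : ∀ a b c d, f a b c d ≤ 1)
    (hE : δ * n * (n * (n * n)) ≤ ∑ a, ∑ b, ∑ c, ∑ d, f a b c d)
    (hn : (t : ℝ) ^ 2 ≤ ((δ ^ t / 2) ^ t / 2) ^ t / 2 * n) :
    ∃ τ₁ τ₂ τ₃ τ₄ : Fin t → Fin n, Function.Injective τ₁ ∧ Function.Injective τ₂ ∧
      Function.Injective τ₃ ∧ Function.Injective τ₄ ∧
      ∀ i j k l, f (τ₁ i) (τ₂ j) (τ₃ k) (τ₄ l) ≠ 0 := by
  classical
  have ht1 : (1 : ℝ) ≤ t := by exact_mod_cast ht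
  have hnR : (0 : ℝ) ≤ n := Nat.cast_nonneg n
  set δ₁ := δ ^ t / 2 with hd1
  set δ₂ := δ₁ ^ t / 2 with hd2
  set δ₃ := δ₂ ^ t / 2 with hd3
  have h1p : 0 < δ₁ := by positivity
  have h2p : 0 < δ₂ := by positivity
  have h3p : 0 < δ₃ := by positivity
  have h10 : δ₁ ≤ δ := half_le hδ.le hδ1 ht
  have h11 : δ₁ ≤ 1 := h10.trans hδ1
  have h21 : δ₂ ≤ δ₁ := half_le h1p.le h11 ht
  have h22 : δ₂ ≤ 1 := h21.trans h11
  have h32 : δ₃ ≤ δ₂ := half_le h2p.le h22 ht
  have hn2 : (t : ℝ) ^ 2 ≤ δ₂ * n := hn.trans (mul_le_mul_of_nonneg_right h32 hnR)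
  have hn1 : (t : ℝ) ^ 2 ≤ δ₁ * n := hn2.trans (mul_le_mul_of_nonneg_right h21 hnR)
  have hn0 : 0 < n := by
    by_contra hcon
    have : n = 0 := by omega
    subst this
    simp at hn
    nlinarith
  have hV : Fintype.card (Fin n) = n := Fintype.card_fin n
  -- first step
  obtain ⟨τ₁, i1, s1⟩ := step (V := Fin n) (Y := Fin n × Fin n × Fin n) t ht δ hδ hδ1
    (by simp only [Fintype.card_prod, hV]; positivity)
    (fun v y => f v y.1 y.2.1 y.2.2) (fun v y => hf0 _ _ _ _) (fun v y => hf1 _ _ _ _)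
    (by
      rw [Finset.sum_comm]
      simp only [Fintype.card_prod, hV, Fintype.sum_prod_type]
      push_cast
      exact hE)
    (by rw [hV]; exact hn1)
  set g : Fin n → Fin n → Fin n → ℝ := fun b c d => ∏ i, f (τ₁ i) b c d with hg
  have hg0 : ∀ b c d, 0 ≤ g b c d := fun b c d => Finset.prod_nonneg (fun i _ => hf0 _ _ _ _)
  have hg1 : ∀ b c d, g b c d ≤ 1 := fun b c d =>
    Finset.prod_le_one (fun i _ => hf0 _ _ _ _) (fun i _ => hf1 _ _ _ _)
  have s1' : δ₁ * (n * (n * n)) ≤ ∑ b, ∑ c, ∑ d, g b c d := by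
    simp only [Fintype.card_prod, hV, Fintype.sum_prod_type] at s1
    push_cast at s1
    exact s1
  -- second step
  obtain ⟨τ₂, i2, s2⟩ := step (V := Fin n) (Y := Fin n × Fin n) t ht δ₁ h1p h11
    (by simp only [Fintype.card_prod, hV]; positivity)
    (fun v y => g v y.1 y.2) (fun v y => hg0 _ _ _) (fun v y => hg1 _ _ _)
    (by
      rw [Finset.sum_comm]
      simp only [Fintype.card_prod, hV, Fintype.sum_prod_type]
      push_cast
      refine le_trans (le_of_eq ?_) s1'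
      ring)
    (by rw [hV]; exact hn2)
  set u : Fin n → Fin n → ℝ := fun c d => ∏ j, g (τ₂ j) c d with hu
  have hu0 : ∀ c d, 0 ≤ u c d := fun c d => Finset.prod_nonneg (fun i _ => hg0 _ _ _)
  have hu1 : ∀ c d, u c d ≤ 1 := fun c d =>
    Finset.prod_le_one (fun i _ => hg0 _ _ _) (fun i _ => hg1 _ _ _)
  have s2' : δ₂ * (n * n) ≤ ∑ c, ∑ d, u c d := by
    simp only [Fintype.card_prod, hV, Fintype.sum_prod_type] at s2
    push_cast at s2
    exact s2
  -- third step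
  obtain ⟨τ₃, i3, s3⟩ := step (V := Fin n) (Y := Fin n) t ht δ₂ h2p h22
    (by rw [hV]; exact hn0)
    (fun v y => u v y) (fun v y => hu0 _ _) (fun v y => hu1 _ _)
    (by
      rw [Finset.sum_comm, hV]
      refine le_trans (le_of_eq ?_) s2'
      ring)
    (by rw [hV]; exact hn)
  rw [hV] at s3
  set w : Fin n → ℝ := fun d => ∏ k, u (τ₃ k) d with hw
  have hw0 : ∀ d, 0 ≤ w d := fun d => Finset.prod_nonneg (fun i _ => hu0 _ _)
  have hw1 : ∀ d, w d ≤ 1 := fun d =>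
    Finset.prod_le_one (fun i _ => hu0 _ _) (fun i _ => hu1 _ _)
  have s3' : (t : ℝ) ≤ ∑ d, w d := by
    have : (t : ℝ) ≤ (t : ℝ) ^ 2 := by nlinarith
    exact this.trans (hn.trans s3)
  have s4 : ∑ d, w d ≤ ((Finset.univ.filter (fun d => w d ≠ 0)).card : ℝ) := by
    rw [← Finset.sum_filter_ne_zero]
    calc ∑ d ∈ Finset.univ.filter (fun d => w d ≠ 0), w d
        ≤ ∑ _d ∈ Finset.univ.filter (fun d => w d ≠ 0), (1 : ℝ) :=
          Finset.sum_le_sum (fun d _ => hw1 d)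
      _ = _ := by simp
  have s5 : t ≤ (Finset.univ.filter (fun d => w d ≠ 0)).card := by exact_mod_cast s3'.trans s4
  obtain ⟨T, hT1, hT2⟩ := Finset.exists_subset_card_eq s5
  refine ⟨τ₁, τ₂, τ₃, fun l => T.orderEmbOfFin hT2 l, i1, i2, i3,
    (T.orderEmbOfFin hT2).injective, ?_⟩
  intro i j k l
  have h1 := hT1 (Finset.orderEmbOfFin_mem T hT2 l)
  have h2 : w (T.orderEmbOfFin hT2 l) ≠ 0 := (Finset.mem_filter.1 h1).2
  have h3 := (Finset.prod_ne_zero_iff.1 h2) k (Finset.mem_univ _)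
  have h4 := (Finset.prod_ne_zero_iff.1 h3) j (Finset.mem_univ _)
  exact (Finset.prod_ne_zero_iff.1 h4) i (Finset.mem_univ _)

lemma sort4 {n : ℕ} {a b c d : Fin n} (h1 : a < b) (h2 : b < c) (h3 : c < d) :
    ({a, b, c, d} : Finset (Fin n)).sort (· ≤ ·) = [a, b, c, d] := by
  have h : ({a, b, c, d} : Finset (Fin n)) = [a, b, c, d].toFinset := by
    simp
  rw [h]
  have h12 := h1.trans h2
  have h23 := h2.trans h3
  have h13 := h12.trans h3
  have hnd : [a, b, c, d].Nodup := by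
    simp [h1.ne, h2.ne, h3.ne, h12.ne, h23.ne, h13.ne]
  refine (List.toFinset_sort (· ≤ ·) hnd).2 ?_
  simp [h1.le, h2.le, h3.le, h12.le, h23.le, h13.le]

lemma card4 {n : ℕ} {a b c d : Fin n} (h1 : a < b) (h2 : b < c) (h3 : c < d) :
    ({a, b, c, d} : Finset (Fin n)).card = 4 := by
  rw [← Finset.length_sort (· ≤ ·), sort4 h1 h2 h3]
  rfl

lemma exists_sorted {n : ℕ} {e : Finset (Fin n)} (he : e.card = 4) :
    ∃ a b c d, a < b ∧ b < c ∧ c < d ∧ e = {a, b, c, d} := by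
  set f := e.orderEmbOfFin he with hf
  have hlt : ∀ i j : Fin 4, i < j → f i < f j := fun i j h => f.strictMono h
  have h01 := hlt 0 1 (by decide)
  have h12 := hlt 1 2 (by decide)
  have h23 := hlt 2 3 (by decide)
  refine ⟨f 0, f 1, f 2, f 3, h01, h12, h23, ?_⟩
  symm
  apply Finset.eq_of_subset_of_card_le
  · intro x hx
    simp only [mem_insert, mem_singleton] at hx
    rcases hx with rfl | rfl | rfl | rfl <;> exact Finset.orderEmbOfFin_mem e he _
  · rw [he, card4 h01 h12 h23]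

/-- if every `k`-set contains an edge, then there are many edges -/
lemma many_edges {n k : ℕ} (hk : 4 ≤ k) (hkn : k ≤ n) (φ : Finset (Fin n) → Fin 2)
    (h : ∀ S : Finset (Fin n), S.card = k → ∃ e ⊆ S, e.card = 4 ∧ φ e = 1) :
    (n : ℝ) ^ 4 / (16 * (k : ℝ) ^ 4) ≤
      (((Finset.univ : Finset (Fin n)).powersetCard 4).filter (fun e => φ e = 1)).card ∨ n < 6 := by
  classical
  by_cases hn6 : n < 6
  · exact Or.inr hn6
  left
  set H := ((Finset.univ : Finset (Fin n)).powersetCard 4).filter (fun e => φ e = 1) with hH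
  have h1 : n.choose k ≤ H.card * (n - 4).choose (k - 4) := by
    have hsub : (Finset.univ : Finset (Fin n)).powersetCard k ⊆
        H.biUnion (fun e => ((Finset.univ : Finset (Fin n)).powersetCard k).filter
          (fun K => e ⊆ K)) := by
      intro K hK
      obtain ⟨e, he1, he2, he3⟩ := h K (mem_powersetCard.1 hK).2
      rw [mem_biUnion]
      refine ⟨e, ?_, ?_⟩
      · rw [hH, mem_filter, mem_powersetCard]
        exact ⟨⟨subset_univ _, he2⟩, he3⟩
      · rw [mem_filter]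
        exact ⟨hK, he1⟩
    have h2 := (card_le_card hsub).trans card_biUnion_le
    rw [card_powersetCard, card_univ, Fintype.card_fin] at h2
    refine h2.trans ?_
    rw [← smul_eq_mul, ← Finset.sum_const]
    apply Finset.sum_le_sum
    intro e he
    have hec := (mem_powersetCard.1 (mem_filter.1 he).1).2
    have h3 : (((Finset.univ : Finset (Fin n)) \ e).powersetCard (k - 4)).card =
        (n - 4).choose (k - 4) := by
      rw [card_powersetCard, card_sdiff_of_subset (subset_univ _), card_univ, Fintype.card_fin, hec]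
    rw [← h3]
    refine card_le_card_of_injOn (fun K => K \ e) ?_ ?_
    · intro K hK
      have hK' := mem_filter.1 (Finset.mem_coe.1 hK)
      have hKc := (mem_powersetCard.1 hK'.1).2
      apply Finset.mem_coe.2
      rw [mem_powersetCard]
      refine ⟨sdiff_subset_sdiff (subset_univ _) (Subset.refl _), ?_⟩
      rw [card_sdiff_of_subset hK'.2, hKc, hec]
    · intro K hK K' hK' hEq
      have h4 := (mem_filter.1 (Finset.mem_coe.1 hK)).2
      have h5 := (mem_filter.1 (Finset.mem_coe.1 hK')).2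
      have h6 := congrArg (fun u => u ∪ e) hEq
      simpa [sdiff_union_of_subset h4, sdiff_union_of_subset h5] using h6
  have h2 : n.choose 4 ≤ H.card * k.choose 4 := by
    have h3 : n.choose k * k.choose 4 = n.choose 4 * (n - 4).choose (k - 4) :=
      Nat.choose_mul hk
    have h4 : 0 < (n - 4).choose (k - 4) := Nat.choose_pos (by omega)
    apply Nat.le_of_mul_le_mul_right _ h4
    calc n.choose 4 * (n - 4).choose (k - 4) = n.choose k * k.choose 4 := h3.symm
      _ ≤ H.card * (n - 4).choose (k - 4) * k.choose 4 := Nat.mul_le_mul_right _ h1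
      _ = H.card * k.choose 4 * (n - 4).choose (k - 4) := by ring
  have h3 : (k.choose 4 : ℝ) ≤ (k : ℝ) ^ 4 / 24 := by
    have := Nat.choose_le_pow_div (α := ℝ) 4 k
    simpa [Nat.factorial] using this
  have h4 : ((n : ℝ) / 2) ^ 4 / 24 ≤ (n.choose 4 : ℝ) := by
    have h5 := Nat.pow_le_choose (α := ℝ) 4 n
    have h6 : ((4 : ℕ).factorial : ℝ) = 24 := by norm_num [Nat.factorial]
    rw [h6] at h5
    have h7 : (n : ℝ) / 2 ≤ ((n + 1 - 4 : ℕ) : ℝ) := by
      rw [Nat.cast_sub (by omega)]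
      push_cast
      have : (6 : ℝ) ≤ n := by exact_mod_cast (by omega : 6 ≤ n)
      linarith
    have h8 : ((n : ℝ) / 2) ^ 4 ≤ ((n + 1 - 4 : ℕ) : ℝ) ^ 4 := by gcongr
    rw [div_le_iff₀ (by norm_num)]
    refine h8.trans ?_
    rw [div_le_iff₀ (by norm_num)] at h5
    linarith
  have hk0 : (0 : ℝ) < k := by exact_mod_cast (by omega : 0 < k)
  rw [div_le_iff₀ (by positivity)]
  have h5 : (n.choose 4 : ℝ) ≤ H.card * k.choose 4 := by exact_mod_cast h2
  have h6 : (H.card : ℝ) * k.choose 4 ≤ H.card * ((k : ℝ) ^ 4 / 24) := by gcongr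
  have h7 : ((n : ℝ) / 2) ^ 4 / 24 ≤ H.card * ((k : ℝ) ^ 4 / 24) := h4.trans (h5.trans h6)
  have h8 : ((n : ℝ) / 2) ^ 4 = (n : ℝ) ^ 4 / 16 := by ring
  rw [h8] at h7
  linarith

lemma delta_bound {x : ℝ} {a t : ℕ} (ht : 1 ≤ t) (hx : (1 / 2 : ℝ) ^ a ≤ x) :
    (1 / 2 : ℝ) ^ ((a + 1) * t) ≤ x ^ t / 2 := by
  have h1 : (1 / 2 : ℝ) ^ (a * t) ≤ x ^ t := by
    rw [pow_mul]
    gcongr
  have h2 : (1 / 2 : ℝ) ^ ((a + 1) * t) ≤ (1 / 2 : ℝ) ^ (a * t + 1) := by
    apply pow_le_pow_of_le_one (by norm_num) (by norm_num)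
    nlinarith
  have h3 : (1 / 2 : ℝ) ^ (a * t + 1) = (1 / 2 : ℝ) ^ (a * t) / 2 := by
    rw [pow_succ]
    ring
  linarith

/-- the upper bound for the quasi-Ramsey number -/
lemma upper {t : ℕ} (ht : 1 ≤ t) {n : ℕ} (hn : n = 2 ^ (21 * t ^ 4))
    (φ : Finset (Fin n) → Fin 2) :
    ∃ S : Finset (Fin n), S.card = 4 * t ∧
      ((∀ e ⊆ S, e.card = 4 → φ e ≠ 1) ∨
        t ^ 4 ≤ ((S.powersetCard 4).filter (fun e => φ e = 1)).card) := by
  classical
  by_contra hcon
  push Not at hcon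
  have ht1 : (1 : ℝ) ≤ t := by exact_mod_cast ht
  have ht24 : t ≤ t ^ 4 := by
    calc t = t ^ 1 := (pow_one t).symm
      _ ≤ t ^ 4 := Nat.pow_le_pow_right ht (by norm_num)
  have ht34 : t ^ 3 ≤ t ^ 4 := Nat.pow_le_pow_right ht (by norm_num)
  have ht44 : t ^ 2 ≤ t ^ 4 := Nat.pow_le_pow_right ht (by norm_num)
  have h2t : t < 2 ^ t := Nat.lt_two_pow_self
  have hn4 : 4 * t ≤ n := by
    calc 4 * t ≤ 4 * 2 ^ t := by omega
      _ = 2 ^ (2 + t) := by rw [pow_add]; norm_num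
      _ ≤ 2 ^ (21 * t ^ 4) := Nat.pow_le_pow_right (by norm_num) (by omega)
      _ = n := hn.symm
  have hn6 : ¬ n < 6 := by
    have : 2 ^ 3 ≤ n := by
      rw [hn]
      exact Nat.pow_le_pow_right (by norm_num) (by omega)
    omega
  rcases Nat.lt_or_ge (4 * t) 4 with h | hk4
  · omega
  have hH := many_edges (k := 4 * t) hk4 hn4 φ (by
    intro S hS
    obtain ⟨⟨e, he1, he2, he3⟩, -⟩ := hcon S hS
    exact ⟨e, he1, he2, he3⟩)
  have hH := hH.resolve_right hn6
  set H := ((Finset.univ : Finset (Fin n)).powersetCard 4).filter (fun e => φ e = 1) with hHdef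
  set δ : ℝ := 1 / (16 * ((4 * t : ℕ) : ℝ) ^ 4) with hδ
  have hn0 : (0 : ℝ) < n := by exact_mod_cast (by omega : 0 < n)
  have hδ0 : 0 < δ := by positivity
  have hδb : (1 / 2 : ℝ) ^ (16 * t) ≤ δ := by
    rw [hδ, one_div_pow, one_div_le_one_div (by positivity) (by positivity)]
    have h1 : 16 * (4 * t) ^ 4 ≤ 2 ^ (16 * t) := by
      calc 16 * (4 * t) ^ 4 = 2 ^ 12 * t ^ 4 := by ring
        _ ≤ 2 ^ (12 * t) * (2 ^ t) ^ 4 := by
            apply Nat.mul_le_mul
            · exact Nat.pow_le_pow_right (by norm_num) (by omega)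
            · exact Nat.pow_le_pow_left h2t.le 4
        _ = 2 ^ (16 * t) := by
            rw [← pow_mul, ← pow_add]
            congr 1
            ring
    exact_mod_cast h1
  have hδ1 : δ ≤ 1 := by
    rw [hδ, div_le_one (by positivity)]
    have : (1 : ℝ) ≤ ((4 * t : ℕ) : ℝ) := by exact_mod_cast (by omega : 1 ≤ 4 * t)
    nlinarith [one_le_pow₀ (n := 4) this]
  -- the indicator of the sorted edges
  set P : Fin n → Fin n → Fin n → Fin n → Prop := fun a b c d =>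
    a < b ∧ b < c ∧ c < d ∧ φ {a, b, c, d} = 1 with hP
  set f : Fin n → Fin n → Fin n → Fin n → ℝ := fun a b c d => if P a b c d then 1 else 0 with hf
  have hsum : (H.card : ℝ) ≤ ∑ a, ∑ b, ∑ c, ∑ d, f a b c d := by
    have h1 : ∑ a, ∑ b, ∑ c, ∑ d, f a b c d =
        ((Finset.univ.filter (fun p : Fin n × Fin n × Fin n × Fin n =>
          P p.1 p.2.1 p.2.2.1 p.2.2.2)).card : ℝ) := by
      rw [Finset.card_filter]
      push_cast
      simp only [Fintype.sum_prod_type]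
      rfl
    rw [h1]
    have h2 : H.card ≤ (Finset.univ.filter (fun p : Fin n × Fin n × Fin n × Fin n =>
          P p.1 p.2.1 p.2.2.1 p.2.2.2)).card := by
      apply Finset.card_le_card_of_surjOn
        (fun p : Fin n × Fin n × Fin n × Fin n => ({p.1, p.2.1, p.2.2.1, p.2.2.2} : Finset (Fin n)))
      intro e he
      have he' := Finset.mem_filter.1 (Finset.mem_coe.1 he)
      obtain ⟨a, b, c, d, g1, g2, g3, rfl⟩ := exists_sorted (mem_powersetCard.1 he'.1).2
      exact ⟨(a, b, c, d), by simpa [hP] using ⟨g1, g2, g3, he'.2⟩, rfl⟩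
    exact_mod_cast h2
  obtain ⟨τ₁, τ₂, τ₃, τ₄, i1, i2, i3, i4, hall⟩ := box4 ht hδ0 hδ1 f
    (fun a b c d => by simp only [hf]; split_ifs <;> norm_num)
    (fun a b c d => by simp only [hf]; split_ifs <;> norm_num)
    (by
      refine le_trans (le_of_eq ?_) (hH.trans hsum)
      rw [hδ]
      ring)
    (by
      have b1 := delta_bound ht hδb
      have b2 := delta_bound ht b1
      have b3 := delta_bound ht b2
      have h1 : (1 / 2 : ℝ) ^ (19 * t ^ 4) ≤ ((δ ^ t / 2) ^ t / 2) ^ t / 2 := by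
        refine le_trans ?_ b3
        apply pow_le_pow_of_le_one (by norm_num) (by norm_num)
        have : ((((16 * t + 1) * t + 1) * t + 1) * t) = 16 * t ^ 4 + t ^ 3 + t ^ 2 + t := by ring
        rw [this]
        omega
      have h2 : (1 / 2 : ℝ) ^ (19 * t ^ 4) * n = 2 ^ (2 * t ^ 4) := by
        rw [hn]
        push_cast
        have e1 : 21 * t ^ 4 = 19 * t ^ 4 + 2 * t ^ 4 := by ring
        rw [e1, pow_add, ← mul_assoc, ← mul_pow]
        norm_num
      have h3 : (t : ℝ) ^ 2 ≤ 2 ^ (2 * t ^ 4) := by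
        have h4 : t ^ 2 ≤ 2 ^ (2 * t ^ 4) := by
          calc t ^ 2 ≤ (2 ^ t) ^ 2 := Nat.pow_le_pow_left h2t.le 2
            _ = 2 ^ (2 * t) := by rw [← pow_mul, mul_comm]
            _ ≤ 2 ^ (2 * t ^ 4) := Nat.pow_le_pow_right (by norm_num) (by omega)
        exact_mod_cast h4
      calc (t : ℝ) ^ 2 ≤ 2 ^ (2 * t ^ 4) := h3
        _ = (1 / 2 : ℝ) ^ (19 * t ^ 4) * n := h2.symm
        _ ≤ ((δ ^ t / 2) ^ t / 2) ^ t / 2 * n := by gcongr)
  have hall' : ∀ i j k l, P (τ₁ i) (τ₂ j) (τ₃ k) (τ₄ l) := by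
    intro i j k l
    by_contra hc
    apply hall i j k l
    simp only [hf]
    rw [if_neg hc]
  -- the set
  set A₁ := Finset.univ.image τ₁ with hA1
  set A₂ := Finset.univ.image τ₂ with hA2
  set A₃ := Finset.univ.image τ₃ with hA3
  set A₄ := Finset.univ.image τ₄ with hA4
  have c1 : A₁.card = t := by rw [hA1, card_image_of_injective _ i1, card_univ, Fintype.card_fin]
  have c2 : A₂.card = t := by rw [hA2, card_image_of_injective _ i2, card_univ, Fintype.card_fin]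
  have c3 : A₃.card = t := by rw [hA3, card_image_of_injective _ i3, card_univ, Fintype.card_fin]
  have c4 : A₄.card = t := by rw [hA4, card_image_of_injective _ i4, card_univ, Fintype.card_fin]
  have z : Fin t := ⟨0, ht⟩
  have o12 : ∀ a ∈ A₁, ∀ b ∈ A₂, a < b := by
    intro a ha b hb
    obtain ⟨i, -, rfl⟩ := mem_image.1 ha
    obtain ⟨j, -, rfl⟩ := mem_image.1 hb
    exact (hall' i j z z).1
  have o23 : ∀ a ∈ A₂, ∀ b ∈ A₃, a < b := by
    intro a ha b hb
    obtain ⟨i, -, rfl⟩ := mem_image.1 ha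
    obtain ⟨j, -, rfl⟩ := mem_image.1 hb
    exact (hall' z i j z).2.1
  have o34 : ∀ a ∈ A₃, ∀ b ∈ A₄, a < b := by
    intro a ha b hb
    obtain ⟨i, -, rfl⟩ := mem_image.1 ha
    obtain ⟨j, -, rfl⟩ := mem_image.1 hb
    exact (hall' z z i j).2.2.1
  have n2 : A₂.Nonempty := card_pos.1 (by omega)
  have n3 : A₃.Nonempty := card_pos.1 (by omega)
  obtain ⟨x2, hx2⟩ := n2
  obtain ⟨x3, hx3⟩ := n3
  have o13 : ∀ a ∈ A₁, ∀ b ∈ A₃, a < b := fun a ha b hb => (o12 a ha x2 hx2).trans (o23 x2 hx2 b hb)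
  have o24 : ∀ a ∈ A₂, ∀ b ∈ A₄, a < b := fun a ha b hb => (o23 a ha x3 hx3).trans (o34 x3 hx3 b hb)
  have o14 : ∀ a ∈ A₁, ∀ b ∈ A₄, a < b := fun a ha b hb => (o13 a ha x3 hx3).trans (o34 x3 hx3 b hb)
  have dis : ∀ {A B : Finset (Fin n)}, (∀ a ∈ A, ∀ b ∈ B, a < b) → Disjoint A B := by
    intro A B h
    rw [Finset.disjoint_left]
    intro x hx hx'
    exact lt_irrefl _ (h x hx x hx')
  set S := A₁ ∪ (A₂ ∪ (A₃ ∪ A₄)) with hS
  have hScard : S.card = 4 * t := by
    rw [hS, card_union_of_disjoint, card_union_of_disjoint, card_union_of_disjoint, c1, c2, c3, c4]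
    · ring
    · exact dis o34
    · rw [disjoint_union_right]
      exact ⟨dis o23, dis o24⟩
    · rw [disjoint_union_right, disjoint_union_right]
      exact ⟨dis o12, dis o13, dis o14⟩
  obtain ⟨-, hlt⟩ := hcon S hScard
  have hge : t ^ 4 ≤ ((S.powersetCard 4).filter (fun e => φ e = 1)).card := by
    have h1 : (A₁ ×ˢ (A₂ ×ˢ (A₃ ×ˢ A₄))).card = t ^ 4 := by
      rw [card_product, card_product, card_product, c1, c2, c3, c4]
      ring
    rw [← h1]
    refine card_le_card_of_injOn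
      (fun p : Fin n × Fin n × Fin n × Fin n => ({p.1, p.2.1, p.2.2.1, p.2.2.2} : Finset (Fin n)))
      ?_ ?_
    · rintro ⟨a, b, c, d⟩ hp
      simp only [coe_product, Set.mem_prod, Finset.mem_coe] at hp
      obtain ⟨ha, hb, hc, hd⟩ := hp
      apply Finset.mem_coe.2
      rw [mem_filter, mem_powersetCard]
      refine ⟨⟨?_, card4 (o12 a ha b hb) (o23 b hb c hc) (o34 c hc d hd)⟩, ?_⟩
      · intro x hx
        simp only [mem_insert, mem_singleton] at hx
        rw [hS, mem_union, mem_union, mem_union]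
        rcases hx with rfl | rfl | rfl | rfl
        · exact Or.inl ha
        · exact Or.inr (Or.inl hb)
        · exact Or.inr (Or.inr (Or.inl hc))
        · exact Or.inr (Or.inr (Or.inr hd))
      · obtain ⟨i, -, rfl⟩ := mem_image.1 ha
        obtain ⟨j, -, rfl⟩ := mem_image.1 hb
        obtain ⟨k, -, rfl⟩ := mem_image.1 hc
        obtain ⟨l, -, rfl⟩ := mem_image.1 hd
        exact (hall' i j k l).2.2.2
    · rintro ⟨a, b, c, d⟩ hp ⟨a', b', c', d'⟩ hp' hEq
      simp only [coe_product, Set.mem_prod, Finset.mem_coe] at hp hp'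
      obtain ⟨ha, hb, hc, hd⟩ := hp
      obtain ⟨ha', hb', hc', hd'⟩ := hp'
      have h2 := congrArg (fun e : Finset (Fin n) => e.sort (· ≤ ·)) hEq
      simp only at h2
      rw [sort4 (o12 a ha b hb) (o23 b hb c hc) (o34 c hc d hd),
        sort4 (o12 a' ha' b' hb') (o23 b' hb' c' hc') (o34 c' hc' d' hd')] at h2
      simp only [List.cons.injEq, and_true] at h2
      simp [h2.1, h2.2.1, h2.2.2.1, h2.2.2.2]
  omega

open Filter Asymptotics in
lemma growth {c D : ℝ} (hc : 0 < c) (hD : 0 < D) (K : ℕ) : ∃ t : ℕ, 1 ≤ t ∧ K ≤ 4 * t ∧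
    ((2 ^ (21 * t ^ 4) : ℕ) : ℝ) < Real.exp (Real.exp (c * ((4 * t : ℕ) : ℝ) ^ D)) := by
  have h1 : (fun x : ℝ => x ^ (4 / D)) =o[atTop] fun x => Real.exp (c * x) :=
    isLittleO_rpow_exp_pos_mul_atTop (4 / D) hc
  have h2 := h1.bound (c := 1) one_pos
  have h3 : Tendsto (fun t : ℕ => ((4 * t : ℕ) : ℝ) ^ D) atTop atTop := by
    apply (tendsto_rpow_atTop hD).comp
    apply tendsto_natCast_atTop_atTop.comp
    exact tendsto_id.const_mul_atTop' (by norm_num)
  obtain ⟨t, ht1, ht2⟩ := ((h3.eventually h2).and (eventually_ge_atTop (K + 1))).exists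
  refine ⟨t, by omega, by omega, ?_⟩
  have h0 : (0 : ℝ) ≤ ((4 * t : ℕ) : ℝ) := by positivity
  rw [Real.norm_of_nonneg (by positivity), Real.norm_of_nonneg (Real.exp_pos _).le, one_mul,
    ← Real.rpow_mul h0, mul_div_cancel₀ _ hD.ne'] at ht1
  have h4 : ((4 * t : ℕ) : ℝ) ^ (4 : ℝ) = 256 * (t : ℝ) ^ 4 := by
    have : ((4 : ℕ) : ℝ) = (4 : ℝ) := by norm_num
    rw [← this, Real.rpow_natCast]
    push_cast
    ring
  rw [h4] at ht1
  have ht0 : (1 : ℝ) ≤ t := by exact_mod_cast (by omega : 1 ≤ t)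
  have ht4 : (1 : ℝ) ≤ (t : ℝ) ^ 4 := one_le_pow₀ ht0
  push_cast
  rw [← Real.exp_log (by positivity : (0 : ℝ) < 2 ^ (21 * t ^ 4)), Real.exp_lt_exp, Real.log_pow]
  push_cast
  have h5 : Real.log 2 < 1 := by
    have := Real.log_two_lt_d9
    linarith
  push_cast at ht1
  nlinarith

/-- The negation of the preceding statement: For r≥4, q≥2, ε>0 there are D,c>0 such that for all large k and all n<exp(exp(c k^D)), some q-colouring of the r-sets of [n] has no set S of size ≥k where colour 1 has average degree ρ_1·C(∣S∣-1,r-1) with ρ_1=1, or another colour has average degree ε/(q-1)·C(∣S∣-1,r-1). -/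
theorem result :
    ¬ (∀ r : ℕ, 4 ≤ r → ∀ q : ℕ, 2 ≤ q → ∀ ε : ℝ, 0 < ε →
    ∃ D : ℝ, 0 < D ∧ ∃ c : ℝ, 0 < c ∧ ∃ K : ℕ, ∀ k : ℕ, K ≤ k →
      ∀ n : ℕ, (n : ℝ) < Real.exp (Real.exp (c * (k : ℝ) ^ D)) →
        ∃ φ : Finset (Fin n) → Fin q, ∀ S : Finset (Fin n), k ≤ S.card → ∀ j : Fin q,
          ((r : ℝ) * (((S.powersetCard r).filter (fun e => φ e = j)).card : ℝ)) / (S.card : ℝ) <
            (if j.val = 0 then (1 : ℝ) else ε / ((q : ℝ) - 1)) *
              (((S.card - 1).choose (r - 1) : ℕ) : ℝ)) := by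
  intro h
  obtain ⟨D, hD, c, hc, K, hK⟩ := h 4 (by norm_num) 2 (by norm_num) (1 / 11) (by norm_num)
  obtain ⟨t, ht, hKt, hg⟩ := growth hc hD K
  obtain ⟨φ, hφ⟩ := hK (4 * t) hKt _ hg
  obtain ⟨S, hS, hcase⟩ := upper ht rfl φ
  have ht0 : (1 : ℝ) ≤ t := by exact_mod_cast ht
  rcases hcase with h1 | h1
  · -- a clique of the first colour
    have h2 := hφ S hS.ge 0
    have h3 : (S.powersetCard 4).filter (fun e => φ e = 0) = S.powersetCard 4 := by
      rw [Finset.filter_eq_self]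
      intro e he
      have h4 := h1 e (mem_powersetCard.1 he).1 (mem_powersetCard.1 he).2
      have : ∀ x : Fin 2, x ≠ 1 → x = 0 := by decide
      exact this _ h4
    rw [h3, card_powersetCard, hS] at h2
    have h5 : (4 * t) * (4 * t - 1).choose 3 = (4 * t).choose 4 * 4 := by
      obtain ⟨s, hs⟩ : ∃ s, 4 * t = s + 1 := ⟨4 * t - 1, by omega⟩
      rw [hs, Nat.add_sub_cancel]
      exact Nat.add_one_mul_choose_eq s 3
    have h6 : (((4 * t : ℕ) : ℝ)) * ((4 * t - 1).choose 3 : ℝ) = ((4 * t).choose 4 : ℝ) * 4 := by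
      exact_mod_cast h5
    have h7 : (0 : ℝ) < ((4 * t : ℕ) : ℝ) := by exact_mod_cast (by omega : 0 < 4 * t)
    rw [div_lt_iff₀ h7] at h2
    simp only [Fin.val_zero, if_true, one_mul] at h2
    have h8 : (4 - 1 : ℕ) = 3 := rfl
    rw [h8] at h2
    push_cast at h2 h6
    linarith
  · -- a dense set of the second colour
    have h2 := hφ S hS.ge 1
    rw [hS] at h2
    have h7 : (0 : ℝ) < ((4 * t : ℕ) : ℝ) := by exact_mod_cast (by omega : 0 < 4 * t)
    rw [div_lt_iff₀ h7] at h2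
    have h3 : (t : ℝ) ^ 4 ≤ (((S.powersetCard 4).filter (fun e => φ e = 1)).card : ℝ) := by
      exact_mod_cast h1
    have h4 : ((4 * t - 1).choose 3 : ℝ) ≤ ((4 * t : ℕ) : ℝ) ^ 3 / 6 := by
      have h5 := Nat.choose_le_pow_div (α := ℝ) 3 (4 * t - 1)
      have h6 : ((3 : ℕ).factorial : ℝ) = 6 := by norm_num [Nat.factorial]
      rw [h6] at h5
      refine h5.trans ?_
      have h8 : ((4 * t - 1 : ℕ) : ℝ) ≤ ((4 * t : ℕ) : ℝ) := by exact_mod_cast Nat.sub_le _ _
      gcongr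
    have h8 : (4 - 1 : ℕ) = 3 := rfl
    have h9 : ((1 : Fin 2).val = 0) = False := by simp
    simp only [h9, if_false, h8] at h2
    push_cast at h2 h4
    have h10 : (1 / 11 / ((2 : ℝ) - 1)) * ((4 * t - 1).choose 3 : ℝ) * (4 * (t : ℝ)) ≤
        (1 / 11 / ((2 : ℝ) - 1)) * ((4 * (t : ℝ)) ^ 3 / 6) * (4 * (t : ℝ)) := by
      gcongr
    have h11 : (0 : ℝ) < (t : ℝ) ^ 4 := by positivity
    nlinarith

end Pool.Agent.S07944
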