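import Pool.Statements.S07963
import Pool.Agent.W181.ColorChain

set_option autoImplicit false
open Pool Pool.MP_31cced_co

namespace Pool.Agent.S07963

/-- For every finite simple graph G on n vertices with clique number ω and every integer λ ≥ n, the number of proper (λ−1)-colourings divided by the number of proper λ-colourings is at most (1−ω/λ)(1−1/λ)^(n−ω). -/
theorem result :
    ∀ (V : Type) [Fintype V] (G : SimpleGraph V) (lam : ℕ),
      Fintype.card V ≤ lam →
      (Nat.card (G.Coloring (Fin (lam - 1))) : ℝ) / (Nat.card (G.Coloring (Fin lam)) : ℝ)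
        ≤ (1 - ((sSup {k : ℕ | ∃ s : Finset V, G.IsNClique k s} : ℕ) : ℝ) / (lam : ℝ))
          * (1 - 1 / (lam : ℝ)) ^ (Fintype.card V - sSup {k : ℕ | ∃ s : Finset V, G.IsNClique k s}) := by
  classical
  intro V _ G lam hn
  set S : Set ℕ := {k : ℕ | ∃ s : Finset V, G.IsNClique k s} with hS
  have hbdd : BddAbove S := by
    refine ⟨Fintype.card V, ?_⟩
    rintro k ⟨s, hs⟩
    rw [← hs.card_eq]
    exact Finset.card_le_univ s
  have hne : S.Nonempty := ⟨0, ∅, by simp [SimpleGraph.isNClique_iff]⟩
  have hmem : sSup S ∈ S := Nat.sSup_mem hne hbdd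
  obtain ⟨K, hK⟩ := hmem
  set om : ℕ := sSup S with hom
  have hKc : K.card = om := hK.card_eq
  rcases Nat.eq_zero_or_pos lam with h0 | hpos
  · -- no vertices
    subst h0
    have hV : Fintype.card V = 0 := by omega
    have : IsEmpty V := Fintype.card_eq_zero_iff.1 hV
    have hom0 : om = 0 := by
      rw [← hKc]
      have := Finset.card_le_univ K
      omega
    have h1 : (Nat.card (G.Coloring (Fin (0 - 1))) : ℝ) = 1 := by
      rw [Pool.Agent.W181.card_Col]
      have : (Pool.Agent.W181.Col G (Fin (0 - 1))).card = 1 := by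
        rw [Finset.card_eq_one]
        refine ⟨fun v => isEmptyElim v, ?_⟩
        ext c
        rw [Finset.mem_singleton, Pool.Agent.W181.mem_Col]
        constructor
        · intro _; funext v; exact isEmptyElim v
        · intro _ u; exact isEmptyElim u
      rw [this]; norm_num
    rw [h1, hom0, hV]
    norm_num
  · obtain ⟨L, rfl⟩ : ∃ L, lam = L + 1 := ⟨lam - 1, by omega⟩
    have hcompl : (Kᶜ).card = Fintype.card V - om := by
      rw [Finset.card_compl, hKc]
    have hle : om ≤ Fintype.card V := by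
      rw [← hKc]; exact Finset.card_le_univ K
    have hmain := Pool.Agent.W181.main G K hK.isClique L (by rw [hcompl]; omega)
    rw [hcompl, hKc] at hmain
    rw [Nat.add_sub_cancel]
    set P0 : ℕ := Nat.card (G.Coloring (Fin L)) with hP0
    set P1 : ℕ := Nat.card (G.Coloring (Fin (L + 1))) with hP1
    set p : ℕ := Fintype.card V - om with hp
    have hmainR : ((L : ℝ) + 1) ^ (p + 1) * (P0 : ℝ) ≤
        (L : ℝ) ^ p * (((L : ℝ) + 1 - om) * (P1 : ℝ)) := by exact_mod_cast hmain
    have hL : (0 : ℝ) < (L : ℝ) + 1 := by positivity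
    have hcast : (((L + 1 : ℕ) : ℕ) : ℝ) = (L : ℝ) + 1 := by push_cast; ring
    rw [hcast]
    have e1 : (1 - (om : ℝ) / ((L : ℝ) + 1)) * (1 - 1 / ((L : ℝ) + 1)) ^ p =
        (((L : ℝ) + 1 - om) * (L : ℝ) ^ p) / ((L : ℝ) + 1) ^ (p + 1) := by
      have e2 : 1 - 1 / ((L : ℝ) + 1) = (L : ℝ) / ((L : ℝ) + 1) := by
        field_simp
        ring
      rw [e2, div_pow, pow_succ]
      field_simp
    rw [e1]
    rcases Nat.eq_zero_or_pos P1 with hP | hP
    · rw [hP]
      simp only [Nat.cast_zero, div_zero]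
      apply div_nonneg
      · apply mul_nonneg
        · have : (om : ℝ) ≤ (L : ℝ) + 1 := by
            have : om ≤ L + 1 := by omega
            exact_mod_cast this
          linarith
        · positivity
      · positivity
    · have hP' : (0 : ℝ) < P1 := by exact_mod_cast hP
      rw [div_le_div_iff₀ hP' (by positivity)]
      calc (P0 : ℝ) * ((L : ℝ) + 1) ^ (p + 1) = ((L : ℝ) + 1) ^ (p + 1) * (P0 : ℝ) := by ring
        _ ≤ (L : ℝ) ^ p * (((L : ℝ) + 1 - om) * (P1 : ℝ)) := hmainR
        _ = ((L : ℝ) + 1 - om) * (L : ℝ) ^ p * P1 := by ring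

end Pool.Agent.S07963
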