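import Pool.Statements.S07966
import Pool.Agent.Results.MP_31d2fb_co.TruncatedPetersen

set_option autoImplicit false
open Pool Pool.MP_31d2fb_co

namespace Pool.Agent.S07966

/-- The negation of the preceding statement: For every finite loopless cubic multigraph with a nowhere-zero Z2^3 flow using at most 5 distinct vertex lines, every 2-factor C0 extends by a second 2-factor C1 and an even subgraph C2 so that C0, C1, C2 together cover all edges. -/
theorem result :
    ¬ (∀ (n m : ℕ) (s t : Fin m → Fin n), (∀ e, s e ≠ t e) →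
      (∀ v : Fin n, (Finset.univ.filter (fun e : Fin m => s e = v ∨ t e = v)).card = 3) →
      (∃ f : Fin m → (Fin 3 → ZMod 2), (∀ e, f e ≠ 0) ∧
        (∀ v : Fin n, ∑ e ∈ Finset.univ.filter (fun e : Fin m => s e = v ∨ t e = v), f e = 0) ∧
        ((Finset.univ : Finset (Fin n)).image
          (fun v : Fin n => (Finset.univ.filter (fun e : Fin m => s e = v ∨ t e = v)).image f)).card ≤ 5) →
      ∀ C0 : Finset (Fin m),
        (∀ v : Fin n, (C0.filter (fun e : Fin m => s e = v ∨ t e = v)).card = 2) →
        ∃ C1 C2 : Finset (Fin m),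
          (∀ v : Fin n, (C1.filter (fun e : Fin m => s e = v ∨ t e = v)).card = 2) ∧
          (∀ v : Fin n, Even (C2.filter (fun e : Fin m => s e = v ∨ t e = v)).card) ∧
          C0 ∪ C1 ∪ C2 = Finset.univ) := by
  intro h
  obtain ⟨s, t, h1, _, _, _, hcub, _, ⟨f, hf, hfc⟩, C0, hC0, hbad⟩ :=
    Pool.Agent.Results.MP_31d2fb_co.TruncatedPetersen.result
  have hdis : ∀ (C : Finset (Fin 45)) (v : Fin 30),
      Disjoint (C.filter (fun e => s e = v)) (C.filter (fun e => t e = v)) := by
    intro C v
    rw [Finset.disjoint_filter]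
    intro e _ h2 h3
    exact h1 e (h2.trans h3.symm)
  have hdeg : ∀ (C : Finset (Fin 45)) (v : Fin 30),
      (C.filter (fun e => s e = v ∨ t e = v)).card =
        Pool.Agent.Results.MP_31d2fb_co.TruncatedPetersen.deg s t C v := by
    intro C v
    rw [Finset.filter_or, Finset.card_union_of_disjoint (hdis C v)]
    rfl
  obtain ⟨C1, C2, h2, h3, h4⟩ := h 30 45 s t h1 (fun v => by rw [hdeg]; exact hcub v)
    ⟨f, hf.1, fun v => by
      rw [Finset.filter_or, Finset.sum_union (hdis _ v)]
      exact hf.2 v, hfc⟩ C0 (fun v => by rw [hdeg]; exact hC0 v)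
  exact hbad C1 C2 (fun v => by rw [← hdeg]; exact h2 v) (fun v => by rw [← hdeg]; exact h3 v) h4

end Pool.Agent.S07966
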