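import Pool.Statements.S07991
import Pool.Agent.Results.MP_32b8b3_co.BerahaLimit

set_option autoImplicit false
open Pool Pool.MP_32b8b3_co

namespace Pool.Agent.S07991

/-- Identification of the plane with the complex numbers. -/
noncomputable def toC (p : ℝ × ℝ) : ℂ := ⟨p.1, p.2⟩

lemma toC_inj : Function.Injective toC := by
  intro p q h
  have h1 := congrArg Complex.re h
  have h2 := congrArg Complex.im h
  exact Prod.ext h1 h2

lemma toC_comb (p q : ℝ × ℝ) (t : ℝ) :
    AffineMap.lineMap (toC p) (toC q) t = toC ((1 - t) • p + t • q) := by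
  apply Complex.ext
  · simp [AffineMap.lineMap_apply, toC]; ring
  · simp [AffineMap.lineMap_apply, toC]; ring

/-- The straight segment between two points. -/
noncomputable def seg (p q : ℂ) : Path p q where
  toFun t := AffineMap.lineMap p q (t : ℝ)
  continuous_toFun := by
    have : Continuous (fun t : ℝ => (AffineMap.lineMap p q t : ℂ)) := AffineMap.lineMap_continuous
    exact this.comp continuous_subtype_val
  source' := by simp
  target' := by simp

lemma seg_apply (p q : ℝ × ℝ) (t : unitInterval) :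
    seg (toC p) (toC q) t = toC ((1 - (t : ℝ)) • p + (t : ℝ) • q) := toC_comb p q t

lemma mem_seg (p q : ℝ × ℝ) (t : unitInterval) :
    (1 - (t : ℝ)) • p + (t : ℝ) • q ∈ segment ℝ p q :=
  ⟨1 - t, t, by linarith [t.2.2], t.2.1, by ring, rfl⟩

lemma comb_inj {p q : ℝ × ℝ} (hpq : p ≠ q) {s t : ℝ}
    (h : (1 - s) • p + s • q = (1 - t) • p + t • q) : s = t := by
  have h1 : (s - t) • (q - p) = 0 := by
    have h2 : (1 - s) • p + s • q - ((1 - t) • p + t • q) = 0 := by rw [h, sub_self]
    rw [← h2]
    module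
  rcases smul_eq_zero.1 h1 with h3 | h3
  · linarith
  · exact absurd (sub_eq_zero.1 h3).symm hpq

/-- For every n in {8,9} or n≥11 and every ε>0, some finite planar graph with at least 3 vertices and 3∣V∣−6 edges (a plane triangulation) has a chromatic polynomial with a real root within ε of 2+2cos(2π/n). -/
theorem result :
    ∀ n : ℕ, (n = 8 ∨ n = 9 ∨ 11 ≤ n) → ∀ ε : ℝ, 0 < ε →
      ∃ (V : Type) (_ : Fintype V) (G : SimpleGraph V),
        3 ≤ Nat.card V ∧
        Nat.card G.edgeSet + 6 = 3 * Nat.card V ∧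
        (∃ (pos : V → ℂ) (arc : ∀ u v : V, Path (pos u) (pos v)),
          Function.Injective pos ∧
          (∀ u v : V, G.Adj u v → Function.Injective ⇑(arc u v)) ∧
          (∀ u v : V, G.Adj u v → ∀ t : unitInterval, ∀ w : V,
              arc u v t = pos w → t = 0 ∨ t = 1) ∧
          (∀ u v x y : V, G.Adj u v → G.Adj x y → s(u, v) ≠ s(x, y) →
              ∀ a b : unitInterval, arc u v a = arc x y b → a = 0 ∨ a = 1)) ∧
        ∃ p : Polynomial ℝ,
          (∀ k : ℕ, p.eval (k : ℝ) = (Nat.card (G.Coloring (Fin k)) : ℝ)) ∧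
          ∃ x : ℝ, |x - (2 + 2 * Real.cos (2 * Real.pi / (n : ℝ)))| < ε ∧ p.IsRoot x := by
  intro n hn ε hε
  obtain ⟨V, i, G, x, ⟨hcard, ⟨pos, hinj, hvert, hcommon⟩, hedge⟩, ⟨P, hP, hx⟩, hx1, hx2⟩ :=
    Pool.Agent.Results.MP_32b8b3_co.BerahaLimit.result n hn ε hε
  have endpt : ∀ (u v w : V), G.Adj u v → ∀ t : unitInterval,
      (1 - (t : ℝ)) • pos u + (t : ℝ) • pos v = pos w → (w = u ∨ w = v) → t = 0 ∨ t = 1 := by
    intro u v w huv t ht hw
    have hne : pos u ≠ pos v := fun h => G.ne_of_adj huv (hinj h)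
    rcases hw with rfl | rfl
    · left
      have : (1 - (t : ℝ)) • pos w + (t : ℝ) • pos v = (1 - (0 : ℝ)) • pos w + (0 : ℝ) • pos v := by
        rw [ht]; simp
      exact Subtype.ext (comb_inj hne this)
    · right
      have : (1 - (t : ℝ)) • pos u + (t : ℝ) • pos w = (1 - (1 : ℝ)) • pos u + (1 : ℝ) • pos w := by
        rw [ht]; simp
      exact Subtype.ext (comb_inj hne this)
  refine ⟨V, i, G, ?_, ?_, ⟨fun v => toC (pos v), fun u v => seg (toC (pos u)) (toC (pos v)),
    ?_, ?_, ?_, ?_⟩, P, hP, x, ?_, hx⟩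
  · rw [Nat.card_eq_fintype_card]; exact hcard
  · have h1 : Nat.card V = Fintype.card V := Nat.card_eq_fintype_card
    have h2 : Nat.card G.edgeSet = G.edgeSet.ncard := rfl
    rw [h1, h2, hedge]
    omega
  · exact fun u v h => hinj (toC_inj h)
  · intro u v huv s t hst
    rw [seg_apply, seg_apply] at hst
    exact Subtype.ext (comb_inj (fun h => G.ne_of_adj huv (hinj h)) (toC_inj hst))
  · intro u v huv t w h
    rw [seg_apply] at h
    have h1 := toC_inj h
    have h2 := hvert u v w huv (by rw [← h1]; exact mem_seg _ _ t)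
    exact endpt u v w huv t h1 h2
  · intro u v y z huv hyz hne a b h
    rw [seg_apply, seg_apply] at h
    have h1 := toC_inj h
    obtain ⟨w, hw, hw1, -⟩ := hcommon u v y z huv hyz hne _ (mem_seg (pos u) (pos v) a)
      (by rw [h1]; exact mem_seg _ _ b)
    exact endpt u v w huv a hw hw1
  · rw [abs_lt]
    constructor <;> linarith [hx1, hx2]

end Pool.Agent.S07991
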