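-- Proof of statement S08183 (Pool.MP_3a59ef_co.main).
import Pool.Statements.S08183
import Pool.Agent.Helper64.Gow10

set_option autoImplicit false
open Pool Pool.MP_3a59ef_co

namespace Pool.Agent.S08183

open Pool.Agent.Helper64.Gow in
lemma collinear_of_col' {a b : ℝ × ℝ} (hab : a ≠ b) {s : Set (ℝ × ℝ)} (ha : a ∈ s)
    (hs : ∀ c ∈ s, col a b c) : Collinear ℝ s := by
  rw [collinear_iff_of_mem ha]
  refine ⟨b - a, ?_⟩
  intro c hc
  have h := hs c hc
  unfold col at h
  by_cases hx : b.1 - a.1 = 0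
  · have hy : b.2 - a.2 ≠ 0 := by
      intro hy
      apply hab
      exact Prod.ext (by linarith) (by linarith)
    rw [hx, zero_mul] at h
    have h0 : c.1 - a.1 = 0 := by
      rcases mul_eq_zero.1 h.symm with h1 | h1
      · exact absurd h1 hy
      · exact h1
    refine ⟨(c.2 - a.2) / (b.2 - a.2), ?_⟩
    apply Prod.ext
    · simp only [vadd_eq_add, Prod.fst_add, Prod.smul_fst, Prod.fst_sub, smul_eq_mul]
      rw [hx]; linarith
    · simp only [vadd_eq_add, Prod.snd_add, Prod.smul_snd, Prod.snd_sub, smul_eq_mul]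
      field_simp
      ring
  · refine ⟨(c.1 - a.1) / (b.1 - a.1), ?_⟩
    apply Prod.ext
    · simp only [vadd_eq_add, Prod.fst_add, Prod.smul_fst, Prod.fst_sub, smul_eq_mul]
      field_simp
      ring
    · simp only [vadd_eq_add, Prod.snd_add, Prod.smul_snd, Prod.snd_sub, smul_eq_mul]
      field_simp
      linarith

open Pool.Agent.Helper64.Gow in
lemma col_of_collinear' {a b c : ℝ × ℝ} (h : Collinear ℝ ({a, b, c} : Set (ℝ × ℝ))) :
    col a b c := by
  rw [collinear_iff_of_mem (p₀ := a) (by simp)] at h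
  obtain ⟨v, hv⟩ := h
  obtain ⟨r, hr⟩ := hv b (by simp)
  obtain ⟨s, hs⟩ := hv c (by simp)
  unfold col
  have e1 : b.1 = r * v.1 + a.1 := by rw [hr]; simp
  have e2 : b.2 = r * v.2 + a.2 := by rw [hr]; simp
  have e3 : c.1 = s * v.1 + a.1 := by rw [hs]; simp
  have e4 : c.2 = s * v.2 + a.2 := by rw [hs]; simp
  rw [e1, e2, e3, e4]
  ring

open Finset in
open scoped Classical in
open Pool.Agent.Helper64.Gow in
/-- There is c>0 such that every finite planar point set of size n with at most √n points on any line contains at least c√n points with no three collinear. -/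
theorem result :
    ∃ c : ℝ, 0 < c ∧
      ∀ P : Finset (ℝ × ℝ),
        (∀ T ⊆ P, Collinear ℝ (T : Set (ℝ × ℝ)) → (T.card : ℝ) ≤ Real.sqrt (P.card : ℝ)) →
        ∃ S ⊆ P,
          (∀ T ⊆ S, T.card = 3 → ¬ Collinear ℝ (T : Set (ℝ × ℝ))) ∧
          c * Real.sqrt (P.card : ℝ) ≤ (S.card : ℝ) := by
  obtain ⟨N0, hN0⟩ := main_coord
  set c : ℝ := min (1 / 2 ^ 15) (1 / (N0 + 1 : ℝ)) with hc
  have hN1 : (0 : ℝ) < (N0 + 1 : ℝ) := by positivity
  have hc0 : 0 < c := lt_min (by norm_num) (by positivity)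
  refine ⟨c, hc0, ?_⟩
  intro P hP
  by_cases hbig : N0 ≤ P.card
  · obtain ⟨S, hS1, hS2, hS3⟩ := hN0 P hbig (by
      intro a ha b hb hab
      have h1 := hP (P.filter (fun c => col a b c)) (filter_subset _ _) (by
        apply collinear_of_col' hab
        · rw [mem_coe, mem_filter]
          refine ⟨ha, ?_⟩
          unfold col; ring
        · intro c hc
          exact (mem_filter.1 (mem_coe.1 hc)).2)
      have h2 : (((P.filter (fun c => col a b c)).card : ℝ)) ^ 2 ≤ (P.card : ℝ) := by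
        calc (((P.filter (fun c => col a b c)).card : ℝ)) ^ 2
            ≤ (Real.sqrt (P.card : ℝ)) ^ 2 := pow_le_pow_left₀ (Nat.cast_nonneg _) h1 2
          _ = (P.card : ℝ) := Real.sq_sqrt (Nat.cast_nonneg _)
      exact_mod_cast h2)
    refine ⟨S, hS1, ?_, ?_⟩
    · intro T hT hT3 hcol
      obtain ⟨x, y, z, hxy, hxz, hyz, rfl⟩ := card_eq_three.1 hT3
      refine hS2 x (hT (by simp)) y (hT (by simp)) z (hT (by simp)) hxy hxz hyz ?_
      apply col_of_collinear'
      simpa using hcol
    · have h1 : Real.sqrt (P.card : ℝ) ≤ 2 ^ 15 * (S.card : ℝ) := by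
        rw [← Real.sqrt_sq (by positivity : (0:ℝ) ≤ 2 ^ 15 * (S.card : ℝ))]
        exact Real.sqrt_le_sqrt hS3
      calc c * Real.sqrt (P.card : ℝ) ≤ (1 / 2 ^ 15) * Real.sqrt (P.card : ℝ) :=
            mul_le_mul_of_nonneg_right (min_le_left _ _) (Real.sqrt_nonneg _)
        _ ≤ (1 / 2 ^ 15) * (2 ^ 15 * (S.card : ℝ)) :=
            mul_le_mul_of_nonneg_left h1 (by norm_num)
        _ = (S.card : ℝ) := by ring
  · push Not at hbig
    rcases P.eq_empty_or_nonempty with h0 | ⟨p, hp⟩
    · refine ⟨∅, by simp, ?_, ?_⟩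
      · intro T hT hT3
        rw [subset_empty] at hT
        rw [hT] at hT3
        simp at hT3
      · rw [h0]; simp
    · refine ⟨{p}, by simpa using hp, ?_, ?_⟩
      · intro T hT hT3
        have := card_le_card hT
        rw [card_singleton] at this
        omega
      · rw [card_singleton]
        have h1 : Real.sqrt (P.card : ℝ) ≤ (N0 + 1 : ℝ) := by
          rw [Real.sqrt_le_left (by positivity)]
          have h2 : (P.card : ℝ) ≤ (N0 : ℝ) := by exact_mod_cast hbig.le
          nlinarith [Nat.cast_nonneg (α := ℝ) N0]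
        calc c * Real.sqrt (P.card : ℝ) ≤ (1 / (N0 + 1 : ℝ)) * Real.sqrt (P.card : ℝ) :=
              mul_le_mul_of_nonneg_right (min_le_right _ _) (Real.sqrt_nonneg _)
          _ ≤ (1 / (N0 + 1 : ℝ)) * (N0 + 1 : ℝ) :=
              mul_le_mul_of_nonneg_left h1 (by positivity)
          _ = 1 := by field_simp
          _ = ((1 : ℕ) : ℝ) := by norm_num

end Pool.Agent.S08183
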