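import Pool.Statements.S08191
import Pool.Agent.Results.MP_3a87f6_co.InfinitelyManyColors

set_option autoImplicit false
open Pool Pool.MP_3a87f6_co

namespace Pool.Agent.S08191

/-- For every N there is m > N and a finite nonempty set carrying m symmetric relations which, with the diagonal, partition all pairs, such that each R_i composed with itself is its complement and R_i composed with R_j (i ≠ j) is everything off the diagonal. -/
theorem result :
    ∀ N : ℕ, ∃ m : ℕ, N < m ∧ ∃ n : ℕ, 0 < n ∧
      ∃ R : Fin m → Fin n → Fin n → Prop,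
        (∀ i : Fin m, ∀ x : Fin n, ¬ R i x x) ∧
        (∀ x y : Fin n, x ≠ y → ∃! i : Fin m, R i x y) ∧
        (∀ i : Fin m, ∀ x y : Fin n, R i x y ↔ R i y x) ∧
        (∀ i : Fin m, ∀ x z : Fin n, (∃ y : Fin n, R i x y ∧ R i y z) ↔ ¬ R i x z) ∧
        (∀ i j : Fin m, i ≠ j → ∀ x z : Fin n,
          (∃ y : Fin n, R i x y ∧ R j y z) ↔ x ≠ z) := by
  intro N
  obtain ⟨m, ⟨_, V, hV, hne, R, hR⟩, hm⟩ :=
    Pool.Agent.Results.MP_3a87f6_co.InfinitelyManyColors.result.exists_gt N
  obtain ⟨n, ⟨e⟩⟩ := Finite.exists_equiv_fin V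
  refine ⟨m, hm, n, ?_, fun i x y => (e.symm x, e.symm y) ∈ R i, ?_, ?_, ?_, ?_, ?_⟩
  · rcases Nat.eq_zero_or_pos n with h | h
    · subst h
      obtain ⟨v⟩ := hne
      exact (e v).elim0
    · exact h
  · intro i x hx
    exact Set.disjoint_left.1 (hR.disjoint_id i) hx rfl
  · intro x y hxy
    have h1 : (e.symm x, e.symm y) ∈ Pool.Agent.Results.MP_3a87f6_co.InfinitelyManyColors.idRel V
        ∪ ⋃ i, R i := by
      rw [hR.cover]
      exact Set.mem_univ _
    rcases h1 with h1 | h1
    · exact absurd (e.symm.injective h1) hxy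
    · obtain ⟨i, hi⟩ := Set.mem_iUnion.1 h1
      refine ⟨i, hi, fun j hj => ?_⟩
      by_contra hji
      exact Set.disjoint_left.1 (hR.disjoint j i hji) hj hi
  · intro i x y
    have h1 := hR.symm i
    constructor
    · intro h
      have h2 : (e.symm x, e.symm y) ∈
          Pool.Agent.Results.MP_3a87f6_co.InfinitelyManyColors.converse (R i) := by
        rw [h1]
        exact h
      exact h2
    · intro h
      have h2 : (e.symm y, e.symm x) ∈
          Pool.Agent.Results.MP_3a87f6_co.InfinitelyManyColors.converse (R i) := by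
        rw [h1]
        exact h
      exact h2
  · intro i x z
    have h1 := Set.ext_iff.1 (hR.comp_self i) (e.symm x, e.symm z)
    rw [Set.mem_compl_iff] at h1
    rw [← h1]
    constructor
    · rintro ⟨y, hy⟩
      exact ⟨e.symm y, hy⟩
    · rintro ⟨y, hy⟩
      exact ⟨e y, by simpa using hy⟩
  · intro i j hij x z
    have h1 := Set.ext_iff.1 (hR.comp_ne i j hij) (e.symm x, e.symm z)
    have h2 : (e.symm x, e.symm z) ∈
        (Pool.Agent.Results.MP_3a87f6_co.InfinitelyManyColors.idRel V)ᶜ ↔ x ≠ z := by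
      rw [Set.mem_compl_iff]
      exact not_congr e.symm.injective.eq_iff
    rw [← h2, ← h1]
    constructor
    · rintro ⟨y, hy⟩
      exact ⟨e.symm y, hy⟩
    · rintro ⟨y, hy⟩
      exact ⟨e y, by simpa using hy⟩

end Pool.Agent.S08191
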