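import Pool.Statements.S08197
import Pool.Agent.W113.Transfer

set_option autoImplicit false
open Pool Pool.MP_3ac2b4_co

namespace Pool.Agent.S08197

/-- For every connected bipartite graph G on n+1 vertices, the average number of values taken by a uniformly random map to ℤ with f(vertex 0)=0 and ±1 steps along edges is at most the same average for the path on n+1 vertices. -/
theorem result :
    ∀ (n : ℕ) (G : SimpleGraph (Fin (n + 1))), G.Connected → G.Colorable 2 →
      (∑ᶠ (f : Fin (n + 1) → ℤ)
          (_ : f ∈ {f : Fin (n + 1) → ℤ | f 0 = 0 ∧ ∀ u v, G.Adj u v → |f u - f v| = 1}),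
          ((Finset.univ.image f).card : ℝ)) /
        ((Set.ncard {f : Fin (n + 1) → ℤ | f 0 = 0 ∧ ∀ u v, G.Adj u v → |f u - f v| = 1} : ℕ) : ℝ)
      ≤
      (∑ᶠ (f : Fin (n + 1) → ℤ)
          (_ : f ∈ {f : Fin (n + 1) → ℤ | f 0 = 0 ∧
                ∀ u v, (SimpleGraph.pathGraph (n + 1)).Adj u v → |f u - f v| = 1}),
          ((Finset.univ.image f).card : ℝ)) /
        ((Set.ncard {f : Fin (n + 1) → ℤ | f 0 = 0 ∧
                ∀ u v, (SimpleGraph.pathGraph (n + 1)).Adj u v → |f u - f v| = 1} : ℕ) : ℝ) := by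
  intro n G hG hC
  exact Pool.Agent.W113.Range.main n G hG hC

end Pool.Agent.S08197
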