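import Pool.Statements.S08250
import Pool.Agent.W188.P5.Graph

set_option autoImplicit false
open Pool Pool.MP_3d2668_co

namespace Pool.Agent.S08250

/-- The negation of the preceding statement: There is a finite nonempty graph that is 3-colourable, has no induced 5-vertex path, and has a proper 4-colouring in which every vertex has neighbours of all three colours other than its own. -/
theorem result :
    ¬ (∃ (V : Type) (_ : Fintype V) (_ : Nonempty V) (G : SimpleGraph V),
      G.Colorable 3 ∧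
      IsEmpty (SimpleGraph.pathGraph 5 ↪g G) ∧
      ∃ c : G.Coloring (Fin 4), ∀ v : V, ∀ i : Fin 4, i ≠ c v →
        ∃ w : V, G.Adj v w ∧ c w = i) := by
  classical
  rintro ⟨V, hV, hne, G, hcol, hp5, c, hfr⟩
  obtain ⟨T⟩ := hcol
  have hG := Pool.Agent.W188.P5.noP5_of_empty hp5
  have hcp : ∀ u v, G.Adj u v → c u ≠ c v := fun u v h => c.valid h
  have htp : ∀ u v, G.Adj u v → T u ≠ T v := fun u v h => T.valid h
  obtain ⟨y, i, hi, hmx⟩ := Pool.Agent.W188.P5.maxv hG (fun v => c v) hcp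
  -- the chosen neighbours
  have hch : ∀ (v : V) (j : Fin 4), ∃ w, j ≠ c v → (G.Adj v w ∧ c w = j ∧
      ∀ u u' x, c u = c v → c u' = c v → c x = j →
      G.Adj u w → G.Adj u x → G.Adj u' x → G.Adj u' w) := by
    intro v j
    by_cases hj : j = c v
    · exact ⟨v, fun h => absurd hj h⟩
    · obtain ⟨w, h1, h2, h3⟩ := Pool.Agent.W188.P5.top hG (fun v => c v) hcp v j (hfr v j hj)
      exact ⟨w, fun _ => ⟨h1, h2, h3⟩⟩
  choose nx hnx using hch
  -- name the colours
  have hperm : ∀ a b : Fin 4, b ≠ a → ∃ e : Fin 4 → Fin 4, Function.Injective e ∧ e 0 = a ∧ e 1 = b := by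
    decide +kernel
  obtain ⟨e, he, he0, he1⟩ := hperm (c y) i hi
  have hadj : ∀ k : Fin 4, k ≠ 0 → G.Adj y (nx y (e k)) := by
    intro k hk
    exact (hnx y (e k) (by rw [← he0]; exact fun h => hk (he h))).1
  -- name the `T`-colours
  have hperm3 : ∀ a b : Fin 3, a ≠ b → ∃ g : Fin 3 → Fin 3, Function.Injective g ∧ g a = 0 ∧ g b = 1 := by
    decide +kernel
  obtain ⟨g, hg, hg0, hg1⟩ := hperm3 (T y) (T (nx y (e 1))) (htp _ _ (hadj 1 (by decide)))
  have hH : ∀ e' : Fin 4 → Fin 4, Function.Injective e' → e' 0 = c y → e' 1 = i →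
      Pool.Agent.W188.P5.Hyp G (fun v => c v) (fun v => g (T v)) nx y e' := by
    intro e' h1 h2 h3
    refine ⟨hG, hcp, fun u v h h' => htp u v h (hg h'), h1, h2, fun v j hj => (hnx v j hj).1,
      fun v j hj => (hnx v j hj).2.1, fun v j hj => (hnx v j hj).2.2, ?_⟩
    rw [h3]
    exact hmx
  have hne0 : ∀ k : Fin 4, k ≠ 0 → g (T (nx y (e k))) ≠ 0 := by
    intro k hk h
    rw [← hg0] at h
    exact htp _ _ (hadj k hk) (hg h).symm
  have hcase : ∀ z : Fin 3, z ≠ 0 → z = 1 ∨ z = 2 := by decide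
  rcases hcase _ (hne0 2 (by decide)) with h2 | h2
  · exact (hH e he he0 he1).caseA hg0 (by simpa using hg1) h2
  rcases hcase _ (hne0 3 (by decide)) with h3 | h3
  · -- exchange the colours 2 and 3
    refine (hH (fun k => e (Equiv.swap 2 3 k)) (he.comp (Equiv.injective _)) ?_ ?_).caseA hg0 ?_ ?_
    · rw [← he0]; rfl
    · rw [← he1]; rfl
    · exact hg1
    · exact h3
  · exact (hH e he he0 he1).caseB hg0 hg1 h2 h3

end Pool.Agent.S08250
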