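import Pool.Statements.S08263
import Pool.Agent.H135R2.Rigid.Transfer

set_option autoImplicit false
open Pool Pool.MP_3dba9c_co

namespace Pool.Agent.S08263

open Pool.Agent.H135R2.Planar Pool.Agent.H135R2.Rigid

/-- Coordinates of a complex framework. -/
noncomputable def toPl {V : Type*} (p : V → ℂ) : V → Plane :=
  fun v => WithLp.toLp 2 ![(p v).re, (p v).im]

theorem dist_toPl {V : Type*} (p q : V → ℂ) (u v : V) :
    dist (toPl p u) (toPl q v) = dist (p u) (q v) := by
  rw [EuclideanSpace.dist_eq, Fin.sum_univ_two, Complex.dist_eq_re_im]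
  simp only [toPl, Real.dist_eq, sq_abs]
  rfl

/-- A planar framework as a complex framework. -/
noncomputable def toC {V : Type*} (p : V → Plane) : V → ℂ := fun v => ⟨p v 0, p v 1⟩

theorem toPl_toC {V : Type*} (p : V → Plane) : toPl (toC p) = p := by
  funext v
  ext i
  fin_cases i <;> simp [toPl, toC]

/-- The re-indexing of coordinates. -/
def idx (V : Type*) : V ⊕ V ≃ V × Fin 2 where
  toFun := Sum.elim (fun v => (v, 0)) (fun v => (v, 1))
  invFun := fun x => if x.2 = 0 then Sum.inl x.1 else Sum.inr x.1
  left_inv := by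
    rintro (v | v) <;> simp
  right_inv := by
    rintro ⟨v, i⟩
    fin_cases i <;> simp

theorem generic_toPl {V : Type*} (p : V → ℂ) :
    IsGeneric (toPl p) ↔
      AlgebraicIndependent ℚ
        (fun i : V ⊕ V => Sum.elim (fun v => (p v).re) (fun v => (p v).im) i) := by
  unfold IsGeneric
  rw [← algebraicIndependent_equiv (idx V)]
  have : (fun i : V × Fin 2 => toPl p i.1 i.2) ∘ (idx V) =
      (fun i : V ⊕ V => Sum.elim (fun v => (p v).re) (fun v => (p v).im) i) := by
    funext i
    rcases i with v | v <;> simp [idx, toPl]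
  rw [this]

/-- In the plane, if distinct x,y are globally linked in a finite graph G, then either xy is an edge or x,y lie in a vertex set W whose induced subgraph is rigid and stays rigid after deleting any one edge. -/
theorem result :
  ∀ (V : Type) [Fintype V] (G : SimpleGraph V) (x y : V), x ≠ y →
    (∀ p : V → ℂ,
        AlgebraicIndependent ℚ (fun i : V ⊕ V => Sum.elim (fun v => (p v).re) (fun v => (p v).im) i) →
        ∀ q : V → ℂ, (∀ u v : V, G.Adj u v → dist (q u) (q v) = dist (p u) (p v)) →
          dist (q x) (q y) = dist (p x) (p y)) →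
    G.Adj x y ∨
    ∃ W : Finset V, x ∈ W ∧ y ∈ W ∧
      (∀ p : V → ℂ,
        AlgebraicIndependent ℚ (fun i : V ⊕ V => Sum.elim (fun v => (p v).re) (fun v => (p v).im) i) →
        ∃ ε : ℝ, 0 < ε ∧ ∀ q : V → ℂ,
          (∀ u ∈ W, ∀ v ∈ W, G.Adj u v → dist (q u) (q v) = dist (p u) (p v)) →
          (∀ v ∈ W, dist (p v) (q v) < ε) →
          ∀ u ∈ W, ∀ v ∈ W, dist (q u) (q v) = dist (p u) (p v)) ∧
      (∀ a ∈ W, ∀ b ∈ W, G.Adj a b →
        ∀ p : V → ℂ,
          AlgebraicIndependent ℚ (fun i : V ⊕ V => Sum.elim (fun v => (p v).re) (fun v => (p v).im) i) →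
          ∃ ε : ℝ, 0 < ε ∧ ∀ q : V → ℂ,
            (∀ u ∈ W, ∀ v ∈ W, G.Adj u v → s(u, v) ≠ s(a, b) →
              dist (q u) (q v) = dist (p u) (p v)) →
            (∀ v ∈ W, dist (p v) (q v) < ε) →
            ∀ u ∈ W, ∀ v ∈ W, dist (q u) (q v) = dist (p u) (p v)) := by
  classical
  intro V _ G x y hxy h
  have hG : GloballyLinked G x y := by
    intro p hp q hq
    have h1 := h (toC p) (by
      rw [← generic_toPl, toPl_toC]; exact hp) (toC q) (by
      intro u v huv
      rw [← dist_toPl, ← dist_toPl, toPl_toC, toPl_toC]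
      exact hq u v huv)
    rw [← dist_toPl, ← dist_toPl, toPl_toC, toPl_toC] at h1
    exact h1
  obtain ⟨R, hR, hx, hy⟩ := Pool.Agent.H135R2.Rigid.main G hxy hG
  rcases hR with ⟨⟨-, hrig, hred⟩, -⟩ | ⟨u, v, huv, -, hR⟩
  · right
    -- restriction of a framework to the vertices of `R`
    have gen : ∀ p : V → ℂ,
        AlgebraicIndependent ℚ
          (fun i : V ⊕ V => Sum.elim (fun v => (p v).re) (fun v => (p v).im) i) →
        IsGeneric (toPl (fun w : R.verts => p w)) := by
      intro p hp
      rw [generic_toPl]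
      have h2 := hp.comp (fun i : R.verts ⊕ R.verts =>
        Sum.map (fun w : R.verts => (w : V)) (fun w : R.verts => (w : V)) i) (by
          exact Sum.map_injective.2 ⟨Subtype.val_injective, Subtype.val_injective⟩)
      convert h2 using 1
      funext i
      rcases i with v | v <;> simp
    refine ⟨R.verts.toFinset, by simpa using hx, by simpa using hy, ?_, ?_⟩
    · intro p hp
      obtain ⟨ε, hε, hε'⟩ := hrig _ (gen p hp)
      refine ⟨ε, hε, fun q hq hd u hu v hv => ?_⟩
      have hu' : u ∈ R.verts := by simpa using hu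
      have hv' : v ∈ R.verts := by simpa using hv
      have h3 := hε' (toPl (fun w : R.verts => q w)) (by
        intro a b hab
        rw [dist_toPl, dist_toPl]
        exact hq a (by simp) b (by simp) (R.adj_sub hab)) (by
        intro a
        rw [dist_toPl]
        exact hd a (by simp)) ⟨u, hu'⟩ ⟨v, hv'⟩
      rw [dist_toPl, dist_toPl] at h3
      exact h3
    · intro a ha b hb hab p hp
      have ha' : a ∈ R.verts := by simpa using ha
      have hb' : b ∈ R.verts := by simpa using hb
      by_cases hRab : R.Adj a b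
      · obtain ⟨ε, hε, hε'⟩ := hred s(⟨a, ha'⟩, ⟨b, hb'⟩) (by
          rw [SimpleGraph.mem_edgeSet]; exact hRab) _ (gen p hp)
        refine ⟨ε, hε, fun q hq hd u hu v hv => ?_⟩
        have hu' : u ∈ R.verts := by simpa using hu
        have hv' : v ∈ R.verts := by simpa using hv
        have h3 := hε' (toPl (fun w : R.verts => q w)) (by
          intro c d hcd
          rw [dist_toPl, dist_toPl]
          rw [SimpleGraph.deleteEdges_adj] at hcd
          refine hq c (by simp) d (by simp) (R.adj_sub hcd.1) ?_
          intro heq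
          apply hcd.2
          rw [Set.mem_singleton_iff]
          rw [Sym2.eq_iff] at heq ⊢
          rcases heq with ⟨h4, h5⟩ | ⟨h4, h5⟩
          · exact Or.inl ⟨Subtype.ext h4, Subtype.ext h5⟩
          · exact Or.inr ⟨Subtype.ext h4, Subtype.ext h5⟩) (by
          intro a
          rw [dist_toPl]
          exact hd a (by simp)) ⟨u, hu'⟩ ⟨v, hv'⟩
        rw [dist_toPl, dist_toPl] at h3
        exact h3
      · obtain ⟨ε, hε, hε'⟩ := hrig _ (gen p hp)
        refine ⟨ε, hε, fun q hq hd u hu v hv => ?_⟩
        have hu' : u ∈ R.verts := by simpa using hu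
        have hv' : v ∈ R.verts := by simpa using hv
        have h3 := hε' (toPl (fun w : R.verts => q w)) (by
          intro c d hcd
          rw [dist_toPl, dist_toPl]
          have hcd' : R.Adj c d := hcd
          refine hq c (by simp) d (by simp) (R.adj_sub hcd) ?_
          intro heq
          rw [Sym2.eq_iff] at heq
          rcases heq with ⟨h4, h5⟩ | ⟨h4, h5⟩
          · rw [h4, h5] at hcd'; exact hRab hcd'
          · rw [h4, h5] at hcd'; exact hRab hcd'.symm) (by
          intro a
          rw [dist_toPl]
          exact hd a (by simp)) ⟨u, hu'⟩ ⟨v, hv'⟩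
        rw [dist_toPl, dist_toPl] at h3
        exact h3
  · left
    rw [hR] at hx hy
    simp only [SimpleGraph.subgraphOfAdj_verts, Set.mem_insert_iff, Set.mem_singleton_iff] at hx hy
    rcases hx with rfl | rfl <;> rcases hy with rfl | rfl
    · exact absurd rfl hxy
    · exact huv
    · exact huv.symm
    · exact absurd rfl hxy

end Pool.Agent.S08263
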