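import Pool.Statements.S08268
-- import your own Pool.Agent.* helpers here

set_option autoImplicit false
open Pool Pool.MP_3df3be_co

namespace Pool.Agent.S08268

lemma rowIff {n : ℕ} {L : Fin n → Fin n → Fin n} (hrow : ∀ i, Function.Injective (L i))
    {R C S : Finset (Fin n)} (hCS : C.card = S.card) (hA : ∀ r ∈ R, ∀ c ∈ C, L r c ∈ S)
    {r : Fin n} (hr : r ∈ R) (c : Fin n) : L r c ∈ S ↔ c ∈ C := by
  constructor
  · intro h
    have h1 : C.image (L r) = S := by
      apply Finset.eq_of_subset_of_card_le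
      · intro x hx
        obtain ⟨c', hc', rfl⟩ := Finset.mem_image.1 hx
        exact hA r hr c' hc'
      · rw [Finset.card_image_of_injective _ (hrow r), hCS]
    rw [← h1] at h
    obtain ⟨c', hc', h2⟩ := Finset.mem_image.1 h
    rwa [← hrow r h2]
  · exact fun h => hA r hr c h

lemma contained {L : Fin 8 → Fin 8 → Fin 8} (hrow : ∀ i, Function.Injective (L i))
    (hcol : ∀ j, Function.Injective (fun i => L i j))
    {R C S R' C' S' : Finset (Fin 8)} (hR : R.card = 4) (hS : S.card = 4)
    (hR' : R'.card = 3) (hC' : C'.card = 3) (hS' : S'.card = 3)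
    (hA : ∀ r ∈ R, ∀ c ∈ C, L r c ∈ S) (hT : ∀ r ∈ R', ∀ c ∈ C', L r c ∈ S')
    (h1 : R' ⊆ R) (h2 : C' ⊆ C) : False := by
  obtain ⟨r, hr, hr'⟩ : ∃ r ∈ R, r ∉ R' := by
    by_contra hcon
    push Not at hcon
    have := Finset.card_le_card (show R ⊆ R' from hcon)
    omega
  obtain ⟨r0, hr0⟩ : R'.Nonempty := Finset.card_pos.1 (by omega)
  have hSS : S' ⊆ S := by
    have h3 : C'.image (L r0) = S' := by
      apply Finset.eq_of_subset_of_card_le
      · intro x hx
        obtain ⟨c', hc', rfl⟩ := Finset.mem_image.1 hx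
        exact hT r0 hr0 c' hc'
      · rw [Finset.card_image_of_injective _ (hrow r0)]; omega
    rw [← h3]
    intro x hx
    obtain ⟨c', hc', rfl⟩ := Finset.mem_image.1 hx
    exact hA r0 (h1 hr0) c' (h2 hc')
  have h4 : C'.image (L r) ⊆ S \ S' := by
    intro x hx
    obtain ⟨c', hc', rfl⟩ := Finset.mem_image.1 hx
    rw [Finset.mem_sdiff]
    refine ⟨hA r hr c' (h2 hc'), fun h5 => hr' ?_⟩
    exact (rowIff (L := fun j i => L i j) hcol (R := C') (C := R') (S := S') (by omega)
      (fun c hc r hr => hT r hr c hc) hc' r).1 h5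
  have h5 := Finset.card_le_card h4
  rw [Finset.card_image_of_injective _ (hrow r), Finset.card_sdiff_of_subset hSS] at h5
  omega

/-- outside the rows of a subsquare of order four -/
lemma compl_row {L : Fin 8 → Fin 8 → Fin 8} (hrow : ∀ i, Function.Injective (L i))
    (hcol : ∀ j, Function.Injective (fun i => L i j))
    {R C S : Finset (Fin 8)} (hR : R.card = 4) (hC : C.card = 4) (hS : S.card = 4)
    (hA : ∀ r ∈ R, ∀ c ∈ C, L r c ∈ S) {r : Fin 8} (hr : r ∉ R) (c : Fin 8) : L r c ∈ S ↔ c ∉ C := by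
  have hc : ∀ c ∈ C, L r c ∉ S := fun c hc h => hr
    ((rowIff (L := fun j i => L i j) hcol (R := C) (C := R) (S := S) (by omega)
      (fun c hc r hr => hA r hr c hc) hc r).1 h)
  constructor
  · intro h h'
    exact hc c h' h
  · intro h
    by_contra hcon
    apply h
    have h1 : C.image (L r) = Sᶜ := by
      apply Finset.eq_of_subset_of_card_le
      · intro x hx
        obtain ⟨c', hc', rfl⟩ := Finset.mem_image.1 hx
        exact Finset.mem_compl.2 (hc c' hc')
      · rw [Finset.card_image_of_injective _ (hrow r), Finset.card_compl, Fintype.card_fin]; omega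
    have h2 : L r c ∈ C.image (L r) := by rw [h1]; exact Finset.mem_compl.2 hcon
    obtain ⟨c', hc', h3⟩ := Finset.mem_image.1 h2
    rwa [← hrow r h3]

/-- all the rows of a subsquare of order three are on the same side -/
lemma same_side {L : Fin 8 → Fin 8 → Fin 8} (hrow : ∀ i, Function.Injective (L i))
    (hcol : ∀ j, Function.Injective (fun i => L i j))
    {R C S R' C' S' : Finset (Fin 8)} (hR : R.card = 4) (hC : C.card = 4) (hS : S.card = 4)
    (hC' : C'.card = 3) (hS' : S'.card = 3)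
    (hA : ∀ r ∈ R, ∀ c ∈ C, L r c ∈ S) (hT : ∀ r ∈ R', ∀ c ∈ C', L r c ∈ S') :
    R' ⊆ R ∨ R' ⊆ Rᶜ := by
  by_contra hcon
  rw [not_or, Finset.not_subset, Finset.not_subset] at hcon
  obtain ⟨⟨r1, hr1, hr1'⟩, r2, hr2, hr2'⟩ := hcon
  rw [Finset.mem_compl, not_not] at hr2'
  have e2 : (C' ∩ C).image (L r2) = S' ∩ S := by
    ext x
    rw [Finset.mem_image, Finset.mem_inter]
    constructor
    · rintro ⟨c, hc, rfl⟩
      rw [Finset.mem_inter] at hc
      exact ⟨hT r2 hr2 c hc.1, hA r2 hr2' c hc.2⟩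
    · rintro ⟨h1, h2⟩
      obtain ⟨c, rfl⟩ := (Finite.injective_iff_surjective.1 (hrow r2)) x
      exact ⟨c, Finset.mem_inter.2 ⟨(rowIff hrow (by omega) hT hr2 c).1 h1,
        (rowIff hrow (by omega) hA hr2' c).1 h2⟩, rfl⟩
  have e1 : (C' \ C).image (L r1) = S' ∩ S := by
    ext x
    rw [Finset.mem_image, Finset.mem_inter]
    constructor
    · rintro ⟨c, hc, rfl⟩
      rw [Finset.mem_sdiff] at hc
      exact ⟨hT r1 hr1 c hc.1, (compl_row hrow hcol hR hC hS hA hr1' c).2 hc.2⟩
    · rintro ⟨h1, h2⟩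
      obtain ⟨c, rfl⟩ := (Finite.injective_iff_surjective.1 (hrow r1)) x
      exact ⟨c, Finset.mem_sdiff.2 ⟨(rowIff hrow (by omega) hT hr1 c).1 h1,
        (compl_row hrow hcol hR hC hS hA hr1' c).1 h2⟩, rfl⟩
  have f1 := congrArg Finset.card e1
  have f2 := congrArg Finset.card e2
  rw [Finset.card_image_of_injective _ (hrow r1)] at f1
  rw [Finset.card_image_of_injective _ (hrow r2)] at f2
  have f3 := Finset.card_sdiff_add_card_inter C' C
  omega

/-- The negation of the preceding statement: For every n there is a latin square of order n such that, for each m with 1 ≤ m and 2m ≤ n, some m rows and m columns meet in an m×m subarray using only m symbols, i.e. a latin subsquare of order m. -/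
theorem result :
    ¬ (∀ n : ℕ, ∃ L : Fin n → Fin n → Fin n,
      (∀ i : Fin n, Function.Bijective (L i)) ∧
      (∀ j : Fin n, Function.Bijective (fun i : Fin n => L i j)) ∧
      ∀ m : ℕ, 1 ≤ m → 2 * m ≤ n →
        ∃ R C S : Finset (Fin n),
          R.card = m ∧ C.card = m ∧ S.card = m ∧
          ∀ r ∈ R, ∀ c ∈ C, L r c ∈ S) := by
  intro H
  obtain ⟨L, hrow', hcol', h⟩ := H 8
  have hrow : ∀ i, Function.Injective (L i) := fun i => (hrow' i).1
  have hcol : ∀ j, Function.Injective (fun i => L i j) := fun j => (hcol' j).1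
  obtain ⟨R, C, S, hR, hC, hS, hA⟩ := h 4 (by norm_num) (by norm_num)
  obtain ⟨R', C', S', hR', hC', hS', hT⟩ := h 3 (by norm_num) (by norm_num)
  have hA' : ∀ c ∈ C, ∀ r ∈ R, (fun j i => L i j) c r ∈ S := fun c hc r hr => hA r hr c hc
  have hT' : ∀ c ∈ C', ∀ r ∈ R', (fun j i => L i j) c r ∈ S' := fun c hc r hr => hT r hr c hc
  have s1 := same_side hrow hcol hR hC hS hC' hS' hA hT
  have s2 := same_side (L := fun j i => L i j) hcol hrow hC hR hS hR' hS' hA' hT'
  have cc : ∀ X : Finset (Fin 8), X.card = 4 → Xᶜ.card = 4 := by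
    intro X hX
    rw [Finset.card_compl, Fintype.card_fin, hX]
  have k := fun {r : Fin 8} (hr : r ∉ R) (c : Fin 8) => compl_row hrow hcol hR hC hS hA hr c
  rcases s1 with s1 | s1 <;> rcases s2 with s2 | s2
  · exact contained hrow hcol hR hS hR' hC' hS' hA hT s1 s2
  · refine contained (S := Sᶜ) hrow hcol hR (cc S hS) hR' hC' hS' ?_ hT s1 s2
    intro r hr c hc
    rw [Finset.mem_compl] at hc ⊢
    exact fun h1 => hc ((rowIff hrow (by omega) hA hr c).1 h1)
  · refine contained (S := Sᶜ) hrow hcol (cc R hR) (cc S hS) hR' hC' hS' ?_ hT s1 s2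
    intro r hr c hc
    rw [Finset.mem_compl] at hr ⊢
    exact fun h1 => ((k hr c).1 h1) hc
  · refine contained (S := S) hrow hcol (cc R hR) hS hR' hC' hS' ?_ hT s1 s2
    intro r hr c hc
    rw [Finset.mem_compl] at hr hc
    exact (k hr c).2 hc

end Pool.Agent.S08268
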