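import Pool.Statements.S08319
import Pool.Agent.W113.LTransfer

set_option autoImplicit false
open Pool Pool.MP_3fdd8e_co

namespace Pool.Agent.S08319

/-- For every connected graph on n+1 vertices, the average number of distinct values of an integer map with f(0)=0 that changes by at most 1 along each edge is at most the same average for the path on n+1 vertices. -/
theorem result :
    ∀ (n : ℕ) (G : SimpleGraph (Fin (n + 1))), G.Connected →
      (∑ᶠ (f : Fin (n + 1) → ℤ) (_ : f 0 = 0 ∧ ∀ u v, G.Adj u v → |f u - f v| ≤ 1),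
          ((Set.range f).ncard : ℝ)) /
        (({f : Fin (n + 1) → ℤ | f 0 = 0 ∧ ∀ u v, G.Adj u v → |f u - f v| ≤ 1}.ncard : ℕ) : ℝ)
      ≤
      (∑ᶠ (f : Fin (n + 1) → ℤ)
          (_ : f 0 = 0 ∧ ∀ u v, (SimpleGraph.pathGraph (n + 1)).Adj u v → |f u - f v| ≤ 1),
          ((Set.range f).ncard : ℝ)) /
        (({f : Fin (n + 1) → ℤ |
            f 0 = 0 ∧ ∀ u v, (SimpleGraph.pathGraph (n + 1)).Adj u v → |f u - f v| ≤ 1}.ncard : ℕ) : ℝ) := by
  intro n G hG
  exact Pool.Agent.W113.Lazy.main n G hG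

end Pool.Agent.S08319
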