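import Pool.Statements.S08339
import Pool.Agent.Results.MP_45c1aa_co.AlphaFourNinths

set_option autoImplicit false
open Pool Pool.MP_40ab69_co

namespace Pool.Agent.S08339

/-- For every finite set S of triangular-lattice points whose induced unit-distance graph has no triangle, S contains an independent set I with ∣S∣ ≤ (9/4)∣I∣. -/
theorem result :
    ∀ T : SimpleGraph (ℤ × ℤ),
      (∀ p q : ℤ × ℤ, T.Adj p q ↔
        (q.1 - p.1, q.2 - p.2) ∈
          ({(1, 0), (-1, 0), (0, 1), (0, -1), (1, -1), (-1, 1)} : Finset (ℤ × ℤ))) →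
      ∀ S : Finset (ℤ × ℤ),
        (∀ p ∈ S, ∀ q ∈ S, ∀ r ∈ S, ¬ (T.Adj p q ∧ T.Adj q r ∧ T.Adj p r)) →
        ∃ I : Finset (ℤ × ℤ), I ⊆ S ∧ (∀ p ∈ I, ∀ q ∈ I, ¬ T.Adj p q) ∧
          4 * S.card ≤ 9 * I.card := by
  intro G hG0 S hS0
  have hG : ∀ p q : ℤ × ℤ, G.Adj p q ↔
          (q - p = (1, 0) ∨ q - p = (-1, 0) ∨ q - p = (0, 1) ∨
           q - p = (0, -1) ∨ q - p = (1, -1) ∨ q - p = (-1, 1)) := by
    intro p q
    rw [hG0]
    simp only [Finset.mem_insert, Finset.mem_singleton]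
    rfl
  have hS : ∀ x ∈ S, ∀ y ∈ S, ∀ z ∈ S, ¬ (G.Adj x y ∧ G.Adj y z ∧ G.Adj x z) := hS0
  have hadj : ∀ p q : ℤ × ℤ, G.Adj p q ↔ Pool.Agent.H171R2.Tri.triLattice.Adj p q := by
    intro p q
    rw [hG, Pool.Agent.H171R2.Tri.triLattice_adj]
    constructor
    · rintro (h | h | h | h | h | h)
      · exact ⟨0, by rw [← sub_eq_iff_eq_add', h]; decide⟩
      · exact ⟨3, by rw [← sub_eq_iff_eq_add', h]; decide⟩
      · exact ⟨1, by rw [← sub_eq_iff_eq_add', h]; decide⟩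
      · exact ⟨4, by rw [← sub_eq_iff_eq_add', h]; decide⟩
      · exact ⟨5, by rw [← sub_eq_iff_eq_add', h]; decide⟩
      · exact ⟨2, by rw [← sub_eq_iff_eq_add', h]; decide⟩
    · rintro ⟨k, hk⟩
      have h1 : q - p = Pool.Agent.H171R2.Tri.e k := by rw [hk]; abel
      rw [h1]
      revert k
      intro k _ _
      fin_cases k <;> decide
  obtain ⟨I, hI, h1, h2⟩ := Pool.Agent.Results.MP_45c1aa_co.AlphaFourNinths.result S (by
    intro t ht
    rw [SimpleGraph.is3Clique_iff] at ht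
    obtain ⟨a, b, c, hab, hac, hbc, _⟩ := ht
    exact hS a.1 a.2 b.1 b.2 c.1 c.2 ⟨(hadj _ _).2 hab, (hadj _ _).2 hbc, (hadj _ _).2 hac⟩)
  refine ⟨I, hI, ?_, h2⟩
  intro x hx y hy hxy
  have h3 := (hadj _ _).1 hxy
  exact h1 hx hy h3.ne h3

end Pool.Agent.S08339
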