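import Pool.Statements.S08345
import Pool.Agent.W260.Theta.I2e
import Pool.Agent.W930.Theta.G
import Pool.Agent.W101.Theta.P
import Pool.Agent.W101.Theta.E
import Pool.Agent.W181.Theta.PartT

set_option autoImplicit false
open Classical
open Pool Pool.MP_41216f_co

namespace Pool.Agent.S08345

open Pool.Agent.W260.Theta

lemma Phi_one_blocks {n : ℕ} (hn : 1 ≤ n) (I : Composition n) :
    Phi I.blocks 1 = ((I.blocks.headD 1 : ℕ) : ℤ) - 1 := by
  cases hI : I.blocks with
  | nil =>
    have := I.blocks_sum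
    rw [hI] at this
    simp at this
    omega
  | cons h t =>
    have hpos : 0 < h := I.blocks_pos (by rw [hI]; simp)
    rw [Phi_cons, phi_one_right hpos, show 1 - h = 0 by omega, Phi_zero]
    simp

/-- the theta sum over compositions -/
lemma theta_expansion (N a b c n : ℕ) (ha : 1 ≤ a) (hb : 1 ≤ b) (hc : 1 ≤ c)
    (hn : n + 1 = a + b + c) :
    theta (fun i : Fin N => (MvPolynomial.X i : MvPolynomial (Fin N) ℤ)) (a - 1) (b - 1) (c - 1) =
      ∑ I : Composition n, ((wt I.blocks * cc I.blocks a b c : ℤ) : MvPolynomial (Fin N) ℤ) *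
        (I.blocks.map (fun k => MvPolynomial.esymm (Fin N) ℤ k)).prod := by
  obtain ⟨hT1, hT2⟩ := Pool.Agent.W181.Theta.part_T (Fin N) (MvPolynomial (Fin N) ℤ)
    (fun i : Fin N => (MvPolynomial.X i : MvPolynomial (Fin N) ℤ))
  have hE := Pool.Agent.W101.Theta.part_E (MvPolynomial (Fin N) ℤ)
    (fun k => MvPolynomial.esymm (Fin N) ℤ k)
    (PP (fun i : Fin N => (MvPolynomial.X i : MvPolynomial (Fin N) ℤ)))
    (CC (fun i : Fin N => (MvPolynomial.X i : MvPolynomial (Fin N) ℤ))) rfl
    (fun m => Pool.Agent.W101.Theta.part_P N m) hT1 n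
  rw [hT2 a b c n ha hb hc hn, hE a (by omega), hE b (by omega), hE c (by omega), hE n le_rfl]
  have h1 := hE 1 (by omega)
  simp only [Finset.sum_range_one, zero_add, Nat.sub_zero, Nat.cast_zero, zero_mul, sub_zero] at h1
  have h2 : CC (fun i : Fin N => (MvPolynomial.X i : MvPolynomial (Fin N) ℤ)) (n - 1) =
      ∑ I : Composition n, ((wt I.blocks * Phi I.blocks 1 : ℤ) : MvPolynomial (Fin N) ℤ) *
        (I.blocks.map (fun k => MvPolynomial.esymm (Fin N) ℤ k)).prod := by
    rw [← h1]
    simp [PP]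
  rw [h2, ← Finset.sum_add_distrib, ← Finset.sum_add_distrib, ← Finset.sum_sub_distrib,
    ← Finset.sum_sub_distrib]
  apply Finset.sum_congr rfl
  intro I _
  unfold cc
  rw [Phi_one_blocks (by omega) I, I.blocks_sum]
  push_cast
  ring

/-- sum over the compositions with given parts -/
lemma sum_comp_eq (n : ℕ) (mu : Nat.Partition n) (F : List ℕ → ℤ) :
    ∑ I ∈ Finset.univ.filter (fun I : Composition n => Nat.Partition.ofComposition n I = mu),
      F I.blocks = ∑ L ∈ (Multiset.lists mu.parts).toFinset, F L := by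
  refine Finset.sum_bij (fun I _ => I.blocks) ?_ ?_ ?_ ?_
  · intro I hI
    rw [Finset.mem_filter] at hI
    rw [← hI.2]
    change I.blocks ∈ ar _
    rw [mem_ar]
    rfl
  · intro I _ J _ h
    exact Composition.ext h
  · intro L hL
    have hL' : (L : Multiset ℕ) = mu.parts := mem_ar.1 hL
    refine ⟨⟨L, ?_, ?_⟩, ?_, rfl⟩
    · intro i hi
      apply mu.parts_pos
      rw [← hL']
      exact hi
    · rw [← Multiset.sum_coe, hL', mu.parts_sum]
    · rw [Finset.mem_filter]
      refine ⟨Finset.mem_univ _, ?_⟩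
      apply Nat.Partition.ext
      exact hL'
  · intro I _
    rfl

/-- For a ≥ b ≥ c ≥ 1, any graph made of three internally disjoint paths of lengths a, b, c between two vertices has a chromatic symmetric function that is a nonnegative integer combination of elementary symmetric functions. -/
theorem result :
  ∀ (a b c : ℕ), 1 ≤ c → c ≤ b → b ≤ a →
  ∀ (V : Type) [Fintype V] (G : SimpleGraph V) (u v : V) (p q r : G.Walk u v),
    u ≠ v → p.IsPath → q.IsPath → r.IsPath →
    p.length = a → q.length = b → r.length = c →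
    (∀ x, x ∈ p.support → x ∈ q.support → x = u ∨ x = v) →
    (∀ x, x ∈ p.support → x ∈ r.support → x = u ∨ x = v) →
    (∀ x, x ∈ q.support → x ∈ r.support → x = u ∨ x = v) →
    (∀ x, x ∈ p.support ∨ x ∈ q.support ∨ x ∈ r.support) →
    (∀ x y, G.Adj x y → s(x, y) ∈ p.edges ∨ s(x, y) ∈ q.edges ∨ s(x, y) ∈ r.edges) →
    ∃ coef : Nat.Partition (Fintype.card V) → ℕ,
      (∑ κ ∈ Finset.univ.filter
          (fun κ : V → Fin (Fintype.card V) => ∀ x y, G.Adj x y → κ x ≠ κ y),
        ∏ x, (MvPolynomial.X (κ x) : MvPolynomial (Fin (Fintype.card V)) ℤ))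
      = ∑ μ : Nat.Partition (Fintype.card V),
          (coef μ : MvPolynomial (Fin (Fintype.card V)) ℤ) *
            (μ.parts.map (fun i => MvPolynomial.esymm (Fin (Fintype.card V)) ℤ i)).prod := by
  intro a b c hc hcb hba V _ G u v p q r huv hp hq hr hpa hqb hrc h1 h2 h3 hcov hedge
  set n := Fintype.card V with hn
  obtain ⟨hsum, hcard⟩ := Pool.Agent.W930.Theta.part_G V (Fin n) (MvPolynomial (Fin n) ℤ)
    (fun i : Fin n => (MvPolynomial.X i : MvPolynomial (Fin n) ℤ)) G u v p q r huv hp hq hr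
    h1 h2 h3 hcov hedge
    (Finset.univ.filter (fun κ : V → Fin n => ∀ x y, G.Adj x y → κ x ≠ κ y))
    (fun κ => by simp)
  rw [← hn, hpa, hqb, hrc] at hcard
  rw [hpa, hqb, hrc, theta_expansion n a b c n (by omega) (by omega) hc hcard] at hsum
  refine ⟨fun μ => (∑ L ∈ (Multiset.lists μ.parts).toFinset, wt L * cc L a b c).toNat, ?_⟩
  rw [hsum]
  have hnonneg : ∀ μ : Nat.Partition n,
      0 ≤ ∑ L ∈ (Multiset.lists μ.parts).toFinset, wt L * cc L a b c := by
    intro μ
    refine part_I μ.parts a b c (fun y hy => μ.parts_pos hy) (by omega) (by omega) hc ?_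
    rw [μ.parts_sum]
    exact hcard
  rw [← Finset.sum_fiberwise Finset.univ (fun I : Composition n => Nat.Partition.ofComposition n I)]
  apply Finset.sum_congr rfl
  intro μ _
  have e1 : (((∑ L ∈ (Multiset.lists μ.parts).toFinset, wt L * cc L a b c).toNat : ℕ) :
      MvPolynomial (Fin n) ℤ) =
      ((∑ L ∈ (Multiset.lists μ.parts).toFinset, wt L * cc L a b c : ℤ) :
        MvPolynomial (Fin n) ℤ) := by
    rw [← Int.cast_natCast (R := MvPolynomial (Fin n) ℤ), Int.toNat_of_nonneg (hnonneg μ)]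
  rw [e1, ← sum_comp_eq n μ (fun L => wt L * cc L a b c), Int.cast_sum, Finset.sum_mul]
  apply Finset.sum_congr rfl
  intro I hI
  rw [Finset.mem_filter] at hI
  congr 1
  rw [← hI.2]
  change _ = (((I.blocks : List ℕ) : Multiset ℕ).map _).prod
  rw [Multiset.map_coe, Multiset.prod_coe]

end Pool.Agent.S08345
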