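import Pool.Statements.S08416
import Pool.Agent.W13.Pav.Fin

set_option autoImplicit false
open Pool Pool.MP_437270_co

namespace Pool.Agent.S08416

/-- The negation of the preceding statement: For every n, the number of isomorphism classes of simple matroids on n elements that are paving (each circuit at least as large as the rank) is more than half of the number of all isomorphism classes of simple matroids on n elements. -/
theorem result :
    ¬ (∀ n : ℕ,
      2 * {c : Set (Matroid (Fin n)) |
            ∃ M : Matroid (Fin n), M.E = Set.univ ∧
              (∀ C : Set (Fin n), M.IsCircuit C → 3 ≤ C.ncard) ∧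
              (∀ C B : Set (Fin n), M.IsCircuit C → M.IsBase B → B.ncard ≤ C.ncard) ∧
              c = {N : Matroid (Fin n) | N.E = Set.univ ∧
                    ∃ σ : Equiv.Perm (Fin n), ∀ I : Set (Fin n), N.Indep I ↔ M.Indep (σ '' I)}}.ncard
        > {c : Set (Matroid (Fin n)) |
            ∃ M : Matroid (Fin n), M.E = Set.univ ∧
              (∀ C : Set (Fin n), M.IsCircuit C → 3 ≤ C.ncard) ∧
              c = {N : Matroid (Fin n) | N.E = Set.univ ∧
                    ∃ σ : Equiv.Perm (Fin n), ∀ I : Set (Fin n), N.Indep I ↔ M.Indep (σ '' I)}}.ncard) := by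
  intro h
  have h7 := h 7
  have hm := Pool.Agent.W13.Pav.main
  unfold Pool.Agent.W13.Pav.PP Pool.Agent.W13.Pav.SS Pool.Agent.W13.Pav.cls at hm
  exact absurd h7 (not_lt.2 hm)

end Pool.Agent.S08416
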