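import Pool.Statements.S08439
import Pool.Agent.W227.FL.Final
import Pool.Agent.W45.FL.MeasMain

set_option autoImplicit false
open Filter Topology
open Pool Pool.MP_44611a_co

namespace Pool.Agent.S08439

/-- Every FO-convergent sequence of finite nonempty linear orders with a unary color predicate has a modeling limit: a standard Borel probability structure, all definable sets measurable, whose measures of φ-sets are the limits of φ-tuple densities. -/
theorem result :
  ∀ (L : FirstOrder.Language.{0, 0}) (lt : L.Relations 2) (col : L.Relations 1),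
    (∀ n, IsEmpty (L.Functions n)) →
    (∀ r : L.Relations 2, r = lt) →
    (∀ r : L.Relations 1, r = col) →
    (∀ n, n ≠ 1 → n ≠ 2 → IsEmpty (L.Relations n)) →
    ∀ (A : ℕ → Type) [∀ n, Finite (A n)] [∀ n, Nonempty (A n)] [∀ n, L.Structure (A n)],
      (∀ n (x : A n), ¬ FirstOrder.Language.Structure.RelMap lt ![x, x]) →
      (∀ n (x y z : A n), FirstOrder.Language.Structure.RelMap lt ![x, y] →
          FirstOrder.Language.Structure.RelMap lt ![y, z] →
          FirstOrder.Language.Structure.RelMap lt ![x, z]) →
      (∀ n (x y : A n), x ≠ y → FirstOrder.Language.Structure.RelMap lt ![x, y] ∨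
          FirstOrder.Language.Structure.RelMap lt ![y, x]) →
      (∀ (p : ℕ) (φ : L.Formula (Fin p)), ∃ ℓ : ℝ,
          Tendsto (fun n : ℕ => (Nat.card {v : Fin p → A n // φ.Realize v} : ℝ) /
            (Nat.card (A n) : ℝ) ^ p) atTop (𝓝 ℓ)) →
      ∃ (M : Type) (_ : MeasurableSpace M) (_ : StandardBorelSpace M) (_ : L.Structure M)
        (μ : MeasureTheory.Measure M) (_ : MeasureTheory.IsProbabilityMeasure μ),
        (∀ (p : ℕ) (φ : L.Formula (Fin p)), MeasurableSet {v : Fin p → M | φ.Realize v}) ∧
        ∀ (p : ℕ) (φ : L.Formula (Fin p)),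
          Tendsto (fun n : ℕ => (Nat.card {v : Fin p → A n // φ.Realize v} : ℝ) /
            (Nat.card (A n) : ℝ) ^ p) atTop
            (𝓝 ((MeasureTheory.Measure.pi (fun _ : Fin p => μ)) {v : Fin p → M | φ.Realize v}).toReal) := by
  exact Pool.Agent.W227.FL.final (fun hU hm hmt c => Pool.Agent.W45.FL.meas_main hU hm hmt c)

end Pool.Agent.S08439
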