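import Pool.Statements.S08465
import Pool.Agent.Results.MP_45c1aa_co.AlphaFourNinths

set_option autoImplicit false
open Pool Pool.MP_45c1aa_co

namespace Pool.Agent.S08465

/-- In the triangular lattice on ℤ×ℤ, every finite vertex set inducing no triangle contains a pairwise non-adjacent subset of at least 4/9 of its size. -/
theorem result :
    ∀ G : SimpleGraph (ℤ × ℤ),
      (∀ p q : ℤ × ℤ, G.Adj p q ↔
        (q - p = (1, 0) ∨ q - p = (-1, 0) ∨ q - p = (0, 1) ∨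
         q - p = (0, -1) ∨ q - p = (1, -1) ∨ q - p = (-1, 1))) →
      ∀ S : Finset (ℤ × ℤ),
        (∀ x ∈ S, ∀ y ∈ S, ∀ z ∈ S, ¬ (G.Adj x y ∧ G.Adj y z ∧ G.Adj x z)) →
        ∃ I ⊆ S, (∀ x ∈ I, ∀ y ∈ I, ¬ G.Adj x y) ∧ 4 * S.card ≤ 9 * I.card := by
  intro G hG S hS
  have hadj : ∀ p q : ℤ × ℤ, G.Adj p q ↔ Pool.Agent.H171R2.Tri.triLattice.Adj p q := by
    intro p q
    rw [hG, Pool.Agent.H171R2.Tri.triLattice_adj]
    constructor
    · rintro (h | h | h | h | h | h)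
      · exact ⟨0, by rw [← sub_eq_iff_eq_add', h]; decide⟩
      · exact ⟨3, by rw [← sub_eq_iff_eq_add', h]; decide⟩
      · exact ⟨1, by rw [← sub_eq_iff_eq_add', h]; decide⟩
      · exact ⟨4, by rw [← sub_eq_iff_eq_add', h]; decide⟩
      · exact ⟨5, by rw [← sub_eq_iff_eq_add', h]; decide⟩
      · exact ⟨2, by rw [← sub_eq_iff_eq_add', h]; decide⟩
    · rintro ⟨k, hk⟩
      have h1 : q - p = Pool.Agent.H171R2.Tri.e k := by rw [hk]; abel
      rw [h1]
      revert k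
      intro k _ _
      fin_cases k <;> decide
  obtain ⟨I, hI, h1, h2⟩ := Pool.Agent.Results.MP_45c1aa_co.AlphaFourNinths.result S (by
    intro t ht
    rw [SimpleGraph.is3Clique_iff] at ht
    obtain ⟨a, b, c, hab, hac, hbc, _⟩ := ht
    exact hS a.1 a.2 b.1 b.2 c.1 c.2 ⟨(hadj _ _).2 hab, (hadj _ _).2 hbc, (hadj _ _).2 hac⟩)
  refine ⟨I, hI, ?_, h2⟩
  intro x hx y hy hxy
  have h3 := (hadj _ _).1 hxy
  exact h1 hx hy h3.ne h3

end Pool.Agent.S08465
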