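import Pool.Statements.S08467
import Pool.Agent.Results.MP_45c2e2_co.TwoThirds

set_option autoImplicit false
open Pool Pool.MP_45c2e2_co

namespace Pool.Agent.S08467

open Module Pool.Agent.Results.MP_45c2e2_co.TwoThirds

/-- A subspace of dimension at most `2` of a space of dimension at least `2` lies in a subspace of
dimension exactly `2`. -/
theorem exists_two {V : Type*} [AddCommGroup V] [Module ℝ V] [FiniteDimensional ℝ V]
    (hV : 2 ≤ finrank ℝ V) : ∀ n : ℕ, ∀ W : Submodule ℝ V, finrank ℝ W + n = 2 →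
    ∃ W' : Submodule ℝ V, W ≤ W' ∧ finrank ℝ W' = 2 := by
  intro n
  induction n with
  | zero => exact fun W hW => ⟨W, le_rfl, by simpa using hW⟩
  | succ n ih =>
    intro W hW
    have hlt : W < ⊤ := by
      rw [lt_top_iff_ne_top]
      rintro rfl
      rw [finrank_top] at hW
      omega
    obtain ⟨v, -, hv⟩ := SetLike.exists_of_lt hlt
    have hf : finrank ℝ (W ⊔ (ℝ ∙ v) : Submodule ℝ V) = finrank ℝ W + 1 := by
      have hdis : Disjoint W (ℝ ∙ v) := by
        rw [Submodule.disjoint_span_singleton]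
        intro h
        exact absurd h hv
      have h1 := Submodule.finrank_sup_add_finrank_inf_eq W (ℝ ∙ v)
      rw [disjoint_iff.1 hdis, finrank_bot, add_zero, finrank_span_singleton] at h1
      · exact h1
      · rintro rfl
        exact hv W.zero_mem
    obtain ⟨W', h1, h2⟩ := ih (W ⊔ (ℝ ∙ v)) (by omega)
    exact ⟨W', le_sup_left.trans h1, h2⟩

/-- There is a dimension d > 100 such that for all large N, some subset of the grid {1..N}^d with at least N^(d-100) points has no 5 distinct points on a common 2-plane. -/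
theorem result :
    ∃ d : ℕ, 100 < d ∧ ∃ N₀ : ℕ, ∀ N : ℕ, N₀ ≤ N →
      ∃ A : Finset (Fin d → ℝ),
        (∀ x ∈ A, ∀ i : Fin d, ∃ k : ℕ, 1 ≤ k ∧ k ≤ N ∧ x i = (k : ℝ)) ∧
        (∀ S : Finset (Fin d → ℝ), S ⊆ A → S.card = 5 →
          ¬ Coplanar ℝ (S : Set (Fin d → ℝ))) ∧
        N ^ (d - 100) ≤ A.card := by
  classical
  refine ⟨101, by norm_num, ?_⟩
  obtain ⟨N₀, h⟩ := (Pool.Agent.Results.MP_45c2e2_co.TwoThirds.result).2 101 (by norm_num)
  refine ⟨N₀, fun N hN => ?_⟩
  have hr := h N hN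
  have hmem : r 101 N ∈ {n | ∃ A : Finset (Fin 101 → ℤ), (∀ a ∈ A, ∀ i, 1 ≤ a i ∧ a i ≤ N) ∧
      NoFive (A : Set (Fin 101 → ℤ)) ∧ A.card = n} := by
    apply Nat.sSup_mem ?_ (r_bdd 101 N)
    exact ⟨0, ∅, by simp, by intro P _; simp, by simp⟩
  obtain ⟨A, hA1, hA2, hA3⟩ := hmem
  let φ : (Fin 101 → ℤ) → (Fin 101 → ℝ) := fun a i => (a i : ℝ)
  have hφ : Function.Injective φ := by
    intro a b hab
    funext i
    have := congrFun hab i
    simp only [φ] at this
    exact_mod_cast this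
  refine ⟨A.image φ, ?_, ?_, ?_⟩
  · intro x hx i
    rw [Finset.mem_image] at hx
    obtain ⟨a, ha, rfl⟩ := hx
    obtain ⟨h1, h2⟩ := hA1 a ha i
    refine ⟨(a i).toNat, by omega, by omega, ?_⟩
    have : (((a i).toNat : ℤ) : ℝ) = (a i : ℝ) := by
      rw [Int.toNat_of_nonneg (by omega)]
    simp only [φ]
    rw [← this]
    push_cast
    rfl
  · intro S hS hcard hcop
    have hne : S.Nonempty := by
      rw [← Finset.card_pos]; omega
    obtain ⟨p, hp⟩ := hne
    have hfr : finrank ℝ (vectorSpan ℝ (S : Set (Fin 101 → ℝ))) ≤ 2 := by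
      have := hcop
      rw [Coplanar] at this
      exact Module.finrank_le_of_rank_le this
    have hV : 2 ≤ finrank ℝ (Fin 101 → ℝ) := by simp
    obtain ⟨W', hW1, hW2⟩ := exists_two hV
      (2 - finrank ℝ (vectorSpan ℝ (S : Set (Fin 101 → ℝ))))
      (vectorSpan ℝ (S : Set (Fin 101 → ℝ))) (by omega)
    let P : AffineSubspace ℝ (Fin 101 → ℝ) := AffineSubspace.mk' p W'
    have hP : finrank ℝ P.direction = 2 := by
      rw [AffineSubspace.direction_mk', hW2]
    have hle := hA2 P hP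
    have hSP : ∀ x ∈ S, x ∈ P := by
      intro x hx
      rw [AffineSubspace.mem_mk']
      exact hW1 (vsub_mem_vectorSpan ℝ (Finset.mem_coe.2 hx) (Finset.mem_coe.2 hp))
    have hsub : (S : Set (Fin 101 → ℝ)) ⊆ φ '' {a | a ∈ (A : Set (Fin 101 → ℤ)) ∧ (fun i => (a i : ℝ)) ∈ P} := by
      intro x hx
      have hx' := hS (Finset.mem_coe.1 hx)
      rw [Finset.mem_image] at hx'
      obtain ⟨a, ha, rfl⟩ := hx'
      exact ⟨a, ⟨Finset.mem_coe.2 ha, hSP _ (Finset.mem_coe.1 hx)⟩, rfl⟩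
    have h5 : (5 : ℕ∞) ≤ 4 := by
      calc (5 : ℕ∞) = (S : Set (Fin 101 → ℝ)).encard := by
            rw [Set.encard_coe_eq_coe_finsetCard, hcard]; rfl
        _ ≤ _ := Set.encard_le_encard hsub
        _ ≤ _ := Set.encard_image_le _ _
        _ ≤ 4 := hle
    exact absurd h5 (by decide)
  · rw [Finset.card_image_of_injective _ hφ, hA3]
    have : ((N : ℝ)) ^ ((101 : ℝ) - 100) = (N : ℝ) := by
      norm_num
    push_cast at hr
    rw [this] at hr
    have h2 : N ≤ r 101 N := by exact_mod_cast hr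
    simpa using h2

end Pool.Agent.S08467
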