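import Pool.Statements.S08553
import Pool.Agent.Results.MP_4912e6_co.UnitQuaternions

set_option autoImplicit false
open Pool Pool.MP_4912e6_co

namespace Pool.Agent.S08553

/-- There is a connected compact Hausdorff group G with normalized Haar measure, some r ≥ 1, and a measurable r-coloring of G so that every measurable monochromatic set A with A = gA⁻¹g for some g has measure at most some c < 1/r². -/
theorem result :
    ∃ (G : Type) (_ : Group G) (_ : TopologicalSpace G) (_ : IsTopologicalGroup G)
      (_ : CompactSpace G) (_ : ConnectedSpace G) (_ : T2Space G)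
      (_ : MeasurableSpace G) (_ : BorelSpace G)
      (μ : MeasureTheory.Measure G) (_ : μ.IsHaarMeasure) (_ : μ.Regular)
      (_ : MeasureTheory.IsProbabilityMeasure μ)
      (r : ℕ) (χ : G → Fin r) (c : ENNReal),
      0 < r ∧ Measurable χ ∧ c < ((r : ENNReal) ^ 2)⁻¹ ∧
      ∀ (A : Set G) (i : Fin r) (g : G),
        MeasurableSet A → A ⊆ χ ⁻¹' {i} →
        (fun x => g * x⁻¹ * g) '' A = A → μ A ≤ c := by
  obtain ⟨β, hβ, c, hc, hcc⟩ := Pool.Agent.Helper36.S3Cert.exists_colouring
  have hhaar : Pool.Agent.Results.MP_4912e6_co.UnitQuaternions.haarProb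
      Pool.Agent.Results.MP_4912e6_co.UnitQuaternions.UnitQuat = Pool.Agent.Helper36.UnitQuat.mu4 :=
    Pool.Agent.Helper36.UnitQuat.haar_eq
  have hp := Pool.Agent.Helper36.SphMeas.sph_prob (d := 4) (by norm_num)
  refine ⟨Pool.Agent.Results.MP_4912e6_co.UnitQuaternions.UnitQuat, inferInstance, inferInstance,
    inferInstance, inferInstance, Pool.Agent.Helper36.UnitQuat.connected, inferInstance,
    inferInstance, inferInstance,
    Pool.Agent.Results.MP_4912e6_co.UnitQuaternions.haarProb
      Pool.Agent.Results.MP_4912e6_co.UnitQuaternions.UnitQuat, ?_, ?_, ?_, 2,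
    fun x => if c (Pool.Agent.Helper36.UnitQuat.psi x) = true then 1 else 0, ENNReal.ofReal β,
    by norm_num, ?_, ?_, ?_⟩
  · unfold Pool.Agent.Results.MP_4912e6_co.UnitQuaternions.haarProb
    infer_instance
  · unfold Pool.Agent.Results.MP_4912e6_co.UnitQuaternions.haarProb
    infer_instance
  · constructor
    unfold Pool.Agent.Results.MP_4912e6_co.UnitQuaternions.haarProb
    have := MeasureTheory.Measure.haarMeasure_self
      (K₀ := (⊤ : TopologicalSpace.PositiveCompacts
        Pool.Agent.Results.MP_4912e6_co.UnitQuaternions.UnitQuat))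
    simpa using this
  · refine Measurable.ite ?_ measurable_const measurable_const
    exact (hc.comp Pool.Agent.Helper36.UnitQuat.psi_continuous.measurable)
      (measurableSet_singleton true)
  · have h4 : (((2 : ℕ) : ENNReal) ^ 2)⁻¹ = ENNReal.ofReal (1 / 4) := by
      rw [one_div, ENNReal.ofReal_inv_of_pos (by norm_num)]
      congr 1
      rw [show (4 : ℝ) = 2 ^ 2 by norm_num, ENNReal.ofReal_pow (by norm_num)]
      norm_num
    rw [h4]
    exact (ENNReal.ofReal_lt_ofReal_iff (by norm_num)).2 hβ
  · intro B i g _ hi hg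
    rw [hhaar, Pool.Agent.Helper36.UnitQuat.mu4_apply]
    obtain ⟨b, hb⟩ : ∃ b : Bool, ∀ x : Pool.Agent.Results.MP_4912e6_co.UnitQuaternions.UnitQuat,
        (if c (Pool.Agent.Helper36.UnitQuat.psi x) = true then (1 : Fin 2) else 0) = i →
        c (Pool.Agent.Helper36.UnitQuat.psi x) = b := by
      by_cases hi1 : i = 1
      · refine ⟨true, fun x hx => ?_⟩
        by_contra h
        simp only [if_neg h, hi1] at hx
        exact absurd hx (by decide)
      · refine ⟨false, fun x hx => ?_⟩
        by_contra h
        have h' : c (Pool.Agent.Helper36.UnitQuat.psi x) = true := by simpa using h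
        simp only [if_pos h'] at hx
        exact hi1 hx.symm
    have hsub : Pool.Agent.Helper36.UnitQuat.psi '' B ⊆ {x | c x = b ∧
        c (Pool.Agent.Helper36.RealizeSph.sig (Pool.Agent.Helper36.UnitQuat.psi g) x) = b} := by
      rintro _ ⟨x, hx, rfl⟩
      refine ⟨hb x (hi hx), ?_⟩
      rw [← Pool.Agent.Helper36.UnitQuat.psi_sig]
      apply hb
      have : g * x⁻¹ * g ∈ B := by
        rw [← hg]
        exact ⟨x, hx, rfl⟩
      exact hi this
    refine (MeasureTheory.measure_mono hsub).trans ?_
    have h2 := hcc _ (Pool.Agent.Helper36.UnitQuat.norm_psi g) b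
    rw [MeasureTheory.measureReal_def] at h2
    exact (ENNReal.le_ofReal_iff_toReal_le (MeasureTheory.measure_ne_top _ _)
      (ENNReal.toReal_nonneg.trans h2)).2 h2

end Pool.Agent.S08553
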