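import Pool.Statements.S08565
import Pool.Agent.Results.MP_4985b1_co.LinearComplete

set_option autoImplicit false
open Pool Pool.MP_4985b1_co

namespace Pool.Agent.S08565

/-- There is c>0 such that every set of r≥2 plane points with no three collinear has at least c·r distinct segments between its points, every two of which share a point interior to both. -/
theorem result :
    ∃ c : ℝ, 0 < c ∧
      ∀ P : Finset (ℝ × ℝ), 2 ≤ P.card →
        (∀ x ∈ P, ∀ y ∈ P, ∀ z ∈ P, x ≠ y → y ≠ z → x ≠ z →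
          ¬ Collinear ℝ ({x, y, z} : Set (ℝ × ℝ))) →
        ∃ k : ℕ, ∃ a b : Fin k → ℝ × ℝ,
          (∀ i, a i ∈ P ∧ b i ∈ P ∧ a i ≠ b i) ∧
          Function.Injective (fun i => Sym2.mk (a i, b i)) ∧
          (∀ i j, i ≠ j →
            (openSegment ℝ (a i) (b i) ∩ openSegment ℝ (a j) (b j)).Nonempty) ∧
          c * (P.card : ℝ) ≤ (k : ℝ) := by
  classical
  obtain ⟨c, hc, h⟩ := Pool.Agent.Results.MP_4985b1_co.LinearComplete.result
  refine ⟨c, hc, fun P hP hgp => ?_⟩
  obtain ⟨F, h1, h2, h3⟩ := h P.card hP P rfl hgp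
  have he : ∀ i : Fin F.card, ∃ a b : ℝ × ℝ, a ∈ P ∧ b ∈ P ∧ a ≠ b ∧
      (F.equivFin.symm i).1 = s(a, b) := by
    intro i
    obtain ⟨a, ha, b, hb, hab, he⟩ := h1 _ (F.equivFin.symm i).2
    exact ⟨a, b, ha, hb, hab, he⟩
  choose a b ha hb hab he using he
  refine ⟨F.card, a, b, fun i => ⟨ha i, hb i, hab i⟩, ?_, ?_, h3⟩
  · intro i j hij
    have h4 := congrFun hij (a i, b i)
    have h5 : (a i, b i) = (a j, b j) := by
      rcases Sym2.eq_iff.1 h4 with h | h
      · exact h.1
      · exact h.2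
    have hij' : s(a i, b i) = s(a j, b j) := by
      rw [Prod.mk.injEq] at h5
      rw [h5.1, h5.2]
    rw [← he i, ← he j] at hij'
    exact F.equivFin.symm.injective (Subtype.ext hij')
  · intro i j hij
    have hne : (F.equivFin.symm i).1 ≠ (F.equivFin.symm j).1 := fun h4 =>
      hij (F.equivFin.symm.injective (Subtype.ext h4))
    have h5 := h2 _ (F.equivFin.symm i).2 _ (F.equivFin.symm j).2 hne
    rw [he i, he j] at h5
    exact h5

end Pool.Agent.S08565
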