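import Pool.Statements.S08586
import Pool.Agent.W30.OddHole

set_option autoImplicit false
open Classical
open Pool Pool.MP_4a5947_co

namespace Pool.Agent.S08586

/-- The negation of the preceding statement: For every nonempty finite N-free poset with 2-colourable covering graph and every edge sharing its series cut with another edge, and every weighting c, some k equals both the max over linear extensions of the weight of consecutive covering pairs and the minimum size of a multiset of series cuts/para -/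
theorem result :
    ¬ (∀ (α : Type) [Fintype α] [PartialOrder α], Nonempty α →
    (¬ ∃ a b c d : α, a < b ∧ c < b ∧ c < d ∧ ¬ a ≤ c ∧ ¬ c ≤ a ∧
        ¬ a ≤ d ∧ ¬ d ≤ a ∧ ¬ b ≤ d ∧ ¬ d ≤ b) →
    (∃ col : α → Bool, ∀ x y : α, x ⋖ y → col x ≠ col y) →
    (∀ x y : α, x ⋖ y → ∃ x' y' : α, x' ⋖ y' ∧ x' ⋖ y ∧ x ⋖ y' ∧ (x' ≠ x ∨ y' ≠ y)) →
    ∀ c : α → α → ℕ,
    ∃ k : ℕ,
      (∃ L : α ≃ Fin (Fintype.card α), (∀ x y : α, x < y → L x < L y) ∧
         (∑ p ∈ Finset.univ.filter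
            (fun p : α × α => p.1 ⋖ p.2 ∧ (L p.2 : ℕ) = (L p.1 : ℕ) + 1), c p.1 p.2) = k) ∧
      (∀ L : α ≃ Fin (Fintype.card α), (∀ x y : α, x < y → L x < L y) →
         (∑ p ∈ Finset.univ.filter
            (fun p : α × α => p.1 ⋖ p.2 ∧ (L p.2 : ℕ) = (L p.1 : ℕ) + 1), c p.1 p.2) ≤ k) ∧
      (∃ F : Fin k → Set (α × α),
         (∀ i : Fin k,
           (∃ x y : α, x ⋖ y ∧ F i = {p : α × α | p.1 ⋖ p.2 ∧ p.1 ⋖ y ∧ x ⋖ p.2}) ∨
           (∃ v u w z : α, u ⋖ v ∧ v ⋖ w ∧ z ≠ v ∧ (u ⋖ z ∨ z ⋖ u) ∧ (w ⋖ z ∨ z ⋖ w) ∧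
              F i = {p : α × α | p.1 ⋖ p.2 ∧ (p.1 = v ∨ p.2 = v)})) ∧
         (∀ x y : α, x ⋖ y →
            c x y ≤ (Finset.univ.filter (fun i : Fin k => (x, y) ∈ F i)).card)) ∧
      (∀ (m : ℕ) (F : Fin m → Set (α × α)),
         (∀ i : Fin m,
           (∃ x y : α, x ⋖ y ∧ F i = {p : α × α | p.1 ⋖ p.2 ∧ p.1 ⋖ y ∧ x ⋖ p.2}) ∨
           (∃ v u w z : α, u ⋖ v ∧ v ⋖ w ∧ z ≠ v ∧ (u ⋖ z ∨ z ⋖ u) ∧ (w ⋖ z ∨ z ⋖ w) ∧
              F i = {p : α × α | p.1 ⋖ p.2 ∧ (p.1 = v ∨ p.2 = v)})) →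
         (∀ x y : α, x ⋖ y →
            c x y ≤ (Finset.univ.filter (fun i : Fin m => (x, y) ∈ F i)).card) →
         k ≤ m)) := by
  intro h
  obtain ⟨k, ⟨L, hLm, hL⟩, -, ⟨F, hF, hcov⟩, -⟩ := h (Pool.Agent.Results.MP_4a5947_co.OddHole.El Pool.Agent.Results.MP_4a5947_co.OddHole.t0) ⟨Pool.Agent.Results.MP_4a5947_co.OddHole.u⟩ Pool.Agent.W30.OddHole.nfree
    ⟨_, Pool.Agent.W30.OddHole.colb⟩ Pool.Agent.W30.OddHole.share (fun x y => Pool.Agent.Results.MP_4a5947_co.OddHole.c0 (x, y))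
  have hk : k ≤ 3 := by
    rw [← hL]
    exact Pool.Agent.W30.OddHole.max_le L hLm _
  have h4 := Pool.Agent.W30.OddHole.le_four k F (fun i => by
    rcases hF i with ⟨x, y, hxy, hi⟩ | ⟨x, _, _, _, _, _, _, _, _, hi⟩
    · rw [hi]; exact Pool.Agent.W30.OddHole.twocut x y
    · rw [hi]; exact Pool.Agent.Results.MP_4a5947_co.OddHole.two_bifan x) (fun x y hxy => by
      have := hcov x y hxy
      convert this)
  omega

end Pool.Agent.S08586
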