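import Pool.Statements.S08645
import Pool.Agent.W468.WBrouwer

set_option autoImplicit false
open Pool Pool.MP_4d2320_co

namespace Pool.Agent.S08645

open Finset Matrix Pool.Agent.W468.WBrouwer

/-- the quadratic form of the weighted Laplacian at an eigenvector -/
theorem eigen_eq {n : ℕ} (A : Matrix (Fin n) (Fin n) ℝ) (hA : A.IsSymm)
    (hL : (Matrix.diagonal (fun i => ∑ j, A i j) - A).IsHermitian) (a : Fin n) :
    2 * hL.eigenvalues a = ∑ i, ∑ j, A i j *
      (hL.eigenvectorBasis a i - hL.eigenvectorBasis a j) ^ 2 := by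
  set v : Fin n → ℝ := fun i => hL.eigenvectorBasis a i with hv
  have h1 : (Matrix.diagonal (fun i => ∑ j, A i j) - A).mulVec v = hL.eigenvalues a • v :=
    hL.mulVec_eigenvectorBasis a
  have h2 : ∀ i, ∑ j, A i j * (v i - v j) = hL.eigenvalues a * v i := by
    intro i
    have h3 := congrFun h1 i
    rw [Pi.smul_apply, smul_eq_mul] at h3
    rw [← h3, Matrix.sub_mulVec, Pi.sub_apply, Matrix.mulVec_diagonal]
    simp only [Matrix.mulVec, dotProduct, mul_sub, Finset.sum_sub_distrib, ← Finset.sum_mul]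
  have h4 : ∑ i, v i * v i = 1 := by
    rw [hv, Pool.Helper237.Brouwer.inner_sum]; simp
  have h5 : hL.eigenvalues a = ∑ i, ∑ j, A i j * (v i - v j) * v i := by
    rw [Finset.sum_congr rfl fun i _ => (Finset.sum_mul _ _ _).symm,
      Finset.sum_congr rfl fun i _ => by rw [h2 i]]
    rw [Finset.sum_congr rfl fun i _ => mul_assoc _ _ _, ← Finset.mul_sum, h4, mul_one]
  have h6 : hL.eigenvalues a = ∑ i, ∑ j, A i j * (v j - v i) * v j := by
    rw [h5, Finset.sum_comm]
    refine Finset.sum_congr rfl fun i _ => Finset.sum_congr rfl fun j _ => ?_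
    rw [← hA.apply i j]
  have h7 : 2 * hL.eigenvalues a = ∑ i, ∑ j, A i j * (v i - v j) * v i
      + ∑ i, ∑ j, A i j * (v j - v i) * v j := by
    rw [← h5, ← h6]; ring
  rw [h7, ← Finset.sum_add_distrib]
  refine Finset.sum_congr rfl fun i _ => ?_
  rw [← Finset.sum_add_distrib]
  refine Finset.sum_congr rfl fun j _ => ?_
  ring

theorem eig_zero {n : ℕ} (A : Matrix (Fin n) (Fin n) ℝ) (hA : A.IsSymm)
    (hL : (Matrix.diagonal (fun i => ∑ j, A i j) - A).IsHermitian) (a : Fin n)
    (ha : hL.eigenvalues a ≠ 0) : ∑ i, hL.eigenvectorBasis a i = 0 := by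
  set v : Fin n → ℝ := fun i => hL.eigenvectorBasis a i with hv
  have h1 : (Matrix.diagonal (fun i => ∑ j, A i j) - A).mulVec v = hL.eigenvalues a • v :=
    hL.mulVec_eigenvectorBasis a
  have h2 : ∀ i, ∑ j, A i j * (v i - v j) = hL.eigenvalues a * v i := by
    intro i
    have h3 := congrFun h1 i
    rw [Pi.smul_apply, smul_eq_mul] at h3
    rw [← h3, Matrix.sub_mulVec, Pi.sub_apply, Matrix.mulVec_diagonal]
    simp only [Matrix.mulVec, dotProduct, mul_sub, Finset.sum_sub_distrib, ← Finset.sum_mul]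
  have h3 : hL.eigenvalues a * ∑ i, v i = ∑ i, ∑ j, A i j * (v i - v j) := by
    rw [Finset.mul_sum]
    exact Finset.sum_congr rfl fun i _ => (h2 i).symm
  have h4 : ∑ i, ∑ j, A i j * (v i - v j) = - ∑ i, ∑ j, A i j * (v i - v j) := by
    conv_lhs => rw [Finset.sum_comm]
    rw [← Finset.sum_neg_distrib]
    refine Finset.sum_congr rfl fun i _ => ?_
    rw [← Finset.sum_neg_distrib]
    refine Finset.sum_congr rfl fun j _ => ?_
    rw [← hA.apply i j]; ring
  have h5 : hL.eigenvalues a * ∑ i, v i = 0 := by linarith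
  exact (mul_eq_zero.1 h5).resolve_left ha

/-- For every symmetric nonnegative zero-diagonal real matrix and each k from 1 to n−1, the sum of the k largest Laplacian eigenvalues is at most the total edge weight plus the sum of the C(k+1,2) largest off-diagonal weights. -/
theorem result :
    ∀ (n : ℕ) (A : Matrix (Fin n) (Fin n) ℝ), A.IsSymm → (∀ i j, 0 ≤ A i j) → (∀ i, A i i = 0) →
      ∀ (hL : (Matrix.diagonal (fun i => ∑ j, A i j) - A).IsHermitian),
      ∀ k : ℕ, 1 ≤ k → k ≤ n - 1 →
      ∀ s : Finset (Fin n), s.card = k →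
        ∃ P : Finset (Fin n × Fin n), P.card = (k + 1).choose 2 ∧ (∀ p ∈ P, p.1 < p.2) ∧
          ∑ i ∈ s, hL.eigenvalues i ≤
            (∑ i, ∑ j, if i < j then A i j else 0) + ∑ p ∈ P, A p.1 p.2 := by
  classical
  intro n A hA hA0 hAd hL k hk1 hk s hs
  set b := hL.eigenvectorBasis with hb
  set T := s.filter (fun a => hL.eigenvalues a ≠ 0) with hT
  have hTk : T.card ≤ k := by rw [← hs]; exact Finset.card_filter_le _ _
  obtain ⟨P, hPc, hPlt, hP⟩ := core b T
    (fun a ha => eig_zero A hA hL a (Finset.mem_filter.1 ha).2) A hA0 k hTk hk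
  refine ⟨P, hPc, hPlt, ?_⟩
  have hsum : ∑ a ∈ s, hL.eigenvalues a = ∑ a ∈ T, hL.eigenvalues a := by
    rw [hT, Finset.sum_filter_ne_zero]
  have h2 : 2 * ∑ a ∈ T, hL.eigenvalues a
      = ∑ i, ∑ j, A i j * (pr b T i i + pr b T j j - 2 * pr b T i j) := by
    rw [Finset.mul_sum, Finset.sum_congr rfl fun a _ => eigen_eq A hA hL a, Finset.sum_comm]
    refine Finset.sum_congr rfl fun i _ => ?_
    rw [Finset.sum_comm]
    refine Finset.sum_congr rfl fun j _ => ?_
    rw [← Finset.mul_sum]
    congr 1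
    simp only [pr, Matrix.of_apply, Finset.mul_sum, ← Finset.sum_add_distrib,
      ← Finset.sum_sub_distrib]
    refine Finset.sum_congr rfl fun a _ => ?_
    ring
  have hps : ∀ i j, pr b T i j = pr b T j i := by
    intro i j
    have := congrFun (congrFun (pr_symm b T) i) j
    rw [Matrix.transpose_apply] at this
    exact this.symm
  have h3 := sum_pairs (fun i j => A i j * (pr b T i i + pr b T j j - 2 * pr b T i j))
    (fun i j => by rw [← hA.apply i j, hps i j]; ring) (fun i => by rw [hAd i, zero_mul])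
  have h4 : ∑ i, ∑ j, (if i < j then A i j else 0)
      = ∑ p ∈ (univ : Finset (Fin n × Fin n)).filter (fun p => p.1 < p.2), A p.1 p.2 := by
    rw [Finset.sum_filter, ← Finset.univ_product_univ, Finset.sum_product]
  have h5 : ∑ p ∈ (univ : Finset (Fin n × Fin n)).filter (fun p => p.1 < p.2),
        A p.1 p.2 * (pr b T p.1 p.1 + pr b T p.2 p.2 - 2 * pr b T p.1 p.2 - 1)
      = ∑ p ∈ (univ : Finset (Fin n × Fin n)).filter (fun p => p.1 < p.2),
        A p.1 p.2 * (pr b T p.1 p.1 + pr b T p.2 p.2 - 2 * pr b T p.1 p.2)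
      - ∑ p ∈ (univ : Finset (Fin n × Fin n)).filter (fun p => p.1 < p.2), A p.1 p.2 := by
    rw [← Finset.sum_sub_distrib]
    refine Finset.sum_congr rfl fun p _ => ?_
    ring
  rw [hsum, h4]
  rw [h5] at hP
  rw [h3] at h2
  linarith

end Pool.Agent.S08645
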