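import Pool.Statements.S08686

set_option autoImplicit false
open Pool Pool.MP_4e7ec3_co

namespace Pool.Agent.S08686

/-- The displacing map: three blocks of ten points, each block is mapped into its own middle. -/
noncomputable def T (p : ℝ) : ℝ :=
  if p ≤ 4 / 29 then 7 / 29 else if p ≤ 9 / 29 then 2 / 29 else
  if p ≤ 14 / 29 then 17 / 29 else if p ≤ 19 / 29 then 12 / 29 else
  if p ≤ 24 / 29 then 27 / 29 else 22 / 29

/-- The thirty points `i / 29`. -/
noncomputable def F : Finset ℝ := (Finset.range 30).image (fun i : ℕ => (i : ℝ) / 29)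

theorem mem_F (p : ℝ) : p ∈ F ↔ ∃ i : ℕ, i < 30 ∧ (i : ℝ) / 29 = p := by
  simp [F]

theorem T_vals (i : ℕ) (hi : i < 30) :
    T ((i : ℝ) / 29) = (if i ≤ 4 then 7 else if i ≤ 9 then 2 else if i ≤ 14 then 17 else
      if i ≤ 19 then 12 else if i ≤ 24 then 27 else 22 : ℕ) / 29 := by
  unfold T
  interval_cases i <;> norm_num

theorem blk (b : ℕ) (hb : b < 3) (p : ℝ) (h1 : (10 * b : ℝ) / 29 ≤ p)
    (h2 : p ≤ (10 * b + 9 : ℝ) / 29) :
    T p = (10 * b + 2 : ℝ) / 29 ∨ T p = (10 * b + 7 : ℝ) / 29 := by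
  have hb' : b = 0 ∨ b = 1 ∨ b = 2 := by omega
  rcases hb' with rfl | rfl | rfl
  · push_cast at h1 h2 ⊢
    by_cases h : p ≤ 4 / 29
    · right
      rw [T, if_pos h]; norm_num
    · left
      rw [T, if_neg h, if_pos (by linarith)]; norm_num
  · push_cast at h1 h2 ⊢
    by_cases h : p ≤ 14 / 29
    · right
      rw [T, if_neg (by linarith), if_neg (by linarith), if_pos h]; norm_num
    · left
      rw [T, if_neg (by linarith), if_neg (by linarith), if_neg h, if_pos (by linarith)]; norm_num
  · push_cast at h1 h2 ⊢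
    by_cases h : p ≤ 24 / 29
    · right
      rw [T, if_neg (by linarith), if_neg (by linarith), if_neg (by linarith),
        if_neg (by linarith), if_pos h]; norm_num
    · left
      rw [T, if_neg (by linarith), if_neg (by linarith), if_neg (by linarith),
        if_neg (by linarith), if_neg h]; norm_num

/-- The negation of the preceding statement: There is a constant k such that for every finite F in [0,1] containing 0 and 1, every ε>0, and every T:F→F moving each point by more than ε, some p₀ in F reaches a point at distance at least 1/3 in at most k/ε steps, each step going to T(p) or a neighbour of T(p) in F. -/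
theorem result :
    ¬ (∃ k : ℝ, ∀ (F : Finset ℝ) (ε : ℝ) (T : ℝ → ℝ),
      (∀ p ∈ F, 0 ≤ p ∧ p ≤ 1) → (0 : ℝ) ∈ F → (1 : ℝ) ∈ F → 0 < ε →
      (∀ p ∈ F, T p ∈ F ∧ ε < |p - T p|) →
      ∃ p₀ ∈ F, ∃ n : ℕ, (n : ℝ) ≤ k / ε ∧
        ∃ x : ℕ → ℝ, x 0 = p₀ ∧
          (∀ i < n,
            x (i + 1) = T (x i) ∨
            (x (i + 1) ∈ F ∧ x (i + 1) < T (x i) ∧
              ∀ r ∈ F, r < T (x i) → r ≤ x (i + 1)) ∨
            (x (i + 1) ∈ F ∧ T (x i) < x (i + 1) ∧
              ∀ r ∈ F, T (x i) < r → x (i + 1) ≤ r)) ∧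
          1 / 3 ≤ |x n - p₀|) := by
  rintro ⟨k, hk⟩
  have c1 : ∀ p ∈ F, 0 ≤ p ∧ p ≤ 1 := by
    intro p hp
    rw [mem_F] at hp
    obtain ⟨i, hi, rfl⟩ := hp
    have : (i : ℝ) ≤ 29 := by exact_mod_cast (by omega : i ≤ 29)
    constructor
    · positivity
    · linarith
  have c2 : (0 : ℝ) ∈ F := by
    rw [mem_F]
    exact ⟨0, by norm_num, by norm_num⟩
  have c3 : (1 : ℝ) ∈ F := by
    rw [mem_F]
    exact ⟨29, by norm_num, by norm_num⟩
  have c4 : ∀ p ∈ F, T p ∈ F ∧ (2 / 29 : ℝ) < |p - T p| := by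
    intro p hp
    rw [mem_F] at hp
    obtain ⟨i, hi, rfl⟩ := hp
    rw [T_vals i hi]
    constructor
    · rw [mem_F]
      refine ⟨_, ?_, rfl⟩
      split_ifs <;> norm_num
    · interval_cases i <;> norm_num [abs_lt, lt_abs]
  obtain ⟨p₀, hp₀, n, -, x, hx0, hstep, hdist⟩ := hk F (2 / 29) T c1 c2 c3 (by norm_num) c4
  rw [mem_F] at hp₀
  obtain ⟨i₀, hi₀, rfl⟩ := hp₀
  -- the block of the starting point
  obtain ⟨b, hb, hb1, hb2⟩ : ∃ b : ℕ, b < 3 ∧ 10 * b ≤ i₀ ∧ i₀ ≤ 10 * b + 9 :=
    ⟨i₀ / 10, by omega, by omega, by omega⟩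
  have hb1' : (10 * b : ℝ) ≤ i₀ := by exact_mod_cast hb1
  have hb2' : (i₀ : ℝ) ≤ 10 * b + 9 := by exact_mod_cast hb2
  have key : ∀ m ≤ n, (10 * b : ℝ) / 29 ≤ x m ∧ x m ≤ (10 * b + 9 : ℝ) / 29 := by
    intro m
    induction m with
    | zero =>
      intro _
      rw [hx0]
      constructor <;> linarith
    | succ m ih =>
      intro hm
      obtain ⟨h1, h2⟩ := ih (by omega)
      have hT := blk b hb (x m) h1 h2
      have hs := hstep m (by omega)
      -- the three neighbours
      have hmemF : ∀ j : ℕ, j < 10 → ((10 * b + j : ℝ)) / 29 ∈ F := by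
        intro j hj
        rw [mem_F]
        exact ⟨10 * b + j, by omega, by push_cast; ring⟩
      rcases hs with hs | ⟨-, hs1, hs2⟩ | ⟨-, hs1, hs2⟩
      · rw [hs]
        rcases hT with hT | hT <;> rw [hT] <;> constructor <;> linarith
      · rcases hT with hT | hT
        · have := hs2 _ (hmemF 1 (by norm_num)) (by rw [hT]; push_cast; linarith)
          rw [hT] at hs1
          push_cast at this
          constructor <;> linarith
        · have := hs2 _ (hmemF 6 (by norm_num)) (by rw [hT]; push_cast; linarith)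
          rw [hT] at hs1
          push_cast at this
          constructor <;> linarith
      · rcases hT with hT | hT
        · have := hs2 _ (hmemF 3 (by norm_num)) (by rw [hT]; push_cast; linarith)
          rw [hT] at hs1
          push_cast at this
          constructor <;> linarith
        · have := hs2 _ (hmemF 8 (by norm_num)) (by rw [hT]; push_cast; linarith)
          rw [hT] at hs1
          push_cast at this
          constructor <;> linarith
  obtain ⟨h1, h2⟩ := key n le_rfl
  have : |x n - (i₀ : ℝ) / 29| ≤ 9 / 29 := by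
    rw [abs_le]
    constructor <;> linarith
  linarith
end Pool.Agent.S08686
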