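import Pool.Statements.S08708
-- import your own Pool.Agent.* helpers here

set_option autoImplicit false
open Pool Pool.MP_4f9096_co

namespace Pool.Agent.S08708

/-- The 5 x 5 array of the counterexample. -/
def arr : Fin 5 → Fin 5 → ℕ :=
  ![![2, 3, 5, 2, 5],
    ![3, 2, 6, 3, 1],
    ![0, 4, 1, 0, 6],
    ![5, 3, 4, 5, 4],
    ![0, 4, 1, 0, 6]]

theorem arr_small : ∀ s : Fin 7,
    (Finset.univ.filter (fun p : Fin 5 × Fin 5 => arr p.1 p.2 = (s : ℕ))).card ≤ 4 := by
  decide +kernel

theorem arr_lt : ∀ p : Fin 5 × Fin 5, arr p.1 p.2 < 7 := by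
  decide +kernel

theorem arr_no : ∀ σ : Equiv.Perm (Fin 5),
    ∃ i j : Fin 5, i ≠ j ∧ arr i (σ i) = arr j (σ j) := by
  decide +kernel

/-- The negation of the preceding statement: For every n and every n×n array of natural-number symbols in which each symbol occurs in at most n−1 cells, there is a permutation σ such that the entries A(i, σ(i)) are pairwise distinct. -/
theorem result :
    ¬ (∀ (n : ℕ) (A : Fin n → Fin n → ℕ),
      (∀ s : ℕ, (Finset.univ.filter (fun p : Fin n × Fin n => A p.1 p.2 = s)).card ≤ n - 1) →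
      ∃ σ : Equiv.Perm (Fin n), Function.Injective (fun i : Fin n => A i (σ i))) := by
  intro h
  obtain ⟨σ, hσ⟩ := h 5 arr (by
    intro s
    by_cases hs : s < 7
    · exact arr_small ⟨s, hs⟩
    · have : (Finset.univ.filter (fun p : Fin 5 × Fin 5 => arr p.1 p.2 = s)) = ∅ := by
        apply Finset.filter_eq_empty_iff.mpr
        intro p _ hp
        have := arr_lt p
        omega
      rw [this]
      simp)
  obtain ⟨i, j, hij, he⟩ := arr_no σ
  exact hij (hσ he)

end Pool.Agent.S08708
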