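import Pool.Statements.S08718
import Pool.Agent.W421.HP.Chain

set_option autoImplicit false
open Pool Pool.MP_50639e_co

namespace Pool.Agent.S08718

open Pool.Agent.W421.HP in
/-- The negation of the preceding statement: For every even n at least 4 there is a proper edge colouring of the complete graph on n vertices in which every Hamiltonian path (n-1 edges) has two edges of the same colour. -/
theorem result :
    ¬ (∀ n : ℕ, 4 ≤ n → Even n →
      ∃ c : Fin n → Fin n → ℕ,
        (∀ u v : Fin n, c u v = c v u) ∧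
        (∀ u v w : Fin n, u ≠ v → u ≠ w → v ≠ w → c u v ≠ c u w) ∧
        ∀ p : ℕ → Fin n,
          (∀ i j : ℕ, i < n → j < n → p i = p j → i = j) →
          ∃ i j : ℕ, i < j ∧ j + 1 < n ∧
            c (p i) (p (i + 1)) = c (p j) (p (j + 1))) := by
  intro hall
  obtain ⟨c, hs, hp, hpath⟩ := hall 10 (by norm_num) (by decide)
  set d : ℕ → ℕ → ℕ := fun u v => c (Fin.ofNat 10 u) (Fin.ofNat 10 v) with hd
  have hinj : ∀ u v : ℕ, u < 10 → v < 10 → Fin.ofNat 10 u = Fin.ofNat 10 v → u = v := by
    intro u v hu hv h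
    have h1 := congrArg Fin.val h
    simpa [Fin.ofNat, Nat.mod_eq_of_lt hu, Nat.mod_eq_of_lt hv] using h1
  have hPC : PC d := by
    refine ⟨fun u v _ _ => hs _ _, ?_⟩
    intro u v w hu hv hw h1 h2 h3
    exact hp _ _ _ (fun h => h1 (hinj _ _ hu hv h)) (fun h => h2 (hinj _ _ hu hw h))
      (fun h => h3 (hinj _ _ hv hw h))
  obtain ⟨l, hl, hR⟩ := main hPC
  obtain ⟨i, j, hij, hj, he⟩ := hpath (fun k => Fin.ofNat 10 (l.getD k 0)) (by
    intro i j hi hj h
    exact getD_inj hR.1 (by omega) (by omega)
      (hinj _ _ (hR.2.1 _ (getD_mem (by omega))) (hR.2.1 _ (getD_mem (by omega))) h))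
  have h1 : (cols d l).getD i 0 = (cols d l).getD j 0 := by
    rw [cols_getD d l i (by omega), cols_getD d l j (by omega)]
    exact he
  have h2 := cols_length d l
  have := getD_inj hR.2.2 (by omega) (by omega) h1
  omega

end Pool.Agent.S08718
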