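import Pool.Statements.S08780
import Pool.Agent.W249.EFb

/-!
Disproof of the Erdős–Falconer distance conjecture over arbitrary finite fields, dimension two.

Take a prime `r ≡ 3 mod 4`, an odd number `N = 2 n + 1`, the field `F` with `q = r ^ N` elements and
a generator `θ` of `F` over `𝔽_r`.  Let `V` be the set of the values at `θ` of the polynomials of
degree at most `n`; it is an `𝔽_r`-subspace with `r ^ (n + 1)` elements, and `E = V × V` has
`r ^ (2 n + 2) = r q` elements.  The distances of `E` are the values at `θ` of the polynomials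
`f ^ 2 + g ^ 2`, `deg f, deg g ≤ n`, which have degree `< N`.  Every irreducible of odd degree
divides such a polynomial to a power different from one, and a Chebyshev argument shows that the
proportion of the polynomials of degree `< N` with this property tends to zero as `N → ∞`.
-/

set_option autoImplicit false
open Pool Pool.MP_53cd62_co

namespace Pool.Agent.S08780

open Polynomial Pool.Agent.W249.EF
open scoped Classical

theorem exists_config (C c : ℝ) (hc : 0 < c) :
    ∃ (F : Type) (_ : Field F) (_ : Fintype F) (_ : DecidableEq F), ringChar F ≠ 2 ∧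
      ∃ E : Finset (Fin 2 → F), C * (Fintype.card F : ℝ) ≤ (E.card : ℝ) ∧
        (((E ×ˢ E).image (fun p => ∑ k, (p.1 k - p.2 k) ^ 2)).card : ℝ) <
          c * (Fintype.card F : ℝ) := by
  -- the prime
  obtain ⟨r, hrC, hrp, hr4⟩ : ∃ r : ℕ, C ≤ r ∧ r.Prime ∧ r % 4 = 3 := by
    obtain ⟨r, h1, h2, h3⟩ := Nat.forall_exists_prime_gt_and_eq_mod (q := 4) (a := 3)
      (by decide) (Nat.ceil C)
    refine ⟨r, ?_, h2, ?_⟩
    · exact (Nat.le_ceil C).trans (by exact_mod_cast h1.le)
    · have := (ZMod.natCast_eq_natCast_iff' r 3 4).1 (by simpa using h3)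
      simpa using this
  have : Fact r.Prime := ⟨hrp⟩
  obtain ⟨N0, hN0⟩ := sum_two_squares r hr4 c hc
  let n := N0
  let N := 2 * n + 1
  have hN : N0 ≤ N := by show N0 ≤ 2 * N0 + 1; omega
  let F := GaloisField r N
  have hfr : Module.finrank (ZMod r) F = N := GaloisField.finrank r (by omega)
  let pb := Field.powerBasisOfFiniteOfSeparable (ZMod r) F
  have hdim : pb.dim = N := by rw [← pb.finrank, hfr]
  letI : Fintype F := Fintype.ofFinite F
  have hcard : Fintype.card F = r ^ N := by
    rw [← Nat.card_eq_fintype_card]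
    exact GaloisField.card r N (by omega)
  have hinj : ∀ f : (ZMod r)[X], f.degree < N → aeval pb.gen f = 0 → f = 0 := by
    intro f hf h0
    by_contra hne
    have h1 := minpoly.dvd (ZMod r) pb.gen h0
    have h2 := natDegree_le_of_dvd h1 hne
    rw [pb.natDegree_minpoly, hdim] at h2
    rw [← natDegree_lt_iff_degree_lt hne] at hf
    omega
  let V : Finset F := (PF (ZMod r) (n + 1)).image (aeval pb.gen)
  have hV : V.card = r ^ (n + 1) := by
    rw [Finset.card_image_of_injOn, card_PF, ZMod.card]
    intro f hf g hg hfg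
    rw [Finset.mem_coe, mem_PF] at hf hg
    rw [← sub_eq_zero]
    apply hinj
    · refine lt_of_le_of_lt (degree_sub_le f g) ?_
      refine lt_of_lt_of_le (max_lt hf hg) ?_
      exact_mod_cast (by omega : n + 1 ≤ N)
    · rw [map_sub, sub_eq_zero]
      exact hfg
  refine ⟨F, inferInstance, inferInstance, inferInstance, ?_, ?_⟩
  · have : CharP F r := inferInstance
    rw [ringChar.eq F r]
    omega
  · refine ⟨Fintype.piFinset (fun _ => V), ?_, ?_⟩
    · rw [Fintype.card_piFinset, Finset.prod_const, Finset.card_univ, Fintype.card_fin, hV, hcard]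
      push_cast
      have h1 : (((r : ℝ) ^ (n + 1)) ^ 2) = r * (r : ℝ) ^ N := by
        rw [← pow_mul, ← pow_succ']
        congr 1
        show (n + 1) * 2 = 2 * n + 1 + 1
        ring
      rw [h1]
      apply mul_le_mul_of_nonneg_right hrC
      positivity
    · rw [hcard]
      push_cast
      refine lt_of_le_of_lt ?_ (hN0 N hN)
      have hsub : ((Fintype.piFinset (fun _ : Fin 2 => V)) ×ˢ
          (Fintype.piFinset (fun _ : Fin 2 => V))).image
            (fun p => ∑ k, (p.1 k - p.2 k) ^ 2) ⊆
          ((PF (ZMod r) N).filter (fun H => ∃ f g : (ZMod r)[X], H = f ^ 2 + g ^ 2)).image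
            (aeval pb.gen) := by
        intro z hz
        rw [Finset.mem_image] at hz
        obtain ⟨⟨x, y⟩, hxy, rfl⟩ := hz
        rw [Finset.mem_product, Fintype.mem_piFinset, Fintype.mem_piFinset] at hxy
        have hd : ∀ k : Fin 2, ∃ f : (ZMod r)[X], f.degree < ((n + 1 : ℕ) : WithBot ℕ) ∧
            aeval pb.gen f = x k - y k := by
          intro k
          obtain ⟨f, hf, hf2⟩ := Finset.mem_image.1 (hxy.1 k)
          obtain ⟨g, hg, hg2⟩ := Finset.mem_image.1 (hxy.2 k)
          rw [mem_PF] at hf hg
          refine ⟨f - g, lt_of_le_of_lt (degree_sub_le f g) (max_lt hf hg), ?_⟩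
          rw [map_sub, hf2, hg2]
        obtain ⟨f, hf, hf2⟩ := hd 0
        obtain ⟨g, hg, hg2⟩ := hd 1
        rw [Finset.mem_image]
        refine ⟨f ^ 2 + g ^ 2, ?_, ?_⟩
        · rw [Finset.mem_filter, mem_PF]
          refine ⟨?_, f, g, rfl⟩
          have hsq : ∀ u : (ZMod r)[X], u.degree < ((n + 1 : ℕ) : WithBot ℕ) →
              (u ^ 2).degree < (N : WithBot ℕ) := by
            intro u hu
            by_cases hu0 : u = 0
            · subst hu0
              simp only [ne_eq, OfNat.ofNat_ne_zero, not_false_eq_true, zero_pow, degree_zero]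
              exact WithBot.bot_lt_coe N
            · have hu2 : u ^ 2 ≠ 0 := pow_ne_zero 2 hu0
              rw [← natDegree_lt_iff_degree_lt hu0] at hu
              rw [← natDegree_lt_iff_degree_lt hu2, natDegree_pow]
              show 2 * u.natDegree < 2 * n + 1
              omega
          exact lt_of_le_of_lt (degree_add_le _ _) (max_lt (hsq f hf) (hsq g hg))
        · rw [map_add, map_pow, map_pow, hf2, hg2]
          simp [Fin.sum_univ_two]
      have h2 := (Finset.card_le_card hsub).trans Finset.card_image_le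
      exact_mod_cast h2

theorem result :
    ¬ (∀ d : ℕ, Even d → 2 ≤ d →
      ∃ C c : ℝ, 0 < C ∧ 0 < c ∧
        ∀ (F : Type) [Field F] [Fintype F] [DecidableEq F], ringChar F ≠ 2 →
          ∀ E : Finset (Fin d → F),
            C * ((Fintype.card F : ℝ) ^ (d / 2)) ≤ (E.card : ℝ) →
              c * (Fintype.card F : ℝ) ≤
                (((E ×ˢ E).image (fun p => ∑ k, (p.1 k - p.2 k) ^ 2)).card : ℝ)) := by
  intro h
  obtain ⟨C, c, _, hc, h⟩ := h 2 (by decide) le_rfl
  obtain ⟨F, i1, i2, i3, hchar, E, hE, hD⟩ := exists_config C c hc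
  have h1 := @h F i1 i2 i3 hchar E (by simpa using hE)
  exact absurd hD (not_lt.2 h1)

end Pool.Agent.S08780
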