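import Pool.Statements.S08794
-- import your own Pool.Agent.* helpers here
import Pool.Agent.W297.Fi

set_option autoImplicit false
open Pool Pool.MP_548113_co

namespace Pool.Agent.S08794

/-- The negation of the preceding statement: For every finite group G and subgroups H,K, the geometric realization of the order complex of the open interval (H,K) in Sub(G) is empty or homotopy equivalent to a finite wedge of spheres S^{d_i} (d_i ≥ 0, n=0 giving a point). -/
theorem result :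
    ¬ (∀ (G : Type) [Group G] [Finite G] (H K : Subgroup G),
      IsEmpty {f : Subgroup G → ℝ | (∀ L, 0 ≤ f L) ∧ (∀ L, f L ≠ 0 → H < L ∧ L < K) ∧
          IsChain (· ≤ ·) {L : Subgroup G | f L ≠ 0} ∧ ∑ᶠ L, f L = 1} ∨
      ∃ (n : ℕ) (d : Fin n → ℕ),
        Nonempty (ContinuousMap.HomotopyEquiv
          {f : Subgroup G → ℝ | (∀ L, 0 ≤ f L) ∧ (∀ L, f L ≠ 0 → H < L ∧ L < K) ∧
            IsChain (· ≤ ·) {L : Subgroup G | f L ≠ 0} ∧ ∑ᶠ L, f L = 1}
          {x : (i : Fin n) → EuclideanSpace ℝ (Fin (d i + 1)) |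
            (∀ i, ‖x i‖ = 1) ∧
              ∀ i j, i ≠ j → x i = EuclideanSpace.single 0 1 ∨ x j = EuclideanSpace.single 0 1})) := by
  intro h
  rcases h W297.Fi.Gb W297.Fi.H0 ⊤ with h1 | ⟨n, d, ⟨e⟩⟩
  · apply W297.Fi.main_torsion
    have h2 : IsEmpty (W297.Det.Rz W297.Fi.Pp) := h1
    intro m z _ _
    have hS : IsEmpty (Helper922.HB.Sc.Sing (W297.Det.Rz W297.Fi.Pp) (m + 1)) :=
      ⟨fun σ => h2.false (σ (stdSimplex.vertex 0))⟩
    exact ⟨0, Subsingleton.elim _ _⟩
  · exact W297.Fi.main_torsion (W297.Wd.Nt_of_equiv (X := W297.Det.Rz W297.Fi.Pp)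
      (Y := W297.Wd.WW d) e W297.Wd.Nt_WW)

end Pool.Agent.S08794
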