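import Pool.Statements.S08825
import Pool.Agent.W128.PP.Covey
import Pool.Agent.W128.PP.Num

set_option autoImplicit false
open Pool Pool.MP_5651c1_co

namespace Pool.Agent.S08825

open Pool.Agent.W128.PP

section aux

variable {V : Type} [Fintype V] (G : SimpleGraph V) [DecidableRel G.Adj]

/-- path-pairability -/
def PathPairable : Prop :=
  ∀ (k : ℕ) (s r : Fin k → V), Function.Injective (Sum.elim s r) →
    ∃ p : (i : Fin k) → G.Walk (s i) (r i),
      (∀ i, (p i).IsPath) ∧ ∀ i j, i ≠ j → ∀ e ∈ (p i).edges, e ∉ (p j).edges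

variable {G}

/-- the cut condition holds in path-pairable graphs, the cost being the degree plus one -/
lemma cutCond (hG : PathPairable G) : CutCond G (fun v => G.degree v + 1) := by
  classical
  intro S X hcl
  set m := min S.card (Fintype.card V - S.card) with hm
  have hScard : (Finset.univ \ S).card = Fintype.card V - S.card := by
    rw [Finset.card_sdiff_of_subset (Finset.subset_univ _), Finset.card_univ]
  obtain ⟨A, hAS, hAm⟩ := Finset.exists_subset_card_eq (s := S) (n := m) (min_le_left _ _)
  obtain ⟨B, hBS, hBm⟩ := Finset.exists_subset_card_eq (s := Finset.univ \ S) (n := m)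
    (by rw [hScard]; exact min_le_right _ _)
  set s : Fin m → V := fun i => (A.equivFinOfCardEq hAm).symm i with hs
  set r : Fin m → V := fun i => (B.equivFinOfCardEq hBm).symm i with hr
  have hsA : ∀ i, s i ∈ S := fun i => hAS ((A.equivFinOfCardEq hAm).symm i).2
  have hrB : ∀ i, r i ∉ S := fun i => (Finset.mem_sdiff.1 (hBS
    ((B.equivFinOfCardEq hBm).symm i).2)).2
  have hinj : Function.Injective (Sum.elim s r) := by
    apply Function.Injective.sumElim
    · intro i j hij
      exact (A.equivFinOfCardEq hAm).symm.injective (Subtype.ext hij)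
    · intro i j hij
      exact (B.equivFinOfCardEq hBm).symm.injective (Subtype.ext hij)
    · intro i j hij
      exact hrB j (hij ▸ hsA i)
  obtain ⟨p, -, hp⟩ := hG m s r hinj
  have hd : ∀ i, ∃ d ∈ (p i).darts, d.fst ∈ S ∧ d.snd ∉ S := by
    intro i
    obtain ⟨d, hd, h1, h2⟩ := (p i).exists_boundary_dart (S : Set V) (by simpa using hsA i)
      (by simpa using hrB i)
    exact ⟨d, hd, by simpa using h1, by simpa using h2⟩
  choose d hd1 hd2 hd3 using hd
  -- inject the pairs in the darts ending in `X`
  have hcard : (Finset.univ : Finset (Fin m)).card ≤ (X.sigma (fun x => G.neighborFinset x)).card := by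
    apply Finset.card_le_card_of_injOn (fun i => ⟨(d i).snd, (d i).fst⟩)
    · intro i _
      rw [Finset.mem_coe, Finset.mem_sigma]
      refine ⟨hcl _ (hd2 i) _ (hd3 i) (d i).adj, ?_⟩
      rw [SimpleGraph.mem_neighborFinset]
      exact (d i).adj.symm
    · intro i _ j _ hij
      by_contra hne
      simp only [Sigma.mk.injEq] at hij
      obtain ⟨h1, h2⟩ := hij
      have h2 := eq_of_heq h2
      have h3 : (d i).edge = (d j).edge := by
        have h4 : d i = d j := by
          apply SimpleGraph.Dart.ext
          exact Prod.ext h2 h1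
        rw [h4]
      apply hp i j hne (d i).edge
      · rw [SimpleGraph.Walk.edges]
        exact List.mem_map_of_mem (hd1 i)
      · rw [h3, SimpleGraph.Walk.edges]
        exact List.mem_map_of_mem (hd1 j)
  rw [Finset.card_univ, Fintype.card_fin, Finset.card_sigma] at hcard
  refine hcard.trans ?_
  unfold cost
  apply Finset.sum_le_sum
  intro x _
  rw [SimpleGraph.card_neighborFinset_eq_degree]
  exact Nat.le_succ _

/-- the number of edges of a graph without a complete minor (Mader) -/
lemma sum_degree_le (t : ℕ) (ht : 2 ≤ t)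
    (hno : ¬ ∃ f : Fin t → Set V,
            (∀ i, (G.induce (f i)).Connected) ∧
            (∀ i j, i ≠ j → Disjoint (f i) (f j)) ∧
            (∀ i j, i ≠ j → ∃ u ∈ f i, ∃ v ∈ f j, G.Adj u v)) :
    ∑ v, G.degree v ≤ 2 ^ t * Fintype.card V := by
  classical
  by_contra hcon
  push Not at hcon
  obtain ⟨k, rfl⟩ : ∃ k, t = k + 2 := ⟨t - 2, by omega⟩
  set P : Finset (Set V) := Finset.univ.image (fun v : V => ({v} : Set V)) with hP
  have hPc : P.card = Fintype.card V := by
    rw [hP, Finset.card_image_of_injective _ Set.singleton_injective, Finset.card_univ]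
  have hfam : Pool.Agent.Helper805.CHS.Fam G P := by
    constructor
    · intro A hA
      obtain ⟨v, -, rfl⟩ := Finset.mem_image.1 hA
      have h1 : Subsingleton ({v} : Set V) := inferInstance
      have h2 : Nonempty ({v} : Set V) := ⟨⟨v, rfl⟩⟩
      exact { preconnected := fun a b => by rw [Subsingleton.elim a b] }
    · intro A hA B hB hAB
      obtain ⟨v, -, rfl⟩ := Finset.mem_image.1 hA
      obtain ⟨u, -, rfl⟩ := Finset.mem_image.1 hB
      rw [Set.disjoint_singleton]
      exact fun e => hAB (by rw [e])
  have hprs : ∑ v, G.degree v ≤ (Pool.Agent.Helper805.CHS.prs G P).card := by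
    have h1 : ∑ v, G.degree v = (Finset.univ.sigma (fun v => G.neighborFinset v)).card := by
      rw [Finset.card_sigma]
      exact Finset.sum_congr rfl (fun v _ => (SimpleGraph.card_neighborFinset_eq_degree G v).symm)
    rw [h1]
    apply Finset.card_le_card_of_injOn (fun x => (({x.1} : Set V), ({x.2} : Set V)))
    · intro x hx
      rw [Finset.mem_coe, Finset.mem_sigma, SimpleGraph.mem_neighborFinset] at hx
      rw [Finset.mem_coe, Pool.Agent.Helper805.CHS.mem_prs]
      refine ⟨Finset.mem_image_of_mem _ (Finset.mem_univ _),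
        Finset.mem_image_of_mem _ (Finset.mem_univ _), ?_, x.1, rfl, x.2, rfl, hx.2⟩
      intro h
      exact hx.2.ne (Set.singleton_injective h)
    · intro x _ y _ hxy
      obtain ⟨h1, h2⟩ := Prod.mk.inj hxy
      have h1 := Set.singleton_injective h1
      have h2 := Set.singleton_injective h2
      exact Sigma.ext h1 (heq_of_eq h2)
  obtain ⟨f, f1, f2, f3, -, -⟩ := Pool.Agent.Helper805.CHS.mader G k P hfam (by
    rw [hPc]
    refine lt_of_le_of_lt ?_ (lt_of_lt_of_le hcon hprs)
    apply Nat.mul_le_mul_right
    have : 2 ^ (k + 2) = 4 * 2 ^ k := by ring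
    have h2 : 1 ≤ 2 ^ k := Nat.one_le_two_pow
    omega)
  exact hno ⟨f, f1, f2, f3⟩

end aux

/-- For every t there is c>0 such that every finite path-pairable graph on n≥2 vertices with no K_t minor has a vertex of degree at least c·n. -/
theorem result :
    ∀ t : ℕ, ∃ c : ℝ, 0 < c ∧
      ∀ (V : Type) [Fintype V] (G : SimpleGraph V) [DecidableRel G.Adj],
        2 ≤ Fintype.card V →
        (∀ (k : ℕ) (s r : Fin k → V), Function.Injective (Sum.elim s r) →
          ∃ p : (i : Fin k) → G.Walk (s i) (r i),
            (∀ i, (p i).IsPath) ∧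
            ∀ i j, i ≠ j → ∀ e ∈ (p i).edges, e ∉ (p j).edges) →
        (¬ ∃ f : Fin t → Set V,
            (∀ i, (G.induce (f i)).Connected) ∧
            (∀ i j, i ≠ j → Disjoint (f i) (f j)) ∧
            (∀ i j, i ≠ j → ∃ u ∈ f i, ∃ v ∈ f j, G.Adj u v)) →
        ∃ v : V, c * (Fintype.card V : ℝ) ≤ (G.degree v : ℝ) := by
  intro t
  set K : ℕ := 2 ^ t with hK
  set Q : ℕ := 800 * (t + 1) ^ 4 * (K + 1) with hQ
  have hQpos : 0 < Q := by positivity
  refine ⟨1 / (Q : ℝ), by positivity, ?_⟩
  intro V _ G _ hV hpp hno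
  classical
  by_contra hcon
  push Not at hcon
  set n := Fintype.card V with hn
  have hdeg : ∀ v, Q * G.degree v < n := by
    intro v
    have h1 := hcon v
    have h2 : (Q : ℝ) * G.degree v < n := by
      have hQ' : (0 : ℝ) < Q := by exact_mod_cast hQpos
      calc (Q : ℝ) * G.degree v < Q * (1 / (Q : ℝ) * n) := mul_lt_mul_of_pos_left h1 hQ'
        _ = n := by field_simp
    exact_mod_cast h2
  have hcut : CutCond G (fun v => G.degree v + 1) := cutCond hpp
  -- some vertex has positive degree
  obtain ⟨a, b, hab⟩ : ∃ a b : V, a ≠ b := by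
    have : 1 < Fintype.card V := by omega
    exact Fintype.exists_pair_of_one_lt_card this
  have hQn : Q < n := by
    obtain ⟨p, -, -⟩ := hpp 1 (fun _ => a) (fun _ => b) (by
      apply Function.Injective.sumElim
      · intro i j _; exact Subsingleton.elim _ _
      · intro i j _; exact Subsingleton.elim _ _
      · intro _ _; exact hab)
    obtain ⟨d, -, -, -⟩ := (p 0).exists_boundary_dart ({a} : Set V) rfl
      (by simpa using hab.symm)
    have h1 : 0 < G.degree d.fst := by
      rw [SimpleGraph.degree_pos_iff_exists_adj]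
      exact ⟨_, d.adj⟩
    have h2 := hdeg d.fst
    nlinarith
  rcases Nat.lt_or_ge t 2 with ht | ht
  · -- trivial cases
    apply hno
    refine ⟨fun _ => {a}, ?_, ?_, ?_⟩
    · intro i
      have h1 : Subsingleton ({a} : Set V) := inferInstance
      have h2 : Nonempty ({a} : Set V) := ⟨⟨a, rfl⟩⟩
      exact { preconnected := fun a b => by rw [Subsingleton.elim a b] }
    · intro i j hij
      exact absurd (Fin.ext (by omega)) hij
    · intro i j hij
      exact absurd (Fin.ext (by omega)) hij
  have hsum := sum_degree_le t ht hno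
  rw [← hK, ← hn] at hsum
  set w : V → ℕ := fun v => G.degree v + 1 with hw
  have hwv : ∀ v, Q * w v ≤ 2 * n := by
    intro v
    have := hdeg v
    have h2 : Q * w v = Q * G.degree v + Q := by rw [hw]; ring
    omega
  have hsumw : ∑ v, w v ≤ (K + 1) * n := by
    have : ∑ v, w v = ∑ v, G.degree v + n := by
      rw [hw, Finset.sum_add_distrib, Finset.sum_const, Finset.card_univ, smul_eq_mul, mul_one]
    rw [this]
    have : (K + 1) * n = K * n + n := by ring
    omega
  have hsq : Q * ∑ v, w v ^ 2 ≤ 2 * n * ((K + 1) * n) := by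
    calc Q * ∑ v, w v ^ 2 = ∑ v, (Q * w v) * w v := by
          rw [Finset.mul_sum]
          exact Finset.sum_congr rfl (fun v _ => by ring)
      _ ≤ ∑ v, (2 * n) * w v := Finset.sum_le_sum (fun v _ => Nat.mul_le_mul_right _ (hwv v))
      _ = (2 * n) * ∑ v, w v := (Finset.mul_sum _ _ _).symm
      _ ≤ _ := Nat.mul_le_mul_left _ hsumw
  obtain ⟨P, r, hr, hP1, hP2, hP3⟩ := numeric t K n Q hQ hQn
  obtain ⟨f, hf1, hf2, hf3⟩ := covey (G := G) (w := w) (fun v => Nat.succ_le_succ (Nat.zero_le _))
    hcut (by omega) t P r (by omega) hr hP1 (fun v => hP2 _ (hwv v)) (hP3 _ hsq)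
  apply hno
  refine ⟨fun i => (f i : Set V), hf1, ?_, ?_⟩
  · intro i j hij
    exact Finset.disjoint_coe.2 (hf2 i j hij)
  · intro i j hij
    obtain ⟨u, hu, v, hv, huv⟩ := hf3 i j hij
    exact ⟨u, by simpa using hu, v, by simpa using hv, huv⟩

end Pool.Agent.S08825
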