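import Pool.Statements.S08881
import Pool.Agent.W445.Tmr.Main

set_option autoImplicit false
open Pool Pool.MP_5893b4_co

namespace Pool.Agent.S08881

/-- For every field and partial matrix whose row–column bipartite graph has a chord in every cycle of length at least 6, the max over maximal triangular subpatterns of their minimal completion rank equals the minimal completion rank. -/
theorem result :
    ∀ (F : Type) [Field F] (m n : ℕ) (J : Set (Fin m × Fin n))
      (a : Matrix (Fin m) (Fin n) F) (G : SimpleGraph (Fin m ⊕ Fin n)),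
      G = SimpleGraph.fromRel (fun x y : Fin m ⊕ Fin n =>
            ∃ i j, x = Sum.inl i ∧ y = Sum.inr j ∧ (i, j) ∈ J) →
      (∀ (u : Fin m ⊕ Fin n) (c : G.Walk u u), c.IsCycle → 6 ≤ c.length →
        ∃ i j : ℕ, i + 1 < j ∧ j < c.length ∧ ¬ (i = 0 ∧ j + 1 = c.length) ∧
          G.Adj (c.getVert i) (c.getVert j)) →
      sSup {r : ℕ | ∃ T : Set (Fin m × Fin n),
          Maximal (fun S : Set (Fin m × Fin n) =>
              S ⊆ J ∧ ∀ p ∈ S, ∀ q ∈ S, (p.1, q.2) ∈ S ∨ (q.1, p.2) ∈ S) T ∧
          r = sInf {k : ℕ | ∃ B : Matrix (Fin m) (Fin n) F,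
                (∀ p ∈ T, B p.1 p.2 = a p.1 p.2) ∧ B.rank = k}}
        = sInf {k : ℕ | ∃ B : Matrix (Fin m) (Fin n) F,
                (∀ p ∈ J, B p.1 p.2 = a p.1 p.2) ∧ B.rank = k} := by
  exact fun F _ m n J a G hG hc => Pool.Agent.W445.Tmr.main F m n J a G hG hc

end Pool.Agent.S08881
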