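import Pool.Statements.S08958
import Pool.Agent.W298.PS3
import Pool.Agent.W298.PS4

set_option autoImplicit false
open Pool Pool.MP_5b9ab2_co

namespace Pool.Agent.S08958

/-- simplex factors of the three pieces -/
def A0 : ℕ → Finset (Fin 10)
  | 0 => ∅
  | 1 => {9}
  | 2 => {8, 9}
  | _ => ∅

/-- blocks of the sphere factors of the three pieces -/
def P0 : ℕ → Finset (Finset (Fin 10))
  | 0 => {{0, 1, 2}, {3, 4, 5}, {6, 7, 8}}
  | 1 => {{0, 1, 2}, {3, 4, 6, 7}}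
  | 2 => {{0, 1, 3, 4, 6}}
  | _ => ∅

/-- the pieces -/
def E0 (j : ℕ) : Finset (Finset (Fin 10)) :=
  (A0 j ∪ (P0 j).sup id).powerset.filter (fun F => ∀ B ∈ P0 j, ¬ B ⊆ F)

/-- membership in piece 0 -/
def m0 (F : Finset (Fin 10)) : Prop :=
  9 ∉ F ∧ ¬ (0 ∈ F ∧ 1 ∈ F ∧ 2 ∈ F) ∧ ¬ (3 ∈ F ∧ 4 ∈ F ∧ 5 ∈ F) ∧ ¬ (6 ∈ F ∧ 7 ∈ F ∧ 8 ∈ F)

/-- membership in piece 1 -/
def m1 (F : Finset (Fin 10)) : Prop :=
  5 ∉ F ∧ 8 ∉ F ∧ ¬ (0 ∈ F ∧ 1 ∈ F ∧ 2 ∈ F) ∧ ¬ (3 ∈ F ∧ 4 ∈ F ∧ 6 ∈ F ∧ 7 ∈ F)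

/-- membership in piece 2 -/
def m2 (F : Finset (Fin 10)) : Prop :=
  2 ∉ F ∧ 5 ∉ F ∧ 7 ∉ F ∧ ¬ (0 ∈ F ∧ 1 ∈ F ∧ 3 ∈ F ∧ 4 ∈ F ∧ 6 ∈ F)

lemma sub_iff (V W F : Finset (Fin 10)) (h : W = Vᶜ) : F ⊆ V ↔ ∀ x ∈ W, x ∉ F := by
  subst h
  constructor
  · intro h x hx hxF
    exact (Finset.mem_compl.1 hx) (h hxF)
  · intro h x hx
    by_contra hV
    exact h x (Finset.mem_compl.2 hV) hx

lemma mem_E0 (F : Finset (Fin 10)) : F ∈ E0 0 ↔ m0 F := by
  have hV : A0 0 ∪ (P0 0).sup id = {0, 1, 2, 3, 4, 5, 6, 7, 8} := by decide +kernel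
  have hW : F ⊆ ({0, 1, 2, 3, 4, 5, 6, 7, 8} : Finset (Fin 10)) ↔ 9 ∉ F := by
    rw [sub_iff _ {9} F (by decide +kernel)]
    simp
  simp only [E0, Finset.mem_filter, Finset.mem_powerset, hV, hW, m0]
  simp only [P0, Finset.mem_insert, Finset.mem_singleton, forall_eq_or_imp, forall_eq,
    Finset.insert_subset_iff, Finset.singleton_subset_iff]

lemma mem_E1 (F : Finset (Fin 10)) : F ∈ E0 1 ↔ m1 F := by
  have hV : A0 1 ∪ (P0 1).sup id = {0, 1, 2, 3, 4, 6, 7, 9} := by decide +kernel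
  have hW : F ⊆ ({0, 1, 2, 3, 4, 6, 7, 9} : Finset (Fin 10)) ↔ 5 ∉ F ∧ 8 ∉ F := by
    rw [sub_iff _ {5, 8} F (by decide +kernel)]
    simp
  simp only [E0, Finset.mem_filter, Finset.mem_powerset, hV, hW, m1, and_assoc]
  simp only [P0, Finset.mem_insert, Finset.mem_singleton, forall_eq_or_imp, forall_eq,
    Finset.insert_subset_iff, Finset.singleton_subset_iff]

lemma mem_E2 (F : Finset (Fin 10)) : F ∈ E0 2 ↔ m2 F := by
  have hV : A0 2 ∪ (P0 2).sup id = {0, 1, 3, 4, 6, 8, 9} := by decide +kernel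
  have hW : F ⊆ ({0, 1, 3, 4, 6, 8, 9} : Finset (Fin 10)) ↔ 2 ∉ F ∧ 5 ∉ F ∧ 7 ∉ F := by
    rw [sub_iff _ {2, 5, 7} F (by decide +kernel)]
    simp
  simp only [E0, Finset.mem_filter, Finset.mem_powerset, hV, hW, m2, and_assoc]
  simp only [P0, Finset.mem_singleton, forall_eq,
    Finset.insert_subset_iff, Finset.singleton_subset_iff]

/-- the complex -/
def D0 : Finset (Finset (Fin 10)) := (Finset.range (2 + 1)).biUnion E0

lemma mem_D0 (F : Finset (Fin 10)) : F ∈ D0 ↔ m0 F ∨ m1 F ∨ m2 F := by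
  simp only [D0, Finset.mem_biUnion, Finset.mem_range, ← mem_E0, ← mem_E1, ← mem_E2]
  constructor
  · rintro ⟨j, hj, h⟩
    interval_cases j
    · exact Or.inl h
    · exact Or.inr (Or.inl h)
    · exact Or.inr (Or.inr h)
  · rintro (h | h | h)
    · exact ⟨0, by norm_num, h⟩
    · exact ⟨1, by norm_num, h⟩
    · exact ⟨2, by norm_num, h⟩

open Pool.Agent.W298.PS4 in
lemma m0_S (b : ℕ) : m0 (S b) ↔ q0 b = true := by
  simp only [m0, q0, mem_S, t, Bool.and_eq_true, Bool.not_eq_true', ← Bool.not_eq_true]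
  rfl

open Pool.Agent.W298.PS4 in
lemma m1_S (b : ℕ) : m1 (S b) ↔ q1 b = true := by
  simp only [m1, q1, mem_S, t, Bool.and_eq_true, Bool.not_eq_true', ← Bool.not_eq_true]
  rfl

open Pool.Agent.W298.PS4 in
lemma m2_S (b : ℕ) : m2 (S b) ↔ q2 b = true := by
  simp only [m2, q2, mem_S, t, Bool.and_eq_true, Bool.not_eq_true', ← Bool.not_eq_true]
  rfl

open Pool.Agent.W298.PS4 in
lemma glue1 (F : Finset (Fin 10)) : m0 F ∧ m1 F ↔ m1 F ∧ ¬ (({9} : Finset (Fin 10)) ⊆ F) := by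
  obtain ⟨b, hb, rfl⟩ := S_surj F
  have h := List.all_eq_true.1 glue b (by simpa using hb)
  simp only [Bool.and_eq_true, beq_iff_eq] at h
  have h1 : (q0 b && q1 b) = true ↔ (q1 b && !(t b 9)) = true := by rw [h.1]
  rw [Finset.singleton_subset_iff, mem_S, m0_S, m1_S]
  simp only [Bool.and_eq_true, Bool.not_eq_true', ← Bool.not_eq_true, t] at h1
  exact h1

open Pool.Agent.W298.PS4 in
lemma glue2 (F : Finset (Fin 10)) : (m0 F ∨ m1 F) ∧ m2 F ↔
    m2 F ∧ ¬ (({8, 9} : Finset (Fin 10)) ⊆ F) := by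
  obtain ⟨b, hb, rfl⟩ := S_surj F
  have h := List.all_eq_true.1 glue b (by simpa using hb)
  simp only [Bool.and_eq_true, beq_iff_eq] at h
  have h1 : ((q0 b || q1 b) && q2 b) = true ↔ (q2 b && !(t b 8 && t b 9)) = true := by rw [h.2]
  rw [Finset.insert_subset_iff, Finset.singleton_subset_iff, mem_S, mem_S, m0_S, m1_S, m2_S]
  simp only [Bool.and_eq_true, Bool.or_eq_true, Bool.not_eq_true', ← Bool.not_eq_true, t] at h1
  exact h1

open Pool.Agent.W298.PS4 in
lemma fcount (i : ℕ) : (D0.filter (fun F => F.card = i)).card =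
    (List.range 1024).countP (fun b => qq b && Nat.beq (cb b) i) := by
  classical
  have hc := card_eq_countP (fun F => (m0 F ∨ m1 F ∨ m2 F) ∧ F.card = i)
    (fun b => qq b && Nat.beq (cb b) i) (by
      intro b _
      simp only [m0_S, m1_S, m2_S, card_S, qq, cb, t, Bool.and_eq_true, Bool.or_eq_true, Nat.beq_eq])
  refine Eq.trans (congrArg Finset.card ?_) hc
  apply Finset.ext
  intro F
  rw [Finset.mem_filter, Finset.mem_filter, mem_D0]
  exact ⟨fun h => ⟨Finset.mem_univ _, h⟩, fun h => h.2⟩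

lemma f0 : (D0.filter (fun F => F.card = 0)).card = 1 := by rw [fcount, Pool.Agent.W298.PS4.cnt.1]
lemma f1 : (D0.filter (fun F => F.card = 1)).card = 10 := by rw [fcount, Pool.Agent.W298.PS4.cnt.2.1]
lemma f2 : (D0.filter (fun F => F.card = 2)).card = 44 := by rw [fcount, Pool.Agent.W298.PS4.cnt.2.2.1]
lemma f3 : (D0.filter (fun F => F.card = 3)).card = 107 := by rw [fcount, Pool.Agent.W298.PS4.cnt.2.2.2.1]
lemma f4 : (D0.filter (fun F => F.card = 4)).card = 152 := by rw [fcount, Pool.Agent.W298.PS4.cnt.2.2.2.2.1]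
lemma f5 : (D0.filter (fun F => F.card = 5)).card = 121 := by rw [fcount, Pool.Agent.W298.PS4.cnt.2.2.2.2.2.1]
lemma f6 : (D0.filter (fun F => F.card = 6)).card = 44 := by rw [fcount, Pool.Agent.W298.PS4.cnt.2.2.2.2.2.2]

/-- The negation of the preceding statement: For every complex with a PS ear decomposition (a PS-sphere with PS-balls of the same dimension attached along their boundaries), its h-vector is the degree-count vector of a finite pure multicomplex of monomials. -/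
theorem result :
    ¬ (∀ (n d : ℕ) (Δ : Finset (Finset (Fin n))),
    (∃ (m : ℕ) (A : ℕ → Finset (Fin n)) (P : ℕ → Finset (Finset (Fin n)))
        (E : ℕ → Finset (Finset (Fin n))),
      (∀ j, E j = (A j ∪ (P j).sup id).powerset.filter (fun F => ∀ B ∈ P j, ¬ B ⊆ F)) ∧
      A 0 = ∅ ∧
      (∀ j ≤ m, (∀ B ∈ P j, 2 ≤ B.card ∧ Disjoint (A j) B) ∧
        (∀ B ∈ P j, ∀ C ∈ P j, B ≠ C → Disjoint B C) ∧
        (A j).card + ∑ B ∈ P j, (B.card - 1) = d) ∧
      (∀ j, 1 ≤ j → j ≤ m → (A j).Nonempty ∧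
        ((Finset.range j).biUnion E) ∩ E j = (E j).filter (fun F => ¬ A j ⊆ F)) ∧
      Δ = (Finset.range (m + 1)).biUnion E) →
    ∃ (r : ℕ) (M : Finset (Fin r → ℕ)),
      (∀ μ ∈ M, ∀ ν : Fin r → ℕ, ν ≤ μ → ν ∈ M) ∧
      (∀ μ ∈ M, ∀ ν ∈ M, (∀ κ ∈ M, μ ≤ κ → κ = μ) → (∀ κ ∈ M, ν ≤ κ → κ = ν) →
        ∑ i, μ i = ∑ i, ν i) ∧
      ∀ k : ℕ, (((M.filter (fun μ => ∑ i, μ i = k)).card : ℤ) =
        if k ≤ d then
          ∑ i ∈ Finset.range (k + 1), (-1 : ℤ) ^ (k - i) * (((d - i).choose (k - i) : ℕ) : ℤ) *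
            ((Δ.filter (fun F => F.card = i)).card : ℤ)
        else 0)) := by
  intro h
  obtain ⟨r, M, hdown, hpure, hcount⟩ := h 10 6 D0 ⟨2, A0, P0, E0, fun j => rfl, rfl, by
      intro j hj
      interval_cases j
      · decide +kernel
      · decide +kernel
      · decide +kernel, by
      intro j hj1 hj2
      interval_cases j
      · refine ⟨by decide, ?_⟩
        ext F
        have := glue1 F
        simp only [Finset.range_one, Finset.singleton_biUnion, Finset.mem_inter, Finset.mem_filter,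
          mem_E0, mem_E1]
        exact this
      · refine ⟨by decide, ?_⟩
        ext F
        have := glue2 F
        have h01 : F ∈ (Finset.range 2).biUnion E0 ↔ m0 F ∨ m1 F := by
          simp only [Finset.mem_biUnion, Finset.mem_range, ← mem_E0, ← mem_E1]
          constructor
          · rintro ⟨j, hj, h⟩
            interval_cases j
            · exact Or.inl h
            · exact Or.inr h
          · rintro (h | h)
            · exact ⟨0, by norm_num, h⟩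
            · exact ⟨1, by norm_num, h⟩
        simp only [Finset.mem_inter, Finset.mem_filter, h01, mem_E2]
        exact this, rfl⟩
  have c1 := hcount 1
  have c2 := hcount 2
  have c3 := hcount 3
  have c5 := hcount 5
  have c6 := hcount 6
  simp only [Finset.sum_range_succ, Finset.sum_range_zero, f0, f1, f2, f3, f4, f5, f6] at c1 c2 c3 c5 c6
  norm_num [Nat.choose] at c1 c2 c3 c5 c6
  refine Pool.Agent.W298.PS.no_pure M hdown hpure (by exact_mod_cast c1) (by exact_mod_cast c2)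
    (by exact_mod_cast c3) (by exact_mod_cast c5) (by exact_mod_cast c6) ?_
  intro k hk
  have := hcount k
  rw [if_neg (by omega)] at this
  exact_mod_cast this

end Pool.Agent.S08958
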