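import Pool.Statements.S09078
import Pool.Agent.Results.MP_5f9c07_co.Main

set_option autoImplicit false
open scoped Classical
open Pool Pool.MP_5f9c07_co

namespace Pool.Agent.S09078

open Pool.Agent.Helper236 in
theorem eval_charPoly {α : Type} [Fintype α] (M : Matroid α) (x : ℤ) :
    (charPoly M).eval x = ∑ X ∈ Finset.univ.filter (fun X : Finset α => (↑X : Set α) ⊆ M.E),
        (-1 : ℤ) ^ X.card * x ^ ((M.eRk M.E).toNat - (M.eRk (↑X : Set α)).toNat) := by
  unfold charPoly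
  rw [finsum_mem_eq_finite_toFinset_sum _ (Set.toFinite _), Polynomial.eval_finset_sum]
  refine Finset.sum_bij' (fun X _ => X.toFinset) (fun Y _ => (↑Y : Set α)) ?_ ?_ ?_ ?_ ?_
  · intro X hX
    simp only [Set.Finite.mem_toFinset, Set.mem_powerset_iff] at hX
    simpa using hX
  · intro Y hY
    simp only [Finset.mem_filter, Finset.mem_univ, true_and] at hY
    simpa using hY
  · intro X _
    simp
  · intro Y _
    simp
  · intro X _
    simp only [Polynomial.eval_mul, Polynomial.eval_pow, Polynomial.eval_neg, Polynomial.eval_one,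
      Polynomial.eval_X, rk, Set.coe_toFinset]
    rw [Set.ncard_eq_toFinset_card']

open Pool.Agent.Helper236 in
theorem le_critExp {α : Type} (M : Matroid α) (q k : ℕ) (h : (k : ℕ∞) < critExp M q) (j : ℕ)
    (hj : j ≤ k) : (charPoly M).eval ((q : ℤ) ^ j) ≤ 0 := by
  by_contra hcon
  push Not at hcon
  have h1 : critExp M q ≤ (j : ℕ∞) := iInf₂_le j hcon
  have h2 : (j : ℕ∞) ≤ k := by exact_mod_cast hj
  exact absurd h (not_lt.2 (h1.trans h2))

open Pool.Agent.Helper236 in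
theorem critExp_le {α : Type} (M : Matroid α) (q k : ℕ) (h : critExp M q ≤ k) :
    ∃ j ≤ k, 0 < (charPoly M).eval ((q : ℤ) ^ j) := by
  by_contra hcon
  push Not at hcon
  have h1 : ((k + 1 : ℕ) : ℕ∞) ≤ critExp M q := by
    refine le_iInf₂ (fun j hj => ?_)
    have : ¬ j ≤ k := fun h2 => absurd hj (not_lt.2 (hcon j h2))
    have : k + 1 ≤ j := by omega
    exact_mod_cast this
  have h2 := h1.trans h
  have h3 : k + 1 ≤ k := by exact_mod_cast h2
  omega

open Pool.Agent.Helper236 in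
theorem normal_conv {α : Type} (M : Matroid α) (q k : ℕ) (h : IsNormal q k M) :
    ∃ K Q : Matroid (Sym2 (Fin (q ^ k + 1))),
      K.E = {e | ¬ e.IsDiag} ∧
      (∀ I ⊆ K.E, (K.Indep I ↔ (SimpleGraph.fromEdgeSet I).IsAcyclic)) ∧
      Q.E = K.E ∧ (∀ X, Q.IsFlat X → K.IsFlat X) ∧
      ∃ S ⊆ Q.E, (∀ e ∈ S, ∀ f ∈ S, Q.Indep {e, f}) ∧
        (∀ e ∈ Q.E, Q.Indep {e} → ∃ f ∈ S, e = f ∨ ¬ Q.Indep {e, f}) ∧
        ∃ g : α → Sym2 (Fin (q ^ k + 1)),
          Set.InjOn g M.E ∧ g '' M.E = S ∧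
          ∀ I ⊆ M.E, (M.Indep I ↔ Q.Indep (g '' I)) := by
  obtain ⟨K, N, S, hK, hQ, ⟨T, hT1, hT2, rfl⟩, e, he⟩ := h
  have hTE : T ⊆ N.E := fun x hx => (hT1 x hx).mem_ground
  refine ⟨K, N, ?_, hK.2, hQ.1, hQ.2, T, hTE, ?_, ?_, ?_⟩
  · rw [hK.1]
    ext x
    simp
  · intro x hx y hy
    by_contra hcon
    obtain ⟨z, _, hz⟩ := hT2 y (hT1 y hy)
    have h1 := hz x ⟨hx, Or.inr hcon⟩
    have h2 := hz y ⟨hy, Or.inl rfl⟩
    have hxy : x = y := h1.trans h2.symm
    rw [hxy, Set.pair_eq_singleton] at hcon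
    exact hcon (hT1 y hy).indep
  · intro x hx hxi
    obtain ⟨z, ⟨hz1, hz2⟩, _⟩ := hT2 x (Matroid.indep_singleton.1 hxi)
    refine ⟨z, hz1, ?_⟩
    rcases hz2 with hz2 | hz2
    · exact Or.inl hz2.symm
    · right; rwa [Set.pair_comm]
  · let g : α → Sym2 (Fin (q ^ k + 1)) := fun x => if h : x ∈ M.E then (e ⟨x, h⟩).1 else s(0, 0)
    have hg : ∀ x (h : x ∈ M.E), g x = (e ⟨x, h⟩).1 := fun x h => dif_pos h
    refine ⟨g, ?_, ?_, ?_⟩
    · intro x hx y hy hxy
      rw [hg x hx, hg y hy] at hxy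
      have := e.injective (Subtype.ext hxy)
      exact congrArg Subtype.val this
    · ext z
      constructor
      · rintro ⟨x, hx, rfl⟩
        rw [hg x hx]
        exact (e ⟨x, hx⟩).2
      · intro hz
        refine ⟨(e.symm ⟨z, hz⟩).1, (e.symm ⟨z, hz⟩).2, ?_⟩
        rw [hg _ (e.symm ⟨z, hz⟩).2]
        exact congrArg Subtype.val (e.apply_symm_apply ⟨z, hz⟩)
    · intro I hI
      have h1 := he ((↑) ⁻¹' I)
      have h2 : ((↑) '' ((↑) ⁻¹' I : Set M.E) : Set α) = I := by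
        rw [Subtype.image_preimage_coe]
        exact Set.inter_eq_right.2 hI
      have h3 : ((↑) '' (e '' ((↑) ⁻¹' I : Set M.E)) : Set (Sym2 (Fin (q ^ k + 1)))) = g '' I := by
        ext z
        constructor
        · rintro ⟨_, ⟨x, hx, rfl⟩, rfl⟩
          exact ⟨x.1, hx, hg x.1 x.2⟩
        · rintro ⟨x, hx, rfl⟩
          exact ⟨e ⟨x, hI hx⟩, ⟨⟨x, hI hx⟩, hx, rfl⟩, (hg x (hI hx)).symm⟩
      rw [h2, h3, Matroid.restrict_indep_iff] at h1
      rw [h1]
      refine and_iff_left ?_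
      rintro _ ⟨x, hx, rfl⟩
      rw [hg x (hI hx)]
      exact (e ⟨x, hI hx⟩).2

/-- The negation of the preceding statement: For every finite field of order q and k ≥ 1, every simple GF(q)-representable tangential k-block isomorphic to the simplification of a quotient of the cycle matroid of K_{q^k+1} has a modular hyperplane. -/
theorem result :
    ¬ (∀ (F : Type) [Field F] [Fintype F] (k : ℕ), 1 ≤ k →
  ∀ (α : Type) [Fintype α] (M : Matroid α),
    (∃ (n : ℕ) (v : α → Fin n → F),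
      ∀ I ⊆ M.E, (M.Indep I ↔ LinearIndependent F (fun x : I => v x))) →
    (∀ e ∈ M.E, ∀ f ∈ M.E, M.Indep {e, f}) →
    (∀ j ≤ k,
      (∑ X ∈ Finset.univ.filter (fun X : Finset α => (↑X : Set α) ⊆ M.E),
        (-1 : ℤ) ^ X.card * ((Fintype.card F : ℤ) ^ j) ^
          ((M.eRk M.E).toNat - (M.eRk (↑X : Set α)).toNat)) ≤ 0) →
    (∀ N : Matroid α,
      (∃ C D : Set α, C ⊆ M.E ∧ D ⊆ M.E ∧ Disjoint C D ∧ (C ∪ D).Nonempty ∧
        N = (M.contract C).delete D) →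
      (∀ e ∈ N.E, ∀ f ∈ N.E, N.Indep {e, f}) →
      ∃ j ≤ k, 0 <
        (∑ X ∈ Finset.univ.filter (fun X : Finset α => (↑X : Set α) ⊆ N.E),
          (-1 : ℤ) ^ X.card * ((Fintype.card F : ℤ) ^ j) ^
            ((N.eRk N.E).toNat - (N.eRk (↑X : Set α)).toNat))) →
    (∃ K Q : Matroid (Sym2 (Fin (Fintype.card F ^ k + 1))),
      K.E = {e | ¬ e.IsDiag} ∧
      (∀ I ⊆ K.E, (K.Indep I ↔ (SimpleGraph.fromEdgeSet I).IsAcyclic)) ∧
      Q.E = K.E ∧ (∀ X, Q.IsFlat X → K.IsFlat X) ∧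
      ∃ S ⊆ Q.E, (∀ e ∈ S, ∀ f ∈ S, Q.Indep {e, f}) ∧
        (∀ e ∈ Q.E, Q.Indep {e} → ∃ f ∈ S, e = f ∨ ¬ Q.Indep {e, f}) ∧
        ∃ g : α → Sym2 (Fin (Fintype.card F ^ k + 1)),
          Set.InjOn g M.E ∧ g '' M.E = S ∧
          ∀ I ⊆ M.E, (M.Indep I ↔ Q.Indep (g '' I))) →
    ∃ H : Set α, M.IsFlat H ∧ M.eRk H + 1 = M.eRk M.E ∧
      ∀ X : Set α, M.IsFlat X →
        M.eRk H + M.eRk X = M.eRk (H ∪ X) + M.eRk (H ∩ X)) := by
  intro H
  have hfinM := Pool.Agent.Helper236.Ex5.Mat_finite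
  have hcard : Fintype.card (ZMod 5) = 5 := ZMod.card 5
  have hmin : ∀ N : Matroid (Fin 10), N.IsMinor Pool.Agent.Helper236.Ex5.Mat →
      N ≠ Pool.Agent.Helper236.Ex5.Mat → Pool.Agent.Helper236.IsSimple N →
      Pool.Agent.Helper236.critExp N 5 ≤ 1 := by
    intro N hN hne hs
    have := Pool.Agent.Helper236.Ex5.Mat_minor hN hne (Pool.Agent.Helper236.isSimple_nonloop hs)
    rwa [Nat.card_zmod] at this
  have hcrit := Pool.Agent.Helper236.Ex5.Mat_critExp_gt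
  rw [Nat.card_zmod] at hcrit
  have hnormal := Pool.Agent.Helper236.Ex5.Mat_normal
  obtain ⟨K, hK1, hK2, hK3⟩ := H (ZMod 5) 1 le_rfl (Fin 10) Pool.Agent.Helper236.Ex5.Mat
    ⟨3, Pool.Agent.Helper236.Ex5.pt, Pool.Agent.Helper236.Ex5.Mat_rep⟩
    Pool.Agent.Helper236.Ex5.Mat_simple
    (fun j hj => by
      rw [← eval_charPoly, hcard]
      exact le_critExp _ 5 1 hcrit j hj)
    (fun N hN hs => by
      obtain ⟨C, D, hC, hD, _, hne, rfl⟩ := hN
      obtain ⟨j, hj, hj2⟩ := critExp_le _ 5 1 (hmin _ (Matroid.contract_delete_isMinor _ C D) (by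
        intro heq
        have h1 := congrArg Matroid.E heq
        rw [Matroid.delete_ground, Matroid.contract_ground] at h1
        obtain ⟨x, hx⟩ := hne
        have hxE : x ∈ (Pool.Agent.Helper236.Ex5.Mat).E := hx.elim (fun h => hC h) (fun h => hD h)
        rw [← h1] at hxE
        rcases hx with hx | hx
        · exact hxE.1.2 hx
        · exact hxE.2 hx) hs)
      refine ⟨j, hj, ?_⟩
      rw [← eval_charPoly, hcard]
      exact hj2)
    (by
      rw [hcard]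
      exact normal_conv _ 5 1 hnormal)
  apply Pool.Agent.Helper236.Ex5.Mat_not_modular
  have hf : ∀ X : Set (Fin 10), (Pool.Agent.Helper236.Ex5.Mat).eRk X ≠ ⊤ := fun X =>
    ((Pool.Agent.Helper236.Ex5.Mat).isRkFinite_of_finite (Set.toFinite X)).eRk_lt_top.ne
  refine ⟨K, ⟨hK1, fun X hX => ?_⟩, ?_⟩
  · have := congrArg ENat.toNat (hK3 X hX)
    rw [ENat.toNat_add (hf _) (hf _), ENat.toNat_add (hf _) (hf _)] at this
    exact this
  · have := congrArg ENat.toNat hK2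
    rw [ENat.toNat_add (hf _) (by simp)] at this
    exact this

end Pool.Agent.S09078
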