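import Pool.Statements.S09181
import Pool.Agent.W143.WP.T_AV
import Pool.Agent.W143.WP.T_COMP
import Pool.Agent.W143.WP.T_ARR
import Pool.Agent.W143.WP.T_MAIN
import Pool.Agent.W143.WP.T_PM
import Pool.Agent.W143.WP.T_PR
import Pool.Agent.W143.WP.T_COL
import Pool.Agent.W143.WP.T_DEP
import Pool.Agent.W143.WP.T_KO
import Pool.Agent.W143.WP.T_CI

set_option autoImplicit false
open Classical
open Pool Pool.MP_632be6_co

namespace Pool.Agent.S09181

/-- For all finite simple graphs G (with an edge) and G', if the chromatic index of G equals its maximum degree, then the chromatic index of the wreath product G ρ G' equals its maximum degree. -/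
theorem result :
    ∀ (V W : Type) [Fintype V] [Fintype W] (G : SimpleGraph V) (G' : SimpleGraph W)
      (H : SimpleGraph (V × W)),
      H = SimpleGraph.fromRel (fun p q : V × W =>
            (p.1 = q.1 ∧ G'.Adj p.2 q.2) ∨
            (G.Adj p.1 q.1 ∧ ∃ φ : G' ≃g G', φ p.2 = q.2)) →
      G.edgeSet.Nonempty →
      sInf {k : ℕ | ∃ c : Sym2 V → Fin k, ∀ e ∈ G.edgeSet, ∀ f ∈ G.edgeSet,
              e ≠ f → (∃ v, v ∈ e ∧ v ∈ f) → c e ≠ c f} = G.maxDegree →
      sInf {k : ℕ | ∃ c : Sym2 (V × W) → Fin k, ∀ e ∈ H.edgeSet, ∀ f ∈ H.edgeSet,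
              e ≠ f → (∃ v, v ∈ e ∧ v ∈ f) → c e ≠ c f} = H.maxDegree := by
  exact Pool.Agent.W143.WP.t_MAIN
    (Pool.Agent.W143.WP.t_ARR
      (Pool.Agent.W143.WP.t_COMP
        (Pool.Agent.W143.WP.t_INS Pool.Agent.W143.WP.t_AV)
        (Pool.Agent.W143.WP.t_PR Pool.Agent.W143.WP.t_PM)
        Pool.Agent.W143.WP.t_KO Pool.Agent.W143.WP.t_CI Pool.Agent.W143.WP.t_DEP))
    Pool.Agent.W143.WP.t_COL

end Pool.Agent.S09181
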