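import Pool.Statements.S09191
import Pool.Agent.W243.PeakMain

set_option autoImplicit false
open Pool Pool.MP_63b2dc_co

namespace Pool.Agent.S09191

open Pool.Agent.W243.Peak in
/-- the counts of the frozen statement -/
theorem card_eq (S : Finset ℕ) (n : ℕ) :
    Nat.card {π : Equiv.Perm (Fin n) //
      ∀ j : Fin n, (j.val + 1 ∈ S ↔
        ∃ h : j.val + 1 < n, 0 < j.val ∧
          π ⟨j.val - 1, lt_of_le_of_lt (Nat.sub_le j.val 1) j.isLt⟩ < π j ∧
          π ⟨j.val + 1, h⟩ < π j)} = c S n := by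
  unfold c
  refine Nat.card_congr (Equiv.subtypeEquiv (Equiv.refl _) ?_)
  intro π
  simp only [Equiv.refl_apply]
  unfold PAS PkF
  constructor
  · intro H j hj
    have h := H ⟨j, hj⟩
    simp only at h
    rw [h]
    constructor
    · rintro ⟨h1, h2, h3, h4⟩
      exact ⟨h2, h1, h3, h4⟩
    · rintro ⟨h1, h2, h3, h4⟩
      exact ⟨h2, h1, h3, h4⟩
  · intro H j
    have h := H j.val j.isLt
    rw [h]
    constructor
    · rintro ⟨h1, h2, h3, h4⟩
      exact ⟨h2, h1, h3, h4⟩
    · rintro ⟨h1, h2, h3, h4⟩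
      exact ⟨h2, h1, h3, h4⟩

open Pool.Agent.W243.Peak in
/-- For every nonempty admissible peak set S (elements at least 2, no two consecutive), every complex root z of its peak polynomial p_S satisfies ∣z∣ ≤ max S and Re z ≥ −3. -/
theorem result :
    ∀ (S : Finset ℕ) (hS : S.Nonempty),
      (∀ i ∈ S, 2 ≤ i ∧ i + 1 ∉ S) →
      ∀ p : Polynomial ℂ,
        (∃ N : ℕ, ∀ n : ℕ, N ≤ n →
          ((Nat.card {π : Equiv.Perm (Fin n) //
              ∀ j : Fin n, (j.val + 1 ∈ S ↔
                ∃ h : j.val + 1 < n, 0 < j.val ∧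
                  π ⟨j.val - 1, lt_of_le_of_lt (Nat.sub_le j.val 1) j.isLt⟩ < π j ∧
                  π ⟨j.val + 1, h⟩ < π j)} : ℂ)
            = p.eval (n : ℂ) * 2 ^ (n - S.card - 1))) →
        ∀ z : ℂ, p.IsRoot z → ‖z‖ ≤ (S.max' hS : ℝ) ∧ -3 ≤ z.re := by
  intro S hS hadm p hp z hz
  obtain ⟨N, hN⟩ := hp
  obtain ⟨f, hf1, hf2⟩ := exists_poly S hadm
  have heval : ∀ n : ℕ, N + S.sup id + S.card + 1 ≤ n →
      p.eval (n : ℂ) = (f.map (algebraMap ℝ ℂ)).eval (n : ℂ) := by
    intro n hn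
    have h1 := hN n (by omega)
    rw [card_eq] at h1
    have h2 := hf2 n (by omega) (by omega)
    have h3 : (f.map (algebraMap ℝ ℂ)).eval (n : ℂ) = ((f.eval (n : ℝ) : ℝ) : ℂ) := by
      rw [Polynomial.eval_map_algebraMap, aeval_nat]
    rw [h3]
    have h4 : (2 : ℂ) ^ n = 2 ^ (n - S.card - 1) * 2 ^ (S.card + 1) := by
      rw [← pow_add]
      congr 1
      omega
    have h5 : (c S n : ℂ) * 2 ^ (S.card + 1) = ((f.eval (n : ℝ) : ℝ) : ℂ) * 2 ^ n := by
      exact_mod_cast congrArg (fun r : ℝ => (r : ℂ)) h2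
    rw [h1, h4] at h5
    have h6 : (2 : ℂ) ^ (n - S.card - 1) * 2 ^ (S.card + 1) ≠ 0 :=
      mul_ne_zero (pow_ne_zero _ two_ne_zero) (pow_ne_zero _ two_ne_zero)
    apply mul_right_cancel₀ h6
    linear_combination h5
  have hpf : p = f.map (algebraMap ℝ ℂ) := by
    apply Polynomial.eq_of_infinite_eval_eq
    have hinf : Set.Infinite (Set.range (fun k : ℕ => ((N + S.sup id + S.card + 1 + k : ℕ) : ℂ))) := by
      apply Set.infinite_range_of_injective
      intro a b hab
      simp only at hab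
      have : N + S.sup id + S.card + 1 + a = N + S.sup id + S.card + 1 + b := by
        exact_mod_cast hab
      omega
    refine hinf.mono ?_
    rintro x ⟨k, rfl⟩
    exact heval _ (by omega)
  have hz0 : Polynomial.aeval z f = 0 := by
    rw [← Polynomial.eval_map_algebraMap, ← hpf]
    exact hz
  have hsup : S.sup id = S.max' hS := by
    apply le_antisymm
    · exact Finset.sup_le (fun i hi => Finset.le_max' S i hi)
    · exact le_sup_id (Finset.max'_mem S hS)
  have hne : S.sup id ≠ 0 := by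
    have h1 := (hadm _ (sup_mem hS)).1
    omega
  obtain ⟨_, _, _, h⟩ := hf1.step hne
  have := h z hz0
  rw [hsup] at this
  exact this

end Pool.Agent.S09191
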