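import Pool.Statements.S09197
import Pool.Agent.W114.TP2.Final

set_option autoImplicit false
open Pool Pool.MP_63edde_co

namespace Pool.Agent.S09197

/-- For every finite graph with 3·(min degree)+5 ≥ 2n and every 2-colouring of its edges, the vertices split into at most two disjoint sets, each connected in a single colour class. -/
theorem result :
    ∀ (V : Type) [Fintype V] [DecidableEq V] (G : SimpleGraph V) [DecidableRel G.Adj],
      2 * Fintype.card V ≤ 3 * G.minDegree + 5 →
      ∀ c : Sym2 V → Fin 2,
        ∃ A B : Set V, Disjoint A B ∧ A ∪ B = Set.univ ∧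
          (A = ∅ ∨ ∃ i : Fin 2, ((G.deleteEdges {e | c e ≠ i}).induce A).Connected) ∧
          (B = ∅ ∨ ∃ i : Fin 2, ((G.deleteEdges {e | c e ≠ i}).induce B).Connected) := by
  intro V _ _ G _ hG c
  exact Pool.Agent.W114.TP2.final V G hG c

end Pool.Agent.S09197
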