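import Pool.Statements.S09250
import Pool.Agent.H659Houg.Core2

set_option autoImplicit false
open SimpleGraph
open Pool Pool.MP_66ff79_co

namespace Pool.Agent.S09250

open Pool.Agent.H659Houg in
/-- the two forms of strict quasi-parity agree -/
theorem sqp_iff {V : Type} (G : SimpleGraph V) :
    StrictQuasiParity G ↔
      (∀ S : Set V, ¬ G.IsClique S →
            ∃ u ∈ S, ∃ v ∈ S, u ≠ v ∧
              ∀ (k : ℕ) (f : SimpleGraph.pathGraph (k + 1) ↪g G),
                (∀ i, f i ∈ S) → f 0 = u → f (Fin.last k) = v → Even k) := by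
  constructor
  · intro h S hS
    obtain ⟨u, v, huv, hev⟩ := h S hS
    refine ⟨u, u.2, v, v.2, fun he => huv (Subtype.ext he), ?_⟩
    intro k f hf h0 h1
    refine hev k ⟨⟨⟨fun i => ⟨f i, hf i⟩, ?_⟩, ?_⟩, ?_, ?_⟩
    · intro i j hij
      exact f.injective (congrArg Subtype.val hij)
    · intro i j
      simp only [Function.Embedding.coeFn_mk, comap_adj, Function.Embedding.subtype_apply]
      exact f.map_adj_iff
    · exact Subtype.ext h0
    · exact Subtype.ext h1
  · intro h S hS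
    obtain ⟨u, hu, v, hv, huv, hev⟩ := h S hS
    refine ⟨⟨u, hu⟩, ⟨v, hv⟩, fun he => huv (congrArg Subtype.val he), ?_⟩
    rintro n ⟨g, hg0, hg1⟩
    refine hev n (g.trans (Embedding.induce S)) ?_ ?_ ?_
    · intro i
      exact (g i).2
    · show ((g 0 : S) : V) = u
      rw [hg0]
    · show ((g (Fin.last n) : S) : V) = v
      rw [hg1]

open Pool.Agent.H659Houg in
/-- The negation of the preceding statement: There is a family of line graphs of bipartite graphs such that a finite graph is strict quasi-parity (every non-clique induced subgraph has an even pair) iff it has no induced odd hole, no antihole on at least 5 vertices, and no member of the family. -/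
theorem result :
    ¬ (∃ F : Set (Σ n : ℕ, SimpleGraph (Fin n)),
      (∀ H ∈ F, ∃ m : ℕ, ∃ B : SimpleGraph (Fin m),
          B.Colorable 2 ∧ Nonempty (B.lineGraph ≃g H.2)) ∧
      ∀ (n : ℕ) (G : SimpleGraph (Fin n)),
        (∀ S : Set (Fin n), ¬ G.IsClique S →
            ∃ u ∈ S, ∃ v ∈ S, u ≠ v ∧
              ∀ (k : ℕ) (f : SimpleGraph.pathGraph (k + 1) ↪g G),
                (∀ i, f i ∈ S) → f 0 = u → f (Fin.last k) = v → Even k)
        ↔
        ((¬ ∃ m : ℕ, 5 ≤ m ∧ Odd m ∧ Nonempty (SimpleGraph.cycleGraph m ↪g G)) ∧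
         (¬ ∃ m : ℕ, 5 ≤ m ∧ Nonempty ((SimpleGraph.cycleGraph m)ᶜ ↪g G)) ∧
         (¬ ∃ H ∈ F, Nonempty (H.2 ↪g G)))) := by
  rintro ⟨F, hF, hequiv⟩
  have hG := (hequiv 14 Pool.Agent.H659Houg.G).not.1 (fun h => G_not_sqp ((sqp_iff _).2 h))
  have hex : ∃ L ∈ F, Nonempty (L.2 ↪g Pool.Agent.H659Houg.G) := by
    by_contra hcon
    refine hG ⟨?_, G_no_antihole, hcon⟩
    rintro ⟨m, hm, hodd, hne⟩
    exact G_no_odd_hole ⟨m, by omega, hodd, hne⟩
  obtain ⟨L, hL, ⟨φ⟩⟩ := hex
  obtain ⟨W, H, -, ⟨ψ⟩⟩ := hF L hL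
  have hns : ¬ Function.Surjective φ := by
    intro hs
    exact G_not_lineGraph H ⟨(RelIso.ofSurjective φ hs).symm.trans ψ.symm⟩
  have hsqp := sqp_of_embedding L.2 φ hns
  exact ((hequiv _ L.2).1 ((sqp_iff _).1 hsqp)).2.2 ⟨L, hL, ⟨Embedding.refl⟩⟩

end Pool.Agent.S09250
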