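import Pool.Statements.S09347
import Pool.Agent.W145.ED.Graph

set_option autoImplicit false
open Pool Pool.MP_6cb088_co

namespace Pool.Agent.S09347

/-- There is a finite triangle-free graph whose eternal domination number (one guard moves per attack) equals its independence number, which is strictly less than its clique covering number (chromatic number of the complement). -/
theorem result :
  ∃ (V : Type) (_ : Fintype V) (_ : DecidableEq V) (G : SimpleGraph V),
    G.CliqueFree 3 ∧
    (∃ F : Set (Finset V), F.Nonempty ∧ ∀ D ∈ F, D.card = G.indepNum ∧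
        ∀ v : V, ∃ u ∈ D, (u = v ∨ G.Adj u v) ∧ insert v (D.erase u) ∈ F) ∧
    (∀ k : ℕ, k < G.indepNum → ¬ ∃ F : Set (Finset V), F.Nonempty ∧ ∀ D ∈ F, D.card = k ∧
        ∀ v : V, ∃ u ∈ D, (u = v ∨ G.Adj u v) ∧ insert v (D.erase u) ∈ F) ∧
    ((G.indepNum : ℕ∞) < Gᶜ.chromaticNumber) := by
  classical
  refine ⟨(Fin 32 × Bool) ⊕ Option (Fin 32 × Bool), inferInstance, inferInstance,
    Pool.Agent.W145.ED.gr Pool.Agent.W145.ED.cval, Pool.Agent.W145.ED.gr_cliqueFree,
    ⟨Pool.Agent.W145.ED.fam Pool.Agent.W145.ED.cval,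
      Pool.Agent.W145.ED.fam_nonempty Pool.Agent.W145.ED.code_cval, ?_⟩, ?_,
    Pool.Agent.W145.ED.gr_chromatic Pool.Agent.W145.ED.code_cval⟩
  · intro D hD
    refine ⟨?_, ?_⟩
    · rw [Pool.Agent.W145.ED.gr_indepNum Pool.Agent.W145.ED.code_cval]
      exact Pool.Agent.W145.ED.fam_card Pool.Agent.W145.ED.code_cval D hD
    · exact Pool.Agent.W145.ED.fam_closed Pool.Agent.W145.ED.code_cval D hD
  · rintro k hk ⟨F, hne, hF⟩
    obtain ⟨S, hS⟩ := (Pool.Agent.W145.ED.gr Pool.Agent.W145.ED.cval).exists_isNIndepSet_indepNum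
    obtain ⟨D, hD, hSD⟩ := Pool.Agent.W145.ED.indep_sub _ F hne (fun D hD => (hF D hD).2) S
      hS.isIndepSet
    have h1 := Finset.card_le_card hSD
    rw [hS.card_eq, (hF D hD).1] at h1
    omega

end Pool.Agent.S09347
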