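import Pool.Statements.S09354
import Pool.Agent.W238.Darcais

set_option autoImplicit false
open Pool Pool.MP_6d0115_co

namespace Pool.Agent.S09354

open Finset Pool.Agent.W238.Darcais

/-- The D'Arcais polynomials. -/
noncomputable def PP : ℕ → Polynomial ℚ
  | 0 => 1
  | (n + 1) => Polynomial.C (1 / ((n + 1 : ℕ) : ℚ)) * (Polynomial.X *
      ∑ k : Fin (n + 1), ((ArithmeticFunction.sigma 1 (n + 1 - (k : ℕ)) : ℕ) : Polynomial ℚ) * PP k)
  termination_by n => n
  decreasing_by exact k.2

theorem PP_zero : PP 0 = 1 := by rw [PP]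

theorem PP_rec (n : ℕ) (hn : 1 ≤ n) : (n : Polynomial ℚ) * PP n =
    Polynomial.X * ∑ k ∈ Finset.Icc 1 n,
      ((ArithmeticFunction.sigma 1 k : ℕ) : Polynomial ℚ) * PP (n - k) := by
  obtain ⟨m, rfl⟩ : ∃ m, n = m + 1 := ⟨n - 1, by omega⟩
  rw [PP]
  have h1 : (((m + 1 : ℕ)) : Polynomial ℚ) * Polynomial.C (1 / ((m + 1 : ℕ) : ℚ)) = 1 := by
    rw [← Polynomial.C_eq_natCast, ← Polynomial.C_mul]
    have : ((m + 1 : ℕ) : ℚ) ≠ 0 := by positivity
    rw [mul_one_div_cancel this, Polynomial.C_1]
  rw [← mul_assoc, h1, one_mul]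
  congr 1
  rw [Fin.sum_univ_eq_sum_range (fun k => ((ArithmeticFunction.sigma 1 (m + 1 - k) : ℕ) :
    Polynomial ℚ) * PP k) (m + 1)]
  refine Finset.sum_nbij' (fun k => m + 1 - k) (fun k => m + 1 - k) ?_ ?_ ?_ ?_ ?_
  · intro k hk
    rw [Finset.mem_range] at hk
    rw [Finset.mem_Icc]
    omega
  · intro k hk
    rw [Finset.mem_Icc] at hk
    rw [Finset.mem_range]
    omega
  · intro k hk
    rw [Finset.mem_range] at hk
    change m + 1 - (m + 1 - k) = k
    omega
  · intro k hk
    rw [Finset.mem_Icc] at hk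
    change m + 1 - (m + 1 - k) = k
    omega
  · intro k hk
    rw [Finset.mem_range] at hk
    change _ = ((ArithmeticFunction.sigma 1 (m + 1 - k) : ℕ) : Polynomial ℚ) *
      PP (m + 1 - (m + 1 - k))
    have : m + 1 - (m + 1 - k) = k := by omega
    rw [this]

theorem coeff_rec (n j : ℕ) (hn : 1 ≤ n) : (n : ℚ) * (PP n).coeff (j + 1) =
    ∑ k ∈ Finset.Icc 1 n, ((ArithmeticFunction.sigma 1 k : ℕ) : ℚ) * (PP (n - k)).coeff j := by
  have h := congrArg (fun p => Polynomial.coeff p (j + 1)) (PP_rec n hn)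
  simp only [Polynomial.coeff_X_mul, Polynomial.finsetSum_coeff] at h
  rw [← Polynomial.C_eq_natCast, Polynomial.coeff_C_mul] at h
  rw [h]
  apply Finset.sum_congr rfl
  intro k _
  rw [← Polynomial.C_eq_natCast, Polynomial.coeff_C_mul]

theorem coeff_zero (n : ℕ) : (PP n).coeff 0 = if n = 0 then 1 else 0 := by
  rcases Nat.eq_zero_or_pos n with rfl | hn
  · rw [PP_zero]
    simp
  · rw [if_neg (by omega)]
    have h := congrArg (fun p => Polynomial.coeff p 0) (PP_rec n hn)
    simp only [Polynomial.coeff_X_mul_zero] at h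
    rw [← Polynomial.C_eq_natCast, Polynomial.coeff_C_mul] at h
    rcases mul_eq_zero.1 h with h1 | h1
    · exfalso
      have : (0 : ℚ) < n := by exact_mod_cast hn
      exact this.ne' (by simpa using h1)
    · exact h1

theorem coeff_one (n : ℕ) : (PP n).coeff 1 = c n := by
  rcases Nat.eq_zero_or_pos n with rfl | hn
  · rw [PP_zero]
    simp [c, Polynomial.coeff_one]
  · have h := coeff_rec n 0 hn
    rw [Finset.sum_eq_single n] at h
    · rw [Nat.sub_self, coeff_zero, if_pos rfl, mul_one] at h
      have : (0 : ℚ) < n := by exact_mod_cast hn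
      unfold c
      rw [eq_div_iff this.ne', ← h]
      ring
    · intro k hk hkn
      rw [Finset.mem_Icc] at hk
      rw [coeff_zero, if_neg (by omega), mul_zero]
    · intro h1
      exact absurd (Finset.mem_Icc.2 ⟨hn, le_rfl⟩) h1

theorem coeff_two_le (n : ℕ) (hn : 1 ≤ n) : (PP n).coeff 2 ≤ 8 * n := by
  have hn0 : (0 : ℚ) < n := by exact_mod_cast hn
  have h := coeff_rec n 1 hn
  have h1 : ∑ k ∈ Finset.Icc 1 n, ((ArithmeticFunction.sigma 1 k : ℕ) : ℚ) * (PP (n - k)).coeff 1 ≤
      n * (8 * n) := by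
    have h2 : ∀ k ∈ Finset.Icc 1 n, ((ArithmeticFunction.sigma 1 k : ℕ) : ℚ) * (PP (n - k)).coeff 1 ≤
        n * ((c k ^ 2 + c (n - k) ^ 2) / 2) := by
      intro k hk
      rw [Finset.mem_Icc] at hk
      have hk0 : (0 : ℚ) < k := by exact_mod_cast hk.1
      rw [coeff_one]
      have h3 : ((ArithmeticFunction.sigma 1 k : ℕ) : ℚ) = k * c k := by
        unfold c
        field_simp
      rw [h3]
      have h4 : (k : ℚ) ≤ n := by exact_mod_cast hk.2
      have h5 := c_nonneg k
      have h6 := c_nonneg (n - k)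
      have h7 : c k * c (n - k) ≤ (c k ^ 2 + c (n - k) ^ 2) / 2 := by nlinarith [sq_nonneg (c k - c (n - k))]
      calc (k : ℚ) * c k * c (n - k) = k * (c k * c (n - k)) := by ring
        _ ≤ n * (c k * c (n - k)) := by
            apply mul_le_mul_of_nonneg_right h4
            positivity
        _ ≤ _ := by
            apply mul_le_mul_of_nonneg_left h7
            positivity
    refine (Finset.sum_le_sum h2).trans ?_
    rw [← Finset.mul_sum, ← Finset.sum_div, Finset.sum_add_distrib]
    have h8 : ∑ k ∈ Finset.Icc 1 n, c (n - k) ^ 2 ≤ ∑ k ∈ Finset.Icc 1 n, c k ^ 2 := by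
      have h9 : ∑ k ∈ Finset.Icc 1 n, c (n - k) ^ 2 = ∑ k ∈ Finset.range n, c k ^ 2 := by
        refine Finset.sum_nbij' (fun k => n - k) (fun k => n - k) ?_ ?_ ?_ ?_ ?_
        · intro k hk
          rw [Finset.mem_Icc] at hk
          rw [Finset.mem_range]
          omega
        · intro k hk
          rw [Finset.mem_range] at hk
          rw [Finset.mem_Icc]
          omega
        · intro k hk
          rw [Finset.mem_Icc] at hk
          change n - (n - k) = k
          omega
        · intro k hk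
          rw [Finset.mem_range] at hk
          change n - (n - k) = k
          omega
        · intro k _
          rfl
      rw [h9]
      have h10 : ∑ k ∈ Finset.range n, c k ^ 2 = ∑ k ∈ Finset.Icc 1 (n - 1), c k ^ 2 := by
        have h11 : Finset.range n = insert 0 (Finset.Icc 1 (n - 1)) := by
          ext k
          rw [Finset.mem_range, Finset.mem_insert, Finset.mem_Icc]
          omega
        rw [h11, Finset.sum_insert (by simp)]
        simp [c]
      rw [h10]
      apply Finset.sum_le_sum_of_subset_of_nonneg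
      · exact Finset.Icc_subset_Icc_right (by omega)
      · intro k _ _
        positivity
    have h12 := sum_sq_le n
    apply mul_le_mul_of_nonneg_left _ hn0.le
    linarith
  rw [← h] at h1
  exact le_of_mul_le_mul_left h1 hn0

theorem le_coeff_two (n : ℕ) (hn : 1 ≤ n) : ((n : ℚ) - 1) / 2 ≤ (PP n).coeff 2 := by
  have hn0 : (0 : ℚ) < n := by exact_mod_cast hn
  have h := coeff_rec n 1 hn
  have h1 : (n : ℚ) * (((n : ℚ) - 1) / 2) ≤
      ∑ k ∈ Finset.Icc 1 n, ((ArithmeticFunction.sigma 1 k : ℕ) : ℚ) * (PP (n - k)).coeff 1 := by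
    have h2 : ∑ k ∈ Finset.range n, (k : ℚ) = n * (((n : ℚ) - 1) / 2) := by
      have : ∀ m : ℕ, ∑ k ∈ Finset.range m, (k : ℚ) = m * (((m : ℚ) - 1) / 2) := by
        intro m
        induction m with
        | zero => simp
        | succ m ih =>
          rw [Finset.sum_range_succ, ih]
          push_cast
          ring
      exact this n
    rw [← h2]
    have h3 : Finset.range n = insert 0 (Finset.Icc 1 (n - 1)) := by
      ext k
      rw [Finset.mem_range, Finset.mem_insert, Finset.mem_Icc]
      omega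
    rw [h3, Finset.sum_insert (by simp), Nat.cast_zero, zero_add]
    calc ∑ k ∈ Finset.Icc 1 (n - 1), (k : ℚ)
        ≤ ∑ k ∈ Finset.Icc 1 (n - 1), ((ArithmeticFunction.sigma 1 k : ℕ) : ℚ) * (PP (n - k)).coeff 1 := by
          apply Finset.sum_le_sum
          intro k hk
          rw [Finset.mem_Icc] at hk
          rw [coeff_one]
          have h4 := le_sigma (k := k) (by omega)
          have h5 := one_le_c (k := n - k) (by omega)
          have h6 : (0 : ℚ) ≤ k := by positivity
          nlinarith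
      _ ≤ _ := by
          apply Finset.sum_le_sum_of_subset_of_nonneg
          · exact Finset.Icc_subset_Icc_right (by omega)
          · intro k _ _
            rw [coeff_one]
            have := c_nonneg (n - k)
            positivity
  rw [← h] at h1
  exact le_of_mul_le_mul_left h1 hn0

theorem le_coeff_three (n : ℕ) (hn : 1 ≤ n) :
    ((n : ℚ) - 1) * ((n : ℚ) - 2) / 12 ≤ (PP n).coeff 3 := by
  have hn0 : (0 : ℚ) < n := by exact_mod_cast hn
  have h := coeff_rec n 2 hn
  have h1 : (n : ℚ) * (((n : ℚ) - 1) * ((n : ℚ) - 2) / 12) ≤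
      ∑ k ∈ Finset.Icc 1 n, ((ArithmeticFunction.sigma 1 k : ℕ) : ℚ) * (PP (n - k)).coeff 2 := by
    have h2 : ∑ k ∈ Finset.range n, (k : ℚ) * (((n : ℚ) - k - 1) / 2) =
        n * (((n : ℚ) - 1) * ((n : ℚ) - 2) / 12) := by
      have : ∀ m : ℕ, ∑ k ∈ Finset.range m, (k : ℚ) * (((n : ℚ) - k - 1) / 2) =
          (((n : ℚ) - 1) / 2) * (m * (((m : ℚ) - 1) / 2)) -
            (m * ((m : ℚ) - 1) * (2 * m - 1) / 12) := by
        intro m
        induction m with
        | zero => simp
        | succ m ih =>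
          rw [Finset.sum_range_succ, ih]
          push_cast
          ring
      rw [this n]
      ring
    rw [← h2]
    have h3 : Finset.range n = insert 0 (Finset.Icc 1 (n - 1)) := by
      ext k
      rw [Finset.mem_range, Finset.mem_insert, Finset.mem_Icc]
      omega
    rw [h3, Finset.sum_insert (by simp), Nat.cast_zero, zero_mul, zero_add]
    have h7 : ∀ k ∈ Finset.Icc 1 (n - 1), (0 : ℚ) ≤ (PP (n - k)).coeff 2 := by
      intro k hk
      rw [Finset.mem_Icc] at hk
      have h8 := le_coeff_two (n - k) (by omega)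
      have h9 : (1 : ℚ) ≤ ((n - k : ℕ) : ℚ) := by
        have : 1 ≤ n - k := by omega
        exact_mod_cast this
      linarith
    calc ∑ k ∈ Finset.Icc 1 (n - 1), (k : ℚ) * (((n : ℚ) - k - 1) / 2)
        ≤ ∑ k ∈ Finset.Icc 1 (n - 1), ((ArithmeticFunction.sigma 1 k : ℕ) : ℚ) *
            (PP (n - k)).coeff 2 := by
          apply Finset.sum_le_sum
          intro k hk
          have h7' := h7 k hk
          rw [Finset.mem_Icc] at hk
          have h4 := le_sigma (k := k) (by omega)
          have h5 := le_coeff_two (n - k) (by omega)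
          rw [Nat.cast_sub (by omega)] at h5
          have h6 : (0 : ℚ) ≤ k := by positivity
          calc (k : ℚ) * (((n : ℚ) - k - 1) / 2) ≤ k * (PP (n - k)).coeff 2 :=
                mul_le_mul_of_nonneg_left h5 h6
            _ ≤ _ := mul_le_mul_of_nonneg_right h4 h7'
      _ ≤ _ := by
          apply Finset.sum_le_sum_of_subset_of_nonneg
          · exact Finset.Icc_subset_Icc_right (by omega)
          · intro k hk hk2
            rw [Finset.mem_Icc] at hk hk2
            have hkn : k = n := by omega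
            subst hkn
            rw [Nat.sub_self, PP_zero]
            simp [Polynomial.coeff_one]
  rw [← h] at h1
  exact le_of_mul_le_mul_left h1 hn0

/-- The coefficient sequences of the D'Arcais polynomials are not all log-concave. -/
theorem result :
    ¬ (∀ P : ℕ → Polynomial ℚ, P 0 = 1 →
      (∀ n : ℕ, 1 ≤ n →
        (n : Polynomial ℚ) * P n =
          Polynomial.X * ∑ k ∈ Finset.Icc 1 n,
            ((ArithmeticFunction.sigma 1 k : ℕ) : Polynomial ℚ) * P (n - k)) →
      ∀ n k : ℕ, 1 ≤ k →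
        (P n).coeff (k - 1) * (P n).coeff (k + 1) ≤ (P n).coeff k ^ 2) := by
  intro hall
  obtain ⟨n, hn6, hn⟩ := exists_large 2304
  have h := hall PP PP_zero PP_rec n 2 (by norm_num)
  norm_num at h
  rw [coeff_one] at h
  have hn1 : 1 ≤ n := by omega
  have h3 := le_coeff_three n hn1
  have h2 := coeff_two_le n hn1
  have h2' := le_coeff_two n hn1
  have hn0 : (6 : ℚ) ≤ n := by exact_mod_cast hn6
  have h4 : (PP n).coeff 2 ^ 2 ≤ (8 * (n : ℚ)) ^ 2 := by
    apply pow_le_pow_left₀ _ h2
    linarith
  have h5 : 2304 * (((n : ℚ) - 1) * ((n : ℚ) - 2) / 12) < c n * (PP n).coeff 3 := by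
    have h6 : (0 : ℚ) < ((n : ℚ) - 1) * ((n : ℚ) - 2) / 12 := by
      have h7 : (0 : ℚ) < (n : ℚ) - 1 := by linarith
      have h8 : (0 : ℚ) < (n : ℚ) - 2 := by linarith
      positivity
    calc 2304 * (((n : ℚ) - 1) * ((n : ℚ) - 2) / 12) < c n * (((n : ℚ) - 1) * ((n : ℚ) - 2) / 12) :=
          mul_lt_mul_of_pos_right hn h6
      _ ≤ c n * (PP n).coeff 3 := mul_le_mul_of_nonneg_left h3 (c_nonneg n)
  nlinarith

end Pool.Agent.S09354
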