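import Pool.Statements.S09371
import Pool.Agent.W984.PH.Core
import Pool.Agent.W984.PH.Fin
import Pool.Agent.W249.PH.LC
import Pool.Agent.W762.PH.Km
import Pool.Agent.W215.PH.LM
import Pool.Agent.W310.PH.Mac
import Pool.Agent.W381.PH.Van
import Pool.Agent.W174.PH.Uni
import Pool.Agent.W762.PH.Mi
import Pool.Agent.W131.PH.Max
import Pool.Agent.W298.PH.Perf
import Pool.Agent.W239.PH.KKT
import Pool.Agent.W215.PH.ORD
import Pool.Agent.W298.PH.Ex
import Pool.Agent.W215.PH.COV
import Pool.Agent.W12.PH.Bon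
import Pool.Agent.W922.PH.Sel
import Pool.Agent.W12.PH.Nume
import Pool.Agent.W12.PH.Numf

set_option autoImplicit false
open Pool Pool.MP_6da058_co

namespace Pool.Agent.S09371

/-- For every r at least 3 there is n such that if G and H are r-graphs with at least n vertices each, whose Lagrangian density equals r! times the Lagrangian of the complete r-graph on one fewer vertex, then their disjoint union has the same property. -/
theorem result :
  ∀ r : ℕ, 3 ≤ r →
  ∀ lam : (m : ℕ) → Finset (Finset (Fin m)) → ℝ,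
    (∀ (m : ℕ) (E : Finset (Finset (Fin m))),
      lam m E = sSup {y : ℝ | ∃ x : Fin m → ℝ, (∀ i, 0 ≤ x i) ∧ ∑ i, x i = 1 ∧
        y = ∑ e ∈ E, ∏ i ∈ e, x i}) →
  ∀ perfect : (t : ℕ) → Finset (Finset (Fin t)) → Prop,
    (∀ (t : ℕ) (F : Finset (Finset (Fin t))), perfect t F ↔
      sSup {y : ℝ | ∃ m : ℕ, ∃ G : Finset (Finset (Fin m)), (∀ e ∈ G, e.card = r) ∧
          (¬ ∃ f : Fin t → Fin m, Function.Injective f ∧ ∀ e ∈ F, e.image f ∈ G) ∧
          y = (r.factorial : ℝ) * lam m G}
        = (r.factorial : ℝ) * lam (t - 1) (Finset.powersetCard r (Finset.univ : Finset (Fin (t - 1))))) →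
  ∃ n : ℕ, ∀ (a b : ℕ) (G : Finset (Finset (Fin a))) (H : Finset (Finset (Fin b))),
    (∀ e ∈ G, e.card = r) → (∀ e ∈ H, e.card = r) → n ≤ a → n ≤ b →
    perfect a G → perfect b H →
    perfect (a + b) (G.image (fun e => e.image (Fin.castAdd b)) ∪
      H.image (fun e => e.image (Fin.natAdd a))) := by
  have hKM := W762.PH.km W249.PH.lc
  have hLM := W215.PH.lm hKM
  have hMAC := W310.PH.mac
  have hVAN := W381.PH.s_van
  have hERR := W381.PH.s_err
  have hUNI := W174.PH.uni hMAC hVAN
  have hBL := W12.PH.s_bl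
  have hBU := W12.PH.s_bu
  have hFP := W12.PH.s_fp
  have hSTEP := W12.PH.s_step hLM
  have hMI := W762.PH.mi hSTEP hVAN hERR hUNI hFP
  have hFREE := W131.PH.t_free
  have hMAX := W131.PH.t_max
  have hPERF := W298.PH.perf hMAC
  have hKKT := W239.PHK.main hBU
  have hORD := W215.PH.ord
  have hPR := W298.PH.pr
  have hSM := W298.PH.sm
  have hCOV := W215.PH.cov hPR
  have hSEL := W922.PH.t_SEL hPR hSM hCOV W12.PH.s_nume
  have hCORE := W984.PH.core hMI hFREE hMAX hKKT hORD hBL hFP W12.PH.s_numf hSEL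
  exact W984.PH.fin hCORE hPERF

end Pool.Agent.S09371
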