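/-
Proof of frozen statement S09450 (the negation for MP_71927a_co): the number of maximum
independent sets of a triangle-free graph is not bounded by `2 ^ (C * α)`.

Construction: start with `a` isolated vertices and the family consisting of the one independent
set.  Repeatedly take two vertices `x, y` at distance at least `4`, join them, and add a vertex
joined to `N(x) ∪ N(y)`.  This keeps the graph triangle-free with independence number `a`, and
every maximum independent set containing `x` and `y` splits into two.  Helper files:
`Pool/Agent/W156/MISa.lean` to `MISd.lean`.
-/
import Pool.Statements.S09450
import Pool.Agent.W156.MISd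

set_option autoImplicit false
open Pool Pool.MP_71927a_co

namespace Pool.Agent.S09450

/-- The negation of the preceding statement: There is an absolute constant C such that every finite triangle-free graph with independence number α has at most 2^(Cα) independent sets of size α, whatever its number of vertices. -/
theorem result :
    ¬ (∃ C : ℝ, ∀ (n : ℕ) (G : SimpleGraph (Fin n)), G.CliqueFree 3 →
      (({s : Finset (Fin n) | G.IsNIndepSet G.indepNum s}.ncard : ℕ) : ℝ)
        ≤ (2 : ℝ) ^ (C * (G.indepNum : ℝ))) := by
  rintro ⟨C, hC⟩
  obtain ⟨n, G, h1, h2⟩ := Pool.Agent.W156.MIS.main C
  exact absurd (hC n G h1) (not_le.2 h2)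

end Pool.Agent.S09450
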