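-- Statement S09493: minimal non-faces of multi-cluster complexes.
import Pool.Statements.S09493
import Pool.Agent.W296.MC.CoreThm
import Pool.Agent.W296.MC.WeightThm
import Pool.Agent.W120.MC.Asm
import Pool.Agent.W283.MC.Skip

set_option autoImplicit false
open Pool Pool.MP_73c0e1_co

namespace Pool.Agent.S09493

/-- For every finite Coxeter group, Coxeter element c and k ≥ 1, every minimal non-face of the subword complex of the word c^k followed by the c-sorting word of the longest element has exactly k+1 elements. -/
theorem result :
  ∀ (B : Type) (W : Type) [Group W] [Finite W] (M : CoxeterMatrix B) (cs : CoxeterSystem M W)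
    (ω : List B), ω.Nodup → (∀ b : B, b ∈ ω) →
    ∀ w0 : W, (∀ w : W, cs.length w ≤ cs.length w0) →
    ∀ (k : ℕ), 1 ≤ k →
    ∀ (s : List B), s = (List.replicate (Nat.card W) ω).flatten →
    ∀ (P : Finset (Fin s.length)),
      cs.wordProd (((List.finRange s.length).filter (fun i => decide (i ∈ P))).map s.get) = w0 →
      P.card = cs.length w0 →
      (∀ P' : Finset (Fin s.length),
        cs.wordProd (((List.finRange s.length).filter (fun i => decide (i ∈ P'))).map s.get) = w0 →
        P'.card = cs.length w0 → P' ≠ P →
        ∃ x ∈ P, x ∉ P' ∧ ∀ y, y < x → (y ∈ P ↔ y ∈ P')) →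
    ∀ (Q : List B),
      Q = (List.replicate k ω).flatten
            ++ ((List.finRange s.length).filter (fun i => decide (i ∈ P))).map s.get →
    ∀ I : Finset (Fin Q.length),
      (¬ ∃ J : Finset (Fin Q.length), Disjoint I J ∧
          cs.wordProd (((List.finRange Q.length).filter (fun i => decide (i ∈ J))).map Q.get) = w0 ∧
          J.card = cs.length w0) →
      (∀ x ∈ I, ∃ J : Finset (Fin Q.length), Disjoint (I.erase x) J ∧
          cs.wordProd (((List.finRange Q.length).filter (fun i => decide (i ∈ J))).map Q.get) = w0 ∧
          J.card = cs.length w0) →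
      I.card = k + 1 :=
  Pool.Agent.W120.MC.frozen_of_core
    (Pool.Agent.W296.MC.core_of Pool.Agent.W296.MC.weight Pool.Agent.W283.MC.skip)

end Pool.Agent.S09493
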