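import Pool.Statements.S09534
import Pool.Agent.Results.MP_7523ff_co.Disproof

set_option autoImplicit false
open Classical
open Pool Pool.MP_7523ff_co

namespace Pool.Agent.S09534

/-- The negation of the preceding statement: There are α in (0,2), c>0 and n0 such that for n≥n0 and c·n^α ≤ m ≤ C(n,2), every connected n-vertex m-edge graph of least spectral radius is r-colorable, where e(T(n,r−1)) < m ≤ e(T(n,r)). -/
theorem result :
    ¬ (∃ α : ℝ, 0 < α ∧ α < 2 ∧ ∃ c : ℝ, 0 < c ∧ ∃ n₀ : ℕ, ∀ n : ℕ, n₀ ≤ n →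
      ∀ m : ℕ, c * (n : ℝ) ^ α ≤ (m : ℝ) → m ≤ n.choose 2 →
      ∀ G : SimpleGraph (Fin n), G.Connected → G.edgeSet.ncard = m →
        (∀ H : SimpleGraph (Fin n), H.Connected → H.edgeSet.ncard = m →
          sSup (spectrum ℝ (G.adjMatrix ℝ)) ≤ sSup (spectrum ℝ (H.adjMatrix ℝ))) →
        ∀ r : ℕ, 2 ≤ r →
          (SimpleGraph.turanGraph n (r - 1)).edgeSet.ncard < m →
          m ≤ (SimpleGraph.turanGraph n r).edgeSet.ncard →
          G.Colorable r) := by
  classical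
  rintro ⟨α, h0, h1, c, hc, n₀, h⟩
  obtain ⟨n, m, hn, hm, hm2, ⟨_, ht1, ht2⟩, ⟨G, hG⟩, hall⟩ :=
    Pool.Agent.Results.MP_7523ff_co.Disproof.result α h0 h1 c hc n₀
  have key : ∀ k : ℕ, Pool.Agent.Results.MP_7523ff_co.Disproof.turanEdges n k =
      (SimpleGraph.turanGraph n k).edgeSet.ncard := by
    intro k
    unfold Pool.Agent.Results.MP_7523ff_co.Disproof.turanEdges
    rw [← SimpleGraph.coe_edgeFinset, Set.ncard_coe_finset]
  rw [key] at ht1 ht2
  refine hall G hG (h n hn m hm hm2 G hG.1.1 hG.1.2 ?_ 2 le_rfl ht1 ht2)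
  intro H hH1 hH2
  have h3 := hG.2 H ⟨hH1, hH2⟩
  unfold Pool.Agent.Results.MP_7523ff_co.Disproof.specRad at h3
  convert h3

end Pool.Agent.S09534
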