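import Pool.Statements.S09613
import Pool.Agent.W244.SqFree3

set_option autoImplicit false
open Pool Pool.MP_78b1ee_co

namespace Pool.Agent.S09613

open Pool.Agent.W244.SqFree

theorem getD_w (n : ℕ) (h : ℕ → ℚ) (k : ℕ) (hk : k < n) :
    ((List.range n).map h).getD k 0 = h k := by
  simp [List.getD_eq_getElem?_getD, hk]

theorem getD_ins (t p k : ℕ) (x : ℚ) (hp : p ≤ 16 * t + 21) (hk : k < 16 * t + 21 + 1) :
    ((((List.range (16 * t + 21)).map (g t)).take p ++
      x :: ((List.range (16 * t + 21)).map (g t)).drop p).getD k 0) = ins t p x k := by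
  rw [List.getD_eq_getElem?_getD, List.getElem?_append]
  have hlen : (((List.range (16 * t + 21)).map (g t)).take p).length = p := by
    rw [List.length_take, List.length_map, List.length_range]; omega
  rw [hlen]
  by_cases h1 : k < p
  · rw [if_pos h1, ins_lt h1, List.getElem?_take_of_lt h1]
    simp [show k < 16 * t + 21 by omega]
  · rw [if_neg h1]
    by_cases h2 : k = p
    · subst h2
      rw [ins_eq rfl]
      simp
    · obtain ⟨j, rfl⟩ : ∃ j, k = p + (j + 1) := ⟨k - p - 1, by omega⟩
      rw [ins_gt (j := p + j) (by omega) (by omega),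
        show p + (j + 1) - p = j + 1 by omega, List.getElem?_cons_succ, List.getElem?_drop]
      simp [show p + j < 16 * t + 21 by omega]

/-- For every N there is a list of distinct rationals of length at least N with no two adjacent order-isomorphic blocks of length at least 2, such that inserting any new value at any position creates such a pair. -/
theorem result :
    ∀ N : ℕ, ∃ w : List ℚ, N ≤ w.length ∧ w.Nodup ∧
      (¬ ∃ i ℓ : ℕ, 2 ≤ ℓ ∧ i + 2 * ℓ ≤ w.length ∧
          ∀ a < ℓ, ∀ b < ℓ,
            (w.getD (i + a) 0 < w.getD (i + b) 0 ↔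
              w.getD (i + ℓ + a) 0 < w.getD (i + ℓ + b) 0)) ∧
      ∀ p : ℕ, p ≤ w.length → ∀ x : ℚ, x ∉ w →
        ∃ i ℓ : ℕ, 2 ≤ ℓ ∧ i + 2 * ℓ ≤ w.length + 1 ∧
          ∀ a < ℓ, ∀ b < ℓ,
            ((w.take p ++ x :: w.drop p).getD (i + a) 0 <
                (w.take p ++ x :: w.drop p).getD (i + b) 0 ↔
              (w.take p ++ x :: w.drop p).getD (i + ℓ + a) 0 <
                (w.take p ++ x :: w.drop p).getD (i + ℓ + b) 0) := by
  intro N
  have ht : 1 ≤ N + 1 := by omega
  refine ⟨(List.range (16 * (N + 1) + 21)).map (g (N + 1)), ?_, ?_, ?_, ?_⟩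
  · rw [List.length_map, List.length_range]; omega
  · refine (List.nodup_map_iff_inj_on List.nodup_range).2 ?_
    intro i hi j hj h
    exact g_inj (N + 1) i j ht (List.mem_range.1 hi) (List.mem_range.1 hj) h
  · rintro ⟨i, l, hl, hil, h⟩
    rw [List.length_map, List.length_range] at hil
    refine g_sqfree (N + 1) i l ht hl hil ?_
    intro a ha b hb
    have := h a ha b hb
    rwa [getD_w _ _ _ (by omega), getD_w _ _ _ (by omega), getD_w _ _ _ (by omega),
      getD_w _ _ _ (by omega)] at this
  · intro p hp x hx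
    rw [List.length_map, List.length_range] at hp
    obtain ⟨i, l, hl, hil, h⟩ := ins_square (N + 1) ht p hp x (by
      intro k hk hxk
      exact hx (List.mem_map.2 ⟨k, List.mem_range.2 hk, hxk.symm⟩))
    refine ⟨i, l, hl, ?_, ?_⟩
    · rw [List.length_map, List.length_range]; exact hil
    · intro a ha b hb
      rw [getD_ins _ _ _ _ hp (by omega), getD_ins _ _ _ _ hp (by omega),
        getD_ins _ _ _ _ hp (by omega), getD_ins _ _ _ _ hp (by omega)]
      exact h a ha b hb

end Pool.Agent.S09613
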