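import Pool.Statements.S09632
import Pool.Agent.W175.EO.Graph
import Pool.Agent.W175.EO.Dense

/-!
The counterexample is the path `v0 v1 v2 v3 v4 v5 v6` whose edges have, in this order, the ranks
`4, 1, 2, 5, 6, 3`. Dense edge-ordered graphs contain it (`dense`). It is avoided by the incidence
graph of the points of a grid (in lexicographic order) and of the boxes with centre on the diagonal
and corners in the grid, whose edges are ordered by the point first and then by decreasing centre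
(`no_copy`); this is the path form of the 0-1 matrix pattern of Pettie and Tardos.
-/

set_option autoImplicit false
open Pool Pool.MP_79efce_co

namespace Pool.Agent.S09632

open Pool.Agent.W175.EO

/-- exponentials beat polynomials -/
theorem growth (c : ℕ) (C : ℝ) : ∃ m : ℕ, C * (5 * ((m : ℝ) + 1) ^ 2) ^ c < 2 ^ m / 2 := by
  have h1 : Filter.Tendsto (fun m : ℕ => ((m : ℝ)) ^ (2 * c) / 2 ^ m) Filter.atTop (nhds 0) :=
    tendsto_pow_const_div_const_pow_of_one_lt (2 * c) (by norm_num)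
  have h2 : Filter.Tendsto (fun m : ℕ => (((m + 1 : ℕ) : ℝ)) ^ (2 * c) / 2 ^ (m + 1)) Filter.atTop
      (nhds 0) := h1.comp (Filter.tendsto_add_atTop_nat 1)
  have hpos : 0 < 1 / (4 * ((|C| + 1) * 5 ^ c)) := by positivity
  obtain ⟨m, hm⟩ := (h2.eventually (gt_mem_nhds hpos)).exists
  refine ⟨m, ?_⟩
  have h3 : (((m + 1 : ℕ) : ℝ)) ^ (2 * c) * (4 * ((|C| + 1) * 5 ^ c)) < 2 ^ (m + 1) := by
    rw [div_lt_div_iff₀ (by positivity) (by positivity)] at hm
    linarith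
  push_cast at h3
  have h4 : (5 * ((m : ℝ) + 1) ^ 2) ^ c = 5 ^ c * ((m : ℝ) + 1) ^ (2 * c) := by
    rw [mul_pow, ← pow_mul]
  rw [h4]
  have h5 : 0 ≤ 5 ^ c * ((m : ℝ) + 1) ^ (2 * c) := by positivity
  have h6 : C * (5 ^ c * ((m : ℝ) + 1) ^ (2 * c)) ≤ (|C| + 1) * (5 ^ c * ((m : ℝ) + 1) ^ (2 * c)) :=
    mul_le_mul_of_nonneg_right (by linarith [le_abs_self C]) h5
  have h7 : (2 : ℝ) ^ (m + 1) = 2 * 2 ^ m := by ring
  nlinarith

/-- The negation of the preceding statement: Assume F is an edge-ordered forest whose F-free edge-ordered graphs on n vertices have o(n^2) edges, which is equivalent to order chromatic number 2. Then such graphs have at most C·n·(log n)^c edges for some constants c and C. -/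
theorem result :
    ¬ (∀ (k : ℕ) (F : SimpleGraph (Fin k)) (L : Sym2 (Fin k) → ℕ),
      F.IsAcyclic → Set.InjOn L F.edgeSet →
      (∀ ε : ℝ, 0 < ε → ∃ N : ℕ, ∀ n : ℕ, N ≤ n →
        ∀ (G : SimpleGraph (Fin n)) (M : Sym2 (Fin n) → ℕ), Set.InjOn M G.edgeSet →
          (¬ ∃ φ : Fin k ↪ Fin n, (∀ a b, F.Adj a b → G.Adj (φ a) (φ b)) ∧
              ∀ e ∈ F.edgeSet, ∀ f ∈ F.edgeSet, L e < L f →
                M (Sym2.map (⇑φ) e) < M (Sym2.map (⇑φ) f)) →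
          (G.edgeSet.ncard : ℝ) ≤ ε * (n : ℝ) ^ 2) →
      ∃ (c : ℕ) (C : ℝ), ∀ n : ℕ, 2 ≤ n →
        ∀ (G : SimpleGraph (Fin n)) (M : Sym2 (Fin n) → ℕ), Set.InjOn M G.edgeSet →
          (¬ ∃ φ : Fin k ↪ Fin n, (∀ a b, F.Adj a b → G.Adj (φ a) (φ b)) ∧
              ∀ e ∈ F.edgeSet, ∀ f ∈ F.edgeSet, L e < L f →
                M (Sym2.map (⇑φ) e) < M (Sym2.map (⇑φ) f)) →
          (G.edgeSet.ncard : ℝ) ≤ C * (n : ℝ) * (Real.log (n : ℝ)) ^ c) := by
  intro H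
  obtain ⟨c, C, h⟩ := H 7 F7 L7 F7_acyclic L7_inj (by
    intro ε hε
    obtain ⟨N, hN⟩ := dense ε hε
    exact ⟨N, fun n hn G M hM hno => hN n hn G M hM hno⟩)
  obtain ⟨m, hm⟩ := growth c |C|
  obtain ⟨K, hK⟩ : ∃ K : ℕ, K = 3 ^ m * (3 ^ m) ^ m := ⟨_, rfl⟩
  have low : ∃ (G : SimpleGraph (Fin (2 * K))) (M : Sym2 (Fin (2 * K)) → ℕ),
      Set.InjOn M G.edgeSet ∧ ¬ HasCopy G M ∧ 2 ^ m * K ≤ G.edgeSet.ncard := by
    rw [hK]; exact lower m
  obtain ⟨G, M, hM, hno, hcard⟩ := low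
  have hK1 : 1 ≤ K := by rw [hK]; exact Nat.one_le_iff_ne_zero.2 (by positivity)
  have h1 := h (2 * K) (by omega) G M hM hno
  have hKr : (0 : ℝ) < K := by exact_mod_cast hK1
  have h2 : (2 : ℝ) ^ m * K ≤ (G.edgeSet.ncard : ℝ) := by exact_mod_cast hcard
  have hlog : Real.log ((2 * K : ℕ) : ℝ) ≤ 5 * ((m : ℝ) + 1) ^ 2 := by
    have e1 : ((2 * K : ℕ) : ℝ) = 2 * 3 ^ (m + m * m) := by
      rw [hK]; push_cast; rw [← pow_mul, ← pow_add]
    rw [e1, Real.log_mul (by norm_num) (by positivity), Real.log_pow]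
    have l2 : Real.log 2 ≤ 1 := by
      have := Real.log_le_sub_one_of_pos (show (0 : ℝ) < 2 by norm_num)
      linarith
    have l3 : Real.log 3 ≤ 2 := by
      have := Real.log_le_sub_one_of_pos (show (0 : ℝ) < 3 by norm_num)
      linarith
    have hmm : (0 : ℝ) ≤ ((m + m * m : ℕ) : ℝ) := by positivity
    have h3 : ((m + m * m : ℕ) : ℝ) * Real.log 3 ≤ ((m + m * m : ℕ) : ℝ) * 2 :=
      mul_le_mul_of_nonneg_left l3 hmm
    push_cast at h3 ⊢
    have hm0 : (0 : ℝ) ≤ m := Nat.cast_nonneg m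
    nlinarith
  have hlog0 : 0 ≤ Real.log ((2 * K : ℕ) : ℝ) := Real.log_natCast_nonneg _
  have h3 : Real.log ((2 * K : ℕ) : ℝ) ^ c ≤ (5 * ((m : ℝ) + 1) ^ 2) ^ c :=
    pow_le_pow_left₀ hlog0 hlog c
  have h4 : C * ((2 * K : ℕ) : ℝ) * Real.log ((2 * K : ℕ) : ℝ) ^ c ≤
      |C| * ((2 * K : ℕ) : ℝ) * (5 * ((m : ℝ) + 1) ^ 2) ^ c := by
    apply mul_le_mul _ h3 (by positivity) (by positivity)
    exact mul_le_mul_of_nonneg_right (le_abs_self C) (by positivity)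
  have h5 : (2 : ℝ) ^ m * K ≤ |C| * ((2 * K : ℕ) : ℝ) * (5 * ((m : ℝ) + 1) ^ 2) ^ c :=
    h2.trans (h1.trans h4)
  push_cast at h5
  have h6 : |C| * (2 * (K : ℝ)) * (5 * ((m : ℝ) + 1) ^ 2) ^ c =
      (2 * (|C| * (5 * ((m : ℝ) + 1) ^ 2) ^ c)) * K := by ring
  rw [h6] at h5
  have h7 := le_of_mul_le_mul_right h5 hKr
  linarith

end Pool.Agent.S09632
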