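import Pool.Statements.S09677
import Pool.Agent.W118.CY.Main
import Pool.Agent.W118.CY.A
import Pool.Agent.W118.CY.ZS
import Pool.Agent.W118.CY.TIE
import Pool.Agent.W118.CY.TL
import Pool.Agent.W118.CY.RM
import Pool.Agent.W118.CY.AV
import Pool.Agent.W118.CY.AP
import Pool.Agent.W118.CY.AS
import Pool.Agent.W118.CY.SM0
import Pool.Agent.W118.CY.SM
import Pool.Agent.W118.CY.R1
import Pool.Agent.W118.CY.R2
import Pool.Agent.W118.CY2.SG
import Pool.Agent.W118.CY.F1
import Pool.Agent.W118.CY.F2
import Pool.Agent.W118.CY.F4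
import Pool.Agent.W118.CY.F3
import Pool.Agent.W118.CY.FIN
import Pool.Agent.W118.CY.WIN
-- import your own Pool.Agent.* helpers here

set_option autoImplicit false
open Pool Pool.MP_7c5d5d_co

namespace Pool.Agent.S09677

open Pool.Agent.W118.CY in
theorem final : ∀ k : ℕ, 1 ≤ k → Claim k :=
  claim_all (t_a t_rm (t_ap (t_tie t_zs) t_tl) (t_as (t_ap (t_tie t_zs) t_tl) t_av t_rm))
    (Pool.Agent.W118.CY2.t_sg (t_r2 (t_r1 t_tl)) t_rm) (t_fin t_f1 (t_f4 (t_sm t_sm0) (t_f2 t_tl)) t_f3)

/-- For every k there are C and N such that every graph on n ≥ N vertices has an induced subgraph, obtained by deleting at most C√n vertices, in which at least k vertices attain the maximum degree. -/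
theorem result :
    ∀ k : ℕ, ∃ C : ℝ, ∃ N : ℕ,
      ∀ (V : Type) [Fintype V] [DecidableEq V] (G : SimpleGraph V) [DecidableRel G.Adj],
        N ≤ Fintype.card V →
        ∃ S : Finset V,
          (((Fintype.card V - S.card : ℕ) : ℝ) ≤ C * Real.sqrt (Fintype.card V)) ∧
          k ≤ (S.filter (fun v => ∀ w ∈ S,
                (S.filter (fun u => G.Adj w u)).card ≤ (S.filter (fun u => G.Adj v u)).card)).card := by
  exact Pool.Agent.W118.CY.main_of Pool.Agent.W118.CY.t_win final

end Pool.Agent.S09677
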