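import Pool.Statements.S09740
import Pool.Agent.Results.MP_7feb78_co.VertexQ1

set_option autoImplicit false
open Pool Pool.MP_7feb78_co

namespace Pool.Agent.S09740

/-- The negation of the preceding statement: For every d ≥ 5, the least number of edges of an n-vertex graph in which deleting any one vertex leaves a graph of diameter at most d, divided by n, tends to (a+1)/a, where a = floor(d/2). -/
theorem result :
    ¬ (∀ d : ℕ, 5 ≤ d →
      Filter.Tendsto
        (fun n : ℕ =>
          ((sInf {m : ℕ | ∃ G : SimpleGraph (Fin n), G.edgeSet.ncard = m ∧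
              ∀ v : Fin n, (G.induce ({v}ᶜ : Set (Fin n))).ediam ≤ (d : ℕ∞)} : ℕ) : ℝ)
            / (n : ℝ))
        Filter.atTop
        (nhds ((((d / 2 : ℕ) : ℝ) + 1) / ((d / 2 : ℕ) : ℝ)))) := by
  intro h
  apply Pool.Agent.Results.MP_7feb78_co.VertexQ1.result.1
  intro d hd
  have h1 := h d hd
  unfold Pool.Agent.Results.MP_7feb78_co.VertexQ1.fhat
    Pool.Agent.Results.MP_7feb78_co.VertexQ1.VertexRobust
    Pool.Agent.Results.MP_7feb78_co.VertexQ1.a
  simp only [and_comm] at h1 ⊢
  exact h1

end Pool.Agent.S09740
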