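import Pool.Statements.S09798

set_option autoImplicit false
open Pool Pool.MP_82152b_co

namespace Pool.Agent.S09798

/-- `K_{2,3}` plus an edge: the vertices `1, 2` are joined to `0, 3, 4`, and `3` is joined to `4`. -/
def adjB (u v : Fin 5) : Bool :=
  ((u == 1 || u == 2) && (v == 0 || v == 3 || v == 4)) ||
  ((v == 1 || v == 2) && (u == 0 || u == 3 || u == 4)) ||
  (u == 3 && v == 4) || (u == 4 && v == 3)

def H5 : SimpleGraph (Fin 5) where
  Adj u v := adjB u v = true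
  symm := ⟨by intro u v; revert u v; decide⟩
  loopless := ⟨by intro u; revert u; decide⟩

instance : DecidableRel H5.Adj := fun u v => inferInstanceAs (Decidable (adjB u v = true))

lemma H5_adj (u v : Fin 5) : H5.Adj u v ↔ adjB u v = true := Iff.rfl

lemma ncard_eq_filter {V : Type} [Fintype V] (p : V → Prop) [DecidablePred p] :
    {w : V | p w}.ncard = (Finset.univ.filter p).card := by
  rw [← Set.ncard_coe_finset]
  congr 1
  ext w
  simp

lemma H5_deg (S : Finset (Fin 5)) (hS : S.Nonempty) :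
    ∃ v ∈ S, {w : Fin 5 | w ∈ S ∧ H5.Adj v w}.ncard ≤ 2 := by
  have key : ∀ S : Finset (Fin 5), S.Nonempty →
      ∃ v ∈ S, (Finset.univ.filter (fun w => w ∈ S ∧ H5.Adj v w)).card ≤ 2 := by decide
  obtain ⟨v, hv, h⟩ := key S hS
  refine ⟨v, hv, ?_⟩
  rw [ncard_eq_filter]
  exact h

lemma H5_deg3 (u : Fin 5) (hu : u ≠ 0) : 3 ≤ (Finset.univ.filter (fun w => H5.Adj u w)).card := by
  revert u; decide

/-- the subgraph with vertex set `{0, 1, 2}` and edges `01, 02` -/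
def A0 : H5.Subgraph where
  verts := {v | v = 0 ∨ v = 1 ∨ v = 2}
  Adj u v := H5.Adj u v ∧ (u = 0 ∨ v = 0)
  adj_sub h := h.1
  edge_vert := by
    intro u v h
    revert h
    show H5.Adj u v ∧ (u = 0 ∨ v = 0) → (u = 0 ∨ u = 1 ∨ u = 2)
    revert u v
    decide
  symm := ⟨fun u v h => ⟨h.1.symm, h.2.symm⟩⟩

/-- the subgraph with vertex set `{1, 2, 3, 4}` and all its edges -/
def B0 : H5.Subgraph where
  verts := {v | v ≠ 0}
  Adj u v := H5.Adj u v ∧ u ≠ 0 ∧ v ≠ 0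
  adj_sub h := h.1
  edge_vert := by
    intro u v h
    exact h.2.1
  symm := ⟨fun u v h => ⟨h.1.symm, h.2.2, h.2.1⟩⟩

lemma A0_sup_B0 : A0 ⊔ B0 = ⊤ := by
  apply SimpleGraph.Subgraph.ext
  · ext v
    simp only [SimpleGraph.Subgraph.verts_sup, SimpleGraph.Subgraph.verts_top, Set.mem_union,
      Set.mem_univ, iff_true]
    by_cases h : v = 0
    · exact Or.inl (Or.inl h)
    · exact Or.inr h
  · funext u v
    simp only [SimpleGraph.Subgraph.sup_adj, SimpleGraph.Subgraph.top_adj, eq_iff_iff]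
    constructor
    · rintro (h | h)
      · exact h.1
      · exact h.1
    · intro h
      by_cases h1 : u = 0
      · exact Or.inl ⟨h, Or.inl h1⟩
      · by_cases h2 : v = 0
        · exact Or.inl ⟨h, Or.inr h2⟩
        · exact Or.inr ⟨h, h1, h2⟩

lemma A0_B0_adj (u v : Fin 5) : A0.Adj u v → ¬ B0.Adj u v := by
  rintro ⟨_, h⟩ ⟨_, h1, h2⟩
  rcases h with h | h
  · exact h1 h
  · exact h2 h

lemma inter_eq : (A0.verts ∩ B0.verts) = ({1, 2} : Set (Fin 5)) := by
  ext v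
  show ((v = 0 ∨ v = 1 ∨ v = 2) ∧ v ≠ 0) ↔ (v = 1 ∨ v = 2)
  revert v
  decide

lemma inter_card : (A0.verts ∩ B0.verts).ncard ≤ 2 := by
  rw [inter_eq]
  exact (Set.ncard_insert_le _ _).trans (by rw [Set.ncard_singleton])

/-- A ranking of a finite set of vertices of a `k`-degenerate graph. -/
lemma ranking {V : Type} [Fintype V] [DecidableEq V] (G : SimpleGraph V) (k : ℕ)
    (hG : ∀ S : Finset V, S.Nonempty → ∃ v ∈ S, {w : V | w ∈ S ∧ G.Adj v w}.ncard ≤ k) :
    ∀ (m : ℕ) (S : Finset V), S.card = m → ∃ r : V → ℕ, (∀ v ∈ S, ∀ w ∈ S, r v = r w → v = w) ∧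
      ∀ v ∈ S, {w : V | w ∈ S ∧ G.Adj v w ∧ r v < r w}.ncard ≤ k := by
  intro m
  induction m with
  | zero =>
    intro S hS
    rw [Finset.card_eq_zero] at hS
    subst hS
    exact ⟨fun _ => 0, by simp, by simp⟩
  | succ m ih =>
    intro S hS
    have hne : S.Nonempty := by
      rw [← Finset.card_pos]; omega
    obtain ⟨x, hx, hxk⟩ := hG S hne
    obtain ⟨r, hr1, hr2⟩ := ih (S.erase x) (by rw [Finset.card_erase_of_mem hx, hS]; rfl)
    refine ⟨fun v => if v = x then 0 else r v + 1, ?_, ?_⟩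
    · intro v hv w hw h
      by_cases h1 : v = x
      · by_cases h2 : w = x
        · rw [h1, h2]
        · simp [h1, h2] at h
      · by_cases h2 : w = x
        · simp [h1, h2] at h
        · simp only [h1, h2, if_false] at h
          exact hr1 v (Finset.mem_erase.2 ⟨h1, hv⟩) w (Finset.mem_erase.2 ⟨h2, hw⟩) (by omega)
    · intro v hv
      by_cases h1 : v = x
      · subst h1
        refine le_trans (Set.ncard_le_ncard ?_ (Set.toFinite _)) hxk
        rintro w ⟨hw1, hw2, _⟩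
        exact ⟨hw1, hw2⟩
      · refine le_trans (Set.ncard_le_ncard ?_ (Set.toFinite _))
          (hr2 v (Finset.mem_erase.2 ⟨h1, hv⟩))
        rintro w ⟨hw1, hw2, hw3⟩
        by_cases h2 : w = x
        · simp [h2] at hw3
        · simp only [h1, h2, if_false] at hw3
          exact ⟨Finset.mem_erase.2 ⟨h2, hw1⟩, hw2, by omega⟩

/-- The number of copies of `H5` in a `2`-degenerate graph is linear. -/
lemma count_le (n : ℕ) (G : SimpleGraph (Fin n))
    (hG : ∀ S : Finset (Fin n), S.Nonempty → ∃ v ∈ S, {w : Fin n | w ∈ S ∧ G.Adj v w}.ncard ≤ 2) :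
    {φ : Fin 5 ↪ Fin n | ∀ u v, H5.Adj u v → G.Adj (φ u) (φ v)}.ncard ≤
      n * (5 ^ 5 * 2 ^ 5) := by
  classical
  obtain ⟨r, hr1, hr2⟩ := ranking G 2 hG _ Finset.univ rfl
  have hr1' : ∀ v w, r v = r w → v = w := fun v w h => hr1 v (Finset.mem_univ _) w (Finset.mem_univ _) h
  have hr2' : ∀ v, (Finset.univ.filter (fun w => G.Adj v w ∧ r v < r w)).card ≤ 2 := by
    intro v
    have := hr2 v (Finset.mem_univ _)
    rw [ncard_eq_filter] at this
    refine le_trans (Finset.card_le_card ?_) this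
    intro w hw
    simp only [Finset.mem_filter, Finset.mem_univ, true_and] at hw ⊢
    exact hw
  -- enumeration of the out-neighbours
  have hout : ∀ v : Fin n, ∃ o : Fin 2 → Fin n, ∀ w, G.Adj v w → r v < r w → ∃ i, o i = w := by
    intro v
    set T := Finset.univ.filter (fun w => G.Adj v w ∧ r v < r w) with hT
    have hc := hr2' v
    rw [← hT] at hc
    have hcases : T.card = 0 ∨ T.card = 1 ∨ T.card = 2 := by omega
    rcases hcases with h0 | h1 | h2
    · refine ⟨fun _ => v, fun w h1 h2 => ?_⟩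
      have : w ∈ T := by rw [hT]; simp [h1, h2]
      rw [Finset.card_eq_zero.1 h0] at this
      simp at this
    · obtain ⟨a, ha⟩ := Finset.card_eq_one.1 h1
      refine ⟨fun _ => a, fun w h1 h2 => ?_⟩
      have : w ∈ T := by rw [hT]; simp [h1, h2]
      rw [ha, Finset.mem_singleton] at this
      exact ⟨0, this.symm⟩
    · obtain ⟨a, b, _, hab⟩ := Finset.card_eq_two.1 h2
      refine ⟨![a, b], fun w h1 h2 => ?_⟩
      have : w ∈ T := by rw [hT]; simp [h1, h2]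
      rw [hab, Finset.mem_insert, Finset.mem_singleton] at this
      rcases this with h | h
      · exact ⟨0, by simp [h]⟩
      · exact ⟨1, by simp [h]⟩
  choose o ho using hout
  -- every vertex different from `0` has a lower neighbour
  have hlow : ∀ φ : Fin 5 ↪ Fin n, (∀ u v, H5.Adj u v → G.Adj (φ u) (φ v)) → ∀ u : Fin 5, u ≠ 0 →
      ∃ u' : Fin 5, ∃ i : Fin 2, r (φ u') < r (φ u) ∧ o (φ u') i = φ u := by
    intro φ hφ u hu
    by_contra hcon
    push Not at hcon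
    have h3 := H5_deg3 u hu
    have h4 : ((Finset.univ.filter (fun w => H5.Adj u w)).map φ).card ≤
        (Finset.univ.filter (fun w => G.Adj (φ u) w ∧ r (φ u) < r w)).card := by
      apply Finset.card_le_card
      intro w hw
      rw [Finset.mem_map] at hw
      obtain ⟨u', hu', rfl⟩ := hw
      simp only [Finset.mem_filter, Finset.mem_univ, true_and] at hu' ⊢
      refine ⟨hφ _ _ hu', ?_⟩
      by_contra hlt
      push Not at hlt
      have hne : r (φ u') ≠ r (φ u) := by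
        intro h
        have := φ.injective (hr1' _ _ h)
        subst this
        exact H5.loopless.irrefl _ hu'
      have hlt' : r (φ u') < r (φ u) := by omega
      obtain ⟨i, hi⟩ := ho (φ u') (φ u) (hφ _ _ hu').symm hlt'
      exact hcon u' i hlt' hi
    rw [Finset.card_map] at h4
    have := hr2' (φ u)
    omega
  -- the code of a copy
  have hcode : ∀ φ : {φ : Fin 5 ↪ Fin n | ∀ u v, H5.Adj u v → G.Adj (φ u) (φ v)},
      ∃ c : (Fin 5 → Fin 5) × (Fin 5 → Fin 2), ∀ u : Fin 5, u ≠ 0 →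
        r (φ.1 (c.1 u)) < r (φ.1 u) ∧ o (φ.1 (c.1 u)) (c.2 u) = φ.1 u := by
    rintro ⟨φ, hφ⟩
    have h := hlow φ hφ
    have h' : ∀ u : Fin 5, ∃ u' : Fin 5, ∃ i : Fin 2, u ≠ 0 →
        (r (φ u') < r (φ u) ∧ o (φ u') i = φ u) := by
      intro u
      by_cases hu : u = 0
      · exact ⟨0, 0, fun h => absurd hu h⟩
      · obtain ⟨u', i, h1⟩ := h u hu
        exact ⟨u', i, fun _ => h1⟩
    choose a b hab using h'
    exact ⟨(a, b), hab⟩
  choose code hcode using hcode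
  have hinj : Function.Injective (fun φ : {φ : Fin 5 ↪ Fin n | ∀ u v, H5.Adj u v → G.Adj (φ u) (φ v)} =>
      ((φ.1 0, code φ) : Fin n × ((Fin 5 → Fin 5) × (Fin 5 → Fin 2)))) := by
    intro φ ψ h
    simp only [Prod.mk.injEq] at h
    obtain ⟨h0, hc⟩ := h
    have key : ∀ (m : ℕ) (u : Fin 5), r (φ.1 u) = m → φ.1 u = ψ.1 u := by
      intro m
      induction m using Nat.strong_induction_on with
      | _ m ih =>
        intro u hu
        by_cases hu0 : u = 0
        · rw [hu0]; exact h0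
        · have h1 := hcode φ u hu0
          have h2 := hcode ψ u hu0
          rw [← hc] at h2
          have h3 := ih _ (by rw [← hu]; exact h1.1) ((code φ).1 u) rfl
          rw [← h1.2, ← h2.2, h3]
    apply Subtype.ext
    apply Function.Embedding.ext
    intro u
    exact key _ u rfl
  have hcard := Fintype.card_le_of_injective _ hinj
  rw [Fintype.card_prod, Fintype.card_prod, Fintype.card_fun, Fintype.card_fun, Fintype.card_fin,
    Fintype.card_fin, Fintype.card_fin] at hcard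
  rw [← Nat.card_eq_fintype_card] at hcard
  exact hcard

/-- The negation of the preceding statement: For every k and every nonempty k-degenerate graph H with flap number f (1 if H has no (≤k)-separation, else the max number of pairwise independent ones), the max number of copies of H in an n-vertex k-degenerate graph is Θ(n^f). -/
theorem result :
    ¬ (∀ (k : ℕ) (V : Type) [Fintype V] [Nonempty V] (H : SimpleGraph V),
    (∀ S : Finset V, S.Nonempty → ∃ v ∈ S, {w : V | w ∈ S ∧ H.Adj v w}.ncard ≤ k) →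
    ∀ f : ℕ,
      (((¬ ∃ A B : H.Subgraph, A ⊔ B = ⊤ ∧ (∀ u v, A.Adj u v → ¬ B.Adj u v) ∧
            (∃ v, v ∈ A.verts ∧ v ∉ B.verts) ∧ (∃ v, v ∈ B.verts ∧ v ∉ A.verts) ∧
            (A.verts ∩ B.verts).ncard ≤ k) ∧ f = 1) ∨
       ((∃ A B : H.Subgraph, A ⊔ B = ⊤ ∧ (∀ u v, A.Adj u v → ¬ B.Adj u v) ∧
            (∃ v, v ∈ A.verts ∧ v ∉ B.verts) ∧ (∃ v, v ∈ B.verts ∧ v ∉ A.verts) ∧
            (A.verts ∩ B.verts).ncard ≤ k) ∧
         IsGreatest {m : ℕ | ∃ A B : Fin m → H.Subgraph,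
            (∀ i, A i ⊔ B i = ⊤ ∧ (∀ u v, (A i).Adj u v → ¬ (B i).Adj u v) ∧
              (∃ v, v ∈ (A i).verts ∧ v ∉ (B i).verts) ∧
              (∃ v, v ∈ (B i).verts ∧ v ∉ (A i).verts) ∧
              ((A i).verts ∩ (B i).verts).ncard ≤ k) ∧
            ∀ i j, i ≠ j →
              (∀ u v, (A i).Adj u v → ¬ (A j).Adj u v) ∧
              ∀ v, v ∈ (A i).verts → v ∉ (B i).verts → ¬ (v ∈ (A j).verts ∧ v ∉ (B j).verts)} f)) →
      ∃ c₁ c₂ : ℝ, 0 < c₁ ∧ 0 < c₂ ∧ ∃ N : ℕ, ∀ n : ℕ, N ≤ n →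
        (∃ G : SimpleGraph (Fin n),
            (∀ S : Finset (Fin n), S.Nonempty → ∃ v ∈ S, {w : Fin n | w ∈ S ∧ G.Adj v w}.ncard ≤ k) ∧
            c₁ * (n : ℝ) ^ f ≤
              (({φ : V ↪ Fin n | ∀ u v, H.Adj u v → G.Adj (φ u) (φ v)}.ncard : ℕ) : ℝ)) ∧
        ∀ G : SimpleGraph (Fin n),
            (∀ S : Finset (Fin n), S.Nonempty → ∃ v ∈ S, {w : Fin n | w ∈ S ∧ G.Adj v w}.ncard ≤ k) →
            (({φ : V ↪ Fin n | ∀ u v, H.Adj u v → G.Adj (φ u) (φ v)}.ncard : ℕ) : ℝ) ≤ c₂ * (n : ℝ) ^ f) := by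
  intro hall
  set M : Set ℕ := {m : ℕ | ∃ A B : Fin m → H5.Subgraph,
            (∀ i, A i ⊔ B i = ⊤ ∧ (∀ u v, (A i).Adj u v → ¬ (B i).Adj u v) ∧
              (∃ v, v ∈ (A i).verts ∧ v ∉ (B i).verts) ∧
              (∃ v, v ∈ (B i).verts ∧ v ∉ (A i).verts) ∧
              ((A i).verts ∩ (B i).verts).ncard ≤ 2) ∧
            ∀ i j, i ≠ j →
              (∀ u v, (A i).Adj u v → ¬ (A j).Adj u v) ∧
              ∀ v, v ∈ (A i).verts → v ∉ (B i).verts → ¬ (v ∈ (A j).verts ∧ v ∉ (B j).verts)} with hM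
  have hA : A0 ⊔ B0 = ⊤ ∧ (∀ u v, A0.Adj u v → ¬ B0.Adj u v) ∧
            (∃ v, v ∈ A0.verts ∧ v ∉ B0.verts) ∧ (∃ v, v ∈ B0.verts ∧ v ∉ A0.verts) ∧
            (A0.verts ∩ B0.verts).ncard ≤ 2 := by
    refine ⟨A0_sup_B0, A0_B0_adj, ⟨0, Or.inl rfl, fun h => h rfl⟩, ⟨3, ?_, ?_⟩, inter_card⟩
    · show (3 : Fin 5) ≠ 0
      decide
    · show ¬ ((3 : Fin 5) = 0 ∨ (3 : Fin 5) = 1 ∨ (3 : Fin 5) = 2)
      decide
  have hB : B0 ⊔ A0 = ⊤ ∧ (∀ u v, B0.Adj u v → ¬ A0.Adj u v) ∧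
            (∃ v, v ∈ B0.verts ∧ v ∉ A0.verts) ∧ (∃ v, v ∈ A0.verts ∧ v ∉ B0.verts) ∧
            (B0.verts ∩ A0.verts).ncard ≤ 2 := by
    refine ⟨by rw [sup_comm]; exact hA.1, fun u v h1 h2 => hA.2.1 u v h2 h1, hA.2.2.2.1, hA.2.2.1, ?_⟩
    rw [Set.inter_comm]
    exact hA.2.2.2.2
  have h2M : 2 ∈ M := by
    refine ⟨![A0, B0], ![B0, A0], ?_, ?_⟩
    · intro i
      fin_cases i
      · exact hA
      · exact hB
    · intro i j hij
      fin_cases i <;> fin_cases j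
      · exact absurd rfl hij
      · exact ⟨hA.2.1, fun v _ h2 h3 => h2 h3.1⟩
      · exact ⟨hB.2.1, fun v _ h2 h3 => h2 h3.1⟩
      · exact absurd rfl hij
  have hbd : ∀ m ∈ M, m ≤ 5 := by
    rintro m ⟨A, B, h1, h2⟩
    have h3 : ∀ i : Fin m, ∃ v, v ∈ (A i).verts ∧ v ∉ (B i).verts := fun i => (h1 i).2.2.1
    choose g hg using h3
    have hginj : Function.Injective g := by
      intro i j hij
      by_contra hne
      refine (h2 i j hne).2 (g i) (hg i).1 (hg i).2 ?_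
      rw [hij]
      exact hg j
    simpa using Fintype.card_le_of_injective g hginj
  obtain ⟨f, hf⟩ : ∃ f, IsGreatest M f := by
    have hfin : M.Finite := (Set.finite_Iic 5).subset hbd
    refine ⟨sSup M, Nat.sSup_mem ⟨2, h2M⟩ ⟨5, hbd⟩, fun m hm => le_csSup ⟨5, hbd⟩ hm⟩
  have hf2 : 2 ≤ f := hf.2 h2M
  obtain ⟨c₁, c₂, hc1, _, N, hN⟩ := hall 2 (Fin 5) H5 H5_deg f (Or.inr ⟨⟨A0, B0, hA⟩, hf⟩)
  obtain ⟨n, hn⟩ := exists_nat_gt ((5 ^ 5 * 2 ^ 5 : ℝ) / c₁)
  set n' := max (max N n) 1 with hn'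
  have hn1 : N ≤ n' := (le_max_left _ _).trans (le_max_left _ _)
  have hn2 : n ≤ n' := (le_max_right _ _).trans (le_max_left _ _)
  have hn3 : 1 ≤ n' := le_max_right _ _
  obtain ⟨⟨G, hG, hcount⟩, _⟩ := hN n' hn1
  have hup := count_le n' G hG
  have hup' : (({φ : Fin 5 ↪ Fin n' | ∀ u v, H5.Adj u v → G.Adj (φ u) (φ v)}.ncard : ℕ) : ℝ) ≤
      n' * (5 ^ 5 * 2 ^ 5) := by exact_mod_cast hup
  have h1 : (1 : ℝ) ≤ n' := by exact_mod_cast hn3
  have h2 : (n' : ℝ) ^ 2 ≤ (n' : ℝ) ^ f := pow_le_pow_right₀ h1 hf2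
  have h3 : (5 ^ 5 * 2 ^ 5 : ℝ) / c₁ < n' := lt_of_lt_of_le hn (by exact_mod_cast hn2)
  rw [div_lt_iff₀ hc1] at h3
  have h4 : c₁ * (n' : ℝ) ^ 2 ≤ n' * (5 ^ 5 * 2 ^ 5) :=
    (mul_le_mul_of_nonneg_left h2 hc1.le).trans (hcount.trans hup')
  nlinarith

end Pool.Agent.S09798
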