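-- Proof of frozen statement S09801 from the starting result MP_8269f7_co / SublinearMaxDegree.
import Pool.Statements.S09801
import Pool.Agent.Results.MP_8269f7_co.SublinearMaxDegree

set_option autoImplicit false
open Pool Pool.MP_8269f7_co

namespace Pool.Agent.S09801

/-- There is a constant C such that for every k ≥ 2, every complex chromatic root of every finite simple graph with no K4 minor and maximum degree at most k has modulus at most C·k/log k. -/
theorem result :
    ∃ C : ℝ, ∀ k : ℕ, 2 ≤ k → ∀ n : ℕ, ∀ G : SimpleGraph (Fin n),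
      (¬ ∃ f : Fin 4 → Set (Fin n),
          (∀ i, (G.induce (f i)).Connected) ∧
          (∀ i j, i ≠ j → Disjoint (f i) (f j)) ∧
          (∀ i j, i ≠ j → ∃ x ∈ f i, ∃ y ∈ f j, G.Adj x y)) →
      (∀ v, (G.neighborSet v).ncard ≤ k) →
      ∀ P : Polynomial ℂ,
        (∀ q : ℕ, 0 < q → P.eval (q : ℂ) = (Nat.card (G.Coloring (Fin q)) : ℂ)) →
        ∀ z : ℂ, P.eval z = 0 → ‖z‖ ≤ C * k / Real.log k := by
  refine ⟨32, fun k hk n G hG hdeg P hP z hz => ?_⟩
  have key : Pool.Agent.Results.MP_8269f7_co.SublinearMaxDegree.IsChromaticPolynomial G P := by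
    intro m hm
    rw [hP m hm]
    unfold Pool.Agent.Results.MP_8269f7_co.SublinearMaxDegree.numColourings
    congr 1
    refine Nat.card_congr ?_
    exact
      { toFun := fun c => ⟨fun v => c v, fun x y h => c.valid h⟩
        invFun := fun s => SimpleGraph.Coloring.mk s.1 (fun {x y} h => s.2 x y h)
        left_inv := fun c => by ext v; rfl
        right_inv := fun s => by rfl }
  by_contra hlt
  push Not at hlt
  exact Pool.Agent.Results.MP_8269f7_co.SublinearMaxDegree.eval_ne_zero G hG k hdeg key
    (Pool.Agent.Results.MP_8269f7_co.SublinearMaxDegree.cond_of_large hk hlt.le) hz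

end Pool.Agent.S09801
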