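import Pool.Statements.S09851
import Pool.Agent.W233.TilInv
import Pool.Agent.Helper848.CornerFinal

set_option autoImplicit false
open Pool Pool.MP_84cfc0_co

namespace Pool.Agent.S09851

open Pool.Agent.Helper848 in
lemma mem_corner (n m : ℕ) (a b : ℕ) :
    (((a : ℤ) + 1, (b : ℤ) + 1) ∈ cornerRegion n m) ↔
      (a < 2 * n ∧ b < 2 * n ∧ ¬ ∃ i : ℕ, i < m ∧ a = i ∧ (b = i ∨ b = i + 1)) := by
  unfold cornerRegion
  simp only [Finset.mem_sdiff, Finset.mem_product, Finset.mem_Icc, Finset.mem_biUnion,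
    Finset.mem_insert, Finset.mem_singleton, Prod.mk.injEq]
  constructor
  · rintro ⟨h1, h2⟩
    refine ⟨by omega, by omega, ?_⟩
    rintro ⟨i, hi, rfl, h3⟩
    apply h2
    refine ⟨(a : ℤ) + 1, by omega, ?_⟩
    rcases h3 with rfl | rfl
    · left; simp
    · right; push_cast; constructor <;> ring
  · rintro ⟨h1, h2, h3⟩
    refine ⟨by omega, ?_⟩
    rintro ⟨i, hi, h4⟩
    apply h3
    refine ⟨a, by omega, rfl, ?_⟩
    omega

open Pool.Agent.Helper848 in
noncomputable def regEquiv (n m : ℕ) :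
    ({p : ℕ × ℕ | p.1 < 2 * n ∧ p.2 < 2 * n ∧
              ¬ ∃ i : ℕ, i < m ∧ p.1 = i ∧ (p.2 = i ∨ p.2 = i + 1)} : Set (ℕ × ℕ)) ≃
      cornerRegion n m where
  toFun p := ⟨((p.1.1 : ℤ) + 1, (p.1.2 : ℤ) + 1), (mem_corner n m _ _).mpr p.2⟩
  invFun q := ⟨((q.1.1 - 1).toNat, (q.1.2 - 1).toNat), by
    have hq := q.2
    have h1 : 1 ≤ q.1.1 ∧ 1 ≤ q.1.2 := by
      unfold cornerRegion at hq
      simp only [Finset.mem_sdiff, Finset.mem_product, Finset.mem_Icc] at hq
      omega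
    have h2 : (((q.1.1 - 1).toNat : ℤ) + 1, ((q.1.2 - 1).toNat : ℤ) + 1) = q.1 := by
      apply Prod.ext
      · simp only; omega
      · simp only; omega
    rw [← h2] at hq
    exact (mem_corner n m _ _).mp hq⟩
  left_inv p := by
    apply Subtype.ext
    apply Prod.ext
    · simp
    · simp
  right_inv q := by
    have hq := q.2
    have h1 : 1 ≤ q.1.1 ∧ 1 ≤ q.1.2 := by
      unfold cornerRegion at hq
      simp only [Finset.mem_sdiff, Finset.mem_product, Finset.mem_Icc] at hq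
      omega
    apply Subtype.ext
    apply Prod.ext
    · simp only; omega
    · simp only; omega

/-- For every even n ≥ 2, the number of domino tilings of the 2n×2n square with the staircase of n/2 horizontal dominoes removed from the bottom-left corner equals 2^(n/2) times the square of an odd integer. -/
theorem result :
    ∀ n : ℕ, 2 ≤ n → Even n →
      ∀ R : Set (ℕ × ℕ),
        R = {p : ℕ × ℕ | p.1 < 2 * n ∧ p.2 < 2 * n ∧
              ¬ ∃ i : ℕ, i < n / 2 ∧ p.1 = i ∧ (p.2 = i ∨ p.2 = i + 1)} →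
        ∃ k : ℕ, Odd k ∧
          Nat.card {f : R → R // ∀ x : R, f (f x) = x ∧
            ((x.1.1 = (f x).1.1 ∧ (x.1.2 + 1 = (f x).1.2 ∨ (f x).1.2 + 1 = x.1.2)) ∨
             (x.1.2 = (f x).1.2 ∧ (x.1.1 + 1 = (f x).1.1 ∨ (f x).1.1 + 1 = x.1.1)))}
            = 2 ^ (n / 2) * k ^ 2 := by
  intro n hn he R hR
  subst hR
  obtain ⟨k, hk, h⟩ := Pool.Agent.Helper848.Corner.main_le n (n / 2) (by omega) (by omega)
  refine ⟨k, hk, ?_⟩
  have e : n - n / 2 = n / 2 := by
    obtain ⟨a, rfl⟩ := he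
    omega
  rw [e] at h
  rw [← h]
  exact Pool.Agent.W233.card_inv_eq_numTilings _ (regEquiv n (n / 2))
    (fun x y => ((x.1.1 = y.1.1 ∧ (x.1.2 + 1 = y.1.2 ∨ y.1.2 + 1 = x.1.2)) ∨
             (x.1.2 = y.1.2 ∧ (x.1.1 + 1 = y.1.1 ∨ y.1.1 + 1 = x.1.1)))) (by
      intro a b
      unfold Pool.Agent.Helper848.Adj
      simp only [regEquiv, Equiv.coe_fn_mk]
      omega)

end Pool.Agent.S09851
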