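import Pool.Statements.S09874
import Mathlib

set_option autoImplicit false
open Pool Pool.MP_85fffe_co

namespace Pool.Agent.S09874

/-- The ambient set: `{0, ..., 2m+2}` with the middle point `m+1` removed. -/
noncomputable def XX (m : ℕ) : Finset ℝ :=
  ((Finset.range (2 * m + 3)).erase (m + 1)).map (Nat.castEmbedding (R := ℝ))

/-- The patterns: `{0, m+2} ∪ U` with `U ⊆ {2, ..., m}`. -/
noncomputable def AA (m : ℕ) (U : Finset ℕ) : Finset ℝ :=
  (insert 0 (insert (m + 2) U)).map (Nat.castEmbedding (R := ℝ))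

lemma mem_XX {m : ℕ} {x : ℝ} : x ∈ XX m ↔ ∃ k : ℕ, k < 2 * m + 3 ∧ k ≠ m + 1 ∧ (k : ℝ) = x := by
  simp only [XX, Finset.mem_map, Finset.mem_erase, Finset.mem_range, Nat.castEmbedding_apply]
  constructor
  · rintro ⟨k, ⟨h1, h2⟩, h3⟩; exact ⟨k, h2, h1, h3⟩
  · rintro ⟨k, h1, h2, h3⟩; exact ⟨k, ⟨h2, h1⟩, h3⟩

lemma mem_AA {m : ℕ} {U : Finset ℕ} {x : ℝ} :
    x ∈ AA m U ↔ ∃ k : ℕ, (k = 0 ∨ k = m + 2 ∨ k ∈ U) ∧ (k : ℝ) = x := by
  simp only [AA, Finset.mem_map, Finset.mem_insert, Nat.castEmbedding_apply]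

lemma zero_mem {m : ℕ} {U : Finset ℕ} : (0 : ℝ) ∈ AA m U := mem_AA.2 ⟨0, Or.inl rfl, by simp⟩

lemma nonneg_of_mem {m : ℕ} {U : Finset ℕ} {x : ℝ} (h : x ∈ AA m U) : 0 ≤ x := by
  obtain ⟨k, -, rfl⟩ := mem_AA.1 h
  exact Nat.cast_nonneg k

/-- `A + t ⊆ X` for each natural `t ≤ m` with `m + 1 - t ∉ A`. -/
lemma shift_sub {m : ℕ} {U : Finset ℕ} (hU : U ⊆ Finset.Icc 2 m) {t : ℕ} (ht : t ≤ m)
    (htU : m + 1 - t ∉ U) : (AA m U).image (· + (t : ℝ)) ⊆ XX m := by
  intro x hx
  obtain ⟨a, ha, rfl⟩ := Finset.mem_image.1 hx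
  obtain ⟨k, hk, rfl⟩ := mem_AA.1 ha
  refine mem_XX.2 ⟨k + t, ?_, ?_, by push_cast; ring⟩
  · rcases hk with h | h | h
    · omega
    · omega
    · have := Finset.mem_Icc.1 (hU h); omega
  · rcases hk with h | h | h
    · omega
    · omega
    · intro h2
      have : k = m + 1 - t := by omega
      exact htU (this ▸ h)

lemma AA_inj {m : ℕ} {U V : Finset ℕ} (hU : U ⊆ Finset.Icc 2 m) (hV : V ⊆ Finset.Icc 2 m)
    (h : AA m U = AA m V) : U = V := by
  have h1 := Finset.map_injective _ h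
  have key : ∀ U V : Finset ℕ, U ⊆ Finset.Icc 2 m → 
      insert 0 (insert (m + 2) U) = insert 0 (insert (m + 2) V) → U ⊆ V := by
    intro U V hU h k hk
    have h2 : k ∈ insert 0 (insert (m + 2) V) := by
      rw [← h]; simp [hk]
    have h3 := Finset.mem_Icc.1 (hU hk)
    simp only [Finset.mem_insert] at h2
    rcases h2 with h | h | h
    · omega
    · omega
    · exact h
  exact Finset.Subset.antisymm (key U V hU h1) (key V U hV h1.symm)

/-- The negation of the preceding statement: There is a constant C such that for every finite set X of n reals, any family of maximally repeated patterns of X, no two of which are translates of each other, has at most C·n members. -/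
theorem result :
    ¬ (∃ C : ℕ, ∀ X : Finset ℝ, ∀ S : Finset (Finset ℝ),
      (∀ A ∈ S,
        A.Nonempty ∧ A ⊆ X ∧
        (∃ t : ℝ, t ≠ 0 ∧ A.image (· + t) ⊆ X) ∧
        (∀ B : Finset ℝ, A ⊂ B →
          ¬ (∀ t : ℝ, A.image (· + t) ⊆ X → B.image (· + t) ⊆ X))) →
      (∀ A ∈ S, ∀ B ∈ S, ∀ t : ℝ, B = A.image (· + t) → A = B) →
      S.card ≤ C * X.card) := by
  classical
  rintro ⟨C, hC⟩
  -- choose m
  obtain ⟨m, hm1, hm⟩ : ∃ m : ℕ, 1 ≤ m ∧ C * (2 * m + 2) < 2 ^ (m - 1) := by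
    -- m = 2 * (C + 4) + 1 works
    refine ⟨2 * (C + 5) + 1, by omega, ?_⟩
    have h1 : ∀ k : ℕ, k < 2 ^ k := fun k => Nat.lt_two_pow_self
    have h2 : C + 5 + 1 ≤ 2 ^ (C + 5) := h1 _
    have h3 : (2 : ℕ) ^ (2 * (C + 5) + 1 - 1) = 2 ^ (C + 5) * 2 ^ (C + 5) := by
      rw [← pow_add]; congr 1; omega
    rw [h3]
    have h4 : 8 * C < 2 ^ (C + 5) := by
      have : C + 1 ≤ 2 ^ C := h1 _
      have h5 : (2 : ℕ) ^ (C + 5) = 2 ^ C * 32 := by rw [pow_add]; norm_num
      omega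
    have h6 : 2 * (2 * (C + 5) + 1) + 2 ≤ 8 * 2 ^ (C + 5) := by omega
    calc C * (2 * (2 * (C + 5) + 1) + 2) ≤ C * (8 * 2 ^ (C + 5)) := by gcongr
      _ = (8 * C) * 2 ^ (C + 5) := by ring
      _ < 2 ^ (C + 5) * 2 ^ (C + 5) := by
          apply Nat.mul_lt_mul_of_pos_right h4 (by positivity)
  have hcardX : (XX m).card = 2 * m + 2 := by
    rw [XX, Finset.card_map, Finset.card_erase_of_mem (by simp; omega), Finset.card_range]
    omega
  have key := hC (XX m) (((Finset.Icc 2 m).powerset).image (AA m)) ?_ ?_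
  · rw [hcardX, Finset.card_image_of_injOn, Finset.card_powerset, Nat.card_Icc] at key
    · have : m + 1 - 2 = m - 1 := by omega
      rw [this] at key
      omega
    · intro U hU V hV h
      exact AA_inj (Finset.mem_powerset.1 hU) (Finset.mem_powerset.1 hV) h
  · intro A hA
    obtain ⟨U, hU, rfl⟩ := Finset.mem_image.1 hA
    have hU' := Finset.mem_powerset.1 hU
    refine ⟨⟨0, zero_mem⟩, ?_, ?_, ?_⟩
    · have := shift_sub hU' (t := 0) (Nat.zero_le _) (by
        intro h; have := Finset.mem_Icc.1 (hU' h); omega)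
      simpa using this
    · refine ⟨(m : ℝ), by positivity, shift_sub hU' le_rfl ?_⟩
      intro h; have := Finset.mem_Icc.1 (hU' h); omega
    · intro B hAB hall
      obtain ⟨b, hbB, hbA⟩ := Finset.exists_of_ssubset hAB
      -- all allowed shifts of b are in X
      have hb : ∀ t : ℕ, t ≤ m → m + 1 - t ∉ U → b + (t : ℝ) ∈ XX m := by
        intro t ht htU
        exact hall t (shift_sub hU' ht htU) (Finset.mem_image.2 ⟨b, hbB, rfl⟩)
      obtain ⟨k, hk, hk1, hk2⟩ := mem_XX.1 (hb 0 (Nat.zero_le _) (by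
        intro h; have := Finset.mem_Icc.1 (hU' h); omega))
      simp only [Nat.cast_zero, add_zero] at hk2
      subst hk2
      have hkm : k ≤ m + 2 := by
        obtain ⟨l, hl, -, hl2⟩ := mem_XX.1 (hb m le_rfl (by
          intro h; have := Finset.mem_Icc.1 (hU' h); omega))
        have : l = k + m := by exact_mod_cast hl2
        omega
      have hk0 : k ≠ 0 := by rintro rfl; exact hbA (mem_AA.2 ⟨0, Or.inl rfl, rfl⟩)
      have hk3 : k ≠ m + 2 := by rintro rfl; exact hbA (mem_AA.2 ⟨m + 2, Or.inr (Or.inl rfl), rfl⟩)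
      have hkU : k ∉ U := fun h => hbA (mem_AA.2 ⟨k, Or.inr (Or.inr h), rfl⟩)
      obtain ⟨l, -, hl1, hl2⟩ := mem_XX.1 (hb (m + 1 - k) (by omega) (by
        have : m + 1 - (m + 1 - k) = k := by omega
        rw [this]; exact hkU))
      have : l = k + (m + 1 - k) := by
        have : (l : ℝ) = ((k + (m + 1 - k) : ℕ) : ℝ) := by rw [hl2]; push_cast; ring
        exact_mod_cast this
      omega
  · intro A hA B hB t hBt
    obtain ⟨U, hU, rfl⟩ := Finset.mem_image.1 hA
    obtain ⟨V, hV, rfl⟩ := Finset.mem_image.1 hB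
    have ht0 : t = 0 := by
      have h1 : (0 : ℝ) + t ∈ AA m V := by
        rw [hBt]; exact Finset.mem_image.2 ⟨0, zero_mem, rfl⟩
      have h2 : 0 ≤ t := by simpa using nonneg_of_mem h1
      have h3 : (0 : ℝ) ∈ (AA m U).image (· + t) := by rw [← hBt]; exact zero_mem
      obtain ⟨a, ha, hat⟩ := Finset.mem_image.1 h3
      have h4 := nonneg_of_mem ha
      have h5 : a + t = 0 := hat
      linarith
    subst ht0
    rw [hBt]
    simp

end Pool.Agent.S09874
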