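import Pool.Statements.S09946
import Pool.Agent.W166.Girth

set_option autoImplicit false
open Pool Pool.MP_8888ff_co

namespace Pool.Agent.S09946

open SimpleGraph

/-- one step of the construction: a dense graph of girth larger than `N + 1` on more than `N`
vertices -/
theorem step_exists (i N : ℕ) : ∃ p : (Σ n : ℕ, SimpleGraph (Fin n)), N < p.1 ∧
    (i + 1) * p.1 ≤ p.2.edgeSet.ncard ∧ ((N + 2 : ℕ) : ℕ∞) ≤ p.2.egirth := by
  obtain ⟨n, G, h1, h2, h3⟩ := Pool.Agent.W166.Girth.exists_fin (2 * (i + 1) + N) (N + 1)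
  refine ⟨⟨n, G⟩, by simp only; omega, ?_, ?_⟩
  · simp only
    nlinarith
  · refine le_trans ?_ h3
    have h4 : N + 1 < 2 ^ (N + 1) := Nat.lt_two_pow_self
    exact_mod_cast (by omega : N + 2 ≤ 3 * 2 ^ (N + 1))

/-- one step -/
noncomputable def step (i N : ℕ) : Σ n : ℕ, SimpleGraph (Fin n) := (step_exists i N).choose

/-- the sequence of graphs -/
noncomputable def sq : ℕ → Σ n : ℕ, SimpleGraph (Fin n)
  | 0 => step 0 4
  | i + 1 => step (i + 1) (sq i).1

theorem sq_lt (i : ℕ) : (sq i).1 < (sq (i + 1)).1 := (step_exists (i + 1) (sq i).1).choose_spec.1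

theorem sq_mono : StrictMono (fun i => (sq i).1) := strictMono_nat_of_lt_succ sq_lt

theorem sq_four (i : ℕ) : 4 < (sq i).1 :=
  lt_of_lt_of_le (step_exists 0 4).choose_spec.1 (sq_mono.monotone (Nat.zero_le i))

theorem sq_edges (i : ℕ) : (i + 1) * (sq i).1 ≤ (sq i).2.edgeSet.ncard := by
  cases i with
  | zero => exact (step_exists 0 4).choose_spec.2.1
  | succ i => exact (step_exists (i + 1) (sq i).1).choose_spec.2.1

theorem sq_girth (i j : ℕ) (hij : i < j) : (((sq i).1 + 2 : ℕ) : ℕ∞) ≤ (sq j).2.egirth := by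
  cases j with
  | zero => omega
  | succ j =>
    refine le_trans ?_ (step_exists (j + 1) (sq j).1).choose_spec.2.2
    have : (sq i).1 ≤ (sq j).1 := sq_mono.monotone (by omega)
    exact_mod_cast (by omega : (sq i).1 + 2 ≤ (sq j).1 + 2)

theorem sq_girth4 (i : ℕ) : (6 : ℕ∞) ≤ (sq i).2.egirth := by
  cases i with
  | zero => exact_mod_cast (step_exists 0 4).choose_spec.2.2
  | succ i =>
    refine le_trans ?_ (sq_girth i (i + 1) (by omega))
    have := sq_four i
    exact_mod_cast (by omega : 6 ≤ (sq i).1 + 2)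

theorem egirth_le_card {k : ℕ} (H : SimpleGraph (Fin k)) (h : ¬ H.IsAcyclic) :
    H.egirth ≤ (k : ℕ∞) := by
  simp only [IsAcyclic, not_forall, not_not] at h
  obtain ⟨v, c, hc⟩ := h
  refine (egirth_le_length hc).trans ?_
  have h1 : c.support.tail.length ≤ Fintype.card (Fin k) := hc.support_nodup.length_le_card
  rw [Fintype.card_fin, List.length_tail, Walk.length_support] at h1
  exact_mod_cast (by omega : c.length ≤ k)

theorem leaf {V : Type} [Finite V] [Nonempty V] (H : SimpleGraph V) (hac : H.IsAcyclic) :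
    ∃ v, (H.neighborSet v).ncard ≤ 1 := by
  classical
  obtain ⟨u, v, p, hp, hmax⟩ := Walk.exists_isPath_forall_isPath_length_le_length H
  refine ⟨u, ?_⟩
  have hsub : H.neighborSet u ⊆ {p.snd} := by
    intro w hw
    rw [mem_neighborSet] at hw
    have hnil : ¬ p.Nil := by
      intro hn
      have h1 : (Walk.cons hw .nil : H.Walk u w).IsPath := by
        simp [hw.ne]
      have h2 := hmax _ _ _ h1
      rw [Walk.length_cons, Walk.length_nil, Walk.length_eq_zero_iff.mpr hn] at h2
      omega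
    apply hac.eq_snd_of_adj_start hp hw
    have h3 : ¬ (p.cons hw.symm).IsPath := by
      intro h4
      have h5 := hmax _ _ _ h4
      rw [Walk.length_cons] at h5
      omega
    by_contra h6
    exact h3 (hp.cons h6)
  exact (Set.ncard_le_ncard hsub).trans (by simp)

/-- the family -/
def Fam : Set (Σ k : ℕ, SimpleGraph (Fin k)) :=
  {p | ¬ p.2.IsAcyclic ∧ ∀ i, ¬ p.2.IsContained (sq i).2}

/-- The negation of the preceding statement: For every graph family whose members all contain a cycle and one is bipartite, some c>0 ensures every graph with min degree δ≥1 and max degree Δ has a spanning F-free subgraph of min degree at least c·ex(K_Δ,F)·δ/Δ². -/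
theorem result :
    ¬ (∀ F : Set (Σ k : ℕ, SimpleGraph (Fin k)),
      (∀ p ∈ F, ¬ p.2.IsAcyclic) →
      (∃ p ∈ F, p.2.Colorable 2) →
      ∃ c : ℝ, 0 < c ∧
        ∀ δ Δ : ℕ, 1 ≤ δ → δ ≤ Δ →
          ∀ n : ℕ, ∀ G : SimpleGraph (Fin n),
            (∀ v, δ ≤ (G.neighborSet v).ncard) →
            (∃ v, (G.neighborSet v).ncard = δ) →
            (∀ v, (G.neighborSet v).ncard ≤ Δ) →
            (∃ v, (G.neighborSet v).ncard = Δ) →
            ∀ T : SimpleGraph (Fin Δ),
              (∀ p ∈ F, ¬ p.2.IsContained T) →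
              ∃ H : SimpleGraph (Fin n), H ≤ G ∧
                (∀ p ∈ F, ¬ p.2.IsContained H) ∧
                ∀ v, c * (T.edgeSet.ncard : ℝ) * (δ : ℝ) / (Δ : ℝ) ^ 2
                  ≤ ((H.neighborSet v).ncard : ℝ)) := by
  intro hall
  obtain ⟨c, hc, h⟩ := hall Fam (fun p hp => hp.1) (by
    refine ⟨⟨4, cycleGraph 4⟩, ⟨?_, ?_⟩, ?_⟩
    · intro hac
      rw [isAcyclic_iff_free_cycleGraph] at hac
      exact hac 4 (by norm_num) (IsContained.refl _)
    · intro i hi
      have h1 := hi.egirth_le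
      have h2 : (cycleGraph 4).egirth ≤ ((4 : ℕ) : ℕ∞) := by
        apply egirth_le_card
        intro hac
        rw [isAcyclic_iff_free_cycleGraph] at hac
        exact hac 4 (by norm_num) (IsContained.refl _)
      have h3 := (sq_girth4 i).trans (h1.trans h2)
      exact absurd (by exact_mod_cast h3 : (6 : ℕ) ≤ 4) (by norm_num)
    · refine ⟨Coloring.mk (fun i : Fin 4 => (⟨i.val % 2, Nat.mod_lt _ (by norm_num)⟩ : Fin 2)) ?_⟩
      intro v w
      revert v w
      decide)
  obtain ⟨i, hi⟩ := exists_nat_gt (1 / c)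
  have hD : 1 ≤ (sq i).1 := by have := sq_four i; omega
  have hdeg : ∀ v : Fin ((sq i).1 + 1), ((⊤ : SimpleGraph (Fin ((sq i).1 + 1))).neighborSet v).ncard
      = (sq i).1 := by
    intro v
    have : (⊤ : SimpleGraph (Fin ((sq i).1 + 1))).neighborSet v = {v}ᶜ := by
      ext w; simp [eq_comm]
    rw [this, Set.ncard_compl, Set.ncard_singleton]
    simp
  obtain ⟨H, -, hH, hHdeg⟩ := h (sq i).1 (sq i).1 hD le_rfl ((sq i).1 + 1) ⊤
    (fun v => (hdeg v).ge) ⟨0, hdeg 0⟩ (fun v => (hdeg v).le) ⟨0, hdeg 0⟩ (sq i).2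
    (fun p hp => hp.2 i)
  have hac : H.IsAcyclic := by
    by_contra hna
    apply hH ⟨_, H⟩ ⟨hna, ?_⟩ (IsContained.refl _)
    intro j hj
    rcases le_or_gt j i with hji | hij
    · obtain ⟨f⟩ := hj
      have h1 := Fintype.card_le_of_injective _ f.injective
      rw [Fintype.card_fin, Fintype.card_fin] at h1
      have h2 : (sq j).1 ≤ (sq i).1 := sq_mono.monotone hji
      simp only at h1
      omega
    · have h1 := (sq_girth i j hij).trans (hj.egirth_le.trans (egirth_le_card H hna))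
      have h2 : (sq i).1 + 2 ≤ (sq i).1 + 1 := by exact_mod_cast h1
      omega
  obtain ⟨v, hv⟩ := leaf H hac
  have h1 := hHdeg v
  have h2 : ((H.neighborSet v).ncard : ℝ) ≤ 1 := by exact_mod_cast hv
  have h3 : (((i + 1) * (sq i).1 : ℕ) : ℝ) ≤ ((sq i).2.edgeSet.ncard : ℝ) := by
    exact_mod_cast sq_edges i
  have hDr : (0 : ℝ) < ((sq i).1 : ℝ) := by exact_mod_cast hD
  have h4 : 1 < c * (i + 1) := by
    rw [div_lt_iff₀ hc] at hi
    nlinarith
  have h5 : c * (i + 1) ≤ c * ((sq i).2.edgeSet.ncard : ℝ) * ((sq i).1 : ℝ) / ((sq i).1 : ℝ) ^ 2 := by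
    rw [le_div_iff₀ (by positivity)]
    push_cast at h3
    have h6 : c * ((i + 1 : ℝ) * (sq i).1) * (sq i).1 ≤
        c * ((sq i).2.edgeSet.ncard : ℝ) * (sq i).1 := by
      apply mul_le_mul_of_nonneg_right _ hDr.le
      exact mul_le_mul_of_nonneg_left h3 hc.le
    nlinarith
  linarith

end Pool.Agent.S09946
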