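import Pool.Statements.S10090
import Pool.Agent.Results.MP_8e7993_co.NoFeedbackPathOfLengthThree

set_option autoImplicit false
open Pool Pool.MP_8e7993_co

namespace Pool.Agent.S10090

/-- The negation of the preceding statement: Every finite nonempty loopless digraph whose out-degrees are all at least k has an inclusion-minimal feedback arc set containing a directed path with k arcs on distinct vertices. -/
theorem result :
    ¬ (∀ (V : Type) [Finite V] [Nonempty V] (G : Digraph V),
      (∀ v, ¬ G.Adj v v) →
      ∀ k : ℕ, (∀ v : V, k ≤ Nat.card {w : V // G.Adj v w}) →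
        ∃ F : Set (V × V),
          Minimal (fun S : Set (V × V) =>
              (∀ e ∈ S, G.Adj e.1 e.2) ∧
              ∀ v : V, ¬ Relation.TransGen (fun a b => G.Adj a b ∧ (a, b) ∉ S) v v) F ∧
          ∃ p : Fin (k + 1) → V, Function.Injective p ∧
            ∀ i : Fin k, (p i.castSucc, p i.succ) ∈ F) := by
  intro H
  obtain ⟨V, hfin, hne, G, hloop, hdeg, -, -, hno⟩ :=
    Pool.Agent.Results.MP_8e7993_co.NoFeedbackPathOfLengthThree.result 3 0 (by norm_num)
  obtain ⟨F, hF, p, -, hp⟩ := @H V hfin hne G hloop 3 (fun v => (hdeg v).ge)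
  exact hno F hF (p 0) (p 1) (p 2) (p 3) (hp 0) (hp 1) (hp 2)

end Pool.Agent.S10090
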