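import Pool.Statements.S10173
import Pool.Agent.Results.MP_932050_co.LinearBound

set_option autoImplicit false
open Pool Pool.MP_932050_co

namespace Pool.Agent.S10173

/-- For every k ≥ 1 and α in [0,1] there is C such that, for all d ≥ k, any finite set of distinct k-dimensional subspaces of ℝ^d, pairwise equi-isoclinic with angle α, has at most C·d members. -/
theorem result :
    ∀ k : ℕ, 1 ≤ k → ∀ α : ℝ, 0 ≤ α → α ≤ 1 →
      ∃ C : ℝ, ∀ d : ℕ, k ≤ d →
        ∀ S : Finset (Submodule ℝ (EuclideanSpace ℝ (Fin d))),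
          (∀ U ∈ S, Module.finrank ℝ U = k) →
          (∀ U ∈ S, ∀ V ∈ S, U ≠ V →
            ∀ u ∈ U, ‖u‖ = 1 → ‖V.orthogonalProjection u‖ = α) →
          (S.card : ℝ) ≤ C * d := by
  intro k hk α h0 h1
  obtain ⟨C, hC⟩ := Pool.Agent.Results.MP_932050_co.LinearBound.result.1 k hk α h0 h1
  refine ⟨C, fun d hd S hS1 hS2 => ?_⟩
  obtain ⟨N, hN, hle⟩ := hC d hd
  refine le_trans ?_ hle
  have hfam : Pool.Agent.Results.MP_932050_co.LinearBound.IsFamily k d α
      (S : Set (Submodule ℝ (EuclideanSpace ℝ (Fin d)))) := by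
    refine ⟨fun U hU => hS1 U hU, fun U hU V hV hUV u hu hu1 => ?_⟩
    exact hS2 U hU V hV hUV u hu hu1
  have h2 : (S : Set (Submodule ℝ (EuclideanSpace ℝ (Fin d)))).encard ≤
      Pool.Agent.Results.MP_932050_co.LinearBound.maxNumber k d α :=
    le_iSup₂ (f := fun (s : Set (Submodule ℝ (EuclideanSpace ℝ (Fin d))))
      (_ : Pool.Agent.Results.MP_932050_co.LinearBound.IsFamily k d α s) => s.encard) _ hfam
  rw [hN, Set.encard_coe_eq_coe_finsetCard] at h2
  exact_mod_cast h2

end Pool.Agent.S10173
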