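import Pool.Statements.S10226
import Pool.Agent.W606.SF.Graph

set_option autoImplicit false
open Pool Pool.MP_951455_co

namespace Pool.Agent.S10226

/-- The negation of the preceding statement: Some c ≥ 1 works so that for all n,k,b ≥ 1 with n ≤ kb, every n-vertex planar graph of treewidth ≤ k and path-partition-width ≤ b is a subgraph of H⊠P⊠K_c, with H planar, treewidth ≤ 3, at most b vertices, and P a path on k vertices. -/
theorem result :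
    ¬ (∃ c : ℕ, 1 ≤ c ∧
  ∀ n k b : ℕ, 1 ≤ n → 1 ≤ k → 1 ≤ b → n ≤ k * b →
  ∀ G : SimpleGraph (Fin n),
    (∃ p : Fin n → ℝ × ℝ, Function.Injective p ∧
      ∃ γ : Fin n → Fin n → unitInterval → ℝ × ℝ,
        (∀ u v, G.Adj u v → Continuous (γ u v) ∧ Function.Injective (γ u v) ∧
            γ u v 0 = p u ∧ γ u v 1 = p v) ∧
        (∀ u v w x, G.Adj u v → γ u v x = p w → (w = u ∧ x = 0) ∨ (w = v ∧ x = 1)) ∧
        (∀ u v u' v' x y, G.Adj u v → G.Adj u' v' → Sym2.mk (u, v) ≠ Sym2.mk (u', v') →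
            γ u v x = γ u' v' y → ∃ w, γ u v x = p w)) →
    (∃ m : ℕ, ∃ T : SimpleGraph (Fin m), T.IsTree ∧
      ∃ B : Fin m → Finset (Fin n),
        (∀ v, ∃ i, v ∈ B i) ∧
        (∀ u v, G.Adj u v → ∃ i, u ∈ B i ∧ v ∈ B i) ∧
        (∀ v, (T.induce {i | v ∈ B i}).Connected) ∧
        (∀ i, (B i).card ≤ k + 1)) →
    (∃ f : Fin n → ℕ,
      (∀ u v, G.Adj u v → f u ≤ f v + 1 ∧ f v ≤ f u + 1) ∧
      (∀ i : ℕ, (Finset.univ.filter (fun v => f v = i)).card ≤ b)) →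
    ∃ m : ℕ, m ≤ b ∧ ∃ H : SimpleGraph (Fin m),
      (∃ p : Fin m → ℝ × ℝ, Function.Injective p ∧
        ∃ γ : Fin m → Fin m → unitInterval → ℝ × ℝ,
          (∀ u v, H.Adj u v → Continuous (γ u v) ∧ Function.Injective (γ u v) ∧
              γ u v 0 = p u ∧ γ u v 1 = p v) ∧
          (∀ u v w x, H.Adj u v → γ u v x = p w → (w = u ∧ x = 0) ∨ (w = v ∧ x = 1)) ∧
          (∀ u v u' v' x y, H.Adj u v → H.Adj u' v' → Sym2.mk (u, v) ≠ Sym2.mk (u', v') →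
              γ u v x = γ u' v' y → ∃ w, γ u v x = p w)) ∧
      (∃ r : ℕ, ∃ T : SimpleGraph (Fin r), T.IsTree ∧
        ∃ B : Fin r → Finset (Fin m),
          (∀ v, ∃ i, v ∈ B i) ∧
          (∀ u v, H.Adj u v → ∃ i, u ∈ B i ∧ v ∈ B i) ∧
          (∀ v, (T.induce {i | v ∈ B i}).Connected) ∧
          (∀ i, (B i).card ≤ 3 + 1)) ∧
      ∃ φ : Fin n → Fin m × Fin k × Fin c, Function.Injective φ ∧
        ∀ u v, G.Adj u v →
          ((φ u).1 = (φ v).1 ∨ H.Adj (φ u).1 (φ v).1) ∧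
          ((φ u).2.1 = (φ v).2.1 ∨ (SimpleGraph.pathGraph k).Adj (φ u).2.1 (φ v).2.1)) := by
  rintro ⟨c, -, h⟩
  have hS : 1 ≤ 378 * c ^ 2 + 1 := by omega
  obtain ⟨p, hp, γ, g1, g2, g3⟩ := Pool.Agent.W606.SF.drawing (378 * c ^ 2 + 1)
  obtain ⟨m, hm, H, -, ⟨r, T, hT, B, b1, b2, b3, b4⟩, φ, hφ, hadj⟩ :=
    h (Pool.Agent.W606.SF.nn (378 * c ^ 2 + 1)) (378 * c ^ 2 + 1 + 1)
      (3 * 2 ^ (378 * c ^ 2 + 1)) (Pool.Agent.W606.SF.nn_pos _) (by omega)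
      (Nat.mul_pos (by norm_num) (Nat.pow_pos (by norm_num)))
      (Pool.Agent.W606.SF.card_F _) (Pool.Agent.W606.SF.GG _)
      ⟨p, hp, γ, g1, g2, fun u v u' v' x y h1 h2 h3 h4 =>
        g3 u v u' v' x y h1 h2 (fun e => h3 (by rw [e])) h4⟩
      (Pool.Agent.W606.SF.treedec _ hS) (Pool.Agent.W606.SF.pathpart _)
  exact Pool.Agent.W606.SF.noemb (378 * c ^ 2 + 1) c (Nat.le_succ _) m hm H r T hT B b1 b2 b3 b4
    _ φ hφ hadj

end Pool.Agent.S10226
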