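import Pool.Statements.S10231
import Pool.Agent.W317.DR.All
import Pool.Agent.W148.DR.Tr

set_option autoImplicit false
open Pool Pool.MP_9571c3_co

namespace Pool.Agent.S10231

/-- For every d ≥ 3 there are k and a finite nonempty k-uniform hypergraph H with all degrees at least d such that, on the countably infinite complete k-uniform hypergraph, neither player has a strategy guaranteeing they claim a copy of H first. -/
theorem result :
  ∀ d : ℕ, 3 ≤ d → ∃ (k n : ℕ) (H : Finset (Finset (Fin n))), 0 < n ∧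
    (∀ e ∈ H, e.card = k) ∧
    (∀ v : Fin n, d ≤ (H.filter (fun e => v ∈ e)).card) ∧
    (¬ ∃ s : List (Finset ℕ) → Finset ℕ, ∀ m : ℕ → Finset ℕ,
        (∀ i : ℕ, Even i → m i = s (List.ofFn (fun j : Fin i => m j))) →
        (∀ i : ℕ, Odd i → (m i).card = k ∧ ∀ j < i, m j ≠ m i) →
        ∃ N : ℕ, Even N ∧
          (∀ i ≤ N, Even i → (m i).card = k ∧ ∀ j < i, m j ≠ m i) ∧
          (∃ f : Fin n → ℕ, Function.Injective f ∧
              ∀ e ∈ H, ∃ i ≤ N, Even i ∧ m i = e.image f) ∧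
          ¬ (∃ f : Fin n → ℕ, Function.Injective f ∧
              ∀ e ∈ H, ∃ i < N, Odd i ∧ m i = e.image f)) ∧
    (¬ ∃ t : List (Finset ℕ) → Finset ℕ, ∀ m : ℕ → Finset ℕ,
        (∀ i : ℕ, Odd i → m i = t (List.ofFn (fun j : Fin i => m j))) →
        (∀ i : ℕ, Even i → (m i).card = k ∧ ∀ j < i, m j ≠ m i) →
        ∃ N : ℕ, Odd N ∧
          (∀ i ≤ N, Odd i → (m i).card = k ∧ ∀ j < i, m j ≠ m i) ∧
          (∃ f : Fin n → ℕ, Function.Injective f ∧
              ∀ e ∈ H, ∃ i ≤ N, Odd i ∧ m i = e.image f) ∧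
          ¬ (∃ f : Fin n → ℕ, Function.Injective f ∧
              ∀ e ∈ H, ∃ i < N, Even i ∧ m i = e.image f)) := by
  exact Pool.Agent.W317.DR.allfinal Pool.Agent.W148.DR.ex (Pool.Agent.W148.DR.tr Pool.Agent.W317.DR.allcard)

end Pool.Agent.S10231
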