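import Pool.Statements.S10295
import Pool.Agent.W153.EO.Sep
import Pool.Agent.W153.EO.Count

set_option autoImplicit false
open Pool Pool.MP_97f5de_co

namespace Pool.Agent.S10295

/-- The bipartite graph which contains the pattern in every edge-ordering, on `Fin m`. -/
lemma exists_bip : ∃ m : ℕ, ∃ H : SimpleGraph (Fin m), H.Colorable 2 ∧
    ∀ h : Sym2 (Fin m) → ℕ, Set.InjOn h H.edgeSet → W153.EO.Cont H h := by
  obtain ⟨N, K, hNK⟩ := W153.EO.exists_host
  let e := Fintype.equivFin (Fin N ⊕ Fin K)
  refine ⟨Fintype.card (Fin N ⊕ Fin K), (completeBipartiteGraph (Fin N) (Fin K)).comap e.symm, ?_, ?_⟩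
  · have C : ((completeBipartiteGraph (Fin N) (Fin K)).comap e.symm).Coloring Bool :=
      SimpleGraph.Coloring.mk (fun v => (e.symm v).isLeft) (by
        intro u v huv
        rw [SimpleGraph.comap_adj] at huv
        revert huv
        rcases e.symm u with x | x <;> rcases e.symm v with y | y <;> simp)
    exact C.colorable
  · intro h hh
    have hinj : Set.InjOn (fun x => h (x.map e)) (completeBipartiteGraph (Fin N) (Fin K)).edgeSet := by
      intro x hx y hy hxy
      have hx' : x.map e ∈ ((completeBipartiteGraph (Fin N) (Fin K)).comap e.symm).edgeSet := by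
        induction x using Sym2.ind with
        | _ a b =>
          simp only [Sym2.map_mk, SimpleGraph.mem_edgeSet, SimpleGraph.comap_adj, Equiv.symm_apply_apply]
          exact hx
      have hy' : y.map e ∈ ((completeBipartiteGraph (Fin N) (Fin K)).comap e.symm).edgeSet := by
        induction y using Sym2.ind with
        | _ a b =>
          simp only [Sym2.map_mk, SimpleGraph.mem_edgeSet, SimpleGraph.comap_adj, Equiv.symm_apply_apply]
          exact hy
      exact Sym2.map.injective e.injective (hh hx' hy' hxy)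
    obtain ⟨φ, h1, h2, h3⟩ := hNK _ hinj
    refine ⟨e ∘ φ, e.injective.comp h1, ?_, ?_⟩
    · intro u v huv
      rw [SimpleGraph.comap_adj]
      simpa using h2 u v huv
    · intro e₁ he₁ e₂ he₂ hlt
      have := h3 e₁ he₁ e₂ he₂ hlt
      simpa only [Sym2.map_map] using this

/-- There is an edge-ordered forest F with an edge such that every edge-ordering of some bipartite graph contains F, yet for every C there are arbitrarily large n with an F-free edge-ordered n-vertex graph having more than C·n·log n edges. -/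
theorem result :
    ∃ k : ℕ, ∃ F : SimpleGraph (Fin k), ∃ f : Sym2 (Fin k) → ℕ,
      F.IsAcyclic ∧ Set.InjOn f F.edgeSet ∧ F.edgeSet.Nonempty ∧
      (∃ m : ℕ, ∃ H : SimpleGraph (Fin m), H.Colorable 2 ∧
        ∀ h : Sym2 (Fin m) → ℕ, Set.InjOn h H.edgeSet →
          ∃ φ : Fin k → Fin m, Function.Injective φ ∧
            (∀ u v : Fin k, F.Adj u v → H.Adj (φ u) (φ v)) ∧
            ∀ e₁ ∈ F.edgeSet, ∀ e₂ ∈ F.edgeSet,
              f e₁ < f e₂ → h (Sym2.map φ e₁) < h (Sym2.map φ e₂)) ∧
      ∀ C : ℝ, ∀ N : ℕ, ∃ n : ℕ, N ≤ n ∧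
        ∃ G : SimpleGraph (Fin n), ∃ g : Sym2 (Fin n) → ℕ,
          Set.InjOn g G.edgeSet ∧
          (¬ ∃ φ : Fin k → Fin n, Function.Injective φ ∧
              (∀ u v : Fin k, F.Adj u v → G.Adj (φ u) (φ v)) ∧
              ∀ e₁ ∈ F.edgeSet, ∀ e₂ ∈ F.edgeSet,
                f e₁ < f e₂ → g (Sym2.map φ e₁) < g (Sym2.map φ e₂)) ∧
          C * (n : ℝ) * Real.log (n : ℝ) < (G.edgeSet.ncard : ℝ) :=
  ⟨7, W153.EO.pat, W153.EO.lab, W153.EO.pat_acyclic, W153.EO.lab_injOn, W153.EO.pat_nonempty, exists_bip,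
    W153.EO.lower⟩

end Pool.Agent.S10295
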