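import Pool.Statements.S10336
import Pool.Agent.W159.Occ

set_option autoImplicit false
open Classical
open Pool Pool.MP_99d978_co

namespace Pool.Agent.S10336

/-- adjacency masks of a 4-regular triangle-free graph on 20 vertices -/
def gm (k : ℕ) : ℕ := ([329744, 69764, 33858, 803840, 5249, 152064, 10756, 524818, 563200, 262368, 131100, 131393, 306, 720960, 98344, 278788, 24579, 11296, 33289, 8584] : List ℕ).getD k 0

/-- masks of the non-neighbours -/
def gc (k : ℕ) : ℕ := ([718831, 978811, 1014717, 244735, 1043326, 896511, 1037819, 523757, 485375, 786207, 917475, 917182, 1048269, 327615, 950231, 769787, 1023996, 1037279, 1015286, 1039991] : List ℕ).getD k 0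

/-- adjacency masks of the Robertson graph -/
def hm (k : ℕ) : ℕ := ([5216, 134152, 266512, 210, 65580, 2577, 33033, 279048, 10308, 139424, 270339, 16674, 147461, 67328, 71808, 458816, 57360, 37378, 33924] : List ℕ).getD k 0

/-- masks of the non-neighbours in the circulant graph -/
def cc (k : ℕ) : ℕ := ([3805, 7610, 7029, 5867, 3543, 7086, 5981, 3771, 7542, 6893, 5595, 2999, 5998] : List ℕ).getD k 0

/-- the graph on 20 vertices -/
def G20 : SimpleGraph (Fin 20) where
  Adj i j := (gm i.val).testBit j.val = true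
  symm := ⟨by decide +kernel⟩
  loopless := ⟨by decide +kernel⟩

/-- the Robertson graph -/
def H19 : SimpleGraph (Fin 19) where
  Adj i j := (hm i.val).testBit j.val = true
  symm := ⟨by decide +kernel⟩
  loopless := ⟨by decide +kernel⟩

lemma g_adj (i j : Fin 20) : G20.Adj i j ↔ (gm i.val).testBit j.val = true := Iff.rfl

lemma h_adj (i j : Fin 19) : H19.Adj i j ↔ (hm i.val).testBit j.val = true := Iff.rfl


theorem g_deg : ∀ i : Fin 20,
    (Finset.univ.filter (fun j : Fin 20 => (gm i.val).testBit j.val = true)).card = 4 := by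
  decide +kernel

theorem h_deg : ∀ i : Fin 19,
    (Finset.univ.filter (fun j : Fin 19 => (hm i.val).testBit j.val = true)).card = 4 := by
  decide +kernel

theorem g_tri : ∀ a b c : Fin 20, (gm a.val).testBit b.val = true → (gm a.val).testBit c.val = true →
    (gm b.val).testBit c.val = true → False := by
  decide +kernel

theorem h_tri : ∀ a b c : Fin 19, (hm a.val).testBit b.val = true → (hm b.val).testBit c.val = true →
    (hm c.val).testBit a.val = true → False := by
  decide +kernel

theorem h_quad : ∀ a c : Fin 19, a ≠ c → ∀ b : Fin 19, (hm a.val).testBit b.val = true →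
    (hm b.val).testBit c.val = true → ∀ d : Fin 19, b ≠ d → (hm c.val).testBit d.val = true →
    (hm d.val).testBit a.val = true → False := by
  decide +kernel

theorem g_reg : G20.IsRegularOfDegree 4 := by
  intro v
  rw [← SimpleGraph.card_neighborFinset_eq_degree]
  convert g_deg v using 2
  ext w
  simp only [SimpleGraph.mem_neighborFinset, Finset.mem_filter, Finset.mem_univ, true_and]
  exact g_adj v w

theorem h_reg : H19.IsRegularOfDegree 4 := by
  intro v
  rw [← SimpleGraph.card_neighborFinset_eq_degree]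
  convert h_deg v using 2
  ext w
  simp only [SimpleGraph.mem_neighborFinset, Finset.mem_filter, Finset.mem_univ, true_and]
  exact h_adj v w

theorem g_free : G20.CliqueFree 3 := by
  intro t ht
  rw [SimpleGraph.is3Clique_iff] at ht
  obtain ⟨a, b, c, hab, hac, hbc, -⟩ := ht
  exact g_tri a b c hab hac hbc

theorem h_girth : (5 : ℕ∞) ≤ H19.egirth := by
  rw [SimpleGraph.le_egirth]
  intro a w hw
  by_contra hlt
  have h3 := hw.three_le_length
  have h5 : w.length < 5 := by
    rw [not_le] at hlt
    exact_mod_cast hlt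
  cases w with
  | nil => simp at h3
  | cons h1 p1 =>
    rename_i b
    cases p1 with
    | nil => simp at h3
    | cons h2 p2 =>
      rename_i c
      cases p2 with
      | nil => simp at h3
      | cons h4 p3 =>
        rename_i d
        cases p3 with
        | nil => exact h_tri _ _ _ h1 h2 h4
        | cons h6 p4 =>
          cases p4 with
          | nil =>
            have hn := hw.support_nodup
            simp only [SimpleGraph.Walk.support_cons, SimpleGraph.Walk.support_nil, List.tail_cons,
              List.nodup_cons, List.mem_cons, List.not_mem_nil, or_false, not_or, not_false_eq_true,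
              List.nodup_nil, and_true] at hn
            have hac : a ≠ c := fun h => hn.2.1.2 h.symm
            exact h_quad a c hac b h1 h2 d hn.1.2.1 h4 h6
          | cons h7 p5 =>
            simp only [SimpleGraph.Walk.length_cons] at h5
            omega

theorem g_ev : Pool.Agent.W159.Occ.ev gc 20 1048575 = (72225, 359800) := by
  decide +kernel

theorem c_ev : Pool.Agent.W159.Occ.ev cc 13 8191 = (1483, 4810) := by
  decide +kernel

theorem g_mask : ∀ v w : Fin 20, (gc v.val).testBit w.val = false ↔
    (gm v.val).testBit w.val = true := by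
  decide +kernel

theorem g_full : ∀ v : Fin 20, (1048575 : ℕ).testBit v.val = true := by
  decide +kernel

theorem c_mask : ∀ v w : Fin 13, (cc v.val).testBit w.val = false ↔
    (v ≠ w ∧ ((v - w = 1 ∨ v - w = 5) ∨ (w - v = 1 ∨ w - v = 5))) := by
  decide +kernel

theorem c_full : ∀ v : Fin 13, (8191 : ℕ).testBit v.val = true := by
  decide +kernel

theorem c_mask' (v w : ZMod 13) : (cc (Equiv.refl (Fin 13) v).val).testBit
    (Equiv.refl (Fin 13) w).val = false ↔
    (SimpleGraph.fromRel (fun x y : ZMod 13 => x - y = 1 ∨ x - y = 5)).Adj v w := by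
  rw [SimpleGraph.fromRel_adj]
  exact c_mask v w

theorem c_sums (inst : ∀ I : Finset (ZMod 13), Decidable ((SimpleGraph.fromRel
      (fun x y : ZMod 13 => x - y = 1 ∨ x - y = 5)).IsIndepSet (I : Set (ZMod 13)))) :
    (∑ I : Finset (ZMod 13), if (SimpleGraph.fromRel
      (fun x y : ZMod 13 => x - y = 1 ∨ x - y = 5)).IsIndepSet (I : Set (ZMod 13))
        then (2 : ℝ) ^ I.card else 0) = (1483 : ℕ) ∧
    (∑ I : Finset (ZMod 13), if (SimpleGraph.fromRel
      (fun x y : ZMod 13 => x - y = 1 ∨ x - y = 5)).IsIndepSet (I : Set (ZMod 13))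
        then (I.card : ℝ) * 2 ^ I.card else 0) = (4810 : ℕ) := by
  apply Pool.Agent.W159.Occ.sums_eq (V := ZMod 13) (n := 13) (Equiv.refl (Fin 13)) _ _ cc c_mask'
      8191
  · intro v
    exact c_full v
  · exact c_ev

theorem g_sums (inst : ∀ I : Finset (Fin 20), Decidable (G20.IsIndepSet (I : Set (Fin 20)))) :
    (∑ I : Finset (Fin 20), if G20.IsIndepSet (I : Set (Fin 20))
        then (2 : ℝ) ^ I.card else 0) = (72225 : ℕ) ∧
    (∑ I : Finset (Fin 20), if G20.IsIndepSet (I : Set (Fin 20))
        then (I.card : ℝ) * 2 ^ I.card else 0) = (359800 : ℕ) := by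
  apply Pool.Agent.W159.Occ.sums_eq (V := Fin 20) (n := 20) (Equiv.refl (Fin 20)) G20 _ gc
    (fun v w => g_mask v w) 1048575
  · intro v
    exact g_full v
  · exact g_ev

theorem final (A B C D : ℝ) (hA : A = (4810 : ℕ)) (hB : B = (1483 : ℕ)) (hC : C = (359800 : ℕ))
    (hD : D = (72225 : ℕ)) (h : A / (((13 : ℕ) : ℝ) * B) ≤ C / (((20 : ℕ) : ℝ) * D)) : False := by
  rw [hA, hB, hC, hD] at h
  norm_num at h

/-- the sextic -/
def sx (x : ℝ) : ℝ := 90*x^6 + 729*x^5 - 188*x^4 - 1632*x^3 - 1247*x^2 - 363*x - 38

theorem sx_pos (x : ℝ) (hx : 2 < x) : 0 < sx x := by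
  obtain ⟨y, hy, rfl⟩ : ∃ y : ℝ, 0 < y ∧ x = 2 + y := ⟨x - 2, by linarith, by ring⟩
  have : sx (2 + y) = 90 * y ^ 6 + 1809 * y ^ 5 + 12502 * y ^ 4 + 40424 * y ^ 3 + 64369 * y ^ 2
      + 44649 * y + 7272 := by
    unfold sx
    ring
  rw [this]
  positivity

theorem root_exists : ∃ L : ℝ, sx L = 0 ∧ (∀ x : ℝ, sx x = 0 → x ≤ L) ∧ L ≤ 2 := by
  have hc : Continuous sx := by
    unfold sx
    fun_prop
  have h1 : sx 1 ≤ 0 := by unfold sx; norm_num
  have h2 : 0 ≤ sx 2 := by unfold sx; norm_num
  obtain ⟨z, hz, hz0⟩ := intermediate_value_Icc (by norm_num : (1:ℝ) ≤ 2) hc.continuousOn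
    (show (0:ℝ) ∈ Set.Icc (sx 1) (sx 2) from ⟨h1, h2⟩)
  have hK : IsCompact (Set.Icc (1:ℝ) 2 ∩ {x | sx x = 0}) :=
    isCompact_Icc.inter_right (isClosed_eq hc continuous_const)
  obtain ⟨L, hL, hmax⟩ := hK.exists_isGreatest ⟨z, hz, hz0⟩
  refine ⟨L, hL.2, ?_, hL.1.2⟩
  intro x hx
  rcases lt_or_ge 2 x with h | h
  · exact absurd hx (sx_pos x h).ne'
  · rcases lt_or_ge x 1 with h' | h'
    · exact h'.le.trans hL.1.1
    · exact hmax ⟨⟨h', h⟩, hx⟩

/-- The negation of the preceding statement: Let L be the largest real root of the sextic. For every finite 4-regular triangle-free G and λ>0: if λ≤L, G's occupancy fraction is at least the Robertson graph's (4-regular, girth 5, 19 vertices); if λ≥L, at least that of the circulant on Z13 with jumps ±1,±5. -/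
theorem result :
    ¬ (∀ L : ℝ,
      90*L^6 + 729*L^5 - 188*L^4 - 1632*L^3 - 1247*L^2 - 363*L - 38 = 0 →
      (∀ x : ℝ, 90*x^6 + 729*x^5 - 188*x^4 - 1632*x^3 - 1247*x^2 - 363*x - 38 = 0 → x ≤ L) →
      ∀ (V : Type) [Fintype V] [Nonempty V] (G : SimpleGraph V),
        G.IsRegularOfDegree 4 → G.CliqueFree 3 →
        ∀ H : SimpleGraph (Fin 19), H.IsRegularOfDegree 4 → (5 : ℕ∞) ≤ H.egirth →
        ∀ l : ℝ, 0 < l →
          (l ≤ L →
            (∑ I : Finset (Fin 19), if H.IsIndepSet (I : Set (Fin 19)) then (I.card : ℝ) * l ^ I.card else 0) /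
              ((Fintype.card (Fin 19) : ℝ) *
                ∑ I : Finset (Fin 19), if H.IsIndepSet (I : Set (Fin 19)) then l ^ I.card else 0)
            ≤
            (∑ I : Finset V, if G.IsIndepSet (I : Set V) then (I.card : ℝ) * l ^ I.card else 0) /
              ((Fintype.card V : ℝ) *
                ∑ I : Finset V, if G.IsIndepSet (I : Set V) then l ^ I.card else 0)) ∧
          (L ≤ l →
            (∑ I : Finset (ZMod 13),
                if (SimpleGraph.fromRel (fun x y : ZMod 13 => x - y = 1 ∨ x - y = 5)).IsIndepSet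
                    (I : Set (ZMod 13))
                then (I.card : ℝ) * l ^ I.card else 0) /
              ((Fintype.card (ZMod 13) : ℝ) *
                ∑ I : Finset (ZMod 13),
                  if (SimpleGraph.fromRel (fun x y : ZMod 13 => x - y = 1 ∨ x - y = 5)).IsIndepSet
                      (I : Set (ZMod 13))
                  then l ^ I.card else 0)
            ≤
            (∑ I : Finset V, if G.IsIndepSet (I : Set V) then (I.card : ℝ) * l ^ I.card else 0) /
              ((Fintype.card V : ℝ) *
                ∑ I : Finset V, if G.IsIndepSet (I : Set V) then l ^ I.card else 0))) := by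
  intro hall
  obtain ⟨L, hL, hmax, hL2⟩ := root_exists
  have h := (hall L hL hmax (Fin 20) G20 g_reg g_free H19 h_reg h_girth 2 (by norm_num)).2 hL2
  rw [ZMod.card, Fintype.card_fin] at h
  refine final _ _ _ _ ?_ ?_ ?_ ?_ h
  · exact (c_sums _).2
  · exact (c_sums _).1
  · exact (g_sums _).2
  · exact (g_sums _).1

end Pool.Agent.S10336
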