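import Pool.Statements.S10359
import Pool.Agent.W244.RevPerm

set_option autoImplicit false
open Pool Pool.MP_9b11ca_co

namespace Pool.Agent.S10359

/-- There is a constant C>0 such that for every n, any family of permutations of an n-set in which every two distinct members have two positions holding the same two values in swapped order has at most C^n members. -/
theorem result :
    ∃ C : ℝ, 0 < C ∧ ∀ n : ℕ, ∀ S : Finset (Equiv.Perm (Fin n)),
      (∀ σ ∈ S, ∀ τ ∈ S, σ ≠ τ → ∃ i j : Fin n, i ≠ j ∧ σ i = τ j ∧ σ j = τ i) →
      (S.card : ℝ) ≤ C ^ n := by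
  refine ⟨2, by norm_num, fun n S hS => ?_⟩
  exact_mod_cast Pool.Agent.W244.RevPerm.card_le S hS

end Pool.Agent.S10359
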