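import Pool.Statements.S10416
import Pool.Agent.W606.SN.Asm
import Pool.Agent.W112.SN.Hex
import Pool.Agent.W427.SN.Pot
import Pool.Agent.W683.SN.Omc
import Pool.Agent.W683.SN.Crit
import Pool.Agent.W473.SN.Par3
import Pool.Agent.W645.SN.Int
import Pool.Agent.W361.SN.Stack
import Pool.Agent.W439.SN.Tree
import Pool.Agent.W696.SN.Grow
import Pool.Agent.W906.SN.Quad

set_option autoImplicit false
open Pool Pool.MP_9dd636_co

namespace Pool.Agent.S10416

/-- The negation of the preceding statement: For every c there is s such that every finite graph whose radius-r balls all have at most c·r² vertices (r ≥ 1) has a vertex order and an s-page edge assignment with no two crossing edges on the same page. -/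
theorem result :
    ¬ (∀ c : ℕ, ∃ s : ℕ, ∀ (V : Type) [Finite V] (G : SimpleGraph V),
      (∀ v : V, ∀ r : ℕ, 1 ≤ r →
        {w : V | G.edist v w ≤ (r : ℕ∞)}.ncard ≤ c * r ^ 2) →
      ∃ f : V → ℕ, Function.Injective f ∧
        ∃ col : V → V → Fin s,
          ∀ a b x y : V, G.Adj a b → G.Adj x y →
            f a < f x → f x < f b → f b < f y → col a b ≠ col x y) := by
  exact Pool.Agent.W606.SN.asm Pool.Agent.W112.SN.main Pool.Agent.W683.SN.par1
    (Pool.Agent.W473.SN.main Pool.Agent.W427.SN.main Pool.Agent.W683.SN.omc Pool.Agent.W683.SN.par2)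
    Pool.Agent.W683.SN.par0 Pool.Agent.W683.SN.parN
    (Pool.Agent.W645.SN.Int.main Pool.Agent.W427.SN.main Pool.Agent.W683.SN.omc
      Pool.Agent.W683.SN.par2)
    Pool.Agent.W361.SN.base Pool.Agent.W361.SN.stack Pool.Agent.W683.SN.main
    Pool.Agent.W439.SN.Tree.main
    (Pool.Agent.W906.SN.main (Pool.Agent.W696.SN.main Pool.Agent.W439.SN.Tree.dep_ok))

end Pool.Agent.S10416
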