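import Pool.Statements.S10449
-- import your own Pool.Agent.* helpers here
import Pool.Agent.W183.K44

set_option autoImplicit false
open Pool Pool.MP_9f8021_co

namespace Pool.Agent.S10449

open Helper183 Helper183.K44

/-- decoding of a class -/
def dec (k : ℕ) : Fin 4 ⊕ Fin 4 :=
  if k < 4 then Sum.inl ⟨k % 4, Nat.mod_lt _ (by norm_num)⟩ else Sum.inr ⟨k % 4, Nat.mod_lt _ (by norm_num)⟩

/-- coding of a class -/
def enc : Fin 4 ⊕ Fin 4 → ℕ
  | Sum.inl i => i.1
  | Sum.inr i => 4 + i.1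

theorem dec_enc : ∀ w : Fin 4 ⊕ Fin 4, dec (enc w) = w := by decide

theorem enc_lt : ∀ w : Fin 4 ⊕ Fin 4, enc w < 8 := by decide

theorem key1 (a w : Fin 4 ⊕ Fin 4) :
    ((completeBipartiteGraph (Fin 4) (Fin 4)).Adj a w ∧ s(a, w) ≠ s(Sum.inl 0, Sum.inr 0)) ↔
      (((a.isLeft = true ∧ w.isRight = true) ∨ (a.isRight = true ∧ w.isLeft = true)) ∧
        ¬ ((a = Sum.inl 0 ∧ w = Sum.inr 0) ∨ (a = Sum.inr 0 ∧ w = Sum.inl 0))) := by
  rw [Ne, Sym2.eq_iff]
  rfl

theorem ok_of : ∀ a < 8, ∀ w : Fin 4 ⊕ Fin 4,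
    ((completeBipartiteGraph (Fin 4) (Fin 4)).Adj (dec a) w ∧
      s(dec a, w) ≠ s(Sum.inl 0, Sum.inr 0)) → okC a (enc w) = true := by
  simp only [key1]
  decide

theorem of_ok' : ∀ a b : Fin 8, okC a.1 b.1 = true →
    ((completeBipartiteGraph (Fin 4) (Fin 4)).Adj (dec a.1) (dec b.1) ∧
      s(dec a.1, dec b.1) ≠ s(Sum.inl 0, Sum.inr 0)) := by
  simp only [key1]
  decide

theorem of_ok (a : ℕ) (ha : a < 8) (b : ℕ) (hb : b < 8) (h : okC a b = true) :
    ((completeBipartiteGraph (Fin 4) (Fin 4)).Adj (dec a) (dec b) ∧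
      s(dec a, dec b) ≠ s(Sum.inl 0, Sum.inr 0)) :=
  of_ok' ⟨a, ha⟩ ⟨b, hb⟩ h

theorem okC_symm (a b : ℕ) : okC a b = okC b a := by
  unfold okC
  rw [Bool.or_comm]

theorem cd_lt (v : ℕ) : cd v < 8 := by
  unfold cd
  by_cases h : v < cl.length
  · rw [List.getD_eq_getElem _ _ h]
    have := List.all_eq_true.1 cl_lt _ (List.getElem_mem h)
    rwa [Nat.blt_eq] at this
  · rw [List.getD_eq_default _ _ (by omega)]; norm_num

/-- There is a finite graph drawable in the plane without edge crossings with a surjective map onto K_{4,4} minus one edge. The map preserves adjacency and sends each vertex's neighbours onto all neighbours of its image. -/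
theorem result :
    ∃ n : ℕ, ∃ H : SimpleGraph (Fin n),
      (∃ p : Fin n → ℝ × ℝ, Function.Injective p ∧
        ∃ γ : Fin n → Fin n → unitInterval → ℝ × ℝ,
          (∀ u v, H.Adj u v →
            Continuous (γ u v) ∧ γ u v 0 = p u ∧ γ u v 1 = p v ∧
            ∀ t : unitInterval, t ≠ 0 → t ≠ 1 → ∀ w, γ u v t ≠ p w) ∧
          (∀ u v u' v', H.Adj u v → H.Adj u' v' → s(u, v) ≠ s(u', v') →
            ∀ t t' : unitInterval, t ≠ 0 → t ≠ 1 → t' ≠ 0 → t' ≠ 1 →
              γ u v t ≠ γ u' v' t')) ∧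
      ∃ φ : Fin n → Fin 4 ⊕ Fin 4,
        Function.Surjective φ ∧
        (∀ u v, H.Adj u v →
          ((completeBipartiteGraph (Fin 4) (Fin 4)).Adj (φ u) (φ v) ∧
            s(φ u, φ v) ≠ s(Sum.inl 0, Sum.inr 0))) ∧
        (∀ v, ∀ w : Fin 4 ⊕ Fin 4,
          ((completeBipartiteGraph (Fin 4) (Fin 4)).Adj (φ v) w ∧
            s(φ v, w) ≠ s(Sum.inl 0, Sum.inr 0)) →
          ∃ u, H.Adj v u ∧ φ u = w) := by
  obtain ⟨f, γ, hf, hγ, hX⟩ := plane
  refine ⟨188, gr 188 es, ⟨f, hf, fun u v t => γ u v t.1, ?_, ?_⟩, fun v => dec (cd v.1), ?_, ?_, ?_⟩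
  · intro u v huv
    obtain ⟨h1, _, h3, h4, h5⟩ := hγ u v huv
    refine ⟨?_, h3, h4, ?_⟩
    · exact continuousOn_iff_continuous_domRestrict.1 h1
    · intro t ht0 ht1 w
      apply h5 w t.1
      constructor
      · exact lt_of_le_of_ne t.2.1 (fun h => ht0 (Subtype.ext h.symm))
      · exact lt_of_le_of_ne t.2.2 (fun h => ht1 (Subtype.ext h))
  · intro u v u' v' h h' hne t t' ht0 ht1 _ _
    apply hX u v u' v' h h' hne t.1 _ t'.1 t'.2
    constructor
    · exact lt_of_le_of_ne t.2.1 (fun h => ht0 (Subtype.ext h.symm))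
    · exact lt_of_le_of_ne t.2.2 (fun h => ht1 (Subtype.ext h))
  · intro w
    have h := List.all_eq_true.1 cl_all (enc w) (List.mem_range.2 (enc_lt w))
    rw [List.any_eq_true] at h
    obtain ⟨v, hv, h2⟩ := h
    rw [List.mem_range] at hv
    have h3 := Nat.eq_of_beq_eq_true h2
    refine ⟨⟨v, hv⟩, ?_⟩
    simp only
    rw [h3, dec_enc]
  · intro u v huv
    obtain ⟨e, he, h1⟩ := gr_adj huv
    have h2 := List.all_eq_true.1 es_hom e he
    unfold homB at h2
    rcases h1 with h1 | h1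
    · rw [h1.1, h1.2] at h2
      exact of_ok _ (cd_lt _) _ (cd_lt _) h2
    · rw [h1.1, h1.2, okC_symm] at h2
      exact of_ok _ (cd_lt _) _ (cd_lt _) h2
  · intro v w hw
    have h1 := ok_of _ (cd_lt v.1) w hw
    have h2 := List.all_eq_true.1 es_sur v.1 (List.mem_range.2 v.2)
    unfold surB at h2
    have h3 := List.all_eq_true.1 h2 (enc w) (List.mem_range.2 (enc_lt w))
    rw [h1] at h3
    simp only [Bool.not_true, Bool.false_or] at h3
    rw [List.any_eq_true] at h3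
    obtain ⟨u, _, h4⟩ := h3
    rw [Bool.and_eq_true, Bool.and_eq_true, Nat.blt_eq] at h4
    obtain ⟨⟨h5, h6⟩, h7⟩ := h4
    refine ⟨⟨u, h5⟩, ?_, ?_⟩
    · exact adjB_adj (x := v) (y := ⟨u, h5⟩) es_up es_nondeg h6
    · simp only
      rw [Nat.eq_of_beq_eq_true h7, dec_enc]

end Pool.Agent.S10449
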