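import Pool.Statements.S10468

set_option autoImplicit false
open Pool Pool.MP_a08742_co

namespace Pool.Agent.S10468

/-- codes of the 51 words (base 5 digits are the letters) -/
def codes : List ℕ := [18, 25, 58, 109, 192, 295, 360, 382, 409, 431, 475, 540, 594, 627, 736, 810, 826, 849, 958, 992, 1043, 1222, 1264, 1395, 1412, 1503, 1505, 1671, 1740, 1779, 1811, 1825, 1833, 1922, 2070, 2078, 2089, 2092, 2206, 2263, 2381, 2444, 2498, 2581, 2632, 2660, 2745, 2772, 2942, 2958, 3116]

/-- the word with code `c` -/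
def word (c : ℕ) : Fin 5 → Fin 5 := fun i => ⟨c / 5 ^ (i : ℕ) % 5, Nat.mod_lt _ (by norm_num)⟩

/-- letters at distance two -/
def farN (a b : ℕ) : Bool := (a + 5 - b) % 5 == 2 || (a + 5 - b) % 5 == 3

/-- words with a coordinate at distance two -/
def farW (a b : ℕ) : Bool :=
  farN (a % 5) (b % 5) || farN (a / 5 % 5) (b / 5 % 5) || farN (a / 25 % 5) (b / 25 % 5) ||
    farN (a / 125 % 5) (b / 125 % 5) || farN (a / 625 % 5) (b / 625 % 5)

theorem chk : codes.Pairwise (fun a b => farW a b = true) := by decide +kernel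

theorem far_fin : ∀ u v : Fin 5, farN (u : ℕ) (v : ℕ) = true →
    ¬ (u = v ∨ (SimpleGraph.cycleGraph 5).Adj u v) := by
  intro u v h
  rw [SimpleGraph.cycleGraph_adj]
  revert u v
  decide

theorem farW_word (a b : ℕ) (h : farW a b = true) :
    ∃ i : Fin 5, ¬ (word a i = word b i ∨ (SimpleGraph.cycleGraph 5).Adj (word a i) (word b i)) := by
  unfold farW at h
  simp only [Bool.or_eq_true] at h
  rcases h with (((h | h) | h) | h) | h
  · exact ⟨0, far_fin _ _ (by simpa [word] using h)⟩
  · exact ⟨1, far_fin _ _ (by simpa [word] using h)⟩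
  · exact ⟨2, far_fin _ _ (by simpa [word] using h)⟩
  · exact ⟨3, far_fin _ _ (by simpa [word] using h)⟩
  · exact ⟨4, far_fin _ _ (by simpa [word] using h)⟩

/-- The negation of the preceding statement: For every n ≥ 1, the independence number of the n-fold strong power of the 5-cycle equals 5^(n/2) when n is even and 2·5^((n−1)/2) when n is odd. -/
theorem result :
    ¬ (∀ n : ℕ, 1 ≤ n →
      (SimpleGraph.fromRel (fun x y : Fin n → Fin 5 =>
          ∀ i, x i = y i ∨ (SimpleGraph.cycleGraph 5).Adj (x i) (y i))).indepNum =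
        if Even n then 5 ^ (n / 2) else 2 * 5 ^ ((n - 1) / 2)) := by
  intro H
  have h5 := H 5 (by norm_num)
  have hval : (if Even 5 then 5 ^ (5 / 2) else 2 * 5 ^ ((5 - 1) / 2)) = 50 := by decide
  rw [hval] at h5
  set G := SimpleGraph.fromRel (fun x y : Fin 5 → Fin 5 =>
          ∀ i, x i = y i ∨ (SimpleGraph.cycleGraph 5).Adj (x i) (y i)) with hG
  -- pairwise statement on words
  have hpw : (codes.map word).Pairwise (fun x y =>
      ∃ i : Fin 5, ¬ (x i = y i ∨ (SimpleGraph.cycleGraph 5).Adj (x i) (y i))) := by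
    rw [List.pairwise_map]
    exact chk.imp (fun {a b} h => farW_word a b h)
  have hnd : (codes.map word).Nodup := by
    refine hpw.imp (fun {x y} h hxy => ?_)
    obtain ⟨i, hi⟩ := h
    exact hi (Or.inl (by rw [hxy]))
  have hall : ∀ x ∈ codes.map word, ∀ y ∈ codes.map word, x ≠ y →
      ∃ i : Fin 5, ¬ (x i = y i ∨ (SimpleGraph.cycleGraph 5).Adj (x i) (y i)) := by
    have : Std.Symm (fun x y : Fin 5 → Fin 5 => x ≠ y →
        ∃ i : Fin 5, ¬ (x i = y i ∨ (SimpleGraph.cycleGraph 5).Adj (x i) (y i))) := by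
      refine ⟨fun x y h hyx => ?_⟩
      obtain ⟨i, hi⟩ := h hyx.symm
      exact ⟨i, fun h' => hi (h'.elim (fun e => Or.inl e.symm) (fun e => Or.inr e.symm))⟩
    have hpw' : (codes.map word).Pairwise (fun x y => x ≠ y →
        ∃ i : Fin 5, ¬ (x i = y i ∨ (SimpleGraph.cycleGraph 5).Adj (x i) (y i))) :=
      List.Pairwise.imp (fun {x y} h => fun (_ : x ≠ y) => h) hpw
    exact List.Pairwise.forall_of_forall (fun x _ h => absurd rfl h) hpw'
  have hind : G.IsIndepSet ((codes.map word).toFinset : Set (Fin 5 → Fin 5)) := by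
    intro x hx y hy hxy hadj
    have hx' : x ∈ codes.map word := by simpa using hx
    have hy' : y ∈ codes.map word := by simpa using hy
    rw [hG, SimpleGraph.fromRel_adj] at hadj
    obtain ⟨_, h | h⟩ := hadj
    · obtain ⟨i, hi⟩ := hall x hx' y hy' hxy
      exact hi (h i)
    · obtain ⟨i, hi⟩ := hall y hy' x hx' hxy.symm
      exact hi (h i)
  have hcard : ((codes.map word).toFinset).card = 51 := by
    rw [List.toFinset_card_of_nodup hnd, List.length_map]
    decide
  have hle := SimpleGraph.IsIndepSet.card_le_indepNum hind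
  rw [hcard, h5] at hle
  omega

end Pool.Agent.S10468
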