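import Pool.Statements.S10486
import Pool.Agent.Results.MP_a14c6f_co.FractalTile

set_option autoImplicit false
open Pool Pool.MP_a14c6f_co

namespace Pool.Agent.S10486

/-- The negation of the preceding statement: Every closed-disk-like planar set that is invariant under some 60-degree rotation and some line reflection, and whose isometric copies tile the plane, is a union of finitely many (at least one) congruent closed regular hexagons with disjoint interiors. -/
theorem result :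
    ¬ (∀ T : Set ℂ,
    Nonempty (T ≃ₜ Metric.closedBall (0 : ℂ) 1) →
    (∃ c : ℂ, (fun z : ℂ => c + Complex.exp (((Real.pi / 3 : ℝ) : ℂ) * Complex.I) * (z - c)) '' T = T) →
    (∃ a w : ℂ, ‖w‖ = 1 ∧ (fun z : ℂ => a + w * (starRingEnd ℂ) (z - a)) '' T = T) →
    (∃ g : ℕ → (ℂ ≃ᵢ ℂ), (⋃ i, (g i) '' T) = Set.univ ∧
        Pairwise (fun i j => Disjoint (interior ((g i) '' T)) (interior ((g j) '' T)))) →
    ∃ m : ℕ, 1 ≤ m ∧ ∃ (ρ : ℝ) (c w : Fin m → ℂ), 0 < ρ ∧ (∀ i, ‖w i‖ = ρ) ∧
      Pairwise (fun i j =>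
        Disjoint
          (interior (convexHull ℝ (Set.range (fun k : Fin 6 =>
            c i + w i * Complex.exp (((k : ℕ) : ℂ) * ((Real.pi / 3 : ℝ) : ℂ) * Complex.I)))))
          (interior (convexHull ℝ (Set.range (fun k : Fin 6 =>
            c j + w j * Complex.exp (((k : ℕ) : ℂ) * ((Real.pi / 3 : ℝ) : ℂ) * Complex.I)))))) ∧
      T = ⋃ i, convexHull ℝ (Set.range (fun k : Fin 6 =>
            c i + w i * Complex.exp (((k : ℕ) : ℂ) * ((Real.pi / 3 : ℝ) : ℂ) * Complex.I)))) := by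
  intro h
  obtain ⟨T, h1, ⟨c, hc⟩, ⟨c', θ, hθ⟩, ⟨φ, hφ, hφd⟩, _, hno⟩ :=
    Pool.Agent.Results.MP_a14c6f_co.FractalTile.result
  obtain ⟨m, _, ρ, c₂, w₂, _, _, _, hT⟩ := h T h1 ⟨c, by
      have h2 : (fun z : ℂ => c + Complex.exp (((Real.pi / 3 : ℝ) : ℂ) * Complex.I) * (z - c)) =
          Pool.Agent.Results.MP_a14c6f_co.FractalTile.rot c := by
        funext z
        unfold Pool.Agent.Results.MP_a14c6f_co.FractalTile.rot
        push_cast
        rfl
      rw [h2]
      exact hc⟩ ⟨c', Complex.exp (2 * θ * Complex.I), by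
        have h2 : (2 * (θ : ℂ) * Complex.I) = ((2 * θ : ℝ) : ℂ) * Complex.I := by push_cast; ring
        rw [h2, Complex.norm_exp_ofReal_mul_I], hθ⟩
    ⟨φ, hφ, fun i j hij => hφd i j hij⟩
  exact hno m _ (fun i => convex_convexHull ℝ _) hT

end Pool.Agent.S10486
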