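import Pool.Statements.S10497
import Pool.Agent.W738.GI.LAM
import Pool.Agent.W924.GI.CNT
import Pool.Agent.W880.GI.ZY
import Pool.Agent.W160.GI.YMAP
import Pool.Agent.W565.GI.YINJ
import Pool.Agent.W280.GI.Ysurj
import Pool.Agent.W318.GI2.MC
import Pool.Agent.W701.GI.ZF
import Pool.Agent.W253.GI.H1
import Pool.Agent.W991.GI.H2
import Pool.Agent.W576.GI.GZ
import Pool.Agent.W563.GI.GPOS
import Pool.Agent.W696.GI.GSUM
import Pool.Agent.W765.GI.POL
import Pool.Agent.W670.GI.INT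
import Pool.Agent.W283.GI.WC
import Pool.Agent.W264.GI.FREC

set_option autoImplicit false
open Pool Pool.MP_a1a173_co

namespace Pool.Agent.S10497

/-- For every n, the type-B descent polynomial summed over involutions of the hyperoctahedral group B_n (with w(0)=0) equals the sum over i from 0 to n/2 of g_i x^i (1+x)^(n-2i), with every g_i a nonnegative integer. -/
theorem result : ∀ n : ℕ, ∃ γ : ℕ → ℕ,
    (∑ w ∈ (Finset.univ : Finset (Equiv.Perm (Fin n) × (Fin n → Bool))).filter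
        (fun w => ∀ i : Fin n, w.1 (w.1 i) = i ∧ w.2 (w.1 i) = w.2 i),
      (Polynomial.X : Polynomial ℤ) ^
        ((Finset.univ.filter (fun j : Fin n => j.val = 0 ∧ w.2 j = true)).card +
          (Finset.univ.filter (fun p : Fin n × Fin n => p.2.val = p.1.val + 1 ∧
            (if w.2 p.2 then (-1 : ℤ) else 1) * (((w.1 p.2 : ℕ) : ℤ) + 1) <
            (if w.2 p.1 then (-1 : ℤ) else 1) * (((w.1 p.1 : ℕ) : ℤ) + 1))).card))
    = ∑ i ∈ Finset.range (n / 2 + 1),
        Polynomial.C (γ i : ℤ) * Polynomial.X ^ i * (1 + Polynomial.X) ^ (n - 2 * i) := by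
  have hZF : Pool.Agent.W102.GI.ZF :=
    Pool.Agent.W701.GI.ZF Pool.Agent.W880.GI.ZY Pool.Agent.W160.GI.ymap Pool.Agent.W565.GI.YINJ
      Pool.Agent.W280.GI.ysurj (Pool.Agent.W283.GI.WC Pool.Agent.W318.GI2.MC)
      (Pool.Agent.W924.GI.CNT Pool.Agent.W738.GIB.LAM)
  have hGS : Pool.Agent.W102.GI.GSUM :=
    Pool.Agent.W696.GI.GSUM Pool.Agent.W253.GI.thm_H1 Pool.Agent.W991.GI.H2
      Pool.Agent.W576.GI.GZ Pool.Agent.W264.GI.FREC
  exact Pool.Agent.W670.GI.INT_of (Pool.Agent.W765.GI.POL hZF hGS)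
    (Pool.Agent.W563.GI.GPOS Pool.Agent.W576.GI.GZ)

end Pool.Agent.S10497
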