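import Pool.Statements.S10606
import Pool.Agent.Results.MP_a60f11_co.FThreeBound

set_option autoImplicit false
open Finset
open Pool Pool.MP_a60f11_co

namespace Pool.Agent.S10606

/-- The negation of the preceding statement: f(3)=3/8: for every n≥4 some law of events on 3-subsets of [n] gives each shift pair (A,B) Pr(E_A and not E_B) at least 3/8, and for every ε>0 some n forces a shift pair below 3/8+ε. -/
theorem result :
    ¬ ((∀ n : ℕ, 4 ≤ n →
      ∃ p : Finset (Finset (Fin n)) → ℝ,
        (∀ ω, 0 ≤ p ω) ∧ (∑ ω, p ω) = 1 ∧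
        ∀ g : Fin 4 → Fin n, StrictMono g →
          (3 / 8 : ℝ) ≤ ∑ ω ∈ Finset.univ.filter
            (fun ω : Finset (Finset (Fin n)) =>
              (Finset.univ.image (fun i : Fin 3 => g (Fin.castSucc i))) ∈ ω ∧
              (Finset.univ.image (fun i : Fin 3 => g (Fin.succ i))) ∉ ω), p ω) ∧
    (∀ ε : ℝ, 0 < ε →
      ∃ n : ℕ, 4 ≤ n ∧
        ∀ p : Finset (Finset (Fin n)) → ℝ,
          (∀ ω, 0 ≤ p ω) → (∑ ω, p ω) = 1 →
          ∃ g : Fin 4 → Fin n, StrictMono g ∧
            (∑ ω ∈ Finset.univ.filter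
              (fun ω : Finset (Finset (Fin n)) =>
                (Finset.univ.image (fun i : Fin 3 => g (Fin.castSucc i))) ∈ ω ∧
                (Finset.univ.image (fun i : Fin 3 => g (Fin.succ i))) ∉ ω), p ω)
              < 3 / 8 + ε)) := by
  classical
  rintro ⟨_, h⟩
  obtain ⟨n, hn, h⟩ := h (1 / 1000) (by norm_num)
  set Φ : (Fin n → Fin 8) → Finset (Finset (Fin n)) := fun x =>
    Finset.univ.filter (fun S => x ∈ Pool.Agent.Results.MP_a60f11_co.FThreeBound.Ev n S) with hΦ
  set ν := Pool.Agent.Results.MP_a60f11_co.FThreeBound.μ n with hν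
  have hsum : ∀ s : Finset (Finset (Finset (Fin n))),
      ∑ ω ∈ s, ν.real (Φ ⁻¹' {ω}) = ν.real (Φ ⁻¹' (s : Set (Finset (Finset (Fin n))))) := by
    intro s
    have h1 : Φ ⁻¹' (s : Set (Finset (Finset (Fin n)))) = ⋃ ω ∈ s, Φ ⁻¹' {ω} := by
      ext x
      simp
    rw [h1, MeasureTheory.measureReal_biUnion_finset]
    · intro a _ b _ hab
      refine Set.disjoint_left.2 fun x hx hx' => hab ?_
      rw [Set.mem_preimage, Set.mem_singleton_iff] at hx hx'
      rw [← hx, hx']
    · intro b _
      exact (Set.toFinite _).measurableSet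
  obtain ⟨g, hg, hlt⟩ := h (fun ω => ν.real (Φ ⁻¹' {ω})) (fun ω => MeasureTheory.measureReal_nonneg) (by
    rw [hsum]
    simp)
  rw [hsum] at hlt
  have h2 : Φ ⁻¹' ((Finset.univ.filter
              (fun ω : Finset (Finset (Fin n)) =>
                (Finset.univ.image (fun i : Fin 3 => g (Fin.castSucc i))) ∈ ω ∧
                (Finset.univ.image (fun i : Fin 3 => g (Fin.succ i))) ∉ ω) :
              Finset (Finset (Finset (Fin n)))) : Set (Finset (Finset (Fin n)))) =
      Pool.Agent.Results.MP_a60f11_co.FThreeBound.Ev n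
        (Finset.univ.image (fun i : Fin 3 => g (Fin.castSucc i))) ∩
      (Pool.Agent.Results.MP_a60f11_co.FThreeBound.Ev n
        (Finset.univ.image (fun i : Fin 3 => g (Fin.succ i))))ᶜ := by
    ext x
    simp [hΦ]
  rw [h2, Pool.Agent.Results.MP_a60f11_co.FThreeBound.pair_value
    (Finset.univ.image (fun i : Fin 3 => g (Fin.castSucc i)),
      Finset.univ.image (fun i : Fin 3 => g (Fin.succ i))) ⟨g, hg, rfl, rfl⟩] at hlt
  norm_num at hlt

end Pool.Agent.S10606
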