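import Pool.Statements.S10665
import Pool.Agent.Helper1.CycleMagic4

set_option autoImplicit false
open Pool Pool.MP_a90607_co

namespace Pool.Agent.S10665

private theorem toFin {n j : ℕ} (h0 : Helper1.CycleMagic.Has (n + 1) j) :
    ∃ f g : Fin (n + 1) → ℕ,
        Function.Injective (Sum.elim f g) ∧
        (∀ x : Fin (n + 1) ⊕ Fin (n + 1), Sum.elim f g x ∈ Finset.Icc 1 (2 * (n + 1))) ∧
        ∀ i : Fin (n + 1), g i + f i + f (finRotate (n + 1) i) = j := by
  have h : ∃ F : Fin (n + 1) ⊕ Fin (n + 1) → ℕ, Function.Injective F ∧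
      (∀ x, 1 ≤ F x ∧ F x ≤ 2 * (n + 1)) ∧
      ∀ i : Fin (n + 1), F (Sum.inl i) + F (Sum.inr i) + F (Sum.inl (i + 1)) = j := h0
  obtain ⟨F, hinj, hr, hs⟩ := h
  have e : (Sum.elim (fun i : Fin (n + 1) => F (Sum.inl i)) (fun i => F (Sum.inr i))) = F := by
    funext x
    rcases x with x | x <;> rfl
  refine ⟨fun i => F (Sum.inl i), fun i => F (Sum.inr i), ?_, ?_, ?_⟩
  · rw [e]
    exact hinj
  · intro x
    rw [Finset.mem_Icc]
    rcases x with x | x
    · exact hr (Sum.inl x)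
    · exact hr (Sum.inr x)
  · intro i
    have h1 := hs i
    have h2 : finRotate (n + 1) i = i + 1 := finRotate_apply i
    rw [h2]
    show F (Sum.inr i) + F (Sum.inl i) + F (Sum.inl (i + 1)) = j
    omega

/-- For n=2k+1≥7 and each j in [5k+4,7k+5], and for n=2k≥4 and each j in [5k+2,7k+1], the n-cycle has a bijective labeling of its vertices and edges by 1..2n with every edge label plus its two end labels equal to j. -/
theorem result :
    (∀ k : ℕ, 3 ≤ k → ∀ j : ℕ, 5 * k + 4 ≤ j → j ≤ 7 * k + 5 →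
      ∃ f g : Fin (2 * k + 1) → ℕ,
        Function.Injective (Sum.elim f g) ∧
        (∀ x : Fin (2 * k + 1) ⊕ Fin (2 * k + 1),
            Sum.elim f g x ∈ Finset.Icc 1 (2 * (2 * k + 1))) ∧
        ∀ i : Fin (2 * k + 1), g i + f i + f (finRotate (2 * k + 1) i) = j) ∧
    (∀ k : ℕ, 2 ≤ k → ∀ j : ℕ, 5 * k + 2 ≤ j → j ≤ 7 * k + 1 →
      ∃ f g : Fin (2 * k) → ℕ,
        Function.Injective (Sum.elim f g) ∧
        (∀ x : Fin (2 * k) ⊕ Fin (2 * k),
            Sum.elim f g x ∈ Finset.Icc 1 (2 * (2 * k))) ∧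
        ∀ i : Fin (2 * k), g i + f i + f (finRotate (2 * k) i) = j) := by
  refine ⟨?_, ?_⟩
  · intro k hk j h1 h2
    exact toFin (Helper1.CycleMagic.has_odd k j (by omega) h1 h2)
  · intro k hk j h1 h2
    obtain ⟨m, rfl⟩ : ∃ m, k = m + 1 := ⟨k - 1, by omega⟩
    exact toFin (n := 2 * m + 1) (Helper1.CycleMagic.has_even (m + 1) j (by omega) h1 h2)

end Pool.Agent.S10665
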