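import Pool.Statements.S10681
import Pool.Agent.H365PP.Final

set_option autoImplicit false
open Pool Pool.MP_aa2cc0_co

namespace Pool.Agent.S10681

/-- There is κ>0 such that every planar set of n≥3 points with no three collinear has at least κn pairwise vertex-disjoint 2-paths on its points, each two of which have intersecting edges. -/
theorem result :
    ∃ κ : ℝ, 0 < κ ∧ ∀ P : Finset (ℝ × ℝ), 3 ≤ P.card →
      (∀ x ∈ P, ∀ y ∈ P, ∀ z ∈ P, x ≠ y → x ≠ z → y ≠ z →
        ¬ Collinear ℝ ({x, y, z} : Set (ℝ × ℝ))) →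
      ∃ m : ℕ, κ * (P.card : ℝ) ≤ (m : ℝ) ∧
        ∃ a b c : Fin m → ℝ × ℝ,
          (∀ i, a i ∈ P ∧ b i ∈ P ∧ c i ∈ P ∧ a i ≠ b i ∧ a i ≠ c i ∧ b i ≠ c i) ∧
          (∀ i j, i ≠ j →
            Disjoint ({a i, b i, c i} : Set (ℝ × ℝ)) ({a j, b j, c j} : Set (ℝ × ℝ))) ∧
          (∀ i j, i ≠ j →
            ((segment ℝ (a i) (b i) ∪ segment ℝ (b i) (c i)) ∩
              (segment ℝ (a j) (b j) ∪ segment ℝ (b j) (c j))).Nonempty) := by
  classical
  obtain ⟨c, hc, h⟩ := Pool.Agent.H365PP.q1
  refine ⟨min c (1 / 5), by positivity, ?_⟩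
  intro P hn hG
  obtain ⟨k, a, b, hk, ha, hb, hne, hab⟩ := h P.card (by omega) P rfl
    (fun x hx y hy z hz hxy hyz hxz => hG x hx y hy z hz hxy hxz hyz)
  obtain ⟨m, hm⟩ : ∃ m, m = min k (P.card / 3) := ⟨_, rfl⟩
  have hmk : m ≤ k := by omega
  have hm3 : 3 * m ≤ P.card := by omega
  set a' : Fin m → ℝ × ℝ := fun i => a (Fin.castLE hmk i) with ha'
  set b' : Fin m → ℝ × ℝ := fun i => b (Fin.castLE hmk i) with hb'
  set U : Finset (ℝ × ℝ) := Finset.univ.image a' ∪ Finset.univ.image b' with hU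
  have hUc : U.card ≤ 2 * m := by
    refine le_trans (Finset.card_union_le _ _) ?_
    have h1 : (Finset.univ.image a').card ≤ m := by
      simpa using (Finset.card_image_le (s := (Finset.univ : Finset (Fin m))) (f := a'))
    have h2 : (Finset.univ.image b').card ≤ m := by
      simpa using (Finset.card_image_le (s := (Finset.univ : Finset (Fin m))) (f := b'))
    omega
  have hrest : m ≤ (P \ U).card := by
    have := Finset.le_card_sdiff U P
    omega
  obtain ⟨W, hW, hWc⟩ := Finset.exists_subset_card_eq hrest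
  obtain ⟨w, hw, hwi⟩ : ∃ w : Fin m → ℝ × ℝ, (∀ i, w i ∈ W) ∧ Function.Injective w := by
    refine ⟨fun i => (W.equivFin.symm (Fin.cast hWc.symm i)).1, fun i => (W.equivFin.symm _).2, ?_⟩
    intro i j hij
    have := W.equivFin.symm.injective (Subtype.ext hij)
    simpa using this
  have hwP : ∀ i, w i ∈ P := fun i => (Finset.mem_sdiff.1 (hW (hw i))).1
  have hwa : ∀ i j, w i ≠ a' j := by
    intro i j h
    apply (Finset.mem_sdiff.1 (hW (hw i))).2
    rw [h, hU]
    exact Finset.mem_union_left _ (Finset.mem_image_of_mem _ (Finset.mem_univ j))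
  have hwb : ∀ i j, w i ≠ b' j := by
    intro i j h
    apply (Finset.mem_sdiff.1 (hW (hw i))).2
    rw [h, hU]
    exact Finset.mem_union_right _ (Finset.mem_image_of_mem _ (Finset.mem_univ j))
  have hne' : ∀ i j, a' i ≠ b' j := fun i j => hne _ _
  have hab' : ∀ i j, i ≠ j → a' i ≠ a' j ∧ b' i ≠ b' j ∧
      (openSegment ℝ (a' i) (b' i) ∩ openSegment ℝ (a' j) (b' j)).Nonempty := by
    intro i j hij
    exact hab _ _ (fun h => hij (by simpa [Fin.ext_iff] using h))
  refine ⟨m, ?_, a', b', w, ?_, ?_, ?_⟩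
  · rw [hm]
    have h3 : (P.card : ℝ) ≤ 5 * ((P.card / 3 : ℕ) : ℝ) := by
      have : P.card ≤ 5 * (P.card / 3) := by omega
      exact_mod_cast this
    have h0 : (0 : ℝ) ≤ P.card := by positivity
    push_cast
    refine le_min ?_ ?_
    · refine le_trans ?_ hk
      exact mul_le_mul_of_nonneg_right (min_le_left _ _) h0
    · have := mul_le_mul_of_nonneg_right (min_le_right c (1 / 5)) h0
      linarith
  · intro i
    exact ⟨ha _, hb _, hwP i, hne' i i, (hwa i i).symm, (hwb i i).symm⟩
  · intro i j hij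
    obtain ⟨g1, g2, _⟩ := hab' i j hij
    have g3 : w i ≠ w j := fun h => hij (hwi h)
    rw [Set.disjoint_left]
    intro x hx hx'
    simp only [Set.mem_insert_iff, Set.mem_singleton_iff] at hx hx'
    rcases hx with rfl | rfl | rfl
    · rcases hx' with h | h | h
      · exact g1 h
      · exact hne' i j h
      · exact hwa j i h.symm
    · rcases hx' with h | h | h
      · exact hne' j i h.symm
      · exact g2 h
      · exact hwb j i h.symm
    · rcases hx' with h | h | h
      · exact hwa i j h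
      · exact hwb i j h
      · exact g3 h
  · intro i j hij
    obtain ⟨_, _, z, hz1, hz2⟩ := hab' i j hij
    exact ⟨z, Or.inl (openSegment_subset_segment _ _ _ hz1),
      Or.inl (openSegment_subset_segment _ _ _ hz2)⟩


end Pool.Agent.S10681
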