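import Pool.Statements.S10688
import Pool.Agent.W182.WheelGadget

set_option autoImplicit false
open Pool Pool.MP_aa5d6e_co

namespace Pool.Agent.S10688

/-!
# A 4-choosable graph that is not `(25, 6)`-choosable

Gadget: the wheel `W₅` (hub `0`, rim `1 2 3 4 5`) with list sizes `4; 2, 3, 3, 2, 2` is
colourable from all such lists (`Pool.Agent.W182.Frac.wheel`).  On the other hand, there are lists
of sizes `6 f(v) + 1` inside a palette of 25 colours, 9 of which can be used at most twice and 16
at most once, so that no 6-fold colouring exists (36 > 9 * 2 + 16).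
Two root vertices, with disjoint lists, are joined to the vertices with `f(v) ≤ 3` and
`f(v) ≤ 2` respectively; for every possible pair of sets of colours on the two roots there is one
copy of the wheel.
-/

/-- adjacency of the wheel -/
def adjW : Fin 6 → Fin 6 → Bool
  | 0, 0 => false
  | 0, _ => true
  | _, 0 => true
  | 1, 2 => true | 2, 1 => true
  | 2, 3 => true | 3, 2 => true
  | 3, 4 => true | 4, 3 => true
  | 4, 5 => true | 5, 4 => true
  | 5, 1 => true | 1, 5 => true
  | _, _ => false

/-- adjacency to the two roots -/
def adjR : Bool → Fin 6 → Bool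
  | _, 0 => false
  | false, _ => true
  | true, 1 => true
  | true, 4 => true
  | true, 5 => true
  | true, _ => false

/-- base lists -/
def base : Fin 6 → Finset ℕ
  | 0 => Finset.range 25
  | 1 => Finset.range 9 ∪ {17, 18, 23, 24}
  | 2 => Finset.range 19
  | 3 => Finset.range 17 ∪ {19, 20}
  | 4 => Finset.range 9 ∪ {19, 20, 21, 22}
  | 5 => Finset.range 9 ∪ {21, 22, 23, 24}

theorem base_sub (v : Fin 6) : base v ⊆ Finset.range 25 := by
  revert v; decide

theorem base_card (v : Fin 6) : (base v).card + (if adjR false v then 6 else 0) +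
    (if adjR true v then 6 else 0) = 25 := by
  revert v; decide

/-- how many vertices may use the colour `c` -/
def wt (c : ℕ) : ℕ := if c < 9 then 2 else 1

set_option maxRecDepth 100000 in
theorem indep_le : ∀ c ∈ Finset.range 25, ∀ I : Finset (Fin 6),
    (∀ v ∈ I, c ∈ base v) → (∀ u ∈ I, ∀ v ∈ I, adjW u v = false) → I.card ≤ wt c := by
  decide +kernel

theorem wheel_no (g : Fin 6 → Finset ℕ) (hsub : ∀ v, g v ⊆ base v) (hcard : ∀ v, (g v).card = 6)
    (hdis : ∀ u v, adjW u v = true → Disjoint (g u) (g v)) : False := by
  have h1 : ∀ v : Fin 6, (g v).card = ∑ c ∈ Finset.range 25, (if c ∈ g v then 1 else 0) := by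
    intro v
    rw [Finset.sum_boole]
    simp only [Nat.cast_id]
    congr 1
    ext c
    simp only [Finset.mem_filter]
    exact ⟨fun h => ⟨base_sub v (hsub v h), h⟩, fun h => h.2⟩
  have h2 : ∑ v : Fin 6, (g v).card = 36 := by simp [hcard]
  have h3 : ∑ v : Fin 6, (g v).card =
      ∑ c ∈ Finset.range 25, (Finset.univ.filter (fun v : Fin 6 => c ∈ g v)).card := by
    simp_rw [h1]
    rw [Finset.sum_comm]
    refine Finset.sum_congr rfl fun c _ => ?_
    rw [Finset.sum_boole]
    simp
  have h4 : ∑ c ∈ Finset.range 25, (Finset.univ.filter (fun v : Fin 6 => c ∈ g v)).card ≤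
      ∑ c ∈ Finset.range 25, wt c := by
    refine Finset.sum_le_sum fun c hc => indep_le c hc _ ?_ ?_
    · intro v hv
      exact hsub v (Finset.mem_filter.mp hv).2
    · intro u hu v hv
      by_contra hne
      have := hdis u v (by simpa using hne)
      exact Finset.disjoint_left.mp this (Finset.mem_filter.mp hu).2 (Finset.mem_filter.mp hv).2
  have h5 : ∑ c ∈ Finset.range 25, wt c = 34 := by decide
  omega

/-- the vertex set -/
abbrev VG : Type := Bool ⊕ ((Finset (Fin 25) × Finset (Fin 25)) × Fin 6)

/-- adjacency of the whole graph, as a relation -/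
def adjG : VG → VG → Prop
  | Sum.inl _, Sum.inl _ => False
  | Sum.inl r, Sum.inr (_, v) => adjR r v = true
  | Sum.inr (_, v), Sum.inl r => adjR r v = true
  | Sum.inr (s, u), Sum.inr (t, v) => s = t ∧ adjW u v = true

theorem adjW_symm : ∀ u v : Fin 6, adjW u v = true → adjW v u = true := by decide

theorem adjW_irrefl : ∀ u : Fin 6, adjW u u = false := by decide

/-- the graph -/
def G : SimpleGraph VG where
  Adj := adjG
  symm := ⟨by
    rintro (r | ⟨s, u⟩) (r' | ⟨t, v⟩) h
    · exact h
    · exact h
    · exact h
    · exact ⟨h.1.symm, adjW_symm _ _ h.2⟩⟩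
  loopless := ⟨by
    rintro (r | ⟨s, u⟩) h
    · exact h
    · have := h.2
      rw [adjW_irrefl] at this
      exact Bool.false_ne_true this⟩

theorem four_choosable (L : VG → Finset ℕ) (hL : ∀ v, (L v).card = 4) :
    ∃ c : VG → ℕ, (∀ v, c v ∈ L v) ∧ ∀ u v, G.Adj u v → c u ≠ c v := by
  obtain ⟨r₁, hr₁⟩ : (L (Sum.inl false)).Nonempty := by
    rw [← Finset.card_pos, hL]; norm_num
  obtain ⟨r₂, hr₂⟩ : (L (Sum.inl true)).Nonempty := by
    rw [← Finset.card_pos, hL]; norm_num
  have e1 : ∀ v x, 3 ≤ (L v \ {x}).card := by
    intro v x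
    have h1 : ({x} : Finset ℕ).card = 1 := Finset.card_singleton x
    have h2 := Finset.le_card_sdiff ({x} : Finset ℕ) (L v)
    have h3 := hL v
    omega
  have e2 : ∀ v x y, 2 ≤ (L v \ {x, y}).card := by
    intro v x y
    have h1 : ({x, y} : Finset ℕ).card ≤ 2 := Finset.card_le_two
    have h2 := Finset.le_card_sdiff ({x, y} : Finset ℕ) (L v)
    have h3 := hL v
    omega
  have key : ∀ s : Finset (Fin 25) × Finset (Fin 25), ∃ k : Fin 6 → ℕ,
      (∀ v, k v ∈ L (Sum.inr (s, v))) ∧ (∀ u v, adjW u v = true → k u ≠ k v) ∧
      (∀ v, adjR false v = true → k v ≠ r₁) ∧ (∀ v, adjR true v = true → k v ≠ r₂) := by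
    intro s
    obtain ⟨h, hh, a, ha, b, hb, c, hc, d, hd, e, he, q1, q2, q3, q4, q5, q6, q7, q8, q9, q10⟩ :=
      Pool.Agent.W182.Frac.wheel (hL (Sum.inr (s, 0))).ge (e2 (Sum.inr (s, 1)) r₁ r₂)
        (e1 (Sum.inr (s, 2)) r₁) (e1 (Sum.inr (s, 3)) r₁) (e2 (Sum.inr (s, 4)) r₁ r₂)
        (e2 (Sum.inr (s, 5)) r₁ r₂)
    simp only [Finset.mem_sdiff, Finset.mem_insert, Finset.mem_singleton, not_or] at ha hb hc hd he
    refine ⟨![h, a, b, c, d, e], ?_, ?_, ?_, ?_⟩
    · intro v
      fin_cases v
      · exact hh
      · exact ha.1
      · exact hb.1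
      · exact hc.1
      · exact hd.1
      · exact he.1
    · intro u v huv
      fin_cases u <;> fin_cases v <;>
        first
          | exact absurd huv (by decide)
          | assumption
          | exact Ne.symm (by assumption)
    · intro v hv
      fin_cases v
      · exact absurd hv (by decide)
      · exact ha.2.1
      · exact hb.2
      · exact hc.2
      · exact hd.2.1
      · exact he.2.1
    · intro v hv
      fin_cases v
      · exact absurd hv (by decide)
      · exact ha.2.2
      · exact absurd hv (by decide)
      · exact absurd hv (by decide)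
      · exact hd.2.2
      · exact he.2.2
  choose k hk1 hk2 hk3 hk4 using key
  let c : VG → ℕ := fun v => match v with
    | Sum.inl false => r₁
    | Sum.inl true => r₂
    | Sum.inr (s, v) => k s v
  refine ⟨c, ?_, ?_⟩
  · rintro ((_ | _) | ⟨s, v⟩)
    · exact hr₁
    · exact hr₂
    · exact hk1 s v
  · rintro ((_ | _) | ⟨s, u⟩) ((_ | _) | ⟨t, v⟩) h
    · exact h.elim
    · exact h.elim
    · exact (hk3 t v h).symm
    · exact h.elim
    · exact h.elim
    · exact (hk4 t v h).symm
    · exact hk3 s u h
    · exact hk4 s u h
    · obtain ⟨hst, huv⟩ := h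
      subst hst
      exact hk2 s u v huv

/-- embeddings of the two root palettes -/
def em (r : Bool) : Fin 25 ↪ ℕ :=
  ⟨fun i => (if r then 50 else 25) + i.1, fun i j h => by
    apply Fin.ext
    simpa using h⟩

/-- the bad list assignment -/
def bad : VG → Finset ℕ
  | Sum.inl r => (Finset.univ : Finset (Fin 25)).map (em r)
  | Sum.inr (s, v) =>
    if s.1.card = 6 ∧ s.2.card = 6 then
      base v ∪ ((if adjR false v then s.1.map (em false) else ∅) ∪
        (if adjR true v then s.2.map (em true) else ∅))
    else Finset.range 25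

theorem em_false_mem {S : Finset (Fin 25)} {x : ℕ} (h : x ∈ S.map (em false)) :
    25 ≤ x ∧ x < 50 := by
  obtain ⟨i, _, rfl⟩ := Finset.mem_map.mp h
  have := i.2
  simp only [em, Function.Embedding.coeFn_mk, Bool.false_eq_true, if_false]
  omega

theorem em_true_mem {S : Finset (Fin 25)} {x : ℕ} (h : x ∈ S.map (em true)) :
    50 ≤ x := by
  obtain ⟨i, _, rfl⟩ := Finset.mem_map.mp h
  simp only [em, Function.Embedding.coeFn_mk, if_true]
  omega

theorem bad_card (v : VG) : (bad v).card = 25 := by
  rcases v with r | ⟨s, v⟩
  · simp [bad]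
  · by_cases hs : s.1.card = 6 ∧ s.2.card = 6
    · simp only [bad, if_pos hs]
      have hd2 : Disjoint (if adjR false v then s.1.map (em false) else ∅)
          (if adjR true v then s.2.map (em true) else ∅) := by
        rw [Finset.disjoint_left]
        intro x h1 h2
        split_ifs at h1 with q1
        · split_ifs at h2 with q2
          · have := em_false_mem h1
            have := em_true_mem h2
            omega
          · exact absurd h2 (Finset.notMem_empty x)
        · exact absurd h1 (Finset.notMem_empty x)
      have hd1 : Disjoint (base v) ((if adjR false v then s.1.map (em false) else ∅) ∪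
          (if adjR true v then s.2.map (em true) else ∅)) := by
        rw [Finset.disjoint_left]
        intro x h1 h2
        have h3 := Finset.mem_range.mp (base_sub v h1)
        rcases Finset.mem_union.mp h2 with h2 | h2
        · split_ifs at h2 with q
          · have := em_false_mem h2
            omega
          · exact absurd h2 (Finset.notMem_empty x)
        · split_ifs at h2 with q
          · have := em_true_mem h2
            omega
          · exact absurd h2 (Finset.notMem_empty x)
      rw [Finset.card_union_of_disjoint hd1, Finset.card_union_of_disjoint hd2]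
      have := base_card v
      have h1 : (if adjR false v = true then s.1.map (em false) else ∅).card =
          if adjR false v = true then 6 else 0 := by
        split_ifs
        · rw [Finset.card_map]; exact hs.1
        · rfl
      have h2 : (if adjR true v = true then s.2.map (em true) else ∅).card =
          if adjR true v = true then 6 else 0 := by
        split_ifs
        · rw [Finset.card_map]; exact hs.2
        · rfl
      rw [h1, h2]
      omega
    · simp [bad, if_neg hs]

theorem not_choosable :
    ¬ ∃ f : VG → Finset ℕ, (∀ v, f v ⊆ bad v ∧ (f v).card = 6) ∧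
          ∀ u v, G.Adj u v → Disjoint (f u) (f v) := by
  rintro ⟨f, hf, hdis⟩
  -- the colour sets of the roots
  let S : Bool → Finset (Fin 25) := fun r =>
    Finset.univ.filter (fun i => em r i ∈ f (Sum.inl r))
  have hS : ∀ r, (S r).map (em r) = f (Sum.inl r) := by
    intro r
    ext x
    constructor
    · intro h
      obtain ⟨i, hi, rfl⟩ := Finset.mem_map.mp h
      exact (Finset.mem_filter.mp hi).2
    · intro h
      have h1 := (hf (Sum.inl r)).1 h
      obtain ⟨i, _, rfl⟩ := Finset.mem_map.mp h1
      exact Finset.mem_map.mpr ⟨i, Finset.mem_filter.mpr ⟨Finset.mem_univ _, h⟩, rfl⟩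
  have hScard : ∀ r, (S r).card = 6 := by
    intro r
    rw [← Finset.card_map (em r), hS r]
    exact (hf _).2
  let s : Finset (Fin 25) × Finset (Fin 25) := (S false, S true)
  refine wheel_no (fun v => f (Sum.inr (s, v))) ?_ (fun v => (hf _).2) ?_
  · intro v x hx
    have h1 := (hf (Sum.inr (s, v))).1 hx
    have hs : s.1.card = 6 ∧ s.2.card = 6 := ⟨hScard false, hScard true⟩
    simp only [bad, if_pos hs] at h1
    rcases Finset.mem_union.mp h1 with h1 | h1
    · exact h1
    · exfalso
      rcases Finset.mem_union.mp h1 with h1 | h1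
      · by_cases q : adjR false v = true
        · rw [if_pos q] at h1
          have h2 : x ∈ f (Sum.inl false) := by rw [← hS false]; exact h1
          have h3 := hdis (Sum.inl false) (Sum.inr (s, v)) q
          exact Finset.disjoint_left.mp h3 h2 hx
        · rw [if_neg q] at h1
          exact absurd h1 (Finset.notMem_empty x)
      · by_cases q : adjR true v = true
        · rw [if_pos q] at h1
          have h2 : x ∈ f (Sum.inl true) := by rw [← hS true]; exact h1
          have h3 := hdis (Sum.inl true) (Sum.inr (s, v)) q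
          exact Finset.disjoint_left.mp h3 h2 hx
        · rw [if_neg q] at h1
          exact absurd h1 (Finset.notMem_empty x)
  · intro u v huv
    exact hdis (Sum.inr (s, u)) (Sum.inr (s, v)) ⟨rfl, huv⟩

/-- The negation of the preceding statement: For every finite graph G that is k-choosable, and every real r > k and integer m ≥ 1, G is (⌈rm⌉, m)-choosable. Equivalently, the strong fractional choice number of G is at most its choice number. -/
theorem result :
    ¬ (∀ (V : Type) [Fintype V] (G : SimpleGraph V) (k : ℕ),
    (∀ L : V → Finset ℕ, (∀ v, (L v).card = k) →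
        ∃ c : V → ℕ, (∀ v, c v ∈ L v) ∧ ∀ u v, G.Adj u v → c u ≠ c v) →
    ∀ r : ℝ, (k : ℝ) < r → ∀ m : ℕ, 1 ≤ m →
      ∀ L : V → Finset ℕ, (∀ v, (L v).card = ⌈r * (m : ℝ)⌉₊) →
        ∃ f : V → Finset ℕ, (∀ v, f v ⊆ L v ∧ (f v).card = m) ∧
          ∀ u v, G.Adj u v → Disjoint (f u) (f v)) := by
  intro H
  refine not_choosable (H VG G 4 four_choosable (25 / 6 : ℝ) (by norm_num) 6 (by norm_num) bad ?_)
  intro v
  rw [bad_card v]
  norm_num

end Pool.Agent.S10688
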