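import Pool.Statements.S10738
import Pool.Agent.W599.DSN.Fin
import Pool.Agent.W599.DSN.STR
import Pool.Agent.W599.DSN.STF
import Pool.Agent.W320.DSN.GEN
import Pool.Agent.W486.DSN.War
import Pool.Agent.W891.DSN.GEO
import Pool.Agent.W131.DSN.Sel
import Pool.Agent.W60.DSN.Del
import Pool.Agent.W397.DSN.FIB
import Pool.Agent.W334.DSN.STA
import Pool.Agent.W768.DSN.STL
import Pool.Agent.W53.DsnSup
import Pool.Agent.W369.DSN.NOSH

set_option autoImplicit false
open Pool Pool.MP_ac1f36_co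

namespace Pool.Agent.S10738

/-- The negation of the preceding statement: Every nonempty word over n letters with no equal neighbors and no pattern p q p q p is the left-to-right lower-envelope sequence of some n non-vertical line segments in the plane. -/
theorem result :
    ¬ (∀ (n m : ℕ) (w : Fin m → Fin n), 0 < m →
      (∀ i j : Fin m, i.val + 1 = j.val → w i ≠ w j) →
      (¬ ∃ (p q : Fin n) (i₁ i₂ i₃ i₄ i₅ : Fin m), p ≠ q ∧ i₁ < i₂ ∧ i₂ < i₃ ∧ i₃ < i₄ ∧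
          i₄ < i₅ ∧ w i₁ = p ∧ w i₂ = q ∧ w i₃ = p ∧ w i₄ = q ∧ w i₅ = p) →
      ∃ (a b l r : Fin n → ℝ) (t : Fin (m + 1) → ℝ), StrictMono t ∧ (∀ i, l i < r i) ∧
        (∀ i x, l i ≤ x → x ≤ r i → t 0 ≤ x ∧ x ≤ t (Fin.last m)) ∧
        (∀ k : Fin m, ∃ x, t k.castSucc < x ∧ x < t k.succ ∧ l (w k) ≤ x ∧ x ≤ r (w k)) ∧
        (∀ k : Fin m, ∀ x, t k.castSucc < x → x < t k.succ → ∀ j, l j ≤ x → x ≤ r j →
          (l (w k) ≤ x ∧ x ≤ r (w k) ∧
            (j ≠ w k → a (w k) * x + b (w k) < a j * x + b j)))) := by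
  intro h
  exact Pool.Agent.W599.DSN.final
    (Pool.Agent.W369.DSN.NOSH.nosh
      (Pool.Agent.W486.DSN.war Pool.Agent.W320.DSN.gen Pool.Agent.W397.DSN.fib))
    (Pool.Agent.W53.DsnSup.sup Pool.Agent.W768.DSN.stl Pool.Agent.W599.DSN.stf
      Pool.Agent.W334.DSN.sta Pool.Agent.W599.DSN.str)
    Pool.Agent.W131.DSN.sel
    (Pool.Agent.W60.DSN.del Pool.Agent.W891.DSN.GEO.geoa Pool.Agent.W891.DSN.GEO.geop) h

end Pool.Agent.S10738
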