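import Pool.Statements.S10767
import Pool.Agent.Results.MP_ad4d1c_co.ExactValue
-- import your own Pool.Agent.* helpers here

set_option autoImplicit false
open Pool Pool.MP_ad4d1c_co

namespace Pool.Agent.S10767

/-- For every n ≥ 1, the longest sequence of distinct subsets of an n-set that starts with ∅, has no term inside its predecessor, and has no term inside the union of two consecutive terms at least two steps earlier has length exactly 2^(n-1) + floor((n+1)/2). -/
theorem result :
    ∀ n : ℕ, 1 ≤ n →
      IsGreatest
        {s : ℕ | ∃ B : Fin s → Finset (Fin n),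
          Function.Injective B ∧
          (∀ i : Fin s, i.val = 0 → B i = ∅) ∧
          (∀ i j : Fin s, j.val = i.val + 1 → ¬ (B j ⊆ B i)) ∧
          (∀ i k j : Fin s, k.val = i.val + 1 → i.val + 2 ≤ j.val →
            ¬ (B j ⊆ B i ∪ B k))}
        (2 ^ (n - 1) + (n + 1) / 2) := by
  intro n hn
  have h := Pool.Agent.Results.MP_ad4d1c_co.ExactValue.result n hn
  have key : {s : ℕ | ∃ B : Fin s → Finset (Fin n),
          Function.Injective B ∧
          (∀ i : Fin s, i.val = 0 → B i = ∅) ∧
          (∀ i j : Fin s, j.val = i.val + 1 → ¬ (B j ⊆ B i)) ∧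
          (∀ i k j : Fin s, k.val = i.val + 1 → i.val + 2 ≤ j.val →
            ¬ (B j ⊆ B i ∪ B k))} = {s : ℕ | ∃ B : ℕ → Finset (Fin n),
        Set.InjOn B (Set.Iio s) ∧
        B 0 = ∅ ∧
        (∀ i : ℕ, i + 1 < s → ¬ B (i + 1) ⊆ B i) ∧
        (∀ i k : ℕ, i + 2 ≤ k → k < s → ¬ B k ⊆ B i ∪ B (i + 1))} := by
    ext s
    simp only [Set.mem_setOf_eq]
    constructor
    · rintro ⟨B, h1, h2, h3, h4⟩
      refine ⟨fun m => if hm : m < s then B ⟨m, hm⟩ else ∅, ?_, ?_, ?_, ?_⟩
      · intro a ha b hb hab
        simp only [Set.mem_Iio] at ha hb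
        simp only [dif_pos ha, dif_pos hb] at hab
        have := h1 hab
        exact congrArg Fin.val this
      · by_cases hs : 0 < s
        · simp only [dif_pos hs]
          exact h2 _ rfl
        · simp only [dif_neg hs]
      · intro i hi
        have hi' : i < s := by omega
        simp only [dif_pos hi, dif_pos hi']
        exact h3 _ _ rfl
      · intro i k hik hk
        have hi : i < s := by omega
        have hi' : i + 1 < s := by omega
        simp only [dif_pos hi, dif_pos hi', dif_pos hk]
        exact h4 _ _ _ rfl hik
    · rintro ⟨B, h1, h2, h3, h4⟩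
      refine ⟨fun i => B i.val, ?_, ?_, ?_, ?_⟩
      · intro a b hab
        exact Fin.ext (h1 a.isLt b.isLt hab)
      · intro i hi
        simp only [hi, h2]
      · intro i j hij
        have := h3 i.val (by have := j.isLt; omega)
        simp only [hij]
        exact this
      · intro i k j hk hj
        simp only [hk]
        exact h4 _ _ hj j.isLt
  rw [key]
  exact h

end Pool.Agent.S10767
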