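import Pool.Statements.S10800
import Pool.Agent.W120.BC.First
import Pool.Agent.W120.BC.Par

set_option autoImplicit false
open scoped Classical
open Filter Topology
open Pool Pool.MP_aef546_co

namespace Pool.Agent.S10800

/-- The negation of the preceding statement: For every fixed p with 0<p<1/2, the probability that G(n,p) has biclique partition number equal to n minus its independence number tends to 1 as n tends to infinity. -/
theorem result :
    ¬ (∀ p : ℝ, 0 < p → p < 1 / 2 →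
      Tendsto (fun n : ℕ => ∑ G : SimpleGraph (Fin n),
        if sInf {k : ℕ | ∃ A B : Fin k → Finset (Fin n),
              (∀ i, Disjoint (A i) (B i)) ∧
              ∀ u v : Fin n,
                (G.Adj u v → ∃! i, (u ∈ A i ∧ v ∈ B i) ∨ (v ∈ A i ∧ u ∈ B i)) ∧
                (¬ G.Adj u v → ∀ i, ¬ (u ∈ A i ∧ v ∈ B i))}
            = n - Gᶜ.cliqueNum
        then p ^ G.edgeFinset.card * (1 - p) ^ (n.choose 2 - G.edgeFinset.card)
        else 0)
        atTop (𝓝 1)) := by
  intro H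
  have h1 := H (24 / 49) (by norm_num) (by norm_num)
  have h2 := h1.eventually (eventually_gt_nhds (b := (3 / 4 : ℝ)) (by norm_num))
  rw [eventually_atTop] at h2
  obtain ⟨M, hM⟩ := h2
  obtain ⟨h, ⟨hh, C1, C2, C3, C4⟩, hhM⟩ :=
    (W120.BC.ev_conditions.and (eventually_ge_atTop M)).exists
  obtain ⟨N, m, l, hN, hml, hfirst, hl, hC, hsum⟩ := W120.BC.params h hh C1 C2 C3 C4
  have h3 := hM N (hhM.trans hN)
  have hq : (1 : ℝ) - 24 / 49 = 25 / 49 := by norm_num
  rw [hq] at h3
  have h4 := W120.BC.prob_le (n := N) (24 / 49 : ℝ) (25 / 49) (by norm_num) (by norm_num) (by norm_num)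
    m l (2 * h)
  have h5 := W120.BC.second_moment (24 / 49 : ℝ) (25 / 49) (by norm_num) (by norm_num) (by norm_num)
    N m l (2 * h) hml
  set Q : ℝ := ∑ x : Fin N → Fin N → Bool, W120.BC.mu (24 / 49 : ℝ) (25 / 49) x *
    (if W120.BC.Ev2 N m l (2 * h) (W120.BC.gr x) then 1 else 0) with hQ
  have hQ0 : 0 ≤ Q := by
    refine Finset.sum_nonneg fun x _ => mul_nonneg (W120.BC.mu_nonneg (by norm_num) (by norm_num) x) ?_
    split_ifs <;> norm_num
  have hX : (0 : ℝ) < (m.choose (2 * h) : ℝ) * (l : ℝ) ^ 4 := by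
    have e1 : (0 : ℝ) < (m.choose (2 * h) : ℝ) := by exact_mod_cast hC
    have e2 : (0 : ℝ) < (l : ℝ) := by exact_mod_cast hl
    positivity
  have h6 : (m.choose (2 * h) : ℝ) * (l : ℝ) ^ 4 ≤ Q * (2 * ((m.choose (2 * h) : ℝ) * (l : ℝ) ^ 4)) :=
    h5.trans (mul_le_mul_of_nonneg_left hsum hQ0)
  have h7 : 1 / 2 ≤ Q := by
    by_contra hlt
    push Not at hlt
    nlinarith
  have h8 : ∑ G : SimpleGraph (Fin N), (if sInf (W120.BC.BCset G) = N - Gᶜ.cliqueNum then
      (24 / 49 : ℝ) ^ G.edgeFinset.card * (25 / 49) ^ (N.choose 2 - G.edgeFinset.card) else 0) ≤ 3 / 4 := by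
    linarith
  exact absurd h3 (not_lt.2 h8)

end Pool.Agent.S10800
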