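import Pool.Statements.S10891
import Pool.Agent.W247.OF

set_option autoImplicit false
open Pool Pool.MP_b2bf24_co

namespace Pool.Agent.S10891

/-- For every 0-1 matrix M whose row-column bipartite graph is a forest, and every c>1, the maximum number of ones in an n×n 0-1 matrix avoiding M as a submatrix pattern is o(n^c). -/
theorem result :
    ∀ (k l : ℕ) (M : Finset (Fin k × Fin l)),
      (SimpleGraph.fromRel (fun x y : Fin k ⊕ Fin l =>
          ∃ i j, x = Sum.inl i ∧ y = Sum.inr j ∧ (i, j) ∈ M)).IsAcyclic →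
      ∀ c : ℝ, 1 < c → ∀ ε : ℝ, 0 < ε → ∃ N : ℕ, ∀ n : ℕ, N ≤ n →
        ∀ A : Finset (Fin n × Fin n),
          (¬ ∃ f : Fin k → Fin n, StrictMono f ∧ ∃ g : Fin l → Fin n, StrictMono g ∧
              ∀ p ∈ M, (f p.1, g p.2) ∈ A) →
          (A.card : ℝ) ≤ ε * (n : ℝ) ^ c :=
  fun k l M hM c hc ε hε => Pool.Agent.W247.OF.main k l M hM c hc ε hε

end Pool.Agent.S10891
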