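import Pool.Statements.S10980
import Pool.Agent.Results.MP_b6d645_co.NotUnimodal

set_option autoImplicit false
open Pool Pool.MP_b6d645_co

namespace Pool.Agent.S10980

open Pool.Agent.Results.MP_b6d645_co.NotUnimodal in
lemma count_transfer {V W : Type} (e : V ≃ W) (G : SimpleGraph V) (k : ℕ) :
    stableCount (G.map e.toEmbedding) k = stableCount G k := by
  classical
  unfold stableCount
  have : {s : Finset W | (G.map e.toEmbedding).IsIndepSet (s : Set W) ∧ s.card = k} =
      (fun s : Finset V => s.map e.toEmbedding) '' {s : Finset V | G.IsIndepSet (s : Set V) ∧ s.card = k} := by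
    ext s
    simp only [Set.mem_ofPred_eq, Set.mem_image]
    constructor
    · rintro ⟨h1, h2⟩
      refine ⟨s.map e.symm.toEmbedding, ⟨?_, by simpa using h2⟩, ?_⟩
      · intro v hv w hw hvw hadj
        have hv' : e v ∈ s := by simpa using hv
        have hw' : e w ∈ s := by simpa using hw
        refine h1 hv' hw' (by simpa using hvw) ?_
        rw [SimpleGraph.map_adj]
        exact ⟨v, w, hadj, rfl, rfl⟩
      · ext x
        simp
    · rintro ⟨t, ⟨h1, h2⟩, rfl⟩
      refine ⟨?_, by simpa using h2⟩
      intro v hv w hw hvw hadj
      rw [SimpleGraph.map_adj] at hadj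
      obtain ⟨a, b, hab, rfl, rfl⟩ := hadj
      have ha : a ∈ t := by simpa using hv
      have hb : b ∈ t := by simpa using hw
      exact h1 ha hb (by rintro rfl; exact hvw rfl) hab
  rw [this]
  exact Set.ncard_image_of_injective _ (Finset.map_injective _)

/-- The negation of the preceding statement: Take any graph on n vertices with no isolated vertex in which every maximal independent set has exactly n/2 vertices. Then the counts of independent sets of size k, for k = 0, 1, 2, ..., first weakly increase and then weakly decrease. -/
theorem result :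
    ¬ (∀ (n : ℕ) (G : SimpleGraph (Fin n)),
      (∀ v : Fin n, ∃ w : Fin n, G.Adj v w) →
      (∀ s : Finset (Fin n),
        Maximal (fun t : Finset (Fin n) => G.IsIndepSet (t : Set (Fin n))) s →
          2 * s.card = n) →
      ∃ m : ℕ,
        (∀ i : ℕ, i < m →
          {s : Finset (Fin n) | G.IsIndepSet (s : Set (Fin n)) ∧ s.card = i}.ncard ≤
          {s : Finset (Fin n) | G.IsIndepSet (s : Set (Fin n)) ∧ s.card = i + 1}.ncard) ∧
        (∀ i : ℕ, m ≤ i →
          {s : Finset (Fin n) | G.IsIndepSet (s : Set (Fin n)) ∧ s.card = i + 1}.ncard ≤
          {s : Finset (Fin n) | G.IsIndepSet (s : Set (Fin n)) ∧ s.card = i}.ncard)) := by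
  intro H
  obtain ⟨V, hV, G, ⟨hiso, hmax⟩, hnot⟩ := Pool.Agent.Results.MP_b6d645_co.NotUnimodal.result
  classical
  let e : V ≃ Fin (Fintype.card V) := Fintype.equivFin V
  have hadj : ∀ v w : V, (G.map e.toEmbedding).Adj (e v) (e w) ↔ G.Adj v w := by
    intro v w
    constructor
    · intro h
      rw [SimpleGraph.map_adj] at h
      obtain ⟨a, b, hab, h1, h2⟩ := h
      have h1' : a = v := e.injective h1
      have h2' : b = w := e.injective h2
      subst h1'; subst h2'; exact hab
    · intro h
      rw [SimpleGraph.map_adj]
      exact ⟨v, w, h, rfl, rfl⟩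
  apply hnot
  have hA : ∀ v, ∃ w, (G.map e.toEmbedding).Adj v w := by
    intro v
    obtain ⟨w, hw⟩ := hiso (e.symm v)
    refine ⟨e w, ?_⟩
    have := (hadj (e.symm v) w).2 hw
    simpa using this
  have hB : ∀ s : Finset (Fin (Fintype.card V)),
        Maximal (fun t : Finset (Fin (Fintype.card V)) =>
          (G.map e.toEmbedding).IsIndepSet (t : Set (Fin (Fintype.card V)))) s →
          2 * s.card = Fintype.card V := by
    intro s hs
    have hind : ∀ t : Finset (Fin (Fintype.card V)), (G.map e.toEmbedding).IsIndepSet (t : Set _) ↔
        G.IsIndepSet ((t.map e.symm.toEmbedding : Finset V) : Set V) := by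
      intro t
      constructor
      · intro h v hv w hw hvw hvwadj
        have hv' : e v ∈ t := by simpa using hv
        have hw' : e w ∈ t := by simpa using hw
        exact h hv' hw' (by simpa using hvw) ((hadj v w).2 hvwadj)
      · intro h v hv w hw hvw hvwadj
        refine h (x := e.symm v) (by simpa using hv) (y := e.symm w) (by simpa using hw)
          (by simpa using hvw) ?_
        rw [← hadj]
        simpa using hvwadj
    have := hmax (s.map e.symm.toEmbedding) ?_
    · simpa using this
    · constructor
      · exact (hind s).1 hs.1
      · intro t ht hst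
        have h3 : (G.map e.toEmbedding).IsIndepSet ((t.map e.toEmbedding : Finset _) : Set _) := by
          rw [hind]
          have : (t.map e.toEmbedding).map e.symm.toEmbedding = t := by
            ext x; simp
          rw [this]
          exact ht
        have h4 : s ≤ t.map e.toEmbedding := by
          intro x hx
          have : e.symm x ∈ t := hst (by simpa using hx)
          simpa using this
        have h5 := hs.2 h3 h4
        intro x hx
        have : e x ∈ s := h5 (by simpa using hx)
        simpa using this
  obtain ⟨m, h1, h2⟩ := H (Fintype.card V) (G.map e.toEmbedding) hA hB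
  refine ⟨m, ?_, ?_⟩
  · intro i hi
    have := h1 i hi
    rw [← count_transfer e G i, ← count_transfer e G (i+1)]
    exact this
  · intro i hi
    have := h2 i hi
    rw [← count_transfer e G i, ← count_transfer e G (i+1)]
    exact this

end Pool.Agent.S10980
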