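import Pool.Statements.S11001
import Pool.Agent.W324.ZAP.Main

set_option autoImplicit false
open Pool Pool.MP_b7b3bc_co

namespace Pool.Agent.S11001

/-- There is a bijection f of the integers such that no positions i<j<k<l have values f(i),f(j),f(k),f(l) forming an arithmetic progression. -/
theorem result :
    ∃ f : ℤ → ℤ, Function.Bijective f ∧
      ∀ i j k l : ℤ, i < j → j < k → k < l →
        ¬ (f j - f i = f k - f j ∧ f k - f j = f l - f k) := by
  obtain ⟨f, hf, hlt⟩ := Pool.Agent.W324.ZAP.enum
  refine ⟨f, hf, ?_⟩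
  rintro i j k l hij hjk hkl ⟨h1, h2⟩
  have g1 := hlt i j hij
  have g2 := hlt j k hjk
  have g3 := hlt k l hkl
  obtain ⟨D, hD⟩ : ∃ D, D = f j - f i := ⟨_, rfl⟩
  have hD0 : D ≠ 0 := by
    intro h
    have : f i = f j := by linarith
    rw [this] at g1; exact lt_irrefl _ g1
  apply Pool.Agent.W324.ZAP.noAP (f i) D hD0
  have e1 : f i + D = f j := by linarith
  have e2 : f i + 2 * D = f k := by linarith
  have e3 : f i + 3 * D = f l := by linarith
  rw [e1, e2, e3]
  exact ⟨g1, g2, g3⟩

end Pool.Agent.S11001
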