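import Pool.Statements.S11026
import Pool.Agent.W167.Stretch.Transfer

set_option autoImplicit false
open Pool Pool.MP_b8f462_co

namespace Pool.Agent.S11026

open Pool.Agent.W167.Stretch in
theorem aux (n : ℕ) (hn : 2 ^ 64 ≤ n) : ∃ k : ℕ,
    IsGreatest {m : ℕ | ∑ j ∈ Finset.range (m + 1), (n + 1).choose j ≤ 2 ^ (n - 1)} k ∧
    ∃ A : Finset (Fin (n + 1) → Bool),
      (∀ x : Fin (n + 1) → Bool,
              ((Finset.univ.filter (fun i => x i = true)).card ≤ k ∨
               n + 1 - k ≤ (Finset.univ.filter (fun i => x i = true)).card) → x ∈ A) ∧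
      A.card = 2 ^ n ∧
      ∃ φ : (Fin n → Bool) → (Fin (n + 1) → Bool),
        Function.Injective φ ∧ (∀ x, φ x ∈ A) ∧
        ∑ x : Fin n → Bool, ∑ i : Fin n,
          (hammingDist (φ x) (φ (Function.update x i (!x i))) : ℝ) ≤
          10002 * ((n : ℝ) * 2 ^ n) := by
  classical
  set S : Set ℕ := {m : ℕ | ∑ j ∈ Finset.range (m + 1), (n + 1).choose j ≤ 2 ^ (n - 1)} with hS
  have hne : S.Nonempty := by
    refine ⟨0, ?_⟩
    simp only [hS, Set.mem_setOf_eq, zero_add, Finset.sum_range_one, Nat.choose_zero_right]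
    exact Nat.one_le_two_pow
  have hbd : BddAbove S := by
    refine ⟨n + 1, ?_⟩
    intro m hm
    by_contra hcon
    push Not at hcon
    simp only [hS, Set.mem_setOf_eq] at hm
    have h1 : ∑ j ∈ Finset.range (n + 1 + 1), (n + 1).choose j ≤
        ∑ j ∈ Finset.range (m + 1), (n + 1).choose j :=
      Finset.sum_le_sum_of_subset (Finset.range_mono (by omega))
    rw [Nat.sum_range_choose] at h1
    have h2 : 2 ^ (n - 1) < 2 ^ (n + 1) := Nat.pow_lt_pow_right (by norm_num) (by omega)
    omega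
  have hk1 : sSup S ∈ S := Nat.sSup_mem hne hbd
  have hk2 : ∀ m ∈ S, m ≤ sSup S := fun m hm => le_csSup hbd hm
  set k := sSup S with hk
  refine ⟨k, ⟨hk1, hk2⟩, ?_⟩
  have hk3 : 2 ^ (n - 1) < ∑ j ∈ Finset.range (k + 1 + 1), (n + 1).choose j := by
    by_contra hcon
    push Not at hcon
    have := hk2 (k + 1) hcon
    omega
  have hk1' : ∑ j ∈ Finset.range (k + 1), (n + 1).choose j ≤ 2 ^ (n - 1) := hk1
  obtain ⟨L', N, hM, hN, p1, p2, p3⟩ := params (n + 1) (by omega)
  have hpow : 2 ^ (n - 1) = 2 ^ L' * 2 ^ N := by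
    rw [← pow_add]; congr 1; omega
  rw [Finset.sum_range_succ] at hk3
  rw [hpow] at hk1' hk3
  rw [hM] at hk1' hk3
  rw [← card_Ball] at hk1' hk3
  rw [← card_Lev] at hk3
  obtain ⟨r1, r2⟩ := radius (N := N) (L' := L') (k := k) (by omega) hk1' hk3
  have hR1 : 1 ≤ Real.sqrt (N + (L' + 2) : ℕ) := by
    apply Real.one_le_sqrt.2
    have : 1 ≤ N + (L' + 2) := by omega
    exact_mod_cast this
  have hkN : |(k : ℝ) - N / 2| ≤ 17 * Real.sqrt (N + (L' + 2) : ℕ) := by
    have h1 := radius_lower r2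
    have h2 : (2 * ((k : ℝ) + 1)) ≤ N + (L' + 2) := by
      have : 2 * (k + 1) ≤ N + (L' + 2) := r1.le
      exact_mod_cast this
    push_cast at h1 hR1 p3 ⊢
    rw [abs_le]
    constructor
    · linarith
    · linarith
  obtain ⟨ψ, f1, f2, f3, f4⟩ := exists_embedding (N := N) (L' := L') (k := k) hN r2 hkN
    (by linarith) p3 (by exact_mod_cast hk1') (by exact_mod_cast hk3.le) r1.le p1 p2
  obtain ⟨φ, g1, g2, g3⟩ := main_aux (n := n) (by omega) r1 ψ f1 f2 f3 f4
  refine ⟨Finset.univ.image φ, ?_, ?_, φ, g1, ?_, g3⟩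
  · intro x hx
    obtain ⟨p, hp⟩ := g2 x hx
    exact Finset.mem_image.2 ⟨p, Finset.mem_univ _, hp⟩
  · rw [Finset.card_image_of_injective _ g1, Finset.card_univ, Fintype.card_fun, Fintype.card_bool,
      Fintype.card_fin]
  · intro x
    exact Finset.mem_image_of_mem _ (Finset.mem_univ _)

/-- The negation of the preceding statement: For every constant K there are arbitrarily large n such that, for every set A of 2^n points of the (n+1)-cube containing all points of weight at most k* or at least n+1−k*, every bijection from the n-cube onto A has average edge stretch greater than K. -/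
theorem result :
    ¬ (∀ K : ℝ, ∀ N : ℕ, ∃ n : ℕ, N ≤ n ∧
      ∀ k : ℕ,
        IsGreatest {m : ℕ | ∑ j ∈ Finset.range (m + 1), (n + 1).choose j ≤ 2 ^ (n - 1)} k →
        ∀ A : Finset (Fin (n + 1) → Bool),
          (∀ x : Fin (n + 1) → Bool,
              ((Finset.univ.filter (fun i => x i = true)).card ≤ k ∨
               n + 1 - k ≤ (Finset.univ.filter (fun i => x i = true)).card) → x ∈ A) →
          A.card = 2 ^ n →
          ∀ φ : (Fin n → Bool) → (Fin (n + 1) → Bool),
            Function.Injective φ →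
            (∀ x, φ x ∈ A) →
            K * ((n : ℝ) * 2 ^ n) <
              ∑ x : Fin n → Bool, ∑ i : Fin n,
                (hammingDist (φ x) (φ (Function.update x i (!x i))) : ℝ)) := by
  intro h
  obtain ⟨n, hn, h1⟩ := h 10002 (2 ^ 64)
  obtain ⟨k, hk, A, hA1, hA2, φ, hφ1, hφ2, hφ3⟩ := aux n hn
  have := h1 k hk A hA1 hA2 φ hφ1 hφ2
  linarith

end Pool.Agent.S11026
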