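import Pool.Statements.S11061
import Pool.Agent.Results.MP_ba45ff_co.NuclearBlock

set_option autoImplicit false
open Pool Pool.MP_ba45ff_co

namespace Pool.Agent.S11061

open Pool.Agent.Results.MP_ba45ff_co.NuclearBlock in
theorem domNum_induce {V : Type} [Fintype V] [DecidableEq V] (H : SimpleGraph V) (S : Set V) :
    domNum (H.induce S) = sInf {n : ℕ | ∃ D : Finset V, (↑D : Set V) ⊆ S ∧ D.card = n ∧
          ∀ v ∈ S, v ∈ D ∨ ∃ u ∈ D, H.Adj v u} := by
  classical
  unfold domNum
  congr 1
  ext k
  simp only [Set.mem_setOf_eq]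
  constructor
  · rintro ⟨D, hD, hk⟩
    refine ⟨(Subtype.val '' D : Set V).toFinset, ?_, ?_, ?_⟩
    · intro x hx
      simp only [Set.coe_toFinset, Set.mem_image, Subtype.exists, exists_and_right,
        exists_eq_right] at hx
      exact hx.1
    · rw [← Set.ncard_eq_toFinset_card', Set.ncard_image_of_injective _ Subtype.val_injective]
      exact hk
    · intro v hv
      by_cases hvD : (⟨v, hv⟩ : S) ∈ D
      · left
        simp only [Set.mem_toFinset, Set.mem_image, Subtype.exists, exists_and_right,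
          exists_eq_right]
        exact ⟨hv, hvD⟩
      · right
        obtain ⟨u, hu, hadj⟩ := hD ⟨v, hv⟩ hvD
        refine ⟨u.1, ?_, ?_⟩
        · simp only [Set.mem_toFinset, Set.mem_image, Subtype.exists, exists_and_right,
            exists_eq_right]
          exact ⟨u.2, hu⟩
        · exact (SimpleGraph.comap_adj.mp hadj).symm
  · rintro ⟨D, hDS, hk, hD⟩
    refine ⟨{x : S | x.1 ∈ D}, ?_, ?_⟩
    · intro v hv
      rcases hD v.1 v.2 with h | ⟨u, hu, hadj⟩
      · exact absurd h hv
      · exact ⟨⟨u, hDS hu⟩, hu, SimpleGraph.comap_adj.mpr hadj.symm⟩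
    · rw [← Set.ncard_image_of_injective _ Subtype.val_injective]
      have : (Subtype.val '' {x : S | x.1 ∈ D} : Set V) = (↑D : Set V) := by
        ext x
        simp only [Set.mem_image, Set.mem_setOf_eq, Subtype.exists, exists_and_left, exists_prop,
          exists_eq_right_right, Finset.mem_coe]
        constructor
        · rintro ⟨h, _⟩
          exact h
        · intro h
          exact ⟨h, hDS h⟩
      rw [this, Set.ncard_coe_finset]
      exact hk

open Pool.Agent.Results.MP_ba45ff_co.NuclearBlock in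
theorem domNum_univ {V : Type} [Fintype V] [DecidableEq V] (H : SimpleGraph V) :
    domNum H = sInf {n : ℕ | ∃ D : Finset V, (↑D : Set V) ⊆ Set.univ ∧ D.card = n ∧
          ∀ v ∈ (Set.univ : Set V), v ∈ D ∨ ∃ u ∈ D, H.Adj v u} := by
  classical
  unfold domNum
  congr 1
  ext k
  simp only [Set.mem_setOf_eq]
  constructor
  · rintro ⟨D, hD, hk⟩
    refine ⟨D.toFinset, Set.subset_univ _, ?_, ?_⟩
    · rw [← Set.ncard_eq_toFinset_card']
      exact hk
    · intro v _
      by_cases hvD : v ∈ D
      · left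
        simpa using hvD
      · right
        obtain ⟨u, hu, hadj⟩ := hD v hvD
        exact ⟨u, by simpa using hu, hadj.symm⟩
  · rintro ⟨D, _, hk, hD⟩
    refine ⟨(↑D : Set V), ?_, ?_⟩
    · intro v hv
      rcases hD v (Set.mem_univ v) with h | ⟨u, hu, hadj⟩
      · exact absurd h hv
      · exact ⟨u, hu, hadj.symm⟩
    · rw [Set.ncard_coe_finset]
      exact hk

/-- Let G be a connected edge-critical graph with a cutvertex, and take the block containing all vertices whose deletion keeps the domination number. If that block is edge-critical as a graph in its own right, then it is complete. -/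
theorem result :
    ∀ (V : Type) [Fintype V] [DecidableEq V] (G : SimpleGraph V)
      (γ : SimpleGraph V → Set V → ℕ),
      (∀ (H : SimpleGraph V) (S : Set V),
        γ H S = sInf {n : ℕ | ∃ D : Finset V, (↑D : Set V) ⊆ S ∧ D.card = n ∧
          ∀ v ∈ S, v ∈ D ∨ ∃ u ∈ D, H.Adj v u}) →
      G.Connected →
      (∀ u v : V, u ≠ v → ¬ G.Adj u v →
        γ (G ⊔ SimpleGraph.edge u v) Set.univ = γ G Set.univ - 1) →
      (∃ c : V, ¬ (G.induce ({c}ᶜ : Set V)).Preconnected) →
      ∀ B : Set V,
        ((G.induce B).Connected ∧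
          (∀ v ∈ B, (G.induce (B \ {v})).Preconnected) ∧
          ∀ B' : Set V, B ⊆ B' → (G.induce B').Connected →
            (∀ v ∈ B', (G.induce (B' \ {v})).Preconnected) → B' = B) →
        {v : V | γ G ({v}ᶜ : Set V) = γ G Set.univ} ⊆ B →
        (∀ u ∈ B, ∀ v ∈ B, u ≠ v → ¬ G.Adj u v →
          γ (G ⊔ SimpleGraph.edge u v) B = γ G B - 1) →
        ∀ u ∈ B, ∀ v ∈ B, u ≠ v → G.Adj u v := by
  intro V _ _ G γ hγ hconn hcrit hcut B hB hnuc hBcrit u hu v hv huv
  have h1 : ∀ (H : SimpleGraph V) (S : Set V),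
      Results.MP_ba45ff_co.NuclearBlock.domNum (H.induce S) = γ H S := by
    intro H S
    rw [hγ, domNum_induce]
  have h2 : ∀ (H : SimpleGraph V),
      Results.MP_ba45ff_co.NuclearBlock.domNum H = γ H Set.univ := by
    intro H
    rw [hγ, domNum_univ]
  have hGc : Results.MP_ba45ff_co.NuclearBlock.IsEdgeCritical G := by
    refine ⟨γ G Set.univ, h2 G, ?_⟩
    intro a b hab hnab
    rw [h2]
    exact hcrit a b hab hnab
  have hBlock : Results.MP_ba45ff_co.NuclearBlock.IsBlock G B := by
    refine ⟨⟨hB.1, hB.2.1⟩, ?_⟩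
    intro B' hB' hle
    exact (hB.2.2 B' hle hB'.1 hB'.2).le
  have hnuc' : Results.MP_ba45ff_co.NuclearBlock.nucleus G ⊆ B := by
    intro x hx
    apply hnuc
    simp only [Results.MP_ba45ff_co.NuclearBlock.nucleus, Set.mem_setOf_eq] at hx ⊢
    rw [h1, h2] at hx
    exact hx
  have hBc : Results.MP_ba45ff_co.NuclearBlock.IsEdgeCritical (G.induce B) := by
    refine ⟨γ G B, h1 G B, ?_⟩
    intro a b hab hnab
    have h3 : (G.induce B) ⊔ SimpleGraph.edge a b
        = (G ⊔ SimpleGraph.edge a.1 b.1).induce B := by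
      ext x y
      simp only [SimpleGraph.sup_adj, SimpleGraph.comap_adj, SimpleGraph.edge_adj,
        Function.Embedding.subtype_apply, Subtype.ext_iff, ne_eq]
    rw [h3, h1]
    exact hBcrit a.1 a.2 b.1 b.2 (fun h => hab (Subtype.ext h)) hnab
  have h := Results.MP_ba45ff_co.NuclearBlock.result G hconn hGc hcut B hBlock hnuc' hBc
  have h4 : (G.induce B).Adj ⟨u, hu⟩ ⟨v, hv⟩ := by
    rw [h]
    simpa using huv
  exact h4

end Pool.Agent.S11061
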