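import Pool.Statements.S11153
import Pool.Agent.W494.CD.Conv
import Pool.Agent.W494.CD.Engel3
import Pool.Agent.W494.CD.Small
-- import your own Pool.Agent.* helpers here

set_option autoImplicit false
open Pool Pool.MP_be80fa_co

namespace Pool.Agent.S11153

/-- For every r ≥ 3 and d in [0,1), some (possibly infinite) family of r-graphs has codegree density exactly d: the max min-codegree of family-free n-vertex r-graphs, divided by n−r+1, tends to d. -/
theorem result :
    ∀ r : ℕ, 3 ≤ r → ∀ d : ℝ, 0 ≤ d → d < 1 →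
      ∃ F : (m : ℕ) → Set (Finset (Finset (Fin m))),
        (∀ m : ℕ, ∀ H ∈ F m, ∀ e ∈ H, e.card = r) ∧
        ∀ ε : ℝ, 0 < ε → ∃ N : ℕ, ∀ n : ℕ, N ≤ n →
          (∃ G : Finset (Finset (Fin n)),
              (∀ e ∈ G, e.card = r) ∧
              (∀ m : ℕ, ∀ H ∈ F m, ∀ f : Fin m ↪ Fin n, ∃ e ∈ H, e.map f ∉ G) ∧
              ∀ S : Finset (Fin n), S.card = r - 1 →
                (d - ε) * ((n : ℝ) - (r : ℝ) + 1) ≤ ((G.filter (fun e => S ⊆ e)).card : ℝ)) ∧
          (∀ G : Finset (Finset (Fin n)),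
              (∀ e ∈ G, e.card = r) →
              (∀ m : ℕ, ∀ H ∈ F m, ∀ f : Fin m ↪ Fin n, ∃ e ∈ H, e.map f ∉ G) →
              ∃ S : Finset (Fin n), S.card = r - 1 ∧
                ((G.filter (fun e => S ⊆ e)).card : ℝ) < (d + ε) * ((n : ℝ) - (r : ℝ) + 1)) := by
  intro r hr d hd0 hd1
  apply Pool.Agent.W494.CD.conv r hr d hd0 hd1
  refine Pool.Agent.W494.CD.all_of_small r hr 20000000000 ?_ d hd0 hd1
  intro d hd hd'
  obtain ⟨y, D, hD⟩ := Pool.Agent.W494.CD.exists_dat d hd (by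
    rw [le_div_iff₀ (by norm_num)]
    push_cast at hd'
    nlinarith)
  rw [hD]
  exact Pool.Agent.W494.CD.hasDens_small D r hr

end Pool.Agent.S11153
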