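import Pool.Statements.S11204
import Pool.Agent.Helper291.BentMain

set_option autoImplicit false
open Pool Pool.MP_c08ec8_co

namespace Pool.Agent.S11204

/-- The negation of the preceding statement: For every even n ≥ 2, the number of bent Boolean functions on n variables (all Walsh coefficients squared equal 2^n) lies between 2^(2^(n-2) + C(n,n/2)/4) and 2^(2^(n-1) + C(n,n/2)/2). -/
theorem result :
    ¬ (∀ n : ℕ, 2 ≤ n → Even n →
      (2 : ℝ) ^ ((2 : ℝ) ^ ((n : ℝ) - 2) + ((n.choose (n / 2) : ℕ) : ℝ) / 4)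
          ≤ (({f : (Fin n → ZMod 2) → ZMod 2 |
                ∀ a : Fin n → ZMod 2,
                  (∑ x : Fin n → ZMod 2,
                      (-1 : ℤ) ^ ((f x + ∑ i, a i * x i).val)) ^ 2 = (2 : ℤ) ^ n}.ncard : ℕ) : ℝ)
        ∧ (({f : (Fin n → ZMod 2) → ZMod 2 |
                ∀ a : Fin n → ZMod 2,
                  (∑ x : Fin n → ZMod 2,
                      (-1 : ℤ) ^ ((f x + ∑ i, a i * x i).val)) ^ 2 = (2 : ℤ) ^ n}.ncard : ℕ) : ℝ)
          ≤ (2 : ℝ) ^ ((2 : ℝ) ^ ((n : ℝ) - 1) + ((n.choose (n / 2) : ℕ) : ℝ) / 2)) := by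
  intro hall
  obtain ⟨C0, hC0⟩ := Pool.Agent.Helper291.Bent.bent_small
  set m : ℕ := C0 + 3 with hm
  have h1 := hC0 m (by omega) (by omega)
  have h2 := (hall (2 * m) (by omega) ⟨m, by ring⟩).1
  have h3 : {f : (Fin (2 * m) → ZMod 2) → ZMod 2 |
                ∀ a : Fin (2 * m) → ZMod 2,
                  (∑ x : Fin (2 * m) → ZMod 2,
                      (-1 : ℤ) ^ ((f x + ∑ i, a i * x i).val)) ^ 2 = (2 : ℤ) ^ (2 * m)}.ncard
        = Nat.card {g : (Fin (2 * m) → ZMod 2) → ZMod 2 // Pool.Agent.Helper291.Bent.IsBent m g} := by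
    rw [← Nat.card_coe_set_eq]
    rfl
  rw [h3] at h2
  have h4 : ((Nat.card {g : (Fin (2 * m) → ZMod 2) → ZMod 2 //
      Pool.Agent.Helper291.Bent.IsBent m g} : ℕ) : ℝ) ≤ 2 * 2 ^ (13 * 2 ^ (2 * m - 6)) := by
    exact_mod_cast h1
  set k : ℕ := 2 ^ (2 * m - 6) with hk
  have hkpos : 1 ≤ k := Nat.one_le_two_pow
  have h5 : (2 : ℝ) ^ (((2 * m : ℕ) : ℝ) - 2) = 16 * (k : ℝ) := by
    have e1 : (((2 * m : ℕ) : ℝ) - 2) = (((2 * m - 6 : ℕ) : ℝ) + 4) := by
      rw [Nat.cast_sub (by omega)]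
      push_cast
      ring
    rw [e1, Real.rpow_add (by norm_num), Real.rpow_natCast, hk]
    push_cast
    norm_num
    ring
  rw [h5] at h2
  have h6 : (2 : ℝ) * 2 ^ (13 * k) = (2 : ℝ) ^ ((13 * k + 1 : ℕ) : ℝ) := by
    rw [Real.rpow_natCast, pow_succ]
    ring
  rw [h6] at h4
  have h7 := h2.trans h4
  have h8 := (Real.rpow_le_rpow_left_iff (by norm_num : (1 : ℝ) < 2)).mp h7
  have h9 : (0 : ℝ) ≤ (((2 * m).choose (2 * m / 2) : ℕ) : ℝ) / 4 := by positivity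
  have h10 : (1 : ℝ) ≤ k := by exact_mod_cast hkpos
  push_cast at h8
  linarith

end Pool.Agent.S11204
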