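import Pool.Statements.S11230
import Pool.Agent.W127.OddSign

set_option autoImplicit false
open Pool Pool.MP_c16527_co

namespace Pool.Agent.S11230

open Pool.Agent.W127.OddSign

theorem no_theta : ¬ ∃ (P : Fin 3 → ℕ → Fin 10) (l : Fin 3 → ℕ),
          (∀ i, 2 ≤ l i) ∧
          (∀ i j, P i 0 = P j 0 ∧ P i (l i) = P j (l j)) ∧
          (∀ i s t, s ≤ l i → t ≤ l i → P i s = P i t → s = t) ∧
          (∀ i s t, s ≤ l i → t ≤ l i →
            (G.Adj (P i s) (P i t) ↔ (s + 1 = t ∨ t + 1 = s))) ∧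
          (∀ i j s t, i ≠ j → 0 < s → s < l i → 0 < t → t < l j →
            P i s ≠ P j t ∧ ¬ G.Adj (P i s) (P j t)) := by
  classical
  rintro ⟨P, l, hl, hend, hinj, hadj, hint⟩
  obtain ⟨s, hs⟩ : ∃ s : Fin 10 → Bool, ∀ v, s v = true ↔ ∃ j r, r ≤ l j ∧ P j r = v :=
    ⟨fun v => decide (∃ j r, r ≤ l j ∧ P j r = v), fun v => by simp⟩
  -- interior vertices
  have hin : ∀ i t, 0 < t → t < l i → nb s (P i t) = {P i (t - 1), P i (t + 1)} := by
    intro i t h0 h1
    ext u
    rw [mem_nb, Finset.mem_insert, Finset.mem_singleton, hs, ← adj_iff]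
    constructor
    · rintro ⟨h, j, r, hr, rfl⟩
      have key : ∃ r' ≤ l i, P j r = P i r' := by
        by_cases hij : i = j
        · subst hij; exact ⟨r, hr, rfl⟩
        · rcases Nat.eq_zero_or_pos r with h2 | h2
          · subst h2; exact ⟨0, Nat.zero_le _, (hend j i).1⟩
          · rcases Nat.lt_or_ge r (l j) with h3 | h3
            · exact absurd h (hint i j t r hij h0 h1 h2 h3).2
            · have : r = l j := le_antisymm hr h3
              subst this
              exact ⟨l i, le_rfl, (hend j i).2⟩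
      obtain ⟨r', hr', he⟩ := key
      rw [he] at h ⊢
      rcases (hadj i t r' h1.le hr').1 h with h4 | h4
      · right; rw [h4]
      · left; rw [← h4]; rfl
    · rintro (rfl | rfl)
      · exact ⟨(hadj i t (t - 1) h1.le (by omega)).2 (Or.inr (by omega)), i, t - 1, by omega, rfl⟩
      · exact ⟨(hadj i t (t + 1) h1.le (by omega)).2 (Or.inl rfl), i, t + 1, by omega, rfl⟩
  have hcin : ∀ i t, 0 < t → t < l i → (nb s (P i t)).card = 2 := by
    intro i t h0 h1
    rw [hin i t h0 h1, Finset.card_pair]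
    intro h
    have := hinj i (t - 1) (t + 1) (by omega) (by omega) h
    omega
  have ha : nb s (P 0 0) = Finset.univ.image (fun j => P j 1) := by
    ext u
    rw [mem_nb, Finset.mem_image, hs, ← adj_iff]
    constructor
    · rintro ⟨h, j, r, hr, rfl⟩
      rw [(hend 0 j).1] at h
      have h2 := (hadj j 0 r (Nat.zero_le _) hr).1 h
      exact ⟨j, Finset.mem_univ _, by rcases h2 with h2 | h2 <;> [rw [← h2]; omega]⟩
    · rintro ⟨j, -, rfl⟩
      have := hl j
      rw [(hend 0 j).1]
      exact ⟨(hadj j 0 1 (Nat.zero_le _) (by omega)).2 (Or.inl rfl), j, 1, by omega, rfl⟩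
  have hca : (nb s (P 0 0)).card = 3 := by
    rw [ha, Finset.card_image_of_injective]
    · simp
    · intro i j h
      by_contra hij
      have h1 := hl i
      have h2 := hl j
      exact (hint i j 1 1 hij one_pos (by omega) one_pos (by omega)).1 h
  have hb : nb s (P 0 (l 0)) = Finset.univ.image (fun j => P j (l j - 1)) := by
    ext u
    rw [mem_nb, Finset.mem_image, hs, ← adj_iff]
    constructor
    · rintro ⟨h, j, r, hr, rfl⟩
      rw [(hend 0 j).2] at h
      have h2 := (hadj j (l j) r le_rfl hr).1 h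
      refine ⟨j, Finset.mem_univ _, ?_⟩
      rcases h2 with h2 | h2
      · omega
      · show P j (l j - 1) = P j r
        rw [← h2]; rfl
    · rintro ⟨j, -, rfl⟩
      have := hl j
      rw [(hend 0 j).2]
      exact ⟨(hadj j (l j) (l j - 1) le_rfl (by omega)).2 (Or.inr (by omega)), j, l j - 1,
        by omega, rfl⟩
  have hcb : (nb s (P 0 (l 0))).card = 3 := by
    rw [hb, Finset.card_image_of_injective]
    · simp
    · intro i j h
      by_contra hij
      have h1 := hl i
      have h2 := hl j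
      exact (hint i j (l i - 1) (l j - 1) hij (by omega) (by omega) (by omega) (by omega)).1 h
  have hcase : ∀ v, s v = true → v = P 0 0 ∨ v = P 0 (l 0) ∨ (nb s v).card = 2 := by
    intro v hv
    obtain ⟨j, r, hr, rfl⟩ := (hs v).1 hv
    rcases Nat.eq_zero_or_pos r with h2 | h2
    · subst h2; exact Or.inl (hend j 0).1
    · rcases Nat.lt_or_ge r (l j) with h3 | h3
      · exact Or.inr (Or.inr (hcin j r h2 h3))
      · have : r = l j := le_antisymm hr h3
        subst this
        exact Or.inr (Or.inl (hend j 0).2)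
  have hl0 := hl 0
  refine (noBad s).1 ⟨?_, P 0 0, P 0 (l 0), (hs _).2 ⟨0, 0, Nat.zero_le _, rfl⟩,
    (hs _).2 ⟨0, l 0, le_rfl, rfl⟩, ?_, ?_, hca, hcb, hcase⟩
  · intro v hv
    rcases hcase v hv with h | h | h
    · right; rw [h]; exact hca
    · right; rw [h]; exact hcb
    · left; exact h
  · by_contra h
    rw [Bool.not_eq_false, ← adj_iff] at h
    have := (hadj 0 0 (l 0) (Nat.zero_le _) le_rfl).1 h
    omega
  · intro h
    have := hinj 0 0 (l 0) (Nat.zero_le _) le_rfl h
    omega

theorem no_prism : ¬ ∃ (P : Fin 3 → ℕ → Fin 10) (l : Fin 3 → ℕ),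
          (∀ i, 1 ≤ l i) ∧
          (∀ i j s t, s ≤ l i → t ≤ l j → P i s = P j t → (i = j ∧ s = t)) ∧
          (∀ i j s t, s ≤ l i → t ≤ l j →
            (G.Adj (P i s) (P j t) ↔
              ((i = j ∧ (s + 1 = t ∨ t + 1 = s)) ∨
               (i ≠ j ∧ ((s = 0 ∧ t = 0) ∨ (s = l i ∧ t = l j)))))) := by
  classical
  rintro ⟨P, l, hl, hinj, hadj⟩
  obtain ⟨s, hs⟩ : ∃ s : Fin 10 → Bool, ∀ v, s v = true ↔ ∃ j r, r ≤ l j ∧ P j r = v :=
    ⟨fun v => decide (∃ j r, r ≤ l j ∧ P j r = v), fun v => by simp⟩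
  have hsP : ∀ i t, t ≤ l i → s (P i t) = true := fun i t h => (hs _).2 ⟨i, t, h, rfl⟩
  have hfin : ∀ i j : Fin 3, i ≠ j → j = i + 1 ∨ j = i + 2 := by decide
  have hfin1 : ∀ i : Fin 3, i ≠ i + 1 := by decide
  have hfin2 : ∀ i : Fin 3, i ≠ i + 2 := by decide
  have hfin3 : ∀ i : Fin 3, i + 1 ≠ i + 2 := by decide
  have hcin : ∀ i t, 0 < t → t < l i → (nb s (P i t)).card = 2 := by
    intro i t h0 h1
    have : nb s (P i t) = {P i (t - 1), P i (t + 1)} := by
      ext u
      rw [mem_nb, Finset.mem_insert, Finset.mem_singleton, hs, ← adj_iff]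
      constructor
      · rintro ⟨h, j, r, hr, rfl⟩
        rcases (hadj i j t r h1.le hr).1 h with ⟨rfl, h4 | h4⟩ | ⟨_, h4 | h4⟩
        · right; rw [h4]
        · left; rw [← h4]; rfl
        · omega
        · omega
      · rintro (rfl | rfl)
        · exact ⟨(hadj i i t (t - 1) h1.le (by omega)).2 (Or.inl ⟨rfl, Or.inr (by omega)⟩), i,
            t - 1, by omega, rfl⟩
        · exact ⟨(hadj i i t (t + 1) h1.le (by omega)).2 (Or.inl ⟨rfl, Or.inl rfl⟩), i, t + 1,
            by omega, rfl⟩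
    rw [this, Finset.card_pair]
    intro h
    have := (hinj i i (t - 1) (t + 1) (by omega) (by omega) h).2
    omega
  have hca : ∀ i, (nb s (P i 0)).card = 3 := by
    intro i
    have : nb s (P i 0) = {P i 1, P (i + 1) 0, P (i + 2) 0} := by
      ext u
      rw [mem_nb, Finset.mem_insert, Finset.mem_insert, Finset.mem_singleton, hs, ← adj_iff]
      constructor
      · rintro ⟨h, j, r, hr, rfl⟩
        rcases (hadj i j 0 r (Nat.zero_le _) hr).1 h with ⟨rfl, h4 | h4⟩ | ⟨hij, h4 | h4⟩
        · left; rw [← h4]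
        · omega
        · right
          rcases hfin i j hij with rfl | rfl
          · left; rw [h4.2]
          · right; rw [h4.2]
        · have := hl i; omega
      · have h5 := hl i
        rintro (rfl | rfl | rfl)
        · exact ⟨(hadj i i 0 1 (Nat.zero_le _) h5).2 (Or.inl ⟨rfl, Or.inl rfl⟩), i, 1, h5, rfl⟩
        · exact ⟨(hadj i (i + 1) 0 0 (Nat.zero_le _) (Nat.zero_le _)).2
            (Or.inr ⟨hfin1 i, Or.inl ⟨rfl, rfl⟩⟩), i + 1, 0, Nat.zero_le _, rfl⟩
        · exact ⟨(hadj i (i + 2) 0 0 (Nat.zero_le _) (Nat.zero_le _)).2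
            (Or.inr ⟨hfin2 i, Or.inl ⟨rfl, rfl⟩⟩), i + 2, 0, Nat.zero_le _, rfl⟩
    rw [this, Finset.card_eq_three]
    refine ⟨_, _, _, ?_, ?_, ?_, rfl⟩
    · intro h; exact hfin1 i (hinj _ _ _ _ (hl i) (Nat.zero_le _) h).1
    · intro h; exact hfin2 i (hinj _ _ _ _ (hl i) (Nat.zero_le _) h).1
    · intro h; exact hfin3 i (hinj _ _ _ _ (Nat.zero_le _) (Nat.zero_le _) h).1
  have hcb : ∀ i, (nb s (P i (l i))).card = 3 := by
    intro i
    have : nb s (P i (l i)) = {P i (l i - 1), P (i + 1) (l (i + 1)), P (i + 2) (l (i + 2))} := by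
      ext u
      rw [mem_nb, Finset.mem_insert, Finset.mem_insert, Finset.mem_singleton, hs, ← adj_iff]
      have h5 := hl i
      constructor
      · rintro ⟨h, j, r, hr, rfl⟩
        rcases (hadj i j (l i) r le_rfl hr).1 h with ⟨rfl, h4 | h4⟩ | ⟨hij, h4 | h4⟩
        · omega
        · left; rw [← h4]; rfl
        · omega
        · right
          rcases hfin i j hij with rfl | rfl
          · left; rw [h4.2]
          · right; rw [h4.2]
      · rintro (rfl | rfl | rfl)
        · exact ⟨(hadj i i (l i) (l i - 1) le_rfl (by omega)).2 (Or.inl ⟨rfl, Or.inr (by omega)⟩),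
            i, l i - 1, by omega, rfl⟩
        · exact ⟨(hadj i (i + 1) (l i) (l (i + 1)) le_rfl le_rfl).2
            (Or.inr ⟨hfin1 i, Or.inr ⟨rfl, rfl⟩⟩), i + 1, _, le_rfl, rfl⟩
        · exact ⟨(hadj i (i + 2) (l i) (l (i + 2)) le_rfl le_rfl).2
            (Or.inr ⟨hfin2 i, Or.inr ⟨rfl, rfl⟩⟩), i + 2, _, le_rfl, rfl⟩
    rw [this, Finset.card_eq_three]
    refine ⟨_, _, _, ?_, ?_, ?_, rfl⟩
    · intro h; exact hfin1 i (hinj _ _ _ _ (by omega) le_rfl h).1
    · intro h; exact hfin2 i (hinj _ _ _ _ (by omega) le_rfl h).1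
    · intro h; exact hfin3 i (hinj _ _ _ _ le_rfl le_rfl h).1
  refine (noBad s).2.1 ⟨?_, ⟨P 0 0, hsP 0 0 (Nat.zero_le _), hca 0⟩, ?_⟩
  · intro v hv
    obtain ⟨j, r, hr, rfl⟩ := (hs v).1 hv
    rcases Nat.eq_zero_or_pos r with h2 | h2
    · subst h2; exact Or.inr (hca j)
    · rcases Nat.lt_or_ge r (l j) with h3 | h3
      · exact Or.inl (hcin j r h2 h3)
      · have : r = l j := le_antisymm hr h3
        subst this
        exact Or.inr (hcb j)
  · intro v hv h3
    obtain ⟨j, r, hr, rfl⟩ := (hs v).1 hv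
    have hlj := hl j
    rcases Nat.eq_zero_or_pos r with h2 | h2
    · subst h2
      refine ⟨P (j + 1) 0, P (j + 2) 0,
        (hadj j (j + 1) 0 0 (Nat.zero_le _) (Nat.zero_le _)).2
            (Or.inr ⟨hfin1 j, Or.inl ⟨rfl, rfl⟩⟩),
        (hadj j (j + 2) 0 0 (Nat.zero_le _) (Nat.zero_le _)).2
            (Or.inr ⟨hfin2 j, Or.inl ⟨rfl, rfl⟩⟩),
        hsP _ _ (Nat.zero_le _), hsP _ _ (Nat.zero_le _),
        (hadj (j + 1) (j + 2) 0 0 (Nat.zero_le _) (Nat.zero_le _)).2
            (Or.inr ⟨hfin3 j, Or.inl ⟨rfl, rfl⟩⟩), hca _, hca _, ?_⟩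
      intro x hx hsx
      obtain ⟨k, t, ht, rfl⟩ := (hs x).1 hsx
      rcases (hadj j k 0 t (Nat.zero_le _) ht).1 hx with ⟨rfl, h4 | h4⟩ | ⟨hij, h4 | h4⟩
      · right; right
        subst h4
        constructor
        · by_contra hc
          rw [Bool.not_eq_false, ← adj_iff] at hc
          rcases (hadj _ _ _ _ ht (Nat.zero_le _)).1 hc with ⟨h6, _⟩ | ⟨_, h6 | h6⟩
          · exact hfin1 j h6
          · omega
          · have := hl (j + 1); omega
        · by_contra hc
          rw [Bool.not_eq_false, ← adj_iff] at hc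
          rcases (hadj _ _ _ _ ht (Nat.zero_le _)).1 hc with ⟨h6, _⟩ | ⟨_, h6 | h6⟩
          · exact hfin2 j h6
          · omega
          · have := hl (j + 2); omega
      · omega
      · rw [h4.2]
        rcases hfin j k hij with rfl | rfl
        · left; rfl
        · right; left; rfl
      · omega
    · rcases Nat.lt_or_ge r (l j) with h5 | h5
      · have := hcin j r h2 h5; omega
      · have : r = l j := le_antisymm hr h5
        subst this
        refine ⟨P (j + 1) (l (j + 1)), P (j + 2) (l (j + 2)),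
          (hadj j (j + 1) _ _ le_rfl le_rfl).2 (Or.inr ⟨hfin1 j, Or.inr ⟨rfl, rfl⟩⟩),
          (hadj j (j + 2) _ _ le_rfl le_rfl).2 (Or.inr ⟨hfin2 j, Or.inr ⟨rfl, rfl⟩⟩),
          hsP _ _ le_rfl, hsP _ _ le_rfl,
          (hadj (j + 1) (j + 2) _ _ le_rfl le_rfl).2
              (Or.inr ⟨hfin3 j, Or.inr ⟨rfl, rfl⟩⟩), hcb _, hcb _, ?_⟩
        intro x hx hsx
        obtain ⟨k, t, ht, rfl⟩ := (hs x).1 hsx
        rcases (hadj j k (l j) t le_rfl ht).1 hx with ⟨rfl, h4 | h4⟩ | ⟨hij, h4 | h4⟩
        · omega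
        · right; right
          constructor
          · by_contra hc
            rw [Bool.not_eq_false, ← adj_iff] at hc
            rcases (hadj _ _ _ _ ht le_rfl).1 hc with ⟨h6, _⟩ | ⟨_, h6 | h6⟩
            · exact hfin1 j h6
            · have := hl (j + 1); omega
            · omega
          · by_contra hc
            rw [Bool.not_eq_false, ← adj_iff] at hc
            rcases (hadj _ _ _ _ ht le_rfl).1 hc with ⟨h6, _⟩ | ⟨_, h6 | h6⟩
            · exact hfin2 j h6
            · have := hl (j + 2); omega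
            · omega
        · omega
        · rw [h4.2]
          rcases hfin j k hij with rfl | rfl
          · left; rfl
          · right; left; rfl

theorem no_wheel : ¬ ∃ (m : ℕ) (f : Fin m → Fin 10) (c : Fin 10),
          4 ≤ m ∧ Function.Injective f ∧
          (∀ i j : Fin m, G.Adj (f i) (f j) ↔
            (((i : ℕ) + 1) % m = (j : ℕ) ∨ ((j : ℕ) + 1) % m = (i : ℕ))) ∧
          (∀ i, f i ≠ c) ∧
          3 ≤ Nat.card {i : Fin m // G.Adj c (f i)} ∧
          Even (Nat.card {i : Fin m // G.Adj c (f i)}) := by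
  classical
  rintro ⟨m, f, c, hm, hinj, hadj, hc, h3, heven⟩
  obtain ⟨s, hs⟩ : ∃ s : Fin 10 → Bool, ∀ v, s v = true ↔ ∃ i, f i = v :=
    ⟨fun v => decide (∃ i, f i = v), fun v => by simp⟩
  have hcard : Nat.card {i : Fin m // G.Adj c (f i)} = (nb s c).card := by
    have : nb s c = (Finset.univ.filter (fun i : Fin m => G.Adj c (f i))).image f := by
      ext u
      rw [mem_nb, Finset.mem_image, hs, ← adj_iff]
      constructor
      · rintro ⟨h, i, rfl⟩
        exact ⟨i, by simpa using h, rfl⟩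
      · rintro ⟨i, hi, rfl⟩
        exact ⟨by simpa using hi, i, rfl⟩
    rw [this, Finset.card_image_of_injective _ hinj, Nat.card_eq_fintype_card,
      Fintype.card_subtype]
  rw [hcard] at h3 heven
  refine (noBad s).2.2 ⟨?_, c, ?_, h3, Nat.even_iff.1 heven⟩
  · intro v hv
    obtain ⟨i, rfl⟩ := (hs v).1 hv
    have hi := i.isLt
    -- successor and predecessor
    obtain ⟨a, ha⟩ : ∃ a : Fin m, (a : ℕ) = if (i : ℕ) + 1 = m then 0 else (i : ℕ) + 1 :=
      ⟨⟨if (i : ℕ) + 1 = m then 0 else (i : ℕ) + 1, by split_ifs <;> omega⟩, rfl⟩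
    obtain ⟨b, hb⟩ : ∃ b : Fin m, (b : ℕ) = if (i : ℕ) = 0 then m - 1 else (i : ℕ) - 1 :=
      ⟨⟨if (i : ℕ) = 0 then m - 1 else (i : ℕ) - 1, by split_ifs <;> omega⟩, rfl⟩
    have hsucc : ∀ x : Fin m, ((x : ℕ) + 1) % m = if (x : ℕ) + 1 = m then 0 else (x : ℕ) + 1 := by
      intro x
      have hx := x.isLt
      split_ifs with h
      · rw [h, Nat.mod_self]
      · exact Nat.mod_eq_of_lt (by omega)
    have : nb s (f i) = {f a, f b} := by
      ext u
      rw [mem_nb, Finset.mem_insert, Finset.mem_singleton, hs, ← adj_iff]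
      constructor
      · rintro ⟨h, j, rfl⟩
        have hj := j.isLt
        rcases (hadj i j).1 h with h4 | h4
        · left
          rw [hsucc] at h4
          have : j = a := Fin.ext (by rw [ha]; exact h4.symm)
          rw [this]
        · right
          rw [hsucc] at h4
          have : j = b := Fin.ext (by
            rw [hb]; split_ifs at h4 ⊢ <;> omega)
          rw [this]
      · rintro (rfl | rfl)
        · refine ⟨(hadj i a).2 (Or.inl ?_), a, rfl⟩
          rw [hsucc, ha]
        · refine ⟨(hadj i b).2 (Or.inr ?_), b, rfl⟩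
          rw [hsucc, hb]
          split_ifs <;> omega
    rw [this, Finset.card_pair]
    intro h
    have h5 := congrArg Fin.val (hinj h)
    rw [ha, hb] at h5
    split_ifs at h5 <;> omega
  · by_contra h
    rw [Bool.not_eq_false] at h
    obtain ⟨i, hi⟩ := (hs c).1 h
    exact hc i hi

/-- the branch sets of the `K_{3,3}` induced minor -/
def Bf : Fin 3 ⊕ Fin 3 → Finset (Fin 10)
  | .inl 0 => {0}
  | .inl 1 => {1, 2}
  | .inl 2 => {3, 4}
  | .inr 0 => {5}
  | .inr 1 => {6, 7}
  | .inr 2 => {8, 9}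

theorem conn_pair {u v : Fin 10} (h : G.Adj u v) : (G.induce ({u, v} : Set (Fin 10))).Connected :=
  SimpleGraph.induce_pair_connected_of_adj h

theorem conn_single (u : Fin 10) : (G.induce ({u} : Set (Fin 10))).Connected := by
  have : Subsingleton ({u} : Set (Fin 10)) := ⟨fun a b => Subtype.ext (a.2.trans b.2.symm)⟩
  have : Nonempty ({u} : Set (Fin 10)) := ⟨⟨u, rfl⟩⟩
  exact ⟨SimpleGraph.Preconnected.of_subsingleton⟩

theorem result_aux : ∃ B : Fin 3 ⊕ Fin 3 → Set (Fin 10),
          (∀ x, (G.induce (B x)).Connected) ∧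
          (∀ x y, x ≠ y → Disjoint (B x) (B y)) ∧
          (∀ x y, x ≠ y →
            ((∃ u ∈ B x, ∃ v ∈ B y, G.Adj u v) ↔
              (completeBipartiteGraph (Fin 3) (Fin 3)).Adj x y)) := by
  refine ⟨fun x => (Bf x : Set (Fin 10)), ?_, ?_, ?_⟩
  · intro x
    rcases x with x | x <;> fin_cases x
    · have := conn_single 0
      convert this using 2 <;> simp [Bf]
    · have := conn_pair (u := 1) (v := 2) ((adj_iff 1 2).2 (by decide +kernel))
      convert this using 2 <;> simp [Bf]
    · have := conn_pair (u := 3) (v := 4) ((adj_iff 3 4).2 (by decide +kernel))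
      convert this using 2 <;> simp [Bf]
    · have := conn_single 5
      convert this using 2 <;> simp [Bf]
    · have := conn_pair (u := 6) (v := 7) ((adj_iff 6 7).2 (by decide +kernel))
      convert this using 2 <;> simp [Bf]
    · have := conn_pair (u := 8) (v := 9) ((adj_iff 8 9).2 (by decide +kernel))
      convert this using 2 <;> simp [Bf]
  · intro x y hxy
    rw [Finset.disjoint_coe]
    revert x y
    decide +kernel
  · have key : ∀ x y, x ≠ y → ((∃ u ∈ Bf x, ∃ v ∈ Bf y, A u v = true) ↔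
        (x.isLeft = true ∧ y.isRight = true ∨ x.isRight = true ∧ y.isLeft = true)) := by
      decide +kernel
    intro x y hxy
    have h1 := key x y hxy
    simp only [Finset.mem_coe, adj_iff]
    exact h1

/-- The negation of the preceding statement: Every finite graph with no induced theta, no induced prism and no induced wheel whose centre has an even number (at least 3) of rim neighbours does not contain K_{3,3} as an induced minor. -/
theorem result :
    ¬ (∀ (V : Type) [Fintype V] (G : SimpleGraph V),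
      (¬ ∃ (P : Fin 3 → ℕ → V) (l : Fin 3 → ℕ),
          (∀ i, 2 ≤ l i) ∧
          (∀ i j, P i 0 = P j 0 ∧ P i (l i) = P j (l j)) ∧
          (∀ i s t, s ≤ l i → t ≤ l i → P i s = P i t → s = t) ∧
          (∀ i s t, s ≤ l i → t ≤ l i →
            (G.Adj (P i s) (P i t) ↔ (s + 1 = t ∨ t + 1 = s))) ∧
          (∀ i j s t, i ≠ j → 0 < s → s < l i → 0 < t → t < l j →
            P i s ≠ P j t ∧ ¬ G.Adj (P i s) (P j t))) →
      (¬ ∃ (P : Fin 3 → ℕ → V) (l : Fin 3 → ℕ),
          (∀ i, 1 ≤ l i) ∧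
          (∀ i j s t, s ≤ l i → t ≤ l j → P i s = P j t → (i = j ∧ s = t)) ∧
          (∀ i j s t, s ≤ l i → t ≤ l j →
            (G.Adj (P i s) (P j t) ↔
              ((i = j ∧ (s + 1 = t ∨ t + 1 = s)) ∨
               (i ≠ j ∧ ((s = 0 ∧ t = 0) ∨ (s = l i ∧ t = l j))))))) →
      (¬ ∃ (m : ℕ) (f : Fin m → V) (c : V),
          4 ≤ m ∧ Function.Injective f ∧
          (∀ i j : Fin m, G.Adj (f i) (f j) ↔
            (((i : ℕ) + 1) % m = (j : ℕ) ∨ ((j : ℕ) + 1) % m = (i : ℕ))) ∧
          (∀ i, f i ≠ c) ∧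
          3 ≤ Nat.card {i : Fin m // G.Adj c (f i)} ∧
          Even (Nat.card {i : Fin m // G.Adj c (f i)})) →
      ¬ ∃ B : Fin 3 ⊕ Fin 3 → Set V,
          (∀ x, (G.induce (B x)).Connected) ∧
          (∀ x y, x ≠ y → Disjoint (B x) (B y)) ∧
          (∀ x y, x ≠ y →
            ((∃ u ∈ B x, ∃ v ∈ B y, G.Adj u v) ↔
              (completeBipartiteGraph (Fin 3) (Fin 3)).Adj x y))) := by
  intro h
  exact h (Fin 10) G no_theta no_prism no_wheel result_aux

end Pool.Agent.S11230
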