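import Pool.Statements.S11238

set_option autoImplicit false
open Pool Pool.MP_c1e4cd_co

namespace Pool.Agent.S11238

open Finset

/-- Number of permutations with one prescribed value. -/
theorem card_one {n : ℕ} (hn : 1 ≤ n) (i a : Fin n) :
    ((univ.filter (fun σ : Equiv.Perm (Fin n) => σ i = a)).card) = (n - 1).factorial := by
  classical
  have heq : ∀ b : Fin n, (univ.filter (fun σ : Equiv.Perm (Fin n) => σ i = b)).card
      = (univ.filter (fun σ : Equiv.Perm (Fin n) => σ i = a)).card := by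
    intro b
    refine Finset.card_bij' (fun σ _ => Equiv.swap a b * σ) (fun σ _ => Equiv.swap a b * σ)
      ?_ ?_ ?_ ?_
    · intro σ hσ
      simp only [mem_filter, mem_univ, true_and, Equiv.Perm.coe_mul, Function.comp_apply] at hσ ⊢
      rw [hσ, Equiv.swap_apply_right]
    · intro σ hσ
      simp only [mem_filter, mem_univ, true_and, Equiv.Perm.coe_mul, Function.comp_apply] at hσ ⊢
      rw [hσ, Equiv.swap_apply_left]
    · intro σ _
      simp [← mul_assoc]
    · intro σ _
      simp [← mul_assoc]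
  have hsum : (univ : Finset (Equiv.Perm (Fin n))).card
      = ∑ b : Fin n, (univ.filter (fun σ : Equiv.Perm (Fin n) => σ i = b)).card :=
    Finset.card_eq_sum_card_fiberwise (fun σ _ => mem_univ _)
  rw [Finset.sum_congr rfl (fun b _ => heq b), Finset.sum_const, Finset.card_univ,
    Finset.card_univ, Fintype.card_perm, Fintype.card_fin, smul_eq_mul] at hsum
  have h1 : n.factorial = n * (n - 1).factorial := (Nat.mul_factorial_pred (by omega)).symm
  rw [h1] at hsum
  exact (Nat.eq_of_mul_eq_mul_left (by omega) hsum).symm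

/-- Number of permutations with two prescribed values. -/
theorem card_two {n : ℕ} (hn : 2 ≤ n) (i j a b : Fin n) (hij : i ≠ j) (hab : a ≠ b) :
    ((univ.filter (fun σ : Equiv.Perm (Fin n) => σ i = a ∧ σ j = b)).card)
      = (n - 2).factorial := by
  classical
  have heq : ∀ c : Fin n, c ≠ a → (univ.filter (fun σ : Equiv.Perm (Fin n) => σ i = a ∧ σ j = c)).card
      = (univ.filter (fun σ : Equiv.Perm (Fin n) => σ i = a ∧ σ j = b)).card := by
    intro c hc
    refine Finset.card_bij' (fun σ _ => Equiv.swap b c * σ) (fun σ _ => Equiv.swap b c * σ)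
      ?_ ?_ ?_ ?_
    · intro σ hσ
      simp only [mem_filter, mem_univ, true_and, Equiv.Perm.coe_mul, Function.comp_apply] at hσ ⊢
      rw [hσ.1, hσ.2, Equiv.swap_apply_right, Equiv.swap_apply_of_ne_of_ne hab (Ne.symm hc)]
      exact ⟨rfl, rfl⟩
    · intro σ hσ
      simp only [mem_filter, mem_univ, true_and, Equiv.Perm.coe_mul, Function.comp_apply] at hσ ⊢
      rw [hσ.1, hσ.2, Equiv.swap_apply_left, Equiv.swap_apply_of_ne_of_ne hab (Ne.symm hc)]
      exact ⟨rfl, rfl⟩
    · intro σ _
      simp [← mul_assoc]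
    · intro σ _
      simp [← mul_assoc]
  have hself : (univ.filter (fun σ : Equiv.Perm (Fin n) => σ i = a ∧ σ j = a)).card = 0 := by
    rw [Finset.card_eq_zero, Finset.filter_eq_empty_iff]
    rintro σ - ⟨h1, h2⟩
    exact hij (σ.injective (h1.trans h2.symm))
  have hsum : (univ.filter (fun σ : Equiv.Perm (Fin n) => σ i = a)).card
      = ∑ c : Fin n, ((univ.filter (fun σ : Equiv.Perm (Fin n) => σ i = a)).filter
          (fun σ => σ j = c)).card :=
    Finset.card_eq_sum_card_fiberwise (fun σ _ => mem_univ _)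
  rw [card_one (by omega)] at hsum
  simp only [Finset.filter_filter] at hsum
  rw [← Finset.add_sum_erase _ _ (mem_univ a), hself, zero_add,
    Finset.sum_congr rfl (fun c hc => heq c (Finset.ne_of_mem_erase hc)), Finset.sum_const,
    Finset.card_erase_of_mem (mem_univ a), Finset.card_univ, Fintype.card_fin, smul_eq_mul] at hsum
  have h1 : (n - 1).factorial = (n - 1) * (n - 2).factorial := by
    have := Nat.mul_factorial_pred (n := n - 1) (by omega)
    rw [← this]; rfl
  rw [h1] at hsum
  exact (Nat.eq_of_mul_eq_mul_left (by omega) hsum).symm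

/-- Permutations whose value at `i` lies in a set. -/
theorem card_set_one {n : ℕ} (hn : 1 ≤ n) (i : Fin n) (J : Finset (Fin n)) :
    ((univ.filter (fun σ : Equiv.Perm (Fin n) => σ i ∈ J)).card)
      = J.card * (n - 1).factorial := by
  classical
  have hsum : (univ.filter (fun σ : Equiv.Perm (Fin n) => σ i ∈ J)).card
      = ∑ a ∈ J, ((univ.filter (fun σ : Equiv.Perm (Fin n) => σ i ∈ J)).filter
          (fun σ => σ i = a)).card :=
    Finset.card_eq_sum_card_fiberwise (fun σ hσ => by simpa using hσ)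
  rw [hsum, Finset.sum_congr rfl (g := fun _ => (n - 1).factorial), Finset.sum_const, smul_eq_mul]
  intro a ha
  rw [← card_one hn i a]
  congr 1
  ext σ
  simp only [mem_filter, mem_univ, true_and]
  constructor
  · exact fun h => h.2
  · intro h; exact ⟨h ▸ ha, h⟩

/-- Permutations whose values at `i` and `j` lie in two disjoint sets. -/
theorem card_set_two {n : ℕ} (hn : 2 ≤ n) (i j : Fin n) (hij : i ≠ j) (J K : Finset (Fin n))
    (hJK : Disjoint J K) :
    ((univ.filter (fun σ : Equiv.Perm (Fin n) => σ i ∈ J ∧ σ j ∈ K)).card)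
      = J.card * K.card * (n - 2).factorial := by
  classical
  have hsum : (univ.filter (fun σ : Equiv.Perm (Fin n) => σ i ∈ J ∧ σ j ∈ K)).card
      = ∑ p ∈ J ×ˢ K, ((univ.filter (fun σ : Equiv.Perm (Fin n) => σ i ∈ J ∧ σ j ∈ K)).filter
          (fun σ => (σ i, σ j) = p)).card :=
    Finset.card_eq_sum_card_fiberwise (fun σ hσ => by
      simpa using hσ)
  rw [hsum, Finset.sum_congr rfl (g := fun _ => (n - 2).factorial), Finset.sum_const, smul_eq_mul,
    Finset.card_product]
  rintro ⟨a, b⟩ hab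
  rw [mem_product] at hab
  have hne : a ≠ b := by
    intro h
    exact (Finset.disjoint_left.mp hJK hab.1) (h ▸ hab.2)
  rw [← card_two hn i j a b hij hne]
  congr 1
  ext σ
  simp only [mem_filter, mem_univ, true_and, Prod.mk.injEq]
  constructor
  · exact fun h => h.2
  · rintro ⟨h1, h2⟩; exact ⟨⟨h1 ▸ hab.1, h2 ▸ hab.2⟩, h1, h2⟩

/-- The negation of the preceding statement: Some C₀>0 works for all n≥1: if A⊆S_n, c=∣A∣/(n-1)!, and 1_A is within mean-square εc/n of the span of 1-coset indicators, then 1_A is within C₀εc/n of a union of round(c) distinct 1-cosets, and ∣c−round(c)∣≤C₀ε. -/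
theorem result :
    ¬ (∃ C₀ : ℝ, 0 < C₀ ∧ ∀ n : ℕ, 1 ≤ n → ∀ A : Finset (Equiv.Perm (Fin n)), ∀ ε : ℝ, 0 ≤ ε →
    (∃ a : Fin n → Fin n → ℝ,
      (1 / (n.factorial : ℝ)) * ∑ σ : Equiv.Perm (Fin n),
          ((if σ ∈ A then (1:ℝ) else 0) - ∑ i : Fin n, a i (σ i)) ^ 2
        ≤ ε * ((A.card : ℝ) / ((n - 1).factorial : ℝ)) / n) →
    ∃ S : Finset (Fin n × Fin n),
      (S.card : ℤ) = round ((A.card : ℝ) / ((n - 1).factorial : ℝ)) ∧
      (1 / (n.factorial : ℝ)) * ∑ σ : Equiv.Perm (Fin n),
          ((if σ ∈ A then (1:ℝ) else 0) - (if ∃ p ∈ S, σ p.1 = p.2 then (1:ℝ) else 0)) ^ 2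
        ≤ C₀ * ε * ((A.card : ℝ) / ((n - 1).factorial : ℝ)) / n ∧
      |(A.card : ℝ) / ((n - 1).factorial : ℝ)
          - ((round ((A.card : ℝ) / ((n - 1).factorial : ℝ)) : ℤ) : ℝ)| ≤ C₀ * ε) := by
  classical
  rintro ⟨C₀, hC₀, H⟩
  obtain ⟨k, hk⟩ := exists_nat_gt (C₀ + 1)
  have hk1 : 1 ≤ k := by
    rcases Nat.eq_zero_or_pos k with h | h
    · subst h; push_cast at hk; linarith
    · exact h
  obtain ⟨m, hm⟩ : ∃ m : ℕ, m = 2 * k ^ 2 + 1 := ⟨_, rfl⟩
  have hkm : 2 * k ≤ m := by nlinarith
  -- n = m + 1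
  let i0 : Fin (m + 1) := ⟨0, by omega⟩
  let i1 : Fin (m + 1) := ⟨1, by omega⟩
  have hi : i0 ≠ i1 := by
    intro h; simpa [i0, i1] using congrArg Fin.val h
  let J : Finset (Fin (m + 1)) := univ.filter (fun x => x.val < k)
  let K : Finset (Fin (m + 1)) := univ.filter (fun x => k ≤ x.val ∧ x.val < 2 * k)
  have hJK : Disjoint J K := by
    rw [Finset.disjoint_left]
    intro x hx hx'
    simp only [J, K, mem_filter, mem_univ, true_and] at hx hx'
    omega
  have hJ : J.card = k := by
    have : J = (Finset.range k).attachFin (fun x hx => by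
        have := Finset.mem_range.mp hx; omega) := by
      ext x
      simp [J]
    rw [this, Finset.card_attachFin, Finset.card_range]
  have hK : K.card = k := by
    have : K = (Finset.Ico k (2 * k)).attachFin (fun x hx => by
        have := Finset.mem_Ico.mp hx; omega) := by
      ext x
      simp [K]
    rw [this, Finset.card_attachFin, Nat.card_Ico]
    omega
  let A : Finset (Equiv.Perm (Fin (m + 1))) := univ.filter (fun σ => σ i0 ∈ J ∨ σ i1 ∈ K)
  have hfac : ((m + 1 - 1).factorial : ℝ) = m * ((m - 1).factorial : ℝ) := by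
    have : (m + 1 - 1).factorial = m * (m - 1).factorial := by
      rw [Nat.add_sub_cancel]; exact (Nat.mul_factorial_pred (by omega)).symm
    exact_mod_cast this
  have hfac2 : ((m + 1).factorial : ℝ) = (m + 1) * (m * ((m - 1).factorial : ℝ)) := by
    have : (m + 1).factorial = (m + 1) * (m * (m - 1).factorial) := by
      rw [Nat.factorial_succ, Nat.mul_factorial_pred (by omega)]
    exact_mod_cast this
  have hmpos : (0 : ℝ) < m := by
    have : 0 < m := by omega
    exact_mod_cast this
  have hfpos : (0 : ℝ) < ((m - 1).factorial : ℝ) := by exact_mod_cast Nat.factorial_pos _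
  have hX := card_set_one (n := m + 1) (by omega) i0 J
  have hY := card_set_one (n := m + 1) (by omega) i1 K
  have hXY := card_set_two (n := m + 1) (by omega) i0 i1 hi J K hJK
  rw [hJ] at hX
  rw [hK] at hY
  rw [hJ, hK] at hXY
  have hmm : m + 1 - 2 = m - 1 := by omega
  rw [hmm] at hXY
  have hA : (A.card : ℝ) = 2 * k * ((m + 1 - 1).factorial : ℝ) - k ^ 2 * ((m - 1).factorial : ℝ) := by
    have h1 := Finset.card_union_add_card_inter
      (univ.filter (fun σ : Equiv.Perm (Fin (m + 1)) => σ i0 ∈ J))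
      (univ.filter (fun σ : Equiv.Perm (Fin (m + 1)) => σ i1 ∈ K))
    rw [← Finset.filter_or, ← Finset.filter_and, hX, hY, hXY] at h1
    have h2 : (A.card : ℝ) + (k * k * (m - 1).factorial : ℕ)
        = (k * (m + 1 - 1).factorial + k * (m + 1 - 1).factorial : ℕ) := by
      exact_mod_cast h1
    push_cast at h2 ⊢
    linarith
  -- the real number c
  obtain ⟨c, hc⟩ : ∃ c : ℝ, c = (A.card : ℝ) / ((m + 1 - 1).factorial : ℝ) := ⟨_, rfl⟩
  have hc' : c = 2 * k - k ^ 2 / m := by
    rw [hc, hA, hfac]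
    field_simp
  have hkr : (1 : ℝ) ≤ k := by exact_mod_cast hk1
  have hmr : (m : ℝ) = 2 * (k : ℝ) ^ 2 + 1 := by rw [hm]; push_cast; ring
  have hdpos : 0 < (k : ℝ) ^ 2 / m := by positivity
  have hdlt : (k : ℝ) ^ 2 / m < 1 / 2 := by
    rw [div_lt_div_iff₀ hmpos (by norm_num)]
    rw [hmr]; linarith
  have hcpos : 0 < c := by rw [hc']; linarith
  have hround : round c = (2 * k : ℤ) := by
    rw [round_eq_iff, Set.mem_Ico]
    push_cast
    constructor
    · rw [hc']; linarith
    · rw [hc']; linarith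
  have hmc : (0 : ℝ) < m * c := mul_pos hmpos hcpos
  have hyp := H (m + 1) (by omega) A ((k : ℝ) ^ 2 / (m * c)) (by positivity)
    ⟨fun i j => if i = i0 then (if j ∈ J then 1 else 0) else
      (if i = i1 then (if j ∈ K then 1 else 0) else 0), ?_⟩
  · obtain ⟨S, -, -, h3⟩ := hyp
    rw [← hc, hround] at h3
    push_cast at h3
    have h4 : |c - 2 * (k : ℝ)| = (k : ℝ) ^ 2 / m := by
      rw [hc', show (2 * (k : ℝ) - (k : ℝ) ^ 2 / m - 2 * k) = -((k : ℝ) ^ 2 / m) by ring, abs_neg,
        abs_of_pos hdpos]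
    rw [h4] at h3
    have h5 : C₀ * ((k : ℝ) ^ 2 / (m * c)) = ((k : ℝ) ^ 2 / m) * (C₀ / c) := by
      field_simp
    rw [h5] at h3
    have h6 : 1 ≤ C₀ / c := by
      by_contra hlt
      push Not at hlt
      have := mul_lt_mul_of_pos_left hlt hdpos
      linarith
    rw [le_div_iff₀ hcpos] at h6
    have h7 : c ≤ C₀ := by linarith
    rw [hc'] at h7
    linarith
  · have hsumeq : ∀ σ : Equiv.Perm (Fin (m + 1)),
        ((if σ ∈ A then (1 : ℝ) else 0) - ∑ i : Fin (m + 1),
          (if i = i0 then (if σ i ∈ J then (1 : ℝ) else 0) else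
            (if i = i1 then (if σ i ∈ K then 1 else 0) else 0))) ^ 2
        = if (σ i0 ∈ J ∧ σ i1 ∈ K) then (1 : ℝ) else 0 := by
      intro σ
      have hs : ∑ i : Fin (m + 1),
          (if i = i0 then (if σ i ∈ J then (1 : ℝ) else 0) else
            (if i = i1 then (if σ i ∈ K then 1 else 0) else 0))
          = (if σ i0 ∈ J then (1 : ℝ) else 0) + (if σ i1 ∈ K then (1 : ℝ) else 0) := by
        rw [Finset.sum_eq_add i0 i1 hi]
        · simp [hi.symm]
        · rintro i - ⟨h0, h1⟩
          simp [h0, h1]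
        · intro h; exact absurd (mem_univ _) h
        · intro h; exact absurd (mem_univ _) h
      rw [hs]
      have hmem : (σ ∈ A) ↔ (σ i0 ∈ J ∨ σ i1 ∈ K) := by simp [A]
      by_cases h0 : σ i0 ∈ J <;> by_cases h1 : σ i1 ∈ K <;> simp [hmem, h0, h1]
    rw [Finset.sum_congr rfl (fun σ _ => hsumeq σ), Finset.sum_boole, hXY, ← hc, hfac2]
    push_cast
    rw [show 1 / (((m : ℝ) + 1) * (m * ((m - 1).factorial : ℝ))) * (k * k * ((m - 1).factorial : ℝ))
      = (k : ℝ) ^ 2 / (m * c) * c / (m + 1) by field_simp]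

end Pool.Agent.S11238
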