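import Pool.Statements.S11244
import Pool.Agent.Results.MP_c21415_co.EveryAlpha

set_option autoImplicit false
open Pointwise
open Pool Pool.MP_c21415_co

namespace Pool.Agent.S11244

/-- The negation of the preceding statement: There is an absolute constant c such that for any group and finite A, B with ∣AB∣ < α∣A∣ and ∣AbB∣ ≤ α∣A∣ for every b in B, each h ≥ 1 admits a nonempty X ⊆ A with ∣XB^h∣ ≤ α^(ch)∣X∣. -/
theorem result :
    ¬ (∃ c : ℝ, ∀ (G : Type) [Group G] [DecidableEq G] (A B : Finset G) (α : ℝ),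
      (((A * B).card : ℝ) < α * (A.card : ℝ)) →
      (∀ b ∈ B, (((A * {b} * B).card : ℝ) ≤ α * (A.card : ℝ))) →
      ∀ h : ℕ, 1 ≤ h →
        ∃ X : Finset G, X ⊆ A ∧ X.Nonempty ∧
          (((X * B ^ h).card : ℝ) ≤ α ^ (c * (h : ℝ)) * (X.card : ℝ))) := by
  rintro ⟨c, hc⟩
  obtain ⟨G, iG, iD, hG⟩ := Pool.Agent.Results.MP_c21415_co.EveryAlpha.result
  obtain ⟨A, B, -, -, h1, h2, h₀, h3⟩ := hG 2 (by norm_num) c
  obtain ⟨X, hXA, hX, hX2⟩ := hc G A B 2 h1 h2 (max h₀ 1) (le_max_right _ _)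
  exact absurd hX2 (not_le.2 (h3 (max h₀ 1) (le_max_left _ _) X hXA hX))

end Pool.Agent.S11244
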