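import Pool.Statements.S11245
import Pool.Agent.H257R2.Tutte.Final

set_option autoImplicit false
open Pool Pool.MP_c21bd4_co

namespace Pool.Agent.S11245

open Pool.Agent.H257R2.Tutte Filter Topology

theorem middle {q vp w : ℝ} (h : vp ^ 3 - 2 * q * vp - q ^ 2 = 0) (hw : w < vp)
    (h' : w ^ 3 - 2 * q * w - q ^ 2 = 0) (hneg : vp < 0) : IsMiddleRoot q vp := by
  have h2 : w ^ 2 + w * vp + vp ^ 2 = 2 * q := by
    have h3 : (vp - w) * (w ^ 2 + w * vp + vp ^ 2 - 2 * q) = 0 := by linear_combination h - h'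
    rcases mul_eq_zero.1 h3 with h4 | h4
    · linarith
    · linarith
  refine ⟨h, ⟨w, hw, h'⟩, -(w + vp), by linarith, ?_⟩
  linear_combination h' - (2 * w + vp) * h2

variable {n N : ℕ}

/-- the simple graph of the edges in `A` -/
def gr (s t : Fin N → Fin n) (A : Finset (Fin N)) : SimpleGraph (Fin n) :=
  SimpleGraph.fromRel fun x y => ∃ e ∈ A, s e = x ∧ t e = y

theorem card_comp (s t : Fin N → Fin n) (A : Finset (Fin N)) :
    numComp (fun e => s(s e, t e)) A =
      Nat.card (SimpleGraph.fromRel fun x y => ∃ e ∈ A, s e = x ∧ t e = y).ConnectedComponent := by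
  rw [numComp_eq]
  have hkey : ∀ x y : Fin n, comp (fun e => s(s e, t e)) A x y ↔
      (SimpleGraph.fromRel fun x y => ∃ e ∈ A, s e = x ∧ t e = y).Reachable x y := by
    intro x y
    constructor
    · intro h
      refine comp_le (T := SimpleGraph.reachableSetoid _) ?_ h
      rintro a b ⟨e, he, hab⟩
      change SimpleGraph.Reachable _ a b
      by_cases hne : a = b
      · subst hne
        exact SimpleGraph.Reachable.refl _
      · apply SimpleGraph.Adj.reachable
        rw [SimpleGraph.fromRel_adj]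
        refine ⟨hne, ?_⟩
        rcases Sym2.eq_iff.1 hab with ⟨h1, h2⟩ | ⟨h1, h2⟩
        · exact Or.inl ⟨e, he, h1, h2⟩
        · exact Or.inr ⟨e, he, h1, h2⟩
    · rintro ⟨p⟩
      induction p with
      | nil => exact (comp _ A).refl _
      | cons hadj _ ih =>
        refine (comp _ A).trans ?_ ih
        rw [SimpleGraph.fromRel_adj] at hadj
        rcases hadj.2 with ⟨e, he, h1, h2⟩ | ⟨e, he, h1, h2⟩
        · exact comp_of_joined ⟨e, he, by simp [h1, h2]⟩
        · exact comp_of_joined ⟨e, he, by simp [h1, h2, Sym2.eq_swap]⟩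
  refine Nat.card_congr (Quot.congr (Equiv.refl _) ?_)
  intro a b
  exact hkey a b

theorem twoConn (s t : Fin N → Fin n) (hst : ∀ e, s e ≠ t e) (hN : 2 ≤ N)
    (hc : (SimpleGraph.fromRel fun x y => ∃ e, s e = x ∧ t e = y).Connected)
    (h2 : ∀ u : Fin n, (SimpleGraph.induce {w : Fin n | w ≠ u}
          (SimpleGraph.fromRel fun x y => ∃ e, s e = x ∧ t e = y)).Connected) :
    TwoConnected (fun e => s(s e, t e)) := by
  refine ⟨?_, ?_, ?_, by simpa using hN⟩
  · intro e
    simpa using hst e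
  · intro x y
    obtain ⟨p⟩ := hc.preconnected x y
    induction p with
    | nil => exact Relation.ReflTransGen.refl
    | cons hadj _ ih =>
      refine Relation.ReflTransGen.head ?_ ih
      rw [SimpleGraph.fromRel_adj] at hadj
      rcases hadj.2 with ⟨e, h1, h2⟩ | ⟨e, h1, h2⟩
      · exact ⟨e, by simp [h1, h2]⟩
      · exact ⟨e, by simp [h1, h2, Sym2.eq_swap]⟩
  · intro w x y hx hy
    obtain ⟨p⟩ := (h2 w).preconnected ⟨x, hx⟩ ⟨y, hy⟩
    have key : ∀ (a b : {z : Fin n | z ≠ w}), (SimpleGraph.induce {z : Fin n | z ≠ w}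
          (SimpleGraph.fromRel fun x y => ∃ e, s e = x ∧ t e = y)).Walk a b →
          Relation.ReflTransGen (fun a b => a ≠ w ∧ b ≠ w ∧ ∃ e, s(s e, t e) = s(a, b))
            a.1 b.1 := by
      intro a b p
      induction p with
      | nil => exact Relation.ReflTransGen.refl
      | @cons u v _ hadj _ ih =>
        refine Relation.ReflTransGen.head ?_ ih
        have h3 : (SimpleGraph.fromRel fun x y => ∃ e, s e = x ∧ t e = y).Adj u.1 v.1 := hadj
        rw [SimpleGraph.fromRel_adj] at h3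
        refine ⟨u.2, v.2, ?_⟩
        rcases h3.2 with ⟨e, h1, h2⟩ | ⟨e, h1, h2⟩
        · exact ⟨e, by simp [h1, h2]⟩
        · exact ⟨e, by simp [h1, h2, Sym2.eq_swap]⟩
    exact key _ _ p

/-- For each q in (0,1)∪(1,32/27) there is an increasing sequence of self-dual negative intervals, with endpoints tending to q/v⁺ and v⁺, such that every 2-connected multigraph with ≥m edges and weights in I_m has (−1)^(n+α)Z > 0. -/
theorem result :
  ∀ q : ℝ, ((0 < q ∧ q < 1) ∨ (1 < q ∧ q < 32/27)) →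
  ∀ vp : ℝ, vp < 0 → vp ^ 3 - 2 * q * vp - q ^ 2 = 0 →
    (∃ w : ℝ, w < vp ∧ w ^ 3 - 2 * q * w - q ^ 2 = 0) →
  ∃ I : ℕ → Set ℝ,
    (∀ m : ℕ, 2 ≤ m → (I m).Nonempty ∧ (I m).OrdConnected ∧ BddBelow (I m) ∧
        I m ⊆ Set.Iio 0 ∧ ∀ v ∈ I m, q / v ∈ I m) ∧
    (∀ m : ℕ, 2 ≤ m → I m ⊆ I (m + 1)) ∧
    Filter.Tendsto (fun m => sInf (I m)) Filter.atTop (nhds (q / vp)) ∧
    Filter.Tendsto (fun m => sSup (I m)) Filter.atTop (nhds vp) ∧
    ∀ m : ℕ, 2 ≤ m → ∀ n N : ℕ, ∀ s t : Fin N → Fin n,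
      (∀ e, s e ≠ t e) → 2 ≤ N → m ≤ N →
      (SimpleGraph.fromRel fun x y => ∃ e, s e = x ∧ t e = y).Connected →
      (∀ u : Fin n, (SimpleGraph.induce {w : Fin n | w ≠ u}
          (SimpleGraph.fromRel fun x y => ∃ e, s e = x ∧ t e = y)).Connected) →
      ∀ v : Fin N → ℝ, (∀ e, v e ∈ I m) →
      0 < (-1 : ℝ) ^ (n + if q < 1 then 1 else 0) *
        ∑ A : Finset (Fin N),
          q ^ Nat.card (SimpleGraph.fromRel fun x y => ∃ e ∈ A, s e = x ∧ t e = y).ConnectedComponent
            * ∏ e ∈ A, v e := by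
  intro q hq vp hneg hroot hw
  obtain ⟨w, hw1, hw2⟩ := hw
  have hmid : IsMiddleRoot q vp := middle hroot hw1 hw2 hneg
  obtain ⟨l, u, h1, h2, h3, h4, h5, h6⟩ := (main_graph hq).2 vp hmid
  refine ⟨fun m => Set.Icc (l m) (u m), ?_, ?_, ?_, ?_, ?_⟩
  · intro m _
    refine ⟨⟨l m, Set.left_mem_Icc.2 (h1 m).1.le⟩, Set.ordConnected_Icc, bddBelow_Icc, ?_, h2 m⟩
    intro x hx
    exact lt_of_le_of_lt hx.2 (h1 m).2
  · intro m _
    exact h3 m
  · refine h4.congr ?_
    intro m
    exact (csInf_Icc (h1 m).1.le).symm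
  · refine h5.congr ?_
    intro m
    exact (csSup_Icc (h1 m).1.le).symm
  · intro m hm n N s t hst hN hmN hc h2c v hv
    have h7 := h6 m hm (Fin n) (Fin N) (fun e => s(s e, t e)) v (twoConn s t hst hN hc h2c)
      (by simpa using hmN) hv
    rw [Fintype.card_fin] at h7
    unfold tutteZ at h7
    simp only [card_comp] at h7
    exact h7

end Pool.Agent.S11245
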