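import Pool.Statements.S11288
import Pool.Agent.Helper291.BentMain

set_option autoImplicit false
open Pool Pool.MP_c42c89_co

namespace Pool.Agent.S11288

theorem central_sq (k : ℕ) : (2 * k + 1) * (Nat.centralBinom k) ^ 2 ≤ 16 ^ k := by
  induction k with
  | zero => simp
  | succ k ih =>
    have h := Nat.succ_mul_centralBinom_succ k
    have h1 : (k + 1) ^ 2 * ((2 * (k + 1) + 1) * (Nat.centralBinom (k + 1)) ^ 2) ≤
        (k + 1) ^ 2 * 16 ^ (k + 1) := by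
      calc (k + 1) ^ 2 * ((2 * (k + 1) + 1) * (Nat.centralBinom (k + 1)) ^ 2)
          = (2 * (k + 1) + 1) * ((k + 1) * Nat.centralBinom (k + 1)) ^ 2 := by ring
        _ = (2 * (k + 1) + 1) * (2 * (2 * k + 1) * Nat.centralBinom k) ^ 2 := by rw [h]
        _ = (4 * (2 * k + 3) * (2 * k + 1)) * ((2 * k + 1) * (Nat.centralBinom k) ^ 2) := by ring
        _ ≤ (4 * (2 * k + 3) * (2 * k + 1)) * 16 ^ k := Nat.mul_le_mul_left _ ih
        _ ≤ ((k + 1) ^ 2 * 16) * 16 ^ k := by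
            apply Nat.mul_le_mul_right
            nlinarith
        _ = (k + 1) ^ 2 * 16 ^ (k + 1) := by ring
    exact Nat.le_of_mul_le_mul_left h1 (by positivity)

/-- The negation of the preceding statement: There are real constants c in [1,2] and d such that the number of bent Boolean functions in n = 2k variables, divided by 2^(2^(n−c) + d·C(n,n/2)), tends to 1 as k grows. -/
theorem result :
    ¬ (∃ c d : ℝ, 1 ≤ c ∧ c ≤ 2 ∧
      Filter.Tendsto
        (fun k : ℕ =>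
          (Nat.card {f : (Fin (2 * k) → ZMod 2) → ZMod 2 //
              ∀ a : Fin (2 * k) → ZMod 2,
                (∑ x : Fin (2 * k) → ZMod 2,
                    (-1 : ℤ) ^ (f x + ∑ i, a i * x i).val) ^ 2 = 2 ^ (2 * k)} : ℝ) /
            (2 : ℝ) ^ ((2 : ℝ) ^ ((2 * k : ℝ) - c) + d * ((Nat.choose (2 * k) k : ℕ) : ℝ)))
        Filter.atTop (nhds 1)) := by
  rintro ⟨c, d, hc1, hc2, hlim⟩
  obtain ⟨C0, hC0⟩ := Pool.Agent.Helper291.Bent.bent_small
  have hev := hlim (Ioi_mem_nhds (show (1 / 2 : ℝ) < 1 by norm_num))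
  obtain ⟨B, hB⟩ := Filter.eventually_atTop.1 hev
  set k : ℕ := B + C0 + 3 + ⌈(64 * |d|) ^ 2⌉₊ with hk
  have h1 := hC0 k (by omega) (by omega)
  have h2 := hB k (by omega)
  simp only [Set.mem_Ioi] at h2
  set K : ℕ := 2 ^ (2 * k - 6) with hK
  have hKpos : (1 : ℝ) ≤ K := by exact_mod_cast (Nat.one_le_two_pow : 1 ≤ 2 ^ (2 * k - 6))
  have h3 : ((Nat.card {f : (Fin (2 * k) → ZMod 2) → ZMod 2 //
              ∀ a : Fin (2 * k) → ZMod 2,
                (∑ x : Fin (2 * k) → ZMod 2,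
                    (-1 : ℤ) ^ (f x + ∑ i, a i * x i).val) ^ 2 = 2 ^ (2 * k)} : ℕ) : ℝ)
      ≤ (2 : ℝ) ^ ((13 * K + 1 : ℕ) : ℝ) := by
    rw [Real.rpow_natCast]
    have : ((Nat.card {g : (Fin (2 * k) → ZMod 2) → ZMod 2 //
        Pool.Agent.Helper291.Bent.IsBent k g} : ℕ) : ℝ) ≤ 2 * 2 ^ (13 * 2 ^ (2 * k - 6)) := by
      exact_mod_cast h1
    rw [pow_succ, mul_comm ((2 : ℝ) ^ (13 * K)) 2]
    exact this
  have h4 : (2 : ℝ) ^ (((2 * k : ℕ) : ℝ) - 2) = 16 * (K : ℝ) := by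
    have e1 : (((2 * k : ℕ) : ℝ) - 2) = (((2 * k - 6 : ℕ) : ℝ) + 4) := by
      rw [Nat.cast_sub (by omega)]
      push_cast
      ring
    rw [e1, Real.rpow_add (by norm_num), Real.rpow_natCast, hK]
    push_cast
    norm_num
    ring
  have h5 : 16 * (K : ℝ) ≤ (2 : ℝ) ^ ((2 * k : ℝ) - c) := by
    rw [← h4]
    apply Real.rpow_le_rpow_of_exponent_le (by norm_num)
    push_cast
    linarith
  have h6 : |d| * ((Nat.choose (2 * k) k : ℕ) : ℝ) ≤ K := by
    have hc := central_sq k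
    rw [Nat.centralBinom_eq_two_mul_choose] at hc
    have hcr : (2 * (k : ℝ) + 1) * ((Nat.choose (2 * k) k : ℕ) : ℝ) ^ 2 ≤ (64 * (K : ℝ)) ^ 2 := by
      have e16 : (16 : ℕ) ^ k = (64 * K) ^ 2 := by
        have : 64 * K = 4 ^ k := by
          rw [hK, show (64 : ℕ) = 2 ^ 6 by norm_num, ← pow_add, show (4 : ℕ) = 2 ^ 2 by norm_num,
            ← pow_mul]
          congr 1
          omega
        rw [this, ← pow_mul, show (16 : ℕ) = 4 ^ 2 by norm_num, ← pow_mul]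
        congr 1
        ring
      rw [e16] at hc
      exact_mod_cast hc
    have hd : (64 * |d|) ^ 2 ≤ 2 * (k : ℝ) + 1 := by
      have a1 : (64 * |d|) ^ 2 ≤ (⌈(64 * |d|) ^ 2⌉₊ : ℝ) := Nat.le_ceil _
      have a2 : ((⌈(64 * |d|) ^ 2⌉₊ : ℕ) : ℝ) ≤ (k : ℝ) := by
        rw [hk]; push_cast
        have : (0 : ℝ) ≤ B := Nat.cast_nonneg _
        have : (0 : ℝ) ≤ C0 := Nat.cast_nonneg _
        linarith
      have a3 : (0 : ℝ) ≤ k := Nat.cast_nonneg _
      linarith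
    have hsq : (64 * (|d| * ((Nat.choose (2 * k) k : ℕ) : ℝ))) ^ 2 ≤ (64 * (K : ℝ)) ^ 2 := by
      calc (64 * (|d| * ((Nat.choose (2 * k) k : ℕ) : ℝ))) ^ 2
          = (64 * |d|) ^ 2 * ((Nat.choose (2 * k) k : ℕ) : ℝ) ^ 2 := by ring
        _ ≤ (2 * (k : ℝ) + 1) * ((Nat.choose (2 * k) k : ℕ) : ℝ) ^ 2 :=
            mul_le_mul_of_nonneg_right hd (by positivity)
        _ ≤ _ := hcr
    have := (abs_le.1 (abs_le_of_sq_le_sq hsq (by positivity))).2
    linarith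
  have h7 : -(K : ℝ) ≤ d * ((Nat.choose (2 * k) k : ℕ) : ℝ) := by
    have : -(|d| * ((Nat.choose (2 * k) k : ℕ) : ℝ)) ≤ d * ((Nat.choose (2 * k) k : ℕ) : ℝ) := by
      rw [← neg_mul]
      exact mul_le_mul_of_nonneg_right (neg_abs_le d) (by positivity)
    linarith
  set E : ℝ := (2 : ℝ) ^ ((2 * k : ℝ) - c) + d * ((Nat.choose (2 * k) k : ℕ) : ℝ) with hE
  have hEge : ((13 * K + 1 : ℕ) : ℝ) + 1 ≤ E := by
    push_cast
    linarith
  have h8 : (2 : ℝ) ^ (((13 * K + 1 : ℕ) : ℝ) + 1) ≤ (2 : ℝ) ^ E :=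
    Real.rpow_le_rpow_of_exponent_le (by norm_num) hEge
  rw [Real.rpow_add (by norm_num), Real.rpow_one] at h8
  have hpos : (0 : ℝ) < (2 : ℝ) ^ E := Real.rpow_pos_of_pos (by norm_num) _
  rw [lt_div_iff₀ hpos] at h2
  linarith

end Pool.Agent.S11288
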