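import Pool.Statements.S11309
import Pool.Agent.W246.LG.Struct
import Pool.Agent.W246.LG.Frozen
import Pool.Agent.W605.LGChi
import Pool.Agent.W605.LGGraph
import Pool.Agent.W396.LGTp
import Pool.Agent.W396.LGFejer
import Pool.Agent.W396.LGExpand
import Pool.Agent.W396.LGPair
import Pool.Agent.W12.LGMain
import Pool.Agent.W12.LGBonf
import Pool.Agent.W144.LGDep
import Pool.Agent.W34.LG.LGCore
import Pool.Agent.W397.LGFinal

set_option autoImplicit false
open Nc949c4d7
open Asymptotics Filter
open scoped Pointwise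
open Pool Pool.MP_c4c804_co

namespace Pool.Agent.S11309

/-- Assembly of the parts: the quantitative gap theorem. -/
theorem goal : Pool.Agent.W246.LG.S_goal :=
  Pool.Agent.W397.LGFinal.main Pool.Agent.W605.LGChi.main Pool.Agent.W396.LGTp.main
    Pool.Agent.W396.LGFejer.main Pool.Agent.W396.LGPair.main
    (Pool.Agent.W34.LG.main Pool.Agent.W396.LGExpand.main Pool.Agent.W12.LGBonf.main
      Pool.Agent.W12.LGMain.main Pool.Agent.W12.LGMain.main_esymm Pool.Agent.W605.LGGraph.main
      Pool.Agent.W144.LGDep.main Pool.Agent.W144.LGDep.main_depsum)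
    Pool.Agent.W246.LG.struct

/-- For every ω:ℕ→ℝ asymptotic to 10·log p, for all large primes p: 100<ω p<p and every A⊆ZMod p with ∣A∣=⌊ω p⌋ has a unit c with c·A avoiding some run of ⌊100p/ω p⌋ consecutive residues. -/
theorem result :
    (∀ ω : ℕ → ℝ, ω ~[atTop] (fun p ↦ 10 * Real.log p) → HasLargeGapDilate ω) := by
  intro ω hω
  exact Pool.Agent.W246.LG.frozen_of_goal goal ω hω

end Pool.Agent.S11309
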