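import Pool.Statements.S11363
import Pool.Agent.W606.Eternal2

set_option autoImplicit false
open Pool Pool.MP_c705d2_co

namespace Pool.Agent.S11363

open Pool.Agent.W606.Eternal in
theorem aux {T : Type} [Fintype T] [DecidableEq T] (φ : T ≃ V) :
    ∃ G : SimpleGraph T, ∃ k : ℕ, ∃ F : Set (Finset T),
      F.Nonempty ∧
      (∀ D ∈ F, D.card = k) ∧
      (∀ D ∈ F, ∀ v : T, v ∉ D →
        ∃ u ∈ D, G.Adj u v ∧ insert v (D.erase u) ∈ F) ∧
      (∀ S : Finset T, (∀ v : T, v ∈ S ∨ ∃ u ∈ S, G.Adj u v) → k ≤ S.card) ∧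
      (k : ℕ∞) < Gᶜ.chromaticNumber := by
  let H : SimpleGraph T :=
    { Adj := fun x y => φ y - φ x ∈ S
      symm := ⟨by
        intro x y h
        have := S_neg _ h
        simpa using this⟩
      loopless := ⟨by
        intro x h
        simp only [sub_self] at h
        exact S_zero h⟩ }
  have hadj : ∀ x y, H.Adj x y ↔ φ y - φ x ∈ S := fun x y => Iff.rfl
  have hC : ∀ x y z : T, (∀ t, ¬ (H.Adj x t ∧ H.Adj y t ∧ H.Adj z t)) ↔ ¬ C (φ x) (φ y) (φ z) := by
    intro x y z
    constructor
    · rintro h ⟨t, a, b, c⟩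
      exact h (φ.symm t) ⟨by simpa [hadj] using a, by simpa [hadj] using b,
        by simpa [hadj] using c⟩
    · rintro h t ⟨a, b, c⟩
      exact h ⟨φ t, a, b, c⟩
  refine ⟨Hᶜ, 3, {D | D.card = 3 ∧ ∀ t, ∃ y ∈ D, ¬ H.Adj y t}, ?_, ?_, ?_, ?_, ?_⟩
  · -- nonempty
    let s : V := (1,0,0,0,0)
    have hs : s ∈ S := by decide +kernel
    have hs0 : s ≠ 0 := by decide +kernel
    have hs1 : -s ≠ 0 := by decide +kernel
    have hs2 : s ≠ -s := by decide +kernel
    refine ⟨{φ.symm 0, φ.symm s, φ.symm (-s)}, ?_, ?_⟩
    · apply Finset.card_eq_three.2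
      refine ⟨_, _, _, ?_, ?_, ?_, rfl⟩
      · intro h; exact hs0 (φ.symm.injective h).symm
      · intro h; exact hs1 (φ.symm.injective h).symm
      · intro h; exact hs2 (φ.symm.injective h)
    · intro t
      by_contra hcon
      push Not at hcon
      have h1 := hcon (φ.symm 0) (by simp)
      have h2 := hcon (φ.symm s) (by simp)
      have h3 := hcon (φ.symm (-s)) (by simp)
      simp only [hadj, Equiv.apply_symm_apply] at h1 h2 h3
      have e := third (x := 0) (w := s) (t := φ t) (by simpa using hs) h1 h2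
      rw [e] at h3
      simp at h3
      exact S_zero h3
  · intro D hD
    exact hD.1
  · rintro D ⟨hcard, hdom⟩ w hw
    obtain ⟨x, u, v, hxu, hxv, huv, rfl⟩ := Finset.card_eq_three.1 hcard
    simp only [Finset.mem_insert, Finset.mem_singleton, not_or] at hw
    obtain ⟨hwx, hwu, hwv⟩ := hw
    have hnc : ¬ C (φ x) (φ u) (φ v) := by
      rw [← hC]
      intro t ⟨a, b, c⟩
      obtain ⟨y, hy, hny⟩ := hdom t
      simp only [Finset.mem_insert, Finset.mem_singleton] at hy
      rcases hy with rfl | rfl | rfl
      · exact hny a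
      · exact hny b
      · exact hny c
    have fin : ∀ a b c : T, a ≠ b → a ≠ c → b ≠ c → ¬ C (φ a) (φ b) (φ c) →
        ∀ D : Finset T, (∀ y, y ∈ D ↔ y = a ∨ y = b ∨ y = c) →
        D ∈ {D : Finset T | D.card = 3 ∧ ∀ t, ∃ y ∈ D, ¬ H.Adj y t} := by
      intro a b c hab hac hbc hn D hD
      have hD' : D = {a, b, c} := by
        ext y; rw [hD]; simp
      refine ⟨?_, ?_⟩
      · rw [hD']; exact Finset.card_eq_three.2 ⟨a, b, c, hab, hac, hbc, rfl⟩
      · intro t
        by_contra hcon
        push Not at hcon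
        rw [← hC] at hn
        exact hn t ⟨hcon a ((hD a).2 (Or.inl rfl)), hcon b ((hD b).2 (Or.inr (Or.inl rfl))),
          hcon c ((hD c).2 (Or.inr (Or.inr rfl)))⟩
    rcases close (fun h => hxu (φ.injective h)) (fun h => hxv (φ.injective h))
      (fun h => huv (φ.injective h)) (fun h => hwx (φ.injective h)) (fun h => hwu (φ.injective h))
      (fun h => hwv (φ.injective h)) hnc with h | h | h
    · refine ⟨x, by simp, ?_, ?_⟩
      · rw [SimpleGraph.compl_adj]; exact ⟨fun h' => hwx h'.symm, h.1⟩
      · apply fin w u v hwu hwv huv h.2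
        intro y
        simp only [Finset.mem_insert, Finset.mem_erase, Finset.mem_singleton]
        constructor
        · rintro (h1 | ⟨h1, h2 | h2 | h2⟩)
          · exact Or.inl h1
          · exact absurd h2 h1
          · exact Or.inr (Or.inl h2)
          · exact Or.inr (Or.inr h2)
        · rintro (h1 | rfl | rfl)
          · exact Or.inl h1
          · exact Or.inr ⟨fun h => hxu h.symm, by simp⟩
          · exact Or.inr ⟨fun h => hxv h.symm, by simp⟩
    · refine ⟨u, by simp, ?_, ?_⟩
      · rw [SimpleGraph.compl_adj]; exact ⟨fun h' => hwu h'.symm, h.1⟩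
      · apply fin x w v (fun h => hwx h.symm) hxv hwv h.2
        intro y
        simp only [Finset.mem_insert, Finset.mem_erase, Finset.mem_singleton]
        constructor
        · rintro (h1 | ⟨h1, h2 | h2 | h2⟩)
          · exact Or.inr (Or.inl h1)
          · exact Or.inl h2
          · exact absurd h2 h1
          · exact Or.inr (Or.inr h2)
        · rintro (rfl | h1 | rfl)
          · exact Or.inr ⟨hxu, by simp⟩
          · exact Or.inl h1
          · exact Or.inr ⟨fun h => huv h.symm, by simp⟩
    · refine ⟨v, by simp, ?_, ?_⟩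
      · rw [SimpleGraph.compl_adj]; exact ⟨fun h' => hwv h'.symm, h.1⟩
      · apply fin x u w hxu (fun h => hwx h.symm) (fun h => hwu h.symm) h.2
        intro y
        simp only [Finset.mem_insert, Finset.mem_erase, Finset.mem_singleton]
        constructor
        · rintro (h1 | ⟨h1, h2 | h2 | h2⟩)
          · exact Or.inr (Or.inr h1)
          · exact Or.inl h2
          · exact Or.inr (Or.inl h2)
          · exact absurd h2 h1
        · rintro (rfl | rfl | h1)
          · exact Or.inr ⟨hxv, by simp⟩
          · exact Or.inr ⟨huv, by simp⟩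
          · exact Or.inl h1
  · intro D hD
    by_contra hcon
    have hc2 : D.card ≤ 2 := by omega
    have hsub : ∃ x y : T, ∀ z ∈ D, z = x ∨ z = y := by
      rcases D.eq_empty_or_nonempty with rfl | ⟨x, hx⟩
      · exact ⟨φ.symm 0, φ.symm 0, by simp⟩
      · by_cases h : ∃ y ∈ D, y ≠ x
        · obtain ⟨y, hy, hyx⟩ := h
          refine ⟨x, y, ?_⟩
          intro z hz
          by_contra hz'
          push Not at hz'
          have : ({x, y, z} : Finset T) ⊆ D := by
            intro t ht
            simp only [Finset.mem_insert, Finset.mem_singleton] at ht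
            rcases ht with rfl | rfl | rfl <;> assumption
          have h3 : ({x, y, z} : Finset T).card = 3 :=
            Finset.card_eq_three.2 ⟨x, y, z, hyx.symm, hz'.1.symm, hz'.2.symm, rfl⟩
          have := Finset.card_le_card this
          omega
        · push Not at h
          exact ⟨x, x, fun z hz => Or.inl (h z hz)⟩
    obtain ⟨x, y, hxy⟩ := hsub
    obtain ⟨t, t1, t2⟩ := common (φ x) (φ y)
    have a1 : H.Adj x (φ.symm t) := by simpa [hadj] using t1
    have a2 : H.Adj y (φ.symm t) := by simpa [hadj] using t2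
    rcases hD (φ.symm t) with h | ⟨u, hu, h⟩
    · rcases hxy _ h with h | h
      · rw [h] at a1; exact H.irrefl a1
      · rw [h] at a2; exact H.irrefl a2
    · rw [SimpleGraph.compl_adj] at h
      rcases hxy _ hu with rfl | rfl
      · exact h.2 a1
      · exact h.2 a2
  · rw [compl_compl]
    by_contra hcon
    push Not at hcon
    have hcol : H.Colorable 3 := SimpleGraph.chromaticNumber_le_iff_colorable.1 hcon
    obtain ⟨c⟩ := hcol
    apply not_col (fun v => (c (φ.symm v) : Fin 3))
    intro x s hs heq
    have : H.Adj (φ.symm x) (φ.symm (x + s)) := by simpa [hadj] using hs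
    exact c.valid this heq.symm

/-- There is a finite graph and a number k such that every dominating set has at least k vertices, k guards can eternally defend the graph by moving one guard per attack, and the vertices cannot be covered by k cliques. -/
theorem result :
    ∃ n : ℕ, ∃ G : SimpleGraph (Fin n), ∃ k : ℕ, ∃ F : Set (Finset (Fin n)),
      F.Nonempty ∧
      (∀ D ∈ F, D.card = k) ∧
      (∀ D ∈ F, ∀ v : Fin n, v ∉ D →
        ∃ u ∈ D, G.Adj u v ∧ insert v (D.erase u) ∈ F) ∧
      (∀ S : Finset (Fin n), (∀ v : Fin n, v ∈ S ∨ ∃ u ∈ S, G.Adj u v) → k ≤ S.card) ∧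
      (k : ℕ∞) < Gᶜ.chromaticNumber := by
  have e : Fin (Fintype.card Pool.Agent.W606.Eternal.V) ≃ Pool.Agent.W606.Eternal.V :=
    (Fintype.equivFin _).symm
  exact ⟨Fintype.card Pool.Agent.W606.Eternal.V, aux e⟩

end Pool.Agent.S11363
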