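import Pool.Statements.S11394
import Pool.Agent.W310.Kahn

set_option autoImplicit false
open Pool Pool.MP_c8782e_co

namespace Pool.Agent.S11394

/-- The negation of the preceding statement: For every field K and n, given an n×n array of bases of Kⁿ, one can pick a vector from each basis so that every row and every column of picked vectors is linearly independent, hence a basis. -/
theorem result :
    ¬ (∀ (K : Type) [Field K] (n : ℕ)
      (B : Fin n → Fin n → Module.Basis (Fin n) K (Fin n → K)),
      ∃ σ : Fin n → Fin n → Fin n,
        (∀ i : Fin n, LinearIndependent K (fun j : Fin n => B i j (σ i j))) ∧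
        (∀ j : Fin n, LinearIndependent K (fun i : Fin n => B i j (σ i j)))) := by
  intro h
  exact Pool.Agent.W310.Kahn.kahn_false (h (ZMod 2) 4 Pool.Agent.W310.Kahn.bas)

end Pool.Agent.S11394
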