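import Pool.Statements.S11451
import Pool.Agent.Results.MP_cb3f02_co.BollobasNikiforov

set_option autoImplicit false
open Pool Pool.MP_cb3f02_co

namespace Pool.Agent.S11451

/-- For every finite simple graph with no (r+1)-clique and at least r+1 vertices (r ≥ 1), the squares of its two largest adjacency eigenvalues sum to at most 2(1−1/r) times its number of edges. -/
theorem result :
    ∀ (V : Type) [Fintype V] [DecidableEq V] (G : SimpleGraph V) [DecidableRel G.Adj] (r : ℕ),
      1 ≤ r → G.CliqueFree (r + 1) → r + 1 ≤ Fintype.card V →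
      ∀ (hA : (G.adjMatrix ℝ).IsHermitian) (i j : V), i ≠ j →
        hA.eigenvalues j ≤ hA.eigenvalues i →
        (∀ k, k ≠ i → hA.eigenvalues k ≤ hA.eigenvalues j) →
        hA.eigenvalues i ^ 2 + hA.eigenvalues j ^ 2
          ≤ 2 * (1 - 1 / (r : ℝ)) * (G.edgeFinset.card : ℝ) := by
  intro V _ _ G _ r h1 h2 h3 hA i j hij h4 h5
  exact (Pool.Agent.Results.MP_cb3f02_co.BollobasNikiforov.result G hA i j hij h4 h5).2 r h1 h2 h3

end Pool.Agent.S11451
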