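-- Proof of the frozen statement S11473 (MP_cc29fe_co): local metric dimension and clique number.
import Pool.Statements.S11473
import Pool.Agent.W111.LDim

set_option autoImplicit false
open Pool Pool.MP_cc29fe_co

namespace Pool.Agent.S11473

/-- Every finite connected graph with n vertices and clique number ω, where n ≥ ω+1 ≥ 4, has a set of at most (ω−2)/(ω−1)·n vertices distinguishing every adjacent pair by distance, i.e. local metric dimension ≤ (ω−2)n/(ω−1). -/
theorem result :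
    ∀ (V : Type) [Fintype V] (G : SimpleGraph V), G.Connected →
      ∀ ω : ℕ, (∃ s : Finset V, G.IsNClique ω s) → G.CliqueFree (ω + 1) →
        4 ≤ ω + 1 → ω + 1 ≤ Fintype.card V →
        ∃ W : Finset V,
          (∀ u v : V, G.Adj u v → ∃ w ∈ W, G.dist u w ≠ G.dist v w) ∧
          (W.card : ℝ) ≤ ((ω : ℝ) - 2) / ((ω : ℝ) - 1) * (Fintype.card V : ℝ) := by
  classical
  intro V _ G hG ω _ hfree h4 hn
  obtain ⟨j, rfl⟩ : ∃ j, ω = j + 3 := ⟨ω - 3, by omega⟩
  obtain ⟨W, hW, hc⟩ := Pool.Agent.W111.LDim.ldim_bound G hG (k := j + 2) (by omega)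
    hfree (by omega)
  refine ⟨W, hW, ?_⟩
  have hc' : ((j : ℝ) + 2) * (W.card : ℝ) ≤ ((j : ℝ) + 1) * (Fintype.card V : ℝ) := by
    have : (j + 2) * W.card ≤ (j + 1) * Fintype.card V := hc
    exact_mod_cast this
  have hpos : (0 : ℝ) < (j : ℝ) + 2 := by positivity
  have e1 : (((j + 3 : ℕ) : ℝ) - 2) = (j : ℝ) + 1 := by push_cast; ring
  have e2 : (((j + 3 : ℕ) : ℝ) - 1) = (j : ℝ) + 2 := by push_cast; ring
  rw [e1, e2, div_mul_eq_mul_div, le_div_iff₀ hpos]
  linarith

end Pool.Agent.S11473
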