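import Pool.Statements.S11508
import Pool.Agent.W238.LB.Top

set_option autoImplicit false
open Pool Pool.MP_cdddd3_co

namespace Pool.Agent.S11508

open Finset Helper487.Jack Pool.Agent.W238.LB in
theorem coeffs_unique (a : ℕ → ℕ)
    (ha : ∀ τ : ℝ, 0 < τ → Polynomial.aeval τ (cP 8) = ∑ j ∈ Finset.range 16,
      (a j : ℝ) * ((descPochhammer ℝ 16).eval (τ + (j : ℝ)) / (Nat.factorial 16 : ℝ))) :
    ∀ j < 16, ((a j : ℕ) : ℚ) = ((a8.getD j 0 : ℤ) : ℚ) := by
  have hbin : ∀ (τ : ℝ) (j : ℕ), Polynomial.aeval τ (binP 16 j) =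
      (descPochhammer ℝ 16).eval (τ + (j : ℝ)) / (Nat.factorial 16 : ℝ) := by
    intro τ j
    rw [descPochhammer_eval_eq_prod_range]
    unfold binP
    rw [map_mul, Polynomial.aeval_C, map_prod, map_inv₀, map_natCast]
    simp only [map_sub, map_add, Polynomial.aeval_X, Polynomial.aeval_C, map_natCast]
    rw [div_eq_inv_mul]
  set p : Polynomial ℚ := ∑ j ∈ range 16,
    Polynomial.C (((a j : ℕ) : ℚ) - ((a8.getD j 0 : ℤ) : ℚ)) * binP 16 j with hp
  have hp0 : ∀ κ : ℕ, p.eval (((κ + 1 : ℕ) : ℚ)) = 0 := by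
    intro κ
    have h1 := ha ((κ + 1 : ℕ) : ℝ) (by positivity)
    rw [cP8_eq, map_sum] at h1
    simp only [← hbin, map_mul, Polynomial.aeval_C] at h1
    have h2 : Polynomial.aeval (((κ + 1 : ℕ)) : ℝ) p = 0 := by
      rw [hp, map_sum]
      have h3 : ∀ j ∈ range 16, Polynomial.aeval (((κ + 1 : ℕ)) : ℝ)
          (Polynomial.C (((a j : ℕ) : ℚ) - ((a8.getD j 0 : ℤ) : ℚ)) * binP 16 j) =
          (a j : ℝ) * Polynomial.aeval (((κ + 1 : ℕ)) : ℝ) (binP 16 j) -
          (algebraMap ℚ ℝ) ((a8.getD j 0 : ℤ) : ℚ) *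
            Polynomial.aeval (((κ + 1 : ℕ)) : ℝ) (binP 16 j) := by
        intro j _
        rw [map_mul, Polynomial.aeval_C, map_sub, sub_mul]
        congr 2
      rw [Finset.sum_congr rfl h3, Finset.sum_sub_distrib, h1, sub_self]
    have h4 : Polynomial.aeval (((κ + 1 : ℕ)) : ℝ) p = ((p.eval (((κ + 1 : ℕ) : ℚ)) : ℚ) : ℝ) := by
      have : (((κ + 1 : ℕ)) : ℝ) = algebraMap ℚ ℝ (((κ + 1 : ℕ) : ℚ)) := (map_natCast _ _).symm
      rw [this, Polynomial.aeval_algebraMap_apply]
      simp [Polynomial.coe_aeval_eq_eval]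
    rw [h4] at h2
    exact_mod_cast h2
  have hp1 : p = 0 := by
    apply Polynomial.eq_zero_of_infinite_isRoot
    apply Set.infinite_of_injective_forall_mem (f := fun κ : ℕ => (((κ + 1 : ℕ) : ℚ)))
    · intro x y hxy
      simpa using hxy
    · intro κ
      exact hp0 κ
  intro j hj
  have := binP_coords_unique hp1 j hj
  linarith

theorem result :
    ¬ (∀ d : ℕ, 1 ≤ d → ∀ lam mu : ℕ → ℕ, Antitone lam → Antitone mu →
    (∀ i, d ≤ i → lam i = 0) → (∀ i, d ≤ i → mu i = 0) →
    ∑ i ∈ Finset.range d, lam i = d → ∑ i ∈ Finset.range d, mu i = d →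
    ∀ J : ℝ → MvPolynomial (Fin d) ℝ,
    (∀ τ : ℝ, 0 < τ →
      (J τ).IsSymmetric ∧
      (∀ m ∈ (J τ).support, ∑ i, m i = d ∧
        ∀ S : Finset (Fin d), ∑ i ∈ S, m i ≤ ∑ i ∈ Finset.range S.card, lam i) ∧
      MvPolynomial.coeff (Finsupp.equivFunOnFinite.symm (fun i : Fin d => lam (i : ℕ))) (J τ) =
        ∏ i ∈ Finset.range d, ∏ j ∈ Finset.range (lam i),
          (τ * ((((Finset.range d).filter (fun k => j < lam k)).card : ℝ) - (i : ℝ))
            + ((lam i : ℝ) - (j : ℝ) - 1)) ∧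
      ∃ q : Fin d → Fin d → MvPolynomial (Fin d) ℝ, ∃ e : ℝ,
        (∀ i j : Fin d, i < j →
          (MvPolynomial.X i - MvPolynomial.X j) * q i j =
            MvPolynomial.X i ^ 2 * MvPolynomial.pderiv i (J τ)
              - MvPolynomial.X j ^ 2 * MvPolynomial.pderiv j (J τ)) ∧
        ∑ i : Fin d, MvPolynomial.X i ^ 2 * MvPolynomial.pderiv i (MvPolynomial.pderiv i (J τ))
          + MvPolynomial.C (2 * τ) * ∑ i : Fin d, ∑ j : Fin d, (if i < j then q i j else 0)
          = MvPolynomial.C e * J τ) →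
    ∃ a b : ℕ → ℕ,
      (∀ τ : ℝ, 0 < τ →
        MvPolynomial.coeff
            (Finsupp.equivFunOnFinite.symm (fun i : Fin d => mu (i : ℕ) + (d - 1 - (i : ℕ))))
            (J τ * ∏ i : Fin d, ∏ j : Fin d,
              (if i < j then MvPolynomial.X i - MvPolynomial.X j
                else (1 : MvPolynomial (Fin d) ℝ)))
          = ∑ j ∈ Finset.range d,
              (a j : ℝ) * ((descPochhammer ℝ d).eval (τ + (j : ℝ)) / (d.factorial : ℝ))) ∧
      (∀ τ : ℝ, 0 < τ →
        MvPolynomial.coeff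
            (Finsupp.equivFunOnFinite.symm (fun i : Fin d => mu (i : ℕ) + (d - 1 - (i : ℕ))))
            (J τ * ∏ i : Fin d, ∏ j : Fin d,
              (if i < j then MvPolynomial.X i - MvPolynomial.X j
                else (1 : MvPolynomial (Fin d) ℝ)))
          = ∑ j ∈ Finset.Icc 1 d, (b (d - j) : ℝ) * (descPochhammer ℝ j).eval τ) ∧
      ((∃ j < d, a j ≠ 0) →
        ∀ z : ℂ, ∑ j ∈ Finset.range d, (a j : ℂ) * z ^ j = 0 → z.im = 0) ∧
      ((∃ j ∈ Finset.Icc 1 d, b (d - j) ≠ 0) →
        ∀ z : ℂ, ∑ j ∈ Finset.Icc 1 d, (b (d - j) : ℂ) * z ^ j = 0 → z.im = 0)) := by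
  intro hall
  have hex := hall 16 (by norm_num) (fun i => if i < 2 then 8 else 0) (fun i => if i < 8 then 2 else 0)
    ?_ ?_ ?_ ?_ ?_ ?_ (fun τ => Pool.Agent.W238.LB.J8 τ) ?_
  · obtain ⟨a, b, hA, -, hreal, -⟩ := hex
    have hsch : ∀ τ : ℝ, 0 < τ → Polynomial.aeval τ (Helper487.Jack.cP 8) =
        ∑ j ∈ Finset.range 16,
        (a j : ℝ) * ((descPochhammer ℝ 16).eval (τ + (j : ℝ)) / (Nat.factorial 16 : ℝ)) := by
      intro τ hτ
      rw [← hA τ hτ, ← Pool.Agent.W238.LB.schur_eq τ]
      unfold Pool.Agent.W238.LB.J8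
      rw [mul_assoc, MvPolynomial.coeff_C_mul]
      congr 1
      exact (Pool.Agent.W238.LB.coeff_JJ_mul_vand (Pool.Agent.W238.LB.ww_zero τ)
        (Pool.Agent.W238.LB.cc τ) 16 (fun i => if i < 8 then 2 else 0) (by decide)).symm
    have hu := coeffs_unique a hsch
    obtain ⟨z, hz, hz0⟩ := Helper487.Jack.nonreal8
    apply hz
    apply hreal
    · refine ⟨1, by norm_num, fun h => ?_⟩
      have := hu 1 (by norm_num)
      rw [h] at this
      simp [Helper487.Jack.a8] at this
    · rw [← hz0]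
      apply Finset.sum_congr rfl
      intro j hj
      rw [Finset.mem_range] at hj
      have := hu j hj
      have h2 : (a j : ℂ) = (((a j : ℕ) : ℚ) : ℂ) := by norm_cast
      rw [h2, this]
  · intro i j hij
    simp only
    split_ifs <;> omega
  · intro i j hij
    simp only
    split_ifs <;> omega
  · intro i hi
    exact if_neg (by omega)
  · intro i hi
    exact if_neg (by omega)
  · decide
  · decide
  · intro τ hτ
    refine ⟨Pool.Agent.W238.LB.J8_symm τ, ?_, ?_, Pool.Agent.W238.LB.J8_eigen τ hτ⟩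
    · intro m hm
      obtain ⟨h1, h2⟩ := Pool.Agent.W238.LB.J8_support τ m hm
      refine ⟨h1, fun S => ?_⟩
      rcases Nat.lt_or_ge S.card 2 with h | h
      · interval_cases hc : S.card
        · rw [Finset.card_eq_zero] at hc
          subst hc
          simp
        · rw [Finset.card_eq_one] at hc
          obtain ⟨i, rfl⟩ := hc
          simpa using h2 i
      · have h3 : ∑ i ∈ S, m i ≤ 16 :=
          (Finset.sum_le_sum_of_subset (Finset.subset_univ S)).trans h1.le
        refine h3.trans ?_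
        have h4 : Finset.range 2 ⊆ Finset.range S.card := Finset.range_subset_range.2 h
        calc 16 = ∑ i ∈ Finset.range 2, (if i < 2 then 8 else 0) := by decide
          _ ≤ ∑ i ∈ Finset.range S.card, (if i < 2 then 8 else 0) :=
            Finset.sum_le_sum_of_subset h4
    · rw [Pool.Agent.W238.LB.coeff_J8, Pool.Agent.W238.LB.coeff_JJ, if_pos]
      · have e1 : ∏ i : Fin 16, Pool.Agent.W238.LB.hh (Pool.Agent.W238.LB.ww τ)
            ((Finsupp.equivFunOnFinite.symm (fun i : Fin 16 => (if (i : ℕ) < 2 then 8 else 0)) :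
              Fin 16 →₀ ℕ) i) = Pool.Agent.W238.LB.hh (Pool.Agent.W238.LB.ww τ) 8 *
              Pool.Agent.W238.LB.hh (Pool.Agent.W238.LB.ww τ) 8 := by
          simp only [Finsupp.equivFunOnFinite_symm_apply_apply]
          rw [Fin.prod_univ_eq_prod_range (fun i => Pool.Agent.W238.LB.hh
            (Pool.Agent.W238.LB.ww τ) (if i < 2 then 8 else 0)) 16]
          simp [Finset.prod_range_succ, Pool.Agent.W238.LB.hh_zero (Pool.Agent.W238.LB.ww_zero τ)]
        rw [e1, Pool.Agent.W238.LB.norm_eq]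
        have hcard : ∀ j < 8, ((Finset.range 16).filter
            (fun k => j < (if k < 2 then 8 else 0))).card = 2 := by decide
        have e2 : ∀ i ∈ Finset.range 16, ∏ j ∈ Finset.range (if i < 2 then 8 else 0),
          (τ * ((((Finset.range 16).filter (fun k => j < (if k < 2 then 8 else 0))).card : ℝ)
            - (i : ℝ)) + (((if i < 2 then 8 else 0 : ℕ) : ℝ) - (j : ℝ) - 1)) =
            if i < 2 then ∏ j ∈ Finset.range 8, (τ * (2 - (i : ℝ)) + (8 - (j : ℝ) - 1)) else 1 := by
          intro i _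
          by_cases hi : i < 2
          · simp only [if_pos hi]
            apply Finset.prod_congr rfl
            intro j hj
            rw [Finset.mem_range] at hj
            rw [hcard j hj]
            push_cast
            ring
          · simp only [if_neg hi]
            simp
        rw [Finset.prod_congr rfl e2]
        simp [Finset.prod_range_succ]
        ring
      · decide

end Pool.Agent.S11508
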