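import Pool.Statements.S11569
import Pool.Agent.W252.PT.Tri
import Pool.Agent.W318.PT.Helly
import Pool.Agent.W225.PT.Center
import Pool.Agent.W73.PT.Succ
import Pool.Agent.W120.PT.Line
import Pool.Agent.W577.PT.One
import Pool.Agent.W253.PT.Two
import Pool.Agent.W675.PT.Samp
import Pool.Agent.W374.PT.Main
import Pool.Agent.W975.PT.Cpt
import Pool.Agent.W692.PT.Lex
import Pool.Agent.W584.PT.Basis
import Pool.Agent.W864.PT.Mu
import Pool.Agent.W641.PT.Minimax
import Pool.Agent.W513.PT.Red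
import Pool.Agent.W45.PT.Fin
import Pool.Agent.W280.PT.Frozen
import Pool.Agent.W15.PT.Ram
import Pool.Agent.W899.PT.Refl
import Pool.Agent.W323.PT.Swap
import Pool.Agent.W382.PT.Class
import Pool.Agent.W933.PT.Hex
import Pool.Agent.W822.PT.All
import Pool.Agent.W402.PT.Nest
import Pool.Agent.W891.PT.Q4
import Pool.Agent.W925.PT.Blk
import Pool.Agent.W479.PT.CC
import Pool.Agent.W804.PT.Conv
import Pool.Agent.W209.PT.HexDir
import Pool.Agent.W540.PT.Cross
import Pool.Agent.W748.PT.Der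
import Pool.Agent.W412.PT.CLsym
import Pool.Agent.W279.PT.CLhex
import Pool.Agent.W806.PT.CLpto
import Pool.Agent.W347.PT.LP

set_option autoImplicit false
open Pool Pool.MP_d085fd_co

namespace Pool.Agent.S11569

/-- There is k0 such that any finite family of convex plane sets, in which every subfamily of at most k0 members can be pierced by 2 points, can be pierced as a whole by at most 3 points. -/
theorem result :
    ∃ k₀ : ℕ, ∀ F : Finset (Set (EuclideanSpace ℝ (Fin 2))),
      (∀ C ∈ F, Convex ℝ C) →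
      (∀ G ⊆ F, G.card ≤ k₀ →
        ∃ P : Finset (EuclideanSpace ℝ (Fin 2)), P.card ≤ 2 ∧ ∀ C ∈ G, ∃ p ∈ P, p ∈ C) →
      ∃ P : Finset (EuclideanSpace ℝ (Fin 2)), P.card ≤ 3 ∧ ∀ C ∈ F, ∃ p ∈ P, p ∈ C := by
  have hHelly := Pool.Agent.W318.PT.helly
  have hCenter := Pool.Agent.W225.PT.center hHelly
  have hSucc := Pool.Agent.W73.PT.succ Pool.Agent.W252.PT.tri hCenter
  have hLine := Pool.Agent.W120.PT.line hCenter
  have hSamp := Pool.Agent.W675.PT.samp Pool.Agent.W577.PT.one Pool.Agent.W253.PT.two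
  have hHex := Pool.Agent.W933.PT.hex
  have hConv := Pool.Agent.W804.PT.conv
  have hHexDir := Pool.Agent.W209.PT.hexdir hHex hConv
  have hLP := Pool.Agent.W347.PT.lp Pool.Agent.W748.PT.der Pool.Agent.W748.PT.der' Pool.Agent.W412.PT.clsym
    Pool.Agent.W279.PT.clhex Pool.Agent.W806.PT.clpto
  have hCross := Pool.Agent.W540.PT.cross hConv hHexDir hLP
  have hBlk := Pool.Agent.W925.PT.Blk.blk_all Pool.Agent.W899.PT.refl Pool.Agent.W323.PT.swap
    Pool.Agent.W323.PT.sub Pool.Agent.W891.PT.q4 (Pool.Agent.W402.PT.nest hHex) hCross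
  have hCC := Pool.Agent.W479.PT.cc Pool.Agent.W15.PT.ram Pool.Agent.W899.PT.refl Pool.Agent.W323.PT.sub
    Pool.Agent.W382.PT.cls (Pool.Agent.W822.PT.all hHex) hBlk
  have hMain := Pool.Agent.W374.PT.main hCC hSamp hSucc hLine
  have hBasis := Pool.Agent.W584.PT.basis hHelly Pool.Agent.W692.PT.lex
  have hMu := Pool.Agent.W864.PT.mu Pool.Agent.W692.PT.lex hBasis
  have hRed := Pool.Agent.W513.PT.red Pool.Agent.W975.PT.cpt Pool.Agent.W692.PT.lex hMu
    Pool.Agent.W641.PT.minimax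
  exact Pool.Agent.W280.PT.frozen (Pool.Agent.W45.PT.fin hRed hMain)

end Pool.Agent.S11569
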