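import Pool.Statements.S11589
import Pool.Agent.W133.Final

set_option autoImplicit false
open scoped Classical
open Pool Pool.MP_d13902_co

namespace Pool.Agent.S11589

/-- For every ε>0, the fraction of graphs on n labeled vertices whose real minrank lies between (1−ε) and (1+ε) times the chromatic number of the complement tends to 1 as n grows. -/
theorem result :
  ∀ ε : ℝ, 0 < ε →
    Filter.Tendsto
      (fun n : ℕ =>
        ((Finset.univ.filter (fun G : SimpleGraph (Fin n) =>
            (1 - ε) * ((Gᶜ.chromaticNumber.toNat : ℕ) : ℝ) ≤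
              ((sInf {r : ℕ | ∃ M : Matrix (Fin n) (Fin n) ℝ,
                  (∀ i, M i i ≠ 0) ∧
                  (∀ i j, i ≠ j → ¬ G.Adj i j → M i j = 0) ∧
                  M.rank = r} : ℕ) : ℝ) ∧
            ((sInf {r : ℕ | ∃ M : Matrix (Fin n) (Fin n) ℝ,
                  (∀ i, M i i ≠ 0) ∧
                  (∀ i j, i ≠ j → ¬ G.Adj i j → M i j = 0) ∧
                  M.rank = r} : ℕ) : ℝ) ≤
              (1 + ε) * ((Gᶜ.chromaticNumber.toNat : ℕ) : ℝ))).card : ℝ) /
          (Fintype.card (SimpleGraph (Fin n)) : ℝ))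
      Filter.atTop (nhds 1) := by
  intro ε hε
  exact Pool.Agent.W133.main_thm ε hε

end Pool.Agent.S11589
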