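import Pool.Statements.S11612
import Pool.Agent.W126.TwAlphaChi

set_option autoImplicit false
open Pool Pool.MP_d20af1_co

namespace Pool.Agent.S11612

/-- The negation of the preceding statement: For every finite graph G and all a, k: if G has a tree decomposition whose bags all have independence number at most a, and one whose bags all induce k-colorable subgraphs, then G has a tree decomposition with all bags of size at most a·k. -/
theorem result :
    ¬ (∀ (V : Type) [Fintype V] (G : SimpleGraph V) (a k : ℕ),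
      (∃ (n : ℕ) (T : SimpleGraph (Fin n)) (B : Fin n → Finset V),
        T.IsTree ∧
        (∀ u v : V, G.Adj u v → ∃ i, u ∈ B i ∧ v ∈ B i) ∧
        (∀ v : V, (T.induce {i : Fin n | v ∈ B i}).Connected) ∧
        (∀ i : Fin n, ∀ S : Finset V, S ⊆ B i → G.IsIndepSet (S : Set V) → S.card ≤ a)) →
      (∃ (n : ℕ) (T : SimpleGraph (Fin n)) (B : Fin n → Finset V),
        T.IsTree ∧
        (∀ u v : V, G.Adj u v → ∃ i, u ∈ B i ∧ v ∈ B i) ∧
        (∀ v : V, (T.induce {i : Fin n | v ∈ B i}).Connected) ∧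
        (∀ i : Fin n, (G.induce (B i : Set V)).Colorable k)) →
      (∃ (n : ℕ) (T : SimpleGraph (Fin n)) (B : Fin n → Finset V),
        T.IsTree ∧
        (∀ u v : V, G.Adj u v → ∃ i, u ∈ B i ∧ v ∈ B i) ∧
        (∀ v : V, (T.induce {i : Fin n | v ∈ B i}).Connected) ∧
        (∀ i : Fin n, (B i).card ≤ a * k))) := by
  intro h
  obtain ⟨n, T, B, hT, hE, hC, hcard⟩ := h (Fin 10) Pool.Agent.W126.TAC.G 2 2
    ⟨6, Pool.Agent.W126.TAC.T1, Pool.Agent.W126.TAC.B1, Pool.Agent.W126.TAC.T1_tree,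
      Pool.Agent.W126.TAC.edge1, Pool.Agent.W126.TAC.conn1, Pool.Agent.W126.TAC.indep1⟩
    ⟨5, Pool.Agent.W126.TAC.T2, Pool.Agent.W126.TAC.B2, Pool.Agent.W126.TAC.T2_tree,
      Pool.Agent.W126.TAC.edge2, Pool.Agent.W126.TAC.conn2, Pool.Agent.W126.TAC.color2⟩
  obtain ⟨i, hi⟩ := Pool.Agent.W126.TAC.no_small n T B hT hE hC
  have := hcard i
  omega

end Pool.Agent.S11612
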