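import Pool.Statements.S11620
import Pool.Agent.Results.MP_d250d1_co.Disproof

set_option autoImplicit false
open scoped Classical
open Pool Pool.MP_d250d1_co

namespace Pool.Agent.S11620

open Pool.Agent.Results.MP_d250d1_co.Disproof in
/-- If the sorted list of moduli of a multiset starts with `a` then every modulus is at most `a`,
and if its second entry is `< c`, then fewer than two entries have modulus `≥ c`. -/
lemma aux (s : Multiset ℂ) (a x c : ℝ)
    (h0 : (((s.map fun z : ℂ => ‖z‖).sort (· ≥ ·)) : List ℝ)[0]? = some a)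
    (h1 : (((s.map fun z : ℂ => ‖z‖).sort (· ≥ ·)) : List ℝ)[1]? = some x) (hx : x < c) :
    (∃ z ∈ s, ‖z‖ = a) ∧ (∀ z ∈ s, ‖z‖ ≤ a) ∧ (s.filter (fun z : ℂ => c ≤ ‖z‖)).card < 2 := by
  set l : List ℝ := (s.map fun z : ℂ => ‖z‖).sort (· ≥ ·) with hl
  have hcoe : (l : Multiset ℝ) = s.map fun z : ℂ => ‖z‖ := Multiset.sort_eq _ _
  have hsorted : l.Pairwise (· ≥ ·) := Multiset.pairwise_sort _ _
  match l, h0, h1, hcoe, hsorted with
  | [], h0, _, _, _ => simp at h0
  | [b], _, h1, _, _ => simp at h1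
  | b :: y :: t, h0, h1, hcoe, hsorted =>
    simp only [List.getElem?_cons_zero, Option.some.injEq, List.getElem?_cons_succ] at h0 h1
    subst h0 h1
    rw [List.pairwise_cons, List.pairwise_cons] at hsorted
    obtain ⟨hs1, hs2, hs3⟩ := hsorted
    refine ⟨?_, ?_, ?_⟩
    · have : b ∈ s.map fun z : ℂ => ‖z‖ := by rw [← hcoe]; simp
      simpa using this
    · intro z hz
      have : ‖z‖ ∈ s.map fun z : ℂ => ‖z‖ := Multiset.mem_map_of_mem _ hz
      rw [← hcoe] at this
      rcases List.mem_cons.1 (Multiset.mem_coe.1 this) with h | h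
      · exact h.le
      · exact hs1 _ h
    · have e1 : (s.filter (fun z : ℂ => c ≤ ‖z‖)).card
          = (Multiset.filter (fun r : ℝ => c ≤ r) (s.map fun z : ℂ => ‖z‖)).card := by
        rw [Multiset.filter_map, Multiset.card_map]
        rfl
      rw [e1, ← hcoe]
      have e2 : Multiset.filter (fun r : ℝ => c ≤ r) ((y :: t : List ℝ) : Multiset ℝ) = 0 := by
        rw [Multiset.filter_eq_nil]
        intro r hr
        rcases List.mem_cons.1 (Multiset.mem_coe.1 hr) with h | h
        · rw [h]; exact not_le.2 hx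
        · exact not_le.2 (lt_of_le_of_lt (hs2 _ h) hx)
      have e3 : ((b :: y :: t : List ℝ) : Multiset ℝ) = b ::ₘ ((y :: t : List ℝ) : Multiset ℝ) := rfl
      rw [e3]
      by_cases hb : c ≤ b
      · rw [Multiset.filter_cons_of_pos _ hb, e2]; simp
      · rw [Multiset.filter_cons_of_neg _ hb, e2]; simp

/-- The negation of the preceding statement: For all real ρ and ε>0 there is N such that every connected simple graph with min degree ≥2, at least N vertices and non-backtracking spectral radius ρ has at least two eigenvalues (with multiplicity) of modulus ≥ √ρ−ε. -/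
theorem result :
    ¬ (∀ ρ : ℝ, ∀ ε : ℝ, 0 < ε → ∃ N : ℕ,
      ∀ (V : Type) [Fintype V] (G : SimpleGraph V),
        G.Connected →
        (∀ v : V, 2 ≤ G.degree v) →
        N ≤ Fintype.card V →
        ∀ s : Multiset ℂ,
          s = (Matrix.charpoly (Matrix.of (fun d e : G.Dart =>
                if d.snd = e.fst ∧ e.snd ≠ d.fst then (1 : ℂ) else 0))).roots →
          ((∃ z ∈ s, ‖z‖ = ρ) ∧ (∀ z ∈ s, ‖z‖ ≤ ρ)) →
          2 ≤ (s.filter (fun z : ℂ => Real.sqrt ρ - ε ≤ ‖z‖)).card) := by
  intro H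
  obtain ⟨N, hN⟩ := H 2 (1 / 200) (by norm_num)
  obtain ⟨V, iF, iD, G, iR, hconn, hdeg, hcard, h0, x, h1, hx⟩ :=
    Pool.Agent.Results.MP_d250d1_co.Disproof.result N
  obtain ⟨a1, a2, a3⟩ := aux _ 2 x (√2 - 1 / 200) h0 h1 hx
  have key := hN V G hconn (fun v => by convert hdeg v) hcard
    ((Pool.Agent.Results.MP_d250d1_co.Disproof.nbMatrix G).charpoly.roots)
    (by
      congr 1
      unfold Pool.Agent.Results.MP_d250d1_co.Disproof.nbMatrix
      convert rfl using 3
      funext d e
      congr)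
    ⟨a1, a2⟩
  have e : (Multiset.filter (fun z : ℂ => √2 - 1 / 200 ≤ ‖z‖)
      (Pool.Agent.Results.MP_d250d1_co.Disproof.nbMatrix G).charpoly.roots).card < 2 := by
    convert a3
  exact absurd key (not_le.2 (by convert e))

end Pool.Agent.S11620
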