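import Pool.Statements.S11629
import Pool.Agent.W957.CH.Part3
import Pool.Agent.W174.CH.LA1

set_option autoImplicit false
open Pool Pool.MP_d275fd_co

namespace Pool.Agent.S11629

/-- There is f from naturals to naturals tending to infinity such that every finite nonempty graph with all degrees at least 3 has a cycle of some length l with at least f(l) chords (graph edges joining cycle vertices but not on the cycle). -/
theorem result :
    ∃ f : ℕ → ℕ, Filter.Tendsto f Filter.atTop Filter.atTop ∧
      ∀ (V : Type) [Fintype V] [DecidableEq V] [Nonempty V]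
        (G : SimpleGraph V) [DecidableRel G.Adj],
        (∀ v : V, 3 ≤ G.degree v) →
        ∃ (v : V) (c : G.Walk v v), c.IsCycle ∧
          f c.length ≤
            {e : Sym2 V | e ∈ G.edgeSet ∧ (∀ x ∈ e, x ∈ c.support) ∧ e ∉ c.edges}.ncard := by
  exact Pool.Agent.W957.CH.topOf (Pool.Agent.W174.CH.LA1.t_LA1 Pool.Agent.W957.CH.pMARK
    Pool.Agent.W957.CH.pSEG Pool.Agent.W957.CH.pUC Pool.Agent.W957.CH.pR1 Pool.Agent.W957.CH.p4A
    Pool.Agent.W957.CH.pPS Pool.Agent.W957.CH.pPCS)

end Pool.Agent.S11629
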