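import Pool.Statements.S11646
import Pool.Agent.Results.MP_d308b2_co.TwoOccUnbounded

set_option autoImplicit false
open Classical
open Pool Pool.MP_d308b2_co

namespace Pool.Agent.S11646

open Pool.Agent.Results.MP_d308b2_co.TwoOccUnbounded

/-- The negation of the preceding statement: There is a function f on naturals such that for all permutations σ, τ, the absolute value of the Möbius function μ(σ,τ) of the pattern-containment poset is at most f of the number of occurrences of σ in τ. -/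
theorem result :
    ¬ (∃ f : ℕ → ℕ, ∀ m : (Σ n : ℕ, Equiv.Perm (Fin n)) → (Σ n : ℕ, Equiv.Perm (Fin n)) → ℤ,
      (∀ x, m x x = 1) →
      (∀ x y, (¬ ∃ e : Fin x.1 → Fin y.1, StrictMono e ∧
          ∀ i j, x.2 i < x.2 j ↔ y.2 (e i) < y.2 (e j)) → m x y = 0) →
      (∀ x y, x ≠ y →
        (∃ e : Fin x.1 → Fin y.1, StrictMono e ∧
          ∀ i j, x.2 i < x.2 j ↔ y.2 (e i) < y.2 (e j)) →
        ∑ k ∈ Finset.range (y.1 + 1), ∑ ρ : Equiv.Perm (Fin k),
          (if (∃ e : Fin x.1 → Fin k, StrictMono e ∧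
                ∀ i j, x.2 i < x.2 j ↔ ρ (e i) < ρ (e j)) ∧
              (∃ e : Fin k → Fin y.1, StrictMono e ∧
                ∀ i j, ρ i < ρ j ↔ y.2 (e i) < y.2 (e j))
            then m x ⟨k, ρ⟩ else 0) = 0) →
      ∀ x y, |m x y| ≤
        ((f {e : Fin x.1 → Fin y.1 | StrictMono e ∧
            ∀ i j, x.2 i < x.2 j ↔ y.2 (e i) < y.2 (e j)}.ncard : ℕ) : ℤ)) := by
  rintro ⟨f, hf⟩
  refine Pool.Agent.Results.MP_d308b2_co.TwoOccUnbounded.result.1 ⟨f, fun σ τ => ?_⟩
  refine hf mu mu_self ?_ ?_ σ τ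
  · intro x y hxy
    have hne : x ≠ y := by
      rintro rfl
      exact hxy (Cont.refl x)
    have hxy' : ¬ Cont x y := hxy
    rw [mu, if_neg hne, if_neg hxy']
  · intro x y hne hxy
    rw [Finset.sum_range_succ, Finset.sum_range]
    have hc : Cont x y := hxy
    have h1 : mu x y = - ∑ k : Fin y.1, ∑ ρ : Equiv.Perm (Fin k),
        (if Cont x ⟨k, ρ⟩ ∧ Cont ⟨k, ρ⟩ y then mu x ⟨k, ρ⟩ else 0) := by
      rw [mu, if_neg hne, if_pos hc]
    have h2 : ∑ ρ : Equiv.Perm (Fin y.1),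
          (if (∃ e : Fin x.1 → Fin y.1, StrictMono e ∧
                ∀ i j, x.2 i < x.2 j ↔ ρ (e i) < ρ (e j)) ∧
              (∃ e : Fin y.1 → Fin y.1, StrictMono e ∧
                ∀ i j, ρ i < ρ j ↔ y.2 (e i) < y.2 (e j))
            then mu x ⟨y.1, ρ⟩ else 0) = mu x y := by
      rw [Finset.sum_eq_single y.2]
      · rw [if_pos]
        exact ⟨hxy, Cont.refl y⟩
      · intro ρ _ hρ
        rw [if_neg]
        rintro ⟨-, h3⟩
        have h4 : (⟨y.1, ρ⟩ : Pm) = y := eq_of_occ_of_size (σ := ⟨y.1, ρ⟩) (τ := y) h3 rfl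
        apply hρ
        obtain ⟨n, p⟩ := y
        simpa using h4
      · intro h
        exact absurd (Finset.mem_univ _) h
    rw [h2, h1, add_neg_eq_zero]
    refine Finset.sum_congr rfl fun k _ => Finset.sum_congr rfl fun ρ _ => ?_
    exact if_congr Iff.rfl rfl rfl

end Pool.Agent.S11646
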