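import Pool.Statements.S11650
import Pool.Agent.W708.OC.Final
import Pool.Agent.W599.SCD.Frozen

set_option autoImplicit false
open Pool Pool.MP_d31171_co

namespace Pool.Agent.S11650

/-- The negation of the preceding statement: For every n ≥ 5 there are ⌊n/2⌋+1 symmetric chain decompositions of the subsets of an n-set such that any two share at most one set per pair of chains, except their maximal chains, which meet only in ∅ and the full set. -/
theorem result :
    ¬ (∀ n : ℕ, 5 ≤ n →
      ∃ D : Fin (n / 2 + 1) → Finset (Finset (Finset (Fin n))),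
        (∀ i,
          (∀ C ∈ D i,
              IsChain (· ⊆ ·) (C : Set (Finset (Fin n))) ∧
                ∃ a : ℕ, 2 * a ≤ n ∧ C.image Finset.card = Finset.Icc a (n - a)) ∧
            ∀ s : Finset (Fin n), ∃! C, C ∈ D i ∧ s ∈ C) ∧
        ∀ i j, i ≠ j →
          ∀ C ∈ D i, ∀ E ∈ D j,
            (∅ ∈ C → ∅ ∈ E → C ∩ E ⊆ {∅, Finset.univ}) ∧
              (¬(∅ ∈ C ∧ ∅ ∈ E) → (C ∩ E).card ≤ 1)) := by
  intro h
  obtain ⟨D, h1, h2⟩ := h 6 (by decide)
  exact Pool.Agent.W708.OC.no_good _ (Pool.Agent.W599.SCD.good_of_frozen D h1 h2)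

end Pool.Agent.S11650
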