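import Pool.Statements.S11655
import Pool.Agent.W248.CHGMain

set_option autoImplicit false
open Filter
open Pool Pool.MP_d33b86_co

namespace Pool.Agent.S11655

/-- For all integers g ≥ h ≥ 2 there is an infinite set A of positive integers containing no g distinct translates of any h-element set, such that for every ε>0, eventually ∣A ∩ [1,n]∣ ≥ n^(α(g,h)−ε). -/
theorem result :
    ∀ g h : ℕ, 2 ≤ h → h ≤ g →
      ∃ A : Set ℤ,
        A ⊆ {n : ℤ | 1 ≤ n} ∧ A.Infinite ∧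
        (∀ X : Finset ℤ, X.card = h → ∀ k : Fin g → ℤ, Function.Injective k →
          ¬ (∀ i : Fin g, ∀ x ∈ X, x + k i ∈ A)) ∧
        ∀ ε : ℝ, 0 < ε →
          ∀ᶠ n : ℕ in atTop,
            (n : ℝ) ^ ((1 - 1 / (h : ℝ)) * (1 - 1 / (g : ℝ)) *
                (1 + 1 / ((h : ℝ) * (g : ℝ) - 1)) - ε)
              ≤ ((A ∩ Set.Icc (1 : ℤ) (n : ℤ)).ncard : ℝ) := by
  intro g h hh hhg
  have hg : 2 ≤ g := hh.trans hhg
  have hh' : (2 : ℝ) ≤ h := by exact_mod_cast hh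
  have hg' : (2 : ℝ) ≤ g := by exact_mod_cast hg
  have hD : (h : ℝ) * g - 1 ≠ 0 := (Pool.Agent.W248.CHG.D_pos hh hg).ne'
  have e : (1 - 1 / (h : ℝ)) * (1 - 1 / (g : ℝ)) * (1 + 1 / ((h : ℝ) * (g : ℝ) - 1)) =
      Pool.Agent.W248.CHG.al h g := by
    unfold Pool.Agent.W248.CHG.al
    have h1 : (h : ℝ) ≠ 0 := by linarith
    have h2 : (g : ℝ) ≠ 0 := by linarith
    field_simp
    ring
  rw [e]
  exact Pool.Agent.W248.CHG.main h g hh hg

end Pool.Agent.S11655
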