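import Pool.Statements.S11675
import Pool.Agent.W252.ExactInf
-- import your own Pool.Agent.* helpers here

set_option autoImplicit false
open Pool Pool.MP_d40e3c_co

namespace Pool.Agent.S11675

/-- There is a real c > 1/9 such that for all large m, every m-element subset of an abelian group with no nonempty subset summing to zero has at least ⌈c m²⌉ distinct nonempty subset sums. -/
theorem result :
    ∃ c : ℝ, 1 / 9 < c ∧ ∃ M : ℕ, ∀ m : ℕ, M ≤ m →
      ∀ (G : Type) [AddCommGroup G] [DecidableEq G] (A : Finset G),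
        A.card = m →
        (∀ B ⊆ A, B.Nonempty → ∑ x ∈ B, x ≠ 0) →
        ⌈c * ((m : ℝ) ^ 2)⌉ ≤
          (((A.powerset.erase ∅).image (fun B => ∑ x ∈ B, x)).card : ℤ) := by
  obtain ⟨M, hM⟩ := Pool.Agent.W252.main_exact_inf
  refine ⟨1 / 4, by norm_num, M, ?_⟩
  intro m hm G _ _ A hA hZ
  have h1 := hM G A hZ (by omega)
  rw [hA] at h1
  have h2 : A.subsetSum ⊆ insert 0 ((A.powerset.erase ∅).image (fun B => ∑ x ∈ B, x)) := by
    intro x hx
    rw [Finset.mem_subsetSum_iff] at hx
    obtain ⟨B, hB, rfl⟩ := hx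
    by_cases hne : B = ∅
    · subst hne
      exact Finset.mem_insert_self _ _
    · apply Finset.mem_insert_of_mem
      exact Finset.mem_image.2 ⟨B, Finset.mem_erase.2 ⟨hne, Finset.mem_powerset.2 hB⟩, rfl⟩
  have h3 := (Finset.card_le_card h2).trans (Finset.card_insert_le _ _)
  generalize ((A.powerset.erase ∅).image (fun B => ∑ x ∈ B, x)).card = K at h3 ⊢
  have h4 : m ^ 2 / 2 + 1 ≤ K := by omega
  have h5 : m ^ 2 ≤ 2 * K := by omega
  rw [Int.ceil_le]
  have h6 : (m : ℝ) ^ 2 ≤ 2 * (K : ℝ) := by exact_mod_cast h5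
  have h7 : (0 : ℝ) ≤ (m : ℝ) ^ 2 := by positivity
  push_cast
  linarith

end Pool.Agent.S11675
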