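import Pool.Statements.S11698
import Pool.Agent.W634.Owings.Main

set_option autoImplicit false
open Pool Pool.MP_d5cc4e_co

namespace Pool.Agent.S11698

/-- The negation of the preceding statement: There is a colouring of the rationals with two colours such that for every infinite set X of rationals, the sums x+y with x, y in X (x = y allowed) do not all receive the same colour. -/
theorem result :
    ¬ (∃ c : ℚ → Fin 2, ∀ X : Set ℚ, X.Infinite →
      ¬ ∃ i : Fin 2, ∀ x ∈ X, ∀ y ∈ X, c (x + y) = i) := by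
  rintro ⟨c, hc⟩
  obtain ⟨X, hX, ε, h⟩ := Pool.Agent.W634.Owings.owings fun n : ℕ => decide (c (n : ℚ) = 0)
  refine hc ((fun n : ℕ => (n : ℚ)) '' X) (hX.image (Nat.cast_injective.injOn)) ⟨if ε then 0 else 1, ?_⟩
  rintro _ ⟨x, hx, rfl⟩ _ ⟨y, hy, rfl⟩
  have h1 := h x hx y hy
  dsimp only at h1 ⊢
  rw [← Nat.cast_add]
  cases ε
  · have h2 : ¬ c ((x + y : ℕ) : ℚ) = 0 := by simpa using h1
    have h3 : c ((x + y : ℕ) : ℚ) = 1 := by omega
    simpa using h3
  · have h2 : c ((x + y : ℕ) : ℚ) = 0 := by simpa using h1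
    simpa using h2

end Pool.Agent.S11698
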