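import Pool.Statements.S11707
import Pool.Agent.W233.Eppa3

set_option autoImplicit false
open Classical
open Pool Pool.MP_d61016_co

namespace Pool.Agent.S11707

open Pool.Agent.W233.EPPA

/-- Every finite three-graph A embeds as an induced substructure in some finite three-graph B such that every partial automorphism of A extends to an automorphism of B. -/
theorem result :
    ∀ (n : ℕ) (rA : Fin n → Fin n → Prop) (HA : Finset (Finset (Fin n))),
      (Equivalence rA ∧ (∀ a b c, rA a b ∨ rA b c ∨ rA a c) ∧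
        (∀ e ∈ HA, e.card = 4 ∧ ∀ v ∈ e, (e.filter (fun w => rA v w)).card = 2) ∧
        (∀ S : Finset (Fin n), S.card = 5 →
          (∀ v ∈ S, (S.filter (fun w => rA v w)).card ≤ 3) →
          Even (HA.filter (fun e => e ⊆ S)).card)) →
      ∃ (m : ℕ) (rB : Fin m → Fin m → Prop) (HB : Finset (Finset (Fin m))),
        (Equivalence rB ∧ (∀ a b c, rB a b ∨ rB b c ∨ rB a c) ∧
          (∀ e ∈ HB, e.card = 4 ∧ ∀ v ∈ e, (e.filter (fun w => rB v w)).card = 2) ∧
          (∀ S : Finset (Fin m), S.card = 5 →
            (∀ v ∈ S, (S.filter (fun w => rB v w)).card ≤ 3) →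
            Even (HB.filter (fun e => e ⊆ S)).card)) ∧
        ∃ f : Fin n ↪ Fin m,
          (∀ x y, rA x y ↔ rB (f x) (f y)) ∧
          (∀ e : Finset (Fin n), e ∈ HA ↔ e.map f ∈ HB) ∧
          ∀ (S : Finset (Fin n)) (p : Fin n → Fin n),
            Set.InjOn p (S : Set (Fin n)) →
            (∀ x ∈ S, ∀ y ∈ S, rA x y ↔ rA (p x) (p y)) →
            (∀ e ⊆ S, e ∈ HA ↔ e.image p ∈ HA) →
            ∃ σ : Fin m ≃ Fin m,
              (∀ x y, rB x y ↔ rB (σ x) (σ y)) ∧
              (∀ e : Finset (Fin m), e ∈ HB ↔ e.map σ.toEmbedding ∈ HB) ∧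
              ∀ x ∈ S, σ (f x) = f (p x) := by
  intro n rA HA ⟨hr, h3, h2, h5⟩
  -- colours
  obtain ⟨c, hc⟩ : ∃ c : Fin n → Bool, rA = rel c := by
    by_cases hn : Nonempty (Fin n)
    · obtain ⟨x0⟩ := hn
      refine ⟨fun x => decide (rA x0 x), ?_⟩
      funext x y
      apply propext
      unfold rel
      rw [decide_eq_decide]
      constructor
      · intro h
        exact ⟨fun h1 => hr.trans h1 h, fun h1 => hr.trans h1 (hr.symm h)⟩
      · intro h
        by_cases hx : rA x0 x
        · exact hr.trans (hr.symm hx) (h.mp hx)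
        · rcases h3 x0 x y with h1 | h1 | h1
          · exact absurd h1 hx
          · exact h1
          · exact absurd (h.mpr h1) hx
    · refine ⟨fun _ => true, ?_⟩
      funext x
      exact absurd ⟨x⟩ hn
  subst hc
  have hgA : Good c (h4 HA) := h4_good c HA h2 h5
  have hHA : HA = Hyp c (h4 HA) := Hyp_h4 c HA h2
  obtain ⟨E, hE, hEh⟩ := exists_edge c (h4 HA) hgA
  -- the extension
  let e0 : V n ≃ Fin (Fintype.card (V n)) := Fintype.equivFin (V n)
  let c' : Fin (Fintype.card (V n)) → Bool := fun k => cV (e0.symm k)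
  let h' : Fin (Fintype.card (V n)) → Fin (Fintype.card (V n)) → Fin (Fintype.card (V n)) →
    Fin (Fintype.card (V n)) → ZMod 2 := fun a a' b b' =>
      hV (e0.symm a) (e0.symm a') (e0.symm b) (e0.symm b')
  have hg' : Good c' h' := by
    have := hV_good n
    exact ⟨fun a a' b b' => this.s1 _ _ _ _, fun a a' b b' => this.s2 _ _ _ _,
      fun a1 a2 a3 b b' h12 h13 hb hab => this.add _ _ _ _ _ h12 h13 hb hab⟩
  refine ⟨Fintype.card (V n), rel c', Hyp c' h', ⟨⟨fun _ => rfl, fun h => h.symm,
    fun h h' => h.trans h'⟩, ?_, Hyp_two, fun S hS hS3 => Hyp_five hg' S hS hS3⟩, ?_⟩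
  · intro a b d
    unfold rel
    cases c' a <;> cases c' b <;> cases c' d <;> simp
  refine ⟨(emb c E).trans e0.toEmbedding, ?_, ?_, ?_⟩
  · intro x y
    show c x = c y ↔ cV (e0.symm (e0 (emb c E x))) = cV (e0.symm (e0 (emb c E y)))
    rw [Equiv.symm_apply_apply, Equiv.symm_apply_apply]
    rfl
  · intro e
    nth_rw 1 [hHA]
    refine mem_Hyp_map hgA hg' _ ?_ ?_ e
    · intro x y
      show c x = c y ↔ cV (e0.symm (e0 (emb c E x))) = cV (e0.symm (e0 (emb c E y)))
      rw [Equiv.symm_apply_apply, Equiv.symm_apply_apply]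
      rfl
    · intro a a' b b' ha hb ca cb cab
      show hV (e0.symm (e0 (emb c E a))) (e0.symm (e0 (emb c E a'))) (e0.symm (e0 (emb c E b)))
        (e0.symm (e0 (emb c E b'))) = _
      rw [Equiv.symm_apply_apply, Equiv.symm_apply_apply, Equiv.symm_apply_apply,
        Equiv.symm_apply_apply, emb_h c E hE a a' b b' ca cb cab, hEh a a' b b' ca cb cab]
  · intro S p hp hrp hep
    have hH : ∀ i i' j j', i ∈ S → i' ∈ S → j ∈ S → j' ∈ S → c i = false → c i' = false →
      c j = true → c j' = true →
      E (p i) (p j) + E (p i') (p j) + E (p i) (p j') + E (p i') (p j') =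
        E i j + E i' j + E i j' + E i' j' := by
      intro i i' j j' hi hi' hj hj' ci ci' cj cj'
      have hcc : c i ≠ c j := by rw [ci, cj]; decide
      have e1 : c (p i) = c (p i') := (hrp i hi i' hi').mp (ci.trans ci'.symm)
      have e2 : c (p j) = c (p j') := (hrp j hj j' hj').mp (cj.trans cj'.symm)
      have e3 : c (p i) ≠ c (p j) := fun h => hcc ((hrp i hi j hj).mpr h)
      rw [← hEh i i' j j' (ci.trans ci'.symm) (cj.trans cj'.symm) hcc,
        ← hEh (p i) (p i') (p j) (p j') e1 e2 e3]
      by_cases hii : i = i'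
      · subst hii; simp [h4]
      by_cases hjj : j = j'
      · subst hjj; simp [h4]
      have pii : p i ≠ p i' := fun h => hii (hp hi hi' h)
      have pjj : p j ≠ p j' := fun h => hjj (hp hj hj' h)
      unfold h4
      rw [if_neg (by tauto), if_neg (by tauto)]
      have hsub : ({i, i', j, j'} : Finset (Fin n)) ⊆ S := by
        intro x hx
        simp only [Finset.mem_insert, Finset.mem_singleton] at hx
        rcases hx with rfl | rfl | rfl | rfl <;> assumption
      have himg : ({i, i', j, j'} : Finset (Fin n)).image p = {p i, p i', p j, p j'} := by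
        simp [Finset.image_insert]
      have := hep _ hsub
      rw [himg] at this
      exact (io_congr _ _ _ _ this).symm
    obtain ⟨π, s, F, haut⟩ := exists_aut c E hE S p hp hrp hH
    refine ⟨e0.symm.trans ((aut π s F).trans e0), ?_, ?_, ?_⟩
    · intro x y
      show cV (e0.symm x) = cV (e0.symm y) ↔ cV (e0.symm (e0 (aut π s F (e0.symm x)))) =
        cV (e0.symm (e0 (aut π s F (e0.symm y))))
      rw [Equiv.symm_apply_apply, Equiv.symm_apply_apply]
      exact aut_c π s F _ _
    · intro e
      refine mem_Hyp_map hg' hg' _ ?_ ?_ e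
      · intro x y
        show cV (e0.symm x) = cV (e0.symm y) ↔ cV (e0.symm (e0 (aut π s F (e0.symm x)))) =
          cV (e0.symm (e0 (aut π s F (e0.symm y))))
        rw [Equiv.symm_apply_apply, Equiv.symm_apply_apply]
        exact aut_c π s F _ _
      · intro a a' b b' ha hb ca cb cab
        show hV (e0.symm (e0 (aut π s F (e0.symm a)))) (e0.symm (e0 (aut π s F (e0.symm a'))))
          (e0.symm (e0 (aut π s F (e0.symm b)))) (e0.symm (e0 (aut π s F (e0.symm b')))) =
          hV (e0.symm a) (e0.symm a') (e0.symm b) (e0.symm b')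
        rw [Equiv.symm_apply_apply, Equiv.symm_apply_apply, Equiv.symm_apply_apply,
          Equiv.symm_apply_apply]
        exact aut_h π s F _ _ _ _ ca cb cab
    · intro x hx
      show e0 (aut π s F (e0.symm (e0 (emb c E x)))) = e0 (emb c E (p x))
      rw [Equiv.symm_apply_apply, haut x hx]

end Pool.Agent.S11707
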