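import Pool.Statements.S11713
import Pool.Agent.W315.Memoryless
import Pool.Agent.Rect22.Final4

set_option autoImplicit false
open Pool Pool.MP_d62fe1_co

namespace Pool.Agent.S11713

open Pool.Agent.Rect22 in
theorem aux {N q h q0 : ℕ} {D : Rect22.Dat (ℤ × ℤ)} (H : Rect22.Hyp D) (hV : D.V = boardZ N)
    (hF : D.Fam = Fam4 N q h) (hh : 1 ≤ h) (hq : 1 ≤ q) (hq0 : q + h ≤ q0) :
    ∃ σ : Finset (ℤ × ℤ) → Finset (ℤ × ℤ) → Finset (ℤ × ℤ),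
      (∀ X Y : Finset (ℤ × ℤ), X ⊆ boardZ N → Y ⊆ boardZ N → Disjoint X Y →
        σ X Y ⊆ boardZ N \ (X ∪ Y) ∧ (σ X Y).card = min 2 (boardZ N \ (X ∪ Y)).card) ∧
      ∀ M B : ℕ → Finset (ℤ × ℤ), M 0 = ∅ → B 0 = ∅ →
        (∀ k : ℕ, M k ⊆ M (k + 1) ∧
          M (k + 1) \ M k ⊆ boardZ N \ (M k ∪ B k) ∧
          (M (k + 1) \ M k).card = min 2 (boardZ N \ (M k ∪ B k)).card ∧
          B (k + 1) = B k ∪ σ (M (k + 1)) (B k)) →
        ∀ k : ℕ, ¬ HasLatZ q0 (M k) := by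
  refine W315.memoryless (Good D) (HasLatZ q0) (good_start H) ?_ ?_ ?_
  · intro M B m hM hB hMB hG hm hm2
    rw [← hV] at hm ⊢
    exact good_round H hG hm hm2
  · rintro M M' hMM' ⟨P, u, v, h1, h2⟩
    exact ⟨P, u, v, h1, fun i j hi hj => hMM' (h2 i j hi hj)⟩
  · intro M B hM hB hMB hG hfull hL
    obtain ⟨A, hA, hAM⟩ := Fam4_of_has hh hq hq0 hM hL
    rw [← hV] at hfull
    rw [← hF] at hA
    exact good_end H hG hfull hA hAM

/-- For every c>2, for all large N, Breaker has a strategy in the (2:2) Maker-Breaker game on [N]^2 (Maker first) so that Maker never owns a q×q parallelogram lattice, q = floor(c·sqrt(log2 N)). -/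
theorem result :
    ∀ c : ℝ, 2 < c → ∃ N₀ : ℕ, ∀ N : ℕ, N₀ ≤ N →
      ∀ S : Finset (ℤ × ℤ),
        S = (Finset.Icc (1 : ℤ) (N : ℤ)) ×ˢ (Finset.Icc (1 : ℤ) (N : ℤ)) →
        ∃ σ : Finset (ℤ × ℤ) → Finset (ℤ × ℤ) → Finset (ℤ × ℤ),
          (∀ X Y : Finset (ℤ × ℤ), X ⊆ S → Y ⊆ S → Disjoint X Y →
            σ X Y ⊆ S \ (X ∪ Y) ∧ (σ X Y).card = min 2 (S \ (X ∪ Y)).card) ∧
          ∀ M B : ℕ → Finset (ℤ × ℤ), M 0 = ∅ → B 0 = ∅ →
            (∀ k : ℕ, M k ⊆ M (k + 1) ∧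
              M (k + 1) \ M k ⊆ S \ (M k ∪ B k) ∧
              (M (k + 1) \ M k).card = min 2 (S \ (M k ∪ B k)).card ∧
              B (k + 1) = B k ∪ σ (M (k + 1)) (B k)) →
            ∀ k : ℕ, ¬ ∃ P u v : ℤ × ℤ, u.1 * v.2 - u.2 * v.1 ≠ 0 ∧
              ∀ i j : ℕ, i < ⌊c * Real.sqrt (Real.logb 2 (N : ℝ))⌋₊ →
                j < ⌊c * Real.sqrt (Real.logb 2 (N : ℝ))⌋₊ →
                P + (i : ℤ) • u + (j : ℤ) • v ∈ M k := by
  intro c hc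
  have hc0 : 0 < c := by linarith
  have hc2 : 4 < c ^ 2 := by nlinarith
  set e : ℝ := min ((c ^ 2 - 4) / 2) (1 / 20) with he_def
  have he : 0 < e := lt_min (by linarith) (by norm_num)
  have he1 : e ≤ 1 / 20 := min_le_right _ _
  have he2 : ((4 : ℕ) : ℝ) + e < c ^ 2 := by
    have : e ≤ (c ^ 2 - 4) / 2 := min_le_left _ _
    push_cast
    linarith
  have h1 := Rect22.hyp4 he he1
  have h2 := Rect22.num_cont (κ := 4) (by norm_num) le_rfl he he1 hc0 he2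
  obtain ⟨hth, h3⟩ := Rect22.num_over (κ := 4) (by norm_num) le_rfl he he1
  have h4 := (h1.and h2).and h3
  obtain ⟨N₀, hN₀⟩ := Filter.eventually_atTop.1 h4
  refine ⟨N₀, fun N hN S hS => ?_⟩
  obtain ⟨⟨g1, g2⟩, g3⟩ := hN₀ N hN
  have hh : 1 ≤ Nat.sqrt (Rect22.qq 4 e N) := g3.2.2.2.1
  have hq1 : 1 ≤ Rect22.qq 4 e N := by
    by_contra hcon
    have h0 : Rect22.qq 4 e N = 0 := by omega
    rw [h0] at hh
    simp at hh
  have hfl : c * Real.sqrt (Real.logb 2 N) ≤ (⌊c * Real.sqrt (Real.logb 2 N)⌋₊ : ℕ) + 1 :=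
    (Nat.lt_floor_add_one _).le
  have hq0 := g2 ⌊c * Real.sqrt (Real.logb 2 N)⌋₊ hfl
  obtain ⟨σ, hσ1, hσ2⟩ := aux g1 rfl rfl hh hq1 hq0
  have hS' : S = Rect22.boardZ N := hS
  subst hS'
  refine ⟨σ, hσ1, fun M B hM0 hB0 hst k => ?_⟩
  rintro ⟨P, u, v, huv, hM⟩
  refine hσ2 M B hM0 hB0 hst k ⟨P, u, v, huv, fun i j hi hj => ?_⟩
  have e1 : Rect22.pt P u v (i : ℤ) (j : ℤ) = P + (i : ℤ) • u + (j : ℤ) • v := by
    unfold Rect22.pt
    ext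
    · simp
    · simp
  rw [e1]
  exact hM i j hi hj

end Pool.Agent.S11713
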