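import Pool.Statements.S11742
import Pool.Agent.W321.GB.Final

set_option autoImplicit false
open Pool Pool.MP_d7f58c_co

namespace Pool.Agent.S11742

/-- The negation of the preceding statement: For every ε>0 and all large n, every n×n ±1 matrix admits row and column sign flips x,y with sum of a_ij·x_i·y_j at least (1−ε)·n^{3/2}; that is, the switching-game value is at least (1+o(1))·n^{3/2}. -/
theorem result :
    ¬ (∀ ε : ℝ, 0 < ε → ∃ N : ℕ, ∀ n : ℕ, N ≤ n →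
      ∀ A : Fin n → Fin n → ℤ, (∀ i j, A i j = 1 ∨ A i j = -1) →
        ∃ x y : Fin n → ℤ, (∀ i, x i = 1 ∨ x i = -1) ∧ (∀ j, y j = 1 ∨ y j = -1) ∧
          (1 - ε) * ((n : ℝ) ^ ((3 : ℝ) / 2)) ≤
            ((∑ i : Fin n, ∑ j : Fin n, A i j * x i * y j : ℤ) : ℝ)) := by
  intro h
  obtain ⟨ε, hε, r0, hr0⟩ := Pool.Agent.W321.GB.final
  obtain ⟨N, hN⟩ := h ε hε
  obtain ⟨A, hA, hbad⟩ := hr0 (r0 + N) (by omega)
  have hn : N ≤ 2 ^ (r0 + N) := by
    have : r0 + N < 2 ^ (r0 + N) := Nat.lt_two_pow_self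
    omega
  obtain ⟨x, y, hx, hy, hxy⟩ := hN (2 ^ (r0 + N)) hn A hA
  exact absurd hxy (not_le.2 (hbad x y hx hy))

end Pool.Agent.S11742
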