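import Pool.Statements.S11781
import Pool.Agent.W555.KS.Core
-- import your own Pool.Agent.* helpers here

set_option autoImplicit false
open Pool Pool.MP_d9740f_co

namespace Pool.Agent.S11781

/-- Take 1≤d≤r≤2d and n≥r+1, and a d-dimensional simplicial complex on n vertices whose realization embeds topologically in R^r. Then for each 1≤k≤d its number of k-faces is at most the number of k-faces of the cyclic polytope C_{r+1}(n). -/
theorem result :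
    ∀ d r n : ℕ, 1 ≤ d → d ≤ r → r ≤ 2 * d → r + 1 ≤ n →
    ∀ K : Finset (Finset (Fin n)),
      (∀ σ ∈ K, ∀ τ : Finset (Fin n), τ ⊆ σ → τ.Nonempty → τ ∈ K) →
      (∀ σ ∈ K, σ.Nonempty ∧ σ.card ≤ d + 1) →
      (∃ σ ∈ K, σ.card = d + 1) →
      (∀ i : Fin n, ({i} : Finset (Fin n)) ∈ K) →
      (∃ f : (Fin n → ℝ) → EuclideanSpace ℝ (Fin r),
        ContinuousOn f {x : Fin n → ℝ | (∀ i, 0 ≤ x i) ∧ ∑ i, x i = 1 ∧
            ∃ σ ∈ K, ∀ i, i ∉ σ → x i = 0} ∧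
        Set.InjOn f {x : Fin n → ℝ | (∀ i, 0 ≤ x i) ∧ ∑ i, x i = 1 ∧
            ∃ σ ∈ K, ∀ i, i ∉ σ → x i = 0}) →
      ∀ k : ℕ, 1 ≤ k → k ≤ d →
        {σ : Finset (Fin n) | σ ∈ K ∧ σ.card = k + 1}.ncard ≤
        {S : Finset (Fin n) | S.card = k + 1 ∧
          ∃ a : Fin (r + 1) → ℝ, ∃ c : ℝ,
            (∀ i ∈ S, ∑ j : Fin (r + 1), a j * ((i : ℕ) : ℝ) ^ ((j : ℕ) + 1) = c) ∧
            (∀ i : Fin n, i ∉ S →
              ∑ j : Fin (r + 1), a j * ((i : ℕ) : ℝ) ^ ((j : ℕ) + 1) < c)}.ncard := by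
  exact W555.KS.main1 W975.KS.embR W563.KS.dstep (W555.KS.dtop' W357.KS.Fan.fan W555.KS.halg')
    (W386.KS.dlow W374.KS.minor) W682.KS.gnum W410.KalSar.gcnt W410.KalSar.gall W386.KS.supp

end Pool.Agent.S11781
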