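import Pool.Statements.S11795
import Pool.Agent.W758.AHC.Reg
import Pool.Agent.W758.AHC.Stm2
import Pool.Agent.W168.AHC.LO
import Pool.Agent.W790.AHC.Lo2
import Pool.Agent.W414.AHC.Bin
import Pool.Agent.W726.AHC.LO3
import Pool.Agent.W252.AHC.LO4
import Pool.Agent.W654.AHC.Base
import Pool.Agent.W12.AHC.Step
import Pool.Agent.W271.AHC.Side
import Pool.Agent.W494.AHC.FIN
import Pool.Agent.W446.AHC.LA
import Pool.Agent.W863.AHC.Lab
import Pool.Agent.W311.AHC.R34
import Pool.Agent.W721.AHC.XB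
import Pool.Agent.W428.AHC.YB
import Pool.Agent.W824.AHC.NumOf
import Pool.Agent.W696.AHC.X2
import Pool.Agent.W140.AHC.Avg
import Pool.Agent.W987.AHC.RegV
import Pool.Agent.W403.AHC.Upv
import Pool.Agent.W264.AHC.Low
import Pool.Agent.W764.AHC.Main
import Pool.Agent.W372.AHC.Star1
import Pool.Agent.W493.AHC.Exc
import Pool.Agent.W371.AHC.PC
import Pool.Agent.W632.AHC.CC
import Pool.Agent.W249.AHCPHI0
import Pool.Agent.W758.AHC.PF
import Pool.Agent.W638.AHC.REC

set_option autoImplicit false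
open Pool Pool.MP_da4a48_co

namespace Pool.Agent.S11795

/-- For all n and δ ≤ n, the largest value of ∣A∣·∣B∣ over families A, B of subsets of an n-set, with every a in A and b in B meeting in exactly δ elements, equals the maximum over 0 ≤ m ≤ n−δ of 2^m·C(n−m,δ). -/
theorem result :
    ∀ n δ : ℕ, δ ≤ n →
      IsGreatest
        {p : ℕ | ∃ A B : Finset (Finset (Fin n)),
            (∀ a ∈ A, ∀ b ∈ B, (a ∩ b).card = δ) ∧ p = A.card * B.card}
        ((Finset.range (n - δ + 1)).sup (fun m => 2 ^ m * Nat.choose (n - m) δ)) := by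
  have LO := Pool.Agent.W168.AHC.lo
  have LO2 := Pool.Agent.W790.AHC.lo2 LO
  have BIN := Pool.Agent.W414.AHC.bin
  have LO3 := Pool.Agent.W726.AHC.lo3 LO LO2 BIN
  have LO4 := Pool.Agent.W252.AHC.lo4 LO BIN
  have SIDE := Pool.Agent.W271.AHC.side LO LO2 LO3 LO4 Pool.Agent.W654.AHC.base
    Pool.Agent.W12.AHC.step
  have CC : Pool.Agent.W758.AHC.S_CC := Pool.Agent.W632.AHC.ccfacts
  have NUM := Pool.Agent.W824.AHC.numof CC Pool.Agent.W249.AHCPHI0.phi0 (Pool.Agent.W372.AHC.star1)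
    (Pool.Agent.W493.AHC.exc)
  have REG := Pool.Agent.W758.AHC.reg SIDE Pool.Agent.W494.AHC.fin Pool.Agent.W446.AHC.la
    Pool.Agent.W863.AHC.lab Pool.Agent.W311.AHC.r34 Pool.Agent.W721.AHC.xb
    Pool.Agent.W428.AHC.YB.yb Pool.Agent.W371.AHC.pc NUM Pool.Agent.W696.AHC.x2
  have PF : Pool.Agent.W758.AHC.S_PF := Pool.Agent.W758.AHC.pf
  have UPV := Pool.Agent.W403.AHC.upv PF Pool.Agent.W638.AHC.rec Pool.Agent.W140.AHC.Avg.avg
    (Pool.Agent.W987.AHC.regv REG)
  exact Pool.Agent.W764.AHC.main UPV Pool.Agent.W264.AHC.low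

end Pool.Agent.S11795
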