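import Pool.Statements.S11816

set_option autoImplicit false
open Pool Pool.MP_daf6f7_co

namespace Pool.Agent.S11816

/-- The hyperedges of the counterexample: the six stars of the wheel with five spokes.
Vertices `0..4` are the rim edges `i (i+1)`, vertices `5..9` are the spokes `i-hub`.
Hyperedge `i < 5` is the star of the rim vertex `i`, hyperedge `5` is the star of the hub. -/
def E : Fin 6 → Finset (Fin 10) :=
  ![{0, 4, 5}, {0, 1, 6}, {1, 2, 7}, {2, 3, 8}, {3, 4, 9}, {5, 6, 7, 8, 9}]

lemma E_nonempty : ∀ i, (E i).Nonempty := by decide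

lemma E_cond : ∀ S : Finset (Fin 6), ∃ M ⊆ S,
    (∀ i ∈ M, ∀ j ∈ M, i ≠ j → Disjoint (E i) (E j)) ∧
    S.card ≤ M.card *
      (Finset.univ.sup (fun v : Fin 10 => (S.filter (fun i => v ∈ E i)).card) + 1) := by
  decide +kernel

lemma E_sup : Finset.univ.sup
    (fun v : Fin 10 => (Finset.univ.filter (fun i : Fin 6 => v ∈ E i)).card) = 2 := by
  decide +kernel

lemma E_no_col : ∀ c : Fin 6 → Fin 3, ∃ i j, i ≠ j ∧ c i = c j ∧ ¬ Disjoint (E i) (E j) := by
  decide +kernel

/-- The negation of the preceding statement: For any finite hypergraph (edges may repeat) in which every subfamily of edges has a matching of size at least its edge count divided by its max degree plus one, the edges can be colored with max degree plus one colors so same-colored edges are disjoint. -/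
theorem result :
    ¬ (∀ (V : Type) [Fintype V] [DecidableEq V] (m : ℕ) (e : Fin m → Finset V),
    (∀ i, (e i).Nonempty) →
    (∀ S : Finset (Fin m), ∃ M ⊆ S,
        (∀ i ∈ M, ∀ j ∈ M, i ≠ j → Disjoint (e i) (e j)) ∧
        S.card ≤ M.card *
          (Finset.univ.sup (fun v : V => (S.filter (fun i => v ∈ e i)).card) + 1)) →
    ∃ c : Fin m → Fin (Finset.univ.sup
        (fun v : V => (Finset.univ.filter (fun i : Fin m => v ∈ e i)).card) + 1),
      ∀ i j, i ≠ j → c i = c j → Disjoint (e i) (e j)) := by
  intro h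
  obtain ⟨c, hc⟩ := h (Fin 10) 6 E E_nonempty E_cond
  have hlt : ∀ i, (c i).val < 3 := by
    intro i
    exact lt_of_lt_of_eq (c i).isLt (congrArg (fun t => t + 1) E_sup)
  obtain ⟨i, j, hij, hcij, hd⟩ := E_no_col (fun i => ⟨(c i).val, hlt i⟩)
  apply hd
  apply hc i j hij
  apply Fin.ext
  have := congrArg Fin.val hcij
  simpa using this

end Pool.Agent.S11816
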