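import Pool.Statements.S11846
import Pool.Agent.W211.ZSL

/-!
Zero-sum versus two-colour Ramsey numbers of forests: the limit is not 1.

Let `G` be the star with `p = 13 q` edges together with a matching with `q` edges, `m = 14 q`. Colour the
edges of `K_(2m-2)` by `0` inside one half, `2` inside the other half, `1` between the halves: the sum of the
colours of a copy of `G` lies strictly between `0` and `m` or strictly between `m` and `2m`, hence
`R(G, Z_m) ≥ 2 m - 1 = 28 q - 1`. On the other hand `R(G, 2) ≤ 2 p + q = 27 q`.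
-/

set_option autoImplicit false
open scoped Classical
open Pool Pool.MP_dc28e4_co

namespace Pool.Agent.S11846

/-- The negation of the preceding statement: For every ε>0, for all large m and every forest G with m edges, the zero-sum Ramsey number R(G,Z_m) is at most (1+ε) times the 2-colour Ramsey number R(G,2); since R(G,Z_m) ≥ R(G,2) always, this is the limit-equals-1 conjecture. -/
theorem result :
    ¬ (∀ ε : ℝ, 0 < ε → ∃ M : ℕ, ∀ m : ℕ, M ≤ m → ∀ k : ℕ, ∀ G : SimpleGraph (Fin k),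
    G.IsAcyclic → G.edgeSet.ncard = m →
    ((sInf {N : ℕ | ∀ c : Sym2 (Fin N) → ZMod m, ∃ f : Fin k → Fin N,
        Function.Injective f ∧
        (∑ u : Fin k, ∑ v : Fin k,
          (if u < v ∧ G.Adj u v then c s(f u, f v) else (0 : ZMod m))) = 0} : ℕ) : ℝ) ≤
    (1 + ε) * ((sInf {N : ℕ | ∀ c : Sym2 (Fin N) → Bool, ∃ f : Fin k → Fin N,
        Function.Injective f ∧ ∃ b : Bool, ∀ u v : Fin k, G.Adj u v →
          c s(f u, f v) = b} : ℕ) : ℝ)) := by
  intro h
  obtain ⟨M, hM⟩ := h (1 / 60) (by norm_num)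
  set q : ℕ := M + 2 with hq
  have h1 := hM (14 * q) (by omega) (13 * q + 1 + 2 * q) (Pool.Agent.W211.ZSF.Gr (13 * q) q)
    (Pool.Agent.W211.ZSF.acyclic _ _) (by rw [Pool.Agent.W211.ZSF.edgeSet_ncard]; ring)
  -- upper bound for two colours
  have h2 : sInf {N : ℕ | ∀ c : Sym2 (Fin N) → Bool, ∃ f : Fin (13 * q + 1 + 2 * q) → Fin N,
        Function.Injective f ∧ ∃ b : Bool, ∀ u v : Fin (13 * q + 1 + 2 * q),
          (Pool.Agent.W211.ZSF.Gr (13 * q) q).Adj u v → c s(f u, f v) = b} ≤ 27 * q := by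
    apply Nat.sInf_le
    intro c
    obtain ⟨b, f, hf, hfb⟩ := Pool.Agent.W211.ZSF.two_colour q (by omega) (by simp) c
    exact ⟨f, hf, b, hfb⟩
  -- lower bound for zero sums
  have h3 : 28 * q - 1 ≤ sInf {N : ℕ | ∀ c : Sym2 (Fin N) → ZMod (14 * q),
      ∃ f : Fin (13 * q + 1 + 2 * q) → Fin N, Function.Injective f ∧
        (∑ u : Fin (13 * q + 1 + 2 * q), ∑ v : Fin (13 * q + 1 + 2 * q),
          (if u < v ∧ (Pool.Agent.W211.ZSF.Gr (13 * q) q).Adj u v then c s(f u, f v)
            else (0 : ZMod (14 * q)))) = 0} := by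
    haveI : NeZero (14 * q) := ⟨by omega⟩
    refine le_csInf ?_ ?_
    · obtain ⟨N, hN⟩ := Pool.Agent.W211.ZSF.ramsey (ZMod (14 * q)) (13 * q + 1 + 2 * q)
      refine ⟨N, fun c => ?_⟩
      obtain ⟨f, hf, y, hy⟩ := hN c
      refine ⟨f, hf, ?_⟩
      rw [Pool.Agent.W211.ZSF.sum_adj (13 * q) q (fun u v => c s(f u, f v))]
      have : ∀ v ∈ Pool.Agent.W211.ZSF.D (13 * q) q,
          c s(f (Pool.Agent.W211.ZSF.par (13 * q) q v), f v) = y := by
        intro v hv
        exact hy _ _ (Pool.Agent.W211.ZSF.rel_lt (Pool.Agent.W211.ZSF.rel_iff.2 ⟨hv, rfl⟩)).ne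
      rw [Finset.sum_congr rfl this, Finset.sum_const, Pool.Agent.W211.ZSF.card_D, nsmul_eq_mul]
      have h5 : ((13 * q + q : ℕ) : ZMod (14 * q)) = 0 := by
        rw [ZMod.natCast_eq_zero_iff]
        exact ⟨1, by ring⟩
      rw [h5, zero_mul]
    · intro N hN
      by_contra hlt
      obtain ⟨f, hf, hsum⟩ := hN (Pool.Agent.W211.ZSF.col (14 * q) (14 * q - 1) N)
      exact Pool.Agent.W211.ZSF.lower q (by omega) N (by omega) f hf hsum
  have h4 : ((28 * q - 1 : ℕ) : ℝ) ≤ (1 + 1 / 60) * ((27 * q : ℕ) : ℝ) := by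
    refine (Nat.cast_le.2 h3).trans (h1.trans ?_)
    exact mul_le_mul_of_nonneg_left (Nat.cast_le.2 h2) (by norm_num)
  rw [Nat.cast_sub (by omega)] at h4
  push_cast at h4
  have h6 : (2 : ℝ) ≤ (q : ℝ) := by
    have : 2 ≤ q := by omega
    exact_mod_cast this
  linarith

end Pool.Agent.S11846
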