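-- Frozen statement S11853 (MP_dc9350_co): Caro-Wei type bound for the hard-core model.
import Pool.Statements.S11853
import Pool.Agent.W106.CW.Fin
import Pool.Agent.W119.CW.SWAP
import Pool.Agent.W315.CW.COVER
import Pool.Agent.W143.CW.Var
import Pool.Agent.W589.CW.Der
import Pool.Agent.W721.CW.ROOTEX
import Pool.Agent.W54.CW.ROOTDER
import Pool.Agent.W397.CW.Q
import Pool.Agent.W303.CW.FGoodP
import Pool.Agent.W481.CW.PAR
import Pool.Agent.W701.CW.Cont
import Pool.Agent.W721.CW.GG

set_option autoImplicit false
open Classical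
open Pool Pool.MP_dc9350_co

namespace Pool.Agent.S11853

/-- For every finite simple graph and every t>0, the sum over vertices v of t/(1+(deg v+1)t) is at most the mean size of a random independent set drawn with weight t^∣I∣ (hard-core model). -/
theorem result :
    ∀ (V : Type) [Fintype V] (G : SimpleGraph V) (t : ℝ), 0 < t →
      (∑ v : V, t / (1 + ((G.degree v : ℝ) + 1) * t)) ≤
        (∑ I ∈ (Finset.univ : Finset (Finset V)).filter
              (fun I : Finset V => G.IsIndepSet (↑I : Set V)),
            ((Finset.card I : ℕ) : ℝ) * t ^ (Finset.card I)) /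
        (∑ I ∈ (Finset.univ : Finset (Finset V)).filter
              (fun I : Finset V => G.IsIndepSet (↑I : Set V)),
            t ^ (Finset.card I)) := by
  have hroot := Pool.Agent.W721.CWROOTEX.rootEx
  have hgood : Pool.Agent.W106.CW.FGood :=
    Pool.Agent.W303.CW.fGood hroot (Pool.Agent.W54.CW.rootDer hroot) Pool.Agent.W397.CW.qIneq
  have hM : Pool.Agent.W106.CW.MainAbs :=
    Pool.Agent.W106.CW.mainAbs ⟨_, _, hgood⟩ Pool.Agent.W481.CW.parInt
      Pool.Agent.W701.CW.parCont Pool.Agent.W721.CWGG.gIneq
  exact Pool.Agent.W106.CW.fin Pool.Agent.W119.CW.swap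
    (Pool.Agent.W315.CW.cover Pool.Agent.W119.CW.swap)
    (Pool.Agent.W143.CW.varIneq Pool.Agent.W119.CW.swap)
    Pool.Agent.W589.CW.Der.derU hM

end Pool.Agent.S11853
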