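import Pool.Statements.S11885
import Mathlib

set_option autoImplicit false
open Classical
open Pool Pool.MP_dd5ef2_co

namespace Pool.Agent.S11885

open Finset

/-- second moment of a sum of independent centred variables, as a finite sum -/
lemma second_moment {V : Type} [Fintype V] (f : V → ℝ) (hf : ∑ v, f v = 0)
    (hb : ∀ v, f v ^ 2 ≤ 1) (m : ℕ) :
    ∑ κ : Fin m → V, (∑ t, f (κ t)) ^ 2 ≤ m * (Fintype.card V : ℝ) ^ m := by
  induction m with
  | zero => simp
  | succ m ih =>
    rw [← (Fin.consEquiv (fun _ : Fin (m + 1) => V)).sum_comp, Fintype.sum_prod_type]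
    have h1 : ∀ v : V, ∀ κ : Fin m → V,
        (∑ t, f ((Fin.consEquiv (fun _ : Fin (m + 1) => V)) (v, κ) t)) ^ 2 =
          f v ^ 2 + 2 * f v * (∑ t, f (κ t)) + (∑ t, f (κ t)) ^ 2 := by
      intro v κ
      rw [Fin.sum_univ_succ]
      simp only [Fin.consEquiv_apply, Fin.cons_zero, Fin.cons_succ]
      ring
    simp_rw [h1, sum_add_distrib, ← mul_sum, ← sum_mul, ← mul_sum, hf]
    simp only [sum_const, card_univ, Fintype.card_fun, Fintype.card_fin, nsmul_eq_mul]
    have h2 : ∑ v, f v ^ 2 ≤ Fintype.card V := by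
      calc ∑ v, f v ^ 2 ≤ ∑ v : V, (1 : ℝ) := sum_le_sum fun v _ => hb v
        _ = Fintype.card V := by simp
    have h3 : (0 : ℝ) ≤ (Fintype.card V : ℝ) := Nat.cast_nonneg _
    have h4 : (0 : ℝ) ≤ (Fintype.card V : ℝ) ^ m := pow_nonneg h3 _
    push_cast
    rw [← mul_sum] 
    have h5 := mul_le_mul_of_nonneg_left h2 h4
    have h6 := mul_le_mul_of_nonneg_left ih h3
    rw [pow_succ]
    nlinarith

/-- the pairs `i < j` -/
def prs (n : ℕ) : Finset (Fin n × Fin n) := univ.filter fun p => p.1 < p.2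

/-- the fraction of rows of the sample separating `i` and `j` -/
noncomputable def qh {m n : ℕ} (A : Fin m → Fin n → Bool) (p : Fin n × Fin n) : ℝ :=
  (∑ t, if A t p.1 = A t p.2 then (0 : ℝ) else 1) / m

/-- the fraction of vertices adjacent to exactly one of `i`, `j` -/
noncomputable def pp {n : ℕ} (G : SimpleGraph (Fin n)) (p : Fin n × Fin n) : ℝ :=
  (∑ k, if (decide (G.Adj k p.1)) = (decide (G.Adj k p.2)) then (0 : ℝ) else 1) / n

/-- rows of the adjacency matrix -/
noncomputable def rows {m n : ℕ} (G : SimpleGraph (Fin n)) (κ : Fin m → Fin n) :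
    Fin m → Fin n → Bool := fun t v => decide (G.Adj (κ t) v)

lemma qh_nonneg {m n : ℕ} (A : Fin m → Fin n → Bool) (p : Fin n × Fin n) : 0 ≤ qh A p := by
  unfold qh
  apply div_nonneg _ (Nat.cast_nonneg _)
  apply sum_nonneg
  intro t _
  split_ifs <;> norm_num

lemma qh_le_one {m n : ℕ} (A : Fin m → Fin n → Bool) (p : Fin n × Fin n) : qh A p ≤ 1 := by
  unfold qh
  apply div_le_one_of_le₀ _ (Nat.cast_nonneg _)
  calc (∑ t, if A t p.1 = A t p.2 then (0 : ℝ) else 1) ≤ ∑ t : Fin m, (1 : ℝ) := by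
        apply sum_le_sum
        intro t _
        split_ifs <;> norm_num
    _ = m := by simp

lemma exists_sample {m n : ℕ} (hm : 0 < m) (hn : 0 < n) (G : SimpleGraph (Fin n)) :
    ∃ κ : Fin m → Fin n, ∑ p ∈ prs n, (qh (rows G κ) p - pp G p) ^ 2 ≤ (n : ℝ) ^ 2 / m := by
  have hmR : (0 : ℝ) < m := by exact_mod_cast hm
  have hnR : (0 : ℝ) < n := by exact_mod_cast hn
  have : Nonempty (Fin n) := ⟨⟨0, hn⟩⟩
  have key : ∀ p : Fin n × Fin n,
      ∑ κ : Fin m → Fin n, (qh (rows G κ) p - pp G p) ^ 2 ≤ (n : ℝ) ^ m / m := by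
    intro p
    set g : Fin n → ℝ := fun k =>
      if (decide (G.Adj k p.1)) = (decide (G.Adj k p.2)) then (0 : ℝ) else 1 with hg
    set f : Fin n → ℝ := fun k => g k - pp G p with hf
    have hpp : pp G p = (∑ k, g k) / n := rfl
    have h0 : ∑ v, f v = 0 := by
      simp only [hf, sum_sub_distrib, sum_const, card_univ, Fintype.card_fin, nsmul_eq_mul]
      rw [hpp]
      field_simp
      ring
    have hg01 : ∀ v, 0 ≤ g v ∧ g v ≤ 1 := by
      intro v
      simp only [hg]
      split_ifs <;> norm_num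
    have hp01 : 0 ≤ pp G p ∧ pp G p ≤ 1 := by
      rw [hpp]
      constructor
      · exact div_nonneg (sum_nonneg fun v _ => (hg01 v).1) hnR.le
      · apply div_le_one_of_le₀ _ hnR.le
        calc ∑ k, g k ≤ ∑ k : Fin n, (1 : ℝ) := sum_le_sum fun v _ => (hg01 v).2
          _ = n := by simp
    have hb : ∀ v, f v ^ 2 ≤ 1 := by
      intro v
      simp only [hf]
      have := hg01 v
      rw [sq_le_one_iff_abs_le_one, abs_le]
      constructor <;> linarith [this.1, this.2, hp01.1, hp01.2]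
    have h1 := second_moment f h0 hb m
    rw [Fintype.card_fin] at h1
    have h2 : ∀ κ : Fin m → Fin n, (qh (rows G κ) p - pp G p) ^ 2 =
        (∑ t, f (κ t)) ^ 2 / (m : ℝ) ^ 2 := by
      intro κ
      have : qh (rows G κ) p - pp G p = (∑ t, f (κ t)) / m := by
        simp only [hf, sum_sub_distrib, sum_const, card_univ, Fintype.card_fin, nsmul_eq_mul]
        rw [sub_div, mul_div_cancel_left₀ _ hmR.ne']
        rfl
      rw [this, div_pow]
    simp_rw [h2]
    rw [← sum_div, div_le_div_iff₀ (by positivity) hmR]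
    nlinarith
  have hsum : ∑ κ : Fin m → Fin n, ∑ p ∈ prs n, (qh (rows G κ) p - pp G p) ^ 2 ≤
      ∑ κ : Fin m → Fin n, (n : ℝ) ^ 2 / m := by
    rw [sum_comm]
    calc ∑ p ∈ prs n, ∑ κ : Fin m → Fin n, (qh (rows G κ) p - pp G p) ^ 2
        ≤ ∑ p ∈ prs n, (n : ℝ) ^ m / m := sum_le_sum fun p _ => key p
      _ ≤ ∑ p : Fin n × Fin n, (n : ℝ) ^ m / m :=
          sum_le_sum_of_subset_of_nonneg (subset_univ _) fun _ _ _ => by positivity
      _ = ∑ κ : Fin m → Fin n, (n : ℝ) ^ 2 / m := by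
          simp only [sum_const, card_univ, Fintype.card_fun, Fintype.card_fin, nsmul_eq_mul,
            Fintype.card_prod]
          push_cast
          ring
  obtain ⟨κ, -, hκ⟩ := exists_le_of_sum_le univ_nonempty hsum
  exact ⟨κ, hκ⟩

/-- the factor of the product -/
noncomputable def phi {n : ℕ} (G : SimpleGraph (Fin n)) (p : Fin n × Fin n) : ℝ :=
  ((Finset.univ.filter (fun k : Fin n => k ≠ p.1 ∧ k ≠ p.2 ∧
                Even ((if G.Adj p.1 p.2 then 1 else 0) + (if G.Adj p.1 k then 1 else 0)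
                  + (if G.Adj p.2 k then 1 else 0) : ℕ))).card : ℝ) / ((n : ℝ) - 2)

/-- comparison weight -/
noncomputable def wt {m n : ℕ} (lam : ℝ) (A : Fin m → Fin n → Bool) (p : Fin n × Fin n)
    (b : Bool) : ℝ := (if b then qh A p else 1 - qh A p) + lam

lemma phi_nonneg {n : ℕ} (hn : 3 ≤ n) (G : SimpleGraph (Fin n)) (p : Fin n × Fin n) :
    0 ≤ phi G p := by
  have : (3 : ℝ) ≤ n := by exact_mod_cast hn
  exact div_nonneg (Nat.cast_nonneg _) (by linarith)

lemma phi_le_one {n : ℕ} (hn : 3 ≤ n) (G : SimpleGraph (Fin n)) (p : Fin n × Fin n)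
    (hp : p.1 < p.2) : phi G p ≤ 1 := by
  have h3 : (3 : ℝ) ≤ n := by exact_mod_cast hn
  unfold phi
  rw [div_le_one (by linarith)]
  have h1 : (Finset.univ.filter (fun k : Fin n => k ≠ p.1 ∧ k ≠ p.2 ∧
                Even ((if G.Adj p.1 p.2 then 1 else 0) + (if G.Adj p.1 k then 1 else 0)
                  + (if G.Adj p.2 k then 1 else 0) : ℕ))) ⊆ univ \ {p.1, p.2} := by
    intro k hk
    simp only [mem_filter, mem_univ, true_and] at hk
    simp [hk.1, hk.2.1]
  have h2 := card_le_card h1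
  rw [card_sdiff_of_subset (subset_univ _), card_pair hp.ne, card_univ, Fintype.card_fin] at h2
  have h4 : ((n - 2 : ℕ) : ℝ) = (n : ℝ) - 2 := by
    rw [Nat.cast_sub (by omega)]; norm_num
  rw [← h4]
  exact_mod_cast h2

lemma phi_le_pp {n : ℕ} (hn : 3 ≤ n) (G : SimpleGraph (Fin n)) (p : Fin n × Fin n) :
    phi G p ≤ (n : ℝ) / (n - 2) * (if decide (G.Adj p.1 p.2) then pp G p else 1 - pp G p) := by
  have h3 : (3 : ℝ) ≤ n := by exact_mod_cast hn
  have hn0 : (n : ℝ) ≠ 0 := by linarith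
  unfold phi
  have hE : (n : ℝ) / (n - 2) * (if decide (G.Adj p.1 p.2) then pp G p else 1 - pp G p) =
      (if decide (G.Adj p.1 p.2) then n * pp G p else n - n * pp G p) / (n - 2) := by
    split_ifs <;> ring
  rw [hE]
  apply div_le_div_of_nonneg_right _ (by linarith)
  have hnp : (n : ℝ) * pp G p =
      ∑ k, if (decide (G.Adj k p.1)) = (decide (G.Adj k p.2)) then (0 : ℝ) else 1 := by
    unfold pp
    field_simp
  have hn' : (n : ℝ) = ∑ k : Fin n, (1 : ℝ) := by simp
  rw [hnp, card_filter, Nat.cast_sum]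
  by_cases hA : G.Adj p.1 p.2
  · simp only [hA, decide_true, if_true]
    apply sum_le_sum
    intro k _
    by_cases h1 : G.Adj p.1 k <;> by_cases h2 : G.Adj p.2 k <;>
      simp [h1, h2, G.adj_comm k, (by decide : ¬ Even 3)] <;> split_ifs <;> norm_num
  · simp only [hA, decide_false, if_false, Bool.false_eq_true]
    conv_rhs => rw [hn']
    rw [← sum_sub_distrib]
    apply sum_le_sum
    intro k _
    by_cases h1 : G.Adj p.1 k <;> by_cases h2 : G.Adj p.2 k <;>
      simp [h1, h2, G.adj_comm k] <;> split_ifs <;> norm_num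

lemma wt_pos {m n : ℕ} {lam : ℝ} (_hl : 0 < lam) (A : Fin m → Fin n → Bool) (p : Fin n × Fin n)
    (b : Bool) : lam ≤ wt lam A p b := by
  unfold wt
  have h1 := qh_nonneg A p
  have h2 := qh_le_one A p
  split_ifs <;> linarith

lemma phi_le_wt {m n : ℕ} (hn : 3 ≤ n) {lam : ℝ} (hl : 0 < lam) (hl1 : lam ≤ 1)
    (G : SimpleGraph (Fin n)) (κ : Fin m → Fin n) (p : Fin n × Fin n) (hp : p.1 < p.2) :
    phi G p ≤ (n : ℝ) / (n - 2) * wt lam (rows G κ) p (decide (G.Adj p.1 p.2)) *
      Real.exp ((qh (rows G κ) p - pp G p) ^ 2 / lam ^ 3) := by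
  have h3 : (3 : ℝ) ≤ n := by exact_mod_cast hn
  have hr : 1 ≤ (n : ℝ) / (n - 2) := by
    rw [le_div_iff₀ (by linarith)]; linarith
  have hw := wt_pos hl (rows G κ) p (decide (G.Adj p.1 p.2))
  by_cases hgood : |qh (rows G κ) p - pp G p| ≤ lam
  · have h1 : 1 ≤ Real.exp ((qh (rows G κ) p - pp G p) ^ 2 / lam ^ 3) :=
      Real.one_le_exp (by positivity)
    have h2 : (if decide (G.Adj p.1 p.2) then pp G p else 1 - pp G p) ≤
        wt lam (rows G κ) p (decide (G.Adj p.1 p.2)) := by
      unfold wt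
      rw [abs_le] at hgood
      split_ifs <;> linarith [hgood.1, hgood.2]
    calc phi G p ≤ (n : ℝ) / (n - 2) *
          (if decide (G.Adj p.1 p.2) then pp G p else 1 - pp G p) := phi_le_pp hn G p
      _ ≤ (n : ℝ) / (n - 2) * wt lam (rows G κ) p (decide (G.Adj p.1 p.2)) := by gcongr
      _ ≤ _ := le_mul_of_one_le_right (mul_nonneg (by linarith) (by linarith)) h1
  · push Not at hgood
    have h1 : 1 / lam ≤ Real.exp ((qh (rows G κ) p - pp G p) ^ 2 / lam ^ 3) := by
      have h4 : lam ^ 2 ≤ (qh (rows G κ) p - pp G p) ^ 2 := by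
        rw [← sq_abs (qh (rows G κ) p - pp G p)]
        gcongr
      have h5 : 1 / lam ≤ (qh (rows G κ) p - pp G p) ^ 2 / lam ^ 3 := by
        rw [div_le_div_iff₀ hl (by positivity)]
        nlinarith
      have h6 := Real.add_one_le_exp ((qh (rows G κ) p - pp G p) ^ 2 / lam ^ 3)
      linarith
    calc phi G p ≤ 1 := phi_le_one hn G p hp
      _ = 1 * lam * (1 / lam) := by field_simp
      _ ≤ _ := by
        have h7 : 0 ≤ (n : ℝ) / (n - 2) * wt lam (rows G κ) p (decide (G.Adj p.1 p.2)) :=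
          mul_nonneg (by linarith) (by linarith)
        gcongr

/-- sum over graphs is at most the sum over all functions on pairs -/
lemma sum_graph_le {n : ℕ} (w : Fin n × Fin n → Bool → ℝ) (hw : ∀ p b, 0 ≤ w p b) :
    ∑ G : SimpleGraph (Fin n), ∏ p ∈ prs n, w p (decide (G.Adj p.1 p.2)) ≤
      ∏ p ∈ prs n, (w p true + w p false) := by
  have h1 : ∏ p ∈ prs n, (w p true + w p false) =
      ∑ x ∈ Fintype.piFinset (fun _ : {p // p ∈ prs n} => (univ : Finset Bool)),
        ∏ p : {p // p ∈ prs n}, w p (x p) := by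
    rw [← prod_univ_sum]
    simp only [Fintype.sum_bool]
    rw [← prod_coe_sort (prs n) (fun p => w p true + w p false)]
  rw [h1, Fintype.piFinset_univ]
  let e : SimpleGraph (Fin n) → ({p // p ∈ prs n} → Bool) :=
    fun G p => decide (G.Adj p.1.1 p.1.2)
  have he : Function.Injective e := by
    intro G G' h
    ext i j
    rcases lt_trichotomy i j with hij | hij | hij
    · have := congrFun h ⟨(i, j), by simp [prs, hij]⟩
      simpa [e] using this
    · subst hij; simp
    · have := congrFun h ⟨(j, i), by simp [prs, hij]⟩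
      rw [G.adj_comm, G'.adj_comm]
      simpa [e] using this
  calc ∑ G : SimpleGraph (Fin n), ∏ p ∈ prs n, w p (decide (G.Adj p.1 p.2))
      = ∑ G : SimpleGraph (Fin n), ∏ p : {p // p ∈ prs n}, w p (e G p) := by
        apply sum_congr rfl
        intro G _
        rw [← prod_coe_sort (prs n) (fun p => w p (decide (G.Adj p.1 p.2)))]
    _ = ∑ x ∈ univ.map ⟨e, he⟩, ∏ p : {p // p ∈ prs n}, w p (x p) := by
        rw [sum_map]; rfl
    _ ≤ _ := sum_le_sum_of_subset_of_nonneg (subset_univ _) fun _ _ _ =>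
        prod_nonneg fun p _ => hw p _

lemma main_bound {m n : ℕ} (hm : 0 < m) (hn : 3 ≤ n) {lam : ℝ} (hl : 0 < lam) (hl1 : lam ≤ 1) :
    ∑ G : SimpleGraph (Fin n), ∏ p ∈ prs n, phi G p ≤
      (2 : ℝ) ^ (m * n) * ((n : ℝ) / (n - 2)) ^ (prs n).card *
        Real.exp ((n : ℝ) ^ 2 / m / lam ^ 3) * (1 + 2 * lam) ^ (prs n).card := by
  have h3 : (3 : ℝ) ≤ n := by exact_mod_cast hn
  have hr : 1 ≤ (n : ℝ) / (n - 2) := by
    rw [le_div_iff₀ (by linarith)]; linarith
  set C : ℝ := ((n : ℝ) / (n - 2)) ^ (prs n).card * Real.exp ((n : ℝ) ^ 2 / m / lam ^ 3) with hC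
  have hC0 : 0 ≤ C := by positivity
  have hw0 : ∀ (A : Fin m → Fin n → Bool) p b, 0 ≤ wt lam A p b := fun A p b =>
    hl.le.trans (wt_pos hl A p b)
  have h1 : ∀ G : SimpleGraph (Fin n), ∏ p ∈ prs n, phi G p ≤
      C * ∑ A : Fin m → Fin n → Bool, ∏ p ∈ prs n, wt lam A p (decide (G.Adj p.1 p.2)) := by
    intro G
    obtain ⟨κ, hκ⟩ := exists_sample hm (by omega : 0 < n) G
    calc ∏ p ∈ prs n, phi G p ≤ ∏ p ∈ prs n, ((n : ℝ) / (n - 2) *
          wt lam (rows G κ) p (decide (G.Adj p.1 p.2)) *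
          Real.exp ((qh (rows G κ) p - pp G p) ^ 2 / lam ^ 3)) := by
          apply prod_le_prod
          · intro p _
            exact phi_nonneg hn G p
          · intro p hp
            exact phi_le_wt hn hl hl1 G κ p (by simpa [prs] using hp)
      _ = ((n : ℝ) / (n - 2)) ^ (prs n).card *
          (∏ p ∈ prs n, wt lam (rows G κ) p (decide (G.Adj p.1 p.2))) *
          Real.exp ((∑ p ∈ prs n, (qh (rows G κ) p - pp G p) ^ 2) / lam ^ 3) := by
          rw [prod_mul_distrib, prod_mul_distrib, prod_const, ← Real.exp_sum, sum_div]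
      _ ≤ ((n : ℝ) / (n - 2)) ^ (prs n).card *
          (∏ p ∈ prs n, wt lam (rows G κ) p (decide (G.Adj p.1 p.2))) *
          Real.exp ((n : ℝ) ^ 2 / m / lam ^ 3) := by
          have : 0 ≤ ∏ p ∈ prs n, wt lam (rows G κ) p (decide (G.Adj p.1 p.2)) :=
            prod_nonneg fun p _ => hw0 _ _ _
          gcongr
      _ = C * ∏ p ∈ prs n, wt lam (rows G κ) p (decide (G.Adj p.1 p.2)) := by
          rw [hC]; ring
      _ ≤ _ := by
          apply mul_le_mul_of_nonneg_left _ hC0
          exact single_le_sum (f := fun A : Fin m → Fin n → Bool =>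
            ∏ p ∈ prs n, wt lam A p (decide (G.Adj p.1 p.2)))
            (fun A _ => prod_nonneg fun p _ => hw0 _ _ _) (mem_univ (rows G κ))
  calc ∑ G : SimpleGraph (Fin n), ∏ p ∈ prs n, phi G p
      ≤ ∑ G : SimpleGraph (Fin n), C * ∑ A : Fin m → Fin n → Bool,
          ∏ p ∈ prs n, wt lam A p (decide (G.Adj p.1 p.2)) := sum_le_sum fun G _ => h1 G
    _ = C * ∑ A : Fin m → Fin n → Bool, ∑ G : SimpleGraph (Fin n),
          ∏ p ∈ prs n, wt lam A p (decide (G.Adj p.1 p.2)) := by
        rw [← mul_sum, sum_comm]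
    _ ≤ C * ∑ A : Fin m → Fin n → Bool, (1 + 2 * lam) ^ (prs n).card := by
        apply mul_le_mul_of_nonneg_left _ hC0
        apply sum_le_sum
        intro A _
        refine (sum_graph_le (wt lam A) (hw0 A)).trans (le_of_eq ?_)
        rw [← prod_const]
        apply prod_congr rfl
        intro p _
        unfold wt
        simp only [if_true, Bool.false_eq_true, if_false]
        ring
    _ = _ := by
        rw [sum_const, card_univ, Fintype.card_fun, Fintype.card_fun, Fintype.card_bool,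
          Fintype.card_fin, Fintype.card_fin, nsmul_eq_mul, hC]
        push_cast
        rw [← pow_mul, mul_comm n m]
        ring

lemma card_prs (n : ℕ) : (prs n).card ≤ n ^ 2 := by
  calc (prs n).card ≤ (univ : Finset (Fin n × Fin n)).card := card_le_card (filter_subset _ _)
    _ = n ^ 2 := by simp [sq]

lemma prod_eq {n : ℕ} (a : Fin n × Fin n → ℝ) :
    ∏ i : Fin n, ∏ j : Fin n, (if i < j then a (i, j) else 1) = ∏ p ∈ prs n, a p := by
  rw [prs, prod_filter, ← univ_product_univ, prod_product]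

/-- For every ε>0 and all large n, summing over all graphs on n vertices the product over pairs i<j of the fraction of other vertices k with an even number of edges in triangle ijk gives at most 2^(εn²). -/
theorem result :
    ∀ ε : ℝ, 0 < ε → ∃ N : ℕ, ∀ n : ℕ, N ≤ n →
      (∑ G : SimpleGraph (Fin n),
        ∏ i : Fin n, ∏ j : Fin n,
          (if i < j then
            (((Finset.univ.filter (fun k : Fin n => k ≠ i ∧ k ≠ j ∧
                Even ((if G.Adj i j then 1 else 0) + (if G.Adj i k then 1 else 0)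
                  + (if G.Adj j k then 1 else 0) : ℕ))).card : ℝ) / ((n : ℝ) - 2))
          else 1)) ≤ (2 : ℝ) ^ (ε * (n : ℝ) ^ 2) := by
  intro ε hε
  set c : ℝ := ε * Real.log 2 with hc
  have hlog2 : 0 < Real.log 2 := Real.log_pos (by norm_num)
  have hc0 : 0 < c := mul_pos hε hlog2
  set lam : ℝ := min 1 (c / 6) with hlam
  have hl : 0 < lam := lt_min one_pos (by positivity)
  have hl1 : lam ≤ 1 := min_le_left _ _
  have hlc : lam ≤ c / 6 := min_le_right _ _
  obtain ⟨m, hm⟩ := exists_nat_gt (1 / lam ^ 4)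
  have hm0 : (0 : ℝ) < m := lt_trans (by positivity) hm
  have hmN : 0 < m := by exact_mod_cast hm0
  obtain ⟨N, hN⟩ := exists_nat_gt ((m + 6) / (c / 2))
  refine ⟨max N 3, fun n hn => ?_⟩
  have hn3 : 3 ≤ n := le_trans (le_max_right _ _) hn
  have hnN : N ≤ n := le_trans (le_max_left _ _) hn
  have h3 : (3 : ℝ) ≤ n := by exact_mod_cast hn3
  have hNn : (N : ℝ) ≤ n := by exact_mod_cast hnN
  have hE : ∀ G : SimpleGraph (Fin n), (∏ i : Fin n, ∏ j : Fin n,
          (if i < j then
            (((Finset.univ.filter (fun k : Fin n => k ≠ i ∧ k ≠ j ∧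
                Even ((if G.Adj i j then 1 else 0) + (if G.Adj i k then 1 else 0)
                  + (if G.Adj j k then 1 else 0) : ℕ))).card : ℝ) / ((n : ℝ) - 2))
          else 1)) = ∏ p ∈ prs n, phi G p := fun G => prod_eq (phi G)
  simp_rw [hE]
  refine (main_bound hmN hn3 hl hl1).trans ?_
  have hcard : ((prs n).card : ℝ) ≤ (n : ℝ) ^ 2 := by exact_mod_cast card_prs n
  have e1 : (2 : ℝ) ^ (m * n) ≤ Real.exp (m * n) := by
    have : (2 : ℝ) ≤ Real.exp 1 := by
      have := Real.add_one_le_exp (1 : ℝ)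
      linarith
    calc (2 : ℝ) ^ (m * n) ≤ (Real.exp 1) ^ (m * n) := by gcongr
      _ = Real.exp (m * n) := by
        rw [← Real.exp_nat_mul]; push_cast; ring_nf
  have e2 : ((n : ℝ) / (n - 2)) ^ (prs n).card ≤ Real.exp (6 * n) := by
    have h1 : (n : ℝ) / (n - 2) ≤ Real.exp (2 / (n - 2)) := by
      have h2 := Real.add_one_le_exp (2 / ((n : ℝ) - 2))
      have h4 : (n : ℝ) / (n - 2) = 2 / (n - 2) + 1 := by
        have : (n : ℝ) - 2 ≠ 0 := by linarith
        field_simp
        ring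
      linarith
    calc ((n : ℝ) / (n - 2)) ^ (prs n).card ≤ (Real.exp (2 / (n - 2))) ^ (prs n).card := by
          apply pow_le_pow_left₀ _ h1
          apply div_nonneg <;> linarith
      _ = Real.exp ((prs n).card * (2 / (n - 2))) := by rw [← Real.exp_nat_mul]
      _ ≤ Real.exp (6 * n) := by
          apply Real.exp_le_exp.2
          have h5 : 0 ≤ 2 / ((n : ℝ) - 2) := div_nonneg (by norm_num) (by linarith)
          calc ((prs n).card : ℝ) * (2 / (n - 2)) ≤ (n : ℝ) ^ 2 * (2 / (n - 2)) := by gcongr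
            _ ≤ 6 * n := by
              rw [mul_div_assoc', div_le_iff₀ (by linarith)]
              nlinarith
  have e3 : Real.exp ((n : ℝ) ^ 2 / m / lam ^ 3) ≤ Real.exp (lam * (n : ℝ) ^ 2) := by
    apply Real.exp_le_exp.2
    rw [div_div, div_le_iff₀ (by positivity)]
    have h1 : 1 ≤ m * lam ^ 4 := by
      rw [div_lt_iff₀ (by positivity)] at hm
      exact hm.le
    calc (n : ℝ) ^ 2 = (n : ℝ) ^ 2 * 1 := by ring
      _ ≤ (n : ℝ) ^ 2 * (m * lam ^ 4) := by gcongr
      _ = _ := by ring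
  have e4 : (1 + 2 * lam) ^ (prs n).card ≤ Real.exp (2 * lam * (n : ℝ) ^ 2) := by
    have h1 : 1 + 2 * lam ≤ Real.exp (2 * lam) := by
      have := Real.add_one_le_exp (2 * lam)
      linarith
    calc (1 + 2 * lam) ^ (prs n).card ≤ (Real.exp (2 * lam)) ^ (prs n).card := by gcongr
      _ = Real.exp ((prs n).card * (2 * lam)) := by rw [← Real.exp_nat_mul]
      _ ≤ Real.exp (2 * lam * (n : ℝ) ^ 2) := by
          apply Real.exp_le_exp.2
          nlinarith
  have e5 : (m + 6 : ℝ) ≤ c / 2 * n := by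
    rw [div_lt_iff₀ (by positivity)] at hN
    nlinarith
  have h0 : 0 ≤ (n : ℝ) / (n - 2) := div_nonneg (by linarith) (by linarith)
  calc (2 : ℝ) ^ (m * n) * ((n : ℝ) / (n - 2)) ^ (prs n).card *
        Real.exp ((n : ℝ) ^ 2 / m / lam ^ 3) * (1 + 2 * lam) ^ (prs n).card
      ≤ Real.exp (m * n) * Real.exp (6 * n) * Real.exp (lam * (n : ℝ) ^ 2) *
        Real.exp (2 * lam * (n : ℝ) ^ 2) := by gcongr
    _ = Real.exp (m * n + 6 * n + lam * (n : ℝ) ^ 2 + 2 * lam * (n : ℝ) ^ 2) := by
        simp only [Real.exp_add]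
    _ ≤ Real.exp (c * (n : ℝ) ^ 2) := by
        apply Real.exp_le_exp.2
        have h6 : lam * (n : ℝ) ^ 2 ≤ c / 6 * (n : ℝ) ^ 2 := by gcongr
        nlinarith
    _ = (2 : ℝ) ^ (ε * (n : ℝ) ^ 2) := by
        rw [Real.rpow_def_of_pos (by norm_num), hc]
        ring_nf

end Pool.Agent.S11885
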