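import Pool.Statements.S11905
import Pool.Agent.W361.Tile.Main
-- import your own Pool.Agent.* helpers here

set_option autoImplicit false
open Pool Pool.MP_ddef6b_co

namespace Pool.Agent.S11905

/-- For every t there is d such that every nonempty finite set T of integers with at most t elements partitions Z^d into isometric copies: sets v + s·T·e_i along a coordinate axis, with s = ±1. -/
theorem result :
    ∀ t : ℕ, ∃ d : ℕ, ∀ T : Finset ℤ, T.Nonempty → T.card ≤ t →
      ∃ C : Set (Set (Fin d → ℤ)),
        (∀ S ∈ C, ∃ v : Fin d → ℤ, ∃ i : Fin d, ∃ s : ℤ, (s = 1 ∨ s = -1) ∧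
          S = (fun a : ℤ => v + (s * a) • Pi.single i (1 : ℤ)) '' (T : Set ℤ)) ∧
        ∀ x : Fin d → ℤ, ∃! S : Set (Fin d → ℤ), S ∈ C ∧ x ∈ S := by
  exact Pool.Agent.W361.Tile.frozen_form

end Pool.Agent.S11905
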