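import Pool.Statements.S11927
-- import your own Pool.Agent.* helpers here
import Pool.Agent.W79.ST.Final
import Pool.Agent.W79.ST.Exp
import Pool.Agent.W7.ST.Psi
import Pool.Agent.W539.ST.Greedy
import Pool.Agent.W621.ST.Term
import Pool.Agent.W645.ST.Base
import Pool.Agent.W239.ST.Comp
import Pool.Agent.W143.ST.Lay
import Pool.Agent.W539.ST.Iso
import Pool.Agent.W933.ST.Cnt
import Pool.Agent.W304.ST.Key
import Pool.Agent.W120.ST.Three
import Pool.Agent.W154.ST.Auth
import Pool.Agent.W706.ST.Reps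

set_option autoImplicit false
open Pool Pool.MP_debc19_co

namespace Pool.Agent.S11927

/-- For every graph class closed under induced subgraphs and isomorphism, if it has at most n! times c^n labeled graphs on n vertices for some c, then for some c it has at most c^n graphs on n vertices up to isomorphism. -/
theorem result :
    ∀ P : (n : ℕ) → SimpleGraph (Fin n) → Prop,
      (∀ (n m : ℕ) (f : Fin m ↪ Fin n) (G : SimpleGraph (Fin n)),
          P n G → P m (G.comap f)) →
      (∃ c : ℕ, ∀ n : ℕ,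
          {G : SimpleGraph (Fin n) | P n G}.ncard ≤ Nat.factorial n * c ^ n) →
      ∃ c : ℕ, ∀ n : ℕ, ∃ S : Finset (SimpleGraph (Fin n)),
          S.card ≤ c ^ n ∧
          ∀ G : SimpleGraph (Fin n), P n G → ∃ H ∈ S, Nonempty (G ≃g H) := by
  intro P hP hs
  have h0 : Pool.Agent.W79.ST.S_PSI := Pool.Agent.W7.ST.main
  have h1 : Pool.Agent.W79.ST.S_BASE := Pool.Agent.W645.ST.Base.main
  have h2 : Pool.Agent.W79.ST.S_KEY := Pool.Agent.W304.ST.Key.main
  have h3 : Pool.Agent.W79.ST.S_DCOUNT := Pool.Agent.W120.ST.dcount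
  exact Pool.Agent.W79.ST.final
    (Pool.Agent.W79.ST.str (Pool.Agent.W539.ST.Greedy.main h0) (Pool.Agent.W621.ST.main h0)
      (Pool.Agent.W239.STC.main h1)
      (Pool.Agent.W933.ST.Cnt.main h1 (Pool.Agent.W539.ST.Iso.main h1)
        (Pool.Agent.W143.ST.Lay.main h1)) Pool.Agent.W79.ST.thz_main)
    h2 Pool.Agent.W79.ST.exp_main h3 (Pool.Agent.W154.ST.main h2 h3)
    Pool.Agent.W706.ST.Reps.main P hP hs

end Pool.Agent.S11927
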