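import Pool.Statements.S11955
import Pool.Agent.Helper64.Gow10
import Pool.Agent.W284.Colour

set_option autoImplicit false
open Pool Pool.MP_dfca13_co

namespace Pool.Agent.S11955

open Finset in
open scoped Classical in
open Pool.Agent.Helper64.Gow Pool.Agent.W284.PW in
lemma core (P : Finset (EuclideanSpace ℝ (Fin 2)))
    (hP : ∀ S : Finset (EuclideanSpace ℝ (Fin 2)), S ⊆ P →
          Collinear ℝ (S : Set (EuclideanSpace ℝ (Fin 2))) →
          (S.card : ℝ) ≤ Real.sqrt (P.card : ℝ))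
    {N2 : ℝ} (hcol : ∀ N : ℝ, 0 ≤ N → ∀ V : Finset Pt, XI V → (V.card : ℝ) ≤ N →
    (∀ L ∈ lines V, ((pl V L).card : ℝ) ^ 2 ≤ N) →
    ∃ m : ℕ, Col V m ∧ (m : ℝ) ≤ 2 ^ 31 * Real.sqrt N + N2) :
    ∃ (k : ℕ) (c : EuclideanSpace ℝ (Fin 2) → ℕ),
        (k : ℝ) ≤ 2 ^ 31 * Real.sqrt (P.card : ℝ) + N2 ∧
        (∀ p ∈ P, c p < k) ∧
        ∀ a ∈ P, ∀ b ∈ P, ∀ d ∈ P, a ≠ b → a ≠ d → b ≠ d →
          c a = c b → c a = c d →
          ¬ Collinear ℝ ({a, b, d} : Set (EuclideanSpace ℝ (Fin 2))) := by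
  set Q : Finset Pt := P.image cd with hQ
  have hQc : Q.card = P.card := card_image_of_injective _ cd_inj
  obtain ⟨t, ht⟩ := exists_sh Q
  have hcard : (Q.image (sh t)).card = P.card := by
    rw [card_image_of_injective _ (sh_inj t), hQc]
  obtain ⟨m, ⟨c, hc1, hc2⟩, hm⟩ := hcol (P.card : ℝ) (Nat.cast_nonneg _) (Q.image (sh t)) ht
    (by rw [hcard]) (by
    intro L hL
    obtain ⟨a', ha', b', hb', hab', hl⟩ := mem_lines.1 hL
    have hne := ht.ne ha' hb' hab'
    rw [mem_image] at ha' hb'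
    obtain ⟨a1, ha1, rfl⟩ := ha'
    obtain ⟨b1, hb1, rfl⟩ := hb'
    rw [hQ, mem_image] at ha1 hb1
    obtain ⟨a, ha, rfl⟩ := ha1
    obtain ⟨b, hb, rfl⟩ := hb1
    have hab : a ≠ b := fun h => hab' (by rw [h])
    have h0 : ((P.filter (fun x => col (cd a) (cd b) (cd x))).card : ℝ) ≤ Real.sqrt (P.card : ℝ) := by
      apply hP _ (filter_subset _ _)
      apply collinear_of_col hab
      · rw [mem_coe, mem_filter]
        refine ⟨ha, ?_⟩
        unfold col
        ring
      · intro x hx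
        rw [mem_coe, mem_filter] at hx
        exact hx.2
    have h1 : pl (Q.image (sh t)) L ⊆ ((P.filter (fun x => col (cd a) (cd b) (cd x))).image cd).image (sh t) := by
      intro q hq
      unfold pl at hq
      rw [mem_filter, mem_image] at hq
      obtain ⟨⟨c', hc', rfl⟩, hon⟩ := hq
      rw [hQ, mem_image] at hc'
      obtain ⟨x, hx, rfl⟩ := hc'
      rw [← hl, ← col_on hne, sh_col] at hon
      exact mem_image_of_mem _ (mem_image_of_mem _ (mem_filter.2 ⟨hx, hon⟩))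
    have h2 : (pl (Q.image (sh t)) L).card ≤ (P.filter (fun x => col (cd a) (cd b) (cd x))).card :=
      (card_le_card h1).trans (card_image_le.trans card_image_le)
    have h3 : ((pl (Q.image (sh t)) L).card : ℝ) ≤ Real.sqrt (P.card : ℝ) :=
      (by exact_mod_cast h2 : ((pl (Q.image (sh t)) L).card : ℝ) ≤
        ((P.filter (fun x => col (cd a) (cd b) (cd x))).card : ℝ)).trans h0
    calc ((pl (Q.image (sh t)) L).card : ℝ) ^ 2 ≤ (Real.sqrt (P.card : ℝ)) ^ 2 :=
          pow_le_pow_left₀ (Nat.cast_nonneg _) h3 2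
      _ = P.card := Real.sq_sqrt (Nat.cast_nonneg _))
  have hin : ∀ p ∈ P, sh t (cd p) ∈ Q.image (sh t) := fun p hp =>
    mem_image_of_mem _ (mem_image_of_mem _ hp)
  refine ⟨m, fun p => c (sh t (cd p)), hm, fun p hp => hc1 _ (hin p hp), ?_⟩
  intro a ha b hb d hd hab had hbd e1 e2 hcoll
  refine hc2 _ (hin a ha) _ (hin b hb) _ (hin d hd)
    (fun h => hab (cd_inj (sh_inj t h))) (fun h => had (cd_inj (sh_inj t h)))
    (fun h => hbd (cd_inj (sh_inj t h))) e1 e2 ?_
  rw [sh_col]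
  exact col_of_collinear hcoll

/-- There is a constant C such that every finite planar point set of size n with no more than √n points on a line can be coloured with at most C√n colours so that no three distinct points of one colour are collinear. -/
theorem result :
    ∃ C : ℝ, ∀ P : Finset (EuclideanSpace ℝ (Fin 2)),
      (∀ S : Finset (EuclideanSpace ℝ (Fin 2)), S ⊆ P →
          Collinear ℝ (S : Set (EuclideanSpace ℝ (Fin 2))) →
          (S.card : ℝ) ≤ Real.sqrt (P.card : ℝ)) →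
      ∃ (k : ℕ) (c : EuclideanSpace ℝ (Fin 2) → ℕ),
        (k : ℝ) ≤ C * Real.sqrt (P.card : ℝ) ∧
        (∀ p ∈ P, c p < k) ∧
        ∀ a ∈ P, ∀ b ∈ P, ∀ d ∈ P, a ≠ b → a ≠ d → b ≠ d →
          c a = c b → c a = c d →
          ¬ Collinear ℝ ({a, b, d} : Set (EuclideanSpace ℝ (Fin 2))) := by
  obtain ⟨N2, hN2, hcol⟩ := Pool.Agent.W284.PW.colour
  refine ⟨2 ^ 31 + N2, ?_⟩
  intro P hP
  rcases P.eq_empty_or_nonempty with h | h
  · subst h
    refine ⟨0, fun _ => 0, ?_, ?_, ?_⟩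
    · simp
    · intro p hp
      exact absurd hp (Finset.notMem_empty p)
    · intro a ha
      exact absurd ha (Finset.notMem_empty a)
  · obtain ⟨k, c, hk, hc1, hc2⟩ := core P hP hcol
    refine ⟨k, c, ?_, hc1, hc2⟩
    have h1 : (1 : ℝ) ≤ Real.sqrt (P.card : ℝ) := by
      rw [Real.one_le_sqrt]
      have : 1 ≤ P.card := Finset.card_pos.2 h
      exact_mod_cast this
    calc (k : ℝ) ≤ 2 ^ 31 * Real.sqrt (P.card : ℝ) + N2 := hk
      _ ≤ 2 ^ 31 * Real.sqrt (P.card : ℝ) + N2 * Real.sqrt (P.card : ℝ) := by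
        have : N2 * 1 ≤ N2 * Real.sqrt (P.card : ℝ) := mul_le_mul_of_nonneg_left h1 (by linarith)
        linarith
      _ = (2 ^ 31 + N2) * Real.sqrt (P.card : ℝ) := by ring

end Pool.Agent.S11955
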