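import Pool.Statements.S12030

set_option autoImplicit false
open Pool Pool.MP_e2957e_co

namespace Pool.Agent.S12030

open Finset

section counting

variable {n : ℕ}

/-- If the value at `i` of the elements of `A` runs through `J` and `A` is stable under the swaps
of `J` then all values are taken equally often. -/
theorem fiber (A : Finset (Equiv.Perm (Fin n))) (i : Fin n) (J : Finset (Fin n))
    (hJ : ∀ σ ∈ A, σ i ∈ J)
    (hinv : ∀ j ∈ J, ∀ j' ∈ J, ∀ σ ∈ A, Equiv.swap j j' * σ ∈ A) (j : Fin n) (hj : j ∈ J) :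
    J.card * (A.filter (fun σ => σ i = j)).card = A.card := by
  classical
  rw [Finset.card_eq_sum_card_fiberwise (f := fun σ : Equiv.Perm (Fin n) => σ i) (t := J)
    (fun σ hσ => hJ σ hσ)]
  have h : ∀ j' ∈ J, (A.filter (fun σ => σ i = j')).card = (A.filter (fun σ => σ i = j)).card := by
    intro j' hj'
    apply Finset.card_bij' (fun σ _ => Equiv.swap j' j * σ) (fun σ _ => Equiv.swap j' j * σ)
    · intro σ hσ
      rw [Finset.mem_filter] at hσ ⊢
      refine ⟨hinv j' hj' j hj σ hσ.1, ?_⟩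
      rw [Equiv.Perm.mul_apply, hσ.2, Equiv.swap_apply_left]
    · intro σ hσ
      rw [Finset.mem_filter] at hσ ⊢
      refine ⟨hinv j' hj' j hj σ hσ.1, ?_⟩
      rw [Equiv.Perm.mul_apply, hσ.2, Equiv.swap_apply_right]
    · intro σ _
      rw [← mul_assoc, Equiv.swap_mul_self, one_mul]
    · intro σ _
      rw [← mul_assoc, Equiv.swap_mul_self, one_mul]
  rw [Finset.sum_congr rfl h, Finset.sum_const, smul_eq_mul]

/-- one value prescribed -/
def T1 (i j : Fin n) : Finset (Equiv.Perm (Fin n)) := univ.filter (fun σ => σ i = j)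

/-- two values prescribed -/
def T2 (i j i' j' : Fin n) : Finset (Equiv.Perm (Fin n)) := (T1 i j).filter (fun σ => σ i' = j')

/-- three values prescribed -/
def T3 (i j i' j' i'' j'' : Fin n) : Finset (Equiv.Perm (Fin n)) :=
  (T2 i j i' j').filter (fun σ => σ i'' = j'')

theorem card_T1 (i j : Fin n) : n * (T1 i j).card = n.factorial := by
  have h := fiber (univ : Finset (Equiv.Perm (Fin n))) i univ (fun _ _ => mem_univ _)
    (fun _ _ _ _ _ _ => mem_univ _) j (mem_univ j)
  rw [card_univ, Fintype.card_fin, card_univ, Fintype.card_perm, Fintype.card_fin] at h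
  exact h

theorem card_T2 (i j i' j' : Fin n) (hi : i' ≠ i) (hj : j' ≠ j) :
    (n - 1) * (T2 i j i' j').card = (T1 i j).card := by
  have h := fiber (T1 i j) i' (univ.erase j) (by
    intro σ hσ
    rw [T1, mem_filter] at hσ
    rw [mem_erase]
    refine ⟨?_, mem_univ _⟩
    intro h
    apply hi
    apply σ.injective
    rw [h, hσ.2]) (by
    intro a ha b hb σ hσ
    rw [T1, mem_filter] at hσ ⊢
    refine ⟨mem_univ _, ?_⟩
    rw [Equiv.Perm.mul_apply, hσ.2]
    rw [mem_erase] at ha hb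
    exact Equiv.swap_apply_of_ne_of_ne ha.1.symm hb.1.symm) j' (by
    rw [mem_erase]
    exact ⟨hj, mem_univ _⟩)
  rw [card_erase_of_mem (mem_univ j), card_univ, Fintype.card_fin] at h
  exact h

theorem card_T3 (i j i' j' i'' j'' : Fin n) (hi : i' ≠ i) (hj : j' ≠ j) (h1 : i'' ≠ i)
    (h2 : i'' ≠ i') (h3 : j'' ≠ j) (h4 : j'' ≠ j') :
    (n - 2) * (T3 i j i' j' i'' j'').card = (T2 i j i' j').card := by
  have h := fiber (T2 i j i' j') i'' ((univ.erase j).erase j') (by
    intro σ hσ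
    rw [T2, T1, mem_filter, mem_filter] at hσ
    rw [mem_erase, mem_erase]
    refine ⟨?_, ?_, mem_univ _⟩
    · intro h
      apply h2
      apply σ.injective
      rw [h, hσ.2]
    · intro h
      apply h1
      apply σ.injective
      rw [h, hσ.1.2]) (by
    intro a ha b hb σ hσ
    rw [T2, T1, mem_filter, mem_filter] at hσ ⊢
    rw [mem_erase, mem_erase] at ha hb
    refine ⟨⟨mem_univ _, ?_⟩, ?_⟩
    · rw [Equiv.Perm.mul_apply, hσ.1.2]
      exact Equiv.swap_apply_of_ne_of_ne ha.2.1.symm hb.2.1.symm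
    · rw [Equiv.Perm.mul_apply, hσ.2]
      exact Equiv.swap_apply_of_ne_of_ne ha.1.symm hb.1.symm) j'' (by
    rw [mem_erase, mem_erase]
    exact ⟨h4, h3, mem_univ _⟩)
  rw [card_erase_of_mem (by rw [mem_erase]; exact ⟨hj, mem_univ _⟩),
    card_erase_of_mem (mem_univ j), card_univ, Fintype.card_fin] at h
  exact h

end counting

section

variable (m : ℕ)

theorem c1 (i j : Fin (m + 4)) : (T1 i j).card = (m + 3).factorial := by
  have h := card_T1 i j
  rw [Nat.factorial_succ] at h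
  exact Nat.eq_of_mul_eq_mul_left (by omega) h

theorem c2 (i j i' j' : Fin (m + 4)) (hi : i' ≠ i) (hj : j' ≠ j) :
    (T2 i j i' j').card = (m + 2).factorial := by
  have h := card_T2 i j i' j' hi hj
  rw [c1, Nat.factorial_succ (m + 2)] at h
  exact Nat.eq_of_mul_eq_mul_left (by omega) h

theorem c3 (i j i' j' i'' j'' : Fin (m + 4)) (hi : i' ≠ i) (hj : j' ≠ j) (h1 : i'' ≠ i)
    (h2 : i'' ≠ i') (h3 : j'' ≠ j) (h4 : j'' ≠ j') :
    (T3 i j i' j' i'' j'').card = (m + 1).factorial := by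
  have h := card_T3 i j i' j' i'' j'' hi hj h1 h2 h3 h4
  rw [c2 m i j i' j' hi hj, Nat.factorial_succ (m + 1)] at h
  exact Nat.eq_of_mul_eq_mul_left (by omega) h

/-- the complement of the counterexample -/
def D : Finset (Equiv.Perm (Fin (m + 4))) :=
  (T1 0 0 ∪ T1 1 1) ∪ T2 0 1 1 0

theorem mem_D (σ : Equiv.Perm (Fin (m + 4))) :
    σ ∈ D m ↔ (σ 0 = 0 ∨ σ 1 = 1) ∨ (σ 0 = 1 ∧ σ 1 = 0) := by
  simp [D, T2, T1, or_assoc]

theorem zero_ne_one' : (0 : Fin (m + 4)) ≠ 1 := by
  intro h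
  have := congrArg Fin.val h
  simp at this

theorem card_D : (D m).card = 2 * (m + 3).factorial := by
  have h01 := zero_ne_one' m
  unfold D
  rw [card_union_of_disjoint]
  · have h1 := card_union_add_card_inter (T1 (0 : Fin (m + 4)) 0) (T1 1 1)
    have h2 : T1 (0 : Fin (m + 4)) 0 ∩ T1 1 1 = T2 0 0 1 1 := by
      ext σ
      simp [T1, T2]
    rw [h2, c1, c1, c2 m 0 0 1 1 h01.symm h01.symm] at h1
    rw [c2 m 0 1 1 0 h01.symm h01]
    omega
  · rw [disjoint_left]
    intro σ hσ hσ'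
    simp only [T1, T2, mem_union, mem_filter, mem_univ, true_and] at hσ hσ'
    rcases hσ with h | h
    · exact h01 (h.symm.trans hσ'.1)
    · exact h01 (hσ'.2.symm.trans h)

theorem card_compl_D : ((D m)ᶜ).card = (m + 2) * (m + 3).factorial := by
  rw [card_compl, card_D, Fintype.card_perm, Fintype.card_fin, Nat.factorial_succ (m + 3)]
  have : (m + 3 + 1) * (m + 3).factorial = (m + 2) * (m + 3).factorial + 2 * (m + 3).factorial := by
    ring
  omega

/-- the pairs containing `x` -/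
def Q (x : Fin (m + 4)) : Finset (Fin (m + 4) × Fin (m + 4)) :=
  univ.filter (fun p => p.1 < p.2 ∧ (p.1 = x ∨ p.2 = x))

theorem card_Q (x : Fin (m + 4)) : (Q m x).card ≤ m + 3 := by
  have h : Q m x ⊆ (univ.erase x).image (fun y => if x < y then (x, y) else (y, x)) := by
    rintro ⟨a, b⟩ hp
    simp only [Q, mem_filter, mem_univ, true_and] at hp
    rw [mem_image]
    obtain ⟨hab, rfl | rfl⟩ := hp
    · refine ⟨b, ?_, ?_⟩
      · rw [mem_erase]; exact ⟨hab.ne', mem_univ _⟩
      · rw [if_pos hab]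
    · refine ⟨a, ?_, ?_⟩
      · rw [mem_erase]; exact ⟨hab.ne, mem_univ _⟩
      · rw [if_neg (not_lt.2 hab.le)]
  refine (card_le_card h).trans (card_image_le.trans ?_)
  rw [card_erase_of_mem (mem_univ x), card_univ, Fintype.card_fin]
  omega

theorem swap_keep (σ : Equiv.Perm (Fin (m + 4))) (a b x : Fin (m + 4)) (hab : a < b)
    (h : (a, b) ∉ Q m x) : (σ * Equiv.swap a b) x = σ x := by
  rw [Equiv.Perm.mul_apply, Equiv.swap_apply_of_ne_of_ne]
  · rintro rfl
    apply h
    simp [Q, hab]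
  · rintro rfl
    apply h
    simp [Q, hab]

theorem boundary_le :
    ((((D m)ᶜ ×ˢ (univ.filter (fun p : Fin (m + 4) × Fin (m + 4) => p.1 < p.2))).filter
      (fun x => x.1 * Equiv.swap x.2.1 x.2.2 ∉ (D m)ᶜ)).card : ℕ) ≤
      2 * (m + 4) * (m + 3).factorial := by
  have h01 := zero_ne_one' m
  set E : Finset (Equiv.Perm (Fin (m + 4)) × Fin (m + 4) × Fin (m + 4)) :=
    ((T1 0 0) ×ˢ (Q m 0) ∪ (T1 1 1) ×ˢ (Q m 1)) ∪ (T2 0 1 1 0) ×ˢ (Q m 0 ∪ Q m 1) with hE
  have hcard : E.card ≤ 2 * (m + 4) * (m + 3).factorial := by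
    have hq0 := card_Q m 0
    have hq1 := card_Q m 1
    have hq : (Q m 0 ∪ Q m 1).card ≤ 2 * (m + 3) := (card_union_le _ _).trans (by omega)
    calc E.card ≤ (T1 (0 : Fin (m + 4)) 0).card * (Q m 0).card + (T1 (1 : Fin (m + 4)) 1).card * (Q m 1).card
          + (T2 (0 : Fin (m + 4)) 1 1 0).card * (Q m 0 ∪ Q m 1).card := by
          rw [hE]
          refine (card_union_le _ _).trans ?_
          refine Nat.add_le_add ((card_union_le _ _).trans ?_) ?_
          · rw [card_product, card_product]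
          · rw [card_product]
      _ ≤ (m + 3).factorial * (m + 3) + (m + 3).factorial * (m + 3) +
          (m + 2).factorial * (2 * (m + 3)) := by
          rw [c1, c1, c2 m 0 1 1 0 h01.symm h01]
          gcongr
      _ = 2 * (m + 4) * (m + 3).factorial := by
          rw [Nat.factorial_succ (m + 2)]
          ring
  refine le_trans ?_ hcard
  apply card_le_card_of_injOn (fun x => (x.1 * Equiv.swap x.2.1 x.2.2, x.2))
  · rintro ⟨σ, a, b⟩ hx
    simp only [coe_filter, mem_product, mem_compl, mem_filter, mem_univ, true_and,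
      Set.mem_ofPred_eq, not_not] at hx
    obtain ⟨⟨hσ, hab⟩, hτ⟩ := hx
    set τ := σ * Equiv.swap a b with hτd
    have hστ : τ * Equiv.swap a b = σ := by
      rw [hτd, mul_assoc, Equiv.swap_mul_self, mul_one]
    rw [mem_D] at hτ
    rw [← hστ, mem_D] at hσ
    simp only [mem_coe, hE, mem_union, mem_product, T1, T2, mem_filter, mem_univ, true_and]
    rcases hτ with (h | h) | ⟨h, h'⟩
    · left; left
      refine ⟨h, ?_⟩
      by_contra hcon
      apply hσ
      left; left
      rw [swap_keep m τ a b 0 hab hcon, h]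
    · left; right
      refine ⟨h, ?_⟩
      by_contra hcon
      apply hσ
      left; right
      rw [swap_keep m τ a b 1 hab hcon, h]
    · right
      refine ⟨⟨h, h'⟩, ?_⟩
      by_contra hcon
      rw [not_or] at hcon
      apply hσ
      right
      rw [swap_keep m τ a b 0 hab hcon.1, swap_keep m τ a b 1 hab hcon.2]
      exact ⟨h, h'⟩
  · rintro ⟨σ, a, b⟩ _ ⟨σ', a', b'⟩ _ h
    simp only [Prod.mk.injEq] at h
    obtain ⟨h1, h2, h3⟩ := h
    subst h2 h3
    rw [mul_left_inj] at h1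
    rw [h1]

/-- A union of one-cosets meets `T1 q.1 q.2` often if many cells are independent of `q`. -/
theorem meets (q : Fin (m + 4) × Fin (m + 4)) (K : Finset (Fin (m + 4) × Fin (m + 4)))
    (hK : ∀ p ∈ K, p.1 ≠ q.1 ∧ p.2 ≠ q.2) (hKc : K.card ≤ m + 2) :
    K.card * (m + 2).factorial ≤
      2 * ((T1 q.1 q.2).filter (fun σ => ∃ p ∈ K, σ p.1 = p.2)).card := by
  classical
  set U := (T1 q.1 q.2).filter (fun σ => ∃ p ∈ K, σ p.1 = p.2) with hU
  let X : Equiv.Perm (Fin (m + 4)) → ℕ := fun σ => (K.filter (fun p => σ p.1 = p.2)).card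
  have hX0 : ∀ σ ∈ T1 q.1 q.2, σ ∉ U → X σ = 0 := by
    intro σ hσ hσU
    rw [hU, mem_filter, not_and] at hσU
    have := hσU hσ
    push Not at this
    change (K.filter (fun p => σ p.1 = p.2)).card = 0
    rw [card_eq_zero, filter_eq_empty_iff]
    intro p hp
    exact this p hp
  have hUsub : U ⊆ T1 q.1 q.2 := filter_subset _ _
  have hsum1 : ∑ σ ∈ U, X σ = K.card * (m + 2).factorial := by
    rw [sum_subset hUsub (fun σ hσ hσU => hX0 σ hσ hσU)]
    have e1 : ∀ σ, X σ = ∑ p ∈ K, if σ p.1 = p.2 then 1 else 0 := by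
      intro σ
      change (K.filter (fun p => σ p.1 = p.2)).card = _
      rw [card_filter]
    rw [sum_congr rfl (fun σ _ => e1 σ), sum_comm]
    have e2 : ∀ p ∈ K, (∑ σ ∈ T1 q.1 q.2, if σ p.1 = p.2 then 1 else 0) = (m + 2).factorial := by
      intro p hp
      rw [← card_filter]
      exact c2 m q.1 q.2 p.1 p.2 (hK p hp).1 (hK p hp).2
    rw [sum_congr rfl e2, sum_const, smul_eq_mul]
  have hsum2 : ∑ σ ∈ U, X σ ^ 2 ≤ 2 * (K.card * (m + 2).factorial) := by
    rw [sum_subset hUsub (fun σ hσ hσU => by rw [hX0 σ hσ hσU]; rfl)]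
    have e1 : ∀ σ, X σ ^ 2 = ∑ p ∈ K, ∑ p' ∈ K, if (σ p.1 = p.2 ∧ σ p'.1 = p'.2) then 1 else 0 := by
      intro σ
      change (K.filter (fun p => σ p.1 = p.2)).card ^ 2 = _
      rw [card_filter, sq, sum_mul_sum]
      apply sum_congr rfl
      intro p _
      apply sum_congr rfl
      intro p' _
      by_cases h : σ p.1 = p.2 <;> by_cases h' : σ p'.1 = p'.2 <;> simp [h, h']
    rw [sum_congr rfl (fun σ _ => e1 σ), sum_comm]
    have e2 : ∀ p ∈ K, (∑ σ ∈ T1 q.1 q.2, ∑ p' ∈ K,
        if (σ p.1 = p.2 ∧ σ p'.1 = p'.2) then 1 else 0) ≤ 2 * (m + 2).factorial := by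
      intro p hp
      rw [sum_comm]
      have e3 : ∀ p' ∈ K, (∑ σ ∈ T1 q.1 q.2, if (σ p.1 = p.2 ∧ σ p'.1 = p'.2) then 1 else 0) ≤
          if p' = p then (m + 2).factorial else (m + 1).factorial := by
        intro p' hp'
        rw [← card_filter]
        split_ifs with hpp
        · subst hpp
          rw [← c2 m q.1 q.2 p'.1 p'.2 (hK p' hp').1 (hK p' hp').2]
          apply card_le_card
          intro σ hσ
          rw [mem_filter] at hσ
          rw [T2, mem_filter]
          exact ⟨hσ.1, hσ.2.1⟩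
        · by_cases hr : p'.1 = p.1
          · have : ((T1 q.1 q.2).filter (fun σ => σ p.1 = p.2 ∧ σ p'.1 = p'.2)) = ∅ := by
              rw [filter_eq_empty_iff]
              rintro σ - ⟨h1, h2⟩
              apply hpp
              apply Prod.ext hr
              rw [← h2, hr, h1]
            rw [this]
            simp
          · by_cases hcl : p'.2 = p.2
            · have : ((T1 q.1 q.2).filter (fun σ => σ p.1 = p.2 ∧ σ p'.1 = p'.2)) = ∅ := by
                rw [filter_eq_empty_iff]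
                rintro σ - ⟨h1, h2⟩
                apply hr
                apply σ.injective
                rw [h1, h2, hcl]
              rw [this]
              simp
            · rw [← c3 m q.1 q.2 p.1 p.2 p'.1 p'.2 (hK p hp).1 (hK p hp).2 (hK p' hp').1 hr
                (hK p' hp').2 hcl]
              apply card_le_card
              intro σ hσ
              rw [mem_filter] at hσ
              rw [T3, T2, mem_filter, mem_filter]
              exact ⟨⟨hσ.1, hσ.2.1⟩, hσ.2.2⟩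
      refine (sum_le_sum e3).trans ?_
      rw [sum_ite, sum_const, sum_const, smul_eq_mul, smul_eq_mul, filter_eq' K p, if_pos hp,
        card_singleton, one_mul, two_mul]
      apply Nat.add_le_add_left
      have h4 : (K.filter (fun x => ¬ x = p)).card ≤ m + 2 := (card_filter_le _ _).trans hKc
      calc (K.filter (fun x => ¬ x = p)).card * (m + 1).factorial
          ≤ (m + 2) * (m + 1).factorial := Nat.mul_le_mul_right _ h4
        _ = (m + 2).factorial := by rw [Nat.factorial_succ (m + 1)]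
    refine (sum_le_sum e2).trans (le_of_eq ?_)
    rw [sum_const, smul_eq_mul]
    ring
  have hCS : (∑ σ ∈ U, X σ) ^ 2 ≤ U.card * ∑ σ ∈ U, X σ ^ 2 := sq_sum_le_card_mul_sum_sq
  rw [hsum1] at hCS
  have h5 : (K.card * (m + 2).factorial) ^ 2 ≤ U.card * (2 * (K.card * (m + 2).factorial)) :=
    hCS.trans (Nat.mul_le_mul_left _ hsum2)
  rcases Nat.eq_zero_or_pos (K.card * (m + 2).factorial) with h6 | h6
  · rw [h6]; exact Nat.zero_le _
  · have h7 : (K.card * (m + 2).factorial) * (K.card * (m + 2).factorial) ≤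
        (2 * U.card) * (K.card * (m + 2).factorial) := by
      calc (K.card * (m + 2).factorial) * (K.card * (m + 2).factorial)
          = (K.card * (m + 2).factorial) ^ 2 := by ring
        _ ≤ _ := h5
        _ = _ := by ring
    exact Nat.le_of_mul_le_mul_right h7 h6

/-- every union of `m + 2` one-cosets meets `D` often -/
theorem union_meets (P : Finset (Fin (m + 4) × Fin (m + 4))) (hP : P.card = m + 2) :
    m * (m + 2).factorial ≤ 4 * ((univ.filter (fun σ : Equiv.Perm (Fin (m + 4)) =>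
      ∃ p ∈ P, σ p.1 = p.2)) ∩ D m).card := by
  classical
  have h01 := zero_ne_one' m
  set B := univ.filter (fun σ : Equiv.Perm (Fin (m + 4)) => ∃ p ∈ P, σ p.1 = p.2) with hB
  -- cells independent of (0,0), (1,1)
  have key : ∀ q : Fin (m + 4) × Fin (m + 4), T1 q.1 q.2 ⊆ D m →
      (P.filter (fun p => p.1 ≠ q.1 ∧ p.2 ≠ q.2)).card * (m + 2).factorial ≤
        2 * (B ∩ D m).card := by
    intro q hq
    have h1 := meets m q (P.filter (fun p => p.1 ≠ q.1 ∧ p.2 ≠ q.2)) (by
      intro p hp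
      rw [mem_filter] at hp
      exact hp.2) ((card_filter_le _ _).trans hP.le)
    refine h1.trans (Nat.mul_le_mul_left _ (card_le_card ?_))
    intro σ hσ
    rw [mem_filter] at hσ
    obtain ⟨h2, p, hp, h3⟩ := hσ
    rw [mem_inter, hB, mem_filter]
    rw [mem_filter] at hp
    exact ⟨⟨mem_univ _, p, hp.1, h3⟩, hq h2⟩
  have k0 := key (0, 0) (by
    intro σ hσ
    rw [T1, mem_filter] at hσ
    rw [mem_D]
    exact Or.inl (Or.inl hσ.2))
  have k1 := key (1, 1) (by
    intro σ hσ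
    rw [T1, mem_filter] at hσ
    rw [mem_D]
    exact Or.inl (Or.inr hσ.2))
  set a := (P.filter (fun p => p.1 ≠ (0 : Fin (m + 4)) ∧ p.2 ≠ (0 : Fin (m + 4)))).card with ha
  set b := (P.filter (fun p => p.1 ≠ (1 : Fin (m + 4)) ∧ p.2 ≠ (1 : Fin (m + 4)))).card with hb
  have hab : m ≤ a + b := by
    have hcov : P ⊆ ((P.filter (fun p => p.1 ≠ (0 : Fin (m + 4)) ∧ p.2 ≠ (0 : Fin (m + 4)))) ∪
        (P.filter (fun p => p.1 ≠ (1 : Fin (m + 4)) ∧ p.2 ≠ (1 : Fin (m + 4))))) ∪
        {((0 : Fin (m + 4)), (1 : Fin (m + 4))), (1, 0)} := by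
      rintro ⟨x, y⟩ hp
      simp only [mem_union, mem_filter, hp, true_and, mem_insert, mem_singleton, Prod.mk.injEq]
      by_cases hx0 : x = 0
      · by_cases hy1 : y = 1
        · right; left; exact ⟨hx0, hy1⟩
        · left; right
          exact ⟨by rw [hx0]; exact h01, hy1⟩
      · by_cases hy0 : y = 0
        · by_cases hx1 : x = 1
          · right; right; exact ⟨hx1, hy0⟩
          · left; right
            exact ⟨hx1, by rw [hy0]; exact h01⟩
        · left; left
          exact ⟨hx0, hy0⟩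
    have h1 := card_le_card hcov
    rw [hP] at h1
    have h2 := card_union_le ((P.filter (fun p => p.1 ≠ (0 : Fin (m + 4)) ∧ p.2 ≠ (0 : Fin (m + 4)))) ∪
        (P.filter (fun p => p.1 ≠ (1 : Fin (m + 4)) ∧ p.2 ≠ (1 : Fin (m + 4)))))
        {((0 : Fin (m + 4)), (1 : Fin (m + 4))), (1, 0)}
    have h3 := card_union_le (P.filter (fun p => p.1 ≠ (0 : Fin (m + 4)) ∧ p.2 ≠ (0 : Fin (m + 4))))
        (P.filter (fun p => p.1 ≠ (1 : Fin (m + 4)) ∧ p.2 ≠ (1 : Fin (m + 4))))
    have h4 : ({((0 : Fin (m + 4)), (1 : Fin (m + 4))), (1, 0)} :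
        Finset (Fin (m + 4) × Fin (m + 4))).card ≤ 2 := card_le_two
    rw [← ha, ← hb] at h3
    omega
  calc m * (m + 2).factorial ≤ (a + b) * (m + 2).factorial := Nat.mul_le_mul_right _ hab
    _ = a * (m + 2).factorial + b * (m + 2).factorial := by ring
    _ ≤ 2 * (B ∩ D m).card + 2 * (B ∩ D m).card := Nat.add_le_add k0 k1
    _ = 4 * (B ∩ D m).card := by ring

end

/-- The negation of the preceding statement: There is an absolute C₁>0 such that any A⊂S_n of size c(n−1)! whose transposition-graph edge boundary is at most ∣A∣(n!−∣A∣)/(n−1)!+δn∣A∣ lies within symmetric difference C₁cδ(n−1)! of a union of c distinct 1-cosets {σ: σ(i)=j}. -/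
theorem result :
    ¬ (∃ C₁ : ℝ, 0 < C₁ ∧
      ∀ (n : ℕ), 1 ≤ n →
      ∀ (c : ℕ) (δ : ℝ), 0 ≤ δ →
      ∀ A : Finset (Equiv.Perm (Fin n)),
        A.card = c * Nat.factorial (n - 1) →
        ((((A ×ˢ (Finset.univ.filter (fun p : Fin n × Fin n => p.1 < p.2))).filter
            (fun x => x.1 * Equiv.swap x.2.1 x.2.2 ∉ A)).card : ℕ) : ℝ)
          ≤ (A.card : ℝ) * ((Nat.factorial n : ℝ) - (A.card : ℝ)) / (Nat.factorial (n - 1) : ℝ)
            + δ * (n : ℝ) * (A.card : ℝ) →
        ∃ P : Finset (Fin n × Fin n), P.card = c ∧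
          ((symmDiff A (Finset.univ.filter (fun σ : Equiv.Perm (Fin n) => ∃ p ∈ P, σ p.1 = p.2))).card : ℝ)
            ≤ C₁ * (c : ℝ) * δ * (Nat.factorial (n - 1) : ℝ)) := by
  rintro ⟨C₁, hC, H⟩
  obtain ⟨m, hm⟩ := exists_nat_gt (16 * C₁)
  have hm0 : (0 : ℝ) < m := by linarith
  set δ : ℝ := 4 / (((m : ℝ) + 4) * ((m : ℝ) + 2)) with hδ
  have hδ0 : 0 ≤ δ := by positivity
  have hF : (0 : ℝ) < ((m + 3).factorial : ℝ) := by exact_mod_cast Nat.factorial_pos _
  have hF2 : (0 : ℝ) < ((m + 2).factorial : ℝ) := by exact_mod_cast Nat.factorial_pos _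
  obtain ⟨P, hP, hPle⟩ := H (m + 4) (by omega) (m + 2) δ hδ0 (D m)ᶜ (card_compl_D m) (by
    have h1 := boundary_le m
    have h2 : ((2 * (m + 4) * (m + 3).factorial : ℕ) : ℝ) =
        ((D m)ᶜ.card : ℝ) * ((Nat.factorial (m + 4) : ℝ) - ((D m)ᶜ.card : ℝ)) /
          (Nat.factorial (m + 4 - 1) : ℝ) + δ * ((m + 4 : ℕ) : ℝ) * ((D m)ᶜ.card : ℝ) := by
      rw [card_compl_D]
      have e1 : m + 4 - 1 = m + 3 := by omega
      rw [e1, Nat.factorial_succ (m + 3)]
      push_cast
      rw [hδ]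
      field_simp
      ring
    rw [← h2]
    exact_mod_cast h1)
  have h3 := union_meets m P hP
  have h4 : (((univ.filter (fun σ : Equiv.Perm (Fin (m + 4)) => ∃ p ∈ P, σ p.1 = p.2)) ∩ D m).card : ℝ) ≤
      ((symmDiff (D m)ᶜ (univ.filter (fun σ : Equiv.Perm (Fin (m + 4)) =>
        ∃ p ∈ P, σ p.1 = p.2))).card : ℝ) := by
    exact_mod_cast card_le_card (by
      intro σ hσ
      rw [mem_inter] at hσ
      rw [mem_symmDiff]
      right
      refine ⟨hσ.1, ?_⟩
      rw [mem_compl, not_not]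
      exact hσ.2)
  have h5 : (m : ℝ) * ((m + 2).factorial : ℝ) ≤
      4 * (((univ.filter (fun σ : Equiv.Perm (Fin (m + 4)) => ∃ p ∈ P, σ p.1 = p.2)) ∩ D m).card : ℝ) := by
    exact_mod_cast h3
  have h6 : (m : ℝ) * ((m + 2).factorial : ℝ) ≤
      4 * (C₁ * ((m + 2 : ℕ) : ℝ) * δ * (Nat.factorial (m + 4 - 1) : ℝ)) := by
    linarith
  have e1 : m + 4 - 1 = m + 3 := by omega
  rw [e1, Nat.factorial_succ (m + 2), hδ] at h6
  push_cast at h6
  have h7 : 4 * (C₁ * ((m : ℝ) + 2) * (4 / (((m : ℝ) + 4) * ((m : ℝ) + 2))) *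
      (((m : ℝ) + 2 + 1) * ((m + 2).factorial : ℝ))) =
      16 * C₁ * (((m : ℝ) + 3) / ((m : ℝ) + 4)) * ((m + 2).factorial : ℝ) := by
    field_simp
    ring
  rw [h7] at h6
  have h8 : (m : ℝ) ≤ 16 * C₁ * (((m : ℝ) + 3) / ((m : ℝ) + 4)) := le_of_mul_le_mul_right h6 hF2
  have h9 : ((m : ℝ) + 3) / ((m : ℝ) + 4) ≤ 1 := by
    rw [div_le_one (by positivity)]
    linarith
  have h10 : 16 * C₁ * (((m : ℝ) + 3) / ((m : ℝ) + 4)) ≤ 16 * C₁ * 1 :=
    mul_le_mul_of_nonneg_left h9 (by positivity)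
  linarith

end Pool.Agent.S12030
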