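import Pool.Statements.S12047
import Pool.Agent.H222R2.ShiftChainRed

set_option autoImplicit false
open Pool Pool.MP_e3676c_co

namespace Pool.Agent.S12047

/-- sorted elements of the image of a set under `Fin.val` -/
theorem map_orderEmb {n m : ℕ} (A : Finset (Fin n)) (hA : A.card = m)
    (hA' : (A.map Fin.valEmbedding).card = m) (i : Fin m) :
    (A.map Fin.valEmbedding).orderEmbOfFin hA' i = (A.orderEmbOfFin hA i : ℕ) := by
  have h := Finset.orderEmbOfFin_unique (s := A.map Fin.valEmbedding) hA'
    (f := fun j => ((A.orderEmbOfFin hA j : Fin n) : ℕ)) (by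
      intro j
      rw [Finset.mem_map]
      exact ⟨A.orderEmbOfFin hA j, Finset.orderEmbOfFin_mem A hA j, rfl⟩)
    (by
      intro a b hab
      have := (A.orderEmbOfFin hA).strictMono hab
      exact this)
  exact (congrFun h i).symm

/-- There is m such that for every n, every family of m-subsets of {0..n-1} that is totally ordered by comparing sorted elements coordinatewise admits a 2-coloring of the points with no monochromatic member. -/
theorem result :
    ∃ m : ℕ, ∀ (n : ℕ) (H : Finset (Finset (Fin n))) (hH : ∀ A ∈ H, A.card = m),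
      (∀ A (hA : A ∈ H) B (hB : B ∈ H),
        (∀ i : Fin m, A.orderEmbOfFin (hH A hA) i ≤ B.orderEmbOfFin (hH B hB) i) ∨
        (∀ i : Fin m, B.orderEmbOfFin (hH B hB) i ≤ A.orderEmbOfFin (hH A hA) i)) →
      ∃ c : Fin n → Bool, ∀ A ∈ H, ∃ x ∈ A, ∃ y ∈ A, c x ≠ c y := by
  refine ⟨4, fun n H hH hch => ?_⟩
  obtain ⟨c, hc⟩ := Pool.Agent.H222R2.ShiftChain.final 4 le_rfl n
    (H.image (fun A => A.map Fin.valEmbedding)) (by
      intro B hB
      obtain ⟨A, hA, rfl⟩ := Finset.mem_image.mp hB
      rw [Finset.mem_powersetCard]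
      refine ⟨?_, by rw [Finset.card_map]; exact hH A hA⟩
      intro x hx
      obtain ⟨y, -, rfl⟩ := Finset.mem_map.mp hx
      exact Finset.mem_range.mpr y.isLt) (by
      intro A' hA' B' hB' hAc hBc
      obtain ⟨A, hA, rfl⟩ := Finset.mem_image.mp hA'
      obtain ⟨B, hB, rfl⟩ := Finset.mem_image.mp hB'
      rcases hch A hA B hB with h | h
      · left
        intro i
        rw [map_orderEmb A (hH A hA), map_orderEmb B (hH B hB)]
        exact h i
      · right
        intro i
        rw [map_orderEmb A (hH A hA), map_orderEmb B (hH B hB)]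
        exact h i)
  refine ⟨fun x => c x.val, fun A hA => ?_⟩
  obtain ⟨x, hx, y, hy, hxy⟩ := hc _ (Finset.mem_image.mpr ⟨A, hA, rfl⟩)
  obtain ⟨x', hx', rfl⟩ := Finset.mem_map.mp hx
  obtain ⟨y', hy', rfl⟩ := Finset.mem_map.mp hy
  exact ⟨x', hx', y', hy', hxy⟩

end Pool.Agent.S12047
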