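import Pool.Statements.S12060
import Pool.Agent.Results.MP_e3c312_co.CuspSymmetry

set_option autoImplicit false
open Pool Pool.MP_e3c312_co

namespace Pool.Agent.S12060

open Pool.Agent.Results.MP_e3c312_co.CuspSymmetry in
/-- congruence of placements -/
def rr (q q' : Fin 7 → EuclideanSpace ℝ (Fin 3)) : Prop :=
  ∃ T : EuclideanSpace ℝ (Fin 3) ≃ᵢ EuclideanSpace ℝ (Fin 3), ∀ i, T (q i) = q' i

theorem rr_equiv : Equivalence rr where
  refl q := ⟨IsometryEquiv.refl _, fun _ => rfl⟩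
  symm := by
    rintro q q' ⟨T, h⟩
    exact ⟨T.symm, fun i => by rw [← h i, T.symm_apply_apply]⟩
  trans := by
    rintro q q' q'' ⟨T, h⟩ ⟨T', h'⟩
    exact ⟨T.trans T', fun i => by rw [← h' i, ← h i]; rfl⟩

theorem rr_exact {q q' : Fin 7 → EuclideanSpace ℝ (Fin 3)} (h : Quot.mk rr q = Quot.mk rr q') :
    rr q q' := rr_equiv.quot_mk_eq_iff q q' |>.1 h

/-- the invariant -/
noncomputable def inv' (q : Fin 7 → EuclideanSpace ℝ (Fin 3)) : ℝ :=
  dist (q 2) (q 6) ^ 2 - dist (q 1) (q 6) ^ 2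

theorem inv'_congr (q q' : Fin 7 → EuclideanSpace ℝ (Fin 3)) (h : rr q q') : inv' q = inv' q' := by
  obtain ⟨T, hT⟩ := h
  unfold inv'
  rw [← hT 1, ← hT 2, ← hT 6, T.dist_eq, T.dist_eq]

theorem inv'_continuous : Continuous inv' := by
  unfold inv'
  fun_prop

/-- the invariant on the quotient -/
noncomputable def invQ : Quot rr → ℝ := Quot.lift inv' inv'_congr

theorem invQ_continuous : Continuous invQ := continuous_quot_lift _ inv'_continuous

/-- the local conditions -/
def Near' (q : Fin 7 → EuclideanSpace ℝ (Fin 3)) : Prop :=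
  0 < dist (q 1) (q 2) ∧ dist (q 1) (q 2) ^ 2 < 8 ∧
    |dist (q 3) (q 4) ^ 2 - 25| < 12 / 100 ∧ dist (q 3) (q 5) ^ 2 < 5661

theorem near'_congr (q q' : Fin 7 → EuclideanSpace ℝ (Fin 3)) (h : rr q q') (hq : Near' q) :
    Near' q' := by
  obtain ⟨T, hT⟩ := h
  unfold Near' at *
  rw [← hT 1, ← hT 2, ← hT 3, ← hT 4, ← hT 5, T.dist_eq, T.dist_eq, T.dist_eq]
  exact hq

theorem near'_isOpen : IsOpen {q : Fin 7 → EuclideanSpace ℝ (Fin 3) | Near' q} := by
  have c12 : Continuous fun q : Fin 7 → EuclideanSpace ℝ (Fin 3) => dist (q 1) (q 2) := by fun_prop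
  have c34 : Continuous fun q : Fin 7 → EuclideanSpace ℝ (Fin 3) => dist (q 3) (q 4) := by fun_prop
  have c35 : Continuous fun q : Fin 7 → EuclideanSpace ℝ (Fin 3) => dist (q 3) (q 5) := by fun_prop
  refine (isOpen_lt continuous_const c12).inter ((isOpen_lt (c12.pow 2) continuous_const).inter
    ((isOpen_lt ((c34.pow 2).sub continuous_const).abs continuous_const).inter
      (isOpen_lt (c35.pow 2) continuous_const)))

/-- the open set of classes -/
def OO : Set (Quot rr) := Quot.mk rr '' {q | Near' q}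

theorem OO_open : IsOpen OO := by
  refine (isQuotientMap_quot_mk (r := rr)).isOpen_preimage.1 ?_
  convert near'_isOpen using 1
  ext q
  constructor
  · rintro ⟨q', hq', h⟩
    exact near'_congr q' q (rr_exact h) hq'
  · intro hq
    exact ⟨q, hq, rfl⟩

open Pool.Agent.Results.MP_e3c312_co.CuspSymmetry

theorem near_std {x : ℝ} (hx : x ∈ Dom) : Near' (std x) := by
  obtain ⟨h12, h34, h35, _, _, _, _⟩ := (rel_std hx).nonedges
  have R := rel_std hx
  have hX := dom_X hx
  have hX0 : 0 ≤ x ^ 2 := sq_nonneg x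
  have hz : fz (x ^ 2) ^ 2 < 2 := by
    have h1 := R.hz
    have h2 := R.hP
    have h3 : 0 < fP (x ^ 2) ^ 2 := pow_pos R.P0 2
    by_contra hcon
    push Not at hcon
    nlinarith
  have hz0 := R.z0
  change dist (std x 1) (std x 2) ^ 2 = _ at h12
  change dist (std x 3) (std x 4) ^ 2 = _ at h34
  change dist (std x 3) (std x 5) ^ 2 = _ at h35
  refine ⟨?_, ?_, ?_, ?_⟩
  · have : dist (std x 1) (std x 2) ≠ 0 := by
      intro h
      rw [h] at h12
      nlinarith
    positivity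
  · rw [h12]; linarith
  · rw [h34, abs_lt]
    constructor <;> linarith
  · rw [h35]; linarith

theorem dom_y (y : Set.Ioo (0 : ℝ) 1) : (2 * (y : ℝ) - 1) / 10 ∈ Dom := by
  obtain ⟨y, h1, h2⟩ := y
  constructor <;> simp only <;> linarith

/-- the curve -/
noncomputable def cur (y : Set.Ioo (0 : ℝ) 1) : Quot rr := Quot.mk rr (std ((2 * (y : ℝ) - 1) / 10))

theorem cur_continuous : Continuous cur := by
  refine continuous_quot_mk.comp ?_
  exact cont_std.comp_continuous (by fun_prop) (fun y => dom_y y)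

theorem invQ_cur (y : Set.Ioo (0 : ℝ) 1) : invQ (cur y) = 4 * fh ((2 * (y : ℝ) - 1) / 10) :=
  inv_std (dom_y y)

theorem cur_isEmbedding : Topology.IsEmbedding cur := by
  refine Topology.IsEmbedding.of_comp cur_continuous invQ_continuous ?_
  have hc : Continuous (invQ ∘ cur) := invQ_continuous.comp cur_continuous
  have hm : StrictMono (invQ ∘ cur) := by
    intro y y' h
    simp only [Function.comp, invQ_cur]
    have h' : (2 * (y : ℝ) - 1) / 10 < (2 * (y' : ℝ) - 1) / 10 := by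
      have : (y : ℝ) < y' := h
      linarith
    have := fh_strictMono (dom_y y) (dom_y y') h'
    linarith
  refine hm.isEmbedding_of_ordConnected ?_
  have : PreconnectedSpace (Set.Ioo (0 : ℝ) 1) :=
    Subtype.preconnectedSpace isPreconnected_Ioo
  exact (isPreconnected_range hc).ordConnected

theorem range_cur : Set.range cur = OO ∩ {x : Quot rr |
      ∃ q : Fin 7 → EuclideanSpace ℝ (Fin 3), Quot.mk rr q = x ∧
        ∀ i j : Fin 7, G7.Adj i j → dist (q i) (q j) = dist (p7 i) (p7 j)} := by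
  ext c
  constructor
  · rintro ⟨y, rfl⟩
    exact ⟨⟨_, near_std (dom_y y), rfl⟩, _, rfl, fun i j h => std_mem (dom_y y) i j h⟩
  · rintro ⟨⟨q, hq, rfl⟩, q', hq'q, hq'⟩
    have h1 : rr q' q := rr_exact hq'q
    obtain ⟨T', hT'⟩ := h1
    have hq2 : ∀ i j : Fin 7, G7.Adj i j → dist (q i) (q j) = dist (p7 i) (p7 j) := by
      intro i j hij
      rw [← hT' i, ← hT' j, T'.dist_eq]
      exact hq' i j hij
    obtain ⟨h1, h2, h3, h4⟩ := hq
    obtain ⟨T, x, hx, hT⟩ := local_unique q hq2 h1 h2 h3 h4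
    have hx10 : (10 * x + 1) / 2 ∈ Set.Ioo (0 : ℝ) 1 := by
      obtain ⟨a, b⟩ := hx
      constructor <;> linarith
    refine ⟨⟨(10 * x + 1) / 2, hx10⟩, ?_⟩
    refine Quot.sound ?_
    refine ⟨T.symm, fun i => ?_⟩
    have e : (2 * ((10 * x + 1) / 2) - 1) / 10 = x := by ring
    change T.symm (std ((2 * ((10 * x + 1) / 2) - 1) / 10) i) = q i
    rw [e, ← hT i, T.symm_apply_apply]

/-- the permutation of the vertices given by a graph automorphism -/
def tau : GraphAut G7 →* Equiv.Perm (Fin 7) where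
  toFun a := RelIso.toEquiv a
  map_one' := rfl
  map_mul' _ _ := rfl

/-- the symmetry group -/
def Gam' : Subgroup (EuclideanSpace ℝ (Fin 3) ≃ᵢ EuclideanSpace ℝ (Fin 3)) := Gam

/-- the action on the vertices -/
noncomputable def th' : Gam' →* Equiv.Perm (Fin 7) := tau.comp theta

/-- The negation of the preceding statement: For any Γ-symmetric framework in ℝ^d, every expansive motion tracing one half-branch of a neighbourhood of [p] homeomorphic to an interval in the configuration space mod isometries can be moved by continuous isometries so it stays Γ-symmetric. -/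
theorem result :
    ¬ (∀ (d : ℕ) (V : Type) [Fintype V] (G : SimpleGraph V) (p : V → EuclideanSpace ℝ (Fin d))
    (Γ : Subgroup (EuclideanSpace ℝ (Fin d) ≃ᵢ EuclideanSpace ℝ (Fin d))) [Finite Γ]
    (θ : Γ →* Equiv.Perm V),
    (∀ γ : Γ, ∀ u v : V, G.Adj u v ↔ G.Adj (θ γ u) (θ γ v)) →
    (∀ γ : Γ, ∀ i : V,
      (γ : EuclideanSpace ℝ (Fin d) ≃ᵢ EuclideanSpace ℝ (Fin d)) (p i) = p (θ γ i)) →
    ∀ m : ℝ → V → EuclideanSpace ℝ (Fin d),
      ContinuousOn m (Set.Icc 0 1) → m 0 = p →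
      (∀ t ∈ Set.Icc (0:ℝ) 1, ∀ i j : V, G.Adj i j → dist (m t i) (m t j) = dist (p i) (p j)) →
      (∀ i j : V, MonotoneOn (fun t => dist (m t i) (m t j)) (Set.Icc (0:ℝ) 1)) →
      (∃ t ∈ Set.Icc (0:ℝ) 1, ∃ i j : V, dist (m t i) (m t j) ≠ dist (p i) (p j)) →
      Set.InjOn (fun t => Quot.mk (fun q q' : V → EuclideanSpace ℝ (Fin d) =>
          ∃ T : EuclideanSpace ℝ (Fin d) ≃ᵢ EuclideanSpace ℝ (Fin d), ∀ i, T (q i) = q' i) (m t))
        (Set.Icc (0:ℝ) 1) →
      (∃ O : Set (Quot (fun q q' : V → EuclideanSpace ℝ (Fin d) =>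
          ∃ T : EuclideanSpace ℝ (Fin d) ≃ᵢ EuclideanSpace ℝ (Fin d), ∀ i, T (q i) = q' i)),
        IsOpen O ∧
        ∃ h : ↥(O ∩ {x : Quot (fun q q' : V → EuclideanSpace ℝ (Fin d) =>
              ∃ T : EuclideanSpace ℝ (Fin d) ≃ᵢ EuclideanSpace ℝ (Fin d), ∀ i, T (q i) = q' i) |
              ∃ q : V → EuclideanSpace ℝ (Fin d),
                Quot.mk (fun q q' : V → EuclideanSpace ℝ (Fin d) =>
                  ∃ T : EuclideanSpace ℝ (Fin d) ≃ᵢ EuclideanSpace ℝ (Fin d), ∀ i, T (q i) = q' i) q = x ∧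
                ∀ i j : V, G.Adj i j → dist (q i) (q j) = dist (p i) (p j)}) ≃ₜ ↥(Set.Ioo (0:ℝ) 1),
        ∃ a : Set.Ioo (0:ℝ) 1,
          (h.symm a).1 = Quot.mk (fun q q' : V → EuclideanSpace ℝ (Fin d) =>
            ∃ T : EuclideanSpace ℝ (Fin d) ≃ᵢ EuclideanSpace ℝ (Fin d), ∀ i, T (q i) = q' i) p ∧
          ((∀ t ∈ Set.Ioc (0:ℝ) 1, ∃ b : Set.Ioo (0:ℝ) 1,
              (h.symm b).1 = Quot.mk (fun q q' : V → EuclideanSpace ℝ (Fin d) =>
                ∃ T : EuclideanSpace ℝ (Fin d) ≃ᵢ EuclideanSpace ℝ (Fin d), ∀ i, T (q i) = q' i) (m t) ∧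
              (a : ℝ) < (b : ℝ)) ∨
           (∀ t ∈ Set.Ioc (0:ℝ) 1, ∃ b : Set.Ioo (0:ℝ) 1,
              (h.symm b).1 = Quot.mk (fun q q' : V → EuclideanSpace ℝ (Fin d) =>
                ∃ T : EuclideanSpace ℝ (Fin d) ≃ᵢ EuclideanSpace ℝ (Fin d), ∀ i, T (q i) = q' i) (m t) ∧
              (b : ℝ) < (a : ℝ)))) →
      ∃ T : ℝ → (EuclideanSpace ℝ (Fin d) ≃ᵢ EuclideanSpace ℝ (Fin d)),
        (∀ x, T 0 x = x) ∧
        (∀ x, ContinuousOn (fun t => T t x) (Set.Icc (0:ℝ) 1)) ∧
        ∀ t ∈ Set.Icc (0:ℝ) 1, ∀ γ : Γ, ∀ i : V,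
          (γ : EuclideanSpace ℝ (Fin d) ≃ᵢ EuclideanSpace ℝ (Fin d)) (T t (m t i))
            = T t (m t (θ γ i))) := by
  intro H
  have hfin : Finite Gam := by
    have : Finite ({1, reflI} : Set (Isom 3)) := Set.toFinite _
    exact this
  have hfin' : Finite Gam' := hfin
  let pr : ℝ → unitInterval := Set.projIcc 0 1 zero_le_one
  have hpr : Continuous pr := continuous_projIcc
  have hprm : Monotone pr := Set.monotone_projIcc _
  have hpr0 : pr 0 = 0 := Set.projIcc_left _
  have hprt : ∀ t : unitInterval, pr t = t := fun t => Set.projIcc_val _ t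
  have hmc : Continuous fun t : ℝ => (motion (pr t)).1 :=
    continuous_subtype_val.comp (motion_continuous.comp hpr)
  obtain ⟨T, hT0, hTc, hTs⟩ := H 3 (Fin 7) G7 p7 Gam' th'
    (fun γ u v => ((theta γ : G7 ≃g G7).map_rel_iff).symm)
    (fun γ i => p7_symm γ i)
    (fun t => (motion (pr t)).1) hmc.continuousOn
    (by change (motion (pr 0)).1 = p7; rw [hpr0, motion_zero]; rfl)
    (fun t _ i j hij => (motion (pr t)).2 i j hij)
    (fun i j => ((motion_expansive.1 i j).comp hprm).monotoneOn _)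
    (by
      obtain ⟨i, j, s, t, hst⟩ := motion_expansive.2
      by_cases hs : dist ((motion s).1 i) ((motion s).1 j) = dist (p7 i) (p7 j)
      · refine ⟨t, t.2, i, j, ?_⟩
        rw [hprt t]
        intro h
        exact hst (hs.trans h.symm)
      · refine ⟨s, s.2, i, j, ?_⟩
        rw [hprt s]
        exact hs)
    (by
      intro s hs t ht hst
      have h1 : rr (motion (pr s)).1 (motion (pr t)).1 := rr_exact hst
      have h2 : cls G7 p7 (motion (pr s)) = cls G7 p7 (motion (pr t)) := by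
        refine Quotient.sound ?_
        obtain ⟨T, hT⟩ := h1
        exact ⟨T, fun i => (hT i).symm⟩
      have h3 := motion_traces.1 h2
      have h4 : pr s = ⟨s, hs⟩ := Set.projIcc_of_mem _ hs
      have h5 : pr t = ⟨t, ht⟩ := Set.projIcc_of_mem _ ht
      rw [h4, h5] at h3
      exact congrArg Subtype.val h3)
    (by
      have hy : ∀ t ∈ Set.Ioc (0 : ℝ) 1, (t / 2 + 1) / 2 ∈ Set.Ioo (0 : ℝ) 1 := by
        rintro t ⟨h1, h2⟩
        constructor <;> linarith
      refine ⟨OO, OO_open, ((Homeomorph.setCongr range_cur.symm).trans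
        cur_isEmbedding.toHomeomorph.symm), ⟨1 / 2, by norm_num, by norm_num⟩, ?_, Or.inl ?_⟩
      · change cur ⟨1 / 2, _⟩ = Quot.mk rr p7
        unfold cur
        have : (2 * (1 / 2 : ℝ) - 1) / 10 = 0 := by norm_num
        simp only [this, std_zero]
      · intro t ht
        refine ⟨⟨(t / 2 + 1) / 2, hy t ht⟩, ?_, ?_⟩
        · change Quot.mk rr (std ((2 * ((t / 2 + 1) / 2) - 1) / 10)) =
            Quot.mk rr (motion (pr t)).1
          have h5 : pr t = ⟨t, ht.1.le, ht.2⟩ := Set.projIcc_of_mem _ ⟨ht.1.le, ht.2⟩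
          rw [h5]
          change Quot.mk rr (std ((2 * ((t / 2 + 1) / 2) - 1) / 10)) =
            Quot.mk rr (std (t / 2 / 10))
          congr 2
          ring
        · change (1 / 2 : ℝ) < (t / 2 + 1) / 2
          linarith [ht.1])
  apply motion_not_symm
  refine ⟨fun t => T t, ?_, ?_, ?_⟩
  · ext1 x
    exact hT0 x
  · intro x
    have := (hTc x).comp_continuous (f := fun t : unitInterval => (t : ℝ)) continuous_subtype_val
      (fun t => t.2)
    exact this
  · intro t γ i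
    have := hTs t t.2 γ i
    simp only [hprt t] at this
    exact this

end Pool.Agent.S12060
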