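import Pool.Statements.S12134
import Pool.Agent.Zhu.G11

set_option autoImplicit false
open Pool Pool.MP_e75014_co

namespace Pool.Agent.S12134

/-- The negation of the preceding statement: For every finite graph and every k, if Alice (moving first) wins the proper coloring game with k colors, then she also wins the greedy coloring game with k colors, where each vertex gets its least free color and must stay below k; equivalently, game Grundy number at most game chromatic number. -/
theorem result :
    ¬ (∀ (V : Type) [Fintype V] [DecidableEq V] (G : SimpleGraph V) (k : ℕ),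
    (∃ W : Bool → (V → Option ℕ) → Prop, W true (fun _ => none) ∧
      ∀ (t : Bool) (c : V → Option ℕ), W t c →
        (∀ v, c v ≠ none) ∨
        (t = true ∧ ∃ (v : V) (a : ℕ), c v = none ∧ a < k ∧
            (∀ w, G.Adj v w → c w ≠ some a) ∧
            W false (Function.update c v (some a))) ∨
        (t = false ∧
            (∃ (v : V) (a : ℕ), c v = none ∧ a < k ∧ (∀ w, G.Adj v w → c w ≠ some a)) ∧
            ∀ (v : V) (a : ℕ), c v = none → a < k → (∀ w, G.Adj v w → c w ≠ some a) →
              W true (Function.update c v (some a)))) →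
    (∃ W : Bool → (V → Option ℕ) → Prop, W true (fun _ => none) ∧
      ∀ (t : Bool) (c : V → Option ℕ), W t c →
        (∀ v, c v ≠ none) ∨
        (t = true ∧ ∃ (v : V) (a : ℕ), c v = none ∧ a < k ∧
            (∀ w, G.Adj v w → c w ≠ some a) ∧
            (∀ b, b < a → ∃ w, G.Adj v w ∧ c w = some b) ∧
            W false (Function.update c v (some a))) ∨
        (t = false ∧
            ∀ (v : V) (a : ℕ), c v = none → (∀ w, G.Adj v w → c w ≠ some a) →
              (∀ b, b < a → ∃ w, G.Adj v w ∧ c w = some b) →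
              a < k ∧ W true (Function.update c v (some a))))) := by
  intro hmain
  apply Pool.Agent.Zhu.not_gwin5
  obtain ⟨W, h0, hW⟩ := (Pool.Agent.Zhu.aliceWins_iff 5).1 Pool.Agent.Zhu.alice5
  refine hmain (Fin 11) Pool.Agent.Zhu.G11 5 ⟨fun t c => c ∈ W ∧
    (t = true ↔ Even (Finset.univ.filter (fun v => c v ≠ none)).card), ⟨h0, by simp⟩, ?_⟩
  rintro t c ⟨hc, ht⟩
  by_cases hfull : ∀ v, c v ≠ none
  · exact Or.inl hfull
  have hex : ∃ v a, Pool.Agent.Zhu.Legal Pool.Agent.Zhu.G11 5 c v a := by
    by_contra h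
    exact hfull ((hW c hc).1 h)
  cases t with
  | true =>
    have he := ht.1 rfl
    obtain ⟨v, a, hl, hu⟩ := (hW c hc).2.1 he hex
    refine Or.inr (Or.inl ⟨rfl, v, a, hl.1, hl.2.1, hl.2.2, hu, ?_⟩)
    rw [Pool.Agent.Zhu.colored_update hl, Nat.even_add_one]
    simp [he]
  | false =>
    have he : ¬ Even (Finset.univ.filter (fun v => c v ≠ none)).card := by
      intro h
      exact Bool.noConfusion (ht.2 h)
    obtain ⟨v, a, hl⟩ := hex
    refine Or.inr (Or.inr ⟨rfl, ⟨v, a, hl.1, hl.2.1, hl.2.2⟩, ?_⟩)
    intro v a h1 h2 h3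
    have hl : Pool.Agent.Zhu.Legal Pool.Agent.Zhu.G11 5 c v a := ⟨h1, h2, h3⟩
    refine ⟨(hW c hc).2.2 he v a hl, ?_⟩
    rw [Pool.Agent.Zhu.colored_update hl, Nat.even_add_one]
    simp [he]

end Pool.Agent.S12134
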