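import Pool.Statements.S12152
import Pool.Agent.W951.CK.Star

set_option autoImplicit false
open SimpleGraph
open Pool Pool.MP_e821ef_co

namespace Pool.Agent.S12152

/-- The negation of the preceding statement: A length space is quasi-isometric to some planar graph with edge weights in (0,1] (weighted path metric on vertices) if and only if, for K equal to K5 or K3,3, it fails to have K-fat minors of that graph for every K>0. -/
theorem result :
    ¬ (∀ (X : Type) [MetricSpace X],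
    (∀ x y : X, ∀ ε : ℝ, 0 < ε → ∃ γ : Path x y,
        eVariationOn (fun t : unitInterval => γ t) Set.univ ≤ ENNReal.ofReal (dist x y + ε)) →
    ((∃ (W : Type) (G : SimpleGraph W) (wt : Sym2 W → ℝ),
        G.Preconnected ∧
        (∀ e ∈ G.edgeSet, 0 < wt e ∧ wt e ≤ 1) ∧
        (∃ (φ : W → ℝ × ℝ) (α : W → W → unitInterval → ℝ × ℝ),
          Function.Injective φ ∧
          (∀ a b, G.Adj a b → Continuous (α a b) ∧ Function.Injective (α a b) ∧
              α a b 0 = φ a ∧ α a b 1 = φ b ∧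
              ∀ t : unitInterval, 0 < t → t < 1 → ∀ c, α a b t ≠ φ c) ∧
          (∀ a b a' b', G.Adj a b → G.Adj a' b' → s(a, b) ≠ s(a', b') →
              ∀ t t' : unitInterval, 0 < t → t < 1 → 0 < t' → t' < 1 →
                α a b t ≠ α a' b' t')) ∧
        ∃ (f : X → W) (M A : ℝ), 1 ≤ M ∧ 0 ≤ A ∧
          (∀ x y : X,
            M⁻¹ * dist x y - A ≤ (⨅ p : G.Walk (f x) (f y), (p.edges.map wt).sum) ∧
            (⨅ p : G.Walk (f x) (f y), (p.edges.map wt).sum) ≤ M * dist x y + A) ∧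
          ∀ b : W, ∃ x : X, (⨅ p : G.Walk (f x) b, (p.edges.map wt).sum) ≤ A)
     ↔
     ∀ (V : Type) [Fintype V] (Δ : SimpleGraph V),
       (Nonempty (SimpleGraph.Iso Δ (⊤ : SimpleGraph (Fin 5))) ∨
          Nonempty (SimpleGraph.Iso Δ (completeBipartiteGraph (Fin 3) (Fin 3)))) →
       ¬ ∀ K : ℝ, 0 < K → ∃ (B : V → Set X) (P : V → V → Set X),
           (∀ v, IsConnected (B v)) ∧
           (∀ v v', v ≠ v' → Disjoint (B v) (B v')) ∧
           (∀ u w, Δ.Adj u w → P u w = P w u ∧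
              ∃ g : unitInterval → X, Continuous g ∧ Function.Injective g ∧
                Set.range g = P u w ∧ g 0 ∈ B u ∧ g 1 ∈ B w ∧
                P u w ∩ (⋃ v, B v) = {g 0, g 1}) ∧
           (∀ u w u' w', Δ.Adj u w → Δ.Adj u' w' → s(u, w) ≠ s(u', w') →
              Disjoint (P u w) (P u' w') ∧ ∀ y ∈ P u w, ∀ z ∈ P u' w', K ≤ dist y z) ∧
           (∀ v v', v ≠ v' → ∀ y ∈ B v, ∀ z ∈ B v', K ≤ dist y z) ∧
           (∀ u w v, Δ.Adj u w → v ≠ u → v ≠ w →
              ∀ y ∈ P u w, ∀ z ∈ B v, K ≤ dist y z))) := by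
  intro H
  obtain ⟨h1, h2⟩ := H Pool.Agent.W951.CK.Star Pool.Agent.W951.CK.Star.length_space
  obtain ⟨W, G, wt, _, hwt, ⟨φ, α, hφ, _, _⟩, f, M, A, hM, hA, hqi, _⟩ := h2 (by
    intro V _ Δ hΔ hK
    obtain ⟨B, P, hB, hBd, hP, hPd, _, _⟩ := hK 1 one_pos
    rcases hΔ with ⟨⟨e⟩⟩ | ⟨⟨e⟩⟩
    · haveI : Nonempty V := ⟨e.symm 0⟩
      refine Pool.Agent.W951.CK.no_minor V Δ ?_ B P hB hBd hP
        (fun u w u' w' h h' hne => (hPd u w u' w' h h' hne).1)
      intro v a
      obtain ⟨u, w, g1, g2, g3, g4, g5⟩ := Pool.Agent.W951.CK.deg5 (e v) (e a)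
      refine ⟨e.symm u, e.symm w, fun h => g1 (e.symm.injective h), ?_, ?_, ?_, ?_⟩
      · rintro rfl; exact g2 (by simp)
      · rintro rfl; exact g3 (by simp)
      · rw [← e.map_adj_iff]; simpa using g4
      · rw [← e.map_adj_iff]; simpa using g5
    · haveI : Nonempty V := ⟨e.symm (Sum.inl 0)⟩
      refine Pool.Agent.W951.CK.no_minor V Δ ?_ B P hB hBd hP
        (fun u w u' w' h h' hne => (hPd u w u' w' h h' hne).1)
      intro v a
      obtain ⟨u, w, g1, g2, g3, g4, g5⟩ := Pool.Agent.W951.CK.deg33 (e v) (e a)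
      refine ⟨e.symm u, e.symm w, fun h => g1 (e.symm.injective h), ?_, ?_, ?_, ?_⟩
      · rintro rfl; exact g2 (by simp)
      · rintro rfl; exact g3 (by simp)
      · rw [← e.map_adj_iff]; simpa using g4
      · rw [← e.map_adj_iff]; simpa using g5)
  -- the points at distance D on the rays have different images
  have hM0 : 0 < M := by linarith
  have key : ∀ i j : Set (ℝ × ℝ), i ≠ j →
      f (Pool.Agent.W951.CK.Star.mk' i (M * A + 1)) ≠
        f (Pool.Agent.W951.CK.Star.mk' j (M * A + 1)) := by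
    intro i j hij h
    have h3 := (hqi (Pool.Agent.W951.CK.Star.mk' i (M * A + 1))
      (Pool.Agent.W951.CK.Star.mk' j (M * A + 1))).1
    have hpos : 0 ≤ M * A + 1 := by positivity
    rw [Pool.Agent.W951.CK.Star.dist_mk'_ne i j hij _ _ hpos hpos] at h3
    have hsum : ∀ (a b : W) (p : G.Walk a b), 0 ≤ (p.edges.map wt).sum := by
      intro a b p
      apply List.sum_nonneg
      intro x hx
      rw [List.mem_map] at hx
      obtain ⟨e, he, rfl⟩ := hx
      exact (hwt e (p.edges_subset_edgeSet he)).1.le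
    have h4 : (⨅ p : G.Walk (f (Pool.Agent.W951.CK.Star.mk' i (M * A + 1)))
        (f (Pool.Agent.W951.CK.Star.mk' j (M * A + 1))), (p.edges.map wt).sum) ≤ 0 := by
      rw [← h]
      refine (ciInf_le ⟨0, ?_⟩ SimpleGraph.Walk.nil).trans ?_
      · rintro x ⟨p, rfl⟩
        exact hsum _ _ p
      · simp
    have h5 : M⁻¹ * (M * A + 1 + (M * A + 1)) - A ≤ 0 := h3.trans h4
    have h6 : M⁻¹ * (M * A + 1 + (M * A + 1)) = 2 * A + 2 * M⁻¹ := by
      field_simp
      ring
    rw [h6] at h5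
    have h7 : 0 < M⁻¹ := inv_pos.2 hM0
    linarith
  have hinj : Function.Injective
      (fun i : Set (ℝ × ℝ) => φ (f (Pool.Agent.W951.CK.Star.mk' i (M * A + 1)))) := by
    intro i j h
    by_contra hne
    exact key i j hne (hφ h)
  exact Function.cantor_injective _ hinj

end Pool.Agent.S12152
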