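import Pool.Statements.S12199
import Pool.Agent.W132.Relax

set_option autoImplicit false
open Pool Pool.MP_ea35a0_co

namespace Pool.Agent.S12199

open Filter Topology

lemma asym (ε : ℝ) (hε : 0 < ε) : ∃ M : ℕ, 1 ≤ M ∧ ∀ m : ℕ, M ≤ m →
    1 ≤ (1 + ε) * (2 * (m : ℝ) ^ 2 / Real.pi ^ 2) * (1 - Real.cos (Real.pi / (m + 1))) := by
  have h1 : Tendsto (fun m : ℕ => (m : ℝ) / (m + 1)) atTop (𝓝 1) :=
    tendsto_natCast_div_add_atTop (1 : ℝ)
  have h2 : Tendsto (fun m : ℕ => Real.pi / ((m : ℝ) + 1)) atTop (𝓝 0) := by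
    apply Tendsto.const_div_atTop
    exact tendsto_atTop_add_const_right _ _ tendsto_natCast_atTop_atTop
  have h3 : Tendsto (fun m : ℕ => (1 + ε) * ((m : ℝ) / (m + 1)) ^ 2 *
      (1 - 5 / 48 * (Real.pi / ((m : ℝ) + 1)) ^ 2)) atTop
      (𝓝 ((1 + ε) * (1 : ℝ) ^ 2 * (1 - 5 / 48 * (0 : ℝ) ^ 2))) :=
    ((h1.pow 2).const_mul _).mul (((h2.pow 2).const_mul _).const_sub _)
  have h4 : (1 : ℝ) < (1 + ε) * (1 : ℝ) ^ 2 * (1 - 5 / 48 * (0 : ℝ) ^ 2) := by
    norm_num; exact hε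
  have h5 := h3.eventually (lt_mem_nhds h4)
  obtain ⟨M, hM⟩ := eventually_atTop.1 (h5.and (eventually_ge_atTop 3))
  refine ⟨max M 3, le_trans (by norm_num) (le_max_right _ _), fun m hm => ?_⟩
  obtain ⟨h6, h7⟩ := hM m (le_trans (le_max_left _ _) hm)
  set x : ℝ := Real.pi / ((m : ℝ) + 1) with hx
  have hm3 : (3 : ℝ) ≤ m := by exact_mod_cast h7
  have hm1 : (0 : ℝ) < (m : ℝ) + 1 := by linarith
  have hxpos : 0 < x := div_pos Real.pi_pos hm1
  have hx1 : |x| ≤ 1 := by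
    rw [abs_of_pos hxpos, hx, div_le_one hm1]
    have := Real.pi_le_four
    linarith
  have hc := Real.cos_bound hx1
  rw [abs_of_pos hxpos] at hc
  have hc1 := (abs_le.1 hc).2
  have hc2 : x ^ 2 / 2 * (1 - 5 / 48 * x ^ 2) ≤ 1 - Real.cos x := by
    have : x ^ 2 / 2 * (1 - 5 / 48 * x ^ 2) = x ^ 2 / 2 - x ^ 4 * (5 / 96) := by ring
    rw [this]; linarith
  have hK : 0 ≤ (1 + ε) * (2 * (m : ℝ) ^ 2 / Real.pi ^ 2) := by positivity
  have h8 := mul_le_mul_of_nonneg_left hc2 hK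
  refine le_trans h6.le (le_trans (le_of_eq ?_) h8)
  rw [hx]
  have hpi := Real.pi_ne_zero
  field_simp

/-- For every ε>0, every connected graph with enough edges m has simple-random-walk relaxation time (degree-weighted variance over edge Dirichlet form) at most (1+ε)·2m²/π², i.e. the path is asymptotically extremal. -/
theorem result :
    ∀ ε : ℝ, ε > 0 → ∃ M : ℕ, ∀ (n : ℕ) (G : SimpleGraph (Fin n)) [DecidableRel G.Adj],
      G.Connected → M ≤ G.edgeFinset.card →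
      ∀ f : Fin n → ℝ, ∃ c : ℝ,
        ∑ v, (G.degree v : ℝ) * (f v - c) ^ 2 ≤
          (1 + ε) * (2 * (G.edgeFinset.card : ℝ) ^ 2 / Real.pi ^ 2) *
            ((1 / 2 : ℝ) * ∑ u, ∑ v, (if G.Adj u v then (f u - f v) ^ 2 else 0)) := by
  intro ε hε
  obtain ⟨M, hM1, hM⟩ := asym ε hε
  refine ⟨M, fun n G _ hG hm f => ?_⟩
  obtain ⟨c, hc⟩ := Pool.Agent.W132.Relax.poincare G hG (hM1.trans hm) f
  refine ⟨c, ?_⟩
  have h1 := hM _ hm
  set m := G.edgeFinset.card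
  set A := ∑ v, (G.degree v : ℝ) * (f v - c) ^ 2
  set K := (1 + ε) * (2 * (m : ℝ) ^ 2 / Real.pi ^ 2)
  have hA : 0 ≤ A := Finset.sum_nonneg fun v _ => by positivity
  have hK : 0 ≤ K := by positivity
  calc A ≤ K * (1 - Real.cos (Real.pi / (m + 1))) * A := le_mul_of_one_le_left hA h1
    _ = K * ((1 - Real.cos (Real.pi / (m + 1))) * A) := by ring
    _ ≤ _ := mul_le_mul_of_nonneg_left hc hK

end Pool.Agent.S12199
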