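import Pool.Statements.S12244
import Pool.Agent.Results.MP_ebe746_co.Main

set_option autoImplicit false
open Pool Pool.MP_ebe746_co

namespace Pool.Agent.S12244

open Pool.Agent.Results.MP_ebe746_co.Main

/-- The induced graphs on corresponding sets are isomorphic. -/
def indIso {W W' : Type} (f : W' ≃ W) (T : SimpleGraph W) (A : Set W) :
    (T.comap f).induce (f ⁻¹' A) ≃g T.induce A where
  toEquiv := f.subtypeEquiv (by intro a; rfl)
  map_rel_iff' := by
    intro a b
    rfl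

/-- Transport of a representation along bijections. -/
theorem transport {V V' W W' : Type} [Finite W] {h s : ℕ∞} {p : ℕ} (e : V' ≃ V) (f : W' ≃ W)
    {G : SimpleGraph V} {T : SimpleGraph W} {S : V → Set W} (H : IsSubtreeRep h s p G T S) :
    (T.comap f).IsTree ∧
      (∀ w, (((T.comap f).neighborSet w).ncard : ℕ∞) ≤ h) ∧
      (∀ v, (f ⁻¹' (S (e v))).Nonempty ∧ ((T.comap f).induce (f ⁻¹' (S (e v)))).Connected) ∧
      (∀ v, ∀ w ∈ f ⁻¹' (S (e v)),
        (((T.comap f).neighborSet w ∩ f ⁻¹' (S (e v))).ncard : ℕ∞) ≤ s) ∧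
      (∀ u v, u ≠ v → ((G.comap e).Adj u v ↔
        p ≤ (f ⁻¹' (S (e u)) ∩ f ⁻¹' (S (e v))).ncard)) := by
  have hn : ∀ w, (T.comap f).neighborSet w = f ⁻¹' (T.neighborSet (f w)) := fun w => rfl
  have hc : ∀ A : Set W, (f ⁻¹' A).ncard = A.ncard := fun A =>
    Set.ncard_preimage_of_injective_subset_range f.injective (by simp)
  have hf : ∀ A : Set W, (A.ncard : ℕ∞) = A.encard := fun A => (Set.toFinite A).cast_ncard_eq
  refine ⟨(SimpleGraph.Iso.comap f T).isTree_iff.2 H.isTree, ?_, ?_, ?_, ?_⟩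
  · intro w
    rw [hn, hc, hf]
    exact H.host_degree _
  · intro v
    have hcon := H.subtree (e v)
    refine ⟨?_, (indIso f T (S (e v))).connected_iff.2 hcon⟩
    obtain ⟨w, hw⟩ := hcon.nonempty
    exact ⟨f.symm w, by simpa using hw⟩
  · intro v w hw
    rw [hn, ← Set.preimage_inter, hc, hf]
    exact H.subtree_degree _ _ hw
  · intro u v huv
    rw [← Set.preimage_inter, hc, SimpleGraph.comap_adj,
      H.adj_iff (e u) (e v) (fun h => huv (e.injective h)), ← hf]
    exact_mod_cast Iff.rfl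

/-- The negation of the preceding statement: For degree bounds h,s at least 2 (or infinite) and 2 ≤ p ≤ p', any finite graph representable by subtrees of a host tree of max degree ≤ h, subtrees of max degree ≤ s, adjacency iff ≥ p shared vertices, is also representable with p'. -/
theorem result :
    ¬ (∀ (h s : ℕ∞), 2 ≤ h → 2 ≤ s → ∀ (p p' : ℕ), 2 ≤ p → p ≤ p' →
    ∀ (n : ℕ) (G : SimpleGraph (Fin n)),
      (∃ (m : ℕ) (T : SimpleGraph (Fin m)) (S : Fin n → Set (Fin m)),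
        T.IsTree ∧
        (∀ w, ((T.neighborSet w).ncard : ℕ∞) ≤ h) ∧
        (∀ v, (S v).Nonempty ∧ (T.induce (S v)).Connected) ∧
        (∀ v, ∀ w ∈ S v, ((T.neighborSet w ∩ S v).ncard : ℕ∞) ≤ s) ∧
        (∀ u v, u ≠ v → (G.Adj u v ↔ p ≤ (S u ∩ S v).ncard))) →
      (∃ (m : ℕ) (T : SimpleGraph (Fin m)) (S : Fin n → Set (Fin m)),
        T.IsTree ∧
        (∀ w, ((T.neighborSet w).ncard : ℕ∞) ≤ h) ∧
        (∀ v, (S v).Nonempty ∧ (T.induce (S v)).Connected) ∧
        (∀ v, ∀ w ∈ S v, ((T.neighborSet w ∩ S v).ncard : ℕ∞) ≤ s) ∧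
        (∀ u v, u ≠ v → (G.Adj u v ↔ p' ≤ (S u ∩ S v).ncard)))) := by
  intro H
  obtain ⟨V, _, G, ⟨W, _, T, S, hrep⟩, hneg⟩ :=
    Pool.Agent.Results.MP_ebe746_co.Main.result 3 le_rfl
  let e : Fin (Fintype.card V) ≃ V := (Fintype.equivFin V).symm
  let f : Fin (Nat.card W) ≃ W := (Finite.equivFin W).symm
  have h1 := transport e f hrep
  obtain ⟨m, T', S', t1, t2, t3, t4, t5⟩ := H 3 2 (by norm_num) le_rfl 4 5 (by norm_num)
    (by norm_num) _ (G.comap e) ⟨_, T.comap f, fun v => f ⁻¹' (S (e v)), h1⟩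
  apply hneg
  have hf : ∀ A : Set (Fin m), (A.ncard : ℕ∞) = A.encard := fun A =>
    (Set.toFinite A).cast_ncard_eq
  refine ⟨Fin m, inferInstance, T', fun v => S' (e.symm v), ⟨t1, ?_, ?_, ?_, ?_⟩⟩
  · intro w
    rw [← hf]
    exact t2 w
  · intro v
    exact (t3 _).2
  · intro v w hw
    rw [← hf]
    exact t4 _ _ hw
  · intro u v huv
    have h2 := t5 (e.symm u) (e.symm v) (fun h => huv (e.symm.injective h))
    rw [SimpleGraph.comap_adj, Equiv.apply_symm_apply, Equiv.apply_symm_apply] at h2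
    rw [h2, ← hf]
    exact_mod_cast Iff.rfl

end Pool.Agent.S12244
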