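import Pool.Statements.S12257
import Pool.Agent.W163.P3.All
import Pool.Agent.W346.P3.Fin

set_option autoImplicit false
open Pool Pool.MP_ecb332_co

namespace Pool.Agent.S12257

/-- In every digraph on n vertices with no loops or 2-cycles, the number of induced directed paths a→b→c (no arc between a and c) is at most (n−1)n(n+1)/15. -/
theorem result :
    ∀ (n : ℕ) (G : Digraph (Fin n)),
      (∀ u v : Fin n, G.Adj u v → ¬ G.Adj v u) →
      15 * {p : Fin n × Fin n × Fin n |
              G.Adj p.1 p.2.1 ∧ G.Adj p.2.1 p.2.2 ∧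
              ¬ G.Adj p.1 p.2.2 ∧ ¬ G.Adj p.2.2 p.1}.ncard
        ≤ (n - 1) * n * (n + 1) := by
  exact Pool.Agent.W346.P3.t_FIN Pool.Agent.W163.P3.main_all

end Pool.Agent.S12257
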