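import Pool.Statements.S12282
import Pool.Agent.W166.Gnp.MainA

set_option autoImplicit false
open Filter Topology Classical
open Pool Pool.MP_ee3012_co

namespace Pool.Agent.S12282


open Pool.Agent.W166.Gnp in
/-- a graph that is not 2-colourable contains a cycle; the `m₂` condition for it. -/
theorem np_large {k : ℕ} (H : SimpleGraph (Fin k)) (hH : ¬ H.Colorable 2) (p : ℕ → ℝ)
    (hp : ∀ n, 0 < p n ∧ p n ≤ 1)
    (hm : ∀ F : H.Subgraph, 3 ≤ F.verts.ncard → 2 ≤ F.edgeSet.ncard →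
          Tendsto (fun n : ℕ => (n : ℝ) ^ (-(((F.verts.ncard : ℝ) - 2) /
            ((F.edgeSet.ncard : ℝ) - 1))) / p n) atTop (nhds 0)) (A : ℝ) :
    ∀ᶠ n : ℕ in atTop, A * Real.log n ≤ p n * n := by
  have hac : ¬ H.IsAcyclic := fun h => hH h.colorable_two
  rw [SimpleGraph.isAcyclic_iff_free_cycleGraph] at hac
  push Not at hac
  obtain ⟨l, hl3, hl⟩ := hac
  have hl' : (SimpleGraph.cycleGraph l).IsContained H := hl
  rw [SimpleGraph.isContained_iff_exists_iso_subgraph] at hl'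
  obtain ⟨F, ⟨f⟩⟩ := hl'
  have hv : F.verts.ncard = l := by
    rw [← Nat.card_coe_set_eq, ← Nat.card_congr f.toEquiv, Nat.card_eq_fintype_card,
      Fintype.card_fin]
  have he : F.edgeSet.ncard = l := by
    rw [← SimpleGraph.Subgraph.image_coe_edgeSet_coe,
      Set.ncard_image_of_injective _ (Sym2.map.injective Subtype.val_injective)]
    obtain ⟨l', rfl⟩ : ∃ l', l = l' + 3 := ⟨l - 3, by omega⟩
    rw [← Nat.card_coe_set_eq, ← Nat.card_congr f.mapEdgeSet, Nat.card_eq_fintype_card,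
      ← SimpleGraph.edgeFinset_card]
    exact card_edge_cycle l'
  have h1 := hm F (by omega) (by omega)
  rw [hv, he] at h1
  have h2 : ∀ᶠ n : ℕ in atTop, (n : ℝ) ^ (-(((l : ℝ) - 2) / ((l : ℝ) - 1))) / p n ≤ 1 :=
    (h1.eventually (gt_mem_nhds one_pos)).mono (fun n hn => le_of_lt hn)
  have hlr : (3 : ℝ) ≤ l := by exact_mod_cast hl3
  have hc : 0 < 1 / ((l : ℝ) - 1) := by
    apply one_div_pos.mpr; linarith
  have h3 : ∀ᶠ n : ℕ in atTop, A * Real.log n ≤ (n : ℝ) ^ (1 / ((l : ℝ) - 1)) := by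
    have h4 := (isLittleO_log_rpow_atTop hc).comp_tendsto tendsto_natCast_atTop_atTop
    have h5 := h4.def (c := 1 / (|A| + 1)) (by positivity)
    filter_upwards [h5, eventually_ge_atTop 1] with n hn hn1
    have hn1' : (1 : ℝ) ≤ n := by exact_mod_cast hn1
    simp only [Function.comp_apply, Real.norm_eq_abs] at hn
    have hlog : 0 ≤ Real.log (n : ℝ) := Real.log_nonneg hn1'
    have hpow : 0 ≤ (n : ℝ) ^ (1 / ((l : ℝ) - 1)) := by positivity
    rw [abs_of_nonneg hlog, abs_of_nonneg hpow, one_div_mul_eq_div, le_div_iff₀ (by positivity)] at hn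
    have : A * Real.log n ≤ |A| * Real.log n := mul_le_mul_of_nonneg_right (le_abs_self A) hlog
    nlinarith
  filter_upwards [h2, h3, eventually_ge_atTop 1] with n h2 h3 hn1
  have hn1' : (0 : ℝ) < n := by exact_mod_cast hn1
  rw [div_le_one (hp n).1] at h2
  refine h3.trans ?_
  have h6 : (n : ℝ) ^ (1 / ((l : ℝ) - 1)) = (n : ℝ) ^ (-(((l : ℝ) - 2) / ((l : ℝ) - 1))) * n := by
    nth_rewrite 3 [← Real.rpow_one (n : ℝ)]
    rw [← Real.rpow_add hn1']
    congr 1
    have : (l : ℝ) - 1 ≠ 0 := by linarith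
    field_simp
    ring
  rw [h6]
  exact mul_le_mul_of_nonneg_right h2 hn1'.le

/-- The negation of the preceding statement: There is a 4-chromatic graph H and edge probability p with n^(-1/m2(H)) ≪ p ≪ n^(-1/2) and some d < 2/3, C such that, a.a.s., every H-free spanning subgraph of G(n,p) with min degree ≥ dpn is C-colourable. -/
theorem result :
    ¬ (∃ k : ℕ, ∃ H : SimpleGraph (Fin k), H.chromaticNumber = 4 ∧
      ∃ p : ℕ → ℝ, (∀ n, 0 < p n ∧ p n ≤ 1) ∧
        (∀ F : H.Subgraph, 3 ≤ F.verts.ncard → 2 ≤ F.edgeSet.ncard →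
          Tendsto (fun n : ℕ => (n : ℝ) ^ (-(((F.verts.ncard : ℝ) - 2) /
            ((F.edgeSet.ncard : ℝ) - 1))) / p n) atTop (nhds 0)) ∧
        Tendsto (fun n : ℕ => p n * Real.sqrt n) atTop (nhds 0) ∧
        ∃ d : ℝ, d < 2 / 3 ∧ ∃ C : ℕ,
          Tendsto (fun n : ℕ => ∑ Γ : SimpleGraph (Fin n),
            if (∀ G : SimpleGraph (Fin n), G ≤ Γ → ¬ H.IsContained G →
                (∀ v, d * p n * n ≤ ((G.neighborSet v).ncard : ℝ)) → G.Colorable C)
            then p n ^ Γ.edgeSet.ncard * (1 - p n) ^ (n.choose 2 - Γ.edgeSet.ncard)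
            else 0) atTop (nhds 1)) := by
  rintro ⟨k, H, hχ, p, hp, hm, hsq, d, hd, C, hlim⟩
  have hH3 : ¬ H.Colorable 3 := by
    intro h
    have := h.chromaticNumber_le
    rw [hχ] at this
    exact absurd this (by decide)
  have hH2 : ¬ H.Colorable 2 := fun h => hH3 (h.mono (by norm_num))
  obtain ⟨p0, A, n0, hp0, hA, hmain⟩ := Pool.Agent.W166.Gnp.mainA (q := 3) le_rfl H hH3 C
    (2 / 3 - d) (by linarith) (1 / 4) (by norm_num)
  have hev := np_large H hH2 p hp hm A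
  have hp0' : ∀ᶠ n : ℕ in atTop, p n ≤ p0 := by
    filter_upwards [hsq.eventually (gt_mem_nhds hp0), eventually_ge_atTop 1] with n hn hn1
    have h1 : (1 : ℝ) ≤ Real.sqrt n := by
      rw [Real.one_le_sqrt]; exact_mod_cast hn1
    have := (hp n).1
    nlinarith
  have hhalf : ∀ᶠ n : ℕ in atTop, (∑ Γ : SimpleGraph (Fin n),
            if (∀ G : SimpleGraph (Fin n), G ≤ Γ → ¬ H.IsContained G →
                (∀ v, d * p n * n ≤ ((G.neighborSet v).ncard : ℝ)) → G.Colorable C)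
            then p n ^ Γ.edgeSet.ncard * (1 - p n) ^ (n.choose 2 - Γ.edgeSet.ncard)
            else 0) ≤ 1 / 4 := by
    filter_upwards [hev, hp0', eventually_ge_atTop n0] with n h1 h2 h3
    rw [Pool.Agent.W166.Gnp.sum_eq_Pr (p n) (fun Γ => ∀ G : SimpleGraph (Fin n), G ≤ Γ →
      ¬ H.IsContained G → (∀ v, d * p n * n ≤ ((G.neighborSet v).ncard : ℝ)) → G.Colorable C)]
    refine le_trans ?_ (hmain n h3 (p n) (hp n).1 h2 h1)
    apply Pool.Agent.W166.Gnp.Pr_mono (hp n).1.le (hp n).2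
    rintro S _ hA ⟨G, hG1, hG2, hG3, hG4⟩
    apply hG4
    refine hA G hG1 hG2 (fun v => le_trans (le_of_eq ?_) (hG3 v))
    push_cast
    ring
  have := le_of_tendsto hlim hhalf
  norm_num at this

end Pool.Agent.S12282
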