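import Pool.Statements.S12371
import Pool.Agent.H135R2.Pin.CompRR

set_option autoImplicit false
open Pool Pool.MP_f2128c_co

namespace Pool.Agent.S12371

open Set Filter Topology Pool.Agent.H135R2.Rigid Pool.Agent.H135R2.Planar

/-- Local rigidity of one generic framework on the vertex set `W` gives the closure. -/
theorem cl_of_near {V : Type*} [Fintype V] [DecidableEq V] {p₀ : Conf V} (hp : Gen p₀)
    (E : Set (Sym2 V)) (W : Set V)
    (h : ∃ ε > (0 : ℝ), ∀ q : V → Fin 2 → ℝ,
      (∀ v ∈ W, ∀ i : Fin 2, |q v i - p₀ v i| < ε) →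
      (∀ u v : V, s(u, v) ∈ E → sq q u v = sq p₀ u v) →
      ∀ u ∈ W, ∀ v ∈ W, sq q u v = sq p₀ u v) :
    ∀ a ∈ W, ∀ b ∈ W, Cl p₀ E s(a, b) := by
  classical
  obtain ⟨ε, hε, h⟩ := h
  intro a ha b hb
  by_contra hn
  obtain ⟨B, -, hBH, hBi, hBs⟩ := exists_basis p₀ (ind_empty _) (empty_subset E)
  have hn' : ¬ Cl p₀ B s(a, b) := fun h' => hn (cl_mono hBH h')
  have hLi : Ind p₀ (insert s(a, b) B) := ind_insert hBi hn'
  set L : Set (Sym2 V) := insert s(a, b) B with hL
  have : Fintype L := Fintype.ofFinite L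
  have hopen : IsOpen {q : Conf V | Ind (p₀ + q) B} :=
    (isOpen_ind B).preimage (continuous_const.add continuous_id)
  have hmem : p₀ ∈ {q : Conf V | Ind (p₀ + q) B} := by
    change Ind (p₀ + p₀) B
    rw [← two_smul ℝ]
    exact ind_smul two_ne_zero hBi
  have hU : {q : Conf V | Ind (p₀ + q) B} ∩ Metric.ball p₀ ε ∈ 𝓝 p₀ :=
    Filter.inter_mem (hopen.mem_nhds hmem) (Metric.ball_mem_nhds _ hε)
  have hN : lens L '' ({q : Conf V | Ind (p₀ + q) B} ∩ Metric.ball p₀ ε) ∈ 𝓝 (lens L p₀) := by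
    rw [← map_lens hLi]
    exact Filter.image_mem_map hU
  let ab : L := ⟨s(a, b), Or.inl rfl⟩
  let path : ℝ → (L → ℝ) := fun t => lens L p₀ + t • Pi.single ab 1
  have hpath : Continuous path := by fun_prop
  have hp0 : path 0 = lens L p₀ := by simp [path]
  have hev : ∀ᶠ t in 𝓝 (0 : ℝ),
      path t ∈ lens L '' ({q : Conf V | Ind (p₀ + q) B} ∩ Metric.ball p₀ ε) := by
    have := hpath.continuousAt (x := 0)
    apply this.eventually
    rw [hp0]
    exact hN
  obtain ⟨δ, hδ, hball⟩ := Metric.eventually_nhds_iff.1 hev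
  obtain ⟨q, ⟨hq1, hq2⟩, hq3⟩ := hball (y := δ / 2) (by
    rw [Real.dist_eq, sub_zero, abs_of_pos (by positivity)]; linarith)
  have hBq : ∀ x y, s(x, y) ∈ B → sq q x y = sq p₀ x y := by
    intro x y hxy
    have hxyL : s(x, y) ∈ L := Or.inr hxy
    have h3 := congrFun hq3 ⟨s(x, y), hxyL⟩
    have h4 : path (δ / 2) ⟨s(x, y), hxyL⟩ = lens L p₀ ⟨s(x, y), hxyL⟩ := by
      simp only [path, Pi.add_apply, Pi.smul_apply, smul_eq_mul]
      rw [Pi.single_eq_of_ne]
      · simp
      · intro h5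
        have h6 : s(x, y) = s(a, b) := congrArg Subtype.val h5
        rw [h6] at hxy
        exact hn' (cl_self hxy)
    rw [h4] at h3
    unfold lens at h3
    have h5 : s((s(x, y) : Sym2 V).out.1, (s(x, y) : Sym2 V).out.2) = s(x, y) := Quot.out_eq _
    rw [Sym2.eq_iff] at h5
    rcases h5 with ⟨e1, e2⟩ | ⟨e1, e2⟩
    · simp only [e1, e2] at h3; exact h3
    · simp only [e1, e2] at h3
      rw [sq_symm q, sq_symm p₀]; exact h3
  have hEq : ∀ u v, s(u, v) ∈ E → sq q u v = sq p₀ u v := by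
    intro u v huv
    have h2 : Cl (p₀ + q) B s(u, v) := hp.cl_transfer (hBs _ huv) hq1
    exact avg h2 hBq
  have hnear : ∀ v ∈ W, ∀ i : Fin 2, |q v i - p₀ v i| < ε := by
    intro v _ i
    rw [Metric.mem_ball, dist_pi_lt_iff hε] at hq2
    have h1 := hq2 v
    rw [dist_pi_lt_iff hε] at h1
    have h2 := h1 i
    rwa [Real.dist_eq] at h2
  have hfin := h q hnear hEq a ha b hb
  have h3 := congrFun hq3 ab
  have h4 : path (δ / 2) ab = lens L p₀ ab + δ / 2 := by
    simp [path]
  rw [h4] at h3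
  unfold lens at h3
  have h5 : s((s(a, b) : Sym2 V).out.1, (s(a, b) : Sym2 V).out.2) = s(a, b) := Quot.out_eq _
  rw [Sym2.eq_iff] at h5
  have h6 : sq q a b = sq p₀ a b + δ / 2 := by
    rcases h5 with ⟨e1, e2⟩ | ⟨e1, e2⟩
    · simp only [ab, e1, e2] at h3; exact h3
    · simp only [ab, e1, e2] at h3
      rw [sq_symm _ a b, sq_symm p₀ a b]; exact h3
  linarith

/-- The closure gives local rigidity. -/
theorem near_of_cl {V : Type*} [Fintype V] [DecidableEq V] {p₀ : Conf V} (hp : Gen p₀)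
    {G : SimpleGraph V} (H : G.Subgraph)
    (h : ∀ a ∈ H.verts, ∀ b ∈ H.verts, Cl p₀ H.edgeSet s(a, b)) {p : Conf V} (hg : Gen p) :
    ∃ ε > (0 : ℝ), ∀ q : V → Fin 2 → ℝ,
      (∀ v ∈ H.verts, ∀ i : Fin 2, |q v i - p v i| < ε) →
      (∀ u v : V, H.Adj u v → sq q u v = sq p u v) →
      ∀ u ∈ H.verts, ∀ v ∈ H.verts, sq q u v = sq p u v := by
  classical
  have hr : IsRigid H.coe := subgraph_rigid hp H H.coe (fun a b => by
    rw [SimpleGraph.Subgraph.image_coe_edgeSet_coe]
    exact h a.1 a.2 b.1 b.2)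
  obtain ⟨ε, hε, hr⟩ := hr (ofConf fun v : H.verts => p v)
    (gen_sub (f := fun v : H.verts => (v : V)) Subtype.val_injective hg)
  refine ⟨ε / 2, by positivity, fun q hq1 hq2 u hu v hv => ?_⟩
  have h1 := hr (ofConf fun v : H.verts => q v) (fun a b hab => by
    rw [dist_eq_iff]
    exact hq2 a b hab) (fun w => by
    rw [EuclideanSpace.dist_eq]
    have h2 : ∀ i : Fin 2, dist ((ofConf (fun v : H.verts => p v) w) i)
        ((ofConf (fun v : H.verts => q v) w) i) = |q w i - p w i| := by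
      intro i
      rw [dist_comm, Real.dist_eq]
      rfl
    rw [Fin.sum_univ_two, h2, h2, Real.sqrt_lt' hε]
    have h3 := hq1 w w.2 0
    have h4 := hq1 w w.2 1
    have h5 := abs_nonneg (q w 0 - p w 0)
    have h6 := abs_nonneg (q w 1 - p w 1)
    nlinarith) ⟨u, hu⟩ ⟨v, hv⟩
  rw [dist_eq_iff] at h1
  exact h1

theorem edgeSet_del {V : Type*} {G : SimpleGraph V} (H : G.Subgraph) (s : Set (Sym2 V)) :
    (H.deleteEdges s).edgeSet = H.edgeSet \ s := by
  ext e
  induction e using Sym2.ind with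
  | _ a b => simp [SimpleGraph.Subgraph.deleteEdges_adj]

/-- In generic planar frameworks, if R is a maximal redundantly rigid subgraph of a finite graph G containing x and y, and the pair x,y is globally linked in G, then x,y is globally linked in R. -/
theorem result :
    ∀ (V : Type) [Fintype V] (G : SimpleGraph V)
      (D : (Fin 2 → ℝ) → (Fin 2 → ℝ) → ℝ)
      (Rigid : G.Subgraph → Prop) (RedRigid : G.Subgraph → Prop)
      (GLinked : G.Subgraph → V → V → Prop),
      (∀ a b : Fin 2 → ℝ, D a b = (a 0 - b 0) ^ 2 + (a 1 - b 1) ^ 2) →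
      (∀ H : G.Subgraph, Rigid H ↔
        ∀ p : V → Fin 2 → ℝ,
          AlgebraicIndependent ℚ (fun i : V × Fin 2 => p i.1 i.2) →
          ∃ ε > (0 : ℝ), ∀ q : V → Fin 2 → ℝ,
            (∀ v ∈ H.verts, ∀ i : Fin 2, |q v i - p v i| < ε) →
            (∀ u v : V, H.Adj u v → D (q u) (q v) = D (p u) (p v)) →
            ∀ u ∈ H.verts, ∀ v ∈ H.verts, D (q u) (q v) = D (p u) (p v)) →
      (∀ H : G.Subgraph, RedRigid H ↔
        (Rigid H ∧ ∀ u v : V, H.Adj u v → Rigid (H.deleteEdges {s(u, v)}))) →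
      (∀ (H : G.Subgraph) (x y : V), GLinked H x y ↔
        ∀ p : V → Fin 2 → ℝ,
          AlgebraicIndependent ℚ (fun i : V × Fin 2 => p i.1 i.2) →
          ∀ q : V → Fin 2 → ℝ,
            (∀ u v : V, H.Adj u v → D (q u) (q v) = D (p u) (p v)) →
            D (q x) (q y) = D (p x) (p y)) →
      ∀ R : G.Subgraph, RedRigid R →
        (∀ R' : G.Subgraph, R ≤ R' → RedRigid R' → R' = R) →
        ∀ x y : V, x ∈ R.verts → y ∈ R.verts →
          GLinked ⊤ x y → GLinked R x y := by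
  intro V _ G D Rigid RedRigid GLinked hD hRigid hRed hGL R hR hmax x y hx hy hG
  classical
  obtain ⟨p₀, hp₀⟩ := exists_generic V
  have hDsq : ∀ (q : V → Fin 2 → ℝ) (u v : V), D (q u) (q v) = sq q u v := fun q u v => hD _ _
  have hrig : ∀ H : G.Subgraph, Rigid H ↔
      ∀ a ∈ H.verts, ∀ b ∈ H.verts, Cl p₀ H.edgeSet s(a, b) := by
    intro H
    rw [hRigid]
    constructor
    · intro h
      refine cl_of_near hp₀ H.edgeSet H.verts ?_
      obtain ⟨ε, hε, h1⟩ := h p₀ hp₀
      refine ⟨ε, hε, fun q hq1 hq2 u hu v hv => ?_⟩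
      have := h1 q hq1 (fun u v huv => by
        rw [hDsq, hDsq]
        exact hq2 u v huv) u hu v hv
      rw [hDsq, hDsq] at this
      exact this
    · intro h p hp
      obtain ⟨ε, hε, h1⟩ := near_of_cl hp₀ H h hp
      refine ⟨ε, hε, fun q hq1 hq2 u hu v hv => ?_⟩
      rw [hDsq, hDsq]
      refine h1 q hq1 (fun u v huv => ?_) u hu v hv
      have := hq2 u v huv
      rwa [hDsq, hDsq] at this
  have hred : ∀ H : G.Subgraph, RedRigid H ↔
      Pool.Agent.H135R2.Pin.IsRedundantlyRigid H.coe := by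
    intro H
    rw [hRed, Pool.Agent.H135R2.Pin.isRedundantlyRigid_iff hp₀ H]
    constructor
    · rintro ⟨h1, h2⟩ f a ha b hb
      by_cases hf : f ∈ H.edgeSet
      · induction f using Sym2.ind with
        | _ u v =>
          have h3 := (hrig _).1 (h2 u v hf) a ha b hb
          rw [edgeSet_del] at h3
          exact h3
      · rw [sdiff_singleton_eq_self hf]
        exact (hrig _).1 h1 a ha b hb
    · intro h
      refine ⟨(hrig _).2 fun a ha b hb => cl_mono sdiff_subset (h s(a, a) a ha b hb),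
        fun u v _ => (hrig _).2 fun a ha b hb => ?_⟩
      rw [edgeSet_del]
      exact h _ a ha b hb
  have hcomp : Pool.Agent.H135R2.Pin.IsRedundantlyRigidComponent G R :=
    ⟨(hred R).1 hR, fun R' hle hR' => hmax R' hle ((hred R').2 hR')⟩
  have hGl : GloballyLinked G x y := by
    intro p hp q hq
    have h1 := (hGL ⊤ x y).1 hG (toConf p) hp (toConf q) (fun u v huv => by
      rw [hDsq, hDsq]
      exact (dist_eq_iff p q u v).1 (hq u v huv))
    rw [hDsq, hDsq] at h1
    exact (dist_eq_iff p q x y).2 h1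
  have hmain := Pool.Agent.H135R2.Pin.main_rr G R hcomp hx hy hGl
  rw [hGL]
  intro p hp q hq
  have h1 := hmain (ofConf fun v : R.verts => p v)
    (gen_sub (f := fun v : R.verts => (v : V)) Subtype.val_injective hp)
    (ofConf fun v : R.verts => q v) (fun u v huv => by
      rw [dist_eq_iff]
      have := hq u v huv
      rw [hDsq, hDsq] at this
      exact this)
  rw [dist_eq_iff] at h1
  rw [hDsq, hDsq]
  exact h1

end Pool.Agent.S12371
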