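import Pool.Statements.S12383
import Pool.Agent.Results.MP_f2f693_co.BentIterSharp

set_option autoImplicit false
open Pool Pool.MP_f2f693_co

namespace Pool.Agent.S12383

open Pool.Agent.Results.MP_f2f693_co.BentIterSharp

/-- Quadruples of bent functions whose Walsh transforms multiply to `-(2^(m/2))^4`. -/
def quad (m : ℕ) : Set (Fin 4 → BoolFun m) :=
  {t | (∀ i, t i ∈ bentSet m) ∧ ∀ y, ∏ i, walsh (t i) y = -(2 ^ (m / 2)) ^ 4}

lemma quad_iff {m : ℕ} (t : Fin 4 → BoolFun m) (ht : ∀ i, t i ∈ bentSet m) (y : Fin m → ZMod 2) :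
    ∏ i, walsh (t i) y = -(2 ^ (m / 2)) ^ 4 ↔
      dual (t 0) y + dual (t 1) y + dual (t 2) y + dual (t 3) y = 1 := by
  have hpos : (0 : ℤ) < 2 ^ (m / 2) := by positivity
  have e : ∏ i, walsh (t i) y = (2 ^ (m / 2)) ^ 4 *
      sg (dual (t 0) y + dual (t 1) y + dual (t 2) y + dual (t 3) y) := by
    rw [Fin.prod_univ_four, walsh_eq_dual (ht 0), walsh_eq_dual (ht 1), walsh_eq_dual (ht 2),
      walsh_eq_dual (ht 3), sg_add, sg_add, sg_add]
    unfold sg
    ring
  rw [e]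
  constructor
  · intro h
    have h1 : (2 ^ (m / 2) : ℤ) ^ 4 *
        sg (dual (t 0) y + dual (t 1) y + dual (t 2) y + dual (t 3) y)
        = (2 ^ (m / 2) : ℤ) ^ 4 * sg 1 := by
      rw [h, sg_one]; ring
    exact sg_inj (mul_left_cancel₀ (by positivity) h1)
  · intro h
    rw [h, sg_one]; ring

lemma card_quad_ge (m : ℕ) : (bentSet m).ncard ^ 2 ≤ (quad m).ncard := by
  rw [sq, ← Set.ncard_prod]
  apply Set.ncard_le_ncard_of_injOn
    (fun p : BoolFun m × BoolFun m => (![p.1, p.1, p.2, p.2 + 1] : Fin 4 → BoolFun m))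
  · rintro ⟨f, h⟩ ⟨hf, hh⟩
    have hb : ∀ i, (![f, f, h, h + 1] : Fin 4 → BoolFun m) i ∈ bentSet m := by
      intro i
      fin_cases i
      · exact hf
      · exact hf
      · exact hh
      · exact isBent_add_one hh
    refine ⟨hb, fun y => ?_⟩
    rw [quad_iff _ hb]
    show dual f y + dual f y + dual h y + dual (h + 1) y = 1
    rw [dual_add_one hh]
    rcases zmod2_cases (dual f y) with h1 | h1 <;> rcases zmod2_cases (dual h y) with h2 | h2 <;>
      rw [h1, h2] <;> decide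
  · rintro ⟨f, h⟩ _ ⟨f', h'⟩ _ heq
    have h1 : f = f' := congrFun heq 0
    have h2 : h = h' := congrFun heq 2
    rw [h1, h2]

lemma card_quad_le (m : ℕ) : (quad m).ncard ≤ (bentSet m).ncard ^ 3 := by
  have h3 : (bentSet m).ncard ^ 3 = (bentSet m ×ˢ (bentSet m ×ˢ bentSet m)).ncard := by
    rw [Set.ncard_prod, Set.ncard_prod]; ring
  rw [h3]
  apply Set.ncard_le_ncard_of_injOn
    (fun t : Fin 4 → BoolFun m => (t 0, t 1, t 2))
  · rintro t ⟨ht, _⟩
    exact ⟨ht 0, ht 1, ht 2⟩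
  · rintro t ⟨ht, hs⟩ t' ⟨ht', hs'⟩ heq
    simp only [Prod.mk.injEq] at heq
    obtain ⟨e0, e1, e2⟩ := heq
    have e3 : t 3 = t' 3 := by
      apply dual_injOn (ht 3) (ht' 3)
      funext y
      have a := (quad_iff t ht y).1 (hs y)
      have b := (quad_iff t' ht' y).1 (hs' y)
      rw [← e0, ← e1, ← e2] at b
      exact add_left_cancel (a.trans b.symm)
    funext i
    fin_cases i
    · exact e0
    · exact e1
    · exact e2
    · exact e3

/-- For m=2k: eventually ∣B_m∣^4/∣X_m∣>1, and loglog(∣B_m∣^4/∣X_m∣)/loglog(#bent-iterative functions on m+2 variables) tends to 1 as k grows, logs base 2, counted via 4-tuples of bent functions with duals summing to 1. -/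
theorem result :
  ∀ (W : (m : ℕ) → ((Fin m → ZMod 2) → ZMod 2) → (Fin m → ZMod 2) → ℤ),
    (∀ m f y, W m f y = ∑ x : Fin m → ZMod 2, (-1 : ℤ) ^ (f x + ∑ i, x i * y i).val) →
  ∀ (B : (m : ℕ) → Set ((Fin m → ZMod 2) → ZMod 2)),
    (∀ m, B m = {f | ∀ y, |W m f y| = 2 ^ (m / 2)}) →
  ∀ (L : ℕ → ℝ),
    (∀ m, L m = ((B m).ncard : ℝ) ^ 4 /
      (({g | ∃ f ∈ B m, ∃ h ∈ B m, g = f + h} : Set ((Fin m → ZMod 2) → ZMod 2)).ncard : ℝ)) →
  ∀ (BI : ℕ → ℝ),
    (∀ m, BI m = (({t : Fin 4 → ((Fin m → ZMod 2) → ZMod 2) |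
        (∀ i, t i ∈ B m) ∧ ∀ y, ∏ i, W m (t i) y = -(2 ^ (m / 2)) ^ 4}).ncard : ℝ)) →
  (∃ K : ℕ, ∀ k ≥ K, 1 < L (2 * k)) ∧
  Filter.Tendsto
    (fun k : ℕ => Real.logb 2 (Real.logb 2 (L (2 * k))) / Real.logb 2 (Real.logb 2 (BI (2 * k))))
    Filter.atTop (nhds 1) := by
  intro W hW B hB L hL BI hBI
  have hW' : ∀ m f y, W m f y = walsh f y := fun m f y => hW m f y
  have hB' : ∀ m, B m = bentSet m := by
    intro m
    rw [hB m]
    ext f
    simp only [Set.mem_setOf_eq, hW']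
    rfl
  have hL' : L = lowerBound := by
    funext m
    rw [hL m, hB' m]
    rfl
  have hBI' : ∀ m, BI m = ((quad m).ncard : ℝ) := by
    intro m
    rw [hBI m, hB' m]
    simp only [hW']
    rfl
  have hN : Filter.Tendsto (fun k : ℕ => ((bentSet (2 * k)).ncard : ℝ)) Filter.atTop
      Filter.atTop := by
    apply tendsto_natCast_atTop_atTop.comp
    apply Filter.tendsto_atTop_mono (f := fun k : ℕ => k)
    · intro k
      calc k ≤ 2 * k := by omega
        _ ≤ 2 ^ (2 * k) := Nat.lt_two_pow_self.le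
        _ ≤ _ := card_bentSet_ge k
    · exact Filter.tendsto_id
  constructor
  · obtain ⟨K, hK⟩ := Filter.eventually_atTop.1 (hN.eventually_ge_atTop 2)
    refine ⟨K, fun k hk => ?_⟩
    have h2 := hK k hk
    have := lowerBound_ge k
    rw [hL']
    nlinarith
  · rw [hL']
    simp only [hBI']
    apply ratio_tendsto hN
    · exact lowerBound_ge
    · exact lowerBound_le
    · intro k
      exact_mod_cast card_quad_ge (2 * k)
    · intro k
      have h1 : ((quad (2 * k)).ncard : ℝ) ≤ ((bentSet (2 * k)).ncard : ℝ) ^ 3 := by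
        exact_mod_cast card_quad_le (2 * k)
      have h2 : (1 : ℝ) ≤ ((bentSet (2 * k)).ncard : ℝ) := by
        have : 1 ≤ (bentSet (2 * k)).ncard := le_trans Nat.one_le_two_pow (card_bentSet_ge k)
        exact_mod_cast this
      calc ((quad (2 * k)).ncard : ℝ) ≤ ((bentSet (2 * k)).ncard : ℝ) ^ 3 := h1
        _ ≤ ((bentSet (2 * k)).ncard : ℝ) ^ 4 := pow_le_pow_right₀ h2 (by norm_num)

end Pool.Agent.S12383
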