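-- Proof of frozen statement S12419 from the starting result MP_f55c5e_co / AlphaPlusN.
import Pool.Statements.S12419
import Pool.Agent.Results.MP_f55c5e_co.AlphaPlusN

set_option autoImplicit false
open Pool Pool.MP_f55c5e_co

namespace Pool.Agent.S12419

/-- For every complex algebraic integer α there is an integer n and a finite simple graph G such that α + n is a root of the chromatic polynomial of G (the integer polynomial whose value at each natural q counts proper q-colourings of G). -/
theorem result :
    ∀ α : ℂ, IsIntegral ℤ α →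
      ∃ n : ℤ, ∃ m : ℕ, ∃ G : SimpleGraph (Fin m), ∃ p : Polynomial ℤ,
        (∀ q : ℕ, p.eval (q : ℤ) = (Nat.card (G.Coloring (Fin q)) : ℤ)) ∧
        Polynomial.aeval (α + (n : ℂ)) p = 0 := by
  intro α hα
  obtain ⟨N, hN⟩ := Pool.Agent.Results.MP_f55c5e_co.AlphaPlusN.result α hα
  obtain ⟨m, G, p, hp, hz⟩ := hN N le_rfl
  refine ⟨(N : ℤ), m, G, p, hp, ?_⟩
  rw [Int.cast_natCast]
  exact hz

end Pool.Agent.S12419
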