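import Pool.Statements.S12433
import Pool.Agent.W236.TZ.Asm
import Pool.Agent.W236.TZ.Key
import Pool.Agent.W236.TZ.Cnt
import Pool.Agent.W293.TZ.Tog
import Pool.Agent.W310.TZ.G
import Pool.Agent.W933.TZLag
import Pool.Agent.W948.TZ.Words

set_option autoImplicit false
open scoped Classical
open Pool Pool.MP_f5b555_co

namespace Pool.Agent.S12433

/-- For n ≥ 1, 2k < n and λ=(n,n−2,…,n−2k), the strict partitions inside λ have average down-degree equal to that of a random element of a random maximal chain (CDE), and this average is ∣λ∣/(n+1). -/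
theorem result :
  ∀ (n k : ℕ), 1 ≤ n → 2 * k < n →
  ∀ (V : (Fin (k+1) → ℕ) → Prop),
    (∀ μ, V μ ↔ ((∀ i : Fin (k+1), μ i ≤ n - 2 * (i : ℕ)) ∧
        ∀ i j : Fin (k+1), i < j → μ j = 0 ∨ μ j < μ i)) →
  ∀ (D : (Fin (k+1) → ℕ) → ℕ),
    (∀ μ, D μ = (Finset.univ.filter
        (fun i : Fin (k+1) => 0 < μ i ∧ V (Function.update μ i (μ i - 1)))).card) →
  ∀ (N : ℕ), N = ∑ i : Fin (k+1), (n - 2 * (i : ℕ)) →
  ∀ (S : (Fin N → Fin (k+1)) → ℕ → Fin (k+1) → ℕ),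
    (∀ w j i, S w j i = (Finset.univ.filter
        (fun t : Fin N => (t : ℕ) < j ∧ w t = i)).card) →
  ((∑ μ ∈ Finset.univ.filter (fun μ : Fin (k+1) → Fin (n+1) => V (fun i => (μ i : ℕ))),
        (D (fun i => (μ i : ℕ)) : ℚ)) /
      ((Finset.univ.filter (fun μ : Fin (k+1) → Fin (n+1) => V (fun i => (μ i : ℕ)))).card : ℚ)
    =
    (∑ w ∈ Finset.univ.filter (fun w : Fin N → Fin (k+1) =>
          (∀ j : ℕ, j ≤ N → V (S w j)) ∧ ∀ i : Fin (k+1), S w N i = n - 2 * (i : ℕ)),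
        ∑ j ∈ Finset.range (N+1), (D (S w j) : ℚ)) /
      (((Finset.univ.filter (fun w : Fin N → Fin (k+1) =>
          (∀ j : ℕ, j ≤ N → V (S w j)) ∧ ∀ i : Fin (k+1), S w N i = n - 2 * (i : ℕ))).card : ℚ)
        * ((N : ℚ) + 1))
  ∧
  (∑ μ ∈ Finset.univ.filter (fun μ : Fin (k+1) → Fin (n+1) => V (fun i => (μ i : ℕ))),
        (D (fun i => (μ i : ℕ)) : ℚ)) /
      ((Finset.univ.filter (fun μ : Fin (k+1) → Fin (n+1) => V (fun i => (μ i : ℕ)))).card : ℚ)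
    = (N : ℚ) / ((n : ℚ) + 1)) := by
  exact Pool.Agent.W236.TZ.final Pool.Agent.W236.TZ.k_ Pool.Agent.W293.TZ.uni
    Pool.Agent.W293.TZ.tog Pool.Agent.W948.TZ.words
    (Pool.Agent.W310.TZ.g_ Pool.Agent.W933.TZLag.lag)
    (Pool.Agent.W310.TZ.gg Pool.Agent.W933.TZLag.lag) Pool.Agent.W236.TZ.cnt

end Pool.Agent.S12433
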