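import Pool.Statements.S12529
import Pool.Agent.W493.MX.Main
import Pool.Agent.W493.MX.A

set_option autoImplicit false
open Pool Pool.MP_fa5db2_co

namespace Pool.Agent.S12529

/-- For every prime power q and finite set T of positive integers that is not an arithmetic progression, there is c such that for all n>c some nonzero q-linearized polynomial with exponents q^t, t in T, has more than q^(∣T∣-1) roots in F_{q^n}, so the code is not MRD. -/
theorem result :
  ∀ (p : ℕ) [Fact p.Prime] (e : ℕ), 0 < e →
  ∀ t : Finset ℕ, (∀ x ∈ t, 0 < x) →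
    (¬ ∃ a d : ℕ, t = (Finset.range t.card).image (fun i => a + i * d)) →
    ∃ c : ℕ, ∀ n : ℕ, c < n →
      ∃ a : ℕ → GaloisField p (e * n), (∃ i ∈ t, a i ≠ 0) ∧
        (p ^ e) ^ (t.card - 1) <
          Nat.card {x : GaloisField p (e * n) // ∑ i ∈ t, a i * x ^ ((p ^ e) ^ i) = 0} :=
  Pool.Agent.W493.MX.main Pool.Agent.W493.MX.s_A

end Pool.Agent.S12529
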