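import Pool.Statements.S12624
import Pool.Agent.W958.ST.Fin
import Pool.Agent.W958.ST.Euler
import Pool.Agent.W958.ST.Koszul
import Pool.Agent.W958.ST.Frame
import Pool.Agent.W22.STBridge
import Pool.Agent.W213.STTS
import Pool.Agent.W460.STNonFree
import Pool.Agent.W177.ST.RegB
import Pool.Agent.W177.ST.Sdim
import Pool.Agent.W253.STP.Main
import Pool.Agent.W460.STTdim

set_option autoImplicit false
open Pool Pool.MP_fe1391_co

namespace Pool.Agent.S12624

/-- The negation of the preceding statement: For every field K and every central hyperplane arrangement in K^l, the module of logarithmic derivations is free iff Psi(A;x,-1) = sum over p of Hilb(D^p(A);x)(-x)^p is a nonzero palindromic integer polynomial. -/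
theorem result :
    ¬ (∀ (K : Type) [Field K] (ℓ : ℕ) (A : Finset (Submodule K (Fin ℓ → K))),
      (∀ H ∈ A, ∃ a : Module.Dual K (Fin ℓ → K), a ≠ 0 ∧ LinearMap.ker a = H) →
      (Module.Free (MvPolynomial (Fin ℓ) K)
          (Submodule.span (MvPolynomial (Fin ℓ) K)
            {θ : Derivation K (MvPolynomial (Fin ℓ) K) (MvPolynomial (Fin ℓ) K) |
              ∀ H ∈ A, ∀ a : Module.Dual K (Fin ℓ → K), LinearMap.ker a = H →
                (∑ i : Fin ℓ, MvPolynomial.C (a (Pi.single i 1)) * MvPolynomial.X i) ∣
                  θ (∑ i : Fin ℓ, MvPolynomial.C (a (Pi.single i 1)) * MvPolynomial.X i)}) ↔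
        ∃ f : Polynomial ℤ, f ≠ 0 ∧ f.reverse = f ∧
          (f : PowerSeries ℤ) =
            ∑ p ∈ Finset.range (ℓ + 1),
              PowerSeries.mk (fun k : ℕ =>
                  ((Module.finrank K
                    (Submodule.span K
                      {θ : AlternatingMap K (MvPolynomial (Fin ℓ) K) (MvPolynomial (Fin ℓ) K) (Fin p) |
                        (∀ (v : Fin p → MvPolynomial (Fin ℓ) K) (j : Fin p)
                            (u w : MvPolynomial (Fin ℓ) K),
                            θ (Function.update v j (u * w)) =
                              u * θ (Function.update v j w) + w * θ (Function.update v j u)) ∧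
                        (∀ H ∈ A, ∀ a : Module.Dual K (Fin ℓ → K), LinearMap.ker a = H →
                            ∀ (v : Fin p → MvPolynomial (Fin ℓ) K) (j : Fin p),
                              v j = (∑ i : Fin ℓ, MvPolynomial.C (a (Pi.single i 1)) * MvPolynomial.X i) →
                              (∑ i : Fin ℓ, MvPolynomial.C (a (Pi.single i 1)) * MvPolynomial.X i) ∣ θ v) ∧
                        (∀ w : Fin p → Fin ℓ,
                            (θ (fun j => MvPolynomial.X (w j))).IsHomogeneous k)}) : ℕ) : ℤ))
                * (-PowerSeries.X) ^ p)) := by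
  exact Pool.Agent.W958.ST.final Pool.Agent.W22.STBridge.main Pool.Agent.W253.STP.main
    Pool.Agent.W958.ST.main_euler (Pool.Agent.W460.STD.main Pool.Agent.W213.STTS.main) Pool.Agent.W958.ST.main_koszul
    Pool.Agent.W958.ST.main_frame Pool.Agent.W177.ST.main_reg
    (Pool.Agent.W460.STN.main Pool.Agent.W213.STTS.main) Pool.Agent.W177.ST.main_sdim
    (Pool.Agent.W958.ST.one_sub_pow_H4 (Pool.Agent.W177.ST.sdim_four ℚ)
      Pool.Agent.W177.ST.main_sdim)

end Pool.Agent.S12624
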