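import Pool.Statements.S12751
import Pool.Agent.W651.HI.Asm

set_option autoImplicit false
open Pool Pool.MP_0edc6b_gt

namespace Pool.Agent.S12751

/-- If X is separable metric, C ⊆ X countable, and X minus C has a basis of closed sets any two disjoint members of which are separated by a clopen set, then X has dimension at most one (small open neighbourhoods with zero-dimensional frontiers). -/
theorem result :
  ∀ (X : Type) [MetricSpace X] [TopologicalSpace.SeparableSpace X] (C : Set X),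
    C.Countable →
    (∃ B : Set (Set ↥(Cᶜ : Set X)), (∀ U ∈ B, IsClosed U) ∧
      (∀ p : ↥(Cᶜ : Set X), ∀ V ∈ nhds p, ∃ U ∈ B, U ⊆ V ∧ p ∈ interior U) ∧
      (∀ U ∈ B, ∀ W ∈ B, Disjoint U W →
        ∃ F : Set ↥(Cᶜ : Set X), IsClopen F ∧ U ⊆ F ∧ Disjoint F W)) →
    ∀ x : X, ∀ V : Set X, IsOpen V → x ∈ V →
      ∃ U : Set X, IsOpen U ∧ x ∈ U ∧ U ⊆ V ∧
        ∀ y : ↥(frontier U), ∀ O : Set ↥(frontier U), IsOpen O → y ∈ O →
          ∃ W : Set ↥(frontier U), IsClopen W ∧ y ∈ W ∧ W ⊆ O := by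
  intro X _ _ C hC hB x V hV hxV
  exact Pool.Agent.W651.HI.final
    (Pool.Agent.W651.HI.main Pool.Agent.W374.HI.Size.main Pool.Agent.W374.HI.Lim.main
      Pool.Agent.W160.HI.Bump.main)
    (Pool.Agent.W240.HI.main Pool.Agent.W160.HI.Crook.main) Pool.Agent.W837.HIEmb.main
    X C hC hB x V hV hxV

end Pool.Agent.S12751
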