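import Pool.Statements.S12755
import Pool.Agent.W622.RB.Fin
import Pool.Agent.W622.RB.Ex
import Pool.Agent.W622.RB.Nh
import Pool.Agent.W622.RB.Base
import Pool.Agent.W622.RB.Step
import Pool.Agent.W622.RB.Hom
import Pool.Agent.W363.RB.C1
import Pool.Agent.W363.RB.C2
import Pool.Agent.W363.RB.C3
import Pool.Agent.W363.RB.C4
import Pool.Agent.W363.RB.SC1
import Pool.Agent.W366.RB.Lpc
import Pool.Agent.W400.RB.Deck
import Pool.Agent.W400.RB.L1
import Pool.Agent.W400.RB.L2
import Pool.Agent.W400.RB.L3
import Pool.Agent.W400.RB.L4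
import Pool.Agent.W400.RB.Uni

set_option autoImplicit false
open CategoryTheory CategoryTheory.Limits
open Pool Pool.MP_103809_gt

namespace Pool.Agent.S12755

/-- For every connected CW complex X of dimension at most 2, if some normal subgroup of π₁X has an integrally acyclic regular cover, then among such normal subgroups one is minimal under inclusion. -/
theorem result :
    ∀ (X : Type) [TopologicalSpace X] [T2Space X]
      [Topology.CWComplex (Set.univ : Set X)],
      (∀ n : ℕ, 2 < n → IsEmpty (Topology.RelCWComplex.cell (Set.univ : Set X) n)) →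
      ConnectedSpace X →
      ∀ (x₀ : X) (S : Set (Subgroup (FundamentalGroup X x₀))),
        (∀ P : Subgroup (FundamentalGroup X x₀), P ∈ S ↔
          (P.Normal ∧
            ∃ (E : Type) (_ : TopologicalSpace E) (p : C(E, X)) (e₀ : E)
              (γ : Path (p e₀) x₀),
              IsCoveringMap p ∧ PathConnectedSpace E ∧
              P = (FundamentalGroup.map p e₀).range.map
                    (FundamentalGroup.fundamentalGroupMulEquivOfPath γ).toMonoidHom ∧
              IsZero (((AlgebraicTopology.singularHomologyFunctor (ModuleCat.{0} ℤ) 1).obj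
                    (ModuleCat.of ℤ ℤ)).obj (TopCat.of E)) ∧
              IsZero (((AlgebraicTopology.singularHomologyFunctor (ModuleCat.{0} ℤ) 2).obj
                    (ModuleCat.of ℤ ℤ)).obj (TopCat.of E)))) →
        S.Nonempty →
        ∃ P ∈ S, ∀ Q ∈ S, Q ≤ P → Q = P := by
  have h1 := Pool.Agent.W363.RB.C1.main
  have hl1 := Pool.Agent.W400.RB.L1.main
  exact Pool.Agent.W622.RB.final Pool.Agent.W622.RB.Hom.main Pool.Agent.W363.RB.SC1.main h1
    (Pool.Agent.W363.RB.C2.main h1) (Pool.Agent.W363.RB.C3.main h1) Pool.Agent.W363.RB.C4.main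
    hl1 (Pool.Agent.W400.RB.L4.main hl1 (Pool.Agent.W400.RB.L2.main hl1)
      (Pool.Agent.W400.RB.L3.main hl1)) Pool.Agent.W622.RB.Ex.main Pool.Agent.W366.RB.Lpc.main
    (Pool.Agent.W622.RB.slsc_of Pool.Agent.W622.RB.Base.main Pool.Agent.W622.RB.Step.main
      Pool.Agent.W622.RB.Nh.main) Pool.Agent.W400.RB.Uni.main Pool.Agent.W400.RB.Deck.main

end Pool.Agent.S12755
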