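import Pool.Statements.S12789
import Pool.Agent.Results.MP_13d552_gt.HighestVolume

set_option autoImplicit false
open Pool Pool.MP_13d552_gt

namespace Pool.Agent.S12789

/-- For n ≥ 3, if two free finite subgroups of O(2n) are isospectral (equal dimensions of invariant harmonic polynomials in every degree), are not conjugate, and have the least order among all such pairs, then both groups are cyclic. -/
theorem result :
  ∀ n : ℕ, 3 ≤ n →
  ∀ Γ₁ Γ₂ : Subgroup (Matrix.orthogonalGroup (Fin (2*n)) ℝ),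
    (Γ₁ : Set (Matrix.orthogonalGroup (Fin (2*n)) ℝ)).Finite →
    (Γ₂ : Set (Matrix.orthogonalGroup (Fin (2*n)) ℝ)).Finite →
    (∀ g ∈ Γ₁, ∀ v : Fin (2*n) → ℝ,
      (g : Matrix (Fin (2*n)) (Fin (2*n)) ℝ).mulVec v = v → g = 1 ∨ v = 0) →
    (∀ g ∈ Γ₂, ∀ v : Fin (2*n) → ℝ,
      (g : Matrix (Fin (2*n)) (Fin (2*n)) ℝ).mulVec v = v → g = 1 ∨ v = 0) →
    (∀ k : ℕ,
      Module.finrank ℝ ↥(MvPolynomial.homogeneousSubmodule (Fin (2*n)) ℝ k
        ⊓ LinearMap.ker (∑ i : Fin (2*n),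
            (MvPolynomial.pderiv i : Derivation ℝ (MvPolynomial (Fin (2*n)) ℝ) (MvPolynomial (Fin (2*n)) ℝ)).toLinearMap
              ∘ₗ (MvPolynomial.pderiv i : Derivation ℝ (MvPolynomial (Fin (2*n)) ℝ) (MvPolynomial (Fin (2*n)) ℝ)).toLinearMap)
        ⊓ ⨅ g ∈ Γ₁, LinearMap.eqLocus
            (MvPolynomial.aeval (R := ℝ) (fun i : Fin (2*n) => ∑ j : Fin (2*n),
              (g : Matrix (Fin (2*n)) (Fin (2*n)) ℝ) i j • (MvPolynomial.X j : MvPolynomial (Fin (2*n)) ℝ))).toLinearMap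
            (LinearMap.id : MvPolynomial (Fin (2*n)) ℝ →ₗ[ℝ] MvPolynomial (Fin (2*n)) ℝ))
      = Module.finrank ℝ ↥(MvPolynomial.homogeneousSubmodule (Fin (2*n)) ℝ k
        ⊓ LinearMap.ker (∑ i : Fin (2*n),
            (MvPolynomial.pderiv i : Derivation ℝ (MvPolynomial (Fin (2*n)) ℝ) (MvPolynomial (Fin (2*n)) ℝ)).toLinearMap
              ∘ₗ (MvPolynomial.pderiv i : Derivation ℝ (MvPolynomial (Fin (2*n)) ℝ) (MvPolynomial (Fin (2*n)) ℝ)).toLinearMap)
        ⊓ ⨅ g ∈ Γ₂, LinearMap.eqLocus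
            (MvPolynomial.aeval (R := ℝ) (fun i : Fin (2*n) => ∑ j : Fin (2*n),
              (g : Matrix (Fin (2*n)) (Fin (2*n)) ℝ) i j • (MvPolynomial.X j : MvPolynomial (Fin (2*n)) ℝ))).toLinearMap
            (LinearMap.id : MvPolynomial (Fin (2*n)) ℝ →ₗ[ℝ] MvPolynomial (Fin (2*n)) ℝ))) →
    (¬ ∃ h : Matrix.orthogonalGroup (Fin (2*n)) ℝ, Γ₂ = Γ₁.map (MulAut.conj h).toMonoidHom) →
    (∀ Λ₁ Λ₂ : Subgroup (Matrix.orthogonalGroup (Fin (2*n)) ℝ),
      (Λ₁ : Set (Matrix.orthogonalGroup (Fin (2*n)) ℝ)).Finite →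
      (Λ₂ : Set (Matrix.orthogonalGroup (Fin (2*n)) ℝ)).Finite →
      (∀ g ∈ Λ₁, ∀ v : Fin (2*n) → ℝ,
        (g : Matrix (Fin (2*n)) (Fin (2*n)) ℝ).mulVec v = v → g = 1 ∨ v = 0) →
      (∀ g ∈ Λ₂, ∀ v : Fin (2*n) → ℝ,
        (g : Matrix (Fin (2*n)) (Fin (2*n)) ℝ).mulVec v = v → g = 1 ∨ v = 0) →
      (∀ k : ℕ,
        Module.finrank ℝ ↥(MvPolynomial.homogeneousSubmodule (Fin (2*n)) ℝ k
          ⊓ LinearMap.ker (∑ i : Fin (2*n),
              (MvPolynomial.pderiv i : Derivation ℝ (MvPolynomial (Fin (2*n)) ℝ) (MvPolynomial (Fin (2*n)) ℝ)).toLinearMap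
                ∘ₗ (MvPolynomial.pderiv i : Derivation ℝ (MvPolynomial (Fin (2*n)) ℝ) (MvPolynomial (Fin (2*n)) ℝ)).toLinearMap)
          ⊓ ⨅ g ∈ Λ₁, LinearMap.eqLocus
              (MvPolynomial.aeval (R := ℝ) (fun i : Fin (2*n) => ∑ j : Fin (2*n),
                (g : Matrix (Fin (2*n)) (Fin (2*n)) ℝ) i j • (MvPolynomial.X j : MvPolynomial (Fin (2*n)) ℝ))).toLinearMap
              (LinearMap.id : MvPolynomial (Fin (2*n)) ℝ →ₗ[ℝ] MvPolynomial (Fin (2*n)) ℝ))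
        = Module.finrank ℝ ↥(MvPolynomial.homogeneousSubmodule (Fin (2*n)) ℝ k
          ⊓ LinearMap.ker (∑ i : Fin (2*n),
              (MvPolynomial.pderiv i : Derivation ℝ (MvPolynomial (Fin (2*n)) ℝ) (MvPolynomial (Fin (2*n)) ℝ)).toLinearMap
                ∘ₗ (MvPolynomial.pderiv i : Derivation ℝ (MvPolynomial (Fin (2*n)) ℝ) (MvPolynomial (Fin (2*n)) ℝ)).toLinearMap)
          ⊓ ⨅ g ∈ Λ₂, LinearMap.eqLocus
              (MvPolynomial.aeval (R := ℝ) (fun i : Fin (2*n) => ∑ j : Fin (2*n),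
                (g : Matrix (Fin (2*n)) (Fin (2*n)) ℝ) i j • (MvPolynomial.X j : MvPolynomial (Fin (2*n)) ℝ))).toLinearMap
              (LinearMap.id : MvPolynomial (Fin (2*n)) ℝ →ₗ[ℝ] MvPolynomial (Fin (2*n)) ℝ))) →
      (¬ ∃ h : Matrix.orthogonalGroup (Fin (2*n)) ℝ, Λ₂ = Λ₁.map (MulAut.conj h).toMonoidHom) →
      Nat.card Γ₁ ≤ Nat.card Λ₁) →
    IsCyclic Γ₁ ∧ IsCyclic Γ₂ := by
  intro n hn Γ₁ Γ₂ hf₁ hf₂ hr₁ hr₂ hiso hnc hmin
  have hfree : ∀ Γ : Subgroup (Matrix.orthogonalGroup (Fin (2*n)) ℝ),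
      (∀ g ∈ Γ, ∀ v : Fin (2*n) → ℝ,
        (g : Matrix (Fin (2*n)) (Fin (2*n)) ℝ).mulVec v = v → g = 1 ∨ v = 0) ↔
      Pool.Agent.Results.MP_13d552_gt.HighestVolume.ActsFreely Γ := by
    intro Γ
    rw [Pool.Agent.Results.MP_13d552_gt.HighestVolume.free_iff]
    constructor
    · intro h g hg h1 v hv
      exact (h g hg v hv).resolve_left h1
    · intro h g hg v hv
      by_cases h1 : g = 1
      · exact Or.inl h1
      · exact Or.inr (h g hg h1 v hv)
  have hmul : ∀ (Γ : Subgroup (Matrix.orthogonalGroup (Fin (2*n)) ℝ)) (k : ℕ),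
      Module.finrank ℝ ↥(MvPolynomial.homogeneousSubmodule (Fin (2*n)) ℝ k
          ⊓ LinearMap.ker (∑ i : Fin (2*n),
              (MvPolynomial.pderiv i : Derivation ℝ (MvPolynomial (Fin (2*n)) ℝ) (MvPolynomial (Fin (2*n)) ℝ)).toLinearMap
                ∘ₗ (MvPolynomial.pderiv i : Derivation ℝ (MvPolynomial (Fin (2*n)) ℝ) (MvPolynomial (Fin (2*n)) ℝ)).toLinearMap)
          ⊓ ⨅ g ∈ Γ, LinearMap.eqLocus
              (MvPolynomial.aeval (R := ℝ) (fun i : Fin (2*n) => ∑ j : Fin (2*n),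
                (g : Matrix (Fin (2*n)) (Fin (2*n)) ℝ) i j • (MvPolynomial.X j : MvPolynomial (Fin (2*n)) ℝ))).toLinearMap
              (LinearMap.id : MvPolynomial (Fin (2*n)) ℝ →ₗ[ℝ] MvPolynomial (Fin (2*n)) ℝ)) =
      Pool.Agent.Results.MP_13d552_gt.HighestVolume.multiplicity Γ k := by
    intro Γ k
    unfold Pool.Agent.Results.MP_13d552_gt.HighestVolume.multiplicity
    have hg : ∀ g : Matrix.orthogonalGroup (Fin (2*n)) ℝ,
        LinearMap.eqLocus
              (MvPolynomial.aeval (R := ℝ) (fun i : Fin (2*n) => ∑ j : Fin (2*n),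
                (g : Matrix (Fin (2*n)) (Fin (2*n)) ℝ) i j • (MvPolynomial.X j : MvPolynomial (Fin (2*n)) ℝ))).toLinearMap
              (LinearMap.id : MvPolynomial (Fin (2*n)) ℝ →ₗ[ℝ] MvPolynomial (Fin (2*n)) ℝ) =
        LinearMap.ker ((MvPolynomial.aeval (fun i : Fin (2*n) =>
          ∑ j : Fin (2*n), MvPolynomial.C (g.1 i j) * MvPolynomial.X j)).toLinearMap
          - LinearMap.id) := by
      intro g
      have hf : (fun i : Fin (2*n) => ∑ j : Fin (2*n),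
                (g : Matrix (Fin (2*n)) (Fin (2*n)) ℝ) i j • (MvPolynomial.X j : MvPolynomial (Fin (2*n)) ℝ)) =
          fun i : Fin (2*n) =>
          ∑ j : Fin (2*n), MvPolynomial.C (g.1 i j) * MvPolynomial.X j := by
        funext i
        exact Finset.sum_congr rfl fun j _ => MvPolynomial.smul_eq_C_mul _ _
      rw [hf, LinearMap.eqLocus_eq_ker_sub]
    have hI : (⨅ g ∈ Γ, LinearMap.eqLocus
              (MvPolynomial.aeval (R := ℝ) (fun i : Fin (2*n) => ∑ j : Fin (2*n),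
                (g : Matrix (Fin (2*n)) (Fin (2*n)) ℝ) i j • (MvPolynomial.X j : MvPolynomial (Fin (2*n)) ℝ))).toLinearMap
              (LinearMap.id : MvPolynomial (Fin (2*n)) ℝ →ₗ[ℝ] MvPolynomial (Fin (2*n)) ℝ)) =
        ⨅ g ∈ Γ, LinearMap.ker ((MvPolynomial.aeval (fun i : Fin (2*n) =>
          ∑ j : Fin (2*n), MvPolynomial.C (g.1 i j) * MvPolynomial.X j)).toLinearMap
          - LinearMap.id) := iInf_congr fun g => iInf_congr fun _ => hg g
    rw [hI]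
  have hconj : ∀ A B : Subgroup (Matrix.orthogonalGroup (Fin (2*n)) ℝ),
      (∃ h : Matrix.orthogonalGroup (Fin (2*n)) ℝ, B = A.map (MulAut.conj h).toMonoidHom) ↔
      Pool.Agent.Results.MP_13d552_gt.HighestVolume.Isometric A B := by
    intro A B
    refine exists_congr fun h => ?_
    constructor
    · rintro rfl g
      rw [Subgroup.mem_map]
      constructor
      · intro hg
        exact ⟨g, hg, rfl⟩
      · rintro ⟨g', hg', he⟩
        have he' : h * g' * h⁻¹ = h * g * h⁻¹ := he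
        have : g' = g := mul_left_cancel (mul_right_cancel he')
        exact this ▸ hg'
    · intro hg
      ext x
      rw [Subgroup.mem_map]
      constructor
      · intro hx
        refine ⟨h⁻¹ * x * h, (hg _).2 ?_, ?_⟩
        · have : h * (h⁻¹ * x * h) * h⁻¹ = x := by group
          rw [this]
          exact hx
        · change h * (h⁻¹ * x * h) * h⁻¹ = x
          group
      · rintro ⟨g, hgA, rfl⟩
        exact (hg g).1 hgA
  have hP : ∀ A B : Subgroup (Matrix.orthogonalGroup (Fin (2*n)) ℝ),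
      Pool.Agent.Results.MP_13d552_gt.HighestVolume.IsPair n A B ↔
      ((A : Set (Matrix.orthogonalGroup (Fin (2*n)) ℝ)).Finite ∧
       (B : Set (Matrix.orthogonalGroup (Fin (2*n)) ℝ)).Finite ∧
       Pool.Agent.Results.MP_13d552_gt.HighestVolume.ActsFreely A ∧
       Pool.Agent.Results.MP_13d552_gt.HighestVolume.ActsFreely B ∧
       Pool.Agent.Results.MP_13d552_gt.HighestVolume.Isospectral A B ∧
       ¬ Pool.Agent.Results.MP_13d552_gt.HighestVolume.Isometric A B) := by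
    intro A B
    constructor
    · rintro ⟨h1, h2, h3, h4, h5, h6⟩
      exact ⟨Set.toFinite _, Set.toFinite _, h3, h4, h5, h6⟩
    · rintro ⟨h1, h2, h3, h4, h5, h6⟩
      exact ⟨h1.to_subtype, h2.to_subtype, h3, h4, h5, h6⟩
  refine (Pool.Agent.Results.MP_13d552_gt.HighestVolume.result n hn).2 Γ₁ Γ₂
    ⟨(hP _ _).2 ⟨hf₁, hf₂, (hfree _).1 hr₁, (hfree _).1 hr₂, ?_, ?_⟩, ?_⟩
  · intro k
    rw [← hmul, ← hmul]
    exact hiso k
  · rw [← hconj]
    exact hnc
  · intro Λ₁ Λ₂ hΛ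
    obtain ⟨h1, h2, h3, h4, h5, h6⟩ := (hP _ _).1 hΛ
    refine hmin Λ₁ Λ₂ h1 h2 ((hfree _).2 h3) ((hfree _).2 h4) (fun k => ?_) ?_
    · rw [hmul, hmul]
      exact h5 k
    · rw [hconj]
      exact h6

end Pool.Agent.S12789
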