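import Pool.Statements.S12796
import Pool.Agent.Results.MP_14c6b5_gt.Disproof

set_option autoImplicit false
open Pool Pool.MP_14c6b5_gt

namespace Pool.Agent.S12796

/-- The negation of the preceding statement: For every linear order with its order topology and no isolated points, every base of the topology can be split into two disjoint subfamilies, each of which is itself a base. -/
theorem result :
    ¬ (∀ (L : Type) [LinearOrder L] [TopologicalSpace L] [OrderTopology L],
      (∀ x : L, ¬ IsOpen ({x} : Set L)) →
      ∀ B : Set (Set L), TopologicalSpace.IsTopologicalBasis B →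
        ∃ B₀ : Set (Set L), B₀ ⊆ B ∧ TopologicalSpace.IsTopologicalBasis B₀ ∧
          TopologicalSpace.IsTopologicalBasis (B \ B₀)) := by
  intro h
  obtain ⟨L, i1, i2, i3, h1, B, h2, h3⟩ := Pool.Agent.Results.MP_14c6b5_gt.Disproof.result
  obtain ⟨B0, hB0, hb0, hb1⟩ := @h L i1 i2 i3 h1 B h2
  exact h3 ⟨B0, B \ B0, Set.union_sdiff_cancel hB0, disjoint_sdiff_self_right, hb0, hb1⟩

end Pool.Agent.S12796
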