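import Pool.Statements.S12841
import Pool.Agent.W567.Spencer2
import Pool.Agent.W567.ZonIter

set_option autoImplicit false
open Pool Pool.MP_1bae07_gt

namespace Pool.Agent.S12841

open Pool.Agent.H172R2.ZS (E Zon) in
/-- The version in Euclidean space. -/
theorem euclid : ∃ C : ℝ, 0 < C ∧
      ∀ (d m : ℕ) (v : Fin m → E d) (n : ℕ) (u : Fin n → E d), 0 < d →
        (∀ i, u i ∈ Zon v) →
        ∃ ε : Fin n → ℝ, (∀ i, ε i = 1 ∨ ε i = -1) ∧
          ∃ s : Fin m → ℝ, (∀ j, s j ∈ Set.Icc (-1 : ℝ) 1) ∧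
            ∑ i, ε i • u i = (C * Real.sqrt d) • ∑ j, s j • v j := by
  obtain ⟨C1, hC1, hcol⟩ := Pool.Agent.W567.Spencer.full_col'
  obtain ⟨C2, hC2, hiter⟩ := Pool.Agent.W567.ZonIter.iter
  refine ⟨3 * (2 * C1 * √(4 * C2 + 1) + 1), by positivity, ?_⟩
  intro d m v n u hd hu
  choose t ht htu using hu
  -- the span of the generators and the completed family
  set S : Submodule ℝ (E d) := Submodule.span ℝ (Set.range v) with hS
  set w : Fin (m + d) → E d :=
    Fin.append v (fun l => Sᗮ.starProjection (EuclideanSpace.single l (1:ℝ))) with hw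
  have hvS : ∀ j, v j ∈ S := fun j => Submodule.subset_span ⟨j, rfl⟩
  have hspan : ∀ x : E d, (∀ j, inner ℝ (w j) x = (0:ℝ)) → x = 0 := by
    intro x hx
    have hxS : x ∈ Sᗮ := by
      rw [hS, Submodule.mem_orthogonal]
      intro y hy
      induction hy using Submodule.span_induction with
      | mem y hy =>
        obtain ⟨j, rfl⟩ := hy
        have := hx (Fin.castAdd d j)
        rwa [hw, Fin.append_left] at this
      | zero => simp
      | add a b _ _ ha hb => rw [inner_add_left, ha, hb, add_zero]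
      | smul c a _ ha => rw [inner_smul_left, ha, mul_zero]
    ext l
    have h1 := hx (Fin.natAdd m l)
    rw [hw, Fin.append_right, Submodule.inner_starProjection_left_eq_right,
      Submodule.starProjection_eq_self_iff.mpr hxS, EuclideanSpace.inner_single_left] at h1
    simpa using h1
  obtain ⟨N', v', hN', hv'⟩ := hiter d (m + d) w hd hspan (1 / 2) (by norm_num) (by norm_num)
  have hN'' : (N' : ℝ) ≤ 4 * C2 * d := hN'.trans (le_of_eq (by ring))
  have hz1 : ∀ y ∈ Zon w, ∃ z ∈ Zon v', y = (2:ℝ) • z := by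
    refine Pool.Agent.H902R3.ZA.ZSUP_ok d N' (m + d) v' w 2 (by norm_num) fun x => ?_
    have := (abs_le.mp (hv' x)).1
    linarith
  have hz2 : ∀ y ∈ Zon v', ∃ z ∈ Zon w, y = (3 / 2:ℝ) • z := by
    refine Pool.Agent.H902R3.ZA.ZSUP_ok d (m + d) N' w v' (3 / 2) (by norm_num) fun x => ?_
    have := (abs_le.mp (hv' x)).2
    linarith
  have huw : ∀ i, u i ∈ Zon w := by
    intro i
    refine ⟨Fin.append (t i) (fun _ => 0), fun j => ?_, ?_⟩
    · refine Fin.addCases (fun a => ?_) (fun b => ?_) j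
      · rw [Fin.append_left]; exact ht i a
      · rw [Fin.append_right]; constructor <;> norm_num
    · rw [Fin.sum_univ_add, htu i]
      simp [hw]
  have hyex : ∀ i, ∃ y : Fin N' → ℝ, (∀ k, y k ∈ Set.Icc (-1 : ℝ) 1) ∧
      u i = (2:ℝ) • ∑ k, y k • v' k := by
    intro i
    obtain ⟨z, ⟨y, hy, hzy⟩, hz⟩ := hz1 _ (huw i)
    exact ⟨y, hy, by rw [hz, hzy]⟩
  choose y hy hyu using hyex
  -- the linear discrepancy step
  obtain ⟨x, hx, hxsum, hxc⟩ := Pool.Agent.W567.Spencer.few_fractional d n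
    (fun i => WithLp.ofLp (u i))
  have hxsum' : ∑ i, x i • u i = 0 := by
    ext l
    have := congrFun hxsum l
    simpa using this
  set M := N' + d with hM
  set D : ℝ := C1 * √M with hD
  have hD0 : 0 ≤ D := by positivity
  obtain ⟨ε, hε, hb⟩ := Pool.Agent.W567.Spencer.lindisc M D
    (fun J _ _ f hJ hf => hcol M J f hJ hf) hD0 (Fin n)
    (fun i => Fin.append (y i) (fun _ => 0)) (fun i k => by
      refine Fin.addCases (fun a => ?_) (fun b => ?_) k
      · rw [Fin.append_left]; exact abs_le.mpr (hy i a)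
      · rw [Fin.append_right]; norm_num) x hx (hxc.trans (by omega))
  refine ⟨ε, hε, ?_⟩
  set R : ℝ := 2 * D + 1 with hR
  have hR0 : 0 < R := by positivity
  have hsum1 : ∑ i, ε i • u i = (2 * R) • ∑ k, ((∑ i, (ε i - x i) * y i k) / R) • v' k := by
    have h1 : ∑ i, ε i • u i = ∑ i, (ε i - x i) • u i := by
      simp only [sub_smul, Finset.sum_sub_distrib, hxsum', sub_zero]
    rw [h1]
    have h2 : ∀ i, (ε i - x i) • u i = ∑ k, (2 * ((ε i - x i) * y i k)) • v' k := by
      intro i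
      conv_lhs => rw [hyu i]
      rw [Finset.smul_sum, Finset.smul_sum]
      refine Finset.sum_congr rfl fun k _ => ?_
      rw [smul_smul, smul_smul]; congr 1; ring
    rw [Finset.sum_congr rfl fun i _ => h2 i, Finset.sum_comm, Finset.smul_sum]
    refine Finset.sum_congr rfl fun k _ => ?_
    rw [← Finset.sum_smul, smul_smul]
    congr 1
    rw [← Finset.mul_sum]
    field_simp
  obtain ⟨z, ⟨r, hr, hzr⟩, hz⟩ := hz2 (∑ k, ((∑ i, (ε i - x i) * y i k) / R) • v' k) ⟨_, fun k => by
    have h1 := hb (Fin.castAdd d k)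
    simp only [Fin.append_left] at h1
    rw [Set.mem_Icc, ← abs_le, abs_div, abs_of_pos hR0, div_le_one hR0]
    exact h1, rfl⟩
  have hsum2 : ∑ i, ε i • u i = (3 * R) • ∑ j, r j • w j := by
    rw [hsum1, hz, hzr, smul_smul]; congr 1; ring
  -- project to the span
  have huS : ∑ i, ε i • u i ∈ S := by
    refine Submodule.sum_mem _ fun i _ => Submodule.smul_mem _ _ ?_
    rw [htu i]
    exact Submodule.sum_mem _ fun j _ => Submodule.smul_mem _ _ (hvS j)
  have hsum3 : ∑ i, ε i • u i = (3 * R) • ∑ j, r (Fin.castAdd d j) • v j := by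
    have h1 := congrArg S.starProjection hsum2
    rw [Submodule.starProjection_eq_self_iff.mpr huS] at h1
    rw [h1, map_smul, map_sum, Fin.sum_univ_add]
    congr 1
    have h2 : ∑ i, S.starProjection (r (Fin.natAdd m i) • w (Fin.natAdd m i)) = 0 := by
      refine Finset.sum_eq_zero fun l _ => ?_
      rw [map_smul, hw, Fin.append_right]
      have h3 : S.starProjection (Sᗮ.starProjection (EuclideanSpace.single l (1:ℝ))) = 0 := by
        rw [Submodule.starProjection_apply_eq_zero_iff]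
        exact Submodule.starProjection_apply_mem _ _
      rw [h3, smul_zero]
    rw [h2, add_zero]
    refine Finset.sum_congr rfl fun j _ => ?_
    rw [map_smul, hw, Fin.append_left, Submodule.starProjection_eq_self_iff.mpr (hvS j)]
  -- scale
  set B : ℝ := 3 * (2 * C1 * √(4 * C2 + 1) + 1) * √d with hB
  have hd1 : (1:ℝ) ≤ d := by exact_mod_cast hd
  have hsd1 : 1 ≤ √(d:ℝ) := by
    rw [Real.one_le_sqrt]; exact hd1
  have hB0 : 0 < B := by positivity
  have hRB : 3 * R ≤ B := by
    have h1 : √(M:ℝ) ≤ √(4 * C2 + 1) * √d := by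
      rw [← Real.sqrt_mul (by positivity)]
      apply Real.sqrt_le_sqrt
      rw [hM]; push_cast; linarith
    have h2 : D ≤ C1 * (√(4 * C2 + 1) * √d) := by
      rw [hD]; gcongr
    rw [hR, hB]
    nlinarith
  refine ⟨fun j => 3 * R / B * r (Fin.castAdd d j), fun j => ?_, ?_⟩
  · have h1 : 0 ≤ 3 * R / B := by positivity
    have h2 : 3 * R / B ≤ 1 := by rw [div_le_one hB0]; exact hRB
    obtain ⟨h3, h4⟩ := hr (Fin.castAdd d j)
    rw [Set.mem_Icc, ← abs_le, abs_mul, abs_of_nonneg h1]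
    have h5 : |r (Fin.castAdd d j)| ≤ 1 := abs_le.mpr ⟨h3, h4⟩
    calc 3 * R / B * |r (Fin.castAdd d j)| ≤ 1 * 1 := by gcongr
      _ = 1 := one_mul 1
  · rw [hsum3, Finset.smul_sum, Finset.smul_sum]
    refine Finset.sum_congr rfl fun j _ => ?_
    rw [smul_smul, smul_smul]
    congr 1
    field_simp

/-- There is an absolute constant C such that for every origin-centred zonotope K in ℝ^d and any finitely many vectors in K, some choice of signs puts their signed sum in C√d·K, i.e. vb(K,K) ≤ C√d. -/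
theorem result :
    ∃ C : ℝ, 0 < C ∧
      ∀ (d m : ℕ) (v : Fin m → (Fin d → ℝ)) (n : ℕ) (u : Fin n → (Fin d → ℝ)),
        (∀ i, ∃ t : Fin m → ℝ, (∀ j, t j ∈ Set.Icc (-1 : ℝ) 1) ∧
            u i = ∑ j, t j • v j) →
        ∃ ε : Fin n → ℝ, (∀ i, ε i = 1 ∨ ε i = -1) ∧
          ∃ s : Fin m → ℝ, (∀ j, s j ∈ Set.Icc (-1 : ℝ) 1) ∧
            ∑ i, ε i • u i = (C * Real.sqrt d) • ∑ j, s j • v j := by
  obtain ⟨C, hC, h⟩ := euclid
  refine ⟨C, hC, fun d m v n u hu => ?_⟩
  rcases Nat.eq_zero_or_pos d with h0 | hd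
  · subst h0
    exact ⟨fun _ => 1, fun _ => Or.inl rfl, fun _ => 0, fun _ => by constructor <;> norm_num,
      Subsingleton.elim _ _⟩
  obtain ⟨ε, hε, s, hs, hsum⟩ := h d m (fun j => WithLp.toLp 2 (v j)) n
    (fun i => WithLp.toLp 2 (u i)) hd (fun i => by
      obtain ⟨t, ht, htu⟩ := hu i
      refine ⟨t, ht, ?_⟩
      ext l
      simp [htu])
  refine ⟨ε, hε, s, hs, ?_⟩
  funext l
  have := congrArg (fun z : EuclideanSpace ℝ (Fin d) => z l) hsum
  simpa using this

end Pool.Agent.S12841
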