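import Pool.Statements.S12849
import Pool.Agent.Results.MP_1ce9e9_gt.Fillable

set_option autoImplicit false
open Pool Pool.MP_1ce9e9_gt

namespace Pool.Agent.S12849

/-- There is a nonempty finite plane set S such that for every N some straight-line planar net with simple unit-weight edges has exactly S as its unbalanced vertices and more than N balanced vertices (degree ≥3, unit edge vectors summing to 0). -/
theorem result :
    ∃ S : Finset ℂ, S.Nonempty ∧
      ∀ N : ℕ, ∃ V : Finset ℂ, ∃ G : SimpleGraph ℂ,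
        (∀ a b : ℂ, G.Adj a b → a ∈ V ∧ b ∈ V) ∧
        (∀ a b c d : ℂ, G.Adj a b → G.Adj c d →
            ¬ ((a = c ∧ b = d) ∨ (a = d ∧ b = c)) →
            ∀ x ∈ segment ℝ a b ∩ segment ℝ c d, (x = a ∨ x = b) ∧ (x = c ∨ x = d)) ∧
        (∀ a b v : ℂ, G.Adj a b → v ∈ V → v ∈ segment ℝ a b → v = a ∨ v = b) ∧
        S ⊆ V ∧
        (∀ v ∈ V, v ∈ S ↔
            ¬ (3 ≤ (G.neighborSet v).ncard ∧
               (∑ᶠ w ∈ G.neighborSet v, (w - v) / ((‖w - v‖ : ℝ) : ℂ)) = 0)) ∧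
        N < Set.ncard {v : ℂ | v ∈ V ∧ 3 ≤ (G.neighborSet v).ncard ∧
               (∑ᶠ w ∈ G.neighborSet v, (w - v) / ((‖w - v‖ : ℝ) : ℂ)) = 0} := by
  classical
  obtain ⟨S, hS, h⟩ := Pool.Agent.Results.MP_1ce9e9_gt.Fillable.result
  refine ⟨S, Finset.card_pos.1 (by omega), fun N => ?_⟩
  obtain ⟨G, h1, h2⟩ := h N
  let H : SimpleGraph ℂ :=
    { Adj := G.Adj
      symm := ⟨fun a b => G.symm a b⟩
      loopless := ⟨fun a h => (G.edge_ends a a h).2.2 rfl⟩ }
  have hn : ∀ v, H.neighborSet v = ((G.neighbors v : Finset ℂ) : Set ℂ) := by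
    intro v
    ext w
    simp only [SimpleGraph.mem_neighborSet, Finset.mem_coe]
    unfold Pool.Agent.Results.MP_1ce9e9_gt.Fillable.GeodesicNet.neighbors
    rw [Finset.mem_filter]
    exact ⟨fun h => ⟨(G.edge_ends v w h).2.1, h⟩, fun h => h.2⟩
  have hb : ∀ v, (3 ≤ (H.neighborSet v).ncard ∧
      (∑ᶠ w ∈ H.neighborSet v, (w - v) / ((‖w - v‖ : ℝ) : ℂ)) = 0) ↔ G.IsBalanced v := by
    intro v
    rw [hn v, Set.ncard_coe_finset, finsum_mem_coe_finset]
    exact and_comm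
  refine ⟨G.V, H, fun a b hab => ⟨(G.edge_ends a b hab).1, (G.edge_ends a b hab).2.1⟩,
    ?_, ?_, ?_, ?_, ?_⟩
  · intro a b c d hab hcd hne x hx
    refine G.edges_meet a b c d hab hcd ?_ x hx.1 hx.2
    intro he
    apply hne
    rcases Sym2.eq_iff.1 he with ⟨h3, h4⟩ | ⟨h3, h4⟩
    · exact Or.inl ⟨h3, h4⟩
    · exact Or.inr ⟨h3, h4⟩
  · intro a b v hab hv hvs
    by_contra hcon
    push Not at hcon
    have h5 := G.no_vertex_inside a b hab v hv
    rw [← insert_endpoints_openSegment] at hvs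
    rcases hvs with h6 | h6 | h6
    · exact hcon.1 h6
    · exact hcon.2 h6
    · exact h5 h6
  · rw [← h1]
    exact Finset.filter_subset _ _
  · intro v hv
    rw [hb v, ← h1]
    unfold Pool.Agent.Results.MP_1ce9e9_gt.Fillable.GeodesicNet.unbalancedVertices
    rw [Finset.mem_filter]
    exact ⟨fun h => h.2, fun h => ⟨hv, h⟩⟩
  · have h3 : {v : ℂ | v ∈ G.V ∧ 3 ≤ (H.neighborSet v).ncard ∧
        (∑ᶠ w ∈ H.neighborSet v, (w - v) / ((‖w - v‖ : ℝ) : ℂ)) = 0} =
        ((G.balancedVertices : Finset ℂ) : Set ℂ) := by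
      ext v
      rw [Finset.mem_coe]
      unfold Pool.Agent.Results.MP_1ce9e9_gt.Fillable.GeodesicNet.balancedVertices
      rw [Finset.mem_filter, Set.mem_setOf_eq, hb v]
    rw [h3, Set.ncard_coe_finset]
    exact h2

end Pool.Agent.S12849
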