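import Pool.Statements.S12878
import Pool.Agent.W88.Lelek2
import Pool.Agent.Results.MP_211c6f_gt.NullPairings

set_option autoImplicit false
open Filter Topology
open Pool Pool.MP_211c6f_gt

namespace Pool.Agent.S12878

open Pool.Agent.Results.MP_211c6f_gt.NullPairings in
lemma lelek : IsLelekFan W88.Lelek.v := by
  refine ⟨⟨W88.Lelek.unicoherent, ?_, ?_, ?_⟩, ?_, ?_⟩
  · intro x y hxy
    obtain ⟨γ, h1, h2, h3, h4⟩ := W88.Lelek.arcwise hxy
    exact ⟨_, γ, h1, h2, h3, h4, rfl⟩
  · refine ⟨W88.Lelek.pt 0, W88.Lelek.pt 1, W88.Lelek.pt 2, _, _, _,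
      ⟨W88.Lelek.ray (W88.Lelek.pt 0), (W88.Lelek.ray _).continuous,
        W88.Lelek.ray_inj (W88.Lelek.pt_ne 0), (W88.Lelek.ray _).source,
        (W88.Lelek.ray _).target, rfl⟩,
      ⟨W88.Lelek.ray (W88.Lelek.pt 1), (W88.Lelek.ray _).continuous,
        W88.Lelek.ray_inj (W88.Lelek.pt_ne 1), (W88.Lelek.ray _).source,
        (W88.Lelek.ray _).target, rfl⟩,
      ⟨W88.Lelek.ray (W88.Lelek.pt 2), (W88.Lelek.ray _).continuous,
        W88.Lelek.ray_inj (W88.Lelek.pt_ne 2), (W88.Lelek.ray _).source,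
        (W88.Lelek.ray _).target, rfl⟩,
      W88.Lelek.pt_inter (by decide), W88.Lelek.pt_inter (by decide),
      W88.Lelek.pt_inter (by decide)⟩
  · rintro p ⟨x₁, x₂, x₃, A₁, A₂, A₃, ⟨γ₁, a1, b1, c1, d1, rfl⟩, ⟨γ₂, a2, b2, c2, d2, rfl⟩,
      ⟨γ₃, a3, b3, c3, d3, rfl⟩, h12, h13, h23⟩
    refine W88.Lelek.ram_unique ![γ₁, γ₂, γ₃] ?_ ?_
    · intro i
      fin_cases i
      · exact ⟨a1, b1, c1⟩
      · exact ⟨a2, b2, c2⟩
      · exact ⟨a3, b3, c3⟩
    · intro i j hij
      fin_cases i <;> fin_cases j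
      · exact absurd rfl hij
      · exact h12
      · exact h13
      · rw [Set.inter_comm]; exact h12
      · exact absurd rfl hij
      · exact h23
      · rw [Set.inter_comm]; exact h13
      · rw [Set.inter_comm]; exact h23
      · exact absurd rfl hij
  · intro x xs hx A As hA hAs
    have conv : ∀ {y : W88.Lelek.X} {B : Set W88.Lelek.X},
        IsArcOrPoint B W88.Lelek.v y → B = W88.Lelek.seg y := by
      intro y B hB
      apply W88.Lelek.arc_eq
      rcases hB with ⟨h1, h2⟩ | ⟨γ, h1, h2, h3, h4, h5⟩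
      · exact Or.inl ⟨h1.symm, h2⟩
      · exact Or.inr ⟨γ, h1, h2, h3, h4, h5⟩
    have e1 := conv hA
    have e2 : As = fun n => W88.Lelek.seg (xs n) := funext fun n => conv (hAs n)
    rw [e1, e2]
    exact W88.Lelek.smooth hx
  · refine W88.Lelek.dense_tips.mono ?_
    rintro e he A x y ⟨γ, h1, h2, rfl, rfl, rfl⟩ h3
    exact W88.Lelek.tip_end he h1 h2 h3

open Pool.Agent.Results.MP_211c6f_gt.NullPairings in
lemma dec_eq {L : Type} [MetricSpace L] {a b : ℕ → L} (h : IsPairing a b) :
    decomposition a b h = sInf {s : Setoid L | ∀ n, s.r (a n) (b n)} := by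
  apply le_antisymm
  · refine le_sInf ?_
    intro s hs x y hxy
    rcases hxy with rfl | ⟨i, ⟨rfl, rfl⟩ | ⟨rfl, rfl⟩⟩
    · exact s.refl _
    · exact hs i
    · exact s.symm (hs i)
  · refine sInf_le ?_
    intro n
    exact Or.inr ⟨n, Or.inl ⟨rfl, rfl⟩⟩

/-- The negation of the preceding statement: For the Lelek fan, any two pairings of dense disjoint sequences of endpoints whose point-pair identifications give Hausdorff quotients yield homeomorphic quotient spaces. -/
theorem result :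
    ¬ (∀ (X : Type) [MetricSpace X] [CompactSpace X] [ConnectedSpace X] [PathConnectedSpace X]
    (v : X) (E : Set X),
    (∀ K M : Set X, IsClosed K → IsConnected K → IsClosed M → IsConnected M →
      IsPreconnected (K ∩ M)) →
    (∀ w : X, (∃ γ : Fin 3 → unitInterval → X,
        (∀ i, Continuous (γ i) ∧ Function.Injective (γ i) ∧ γ i 0 = w) ∧
        ∀ i j, i ≠ j → Set.range (γ i) ∩ Set.range (γ j) = {w}) ↔ w = v) →
    (∀ (x : ℕ → X) (y : X) (S : ℕ → Set X) (T : Set X),
      Tendsto x atTop (𝓝 y) →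
      (∀ n, (x n = v ∧ S n = {v}) ∨ ∃ γ : unitInterval → X, Continuous γ ∧
        Function.Injective γ ∧ γ 0 = v ∧ γ 1 = x n ∧ Set.range γ = S n) →
      ((y = v ∧ T = {v}) ∨ ∃ γ : unitInterval → X, Continuous γ ∧
        Function.Injective γ ∧ γ 0 = v ∧ γ 1 = y ∧ Set.range γ = T) →
      Tendsto (fun n => Metric.hausdorffDist (S n) T) atTop (𝓝 0)) →
    E = {e : X | ∀ γ : unitInterval → X, Continuous γ → Function.Injective γ →
      e ∈ Set.range γ → e = γ 0 ∨ e = γ 1} →
    Dense E →
    ∀ (a b a' b' : ℕ → X) (D D' : Setoid X),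
      Function.Injective a → Function.Injective b → (∀ n, a n ∈ E ∧ b n ∈ E) →
      Disjoint (Set.range a) (Set.range b) → Dense (Set.range a) → Dense (Set.range b) →
      Function.Injective a' → Function.Injective b' → (∀ n, a' n ∈ E ∧ b' n ∈ E) →
      Disjoint (Set.range a') (Set.range b') → Dense (Set.range a') → Dense (Set.range b') →
      D = sInf {s : Setoid X | ∀ n, s.r (a n) (b n)} →
      D' = sInf {s : Setoid X | ∀ n, s.r (a' n) (b' n)} →
      T2Space (Quotient D) → T2Space (Quotient D') →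
      Nonempty (Quotient D ≃ₜ Quotient D')) := by
  intro H
  obtain ⟨a, b, a', b', h, h', hu, hu', -, -, hemp⟩ :=
    Results.MP_211c6f_gt.NullPairings.result (L := W88.Lelek.X) lelek
  refine hemp.elim' (Classical.choice ?_)
  have key := H W88.Lelek.X W88.Lelek.v {e | Results.MP_211c6f_gt.NullPairings.IsEndpoint e}
    (fun K M h1 h2 h3 h4 => W88.Lelek.unicoherent K M h1 h2.isPreconnected h3 h4.isPreconnected)
    (fun w => ⟨fun ⟨γ, h1, h2⟩ => W88.Lelek.ram_unique γ h1 h2, fun hw => by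
      subst hw
      exact ⟨fun i => W88.Lelek.ray (W88.Lelek.pt i), fun i =>
        ⟨(W88.Lelek.ray _).continuous, W88.Lelek.ray_inj (W88.Lelek.pt_ne i),
          (W88.Lelek.ray _).source⟩, fun i j hij => W88.Lelek.pt_inter hij⟩⟩)
    (fun x y S T h1 h2 h3 => by
      have e1 : T = W88.Lelek.seg y := W88.Lelek.arc_eq h3
      have e2 : S = fun n => W88.Lelek.seg (x n) := funext fun n => W88.Lelek.arc_eq (h2 n)
      rw [e1, e2]
      exact W88.Lelek.smooth h1)
    (by
      ext e
      constructor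
      · intro he γ h1 h2 h3
        exact he _ _ _ ⟨γ, h1, h2, rfl, rfl, rfl⟩ h3
      · rintro he A x y ⟨γ, h1, h2, rfl, rfl, rfl⟩ h3
        exact he γ h1 h2 h3)
    lelek.dense_endpoints
    a b a' b' (Results.MP_211c6f_gt.NullPairings.decomposition a b h) (Results.MP_211c6f_gt.NullPairings.decomposition a' b' h')
    h.injective_left h.injective_right (fun n => ⟨h.endpoint_left n, h.endpoint_right n⟩)
    (by
      rw [Set.disjoint_left]
      rintro _ ⟨i, rfl⟩ ⟨j, hj⟩
      exact h.disjoint i j hj.symm)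
    h.dense_left h.dense_right
    h'.injective_left h'.injective_right (fun n => ⟨h'.endpoint_left n, h'.endpoint_right n⟩)
    (by
      rw [Set.disjoint_left]
      rintro _ ⟨i, rfl⟩ ⟨j, hj⟩
      exact h'.disjoint i j hj.symm)
    h'.dense_left h'.dense_right
    (dec_eq h) (dec_eq h') (Results.MP_211c6f_gt.NullPairings.t2_quotient h hu) (Results.MP_211c6f_gt.NullPairings.t2_quotient h' hu')
  exact key.map id

end Pool.Agent.S12878
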