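import Pool.Statements.S12880
import Pool.Agent.Results.MP_217de7_gt.ZonoidPolarFar

set_option autoImplicit false
open Pool Pool.MP_217de7_gt

namespace Pool.Agent.S12880

open Pool.Agent.Results.MP_217de7_gt.ZonoidPolarFar in
/-- A symmetric convex compact zonoid (limit of arbitrary zonotopes) is a limit of centred
zonotopes. -/
theorem centred {n : ℕ} {Z : Set (EuclideanSpace ℝ (Fin n))} (hZ : IsZonoid Z)
    (hc : Convex ℝ Z) (hs : ∀ x ∈ Z, -x ∈ Z) :
    Z.Nonempty ∧ IsCompact Z ∧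
      ∀ δ : ℝ, 0 < δ → ∃ m : ℕ, ∃ v : Fin m → EuclideanSpace ℝ (Fin n),
        Metric.hausdorffDist Z
          {x | ∃ t : Fin m → ℝ, (∀ i, |t i| ≤ 1) ∧ x = ∑ i, t i • v i} < δ := by
  obtain ⟨hcomp, hne, P, hP, hlim⟩ := hZ
  refine ⟨hne, hcomp, fun δ hδ => ?_⟩
  obtain ⟨k, hk⟩ := ((Metric.tendsto_atTop.1 hlim) (δ / 2) (by positivity))
  have hk' := hk k le_rfl
  rw [Real.dist_eq, sub_zero, abs_of_nonneg Metric.hausdorffDist_nonneg] at hk'
  obtain ⟨m, a, b, hPab⟩ := hP k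
  set v : Fin m → EuclideanSpace ℝ (Fin n) := fun i => (1 / 2 : ℝ) • (b i - a i) with hv
  set c : EuclideanSpace ℝ (Fin n) := ∑ i, (1 / 2 : ℝ) • (a i + b i) with hcdef
  set P0 : Set (EuclideanSpace ℝ (Fin n)) :=
    {x | ∃ t : Fin m → ℝ, (∀ i, |t i| ≤ 1) ∧ x = ∑ i, t i • v i} with hP0
  obtain ⟨hP0c, hP0v, -, -⟩ := isZonotope_props v
  have hP0s : ∀ x ∈ P0, -x ∈ P0 := by
    rintro x ⟨t, ht, rfl⟩
    exact ⟨fun i => - t i, fun i => by simpa using ht i, by simp⟩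
  have hP0ne : P0.Nonempty := ⟨0, fun _ => 0, fun i => by simp, by simp⟩
  -- P k = c + P0
  have hPc : ∀ x, x ∈ P k ↔ x - c ∈ P0 := by
    intro x
    rw [hPab, Set.mem_fintype_sum]
    constructor
    · rintro ⟨g, hg, rfl⟩
      have : ∀ i, ∃ t : ℝ, |t| ≤ 1 ∧ g i = (1 / 2 : ℝ) • (a i + b i) + t • v i := by
        intro i
        obtain ⟨p, q, hp, hq, hpq, h⟩ := hg i
        refine ⟨q - p, abs_le.mpr ⟨by linarith, by linarith⟩, ?_⟩
        rw [← h, hv]
        have hp' : p = 1 - q := by linarith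
        subst hp'
        module
      choose t ht1 ht2 using this
      refine ⟨t, ht1, ?_⟩
      rw [hcdef, ← Finset.sum_sub_distrib]
      refine Finset.sum_congr rfl fun i _ => ?_
      rw [ht2 i]; abel
    · rintro ⟨t, ht, hx⟩
      refine ⟨fun i => (1 / 2 : ℝ) • (a i + b i) + t i • v i, fun i => ?_, ?_⟩
      · obtain ⟨h1, h2⟩ := abs_le.mp (ht i)
        refine ⟨(1 - t i) / 2, (1 + t i) / 2, by linarith, by linarith, by ring, ?_⟩
        rw [hv]; module
      · rw [Finset.sum_add_distrib, ← hx]; abel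
  have hPkc : IsCompact (P k) := by
    have : P k = (fun x => x + c) '' P0 := by
      ext x
      rw [hPc]
      constructor
      · intro h; exact ⟨_, h, by simp⟩
      · rintro ⟨y, hy, rfl⟩; simpa using hy
    rw [this]
    exact hP0c.image (by fun_prop)
  have hPkne : (P k).Nonempty := by
    obtain ⟨y, hy⟩ := hP0ne
    exact ⟨y + c, by rw [hPc]; simpa using hy⟩
  have hfin : Metric.hausdorffEDist (P k) Z ≠ ⊤ :=
    Metric.hausdorffEDist_ne_top_of_nonempty_of_bounded hPkne hne hPkc.isBounded hcomp.isBounded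
  have h1 : ∀ x ∈ Z, ∃ p ∈ P0, dist x (p + c) < δ / 2 := by
    intro x hx
    obtain ⟨y, hy, hxy⟩ := Metric.exists_dist_lt_of_hausdorffDist_lt' hx hk' hfin
    exact ⟨y - c, (hPc y).mp hy, by simpa [dist_comm] using hxy⟩
  have h2 : ∀ p ∈ P0, ∃ x ∈ Z, dist x (p + c) < δ / 2 := by
    intro p hp
    have hp' : p + c ∈ P k := by rw [hPc]; simpa using hp
    obtain ⟨y, hy, hxy⟩ := Metric.exists_dist_lt_of_hausdorffDist_lt hp' hk' hfin
    exact ⟨y, hy, by rw [dist_comm]; exact hxy⟩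
  refine ⟨m, v, ?_⟩
  refine lt_of_le_of_lt (Metric.hausdorffDist_le_of_mem_dist (r := δ / 2) (by positivity) ?_ ?_)
    (by linarith)
  · intro x hx
    obtain ⟨p, hp, hxp⟩ := h1 x hx
    obtain ⟨q, hq, hxq⟩ := h1 (-x) (hs x hx)
    refine ⟨(1 / 2 : ℝ) • p + (1 / 2 : ℝ) • (-q),
      hP0v hp (hP0s q hq) (by norm_num) (by norm_num) (by norm_num), ?_⟩
    rw [dist_eq_norm] at hxp hxq ⊢
    have e : x - ((1 / 2 : ℝ) • p + (1 / 2 : ℝ) • (-q)) =
        (1 / 2 : ℝ) • ((x - (p + c)) - (-x - (q + c))) := by module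
    rw [e, norm_smul, Real.norm_of_nonneg (by norm_num)]
    have := norm_sub_le (x - (p + c)) (-x - (q + c))
    linarith
  · intro p hp
    obtain ⟨x, hx, hxp⟩ := h2 p hp
    obtain ⟨y, hy, hyp⟩ := h2 (-p) (hP0s p hp)
    refine ⟨(1 / 2 : ℝ) • x + (1 / 2 : ℝ) • (-y),
      hc hx (hs y hy) (by norm_num) (by norm_num) (by norm_num), ?_⟩
    rw [dist_eq_norm] at hxp hyp ⊢
    have e : p - ((1 / 2 : ℝ) • x + (1 / 2 : ℝ) • (-y)) =
        (1 / 2 : ℝ) • ((y - (-p + c)) - (x - (p + c))) := by module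
    rw [e, norm_smul, Real.norm_of_nonneg (by norm_num)]
    have := norm_sub_le (y - (-p + c)) (x - (p + c))
    linarith

open Pool.Agent.Results.MP_217de7_gt.ZonoidPolarFar in
/-- The negation of the preceding statement: For every ε>0, in all large dimensions n, every centered zonoid in ℝⁿ whose polar is also a zonoid has a linear image squeezed between the unit ball and its (1+ε)-dilate, i.e. Banach–Mazur distance to the ball tends to 1. -/
theorem result :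
    ¬ (∀ ε : ℝ, 0 < ε → ∃ N : ℕ, ∀ n : ℕ, N ≤ n →
      ∀ Z : Set (EuclideanSpace ℝ (Fin n)),
        (Z.Nonempty ∧ IsCompact Z ∧
          ∀ δ : ℝ, 0 < δ → ∃ m : ℕ, ∃ v : Fin m → EuclideanSpace ℝ (Fin n),
            Metric.hausdorffDist Z
              {x | ∃ t : Fin m → ℝ, (∀ i, |t i| ≤ 1) ∧ x = ∑ i, t i • v i} < δ) →
        (({y | ∀ x ∈ Z, inner ℝ x y ≤ (1 : ℝ)} : Set (EuclideanSpace ℝ (Fin n))).Nonempty ∧
          IsCompact ({y | ∀ x ∈ Z, inner ℝ x y ≤ (1 : ℝ)} : Set (EuclideanSpace ℝ (Fin n))) ∧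
          ∀ δ : ℝ, 0 < δ → ∃ m : ℕ, ∃ v : Fin m → EuclideanSpace ℝ (Fin n),
            Metric.hausdorffDist
              ({y | ∀ x ∈ Z, inner ℝ x y ≤ (1 : ℝ)} : Set (EuclideanSpace ℝ (Fin n)))
              {x | ∃ t : Fin m → ℝ, (∀ i, |t i| ≤ 1) ∧ x = ∑ i, t i • v i} < δ) →
        ∃ T : EuclideanSpace ℝ (Fin n) ≃ₗ[ℝ] EuclideanSpace ℝ (Fin n),
          Metric.closedBall (0 : EuclideanSpace ℝ (Fin n)) 1 ⊆ T '' Z ∧
            T '' Z ⊆ Metric.closedBall (0 : EuclideanSpace ℝ (Fin n)) (1 + ε)) := by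
  intro h
  obtain ⟨N, hN⟩ := h (1 / 20) (by norm_num)
  obtain ⟨Z, ⟨⟨hZc, hZv, hZi, hZs⟩, hZz, hZp⟩, hfar⟩ :=
    Pool.Agent.Results.MP_217de7_gt.ZonoidPolarFar.result.1 (N + 2) (by omega)
  have hpv : Convex ℝ (polarBody Z) := by
    intro y hy z hz a b ha hb hab x hx
    rw [inner_add_right, real_inner_smul_right, real_inner_smul_right]
    have h1 := mul_le_mul_of_nonneg_left (hy x hx) ha
    have h2 := mul_le_mul_of_nonneg_left (hz x hx) hb
    linarith
  have hps : ∀ y ∈ polarBody Z, -y ∈ polarBody Z := by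
    intro y hy x hx
    have := hy (-x) (hZs x hx)
    rw [inner_neg_left] at this
    rw [inner_neg_right]
    exact this
  obtain ⟨T, hT1, hT2⟩ := hN (N + 2) (by omega) Z (centred hZz hZv hZs) (centred hZp hpv hps)
  have hle : bmDist Z (Metric.closedBall 0 1) ≤ 1 + 1 / 20 := by
    refine csInf_le ⟨1, fun c hc => hc.1⟩ ⟨by norm_num, T, hT1, ?_⟩
    intro x hx
    have h3 := hT2 hx
    rw [Set.mem_smul_set_iff_inv_smul_mem₀ (by norm_num), mem_closedBall_zero_iff, norm_smul]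
    rw [mem_closedBall_zero_iff] at h3
    rw [Real.norm_of_nonneg (by norm_num)]
    linarith
  have h4 := hfar.trans hle
  have h5 : √(2:ℝ) ^ 2 = 2 := Real.sq_sqrt (by norm_num)
  have h6 : (0:ℝ) < √2 := by positivity
  rw [div_le_iff₀ (by positivity)] at h4
  nlinarith

end Pool.Agent.S12880
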