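import Pool.Statements.S12948
import Pool.Agent.Results.MP_2c1b2b_gt.LinearSegments

set_option autoImplicit false
open Pointwise
open Pool Pool.MP_2c1b2b_gt

namespace Pool.Agent.S12948

theorem mem_seg {n : ℕ} {v y : EuclideanSpace ℝ (Fin n)} :
    y ∈ segment ℝ (-v) v ↔ ∃ t : ℝ, t ∈ Set.Icc (-1 : ℝ) 1 ∧ y = t • v := by
  constructor
  · rintro ⟨a, b, ha, hb, hab, rfl⟩
    refine ⟨b - a, ⟨by linarith, by linarith⟩, ?_⟩
    rw [smul_neg, sub_smul]; abel
  · rintro ⟨t, ⟨h1, h2⟩, rfl⟩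
    refine ⟨(1 - t) / 2, (1 + t) / 2, by linarith, by linarith, by ring, ?_⟩
    rw [smul_neg, ← neg_smul, ← add_smul]
    congr 1; ring

open Pool.Agent.Results.MP_2c1b2b_gt.LinearSegments in
theorem sum_seg {n m : ℕ} (v : Fin m → EuclideanSpace ℝ (Fin n)) :
    (∑ i, segment ℝ (-v i) (v i)) = segSum v := by
  ext x
  rw [Set.mem_fintype_sum]
  constructor
  · rintro ⟨g, hg, rfl⟩
    choose t ht1 ht2 using fun i => mem_seg.mp (hg i)
    exact ⟨t, ht1, Finset.sum_congr rfl fun i _ => ht2 i⟩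
  · rintro ⟨t, ht, rfl⟩
    exact ⟨fun i => t i • v i, fun i => mem_seg.mpr ⟨t i, ht i, rfl⟩, rfl⟩

open Pool.Agent.Results.MP_2c1b2b_gt.LinearSegments in
theorem segSum_compact {n m : ℕ} (v : Fin m → EuclideanSpace ℝ (Fin n)) :
    IsCompact (segSum v) := by
  have hZ : segSum v = (fun t : Fin m → ℝ => ∑ i, t i • v i) ''
      (Set.univ.pi fun _ => Set.Icc (-1) 1) := by
    ext x
    constructor
    · rintro ⟨t, ht, rfl⟩
      exact ⟨t, fun i _ => ht i, rfl⟩
    · rintro ⟨t, ht, rfl⟩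
      exact ⟨t, fun i => ht i (Set.mem_univ i), rfl⟩
  rw [hZ]
  exact (isCompact_univ_pi fun _ => isCompact_Icc).image (by fun_prop)

open Pool.Agent.Results.MP_2c1b2b_gt.LinearSegments in
theorem segSum_convex {n m : ℕ} (v : Fin m → EuclideanSpace ℝ (Fin n)) :
    Convex ℝ (segSum v) := by
  rintro x ⟨s, hs, rfl⟩ y ⟨t, ht, rfl⟩ a b ha hb hab
  refine ⟨fun i => a * s i + b * t i, fun i => ?_, ?_⟩
  · have h1 := hs i
    have h2 := ht i
    exact (convex_Icc (-1 : ℝ) 1) h1 h2 ha hb hab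
  · simp only [Finset.smul_sum, add_smul, Finset.sum_add_distrib, smul_smul]

open Pool.Agent.Results.MP_2c1b2b_gt.LinearSegments in
theorem segSum_symm {n m : ℕ} (v : Fin m → EuclideanSpace ℝ (Fin n)) :
    ∀ x ∈ segSum v, -x ∈ segSum v := by
  rintro x ⟨s, hs, rfl⟩
  refine ⟨fun i => - s i, fun i => ?_, by simp⟩
  obtain ⟨h1, h2⟩ := hs i
  exact ⟨by linarith, by linarith⟩

open Pool.Agent.Results.MP_2c1b2b_gt.LinearSegments in
/-- The negation of the preceding statement: For some ε>0 and every constant C, there is a dimension n and a zonoid K in ℝⁿ that is not within Banach–Mazur distance 1+ε of any sum of at most C·n segments, i.e. the bound C(ε)·n fails in general. -/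
theorem result :
    ¬ (∃ ε : ℝ, 0 < ε ∧ ∀ C : ℝ, ∃ n : ℕ, ∃ K : Set (EuclideanSpace ℝ (Fin n)),
      IsCompact K ∧ (interior K).Nonempty ∧
      (∀ δ : ℝ, 0 < δ → ∃ m : ℕ, ∃ v : Fin m → EuclideanSpace ℝ (Fin n),
          Metric.hausdorffDist K (∑ i, segment ℝ (-v i) (v i)) < δ) ∧
      ¬ ∃ m : ℕ, (m : ℝ) ≤ C * n ∧
          ∃ v : Fin m → EuclideanSpace ℝ (Fin n),
          ∃ T : EuclideanSpace ℝ (Fin n) ≃ₗ[ℝ] EuclideanSpace ℝ (Fin n),
            T '' K ⊆ ∑ i, segment ℝ (-v i) (v i) ∧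
            ∑ i, segment ℝ (-v i) (v i) ⊆ (1 + ε) • (T '' K)) := by
  rintro ⟨ε, hε, h⟩
  obtain ⟨C0, hC0, hres⟩ := Pool.Agent.Results.MP_2c1b2b_gt.LinearSegments.result
  set e : ℝ := min ε (1 / 2) with he
  have he0 : 0 < e := lt_min hε (by norm_num)
  have he1 : e < 1 := lt_of_le_of_lt (min_le_right _ _) (by norm_num)
  have heε : e ≤ ε := min_le_left _ _
  obtain ⟨n, K, hK, hKi, hlim, hno⟩ := h (C0 / e ^ 2)
  have hKne : K.Nonempty := hKi.mono interior_subset
  -- the approximation property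
  have happ : ∀ δ : ℝ, 0 < δ → ∃ m : ℕ, ∃ v : Fin m → EuclideanSpace ℝ (Fin n),
      Metric.hausdorffDist K (segSum v) < δ ∧ (∀ x ∈ K, ∃ p ∈ segSum v, dist x p < δ) ∧
      (∀ p ∈ segSum v, ∃ x ∈ K, dist x p < δ) := by
    intro δ hδ
    obtain ⟨m, v, hv⟩ := hlim δ hδ
    rw [sum_seg] at hv
    have hfin : Metric.hausdorffEDist K (segSum v) ≠ ⊤ :=
      Metric.hausdorffEDist_ne_top_of_nonempty_of_bounded hKne
        ⟨0, fun _ => 0, fun i => by simp, by simp⟩ hK.isBounded (segSum_compact v).isBounded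
    refine ⟨m, v, hv, fun x hx => ?_, fun p hp => ?_⟩
    · exact Metric.exists_dist_lt_of_hausdorffDist_lt hx hv hfin
    · obtain ⟨x, hx, hxp⟩ := Metric.exists_dist_lt_of_hausdorffDist_lt' hp hv hfin
      exact ⟨x, hx, hxp⟩
  have hKv : Convex ℝ K := by
    intro x hx y hy a b ha hb hab
    have hcl : a • x + b • y ∈ closure K := by
      rw [Metric.mem_closure_iff]
      intro δ hδ
      obtain ⟨m, v, -, h1, h2⟩ := happ (δ / 2) (by positivity)
      obtain ⟨p, hp, hxp⟩ := h1 x hx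
      obtain ⟨q, hq, hyq⟩ := h1 y hy
      obtain ⟨z, hz, hzp⟩ := h2 _ (segSum_convex v hp hq ha hb hab)
      refine ⟨z, hz, ?_⟩
      rw [dist_eq_norm] at hxp hyq hzp ⊢
      have e1 : a • x + b • y - z = (a • (x - p) + b • (y - q)) - (z - (a • p + b • q)) := by
        module
      have e2 : ‖a • (x - p) + b • (y - q)‖ ≤ δ / 2 := by
        refine (norm_add_le _ _).trans ?_
        rw [norm_smul, norm_smul, Real.norm_of_nonneg ha, Real.norm_of_nonneg hb]
        have h3 := mul_le_mul_of_nonneg_left hxp.le ha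
        have h4 := mul_le_mul_of_nonneg_left hyq.le hb
        calc a * ‖x - p‖ + b * ‖y - q‖ ≤ a * (δ / 2) + b * (δ / 2) := add_le_add h3 h4
          _ = δ / 2 := by rw [← add_mul, hab, one_mul]
      rw [e1]
      refine lt_of_le_of_lt (norm_sub_le _ _) ?_
      linarith
    rwa [hK.isClosed.closure_eq] at hcl
  have hKs : ∀ x ∈ K, -x ∈ K := by
    intro x hx
    have hcl : -x ∈ closure K := by
      rw [Metric.mem_closure_iff]
      intro δ hδ
      obtain ⟨m, v, -, h1, h2⟩ := happ (δ / 2) (by positivity)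
      obtain ⟨p, hp, hxp⟩ := h1 x hx
      obtain ⟨z, hz, hzp⟩ := h2 _ (segSum_symm v p hp)
      refine ⟨z, hz, ?_⟩
      rw [dist_eq_norm] at hxp hzp ⊢
      have e1 : -x - z = -(x - p) - (z - -p) := by module
      rw [e1]
      refine lt_of_le_of_lt (norm_sub_le _ _) ?_
      rw [norm_neg]
      linarith
    rwa [hK.isClosed.closure_eq] at hcl
  have hKz : IsZonoid K := by
    refine ⟨hKv, hK, hKi, hKs, fun δ hδ => ?_⟩
    obtain ⟨m, v, hv, -, -⟩ := happ δ hδ
    refine ⟨m, segSum v, ⟨0, v, ?_⟩, hv⟩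
    ext x; simp
  obtain ⟨-, M, v, hM, h1, h2⟩ := hres n K hKz e he0 he1
  apply hno
  have hpos : (0 : ℝ) < 1 + e := by linarith
  have hscale : segSum (fun i => (1 + e) • v i) = (1 + e) • segSum v := by
    ext x
    constructor
    · rintro ⟨t, ht, rfl⟩
      refine ⟨∑ i, t i • v i, ⟨t, ht, rfl⟩, ?_⟩
      simp only [Finset.smul_sum]
      exact Finset.sum_congr rfl fun i _ => smul_comm _ _ _
    · rintro ⟨y, ⟨t, ht, rfl⟩, rfl⟩
      refine ⟨t, ht, ?_⟩
      simp only [Finset.smul_sum]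
      exact Finset.sum_congr rfl fun i _ => smul_comm _ _ _
  have hid : (LinearEquiv.refl ℝ (EuclideanSpace ℝ (Fin n))) '' K = K := by
    ext x; simp
  refine ⟨M, hM, fun i => (1 + e) • v i, LinearEquiv.refl ℝ _, ?_, ?_⟩
  · rw [hid, sum_seg, hscale]
    exact h2
  · rw [hid, sum_seg, hscale]
    rintro x ⟨y, hy, rfl⟩
    have hyK := h1 hy
    have h0K : (0 : EuclideanSpace ℝ (Fin n)) ∈ K := by
      obtain ⟨x, hx⟩ := hKne
      have := hKv hx (hKs x hx) (a := 1 / 2) (b := 1 / 2) (by norm_num) (by norm_num) (by norm_num)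
      simpa using this
    have hpos' : (0 : ℝ) < 1 + ε := by linarith
    refine ⟨((1 + e) / (1 + ε)) • y, ?_, ?_⟩
    · have := hKv hyK h0K (a := (1 + e) / (1 + ε)) (b := 1 - (1 + e) / (1 + ε)) (by positivity)
        (by rw [sub_nonneg, div_le_one hpos']; linarith) (by ring)
      simpa using this
    · show (1 + ε) • (((1 + e) / (1 + ε)) • y) = (1 + e) • y
      rw [smul_smul]
      congr 1
      field_simp

end Pool.Agent.S12948
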