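import Pool.Statements.S12964
import Pool.Agent.W564.Cox

set_option autoImplicit false
open Matrix
open Pool Pool.MP_2ee781_gt

namespace Pool.Agent.S12964

/-- The negation of the preceding statement: If a faithful det ±1 linear image of a Coxeter group is discrete, preserves a properly convex open cone, and has a finite-Hilbert-volume quotient, then each generator is a reflection and the group is the reflection group of a Coxeter polytope with facets indexed by the generators. -/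
theorem result :
    ¬ (∀ (n : ℕ), 1 ≤ n →
  ∀ (B W : Type) [Group W] (M : CoxeterMatrix B) (cs : CoxeterSystem M W)
    (ρ : W →* (Matrix (Fin (n+1)) (Fin (n+1)) ℝ)ˣ),
    Function.Injective ρ →
    (∀ w, (ρ w).val.det = 1 ∨ (ρ w).val.det = -1) →
  ∀ (C : Set (Fin (n+1) → ℝ)),
    IsOpen C → Convex ℝ C → C.Nonempty →
    (∀ x ∈ C, ∀ t : ℝ, 0 < t → t • x ∈ C) →
    (∀ x v : Fin (n+1) → ℝ, v ≠ 0 → ∃ t : ℝ, x + t • v ∉ closure C) →
    (∀ (w : W) (x : Fin (n+1) → ℝ), x ∈ C → (ρ w).val *ᵥ x ∈ C) →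
    (∃ ε : ℝ, 0 < ε ∧ ∀ w : W,
      (∀ i j, |(ρ w).val i j - (1 : Matrix (Fin (n+1)) (Fin (n+1)) ℝ) i j| < ε) → ρ w = 1) →
  ∀ (d : (Fin (n+1) → ℝ) → (Fin (n+1) → ℝ) → ℝ),
    (∀ x y, d x y = (1/2) * Real.log (sInf {t : ℝ | t • y - x ∈ closure C}
                                        * sInf {t : ℝ | t • x - y ∈ closure C})) →
  ∀ (diam : Set (Fin (n+1) → ℝ) → ENNReal),
    (∀ U, diam U = ⨆ x ∈ U, ⨆ y ∈ U, ENNReal.ofReal (d x y)) →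
  ∀ (H : Set (Fin (n+1) → ℝ) → ENNReal),
    (∀ F, H F = ⨆ (r : ℝ) (_ : 0 < r), ⨅ (U : ℕ → Set (Fin (n+1) → ℝ))
        (_ : F ⊆ ⋃ i, U i) (_ : ∀ i, U i ⊆ C ∧ diam (U i) ≤ ENNReal.ofReal r),
        ∑' i, diam (U i) ^ n) →
    (∃ F ⊆ C, (∀ x ∈ C, ∃ w : W, (ρ w).val *ᵥ x ∈ F) ∧ H F < ⊤) →
  (∀ b : B, ∃ α v : Fin (n+1) → ℝ, α ⬝ᵥ v = 2 ∧
      (ρ (cs.simple b)).val = 1 - Matrix.vecMulVec v α) ∧
  (Finite B ∧ ∃ α v : B → Fin (n+1) → ℝ,
     (∀ b, α b ⬝ᵥ v b = 2 ∧ (ρ (cs.simple b)).val = 1 - Matrix.vecMulVec (v b) (α b)) ∧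
     (∃ x : Fin (n+1) → ℝ, ∀ b, α b ⬝ᵥ x < 0) ∧
     (∀ b, ∃ x : Fin (n+1) → ℝ, α b ⬝ᵥ x = 0 ∧ ∀ c, c ≠ b → α c ⬝ᵥ x < 0) ∧
     (∀ w : W, ρ w ≠ 1 → ∀ x : Fin (n+1) → ℝ, (∀ b, α b ⬝ᵥ x < 0) →
        ¬ ∀ b, α b ⬝ᵥ ((ρ w).val *ᵥ x) < 0))) := by
  intro hall
  have h := hall 2 (by norm_num) (Fin 3) Pool.Agent.W564.Cox.M.Group Pool.Agent.W564.Cox.M
    Pool.Agent.W564.Cox.cs Pool.Agent.W564.Cox.rho Pool.Agent.W564.Cox.rho_injective
    (fun w => Or.inl (Pool.Agent.W564.Cox.rho_det w))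
    Pool.Agent.W564.Cox.C Pool.Agent.W564.Cox.isOpen_C Pool.Agent.W564.Cox.convex_C
    ⟨_, Pool.Agent.W564.Cox.one_mem⟩ (fun x hx t ht => Pool.Agent.W564.Cox.smul_mem hx ht)
    Pool.Agent.W564.Cox.no_line (fun w x hx => Pool.Agent.W564.Cox.rho_mem w hx)
    ?_ Pool.Agent.W564.Cox.d (fun x y => rfl) Pool.Agent.W564.Cox.diam (fun U => rfl)
    Pool.Agent.W564.Cox.H (fun F => rfl)
    ⟨Pool.Agent.W564.Cox.F, fun x hx => hx.1, fun x hx => Pool.Agent.W564.Cox.cover hx,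
      Pool.Agent.W564.Cox.H_F_lt⟩
  · obtain ⟨α, v, h1, h2⟩ := h.1 0
    have h3 := congrArg Matrix.det h2
    rw [Pool.Agent.W564.Cox.rho_det] at h3
    have h4 : (1 - Matrix.vecMulVec v α).det = 1 - α ⬝ᵥ v := by
      rw [Matrix.det_fin_three]
      simp [Matrix.vecMulVec_apply, dotProduct, Fin.sum_univ_three]
      ring
    rw [h4, h1] at h3
    norm_num at h3
  · refine ⟨1, one_pos, fun w hw => ?_⟩
    obtain ⟨g, hg⟩ := Pool.Agent.W564.Cox.rho_int w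
    ext i j
    have h1 := hw i j
    rw [hg] at h1 ⊢
    have h2 : (1 : Matrix (Fin (2+1)) (Fin (2+1)) ℝ) i j =
        (((1 : Matrix (Fin 3) (Fin 3) ℤ) i j : ℤ) : ℝ) := by
      fin_cases i <;> fin_cases j <;> simp
    rw [Units.val_one, h2]
    rw [h2] at h1
    simp only [Matrix.map_apply] at h1 ⊢
    have h3 : |g i j - (1 : Matrix (Fin 3) (Fin 3) ℤ) i j| < 1 := by exact_mod_cast h1
    have h4 := Int.abs_lt_one_iff.mp h3
    have h5 : g i j = (1 : Matrix (Fin 3) (Fin 3) ℤ) i j := by linarith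
    rw [h5]

end Pool.Agent.S12964
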