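import Pool.Statements.S12972
import Pool.Agent.Results.MP_2fc951_gt.NoUniversal

set_option autoImplicit false
open Pool Pool.MP_2fc951_gt

namespace Pool.Agent.S12972

open Pool.Agent.Results.MP_2fc951_gt.NoUniversal in
theorem bg_to {X : Type} [MetricSpace X]
    (h : ∀ r : ℝ, 0 < r → ∃ N : ℕ, ∀ x : X, ∀ s : Finset X,
        (↑s : Set X) ⊆ Metric.closedBall x r → s.card ≤ N) : BoundedGeometry X := by
  intro r hr
  obtain ⟨N, hN⟩ := h r hr
  refine ⟨N, fun x => ?_⟩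
  by_contra hcon
  push Not at hcon
  have h1 : ((N + 1 : ℕ) : ℕ∞) ≤ (Metric.closedBall x r).encard := by
    have := Order.add_one_le_of_lt hcon
    exact_mod_cast this
  obtain ⟨t, ht, hcard⟩ := Set.exists_subset_encard_eq h1
  have hfin : t.Finite := Set.finite_of_encard_eq_coe hcard
  have h2 := hN x hfin.toFinset (by simpa using ht)
  rw [hfin.encard_eq_coe_toFinset_card] at hcard
  have h3 : hfin.toFinset.card = N + 1 := by exact_mod_cast hcard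
  omega

open Pool.Agent.Results.MP_2fc951_gt.NoUniversal in
theorem bg_from {X : Type} [MetricSpace X] (h : BoundedGeometry X) :
    (∀ r : ℝ, 0 < r → ∃ N : ℕ, ∀ x : X, ∀ s : Finset X,
        (↑s : Set X) ⊆ Metric.closedBall x r → s.card ≤ N) := by
  intro r hr
  obtain ⟨N, hN⟩ := h r hr
  refine ⟨N, fun x s hs => ?_⟩
  have h1 : (s : Set X).encard ≤ N := (Set.encard_le_encard hs).trans (hN x)
  rw [Set.encard_coe_eq_coe_finsetCard] at h1
  exact_mod_cast h1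

open Pool.Agent.Results.MP_2fc951_gt.NoUniversal in
theorem ce_of {Y X : Type} [MetricSpace Y] [MetricSpace X] (f : Y → X) (ρm ρp : ℝ → ℝ)
    (hm : MonotoneOn ρm (Set.Ici 0)) (hp : MonotoneOn ρp (Set.Ici 0))
    (h0 : ∀ t : ℝ, 0 ≤ t → 0 ≤ ρm t ∧ 0 ≤ ρp t)
    (ht : Filter.Tendsto ρm Filter.atTop Filter.atTop)
    (hf : ∀ y y' : Y, ρm (dist y y') ≤ dist (f y) (f y') ∧
          dist (f y) (f y') ≤ ρp (dist y y')) : CoarseEmbedding f := by
  refine ⟨fun t => ⟨ρm t, (h0 t t.2).1⟩, fun t => ⟨ρp t, (h0 t t.2).2⟩, ?_, ?_, ?_, ?_⟩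
  · intro a b hab
    exact hm a.2 b.2 hab
  · intro a b hab
    exact hp a.2 b.2 hab
  · rw [Filter.tendsto_atTop_atTop] at ht ⊢
    intro b
    obtain ⟨i, hi⟩ := ht b
    refine ⟨⟨max i 0, le_max_right _ _⟩, fun a ha => ?_⟩
    have h1 : i ≤ (a : ℝ) := (le_max_left i 0).trans ha
    exact hi _ h1
  · intro y y'
    exact hf y y'

/-- The negation: no bounded geometry space is coarsely universal. -/
theorem result :
    ¬ (∃ (X : Type) (_ : MetricSpace X),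
    (∀ r : ℝ, 0 < r → ∃ N : ℕ, ∀ x : X, ∀ s : Finset X,
        (↑s : Set X) ⊆ Metric.closedBall x r → s.card ≤ N) ∧
    ∀ (Y : Type) [MetricSpace Y],
      (∀ r : ℝ, 0 < r → ∃ N : ℕ, ∀ y : Y, ∀ s : Finset Y,
          (↑s : Set Y) ⊆ Metric.closedBall y r → s.card ≤ N) →
      ∃ f : Y → X, ∃ ρm ρp : ℝ → ℝ,
        MonotoneOn ρm (Set.Ici 0) ∧ MonotoneOn ρp (Set.Ici 0) ∧
        (∀ t : ℝ, 0 ≤ t → 0 ≤ ρm t ∧ 0 ≤ ρp t) ∧
        Filter.Tendsto ρm Filter.atTop Filter.atTop ∧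
        ∀ y y' : Y, ρm (dist y y') ≤ dist (f y) (f y') ∧
          dist (f y) (f y') ≤ ρp (dist y y')) := by
  rintro ⟨X, hX, hbg, huniv⟩
  obtain ⟨Y, hY, hYbg, _, hno⟩ :=
    Pool.Agent.Results.MP_2fc951_gt.NoUniversal.result X (bg_to hbg)
  obtain ⟨f, ρm, ρp, h1, h2, h3, h4, h5⟩ := huniv Y (bg_from hYbg)
  exact hno ⟨f, ce_of f ρm ρp h1 h2 h3 h4 h5⟩

end Pool.Agent.S12972
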