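import Pool.Statements.S13015
import Pool.Agent.Helper332.Boolean3

set_option autoImplicit false
open TopologicalSpace
open Pool Pool.MP_36bcbe_gt

namespace Pool.Agent.S13015

/-- There exist Hausdorff pseudocompact abelian topological groups G and H, each of whose closed subgroups is separable, such that G×H has a closed σ-compact subgroup that is not separable. -/
theorem result :
    ∃ (G H : Type) (_ : TopologicalSpace G) (_ : CommGroup G) (_ : IsTopologicalGroup G)
      (_ : T2Space G) (_ : TopologicalSpace H) (_ : CommGroup H) (_ : IsTopologicalGroup H)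
      (_ : T2Space H),
      (∀ f : G → ℝ, Continuous f → ∃ C : ℝ, ∀ x, |f x| ≤ C) ∧
      (∀ f : H → ℝ, Continuous f → ∃ C : ℝ, ∀ x, |f x| ≤ C) ∧
      (∀ S : Subgroup G, IsClosed (S : Set G) → SeparableSpace ↥S) ∧
      (∀ S : Subgroup H, IsClosed (S : Set H) → SeparableSpace ↥S) ∧
      ∃ S : Subgroup (G × H), IsClosed (S : Set (G × H)) ∧
        IsSigmaCompact (S : Set (G × H)) ∧ ¬ SeparableSpace ↥S := by
  obtain ⟨G, iG, tG, H, iH, tH, ⟨gG, hG2, hGp, hGs⟩, ⟨gH, hH2, hHp, hHs⟩, L, hL1, hL2, hL3⟩ :=
    Pool.Agent.Helper332.Boolean.statement_A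
  refine ⟨Multiplicative G, Multiplicative H, (inferInstance : TopologicalSpace (Multiplicative G)),
    (inferInstance : CommGroup (Multiplicative G)),
    (inferInstance : IsTopologicalGroup (Multiplicative G)), (hG2 : T2Space G),
    (inferInstance : TopologicalSpace (Multiplicative H)),
    (inferInstance : CommGroup (Multiplicative H)),
    (inferInstance : IsTopologicalGroup (Multiplicative H)), (hH2 : T2Space H), hGp, hHp, ?_, ?_, ?_⟩
  · intro S hS
    exact hGs
      { carrier := {x : G | Multiplicative.ofAdd x ∈ S}
        add_mem' := fun {a b} ha hb => S.mul_mem ha hb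
        zero_mem' := S.one_mem
        neg_mem' := fun {a} ha => S.inv_mem ha } hS
  · intro S hS
    exact hHs
      { carrier := {x : H | Multiplicative.ofAdd x ∈ S}
        add_mem' := fun {a b} ha hb => S.mul_mem ha hb
        zero_mem' := S.one_mem
        neg_mem' := fun {a} ha => S.inv_mem ha } hS
  · refine ⟨
      { carrier := {p : Multiplicative G × Multiplicative H |
          (Multiplicative.toAdd p.1, Multiplicative.toAdd p.2) ∈ L}
        mul_mem' := fun {a b} ha hb => L.add_mem ha hb
        one_mem' := L.zero_mem
        inv_mem' := fun {a} ha => L.neg_mem ha }, hL1, hL2, hL3⟩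

end Pool.Agent.S13015
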