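import Pool.Statements.S13088
import Pool.Agent.Results.MP_42a2a8_gt.HausdorffCounterexample

set_option autoImplicit false
open Pool Pool.MP_42a2a8_gt

namespace Pool.Agent.S13088

/-- The negation of the preceding statement: In every T1 space without isolated points, every base contains two disjoint subfamilies: one is itself a base, the other is a π-base (nonempty members, and every nonempty open set contains one). -/
theorem result :
    ¬ (∀ (X : Type) [TopologicalSpace X] [T1Space X],
      (∀ x : X, ¬ IsOpen ({x} : Set X)) →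
      ∀ B : Set (Set X), TopologicalSpace.IsTopologicalBasis B →
        ∃ B0 B1 : Set (Set X),
          B0 ⊆ B ∧ B1 ⊆ B ∧ Disjoint B0 B1 ∧
          TopologicalSpace.IsTopologicalBasis B0 ∧
          (∀ V ∈ B1, V.Nonempty) ∧
          (∀ U : Set X, IsOpen U → U.Nonempty → ∃ V ∈ B1, V ⊆ U)) := by
  intro h
  obtain ⟨X, iX, i2, _, h1, B, hB, h2⟩ :=
    Pool.Agent.Results.MP_42a2a8_gt.HausdorffCounterexample.result
  obtain ⟨B0, B1, h3, h4, h5, h6, h7, h8⟩ := h X h1 B hB
  refine h2 B0 h3 h6 B1 ?_ ⟨fun U hU => ⟨hB.isOpen (h4 hU), h7 U hU⟩, h8⟩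
  intro U hU
  exact ⟨h4 hU, fun hU0 => Set.disjoint_left.1 h5 hU0 hU⟩

end Pool.Agent.S13088
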