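import Pool.Statements.S13092
import Pool.Agent.W580.HT
-- import your own Pool.Agent.* helpers here

set_option autoImplicit false
open LaurentPolynomial
open scoped Matrix
open Pool Pool.MP_436001_gt

namespace Pool.Agent.S13092

open Pool.Agent.W580.HT in
/-- The negation of the preceding statement: Suppose a nondegenerate Hermitian Laurent-polynomial form L has boundary linking form isometric to that of H2^g, L at t=1 equals Q plus 2g zeros, and L plus n H2's ≅ Q plus (g+n) H2's. Then L ≅ Q ⊕ H2^g. -/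
theorem result :
    ¬ (∀ (σ : LaurentPolynomial ℤ →+* LaurentPolynomial ℤ) (ε : LaurentPolynomial ℤ →+* ℤ),
      σ (T 1) = T (-1) → ε (T 1) = 1 →
      ∀ (H2 : Matrix (Fin 2) (Fin 2) (LaurentPolynomial ℤ)),
        H2 = !![0, T 1 - 1; T (-1) - 1, 0] →
      ∀ (k : ℕ) (Q : Matrix (Fin k) (Fin k) ℤ), Qᵀ = Q → IsUnit Q.det →
      ∀ (g r : ℕ) (L : Matrix (Fin r) (Fin r) (LaurentPolynomial ℤ)),
        (L.map σ)ᵀ = L → L.det ≠ 0 →
        (∃ (P Q1 : Matrix (Fin 2 × Fin g) (Fin r) (LaurentPolynomial ℤ))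
            (P' Q2 : Matrix (Fin r) (Fin 2 × Fin g) (LaurentPolynomial ℤ))
            (S1 M : Matrix (Fin r) (Fin r) (LaurentPolynomial ℤ))
            (S2 : Matrix (Fin 2 × Fin g) (Fin 2 × Fin g) (LaurentPolynomial ℤ)),
            P * L = Matrix.blockDiagonal (fun _ : Fin g => H2) * Q1 ∧
            P' * Matrix.blockDiagonal (fun _ : Fin g => H2) = L * Q2 ∧
            P' * P = 1 + L * S1 ∧
            P * P' = 1 + Matrix.blockDiagonal (fun _ : Fin g => H2) * S2 ∧
            (L.map (algebraMap (LaurentPolynomial ℤ) (FractionRing (LaurentPolynomial ℤ))))⁻¹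
              - ((P.map σ)ᵀ).map (algebraMap (LaurentPolynomial ℤ) (FractionRing (LaurentPolynomial ℤ)))
                * ((Matrix.blockDiagonal (fun _ : Fin g => H2)).map
                    (algebraMap (LaurentPolynomial ℤ) (FractionRing (LaurentPolynomial ℤ))))⁻¹
                * P.map (algebraMap (LaurentPolynomial ℤ) (FractionRing (LaurentPolynomial ℤ)))
              = M.map (algebraMap (LaurentPolynomial ℤ) (FractionRing (LaurentPolynomial ℤ)))) →
        (∃ (P : Matrix (Fin r) (Fin k ⊕ Fin 2 × Fin g) ℤ)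
            (P' : Matrix (Fin k ⊕ Fin 2 × Fin g) (Fin r) ℤ),
            P * P' = 1 ∧ P' * P = 1 ∧
            Pᵀ * L.map ε * P = Matrix.fromBlocks Q 0 0 0) →
        (∃ (n : ℕ) (P : Matrix (Fin r ⊕ Fin 2 × Fin n) (Fin k ⊕ Fin 2 × Fin (g + n)) (LaurentPolynomial ℤ))
            (P' : Matrix (Fin k ⊕ Fin 2 × Fin (g + n)) (Fin r ⊕ Fin 2 × Fin n) (LaurentPolynomial ℤ)),
            P * P' = 1 ∧ P' * P = 1 ∧
            (P.map σ)ᵀ * Matrix.fromBlocks L 0 0 (Matrix.blockDiagonal (fun _ : Fin n => H2)) * P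
              = Matrix.fromBlocks (Q.map (Int.castRingHom (LaurentPolynomial ℤ))) 0 0
                  (Matrix.blockDiagonal (fun _ : Fin (g + n) => H2))) →
        ∃ (P : Matrix (Fin r) (Fin k ⊕ Fin 2 × Fin g) (LaurentPolynomial ℤ))
          (P' : Matrix (Fin k ⊕ Fin 2 × Fin g) (Fin r) (LaurentPolynomial ℤ)),
          P * P' = 1 ∧ P' * P = 1 ∧
          (P.map σ)ᵀ * L * P
            = Matrix.fromBlocks (Q.map (Int.castRingHom (LaurentPolynomial ℤ))) 0 0
                (Matrix.blockDiagonal (fun _ : Fin g => H2))) := by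
  intro H
  have hts := Pool.Agent.W580.HT.ts
  let σ : LaurentPolynomial ℤ →+* LaurentPolynomial ℤ :=
    (invert (R := ℤ)).toAlgHom.toRingHom
  have hσ : ∀ p, σ p = invert p := fun p => rfl
  let ε : LaurentPolynomial ℤ →+* ℤ := eval₂ (RingHom.id ℤ) 1
  have hε1 : ε (T 1) = 1 := by
    simp [ε, eval₂_T]
  have hεm : ε (T (-1)) = 1 := by
    simp [ε, eval₂_T]
  have hσt : σ (T 1) = T (-1) := by rw [hσ, invert_T]
  have hσs : σ (T (-1)) = T 1 := by rw [hσ, invert_T, neg_neg]
  have hinv := L4_inv (T 1 : LaurentPolynomial ℤ) (T (-1)) hts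
  have hdet : (L4 (T 1) (T (-1)) : Matrix (Fin 4) (Fin 4) (LaurentPolynomial ℤ)).det ≠ 0 := by
    intro h0
    have := congrArg Matrix.det hinv
    rw [Matrix.det_mul, h0, zero_mul, Matrix.det_one] at this
    exact zero_ne_one this
  have hsym : (((L4 (T 1) (T (-1)) : Matrix (Fin 4) (Fin 4) (LaurentPolynomial ℤ))).map σ)ᵀ
      = L4 (T 1) (T (-1)) := by
    rw [L4_map, hσt, hσs, L4_transpose]
  have hLε : ((L4 (T 1) (T (-1)) : Matrix (Fin 4) (Fin 4) (LaurentPolynomial ℤ))).map ε = 1 := by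
    rw [L4_map, hε1, hεm, L4_one]
  have key := H σ ε hσt hε1 _ rfl 4 1 Matrix.transpose_one (by simp) 0 4
    (L4 (T 1) (T (-1))) hsym hdet
  clear H
  obtain ⟨P, P', hPP', hP'P, hP⟩ := key
    ⟨0, 0, 0, 0, - L4i (T 1) (T (-1)), L4i (T 1) (T (-1)), 0,
      by refine Matrix.ext fun i => ?_; exact i.2.elim0,
      by refine Matrix.ext fun i j => ?_; exact j.2.elim0,
      by rw [Matrix.mul_neg, hinv]; simp,
      by refine Matrix.ext fun i => ?_; exact i.2.elim0,
      by
        have hm : ((L4 (T 1) (T (-1)) : Matrix (Fin 4) (Fin 4) (LaurentPolynomial ℤ))).map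
              (algebraMap (LaurentPolynomial ℤ) (FractionRing (LaurentPolynomial ℤ)))
            * ((L4i (T 1) (T (-1)) : Matrix (Fin 4) (Fin 4) (LaurentPolynomial ℤ))).map
              (algebraMap (LaurentPolynomial ℤ) (FractionRing (LaurentPolynomial ℤ))) = 1 := by
          rw [← Matrix.map_mul, hinv, Matrix.map_one _ (map_zero _) (map_one _)]
        rw [Matrix.inv_eq_right_inv hm]
        have : ((0 : Matrix (Fin 2 × Fin 0) (Fin 4) (LaurentPolynomial ℤ)).map
          (algebraMap (LaurentPolynomial ℤ) (FractionRing (LaurentPolynomial ℤ)))) = 0 := by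
          refine Matrix.ext fun i => ?_; exact i.2.elim0
        rw [this, Matrix.mul_zero, sub_zero]⟩
    ⟨Matrix.fromCols 1 0, Matrix.fromRows 1 0,
      by simp [Matrix.fromCols_mul_fromRows],
      by
        refine Matrix.ext fun i j => ?_
        rcases i with i | ⟨_, i⟩
        · rcases j with j | ⟨_, j⟩
          · simp [Matrix.one_apply]
          · exact j.elim0
        · exact i.elim0,
      by
        rw [hLε]
        refine Matrix.ext fun i j => ?_
        rcases i with i | ⟨_, i⟩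
        · rcases j with j | ⟨_, j⟩
          · simp [Matrix.transpose_fromCols]
          · exact j.elim0
        · exact i.elim0⟩
    ⟨1, stably_iso σ hσt hσs⟩
  exact not_iso σ hσt hσs P _ hP

end Pool.Agent.S13092
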