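import Pool.Statements.S13150
import Pool.Agent.W633.ErdosB

set_option autoImplicit false
open Pool Pool.MP_4f0e62_gt

namespace Pool.Agent.S13150

open Set Filter Topology Pool.Agent.W633

/-- The one-dimensional Menger compactum, exactly as in the statement. -/
abbrev K0 : Set (Fin (2 * 1 + 1) → ℝ) :=
  {y : Fin (2 * 1 + 1) → ℝ |
            ∀ k : ℕ, ∃ a : Fin (2 * 1 + 1) → ℕ,
              (∀ i, a i < 3 ^ k ∧ (a i : ℝ) / 3 ^ k ≤ y i ∧ y i ≤ ((a i : ℝ) + 1) / 3 ^ k) ∧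
              ∀ j < k, (Finset.univ.filter (fun i => a i / 3 ^ j % 3 = 1)).card ≤ 1}

theorem K0_nonempty : (K0 : Set (Fin (2 * 1 + 1) → ℝ)).Nonempty := by
  refine ⟨0, fun k => ⟨0, fun i => ⟨by simp, by simp, ?_⟩, fun j _ => by simp⟩⟩
  simp only [Pi.zero_apply, Nat.cast_zero, zero_add]
  positivity

theorem K0_closed : IsClosed (K0 : Set (Fin (2 * 1 + 1) → ℝ)) := by
  have h : (K0 : Set (Fin (2 * 1 + 1) → ℝ)) = ⋂ k : ℕ, ⋃ a ∈ {a : Fin (2 * 1 + 1) → ℕ |
      (∀ i, a i < 3 ^ k) ∧ ∀ j < k, (Finset.univ.filter (fun i => a i / 3 ^ j % 3 = 1)).card ≤ 1},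
      {y : Fin (2 * 1 + 1) → ℝ | ∀ i, (a i : ℝ) / 3 ^ k ≤ y i ∧ y i ≤ ((a i : ℝ) + 1) / 3 ^ k} := by
    ext y
    simp only [mem_ofPred_eq, mem_iInter, mem_iUnion, exists_prop]
    refine forall_congr' fun k => exists_congr fun a => ?_
    constructor
    · rintro ⟨h1, h2⟩
      exact ⟨⟨fun i => (h1 i).1, h2⟩, fun i => (h1 i).2⟩
    · rintro ⟨⟨h1, h2⟩, h3⟩
      exact ⟨fun i => ⟨h1 i, h3 i⟩, h2⟩
  rw [h]
  refine isClosed_iInter fun k => Set.Finite.isClosed_biUnion ?_ fun a _ => ?_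
  · refine (Set.Finite.pi (t := fun _ : Fin (2 * 1 + 1) => Iio (3 ^ k)) fun _ => finite_Iio _).subset ?_
    rintro a ⟨ha, -⟩ i _
    exact ha i
  · have : {y : Fin (2 * 1 + 1) → ℝ | ∀ i, (a i : ℝ) / 3 ^ k ≤ y i ∧ y i ≤ ((a i : ℝ) + 1) / 3 ^ k} =
        Icc (fun i => (a i : ℝ) / 3 ^ k) (fun i => ((a i : ℝ) + 1) / 3 ^ k) := by
      ext y
      simp only [mem_ofPred_eq, mem_Icc, Pi.le_def]
      exact forall_and
    rw [this]
    exact isClosed_Icc

theorem K0_compact : IsCompact (K0 : Set (Fin (2 * 1 + 1) → ℝ)) := by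
  refine (isCompact_Icc (a := (0 : Fin (2 * 1 + 1) → ℝ)) (b := 1)).of_isClosed_subset K0_closed ?_
  intro y hy
  obtain ⟨a, ha, -⟩ := hy 0
  refine ⟨fun i => ?_, fun i => ?_⟩
  · have h := ha i
    have h0 : a i = 0 := by simpa using h.1
    simpa [h0] using h.2.1
  · have h := ha i
    have h0 : a i = 0 := by simpa using h.1
    simpa [h0] using h.2.2

/-- The negation of the preceding statement: For every n ≥ 1 and every nonempty separable metrizable space locally homeomorphic to open subsets of the n-dimensional Menger compactum, its homeomorphism group with the compact-open topology is homeomorphic to complete Erdős space. -/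
theorem result :
    ¬ (∀ (n : ℕ), 1 ≤ n →
    ∀ (M : Type) [TopologicalSpace M] [TopologicalSpace.MetrizableSpace M]
      [TopologicalSpace.SeparableSpace M] [Nonempty M],
      (∀ x : M, ∃ V : Set M, IsOpen V ∧ x ∈ V ∧
        ∃ U : Set {y : Fin (2 * n + 1) → ℝ |
            ∀ k : ℕ, ∃ a : Fin (2 * n + 1) → ℕ,
              (∀ i, a i < 3 ^ k ∧ (a i : ℝ) / 3 ^ k ≤ y i ∧ y i ≤ ((a i : ℝ) + 1) / 3 ^ k) ∧
              ∀ j < k, (Finset.univ.filter (fun i => a i / 3 ^ j % 3 = 1)).card ≤ n},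
          IsOpen U ∧ Nonempty (V ≃ₜ U)) →
      Nonempty (@Homeomorph (M ≃ₜ M)
        {x : lp (fun _ : ℕ => ℝ) 2 | ∀ i : ℕ, (x : ℕ → ℝ) i = 0 ∨
            ∃ k : ℕ, 0 < k ∧ (x : ℕ → ℝ) i = 1 / (k : ℝ)}
        (TopologicalSpace.induced (fun g : M ≃ₜ M => ContinuousMap.mk (⇑g) g.continuous)
          inferInstance)
        inferInstance)) := by
  intro hall
  have hK : Nonempty (K0 : Set (Fin (2 * 1 + 1) → ℝ)) := K0_nonempty.to_subtype
  have hKc : CompactSpace (K0 : Set (Fin (2 * 1 + 1) → ℝ)) := isCompact_iff_compactSpace.mp K0_compact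
  obtain ⟨e⟩ := hall 1 le_rfl (K0 : Set (Fin (2 * 1 + 1) → ℝ)) (fun x => ⟨univ, isOpen_univ, trivial,
    univ, isOpen_univ, ⟨Homeomorph.refl _⟩⟩)
  obtain ⟨f⟩ := hall 1 le_rfl (ℕ × (K0 : Set (Fin (2 * 1 + 1) → ℝ))) (by
    rintro ⟨i, m⟩
    refine ⟨Prod.fst ⁻¹' {i}, (isOpen_discrete {i}).preimage continuous_fst, rfl, univ, isOpen_univ,
      ⟨?_⟩⟩
    exact {
      toFun := fun p => ⟨p.1.2, trivial⟩
      invFun := fun q => ⟨(i, q.1), rfl⟩
      left_inv := by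
        rintro ⟨⟨i', q⟩, hp⟩
        have : i' = i := hp
        subst this
        rfl
      right_inv := by
        rintro ⟨q, -⟩
        rfl
      continuous_toFun := (continuous_snd.comp continuous_subtype_val).subtype_mk _
      continuous_invFun := (continuous_const.prodMk continuous_subtype_val).subtype_mk _ })
  let _ : TopologicalSpace ((K0 : Set (Fin (2 * 1 + 1) → ℝ)) ≃ₜ (K0 : Set (Fin (2 * 1 + 1) → ℝ))) :=
    autTop _
  let _ : TopologicalSpace ((ℕ × (K0 : Set (Fin (2 * 1 + 1) → ℝ))) ≃ₜ (ℕ × (K0 : Set (Fin (2 * 1 + 1) → ℝ)))) :=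
    autTop _
  have h1 := psi_closedEmbedding (K0 : Set (Fin (2 * 1 + 1) → ℝ))
  exact no_power _ (f.isClosedEmbedding.comp (h1.comp
    (Homeomorph.piCongrRight fun _ : ℕ => e.symm).isClosedEmbedding))

end Pool.Agent.S13150
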