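import Pool.Statements.S13155
import Pool.Agent.W643.FU.Fin

set_option autoImplicit false
open Pool Pool.MP_5008c3_gt

namespace Pool.Agent.S13155

/-- For every metrizable space X whose non-isolated points form a compact set, the subspace of the free topological group on X of elements of reduced length at most 4 is Fréchet–Urysohn. -/
theorem result :
    ∀ (X : Type) [τ : TopologicalSpace X] [TopologicalSpace.MetrizableSpace X],
      IsCompact {x : X | ¬ IsOpen ({x} : Set X)} →
      @FrechetUrysohnSpace
        {w : FreeGroup X // ∃ L : List (X × Bool), L.length ≤ 4 ∧ FreeGroup.mk L = w}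
        (TopologicalSpace.induced Subtype.val
          (sInf {t : GroupTopology (FreeGroup X) |
            @Continuous X (FreeGroup X) τ t.toTopologicalSpace FreeGroup.of}).toTopologicalSpace) := by
  intro X τ _ hK
  classical
  let _ : MetricSpace X := TopologicalSpace.metrizableSpaceMetric X
  let _ : TopologicalSpace (FreeGroup X) := Pool.Agent.W643.FU.FTop X
  show FrechetUrysohnSpace {w : FreeGroup X // ∃ L : List (X × Bool), L.length ≤ 4 ∧
    FreeGroup.mk L = w}
  refine ⟨fun s a ha => ?_⟩
  rw [closure_subtype] at ha
  have hiso : ∀ x, x ∉ {x : X | ¬ IsOpen ({x} : Set X)} → IsOpen ({x} : Set X) := by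
    intro x hx
    by_contra h
    exact hx h
  have key : ∃ u : ℕ → FreeGroup X, (∀ n, u n ∈ Subtype.val '' s) ∧
      Filter.Tendsto u Filter.atTop (nhds a.1) := by
    rcases isEmpty_or_nonempty X with hX | ⟨⟨x0⟩⟩
    · have hne : (Subtype.val '' s).Nonempty := by
        by_contra h
        rw [Set.not_nonempty_iff_eq_empty] at h
        rw [h, closure_empty] at ha
        exact ha
      obtain ⟨w, hw⟩ := hne
      have hsub : w = a.1 := Subsingleton.elim _ _
      exact ⟨fun _ => w, fun _ => hw, by rw [hsub]; exact tendsto_const_nhds⟩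
    · refine Pool.Agent.W643.FU.main (K := insert x0 {x : X | ¬ IsOpen ({x} : Set X)})
        (hK.insert x0) (fun x hx => hiso x fun h => hx (Set.mem_insert_of_mem _ h))
        (Set.mem_insert _ _) _ ?_ ha
      rintro _ ⟨w, _, rfl⟩
      exact w.2
  obtain ⟨u, hu, hlim⟩ := key
  choose v hv hvu using hu
  refine ⟨v, hv, ?_⟩
  rw [tendsto_subtype_rng]
  have : (fun n => (v n).1) = u := funext hvu
  rw [this]
  exact hlim

end Pool.Agent.S13155
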