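import Pool.Statements.S13207
import Pool.Agent.Results.MP_594704_gt.AllKinds

set_option autoImplicit false
open Pool Pool.MP_594704_gt

namespace Pool.Agent.S13207

open Set

/-- from the Klein ball to the Poincare ball -/
noncomputable def kp {n : ℕ} (v : EuclideanSpace ℝ (Fin n)) : EuclideanSpace ℝ (Fin n) :=
  (1 + Real.sqrt (1 - ‖v‖ ^ 2))⁻¹ • v

/-- from the Poincare ball to the Klein ball -/
noncomputable def pk {n : ℕ} (w : EuclideanSpace ℝ (Fin n)) : EuclideanSpace ℝ (Fin n) :=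
  (2 / (1 + ‖w‖ ^ 2)) • w

lemma norm_kp {n : ℕ} {v : EuclideanSpace ℝ (Fin n)} (hv : ‖v‖ < 1) :
    ‖kp v‖ ^ 2 = (1 - Real.sqrt (1 - ‖v‖ ^ 2)) / (1 + Real.sqrt (1 - ‖v‖ ^ 2)) := by
  have h0 : 0 ≤ ‖v‖ := norm_nonneg v
  have h1 : 0 < 1 - ‖v‖ ^ 2 := by nlinarith
  have hs : 0 < Real.sqrt (1 - ‖v‖ ^ 2) := Real.sqrt_pos.2 h1
  have hs2 : Real.sqrt (1 - ‖v‖ ^ 2) ^ 2 = 1 - ‖v‖ ^ 2 := Real.sq_sqrt h1.le
  set s := Real.sqrt (1 - ‖v‖ ^ 2) with hsdef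
  have : ‖kp v‖ = (1 + s)⁻¹ * ‖v‖ := by
    rw [kp, norm_smul, norm_inv, Real.norm_eq_abs, abs_of_pos (by linarith)]
  rw [this, mul_pow, inv_pow, show ‖v‖ ^ 2 = (1 - s) * (1 + s) by nlinarith]
  field_simp

lemma one_sub_kp {n : ℕ} {v : EuclideanSpace ℝ (Fin n)} (hv : ‖v‖ < 1) :
    1 - ‖kp v‖ ^ 2 = 2 * Real.sqrt (1 - ‖v‖ ^ 2) / (1 + Real.sqrt (1 - ‖v‖ ^ 2)) := by
  have h0 : 0 ≤ ‖v‖ := norm_nonneg v
  have h1 : 0 < 1 - ‖v‖ ^ 2 := by nlinarith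
  have hs : 0 < Real.sqrt (1 - ‖v‖ ^ 2) := Real.sqrt_pos.2 h1
  rw [norm_kp hv]
  field_simp
  ring

lemma kp_mem {n : ℕ} {v : EuclideanSpace ℝ (Fin n)} (hv : ‖v‖ < 1) : ‖kp v‖ < 1 := by
  have h0 : 0 ≤ ‖v‖ := norm_nonneg v
  have h1 : 0 < 1 - ‖v‖ ^ 2 := by nlinarith
  have hs : 0 < Real.sqrt (1 - ‖v‖ ^ 2) := Real.sqrt_pos.2 h1
  have h2 : 0 < 1 - ‖kp v‖ ^ 2 := by
    rw [one_sub_kp hv]
    positivity
  have h3 : 0 ≤ ‖kp v‖ := norm_nonneg _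
  nlinarith

lemma bij_kp {n : ℕ} : BijOn (kp (n := n)) (Metric.ball 0 1) (Metric.ball 0 1) := by
  have hL : LeftInvOn (pk (n := n)) kp (Metric.ball 0 1) := by
    intro v hv
    rw [mem_ball_zero_iff] at hv
    have h0 : 0 ≤ ‖v‖ := norm_nonneg v
    have h1 : 0 < 1 - ‖v‖ ^ 2 := by nlinarith
    have hs : 0 < Real.sqrt (1 - ‖v‖ ^ 2) := Real.sqrt_pos.2 h1
    rw [pk, norm_kp hv, kp, smul_smul]
    have : 2 / (1 + (1 - Real.sqrt (1 - ‖v‖ ^ 2)) / (1 + Real.sqrt (1 - ‖v‖ ^ 2))) *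
        (1 + Real.sqrt (1 - ‖v‖ ^ 2))⁻¹ = 1 := by
      field_simp
      ring
    rw [this, one_smul]
  have hnp : ∀ w : EuclideanSpace ℝ (Fin n), ‖w‖ < 1 →
      Real.sqrt (1 - ‖pk w‖ ^ 2) = (1 - ‖w‖ ^ 2) / (1 + ‖w‖ ^ 2) := by
    intro w hw
    have h0 : 0 ≤ ‖w‖ := norm_nonneg w
    have h1 : 0 < 1 - ‖w‖ ^ 2 := by nlinarith
    have h2 : 0 < 1 + ‖w‖ ^ 2 := by positivity
    have : ‖pk w‖ = 2 / (1 + ‖w‖ ^ 2) * ‖w‖ := by
      rw [pk, norm_smul, Real.norm_eq_abs, abs_of_pos (by positivity)]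
    rw [this]
    have e : 1 - (2 / (1 + ‖w‖ ^ 2) * ‖w‖) ^ 2 = ((1 - ‖w‖ ^ 2) / (1 + ‖w‖ ^ 2)) ^ 2 := by
      field_simp
      ring
    rw [e, Real.sqrt_sq (by positivity)]
  have hR : RightInvOn (pk (n := n)) kp (Metric.ball 0 1) := by
    intro w hw
    rw [mem_ball_zero_iff] at hw
    have h2 : 0 < 1 + ‖w‖ ^ 2 := by positivity
    rw [kp, hnp w hw, pk, smul_smul]
    have : (1 + (1 - ‖w‖ ^ 2) / (1 + ‖w‖ ^ 2))⁻¹ * (2 / (1 + ‖w‖ ^ 2)) = 1 := by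
      have : 1 + (1 - ‖w‖ ^ 2) / (1 + ‖w‖ ^ 2) = 2 / (1 + ‖w‖ ^ 2) := by
        field_simp
        ring
      rw [this]
      exact inv_mul_cancel₀ (by positivity)
    rw [this, one_smul]
  have hm1 : MapsTo (kp (n := n)) (Metric.ball 0 1) (Metric.ball 0 1) := by
    intro v hv
    rw [mem_ball_zero_iff] at hv ⊢
    exact kp_mem hv
  have hm2 : MapsTo (pk (n := n)) (Metric.ball 0 1) (Metric.ball 0 1) := by
    intro w hw
    rw [mem_ball_zero_iff] at hw ⊢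
    have h0 : 0 ≤ ‖w‖ := norm_nonneg w
    have h1 : 0 < 1 - ‖w‖ ^ 2 := by nlinarith
    have h2 : 0 < 1 + ‖w‖ ^ 2 := by positivity
    have : ‖pk w‖ = 2 / (1 + ‖w‖ ^ 2) * ‖w‖ := by
      rw [pk, norm_smul, Real.norm_eq_abs, abs_of_pos (by positivity)]
    rw [this, div_mul_eq_mul_div, div_lt_one h2]
    nlinarith [sq_nonneg (1 - ‖w‖)]
  exact InvOn.bijOn ⟨hL, hR⟩ hm1 hm2

lemma key {n : ℕ} {u v : EuclideanSpace ℝ (Fin n)} (hu : ‖u‖ < 1) (hv : ‖v‖ < 1) :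
    1 + 2 * ‖kp u - kp v‖ ^ 2 / ((1 - ‖kp u‖ ^ 2) * (1 - ‖kp v‖ ^ 2)) =
      (1 - inner ℝ u v) / Real.sqrt ((1 - ‖u‖ ^ 2) * (1 - ‖v‖ ^ 2)) := by
  have hu0 : 0 ≤ ‖u‖ := norm_nonneg u
  have hv0 : 0 ≤ ‖v‖ := norm_nonneg v
  have h1 : 0 < 1 - ‖u‖ ^ 2 := by nlinarith
  have h2 : 0 < 1 - ‖v‖ ^ 2 := by nlinarith
  have hs : 0 < Real.sqrt (1 - ‖u‖ ^ 2) := Real.sqrt_pos.2 h1
  have ht : 0 < Real.sqrt (1 - ‖v‖ ^ 2) := Real.sqrt_pos.2 h2
  have e : inner ℝ (kp u) (kp v) =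
      (1 + Real.sqrt (1 - ‖u‖ ^ 2))⁻¹ * ((1 + Real.sqrt (1 - ‖v‖ ^ 2))⁻¹ * inner ℝ u v) := by
    rw [kp, kp, real_inner_smul_left, real_inner_smul_right]
  have e1 := norm_sub_sq_real (kp u) (kp v)
  rw [e1, e, one_sub_kp hu, one_sub_kp hv, norm_kp hu, norm_kp hv, Real.sqrt_mul h1.le]
  field_simp
  ring

lemma arcosh_form {c δ A : ℝ} (hc : 0 < c) (hδ : 0 ≤ δ) (hA : Real.cosh (δ / c) = A) :
    δ = (1 / Real.sqrt (1 / c ^ 2)) * Real.log (A + Real.sqrt (A ^ 2 - 1)) := by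
  have h0 : 0 ≤ δ / c := by positivity
  have h1 : Real.sqrt (A ^ 2 - 1) = Real.sinh (δ / c) := by
    rw [← hA, show Real.cosh (δ / c) ^ 2 - 1 = Real.sinh (δ / c) ^ 2 by
      rw [Real.cosh_sq]; ring]
    exact Real.sqrt_sq (Real.sinh_nonneg_iff.2 h0)
  rw [h1, ← hA, Real.cosh_add_sinh, Real.log_exp]
  have : Real.sqrt (1 / c ^ 2) = 1 / c := by
    rw [show (1 : ℝ) / c ^ 2 = (1 / c) ^ 2 by field_simp]
    exact Real.sqrt_sq (by positivity)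
  rw [this]
  field_simp

/-- For n ≥ 2, every n-dimensional projective-metric space (open convex domain kind, or projective-space kind with circular lines) satisfying the Ptolemaic inequality is isometric to Euclidean n-space or to hyperbolic n-space of some curvature −k<0. -/
theorem result :
    ∀ n : ℕ, 2 ≤ n →
      (∀ (M : Set (EuclideanSpace ℝ (Fin n)))
          (d : EuclideanSpace ℝ (Fin n) → EuclideanSpace ℝ (Fin n) → ℝ),
        M.Nonempty → IsOpen M → Convex ℝ M →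
        (∀ x ∈ M, d x x = 0) →
        (∀ x ∈ M, ∀ y ∈ M, d x y = d y x) →
        (∀ x ∈ M, ∀ y ∈ M, d x y = 0 → x = y) →
        (∀ x ∈ M, ∀ y ∈ M, ∀ z ∈ M, d x z ≤ d x y + d y z) →
        (∀ x ∈ M, ∀ V : Set (EuclideanSpace ℝ (Fin n)),
          (V ∈ nhds x ↔ ∃ r : ℝ, 0 < r ∧ ∀ y ∈ M, d x y < r → y ∈ V)) →
        (∀ x ∈ M, ∀ y ∈ M, ∀ z ∈ M, (d x y + d y z = d x z ↔ y ∈ segment ℝ x z)) →
        (∀ p ∈ M, ∀ v : EuclideanSpace ℝ (Fin n), v ≠ 0 →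
          ∃ f : ℝ → EuclideanSpace ℝ (Fin n),
            (∀ s t : ℝ, d (f s) (f t) = |s - t|) ∧
            Set.range f = {x | x ∈ M ∧ ∃ t : ℝ, x = p + t • v}) →
        (∀ x ∈ M, ∀ y ∈ M, ∀ z ∈ M, ∀ w ∈ M,
          d x z * d y w ≤ d x y * d z w + d y z * d w x) →
        (∃ φ : EuclideanSpace ℝ (Fin n) → EuclideanSpace ℝ (Fin n),
            Set.BijOn φ M Set.univ ∧ ∀ x ∈ M, ∀ y ∈ M, dist (φ x) (φ y) = d x y) ∨
        (∃ k : ℝ, 0 < k ∧ ∃ φ : EuclideanSpace ℝ (Fin n) → EuclideanSpace ℝ (Fin n),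
            Set.BijOn φ M (Metric.ball 0 1) ∧ ∀ x ∈ M, ∀ y ∈ M,
              d x y = (1 / Real.sqrt k) * Real.log
                ((1 + 2 * ‖φ x - φ y‖ ^ 2 / ((1 - ‖φ x‖ ^ 2) * (1 - ‖φ y‖ ^ 2))) +
                  Real.sqrt ((1 + 2 * ‖φ x - φ y‖ ^ 2 /
                    ((1 - ‖φ x‖ ^ 2) * (1 - ‖φ y‖ ^ 2))) ^ 2 - 1)))) ∧
      (∀ d : Projectivization ℝ (Fin (n + 1) → ℝ) → Projectivization ℝ (Fin (n + 1) → ℝ) → ℝ,
        (∀ x, d x x = 0) →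
        (∀ x y, d x y = d y x) →
        (∀ x y, d x y = 0 → x = y) →
        (∀ x y z, d x z ≤ d x y + d y z) →
        (∃ L : ℝ, 0 < L ∧ ∀ W : Submodule ℝ (Fin (n + 1) → ℝ), Module.finrank ℝ W = 2 →
          ∃ f : AddCircle L → Projectivization ℝ (Fin (n + 1) → ℝ),
            (∀ a b : AddCircle L, d (f a) (f b) = dist a b) ∧
            Set.range f = {p | p.submodule ≤ W}) →
        (∀ x y z w, d x z * d y w ≤ d x y * d z w + d y z * d w x) →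
        (∃ φ : Projectivization ℝ (Fin (n + 1) → ℝ) → EuclideanSpace ℝ (Fin n),
            Function.Bijective φ ∧ ∀ x y, dist (φ x) (φ y) = d x y) ∨
        (∃ k : ℝ, 0 < k ∧ ∃ φ : Projectivization ℝ (Fin (n + 1) → ℝ) → EuclideanSpace ℝ (Fin n),
            Set.BijOn φ Set.univ (Metric.ball 0 1) ∧ ∀ x y,
              d x y = (1 / Real.sqrt k) * Real.log
                ((1 + 2 * ‖φ x - φ y‖ ^ 2 / ((1 - ‖φ x‖ ^ 2) * (1 - ‖φ y‖ ^ 2))) +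
                  Real.sqrt ((1 + 2 * ‖φ x - φ y‖ ^ 2 /
                    ((1 - ‖φ x‖ ^ 2) * (1 - ‖φ y‖ ^ 2))) ^ 2 - 1)))) := by
  intro n hn
  refine ⟨?_, ?_⟩
  · intro M d hne hop hcv h0 hs he ht htop hseg hline hpt
    have hA : Pool.Agent.Results.MP_594704_gt.AllKinds.IsAffineKind M d := by
      refine ⟨hne, hop, hcv, ⟨?_, hs, ht⟩, ?_, hseg, ?_⟩
      · intro x hx y hy
        refine ⟨he x hx y hy, ?_⟩
        rintro rfl
        exact h0 x hx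
      · intro x hx ε hε
        refine ⟨?_, ?_⟩
        · have h1 : {y | y ∈ M → d x y < ε} ∈ nhds x :=
            (htop x hx _).2 ⟨ε, hε, fun y _ hy _ => hy⟩
          obtain ⟨δ, hδ, hsub⟩ := Metric.mem_nhds_iff.1 h1
          refine ⟨δ, hδ, fun y hy hxy => ?_⟩
          exact hsub (show y ∈ Metric.ball x δ by rw [Metric.mem_ball, dist_comm]; exact hxy) hy
        · obtain ⟨r, hr, hsub⟩ := (htop x hx (Metric.ball x ε)).1 (Metric.ball_mem_nhds x hε)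
          refine ⟨r, hr, fun y hy hxy => ?_⟩
          have := hsub y hy hxy
          rw [Metric.mem_ball, dist_comm] at this
          exact this
      · intro x hx v hv
        obtain ⟨f, hf, hr⟩ := hline x hx v hv
        have hmem : ∀ s, f s ∈ {y | y ∈ M ∧ ∃ s : ℝ, y = x + s • v} := by
          intro s
          rw [← hr]
          exact Set.mem_range_self s
        refine ⟨f, ⟨fun s _ => hmem s, ?_, ?_⟩, hf⟩
        · intro s _ t _ hst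
          have h1 := hf s t
          rw [hst, h0 _ (hmem t).1] at h1
          exact sub_eq_zero.1 (abs_eq_zero.1 h1.symm)
        · intro y hy
          rw [← hr] at hy
          obtain ⟨s, hs⟩ := hy
          exact ⟨s, Set.mem_univ s, hs⟩
    rcases (Pool.Agent.Results.MP_594704_gt.AllKinds.result n hn).1 M d hA hpt with h | h
    · left
      obtain ⟨f, hf, hd⟩ := h
      exact ⟨f, hf, fun x hx y hy => (hd x hx y hy).symm⟩
    · right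
      obtain ⟨c, hc, f, hf, hd⟩ := h
      refine ⟨1 / c ^ 2, by positivity, fun x => kp (f x), bij_kp.comp hf, ?_⟩
      intro x hx y hy
      have hux : ‖f x‖ < 1 := by
        have := hf.mapsTo hx
        rwa [mem_ball_zero_iff] at this
      have huy : ‖f y‖ < 1 := by
        have := hf.mapsTo hy
        rwa [mem_ball_zero_iff] at this
      apply arcosh_form hc (Pool.Agent.Results.MP_594704_gt.AllKinds.nonneg_of hA hx hy)
      rw [hd x hx y hy, key hux huy]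
  · intro d h0 hs he ht hl hp
    exfalso
    obtain ⟨ℓ, hℓ, hl⟩ := hl
    obtain ⟨W, hW⟩ : ∃ W : Submodule ℝ (Fin (n + 1) → ℝ), Module.finrank ℝ W = 2 := by
      have hle : 2 ≤ n + 1 := by omega
      let b := Pi.basisFun ℝ (Fin (n + 1))
      have hli : LinearIndependent ℝ (fun i : Fin 2 => b (Fin.castLE hle i)) :=
        b.linearIndependent.comp _ (Fin.castLE_injective hle)
      exact ⟨Submodule.span ℝ (range fun i : Fin 2 => b (Fin.castLE hle i)), by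
        rw [finrank_span_eq_card hli, Fintype.card_fin]⟩
    obtain ⟨f, hf, -⟩ := hl W hW
    have h1 := hp (f ((0 : ℝ) : AddCircle ℓ)) (f ((ℓ / 4 : ℝ) : AddCircle ℓ))
      (f ((ℓ / 2 : ℝ) : AddCircle ℓ)) (f ((3 * ℓ / 4 : ℝ) : AddCircle ℓ))
    simp only [hf, dist_eq_norm, ← AddCircle.coe_sub] at h1
    have hn1 : ∀ x : ℝ, |x| ≤ ℓ / 2 → ‖(x : AddCircle ℓ)‖ = |x| := by
      intro x hx
      exact (AddCircle.norm_coe_eq_abs_iff ℓ hℓ.ne').2 (by rwa [abs_of_pos hℓ])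
    rw [show (0 : ℝ) - ℓ / 2 = -(ℓ / 2) by ring, show ℓ / 4 - 3 * ℓ / 4 = -(ℓ / 2) by ring,
      show (0 : ℝ) - ℓ / 4 = -(ℓ / 4) by ring, show ℓ / 4 - ℓ / 2 = -(ℓ / 4) by ring,
      show ℓ / 2 - 3 * ℓ / 4 = -(ℓ / 4) by ring] at h1
    have e2 : ‖((-(ℓ / 2) : ℝ) : AddCircle ℓ)‖ = ℓ / 2 := by
      rw [hn1 _ (by rw [abs_neg, abs_of_pos (by linarith)]), abs_neg, abs_of_pos (by linarith)]
    have e4 : ‖((-(ℓ / 4) : ℝ) : AddCircle ℓ)‖ = ℓ / 4 := by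
      rw [hn1 _ (by rw [abs_neg, abs_of_pos (by linarith)]; linarith), abs_neg,
        abs_of_pos (by linarith)]
    have e3 : ‖((3 * ℓ / 4 - 0 : ℝ) : AddCircle ℓ)‖ = ℓ / 4 := by
      have : ((3 * ℓ / 4 - 0 : ℝ) : AddCircle ℓ) = ((-(ℓ / 4) : ℝ) : AddCircle ℓ) := by
        rw [← AddCircle.coe_add_period ℓ (-(ℓ / 4))]
        congr 1
        ring
      rw [this, e4]
    rw [e2, e4, e3] at h1
    nlinarith

end Pool.Agent.S13207
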