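import Pool.Statements.S13210
import Pool.Agent.W563.Box

set_option autoImplicit false
open MeasureTheory
open scoped Pointwise
open Pool Pool.MP_598757_gt

namespace Pool.Agent.S13210

/-- The negation of the preceding statement: For every convex body K in 3-space and real c: if every orthogonal plane projection has isoperimetric ratio π·area/V₁² at least c, then 9π·vol(K)²/(2·V₂(K)³) is at least c (V₁, V₂ given via Steiner-formula limits). -/
theorem result :
    ¬ (∀ (K : Set (EuclideanSpace ℝ (Fin 3))) (c : ℝ),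
    IsCompact K → Convex ℝ K → (interior K).Nonempty →
    (∀ u ∈ Metric.sphere (0 : EuclideanSpace ℝ (Fin 3)) 1, ∀ L : ℝ,
      Filter.Tendsto (fun t : ℝ =>
        ((volume ((fun x : EuclideanSpace ℝ (Fin 3) => x - (inner ℝ u x) • u) '' K
              + Metric.closedBall (0 : EuclideanSpace ℝ (Fin 3)) t)).toReal
          - 2 * t * ((volume (K + segment ℝ (0 : EuclideanSpace ℝ (Fin 3)) u)).toReal
              - (volume K).toReal)) / (Real.pi * t ^ 2))
        (nhdsWithin 0 (Set.Ioi 0)) (nhds L) →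
      c ≤ Real.pi * ((volume (K + segment ℝ (0 : EuclideanSpace ℝ (Fin 3)) u)).toReal
              - (volume K).toReal) / L ^ 2) →
    ∀ S : ℝ,
      Filter.Tendsto (fun t : ℝ =>
        ((volume (K + Metric.closedBall (0 : EuclideanSpace ℝ (Fin 3)) t)).toReal
          - (volume K).toReal) / (2 * t))
        (nhdsWithin 0 (Set.Ioi 0)) (nhds S) →
      c ≤ 9 * Real.pi * (volume K).toReal ^ 2 / (2 * S ^ 3)) := by
  intro H
  have hpi := Real.pi_pos
  have hpi3 := Real.pi_gt_three
  have hh0 := Pool.Agent.W563.Box.hh_pos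
  have hS := Pool.Agent.W563.Box.tendsto_S
  have hK := Pool.Agent.W563.Box.volK
  have h1 := H Pool.Agent.W563.Box.K (9 * Real.pi * Pool.Agent.W563.Box.hh ^ 2 / 2)
    (Pool.Agent.W563.Box.Bx_compact _ _) (Pool.Agent.W563.Box.Bx_convex _ _)
    Pool.Agent.W563.Box.K_int ?_ (1 + 2 * Pool.Agent.W563.Box.hh) hS
  · rw [hK] at h1
    have h2 : 9 * Real.pi * Pool.Agent.W563.Box.hh ^ 2 /
        (2 * (1 + 2 * Pool.Agent.W563.Box.hh) ^ 3) <
        9 * Real.pi * Pool.Agent.W563.Box.hh ^ 2 / 2 := by
      apply div_lt_div_of_pos_left (by positivity) (by norm_num)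
      have : 1 < (1 + 2 * Pool.Agent.W563.Box.hh) ^ 3 := by
        apply one_lt_pow₀ _ (by norm_num)
        linarith
      linarith
    linarith
  · intro u hu L hL
    have hu' : ‖u‖ = 1 := by simpa using hu
    obtain ⟨hL0, hL1⟩ := Pool.Agent.W563.Coord.proj_bounds
      (Pool.Agent.W563.Box.Bx_compact _ _) (Pool.Agent.W563.Box.Bx_convex _ _)
      Pool.Agent.W563.Box.K_int Pool.Agent.W563.Box.K_norm hu' hL
    have hs := Pool.Agent.W563.Box.slide hu'
    rw [le_div_iff₀ (by positivity)]
    have h3 : L ≤ 8 := by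
      refine hL1.trans ?_
      rw [div_le_iff₀ hpi]
      linarith
    have h4 : L ^ 2 ≤ 64 := by nlinarith
    have h5 : Pool.Agent.W563.Box.hh = 1 / 1000 := rfl
    calc 9 * Real.pi * Pool.Agent.W563.Box.hh ^ 2 / 2 * L ^ 2
        ≤ 9 * Real.pi * Pool.Agent.W563.Box.hh ^ 2 / 2 * 64 := by gcongr
      _ = Real.pi * (288 * Pool.Agent.W563.Box.hh * Pool.Agent.W563.Box.hh) := by ring
      _ ≤ Real.pi * (Pool.Agent.W563.Box.hh / 2) := by
          apply mul_le_mul_of_nonneg_left _ hpi.le
          nlinarith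
      _ ≤ _ := by gcongr

end Pool.Agent.S13210
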