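import Pool.Statements.S13218
import Pool.Agent.Results.MP_5a340a_gt.NonDiagonal

set_option autoImplicit false
open MeasureTheory ProbabilityTheory
open Pool Pool.MP_5a340a_gt

namespace Pool.Agent.S13218

/-- The negation of the preceding statement: For every centered Gaussian probability measure on R^n and every origin-symmetric convex body K, the map t ↦ measure of K scaled coordinatewise by e^{t_i} is log-concave on R^n. -/
theorem result :
    ¬ (∀ n : ℕ, ∀ μ : Measure (Fin n → ℝ), IsProbabilityMeasure μ → IsGaussian μ →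
      ∫ x, x ∂μ = 0 →
      ∀ K : Set (Fin n → ℝ), Convex ℝ K → IsCompact K → (interior K).Nonempty →
        (∀ x ∈ K, -x ∈ K) →
        ∀ s t : Fin n → ℝ, ∀ a : ℝ, 0 ≤ a → a ≤ 1 →
          (μ {x | (fun i => Real.exp (-(a • s + (1 - a) • t) i) * x i) ∈ K}).toReal ≥
            (μ {x | (fun i => Real.exp (-s i) * x i) ∈ K}).toReal ^ a *
            (μ {x | (fun i => Real.exp (-t i) * x i) ∈ K}).toReal ^ (1 - a)) := by
  intro H
  obtain ⟨S, hS, hnd⟩ := (Pool.Agent.Results.MP_5a340a_gt.NonDiagonal.result 2).2 le_rfl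
  obtain ⟨K, hKc, hKk, hKi, hKs, hpos, hnot⟩ :=
    (Pool.Agent.Results.MP_5a340a_gt.NonDiagonal.result 2).1 S hS.posSemidef hnd
  let e : EuclideanSpace ℝ (Fin 2) ≃L[ℝ] (Fin 2 → ℝ) := EuclideanSpace.equiv (Fin 2) ℝ
  have hem : Measurable e := e.continuous.measurable
  let μ : Measure (Fin 2 → ℝ) := (multivariateGaussian 0 S).map e
  have hG : IsGaussian μ := by
    have : IsGaussian ((multivariateGaussian 0 S).map (e : EuclideanSpace ℝ (Fin 2) →L[ℝ] (Fin 2 → ℝ))) :=
      inferInstance
    exact this
  have hP : IsProbabilityMeasure μ := Measure.isProbabilityMeasure_map hem.aemeasurable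
  have hmean : ∫ x, x ∂μ = 0 := by
    have h1 : ∫ x, x ∂μ = ∫ x, e x ∂(multivariateGaussian 0 S) :=
      integral_map hem.aemeasurable aestronglyMeasurable_id
    rw [h1]
    have h2 := ContinuousLinearMap.integral_comp_comm
      (e : EuclideanSpace ℝ (Fin 2) →L[ℝ] (Fin 2 → ℝ))
      (IsGaussian.integrable_id (μ := multivariateGaussian (0 : EuclideanSpace ℝ (Fin 2)) S))
    have h3 : ∫ x, id x ∂(multivariateGaussian (0 : EuclideanSpace ℝ (Fin 2)) S) = 0 := by
      simp only [id_eq]
      exact integral_id_multivariateGaussian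
    rw [h3, map_zero] at h2
    exact h2
  have hKi' : (interior (e '' K)).Nonempty := by
    have := e.toHomeomorph.image_interior K
    change e '' interior K = interior (e '' K) at this
    rw [← this]
    exact hKi.image _
  have key : ∀ t : Fin 2 → ℝ, (μ {x | (fun i => Real.exp (-t i) * x i) ∈ e '' K}).toReal =
      (multivariateGaussian 0 S).real
        (Pool.Agent.Results.MP_5a340a_gt.NonDiagonal.dilate t K) := by
    intro t
    have hcl : IsClosed {x : Fin 2 → ℝ | (fun i => Real.exp (-t i) * x i) ∈ e '' K} := by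
      refine IsClosed.preimage (f := fun x : Fin 2 → ℝ => fun i => Real.exp (-t i) * x i)
        (by fun_prop) (hKk.image e.continuous).isClosed
    rw [measureReal_def, Measure.map_apply hem hcl.measurableSet]
    congr 2
    ext x
    rw [Pool.Agent.Results.MP_5a340a_gt.NonDiagonal.mem_dilate]
    constructor
    · rintro ⟨y, hy, hyx⟩
      have : y = WithLp.toLp 2 (fun i => Real.exp (-(t i)) * x i) := by
        ext i
        exact congrFun hyx i
      rw [← this]; exact hy
    · intro hx
      exact ⟨_, hx, rfl⟩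
  apply hnot
  refine ⟨convex_univ, ?_⟩
  intro s _ t _ a b ha hb hab
  have hb' : b = 1 - a := by linarith
  subst hb'
  have h := H 2 μ hP hG hmean (e '' K) (hKc.linear_image (e : EuclideanSpace ℝ (Fin 2) →ₗ[ℝ] (Fin 2 → ℝ)))
    (hKk.image e.continuous) hKi' (by
      rintro _ ⟨y, hy, rfl⟩
      exact ⟨-y, hKs y hy, map_neg e y⟩) s t a ha (by linarith)
  rw [key s, key t, key (a • s + (1 - a) • t)] at h
  have h1 := Real.log_le_log (mul_pos (Real.rpow_pos_of_pos (hpos s) a)
    (Real.rpow_pos_of_pos (hpos t) (1 - a))) h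
  rw [Real.log_mul (Real.rpow_pos_of_pos (hpos s) a).ne' (Real.rpow_pos_of_pos (hpos t) (1 - a)).ne',
    Real.log_rpow (hpos s), Real.log_rpow (hpos t)] at h1
  simpa only [smul_eq_mul] using h1

end Pool.Agent.S13218
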