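import Pool.Statements.S13257
import Pool.Agent.W651.SO.Flip2
import Pool.Agent.W651.SO.Glue
import Pool.Agent.W651.SO.Lim
import Pool.Agent.W651.SO.Gpt
import Pool.Agent.W651.SO.Cmp
import Pool.Agent.W651.SO.Chn
import Pool.Agent.W651.SO.Ins
import Pool.Agent.W651.SO.Snc
import Pool.Agent.W853.SO.Scc
import Pool.Agent.W651.SO.Sum
import Pool.Agent.W651.SO.Cut
import Pool.Agent.W651.SO.Eng
import Pool.Agent.W651.SO.Dual2
import Pool.Agent.W651.SO.Tail
import Pool.Agent.W651.SO.Half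
import Pool.Agent.W804.SO.Gun
import Pool.Agent.W651.SO.Lg
import Pool.Agent.W651.SO.Kpl
import Pool.Agent.W651.SO.Kc
import Pool.Agent.W651.SO.Kp
import Pool.Agent.W348.SO.Fin
import Pool.Agent.W651.SO.Conv

set_option autoImplicit false
open Pool Pool.MP_5f379b_gt

namespace Pool.Agent.S13257

/-- For every linearly ordered space with its order topology in which every nonempty subset has an isolated point, every subset admits some linear order whose order topology equals its subspace topology. -/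
theorem result :
    ∀ (X : Type) [TopologicalSpace X] [LinearOrder X] [OrderTopology X],
      (∀ A : Set X, A.Nonempty → ∃ x ∈ A, ∃ U : Set X, IsOpen U ∧ U ∩ A = {x}) →
      ∀ S : Set X, ∃ o : LinearOrder S,
        @OrderTopology S _ (@PartialOrder.toPreorder S (@LinearOrder.toPartialOrder S o)) := by
  have hINS := Pool.Agent.W651.SO.ins Pool.Agent.W651.SO.flip Pool.Agent.W651.SO.glue
    Pool.Agent.W651.SO.ends Pool.Agent.W651.SO.cmp
  have hSNC := Pool.Agent.W651.SO.snc Pool.Agent.W651.SO.flip Pool.Agent.W651.SO.glue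
    Pool.Agent.W651.SO.ends Pool.Agent.W651.SO.chn
  have hSCC := Pool.Agent.W853.SO.scc Pool.Agent.W651.SO.flip Pool.Agent.W651.SO.cmp
  have hSUM := Pool.Agent.W651.SO.sum Pool.Agent.W651.SO.flip Pool.Agent.W651.SO.glue
    Pool.Agent.W651.SO.ends Pool.Agent.W651.SO.cmp hINS hSNC hSCC
  have hENG := Pool.Agent.W651.SO.eng Pool.Agent.W651.SO.flip Pool.Agent.W651.SO.glue
    Pool.Agent.W651.SO.ends Pool.Agent.W651.SO.lim Pool.Agent.W651.SO.chn
  have hENGD := Pool.Agent.W651.SO.engd Pool.Agent.W651.SO.dual hENG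
  have hTAIL := Pool.Agent.W651.SO.tail Pool.Agent.W651.SO.flip Pool.Agent.W651.SO.cmp
    Pool.Agent.W651.SO.goc Pool.Agent.W651.SO.cut
  have hHALF := Pool.Agent.W651.SO.half hSUM hENG hTAIL
  have hHALFD := Pool.Agent.W651.SO.halfd Pool.Agent.W651.SO.dual hHALF
  have hGUN := Pool.Agent.W651.SO.gun hSUM
  have hLG := Pool.Agent.W651.SO.lg hSUM hGUN hHALF hHALFD
  have hKPL := Pool.Agent.W651.SO.kpl Pool.Agent.W651.SO.lim
  have hKPC := Pool.Agent.W651.SO.kpc Pool.Agent.W651.SO.cut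
  have hKC := Pool.Agent.W651.SO.kc Pool.Agent.W651.SO.flip Pool.Agent.W651.SO.gpt hSUM
  have hKP := Pool.Agent.W651.SO.kp Pool.Agent.W651.SO.flip Pool.Agent.W651.SO.ends
    Pool.Agent.W651.SO.goc Pool.Agent.W651.SO.cut hENGD hKPL hKPC
  have hKPD := Pool.Agent.W651.SO.kpd Pool.Agent.W651.SO.dual hKP
  have hFIN := Pool.Agent.W348.SO.fin Pool.Agent.W651.SO.dual hLG hKP hKPD hKC
  intro X _ _ _ hX S
  obtain ⟨hgo, hsc⟩ := Pool.Agent.W651.SO.sub X hX S
  obtain ⟨r, hr⟩ := hFIN S hgo hsc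
  exact Pool.Agent.W651.SO.conv S r hr

end Pool.Agent.S13257
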