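import Pool.Statements.S13265
import Pool.Agent.Helper733.Chain

set_option autoImplicit false
open Pool Pool.MP_617eb0_gt

namespace Pool.Agent.S13265

open MeasureTheory Measure Filter Topology Pool.Agent.Helper733

/-- the face content with the unnormalised Hausdorff measure -/
noncomputable def rawFC {d : ℕ} (j : ℕ) (P : Set (EuclideanSpace ℝ (Fin d))) : ENNReal :=
  ∑' F : {F : Set (EuclideanSpace ℝ (Fin d)) //
      IsExposed ℝ P F ∧ F.Nonempty ∧ Module.finrank ℝ (affineSpan ℝ F).direction = j},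
    MeasureTheory.Measure.hausdorffMeasure (j : ℝ) (F : Set (EuclideanSpace ℝ (Fin d)))

/-- the normalising factor -/
noncomputable def cst (j : ℕ) : NNReal :=
  addHaarScalarFactor (volume : Measure (EuclideanSpace ℝ (Fin j))) μH[j]

lemma cst_ne_zero (j : ℕ) : cst j ≠ 0 :=
  MeasureTheory.Measure.addHaarScalarFactor_volume_hausdorffMeasure_ne_zero j

lemma faceContent_eq {d : ℕ} (j : ℕ) (P : Set (EuclideanSpace ℝ (Fin d))) :
    faceContent j P = (cst j : ENNReal) * rawFC j P := by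
  unfold faceContent rawFC
  rw [← ENNReal.tsum_mul_left]
  let e : {F : Set (EuclideanSpace ℝ (Fin d)) // IsFace j P F} ≃
      {F : Set (EuclideanSpace ℝ (Fin d)) //
        IsExposed ℝ P F ∧ F.Nonempty ∧ Module.finrank ℝ (affineSpan ℝ F).direction = j} :=
    Equiv.subtypeEquivRight (fun F => by
      unfold IsFace
      rw [direction_affineSpan]
      tauto)
  rw [← e.tsum_eq]
  rfl

lemma raw_bound {d k s : ℕ} (hk : 1 ≤ k) (hks : k ≤ s) : ∃ C : NNReal, C ≠ 0 ∧
    ∀ P : Set (EuclideanSpace ℝ (Fin d)), IsPolytope d P →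
      rawFC s P ≤ ((C : ENNReal) * rawFC k P ^ ((1 : ℝ) / k)) ^ (s : ℝ) := by
  have hkpos : (0 : ℝ) < k := by exact_mod_cast hk
  have hspos : (0 : ℝ) < s := by exact_mod_cast (lt_of_lt_of_le hk hks)
  obtain ⟨C0, hC0⟩ : ∃ C0 : NNReal, (C0 : ENNReal) = Chain.chainC k (s - k) + 1 :=
    ⟨(Chain.chainC k (s - k) + 1).toNNReal, ENNReal.coe_toNNReal
      (ENNReal.add_ne_top.mpr ⟨(Chain.chainC_lt_top _ _).ne, ENNReal.one_ne_top⟩)⟩
  have hC0' : C0 ≠ 0 := by
    intro h
    rw [h] at hC0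
    simp at hC0
    exact absurd hC0.symm (by simp)
  have hck : cst k ^ ((1 : ℝ) / k) ≠ 0 := by
    rw [Ne, NNReal.rpow_eq_zero_iff]
    intro h
    exact cst_ne_zero k h.1
  have hcs : (cst s)⁻¹ ^ ((1 : ℝ) / s) ≠ 0 := by
    rw [Ne, NNReal.rpow_eq_zero_iff]
    intro h
    exact cst_ne_zero s (inv_eq_zero.mp h.1)
  refine ⟨(cst s)⁻¹ ^ ((1 : ℝ) / s) * (C0 * cst k ^ ((1 : ℝ) / k)),
    mul_ne_zero hcs (mul_ne_zero hC0' hck), ?_⟩
  intro P hP
  have h := Chain.chain P hP k hk (s - k)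
  rw [Nat.add_sub_cancel' hks] at h
  have h2 : faceContent s P ^ ((1 : ℝ) / s) ≤ (C0 : ENNReal) * faceContent k P ^ ((1 : ℝ) / k) := by
    refine h.trans ?_
    rw [hC0]
    gcongr
    exact le_self_add
  rw [faceContent_eq, faceContent_eq, ENNReal.mul_rpow_of_nonneg _ _ (by positivity),
    ENNReal.mul_rpow_of_nonneg _ _ (by positivity)] at h2
  have hcs0 : (cst s : ENNReal) ≠ 0 := by simpa using cst_ne_zero s
  have hcs1 : (cst s : ENNReal) ≠ ⊤ := ENNReal.coe_ne_top
  have h3 : rawFC s P ^ ((1 : ℝ) / s) ≤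
      (((cst s)⁻¹ ^ ((1 : ℝ) / s) * (C0 * cst k ^ ((1 : ℝ) / k)) : NNReal) : ENNReal) *
        rawFC k P ^ ((1 : ℝ) / k) := by
    have e1 : ((cst s)⁻¹ : ENNReal) ^ ((1 : ℝ) / s) * ((cst s : ENNReal) ^ ((1 : ℝ) / s)) = 1 := by
      rw [← ENNReal.mul_rpow_of_nonneg _ _ (by positivity), ENNReal.inv_mul_cancel hcs0 hcs1,
        ENNReal.one_rpow]
    calc rawFC s P ^ ((1 : ℝ) / s)
        = ((cst s)⁻¹ : ENNReal) ^ ((1 : ℝ) / s) *
          ((cst s : ENNReal) ^ ((1 : ℝ) / s) * rawFC s P ^ ((1 : ℝ) / s)) := by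
          rw [← mul_assoc, e1, one_mul]
      _ ≤ ((cst s)⁻¹ : ENNReal) ^ ((1 : ℝ) / s) *
          ((C0 : ENNReal) * ((cst k : ENNReal) ^ ((1 : ℝ) / k) * rawFC k P ^ ((1 : ℝ) / k))) := by
          gcongr
      _ = _ := by
          rw [ENNReal.coe_mul, ENNReal.coe_mul,
            ENNReal.coe_rpow_of_nonneg _ (by positivity), ENNReal.coe_rpow_of_nonneg _
              (by positivity), ENNReal.coe_inv (cst_ne_zero s)]
          ring
  have h4 := ENNReal.rpow_le_rpow h3 hspos.le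
  rwa [← ENNReal.rpow_mul, one_div_mul_cancel hspos.ne', ENNReal.rpow_one] at h4

/-- For all d,k,s with 1≤k≤s≤d−2 and k not dividing s, some finite γ gives ζ_s(K)^(1/s) ≤ γ·ζ_k(K)^(1/k) for every d-dimensional convex body K with finite k-content (content via polytope approximation). -/
theorem result :
    ∀ d k s : ℕ, 1 ≤ k → k ≤ s → s + 2 ≤ d → ¬ k ∣ s →
    ∀ ζ : ℕ → Set (EuclideanSpace ℝ (Fin d)) → ENNReal,
      (∀ (j : ℕ) (K : Set (EuclideanSpace ℝ (Fin d))),
        ζ j K = ⨅ (P : ℕ → Set (EuclideanSpace ℝ (Fin d)))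
          (_ : (∀ n, (∃ S : Finset (EuclideanSpace ℝ (Fin d)),
                  P n = convexHull ℝ (↑S : Set (EuclideanSpace ℝ (Fin d))))
                ∧ (interior (P n)).Nonempty)
              ∧ Filter.Tendsto (fun n => EMetric.hausdorffEdist (P n) K)
                  Filter.atTop (nhds (0 : ENNReal))),
          Filter.liminf
            (fun n => ∑' F : {F : Set (EuclideanSpace ℝ (Fin d)) //
                IsExposed ℝ (P n) F ∧ F.Nonempty ∧
                Module.finrank ℝ (affineSpan ℝ F).direction = j},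
              MeasureTheory.Measure.hausdorffMeasure (j : ℝ)
                (F : Set (EuclideanSpace ℝ (Fin d))))
            Filter.atTop) →
      ∃ γ : NNReal, ∀ K : Set (EuclideanSpace ℝ (Fin d)),
        Convex ℝ K → IsCompact K → (interior K).Nonempty → ζ k K < ⊤ →
        ζ s K ^ ((1 : ℝ) / (s : ℝ)) ≤ (γ : ENNReal) * ζ k K ^ ((1 : ℝ) / (k : ℝ)) := by
  intro d k s hk hks _ _ ζ hζ
  have hkpos : (0 : ℝ) < k := by exact_mod_cast hk
  have hspos : (0 : ℝ) < s := by exact_mod_cast (lt_of_lt_of_le hk hks)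
  obtain ⟨C, hC0, hC⟩ := raw_bound (d := d) hk hks
  refine ⟨C, fun K _ _ _ hfin => ?_⟩
  have hC0' : (C : ENNReal) ≠ 0 := by simpa using hC0
  have hCtop : (C : ENNReal) ≠ ⊤ := ENNReal.coe_ne_top
  let CT : (ℕ → Set (EuclideanSpace ℝ (Fin d))) → Prop := fun P =>
    (∀ n, (∃ S : Finset (EuclideanSpace ℝ (Fin d)),
                  P n = convexHull ℝ (↑S : Set (EuclideanSpace ℝ (Fin d))))
                ∧ (interior (P n)).Nonempty)
              ∧ Filter.Tendsto (fun n => EMetric.hausdorffEdist (P n) K)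
                  Filter.atTop (nhds (0 : ENNReal))
  have hζ' : ∀ j, ζ j K = ⨅ (P : ℕ → Set (EuclideanSpace ℝ (Fin d))) (_ : CT P),
      liminf (fun n => rawFC j (P n)) atTop := fun j => hζ j K
  -- the monotone continuous change of variables
  let g : ENNReal → ENNReal := fun x => ((C : ENNReal) * x ^ ((1 : ℝ) / k)) ^ (s : ℝ)
  have hgmono : Monotone g := by
    intro a b hab
    have h1 : a ^ ((1 : ℝ) / k) ≤ b ^ ((1 : ℝ) / k) := ENNReal.rpow_le_rpow hab (by positivity)
    exact ENNReal.rpow_le_rpow (by gcongr) hspos.le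
  have hgcont : Continuous g := by
    have h1 : Continuous fun x : ENNReal => x ^ ((1 : ℝ) / k) := ENNReal.continuous_rpow_const
    have h2 : Continuous fun x : ENNReal => (C : ENNReal) * x := ENNReal.continuous_const_mul hCtop
    have h3 : Continuous fun x : ENNReal => x ^ (s : ℝ) := ENNReal.continuous_rpow_const
    exact h3.comp (h2.comp h1)
  have hseq : ∀ P : ℕ → Set (EuclideanSpace ℝ (Fin d)), CT P →
      ζ s K ≤ g (liminf (fun n => rawFC k (P n)) atTop) := by
    intro P hP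
    have h1 : ζ s K ≤ liminf (fun n => rawFC s (P n)) atTop := by
      rw [hζ']
      exact iInf₂_le (f := fun (P : ℕ → Set (EuclideanSpace ℝ (Fin d))) (_ : CT P) =>
        liminf (fun n => rawFC s (P n)) atTop) P hP
    refine h1.trans ?_
    have h2 : liminf (fun n => rawFC s (P n)) atTop ≤
        liminf (fun n => g (rawFC k (P n))) atTop :=
      liminf_le_liminf (Eventually.of_forall fun n => hC _ (hP.1 n))
    refine h2.trans (le_of_eq ?_)
    exact (hgmono.map_liminf_of_continuousAt (fun n => rawFC k (P n))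
      hgcont.continuousAt).symm
  have hgtop : g ⊤ = ⊤ := by
    show ((C : ENNReal) * (⊤ : ENNReal) ^ ((1 : ℝ) / k)) ^ (s : ℝ) = ⊤
    rw [ENNReal.top_rpow_of_pos (by positivity), ENNReal.mul_top hC0',
      ENNReal.top_rpow_of_pos hspos]
  have hmain : ζ s K ≤ g (ζ k K) := by
    by_cases hne : ∃ P : ℕ → Set (EuclideanSpace ℝ (Fin d)), CT P
    · obtain ⟨P0, hP0⟩ := hne
      have hnonempty : Nonempty {P : ℕ → Set (EuclideanSpace ℝ (Fin d)) // CT P} :=
        ⟨⟨P0, hP0⟩⟩
      have h1 : ζ k K = ⨅ P : {P : ℕ → Set (EuclideanSpace ℝ (Fin d)) // CT P},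
          liminf (fun n => rawFC k (P.1 n)) atTop := by
        rw [hζ' k, iInf_subtype']
      rw [h1, hgmono.map_iInf_of_continuousAt hgcont.continuousAt]
      · exact le_iInf fun P => hseq P.1 P.2
      · exact hgtop
    · have h1 : ζ k K = ⊤ := by
        rw [hζ' k]
        exact iInf₂_eq_top.mpr fun P hP => absurd ⟨P, hP⟩ hne
      rw [h1, hgtop]
      exact le_top
  have h5 : ζ s K ^ ((1 : ℝ) / s) ≤ (g (ζ k K)) ^ ((1 : ℝ) / s) :=
    ENNReal.rpow_le_rpow hmain (by positivity)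
  refine h5.trans (le_of_eq ?_)
  show (((C : ENNReal) * ζ k K ^ ((1 : ℝ) / k)) ^ (s : ℝ)) ^ ((1 : ℝ) / s) = _
  rw [← ENNReal.rpow_mul, mul_one_div_cancel hspos.ne', ENNReal.rpow_one]

end Pool.Agent.S13265
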