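import Pool.Statements.S13341
import Pool.Agent.W201.NT.Top
import Pool.Agent.W885.NT.BR
import Pool.Agent.W672.NT.Hi
import Pool.Agent.W308.NT.CT
import Pool.Agent.W924.NT.SUB
import Pool.Agent.W378.NT.MV
import Pool.Agent.W409.NT.Mvs
import Pool.Agent.W143.NT.CS
import Pool.Agent.W196.NT.LN
import Pool.Agent.W563.NT.PR
import Pool.Agent.W293.NT.EU
import Pool.Agent.W701.NT.MF
import Pool.Agent.W138.NT.TW
import Pool.Agent.W293.NT.VR
import Pool.Agent.W977.NT.IS
import Pool.Agent.W696.NT.ES
import Pool.Agent.W249.NT.SC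
import Pool.Agent.W140.NT.Hv
import Pool.Agent.W131.NT.ID
import Pool.Agent.W98.NT.FO
import Pool.Agent.W978.NT.DU

set_option autoImplicit false
open Bundle
open scoped Manifold ContDiff
open Pool Pool.MP_6d5819_gt

namespace Pool.Agent.S13341

/-- For every compact simply connected Riemannian manifold whose points all have isometric symmetries with differential minus identity, if some antipodal finite set is larger than the total real Betti number, then some integral homology group has an element of order 2. -/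
theorem result :
  ∀ (d : ℕ) (M : Type) [EMetricSpace M]
    [ChartedSpace (EuclideanSpace ℝ (Fin d)) M]
    [IsManifold (𝓡 d) ∞ M]
    [RiemannianBundle (fun x : M ↦ TangentSpace (𝓡 d) x)]
    [IsContMDiffRiemannianBundle (𝓡 d) ∞ (EuclideanSpace ℝ (Fin d))
      (fun x : M ↦ TangentSpace (𝓡 d) x)]
    [IsRiemannianManifold (𝓡 d) M]
    [CompactSpace M] [SimplyConnectedSpace M]
    (s : M → M → M),
    (∀ x : M, Isometry (s x) ∧ s x x = x ∧
      mfderiv (𝓡 d) (𝓡 d) (s x) x = -ContinuousLinearMap.id ℝ (EuclideanSpace ℝ (Fin d))) →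
    (∃ A : Finset M, (∀ x ∈ A, ∀ y ∈ A, s x y = y) ∧
      (∑ i ∈ Finset.range (d + 1),
        Module.finrank ℝ
          ((((AlgebraicTopology.singularHomologyFunctor (ModuleCat.{0} ℝ) i).obj
            (ModuleCat.of ℝ ℝ)).obj (TopCat.of M) : ModuleCat.{0} ℝ) : Type)) < A.card) →
    ∃ i : ℕ, ∃ g : ((((AlgebraicTopology.singularHomologyFunctor (ModuleCat.{0} ℤ) i).obj
            (ModuleCat.of ℤ ℤ)).obj (TopCat.of M) : ModuleCat.{0} ℤ) : Type),
      addOrderOf g = 2 := by
  intro d M _ _ _ _ _ _ _ _ s hs hA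
  have hBR := Pool.Agent.W885.NT.main
  have hHI := Pool.Agent.W672.NT.main hBR
  have hCT := Pool.Agent.W308.NT.main hBR hHI
  have hSUB := Pool.Agent.W924.NT.main
  have hMV := Pool.Agent.W378.NT.main hSUB
  have hMVS := Pool.Agent.W409.NT.Mvs.main hHI hMV
  have hCS := Pool.Agent.W143.NT.CS.main hSUB
  have hLN := Pool.Agent.W196.NT.main hHI hCT hMVS hCS
  have hPR := Pool.Agent.W563.NT.PR.main hHI hMVS hCS
  have hEU := Pool.Agent.W293.NT.EU.main hHI hLN hPR
  have hMF := Pool.Agent.W701.NT.MF.main hHI hMVS hEU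
  have hTW := Pool.Agent.W138.NT.TW.main
  have hVR := Pool.Agent.W293.NT.VR.main
  have hIS := Pool.Agent.W977.NT.IS.main
  have hES := Pool.Agent.W696.NT.ES.main
  have hSC := Pool.Agent.W249.NT.main
  have hHV := Pool.Agent.W140.NT.hv hES hSC
  have hID := Pool.Agent.W131.NTID.main hHV
  have hFO := Pool.Agent.W98.NT.FO.main
  have hDU := Pool.Agent.W978.NT.DU.main
  exact Pool.Agent.W201.NT.emetric_version hBR hCT hMF hDU hTW hVR hIS hID hFO d M s hs hA

end Pool.Agent.S13341
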