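import Pool.Statements.S13392
import Pool.Agent.W579.FQ.Space
import Pool.Agent.H672R3.FQ.Stokes
import Pool.Agent.H790.FQ.Torus

set_option autoImplicit false
open Pool Pool.MP_74810d_gt

namespace Pool.Agent.S13392

/-- The negation of the preceding statement: For every n ≥ 1 and every simply connected second countable Hausdorff topological n-manifold Q, some smooth flow on R^(n+1) has orbit space, with the quotient topology, homeomorphic to Q. -/
theorem result :
    ¬ (∀ n : ℕ, 1 ≤ n →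
      ∀ (Q : Type) [TopologicalSpace Q] [T2Space Q] [SecondCountableTopology Q]
        [ChartedSpace (EuclideanSpace ℝ (Fin n)) Q] [SimplyConnectedSpace Q],
        ∃ Φ : ℝ → EuclideanSpace ℝ (Fin (n + 1)) → EuclideanSpace ℝ (Fin (n + 1)),
          ContDiff ℝ (⊤ : ℕ∞)
              (fun p : ℝ × EuclideanSpace ℝ (Fin (n + 1)) => Φ p.1 p.2) ∧
          (∀ x, Φ 0 x = x) ∧
          (∀ (s t : ℝ) (x : EuclideanSpace ℝ (Fin (n + 1))), Φ (s + t) x = Φ s (Φ t x)) ∧
          Nonempty
            (Quot (fun x y : EuclideanSpace ℝ (Fin (n + 1)) => ∃ t : ℝ, Φ t x = y) ≃ₜ Q)) := by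
  intro h
  obtain ⟨Φ, hc, h0, ha, ⟨G⟩⟩ := h 9 (by norm_num) Pool.Agent.W579.FQ.Cube
  exact Pool.Agent.W579.FQ.no_quot
    (Pool.Agent.H790.FQ.taskTorus Pool.Agent.H672R3.FQ.taskStokes)
    hc.continuous h0 ha (fun x y => Iff.rfl) G

end Pool.Agent.S13392
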