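import Pool.Statements.S13398
import Pool.Agent.W30.StarX

set_option autoImplicit false
open MeasureTheory
open scoped ENNReal
open Pool Pool.MP_7519fe_gt

namespace Pool.Agent.S13398

/-- The negation of the preceding statement: There is m and an adaptive rule choosing m unit directions, each from the earlier X-rays, such that any two star-shaped polygons giving the same X-rays along their chosen directions are equal. -/
theorem result :
    ¬ (∃ m : ℕ, ∃ D : ℕ → (ℕ → EuclideanSpace ℝ (Fin 2) → ℝ≥0∞) → EuclideanSpace ℝ (Fin 2),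
      (∀ j f, ‖D j f‖ = 1) ∧
      (∀ j f g, (∀ i < j, f i = g i) → D j f = D j g) ∧
      ∀ P P' : Set (EuclideanSpace ℝ (Fin 2)),
        ((∃ n : ℕ, ∃ v : ℕ → EuclideanSpace ℝ (Fin 2), 3 ≤ n ∧ (∀ i, v (i + n) = v i) ∧
            (∀ i < n, ∀ j < n, i ≠ j → v i ≠ v j) ∧
            (∀ i < n, ∀ j < n, i ≠ j →
              segment ℝ (v i) (v (i + 1)) ∩ segment ℝ (v j) (v (j + 1)) ⊆
                ({v i, v (i + 1)} : Set (EuclideanSpace ℝ (Fin 2))) ∩ {v j, v (j + 1)}) ∧
            frontier P = ⋃ i ∈ Finset.range n, segment ℝ (v i) (v (i + 1))) ∧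
          IsCompact P ∧ (interior P).Nonempty ∧ ∃ p ∈ P, StarConvex ℝ p P) →
        ((∃ n : ℕ, ∃ v : ℕ → EuclideanSpace ℝ (Fin 2), 3 ≤ n ∧ (∀ i, v (i + n) = v i) ∧
            (∀ i < n, ∀ j < n, i ≠ j → v i ≠ v j) ∧
            (∀ i < n, ∀ j < n, i ≠ j →
              segment ℝ (v i) (v (i + 1)) ∩ segment ℝ (v j) (v (j + 1)) ⊆
                ({v i, v (i + 1)} : Set (EuclideanSpace ℝ (Fin 2))) ∩ {v j, v (j + 1)}) ∧
            frontier P' = ⋃ i ∈ Finset.range n, segment ℝ (v i) (v (i + 1))) ∧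
          IsCompact P' ∧ (interior P').Nonempty ∧ ∃ p ∈ P', StarConvex ℝ p P') →
        ∀ d d' : ℕ → EuclideanSpace ℝ (Fin 2),
          (∀ j < m, d j = D j (fun i x => volume {t : ℝ | x + t • d i ∈ P})) →
          (∀ j < m, d' j = D j (fun i x => volume {t : ℝ | x + t • d' i ∈ P'})) →
          (∀ j < m, ∀ x : EuclideanSpace ℝ (Fin 2),
            volume {t : ℝ | x + t • d j ∈ P} = volume {t : ℝ | x + t • d' j ∈ P'}) →
          P = P') := by
  rintro ⟨m, D, hD1, hD2, hD⟩
  exact Pool.Agent.W30.StarX.main13398 m D hD1 hD2 hD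

end Pool.Agent.S13398
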