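import Pool.Statements.S13440
import Pool.Agent.W651.RectA

set_option autoImplicit false
open Pool Pool.MP_7db8f6_gt

namespace Pool.Agent.S13440

/-- The negation of the preceding statement: Every T3 (regular T1) space X admitting a homeomorphism φ of X×X that preserves first coordinates and a point e with φ(x,x)=(x,e) for all x is Tychonoff (completely regular T1). -/
theorem result :
    ¬ (∀ (X : Type) [TopologicalSpace X], T3Space X →
      (∃ (φ : (X × X) ≃ₜ (X × X)) (e : X),
        (∀ p : X × X, (φ p).1 = p.1) ∧ ∀ x : X, φ (x, x) = (x, e)) →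
      T35Space X) := by
  intro h
  refine Pool.Agent.W651.Rect.not_T35 (h Pool.Agent.W651.Rect.A Pool.Agent.W651.Rect.t3A
    ⟨Pool.Agent.W651.Rect.phi, Pool.Agent.W651.Rect.o, fun p => ?_, fun x => ?_⟩)
  · rw [Pool.Agent.W651.Rect.phi_apply]
  · rw [Pool.Agent.W651.Rect.phi_apply]
    show (x, Pool.Agent.W651.Rect.D x x) = (x, Pool.Agent.W651.Rect.o)
    rw [Pool.Agent.W651.Rect.D_self]

end Pool.Agent.S13440
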