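import Pool.Statements.S13478
import Pool.Agent.Results.MP_8403e4_gt.FSpaceNotBD

set_option autoImplicit false
open Pool Pool.MP_8403e4_gt

namespace Pool.Agent.S13478

/-- The negation of the preceding statement: Any Tychonoff space with a cocompact pretty base of clopen sets that embeds in some Tychonoff F-space is basically disconnected: the closure of any countable union of clopen sets is clopen. -/
theorem result :
    ¬ (∀ (X : Type) [TopologicalSpace X] [T35Space X],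
    (∃ 𝓑 : Set (Set X),
      (∀ B ∈ 𝓑, IsClopen B) ∧
      TopologicalSpace.IsTopologicalBasis 𝓑 ∧
      (∀ C D : Set (Set X), C ⊆ 𝓑 → C.Countable → D ⊆ 𝓑 →
        (∀ U ∈ C, ∀ V ∈ D, Disjoint U V) →
        ∃ W ∈ 𝓑, (∀ U ∈ C, U ⊆ W) ∧ ∀ V ∈ D, Disjoint W V) ∧
      @CompactSpace X (TopologicalSpace.generateFrom ((fun B : Set X => (closure B)ᶜ) '' 𝓑))) →
    (∃ (Y : Type) (_ : TopologicalSpace Y), T35Space Y ∧
      (∀ f : Y → ℝ, Continuous f →
        ∀ g : {y : Y // f y ≠ 0} → ℝ, Continuous g → (∃ M : ℝ, ∀ y, |g y| ≤ M) →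
          ∃ h : Y → ℝ, Continuous h ∧ (∃ M : ℝ, ∀ y, |h y| ≤ M) ∧
            ∀ y : {y : Y // f y ≠ 0}, h y.1 = g y) ∧
      ∃ e : X → Y, Topology.IsEmbedding e) →
    ∀ s : ℕ → Set X, (∀ n, IsClopen (s n)) → IsClopen (closure (⋃ n, s n))) := by
  intro h
  obtain ⟨X, iX, hT, ⟨𝓑, hp, hc⟩, hF, -, hn⟩ :=
    Pool.Agent.Results.MP_8403e4_gt.FSpaceNotBD.result
  haveI := hT
  have key := h X ⟨𝓑, hp.isClopen, hp.isBasis, ?_, ?_⟩ ⟨X, iX, hT, ?_, id, Topology.IsEmbedding.id⟩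
  · apply hn
    refine ⟨inferInstance, ?_, ?_⟩
    · refine TopologicalSpace.isTopologicalBasis_of_isOpen_of_nhds (fun U hU => hU.isOpen) ?_
      intro x U hx hU
      obtain ⟨B, hB, hxB, hBU⟩ := hp.isBasis.exists_subset_of_mem_open hx hU
      exact ⟨B, hp.isClopen B hB, hxB, hBU⟩
    · intro 𝒞 h𝒞 hcl
      rcases 𝒞.eq_empty_or_nonempty with rfl | hne
      · simp [isClopen_empty]
      · obtain ⟨s, rfl⟩ := h𝒞.exists_eq_range hne
        rw [Set.sUnion_range]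
        exact key s (fun n => hcl _ ⟨n, rfl⟩)
  · intro C D hC hCc hD hdis
    exact hp.nested C hC D hD hCc hdis
  · have e : ((fun B : Set X => (closure B)ᶜ) '' 𝓑) = {V | ∃ B ∈ 𝓑, V = (closure B)ᶜ} := by
      ext V
      constructor
      · rintro ⟨B, hB, rfl⟩; exact ⟨B, hB, rfl⟩
      · rintro ⟨B, hB, rfl⟩; exact ⟨B, hB, rfl⟩
    rw [e]
    exact hc
  · intro f hf g hg ⟨M, hM⟩
    let g' : BoundedContinuousFunction {x : X | f x ≠ 0} ℝ :=
      BoundedContinuousFunction.ofNormedAddCommGroup (α := {x : X | f x ≠ 0}) g hg M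
        (fun y => by simpa [Real.norm_eq_abs] using hM y)
    obtain ⟨F, hFg⟩ := hF ⟨f, hf⟩ g'
    refine ⟨F, F.continuous, ⟨‖F‖, fun y => ?_⟩, fun y => ?_⟩
    · simpa [Real.norm_eq_abs] using F.norm_coe_le_norm y
    · exact hFg y

end Pool.Agent.S13478
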