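import Pool.Statements.S13565
import Pool.Agent.Helper185.SelHur

set_option autoImplicit false
open Pool Pool.MP_8f5cd4_gt

namespace Pool.Agent.S13565

open Pool.Agent.Helper185.Sel in
/-- Every set of reals X with S1(Ω,T) also has the Hurewicz property. S1(Ω,T): from each open ω-cover in a sequence one can pick one set so the picks form a τ-cover. Hurewicz: any sequence of open covers has finite pieces eventually covering each point. -/
theorem result :
    ∀ X : Set ℝ,
      (∀ U : ℕ → Set (Set X),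
        (∀ n, (∀ V ∈ U n, IsOpen V) ∧ (Set.univ : Set X) ∉ U n ∧
            ∀ F : Finset X, ∃ V ∈ U n, (↑F : Set X) ⊆ V) →
        ∃ f : ℕ → Set X, (∀ n, f n ∈ U n) ∧
          ((∀ V ∈ Set.range f, IsOpen V) ∧ (Set.univ : Set X) ∉ Set.range f ∧
            (∀ x : X, {W : Set X | W ∈ Set.range f ∧ x ∈ W}.Infinite) ∧
            ∀ x y : X,
              ({W : Set X | W ∈ Set.range f ∧ x ∈ W} \
                  {W : Set X | W ∈ Set.range f ∧ y ∈ W}).Finite ∨
              ({W : Set X | W ∈ Set.range f ∧ y ∈ W} \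
                  {W : Set X | W ∈ Set.range f ∧ x ∈ W}).Finite)) →
      ∀ U : ℕ → Set (Set X),
        (∀ n, (∀ V ∈ U n, IsOpen V) ∧ ⋃₀ U n = Set.univ) →
        ∃ F : ℕ → Finset (Set X), (∀ n, (↑(F n) : Set (Set X)) ⊆ U n) ∧
          ∀ x : X, ∀ᶠ n in Filter.atTop, x ∈ ⋃₀ (↑(F n) : Set (Set X)) := by
  intro X h U hU
  have h' : S1 (OmegaOf (OpenFam X)) (TauOf (OpenFam X)) := by
    intro V hV
    obtain ⟨f, hf, h1, h2, h3, h4⟩ := h V (fun n => ⟨(hV n).1, (hV n).2.1.2, fun F =>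
      (hV n).2.2 (↑F) F.finite_toSet⟩)
    refine ⟨f, hf, h1, ⟨?_, h2⟩, h3, ?_⟩
    · refine Set.eq_univ_of_forall fun x => ?_
      obtain ⟨W, hW⟩ := (h3 x).nonempty
      exact ⟨W, hW.1, hW.2⟩
    · intro x y
      refine (h4 x y).imp (fun hh => hh.subset ?_) (fun hh => hh.subset ?_)
      · rintro u ⟨hu, hx, hy⟩
        exact ⟨⟨hu, hx⟩, fun hc => hy hc.2⟩
      · rintro u ⟨hu, hx, hy⟩
        exact ⟨⟨hu, hx⟩, fun hc => hy hc.2⟩
  obtain ⟨F, hF, hx⟩ := hurewicz_of_s1_omega_tau h' U hU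
  refine ⟨fun n => (hF n).1.toFinset, fun n => ?_, fun x => ?_⟩
  · simpa using (hF n).2
  · have := (hx x).eventually_cofinite_notMem
    rw [Nat.cofinite_eq_atTop] at this
    filter_upwards [this] with n hn
    by_contra hcon
    exact hn (fun hc => hcon (by simpa using hc))

end Pool.Agent.S13565
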