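import Pool.Statements.S13574
import Pool.Agent.Results.MP_916210_gt.BetaOmega

set_option autoImplicit false
open Pool Pool.MP_916210_gt

namespace Pool.Agent.S13574

open Pool.Agent.Results.MP_916210_gt.BetaOmega

/-- `C(X, ℝ)` and `Cp X` are the same linear space. -/
def E (X : Type) [TopologicalSpace X] : C(X, ℝ) ≃ₗ[ℝ] Cp X where
  toFun f := ⟨f, f.continuous⟩
  invFun f := ⟨f.1, f.2⟩
  left_inv _ := rfl
  right_inv _ := rfl
  map_add' _ _ := rfl
  map_smul' _ _ := rfl

abbrev pt (X : Type) [TopologicalSpace X] : TopologicalSpace C(X, ℝ) :=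
  TopologicalSpace.induced (fun f : C(X, ℝ) => (f : X → ℝ)) inferInstance

theorem cE (X : Type) [TopologicalSpace X] : @Continuous _ _ (pt X) inferInstance (E X) := by
  let _ := pt X
  exact Continuous.subtype_mk continuous_induced_dom _

theorem cE' (X : Type) [TopologicalSpace X] : @Continuous _ _ inferInstance (pt X) (E X).symm := by
  let _ := pt X
  exact continuous_induced_rng.2 continuous_subtype_val

/-- `OnePoint ℕ` is homeomorphic to `ℕ∞`. -/
noncomputable def homeoNat : OnePoint ℕ ≃ₜ ℕ∞ := by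
  let e : OnePoint ℕ ≃ ℕ∞ := Equiv.refl (Option ℕ)
  have he : Continuous e := by
    rw [OnePoint.continuous_iff_from_nat]
    show Filter.Tendsto (fun n : ℕ => (n : ℕ∞)) Filter.atTop (nhds (⊤ : ℕ∞))
    exact ENat.tendsto_natCast_nhds_top
  exact he.homeoOfEquivCompactToT2

/-- The negation of the preceding statement: For every infinite Tychonoff space X: if C_p(X) is linearly homeomorphic to C_p(X ⊕ A) for each subspace A with a continuous linear extender, then C_p(X × convergent sequence) is linearly homeomorphic to C_p(X). -/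
theorem result :
    ¬ (∀ (X : Type) [TopologicalSpace X] [T35Space X] [Infinite X],
      (∀ A : Set X,
        (∃ φ : C(A, ℝ) →ₗ[ℝ] C(X, ℝ),
          @Continuous _ _
            (TopologicalSpace.induced (fun f : C(A, ℝ) => (f : A → ℝ)) inferInstance)
            (TopologicalSpace.induced (fun f : C(X, ℝ) => (f : X → ℝ)) inferInstance)
            (⇑φ) ∧
          ∀ f : C(A, ℝ), ∀ a : A, φ f a = f a) →
        ∃ e : C(X, ℝ) ≃ₗ[ℝ] C(X ⊕ A, ℝ),
          @Continuous _ _
            (TopologicalSpace.induced (fun f : C(X, ℝ) => (f : X → ℝ)) inferInstance)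
            (TopologicalSpace.induced (fun f : C(X ⊕ A, ℝ) => (f : X ⊕ A → ℝ)) inferInstance)
            (⇑e) ∧
          @Continuous _ _
            (TopologicalSpace.induced (fun f : C(X ⊕ A, ℝ) => (f : X ⊕ A → ℝ)) inferInstance)
            (TopologicalSpace.induced (fun f : C(X, ℝ) => (f : X → ℝ)) inferInstance)
            (⇑e.symm)) →
      ∃ e : C(X × OnePoint ℕ, ℝ) ≃ₗ[ℝ] C(X, ℝ),
        @Continuous _ _
          (TopologicalSpace.induced (fun f : C(X × OnePoint ℕ, ℝ) => (f : X × OnePoint ℕ → ℝ)) inferInstance)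
          (TopologicalSpace.induced (fun f : C(X, ℝ) => (f : X → ℝ)) inferInstance)
          (⇑e) ∧
        @Continuous _ _
          (TopologicalSpace.induced (fun f : C(X, ℝ) => (f : X → ℝ)) inferInstance)
          (TopologicalSpace.induced (fun f : C(X × OnePoint ℕ, ℝ) => (f : X × OnePoint ℕ → ℝ)) inferInstance)
          (⇑e.symm)) := by
  intro H
  have hinf : Infinite (Ultrafilter ℕ) :=
    Infinite.of_injective (pure : ℕ → Ultrafilter ℕ) (fun a b h => by
      have h1 : ({a} : Set ℕ) ∈ (pure b : Ultrafilter ℕ) := by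
        rw [← h]
        exact Ultrafilter.mem_pure.2 rfl
      exact (Ultrafilter.mem_pure.1 h1).symm)
  obtain ⟨e, he1, he2⟩ := H (Ultrafilter ℕ) (by
    rintro A ⟨φ, hφ, hφA⟩
    have hA : IsLEmbedded A := by
      refine ⟨⟨(E (Ultrafilter ℕ)).toLinearMap ∘ₗ φ ∘ₗ (E A).symm.toLinearMap, ?_⟩, ?_⟩
      · have h1 := @Continuous.comp _ _ _ inferInstance (pt A) (pt (Ultrafilter ℕ)) _ _ hφ (cE' A)
        exact @Continuous.comp _ _ _ inferInstance (pt (Ultrafilter ℕ)) inferInstance _ _
          (cE (Ultrafilter ℕ)) h1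
      · intro f a
        exact hφA ((E A).symm f) a
    obtain ⟨T⟩ := lstable A hA
    refine ⟨(E (Ultrafilter ℕ)).trans (T.toLinearEquiv.trans (E (Ultrafilter ℕ ⊕ A)).symm), ?_, ?_⟩
    · have h1 := @Continuous.comp _ _ _ (pt (Ultrafilter ℕ)) inferInstance inferInstance _ _
        T.continuous (cE (Ultrafilter ℕ))
      have h2 := @Continuous.comp _ _ _ (pt (Ultrafilter ℕ)) inferInstance (pt (Ultrafilter ℕ ⊕ A))
          _ _ (cE' (Ultrafilter ℕ ⊕ A)) h1
      exact h2
    · have h1 := @Continuous.comp _ _ _ (pt (Ultrafilter ℕ ⊕ A)) inferInstance inferInstance _ _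
        T.symm.continuous (cE (Ultrafilter ℕ ⊕ A))
      have h2 := @Continuous.comp _ _ _ (pt (Ultrafilter ℕ ⊕ A)) inferInstance (pt (Ultrafilter ℕ))
          _ _ (cE' (Ultrafilter ℕ)) h1
      exact h2)
  have h1 : LEquivalent (Ultrafilter ℕ × OnePoint ℕ) (Ultrafilter ℕ) := by
    refine ⟨⟨(E (Ultrafilter ℕ × OnePoint ℕ)).symm.trans (e.trans (E (Ultrafilter ℕ))), ?_, ?_⟩⟩
    · have h1 := @Continuous.comp _ _ _ inferInstance (pt (Ultrafilter ℕ × OnePoint ℕ))
        (pt (Ultrafilter ℕ)) _ _ he1 (cE' (Ultrafilter ℕ × OnePoint ℕ))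
      exact @Continuous.comp _ _ _ inferInstance (pt (Ultrafilter ℕ)) inferInstance _ _
          (cE (Ultrafilter ℕ)) h1
    · have h1 := @Continuous.comp _ _ _ inferInstance (pt (Ultrafilter ℕ))
        (pt (Ultrafilter ℕ × OnePoint ℕ)) _ _ he2 (cE' (Ultrafilter ℕ))
      exact @Continuous.comp _ _ _ inferInstance (pt (Ultrafilter ℕ × OnePoint ℕ)) inferInstance _ _
          (cE (Ultrafilter ℕ × OnePoint ℕ)) h1
  exact not_sstable ((LEquivalent.of_homeo (
    (Homeomorph.refl (Ultrafilter ℕ)).prodCongr homeoNat.symm)).trans h1)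

end Pool.Agent.S13574
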