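import Pool.Statements.S13589
import Pool.Agent.W574.NUFinal

set_option autoImplicit false
open Pool Pool.MP_93ef73_gt

namespace Pool.Agent.S13589

/-- There exist d, a nonempty compact totally disconnected A in R^d with two distinct Steiner trees S, T, no terminal interior to segments in both, and nonempty compact M (∣M∣=∣A∣ if A finite) and r>0 with S an r-minimizer for M. -/
theorem result :
  ∃ (d : ℕ) (A S T M : Set (EuclideanSpace ℝ (Fin d))) (r : ℝ),
    IsCompact A ∧ A.Nonempty ∧ IsTotallyDisconnected A ∧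
    (IsCompact S ∧ IsConnected S ∧ A ⊆ S ∧
      MeasureTheory.Measure.hausdorffMeasure 1 S < ⊤ ∧
      ∀ S' : Set (EuclideanSpace ℝ (Fin d)), IsCompact S' → IsConnected S' → A ⊆ S' →
        MeasureTheory.Measure.hausdorffMeasure 1 S ≤ MeasureTheory.Measure.hausdorffMeasure 1 S') ∧
    (IsCompact T ∧ IsConnected T ∧ A ⊆ T ∧
      MeasureTheory.Measure.hausdorffMeasure 1 T < ⊤ ∧
      ∀ S' : Set (EuclideanSpace ℝ (Fin d)), IsCompact S' → IsConnected S' → A ⊆ S' →
        MeasureTheory.Measure.hausdorffMeasure 1 T ≤ MeasureTheory.Measure.hausdorffMeasure 1 S') ∧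
    S ≠ T ∧
    IsCompact M ∧ M.Nonempty ∧ 0 < r ∧
    (A.Finite → M.Finite ∧ M.ncard = A.ncard) ∧
    (¬ ∃ a ∈ A,
        (∃ x y : EuclideanSpace ℝ (Fin d), x ≠ y ∧ segment ℝ x y ⊆ S ∧ a ∈ openSegment ℝ x y) ∧
        (∃ x y : EuclideanSpace ℝ (Fin d), x ≠ y ∧ segment ℝ x y ⊆ T ∧ a ∈ openSegment ℝ x y)) ∧
    (∀ y ∈ M, Metric.infDist y S ≤ r) ∧
    ∀ W : Set (EuclideanSpace ℝ (Fin d)), IsCompact W → IsConnected W →
      (∀ y ∈ M, Metric.infDist y W ≤ r) →
        MeasureTheory.Measure.hausdorffMeasure 1 S ≤ MeasureTheory.Measure.hausdorffMeasure 1 W := by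
  refine ⟨2, Set.range Pool.Agent.W574.NU.term, Pool.Agent.W574.NU.TA, Pool.Agent.W574.NU.TB,
    Set.range Pool.Agent.W574.NU.ypt, 1 / 1000, (Set.finite_range _).isCompact,
    Set.range_nonempty _, (Set.finite_range _).countable.isTotallyDisconnected,
    ⟨Pool.Agent.W574.NU.TA_compact, Pool.Agent.W574.NU.TA_conn, ?_, ?_, ?_⟩,
    ⟨Pool.Agent.W574.NU.TB_compact, Pool.Agent.W574.NU.TB_conn, ?_, ?_, ?_⟩,
    Pool.Agent.W574.NU.TA_ne_TB, (Set.finite_range _).isCompact, Set.range_nonempty _,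
    by norm_num, ?_, ?_, Pool.Agent.W574.NU.cover_TA, ?_⟩
  · rintro _ ⟨i, rfl⟩
    exact Pool.Agent.W574.NU.term_TA i
  · exact lt_of_le_of_lt Pool.Agent.W574.NU.TA_len ENNReal.ofReal_lt_top
  · exact fun K hK hc h => Pool.Agent.W574.NU.TA_len.trans (Pool.Agent.W574.NU.lowerA K hK hc h)
  · rintro _ ⟨i, rfl⟩
    exact Pool.Agent.W574.NU.term_TB i
  · exact lt_of_le_of_lt Pool.Agent.W574.NU.TB_len ENNReal.ofReal_lt_top
  · exact fun K hK hc h => Pool.Agent.W574.NU.TB_len.trans (Pool.Agent.W574.NU.lowerA K hK hc h)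
  · intro _
    refine ⟨Set.finite_range _, ?_⟩
    rw [Pool.Agent.W574.NU.ncard_range5 Pool.Agent.W574.NU.ypt_inj,
      Pool.Agent.W574.NU.ncard_range5 Pool.Agent.W574.NU.term_inj]
  · rintro ⟨_, ⟨i, rfl⟩, hS, hT⟩
    by_cases hi : i = 1
    · subst hi
      exact Pool.Agent.W574.NU.not_straight_B hT
    · exact Pool.Agent.W574.NU.not_straight_A i hi hS
  · exact fun W hW hc h => Pool.Agent.W574.NU.TA_len.trans (Pool.Agent.W574.NU.lowerM W hW hc h)

end Pool.Agent.S13589
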