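import Pool.Statements.S13596
import Pool.Agent.W88.Kup

set_option autoImplicit false
open Pool Pool.MP_94b191_gt

namespace Pool.Agent.S13596

/-- The negation of the preceding statement: Every continuum in which any two points are joined by a uniform family of paths covering the space has, for any two points, a uniform family of arcs between them covering the union of all arcs joining them. -/
theorem result :
    ¬ (∀ (X : Type) [MetricSpace X] [CompactSpace X] [ConnectedSpace X],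
      (∀ a b : X, ∃ P : Set (Path a b),
          (∀ ε : ℝ, ε > 0 → ∃ n : ℕ, ∀ p ∈ P, ∃ t : Fin (n + 1) → unitInterval,
              t 0 = 0 ∧ t (Fin.last n) = 1 ∧ StrictMono t ∧
              ∀ i : Fin n, Metric.diam (⇑p '' Set.Icc (t i.castSucc) (t i.succ)) ≤ ε) ∧
          (⋃ p ∈ P, Set.range ⇑p) = Set.univ) →
      (∀ a b : X, ∃ P : Set (Path a b),
          (∀ p ∈ P, Function.Injective ⇑p) ∧
          (∀ ε : ℝ, ε > 0 → ∃ n : ℕ, ∀ p ∈ P, ∃ t : Fin (n + 1) → unitInterval,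
              t 0 = 0 ∧ t (Fin.last n) = 1 ∧ StrictMono t ∧
              ∀ i : Fin n, Metric.diam (⇑p '' Set.Icc (t i.castSucc) (t i.succ)) ≤ ε) ∧
          (⋃ p ∈ P, Set.range ⇑p) =
            ⋃ (q : Path a b) (_ : Function.Injective ⇑q), Set.range ⇑q)) := by
  intro H
  obtain ⟨P, hP1, hP2, hP3⟩ := H Pool.Agent.W88.Kup.X Pool.Agent.W88.Kup.upc
    Pool.Agent.W88.Kup.pa Pool.Agent.W88.Kup.pb
  obtain ⟨n, hn⟩ := hP2 (1 / 4) (by norm_num)
  obtain ⟨m, hm⟩ : ∃ m : ℕ, n + 1 < 2 ^ m := ⟨n + 1, Nat.lt_two_pow_self⟩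
  have hm1 : 1 ≤ m := by
    rcases Nat.eq_zero_or_pos m with h | h
    · rw [h] at hm; simp at hm
    · exact h
  obtain ⟨q, hq1, hq2⟩ := Pool.Agent.W88.Kup.exists_arc hm1
  have hmem : Pool.Agent.W88.Kup.x8 (2 ^ m) Nat.one_le_two_pow ∈
      ⋃ p ∈ P, Set.range ⇑p := by
    rw [hP3, Set.mem_iUnion₂]
    exact ⟨q, hq1, hq2⟩
  rw [Set.mem_iUnion₂] at hmem
  obtain ⟨p, hpP, hpx⟩ := hmem
  obtain ⟨t, ht0, ht1, _, ht2⟩ := hn p hpP
  exact Pool.Agent.W88.Kup.counting hm p (hP1 p hpP) hpx t ht0 ht1 ht2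

end Pool.Agent.S13596
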