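import Pool.Statements.S13599
import Pool.Agent.W562.Str.Core4

set_option autoImplicit false
open Pool Pool.MP_94e842_gt

namespace Pool.Agent.S13599

/-- Any planar convex body whose boundary has the transitivity property is an ellipse. Transitivity: string construction at length ℓ1, then at any ℓ2 above the new perimeter, equals a single string construction at some ℓ3. -/
theorem result :
    ∀ K : Set (EuclideanSpace ℝ (Fin 2)), IsCompact K → Convex ℝ K → (interior K).Nonempty →
      (∀ ℓ1 : ℝ, (MeasureTheory.Measure.hausdorffMeasure 1 (frontier K)).toReal < ℓ1 →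
        ∀ ℓ2 : ℝ,
          (MeasureTheory.Measure.hausdorffMeasure 1
              (frontier {x : EuclideanSpace ℝ (Fin 2) |
                (MeasureTheory.Measure.hausdorffMeasure 1
                  (frontier (convexHull ℝ (insert x K)))).toReal ≤ ℓ1})).toReal < ℓ2 →
          ∃ ℓ3 : ℝ,
            {y : EuclideanSpace ℝ (Fin 2) |
              (MeasureTheory.Measure.hausdorffMeasure 1
                (frontier (convexHull ℝ (insert y
                  {x : EuclideanSpace ℝ (Fin 2) |
                    (MeasureTheory.Measure.hausdorffMeasure 1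
                      (frontier (convexHull ℝ (insert x K)))).toReal ≤ ℓ1})))).toReal = ℓ2}
            = {y : EuclideanSpace ℝ (Fin 2) |
              (MeasureTheory.Measure.hausdorffMeasure 1
                (frontier (convexHull ℝ (insert y K)))).toReal = ℓ3}) →
      ∃ f : EuclideanSpace ℝ (Fin 2) ≃ᵃ[ℝ] EuclideanSpace ℝ (Fin 2),
        K = f '' Metric.closedBall 0 1 := by
  intro K hK hc hi hyp
  have hB : W562.Str.Body K := ⟨hK, hc, hi⟩
  have hG : ∀ l : ℝ, {x : EuclideanSpace ℝ (Fin 2) |
      (MeasureTheory.Measure.hausdorffMeasure 1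
        (frontier (convexHull ℝ (insert x K)))).toReal ≤ l} = W562.Str.G K l := by
    intro l
    ext x
    show _ ≤ l ↔ W562.Str.F K x ≤ l
    rw [W562.Str.len_hull hB x]
  have hT : W562.Str.Trans K := by
    intro l1 hl1 l2 hl2
    have h1 := hyp l1 (by rw [W562.Str.len_body hB]; exact hl1) l2
    rw [hG l1] at h1
    have hGB := W562.Str.body_G hB hl1.le
    obtain ⟨l3, hl3⟩ := h1 (by rw [W562.Str.len_body hGB]; exact hl2)
    refine ⟨l3, ?_⟩
    have e1 : {y | W562.Str.F (W562.Str.G K l1) y = l2} = {y : EuclideanSpace ℝ (Fin 2) |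
        (MeasureTheory.Measure.hausdorffMeasure 1
          (frontier (convexHull ℝ (insert y (W562.Str.G K l1))))).toReal = l2} := by
      ext y
      show W562.Str.F (W562.Str.G K l1) y = l2 ↔ _ = l2
      rw [W562.Str.len_hull hGB y]
    have e2 : {y | W562.Str.F K y = l3} = {y : EuclideanSpace ℝ (Fin 2) |
        (MeasureTheory.Measure.hausdorffMeasure 1
          (frontier (convexHull ℝ (insert y K)))).toReal = l3} := by
      ext y
      show W562.Str.F K y = l3 ↔ _ = l3
      rw [W562.Str.len_hull hB y]
    rw [e1, e2]
    exact hl3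
  obtain ⟨c, hpos, A, B, C, hg⟩ := W562.Str.trig_form hB hT
  exact W562.Str.is_ellipse hB hpos hg

end Pool.Agent.S13599
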