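import Pool.Statements.S13611
import Pool.Agent.W555.ZL
import Pool.Agent.H902R3.ZA.LBM
import Pool.Agent.H902R3.ZA.PLA
import Pool.Agent.H902R3.ZA.PLN
import Pool.Agent.H902R3.ZA.RES
import Pool.Agent.H902R3.ZA.DOM
import Pool.Agent.H902R3.ZA.SEC
import Pool.Agent.H902R3.ZA.SC
import Pool.Agent.H902R3.ZA.LAW
import Pool.Agent.H902R3.ZA.LOW
import Pool.Agent.H902R3.ZA.PHI
import Pool.Agent.H902R3.ZA.ROT
import Pool.Agent.H902R3.ZA.QJ
import Pool.Agent.H902R3.ZA.JEN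
import Pool.Agent.H902R3.ZA.MEAN
import Pool.Agent.H902R3.ZA.FIX
import Pool.Agent.H902R3.ZA.TWO
import Pool.Agent.H902R3.ZA.SHI
import Pool.Agent.H902R3.ZA.AVG
import Pool.Agent.H902R3.ZA.COL
import Pool.Agent.H902R3.ZA.STEPL
import Pool.Agent.H902R3.ZA.STEP
import Pool.Agent.H902R3.ZA.ITER
import Pool.Agent.H172R2.ZS.LEW
import Pool.Agent.H172R2.ZS.BAS
import Pool.Agent.H172R2.ZS.ONE
import Pool.Agent.H172R2.ZS.DET
import Pool.Agent.H172R2.ZS.MAP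
import Pool.Agent.H172R2.ZS.GAU
import Pool.Agent.H172R2.GS.HAM

set_option autoImplicit false
open Pool Pool.MP_971d29_gt

namespace Pool.Agent.S13611

open Pool.Agent.H902R3.ZA Pool.Agent.H172R2.ZS in
/-- all steps together -/
theorem iter : S_ITER := by
  have hGAU : Pool.Agent.H172R2.ZS.S_GAU := GAU_ok (MAP_ok ONE_ok BAS_ok DET_ok)
  have hHAM : Pool.Agent.H172R2.ZS.S_HAM := Pool.Agent.H172R2.GS.HAM_ok
  have hPLN : S_PLN := PLN_ok (PLA_ok LBM_ok)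
  have hDOM : S_DOM := DOM_ok RES_ok
  have hSC : S_SC := SC_ok RES_ok (SEC_ok hPLN)
  have hLOW : S_LOW := LOW_ok hDOM hSC LAW_ok hGAU
  have hJEN : S_JEN := JEN_ok hPLN ROT_ok QJ_ok
  have hTWO : S_TWO := TWO_ok hLOW PHI_ok hJEN MEAN_ok (FIX_ok PHI_ok)
  have hCOL : S_COL := COL_ok SHI_ok AVG_ok hHAM
  exact ITER_ok (STEP_ok (STEPL_ok hTWO hCOL) LEW_ok BAS_ok)

/-- There is a constant C>0 such that for all d≤m, every real m×d matrix A and 0<ε≤1/2, some matrix B with at most C·d/ε² rows satisfies ‖Bx‖₁ ≤ ‖Ax‖₁ ≤ (1+ε)‖Bx‖₁ for all x in ℝ^d. -/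
theorem result :
    ∃ C : ℝ, 0 < C ∧
      ∀ (d m : ℕ), d ≤ m →
        ∀ A : Matrix (Fin m) (Fin d) ℝ,
          ∀ ε : ℝ, 0 < ε → ε ≤ 1 / 2 →
            ∃ n : ℕ, (n : ℝ) ≤ C * (d : ℝ) / ε ^ 2 ∧
              ∃ B : Matrix (Fin n) (Fin d) ℝ,
                ∀ x : Fin d → ℝ,
                  (∑ i, |(Matrix.mulVec B x) i|) ≤ ∑ i, |(Matrix.mulVec A x) i| ∧
                  (∑ i, |(Matrix.mulVec A x) i|) ≤ (1 + ε) * ∑ i, |(Matrix.mulVec B x) i| := by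
  obtain ⟨C, hC, h⟩ := Pool.Agent.W555.ZL.vec iter
  refine ⟨C, hC, fun d m _ A ε hε hε2 => ?_⟩
  obtain ⟨N, v, hN, hv⟩ := h d m (fun i => WithLp.toLp 2 (A i)) ε hε hε2
  refine ⟨N, hN, fun k => (v k).ofLp, fun x => ?_⟩
  have key : ∀ a : Fin d → ℝ, (inner ℝ (WithLp.toLp 2 a) (WithLp.toLp 2 x : EuclideanSpace ℝ (Fin d)) : ℝ) =
      ∑ i, a i * x i := by
    intro a
    rw [PiLp.inner_apply]
    simp [mul_comm]
  have h1 := hv (WithLp.toLp 2 x)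
  have h2 : ∀ j, (inner ℝ (WithLp.toLp 2 (A j)) (WithLp.toLp 2 x : EuclideanSpace ℝ (Fin d)) : ℝ) =
      (Matrix.mulVec A x) j := fun j => by
    rw [key]; rfl
  have h3 : ∀ k, (inner ℝ (v k) (WithLp.toLp 2 x : EuclideanSpace ℝ (Fin d)) : ℝ) =
      (Matrix.mulVec (fun k => (v k).ofLp) x) k := fun k => by
    have := key (v k).ofLp
    rw [show (WithLp.toLp 2 (v k).ofLp : EuclideanSpace ℝ (Fin d)) = v k from rfl] at this
    rw [this]; rfl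
  simp only [h2, h3] at h1
  exact h1

end Pool.Agent.S13611
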