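import Pool.Statements.S13645
import Pool.Agent.W624.StzF

set_option autoImplicit false
open Pool Pool.MP_9c8c11_gt

namespace Pool.Agent.S13645

/-- In the mod-2 cobar complex of the dual Steenrod algebra, for each degree s≥1 there is r such that for any cocycle x, if x^(2^(r+i)) is a coboundary for some i, then x^(2^r) already is; i.e., Sq^0 is eventually injective on its images in Ext^s. -/
theorem result :
    ∀ d : (s : ℕ) → MvPolynomial (Fin s × ℕ) (ZMod 2) → MvPolynomial (Fin (s + 1) × ℕ) (ZMod 2),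
      (∀ (s : ℕ) (x : MvPolynomial (Fin s × ℕ) (ZMod 2)),
        d s x = ∑ j : Fin (s + 2),
          MvPolynomial.aeval
            (fun p : Fin s × ℕ =>
              if (p.1 : ℕ) + 1 < (j : ℕ) then
                (MvPolynomial.X (p.1.castSucc, p.2) : MvPolynomial (Fin (s + 1) × ℕ) (ZMod 2))
              else if (j : ℕ) < (p.1 : ℕ) + 1 then
                (MvPolynomial.X (p.1.succ, p.2) : MvPolynomial (Fin (s + 1) × ℕ) (ZMod 2))
              else
                ∑ i ∈ Finset.range (p.2 + 2),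
                  (if i = p.2 + 1 then (1 : MvPolynomial (Fin (s + 1) × ℕ) (ZMod 2))
                    else MvPolynomial.X (p.1.castSucc, p.2 - i)) ^ (2 ^ i) *
                  (if i = 0 then (1 : MvPolynomial (Fin (s + 1) × ℕ) (ZMod 2))
                    else MvPolynomial.X (p.1.succ, i - 1)))
            x) →
      ∀ s : ℕ, ∃ r : ℕ, ∀ x : MvPolynomial (Fin (s + 1) × ℕ) (ZMod 2),
        d (s + 1) x = 0 →
        ∀ i : ℕ,
          (∃ y : MvPolynomial (Fin s × ℕ) (ZMod 2), d s y = x ^ (2 ^ (r + i))) →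
          ∃ y : MvPolynomial (Fin s × ℕ) (ZMod 2), d s y = x ^ (2 ^ r) := by
  intro d hd s
  obtain ⟨r, hr⟩ := W624.Stz.final s
  refine ⟨r, fun x _ i hy => ?_⟩
  obtain ⟨y, hy⟩ := hy
  obtain ⟨z, hz⟩ := hr x i ⟨y, by rw [← hy, hd]; rfl⟩
  exact ⟨z, by rw [← hz, hd]; rfl⟩

end Pool.Agent.S13645
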