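import Pool.Statements.S13670
import Pool.Agent.W642.HG.Main

set_option autoImplicit false
open Pool Pool.MP_9f4369_gt

namespace Pool.Agent.S13670

/-- The negation of the preceding statement: A Φ-algebra is an SI-algebra (real-valued, uniformly closed, closed under strong inversion) exactly when it is order-and-ring isomorphic to C(X) for some space X closed-embedded in a power of the reals. -/
theorem result :
    ¬ (∀ (A : Type) [CommRing A] [Lattice A] [Algebra ℝ A],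
    (∀ a b c : A, a ≤ b → a + c ≤ b + c) →
    (∀ a b : A, 0 ≤ a → 0 ≤ b → 0 ≤ a * b) →
    (∀ (r : ℝ) (a : A), 0 ≤ r → 0 ≤ a → 0 ≤ r • a) →
    (∀ a b : A, (∀ n : ℕ, n • a ≤ b) → a ≤ 0) →
    (0 : A) ≤ 1 →
    (∀ a : A, (1 : A) ⊓ |a| = 0 → a = 0) →
    (((∀ a : A, (∀ M : Ideal A, M.IsMaximal → Nonempty (A ⧸ M ≃+* ℝ) → a ∈ M) → a = 0) ∧
      (∀ (s : ℕ → A) (f : Ideal A → ℝ),
        (∀ ε : ℝ, 0 < ε → ∃ N : ℕ, ∀ n : ℕ, N ≤ n → ∀ M : Ideal A, M.IsMaximal →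
          ∀ φ : A ⧸ M ≃+* ℝ, |φ (Ideal.Quotient.mk M (s n)) - f M| ≤ ε) →
        ∃ a : A, ∀ M : Ideal A, M.IsMaximal →
          ∀ φ : A ⧸ M ≃+* ℝ, φ (Ideal.Quotient.mk M a) = f M) ∧
      (∀ D : Ideal A, (∀ a : A, (∀ d ∈ D, a * d = 0) → a = 0) →
        (∀ M : Ideal A, M.IsMaximal → Nonempty (A ⧸ M ≃+* ℝ) → ¬ D ≤ M) →
        ∀ φ : D →ₗ[A] A, ∃ c : A, ∀ d : D, φ d = c * (d : A)))
    ↔ ∃ (X : Type) (_ : TopologicalSpace X),
        (∃ (I : Type) (g : X → (I → ℝ)), Topology.IsClosedEmbedding g) ∧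
        Nonempty (A ≃+*o C(X, ℝ)))) := by
  intro H
  obtain ⟨R, hR2, hR⟩ := Pool.Agent.W642.HG.exists_bernstein
  have harch : ∀ a b : Pool.Agent.W642.HG.alg R, (∀ n : ℕ, n • a ≤ b) → a ≤ 0 := by
    intro a b h
    refine Pool.Agent.W642.HG.le_iff.2 fun z => ?_
    show a.1 z ≤ 0
    by_contra hcon
    push Not at hcon
    obtain ⟨n, hn⟩ := exists_nat_gt (b.1 z / a.1 z)
    rw [div_lt_iff₀ hcon] at hn
    have h1 : (n • a).1 z ≤ b.1 z := Pool.Agent.W642.HG.le_iff.1 (h n) z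
    have h2 : (n • a).1 z = n * a.1 z := by
      have h3 : ((n • a : Pool.Agent.W642.HG.alg R) : C(Pool.Agent.W642.HG.Pt R, ℝ)) =
        n • (a : C(Pool.Agent.W642.HG.Pt R, ℝ)) := rfl
      rw [h3, ContinuousMap.smul_apply, nsmul_eq_mul]
    rw [h2] at h1
    linarith
  have hunit : ∀ a : Pool.Agent.W642.HG.alg R,
      (1 : Pool.Agent.W642.HG.alg R) ⊓ |a| = 0 → a = 0 := by
    intro a h
    apply Subtype.ext
    ext z
    have h1 : min (1 : ℝ) ((|a| : Pool.Agent.W642.HG.alg R).1 z) = 0 :=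
      congrArg (fun b : Pool.Agent.W642.HG.alg R => b.1 z) h
    have h2 : (|a| : Pool.Agent.W642.HG.alg R).1 z = |a.1 z| := rfl
    rw [h2] at h1
    have h3 : |a.1 z| = 0 := by
      rcases min_choice (1 : ℝ) |a.1 z| with h4 | h4
      · rw [h4] at h1
        exact absurd h1 one_ne_zero
      · rw [h4] at h1
        exact h1
    exact abs_eq_zero.1 h3
  have hreal : ∀ a : Pool.Agent.W642.HG.alg R, (∀ M : Ideal (Pool.Agent.W642.HG.alg R),
      M.IsMaximal → Nonempty (Pool.Agent.W642.HG.alg R ⧸ M ≃+* ℝ) → a ∈ M) → a = 0 := by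
    intro a h
    apply Subtype.ext
    ext z
    have h1 : Pool.Agent.W642.HG.ev z a = 0 :=
      RingHom.mem_ker.1 (h _ (Pool.Agent.W642.HG.max_ev z) (Pool.Agent.W642.HG.real_ev z))
    exact h1
  obtain ⟨X, _, ⟨I, e, he⟩, ⟨ψ⟩⟩ := (H (Pool.Agent.W642.HG.alg R)
    (fun a b c h => Pool.Agent.W642.HG.le_iff.2 fun z =>
      add_le_add (Pool.Agent.W642.HG.le_iff.1 h z) le_rfl)
    (fun a b ha hb => Pool.Agent.W642.HG.le_iff.2 fun z =>
      mul_nonneg (Pool.Agent.W642.HG.le_iff.1 ha z) (Pool.Agent.W642.HG.le_iff.1 hb z))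
    (fun r a hr ha => Pool.Agent.W642.HG.le_iff.2 fun z =>
      mul_nonneg hr (Pool.Agent.W642.HG.le_iff.1 ha z))
    harch (Pool.Agent.W642.HG.le_iff.2 fun z => zero_le_one) hunit).1
    ⟨hreal, fun s f h => Pool.Agent.W642.HG.si_uniform hR s f h,
      fun D _ hD φ => Pool.Agent.W642.HG.si_strong hR D hD φ⟩
  exact Pool.Agent.W642.HG.not_iso hR hR2 e he (ψ : Pool.Agent.W642.HG.alg R ≃+* C(X, ℝ))

end Pool.Agent.S13670
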