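import Pool.Statements.S13672
import Pool.Agent.W668.Uni.Asm2
import Pool.Agent.W668.Uni.Lift

set_option autoImplicit false
open Pool Pool.MP_9f67e3_gt

namespace Pool.Agent.S13672

/-- The negation of the preceding statement: For any smooth, positive, 1-homogeneous, strongly convex Finsler metric on an open set of R^n, if its Landsberg curvature vanishes everywhere, then its Berwald curvature (third y-derivatives of the spray coefficients) vanishes, i.e. it is Berwald. -/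
theorem result :
    ¬ (∀ (n : ℕ) (U : Set (Fin n → ℝ)) (F : (Fin n → ℝ) → (Fin n → ℝ) → ℝ)
      (G : (Fin n → ℝ) → (Fin n → ℝ) → (Fin n → ℝ)),
      IsOpen U →
      ContDiffOn ℝ ((⊤ : ℕ∞) : WithTop ℕ∞)
        (fun p : (Fin n → ℝ) × (Fin n → ℝ) => F p.1 p.2) (U ×ˢ {y | y ≠ 0}) →
      (∀ x ∈ U, ∀ y : Fin n → ℝ, y ≠ 0 → 0 < F x y) →
      (∀ x ∈ U, ∀ y : Fin n → ℝ, ∀ t : ℝ, 0 < t → F x (t • y) = t * F x y) →
      (∀ x ∈ U, ∀ y : Fin n → ℝ, y ≠ 0 → ∀ v : Fin n → ℝ, v ≠ 0 →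
        0 < ∑ i : Fin n, ∑ j : Fin n,
          (1 / 2 : ℝ) * fderiv ℝ (fun w => fderiv ℝ (fun u => F x u ^ 2) w
              (Pi.single j (1 : ℝ) : Fin n → ℝ)) y (Pi.single i (1 : ℝ) : Fin n → ℝ)
            * v i * v j) →
      (∀ x ∈ U, ∀ y : Fin n → ℝ, y ≠ 0 → ∀ l : Fin n,
        ∑ i : Fin n,
          (1 / 2 : ℝ) * fderiv ℝ (fun w => fderiv ℝ (fun u => F x u ^ 2) w
              (Pi.single i (1 : ℝ) : Fin n → ℝ)) y (Pi.single l (1 : ℝ) : Fin n → ℝ)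
            * G x y i
        = (1 / 4 : ℝ) * ((∑ k : Fin n,
              fderiv ℝ (fun z => fderiv ℝ (fun u => F z u ^ 2) y
                (Pi.single l (1 : ℝ) : Fin n → ℝ)) x (Pi.single k (1 : ℝ) : Fin n → ℝ) * y k)
            - fderiv ℝ (fun z => F z y ^ 2) x (Pi.single l (1 : ℝ) : Fin n → ℝ))) →
      (∀ x ∈ U, ∀ y : Fin n → ℝ, y ≠ 0 → ∀ j k l : Fin n,
        ∑ i : Fin n,
          ((1 / 2 : ℝ) * fderiv ℝ (fun u => F x u ^ 2) y (Pi.single i (1 : ℝ) : Fin n → ℝ))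
          * fderiv ℝ (fun w₂ => fderiv ℝ (fun w₁ => fderiv ℝ (fun u => G x u i) w₁
                (Pi.single l (1 : ℝ) : Fin n → ℝ)) w₂ (Pi.single k (1 : ℝ) : Fin n → ℝ)) y
              (Pi.single j (1 : ℝ) : Fin n → ℝ) = 0) →
      ∀ x ∈ U, ∀ y : Fin n → ℝ, y ≠ 0 → ∀ i j k l : Fin n,
        fderiv ℝ (fun w₂ => fderiv ℝ (fun w₁ => fderiv ℝ (fun u => G x u i) w₁
              (Pi.single l (1 : ℝ) : Fin n → ℝ)) w₂ (Pi.single k (1 : ℝ) : Fin n → ℝ)) y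
            (Pi.single j (1 : ℝ) : Fin n → ℝ) = 0) := by
  exact Pool.Agent.W668.Uni.Geo.unicorn (Pool.Agent.W668.Uni.perP Pool.Agent.W668.Uni.Lift.lift)
    Pool.Agent.W87.UniTheta.theta2

end Pool.Agent.S13672
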