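import Pool.Statements.S13772
import Pool.Agent.Helper531.Sine

set_option autoImplicit false
open Pool Pool.MP_b1ea19_gt

namespace Pool.Agent.S13772

open Pool.Agent.Helper531 Topology

/-- components in subsets are compatible with inducing maps -/
theorem image_component {α β : Type*} [TopologicalSpace α] [TopologicalSpace β] {f : α → β}
    (hf : IsInducing f) (hi : Function.Injective f) {s : Set α} {p : α} (hp : p ∈ s) :
    f '' connectedComponentIn s p = connectedComponentIn (f '' s) (f p) := by
  apply Set.Subset.antisymm
  · apply IsPreconnected.subset_connectedComponentIn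
    · exact isPreconnected_connectedComponentIn.image f hf.continuous.continuousOn
    · exact ⟨p, mem_connectedComponentIn hp, rfl⟩
    · exact Set.image_mono (connectedComponentIn_subset s p)
  · have hT : connectedComponentIn (f '' s) (f p) ⊆ f '' s := connectedComponentIn_subset _ _
    have hTr : f '' (f ⁻¹' connectedComponentIn (f '' s) (f p)) =
        connectedComponentIn (f '' s) (f p) := by
      apply Set.image_preimage_eq_of_subset
      exact hT.trans (Set.image_subset_range f s)
    have hpre : IsPreconnected (f ⁻¹' connectedComponentIn (f '' s) (f p)) := by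
      rw [← hf.isPreconnected_image, hTr]
      exact isPreconnected_connectedComponentIn
    have hsub : f ⁻¹' connectedComponentIn (f '' s) (f p) ⊆ connectedComponentIn s p := by
      apply hpre.subset_connectedComponentIn
      · exact mem_connectedComponentIn (Set.mem_image_of_mem f hp)
      · intro x hx
        obtain ⟨y, hy, hyx⟩ := hT hx
        rw [← hi hyx]; exact hy
    rw [← hTr]
    exact Set.image_mono hsub

/-- The negation of the preceding statement: If X is a continuum in which every subcontinuum C has a connected set of local separating points, then any two distinct points of any connected subset of X are joined by an arc lying inside that subset. -/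
theorem result :
    ¬ (∀ (X : Type) [MetricSpace X] [CompactSpace X] [ConnectedSpace X],
      (∀ C : Set X, IsCompact C → IsConnected C →
        IsPreconnected {p : X | p ∈ C ∧ ∃ V : Set X, IsOpen V ∧ p ∈ V ∧
          ¬ IsPreconnected (connectedComponentIn (V ∩ C) p \ {p})}) →
      ∀ A : Set X, IsConnected A → ∀ x ∈ A, ∀ y ∈ A, x ≠ y →
        ∃ f : unitInterval → X, Continuous f ∧ Function.Injective f ∧
          f 0 = x ∧ f 1 = y ∧ Set.range f ⊆ A) := by
  intro h
  haveI : CompactSpace Sine.X := isCompact_iff_compactSpace.mp Sine.X_compact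
  haveI : ConnectedSpace Sine.X := isConnected_iff_connectedSpace.mp Sine.X_connected
  have hv : IsInducing (Subtype.val : Sine.X → ℝ × ℝ) := IsInducing.subtypeVal
  have hvi : Function.Injective (Subtype.val : Sine.X → ℝ × ℝ) := Subtype.val_injective
  have key := h Sine.X (by
    intro C hC hCc
    rw [← hv.isPreconnected_image]
    have hC' : Subtype.val '' C ⊆ Sine.X := by
      rintro _ ⟨x, -, rfl⟩; exact x.2
    have e : (Subtype.val '' {p : Sine.X | p ∈ C ∧ ∃ V : Set Sine.X, IsOpen V ∧ p ∈ V ∧
          ¬ IsPreconnected (connectedComponentIn (V ∩ C) p \ {p})} : Set (ℝ × ℝ)) =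
        LocalSeparatingPoints (Subtype.val '' C) := by
      have main : ∀ (U : Set (ℝ × ℝ)) (p : Sine.X), p ∈ C → p.1 ∈ U →
          (IsPreconnected (connectedComponentIn (Subtype.val ⁻¹' U ∩ C) p \ {p}) ↔
            IsPreconnected (connectedComponentIn (Subtype.val '' C ∩ U) p.1 \ {p.1})) := by
        intro U p hpC hpU
        rw [← hv.isPreconnected_image, Set.image_diff hvi, Set.image_singleton,
          image_component hv hvi (s := Subtype.val ⁻¹' U ∩ C) ⟨hpU, hpC⟩, Set.inter_comm (_ ⁻¹' U),
          Set.image_inter_preimage]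
      ext q
      constructor
      · rintro ⟨p, ⟨hpC, V, hV, hpV, hn⟩, rfl⟩
        obtain ⟨U, hU, rfl⟩ := isOpen_induced_iff.mp hV
        refine ⟨⟨p, hpC, rfl⟩, U, hU, hpV, ?_⟩
        rw [← main U p hpC hpV]
        exact hn
      · rintro ⟨⟨p, hpC, rfl⟩, U, hU, hpU, hn⟩
        refine ⟨p, ⟨hpC, Subtype.val ⁻¹' U, hU.preimage continuous_subtype_val, hpU, ?_⟩, rfl⟩
        rw [main U p hpC hpU]
        exact hn
    rw [e]
    exact Sine.L_preconnected hC' (hC.image continuous_subtype_val)
      (hCc.isPreconnected.image _ continuous_subtype_val.continuousOn))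
  have h00 : ((0:ℝ), (0:ℝ)) ∈ Sine.X :=
    ⟨le_rfl, zero_le_one, by norm_num, fun h => absurd h (lt_irrefl _)⟩
  have h11 : Sine.g 1 ∈ Sine.X := Sine.g_mem one_pos le_rfl
  have hne : (⟨(0, 0), h00⟩ : Sine.X) ≠ ⟨Sine.g 1, h11⟩ := by
    intro he
    have := congrArg (fun p : Sine.X => p.1.1) he
    simp [Sine.g] at this
  obtain ⟨f, hf, -, hf0, hf1, -⟩ := key Set.univ isConnected_univ _ (Set.mem_univ _) _
    (Set.mem_univ _) hne
  refine Sine.no_path (fun t => (f t).1) (continuous_subtype_val.comp hf) ?_ ?_ ?_
  · simp only [hf0]
  · simp only [hf1]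
  · rintro _ ⟨t, rfl⟩
    exact (f t).2

end Pool.Agent.S13772
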