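import Pool.Statements.S13832
import Pool.Agent.Results.MP_2add11_gt.WhStarNontrivial

set_option autoImplicit false
open Pool Pool.MP_bafecb_gt

namespace Pool.Agent.S13832

open Pool.Agent.Results.MP_2add11_gt.WhStarNontrivial in
theorem phi_eq : rho = Monoid.Coprod.lift (MonoidHom.id C5) (1 : FreeGroup (Fin 1) →* C5) := by
  apply Monoid.Coprod.hom_ext
  · ext g
    simp [rho]
  · ext i
    simp [rho]

open Pool.Agent.Results.MP_2add11_gt.WhStarNontrivial in
theorem ker_eq : rho.ker = Subgroup.normalClosure (Set.range rr) := by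
  apply le_antisymm
  · intro u hu
    have h1 : toPi1 rr u = 1 := by
      rw [← DFunLike.congr_fun incl_rho u]
      change incl rr (rho u) = 1
      rw [(MonoidHom.mem_ker).1 hu, map_one]
    exact (QuotientGroup.eq_one_iff _).1 h1
  · exact rho_normal

/-- The relator as a product of conjugates of the generator and its inverse. -/
def LL : List (Pool.Agent.Results.MP_2add11_gt.WhStarNontrivial.Gam × Fin 1 × ℤˣ) :=
  [(1, 0, 1), (Pool.Agent.Results.MP_2add11_gt.WhStarNontrivial.S, 0, 1),
    (Pool.Agent.Results.MP_2add11_gt.WhStarNontrivial.S ^ 2, 0, 1),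
    (Pool.Agent.Results.MP_2add11_gt.WhStarNontrivial.S ^ 3, 0, -1),
    (Pool.Agent.Results.MP_2add11_gt.WhStarNontrivial.S ^ 2, 0, -1)]

open Pool.Agent.Results.MP_2add11_gt.WhStarNontrivial in
theorem rel_eq : rel = (LL.map (fun t =>
        t.1 * Monoid.Coprod.inr (FreeGroup.of t.2.1) ^ ((t.2.2 : ℤˣ) : ℤ) * t.1⁻¹)).prod := by
  have h : (Monoid.Coprod.inr (FreeGroup.of (0 : Fin 1)) : Gam) = X := rfl
  simp only [LL, List.map_cons, List.map_nil, List.prod_cons, List.prod_nil, h, Units.val_one,
    Units.val_neg, zpow_one, zpow_neg_one, rel, A, pow_succ, pow_zero, one_mul, mul_inv_rev]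
  group

open Pool.Agent.Results.MP_2add11_gt.WhStarNontrivial in
theorem single_eq (g : C5) (z : ℤ) :
    (MonoidAlgebra.single g z : R5) = (z : R5) * MonoidAlgebra.of ℤ C5 g := by
  rw [MonoidAlgebra.of_apply, ← zsmul_eq_mul, MonoidAlgebra.smul_single]
  simp

/-- The negation of the preceding statement: For every group π, if relators written as products of conjugates of the x_i give a presentation whose map to π is an isomorphism and whose matrix X is invertible over Zπ, then X stabilised is elementary times a diagonal of ±g, i.e. its Whitehead torsion is zero. -/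
theorem result :
    ¬ (∀ (π : Type) [Group π] (n : ℕ) (r : Fin n → Monoid.Coprod π (FreeGroup (Fin n)))
    (L : Fin n → List (Monoid.Coprod π (FreeGroup (Fin n)) × Fin n × ℤˣ))
    (φ : Monoid.Coprod π (FreeGroup (Fin n)) →* π)
    (X : Matrix (Fin n) (Fin n) (MonoidAlgebra ℤ π)),
    φ = Monoid.Coprod.lift (MonoidHom.id π) (1 : FreeGroup (Fin n) →* π) →
    (∀ i, r i = ((L i).map (fun t =>
        t.1 * Monoid.Coprod.inr (FreeGroup.of t.2.1) ^ ((t.2.2 : ℤˣ) : ℤ) * t.1⁻¹)).prod) →
    (∀ i j, X i j = ((L i).map (fun t =>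
        if t.2.1 = j then MonoidAlgebra.single (φ t.1) ((t.2.2 : ℤˣ) : ℤ) else 0)).sum) →
    φ.ker = Subgroup.normalClosure (Set.range r) →
    IsUnit X →
    ∃ (m : ℕ) (E : List ((Fin n ⊕ Fin m) × (Fin n ⊕ Fin m) × MonoidAlgebra ℤ π))
      (d : Fin n ⊕ Fin m → π) (s : Fin n ⊕ Fin m → ℤˣ),
      (∀ e ∈ E, e.1 ≠ e.2.1) ∧
      Matrix.fromBlocks X 0 0 (1 : Matrix (Fin m) (Fin m) (MonoidAlgebra ℤ π)) =
        (E.map (fun e => (1 : Matrix (Fin n ⊕ Fin m) (Fin n ⊕ Fin m) (MonoidAlgebra ℤ π)) +
            Matrix.of (fun a b => if a = e.1 ∧ b = e.2.1 then e.2.2 else 0))).prod *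
          Matrix.diagonal (fun k => MonoidAlgebra.single (d k) ((s k : ℤˣ) : ℤ))) := by
  intro H
  obtain ⟨m, E, d, s, hE, hM⟩ := H Pool.Agent.Results.MP_2add11_gt.WhStarNontrivial.C5 1
    Pool.Agent.Results.MP_2add11_gt.WhStarNontrivial.rr (fun _ => LL)
    Pool.Agent.Results.MP_2add11_gt.WhStarNontrivial.rho
    Pool.Agent.Results.MP_2add11_gt.WhStarNontrivial.BM phi_eq (fun _ => rel_eq)
    (by
      intro i j
      have hi : i = 0 := Subsingleton.elim _ _
      have hj : j = 0 := Subsingleton.elim _ _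
      subst hi hj
      rw [Pool.Agent.Results.MP_2add11_gt.WhStarNontrivial.BM_apply]
      simp only [LL, List.map_cons, List.map_nil, List.sum_cons, List.sum_nil, if_true,
        map_one, map_pow, Pool.Agent.Results.MP_2add11_gt.WhStarNontrivial.rho_S, single_eq,
        Units.val_one, Units.val_neg, Int.cast_one, Int.cast_neg, one_mul]
      have h : MonoidAlgebra.of ℤ _ Pool.Agent.Results.MP_2add11_gt.WhStarNontrivial.sg =
        Pool.Agent.Results.MP_2add11_gt.WhStarNontrivial.sig := rfl
      rw [h]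
      ring)
    ker_eq Pool.Agent.Results.MP_2add11_gt.WhStarNontrivial.BB.isUnit
  have h1 := congrArg Matrix.det hM
  rw [Matrix.det_fromBlocks_zero₂₁, Matrix.det_one, mul_one, Matrix.det_fin_one,
    Pool.Agent.Results.MP_2add11_gt.WhStarNontrivial.BM_apply, Matrix.det_mul,
    Matrix.det_diagonal] at h1
  have h2 : (E.map (fun e : (Fin 1 ⊕ Fin m) × (Fin 1 ⊕ Fin m) ×
      Pool.Agent.Results.MP_2add11_gt.WhStarNontrivial.R5 => (1 : Matrix (Fin 1 ⊕ Fin m) (Fin 1 ⊕ Fin m)
      Pool.Agent.Results.MP_2add11_gt.WhStarNontrivial.R5) +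
            Matrix.of (fun a b => if a = e.1 ∧ b = e.2.1 then e.2.2 else 0))).prod.det = 1 := by
    clear hM h1
    induction E with
    | nil => simp
    | cons e E ih =>
      rw [List.map_cons, List.prod_cons, Matrix.det_mul, ih (fun e' he' => hE e' (by simp [he'])),
        mul_one]
      have h3 : (Matrix.of (fun a b => if a = e.1 ∧ b = e.2.1 then e.2.2 else 0) :
          Matrix (Fin 1 ⊕ Fin m) (Fin 1 ⊕ Fin m)
            Pool.Agent.Results.MP_2add11_gt.WhStarNontrivial.R5) = Matrix.single e.1 e.2.1 e.2.2 := by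
        ext a b
        simp only [Matrix.of_apply, Matrix.single]
        congr 1
        simp only [eq_comm]
      rw [h3]
      exact Matrix.det_transvection_of_ne _ _ (hE e (by simp)) _
  rw [h2, one_mul] at h1
  have h4 := congrArg (fun z => Pool.Agent.Results.MP_2add11_gt.WhStarNontrivial.psi z ^ 10) h1
  simp only [map_prod] at h4
  rw [← Finset.prod_pow] at h4
  have h5 : Pool.Agent.Results.MP_2add11_gt.WhStarNontrivial.psi
      Pool.Agent.Results.MP_2add11_gt.WhStarNontrivial.sig = 2 := by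
    unfold Pool.Agent.Results.MP_2add11_gt.WhStarNontrivial.sig
    rw [Pool.Agent.Results.MP_2add11_gt.WhStarNontrivial.psi_of]
    rfl
  have h6 : ∀ k, Pool.Agent.Results.MP_2add11_gt.WhStarNontrivial.psi
      (MonoidAlgebra.single (d k) ((s k : ℤˣ) : ℤ)) ^ 10 = 1 := by
    intro k
    rw [single_eq, map_mul, Pool.Agent.Results.MP_2add11_gt.WhStarNontrivial.psi_of]
    have h7 := Pool.Agent.Results.MP_2add11_gt.WhStarNontrivial.chi_pow (d k)
    rcases Int.units_eq_one_or (s k) with h | h
    · rw [h]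
      simpa using h7.1
    · rw [h]
      simpa using h7.2
  rw [Finset.prod_congr rfl (fun k _ => h6 k), Finset.prod_const_one, map_sub, map_add, map_one,
    map_pow, h5] at h4
  revert h4
  decide

end Pool.Agent.S13832
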