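import Pool.Statements.S13885
-- import your own Pool.Agent.* helpers here

set_option autoImplicit false
open Pool Pool.MP_c36963_gt

namespace Pool.Agent.S13885

/-- There exists r : ℂ → ℂ mapping the closed unit disk into the unit circle, fixing the circle, with connected fibers in the disk, such that only finitely many circle points y fail: for all circle sequences s_n → y, every point of the Kuratowski lim sup of the fibers r⁻¹(s_n) lies in r⁻¹(y). -/
theorem result :
    ∃ r : ℂ → ℂ,
      (∀ z ∈ Metric.closedBall (0:ℂ) 1, r z ∈ Metric.sphere (0:ℂ) 1) ∧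
      (∀ y ∈ Metric.sphere (0:ℂ) 1, r y = y) ∧
      (∀ y ∈ Metric.sphere (0:ℂ) 1,
        IsConnected {z : ℂ | z ∈ Metric.closedBall (0:ℂ) 1 ∧ r z = y}) ∧
      Set.Finite {y : ℂ | y ∈ Metric.sphere (0:ℂ) 1 ∧
        ¬ (∀ s : ℕ → ℂ, (∀ n, s n ∈ Metric.sphere (0:ℂ) 1) →
            Filter.Tendsto s Filter.atTop (nhds y) →
            ∀ x : ℂ, (∀ ε : ℝ, ε > 0 → ∀ N : ℕ, ∃ n : ℕ, n ≥ N ∧
                ∃ z : ℂ, z ∈ Metric.closedBall (0:ℂ) 1 ∧ r z = s n ∧ dist z x < ε) →
              r x = y)} := by
  classical
  have key : ∀ y : ℂ, y ∈ Metric.sphere (0:ℂ) 1 → y ≠ 1 → ∀ z : ℂ,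
      (if z ∈ Metric.sphere (0:ℂ) 1 then z else 1) = y → z = y := by
    intro y _ hy1 z hz
    split_ifs at hz with h
    · exact hz
    · exact absurd hz.symm hy1
  refine ⟨fun z => if z ∈ Metric.sphere (0:ℂ) 1 then z else 1, ?_, ?_, ?_, ?_⟩
  · intro z _
    by_cases h : z ∈ Metric.sphere (0:ℂ) 1
    · simp only [h, if_true]
    · simp only [h, if_false]
      simp
  · intro y hy
    simp only [hy, if_true]
  · intro y hy
    by_cases hy1 : y = 1
    · subst hy1
      have hb : IsConnected (Metric.ball (0:ℂ) 1) :=
        ⟨⟨0, by simp⟩, (convex_ball (0:ℂ) 1).isPreconnected⟩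
      refine hb.subset_closure ?_ ?_
      · intro z hz
        have h1 : z ∉ Metric.sphere (0:ℂ) 1 := by
          intro h2
          rw [Metric.mem_ball] at hz
          rw [Metric.mem_sphere] at h2
          linarith
        refine ⟨Metric.ball_subset_closedBall hz, ?_⟩
        simp only [h1, if_false]
      · intro z hz
        rw [closure_ball (0:ℂ) one_ne_zero]
        exact hz.1
    · have : {z : ℂ | z ∈ Metric.closedBall (0:ℂ) 1 ∧
          (fun z => if z ∈ Metric.sphere (0:ℂ) 1 then z else 1) z = y} = {y} := by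
        ext z
        simp only [Set.mem_setOf_eq, Set.mem_singleton_iff]
        constructor
        · rintro ⟨_, h⟩
          exact key y hy hy1 z h
        · rintro rfl
          exact ⟨Metric.sphere_subset_closedBall hy, by simp only [hy, if_true]⟩
      rw [this]
      exact isConnected_singleton
  · refine Set.Finite.subset (Set.finite_singleton (1:ℂ)) ?_
    rintro y ⟨hy, hne⟩
    by_contra hy1
    rw [Set.mem_singleton_iff] at hy1
    apply hne
    intro s hs hsy x hx
    have hxy : x = y := by
      by_contra hxy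
      have hd : 0 < dist x y := dist_pos.mpr hxy
      have hd1 : 0 < dist y 1 := dist_pos.mpr hy1
      rw [Metric.tendsto_atTop] at hsy
      obtain ⟨N, hN⟩ := hsy (min (dist x y / 2) (dist y 1)) (lt_min (by linarith) hd1)
      obtain ⟨n, hn, z, hz, hrz, hzx⟩ := hx (dist x y / 2) (by linarith) N
      have h1 := hN n hn
      have hsn1 : s n ≠ 1 := by
        intro h
        rw [h] at h1
        have := lt_of_lt_of_le h1 (min_le_right _ _)
        rw [dist_comm] at this
        exact lt_irrefl _ this
      have hzs : z = s n := key (s n) (hs n) hsn1 z hrz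
      rw [hzs] at hzx
      have h2 := lt_of_lt_of_le h1 (min_le_left _ _)
      have h3 := dist_triangle_left x y (s n)
      linarith
    rw [hxy]
    simp only [hy, if_true]

end Pool.Agent.S13885
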