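import Pool.Statements.S13956
import Pool.Agent.W28.Slip.Lo
-- import your own Pool.Agent.* helpers here

set_option autoImplicit false
open Pool Pool.MP_ccb0d0_gt

namespace Pool.Agent.S13956

/-- The negation of the preceding statement: For a positive word w = a^α1 b^β1 … a^αm b^βm and reals r, s: if the maximal rotation number of w over lifted circle homeomorphisms a, b with rotation numbers r, s is p/q in lowest terms, then ∣p/q − (Σα)r − (Σβ)s∣ ≤ m/q. -/
theorem result :
    ¬ (∀ (m : ℕ) (α β : Fin m → ℕ), 0 < m → (∀ i, 0 < α i) → (∀ i, 0 < β i) →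
    ∀ (r s : ℝ) (x : ℚ),
      sSup {t : ℝ | ∃ a b : CircleDeg1Liftˣ,
          CircleDeg1Lift.translationNumber (a : CircleDeg1Lift) = r ∧
          CircleDeg1Lift.translationNumber (b : CircleDeg1Lift) = s ∧
          t = CircleDeg1Lift.translationNumber
            ((List.ofFn fun i => (a : CircleDeg1Lift) ^ (α i) * (b : CircleDeg1Lift) ^ (β i)).prod)}
        = (x : ℝ) →
      |(x : ℝ) - (∑ i, (α i : ℝ)) * r - (∑ i, (β i : ℝ)) * s| ≤ (m : ℝ) / (x.den : ℝ)) := by
  intro H
  have hw : ∀ a b : CircleDeg1Lift,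
      (List.ofFn fun i : Fin W28.Slip.L.length =>
        a ^ (W28.Slip.L.get i).1 * b ^ (W28.Slip.L.get i).2).prod = W28.Slip.wd a b W28.Slip.L := by
    intro a b
    unfold W28.Slip.wd
    have : (List.ofFn fun i : Fin W28.Slip.L.length =>
        a ^ (W28.Slip.L.get i).1 * b ^ (W28.Slip.L.get i).2) =
        (List.ofFn W28.Slip.L.get).map (fun p : ℕ × ℕ => a ^ p.1 * b ^ p.2) := by
      rw [List.map_ofFn]; rfl
    rw [this, List.ofFn_get]
  have h := H W28.Slip.L.length (fun i => (W28.Slip.L.get i).1) (fun i => (W28.Slip.L.get i).2)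
    (by decide) (by decide) (by decide) (1 / 4) (1 / 5) (39 / 2) (by
      apply IsGreatest.csSup_eq
      constructor
      · obtain ⟨a, b, ha, hb, hab⟩ := W28.Slip.exists_pair
        refine ⟨a, b, ha, hb, ?_⟩
        rw [hw, hab]; norm_num
      · rintro t ⟨a, b, ha, hb, rfl⟩
        rw [hw]
        have := W28.Slip.upper a b ha hb
        push_cast
        exact this)
  have hden : ((39 / 2 : ℚ)).den = 2 := by
    have : (39 / 2 : ℚ) = mkRat 39 2 := by norm_num
    rw [this]; decide
  have hA : (∑ i : Fin W28.Slip.L.length, (((W28.Slip.L.get i).1 : ℕ) : ℝ)) = 23 := by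
    have : ∑ i : Fin W28.Slip.L.length, (W28.Slip.L.get i).1 = 23 := by decide +kernel
    exact_mod_cast this
  have hB : (∑ i : Fin W28.Slip.L.length, (((W28.Slip.L.get i).2 : ℕ) : ℝ)) = 21 := by
    have : ∑ i : Fin W28.Slip.L.length, (W28.Slip.L.get i).2 = 21 := by decide +kernel
    exact_mod_cast this
  have hL : W28.Slip.L.length = 19 := rfl
  rw [hA, hB, hden] at h
  have h2 := (abs_le.1 h).2
  have h3 : ((W28.Slip.L.length : ℕ) : ℝ) = 19 := by rw [hL]; norm_num
  rw [h3] at h2
  push_cast at h2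
  norm_num at h2

end Pool.Agent.S13956
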