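import Pool.Statements.S14023
import Pool.Agent.W541.Global

set_option autoImplicit false
open Pool Pool.MP_d63641_gt

namespace Pool.Agent.S14023

/-- There is a smooth metric on T^2 x R^2 (same as T^2 x open disc), given as a periodic metric on R^4, with the torus {0} totally geodesic and flat, and sectional curvature strictly positive at every point off that torus. -/
theorem result :
    ∃ g : Fin 4 → Fin 4 → (Fin 4 → ℝ) → ℝ,
    ∃ Γ : Fin 4 → Fin 4 → Fin 4 → (Fin 4 → ℝ) → ℝ,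
    ∃ R : Fin 4 → Fin 4 → Fin 4 → Fin 4 → (Fin 4 → ℝ) → ℝ,
      (∀ i j : Fin 4, ∀ n : ℕ, ContDiff ℝ n (g i j)) ∧
      (∀ i j : Fin 4, ∀ x : Fin 4 → ℝ, g i j x = g j i x) ∧
      (∀ x v : Fin 4 → ℝ, v ≠ 0 → 0 < ∑ i, ∑ j, g i j x * v i * v j) ∧
      (∀ i j : Fin 4, ∀ x : Fin 4 → ℝ,
        g i j (x + (Pi.single 0 1 : Fin 4 → ℝ)) = g i j x ∧
        g i j (x + (Pi.single 1 1 : Fin 4 → ℝ)) = g i j x) ∧
      (∀ a k l : Fin 4, ∀ x : Fin 4 → ℝ,
        Γ a k l x = (fderiv ℝ (g l a) x (Pi.single k 1) + fderiv ℝ (g k a) x (Pi.single l 1)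
          - fderiv ℝ (g k l) x (Pi.single a 1)) / 2) ∧
      (∀ i k l m : Fin 4, ∀ x : Fin 4 → ℝ,
        R i k l m x =
          (fderiv ℝ (fun y => fderiv ℝ (g i m) y (Pi.single k 1)) x (Pi.single l 1)
            + fderiv ℝ (fun y => fderiv ℝ (g k l) y (Pi.single i 1)) x (Pi.single m 1)
            - fderiv ℝ (fun y => fderiv ℝ (g i l) y (Pi.single k 1)) x (Pi.single m 1)
            - fderiv ℝ (fun y => fderiv ℝ (g k m) y (Pi.single i 1)) x (Pi.single l 1)) / 2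
          + ∑ a, ∑ b, (Matrix.of fun p q => g p q x)⁻¹ a b *
              (Γ a k l x * Γ b i m x - Γ a k m x * Γ b i l x)) ∧
      (∀ x : Fin 4 → ℝ, x 2 = 0 → x 3 = 0 →
        (∀ i j n : Fin 4, i.val < 2 → j.val < 2 → 2 ≤ n.val →
          ∑ a, (Matrix.of fun p q => g p q x)⁻¹ n a * Γ a i j x = 0) ∧
        R 0 1 0 1 x = 0) ∧
      (∀ x : Fin 4 → ℝ, (x 2 ≠ 0 ∨ x 3 ≠ 0) →
        ∀ u v : Fin 4 → ℝ, LinearIndependent ℝ ![u, v] →
          0 < ∑ i, ∑ k, ∑ l, ∑ m, R i k l m x * u i * v k * u l * v m) := by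
  obtain ⟨e, δ, _, _, hpd, hflat, hpos⟩ := W541.main_exists
  refine ⟨W541.gg e δ, W541.gam (W541.gg e δ), W541.riem (W541.gg e δ),
    W541.gg_contDiff e δ, W541.gg_symm e δ, hpd, W541.gg_per e δ, fun _ _ _ _ => rfl,
    fun _ _ _ _ _ => rfl, fun x h2 h3 => ⟨fun i j n hi hj _ => ?_, (hflat x h2 h3).2⟩, hpos⟩
  refine Finset.sum_eq_zero fun a _ => ?_
  rw [(hflat x h2 h3).1 i j a hi hj, mul_zero]

end Pool.Agent.S14023
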