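import Pool.Statements.S14047
import Pool.Agent.W641.Groth
import Pool.Agent.W641.Frechet
import Pool.Agent.Helper639.AL

set_option autoImplicit false
open Pool Pool.MP_d985ac_gt

namespace Pool.Agent.S14047

open Set Filter Topology Pool.Agent.W641 Pool.Agent.Helper639.Ebl

/-- countable compactness in terms of cluster points of sequences -/
theorem cluster {Y : Type*} [TopologicalSpace Y] (K : Set Y)
    (h : ∀ U : ℕ → Set Y, (∀ n, IsOpen (U n)) → K ⊆ ⋃ n, U n →
      ∃ N : ℕ, K ⊆ ⋃ n ∈ Finset.range N, U n) (s : ℕ → K) : ∃ z : K, MapClusterPt z atTop s := by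
  by_contra hcon
  push Not at hcon
  let U : ℕ → Set Y := fun n => (closure ((fun i => (s i : Y)) '' Ici n))ᶜ
  obtain ⟨N, hN⟩ := h U (fun n => isClosed_closure.isOpen_compl) (by
    intro z hz
    have h1 := hcon ⟨z, hz⟩
    rw [mapClusterPt_iff_frequently] at h1
    push Not at h1
    obtain ⟨V, hV, hV2⟩ := h1
    rw [Filter.eventually_atTop] at hV2
    obtain ⟨n, hn⟩ := hV2
    rw [mem_iUnion]
    refine ⟨n, fun hmem => ?_⟩
    rw [nhds_subtype_eq_comap, mem_comap] at hV
    obtain ⟨T, hT, hTV⟩ := hV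
    obtain ⟨y, hyT, i, hi, rfl⟩ := mem_closure_iff_nhds.mp hmem T hT
    exact hn i hi (hTV hyT))
  have h2 := hN (s N).2
  rw [mem_iUnion₂] at h2
  obtain ⟨n, hn, hn2⟩ := h2
  exact hn2 (subset_closure ⟨N, (Finset.mem_range.mp hn).le, rfl⟩)

theorem bdd_of_cluster {Y : Type*} [TopologicalSpace Y]
    (h : ∀ s : ℕ → Y, ∃ z : Y, MapClusterPt z atTop s) (f : Y → ℝ) (hf : Continuous f) :
    ∃ C : ℝ, ∀ y, |f y| ≤ C := by
  by_contra hcon
  push Not at hcon
  choose s hs using fun n : ℕ => hcon n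
  obtain ⟨z, hz⟩ := h s
  have h1 : MapClusterPt (f z) atTop (fun n => f (s n)) := hz.continuousAt_comp (f := f) hf.continuousAt
  have h2 := (mapClusterPt_iff_frequently.mp h1) (Metric.ball (f z) 1) (Metric.ball_mem_nhds _ one_pos)
  obtain ⟨m, hm⟩ := exists_nat_gt (|f z| + 1)
  obtain ⟨n, hn1, hn2⟩ := (h2.and_eventually (eventually_ge_atTop m)).exists
  rw [Metric.mem_ball, Real.dist_eq] at hn1
  have h3 := hs n
  have h4 : (m : ℝ) ≤ n := by exact_mod_cast hn2
  have h5 : |f (s n)| ≤ |f z| + 1 := by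
    have := abs_sub_abs_le_abs_sub (f (s n)) (f z)
    linarith
  linarith

theorem isCompact_closure_pointwise {Y J : Type*} (φ : J → Y → ℝ) (B : Set J)
    (h : ∀ y, ∃ C : ℝ, ∀ j ∈ B, |φ j y| ≤ C) : IsCompact (closure (φ '' B)) := by
  choose C hC using h
  have h1 : IsCompact (Set.pi univ fun y => Icc (-C y) (C y)) :=
    isCompact_univ_pi fun y => isCompact_Icc
  refine h1.of_isClosed_subset isClosed_closure (closure_minimal ?_ h1.isClosed)
  rintro _ ⟨j, hj, rfl⟩ y _
  exact abs_le.mp (hC y j hj)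

theorem cluster_of_compact {Y : Type*} [TopologicalSpace Y] [CompactSpace Y] (s : ℕ → Y) :
    ∃ z : Y, MapClusterPt z atTop s := by
  obtain ⟨z, -, hz⟩ := isCompact_univ (X := Y) (f := map s atTop) (by simp)
  exact ⟨z, hz⟩

/-- For a Tychonoff space X with a dense countable union of bounded sets, every countably compact set of continuous functions in C_p(X) is compact and embeds into c_0(Γ) with the pointwise topology, i.e. is Eberlein compact. -/
theorem result :
    ∀ (X : Type) [TopologicalSpace X] [T35Space X],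
      (∃ A : ℕ → Set X,
          (∀ n, ∀ f : X → ℝ, Continuous f → ∃ C : ℝ, ∀ x ∈ A n, |f x| ≤ C) ∧
          Dense (⋃ n, A n)) →
      ∀ K : Set (X → ℝ), (∀ f ∈ K, Continuous f) →
        (∀ U : ℕ → Set (X → ℝ), (∀ n, IsOpen (U n)) → K ⊆ ⋃ n, U n →
            ∃ N : ℕ, K ⊆ ⋃ n ∈ Finset.range N, U n) →
        IsCompact K ∧
          ∃ (Γ : Type) (e : K → (Γ → ℝ)), Topology.IsEmbedding e ∧
            ∀ k : K, ∀ ε : ℝ, 0 < ε → {γ : Γ | ε ≤ |e k γ|}.Finite := by
  intro X _ _ ⟨A, hA, hdense⟩ K hK hcc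
  have hseq : ∀ s : ℕ → K, ∃ z : K, MapClusterPt z atTop s := cluster K hcc
  have hbdK : ∀ f : K → ℝ, Continuous f → ∃ C : ℝ, ∀ k ∈ (univ : Set K), |f k| ≤ C := by
    intro f hf
    obtain ⟨C, hC⟩ := bdd_of_cluster hseq f hf
    exact ⟨C, fun k _ => hC k⟩
  -- evaluation
  let ev : X → K → ℝ := fun x k => k.1 x
  have hev1 : ∀ k, Continuous fun x => ev x k := fun k => hK k.1 k.2
  have hev2 : ∀ x, Continuous (ev x) := fun x => (continuous_apply x).comp continuous_subtype_val
  let C : ℕ → Set (K → ℝ) := fun n => closure (ev '' A n)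
  have hCc : ∀ n, IsCompact (C n) := fun n =>
    isCompact_closure_pointwise ev (A n) (fun k => hA n (fun x => k.1 x) (hK k.1 k.2))
  have hCcont : ∀ n, ∀ c ∈ C n, Continuous c := fun n c hc =>
    groth hseq (A n) (hA n) ev hev1 hev2 c hc
  have hCcomp : ∀ n, CompactSpace (C n) := fun n => isCompact_iff_compactSpace.mp (hCc n)
  let φ : (n : ℕ) → K → C n → ℝ := fun n k c => c.1 k
  have hφ1 : ∀ n c, Continuous fun k => φ n k c := fun n c => hCcont n c.1 c.2
  have hφ2 : ∀ n k, Continuous (φ n k) := fun n k => (continuous_apply k).comp continuous_subtype_val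
  let L : (n : ℕ) → Set (C n → ℝ) := fun n => closure (φ n '' univ)
  have hLc : ∀ n, IsCompact (L n) := fun n =>
    isCompact_closure_pointwise (φ n) univ (fun c => hbdK c.1 (hCcont n c.1 c.2))
  have hLcont : ∀ n, ∀ l ∈ L n, Continuous l := fun n l hl =>
    groth (fun s => cluster_of_compact s) univ hbdK (φ n) (hφ1 n) (hφ2 n) l hl
  have hLcomp : ∀ n, CompactSpace (L n) := fun n => isCompact_iff_compactSpace.mp (hLc n)
  have hal : ∀ n, ∃ (Γ : Type) (h : L n → Γ → ℝ), C0 h ∧ Function.Injective h := by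
    intro n
    refine al (fun (l : L n) (c : C n) => l.1 c) (fun c => ?_) (fun l => hLcont n l.1 l.2) ?_
    · exact (continuous_apply c).comp continuous_subtype_val
    · intro x y hxy
      exact Subtype.ext (funext hxy)
  choose Γ h hh hinj using hal
  let i : (n : ℕ) → K → L n := fun n k => ⟨φ n k, subset_closure ⟨k, mem_univ _, rfl⟩⟩
  have hic : ∀ n, Continuous (i n) := fun n =>
    Continuous.subtype_mk (continuous_pi fun c => hφ1 n c) _
  -- the compact product
  let P : Type := (n : ℕ) → L n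
  have hPC0 : ∀ n, C0 (fun (p : P) => h n (p n)) := fun n =>
    ⟨fun γ => ((hh n).cont γ).comp (continuous_apply n), fun p γ => (hh n).bd (p n) γ,
      fun p => (hh n).fin (p n)⟩
  let E : P → (Σ n, Γ n) → ℝ := fun p q => h q.1 (p q.1) q.2 / ((q.1 : ℝ) + 1)
  have hE : C0 E := C0.sigma hPC0
  have hEc : Continuous E := continuous_pi hE.cont
  have hEinj : Function.Injective E := by
    intro p q hpq
    funext n
    apply hinj n
    funext γ
    have h1 := congrFun hpq ⟨n, γ⟩
    have hp : (0 : ℝ) < (n : ℝ) + 1 := by positivity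
    exact (div_left_inj' hp.ne').mp h1
  let I : K → P := fun k n => i n k
  have hIc : Continuous I := continuous_pi hic
  have hIinj : Function.Injective I := by
    intro k k' hkk'
    apply Subtype.ext
    have hcont1 := hK k.1 k.2
    have hcont2 := hK k'.1 k'.2
    refine Continuous.ext_on hdense hcont1 hcont2 ?_
    intro x hx
    obtain ⟨n, hn⟩ := mem_iUnion.mp hx
    have h1 : i n k = i n k' := congrFun hkk' n
    have h2 : φ n k = φ n k' := congrArg Subtype.val h1
    exact congrFun h2 ⟨ev x, subset_closure ⟨x, hn, rfl⟩⟩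
  let e : K → (Σ n, Γ n) → ℝ := fun k => E (I k)
  have hec : Continuous e := hEc.comp hIc
  have heinj : Function.Injective e := hEinj.comp hIinj
  have hefin : ∀ k : K, ∀ ε : ℝ, 0 < ε → {γ | ε ≤ |e k γ|}.Finite := fun k => hE.fin (I k)
  have hrange : IsCompact (range E) := isCompact_range hEc
  have hclosed : IsClosedMap e := by
    intro S hS
    refine isClosed_of_closure_subset fun p hp => ?_
    have hpE : p ∈ range E := by
      refine closure_minimal ?_ hrange.isClosed hp
      rintro _ ⟨k, -, rfl⟩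
      exact ⟨I k, rfl⟩
    obtain ⟨q, rfl⟩ := hpE
    obtain ⟨s, hs, hlim⟩ := c0_frechet e hefin S (E q) (hE.fin q) hp
    obtain ⟨z, hz⟩ := hseq s
    have hzS : z ∈ S := mapClusterPt_closed hz hS hs
    refine ⟨z, hzS, ?_⟩
    have h1 : MapClusterPt (e z) atTop (fun n => e (s n)) := hz.continuousAt_comp (f := e) hec.continuousAt
    exact mapClusterPt_eq_of_tendsto h1 (tendsto_pi_nhds.mpr hlim)
  have hemb : IsClosedEmbedding e := IsClosedEmbedding.of_continuous_injective_isClosedMap hec heinj hclosed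
  refine ⟨?_, Σ n, Γ n, e, hemb.isEmbedding, hefin⟩
  rw [isCompact_iff_compactSpace]
  have h1 : IsCompact (e ⁻¹' (range E)) := hemb.isCompact_preimage hrange
  have h2 : e ⁻¹' (range E) = univ := eq_univ_of_forall fun k => ⟨I k, rfl⟩
  rw [h2] at h1
  exact ⟨h1⟩

end Pool.Agent.S14047
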