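import Pool.Statements.S14090
import Pool.Agent.W620.K5

set_option autoImplicit false
open Pool Pool.MP_de0764_gt

namespace Pool.Agent.S14090

/-- The negation of the preceding statement: Take any nondegenerate locally connected metric continuum Y in which every subcontinuum without cut points is completely regular. Then some plane continuum X has a continuous open surjection onto Y whose fibers are all nondegenerate decomposable continua. -/
theorem result :
    ¬ (∀ (Y : Type) [TopologicalSpace Y] [TopologicalSpace.MetrizableSpace Y] [CompactSpace Y]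
      [ConnectedSpace Y] [LocallyConnectedSpace Y] [Nontrivial Y],
      (∀ K : Set Y, IsClosed K → IsConnected K → (∀ p ∈ K, IsPreconnected (K \ {p})) →
        ∀ L : Set Y, L ⊆ K → IsClosed L → IsConnected L → L.Nontrivial →
          ∃ U : Set Y, IsOpen U ∧ (U ∩ K).Nonempty ∧ U ∩ K ⊆ L) →
      ∃ (S : Set (EuclideanSpace ℝ (Fin 2))) (f : ↥S → Y),
        IsCompact S ∧ IsConnected S ∧ Continuous f ∧ IsOpenMap f ∧ Function.Surjective f ∧
        ∀ y : Y,
          IsConnected (Subtype.val '' (f ⁻¹' {y})) ∧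
          (Subtype.val '' (f ⁻¹' {y})).Nontrivial ∧
          ∃ A B : Set (EuclideanSpace ℝ (Fin 2)),
            IsClosed A ∧ IsConnected A ∧ IsClosed B ∧ IsConnected B ∧
            A ⊂ Subtype.val '' (f ⁻¹' {y}) ∧ B ⊂ Subtype.val '' (f ⁻¹' {y}) ∧
            A ∪ B = Subtype.val '' (f ⁻¹' {y})) := by
  intro h
  obtain ⟨S, f, hS, _, hf, _, _, hfib⟩ := h Pool.Agent.W620.K5.G (by
    intro K _ _ _ L hLK _ hL hn
    obtain ⟨U, h1, h2, h3⟩ := Pool.Agent.W620.K5.regular hL.isPreconnected hn
    refine ⟨U, h1, ?_, fun x hx => h3 hx.1⟩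
    obtain ⟨x, hx⟩ := h2
    exact ⟨x, hx, hLK (h3 hx)⟩)
  refine Pool.Agent.W620.K5.no_map S f hS hf (fun y => ?_)
  obtain ⟨h1, _, _⟩ := hfib y
  exact ⟨h1.nonempty.of_image,
    (Topology.IsInducing.subtypeVal.isPreconnected_image).1 h1.isPreconnected⟩

end Pool.Agent.S14090
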