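-- Frozen statement S14115 (MP_e09f5c_gt): for every m > 1 the parallel transport field has the minimal volume.
-- Proof: calibration argument of the starting files (Helper82.OS, Helper971.OS, Helper734, H248.UB) with the
-- pointwise inequality for all m (W546.ST for m from 3 to 23, W546.N4 for m = 2).
import Pool.Statements.S14115
import Pool.Agent.W546.N4.Final
import Pool.Agent.W721.N4.HAUS

set_option autoImplicit false
open Pool Pool.MP_e09f5c_gt

namespace Pool.Agent.S14115

/-- For m>1, with vol the Sasaki volume of a unit field on S^(2m+1), the parallel transport field P has volume equal to the infimum of volumes of smooth unit tangent fields: no smooth field beats it, and smooth fields come arbitrarily close. -/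
theorem result :
    ∀ m : ℕ, 1 < m →
    ∀ vol : (EuclideanSpace ℝ (Fin (2 * m + 2)) → EuclideanSpace ℝ (Fin (2 * m + 2))) → ℝ,
    (∀ W : EuclideanSpace ℝ (Fin (2 * m + 2)) → EuclideanSpace ℝ (Fin (2 * m + 2)),
      vol W = ∫ x in Metric.sphere (0 : EuclideanSpace ℝ (Fin (2 * m + 2))) 1,
        Real.sqrt (LinearMap.det
          (((1 : EuclideanSpace ℝ (Fin (2 * m + 2)) →L[ℝ] EuclideanSpace ℝ (Fin (2 * m + 2)))
            + ContinuousLinearMap.adjoint
                ((ContinuousLinearMap.id ℝ (EuclideanSpace ℝ (Fin (2 * m + 2)))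
                    - (innerSL ℝ x).smulRight x) * fderiv ℝ W x
                  * (ContinuousLinearMap.id ℝ (EuclideanSpace ℝ (Fin (2 * m + 2)))
                    - (innerSL ℝ x).smulRight x))
              * ((ContinuousLinearMap.id ℝ (EuclideanSpace ℝ (Fin (2 * m + 2)))
                    - (innerSL ℝ x).smulRight x) * fderiv ℝ W x
                  * (ContinuousLinearMap.id ℝ (EuclideanSpace ℝ (Fin (2 * m + 2)))
                    - (innerSL ℝ x).smulRight x))).toLinearMap))
        ∂(MeasureTheory.Measure.hausdorffMeasure ((2 * m + 1 : ℕ) : ℝ))) →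
    ∀ a v : EuclideanSpace ℝ (Fin (2 * m + 2)), ‖a‖ = 1 → ‖v‖ = 1 → inner ℝ a v = 0 →
      (∀ V : EuclideanSpace ℝ (Fin (2 * m + 2)) → EuclideanSpace ℝ (Fin (2 * m + 2)),
          ContDiff ℝ (⊤ : ℕ∞) V →
          (∀ x ∈ Metric.sphere (0 : EuclideanSpace ℝ (Fin (2 * m + 2))) 1,
              inner ℝ x (V x) = 0 ∧ ‖V x‖ = 1) →
          vol (fun y => v - (inner ℝ v y / (1 + inner ℝ y a)) • (y + a)) ≤ vol V) ∧
      (∀ ε : ℝ, 0 < ε →
        ∃ V : EuclideanSpace ℝ (Fin (2 * m + 2)) → EuclideanSpace ℝ (Fin (2 * m + 2)),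
          ContDiff ℝ (⊤ : ℕ∞) V ∧
          (∀ x ∈ Metric.sphere (0 : EuclideanSpace ℝ (Fin (2 * m + 2))) 1,
              inner ℝ x (V x) = 0 ∧ ‖V x‖ = 1) ∧
          vol V < vol (fun y => v - (inner ℝ v y / (1 + inner ℝ y a)) • (y + a)) + ε) := 
  Pool.Agent.W721.N4.HAUS fun _ hm _ hV => (Pool.Agent.W546.N4.strict hm hV).le

end Pool.Agent.S14115
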