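import Pool.Statements.S14156
import Pool.Agent.W710.DP.Asm
import Pool.Agent.W632.DP.Sub
import Pool.Agent.W103.DP.Sup
import Pool.Agent.W710.DP.TanC
import Pool.Agent.W991.DP.Steps
import Pool.Agent.W853.DP.Lift
import Pool.Agent.W293.DP.Evtw

set_option autoImplicit false
open Pool Pool.MP_e8131c_gt

namespace Pool.Agent.S14156

/-- The negation of the preceding statement: Every smooth diffeomorphism of the plane with Jacobian determinant identically 1 is a product of commutators of such diffeomorphisms, i.e. the group of area-preserving diffeomorphisms of ℝ² is perfect. -/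
theorem result :
    ¬ (∀ f : Equiv.Perm (Fin 2 → ℝ),
      (ContDiff ℝ ((⊤ : ℕ∞) : WithTop ℕ∞) (⇑f) ∧
        ContDiff ℝ ((⊤ : ℕ∞) : WithTop ℕ∞) (⇑(Equiv.symm f)) ∧
        ∀ x : Fin 2 → ℝ,
          LinearMap.det ((fderiv ℝ (⇑f) x : (Fin 2 → ℝ) →L[ℝ] (Fin 2 → ℝ)) :
            (Fin 2 → ℝ) →ₗ[ℝ] (Fin 2 → ℝ)) = 1) →
      f ∈ Subgroup.closure
        {c : Equiv.Perm (Fin 2 → ℝ) | ∃ a b : Equiv.Perm (Fin 2 → ℝ),
          (ContDiff ℝ ((⊤ : ℕ∞) : WithTop ℕ∞) (⇑a) ∧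
            ContDiff ℝ ((⊤ : ℕ∞) : WithTop ℕ∞) (⇑(Equiv.symm a)) ∧
            ∀ x : Fin 2 → ℝ,
              LinearMap.det ((fderiv ℝ (⇑a) x : (Fin 2 → ℝ) →L[ℝ] (Fin 2 → ℝ)) :
                (Fin 2 → ℝ) →ₗ[ℝ] (Fin 2 → ℝ)) = 1) ∧
          (ContDiff ℝ ((⊤ : ℕ∞) : WithTop ℕ∞) (⇑b) ∧
            ContDiff ℝ ((⊤ : ℕ∞) : WithTop ℕ∞) (⇑(Equiv.symm b)) ∧
            ∀ x : Fin 2 → ℝ,
              LinearMap.det ((fderiv ℝ (⇑b) x : (Fin 2 → ℝ) →L[ℝ] (Fin 2 → ℝ)) :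
                (Fin 2 → ℝ) →ₗ[ℝ] (Fin 2 → ℝ)) = 1) ∧
          c = a * b * a⁻¹ * b⁻¹}) :=
  W710.DP.asm W632.DP.t_sub W103.DP.t_sup W710.DP.TanC.t_tan W991.DP.t_steps W853.DP.t_lift
    (W293.DP.t_evtw W293.DP.t_orb W293.DP.t_ang)

end Pool.Agent.S14156
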