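import Pool.Statements.S14169
import Pool.Agent.W553.PM.PartA
import Pool.Agent.W553.PM.PartB
import Pool.Agent.W553.PM.All

set_option autoImplicit false
open Pool Pool.MP_ec5bc9_gt

namespace Pool.Agent.S14169

/-- Every projective-metric plane (affine or RP^2 type) in which every parabolic conic {X : d(X,F) = d(X,L)} is the plane cut with a parabola (a full projective conic in the RP^2 case) is, after scaling d, isometric to the Euclidean, Klein hyperbolic or elliptic plane. -/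
theorem result :
    (∀ (M : Set (EuclideanSpace ℝ (Fin 2)))
        (d : EuclideanSpace ℝ (Fin 2) → EuclideanSpace ℝ (Fin 2) → ℝ),
      IsOpen M → Convex ℝ M → M.Nonempty →
      (∀ x ∈ M, ∀ y ∈ M, (d x y = 0 ↔ x = y)) →
      (∀ x ∈ M, ∀ y ∈ M, d x y = d y x) →
      (∀ x ∈ M, ∀ y ∈ M, ∀ z ∈ M, d x z ≤ d x y + d y z) →
      (∀ x ∈ M, Filter.HasBasis (nhdsWithin x M) (fun r : ℝ => 0 < r)
          (fun r => {y | y ∈ M ∧ d x y < r})) →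
      (∀ x ∈ M, ∀ y ∈ M, ∀ z ∈ M, y ∈ segment ℝ x z → d x z = d x y + d y z) →
      (∀ x ∈ M, ∀ y ∈ M, ∀ z ∈ M,
          ¬ Collinear ℝ ({x, y, z} : Set (EuclideanSpace ℝ (Fin 2))) →
          d x z < d x y + d y z) →
      (∀ p ∈ M, ∀ q ∈ M, p ≠ q → ∀ F ∈ M, F ∉ affineSpan ℝ {p, q} →
          ∃ a b c : EuclideanSpace ℝ (Fin 2), LinearIndependent ℝ ![b, c] ∧
            {X | X ∈ M ∧ d X F = sInf ((fun Y => d X Y) ''
                ((affineSpan ℝ {p, q} : Set (EuclideanSpace ℝ (Fin 2))) ∩ M))}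
              = M ∩ Set.range (fun t : ℝ => a + t • b + (t ^ 2) • c)) →
      ∃ c : ℝ, 0 < c ∧ ∃ f : EuclideanSpace ℝ (Fin 2) → EuclideanSpace ℝ (Fin 2),
        (Set.BijOn f M Set.univ ∧ ∀ x ∈ M, ∀ y ∈ M, c * d x y = dist (f x) (f y)) ∨
        (Set.BijOn f M (Metric.ball 0 1) ∧ ∀ x ∈ M, ∀ y ∈ M,
          Real.cosh (c * d x y) = (1 - inner ℝ (f x) (f y)) /
            Real.sqrt ((1 - ‖f x‖ ^ 2) * (1 - ‖f y‖ ^ 2)))) ∧
    (∀ d : EuclideanSpace ℝ (Fin 3) → EuclideanSpace ℝ (Fin 3) → ℝ,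
      (∀ x ∈ Metric.sphere (0 : EuclideanSpace ℝ (Fin 3)) 1,
        ∀ y ∈ Metric.sphere (0 : EuclideanSpace ℝ (Fin 3)) 1, (d x y = 0 ↔ (x = y ∨ x = -y))) →
      (∀ x ∈ Metric.sphere (0 : EuclideanSpace ℝ (Fin 3)) 1,
        ∀ y ∈ Metric.sphere (0 : EuclideanSpace ℝ (Fin 3)) 1, d x y = d y x) →
      (∀ x ∈ Metric.sphere (0 : EuclideanSpace ℝ (Fin 3)) 1,
        ∀ y ∈ Metric.sphere (0 : EuclideanSpace ℝ (Fin 3)) 1, d (-x) y = d x y) →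
      (∀ x ∈ Metric.sphere (0 : EuclideanSpace ℝ (Fin 3)) 1,
        ∀ y ∈ Metric.sphere (0 : EuclideanSpace ℝ (Fin 3)) 1,
        ∀ z ∈ Metric.sphere (0 : EuclideanSpace ℝ (Fin 3)) 1, d x z ≤ d x y + d y z) →
      (∀ x ∈ Metric.sphere (0 : EuclideanSpace ℝ (Fin 3)) 1,
        Filter.HasBasis
          (nhdsWithin x (Metric.sphere (0 : EuclideanSpace ℝ (Fin 3)) 1) ⊔
            nhdsWithin (-x) (Metric.sphere (0 : EuclideanSpace ℝ (Fin 3)) 1))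
          (fun r : ℝ => 0 < r)
          (fun r => {y | y ∈ Metric.sphere (0 : EuclideanSpace ℝ (Fin 3)) 1 ∧ d x y < r})) →
      (∃ L : ℝ, 0 < L ∧ ∀ n : EuclideanSpace ℝ (Fin 3), n ≠ 0 →
        ∃ γ : ℝ → EuclideanSpace ℝ (Fin 3),
          (∀ t, γ t ∈ Metric.sphere (0 : EuclideanSpace ℝ (Fin 3)) 1 ∧ inner ℝ n (γ t) = 0) ∧
          (∀ x ∈ Metric.sphere (0 : EuclideanSpace ℝ (Fin 3)) 1, inner ℝ n x = 0 →
            ∃ t, γ t = x ∨ γ t = -x) ∧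
          ∀ s t : ℝ, d (γ s) (γ t) = ⨅ k : ℤ, |s - t - (k : ℝ) * L|) →
      (∀ x ∈ Metric.sphere (0 : EuclideanSpace ℝ (Fin 3)) 1,
        ∀ y ∈ Metric.sphere (0 : EuclideanSpace ℝ (Fin 3)) 1,
        ∀ z ∈ Metric.sphere (0 : EuclideanSpace ℝ (Fin 3)) 1,
          LinearIndependent ℝ ![x, y, z] → d x z < d x y + d y z) →
      (∀ n : EuclideanSpace ℝ (Fin 3), n ≠ 0 →
        ∀ F ∈ Metric.sphere (0 : EuclideanSpace ℝ (Fin 3)) 1, inner ℝ n F ≠ 0 →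
          ∃ u v w : EuclideanSpace ℝ (Fin 3), LinearIndependent ℝ ![u, v, w] ∧
            {X | X ∈ Metric.sphere (0 : EuclideanSpace ℝ (Fin 3)) 1 ∧
                d X F = sInf ((fun Y => d X Y) ''
                  {Y | Y ∈ Metric.sphere (0 : EuclideanSpace ℝ (Fin 3)) 1 ∧ inner ℝ n Y = 0})}
              = {x | x ∈ Metric.sphere (0 : EuclideanSpace ℝ (Fin 3)) 1 ∧
                  inner ℝ u x * inner ℝ w x = (inner ℝ v x) ^ 2}) →
      ∃ c : ℝ, 0 < c ∧ ∃ f : EuclideanSpace ℝ (Fin 3) → EuclideanSpace ℝ (Fin 3),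
        (∀ x ∈ Metric.sphere (0 : EuclideanSpace ℝ (Fin 3)) 1,
          f x ∈ Metric.sphere (0 : EuclideanSpace ℝ (Fin 3)) 1) ∧
        (∀ z ∈ Metric.sphere (0 : EuclideanSpace ℝ (Fin 3)) 1,
          ∃ x ∈ Metric.sphere (0 : EuclideanSpace ℝ (Fin 3)) 1, f x = z ∨ f x = -z) ∧
        ∀ x ∈ Metric.sphere (0 : EuclideanSpace ℝ (Fin 3)) 1,
          ∀ y ∈ Metric.sphere (0 : EuclideanSpace ℝ (Fin 3)) 1,
            c * d x y = Real.arccos |inner ℝ (f x) (f y)|) := by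
  refine ⟨?_, ?_⟩
  · intro M d hop hcv hne h0 hs ht hb hseg hstr hcon
    obtain ⟨f, hf1, hf2⟩ := Pool.Agent.W553.PM.partA Pool.Agent.W553.PM.A_finA M d hop hcv hne h0
      hs ht hb hseg hstr hcon
    exact ⟨1, one_pos, f, Or.inl ⟨hf1, hf2⟩⟩
  · intro d h0 hs hn ht hb hg hstr hcon
    obtain ⟨L, hL, hgeo⟩ := hg
    exact Pool.Agent.W553.PMB.partB Pool.Agent.W553.PMB.B_transB Pool.Agent.W553.PMB.B_finB d L
      ⟨h0, hs, hn, ht, hb, hL, hgeo, hstr, hcon⟩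

end Pool.Agent.S14169
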