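import Pool.Statements.S14191
import Pool.Agent.Results.MP_f019fe_gt.ExoticH

set_option autoImplicit false
open Pool Pool.MP_f019fe_gt

namespace Pool.Agent.S14191

open Pool.Agent.Helper190.KHyp

/-- conjugation, coordinatewise -/
def cj {m : ℕ} (x : Fin m → Quaternion ℝ) : Fin m → Quaternion ℝ := fun i => star (x i)

theorem cj_cj {m : ℕ} (x : Fin m → Quaternion ℝ) : cj (cj x) = x := by
  funext i; simp [cj]

theorem nsq_cj {m : ℕ} (x : Fin m → Quaternion ℝ) : nsq (cj x) = nsq x := by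
  unfold nsq cj
  simp

theorem arcosh_eq_arsinh {c : ℝ} (hc : 1 ≤ c) :
    Real.arcosh c = Real.arsinh (Real.sqrt (c ^ 2 - 1)) := by
  apply Real.sinh_injective
  rw [Real.sinh_arsinh]
  have h1 := Real.cosh_arcosh hc
  have h0 := Real.arcosh_nonneg hc
  have h2 : 0 ≤ Real.sinh (Real.arcosh c) := Real.sinh_nonneg_iff.2 h0
  have h3 := Real.cosh_sq (Real.arcosh c)
  rw [h1] at h3
  rw [h3]
  rw [add_sub_cancel_right, Real.sqrt_sq h2]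

/-- the frozen distance is the conjugated distance -/
theorem D_eq {m : ℕ} (x y : Fin m → Quaternion ℝ) (hx : nsq (cj x) < 1) (hy : nsq (cj y) < 1) :
    Real.arsinh (Real.sqrt
          (‖(1 : Quaternion ℝ) - ∑ i, star (x i) * y i‖ ^ 2 /
            ((1 - ∑ i, ‖x i‖ ^ 2) * (1 - ∑ i, ‖y i‖ ^ 2)) - 1)) =
    hdist (⟨cj x, hx⟩ : HBall (Quaternion ℝ) m) ⟨cj y, hy⟩ := by
  have key := one_le_cosh_arg (⟨cj x, hx⟩ : HBall (Quaternion ℝ) m) ⟨cj y, hy⟩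
  unfold hdist
  rw [arcosh_eq_arsinh key]
  congr 2
  have hx' : nsq (cj x) = ∑ i, ‖x i‖ ^ 2 := nsq_cj x
  have hy' : nsq (cj y) = ∑ i, ‖y i‖ ^ 2 := nsq_cj y
  have e1 : herm (cj x) (cj y) = ∑ i, star (x i) * y i := by
    unfold herm cj
    simp
  simp only
  rw [e1, div_pow, mul_pow, Real.sq_sqrt (by linarith), Real.sq_sqrt (by linarith), hx', hy']

theorem result :
    ∀ D : (k : ℕ) → (Fin k → Quaternion ℝ) → (Fin k → Quaternion ℝ) → ℝ,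
      D = (fun (k : ℕ) (x y : Fin k → Quaternion ℝ) =>
        Real.arsinh (Real.sqrt
          (‖(1 : Quaternion ℝ) - ∑ i, star (x i) * y i‖ ^ 2 /
            ((1 - ∑ i, ‖x i‖ ^ 2) * (1 - ∑ i, ‖y i‖ ^ 2)) - 1))) →
    ∀ n : ℕ, 1 ≤ n →
      ∃ f : (Fin n → Quaternion ℝ) → (Fin (n + 1) → Quaternion ℝ),
        (∀ x : Fin n → Quaternion ℝ, ∑ i, ‖x i‖ ^ 2 < 1 → ∑ i, ‖f x i‖ ^ 2 < 1) ∧
        (∃ L : ℝ, 1 ≤ L ∧ ∃ C : ℝ, 0 ≤ C ∧
          ∀ x y : Fin n → Quaternion ℝ, ∑ i, ‖x i‖ ^ 2 < 1 → ∑ i, ‖y i‖ ^ 2 < 1 →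
            D n x y / L - C ≤ D (n + 1) (f x) (f y) ∧
            D (n + 1) (f x) (f y) ≤ L * D n x y + C) ∧
        ∀ g : (Fin n → Quaternion ℝ) → (Fin (n + 1) → Quaternion ℝ),
          (∀ x : Fin n → Quaternion ℝ, ∑ i, ‖x i‖ ^ 2 < 1 → ∑ i, ‖g x i‖ ^ 2 < 1) →
          (∀ x y : Fin n → Quaternion ℝ, ∑ i, ‖x i‖ ^ 2 < 1 → ∑ i, ‖y i‖ ^ 2 < 1 →
            D (n + 1) (g x) (g y) = D n x y) →
          ∀ R : ℝ,
            (∃ x : Fin n → Quaternion ℝ, ∑ i, ‖x i‖ ^ 2 < 1 ∧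
              ∀ y : Fin n → Quaternion ℝ, ∑ i, ‖y i‖ ^ 2 < 1 → R < D (n + 1) (f x) (g y)) ∨
            (∃ x : Fin n → Quaternion ℝ, ∑ i, ‖x i‖ ^ 2 < 1 ∧
              ∀ y : Fin n → Quaternion ℝ, ∑ i, ‖y i‖ ^ 2 < 1 → R < D (n + 1) (g x) (f y)) := by
  classical
  intro D hD n hn
  obtain ⟨F, ⟨L, C, hL, hC, hF⟩, hex⟩ :=
    Pool.Agent.Results.MP_f019fe_gt.ExoticH.result n (n + 1) hn (Nat.lt_succ_self n)
  -- the distance in terms of `hdist`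
  have hDe : ∀ (m : ℕ) (x y : Fin m → Quaternion ℝ) (hx : nsq (cj x) < 1) (hy : nsq (cj y) < 1),
      D m x y = hdist (⟨cj x, hx⟩ : HBall (Quaternion ℝ) m) ⟨cj y, hy⟩ := by
    intro m x y hx hy
    rw [hD]
    exact D_eq x y hx hy
  have hb : ∀ (m : ℕ) (x : Fin m → Quaternion ℝ), ∑ i, ‖x i‖ ^ 2 < 1 → nsq (cj x) < 1 := by
    intro m x hx
    rw [nsq_cj]
    exact hx
  have hb' : ∀ (m : ℕ) (x : HBall (Quaternion ℝ) m), ∑ i, ‖cj x.1 i‖ ^ 2 < 1 := by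
    intro m x
    have := x.2
    rw [← nsq_cj] at this
    exact this
  let f : (Fin n → Quaternion ℝ) → (Fin (n + 1) → Quaternion ℝ) := fun x =>
    if hx : nsq (cj x) < 1 then cj (F ⟨cj x, hx⟩).1 else 0
  have hf : ∀ (x : Fin n → Quaternion ℝ) (hx : nsq (cj x) < 1), f x = cj (F ⟨cj x, hx⟩).1 := by
    intro x hx
    simp only [f, dif_pos hx]
  have hfb : ∀ (x : Fin n → Quaternion ℝ), ∑ i, ‖x i‖ ^ 2 < 1 → ∑ i, ‖f x i‖ ^ 2 < 1 := by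
    intro x hx
    rw [hf x (hb n x hx)]
    exact hb' _ _
  have hfc : ∀ (x : Fin n → Quaternion ℝ) (hx : nsq (cj x) < 1) (hfx : nsq (cj (f x)) < 1),
      (⟨cj (f x), hfx⟩ : HBall (Quaternion ℝ) (n + 1)) = F ⟨cj x, hx⟩ := by
    intro x hx hfx
    apply Subtype.ext
    simp only
    rw [hf x hx, cj_cj]
  refine ⟨f, hfb, ⟨L, hL, C, hC, ?_⟩, ?_⟩
  · intro x y hx hy
    rw [hDe n x y (hb n x hx) (hb n y hy),
      hDe (n + 1) (f x) (f y) (hb _ _ (hfb x hx)) (hb _ _ (hfb y hy)),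
      hfc x (hb n x hx), hfc y (hb n y hy)]
    have h := hF ⟨cj x, hb n x hx⟩ ⟨cj y, hb n y hy⟩
    refine ⟨?_, h.2⟩
    rw [div_eq_inv_mul]
    exact h.1
  · intro g hg hiso R
    by_contra hcon
    push Not at hcon
    obtain ⟨h1, h2⟩ := hcon
    let G : HBall (Quaternion ℝ) n → HBall (Quaternion ℝ) (n + 1) := fun x =>
      ⟨cj (g (cj x.1)), hb _ _ (hg _ (hb' n x))⟩
    refine hex G ?_ ⟨R, ?_, ?_⟩
    · intro x y
      have h := hiso (cj x.1) (cj y.1) (hb' n x) (hb' n y)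
      rw [hDe (n + 1) _ _ (hb _ _ (hg _ (hb' n x))) (hb _ _ (hg _ (hb' n y))),
        hDe n _ _ (hb _ _ (hb' n x)) (hb _ _ (hb' n y))] at h
      have ex : (⟨cj (cj x.1), hb _ _ (hb' n x)⟩ : HBall (Quaternion ℝ) n) = x :=
        Subtype.ext (cj_cj _)
      have ey : (⟨cj (cj y.1), hb _ _ (hb' n y)⟩ : HBall (Quaternion ℝ) n) = y :=
        Subtype.ext (cj_cj _)
      rw [ex, ey] at h
      exact h
    · rintro _ ⟨x, rfl⟩
      obtain ⟨y, hy, hxy⟩ := h1 (cj x.1) (hb' n x)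
      refine ⟨G ⟨cj y, hb n y hy⟩, ⟨_, rfl⟩, ?_⟩
      rw [hDe (n + 1) _ _ (hb _ _ (hfb _ (hb' n x))) (hb _ _ (hg y hy)),
        hfc _ (hb _ _ (hb' n x))] at hxy
      have ex : (⟨cj (cj x.1), hb _ _ (hb' n x)⟩ : HBall (Quaternion ℝ) n) = x :=
        Subtype.ext (cj_cj _)
      rw [ex] at hxy
      have eg : G ⟨cj y, hb n y hy⟩ = ⟨cj (g y), hb _ _ (hg y hy)⟩ := by
        apply Subtype.ext
        simp only [G]
        rw [cj_cj]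
      rw [eg]
      exact hxy
    · rintro _ ⟨x, rfl⟩
      obtain ⟨y, hy, hxy⟩ := h2 (cj x.1) (hb' n x)
      refine ⟨F ⟨cj y, hb n y hy⟩, ⟨_, rfl⟩, ?_⟩
      rw [hDe (n + 1) _ _ (hb _ _ (hg _ (hb' n x))) (hb _ _ (hfb y hy)),
        hfc _ (hb _ _ hy)] at hxy
      rw [hdist_comm]
      exact hxy

end Pool.Agent.S14191
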