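import Pool.Statements.S14203
import Pool.Agent.W652.TwelveTop

set_option autoImplicit false
set_option maxHeartbeats 4000000
open Pool Pool.MP_f22fa8_gt

namespace Pool.Agent.S14203

open Pool.Agent.W652.Twelve in
/-- The icosahedral arrangement is not in the neighbourhood. -/
lemma not_dod {r : ℝ} (hr1 : 1 < r) {y : Fin 12 → Fin 3 → ℝ} (hU : y ∈ UU (1 + r)) :
    ¬ ∃ g : Matrix (Fin 3) (Fin 3) ℝ, g.transpose * g = 1 ∧
      Set.range y =
        {p : Fin 3 → ℝ | ∃ v : Fin 3 → ℝ,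
          (∃ s t : ℝ, (s = 1 ∨ s = -1) ∧
            (t = (1 + Real.sqrt 5) / 2 ∨ t = -((1 + Real.sqrt 5) / 2)) ∧
            (v = ![0, s, t] ∨ v = ![s, t, 0] ∨ v = ![t, 0, s])) ∧
          p = ((1 + r) / Real.sqrt (1 + ((1 + Real.sqrt 5) / 2) ^ 2)) •
                Matrix.mulVec g v} := by
  rintro ⟨g, hg, hrange⟩
  obtain ⟨u1, u2⟩ := UU_ip hr1 hU
  have hy1 : y 1 ∈ Set.range y := ⟨1, rfl⟩
  have hy4 : y 4 ∈ Set.range y := ⟨4, rfl⟩
  rw [hrange] at hy1 hy4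
  obtain ⟨v, ⟨s, t, hs, ht, hv⟩, hvy⟩ := hy1
  obtain ⟨v', ⟨s', t', hs', ht', hv'⟩, hvy'⟩ := hy4
  set φ : ℝ := (1 + Real.sqrt 5) / 2 with hφ
  have h5 : Real.sqrt 5 ^ 2 = 5 := Real.sq_sqrt (by norm_num)
  have hφ2 : φ ^ 2 = φ + 1 := by
    rw [hφ]
    nlinarith
  have hφ1 : 1.6175 < φ := by
    have : (2.236 : ℝ) < Real.sqrt 5 := by
      rw [Real.lt_sqrt (by norm_num)]
      norm_num
    rw [hφ]
    linarith
  have hφ3 : φ < 1.619 := by
    have : Real.sqrt 5 < 2.237 := by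
      rw [Real.sqrt_lt' (by norm_num)]
      norm_num
    rw [hφ]
    linarith
  have hc : (0 : ℝ) < 1 + φ ^ 2 := by positivity
  have hc2 : Real.sqrt (1 + φ ^ 2) ^ 2 = 1 + φ ^ 2 := Real.sq_sqrt hc.le
  have hcpos : 0 < Real.sqrt (1 + φ ^ 2) := Real.sqrt_pos.2 hc
  have hs2 : (0 : ℝ) < (1 + r) ^ 2 := by positivity
  have key : y 1 0 * y 4 0 + y 1 1 * y 4 1 + y 1 2 * y 4 2 =
      (1 + r) ^ 2 * ((v 0 * v' 0 + v 1 * v' 1 + v 2 * v' 2) / (1 + φ ^ 2)) := by
    rw [hvy, hvy', ← isometry3 (g := g) hg v v']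
    simp only [Pi.smul_apply, smul_eq_mul]
    rw [← hc2]
    generalize Real.sqrt (1 + φ ^ 2) = q at hcpos
    rw [Real.sqrt_sq hcpos.le]
    field_simp
  rw [key] at u1 u2
  have w1 : 0.45 * (1 + φ ^ 2) < v 0 * v' 0 + v 1 * v' 1 + v 2 * v' 2 := by
    rw [← lt_div_iff₀ hc]
    nlinarith
  have w2 : v 0 * v' 0 + v 1 * v' 1 + v 2 * v' 2 < 0.55 * (1 + φ ^ 2) := by
    rw [← div_lt_iff₀ hc]
    nlinarith
  have hφφ : φ * φ = φ + 1 := by rw [← sq]; exact hφ2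
  rw [hφ2] at w1 w2
  clear_value φ
  clear hrange hvy hvy' hU u1 u2 key hc hc2 hcpos hs2 hg h5 hφ2 hφ
  rcases hv with rfl | rfl | rfl <;> rcases hv' with rfl | rfl | rfl <;>
  rcases hs with rfl | rfl <;> rcases ht with rfl | rfl <;>
  rcases hs' with rfl | rfl <;> rcases ht' with rfl | rfl <;>
  simp at w1 w2 <;> linarith

open Pool.Agent.W652.Twelve in
/-- There are 1<a<b such that for every r in (a,b), some connected component of the space of 12 non-overlapping radius-r spheres touching a unit sphere contains no configuration congruent to the icosahedral (DOD) arrangement. -/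
theorem result :
    ∃ a b : ℝ, 1 < a ∧ a < b ∧ ∀ r : ℝ, a < r → r < b →
      ∃ x ∈ {x : Fin 12 → Fin 3 → ℝ |
              (∀ i, ∑ k, (x i k) ^ 2 = (1 + r) ^ 2) ∧
              ∀ i j, i ≠ j → (2 * r) ^ 2 ≤ ∑ k, (x i k - x j k) ^ 2},
        ∀ y ∈ connectedComponentIn
              {x : Fin 12 → Fin 3 → ℝ |
                (∀ i, ∑ k, (x i k) ^ 2 = (1 + r) ^ 2) ∧
                ∀ i j, i ≠ j → (2 * r) ^ 2 ≤ ∑ k, (x i k - x j k) ^ 2} x,
          ¬ ∃ g : Matrix (Fin 3) (Fin 3) ℝ, g.transpose * g = 1 ∧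
              Set.range y =
                {p : Fin 3 → ℝ | ∃ v : Fin 3 → ℝ,
                  (∃ s t : ℝ, (s = 1 ∨ s = -1) ∧
                    (t = (1 + Real.sqrt 5) / 2 ∨ t = -((1 + Real.sqrt 5) / 2)) ∧
                    (v = ![0, s, t] ∨ v = ![s, t, 0] ∨ v = ![t, 0, s])) ∧
                  p = ((1 + r) / Real.sqrt (1 + ((1 + Real.sqrt 5) / 2) ^ 2)) •
                        Matrix.mulVec g v} := by
  refine ⟨1.001012104, 1.0010121048, by norm_num, by norm_num, fun r hr hr' => ?_⟩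
  have hr1 : 1 < r := lt_trans (by norm_num) hr
  have hmem := base_mem hr1 hr'
  refine ⟨base r, hmem, fun y hy => ?_⟩
  exact not_dod hr1 (component_subset hr hmem (base_mem_UU hr1) hy)

end Pool.Agent.S14203
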