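import Pool.Statements.S14257
import Pool.Agent.W597.Congruences

set_option autoImplicit false
open Pool Pool.MP_f7c3cd_gt

namespace Pool.Agent.S14257

/-- Every proper system of at most continuum many congruences among at most continuum many (nonempty index set) sets has a solution: a partition of the hyperbolic plane where each congruence holds via some hyperbolic isometry. -/
theorem result :
    ∀ (I M : Type) (L R : M → Set I),
      Nonempty I →
      Cardinal.mk I ≤ Cardinal.continuum →
      Cardinal.mk M ≤ Cardinal.continuum →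
      (∀ i, (L i).Nonempty ∧ L i ≠ Set.univ ∧ (R i).Nonempty ∧ R i ≠ Set.univ) →
      ∃ A : I → Set UpperHalfPlane,
        Pairwise (fun j k => Disjoint (A j) (A k)) ∧
        (⋃ j, A j) = Set.univ ∧
        ∀ i, ∃ g : IsometryEquiv UpperHalfPlane UpperHalfPlane,
          g '' (⋃ j ∈ L i, A j) = ⋃ j ∈ R i, A j := by
  intro I M L R hne _ hM hprop
  let F : Set (Set I) := Set.range L ∪ Set.range R
  have hF : Cardinal.mk F ≤ Cardinal.continuum := by
    refine (Cardinal.mk_union_le _ _).trans ?_
    calc Cardinal.mk (Set.range L) + Cardinal.mk (Set.range R)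
        ≤ Cardinal.continuum + Cardinal.continuum :=
          add_le_add (Cardinal.mk_range_le.trans hM) (Cardinal.mk_range_le.trans hM)
      _ = Cardinal.continuum := Cardinal.continuum_add_self
  have hP : ∀ S ∈ F, Pool.Agent.W597.Prp S := by
    rintro S (⟨i, rfl⟩ | ⟨i, rfl⟩)
    · exact ⟨(hprop i).1, Set.nonempty_compl.2 (hprop i).2.1⟩
    · exact ⟨(hprop i).2.2.1, Set.nonempty_compl.2 (hprop i).2.2.2⟩
  obtain ⟨J, hJ⟩ := Pool.Agent.W597.all_congruent I F hF hP
  have hU : ∀ S : Set I, (⋃ j ∈ S, J ⁻¹' {j}) = J ⁻¹' S := by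
    intro S
    ext z
    simp
  refine ⟨fun j => J ⁻¹' {j}, ?_, ?_, ?_⟩
  · intro j k hjk
    rw [Set.disjoint_left]
    intro z h1 h2
    exact hjk (h1.symm.trans h2)
  · ext z
    simp
  · intro i
    obtain ⟨g, hg⟩ := hJ (L i) (Or.inl ⟨i, rfl⟩) (R i) (Or.inr ⟨i, rfl⟩)
    refine ⟨IsometryEquiv.constSMul g, ?_⟩
    rw [hU, hU]
    exact hg

end Pool.Agent.S14257
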