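import Pool.Statements.S14259
import Pool.Agent.Results.MP_f7db8a_gt.HomotheticSections

set_option autoImplicit false
open Pool Pool.MP_f7db8a_gt

namespace Pool.Agent.S14259

/-- For n ≥ 3 and 2 ≤ k ≤ n−1, if two star bodies in R^n have homothetic sections by every k-dimensional linear subspace (scale and shift may depend on the subspace), then the two bodies are themselves homothetic. -/
theorem result :
    ∀ n : ℕ, 3 ≤ n → ∀ k : ℕ, 2 ≤ k → k ≤ n - 1 →
    ∀ K L : Set (EuclideanSpace ℝ (Fin n)),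
      (IsCompact K ∧ StarConvex ℝ (0 : EuclideanSpace ℝ (Fin n)) K ∧
        (∀ u ∈ Metric.sphere (0 : EuclideanSpace ℝ (Fin n)) 1,
          0 < sSup {t : ℝ | 0 ≤ t ∧ t • u ∈ K}) ∧
        ContinuousOn (fun u : EuclideanSpace ℝ (Fin n) => sSup {t : ℝ | 0 ≤ t ∧ t • u ∈ K})
          (Metric.sphere (0 : EuclideanSpace ℝ (Fin n)) 1)) →
      (IsCompact L ∧ StarConvex ℝ (0 : EuclideanSpace ℝ (Fin n)) L ∧
        (∀ u ∈ Metric.sphere (0 : EuclideanSpace ℝ (Fin n)) 1,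
          0 < sSup {t : ℝ | 0 ≤ t ∧ t • u ∈ L}) ∧
        ContinuousOn (fun u : EuclideanSpace ℝ (Fin n) => sSup {t : ℝ | 0 ≤ t ∧ t • u ∈ L})
          (Metric.sphere (0 : EuclideanSpace ℝ (Fin n)) 1)) →
      (∀ S : Submodule ℝ (EuclideanSpace ℝ (Fin n)), Module.finrank ℝ S = k →
        ∃ c : ℝ, 0 < c ∧ ∃ x : EuclideanSpace ℝ (Fin n),
          L ∩ (S : Set (EuclideanSpace ℝ (Fin n))) =
            (fun y : EuclideanSpace ℝ (Fin n) => c • y + x) ''
              (K ∩ (S : Set (EuclideanSpace ℝ (Fin n))))) →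
      ∃ c : ℝ, 0 < c ∧ ∃ x : EuclideanSpace ℝ (Fin n),
        L = (fun y : EuclideanSpace ℝ (Fin n) => c • y + x) '' K := by
  intro n hn k hk hkn K L hK hL h
  have conv : ∀ K : Set (EuclideanSpace ℝ (Fin n)),
      (IsCompact K ∧ StarConvex ℝ (0 : EuclideanSpace ℝ (Fin n)) K ∧
        (∀ u ∈ Metric.sphere (0 : EuclideanSpace ℝ (Fin n)) 1,
          0 < sSup {t : ℝ | 0 ≤ t ∧ t • u ∈ K}) ∧
        ContinuousOn (fun u : EuclideanSpace ℝ (Fin n) => sSup {t : ℝ | 0 ≤ t ∧ t • u ∈ K})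
          (Metric.sphere (0 : EuclideanSpace ℝ (Fin n)) 1)) →
      Pool.Agent.Results.MP_f7db8a_gt.HomotheticSections.IsStarBody K := by
    rintro K ⟨h1, h2, h3, h4⟩
    have hs : Metric.sphere (0 : EuclideanSpace ℝ (Fin n)) 1 =
        {u : EuclideanSpace ℝ (Fin n) | ‖u‖ = 1} := by
      ext u
      simp
    exact ⟨h1, h2, fun u hu => h3 u (by simpa using hu), by rw [← hs]; exact h4⟩
  obtain ⟨l, x, hl, hx⟩ := Pool.Agent.Results.MP_f7db8a_gt.HomotheticSections.result n k hn hk hkn K L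
    (conv K hK) (conv L hL) (fun S hS => by
      obtain ⟨c, hc, x, hx⟩ := h S hS
      refine ⟨c, x, hc, ?_⟩
      rw [hx]
      ext y
      constructor
      · rintro ⟨a, ha, rfl⟩
        exact ⟨a, ha, rfl⟩
      · rintro ⟨a, ha, rfl⟩
        exact ⟨a, ha, rfl⟩)
  refine ⟨l, hl, x, ?_⟩
  rw [hx]
  ext y
  constructor
  · rintro ⟨a, ha, rfl⟩
    exact ⟨a, ha, rfl⟩
  · rintro ⟨a, ha, rfl⟩
    exact ⟨a, ha, rfl⟩

end Pool.Agent.S14259
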