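import Pool.Statements.S14264
import Pool.Agent.W642.RP.Main

set_option autoImplicit false
open Pool Pool.MP_f8fbfa_gt

namespace Pool.Agent.S14264

/-- The negation of the preceding statement: Every regular Hausdorff paratopological group that is a rectifiable space is homeomorphic to some topological group. Rectifiable means some self-homeomorphism of G×G fixes first coordinates and sends each (x,x) to (x,e) for a fixed point e. -/
theorem result :
    ¬ (∀ (G : Type) [Group G] [TopologicalSpace G] [ContinuousMul G] [T3Space G],
      (∃ (φ : (G × G) ≃ₜ (G × G)) (e : G),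
          (∀ p : G × G, (φ p).1 = p.1) ∧ ∀ x : G, φ (x, x) = (x, e)) →
        ∃ (H : Type) (_ : Group H) (_ : TopologicalSpace H),
          IsTopologicalGroup H ∧ Nonempty (G ≃ₜ H)) := by
  intro h
  obtain ⟨G, hD, hG⟩ := Pool.Agent.W642.RP.main
  obtain ⟨H, i1, i2, h1, h2⟩ := h (Pool.Agent.W642.RP.GT G) (Pool.Agent.W642.RP.rectifiable hD)
  exact hG H i1 i2 h1 h2

end Pool.Agent.S14264
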