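import Pool.Statements.S14311
-- import your own Pool.Agent.* helpers here
import Pool.Agent.H561R2.VSpaceMain

set_option autoImplicit false
open Pool Pool.MP_008bf5_lc

namespace Pool.Agent.S14311

open Pool.Agent.H561R2.VS in
/-- with variable space one the empty clause is derived in depth one -/
lemma space_one {n : ℕ} (F : Finset (Cl n)) (M : ℕ → Finset (Cl n)) (t : ℕ)
    (h0 : M 0 = ∅) (ht : ∅ ∈ M t)
    (hstep : ∀ i < t, Step F (M i) (M (i + 1)))
    (hV : ∀ i ≤ t, (vars (M i)).card ≤ 1) : (∅ : Cl n) ∈ lev F 1 := by
  classical
  by_contra hcon
  have key : ∀ i ≤ t, ∀ C ∈ M i, C ∈ F := by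
    intro i
    induction i with
    | zero =>
      intro _ C hC
      rw [h0] at hC
      simp at hC
    | succ i ih =>
      intro hi C hC
      have hih := ih (by omega)
      rcases hstep i (by omega) with ⟨c, hc, h⟩ | ⟨c, hc, h⟩ | ⟨a, ha, b, hb, x, hxa, hxb, h⟩
      · rw [h] at hC
        rcases Finset.mem_insert.1 hC with h' | h'
        · rw [h']; exact hc
        · exact hih C h'
      · rw [h] at hC
        exact hih C (Finset.mem_of_mem_erase hC)
      · rw [h] at hC
        rcases Finset.mem_insert.1 hC with h' | h'
        · have hone : ∀ D ∈ M i, ∀ l ∈ D, l.1 = x := by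
            intro D hD l hl
            have h1 : l.1 ∈ vars (M i) := mem_vars hD hl
            have h2 : x ∈ vars (M i) := mem_vars ha hxa
            exact Finset.card_le_one.1 (hV i (by omega)) _ h1 _ h2
          by_cases ha2 : (x, false) ∈ a
          · by_cases hb2 : (x, true) ∈ b
            · -- the resolvent is `a`
              have : C = a := by
                rw [h']
                ext l
                constructor
                · intro hl
                  rcases Finset.mem_union.1 hl with hl | hl
                  · exact Finset.mem_of_mem_erase hl
                  · have hl2 := Finset.mem_of_mem_erase hl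
                    have := hone b hb l hl2
                    obtain ⟨y, v⟩ := l
                    simp only at this
                    subst this
                    cases v
                    · exact ha2
                    · exact hxa
                · intro hl
                  have := hone a ha l hl
                  obtain ⟨y, v⟩ := l
                  simp only at this
                  subst this
                  cases v
                  · exact Finset.mem_union_left _ (Finset.mem_erase.2 ⟨by simp, ha2⟩)
                  · exact Finset.mem_union_right _ (Finset.mem_erase.2 ⟨by simp, hb2⟩)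
              rw [this]
              exact hih a ha
            · have : C = b := by
                rw [h']
                ext l
                constructor
                · intro hl
                  rcases Finset.mem_union.1 hl with hl | hl
                  · obtain ⟨hne, hl2⟩ := Finset.mem_erase.1 hl
                    have := hone a ha l hl2
                    obtain ⟨y, v⟩ := l
                    simp only at this
                    subst this
                    cases v
                    · exact hxb
                    · exact absurd rfl hne
                  · exact Finset.mem_of_mem_erase hl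
                · intro hl
                  have := hone b hb l hl
                  obtain ⟨y, v⟩ := l
                  simp only at this
                  subst this
                  cases v
                  · exact Finset.mem_union_left _ (Finset.mem_erase.2 ⟨by simp, ha2⟩)
                  · exact absurd hl hb2
              rw [this]
              exact hih b hb
          · by_cases hb2 : (x, true) ∈ b
            · have : C = a := by
                rw [h']
                ext l
                constructor
                · intro hl
                  rcases Finset.mem_union.1 hl with hl | hl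
                  · exact Finset.mem_of_mem_erase hl
                  · obtain ⟨hne, hl2⟩ := Finset.mem_erase.1 hl
                    have := hone b hb l hl2
                    obtain ⟨y, v⟩ := l
                    simp only at this
                    subst this
                    cases v
                    · exact absurd rfl hne
                    · exact hxa
                · intro hl
                  have := hone a ha l hl
                  obtain ⟨y, v⟩ := l
                  simp only at this
                  subst this
                  cases v
                  · exact absurd hl ha2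
                  · exact Finset.mem_union_right _ (Finset.mem_erase.2 ⟨by simp, hb2⟩)
              rw [this]
              exact hih a ha
            · exfalso
              apply hcon
              have hC0 : C = ∅ := by
                rw [h']
                apply Finset.eq_empty_of_forall_notMem
                intro l hl
                rcases Finset.mem_union.1 hl with hl | hl
                · obtain ⟨hne, hl2⟩ := Finset.mem_erase.1 hl
                  have := hone a ha l hl2
                  obtain ⟨y, v⟩ := l
                  simp only at this
                  subst this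
                  cases v
                  · exact ha2 hl2
                  · exact hne rfl
                · obtain ⟨hne, hl2⟩ := Finset.mem_erase.1 hl
                  have := hone b hb l hl2
                  obtain ⟨y, v⟩ := l
                  simp only at this
                  subst this
                  cases v
                  · exact hne rfl
                  · exact hb2 hl2
              refine Or.inr ⟨a, hih a ha, b, hih b hb, x, hxa, hxb, ?_⟩
              rw [← h', hC0]
        · exact hih C h'
  exact hcon (Or.inl (key t le_rfl ∅ ht))

/-- the numerical estimate -/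
lemma estimate (L V : ℕ) (x : ℝ) (hx : 3 / 2 ≤ x) (hV : (V : ℝ) ≤ x) (hLV : ((L * V : ℕ) : ℝ) ≤ 2 * x) :
    (((L * V + 1) * ((L * V + V + 2) * V) + V : ℕ) : ℝ) ≤ x ^ 10 := by
  push_cast at hLV ⊢
  have hV0 : (0 : ℝ) ≤ V := Nat.cast_nonneg V
  have hL0 : (0 : ℝ) ≤ (L : ℝ) * V := by positivity
  have h1 : ((L : ℝ) * V + 1) * ((L * V + V + 2) * V) + V ≤ (2 * x + 1) * ((2 * x + x + 2) * x) + x := by
    gcongr
  refine h1.trans ?_
  have h2 : (2 * x + 1) * ((2 * x + x + 2) * x) + x ≤ 12 * x ^ 3 := by
    nlinarith [mul_nonneg (by linarith : (0 : ℝ) ≤ x - 3 / 2) (by linarith : (0 : ℝ) ≤ x),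
      mul_nonneg (mul_nonneg (by linarith : (0 : ℝ) ≤ x - 3 / 2) (by linarith : (0 : ℝ) ≤ x))
        (by linarith : (0 : ℝ) ≤ x)]
  refine h2.trans ?_
  have h3 : (12 : ℝ) ≤ x ^ 7 := by
    calc (12 : ℝ) ≤ (3 / 2) ^ 7 := by norm_num
      _ ≤ x ^ 7 := by gcongr
  calc 12 * x ^ 3 ≤ x ^ 7 * x ^ 3 := by gcongr
    _ = x ^ 10 := by ring

/-- There is a natural C such that for every n ≥ 2 and every unsatisfiable CNF on n variables, if F has a configurational resolution refutation of variable space ≤ s, then F has a resolution refutation of depth ≤ (s·log₂ n)^C. -/
theorem result :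
    ∃ C : ℕ, ∀ n : ℕ, 2 ≤ n → ∀ F : Finset (Finset (Fin n × Bool)),
      (¬ ∃ σ : Fin n → Bool, ∀ c ∈ F, ∃ l ∈ c, σ l.1 = l.2) →
      ∀ s : ℕ,
        (∃ L : ℕ, ∃ M : ℕ → Finset (Finset (Fin n × Bool)),
          M 0 = ∅ ∧ (∅ : Finset (Fin n × Bool)) ∈ M L ∧
          (∀ i < L,
            (∃ c ∈ F, M (i + 1) = insert c (M i)) ∨
            (∃ c ∈ M i, M (i + 1) = (M i).erase c) ∨
            (∃ a ∈ M i, ∃ b ∈ M i, ∃ x : Fin n, (x, true) ∈ a ∧ (x, false) ∈ b ∧
              M (i + 1) = insert (a.erase (x, true) ∪ b.erase (x, false)) (M i))) ∧
          (∀ i ≤ L, ((M i).biUnion (fun c => c.image Prod.fst)).card ≤ s)) →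
        (∅ : Finset (Fin n × Bool)) ∈
          (fun S : Set (Finset (Fin n × Bool)) =>
            S ∪ {c | ∃ a ∈ S, ∃ b ∈ S, ∃ x : Fin n, (x, true) ∈ a ∧ (x, false) ∈ b ∧
              c = a.erase (x, true) ∪ b.erase (x, false)})^[⌊((s : ℝ) * Real.logb 2 (n : ℝ)) ^ C⌋₊]
            (F : Set (Finset (Fin n × Bool))) := by
  classical
  refine ⟨10, ?_⟩
  intro n hn F _ s hM
  obtain ⟨t, M, h0, ht, hstep, hV⟩ := hM
  have hstep' : ∀ i < t, Pool.Agent.H561R2.VS.Step F (M i) (M (i + 1)) := by
    intro i hi
    exact hstep i hi
  have hV' : ∀ i ≤ t, (Pool.Agent.H561R2.VS.vars (M i)).card ≤ s := by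
    intro i hi
    have h1 : Pool.Agent.H561R2.VS.vars (M i) = (M i).biUnion (fun c => c.image Prod.fst) := by
      unfold Pool.Agent.H561R2.VS.vars
      rw [Finset.biUnion_image]
      rfl
    rw [h1]
    exact hV i hi
  have hiter : ∀ k : ℕ, (fun S : Set (Finset (Fin n × Bool)) =>
            S ∪ {c | ∃ a ∈ S, ∃ b ∈ S, ∃ x : Fin n, (x, true) ∈ a ∧ (x, false) ∈ b ∧
              c = a.erase (x, true) ∪ b.erase (x, false)})^[k] (F : Set (Finset (Fin n × Bool)))
        = Pool.Agent.H561R2.VS.lev F k := by
    intro k
    induction k with
    | zero => rfl
    | succ k ih =>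
      rw [Function.iterate_succ_apply', ih]
      rfl
  rw [hiter]
  -- it suffices to bound the depth
  suffices hD : ∃ D : ℕ, (D : ℝ) ≤ ((s : ℝ) * Real.logb 2 (n : ℝ)) ^ 10 ∧
      (∅ : Finset (Fin n × Bool)) ∈ Pool.Agent.H561R2.VS.lev F D by
    obtain ⟨D, hle, hmem⟩ := hD
    exact Pool.Agent.H561R2.VS.lev_mono F (Nat.le_floor hle) hmem
  have hder : ∀ D, Pool.Agent.H561R2.VS.Der F D ∅ →
      (∅ : Finset (Fin n × Bool)) ∈ Pool.Agent.H561R2.VS.lev F D := by
    rintro D ⟨C', hC', hsub⟩
    rw [Finset.subset_empty.1 hsub] at hC'
    exact hC'
  have hlog1 : (1 : ℝ) ≤ Real.logb 2 (n : ℝ) := by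
    rw [Real.le_logb_iff_rpow_le (by norm_num) (by positivity), Real.rpow_one]
    exact_mod_cast hn
  have hb := Pool.Agent.H561R2.VS.depth_bound F M t s h0 ht hstep' hV'
  rcases Nat.eq_zero_or_pos s with hs0 | hspos
  · subst hs0
    refine ⟨0, by simp, hder 0 ?_⟩
    simpa using hb
  · have hs1 : (1 : ℝ) ≤ s := by exact_mod_cast hspos
    by_cases hspec : s = 1 ∧ n = 2
    · obtain ⟨rfl, rfl⟩ := hspec
      refine ⟨1, ?_, space_one F M t h0 ht hstep' hV'⟩
      have : Real.logb 2 ((2 : ℕ) : ℝ) = 1 := by
        norm_num
      rw [this]
      norm_num
    · have hx : (3 / 2 : ℝ) ≤ s * Real.logb 2 (n : ℝ) := by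
        rcases Nat.lt_or_ge s 2 with h | h
        · have hs : s = 1 := by omega
          have hn3 : 3 ≤ n := by
            by_contra hcon
            exact hspec ⟨hs, by omega⟩
          subst hs
          rw [Nat.cast_one, one_mul, Real.le_logb_iff_rpow_le (by norm_num) (by positivity)]
          have h3 : (2 : ℝ) ^ (3 / 2 : ℝ) ≤ 3 := by
            have h4 : ((2 : ℝ) ^ (3 / 2 : ℝ)) ^ 2 = 8 := by
              rw [← Real.rpow_natCast, ← Real.rpow_mul (by norm_num)]
              norm_num
            have h5 : (0 : ℝ) ≤ (2 : ℝ) ^ (3 / 2 : ℝ) := by positivity
            nlinarith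
          refine h3.trans ?_
          exact_mod_cast hn3
        · have : (2 : ℝ) ≤ s := by exact_mod_cast h
          nlinarith
      refine ⟨_, ?_, hder _ hb⟩
      apply estimate _ _ _ hx
      · nlinarith
      · have hL : ((Nat.log 2 n : ℕ) : ℝ) ≤ Real.logb 2 (n : ℝ) := by
          rw [Real.le_logb_iff_rpow_le (by norm_num) (by positivity), Real.rpow_natCast]
          exact_mod_cast Nat.pow_log_le_self 2 (by omega)
        push_cast
        nlinarith

end Pool.Agent.S14311
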