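import Pool.Statements.S14348
-- import your own Pool.Agent.* helpers here
import Pool.Agent.W923.BR.Prod

set_option autoImplicit false
open Pool Pool.MP_09920c_lc

namespace Pool.Agent.S14348

/-- The negation of the preceding statement: There is a graph on a Polish space with coanalytic edge set such that any Borel graph on a Polish space has no finite Borel proper coloring exactly when the first graph maps into it by a Borel homomorphism. -/
theorem result :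
    ¬ (∃ (X : Type) (_ : TopologicalSpace X) (_ : PolishSpace X) (_ : MeasurableSpace X)
      (_ : BorelSpace X) (G : SimpleGraph X),
      MeasureTheory.AnalyticSet ({p : X × X | G.Adj p.1 p.2}ᶜ) ∧
      ∀ (Y : Type) [TopologicalSpace Y] [PolishSpace Y] [MeasurableSpace Y] [BorelSpace Y]
        (H : SimpleGraph Y),
        MeasurableSet {p : Y × Y | H.Adj p.1 p.2} →
        ((∀ n : ℕ, ¬ ∃ c : Y → ℕ, Measurable c ∧ (∀ y, c y < n) ∧
            ∀ x y, H.Adj x y → c x ≠ c y) ↔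
          ∃ f : X → Y, Measurable f ∧ ∀ x x', G.Adj x x' → H.Adj (f x) (f x'))) := by
  rintro ⟨X, _, _, _, _, G, -, h⟩
  obtain ⟨e, he⟩ := Pool.Agent.W923.BR.exists_e
  have key : ∀ i < 2, ∃ f : X → (ℕ → ℕ) × (ℕ → ℕ), Measurable f ∧
      ∀ x x', G.Adj x x' → (Pool.Agent.W923.BR.GG i e).Adj (f x) (f x') := by
    intro i hi
    refine (h _ (Pool.Agent.W923.BR.GG i e) (Pool.Agent.W923.BR.meas_GG i e)).1 ?_
    rintro n ⟨c, hc, hlt, hne⟩
    obtain ⟨u, y, hy, hcy⟩ := he i hi n c hc hlt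
    exact hne (u, y) (u, Pool.Agent.W923.BH.Sh y)
      (Pool.Agent.W923.BR.GG_adj.2 (Or.inl ⟨rfl, hy, rfl⟩)) hcy
  obtain ⟨f, hf, hf2⟩ := key 0 (by norm_num)
  obtain ⟨g, hg, hg2⟩ := key 1 (by norm_num)
  have hpol : PolishSpace ((((ℕ → ℕ) × (ℕ → ℕ)) × ((ℕ → ℕ) × (ℕ → ℕ)))) :=
    Pool.Agent.W923.BR.polish_prod
  have hbor : BorelSpace ((((ℕ → ℕ) × (ℕ → ℕ)) × ((ℕ → ℕ) × (ℕ → ℕ)))) :=
    Pool.Agent.W923.BR.borel_prod
  refine (h _ (Pool.Agent.W923.BR.PP e) (Pool.Agent.W923.BR.meas_PP e)).2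
    ⟨fun x => (f x, g x), hf.prodMk hg, fun x x' hx => ⟨hf2 x x' hx, hg2 x x' hx⟩⟩ 3 ?_
  exact ⟨Pool.Agent.W923.BR.colQ e, Pool.Agent.W923.BR.meas_colQ e,
    Pool.Agent.W923.BR.colQ_lt e, fun r s hrs => Pool.Agent.W923.BR.colQ_ne hrs.1 hrs.2⟩

end Pool.Agent.S14348
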