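import Pool.Statements.S14372
-- import your own Pool.Agent.* helpers here
import Pool.Agent.W925.Cof1
import Pool.Agent.W925.Cof4

set_option autoImplicit false
open Pool Pool.MP_0dc5ba_lc

namespace Pool.Agent.S14372

/-- The negation of the preceding statement: There is a subgroup of the permutations of ℕ whose non-identity elements each fix only finitely many points and which no larger such group contains, and which is a G_delta subset of Baire space. -/
theorem result :
    ¬ (∃ G : Subgroup (Equiv.Perm ℕ),
      (∀ g ∈ G, g ≠ 1 → Set.Finite {n : ℕ | g n = n}) ∧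
      (∀ H : Subgroup (Equiv.Perm ℕ), G ≤ H →
        (∀ h ∈ H, h ≠ 1 → Set.Finite {n : ℕ | h n = n}) → H = G) ∧
      IsGδ ((fun g : Equiv.Perm ℕ => (⇑g : ℕ → ℕ)) '' (G : Set (Equiv.Perm ℕ)))) := by
  rintro ⟨G, hC, hmax, hG⟩
  obtain ⟨g, hg, hne, hinf⟩ := Pool.Agent.W925.Cof.exists_infinite_fix (G := G)
    (fun s hs => Pool.Agent.W925.Cof.mem_of_limit hG hs)
    (Pool.Agent.W925.Cof.finOrb_of_maximal hC hmax)
  exact hinf (hC g hg hne)

end Pool.Agent.S14372
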