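import Pool.Statements.S14402
import Pool.Agent.W927.BM.Circ

set_option autoImplicit false
open Pool Pool.MP_141b7f_lc

namespace Pool.Agent.S14402

open Pool.Agent.W927.BM in
/-- configuration on the grid from a window -/
noncomputable def ext {k : ℕ} (e : Fin k ≃ Pool.Agent.W927.BM.Lab)
    (w : {g : Fin 2 → ℤ // ∀ i, |g i| ≤ ((2 : ℕ) : ℤ)} → Fin k) (t x : ℤ) :
    Pool.Agent.W927.BM.Lab :=
  if h : ∀ i, |(![t, x] : Fin 2 → ℤ) i| ≤ ((2 : ℕ) : ℤ) then e (w ⟨![t, x], h⟩) else chk false

theorem win {t x : ℤ} (ht : |t| ≤ 2) (hx : |x| ≤ 2) :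
    ∀ i, |(![t, x] : Fin 2 → ℤ) i| ≤ ((2 : ℕ) : ℤ) := by
  intro i
  fin_cases i
  · simpa using ht
  · simpa using hx

theorem ext_eq {k : ℕ} (e : Fin k ≃ Pool.Agent.W927.BM.Lab)
    (w : {g : Fin 2 → ℤ // ∀ i, |g i| ≤ ((2 : ℕ) : ℤ)} → Fin k) {t x : ℤ} (ht : |t| ≤ 2)
    (hx : |x| ≤ 2) : ext e w t x = e (w ⟨![t, x], win ht hx⟩) := by
  unfold ext
  rw [dif_pos (win ht hx)]

theorem vec_eq (g : Fin 2 → ℤ) : g = ![g 0, g 1] := by
  funext i
  fin_cases i <;> rfl

theorem vec_add (s t x z : ℤ) : (![s + t, x + z] : Fin 2 → ℤ) = ![s, x] + ![t, z] := by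
  funext i
  fin_cases i <;> simp

theorem emb_vec (t x : ℤ) : Pool.Agent.W927.BM.emb (n := 2) le_rfl t x = ![t, x] := by
  funext i
  fin_cases i
  · exact Pool.Agent.W927.BM.emb_fst le_rfl t x
  · exact Pool.Agent.W927.BM.emb_snd le_rfl t x

/-- The negation of the preceding statement: For every n ≥ 2, each LCL on ℤⁿ with a Borel solution on an invariant comeager set for every free Borel ℤⁿ-action on a Polish space also has one on an invariant conull set for every Borel probability measure. -/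
theorem result :
    ¬ (∀ n : ℕ, 2 ≤ n → ∀ (k t : ℕ) (P : Set ({g : Fin n → ℤ // ∀ i, |g i| ≤ (t : ℤ)} → Fin k)),
      (∀ (X : Type) [TopologicalSpace X] [PolishSpace X] [MeasurableSpace X] [BorelSpace X]
        (a : (Fin n → ℤ) → X → X),
        (∀ x, a 0 x = x) → (∀ g h x, a (g + h) x = a g (a h x)) →
        (∀ g, Measurable (a g)) → (∀ g x, a g x = x → g = 0) →
        ∃ (c : X → Fin k) (C : Set X), Measurable c ∧ MeasurableSet C ∧
          (∀ g x, x ∈ C → a g x ∈ C) ∧ C ∈ residual X ∧
          ∀ x ∈ C, (fun g : {g : Fin n → ℤ // ∀ i, |g i| ≤ (t : ℤ)} => c (a g.1 x)) ∈ P) →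
      (∀ (X : Type) [TopologicalSpace X] [PolishSpace X] [MeasurableSpace X] [BorelSpace X]
        (a : (Fin n → ℤ) → X → X),
        (∀ x, a 0 x = x) → (∀ g h x, a (g + h) x = a g (a h x)) →
        (∀ g, Measurable (a g)) → (∀ g x, a g x = x → g = 0) →
        ∀ (μ : MeasureTheory.Measure X), MeasureTheory.IsProbabilityMeasure μ →
        ∃ (c : X → Fin k) (C : Set X), Measurable c ∧ MeasurableSet C ∧
          (∀ g x, x ∈ C → a g x ∈ C) ∧ μ Cᶜ = 0 ∧
          ∀ x ∈ C, (fun g : {g : Fin n → ℤ // ∀ i, |g i| ≤ (t : ℤ)} => c (a g.1 x)) ∈ P)) := by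
  intro H
  let Lb := Pool.Agent.W927.BM.Lab
  obtain ⟨α, hα⟩ := Pool.Agent.W927.exists_alpha 2
  let k : ℕ := Fintype.card Lb
  let e : Fin k ≃ Lb := (Fintype.equivFin Lb).symm
  let P : Set ({g : Fin 2 → ℤ // ∀ i, |g i| ≤ ((2 : ℕ) : ℤ)} → Fin k) :=
    {w | Pool.Agent.W927.BM.Rule (ext e w) 0 0}
  have hpos := H 2 le_rfl k 2 P ?_
  · -- the circle
    let a : (Fin 2 → ℤ) → Pool.Agent.W927.TT → Pool.Agent.W927.TT :=
      fun g y => Pool.Agent.W927.lin α g + y
    have ha0 : ∀ x, a 0 x = x := by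
      intro x
      simp only [a, map_zero, zero_add]
    have haadd : ∀ g h x, a (g + h) x = a g (a h x) := by
      intro g h x
      simp only [a, map_add, add_assoc]
    have ham : ∀ g, Measurable (a g) := fun g => measurable_const_add _
    have hafree : ∀ g x, a g x = x → g = 0 := by
      intro g x h
      by_contra hg
      have h1 : Pool.Agent.W927.lin α g = 0 := by
        have : Pool.Agent.W927.lin α g + x = x := h
        simpa using this
      have h2 := hα g hg
      rw [h1, addOrderOf_zero] at h2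
      exact one_ne_zero h2
    obtain ⟨c, C, hc, hC, hCinv, hCnull, hCP⟩ := hpos Pool.Agent.W927.TT a ha0 haadd ham hafree
      MeasureTheory.volume ⟨by simp⟩
    refine Pool.Agent.W927.BM.circle_neg (n := 2) le_rfl hα ⟨fun y => e (c y), ?_, ?_⟩
    · intro l
      have : (fun y => e (c y)) ⁻¹' {l} = c ⁻¹' {e.symm l} := by
        ext y
        simp only [Set.mem_preimage, Set.mem_singleton_iff]
        exact (Equiv.eq_symm_apply e).symm
      rw [this]
      exact (hc (measurableSet_singleton _)).nullMeasurableSet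
    · have hae : ∀ᵐ y : Pool.Agent.W927.TT, y ∈ C := by
        rw [MeasureTheory.ae_iff]
        exact hCnull
      filter_upwards [hae] with y hy t x
      have h1 : Pool.Agent.W927.BM.Rule (ext e fun g => c (a g.1 (a ![t, x] y))) 0 0 :=
        hCP _ (hCinv _ _ hy)
      refine Pool.Agent.W927.BM.Rule_congr (t := 0) (x := 0) (t' := t) (x' := x) ?_ h1
      intro s z hs hz
      rw [zero_add, zero_add, ext_eq e _ hs hz, emb_vec]
      change e (c (a ![s, z] (a ![t, x] y))) = e (c (a ![t + s, x + z] y))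
      rw [← haadd, ← vec_add, add_comm s t, add_comm z x]
  · -- the solution on a comeagre set
    intro X _ _ _ _ a ha0 haadd ham hafree
    let T : ℤ → ℤ → X → X := fun t x => a ![t, x]
    obtain ⟨f, G, hf, hG, hGinv, hGres, hGR⟩ := Pool.Agent.W927.BM.pos X T
      (fun y => by
        change a ![0, 0] y = y
        have : (![0, 0] : Fin 2 → ℤ) = 0 := by funext i; fin_cases i <;> rfl
        rw [this, ha0])
      (fun s t x z y => by
        change a ![s + t, x + z] y = a ![s, x] (a ![t, z] y)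
        rw [vec_add, haadd])
      (fun t x => ham _)
      (fun t x y h => by
        have h1 := hafree _ _ h
        have h2 := congrFun h1 0
        have h3 := congrFun h1 1
        exact ⟨by simpa using h2, by simpa using h3⟩)
    refine ⟨fun y => e.symm (f y), G, ?_, hG, ?_, hGres, ?_⟩
    · refine measurable_to_countable' fun i => ?_
      have : (fun y => e.symm (f y)) ⁻¹' {i} = f ⁻¹' {e i} := by
        ext y
        simp only [Set.mem_preimage, Set.mem_singleton_iff]
        exact Equiv.symm_apply_eq e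
      rw [this]
      exact hf _
    · intro g y hy
      rw [vec_eq g]
      exact hGinv _ _ y hy
    · intro y hy
      change Pool.Agent.W927.BM.Rule (ext e fun g => e.symm (f (a g.1 y))) 0 0
      refine Pool.Agent.W927.BM.Rule_congr (t := 0) (x := 0) (t' := 0) (x' := 0) ?_ (hGR y hy 0 0)
      intro s z hs hz
      rw [zero_add, zero_add, ext_eq e _ hs hz]
      simp only [Equiv.apply_symm_apply]
      rfl

end Pool.Agent.S14402
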