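import Pool.Statements.S14416
import Pool.Agent.Helper227.SOC.Comp

set_option autoImplicit false
open Pool Pool.MP_16f0b8_lc

namespace Pool.Agent.S14416

open Pool.Agent.Helper227 in
/-- The negation of the preceding statement: For all n,k ≥ 2: every k-coloring of (n+1)-sets of naturals has some k-coloring of n-sets such that every infinite homogeneous set for the latter Turing-computes an infinite homogeneous set for the former. -/
theorem result :
    ¬ (∀ n k : ℕ, 2 ≤ n → 2 ≤ k →
      ∀ c : Finset ℕ → Fin k, ∃ d : Finset ℕ → Fin k,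
        ∀ H : Set ℕ, H.Infinite →
          (∃ i : Fin k, ∀ s : Finset ℕ, (↑s : Set ℕ) ⊆ H → s.card = n → d s = i) →
          ∃ G : Set ℕ, G.Infinite ∧
            (∃ j : Fin k, ∀ s : Finset ℕ, (↑s : Set ℕ) ⊆ G → s.card = n + 1 → c s = j) ∧
            TuringReducible
              (fun m : ℕ => Part.some (Set.indicator G (fun _ => (1 : ℕ)) m))
              (fun m : ℕ => Part.some (Set.indicator H (fun _ => (1 : ℕ)) m))) := by
  classical
  intro h
  obtain ⟨c1, hc0⟩ := SOC.comp_main 1 2
  -- the auxiliary colouring of triples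
  let hom : Finset ℕ → Prop := fun B => ∀ X X', X ⊆ B → X' ⊆ B → X.card = 2 → X'.card = 2 → c1 X = c1 X'
  let c' : Finset ℕ → Fin 2 := fun s => if hom s then 0 else 1
  obtain ⟨d, hd⟩ := h 2 2 le_rfl le_rfl c'
  obtain ⟨H, hH1, ⟨j, hH2⟩, hH3⟩ := hc0 d
  obtain ⟨Y, hYinf, ⟨i, hi⟩, hY3⟩ := hd {x | H x = true} hH1
    ⟨j, fun s hs hc => hH2 s (fun x hx => hs hx) hc⟩
  have hind : ∀ A : Set ℕ, (fun m : ℕ => Part.some (Set.indicator A (fun _ => (1 : ℕ)) m)) =
      chi (fun x => decide (x ∈ A)) := by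
    intro A
    funext m
    unfold chi
    by_cases hm : m ∈ A
    · simp [hm]
    · simp [hm]
  have hind2 : (fun m : ℕ => Part.some (Set.indicator {x | H x = true} (fun _ => (1 : ℕ)) m)) =
      chi H := by
    funext m
    unfold chi
    by_cases hm : H m = true
    · simp [Set.indicator, hm]
    · simp [Set.indicator, hm]
  rw [hind, hind2] at hY3
  have hrec : Nat.RecursiveIn {chi H} (chi fun x => decide (x ∈ Y)) := RecursiveIn.iff_nat.1 hY3
  have hYe : {x | (fun x => decide (x ∈ Y)) x = true} = Y := by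
    ext x
    simp
  obtain ⟨B0, col, hB1, hB2, hB3⟩ := SOC.ramsey 2 c1 Y hYinf
  have hhom0 : hom B0 := fun X X' h1 h2 h3 h4 => (hB3 X h1 h3).trans (hB3 X' h2 h4).symm
  have hi0 : i = 0 := by
    rw [← hi B0 hB1 hB2]
    exact if_pos hhom0
  have hall : ∀ B : Finset ℕ, ↑B ⊆ Y → B.card = 2 + 1 → hom B := by
    intro B hB hBc
    by_contra hcon
    have h1 := hi B hB hBc
    have h2 : c' B = 1 := if_neg hcon
    rw [h2, hi0] at h1
    exact absurd h1 (by decide)
  have hconn := SOC.connect 2 c1 Y hall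
  obtain ⟨X0, hX0, hX0c⟩ := hYinf.exists_subset_card_eq 2
  refine hH3 _ hrec ?_ ⟨c1 X0, fun s hs hsc => ?_⟩
  · rw [hYe]
    exact hYinf
  · exact hconn s X0 (fun x hx => by simpa using hs x hx) hX0 hsc hX0c

end Pool.Agent.S14416
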