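import Pool.Statements.S14472
import Pool.Agent.W486.AG.Fin
import Pool.Agent.W486.AG.Ana

set_option autoImplicit false
open Pool Pool.MP_21cc92_lc

namespace Pool.Agent.S14472

/-- The negation of the preceding statement: For every dense choice of strings defining G_0 on Cantor space, every acyclic analytic graph on a Polish space with no countable Borel proper colouring admits an injective continuous f with x G_0 y iff f(x) G f(y). -/
theorem result :
    ¬ (∀ (s : ℕ → ℕ → Bool),
      (∀ (u : ℕ → Bool) (m : ℕ), ∃ n, m ≤ n ∧ ∀ i, i < m → s n i = u i) →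
      ∀ (X : Type) [TopologicalSpace X] [PolishSpace X] [MeasurableSpace X] [BorelSpace X]
        (G : SimpleGraph X),
        MeasureTheory.AnalyticSet {p : X × X | G.Adj p.1 p.2} →
        G.IsAcyclic →
        (¬ ∃ c : X → ℕ, Measurable c ∧ ∀ x y, G.Adj x y → c x ≠ c y) →
        ∃ f : (ℕ → Bool) → X, Continuous f ∧ Function.Injective f ∧
          ∀ x y : ℕ → Bool,
            ((∃ n, (∀ i, i < n → x i = s n i ∧ y i = s n i) ∧ x n ≠ y n ∧
                ∀ i, n < i → x i = y i) ↔ G.Adj (f x) (f y))) := by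
  intro h
  obtain ⟨f, hf, _, hred⟩ := h Pool.Agent.W486.AG.sd Pool.Agent.W486.AG.dns_sd
    Pool.Agent.W486.AG.X Pool.Agent.W486.AG.G Pool.Agent.W486.AG.ana
    Pool.Agent.W486.AG.acyclic_G Pool.Agent.W486.AG.chr
  exact Pool.Agent.W486.AG.no_reduction _ Pool.Agent.W486.AG.dns_sd ⟨f, hf, hred⟩

end Pool.Agent.S14472
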