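import Pool.Statements.S14501
import Pool.Agent.W957.Asym

set_option autoImplicit false
open Classical
open Pool Pool.MP_2709b3_lc

namespace Pool.Agent.S14501

open Pool.Agent.W957 in
/-- The final limit, in terms of the counting bound. -/
theorem aux_limit (G T B : ℕ → ℕ) (hsum : ∀ n, G n + B n = T n) (hpos : ∀ n, 0 < n → 0 < T n)
    (hb : ∃ C : ℝ, ∃ q0 : ℕ, 0 < q0 ∧ ∀ n q : ℕ, q0 ≤ q → q ^ 10 ≤ n → n < (q + 1) ^ 10 →
      (B n : ℝ) * q ≤ C * (T n : ℝ)) :
    Filter.Tendsto (fun n : ℕ => (G n : ℝ) / (T n : ℝ)) Filter.atTop (nhds 1) := by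
  obtain ⟨C, q0, hq0, hC⟩ := hb
  set qq : ℕ → ℕ := fun n => ⌊(n : ℝ) ^ ((1 : ℝ) / 10)⌋₊ with hqq
  have hq1 : Filter.Tendsto qq Filter.atTop Filter.atTop := by
    refine tendsto_nat_floor_atTop.comp ?_
    exact (tendsto_rpow_atTop (by norm_num)).comp tendsto_natCast_atTop_atTop
  have hq2 : ∀ n, qq n ^ 10 ≤ n := by
    intro n
    have h1 : (qq n : ℝ) ≤ (n : ℝ) ^ ((1 : ℝ) / 10) := Nat.floor_le (by positivity)
    have h2 : (qq n : ℝ) ^ 10 ≤ ((n : ℝ) ^ ((1 : ℝ) / 10)) ^ 10 :=
      pow_le_pow_left₀ (by positivity) h1 10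
    have h3 : ((n : ℝ) ^ ((1 : ℝ) / 10)) ^ 10 = n := by
      rw [← Real.rpow_natCast, ← Real.rpow_mul (by positivity)]
      norm_num
    rw [h3] at h2
    exact_mod_cast h2
  have hq3 : ∀ n, n < (qq n + 1) ^ 10 := by
    intro n
    have h1 : (n : ℝ) ^ ((1 : ℝ) / 10) < (qq n : ℝ) + 1 := Nat.lt_floor_add_one _
    have h2 : ((n : ℝ) ^ ((1 : ℝ) / 10)) ^ 10 < ((qq n : ℝ) + 1) ^ 10 :=
      pow_lt_pow_left₀ h1 (by positivity) (by norm_num)
    have h3 : ((n : ℝ) ^ ((1 : ℝ) / 10)) ^ 10 = n := by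
      rw [← Real.rpow_natCast, ← Real.rpow_mul (by positivity)]
      norm_num
    rw [h3] at h2
    exact_mod_cast h2
  have hlim : Filter.Tendsto (fun n : ℕ => (1 : ℝ) - C * ((qq n : ℝ))⁻¹) Filter.atTop
      (nhds 1) := by
    have h1 : Filter.Tendsto (fun n : ℕ => ((qq n : ℝ))⁻¹) Filter.atTop (nhds 0) :=
      tendsto_inv_atTop_zero.comp (tendsto_natCast_atTop_atTop.comp hq1)
    have h2 := (h1.const_mul C).const_sub 1
    simpa using h2
  refine tendsto_of_tendsto_of_tendsto_of_le_of_le' hlim tendsto_const_nhds ?_ ?_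
  · filter_upwards [hq1.eventually_ge_atTop q0, Filter.eventually_gt_atTop 0] with n hn hn0
    have h1 := hC n (qq n) hn (hq2 n) (hq3 n)
    have hT : (0 : ℝ) < T n := by exact_mod_cast hpos n hn0
    have hqpos : (0 : ℝ) < qq n := by
      have : 0 < qq n := by omega
      exact_mod_cast this
    have h2 : (G n : ℝ) + B n = T n := by exact_mod_cast hsum n
    rw [le_div_iff₀ hT]
    have h3 : (B n : ℝ) ≤ C * ((qq n : ℝ))⁻¹ * T n := by
      rw [mul_comm C, mul_assoc, ← div_eq_inv_mul, le_div_iff₀ hqpos]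
      exact h1
    nlinarith
  · filter_upwards [Filter.eventually_gt_atTop 0] with n hn0
    have hT : (0 : ℝ) < T n := by exact_mod_cast hpos n hn0
    rw [div_le_one hT]
    have h2 : (G n : ℝ) + B n = T n := by exact_mod_cast hsum n
    have h3 : (0 : ℝ) ≤ B n := by positivity
    linarith

/-- Among all oriented trees on vertex set {1..n}, the fraction with no 4-ary Siggers polymorphism tends to 1. By the CSP dichotomy, and assuming P≠NP, having no Siggers polymorphism is the same as having an NP-hard CSP. -/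
theorem result :
    Filter.Tendsto (fun n : ℕ =>
      ((Finset.univ.filter (fun E : Fin n → Fin n → Bool =>
          (∀ a b, ¬ (E a b = true ∧ E b a = true)) ∧
          (SimpleGraph.fromRel (fun a b => E a b = true)).IsTree ∧
          ¬ ∃ s : Fin n → Fin n → Fin n → Fin n → Fin n,
            (∀ a r e, s a r e a = s r a r e) ∧
            ∀ x₁ x₂ x₃ x₄ y₁ y₂ y₃ y₄ : Fin n,
              E x₁ y₁ = true → E x₂ y₂ = true → E x₃ y₃ = true → E x₄ y₄ = true →
              E (s x₁ x₂ x₃ x₄) (s y₁ y₂ y₃ y₄) = true)).card : ℝ) /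
      ((Finset.univ.filter (fun E : Fin n → Fin n → Bool =>
          (∀ a b, ¬ (E a b = true ∧ E b a = true)) ∧
          (SimpleGraph.fromRel (fun a b => E a b = true)).IsTree)).card : ℝ))
      Filter.atTop (nhds 1) := by
  have hTeq : ∀ n : ℕ, (Finset.univ.filter (fun E : Fin n → Fin n → Bool =>
      Pool.Agent.W957.OTree E)).card = (Finset.univ.filter (fun E : Fin n → Fin n → Bool =>
          (∀ a b, ¬ (E a b = true ∧ E b a = true)) ∧
          (SimpleGraph.fromRel (fun a b => E a b = true)).IsTree)).card := by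
    intro n
    congr 1
    ext E
    simp only [Finset.mem_filter, Finset.mem_univ, true_and]
    exact Iff.rfl
  refine aux_limit _ _ (fun n => (Finset.univ.filter (fun E : Fin n → Fin n → Bool =>
    Pool.Agent.W957.OTree E ∧ Pool.Agent.W957.HasSig E)).card) ?_ ?_ ?_
  · intro n
    rw [← Finset.card_union_of_disjoint]
    · congr 1
      ext E
      simp only [Finset.mem_union, Finset.mem_filter, Finset.mem_univ, true_and]
      constructor
      · rintro (h | h)
        · exact ⟨h.1, h.2.1⟩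
        · exact h.1
      · intro h
        by_cases h2 : Pool.Agent.W957.HasSig E
        · exact Or.inr ⟨h, h2⟩
        · exact Or.inl ⟨h.1, h.2, h2⟩
    · rw [Finset.disjoint_left]
      intro E h1 h2
      exact (Finset.mem_filter.1 h1).2.2.2 (Finset.mem_filter.1 h2).2.2
  · intro n hn
    have h := Pool.Agent.W957.trees_lower (V := Fin n) ⟨0, hn⟩
    have h1 := Pool.Agent.W957.card_FF ({⟨0, hn⟩} : Finset (Fin n))
    rw [Fintype.card_fin, Finset.card_singleton, one_mul] at h1
    have h2 : 0 < n ^ (n - 1) := Nat.pow_pos hn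
    have h3 : 0 < (Pool.Agent.W957.FF ({⟨0, hn⟩} : Finset (Fin n))).card := by
      rcases Nat.eq_zero_or_pos (Pool.Agent.W957.FF ({⟨0, hn⟩} : Finset (Fin n))).card with h4 | h4
      · rw [h4, mul_zero] at h1; omega
      · exact h4
    rw [Fintype.card_fin] at h
    have h4 : 0 < (Pool.Agent.W957.FF ({⟨0, hn⟩} : Finset (Fin n))).card * 2 ^ n := by positivity
    have h5 : 0 < (Finset.univ.filter (fun E : Fin n → Fin n → Bool =>
        Pool.Agent.W957.OTree E)).card := by omega
    rw [hTeq] at h5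
    exact h5
  · obtain ⟨C, q0, h1, h2⟩ := Pool.Agent.W957.ratio_bound
    refine ⟨C, q0, h1, fun n q h3 h4 h5 => ?_⟩
    rw [← hTeq]
    exact h2 n q h3 h4 h5

end Pool.Agent.S14501
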