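import Pool.Statements.S14505
import Pool.Agent.Results.MP_280e70_lc.OneCatalystUniversal

set_option autoImplicit false
open Pool Pool.MP_280e70_lc

namespace Pool.Agent.S14505

open Pool.Agent.Results.MP_280e70_lc.OneCatalystUniversal

/-- the code of a target -/
def tc : Tar → Fin 3
  | .here => 0
  | .out => 1
  | .inn => 2

theorem tc_inj : Function.Injective tc := by
  intro a b h
  cases a <;> cases b <;> first | rfl | (exact absurd h (by decide))

theorem tc_surj (i : Fin 3) : ∃ t, tc t = i := by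
  fin_cases i
  · exact ⟨.here, rfl⟩
  · exact ⟨.out, rfl⟩
  · exact ⟨.inn, rfl⟩

section
variable {O : Type} {k : ℕ} (e : O ≃ Fin k)

/-- the code of a rule -/
def toT (r : Rule O) : Option (Fin k) × Fin k × Multiset (Fin k × Fin 3) :=
  (r.cat.map e, e r.lhs, r.rhs.map (fun p => (e p.1, tc p.2)))

theorem pair_inj : Function.Injective (fun p : O × Tar => (e p.1, tc p.2)) := by
  rintro ⟨a, b⟩ ⟨c, d⟩ h
  simp only [Prod.mk.injEq, EmbeddingLike.apply_eq_iff_eq] at h
  rw [h.1, tc_inj h.2]

theorem toT_inj : Function.Injective (toT e) := by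
  rintro ⟨c, l, r⟩ ⟨c', l', r'⟩ h
  simp only [toT, Prod.mk.injEq, EmbeddingLike.apply_eq_iff_eq] at h
  obtain ⟨h1, h2, h3⟩ := h
  have h1' : c = c' := Option.map_injective e.injective h1
  have h3' : r = r' := Multiset.map_injective (pair_inj e) h3
  rw [h1', h2, h3']

theorem map_lhs (U : Multiset (Rule O)) :
    (U.map (toT e)).map (fun ρ => ρ.2.1) = (U.map Rule.lhs).map e := by
  rw [Multiset.map_map, Multiset.map_map]
  rfl

theorem fm_cat (U : Multiset (Rule O)) :
    (U.map (toT e)).filterMap (fun ρ => ρ.1) = (cats U).map e := by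
  induction U using Multiset.induction_on with
  | empty => simp [cats]
  | cons r U ih =>
    rw [Multiset.map_cons]
    rcases hc : r.cat with _ | c
    · rw [Multiset.filterMap_cons_none _ _ (by simp [toT, hc]), ih]
      simp [cats, Rule.catalyst, hc]
    · rw [Multiset.filterMap_cons_some _ _ _ (b := e c) (by simp [toT, hc]), ih]
      simp [cats, Rule.catalyst, hc]

theorem left_eq (U : Multiset (Rule O)) : left U = cats U + U.map Rule.lhs := by
  induction U using Multiset.induction_on with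
  | empty => simp [left, cats]
  | cons r U ih =>
    have h1 : left (r ::ₘ U) = r.left + left U := by simp [left]
    have h2 : cats (r ::ₘ U) = r.catalyst + cats U := by simp [cats]
    rw [h1, h2, ih, Multiset.map_cons, Rule.left, ← Multiset.singleton_add r.lhs]
    abel

theorem made_eq (U : Multiset (Rule O)) (t : Tar) (j : Fin 3) (hj : tc t = j) :
    (U.map (toT e)).bind (fun ρ => (ρ.2.2.filter (fun x => x.2 = j)).map Prod.fst)
      = (made U t).map e := by
  classical
  subst hj
  induction U using Multiset.induction_on with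
  | empty => simp [made]
  | cons r U ih =>
    rw [Multiset.map_cons, Multiset.cons_bind, ih]
    have h1 : made (r ::ₘ U) t = r.made t + made U t := by simp [made]
    rw [h1, Multiset.map_add]
    congr 1
    simp only [toT, Rule.made, Multiset.filter_map, Multiset.map_map]
    have h2 : (fun x : O × Tar => tc x.2 = tc t) = (fun x : O × Tar => x.2 = t) := by
      funext x
      exact propext ⟨fun h => tc_inj h, fun h => by rw [h]⟩
    have h3 : ((fun x : Fin k × Fin 3 => x.2 = tc t) ∘ fun p : O × Tar => (e p.1, tc p.2))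
        = (fun x : O × Tar => x.2 = t) := h2
    simp only [h3]
    rfl

end

theorem seq_iff {α : Type} (r : α → α → Prop) (a b : α) :
    Relation.ReflTransGen r a b ↔
      ∃ (T : ℕ) (M : ℕ → α), M 0 = a ∧ M T = b ∧ ∀ t < T, r (M t) (M (t + 1)) := by
  constructor
  · intro h
    induction h with
    | refl => exact ⟨0, fun _ => a, rfl, rfl, by simp⟩
    | @tail b c _ hs ih =>
      obtain ⟨T, M, h0, hT, hM⟩ := ih
      refine ⟨T + 1, fun t => if t ≤ T then M t else c, by simp [h0], by simp, ?_⟩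
      intro t ht
      rcases Nat.lt_or_ge t T with h | h
      · simp only [h.le, if_true, Nat.succ_le_iff.2 h]
        exact hM t h
      · have : t = T := by omega
        subst this
        simp [hT, hs]
  · rintro ⟨T, M, rfl, rfl, hM⟩
    induction T with
    | zero => exact Relation.ReflTransGen.refl
    | succ T ih => exact (ih fun t ht => hM t (by omega)).tail (hM T (by omega))


section
variable (P : PSystem) (hd : P.degree = 1)

include hd in
theorem mem_eq (h : P.Mem) : h = P.skin := by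
  obtain ⟨x, hx⟩ := Fintype.card_eq_one_iff.1 hd
  rw [hx h, hx P.skin]

theorem par_skin : P.parent P.skin = none := (P.parent_eq_none _).2 rfl

include hd in
theorem par (h : P.Mem) : P.parent h = none := by rw [mem_eq P hd h]; exact par_skin P

include hd in
theorem usable_iff (r : Rule P.Obj) :
    P.Usable P.skin r ↔ r ∈ P.rules P.skin ∧ ∀ p ∈ r.rhs, p.2 ≠ Tar.inn := by
  constructor
  · rintro ⟨h1, h2⟩
    refine ⟨h1, fun p hp hi => ?_⟩
    obtain ⟨h', h3⟩ := h2 ⟨p, hp, hi⟩
    rw [par P hd h'] at h3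
    cases h3
  · rintro ⟨h1, h2⟩
    exact ⟨h1, fun ⟨p, hp, hi⟩ => absurd hi (h2 p hp)⟩

/-- one step of a system with one region -/
def St (A E A' E' : Multiset P.Obj) : Prop :=
  ∃ (U : Multiset (Rule P.Obj)) (rest : Multiset P.Obj),
    (∀ r ∈ U, P.Usable P.skin r) ∧ A = left U + rest ∧
    (∀ r, P.Usable P.skin r → ¬ r.left ≤ rest) ∧ made U Tar.inn = 0 ∧
    A' = rest + cats U + made U Tar.here ∧ E' = E + made U Tar.out

include hd in
theorem step_iff (Γ Δ : P.Config) :
    P.Step Γ Δ ↔ St P (Γ.reg P.skin) Γ.env (Δ.reg P.skin) Δ.env := by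
  classical
  have hz : ∀ (h : P.Mem) (g : P.Mem → Multiset P.Obj),
      (∑ h', if P.parent h' = some h then g h' else 0) = 0 := by
    intro h g
    refine Finset.sum_eq_zero fun x _ => if_neg ?_
    rw [par P hd x]
    simp
  constructor
  · rintro ⟨U, rest, down, h1, h2, h3, h4, h5, h6, h7⟩
    refine ⟨U P.skin, rest P.skin, h1 _, h2 _, h3 _, ?_, ?_, h7⟩
    · rw [← h5 P.skin]
      convert hz P.skin down
    · rw [h6 P.skin, h4, add_zero]
      convert add_zero _
      convert hz P.skin (fun h' => made (U h') Tar.out)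
  · rintro ⟨U, rest, h1, h2, h3, h4, h5, h6⟩
    refine ⟨fun _ => U, fun _ => rest, fun _ => 0, ?_, ?_, ?_, rfl, ?_, ?_, h6⟩
    · intro h r hr
      rw [mem_eq P hd h]
      exact h1 r hr
    · intro h
      rw [mem_eq P hd h]
      exact h2
    · intro h r hr
      rw [mem_eq P hd h] at hr
      exact h3 r hr
    · intro h
      rw [h4]
      convert hz h (fun _ => 0)
    · intro h
      rw [mem_eq P hd h, h5, add_zero]
      convert (add_zero _).symm
      convert hz P.skin (fun h' => made U Tar.out)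

include hd in
theorem halt_iff (Γ : P.Config) :
    P.Halting Γ ↔ ∀ r, P.Usable P.skin r → ¬ r.left ≤ Γ.reg P.skin := by
  constructor
  · intro h r hr
    exact h _ r hr
  · intro h g r hr
    rw [mem_eq P hd g] at hr ⊢
    exact h r hr

variable {k : ℕ} (e : P.Obj ≃ Fin k)

/-- coded rules -/
noncomputable def RR : Finset (Option (Fin k) × Fin k × Multiset (Fin k × Fin 3)) :=
  ((P.finRules P.skin).image (toT e)).toFinset

theorem mem_RR (ρ : Option (Fin k) × Fin k × Multiset (Fin k × Fin 3)) :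
    ρ ∈ RR P e ↔ ∃ r ∈ P.rules P.skin, toT e r = ρ := by
  simp [RR]

/-- usable coded rules -/
def Us (ρ : Option (Fin k) × Fin k × Multiset (Fin k × Fin 3)) : Prop :=
  ρ ∈ RR P e ∧ ∀ x ∈ ρ.2.2, x.2 ≠ 2

include hd in
theorem us_iff (r : Rule P.Obj) : Us P e (toT e r) ↔ P.Usable P.skin r := by
  rw [usable_iff P hd, Us, mem_RR]
  constructor
  · rintro ⟨⟨r', h1, h2⟩, h3⟩
    rw [toT_inj e h2] at h1
    refine ⟨h1, fun p hp hi => h3 (e p.1, tc p.2) ?_ (by rw [hi]; rfl)⟩
    exact Multiset.mem_map.2 ⟨p, hp, rfl⟩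
  · rintro ⟨h1, h2⟩
    refine ⟨⟨r, h1, rfl⟩, fun x hx hi => ?_⟩
    obtain ⟨p, hp, rfl⟩ := Multiset.mem_map.1 hx
    exact h2 p hp (tc_inj (show tc p.2 = tc Tar.inn from hi))

theorem us_exists {ρ : Option (Fin k) × Fin k × Multiset (Fin k × Fin 3)} (h : Us P e ρ) :
    ∃ r, toT e r = ρ := by
  obtain ⟨r, _, hr⟩ := (mem_RR P e ρ).1 h.1
  exact ⟨r, hr⟩

theorem lift_ms {V : Multiset (Option (Fin k) × Fin k × Multiset (Fin k × Fin 3))}
    (h : ∀ ρ ∈ V, Us P e ρ) : ∃ U : Multiset (Rule P.Obj), U.map (toT e) = V := by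
  induction V using Multiset.induction_on with
  | empty => exact ⟨0, rfl⟩
  | cons ρ V ih =>
    obtain ⟨U, rfl⟩ := ih fun ρ' h' => h ρ' (Multiset.mem_cons_of_mem h')
    obtain ⟨r, rfl⟩ := us_exists P e (h ρ (Multiset.mem_cons_self _ _))
    exact ⟨r ::ₘ U, Multiset.map_cons _ _ _⟩

/-- applicability of a multiset of coded rules -/
def Ap (X : Multiset (Fin k))
    (V : Multiset (Option (Fin k) × Fin k × Multiset (Fin k × Fin 3))) : Prop :=
  (∀ ρ ∈ V, Us P e ρ) ∧ V.map (fun ρ => ρ.2.1) + V.filterMap (fun ρ => ρ.1) ≤ X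

include hd in
theorem ap_iff (A : Multiset P.Obj) (U : Multiset (Rule P.Obj)) :
    Ap P e (A.map e) (U.map (toT e)) ↔ (∀ r ∈ U, P.Usable P.skin r) ∧ left U ≤ A := by
  unfold Ap
  rw [map_lhs, fm_cat, ← Multiset.map_add, Multiset.map_le_map_iff e.injective,
    left_eq, add_comm (cats U)]
  refine and_congr_left fun _ => ?_
  constructor
  · intro h r hr
    exact (us_iff P hd e r).1 (h _ (Multiset.mem_map_of_mem _ hr))
  · intro h ρ hρ
    obtain ⟨r, hr, rfl⟩ := Multiset.mem_map.1 hρ
    exact (us_iff P hd e r).2 (h r hr)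

/-- one coded step -/
def FSt (X : Multiset (Fin k)) (a : ℕ) (Y : Multiset (Fin k)) (b : ℕ) : Prop :=
  ∃ V : Multiset (Option (Fin k) × Fin k × Multiset (Fin k × Fin 3)),
    Ap P e X V ∧ (∀ ρ, ¬ Ap P e X (ρ ::ₘ V)) ∧
    V.bind (fun ρ => (ρ.2.2.filter (fun x => x.2 = 2)).map Prod.fst) = 0 ∧
    Y = X - V.map (fun ρ => ρ.2.1)
      + V.bind (fun ρ => (ρ.2.2.filter (fun x => x.2 = 0)).map Prod.fst) ∧
    b = a + (V.bind (fun ρ => (ρ.2.2.filter (fun x => x.2 = 1)).map Prod.fst)).card

include hd in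
theorem st_fst {A E A' E' : Multiset P.Obj} (h : St P A E A' E') :
    FSt P e (A.map e) E.card (A'.map e) E'.card := by
  obtain ⟨U, rest, h1, h2, h3, h4, h5, h6⟩ := h
  refine ⟨U.map (toT e), (ap_iff P hd e A U).2 ⟨h1, by rw [h2]; exact Multiset.le_add_right _ _⟩,
    ?_, ?_, ?_, ?_⟩
  · intro ρ hρ
    obtain ⟨r, rfl⟩ := us_exists P e (hρ.1 ρ (Multiset.mem_cons_self _ _))
    rw [← Multiset.map_cons, ap_iff P hd] at hρ
    obtain ⟨h7, h8⟩ := hρ
    refine h3 r (h7 r (Multiset.mem_cons_self _ _)) ?_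
    have h9 : left (r ::ₘ U) = r.left + left U := by simp [left]
    rw [h9, h2, add_comm (left U)] at h8
    exact Multiset.add_le_add_iff_right.1 h8
  · rw [made_eq e U .inn 2 rfl, h4]
    rfl
  · rw [made_eq e U .here 0 rfl, map_lhs, h5, h2, left_eq]
    have h7 : (cats U + U.map Rule.lhs + rest).map e
        = (rest + cats U).map e + (U.map Rule.lhs).map e := by
      rw [← Multiset.map_add]
      congr 1
      abel
    rw [h7, Multiset.add_sub_cancel_right, Multiset.map_add]
  · rw [made_eq e U .out 1 rfl, h6, Multiset.card_add, Multiset.card_map]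

include hd in
theorem fst_st {A E : Multiset P.Obj} {Y : Multiset (Fin k)} {b : ℕ}
    (h : FSt P e (A.map e) E.card Y b) :
    ∃ A' E', St P A E A' E' ∧ Y = A'.map e ∧ b = Multiset.card E' := by
  obtain ⟨V, h1, h2, h3, h4, h5⟩ := h
  obtain ⟨U, rfl⟩ := lift_ms P e h1.1
  obtain ⟨h6, h7⟩ := (ap_iff P hd e A U).1 h1
  obtain ⟨rest, rfl⟩ := Multiset.le_iff_exists_add.1 h7
  refine ⟨_, _, ⟨U, rest, h6, rfl, ?_, ?_, rfl, rfl⟩, ?_, ?_⟩
  · intro r hr hle
    refine h2 (toT e r) ?_
    rw [← Multiset.map_cons, ap_iff P hd]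
    refine ⟨?_, ?_⟩
    · intro r' hr'
      rcases Multiset.mem_cons.1 hr' with rfl | hr'
      · exact hr
      · exact h6 r' hr'
    · have h9 : left (r ::ₘ U) = r.left + left U := by simp [left]
      rw [h9, add_comm]
      exact Multiset.add_le_add_left hle
  · rw [made_eq e U .inn 2 rfl] at h3
    exact Multiset.map_eq_zero.1 h3
  · rw [h4, made_eq e U .here 0 rfl, map_lhs, left_eq]
    have h7 : (cats U + U.map Rule.lhs + rest).map e
        = (rest + cats U).map e + (U.map Rule.lhs).map e := by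
      rw [← Multiset.map_add]
      congr 1
      abel
    rw [h7, Multiset.add_sub_cancel_right, Multiset.map_add _ (rest + cats U)]
  · rw [h5, made_eq e U .out 1 rfl, Multiset.card_add, Multiset.card_map]

include hd in
theorem fhalt_iff (A : Multiset P.Obj) :
    (∀ ρ, ¬ Ap P e (A.map e) (ρ ::ₘ 0)) ↔ ∀ r, P.Usable P.skin r → ¬ r.left ≤ A := by
  constructor
  · intro h r hr hle
    refine h (toT e r) ?_
    have h1 : (toT e r ::ₘ 0) = ({r} : Multiset (Rule P.Obj)).map (toT e) := by simp
    rw [h1, ap_iff P hd]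
    refine ⟨fun r' hr' => ?_, ?_⟩
    · rw [Multiset.mem_singleton.1 hr']
      exact hr
    · simpa [left] using hle
  · intro h ρ hρ
    obtain ⟨r, rfl⟩ := us_exists P e (hρ.1 ρ (Multiset.mem_cons_self _ _))
    have h1 : (toT e r ::ₘ 0) = ({r} : Multiset (Rule P.Obj)).map (toT e) := by simp
    rw [h1, ap_iff P hd] at hρ
    refine h r (hρ.1 r (Multiset.mem_singleton_self r)) ?_
    simpa [left] using hρ.2

include hd in
theorem main (n : ℕ) : n ∈ P.N ↔
    ∃ (T : ℕ) (M : ℕ → Multiset (Fin k)) (ev : ℕ → ℕ),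
      M 0 = (P.init P.skin).map e ∧ ev 0 = 0 ∧
      (∀ t < T, FSt P e (M t) (ev t) (M (t + 1)) (ev (t + 1))) ∧
      (∀ ρ, ¬ Ap P e (M T) (ρ ::ₘ 0)) ∧
      (P.iout ≠ none → n = (M T).card) ∧ (P.iout = none → n = ev T) := by
  have hval : ∀ Γ : P.Config, (P.iout ≠ none → P.value Γ = (Γ.reg P.skin).card) ∧
      (P.iout = none → P.value Γ = Γ.env.card) := by
    intro Γ
    unfold PSystem.value
    rcases h : P.iout with _ | h'
    · exact ⟨fun h => absurd rfl h, fun _ => rfl⟩
    · refine ⟨fun _ => ?_, fun h => by cases h⟩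
      simp only
      rw [mem_eq P hd h']
  constructor
  · rintro ⟨H, h1, h2, h3⟩
    obtain ⟨T, M, h4, h5, h6⟩ := (seq_iff _ _ _).1 h1
    refine ⟨T, fun t => ((M t).reg P.skin).map e, fun t => (M t).env.card, ?_, ?_, ?_, ?_, ?_, ?_⟩
    · simp only [h4]; rfl
    · simp only [h4]; rfl
    · intro t ht
      exact st_fst P hd e ((step_iff P hd _ _).1 (h6 t ht))
    · simp only [h5]
      exact (fhalt_iff P hd e _).2 ((halt_iff P hd H).1 h2)
    · intro h
      simp only [h5, Multiset.card_map]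
      rw [← h3, (hval H).1 h]
    · intro h
      simp only [h5]
      rw [← h3, (hval H).2 h]
  · rintro ⟨T, M, ev, h1, h2, h3, h4, h5, h6⟩
    have key : ∀ t ≤ T, ∃ Γ : P.Config, Relation.ReflTransGen P.Step P.start Γ ∧
        M t = (Γ.reg P.skin).map e ∧ ev t = Γ.env.card := by
      intro t
      induction t with
      | zero => exact fun _ => ⟨P.start, Relation.ReflTransGen.refl, h1, h2⟩
      | succ t ih =>
        intro ht
        obtain ⟨Γ, h7, h8, h9⟩ := ih (by omega)
        have h10 := h3 t (by omega)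
        rw [h8, h9] at h10
        obtain ⟨A', E', h11, h12, h13⟩ := fst_st P hd e h10
        refine ⟨⟨fun _ => A', E'⟩, h7.tail ?_, h12, h13⟩
        rw [step_iff P hd]
        exact h11
    obtain ⟨Γ, h7, h8, h9⟩ := key T le_rfl
    refine ⟨Γ, h7, ?_, ?_⟩
    · rw [halt_iff P hd, ← fhalt_iff P hd e, ← h8]
      exact h4
    · by_cases h : P.iout = none
      · rw [(hval Γ).2 h, h6 h, h9]
      · rw [(hval Γ).1 h, h5 h, h8, Multiset.card_map]

end

/-- Every recursively enumerable set of naturals equals the set of halting results of some cell-like P system with catalytic and noncooperative rules, maximal parallelism, any number of membranes and at most one catalyst initially. -/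
theorem result :
  ∀ S : Set ℕ, Partrec (fun n : ℕ => Part.assert (n ∈ S) (fun _ => Part.some ())) →
  ∃ (k m : ℕ) (C : Finset (Fin k)) (p : Fin (m+1) → Fin (m+1))
    (w : Fin (m+1) → Multiset (Fin k))
    (R : Fin (m+1) → Finset (Option (Fin k) × Fin k × Multiset (Fin k × Fin 3)))
    (iout : Option (Fin (m+1)))
    (App : Fin (m+1) → Multiset (Fin k) →
      Multiset (Option (Fin k) × Fin k × Multiset (Fin k × Fin 3)) → Prop),
    p 0 = 0 ∧ (∀ i : Fin (m+1), i ≠ 0 → p i < i) ∧
    (∀ j : Fin (m+1), iout = some j → ∀ i : Fin (m+1), i ≠ 0 → p i ≠ j) ∧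
    (∀ i : Fin (m+1), ∀ ρ ∈ R i,
      ρ.2.1 ∉ C ∧ (∀ c : Fin k, ρ.1 = some c → c ∈ C) ∧ ∀ x ∈ ρ.2.2, x.1 ∉ C) ∧
    (∑ i : Fin (m+1), ((w i).filter (fun a => a ∈ C)).card) ≤ 1 ∧
    (∀ (i : Fin (m+1)) (X : Multiset (Fin k))
       (U : Multiset (Option (Fin k) × Fin k × Multiset (Fin k × Fin 3))),
       App i X U ↔
         ((∀ ρ ∈ U, ρ ∈ R i ∧
            ((∀ l : Fin (m+1), l ≠ 0 → p l ≠ i) → ∀ x ∈ ρ.2.2, x.2 ≠ 2)) ∧
          U.map (fun ρ => ρ.2.1) + U.filterMap (fun ρ => ρ.1) ≤ X)) ∧
    ∀ n : ℕ, n ∈ S ↔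
      ∃ (T : ℕ) (M : ℕ → Fin (m+1) → Multiset (Fin k)) (e : ℕ → ℕ),
        M 0 = w ∧ e 0 = 0 ∧
        (∀ t < T, ∃ (U : Fin (m+1) →
              Multiset (Option (Fin k) × Fin k × Multiset (Fin k × Fin 3)))
            (D : Fin (m+1) → Multiset (Fin k)),
          (∀ i : Fin (m+1), App i (M t i) (U i) ∧
              ∀ ρ : Option (Fin k) × Fin k × Multiset (Fin k × Fin 3),
                ¬ App i (M t i) (Multiset.cons ρ (U i))) ∧
          D 0 = 0 ∧
          (∀ i : Fin (m+1),
            ∑ j ∈ Finset.univ.filter (fun j : Fin (m+1) => j ≠ 0 ∧ p j = i), D j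
              = (U i).bind (fun ρ => (ρ.2.2.filter (fun x => x.2 = 2)).map Prod.fst)) ∧
          (∀ i : Fin (m+1), M (t+1) i =
              M t i - (U i).map (fun ρ => ρ.2.1)
              + (U i).bind (fun ρ => (ρ.2.2.filter (fun x => x.2 = 0)).map Prod.fst)
              + ∑ j ∈ Finset.univ.filter (fun j : Fin (m+1) => j ≠ 0 ∧ p j = i),
                  (U j).bind (fun ρ => (ρ.2.2.filter (fun x => x.2 = 1)).map Prod.fst)
              + D i) ∧
          e (t+1) = e t +
            ((U 0).bind (fun ρ => (ρ.2.2.filter (fun x => x.2 = 1)).map Prod.fst)).card) ∧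
        (∀ (i : Fin (m+1)) (ρ : Option (Fin k) × Fin k × Multiset (Fin k × Fin 3)),
          ¬ App i (M T i) (Multiset.cons ρ 0)) ∧
        (∀ j : Fin (m+1), iout = some j → n = (M T j).card) ∧
        (iout = none → n = e T) := by
  classical
  intro S hS
  obtain ⟨P, hd, hc, hN⟩ := Pool.Agent.Results.MP_280e70_lc.OneCatalystUniversal.result S hS
  have hz : ∀ i : Fin (0 + 1), i = 0 := fun i => by
    apply Fin.ext
    have := i.2
    simp only [Fin.val_zero]
    omega
  have hf : ∀ i : Fin (0 + 1), Finset.univ.filter (fun j : Fin (0 + 1) => j ≠ 0 ∧ (0 : Fin (0 + 1)) = i) = ∅ := by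
    intro i
    rw [Finset.filter_eq_empty_iff]
    rintro j _ ⟨h1, _⟩
    exact h1 (hz j)
  have hfo : Finite P.Obj := P.finObj
  obtain ⟨k, ⟨e⟩⟩ := Finite.exists_equiv_fin P.Obj
  have hC : (P.Cat.image e).Finite := Set.toFinite _
  refine ⟨k, 0, hC.toFinset, fun _ => 0, fun _ => (P.init P.skin).map e, fun _ => RR P e,
    P.iout.map (fun _ => 0), fun _ => Ap P e, rfl, ?_, ?_, ?_, ?_, ?_, ?_⟩
  · intro i hi
    exact absurd (hz i) hi
  · intro j _ i hi
    exact absurd (hz i) hi
  · rintro i ρ hρ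
    obtain ⟨r, hr, rfl⟩ := (mem_RR P e ρ).1 hρ
    obtain ⟨h1, h2, h3⟩ := P.rules_ok _ r hr
    refine ⟨?_, ?_, ?_⟩
    · rw [Set.Finite.mem_toFinset]
      rintro ⟨a, ha, h4⟩
      rw [e.injective h4] at ha
      exact h1 ha
    · intro c hc
      rw [Set.Finite.mem_toFinset]
      obtain ⟨c', hc', rfl⟩ := Option.map_eq_some_iff.1 hc
      exact ⟨c', h2 c' hc', rfl⟩
    · intro x hx
      obtain ⟨p, hp, rfl⟩ := Multiset.mem_map.1 hx
      rw [Set.Finite.mem_toFinset]
      rintro ⟨a, ha, h4⟩
      rw [e.injective h4] at ha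
      exact h3 p hp ha
  · rw [Finset.sum_eq_single (0 : Fin (0 + 1)) (fun i _ hi => absurd (hz i) hi) (by simp)]
    rw [← Multiset.countP_eq_card_filter, Multiset.countP_map]
    have h1 : P.numCat = (P.init P.skin).countP (· ∈ P.Cat) := by
      unfold PSystem.numCat
      rw [Finset.sum_eq_single P.skin (fun h _ hne => absurd (mem_eq P hd h) hne) (by simp)]
    rw [h1, Multiset.countP_eq_card_filter] at hc
    refine le_of_eq ?_
    rw [← hc]
    congr 1
    refine Multiset.filter_congr fun x _ => ?_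
    rw [Set.Finite.mem_toFinset]
    constructor
    · rintro ⟨a, ha, h4⟩
      rw [e.injective h4] at ha
      exact ha
    · exact fun h => ⟨x, h, rfl⟩
  · intro i X U
    unfold Ap Us
    refine and_congr_left fun _ => ?_
    refine forall₂_congr fun ρ _ => and_congr_right fun _ => ?_
    constructor
    · exact fun h _ => h
    · exact fun h => h fun l hl => absurd (hz l) hl
  · intro n
    rw [← hN, main P hd e]
    have hio : ∀ X : Fin (0 + 1) → Multiset (Fin k),
        (∀ j : Fin (0 + 1), P.iout.map (fun _ => (0 : Fin (0 + 1))) = some j → n = (X j).card) ↔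
          (P.iout ≠ none → n = (X 0).card) := by
      intro X
      rcases h : P.iout with _ | h'
      · simp
      · simp only [Option.map_some, Option.some.injEq, ne_eq, reduceCtorEq, not_false_eq_true,
          forall_const]
        constructor
        · exact fun h => h 0 rfl
        · rintro h j rfl
          exact h
    have hin : P.iout.map (fun _ => (0 : Fin (0 + 1))) = none ↔ P.iout = none := by
      rcases h : P.iout with _ | h' <;> simp
    constructor
    · rintro ⟨T, M, ev, h1, h2, h3, h4, h5, h6⟩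
      refine ⟨T, fun t _ => M t, ev, ?_, h2, ?_, fun _ => h4, (hio _).2 h5,
        fun h => h6 (hin.1 h)⟩
      · funext i
        exact h1
      · intro t ht
        obtain ⟨V, g1, g2, g3, g4, g5⟩ := h3 t ht
        refine ⟨fun _ => V, fun _ => 0, fun _ => ⟨g1, g2⟩, rfl, ?_, ?_, g5⟩
        · intro i
          rw [hf i, Finset.sum_empty]
          exact g3.symm
        · intro i
          rw [hf i, Finset.sum_empty, add_zero, add_zero]
          exact g4
    · rintro ⟨T, M, ev, h1, h2, h3, h4, h5, h6⟩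
      refine ⟨T, fun t => M t 0, ev, ?_, h2, ?_, h4 0, (hio _).1 h5, fun h => h6 (hin.2 h)⟩
      · exact congrFun h1 0
      · intro t ht
        obtain ⟨U, D, g1, g2, g3, g4, g5⟩ := h3 t ht
        refine ⟨U 0, (g1 0).1, (g1 0).2, ?_, ?_, g5⟩
        · have := g3 0
          rw [hf 0, Finset.sum_empty] at this
          exact this.symm
        · have := g4 0
          rw [hf 0, Finset.sum_empty, add_zero, g2, add_zero] at this
          exact this

end Pool.Agent.S14505
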