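import Pool.Statements.S14549
import Pool.Agent.W361.LQ.Fin
import Pool.Agent.W764.LQ.CPT
import Pool.Agent.W168.LQ.Inj
import Pool.Agent.W395.LQ.Div
import Pool.Agent.W381.LQ.Non
import Pool.Agent.W654.LQ.Dense
import Pool.Agent.W923.LQ.Val
import Pool.Agent.W641.LQ.APX
import Pool.Agent.W19.LQ.FP
import Pool.Agent.W585.LQ.NM
import Pool.Agent.W89.LQ.Lt
import Pool.Agent.W918.LQ.CX
import Pool.Agent.W565.LQ.Near
import Pool.Agent.W311.LQ.Init
import Pool.Agent.W924.LQ.BACK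
import Pool.Agent.W605.LQ.Forth
import Pool.Agent.W436.LQ.PI
import Pool.Agent.W162.LQ.Tab
import Pool.Agent.W917.LQ.Low2
import Pool.Agent.W952.LP.Low
import Pool.Agent.W952.LP.Sig2

set_option autoImplicit false
open Pool Pool.MP_3235d4_lc

namespace Pool.Agent.S14549

/-- There is a low2 oracle g (every Sigma2-in-g set is Delta3) and a complete metric space with a dense sequence whose distances are g-computable, not homeomorphic to any complete metric space with a computable dense sequence. -/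
theorem result :
  ∃ g : ℕ → ℕ,
    (∀ R : ℕ → ℕ,
      TuringReducible (fun m => Part.some (R m)) (fun m => Part.some (g m)) →
      ∃ S T : ℕ → ℕ, Computable S ∧ Computable T ∧ ∀ n : ℕ,
        ((∃ a : ℕ, ∀ b : ℕ, R (Nat.pair n (Nat.pair a b)) = 0) ↔
          ∃ a : ℕ, ∀ b : ℕ, ∃ c : ℕ, S (Nat.pair n (Nat.pair a (Nat.pair b c))) = 0) ∧
        ((¬ ∃ a : ℕ, ∀ b : ℕ, R (Nat.pair n (Nat.pair a b)) = 0) ↔
          ∃ a : ℕ, ∀ b : ℕ, ∃ c : ℕ, T (Nat.pair n (Nat.pair a (Nat.pair b c))) = 0)) ∧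
    ∃ (P : Type) (_ : MetricSpace P), CompleteSpace P ∧
      ∃ x : ℕ → P, DenseRange x ∧
      (∃ f : ℕ → ℕ,
        TuringReducible (fun m => Part.some (f m)) (fun m => Part.some (g m)) ∧
        ∀ i j k : ℕ,
          |(f (Nat.pair i (Nat.pair j k)) : ℝ) / 2 ^ k - dist (x i) (x j)| ≤ 1 / 2 ^ k) ∧
      (∀ (Q : Type) [MetricSpace Q], CompleteSpace Q →
        ∀ y : ℕ → Q, DenseRange y →
        (∃ h : ℕ → ℕ, Computable h ∧
          ∀ i j k : ℕ,
            |(h (Nat.pair i (Nat.pair j k)) : ℝ) / 2 ^ k - dist (y i) (y j)| ≤ 1 / 2 ^ k) →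
        IsEmpty (P ≃ₜ Q)) := by
  exact Pool.Agent.W361.LQ.fin Pool.Agent.W764.LQ.main
    (Pool.Agent.W395.LQ.Div.main Pool.Agent.W764.LQ.main Pool.Agent.W168.LQ.main)
    Pool.Agent.W381.LQ.main Pool.Agent.W654.LQ.Dense.main Pool.Agent.W923.LQ.Val.main
    Pool.Agent.W641.LQ.apx Pool.Agent.W19.LQ.main Pool.Agent.W585.LQ.NM.main
    Pool.Agent.W89.LQ.Lt.main Pool.Agent.W918.LQ.CX.main Pool.Agent.W565.LQ.Near.main
    Pool.Agent.W311.LQ.main Pool.Agent.W924.LQ.BACK.main Pool.Agent.W605.LQ.Forth.main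
    Pool.Agent.W436.LQ.main Pool.Agent.W162.LQTab.main
    (Pool.Agent.W917.LQ.Low2.main Pool.Agent.W952.LP.sig2) Pool.Agent.W952.LP.low
    Pool.Agent.W952.LP.inv

end Pool.Agent.S14549
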