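import Pool.Statements.S14568
import Pool.Agent.W934.Col

set_option autoImplicit false
open Classical
open Pool Pool.MP_354b3e_lc

namespace Pool.Agent.S14568

open Pool.Agent.W934 Pool.Agent.Helper446 Pool.Agent.Helper743
open Nat.Partrec (Code)

lemma mem_iff (F : Finset ℕ) (y : ℕ) :
    y ∈ Denumerable.ofNat (List ℕ) (Encodable.encode F) ↔ y ∈ F := by
  have h : ((↑) : List ℕ → Multiset ℕ) <$> (Encodable.decode (α := List ℕ)
      (Encodable.encode F)) = some F.val :=
    @Encodable.encodek (Multiset ℕ) Multiset.encodable F.val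
  rw [Denumerable.decode_eq_ofNat] at h
  have h2 : ((Denumerable.ofNat (List ℕ) (Encodable.encode F) : List ℕ) : Multiset ℕ) = F.val := by
    simpa using h
  rw [← Multiset.mem_coe, h2]; rfl

/-- the generic set -/
def G1 : Set ℕ := {n | Gen.A n = true}

lemma char_eq : (fun n : ℕ => if n ∈ G1 then (1 : ℕ) else 0) = fun n => (Gen.A n).toNat := by
  funext n
  by_cases h : Gen.A n = true
  · rw [if_pos (show n ∈ G1 from h), h]; rfl
  · rw [if_neg (show ¬ n ∈ G1 from h)]
    rw [Bool.not_eq_true] at h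
    rw [h]; rfl

lemma not_computable : ¬ ComputablePred (fun n : ℕ => n ∈ G1) := by
  intro h
  have hS : REPred fun τ : List Bool => ∃ p : ℕ × Bool, τ[p.1]? = some p.2 ∧
      (p.2 = true → p.1 ∉ G1) ∧ (p.2 = false → p.1 ∈ G1) := by
    refine RE.ex (p := fun (τ : List Bool) (p : ℕ × Bool) => τ[p.1]? = some p.2 ∧
      (p.2 = true → p.1 ∉ G1) ∧ (p.2 = false → p.1 ∈ G1)) ?_
    refine RE.and (RE.eq (by fun_prop) (by fun_prop)) ?_
    have h1 : REPred fun x : List Bool × (ℕ × Bool) =>
        (x.2.2 = true ∧ x.2.1 ∉ G1) ∨ (x.2.2 = false ∧ x.2.1 ∈ G1) := by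
      refine RE.or (RE.and (RE.eq (by fun_prop) (by fun_prop)) ?_)
        (RE.and (RE.eq (by fun_prop) (by fun_prop)) ?_)
      · exact RE.comp (p := fun n : ℕ => n ∉ G1) h.not.to_re
          (f := fun x : List Bool × (ℕ × Bool) => x.2.1) (by fun_prop)
      · exact RE.comp (p := fun n : ℕ => n ∈ G1) h.to_re
          (f := fun x : List Bool × (ℕ × Bool) => x.2.1) (by fun_prop)
    refine h1.of_eq fun x => ?_
    cases x.2.2 <;> simp
  have hpre : ∀ m i b, (Gen.preB m)[i]? = some b → b = Gen.A i := by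
    intro m i b hb
    unfold Gen.preB at hb
    rw [List.getElem?_map] at hb
    by_cases hi : i < m
    · simp [hi] at hb; exact hb.symm
    · simp [hi] at hb
  rcases Gen.generic hS with ⟨m, ⟨i, b⟩, h1, h2, h3⟩ | ⟨m, hm⟩
  · have := hpre m i b h1
    cases b
    · have h4 : Gen.A i = true := h3 rfl
      rw [h4] at this; cases this
    · exact h2 rfl this.symm
  · refine hm [!Gen.A m] ⟨(m, !Gen.A m), ?_, ?_, ?_⟩
    · simp [Gen.preB]
    · intro h4 h5
      have h6 : Gen.A m = true := h5
      simp [h6] at h4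
    · intro h4
      show Gen.A m = true
      simpa using h4

lemma reducible : TuringReducible (fun n : ℕ => Part.some (if n ∈ G1 then (1 : ℕ) else 0))
    (fun n : ℕ => Part.some
      (if ((Denumerable.ofNat Nat.Partrec.Code n).eval n).Dom then (1 : ℕ) else 0)) := by
  let f : ℕ → ℕ := fun n => if n ∈ G1 then (1 : ℕ) else 0
  let g : ℕ → ℕ := fun n => if ((Denumerable.ofNat Nat.Partrec.Code n).eval n).Dom then (1 : ℕ) else 0
  show TuringReducible (f : ℕ →. ℕ) (g : ℕ →. ℕ)
  rw [← TR_iff]
  have h1 : TR f K := by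
    have : f = fun n => (Gen.A n).toNat := char_eq
    rw [this]
    exact Gen.limC.TR_K
  have h2 : TR K g := by
    let s : ℕ → ℕ := fun z => Encodable.encode
      (Code.comp (Denumerable.ofNat Code z.unpair.1) (Code.const z.unpair.2))
    have hs : Computable s := by
      have h3 : Primrec s := by
        refine Primrec.encode.comp (Code.primrec₂_comp.comp ((Primrec.ofNat Code).comp
          (Primrec.fst.comp Primrec.unpair)) (Code.primrec_const.comp
          (Primrec.snd.comp Primrec.unpair)))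
      exact h3.to_comp
    have h3 := (TR.refl g).comp (Computable.recT (O := {(g : ℕ →. ℕ)}) hs)
    have h4 : (fun n => g (s n)) = K := by
      funext z
      have h5 : ((Denumerable.ofNat Nat.Partrec.Code (s z)).eval (s z)) =
          Code.eval (Denumerable.ofNat Code z.unpair.1) z.unpair.2 := by
        show ((Denumerable.ofNat Nat.Partrec.Code (Encodable.encode _)).eval (s z)) = _
        rw [Denumerable.ofNat_encode]
        simp only [Code.eval, Code.eval_const]
        exact Part.bind_some _ _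
      show (if ((Denumerable.ofNat Nat.Partrec.Code (s z)).eval (s z)).Dom then (1 : ℕ) else 0) = _
      rw [h5]
      rfl
    rw [h4] at h3
    exact h3
  exact h1.trans h2

lemma map_pre (m : ℕ) : (Gen.preB m).map Bool.toNat =
    pre (fun n : ℕ => if n ∈ G1 then (1 : ℕ) else 0) m := by
  unfold Gen.preB pre
  rw [List.map_map]
  apply List.map_congr_left
  intro n _
  exact (congrFun char_eq n).symm

/-- neighbour lists computable from the generic set are computable -/
theorem nbr {Adj : ℕ → ℕ → Prop} (hadj : ComputablePred fun p : ℕ × ℕ => Adj p.1 p.2)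
    {N : ℕ → Finset ℕ} (hN : ∀ x y, Adj x y ↔ y ∈ N x)
    (hred : TuringReducible (fun x : ℕ => Part.some (Encodable.encode (N x)))
      (fun n : ℕ => Part.some (if n ∈ G1 then (1 : ℕ) else 0))) :
    ∃ L : ℕ → List ℕ, Computable L ∧ ∀ x y, Adj x y ↔ y ∈ L x := by
  let f : ℕ → ℕ := fun x => Encodable.encode (N x)
  let g : ℕ → ℕ := fun n => if n ∈ G1 then (1 : ℕ) else 0
  have h1 : TR f g := TR_iff.2 hred
  obtain ⟨ev, hev, hmono, hcor⟩ := use_principle g _ h1
  have hmap : Computable fun σ : List Bool => σ.map Bool.toNat :=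
    (Primrec.list_map Primrec.id ((Primrec.dom_bool Bool.toNat).comp Primrec.snd).to₂).to_comp
  have hev' : Computable fun x : List Bool × ℕ => ev (x.1.map Bool.toNat) x.2 :=
    hev.comp (hmap.comp Computable.fst) Computable.snd
  let S : List Bool → Prop := fun σ => ∃ q : (ℕ × ℕ) × ℕ, ev (σ.map Bool.toNat) q.1.1 = some q.2 ∧
    ((Adj q.1.1 q.1.2 ∧ q.1.2 ∉ Denumerable.ofNat (List ℕ) q.2) ∨
      (¬ Adj q.1.1 q.1.2 ∧ q.1.2 ∈ Denumerable.ofNat (List ℕ) q.2))
  have hS : REPred S := by
    refine RE.ex (p := fun (σ : List Bool) (q : (ℕ × ℕ) × ℕ) =>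
      ev (σ.map Bool.toNat) q.1.1 = some q.2 ∧
      ((Adj q.1.1 q.1.2 ∧ q.1.2 ∉ Denumerable.ofNat (List ℕ) q.2) ∨
      (¬ Adj q.1.1 q.1.2 ∧ q.1.2 ∈ Denumerable.ofNat (List ℕ) q.2))) ?_
    have hl : Computable fun x : List Bool × ((ℕ × ℕ) × ℕ) =>
        Denumerable.ofNat (List ℕ) x.2.2 := (Computable.ofNat (List ℕ)).comp (by fun_prop)
    refine RE.and (RE.eq ?_ (by fun_prop)) (RE.or (RE.and ?_ (RE.not_mem_list (by fun_prop) hl))
      (RE.and ?_ (RE.mem_list (by fun_prop) hl)))
    · exact hev'.comp (f := fun x : List Bool × ℕ => ev (x.1.map Bool.toNat) x.2)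
        (g := fun x : List Bool × ((ℕ × ℕ) × ℕ) => (x.1, x.2.1.1)) (by fun_prop)
    · exact RE.comp (p := fun p : ℕ × ℕ => Adj p.1 p.2) hadj.to_re
        (f := fun x : List Bool × ((ℕ × ℕ) × ℕ) => x.2.1) (by fun_prop)
    · exact RE.comp (p := fun p : ℕ × ℕ => ¬ Adj p.1 p.2) hadj.not.to_re
        (f := fun x : List Bool × ((ℕ × ℕ) × ℕ) => x.2.1) (by fun_prop)
  rcases Gen.generic hS with ⟨m, ⟨⟨x, y⟩, v⟩, h2, h3⟩ | ⟨m, hm⟩
  · exfalso
    rw [map_pre] at h2
    have h4 : v ∈ (Part.some (f x) : Part ℕ) := (hcor x v).2 ⟨m, h2⟩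
    rw [Part.mem_some_iff] at h4
    simp only at h3
    rw [h4] at h3
    show False
    have h5 := mem_iff (N x) y
    have h6 := hN x y
    change (Adj x y ∧ y ∉ Denumerable.ofNat (List ℕ) (Encodable.encode (N x))) ∨
      (¬ Adj x y ∧ y ∈ Denumerable.ofNat (List ℕ) (Encodable.encode (N x))) at h3
    rw [h5, h6] at h3
    tauto
  · -- search above the initial segment
    let r : ℕ → List ℕ → Prop := fun x l => ∃ q : List Bool × ℕ,
      ev ((Gen.preB m ++ q.1).map Bool.toNat) x = some q.2 ∧ l = Denumerable.ofNat (List ℕ) q.2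
    have hr : REPred fun a : ℕ × List ℕ => r a.1 a.2 := by
      refine RE.ex (p := fun (a : ℕ × List ℕ) (q : List Bool × ℕ) =>
        ev ((Gen.preB m ++ q.1).map Bool.toNat) a.1 = some q.2 ∧
          a.2 = Denumerable.ofNat (List ℕ) q.2) ?_
      have hl : Computable fun x : (ℕ × List ℕ) × (List Bool × ℕ) =>
        Denumerable.ofNat (List ℕ) x.2.2 := (Computable.ofNat (List ℕ)).comp (by fun_prop)
      refine RE.and (RE.eq ?_ (by fun_prop)) (RE.eq (by fun_prop) hl)
      exact hev'.comp (f := fun x : List Bool × ℕ => ev (x.1.map Bool.toNat) x.2)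
        (g := fun x : (ℕ × List ℕ) × (List Bool × ℕ) => (Gen.preB m ++ x.2.1, x.1.1))
        (by fun_prop)
    obtain ⟨F, hF, hF1, hF2⟩ := RE.uniformize (r := r) hr
    have hdom : ∀ x, (F x).Dom := by
      intro x
      rw [hF1]
      obtain ⟨n, hn⟩ := (hcor x (f x)).1 (Part.mem_some _)
      refine ⟨_, ((List.range n).map fun i => Gen.A (m + i), f x), ?_, rfl⟩
      have h5 : Gen.preB m ++ (List.range n).map (fun i => Gen.A (m + i)) = Gen.preB (m + n) := by
        unfold Gen.preB
        rw [List.range_add, List.map_append, List.map_map]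
        rfl
      simp only
      rw [h5, map_pre]
      exact hmono _ _ _ _ (pre_prefix _ (Nat.le_add_left _ _)) hn
    refine ⟨fun x => (F x).get (hdom x), hF.of_eq fun s => (Part.some_get (hdom s)).symm, ?_⟩
    intro x y
    obtain ⟨⟨ρ, v⟩, h4, h5⟩ := hF2 x _ (Part.get_mem (hdom x))
    have h6 := hm ρ
    simp only at h4 h5
    show Adj x y ↔ y ∈ (F x).get (hdom x)
    rw [h5]
    by_contra hcon
    apply h6
    refine ⟨((x, y), v), h4, ?_⟩
    show (Adj x y ∧ y ∉ Denumerable.ofNat (List ℕ) v) ∨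
      (¬ Adj x y ∧ y ∈ Denumerable.ofNat (List ℕ) v)
    tauto

/-- The negation of the preceding statement: For every noncomputable A Turing-below the halting set there is a computable, locally finite, planar graph on ℕ whose neighbour lists are A-computable, with chromatic number 2, but with no computable proper colouring using finitely many colours. -/
theorem result :
    ¬ (∀ A : Set ℕ,
      ¬ ComputablePred (fun n : ℕ => n ∈ A) →
      TuringReducible (fun n : ℕ => Part.some (if n ∈ A then (1 : ℕ) else 0))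
        (fun n : ℕ => Part.some
          (if ((Denumerable.ofNat Nat.Partrec.Code n).eval n).Dom then (1 : ℕ) else 0)) →
      ∃ G : SimpleGraph ℕ,
        ComputablePred (fun p : ℕ × ℕ => G.Adj p.1 p.2) ∧
        (∃ N : ℕ → Finset ℕ, (∀ x y : ℕ, G.Adj x y ↔ y ∈ N x) ∧
          TuringReducible (fun x : ℕ => Part.some (Encodable.encode (N x)))
            (fun n : ℕ => Part.some (if n ∈ A then (1 : ℕ) else 0))) ∧
        (∃ f : ℕ → EuclideanSpace ℝ (Fin 2), Function.Injective f ∧
          ∃ γ : ∀ u v : ℕ, Path (f u) (f v),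
            (∀ u v : ℕ, G.Adj u v → Function.Injective (fun t : unitInterval => γ u v t)) ∧
            (∀ u v w : ℕ, G.Adj u v → ∀ t : unitInterval, γ u v t = f w → w = u ∨ w = v) ∧
            (∀ u v u' v' : ℕ, G.Adj u v → G.Adj u' v' →
              Sym2.mk (u, v) ≠ Sym2.mk (u', v') →
              ∀ t t' : unitInterval, γ u v t = γ u' v' t' →
                ∃ w : ℕ, (w = u ∨ w = v) ∧ (w = u' ∨ w = v') ∧ γ u v t = f w)) ∧
        G.chromaticNumber = 2 ∧
        ∀ k : ℕ, ∀ c : ℕ → ℕ, Computable c → (∀ x, c x < k) →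
          ∃ x y : ℕ, G.Adj x y ∧ c x = c y) := by
  intro H
  obtain ⟨G, hG1, ⟨N, hN1, hN2⟩, -, hG3, hG4⟩ := H G1 not_computable reducible
  obtain ⟨L, hL1, hL2⟩ := nbr hG1 hN1 hN2
  have hcol : G.Colorable 2 := by
    rw [← SimpleGraph.chromaticNumber_le_iff_colorable, hG3]
    rfl
  obtain ⟨C⟩ := hcol
  obtain ⟨c, hc1, hc2, hc3⟩ := Col.coloring hL1 hL2 (fun x y h => h.symm)
    (fun x => decide (C x = 0)) (fun x y h => by
      have := C.valid h
      intro heq
      rw [decide_eq_decide] at heq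
      apply this
      omega)
  obtain ⟨x, y, h1, h2⟩ := hG4 4 c hc1 hc2
  exact hc3 x y h1 h2

end Pool.Agent.S14568
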