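import Pool.Statements.S14608
-- import your own Pool.Agent.* helpers here
import Pool.Agent.W925.Cof4

set_option autoImplicit false
open Pool Pool.MP_3c0c60_lc

namespace Pool.Agent.S14608

/-- The negation of the preceding statement: There is a subgroup of the permutations of the naturals that is closed in the pointwise-convergence topology, whose non-identity elements each fix only finitely many points, and which is not properly contained in any other such subgroup. -/
theorem result :
    ¬ (∃ G : Subgroup (Equiv.Perm ℕ),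
      (∀ σ : Equiv.Perm ℕ, σ ∉ G →
        ∃ n : ℕ, ∀ τ : Equiv.Perm ℕ, (∀ i < n, τ i = σ i) → τ ∉ G) ∧
      (∀ g ∈ G, g ≠ 1 → {x : ℕ | g x = x}.Finite) ∧
      (∀ H : Subgroup (Equiv.Perm ℕ), G ≤ H →
        (∀ h ∈ H, h ≠ 1 → {x : ℕ | h x = x}.Finite) → H = G)) := by
  rintro ⟨G, hcl, hC, hmax⟩
  obtain ⟨g, hg, hne, hinf⟩ := Pool.Agent.W925.Cof.exists_infinite_fix (G := G)
    (fun s hs => by
      by_contra hsG
      obtain ⟨n, hn⟩ := hcl s hsG
      obtain ⟨g, hg, hgs⟩ := hs (Finset.range n)
      exact hn g (fun i hi => hgs i (Finset.mem_range.2 hi)) hg)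
    (Pool.Agent.W925.Cof.finOrb_of_maximal hC hmax)
  exact hinf (hC g hg hne)

end Pool.Agent.S14608
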