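import Pool.Statements.S14615
import Pool.Agent.W382.Iso.REIso

set_option autoImplicit false
open Pool Pool.MP_3d45c4_lc

namespace Pool.Agent.S14615

/-- Isomorphism of finitely presented groups, as a relation on codes of finite presentations, is computably enumerable, and every c.e. equivalence relation on ℕ computably reduces to it. -/
theorem result :
    ∀ E : ℕ × List (List (ℕ × Bool)) → ℕ × List (List (ℕ × Bool)) → Prop,
      (∀ a b, E a b ↔ Nonempty
        (PresentedGroup {g : FreeGroup (Fin a.1) | ∃ w ∈ a.2, g = FreeGroup.mk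
            (w.filterMap (fun q => if h : q.1 < a.1 then some ((⟨q.1, h⟩ : Fin a.1), q.2) else none))}
          ≃* PresentedGroup {g : FreeGroup (Fin b.1) | ∃ w ∈ b.2, g = FreeGroup.mk
            (w.filterMap (fun q => if h : q.1 < b.1 then some ((⟨q.1, h⟩ : Fin b.1), q.2) else none))})) →
      REPred (fun p : (ℕ × List (List (ℕ × Bool))) × (ℕ × List (List (ℕ × Bool))) => E p.1 p.2) ∧
      ∀ R : ℕ → ℕ → Prop, Equivalence R → REPred (fun p : ℕ × ℕ => R p.1 p.2) →
        ∃ f : ℕ → ℕ × List (List (ℕ × Bool)), Computable f ∧ ∀ x y, R x y ↔ E (f x) (f y) := by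
  intro E hE
  refine ⟨?_, fun R hR hre => ?_⟩
  · have h := Pool.Agent.W382.Iso.iso_re
    have h1 : (fun p : (ℕ × List (List (ℕ × Bool))) × (ℕ × List (List (ℕ × Bool))) => E p.1 p.2) =
        (fun p => Nonempty (Pool.Agent.W382.Iso.CG p.1 ≃* Pool.Agent.W382.Iso.CG p.2)) := by
      funext p
      exact propext (hE p.1 p.2)
    rw [h1]
    exact h
  · obtain ⟨f, hf, h⟩ := Pool.Agent.W382.Iso.reduction R hR hre
    exact ⟨f, hf, fun x y => (h x y).trans (hE (f x) (f y)).symm⟩

end Pool.Agent.S14615
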