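import Pool.Statements.S14665
import Pool.Agent.W93.TD.TD3
import Pool.Agent.W225.TD.Vand
import Pool.Agent.W899.TD.COEF
import Pool.Agent.W357.TD.NoAnn
import Pool.Agent.W903.TD.LIN
import Pool.Agent.W138.TD.MUL
import Pool.Agent.W561.TD.Span
import Pool.Agent.W641.TD.Bent
import Pool.Agent.W398.TD.Small
import Pool.Agent.W274.TD.Final

set_option autoImplicit false
open Pool Pool.MP_4ac633_lc

namespace Pool.Agent.S14665

/-- For every m there is a Boolean function f on 2m bits with all Walsh coefficients of absolute value 2^m (bent) such that a nonzero annihilator of f or f+1 of degree at most d exists exactly when d ≥ m, i.e. AI(f) = m. -/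
theorem result :
  ∀ m : ℕ, ∃ f : (Fin (2*m) → ZMod 2) → ZMod 2,
    (∀ a : Fin (2*m) → ZMod 2,
      (∑ x : Fin (2*m) → ZMod 2, (-1 : ℤ) ^ (f x + ∑ i, a i * x i).val) ^ 2 = 2 ^ (2*m)) ∧
    ∀ d : ℕ, ((∃ g : (Fin (2*m) → ZMod 2) → ZMod 2, g ≠ 0 ∧
        ((∀ x, f x * g x = 0) ∨ (∀ x, (f x + 1) * g x = 0)) ∧
        ∃ c : Finset (Fin (2*m)) → ZMod 2, (∀ S, c S ≠ 0 → S.card ≤ d) ∧
          ∀ x, g x = ∑ S : Finset (Fin (2*m)), c S * ∏ i ∈ S, x i) ↔ m ≤ d) := by
  intro m
  have key : ∀ m, W93.TD.Main m := by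
    intro m
    rcases Nat.lt_or_ge m 2 with h | h
    · interval_cases m
      · exact Pool.Agent.W398.TD.t_SMALL.1
      · exact Pool.Agent.W398.TD.t_SMALL.2
    · exact Pool.Agent.W274.TD.t_FINAL (fun k hk => W93.TD.tuDeng k (by omega))
        (Pool.Agent.W357.TD.t_noann Pool.Agent.W225.TD.t_VAND Pool.Agent.W899.TD.COEF.t_COEF)
        (Pool.Agent.W561.TD.t_span Pool.Agent.W903.TD.t_LIN W138.TD.t_MUL)
        Pool.Agent.W641.TD.t_BENT m h
  exact key m

end Pool.Agent.S14665
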