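import Pool.Statements.S14694
import Pool.Agent.W650.FlMain

set_option autoImplicit false
open Pool Pool.MP_519233_lc

namespace Pool.Agent.S14694

/-- The negation of the preceding statement: For every k and every permutation-closed language L over k letters: L is context-free iff for each letter ordering σ, the words of L of the form a_σ(0)* a_σ(1)* ... a_σ(k-1)* form a context-free language. -/
theorem result :
    ¬ (∀ k : ℕ, ∀ L : Language (Fin k),
      (∀ w v : List (Fin k), w.Perm v → w ∈ L → v ∈ L) →
        ((∃ g : ContextFreeGrammar (Fin k), g.language = L) ↔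
          ∀ σ : Equiv.Perm (Fin k),
            ∃ g : ContextFreeGrammar (Fin k),
              ∀ w : List (Fin k),
                w ∈ g.language ↔
                  (w ∈ L ∧ List.Pairwise (fun x y => σ.symm x ≤ σ.symm y) w))) := by
  intro H
  have h := (H 4 Pool.Agent.W650.Fl.L4 (by
    intro w v hp hw
    rw [Pool.Agent.W650.Fl.mem_L4] at hw ⊢
    rw [← hp.count_eq, ← hp.count_eq, ← hp.count_eq, ← hp.count_eq]
    exact hw)).2 (by
    intro σ
    obtain ⟨g, hg⟩ := Pool.Agent.W650.Fl.sections_cf (fun x => σ.symm x) σ.symm.injective
    refine ⟨g, fun w => ?_⟩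
    rw [hg]
    exact Iff.rfl)
  exact Pool.Agent.W650.Fl.L4_not_cf h

end Pool.Agent.S14694
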