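import Pool.Statements.S14852
import Pool.Agent.W510.CG.Main
import Pool.Agent.W639.CGHtf
import Pool.Agent.W565.CGR
import Pool.Agent.W395.CG.Exch
import Pool.Agent.W67.CGIV
import Pool.Agent.W554.CGFour
import Pool.Agent.W315.CGInfCtr
import Pool.Agent.W465.CGSub
import Pool.Agent.W880.CG.Iota
import Pool.Agent.W806.CG.LOC
import Pool.Agent.W135.CGHT0
import Pool.Agent.W557.CGNT0
import Pool.Agent.W563.CGTree
import Pool.Agent.W490.CGStd
import Pool.Agent.W253.CGZ
import Pool.Agent.W351.CGPres
import Pool.Agent.W154.CG.Conv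
import Pool.Agent.W721.CG.Step
import Pool.Agent.W138.CG.Strict

/-
Negative answer to the problem: a closed proper subgroup of `Sym` of a countable set that lies below no
maximal closed proper subgroup.  The set is the set of ends `Pt` of a countable `Λ`-tree, `Λ` the
finitely supported functions `ℕ → ℤ` in colexicographic order; the group is the isometry group of
the quaternary end-structure; every closed group above it is the full symmetric group or lies inside one of the
groups `K n`, and `K n < K (n+1)` strictly for every `n`.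
-/

set_option autoImplicit false
open Pool Pool.MP_6aa20f_lc

namespace Pool.Agent.S14852

open Pool.Agent.W510.CG in
/-- The tree facts. -/
theorem tree_ok : S_TREE :=
  Pool.Agent.W563.CGTree.main Pool.Agent.W315.CGInfCtr.main Pool.Agent.W315.CGInfCtr.main1
    Pool.Agent.W465.CGSub.main
    (Pool.Agent.W135.CGHT0.main Pool.Agent.W880.CG.Iota.main Pool.Agent.W806.CG.LOC.main)
    Pool.Agent.W557.CGNT0.main

open Pool.Agent.W510.CG in
theorem htf_ok : S_HTF := Pool.Agent.W639.CGHtf.main

open Pool.Agent.W510.CG in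
theorem r1_ok : S_R1 := Pool.Agent.W565.CGR.main1 htf_ok

open Pool.Agent.W510.CG in
theorem r2_ok : S_R2 := Pool.Agent.W565.CGR.main

open Pool.Agent.W510.CG in
theorem exch_ok : S_EXCH := Pool.Agent.W395.CG.main htf_ok r1_ok

open Pool.Agent.W510.CG in
theorem iv_ok : S_IV := Pool.Agent.W67.CGIV.main exch_ok

open Pool.Agent.W510.CG in
theorem four_ok : S_FOUR := Pool.Agent.W554.CGFour.main iv_ok

open Pool.Agent.W510.CG in
theorem top_ok : S_TOP := Pool.Agent.W554.CGFour.main1 htf_ok

open Pool.Agent.W510.CG in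
theorem std3_ok : S_STD3 := Pool.Agent.W490.CGStd.main tree_ok htf_ok

open Pool.Agent.W510.CG in
theorem std4_ok : S_STD4 := Pool.Agent.W490.CGStd.main1 tree_ok htf_ok std3_ok

open Pool.Agent.W510.CG in
theorem cl_ok : S_CL := Pool.Agent.W490.CGStd.main2 std3_ok

open Pool.Agent.W510.CG in
theorem zstd_ok : S_ZSTD := Pool.Agent.W253.CGZ.main std4_ok

open Pool.Agent.W510.CG in
theorem add_ok : S_ADD := Pool.Agent.W253.CGZ.main1 zstd_ok r1_ok r2_ok tree_ok

open Pool.Agent.W510.CG in
theorem pres_ok : S_PRES := Pool.Agent.W351.CGPres.main cl_ok zstd_ok std4_ok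

open Pool.Agent.W510.CG in
theorem all4_ok : S_ALL4 := Pool.Agent.W351.CGPres.main1 cl_ok zstd_ok

open Pool.Agent.W510.CG in
theorem ari_ok : S_ARI := Pool.Agent.W154.CG.main1

open Pool.Agent.W510.CG in
theorem conv_ok : S_CONV := Pool.Agent.W154.CG.main ari_ok

open Pool.Agent.W510.CG in
theorem step_ok : S_STEP := Pool.Agent.W721.CGStep.main ari_ok std3_ok

open Pool.Agent.W510.CG in
theorem strict_ok : S_STRICT := Pool.Agent.W138.CG.Strict.main ari_ok

open Pool.Agent.W510.CG in
theorem main_ok : S_MAIN :=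
  main_of tree_ok four_ok top_ok all4_ok add_ok pres_ok conv_ok

/-- The negation of the preceding statement: For every countable M, every proper subgroup of Sym(M) that is closed in the pointwise topology lies in some closed proper subgroup F such that no closed subgroup sits strictly between F and Sym(M). -/
theorem result :
    ¬ (∀ (M : Type) [Countable M] (G : Subgroup (Equiv.Perm M)),
      (∀ σ : Equiv.Perm M,
        (∀ A : Finset M, ∃ g ∈ G, ∀ a ∈ A, g a = σ a) → σ ∈ G) →
      G ≠ ⊤ →
      ∃ F : Subgroup (Equiv.Perm M),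
        (∀ σ : Equiv.Perm M,
          (∀ A : Finset M, ∃ g ∈ F, ∀ a ∈ A, g a = σ a) → σ ∈ F) ∧
        G ≤ F ∧ F ≠ ⊤ ∧
        ∀ F' : Subgroup (Equiv.Perm M),
          (∀ σ : Equiv.Perm M,
            (∀ A : Finset M, ∃ g ∈ F', ∀ a ∈ A, g a = σ a) → σ ∈ F') →
          F ≤ F' → F' = F ∨ F' = ⊤) :=
  Pool.Agent.W510.CG.final_of main_ok Pool.Agent.W138.CG.Strict.main3
    Pool.Agent.W138.CG.Strict.main2 Pool.Agent.W138.CG.Strict.main1 step_ok strict_ok

end Pool.Agent.S14852
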