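import Pool.Statements.S14886
import Pool.Agent.W30.Ershov

set_option autoImplicit false
open Pool Pool.MP_711492_lc

namespace Pool.Agent.S14886

/-- The negation of the preceding statement: For n≥1 and Σ⁰ₙ or n-c.e. sets: if a family has two 0'-equivalent but not computably equivalent minimal computable numberings, it has arbitrarily many pairwise computably inequivalent minimal computable numberings. -/
theorem result :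
    ¬ (∀ (n : ℕ), 1 ≤ n →
  ∀ (C : Set (Set ℕ)),
    (C = Nat.rec (motive := fun _ => Set (Set ℕ))
          {A : Set ℕ | ComputablePred (fun x => x ∈ A)}
          (fun _ S => {A : Set ℕ | ∃ B ∈ S, ∀ x, x ∈ A ↔ ∃ y, Nat.pair x y ∉ B}) n
     ∨ C = {A : Set ℕ | ∃ g : ℕ → ℕ → Bool, Computable₂ g ∧ (∀ x, g x 0 = false) ∧
            (∀ x, ∃ s₀, ∀ s, s₀ ≤ s → (g x s = true ↔ x ∈ A)) ∧
            ∀ (x : ℕ) (t : Fin (n + 1) → ℕ), StrictMono t → ∃ j, g x (t j + 1) = g x (t j)}) →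
  ∀ (Red Red0 : (ℕ → Set ℕ) → (ℕ → Set ℕ) → Prop),
    (∀ a b, Red a b ↔ ∃ f : ℕ → ℕ, Computable f ∧ a = b ∘ f) →
    (∀ a b, Red0 a b ↔ ∃ f : ℕ → ℕ,
        (∃ g : ℕ → ℕ → ℕ, Computable₂ g ∧ ∀ x, ∃ s₀, ∀ s, s₀ ≤ s → g x s = f x) ∧ a = b ∘ f) →
  ∀ (𝒜 : Set (Set ℕ)), 𝒜 ⊆ C →
  ∀ (Good : (ℕ → Set ℕ) → Prop),
    (∀ a, Good a ↔ (Set.range a = 𝒜 ∧
        {k : ℕ | (Nat.unpair k).2 ∈ a (Nat.unpair k).1} ∈ C ∧
        ∀ b : ℕ → Set ℕ, Set.range b = 𝒜 → Red b a → Red a b)) →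
    (∃ α β : ℕ → Set ℕ, Good α ∧ Good β ∧ Red0 α β ∧ Red0 β α ∧ ¬ (Red α β ∧ Red β α)) →
    ∀ k : ℕ, ∃ γ : Fin k → ℕ → Set ℕ, (∀ j, Good (γ j)) ∧
      ∀ j j', j ≠ j' → ¬ (Red (γ j) (γ j') ∧ Red (γ j') (γ j))) := by
  intro h
  exact Pool.Agent.W30.Ershov.final (fun 𝒜 h𝒜 hαβ k =>
    h 2 (by norm_num) (Pool.Agent.W30.Ershov.CC 2) (Or.inr rfl) Pool.Agent.W30.Ershov.FRed
      Pool.Agent.W30.Ershov.LRed (fun _ _ => Iff.rfl) (fun _ _ => Iff.rfl) 𝒜 h𝒜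
      (Pool.Agent.W30.Ershov.FGood 𝒜) (fun _ => Iff.rfl) hαβ k)

end Pool.Agent.S14886
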