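import Pool.Statements.S14895

set_option autoImplicit false
open Pool Pool.MP_735cdd_lc

namespace Pool.Agent.S14895

open FirstOrder

/-- The language of the frozen statement: one product symbol in each arity. -/
abbrev L : Language := FirstOrder.Language.mk (fun _ => Unit) (fun _ => Empty)

section Grp

variable {G : Type} [Group G]

/-- Iterated divisibility: `x = u_k z²`, `z = u_(k+1) z'²`, and so on. -/
def P (u : ℕ → G) : ℕ → ℕ → G → Prop
  | 0, k, x => ∃ z, x = u k * (z * z)
  | n+1, k, x => ∃ z, x = u k * (z * z) ∧ P u n (k+1) z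

theorem P_self (y b : ℕ → G) (h : ∀ i, y i = b i * (y (i+1) * y (i+1))) (n k : ℕ) :
    P b n k (y k) := by
  induction n generalizing k with
  | zero => exact ⟨y (k+1), h k⟩
  | succ n ih => exact ⟨y (k+1), h k, ih (k+1)⟩

theorem tf_zpow (htf : ∀ g : G, ∀ n : ℕ, 0 < n → g ^ n = 1 → g = 1) {g : G} {m : ℤ} (hm : m ≠ 0)
    (h : g ^ m = 1) : g = 1 := by
  refine htf g m.natAbs (Int.natAbs_pos.2 hm) ?_
  rcases Int.natAbs_eq m with h1 | h1
  · rw [h1] at h; simpa using h
  · rw [h1] at h; simpa using h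

theorem P_contra (htf : ∀ g : G, ∀ n : ℕ, 0 < n → g ^ n = 1 → g = 1) (y : ℕ → G) (n : ℕ)
    (hne : y n ≠ 1) (π : G →* G) (h1 : π (y n) = y n) (h2 : ∀ k < n, π (y k) = 1)
    (h3 : ∀ g, π g ∈ Subgroup.zpowers (y n)) (j k : ℕ) (hjk : k + j = n) (x : G)
    (hx : π x = 1) (hP : P y j k x) : False := by
  induction j generalizing k x with
  | zero =>
    obtain ⟨z, hz⟩ := hP
    obtain ⟨m, hm⟩ := h3 z
    have hk : k = n := by omega
    subst hk
    have : (y k) ^ (1 + 2 * m : ℤ) = 1 := by
      have e : π x = y k * (π z * π z) := by rw [hz, map_mul, map_mul, h1]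
      rw [← hm, hx] at e
      simp only at e
      rw [zpow_add, zpow_one, two_mul, zpow_add]
      exact e.symm
    exact hne (tf_zpow htf (by omega) this)
  | succ j ih =>
    obtain ⟨z, hz, hP'⟩ := hP
    have e : π x = π z * π z := by rw [hz, map_mul, map_mul, h2 k (by omega), one_mul]
    have e2 : π z = 1 := htf _ 2 (by norm_num) (by rw [pow_two, ← e, hx])
    exact ih (k+1) (by omega) z e2 hP'

/-- elementary Nielsen transformations -/
theorem nielsen {X : Set G} (hX : Subgroup.closure X = ⊤)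
    (hf : ∀ f : X → G, ∃ φ : G →* G, ∀ x : X, φ x = f x) (u v : G) (hu : u ∈ X) (hv : v ∈ X)
    (huv : u ≠ v) :
    ∃ τ : G ≃* G, τ u = u * (v * v)⁻¹ ∧ ∀ x ∈ X, x ≠ u → τ x = x := by
  classical
  obtain ⟨φ, hφ⟩ := hf (fun x => if (x : G) = u then u * (v * v)⁻¹ else x)
  obtain ⟨ψ, hψ⟩ := hf (fun x => if (x : G) = u then u * (v * v) else x)
  have p1 : φ u = u * (v * v)⁻¹ := by simpa using hφ ⟨u, hu⟩
  have p2 : ∀ x ∈ X, x ≠ u → φ x = x := fun x hx hxu => by simpa [hxu] using hφ ⟨x, hx⟩
  have q1 : ψ u = u * (v * v) := by simpa using hψ ⟨u, hu⟩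
  have q2 : ∀ x ∈ X, x ≠ u → ψ x = x := fun x hx hxu => by simpa [hxu] using hψ ⟨x, hx⟩
  have pv := p2 v hv huv.symm
  have qv := q2 v hv huv.symm
  have c1 : ψ.comp φ = MonoidHom.id G := by
    refine MonoidHom.eq_of_eqOn_dense hX ?_
    intro x hx
    by_cases hxu : x = u
    · subst hxu
      simp [p1, q1, qv]
      group
    · simp [p2 x hx hxu, q2 x hx hxu]
  have c2 : φ.comp ψ = MonoidHom.id G := by
    refine MonoidHom.eq_of_eqOn_dense hX ?_
    intro x hx
    by_cases hxu : x = u
    · subst hxu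
      simp [p1, q1, pv]
      group
    · simp [p2 x hx hxu, q2 x hx hxu]
  exact ⟨MonoidHom.toMulEquiv φ ψ c1 c2, p1, p2⟩

theorem autos {X : Set G} (hX : Subgroup.closure X = ⊤)
    (hf : ∀ f : X → G, ∃ φ : G →* G, ∀ x : X, φ x = f x) (y : ℕ → G) (hy : ∀ i, y i ∈ X)
    (hinj : Function.Injective y) (n : ℕ) :
    ∃ α : G ≃* G, (∀ i < n, α (y i) = y i * (y (i+1) * y (i+1))⁻¹) ∧
      ∀ i, n ≤ i → α (y i) = y i := by
  induction n with
  | zero => exact ⟨MulEquiv.refl G, by simp, by simp⟩
  | succ n ih =>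
    obtain ⟨α, h1, h2⟩ := ih
    obtain ⟨τ, t1, t2⟩ := nielsen hX hf (y n) (y (n+1)) (hy n) (hy (n+1))
      (fun h => by have := hinj h; omega)
    have t3 : ∀ i, i ≠ n → τ (y i) = y i := fun i hi => t2 _ (hy i) (fun h => hi (hinj h))
    refine ⟨τ.trans α, ?_, ?_⟩
    · intro i hi
      rcases Nat.lt_succ_iff_lt_or_eq.1 hi with h | h
      · simp [t3 i (by omega), h1 i h]
      · subst h
        simp [t1, h2 i le_rfl, h2 (i+1) (by omega)]
    · intro i hi
      simp [t3 i (by omega), h2 i (by omega)]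

/-- the retractions onto the cyclic factors -/
theorem retr {X : Set G} (hX : Subgroup.closure X = ⊤)
    (hf : ∀ f : X → G, ∃ φ : G →* G, ∀ x : X, φ x = f x) (y : ℕ → G) (hy : ∀ i, y i ∈ X)
    (hinj : Function.Injective y) :
    ∃ π : ℕ → G →* G, (∀ n, π n (y n) = y n) ∧ (∀ n, ∀ x ∈ X, x ≠ y n → π n x = 1) ∧
      (∀ n g, π n g ∈ Subgroup.zpowers (y n)) ∧ ∀ g, ∃ N, ∀ n, N ≤ n → π n g = 1 := by
  classical
  choose π hπ using fun n => hf (fun x => if (x : G) = y n then y n else 1)
  have a1 : ∀ n, π n (y n) = y n := fun n => by simpa using hπ n ⟨y n, hy n⟩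
  have a2 : ∀ n, ∀ x ∈ X, x ≠ y n → π n x = 1 := fun n x hx hxu => by
    simpa [hxu] using hπ n ⟨x, hx⟩
  refine ⟨π, a1, a2, ?_, ?_⟩
  · intro n g
    have hg : g ∈ Subgroup.closure X := by rw [hX]; trivial
    induction hg using Subgroup.closure_induction with
    | mem x hx =>
      by_cases h : x = y n
      · rw [h, a1]; exact Subgroup.mem_zpowers _
      · rw [a2 n x hx h]; exact Subgroup.one_mem _
    | one => rw [map_one]; exact Subgroup.one_mem _
    | mul a b _ _ ha hb => rw [map_mul]; exact Subgroup.mul_mem _ ha hb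
    | inv a _ ha => rw [map_inv]; exact Subgroup.inv_mem _ ha
  · intro g
    have hg : g ∈ Subgroup.closure X := by rw [hX]; trivial
    induction hg using Subgroup.closure_induction with
    | mem x hx =>
      by_cases h : ∃ i, x = y i
      · obtain ⟨i, rfl⟩ := h
        exact ⟨i+1, fun n hn => a2 n _ hx (fun e => by have := hinj e; omega)⟩
      · exact ⟨0, fun n _ => a2 n x hx (fun e => h ⟨n, e⟩)⟩
    | one => exact ⟨0, fun n _ => map_one _⟩
    | mul a b _ _ ha hb =>
      obtain ⟨N, hN⟩ := ha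
      obtain ⟨M, hM⟩ := hb
      exact ⟨max N M, fun n hn => by
        rw [map_mul, hN n (le_trans (le_max_left _ _) hn), hM n (le_trans (le_max_right _ _) hn),
          one_mul]⟩
    | inv a _ ha =>
      obtain ⟨N, hN⟩ := ha
      exact ⟨N, fun n hn => by rw [map_inv, hN n hn, inv_one]⟩

end Grp

section Log

variable {G : Type} [Group G] [S : L.Structure G]

/-- the product of three terms -/
def prod3 {α : Type} (a b c : L.Term α) : L.Term α :=
  Language.Term.func (l := 3) () ![a, b, c]

theorem realize_prod3 (hS : ∀ (n : ℕ) (f : L.Functions n) (xs : Fin n → G),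
        FirstOrder.Language.Structure.funMap f xs = (List.ofFn xs).prod) {α : Type}
    (a b c : L.Term α) (v : α → G) :
    (prod3 a b c).realize v = a.realize v * (b.realize v * c.realize v) := by
  simp only [prod3, Language.Term.realize, hS]
  simp [List.ofFn_succ]

/-- lift of a term to one more bound variable -/
def up {m : ℕ} (t : L.Term ((Unit ⊕ ℕ) ⊕ Fin m)) : L.Term ((Unit ⊕ ℕ) ⊕ Fin (m+1)) :=
  t.relabel (Sum.map id Fin.castSucc)

/-- the formula expressing `P` -/
def F : ℕ → ℕ → (m : ℕ) → L.Term ((Unit ⊕ ℕ) ⊕ Fin m) → L.BoundedFormula (Unit ⊕ ℕ) m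
  | 0, k, m, t => ((Language.Term.bdEqual (up t)
      (prod3 (Language.Term.var (Sum.inl (Sum.inr k)))
        (Language.Term.var (Sum.inr (Fin.last m))) (Language.Term.var (Sum.inr (Fin.last m)))))).ex
  | n+1, k, m, t => ((Language.Term.bdEqual (up t)
      (prod3 (Language.Term.var (Sum.inl (Sum.inr k)))
        (Language.Term.var (Sum.inr (Fin.last m))) (Language.Term.var (Sum.inr (Fin.last m)))))
      ⊓ F n (k+1) (m+1) (Language.Term.var (Sum.inr (Fin.last m)))).ex

theorem realize_up {m : ℕ} (t : L.Term ((Unit ⊕ ℕ) ⊕ Fin m)) (v : Unit ⊕ ℕ → G) (xs : Fin m → G)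
    (z : G) : (up t).realize (Sum.elim v (Fin.snoc xs z)) = t.realize (Sum.elim v xs) := by
  rw [up, Language.Term.realize_relabel]
  congr 1
  funext i
  rcases i with i | i <;> simp

theorem realize_F (hS : ∀ (n : ℕ) (f : L.Functions n) (xs : Fin n → G),
        FirstOrder.Language.Structure.funMap f xs = (List.ofFn xs).prod)
    (n k m : ℕ) (t : L.Term ((Unit ⊕ ℕ) ⊕ Fin m)) (v : Unit ⊕ ℕ → G) (xs : Fin m → G) :
    (F n k m t).Realize v xs ↔ P (fun i => v (Sum.inr i)) n k (t.realize (Sum.elim v xs)) := by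
  induction n generalizing k m with
  | zero =>
    simp only [F, P, Language.BoundedFormula.realize_ex, Language.BoundedFormula.realize_bdEqual,
      realize_up, realize_prod3 hS, Language.Term.realize_var, Sum.elim_inl, Sum.elim_inr,
      Fin.snoc_last]
  | succ n ih =>
    simp only [F, P, Language.BoundedFormula.realize_ex, Language.BoundedFormula.realize_inf,
      Language.BoundedFormula.realize_bdEqual,
      realize_up, realize_prod3 hS, Language.Term.realize_var, Sum.elim_inl, Sum.elim_inr,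
      Fin.snoc_last, ih]

theorem realize_congr {α : Type} [DecidableEq α] (φ : L.Formula α) (v w : α → G)
    (h : ∀ a ∈ φ.freeVarFinset, v a = w a) : φ.Realize v ↔ φ.Realize w := by
  have h1 := Language.BoundedFormula.realize_restrictFreeVar (φ := φ)
    (f := fun a => (a : α)) (v := v) (xs := (default : Fin 0 → G)) v (fun _ => rfl)
  have h2 := Language.BoundedFormula.realize_restrictFreeVar (φ := φ)
    (f := fun a => a) (v := fun a : φ.freeVarFinset => v a) (xs := (default : Fin 0 → G)) v
    (fun _ => rfl)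
  have h3 := Language.BoundedFormula.realize_restrictFreeVar (φ := φ)
    (f := fun a => a) (v := fun a : φ.freeVarFinset => w a) (xs := (default : Fin 0 → G)) w
    (fun _ => rfl)
  have h4 : (fun a : φ.freeVarFinset => v a) = fun a : φ.freeVarFinset => w a := by
    funext a; exact h a a.2
  rw [h4] at h2
  exact h2.symm.trans h3

/-- group automorphisms are automorphisms of the structure -/
def toL (hS : ∀ (n : ℕ) (f : L.Functions n) (xs : Fin n → G),
        FirstOrder.Language.Structure.funMap f xs = (List.ofFn xs).prod) (α : G ≃* G) :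
    G ≃[L] G where
  toEquiv := α.toEquiv
  map_fun' := by
    intro n f xs
    have e1 : (List.ofFn xs).map α = List.ofFn (⇑α ∘ xs) := by
      rw [List.map_ofFn]
    show α (Language.Structure.funMap f xs) = Language.Structure.funMap f (⇑α ∘ xs)
    rw [hS, hS, map_list_prod, e1]
  map_rel' := by
    intro n r xs
    exact r.elim

end Log

/-- Every torsion-free group that is free in its own variety on an infinite basis fails ℵ1-homogeneity: some countable tuples a, b share a type, yet some element c has no d making (c,a) and (d,b) share a type. -/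
theorem result :
  ∀ (G : Type) [Group G],
    (∀ g : G, ∀ n : ℕ, 0 < n → g ^ n = 1 → g = 1) →
    (∃ X : Set G, X.Infinite ∧ Subgroup.closure X = ⊤ ∧
      ∀ f : X → G, ∃ φ : G →* G, ∀ x : X, φ x = f x) →
    ∀ [S : (FirstOrder.Language.mk (fun _ => Unit) (fun _ => Empty)).Structure G],
      (∀ (n : ℕ) (f : (FirstOrder.Language.mk (fun _ => Unit) (fun _ => Empty)).Functions n)
          (xs : Fin n → G),
        FirstOrder.Language.Structure.funMap f xs = (List.ofFn xs).prod) →
      ¬ ∀ a b : ℕ → G,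
        (∀ φ : (FirstOrder.Language.mk (fun _ => Unit) (fun _ => Empty)).Formula ℕ,
          φ.Realize a ↔ φ.Realize b) →
        ∀ c : G, ∃ d : G,
          ∀ ψ : (FirstOrder.Language.mk (fun _ => Unit) (fun _ => Empty)).Formula (Unit ⊕ ℕ),
            ψ.Realize (Sum.elim (fun _ => c) a) ↔ ψ.Realize (Sum.elim (fun _ => d) b) := by
  intro G _ htf hX S hS hall
  classical
  obtain ⟨X, hinf, hcl, hfree⟩ := hX
  let e := hinf.natEmbedding
  let y : ℕ → G := fun i => (e i : G)
  have hy : ∀ i, y i ∈ X := fun i => (e i).2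
  have hinj : Function.Injective y := fun i j h => e.injective (Subtype.ext h)
  have hne : ∀ n, y n ≠ 1 := by
    intro n h
    obtain ⟨φ, hφ⟩ := hfree (fun _ => y (if y 0 = 1 then 1 else 0))
    have h1 : φ (y n) = y (if y 0 = 1 then 1 else 0) := hφ ⟨y n, hy n⟩
    rw [h, map_one] at h1
    split_ifs at h1 with h2
    · have : (1 : ℕ) = 0 := hinj (h1.symm.trans h2.symm)
      omega
    · exact h2 h1.symm
  let b : ℕ → G := fun i => y i * (y (i+1) * y (i+1))⁻¹
  have htp : ∀ φ : L.Formula ℕ, φ.Realize b ↔ φ.Realize y := by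
    intro φ
    obtain ⟨α, h1, -⟩ := autos hcl hfree y hy hinj (φ.freeVarFinset.sup id + 1)
    have e1 : φ.Realize (⇑(toL hS α) ∘ y) ↔ φ.Realize y :=
      Language.StrongHomClass.realize_formula (toL hS α) φ
    rw [← e1]
    refine realize_congr φ _ _ ?_
    intro i hi
    have : i ≤ φ.freeVarFinset.sup id := Finset.le_sup (f := id) hi
    exact (h1 i (by omega)).symm
  obtain ⟨d, hd⟩ := hall b y htp (y 0)
  obtain ⟨π, a1, a2, a3, a4⟩ := retr hcl hfree y hy hinj
  obtain ⟨N, hN⟩ := a4 d
  have hP : P y N 0 d := by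
    have h1 := (hd (F N 0 0 (Language.Term.var (Sum.inl (Sum.inl ()))))).1
    have h2 : Language.Formula.Realize (F N 0 0 (Language.Term.var (Sum.inl (Sum.inl ()))))
        (Sum.elim (fun _ => y 0) b) := by
      rw [Language.Formula.Realize, realize_F hS]
      exact P_self y b (fun i => by simp only [b]; group) N 0
    have h3 := h1 h2
    rw [Language.Formula.Realize, realize_F hS] at h3
    exact h3
  exact P_contra htf y N (hne N) (π N) (a1 N)
    (fun k hk => a2 N _ (hy k) (fun h => by have := hinj h; omega)) (a3 N) N 0 (by omega) d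
    (hN N le_rfl) hP

end Pool.Agent.S14895
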