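import Pool.Statements.S14944
import Pool.Agent.Results.MP_7c40ec_lc.UnboundedCofC
import Pool.Agent.Helper227.CD.Pos
import Pool.Agent.W968.Opt

set_option autoImplicit false
open Pool Pool.MP_7c40ec_lc

namespace Pool.Agent.S14944

/-- The negation of the preceding statement: For any optimal plain machine, optimal prefix-free machine and optimal conditional plain machine, some constant c bounds, for every binary string x, the plain complexity of C(x) given the pair x and K(x). -/
theorem result :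
    ¬ (∀ (W : List Bool →. List Bool) (V : List Bool →. List Bool)
    (U : List Bool → (List Bool × ℕ →. ℕ)),
    Partrec W →
    (∀ M : List Bool →. List Bool, Partrec M →
      ∃ c : ℕ, ∀ (p : List Bool) (z : List Bool), z ∈ M p →
        ∃ q : List Bool, q.length ≤ p.length + c ∧ z ∈ W q) →
    Partrec V →
    (∀ p q : List Bool, (V p).Dom → (V q).Dom → p <+: q → p = q) →
    (∀ M : List Bool →. List Bool, Partrec M →
      (∀ p q : List Bool, (M p).Dom → (M q).Dom → p <+: q → p = q) →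
      ∃ c : ℕ, ∀ (p : List Bool) (z : List Bool), z ∈ M p →
        ∃ q : List Bool, q.length ≤ p.length + c ∧ z ∈ V q) →
    Partrec₂ U →
    (∀ M : List Bool → (List Bool × ℕ →. ℕ), Partrec₂ M →
      ∃ c : ℕ, ∀ (p : List Bool) (y : List Bool × ℕ) (z : ℕ), z ∈ M p y →
        ∃ q : List Bool, q.length ≤ p.length + c ∧ z ∈ U q y) →
    ∃ c : ℕ, ∀ x : List Bool,
      sInf {n : ℕ | ∃ p : List Bool, p.length = n ∧
        sInf {m : ℕ | ∃ q : List Bool, q.length = m ∧ x ∈ W q} ∈
          U p (x, sInf {m : ℕ | ∃ q : List Bool, q.length = m ∧ x ∈ V q})} ≤ c) := by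
  intro H
  -- the three optimal machines
  have hW0 : Partrec (fun q : List Bool => (W968.UM q () : Part (List Bool))) :=
    W968.UM_partrec.comp (Computable.id) (Computable.const ())
  have hW1 : ∀ M : List Bool →. List Bool, Partrec M →
      ∃ c : ℕ, ∀ (p : List Bool) (z : List Bool), z ∈ M p →
        ∃ q : List Bool, q.length ≤ p.length + c ∧ z ∈ (W968.UM q () : Part (List Bool)) := by
    intro M hM
    obtain ⟨c, hc⟩ := W968.UM_opt (fun (p : List Bool) (_ : Unit) => M p)
      (hM.comp Computable.fst)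
    exact ⟨c, fun p z hz => hc p () z hz⟩
  obtain ⟨V, hV⟩ := Helper227.exists_isUniversal
  obtain ⟨⟨hV0, hV1⟩, hV2⟩ := hV
  obtain ⟨c, hc⟩ := H (fun q => W968.UM q ()) V W968.UM hW0 hW1 hV0 hV1
    (fun M h1 h2 => hV2 M ⟨h1, h2⟩) W968.UM_partrec (fun M hM => W968.UM_opt M hM)
  obtain ⟨x, hx⟩ := Pool.Agent.Results.MP_7c40ec_lc.UnboundedCofC.result
    (fun q => W968.UM q ()) V W968.UM
    ⟨hW0, fun M hM => by
      obtain ⟨c, hc⟩ := hW1 M hM
      exact ⟨c, fun x p h => by
        obtain ⟨q, h1, h2⟩ := hc p x h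
        exact ⟨q, h2, h1⟩⟩⟩
    ⟨hV0, hV1, fun M hM1 hM2 => by
      obtain ⟨c, hc⟩ := hV2 M ⟨hM1, hM2⟩
      exact ⟨c, fun x p h => by
        obtain ⟨q, h1, h2⟩ := hc p x h
        exact ⟨q, h2, h1⟩⟩⟩
    ⟨W968.UM_partrec, fun M hM => by
      obtain ⟨c, hc⟩ := W968.UM_opt M hM
      exact ⟨c, fun p y z h => by
        obtain ⟨q, h1, h2⟩ := hc p y z h
        exact ⟨q, h2, h1⟩⟩⟩ c
  have e : ∀ (W : List Bool →. List Bool) (x : List Bool),
      Pool.Agent.Results.MP_7c40ec_lc.UnboundedCofC.complexity W x =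
        sInf {m : ℕ | ∃ q : List Bool, q.length = m ∧ x ∈ W q} := by
    intro W x
    unfold Pool.Agent.Results.MP_7c40ec_lc.UnboundedCofC.complexity
    congr 1
    ext m
    simp only [Set.mem_image, Set.mem_setOf_eq]
    constructor
    · rintro ⟨q, h1, h2⟩; exact ⟨q, h2, h1⟩
    · rintro ⟨q, h1, h2⟩; exact ⟨q, h2, h1⟩
  have e2 : ∀ (U : List Bool → List Bool × ℕ →. ℕ) (z : ℕ) (y : List Bool × ℕ),
      Pool.Agent.Results.MP_7c40ec_lc.UnboundedCofC.condComplexity U z y =
        sInf {m : ℕ | ∃ q : List Bool, q.length = m ∧ z ∈ U q y} := by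
    intro U z y
    unfold Pool.Agent.Results.MP_7c40ec_lc.UnboundedCofC.condComplexity
    congr 1
    ext m
    simp only [Set.mem_image, Set.mem_setOf_eq]
    constructor
    · rintro ⟨q, h1, h2⟩; exact ⟨q, h2, h1⟩
    · rintro ⟨q, h1, h2⟩; exact ⟨q, h2, h1⟩
  rw [e2, e, e] at hx
  exact absurd (hc x) (not_le.2 hx)

end Pool.Agent.S14944
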