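import Pool.Statements.S14999
import Pool.Agent.W937.AffInvB

set_option autoImplicit false
open Pool Pool.MP_8565d5_lc

namespace Pool.Agent.S14999

/-- For every k there is a prime t and a proper subset D of the weight-at-most-2 exponents below 2^t, closed under doubling mod 2^t−1 and under binary shadows, such that the F_2-valued functions on F_{2^t} spanned by x^d, d in D, admit no characterization by k-point constraints. -/
theorem result :
    ∀ k : ℕ, ∃ t : ℕ, t.Prime ∧ ∃ D : Finset ℕ,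
      (∀ d ∈ D, d < 2 ^ t ∧ (Nat.digits 2 d).sum ≤ 2) ∧
      (∃ d : ℕ, d < 2 ^ t ∧ (Nat.digits 2 d).sum ≤ 2 ∧ d ∉ D) ∧
      (∀ d ∈ D, d ≠ 0 → (2 * d - 1) % (2 ^ t - 1) + 1 ∈ D) ∧
      (∀ d ∈ D, ∀ e : ℕ, (∀ i : ℕ, e.testBit i = true → d.testBit i = true) → e ∈ D) ∧
      ¬ ∃ C : Set ((Fin k → GaloisField 2 t) × Set (Fin k → ZMod 2)),
          ∀ f : GaloisField 2 t → ZMod 2,
            ((∃ c : ℕ → GaloisField 2 t, ∀ x : GaloisField 2 t,
                algebraMap (ZMod 2) (GaloisField 2 t) (f x) = ∑ d ∈ D, c d * x ^ d) ↔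
              ∀ p ∈ C, (fun i => f (p.1 i)) ∈ p.2) := by
  intro k
  obtain ⟨t, ht, hp⟩ := Nat.exists_infinite_primes (k + 3)
  have hodd : t % 2 = 1 := by
    rcases hp.eq_two_or_odd with h | h
    · omega
    · exact h
  have h3 : 3 ≤ t := by omega
  refine ⟨t, hp, Pool.Agent.W937.AffInv.DD t, ?_, ?_, ?_, ?_, ?_⟩
  · intro d hd
    have := Pool.Agent.W937.AffInv.mem_DD.1 hd
    exact ⟨this.1, this.2.1⟩
  · refine ⟨3, ?_, ?_, ?_⟩
    · calc 3 < 2 ^ 2 := by norm_num
        _ ≤ 2 ^ t := Nat.pow_le_pow_right (by norm_num) (by omega)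
    · norm_num
    · intro h
      apply (Pool.Agent.W937.AffInv.mem_DD.1 h).2.2 0 (by omega)
      rw [Nat.mod_eq_of_lt (by omega)]
      norm_num
  · intro d hd h0
    exact Pool.Agent.W937.AffInv.DD_dbl h3 hd h0
  · intro d hd e he
    exact Pool.Agent.W937.AffInv.DD_shadow h3 hd e he
  · rintro ⟨C, hC⟩
    apply Pool.Agent.W937.AffInv.cube_not_mem h3
    apply (hC _).2
    intro p hpC
    obtain ⟨g, hg, hgf⟩ := Pool.Agent.W937.AffInv.agree hodd h3 (by omega : k + 2 ≤ t) p.1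
    have h1 := (hC g).1 hg p hpC
    have h2 : (fun i => g (p.1 i)) =
        fun i => Algebra.trace (ZMod 2) (GaloisField 2 t) (p.1 i ^ 3) := by
      funext i; exact hgf i
    rw [h2] at h1
    exact h1

end Pool.Agent.S14999
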