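import Pool.Statements.S15122
import Pool.Agent.W213.LyG.Assembly
import Pool.Agent.W303.Ly.NoCodeG
import Pool.Agent.W351.Ly.Twin
import Pool.Agent.W917.Ly.TargetOf

set_option autoImplicit false
open Pool Pool.MP_9e3e1a_lc

namespace Pool.Agent.S15122

/-- The negation of the preceding statement: There is n such that any Boolean algebra with composition, converse and identity whose n-generated subalgebras are all weakly representable relation algebras is itself one, i.e. wRRA has an n-variable equational basis. -/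
theorem result :
    ¬ (∃ n : ℕ, ∀ (A : Type) [BooleanAlgebra A] (c : A → A → A) (v : A → A) (e : A)
      (W : Set A → Prop),
      (∀ S : Set A, W S ↔
        ((∀ x ∈ S, ∀ y ∈ S, ∀ z ∈ S,
            c (c x y) z = c x (c y z) ∧
            c (x ⊔ y) z = c x z ⊔ c y z ∧
            c x e = x ∧
            v (v x) = x ∧
            v (x ⊔ y) = v x ⊔ v y ∧
            v (c x y) = c (v y) (v x) ∧
            c (v x) (c x y)ᶜ ≤ yᶜ) ∧
         ∃ (U : Type) (h : A → Set (U × U)),
            Set.InjOn h S ∧ h ⊥ = ∅ ∧ h e = {p : U × U | p.1 = p.2} ∧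
            ∀ x ∈ S, ∀ y ∈ S,
              h (x ⊓ y) = h x ∩ h y ∧
              h (c x y) = {p : U × U | ∃ w : U, (p.1, w) ∈ h x ∧ (w, p.2) ∈ h y} ∧
              h (v x) = {p : U × U | (p.2, p.1) ∈ h x})) →
      (∀ g : Fin n → A,
        W {a : A | ∀ T : Set A, Set.range g ⊆ T →
          (∀ x ∈ T, ∀ y ∈ T, x ⊔ y ∈ T ∧ xᶜ ∈ T ∧ c x y ∈ T ∧ v x ∈ T) →
          e ∈ T → a ∈ T}) →
      W Set.univ) :=
  Pool.Agent.W917.Ly.target_of (fun m hm => Pool.Agent.W351.Ly.repTwin m hm)
    (fun s hs => Pool.Agent.W213.LyG.noWRep Pool.Agent.W303.Ly.noCodeG s hs)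

end Pool.Agent.S15122
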