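import Pool.Statements.S15144
import Pool.Agent.W933.IntAlg

set_option autoImplicit false
open Pool Pool.MP_a2ec29_lc

namespace Pool.Agent.S15144

/-- The negation of the preceding statement: Take any computable infinite linear order L and computable Boolean algebra B isomorphic to the algebra of finite unions of half-open intervals of L. Then some computable copy of L makes B computably isomorphic to that copy's interval algebra. -/
theorem result :
    ¬ (∀ (β : Type) [LinearOrder β] (l : ℕ ≃ β),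
      ComputablePred (fun p : ℕ × ℕ => l p.1 ≤ l p.2) →
      ∀ (α : Type) [BooleanAlgebra α] (e : ℕ ≃ α),
        Computable₂ (fun m n : ℕ => e.symm (e m ⊔ e n)) →
        Computable₂ (fun m n : ℕ => e.symm (e m ⊓ e n)) →
        Computable (fun n : ℕ => e.symm (e n)ᶜ) →
        (∃ φ : α → Set β, Function.Injective φ ∧
            (∀ a b, φ (a ⊔ b) = φ a ∪ φ b) ∧
            (∀ a, φ aᶜ = (φ a)ᶜ) ∧
            Set.range φ = {X : Set β | ∃ S : Finset β, ∃ b : Bool,
              X = {x : β | Xor' (b = true) (Odd (S.filter (fun s => s ≤ x)).card)}}) →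
        ∃ l' : ℕ ≃ β, ComputablePred (fun p : ℕ × ℕ => l' p.1 ≤ l' p.2) ∧
          ∃ ψ : α → Set β, Function.Injective ψ ∧
            (∀ a b, ψ (a ⊔ b) = ψ a ∪ ψ b) ∧
            (∀ a, ψ aᶜ = (ψ a)ᶜ) ∧
            Set.range ψ = {X : Set β | ∃ S : Finset β, ∃ b : Bool,
              X = {x : β | Xor' (b = true) (Odd (S.filter (fun s => s ≤ x)).card)}} ∧
            ∃ c : ℕ → List ℕ × Bool, Computable c ∧
              ∀ n : ℕ, ψ (e n) = {x : β | Xor' ((c n).2 = true)
                (Odd ((c n).1.filter (fun s => decide (l' s ≤ x))).length)}) := by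
  intro H
  refine Pool.Agent.W933.IntAlg.main ?_
  have hr : Set.range (fun a : Pool.Agent.W933.IntAlg.B => (a : Set ℕ)) =
      Pool.Agent.W933.FinCof.Fam ℕ := by
    rw [Pool.Agent.W933.FinCof.fam_eq Pool.Agent.W933.FinCof.sided_nat
      Pool.Agent.W933.FinCof.hasSucc_nat]
    ext Y
    constructor
    · rintro ⟨a, rfl⟩
      exact a.2
    · intro h
      exact ⟨⟨Y, h⟩, rfl⟩
  obtain ⟨l', h1, ψ, h2, h3, h4, h5, c, hc, h6⟩ := H ℕ (Equiv.refl ℕ)
    (Pool.Agent.Helper941.Zeta.p_le
      (Pool.Agent.Helper941.Zeta.c_fst Pool.Agent.Helper941.Zeta.c_id)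
      (Pool.Agent.Helper941.Zeta.c_snd Pool.Agent.Helper941.Zeta.c_id))
    Pool.Agent.W933.IntAlg.B Pool.Agent.W933.IntAlg.e
    Pool.Agent.W933.IntAlg.sup_comp Pool.Agent.W933.IntAlg.inf_comp
    Pool.Agent.W933.IntAlg.compl_comp
    ⟨fun a => (a : Set ℕ), Subtype.coe_injective, fun _ _ => rfl, fun _ => rfl, hr⟩
  exact ⟨l', h1, ψ, h2, h3, h4, h5, c, hc, h6⟩

end Pool.Agent.S15144
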