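import Pool.Statements.S15156
import Pool.Agent.W486.DarjiB

set_option autoImplicit false
open Pool Pool.MP_a4a5b6_lc

namespace Pool.Agent.S15156

/-- The negation of the preceding statement: Every uncountable Polish group is the union of a meager set and a Haar null set, i.e. a set inside a Borel set C with some Borel probability measure giving every two-sided translate gCh measure zero. -/
theorem result :
    ¬ (∀ (G : Type) [Group G] [TopologicalSpace G] [IsTopologicalGroup G] [PolishSpace G]
      [MeasurableSpace G] [BorelSpace G],
      Uncountable G →
        ∃ A B : Set G, A ∪ B = Set.univ ∧ IsMeagre A ∧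
          ∃ C : Set G, MeasurableSet C ∧ B ⊆ C ∧
            ∃ μ : MeasureTheory.Measure G, MeasureTheory.IsProbabilityMeasure μ ∧
              ∀ g h : G, μ ((fun x => g * x * h) '' C) = 0) := by
  intro hall
  letI : MeasurableSpace Pool.Agent.W486.Darji.LG := borel _
  haveI : BorelSpace Pool.Agent.W486.Darji.LG := ⟨rfl⟩
  exact Pool.Agent.W486.Darji.no_decomposition Pool.Agent.W486.Darji.scale_O
    (hall Pool.Agent.W486.Darji.LG Pool.Agent.W486.Darji.uncountable_LG)

end Pool.Agent.S15156
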