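import Pool.Statements.S15186
import Pool.Agent.Helper555.JDPDefs
import Pool.Agent.Helper555.JDPLemmas
import Pool.Agent.Helper555.JDPBasic
import Pool.Agent.Results.MP_a8f5d0_lc.ManyItems

set_option autoImplicit false
open Pool Pool.MP_a8f5d0_lc

namespace Pool.Agent.S15186

/-- The negation of the preceding statement: For each ε,α,β in (0,1) there is a supply s such that for all n, m and supplies ≥ s, some ε-jointly private mechanism on [0,1]-valued gross-substitute profiles always outputs feasible allocations with welfare ≥ OPT − αn with probability ≥ 1−β. -/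
theorem result :
    ¬ (∀ ε α β : ℝ, 0 < ε → ε < 1 → 0 < α → α < 1 → 0 < β → β < 1 →
  ∃ s : ℕ, ∀ n m : ℕ, ∀ supply : Fin m → ℕ, (∀ j, s ≤ supply j) →
  ∃ M : (Fin n → Finset (Fin m) → ℝ) → PMF (Fin n → Finset (Fin m)),
    (∀ v : Fin n → Finset (Fin m) → ℝ,
      (∀ i, (∀ S, 0 ≤ v i S ∧ v i S ≤ 1) ∧
        ∀ p q : Fin m → ℝ, p ≤ q → ∀ S : Finset (Fin m),
          (∀ T : Finset (Fin m), v i T - ∑ j ∈ T, p j ≤ v i S - ∑ j ∈ S, p j) →
          ∃ T : Finset (Fin m),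
            (∀ U : Finset (Fin m), v i U - ∑ j ∈ U, q j ≤ v i T - ∑ j ∈ T, q j) ∧
            ∀ j ∈ S, q j = p j → j ∈ T) →
      (∀ ω ∈ (M v).support, ∀ j : Fin m,
          (Finset.univ.filter (fun k : Fin n => j ∈ ω k)).card ≤ supply j) ∧
      (M v).toOuterMeasure {ω | ∀ ω' : Fin n → Finset (Fin m),
          (∀ j : Fin m, (Finset.univ.filter (fun k : Fin n => j ∈ ω' k)).card ≤ supply j) →
          ∑ k, v k (ω' k) - α * (n : ℝ) ≤ ∑ k, v k (ω k)} ≥ ENNReal.ofReal (1 - β)) ∧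
    (∀ v : Fin n → Finset (Fin m) → ℝ,
      (∀ i, (∀ S, 0 ≤ v i S ∧ v i S ≤ 1) ∧
        ∀ p q : Fin m → ℝ, p ≤ q → ∀ S : Finset (Fin m),
          (∀ T : Finset (Fin m), v i T - ∑ j ∈ T, p j ≤ v i S - ∑ j ∈ S, p j) →
          ∃ T : Finset (Fin m),
            (∀ U : Finset (Fin m), v i U - ∑ j ∈ U, q j ≤ v i T - ∑ j ∈ T, q j) ∧
            ∀ j ∈ S, q j = p j → j ∈ T) →
      ∀ (i : Fin n) (w : Finset (Fin m) → ℝ),
      ((∀ S, 0 ≤ w S ∧ w S ≤ 1) ∧
        ∀ p q : Fin m → ℝ, p ≤ q → ∀ S : Finset (Fin m),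
          (∀ T : Finset (Fin m), w T - ∑ j ∈ T, p j ≤ w S - ∑ j ∈ S, p j) →
          ∃ T : Finset (Fin m),
            (∀ U : Finset (Fin m), w U - ∑ j ∈ U, q j ≤ w T - ∑ j ∈ T, q j) ∧
            ∀ j ∈ S, q j = p j → j ∈ T) →
      ∀ S : Set ({k : Fin n // k ≠ i} → Finset (Fin m)),
        (M v).toOuterMeasure {ω | (fun k : {k : Fin n // k ≠ i} => ω k.1) ∈ S} ≤
          ENNReal.ofReal (Real.exp ε) *
            (M (Function.update v i w)).toOuterMeasure
              {ω | (fun k : {k : Fin n // k ≠ i} => ω k.1) ∈ S})) := by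
  intro h
  classical
  have hlim : Filter.Tendsto (fun m : ℕ => (11 / 20 : ℝ) ^ m) Filter.atTop (nhds 0) :=
    tendsto_pow_atTop_nhds_zero_of_lt_one (by norm_num) (by norm_num)
  obtain ⟨s₀, hs₀⟩ := h (1 / 2) (1 / 1000) (1 / 2) (by norm_num) (by norm_num) (by norm_num)
    (by norm_num) (by norm_num) (by norm_num)
  set s : ℕ := max s₀ 1 with hs
  have hspos : 0 < s := lt_of_lt_of_le Nat.one_pos (le_max_right _ _)
  have hc : 0 < (1 / 2 : ℝ) * Real.exp (-(1 / 2 * (s : ℝ))) := by positivity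
  obtain ⟨m₀, hm₀⟩ := Filter.eventually_atTop.mp (hlim.eventually (gt_mem_nhds hc))
  set m : ℕ := max m₀ 1 with hm
  have hmpos : 0 < m := lt_of_lt_of_le Nat.one_pos (le_max_right _ _)
  have h1 := hm₀ m (le_max_left _ _)
  have hsmall : Real.exp (1 / 2 * (s : ℝ)) * (11 / 10 : ℝ) ^ m < 2 ^ m * (1 - 1 / 2) := by
    have h2 : (11 / 10 : ℝ) ^ m = 2 ^ m * (11 / 20 : ℝ) ^ m := by
      rw [← mul_pow]; norm_num
    rw [h2]
    have h3 : Real.exp (1 / 2 * (s : ℝ)) * (11 / 20 : ℝ) ^ m < 1 / 2 := by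
      calc Real.exp (1 / 2 * (s : ℝ)) * (11 / 20 : ℝ) ^ m
          < Real.exp (1 / 2 * (s : ℝ)) * ((1 / 2 : ℝ) * Real.exp (-(1 / 2 * (s : ℝ)))) :=
            mul_lt_mul_of_pos_left h1 (Real.exp_pos _)
        _ = 1 / 2 * (Real.exp (1 / 2 * (s : ℝ)) * Real.exp (-(1 / 2 * (s : ℝ)))) := by ring
        _ = 1 / 2 := by rw [← Real.exp_add]; simp
    calc Real.exp (1 / 2 * (s : ℝ)) * (2 ^ m * (11 / 20 : ℝ) ^ m)
        = 2 ^ m * (Real.exp (1 / 2 * (s : ℝ)) * (11 / 20 : ℝ) ^ m) := by ring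
      _ < 2 ^ m * (1 / 2) := mul_lt_mul_of_pos_left h3 (by positivity)
      _ = 2 ^ m * (1 - 1 / 2) := by norm_num
  refine Pool.Agent.Results.MP_a8f5d0_lc.ManyItems.not_suffices (1 / 2) (1 / 1000) (1 / 2) (le_refl _)
    (2 * s) m s hmpos hspos (le_refl _) (by omega) hsmall ?_
  have hle1 : ∀ (μ : PMF (Fin (2 * s) → Finset (Fin m))) (E : Set (Fin (2 * s) → Finset (Fin m))),
      μ.toOuterMeasure E ≠ ⊤ := by
    intro μ E
    rw [PMF.toOuterMeasure_apply]
    refine ne_top_of_le_ne_top ENNReal.one_ne_top ?_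
    rw [← μ.tsum_coe]
    exact ENNReal.tsum_le_tsum fun x => Set.indicator_le_self _ _ x
  have hmem : ∀ v : Pool.Agent.Helper555.JDP.Valuation m,
      v ∈ Pool.Agent.Helper555.JDP.GrossSubstitutes m →
      ((∀ S, 0 ≤ v S ∧ v S ≤ 1) ∧
        ∀ p q : Fin m → ℝ, p ≤ q → ∀ S : Finset (Fin m),
          (∀ T : Finset (Fin m), v T - ∑ j ∈ T, p j ≤ v S - ∑ j ∈ S, p j) →
          ∃ T : Finset (Fin m),
            (∀ U : Finset (Fin m), v U - ∑ j ∈ U, q j ≤ v T - ∑ j ∈ T, q j) ∧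
            ∀ j ∈ S, q j = p j → j ∈ T) := by
    intro v hv
    refine ⟨hv.1, fun p q hpq S hS => ?_⟩
    obtain ⟨T, hT, hT2⟩ := hv.2 p q (fun j => hpq j) S hS
    exact ⟨T, hT, hT2⟩
  have hex : ∀ sup : Fin m → ℕ,
      ∃ M : (Fin (2 * s) → Finset (Fin m) → ℝ) → PMF (Fin (2 * s) → Finset (Fin m)),
      (∀ j, s ≤ sup j) →
      Pool.Agent.Helper555.JDP.JointlyPrivate (Pool.Agent.Helper555.JDP.GrossSubstitutes m)
        (1 / 2) M ∧
      ∀ v : Fin (2 * s) → Pool.Agent.Helper555.JDP.Valuation m,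
        (∀ i, v i ∈ Pool.Agent.Helper555.JDP.GrossSubstitutes m) →
        1 - 1 / 2 ≤ Pool.Agent.Helper555.JDP.Pr (M v)
          {ω | Pool.Agent.Helper555.JDP.Feasible sup ω ∧
            Pool.Agent.Helper555.JDP.OPT sup v - 1 / 1000 * ((2 * s : ℕ) : ℝ) ≤
              Pool.Agent.Helper555.JDP.welfare v ω} := by
    intro sup
    by_cases hsup : ∀ j, s ≤ sup j
    swap
    · exact ⟨fun _ => PMF.pure (fun _ => ∅), fun h' => absurd h' hsup⟩
    obtain ⟨M, hA, hB⟩ := hs₀ (2 * s) m sup (fun j => le_trans (le_max_left _ _) (hsup j))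
    refine ⟨M, fun _ => ⟨?_, ?_⟩⟩
    · intro i v w hv hw S
      have h2 := hB v (fun k => hmem _ (hv k)) i w (hmem _ hw) S
      unfold Pool.Agent.Helper555.JDP.Pr
      have hfin : ENNReal.ofReal (Real.exp (1 / 2)) *
          (M (Function.update v i w)).toOuterMeasure
            {ω | (fun k : {k : Fin (2 * s) // k ≠ i} => ω k.1) ∈ S} ≠ ⊤ := by
        refine ENNReal.mul_ne_top ENNReal.ofReal_ne_top ?_
        exact hle1 _ _
      have h3 := ENNReal.toReal_mono hfin h2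
      rw [ENNReal.toReal_mul, ENNReal.toReal_ofReal (Real.exp_pos _).le] at h3
      exact h3
    · intro v hv
      obtain ⟨h2, h3⟩ := hA v (fun k => hmem _ (hv k))
      unfold Pool.Agent.Helper555.JDP.Pr
      have h4 : ENNReal.ofReal (1 - 1 / 2) ≤ (M v).toOuterMeasure
          {ω | Pool.Agent.Helper555.JDP.Feasible sup ω ∧
            Pool.Agent.Helper555.JDP.OPT sup v - 1 / 1000 * ((2 * s : ℕ) : ℝ) ≤
              Pool.Agent.Helper555.JDP.welfare v ω} := by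
        refine le_trans h3 ?_
        rw [← PMF.toOuterMeasure_apply_inter_support]
        refine (M v).toOuterMeasure.mono ?_
        rintro ω ⟨hω1, hω2⟩
        refine ⟨fun j => h2 ω hω2 j, ?_⟩
        have h5 : Pool.Agent.Helper555.JDP.OPT sup v ≤
            Pool.Agent.Helper555.JDP.welfare v ω + 1 / 1000 * ((2 * s : ℕ) : ℝ) := by
          refine Pool.Agent.Helper555.JDP.OPT_le sup v _ ?_
          intro ω' hω'
          have h6 := hω1 ω' hω'
          unfold Pool.Agent.Helper555.JDP.welfare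
          linarith
        linarith
      have h5 : (M v).toOuterMeasure
          {ω | Pool.Agent.Helper555.JDP.Feasible sup ω ∧
            Pool.Agent.Helper555.JDP.OPT sup v - 1 / 1000 * ((2 * s : ℕ) : ℝ) ≤
              Pool.Agent.Helper555.JDP.welfare v ω} ≠ ⊤ :=
        hle1 _ _
      have h6 := ENNReal.toReal_mono h5 h4
      rw [ENNReal.toReal_ofReal (by norm_num)] at h6
      exact h6
  choose F hF using hex
  exact ⟨F, hF⟩

end Pool.Agent.S15186
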