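import Pool.Statements.S15202
import Pool.Agent.W935.GenMin

set_option autoImplicit false
open Pool Pool.MP_abf483_lc

namespace Pool.Agent.S15202

/-- The negation of the preceding statement: Under generic reducibility, defined via enumeration operators acting on partial descriptions correct on a density-one domain, there is a set A above the least degree such that every set reducible to A is either generically computable or equivalent to A. -/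
theorem result :
    ¬ (∀ GD : Set ℕ → Set (ℕ × ℕ) → Prop,
      (∀ (A : Set ℕ) (G : Set (ℕ × ℕ)), GD A G ↔
        ((∀ x y : ℕ, (x, y) ∈ G → ((x ∈ A ∧ y = 1) ∨ (x ∉ A ∧ y = 0))) ∧
          Filter.Tendsto
            (fun n : ℕ => ((({x : ℕ | ∃ y : ℕ, (x, y) ∈ G} ∩ Set.Iio n).ncard : ℝ) / (n : ℝ)))
            Filter.atTop (nhds 1))) →
    ∀ Red : Set ℕ → Set ℕ → Prop,
      (∀ A B : Set ℕ, Red A B ↔
        ∃ W : List (ℕ × ℕ) × (ℕ × ℕ) → Prop, REPred W ∧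
          ∀ G : Set (ℕ × ℕ), GD B G →
            GD A {p : ℕ × ℕ | ∃ l : List (ℕ × ℕ), (∀ q ∈ l, q ∈ G) ∧ W (l, p)}) →
    ∃ A : Set ℕ, ¬ Red A ∅ ∧ ∀ C : Set ℕ, Red C A → (Red C ∅ ∨ Red A C)) := by
  intro H
  obtain ⟨A, hA0, hA⟩ := H (fun A G =>
      ((∀ x y : ℕ, (x, y) ∈ G → ((x ∈ A ∧ y = 1) ∨ (x ∉ A ∧ y = 0))) ∧
          Filter.Tendsto
            (fun n : ℕ => ((({x : ℕ | ∃ y : ℕ, (x, y) ∈ G} ∩ Set.Iio n).ncard : ℝ) / (n : ℝ)))
            Filter.atTop (nhds 1))) (fun _ _ => Iff.rfl)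
    (fun A B => ∃ W : List (ℕ × ℕ) × (ℕ × ℕ) → Prop, REPred W ∧
          ∀ G : Set (ℕ × ℕ), ((∀ x y : ℕ, (x, y) ∈ G → ((x ∈ B ∧ y = 1) ∨ (x ∉ B ∧ y = 0))) ∧
          Filter.Tendsto
            (fun n : ℕ => ((({x : ℕ | ∃ y : ℕ, (x, y) ∈ G} ∩ Set.Iio n).ncard : ℝ) / (n : ℝ)))
            Filter.atTop (nhds 1)) →
            ((∀ x y : ℕ, (x, y) ∈ {p : ℕ × ℕ | ∃ l : List (ℕ × ℕ), (∀ q ∈ l, q ∈ G) ∧ W (l, p)} →
              ((x ∈ A ∧ y = 1) ∨ (x ∉ A ∧ y = 0))) ∧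
          Filter.Tendsto
            (fun n : ℕ => ((({x : ℕ | ∃ y : ℕ, (x, y) ∈ {p : ℕ × ℕ | ∃ l : List (ℕ × ℕ),
              (∀ q ∈ l, q ∈ G) ∧ W (l, p)}} ∩ Set.Iio n).ncard : ℝ) / (n : ℝ)))
            Filter.atTop (nhds 1))) (fun _ _ => Iff.rfl)
  exact Pool.Agent.W935.GenMin.no_minimal A hA0 hA

end Pool.Agent.S15202
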