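import Pool.Statements.S15231
import Pool.Agent.W917.WG

set_option autoImplicit false
open Pool Pool.MP_b066e3_lc

namespace Pool.Agent.S15231

/-- For every partial order P, if the poset algebra F(P) (modeled as sets of up-sets generated by the sets {U : p in U}) is superatomic, then it has a well-founded sublattice generating it as a Boolean algebra. -/
theorem result :
  ∀ (P : Type) [PartialOrder P] (S : BooleanSubalgebra (Set (UpperSet P))),
    S = BooleanSubalgebra.closure (Set.range fun p : P => {U : UpperSet P | p ∈ U}) →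
    (∀ I : Set (Set (UpperSet P)), I ⊆ (S : Set (Set (UpperSet P))) → ∅ ∈ I →
      (∀ a ∈ I, ∀ b ∈ S, b ⊆ a → b ∈ I) → (∀ a ∈ I, ∀ b ∈ I, a ∪ b ∈ I) →
      ∀ b ∈ S, b ∉ I → ∃ a ∈ S, a ⊆ b ∧ a ∉ I ∧ ∀ c ∈ S, c ⊆ a → c ∈ I ∨ a \ c ∈ I) →
    ∃ G : Set (Set (UpperSet P)), G ⊆ (S : Set (Set (UpperSet P))) ∧
      (∀ x ∈ G, ∀ y ∈ G, x ∪ y ∈ G ∧ x ∩ y ∈ G) ∧
      (¬ ∃ f : ℕ → Set (UpperSet P), ∀ n, f n ∈ G ∧ f (n + 1) ⊂ f n) ∧
      BooleanSubalgebra.closure G = S := by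
  intro P _ S hS hI
  have hS' : S = Pool.Agent.W917.WG.Alg P := hS
  subst hS'
  exact Pool.Agent.W917.WG.wellgenerated_of _
    ((Pool.Agent.Results.MP_e71ceb_lc.SuperatomicImpliesCWG.result P).2 _ _
      (Pool.Agent.W917.WG.isPosetAlgebra P)
      (Pool.Agent.W917.WG.superatomic_of _ hI))

end Pool.Agent.S15231
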