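import Pool.Statements.S15359
import Pool.Agent.Results.MP_cd40e2_lc.OneSided

set_option autoImplicit false
open scoped Classical
open Pool Pool.MP_cd40e2_lc

namespace Pool.Agent.S15359

open Pool.Agent.Results.MP_cd40e2_lc.OneSided (sgn IsHalfspace Tester)

/-- the sign of a bit -/
def b2u (b : Bool) : ℤˣ := if b then 1 else -1

/-- the bit of a sign -/
noncomputable def u2b (u : ℤˣ) : Bool := decide (u = 1)

lemma u2b_b2u (b : Bool) : u2b (b2u b) = b := by
  cases b <;> simp [u2b, b2u]

lemma b2u_u2b (u : ℤˣ) : b2u (u2b u) = u := by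
  rcases Int.units_eq_one_or u with h | h <;> subst h <;> simp [u2b, b2u]

lemma b2u_cast (b : Bool) : (((b2u b : ℤˣ) : ℤ) : ℝ) = if b then (1:ℝ) else -1 := by
  cases b <;> simp [b2u]

lemma b2u_inj : Function.Injective b2u := fun a b h => by
  rw [← u2b_b2u a, h, u2b_b2u]

/-- the equivalence between bits and signs -/
noncomputable def eBU : Bool ≃ ℤˣ := ⟨b2u, u2b, u2b_b2u, b2u_u2b⟩

lemma sgn_eq (t θ : ℝ) : sgn (t - θ) = b2u (decide (θ ≤ t)) := by
  unfold sgn b2u
  by_cases h : θ ≤ t
  · simp [h]
  · simp [h]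

/-- For every ε>0 there is q such that for all n some random choice of q points in the n-cube, rejecting when the answers fit no halfspace, rejects each ε-far-from-halfspace function with probability ≥ 2/3. -/
theorem result :
    ∀ ε : ℝ, 0 < ε → ∃ q : ℕ, ∀ n : ℕ, ∃ D : (Fin q → Fin n → Bool) → ℝ,
      (∀ Q, 0 ≤ D Q) ∧ (∑ Q, D Q = 1) ∧
      ∀ f : (Fin n → Bool) → Bool,
        (∀ g : (Fin n → Bool) → Bool,
          (∃ w : Fin n → ℝ, ∃ θ : ℝ, ∀ x : Fin n → Bool,
              g x = decide (θ ≤ ∑ i, w i * (if x i then (1:ℝ) else -1))) →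
          ε ≤ ((Finset.univ.filter (fun x => f x ≠ g x)).card : ℝ) / 2 ^ n) →
        (2:ℝ) / 3 ≤ ∑ Q, D Q *
          (if ∃ w : Fin n → ℝ, ∃ θ : ℝ, ∀ j : Fin q,
              f (Q j) = decide (θ ≤ ∑ i, w i * (if Q j i then (1:ℝ) else -1))
           then (0:ℝ) else 1) := by
  intro ε hε
  obtain ⟨q, hq⟩ := Pool.Agent.Results.MP_cd40e2_lc.OneSided.result ε hε
  refine ⟨q, fun n => ?_⟩
  obtain ⟨T, hT1, hT2⟩ := hq n
  haveI := T.fin
  haveI := T.ne
  letI : Fintype T.Coins := Fintype.ofFinite T.Coins
  have hN : (0:ℝ) < (Nat.card T.Coins : ℝ) := by exact_mod_cast Nat.card_pos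
  -- the queries as bit vectors
  let Qf : T.Coins → (Fin q → Fin n → Bool) := fun ω j i => u2b (T.query ω j i)
  refine ⟨fun Q => ((Finset.univ.filter (fun ω => Qf ω = Q)).card : ℝ) / (Nat.card T.Coins : ℝ),
    fun Q => by positivity, ?_, ?_⟩
  · rw [← Finset.sum_div, div_eq_one_iff_eq hN.ne']
    have := Finset.card_eq_sum_card_fiberwise (s := (Finset.univ : Finset T.Coins))
      (t := (Finset.univ : Finset (Fin q → Fin n → Bool))) (f := Qf) (fun x _ => Finset.mem_univ _)
    rw [Nat.card_eq_fintype_card, ← Finset.card_univ, this]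
    push_cast
    rfl
  · intro f hf
    let F : (Fin n → ℤˣ) → ℤˣ := fun u => b2u (f (fun i => u2b (u i)))
    have hfar : ∀ g, IsHalfspace g → ε ≤ Pool.Agent.Results.MP_cd40e2_lc.OneSided.dist F g := by
      intro g hg
      obtain ⟨w, θ, hw⟩ := hg
      have h1 := hf (fun x => u2b (g (fun i => b2u (x i)))) ⟨w, θ, fun x => by
        show u2b (g (fun i => b2u (x i))) = _
        rw [hw, sgn_eq, u2b_b2u]
        simp only [b2u_cast]⟩
      refine h1.trans (le_of_eq ?_)
      unfold Pool.Agent.Results.MP_cd40e2_lc.OneSided.dist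
      congr 2
      rw [Nat.card_eq_fintype_card, Fintype.card_subtype]
      refine Finset.card_bij (fun x _ => fun i => b2u (x i)) ?_ ?_ ?_
      · intro x hx
        rw [Finset.mem_filter] at hx ⊢
        refine ⟨Finset.mem_univ _, fun he => hx.2 ?_⟩
        have h2 : F (fun i => b2u (x i)) = b2u (f x) := by
          show b2u (f (fun i => u2b (b2u (x i)))) = _
          simp only [u2b_b2u]
        rw [h2] at he
        rw [← he, u2b_b2u]
      · intro x _ y _ he
        funext i
        exact b2u_inj (congrFun he i)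
      · intro u hu
        rw [Finset.mem_filter] at hu
        refine ⟨fun i => u2b (u i), ?_, by funext i; exact b2u_u2b _⟩
        rw [Finset.mem_filter]
        refine ⟨Finset.mem_univ _, fun he => hu.2 ?_⟩
        simp only [b2u_u2b] at he
        show b2u (f (fun i => u2b (u i))) = g u
        rw [he, b2u_u2b]
    have h3 := hT2 F hfar
    refine h3.trans ?_
    -- rewrite the right side as a sum over the coins
    set bad : (Fin q → Fin n → Bool) → ℝ := fun Q =>
      (if ∃ w : Fin n → ℝ, ∃ θ : ℝ, ∀ j : Fin q,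
              f (Q j) = decide (θ ≤ ∑ i, w i * (if Q j i then (1:ℝ) else -1))
           then (0:ℝ) else 1) with hbad
    have h4 : ∑ Q, ((Finset.univ.filter (fun ω => Qf ω = Q)).card : ℝ) / (Nat.card T.Coins : ℝ) * bad Q
        = (∑ ω, bad (Qf ω)) / (Nat.card T.Coins : ℝ) := by
      rw [← Finset.sum_fiberwise (s := (Finset.univ : Finset T.Coins)) (g := Qf), Finset.sum_div]
      refine Finset.sum_congr rfl fun Q _ => ?_
      have : ∑ ω ∈ Finset.univ.filter (fun ω => Qf ω = Q), bad (Qf ω)
          = ∑ ω ∈ Finset.univ.filter (fun ω => Qf ω = Q), bad Q :=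
        Finset.sum_congr rfl fun ω hω => by rw [(Finset.mem_filter.mp hω).2]
      rw [this, Finset.sum_const, nsmul_eq_mul]
      ring
    have h5 : (∑ Q, ((Finset.univ.filter (fun ω => Qf ω = Q)).card : ℝ) / (Nat.card T.Coins : ℝ) * bad Q)
      = ∑ Q, ((Finset.univ.filter (fun ω => Qf ω = Q)).card : ℝ) / (Nat.card T.Coins : ℝ) * bad Q := rfl
    show _ ≤ ∑ Q, ((Finset.univ.filter (fun ω => Qf ω = Q)).card : ℝ) / (Nat.card T.Coins : ℝ) * bad Q
    rw [h4]
    unfold Pool.Agent.Results.MP_cd40e2_lc.OneSided.Tester.acceptProb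
    rw [le_div_iff₀ hN, sub_mul, one_mul, div_mul_cancel₀ _ hN.ne', sub_le_iff_le_add]
    have h6 : (Nat.card {ω : T.Coins // T.accept ω (fun k => F (T.query ω k))} : ℝ)
        = ∑ ω : T.Coins, if T.accept ω (fun k => F (T.query ω k)) then (1:ℝ) else 0 := by
      rw [Nat.card_eq_fintype_card, Fintype.card_subtype, Finset.card_filter]
      push_cast
      rfl
    have h7 : (Nat.card T.Coins : ℝ) = ∑ ω : T.Coins, (1:ℝ) := by
      rw [Nat.card_eq_fintype_card]; simp
    rw [h6, h7, ← Finset.sum_add_distrib]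
    refine Finset.sum_le_sum fun ω _ => ?_
    by_cases hfit : ∃ w : Fin n → ℝ, ∃ θ : ℝ, ∀ j : Fin q,
              f (Qf ω j) = decide (θ ≤ ∑ i, w i * (if Qf ω j i then (1:ℝ) else -1))
    · -- the answers fit a halfspace, which the tester accepts with all coins
      obtain ⟨w, θ, hw⟩ := hfit
      let g : (Fin n → ℤˣ) → ℤˣ := fun x => sgn (∑ i, w i * ((x i : ℤ) : ℝ) - θ)
      have hg : IsHalfspace g := ⟨w, θ, fun x => rfl⟩
      have h8 := hT1 g hg
      have h9 : T.accept ω (fun k => g (T.query ω k)) := by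
        by_contra hno
        unfold Pool.Agent.Results.MP_cd40e2_lc.OneSided.Tester.acceptProb at h8
        rw [div_eq_one_iff_eq hN.ne'] at h8
        have h10 : Nat.card {ω : T.Coins // T.accept ω (fun k => g (T.query ω k))} < Nat.card T.Coins := by
          rw [Nat.card_eq_fintype_card, Nat.card_eq_fintype_card]
          exact Fintype.card_subtype_lt hno
        have h11 : Nat.card {ω : T.Coins // T.accept ω (fun k => g (T.query ω k))} = Nat.card T.Coins := by
          exact_mod_cast h8
        omega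
      have h12 : (fun k => F (T.query ω k)) = fun k => g (T.query ω k) := by
        funext k
        show b2u (f (Qf ω k)) = sgn (∑ i, w i * ((T.query ω k i : ℤ) : ℝ) - θ)
        rw [hw k, sgn_eq]
        congr 2
        refine propext ?_
        have : ∀ i, (if Qf ω k i = true then (1:ℝ) else -1) = ((T.query ω k i : ℤ) : ℝ) := by
          intro i
          rw [← b2u_cast]
          show (((b2u (u2b (T.query ω k i)) : ℤˣ) : ℤ) : ℝ) = _
          rw [b2u_u2b]
        simp only [this]
      rw [h12, if_pos h9]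
      have : 0 ≤ bad (Qf ω) := by rw [hbad]; dsimp only; split_ifs <;> norm_num
      linarith
    · have : bad (Qf ω) = 1 := by rw [hbad]; dsimp only; rw [if_neg hfit]
      rw [this]
      split_ifs <;> norm_num

end Pool.Agent.S15359
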