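import Pool.Statements.S15376
import Pool.Agent.Results.MP_cfda27_lc.FreeSubalgebra

set_option autoImplicit false
open FirstOrder FirstOrder.Language
open Pool Pool.MP_cfda27_lc

namespace Pool.Agent.S15376

open Polynomial Pool.Agent.Results.MP_cfda27_lc.FreeSubalgebra

/-- The language of the frozen statement. -/
abbrev LL (k : Type) : FirstOrder.Language.{0, 0} :=
  ⟨fun n => {_b : Bool // n = 2} ⊕ {_c : k // n = 0}, fun n => {_u : Unit // n = 1}⟩

/-- The structure of the frozen statement. -/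
@[reducible] def pairL {k : Type} [Field k] {F : Type} [Ring F] [Algebra k F]
    (A : Subalgebra k F) : (LL k).Structure F where
  funMap := fun {n} f xs =>
    Sum.elim
      (fun b : {_b : Bool // n = 2} =>
        if b.1 then xs (Fin.cast b.2.symm 0) + xs (Fin.cast b.2.symm 1)
        else xs (Fin.cast b.2.symm 0) * xs (Fin.cast b.2.symm 1))
      (fun c : {_c : k // n = 0} => algebraMap k F c.1) f
  RelMap := fun {_n} _ xs => ∀ i, xs i ∈ A

theorem map_fun_aux {k : Type} [Field k] {F G : Type} [Ring F] [Algebra k F] [Ring G] [Algebra k G]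
    (A : Subalgebra k F) (B : Subalgebra k G) (g : F →ₐ[k] G) {n : ℕ} (f : (LL k).Functions n)
    (xs : Fin n → F) :
    g (@Structure.funMap (LL k) F (pairL A) n f xs) =
      @Structure.funMap (LL k) G (pairL B) n f (g ∘ xs) := by
  rcases f with ⟨b, hb⟩ | ⟨c, hc⟩
  · subst hb
    cases b
    · exact map_mul g _ _
    · exact map_add g _ _
  · subst hc
    exact g.commutes c

theorem map_rel_aux {k : Type} [Field k] {F G : Type} [Ring F] [Algebra k F] [Ring G] [Algebra k G]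
    (A : Subalgebra k F) (B : Subalgebra k G) (g : F → G) (hg : ∀ a, g a ∈ B ↔ a ∈ A) {n : ℕ}
    (r : (LL k).Relations n) (xs : Fin n → F) :
    @Structure.RelMap (LL k) G (pairL B) n r (g ∘ xs) ↔
      @Structure.RelMap (LL k) F (pairL A) n r xs :=
  forall_congr' fun i => hg (xs i)

variable (k : Type) [Field k]

/-- the embedding -/
noncomputable def embL : letI := pairL (AA k (ℕ →₀ k[X])); letI := pairL (AA k (ℕ → k[X]));
    Fr k (ℕ →₀ k[X]) ↪[LL k] Fr k (ℕ → k[X]) := by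
  letI := pairL (AA k (ℕ →₀ k[X]))
  letI := pairL (AA k (ℕ → k[X]))
  exact
  { toFun := mapF (inc k)
    inj' := mapF_inc_injective
    map_fun' := fun f xs => map_fun_aux _ _ (mapF (inc k)) f xs
    map_rel' := fun r xs => map_rel_aux _ _ _ mem_iff r xs }

/-- the automorphism -/
noncomputable def autL (h : (ℕ → k[X]) ≃ₗ[k[X]] (ℕ → k[X])) :
    letI := pairL (AA k (ℕ → k[X])); Fr k (ℕ → k[X]) ≃[LL k] Fr k (ℕ → k[X]) := by
  letI := pairL (AA k (ℕ → k[X]))
  exact
  { toFun := mapF h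
    invFun := mapF h.symm
    left_inv := mapF_symm h
    right_inv := mapF_symm' h
    map_fun' := fun f xs => map_fun_aux _ _ (mapF h) f xs
    map_rel' := fun r xs => map_rel_aux _ _ _ (mapF_mem_iff h) r xs }

theorem result :
    ¬ (∀ (k : Type) [Field k],
    ∃ T : (⟨fun n => {_b : Bool // n = 2} ⊕ {_c : k // n = 0},
            fun n => {_u : Unit // n = 1}⟩ : FirstOrder.Language.{0, 0}).Theory,
    ∀ (F : Type) [Ring F] [Algebra k F],
      (∃ X : Type, Nonempty (F ≃ₐ[k] FreeAlgebra k X)) →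
      ∀ A : Subalgebra k F,
        ((∃ Y : Type, Nonempty (A ≃ₐ[k] FreeAlgebra k Y)) ↔
          ∀ [S : (⟨fun n => {_b : Bool // n = 2} ⊕ {_c : k // n = 0},
                   fun n => {_u : Unit // n = 1}⟩ : FirstOrder.Language.{0, 0}).Structure F],
            S = { funMap := fun {n} f xs =>
                    Sum.elim
                      (fun b : {_b : Bool // n = 2} =>
                        if b.1 then xs (Fin.cast b.2.symm 0) + xs (Fin.cast b.2.symm 1)
                        else xs (Fin.cast b.2.symm 0) * xs (Fin.cast b.2.symm 1))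
                      (fun c : {_c : k // n = 0} => algebraMap k F c.1) f,
                  RelMap := fun {n} _ xs => ∀ i, xs i ∈ A } →
            F ⊨ T)) := by
  intro H
  obtain ⟨Th, h⟩ := H ℚ
  have h1 : ∀ S : (LL ℚ).Structure (Fr ℚ (ℕ →₀ ℚ[X])), S = pairL (AA ℚ (ℕ →₀ ℚ[X])) →
      @Theory.Model (LL ℚ) (Fr ℚ (ℕ →₀ ℚ[X])) S Th := by
    intro S
    exact (h (Fr ℚ (ℕ →₀ ℚ[X])) ⟨_, ⟨AlgEquiv.refl⟩⟩ (AA ℚ (ℕ →₀ ℚ[X]))).1
      ⟨_, AA_free_finsupp ℚ⟩
  have h1' := h1 (pairL (AA ℚ (ℕ →₀ ℚ[X]))) rfl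
  have h2 : @Theory.Model (LL ℚ) (Fr ℚ (ℕ → ℚ[X])) (pairL (AA ℚ (ℕ → ℚ[X]))) Th := by
    let _ := pairL (AA ℚ (ℕ →₀ ℚ[X]))
    let _ := pairL (AA ℚ (ℕ → ℚ[X]))
    apply elem_sentence (embL ℚ) _ Th h1'
    intro s a
    obtain ⟨g, hg1, hg2⟩ := auto s a
    exact ⟨autL ℚ g, hg1, hg2⟩
  obtain ⟨Y, ⟨e⟩⟩ := (h (Fr ℚ (ℕ → ℚ[X])) ⟨_, ⟨AlgEquiv.refl⟩⟩ (AA ℚ (ℕ → ℚ[X]))).2
    (by
      intro S hS
      subst hS
      exact h2)
  exact AA_not_free Y e

end Pool.Agent.S15376
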