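import Pool.Statements.S15389
import Pool.Agent.W963.LogDepth.Main
import Pool.Agent.W166.Gnp.Transfer

set_option autoImplicit false
open scoped Classical
open Pool Pool.MP_d11e37_lc

namespace Pool.Agent.S15389

/-- For 0<δ<1 and p(n) eventually between n^(-δ) and 1/2, some C>0 makes the probability that G(n,p) is defined among finite graphs by a first-order sentence of quantifier depth at most C log n tend to 1. -/
theorem result :
    ∀ δ : ℝ, 0 < δ → δ < 1 →
    ∀ p : ℕ → ℝ, (∀ᶠ n : ℕ in Filter.atTop, (n : ℝ) ^ (-δ) ≤ p n ∧ p n ≤ 1 / 2) →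
    ∃ C : ℝ, 0 < C ∧
      Filter.Tendsto
        (fun n : ℕ =>
          ∑ G ∈ (Finset.univ.filter (fun G : SimpleGraph (Fin n) =>
              ∃ k : ℕ, (k : ℝ) ≤ C * Real.log n ∧
                ∃ φ : FirstOrder.Language.Sentence FirstOrder.Language.graph,
                  (∀ Q : (m : ℕ) → FirstOrder.Language.BoundedFormula FirstOrder.Language.graph Empty m → ℕ → Prop,
                    ((∀ (m k' : ℕ), Q m FirstOrder.Language.BoundedFormula.falsum k') ∧
                     (∀ (m k' : ℕ) (t₁ t₂ : FirstOrder.Language.Term FirstOrder.Language.graph (Empty ⊕ Fin m)),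
                        Q m (FirstOrder.Language.BoundedFormula.equal t₁ t₂) k') ∧
                     (∀ (m k' l : ℕ) (R : FirstOrder.Language.graph.Relations l)
                        (ts : Fin l → FirstOrder.Language.Term FirstOrder.Language.graph (Empty ⊕ Fin m)),
                        Q m (FirstOrder.Language.BoundedFormula.rel R ts) k') ∧
                     (∀ (m k' : ℕ) (ψ χ : FirstOrder.Language.BoundedFormula FirstOrder.Language.graph Empty m),
                        Q m ψ k' → Q m χ k' → Q m (FirstOrder.Language.BoundedFormula.imp ψ χ) k') ∧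
                     (∀ (m k' : ℕ) (ψ : FirstOrder.Language.BoundedFormula FirstOrder.Language.graph Empty (m + 1)),
                        Q (m + 1) ψ k' → Q m (FirstOrder.Language.BoundedFormula.all ψ) (k' + 1)))
                    → Q 0 φ k) ∧
                  ∀ (m : ℕ) (H : SimpleGraph (Fin m)),
                    (@FirstOrder.Language.Sentence.Realize FirstOrder.Language.graph (Fin m) H.structure φ
                      ↔ Nonempty (SimpleGraph.Iso G H)))),
            p n ^ G.edgeSet.ncard * (1 - p n) ^ (n.choose 2 - G.edgeSet.ncard))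
        Filter.atTop (nhds 1) := by
  intro δ _ hδ1 p hp
  refine ⟨10 ^ 5, by norm_num, ?_⟩
  have hkey : ∀ n : ℕ, (∑ G ∈ (Finset.univ.filter (fun G : SimpleGraph (Fin n) =>
      ∃ k : ℕ, (k : ℝ) ≤ 10 ^ 5 * Real.log n ∧ Pool.Agent.W963.LogDepth.Depth n G k)),
      p n ^ G.edgeSet.ncard * (1 - p n) ^ (n.choose 2 - G.edgeSet.ncard)) =
      Pool.Agent.W166.Gnp.Pr (Pool.Agent.W166.Gnp.allE n) (p n) (fun S => ∃ k : ℕ,
        (k : ℝ) ≤ 10 ^ 5 * Real.log n ∧ Pool.Agent.W963.LogDepth.Depth n
          (SimpleGraph.fromEdgeSet (S : Set (Sym2 (Fin n)))) k) := by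
    intro n
    rw [Finset.sum_filter]
    exact Pool.Agent.W166.Gnp.sum_eq_Pr (p n) _
  have hgoal : Filter.Tendsto (fun n : ℕ => Pool.Agent.W166.Gnp.Pr (Pool.Agent.W166.Gnp.allE n) (p n)
      (fun S => ∃ k : ℕ, (k : ℝ) ≤ 10 ^ 5 * Real.log n ∧ Pool.Agent.W963.LogDepth.Depth n
          (SimpleGraph.fromEdgeSet (S : Set (Sym2 (Fin n)))) k)) Filter.atTop (nhds 1) := by
    have h13 : Filter.Tendsto (fun n : ℕ => 1 - 13 / (n : ℝ)) Filter.atTop (nhds 1) := by
      have h := (tendsto_const_div_atTop_nhds_zero_nat (13 : ℝ)).const_sub 1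
      simpa using h
    have hlog : ∀ᶠ n : ℕ in Filter.atTop, 1 ≤ Real.log n :=
      (Real.tendsto_log_atTop.comp tendsto_natCast_atTop_atTop).eventually_ge_atTop 1
    have hbig : ∀ᶠ n : ℕ in Filter.atTop, 10 ^ 6 * Real.log n ^ 3 ≤ (n : ℝ) ^ (1 - δ) := by
      have h1 : (fun x : ℝ => Real.log x ^ (3 : ℝ)) =o[Filter.atTop] fun x => x ^ (1 - δ) :=
        isLittleO_log_rpow_rpow_atTop 3 (by linarith)
      have h2 := h1.bound (show (0 : ℝ) < 1 / 10 ^ 6 by norm_num)
      have h3 := tendsto_natCast_atTop_atTop (R := ℝ) |>.eventually h2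
      filter_upwards [h3, hlog] with n h4 h5
      have h6 : (0 : ℝ) ≤ (n : ℝ) ^ (1 - δ) := Real.rpow_nonneg (Nat.cast_nonneg _) _
      rw [Real.norm_of_nonneg h6, Real.norm_of_nonneg (Real.rpow_nonneg (by linarith) _)] at h4
      have h7 : Real.log n ^ (3 : ℝ) = Real.log n ^ 3 := by
        rw [← Real.rpow_natCast]; norm_num
      rw [h7] at h4
      linarith
    refine tendsto_of_tendsto_of_tendsto_of_le_of_le' h13 tendsto_const_nhds ?_ ?_
    · filter_upwards [hp, hlog, hbig] with n h1 h2 h3
      have h4 := Pool.Agent.W963.LogDepth.main_n h2 h1.1 h1.2 h3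
      rw [Pool.Agent.W166.Gnp.Pr_not] at h4
      linarith
    · filter_upwards [hp] with n h1
      apply Pool.Agent.W166.Gnp.Pr_le_one
      · exact le_trans (Real.rpow_nonneg (Nat.cast_nonneg _) _) h1.1
      · linarith [h1.2]
  refine hgoal.congr (fun n => ?_)
  rw [← hkey n]
  rfl

end Pool.Agent.S15389
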