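import Pool.Statements.S15471
import Pool.Agent.Results.MP_dca9d4_lc.ExpSystem

set_option autoImplicit false
open Pool Pool.MP_dca9d4_lc

namespace Pool.Agent.S15471

/-- Over a binary alphabet, in the free monoid or in the free semigroup setting, there is c>1 such that for infinitely many n some independent system of word equations in n unknowns has at least c^n equations. -/
theorem result :
    (∃ c : ℝ, 1 < c ∧ ∀ N : ℕ, ∃ n : ℕ, N ≤ n ∧
      ∃ S : Finset (List (Fin n) × List (Fin n)),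
        c ^ n ≤ (S.card : ℝ) ∧
        ∀ T : Finset (List (Fin n) × List (Fin n)), T ⊂ S →
          ∃ f : Fin n → List (Fin 2),
            (∀ e ∈ T, e.1.flatMap f = e.2.flatMap f) ∧
            ∃ e ∈ S, e.1.flatMap f ≠ e.2.flatMap f) ∨
    (∃ c : ℝ, 1 < c ∧ ∀ N : ℕ, ∃ n : ℕ, N ≤ n ∧
      ∃ S : Finset (List (Fin n) × List (Fin n)),
        (∀ e ∈ S, e.1 ≠ [] ∧ e.2 ≠ []) ∧
        c ^ n ≤ (S.card : ℝ) ∧
        ∀ T : Finset (List (Fin n) × List (Fin n)), T ⊂ S →
          ∃ f : Fin n → List (Fin 2), (∀ i, f i ≠ []) ∧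
            (∀ e ∈ T, e.1.flatMap f = e.2.flatMap f) ∧
            ∃ e ∈ S, e.1.flatMap f ≠ e.2.flatMap f) := by
  classical
  left
  refine ⟨(2 : ℝ) ^ ((1 : ℝ) / 4), Real.one_lt_rpow (by norm_num) (by norm_num), fun N => ?_⟩
  set K := N + 1 with hK
  obtain ⟨E, hE, _, hsol⟩ := Pool.Agent.Results.MP_dca9d4_lc.ExpSystem.result K (by omega)
  refine ⟨4 * K, by omega, Finset.univ.image E, ?_, ?_⟩
  · rw [Finset.card_image_of_injective _ hE, Finset.card_univ, Fintype.card_fun, Fintype.card_bool,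
      Fintype.card_fin, ← Real.rpow_natCast, ← Real.rpow_mul (by norm_num)]
    have h1 : (1 : ℝ) / 4 * ((4 * K : ℕ) : ℝ) = (K : ℝ) := by
      push_cast
      ring
    rw [h1, Real.rpow_natCast]
    push_cast
    exact le_rfl
  · intro T hT
    obtain ⟨hsub, hne⟩ := Finset.ssubset_iff_subset_ne.1 hT
    obtain ⟨e, he, heT⟩ := Finset.exists_of_ssubset hT
    obtain ⟨B, _, rfl⟩ := Finset.mem_image.1 he
    obtain ⟨f, hf⟩ := hsol (Fin 2) 0 1 (by decide) B
    refine ⟨f, ?_, E B, he, ?_⟩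
    · intro e' he'
      obtain ⟨B', _, rfl⟩ := Finset.mem_image.1 (hsub he')
      have hB : B' ≠ B := by
        rintro rfl
        exact heT he'
      exact (hf B').2 hB
    · intro heq
      exact (hf B).1 heq rfl

end Pool.Agent.S15471
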