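import Pool.Statements.S15534
import Pool.Agent.Results.MP_e5f80e_lc.AbelianPowers

set_option autoImplicit false
open Pool Pool.MP_e5f80e_lc

namespace Pool.Agent.S15534

open Pool.Agent.Results.MP_e5f80e_lc.AbelianPowers

theorem count_factor (x : ℕ → ℕ) (s L b : ℕ) :
    (factor x s L).count b = ((Finset.range L).filter (fun t => x (s + t) = b)).card := by
  induction L with
  | zero => simp [factor]
  | succ L ih =>
    have e : factor x s (L + 1) = factor x s L ++ [x (s + L)] := by
      simp [factor, List.range_succ]
    rw [e, List.count_append, ih, Finset.range_add_one, Finset.filter_insert]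
    by_cases h : x (s + L) = b
    · rw [if_pos h, Finset.card_insert_of_notMem (by simp)]
      simp [h]
    · rw [if_neg h]
      simp [h]

/-- The negation of the preceding statement: There is a computable procedure that, for every morphism prolongable on a letter, coding, k ≥ 2 and p ≥ 1, correctly says whether the coded fixed point contains no abelian k-th power whose period is at least p. -/
theorem result :
    ¬ (∃ f : List (List ℕ) × List ℕ × ℕ × ℕ × ℕ → Bool, Computable f ∧
      ∀ (hm : List (List ℕ)) (τ : List ℕ) (a k p : ℕ),
        (∀ w ∈ hm, ∀ c ∈ w, c < hm.length) →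
        τ.length = hm.length →
        a < hm.length →
        2 ≤ k → 1 ≤ p →
        (hm.getD a []).head? = some a →
        2 ≤ (hm.getD a []).length →
        (∀ m : ℕ, (fun w : List ℕ => w.flatMap (fun c => hm.getD c []))^[m]
            (hm.getD a []).tail ≠ []) →
        (f (hm, τ, a, k, p) = true ↔
          ¬ ∃ i ℓ : ℕ, p ≤ ℓ ∧ ∀ j < k, ∀ b : ℕ,
            ((Finset.range ℓ).filter (fun t =>
                τ.getD (((fun w : List ℕ => w.flatMap (fun c => hm.getD c []))^[i + j * ℓ + t + 1]
                  [a]).getD (i + j * ℓ + t) 0) 0 = b)).card =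
            ((Finset.range ℓ).filter (fun t =>
                τ.getD (((fun w : List ℕ => w.flatMap (fun c => hm.getD c []))^[i + t + 1]
                  [a]).getD (i + t) 0) 0 = b)).card)) := by
  rintro ⟨f, hf, h⟩
  refine Pool.Agent.Results.MP_e5f80e_lc.AbelianPowers.result.2.1
    ⟨fun y => f (y.1, y.2.2.1, y.2.1, y.2.2.2.1, y.2.2.2.2), ?_, ?_⟩
  · refine hf.comp ?_
    exact (Primrec.pair Primrec.fst (Primrec.pair (Primrec.fst.comp (Primrec.snd.comp Primrec.snd))
      (Primrec.pair (Primrec.fst.comp Primrec.snd)
        (Primrec.pair (Primrec.fst.comp (Primrec.snd.comp (Primrec.snd.comp Primrec.snd)))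
          (Primrec.snd.comp (Primrec.snd.comp (Primrec.snd.comp Primrec.snd))))))).to_comp
  · rintro H a τ k p ⟨h1, h2, h3, x, hx, hne⟩ hk hp
    have hx' : H.getD a [] = a :: x := hx
    have hx0 : x ≠ [] := hne 0
    show f (H, τ, a, k, p) = true ↔ _
    refine (h H τ a k p h1 h3 h2 hk hp (by rw [hx']; rfl)
      (by
        rw [hx']
        have : 0 < x.length := List.length_pos_iff.2 hx0
        simp only [List.length_cons]
        omega)
      (by
        intro m
        rw [hx']
        exact hne m)).trans ?_
    constructor
    · intro hno s L hL hpow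
      refine hno ⟨s, L, hL, ?_⟩
      intro j hj b
      have h4 := hpow.2 j hj b
      rw [count_factor, count_factor] at h4
      exact h4
    · rintro hav ⟨i, l, hl, h5⟩
      refine hav i l hl ⟨by omega, ?_⟩
      intro j hj b
      rw [count_factor, count_factor]
      exact h5 j hj b

end Pool.Agent.S15534
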