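import Pool.Statements.S15550

set_option autoImplicit false
open Pool Pool.MP_e6ce3e_lc

namespace Pool.Agent.S15550

open Set Cardinal

/-- In a linear order all of whose well-founded subsets are countable, every set has a countable
cofinal subset (the records of a well-ordering of the type). -/
theorem exists_cofinal {L : Type} [LinearOrder L]
    (h1 : ∀ S : Set L, S.WellFoundedOn (· < ·) → S.Countable) (S : Set L) :
    ∃ C : Set L, C ⊆ S ∧ C.Countable ∧ ∀ x ∈ S, ∃ c ∈ C, x ≤ c := by
  classical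
  let r : L → L → Prop := WellOrderingRel
  have hwf : WellFounded r := (WellOrderingRel.isWellOrder (α := L)).wf
  have htri : ∀ a b : L, r a b ∨ a = b ∨ r b a := fun a b => by
    by_contra hcon
    push Not at hcon
    exact hcon.2.1 ((WellOrderingRel.isWellOrder (α := L)).toTrichotomous.trichotomous a b
      hcon.1 hcon.2.2)
  refine ⟨{x | x ∈ S ∧ ∀ y ∈ S, r y x → y < x}, fun x hx => hx.1, ?_, ?_⟩
  · apply h1
    rw [Set.wellFoundedOn_iff]
    refine Subrelation.wf (r := r) ?_ hwf
    intro a b hab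
    rcases htri a b with h | h | h
    · exact h
    · exact absurd h (ne_of_lt hab.1)
    · exact absurd (hab.2.1.2 b hab.2.2.1 h) (not_lt.2 hab.1.le)
  · intro x hx
    have hne : ({y | y ∈ S ∧ x ≤ y} : Set L).Nonempty := ⟨x, hx, le_rfl⟩
    refine ⟨hwf.min _ hne, ⟨(hwf.min_mem _ hne).1, ?_⟩, (hwf.min_mem _ hne).2⟩
    intro z hz hzr
    by_contra hlt
    push Not at hlt
    have hz' : z ∈ ({y | y ∈ S ∧ x ≤ y} : Set L) := ⟨hz, (hwf.min_mem _ hne).2.trans hlt⟩
    exact hwf.not_lt_min _ hz' hzr

/-- If all `S ∩ Iic x`, `x ∈ S`, are countable then `S` is countable. -/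
theorem countable_of_Iic {L : Type} [LinearOrder L]
    (h1 : ∀ S : Set L, S.WellFoundedOn (· < ·) → S.Countable) (S : Set L)
    (hS : ∀ x ∈ S, (S ∩ Iic x).Countable) : S.Countable := by
  obtain ⟨C, hCS, hC, hcof⟩ := exists_cofinal h1 S
  refine (hC.biUnion (fun c hc => hS c (hCS hc))).mono ?_
  intro x hx
  obtain ⟨c, hc, hxc⟩ := hcof x hx
  exact mem_biUnion hc ⟨hx, hxc⟩

theorem countable_of_Ici {L : Type} [LinearOrder L]
    (h2 : ∀ S : Set L, S.WellFoundedOn (· > ·) → S.Countable) (S : Set L)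
    (hS : ∀ x ∈ S, (S ∩ Ici x).Countable) : S.Countable :=
  countable_of_Iic (L := Lᵒᵈ) (fun S hS => h2 S hS) S hS

/-- An uncountable interval can be split into two uncountable intervals. -/
theorem split {L : Type} [LinearOrder L]
    (h1 : ∀ S : Set L, S.WellFoundedOn (· < ·) → S.Countable)
    (h2 : ∀ S : Set L, S.WellFoundedOn (· > ·) → S.Countable) (x y : L)
    (h : ¬ (Icc x y).Countable) :
    ∃ z ∈ Icc x y, ¬ (Icc x z).Countable ∧ ¬ (Icc z y).Countable := by
  have hI : ({z | z ∈ Icc x y ∧ (Icc x z).Countable} : Set L).Countable := by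
    apply countable_of_Iic h1
    rintro z ⟨hz, hzc⟩
    refine hzc.mono ?_
    rintro w ⟨⟨hw, -⟩, hwz⟩
    exact ⟨hw.1, hwz⟩
  have hF : ({z | z ∈ Icc x y ∧ (Icc z y).Countable} : Set L).Countable := by
    apply countable_of_Ici h2
    rintro z ⟨hz, hzc⟩
    refine hzc.mono ?_
    rintro w ⟨⟨hw, -⟩, hwz⟩
    exact ⟨hwz, hw.2⟩
  by_contra hcon
  push Not at hcon
  apply h
  refine (hI.union hF).mono ?_
  intro z hz
  by_cases hc : (Icc x z).Countable
  · exact Or.inl ⟨hz, hc⟩
  · exact Or.inr ⟨hz, hcon z hz hc⟩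

/-- An uncountable short linear order contains a copy of the rationals with an uncountable
interval between the copies of `0` and `1`. -/
theorem exists_rat {L : Type} [LinearOrder L]
    (h1 : ∀ S : Set L, S.WellFoundedOn (· < ·) → S.Countable)
    (h2 : ∀ S : Set L, S.WellFoundedOn (· > ·) → S.Countable)
    (h : ¬ (univ : Set L).Countable) :
    ∃ e : ℚ → L, StrictMono e ∧ ¬ (Icc (e 0) (e 1)).Countable := by
  classical
  let r : Setoid L :=
    { r := fun x y => (uIcc x y).Countable
      iseqv :=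
        ⟨fun x => by simp, fun {x y} hxy => by rwa [uIcc_comm],
          fun {x y z} hxy hyz => (hxy.union hyz).mono (uIcc_subset_uIcc_union_uIcc)⟩ }
  have hr : ∀ x y, r x y ↔ (uIcc x y).Countable := fun x y => Iff.rfl
  let β : Set L := range (Quotient.out : Quotient r → L)
  have hβ : ∀ x ∈ β, ∀ y ∈ β, x < y → ¬ (Icc x y).Countable := by
    rintro _ ⟨p, rfl⟩ _ ⟨q, rfl⟩ hxy hc
    have h3 : r p.out q.out := by
      rw [hr, uIcc_of_le hxy.le]
      exact hc
    have h4 : p = q := by
      rw [← Quotient.out_eq p, ← Quotient.out_eq q]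
      exact Quotient.sound h3
    rw [h4] at hxy
    exact lt_irrefl _ hxy
  have hdense : DenselyOrdered β := by
    refine ⟨?_⟩
    rintro ⟨x, hx⟩ ⟨y, hy⟩ hxy
    have hxy' : x < y := hxy
    obtain ⟨z, hz, hxz, hzy⟩ := split h1 h2 x y (hβ x hx y hy hxy')
    let w : L := (Quotient.mk r z).out
    have hw : (uIcc w z).Countable := (hr w z).1 (Quotient.exact (Quotient.out_eq _))
    refine ⟨⟨w, Quotient.mk r z, rfl⟩, ?_, ?_⟩
    · show x < w
      by_contra hlt
      push Not at hlt
      apply hxz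
      refine hw.mono ?_
      rw [uIcc_of_le (hlt.trans hz.1)]
      exact Icc_subset_Icc_left hlt
    · show w < y
      by_contra hlt
      push Not at hlt
      apply hzy
      refine hw.mono ?_
      rw [uIcc_of_ge (hz.2.trans hlt)]
      exact Icc_subset_Icc_right hlt
  have hclass : ∀ x : L, ({y | r x y} : Set L).Countable := by
    intro x
    have ha : ({y | x ≤ y ∧ r x y} : Set L).Countable := by
      apply countable_of_Iic h1
      rintro z ⟨hz, hzc⟩
      rw [hr, uIcc_of_le hz] at hzc
      refine hzc.mono ?_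
      rintro w ⟨⟨hw, -⟩, hwz⟩
      exact ⟨hw, hwz⟩
    have hb : ({y | y ≤ x ∧ r x y} : Set L).Countable := by
      apply countable_of_Ici h2
      rintro z ⟨hz, hzc⟩
      rw [hr, uIcc_of_ge hz] at hzc
      refine hzc.mono ?_
      rintro w ⟨⟨hw, -⟩, hwz⟩
      exact ⟨hwz, hw⟩
    refine (ha.union hb).mono ?_
    intro y hy
    rcases le_total x y with h | h
    · exact Or.inl ⟨h, hy⟩
    · exact Or.inr ⟨h, hy⟩
  have hnt : Nontrivial β := by
    by_contra hcon
    rw [not_nontrivial_iff_subsingleton] at hcon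
    apply h
    have hβc : β.Countable := (Set.subsingleton_coe β).1 hcon |>.countable
    refine (hβc.biUnion (fun b _ => hclass b)).mono ?_
    intro x _
    refine mem_biUnion (x := (Quotient.mk r x).out) ⟨_, rfl⟩ ?_
    have h3 : r (Quotient.mk r x).out x := Quotient.exact (Quotient.out_eq (Quotient.mk r x))
    exact h3
  obtain ⟨e⟩ := Order.embedding_from_countable_to_dense (α := ℚ) (β := β)
  refine ⟨fun q => (e q : L), fun a b hab => e.strictMono hab, ?_⟩
  exact hβ _ (e 0).2 _ (e 1).2 (e.strictMono (by norm_num))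

theorem result :
    ¬ (∃ (L : Type) (_ : LinearOrder L),
      (∀ S : Set L, S.WellFoundedOn (· < ·) → S.Countable) ∧
      (∀ S : Set L, S.WellFoundedOn (· > ·) → S.Countable) ∧
      Cardinal.aleph 1 ≤ Cardinal.mk L ∧
      (∀ (K : Type) [LinearOrder K], Cardinal.mk K = Cardinal.aleph 1 →
          Nonempty (K ↪o L) → ∃ f : L → K, Monotone f ∧ Function.Surjective f) ∧
      ¬ ∃ f : L → ℚ, Monotone f ∧ Function.Surjective f) := by
  classical
  rintro ⟨L, _, h1, h2, hL, hK, hno⟩
  apply hno
  have hunc : ¬ (univ : Set L).Countable := by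
    intro hc
    rw [countable_iff_lt_aleph_one, mk_univ] at hc
    exact absurd hL (not_le.2 hc)
  obtain ⟨e, he, hunc2⟩ := exists_rat h1 h2 hunc
  have hge : ℵ₁ ≤ #(Icc (e 0) (e 1)) := by
    by_contra hlt
    exact hunc2 (countable_iff_lt_aleph_one _ |>.2 (not_le.1 hlt))
  obtain ⟨X, hX, hXc⟩ := Cardinal.le_mk_iff_exists_subset.1 hge
  -- the suborder `K = e(ℚ_{<0}) + X + e(ℚ_{>1})`
  let K : Set L := e '' Iio 0 ∪ X ∪ e '' Ioi 1
  have hKc : #K = ℵ₁ := by
    apply le_antisymm
    · refine (mk_union_le _ _).trans ?_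
      refine add_le_of_le aleph0_lt_aleph_one.le ((mk_union_le _ _).trans ?_) ?_
      · refine add_le_of_le aleph0_lt_aleph_one.le ?_ hXc.le
        exact (((to_countable (Iio (0 : ℚ))).image e).le_aleph0).trans aleph0_lt_aleph_one.le
      · exact (((to_countable (Ioi (1 : ℚ))).image e).le_aleph0).trans aleph0_lt_aleph_one.le
    · rw [← hXc]
      exact mk_le_mk_of_subset (fun x hx => Or.inl (Or.inr hx))
  obtain ⟨f, hf, hfs⟩ := hK K hKc ⟨OrderEmbedding.subtype _⟩
  -- the map of `K` onto the rationals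
  have hg : ∃ g : K → ℚ, Monotone g ∧ Function.Surjective g := by
    have hlow : ∀ x ∈ K, x < e 0 → ∃ q, q < 0 ∧ e q = x := by
      rintro x ((⟨q, hq, rfl⟩ | hx) | ⟨q, hq, rfl⟩) hlt
      · exact ⟨q, hq, rfl⟩
      · exact absurd (hX hx).1 (not_le.2 hlt)
      · exact absurd (he.lt_iff_lt.1 hlt) (not_lt.2 (zero_le_one.trans (le_of_lt hq)))
    have hhigh : ∀ x ∈ K, e 1 < x → ∃ q, 1 < q ∧ e q = x := by
      rintro x ((⟨q, hq, rfl⟩ | hx) | ⟨q, hq, rfl⟩) hlt
      · have : (1 : ℚ) < q := he.lt_iff_lt.1 hlt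
        exact absurd (show q < 0 from hq) (not_lt.2 (zero_le_one.trans this.le))
      · exact absurd (hX hx).2 (not_le.2 hlt)
      · exact ⟨q, hq, rfl⟩
    choose! a ha ha' using hlow
    choose! b hb hb' using hhigh
    have hle : e 0 ≤ e 1 := he.monotone zero_le_one
    refine ⟨fun x => if (x : L) < e 0 then a x else if e 1 < (x : L) then b x - 1 else 0, ?_, ?_⟩
    · intro x y hxy
      have hxy' : (x : L) ≤ y := hxy
      by_cases hx : (x : L) < e 0
      · by_cases hy : (y : L) < e 0
        · simp only [hx, hy, if_true]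
          rw [← he.le_iff_le, ha' _ x.2 hx, ha' _ y.2 hy]
          exact hxy'
        · by_cases hy' : e 1 < (y : L)
          · simp only [hx, hy, hy', if_true, if_false]
            have h3 := ha _ x.2 hx
            have h4 := hb _ y.2 hy'
            linarith
          · simp only [hx, hy, hy', if_true, if_false]
            exact (ha _ x.2 hx).le
      · have hy : ¬ (y : L) < e 0 := not_lt.2 ((not_lt.1 hx).trans hxy')
        by_cases hx' : e 1 < (x : L)
        · have hy' : e 1 < (y : L) := hx'.trans_le hxy'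
          simp only [hx, hy, hx', hy', if_true, if_false]
          have h3 : b x ≤ b y := by
            rw [← he.le_iff_le, hb' _ x.2 hx', hb' _ y.2 hy']
            exact hxy'
          linarith
        · by_cases hy' : e 1 < (y : L)
          · simp only [hx, hy, hx', hy', if_true, if_false]
            have h4 := hb _ y.2 hy'
            linarith
          · simp only [hx, hy, hx', hy', if_false]
            exact le_rfl
    · intro q
      rcases lt_trichotomy q 0 with hq | hq | hq
      · refine ⟨⟨e q, Or.inl (Or.inl ⟨q, hq, rfl⟩)⟩, ?_⟩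
        have h3 : e q < e 0 := he hq
        have h5 : e q ∈ K := Or.inl (Or.inl ⟨q, hq, rfl⟩)
        simp only [h3, if_true]
        exact he.injective (ha' _ h5 h3)
      · have hne : X.Nonempty := by
          rw [nonempty_iff_ne_empty]
          rintro rfl
          rw [mk_eq_zero] at hXc
          exact absurd hXc.symm (aleph_pos 1).ne'
        obtain ⟨x, hx⟩ := hne
        refine ⟨⟨x, Or.inl (Or.inr hx)⟩, ?_⟩
        have h3 : ¬ x < e 0 := not_lt.2 (hX hx).1
        have h4 : ¬ e 1 < x := not_lt.2 (hX hx).2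
        simp only [h3, h4, if_false]
        exact hq.symm
      · have h6 : (1 : ℚ) < q + 1 := by linarith
        refine ⟨⟨e (q + 1), Or.inr ⟨q + 1, h6, rfl⟩⟩, ?_⟩
        have h5 : e (q + 1) ∈ K := Or.inr ⟨q + 1, h6, rfl⟩
        have h4 : e 1 < e (q + 1) := he h6
        have h3 : ¬ e (q + 1) < e 0 := not_lt.2 (hle.trans h4.le)
        simp only [h3, h4, if_true, if_false]
        have h7 : b (e (q + 1)) = q + 1 := he.injective (hb' _ h5 h4)
        rw [h7]
        ring
  obtain ⟨g, hg, hgs⟩ := hg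
  exact ⟨g ∘ f, hg.comp hf, hgs.comp hfs⟩

end Pool.Agent.S15550
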