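import Pool.Statements.S15562
import Pool.Agent.Results.MP_e935e7_lc.NineUnknowns

set_option autoImplicit false
open Pool Pool.MP_e935e7_lc

namespace Pool.Agent.S15562

/-- The negation of the preceding statement: 10 is the least n such that some integer polynomial in n unknowns has, as its positive values over natural-number inputs, exactly the primes. -/
theorem result :
    ¬ (IsLeast
      {n : ℕ | ∃ f : MvPolynomial (Fin n) ℤ,
        ∀ p : ℕ, 0 < p →
          ((∃ x : Fin n → ℕ, MvPolynomial.eval (fun i => (x i : ℤ)) f = (p : ℤ)) ↔ p.Prime)}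
      10) := by
  intro h
  obtain ⟨⟨f, hf⟩, _, _⟩ := Pool.Agent.Results.MP_e935e7_lc.NineUnknowns.result
  have h9 : (9 : ℕ) ∈ {n : ℕ | ∃ f : MvPolynomial (Fin n) ℤ,
        ∀ p : ℕ, 0 < p →
          ((∃ x : Fin n → ℕ, MvPolynomial.eval (fun i => (x i : ℤ)) f = (p : ℤ)) ↔ p.Prime)} := by
    refine ⟨f, fun p hp => ?_⟩
    unfold Pool.Agent.Results.MP_e935e7_lc.NineUnknowns.PrimeRepresenting
      Pool.Agent.Results.MP_e935e7_lc.NineUnknowns.values at hf
    have h1 := Set.ext_iff.1 hf (p : ℤ)
    simp only [Set.mem_inter_iff, Set.mem_setOf_eq] at h1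
    constructor
    · intro hx
      obtain ⟨q, hq, hpq⟩ := h1.1 ⟨hx, by exact_mod_cast hp⟩
      have h2 : p = q := by exact_mod_cast hpq
      exact h2 ▸ hq
    · intro hpr
      exact (h1.2 ⟨p, hpr, rfl⟩).1
  have h10 := h.2 h9
  omega

end Pool.Agent.S15562
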