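import Pool.Statements.S15617
import Pool.Agent.Results.MP_f458de_lc.RandomizationHelps

set_option autoImplicit false
open MeasureTheory
open Pool Pool.MP_f458de_lc

namespace Pool.Agent.S15617

open Pool.Agent.Results.MP_f458de_lc.RandomizationHelps

/-- The cost of the decisions `d` on the first `n` jobs of `σ`. -/
noncomputable def costN (m n : ℕ) (σ : ℕ → ℝ × ℝ) (d : ℕ → Option (Fin m)) : ℝ :=
  (⨆ k : Fin m, ∑ i ∈ (Finset.range n).filter (fun i => d i = some k), (σ i).1)
    + ∑ i ∈ (Finset.range n).filter (fun i => d i = none), (σ i).2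

lemma cost_eq_costN {m : ℕ} (L : List Job) (σ : ℕ → ℝ × ℝ)
    (h1 : ∀ i : Fin L.length, σ i = ((L.get i).t, (L.get i).p))
    (s : Sched m L) (d : ℕ → Option (Fin m)) (hs : ∀ i : Fin L.length, s i = d i) :
    cost L s = costN m L.length σ d := by
  unfold cost costN
  congr 1
  · congr 1
    funext k
    unfold load
    rw [Finset.sum_filter, ← Fin.sum_univ_eq_sum_range
      (fun i => if d i = some k then (σ i).1 else 0) L.length]
    apply Finset.sum_congr rfl
    intro i _
    rw [hs i, h1 i]
  · rw [Finset.sum_filter, ← Fin.sum_univ_eq_sum_range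
      (fun i => if d i = none then (σ i).2 else 0) L.length]
    apply Finset.sum_congr rfl
    intro i _
    rw [hs i, h1 i]

lemma opt_eq {m : ℕ} (L : List Job) (σ : ℕ → ℝ × ℝ)
    (h1 : ∀ i : Fin L.length, σ i = ((L.get i).t, (L.get i).p)) :
    opt m L = ⨅ d : ℕ → Option (Fin m), costN m L.length σ d := by
  have hnn : ∀ d : ℕ → Option (Fin m), 0 ≤ costN m L.length σ d := by
    intro d
    rw [← cost_eq_costN L σ h1 (fun i => d i) d (fun _ => rfl)]
    exact cost_nonneg _ _
  apply le_antisymm
  · apply le_ciInf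
    intro d
    rw [← cost_eq_costN L σ h1 (fun i => d i) d (fun _ => rfl)]
    exact opt_le _ _
  · apply le_opt
    intro s
    rw [cost_eq_costN L σ h1 s (fun i => if h : i < L.length then s ⟨i, h⟩ else none)
      (fun i => by simp)]
    exact ciInf_le ⟨0, by rintro _ ⟨d, rfl⟩; exact hnn d⟩ _

/-- A pair as a job (a default job if it is not one). -/
noncomputable def toJob (x : ℝ × ℝ) : Job := by
  classical
  exact if h : 0 < x.1 ∧ 0 ≤ x.2 then ⟨x.1, x.2, h.1, h.2⟩ else ⟨1, 0, one_pos, le_refl 0⟩

lemma toJob_spec (x : ℝ × ℝ) (h : 0 < x.1 ∧ 0 ≤ x.2) : x = ((toJob x).t, (toJob x).p) := by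
  unfold toJob
  rw [dif_pos h]

/-- An algorithm on lists of pairs from an algorithm on jobs. -/
noncomputable def ofAlg {m : ℕ} (A : Alg m) (l : List (ℝ × ℝ)) : Option (Fin m) :=
  if h : l = [] then none else A (l.dropLast.map toJob) (toJob (l.getLast h))

lemma ofAlg_range {m : ℕ} (A : Alg m) (σ : ℕ → ℝ × ℝ) (i : ℕ) :
    ofAlg A ((List.range (i + 1)).map σ) =
      A ((List.range i).map (fun j => toJob (σ j))) (toJob (σ i)) := by
  have h : (List.range (i + 1)).map σ = (List.range i).map σ ++ [σ i] := by
    rw [List.range_succ, List.map_append]; rfl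
  unfold ofAlg
  rw [dif_neg (by rw [h]; simp)]
  congr 1
  · rw [h, List.dropLast_concat, List.map_map]
    rfl
  · congr 1
    simp [h]

/-- The run of `ofAlg A` costs what the run of `A` costs. -/
lemma run_ofAlg {m : ℕ} (A : Alg m) (n : ℕ) (σ : ℕ → ℝ × ℝ)
    (hσ : ∀ i < n, 0 < (σ i).1 ∧ 0 ≤ (σ i).2) :
    costN m n σ (fun i => ofAlg A ((List.range (i + 1)).map σ)) =
      cost ((List.range n).map (fun j => toJob (σ j)))
        (Alg.sched A ((List.range n).map (fun j => toJob (σ j)))) ∧
    (⨅ d : ℕ → Option (Fin m), costN m n σ d) =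
      opt m ((List.range n).map (fun j => toJob (σ j))) := by
  have hl : ((List.range n).map (fun j => toJob (σ j))).length = n := by simp
  have h1 : ∀ i : Fin ((List.range n).map (fun j => toJob (σ j))).length,
      σ i = ((((List.range n).map (fun j => toJob (σ j))).get i).t,
        (((List.range n).map (fun j => toJob (σ j))).get i).p) := by
    intro i
    have hi : (i : ℕ) < n := by have := i.2; omega
    have : ((List.range n).map (fun j => toJob (σ j))).get i = toJob (σ i) := by simp
    rw [this]
    exact toJob_spec _ (hσ i hi)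
  constructor
  · rw [cost_eq_costN _ σ h1 _ (fun i => ofAlg A ((List.range (i + 1)).map σ)), hl]
    intro i
    have hi : (i : ℕ) < n := by have := i.2; omega
    rw [ofAlg_range]
    unfold Alg.sched
    congr 1
    · rw [← List.map_take, List.take_range, min_eq_left hi.le]
    · simp
  · rw [opt_eq _ σ h1, hl]

/-- An algorithm on jobs from an algorithm on lists of pairs. -/
def toAlg {m : ℕ} (A : List (ℝ × ℝ) → Option (Fin m)) : Alg m :=
  fun h j => A ((h ++ [j]).map (fun j => (j.t, j.p)))

theorem result :
  ∃ m₀ : ℕ, ∀ m : ℕ, m₀ ≤ m → ∃ c c' : ℝ, c < c' ∧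
    (∃ (Ω : Type) (_ : MeasurableSpace Ω) (μ : Measure Ω),
      IsProbabilityMeasure μ ∧
      ∃ A : Ω → List (ℝ × ℝ) → Option (Fin m),
        ∀ (n : ℕ) (σ : ℕ → ℝ × ℝ), (∀ i < n, 0 < (σ i).1 ∧ 0 ≤ (σ i).2) →
          (Integrable (fun ω : Ω =>
            (⨆ k : Fin m, ∑ i ∈ (Finset.range n).filter
                (fun i => A ω ((List.range (i + 1)).map σ) = some k), (σ i).1)
            + ∑ i ∈ (Finset.range n).filter
                (fun i => A ω ((List.range (i + 1)).map σ) = none), (σ i).2) μ ∧
          (∫ ω, ((⨆ k : Fin m, ∑ i ∈ (Finset.range n).filter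
                (fun i => A ω ((List.range (i + 1)).map σ) = some k), (σ i).1)
            + ∑ i ∈ (Finset.range n).filter
                (fun i => A ω ((List.range (i + 1)).map σ) = none), (σ i).2) ∂μ)
          ≤ c * (⨅ d : ℕ → Option (Fin m),
              ((⨆ k : Fin m, ∑ i ∈ (Finset.range n).filter (fun i => d i = some k), (σ i).1)
              + ∑ i ∈ (Finset.range n).filter (fun i => d i = none), (σ i).2)))) ∧
    ¬ (∃ A : List (ℝ × ℝ) → Option (Fin m),
        ∀ (n : ℕ) (σ : ℕ → ℝ × ℝ), (∀ i < n, 0 < (σ i).1 ∧ 0 ≤ (σ i).2) →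
          ((⨆ k : Fin m, ∑ i ∈ (Finset.range n).filter
                (fun i => A ((List.range (i + 1)).map σ) = some k), (σ i).1)
            + ∑ i ∈ (Finset.range n).filter
                (fun i => A ((List.range (i + 1)).map σ) = none), (σ i).2)
          ≤ c' * (⨅ d : ℕ → Option (Fin m),
              ((⨆ k : Fin m, ∑ i ∈ (Finset.range n).filter (fun i => d i = some k), (σ i).1)
              + ∑ i ∈ (Finset.range n).filter (fun i => d i = none), (σ i).2))) := by
  refine ⟨3000 * 4 ^ 155, fun m hm => ⟨5 / 2, 51 / 20, by norm_num, ?_, ?_⟩⟩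
  · have hm1 : 1 ≤ m := by
      have : 3000 * 1 ≤ 3000 * 4 ^ 155 := Nat.mul_le_mul_left _ (Nat.one_le_pow _ _ (by norm_num))
      omega
    let μ : MeasureTheory.Measure Bool :=
      (2 : ENNReal)⁻¹ • MeasureTheory.Measure.dirac true +
        (2 : ENNReal)⁻¹ • MeasureTheory.Measure.dirac false
    have hμ : MeasureTheory.IsProbabilityMeasure μ := by
      constructor
      simp only [μ, MeasureTheory.Measure.add_apply, MeasureTheory.Measure.smul_apply,
        MeasureTheory.measure_univ, smul_eq_mul, mul_one]
      exact ENNReal.inv_two_add_inv_two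
    have hint : ∀ (ν : MeasureTheory.Measure Bool) [MeasureTheory.IsFiniteMeasure ν]
        (f : Bool → ℝ), MeasureTheory.Integrable f ν := by
      intro ν _ f
      exact MeasureTheory.Integrable.of_finite
    refine ⟨Bool, inferInstance, μ, hμ,
      fun b => ofAlg (DL hm1 (if b then 2 / 5 else 3 / 5)), fun n σ hσ => ⟨hint _ _, ?_⟩⟩
    have key : ∀ b : Bool,
        costN m n σ (fun i => ofAlg (DL hm1 (if b then 2 / 5 else 3 / 5))
          ((List.range (i + 1)).map σ)) =
        cost ((List.range n).map (fun j => toJob (σ j)))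
          (Alg.sched (DL hm1 (if b then 2 / 5 else 3 / 5))
            ((List.range n).map (fun j => toJob (σ j)))) :=
      fun b => (run_ofAlg _ n σ hσ).1
    have hopt := (run_ofAlg (DL hm1 (2 / 5)) n σ hσ).2
    change (∫ b, costN m n σ (fun i => ofAlg (DL hm1 (if b then 2 / 5 else 3 / 5))
          ((List.range (i + 1)).map σ)) ∂μ) ≤
        5 / 2 * (⨅ d : ℕ → Option (Fin m), costN m n σ d)
    rw [hopt]
    have hI : ∫ b, costN m n σ (fun i => ofAlg (DL hm1 (if b then 2 / 5 else 3 / 5))
          ((List.range (i + 1)).map σ)) ∂μ =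
        (cost ((List.range n).map (fun j => toJob (σ j)))
            (Alg.sched (DL hm1 (2 / 5)) ((List.range n).map (fun j => toJob (σ j)))) +
          cost ((List.range n).map (fun j => toJob (σ j)))
            (Alg.sched (DL hm1 (3 / 5)) ((List.range n).map (fun j => toJob (σ j))))) / 2 := by
      simp only [key]
      rw [MeasureTheory.integral_add_measure, MeasureTheory.integral_smul_measure,
        MeasureTheory.integral_smul_measure, MeasureTheory.integral_dirac,
        MeasureTheory.integral_dirac]
      · simp only [if_true, Bool.false_eq_true, if_false, ENNReal.toReal_inv,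
          ENNReal.toReal_ofNat, smul_eq_mul]
        ring
      · exact (hint _ _).smul_measure (by simp)
      · exact (hint _ _).smul_measure (by simp)
    rw [hI]
    exact two_runs hm1 _
  · rintro ⟨A, hA⟩
    apply lower_bound hm (toAlg A)
    intro L
    obtain ⟨σ, hσ⟩ : ∃ σ : ℕ → ℝ × ℝ, σ = fun i => if h : i < L.length then
      ((L.get ⟨i, h⟩).t, (L.get ⟨i, h⟩).p) else (1, 0) := ⟨_, rfl⟩
    have h1 : ∀ i : Fin L.length, σ i = ((L.get i).t, (L.get i).p) := by
      intro i
      rw [hσ]
      simp
    have h2 : ∀ i < L.length, 0 < (σ i).1 ∧ 0 ≤ (σ i).2 := by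
      intro i hi
      have := h1 ⟨i, hi⟩
      simp only at this
      rw [this]
      exact ⟨(L.get ⟨i, hi⟩).t_pos, (L.get ⟨i, hi⟩).p_nonneg⟩
    have h3 := hA L.length σ h2
    have h4 : costN m L.length σ (fun i => A ((List.range (i + 1)).map σ)) ≤
        51 / 20 * (⨅ d : ℕ → Option (Fin m), costN m L.length σ d) := h3
    rw [← opt_eq L σ h1] at h4
    rw [← cost_eq_costN L σ h1 (Alg.sched (toAlg A) L)] at h4
    · exact h4
    · intro i
      unfold Alg.sched toAlg
      congr 1
      apply List.ext_getElem
      · simp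
      · intro k hk1 hk2
        have hk : k < (i : ℕ) + 1 := by simpa using hk2
        have hkL : k < L.length := by omega
        have hs := h1 ⟨k, hkL⟩
        simp only at hs
        rw [List.getElem_map, List.getElem_map, List.getElem_range, hs]
        rcases Nat.lt_succ_iff_lt_or_eq.mp hk with h | h
        · have e : (List.take (↑i) L ++ [L.get i])[k]'(by simp; omega) = L.get ⟨k, hkL⟩ := by
            rw [List.getElem_append_left (by simp; omega)]
            simp
          rw [e]
        · subst h
          have e : (List.take (↑i) L ++ [L.get i])[(i : ℕ)]'(by simp) = L.get ⟨i, hkL⟩ := by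
            rw [List.getElem_append_right (by simp)]
            simp
          rw [e]

end Pool.Agent.S15617
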