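import Pool.Statements.S15646
import Pool.Agent.Results.MP_fbc7b8_lc.NoEffectiveLovasz

set_option autoImplicit false
open Pool Pool.MP_fbc7b8_lc

namespace Pool.Agent.S15646

/-- The negation of the preceding statement: For every highly recursive graph on a recursive subset of ℕ with maximum degree n₁+n₂+1, the vertices split into two disjoint recursive sets whose induced subgraphs have maximum degree at most n₁ and n₂ respectively. -/
theorem result :
    ¬ (∀ (V : Set ℕ) (G : SimpleGraph ℕ) (n₁ n₂ : ℕ),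
      ComputablePred (fun x : ℕ => x ∈ V) →
      ComputablePred (fun p : ℕ × ℕ => G.Adj p.1 p.2) →
      (∀ x y : ℕ, G.Adj x y → x ∈ V) →
      (∀ x : ℕ, (G.neighborSet x).Finite) →
      (∃ d : ℕ → ℕ, Computable d ∧ ∀ x ∈ V, (G.neighborSet x).ncard = d x) →
      (∀ x ∈ V, (G.neighborSet x).ncard ≤ n₁ + n₂ + 1) →
      (∃ x ∈ V, (G.neighborSet x).ncard = n₁ + n₂ + 1) →
      ∃ V₁ V₂ : Set ℕ,
        ComputablePred (fun x : ℕ => x ∈ V₁) ∧
        ComputablePred (fun x : ℕ => x ∈ V₂) ∧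
        V₁ ∪ V₂ = V ∧ Disjoint V₁ V₂ ∧
        (∀ x ∈ V₁, (G.neighborSet x ∩ V₁).ncard ≤ n₁) ∧
        (∀ x ∈ V₂, (G.neighborSet x ∩ V₂).ncard ≤ n₂)) := by
  intro h
  obtain ⟨G, hG, hmax, hno⟩ := Pool.Agent.Results.MP_fbc7b8_lc.NoEffectiveLovasz.result 2 4 le_rfl
    (by norm_num)
  let G' : SimpleGraph ℕ := { Adj := G, symm := ⟨fun x y => hG.symm x y⟩, loopless := ⟨hG.irrefl⟩ }
  have hdeg : ∀ x, (G'.neighborSet x).ncard =
      Pool.Agent.Results.MP_fbc7b8_lc.NoEffectiveLovasz.degIn G Set.univ x := by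
    intro x
    unfold Pool.Agent.Results.MP_fbc7b8_lc.NoEffectiveLovasz.degIn
    congr 1
    ext y
    simp [G', SimpleGraph.mem_neighborSet]
  have hdeg' : ∀ (W : Set ℕ) (x : ℕ), (G'.neighborSet x ∩ W).ncard =
      Pool.Agent.Results.MP_fbc7b8_lc.NoEffectiveLovasz.degIn G W x := by
    intro W x
    unfold Pool.Agent.Results.MP_fbc7b8_lc.NoEffectiveLovasz.degIn
    congr 1
    ext y
    simp [G', SimpleGraph.mem_neighborSet, and_comm]
  obtain ⟨V₁, V₂, h1, h2, h3, h4, h5, h6⟩ := h Set.univ G' 1 3 hG.recV hG.recE (fun _ _ _ => trivial)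
    (fun x => hG.locFin x) ⟨_, hG.recDeg, fun x _ => hdeg x⟩
    (fun x _ => by
      rw [hdeg]
      have := hmax.2 ⟨x, rfl⟩
      simpa using this)
    (by
      obtain ⟨x, hx⟩ := hmax.1
      exact ⟨x, trivial, by rw [hdeg]; simpa using hx⟩)
  apply hno
  refine ⟨V₁, V₂, h1, h2, h3, h4, fun x hx => ?_, fun x hx => ?_⟩
  · have := h5 x hx
    rw [hdeg'] at this
    omega
  · have := h6 x hx
    rw [hdeg'] at this
    omega

end Pool.Agent.S15646
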