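import Pool.Statements.S15671
import Pool.Agent.W810.PP.Assemble
import Pool.Agent.W810.PP.Split
import Pool.Agent.W810.PP.Chain
import Pool.Agent.W641.LPSAP
import Pool.Agent.W641.LPClosed
import Pool.Agent.W641.LPIso
import Pool.Agent.W641.LPG1
import Pool.Agent.W85.LPTaskDich
import Pool.Agent.W85.LPTaskJ
import Pool.Agent.W85.LPTaskFE
import Pool.Agent.H853R3.PP.TaskResample

set_option autoImplicit false
open MeasureTheory
open Pool Pool.MP_0eac64_mp

namespace Pool.Agent.S15671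

/-- For every Cantor group with a minimal translation by α, some dense set of continuous real f exists such that, for Haar-a.e. ω, the ℓ² eigenvectors of the Schrödinger operator with potential f(ω+nα) span a dense subspace of ℓ²(ℤ). -/
theorem result :
    ∀ (Ω : Type) [AddCommGroup Ω] [TopologicalSpace Ω] [IsTopologicalAddGroup Ω]
      [CompactSpace Ω] [T2Space Ω] [TotallyDisconnectedSpace Ω]
      [TopologicalSpace.MetrizableSpace Ω] [Infinite Ω]
      [MeasurableSpace Ω] [BorelSpace Ω]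
      (μ : Measure Ω) [μ.IsAddHaarMeasure] (α : Ω),
      Dense (Set.range (fun n : ℤ => n • α)) →
      ∃ D : Set C(Ω, ℝ), Dense D ∧
        ∀ f ∈ D, ∀ᵐ ω ∂μ,
          (Submodule.span ℂ
            {ψ : lp (fun _ : ℤ => ℂ) 2 |
              ∃ E : ℝ, ∀ n : ℤ,
                ψ (n + 1) + ψ (n - 1) + (f (ω + n • α) : ℂ) * ψ n = (E : ℂ) * ψ n}
            ).topologicalClosure = ⊤ := by
  intro Ω _ _ _ _ _ _ _ _ _ _ μ _ α hα
  open Pool.Agent.W641.LP Pool.Agent.W85 Pool.Agent.W810.PP in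
  have hSAP := taskSAP taskSA
  have hContr := Pool.Agent.W641.LP.taskContr Pool.Agent.W641.LP.taskIso
    Pool.Agent.W641.LP.taskAvg Pool.Agent.W85.LPD.taskDich
  have hJ := Pool.Agent.W85.LPJ.taskJ Pool.Agent.W641.LP.taskIso Pool.Agent.W641.LP.taskAvg hContr
  have hG1 := Pool.Agent.W641.LP.taskG1 hSAP (Pool.Agent.W85.LPFE.taskFE hJ)
  have hG2 := Pool.Agent.W810.PP.taskG2 hSAP Pool.Agent.W641.LP.taskClosed2
    Pool.Agent.W810.PP.taskCard (Pool.Agent.W810.PP.taskSplit Pool.Agent.W810.PP.taskApprox)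
  have hM := Pool.Agent.W641.LP.taskMeas Pool.Agent.W641.LP.taskClosed
    Pool.Agent.W641.LP.taskClosed2
  exact ⟨_, Pool.Agent.W810.PP.assemble hG1 hG2 hM Pool.Agent.W810.PP.taskDelta
    Pool.Agent.W810.PP.taskTop Pool.Agent.H853R3.PP.Resample.taskResample
    Pool.Agent.W810.PP.taskTransfer Pool.Agent.W810.PP.taskGroup Pool.Agent.W810.PP.taskNum
    Ω μ α hα, fun f hf => hf⟩

end Pool.Agent.S15671
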