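import Pool.Statements.S15705
import Pool.Agent.H443CC.Bridge
import Pool.Agent.H443CC.Circle3

set_option autoImplicit false
open Filter
open Pool Pool.MP_3d42b9_mp

namespace Pool.Agent.S15705

/-- For 9 ≤ N ≤ e^73, any limit of planar central configurations with masses (1,ε_k,…,ε_k), ε_k→0, whose N small bodies have distinct limits has those N limit points forming the vertices of a regular N-gon. -/
theorem result :
    ∀ N : ℕ, 9 ≤ N → (N : ℝ) ≤ Real.exp 73 →
    ∀ x : Fin (N + 1) → ℂ,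
      (∃ ε : ℕ → ℝ, ∃ q : ℕ → Fin (N + 1) → ℂ,
        (∀ k, 0 < ε k) ∧ Tendsto ε atTop (nhds 0) ∧
        (∀ k, Function.Injective (q k) ∧
          ∃ lam : ℝ, ∀ i : Fin (N + 1),
            (lam : ℂ) * (q k i -
              (∑ j : Fin (N + 1), (((if j = 0 then (1 : ℝ) else ε k) : ℝ) : ℂ) * q k j)
                / (((1 + (N : ℝ) * ε k) : ℝ) : ℂ)) =
            ∑ j ∈ Finset.univ.erase i,
              ((((if j = 0 then (1 : ℝ) else ε k) / ‖q k i - q k j‖ ^ 3 : ℝ)) : ℂ)
                * (q k i - q k j)) ∧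
        Tendsto q atTop (nhds x)) →
      Function.Injective (fun i : Fin N => x i.succ) →
      ∃ c r : ℂ, r ≠ 0 ∧ ∃ σ : Equiv.Perm (Fin N), ∀ k : Fin N,
        x (σ k).succ = c + r * Complex.exp (2 * (Real.pi : ℂ) * Complex.I * ((k : ℕ) : ℂ) / (N : ℂ)) := by
  intro N hN _ x hx hinj
  obtain ⟨ε, q, hε, hε0, hcc, hlim⟩ := hx
  have hmass : ∀ (e : ℝ) (j : Fin (N + 1)),
      Pool.Agent.H443CC.masses N e j = if j = 0 then (1 : ℝ) else e := by
    intro e j
    refine Fin.cases ?_ (fun i => ?_) j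
    · simp [Pool.Agent.H443CC.masses]
    · simp [Pool.Agent.H443CC.masses, Fin.succ_ne_zero]
  have hsum : ∀ e : ℝ, ∑ j : Fin (N + 1), Pool.Agent.H443CC.masses N e j = 1 + (N : ℝ) * e := by
    intro e
    rw [Fin.sum_univ_succ]
    simp [Pool.Agent.H443CC.masses]
  have hcm : ∀ k, Pool.Agent.H443CC.centerOfMass (Pool.Agent.H443CC.masses N (ε k)) (q k) =
      (∑ j : Fin (N + 1), (((if j = 0 then (1 : ℝ) else ε k) : ℝ) : ℂ) * q k j)
                / (((1 + (N : ℝ) * ε k) : ℝ) : ℂ) := by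
    intro k
    unfold Pool.Agent.H443CC.centerOfMass
    rw [hsum, Complex.real_smul, div_eq_inv_mul, Complex.ofReal_inv]
    congr 1
    refine Finset.sum_congr rfl fun j _ => ?_
    rw [hmass, Complex.real_smul]
  have hQ : Pool.Agent.H443CC.IsLimitingCC N x := by
    refine ⟨ε, q, hε, hε0, fun k => ⟨(hcc k).1, ?_⟩, fun i => ?_⟩
    · obtain ⟨lam, hlam⟩ := (hcc k).2
      refine ⟨lam, fun i => ?_⟩
      rw [hcm k, Complex.real_smul, hlam i]
      refine Finset.sum_congr rfl fun j _ => ?_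
      rw [hmass, Complex.real_smul, div_eq_mul_inv]
    · exact (tendsto_pi_nhds.1 hlim) i
  have hnc : Pool.Agent.H443CC.NonCoalescent N x := by
    intro i j hij h
    exact hij (hinj h)
  obtain ⟨a, σ, ha, hσ⟩ := Pool.Agent.H443CC.main_of_circle (by omega)
    (fun θ hmono hper r hr hsin hcos heq i =>
      Pool.Agent.H443CC.circle_main3 hN hmono hper hr hsin hcos heq i) x hQ hnc
  exact ⟨x 0, a, ha, σ, fun k => hσ k⟩

end Pool.Agent.S15705
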