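import Pool.Statements.S15713
import Pool.Agent.W811.Stu.Final

set_option autoImplicit false
open MeasureTheory
open Pool Pool.MP_434a90_mp

namespace Pool.Agent.S15713

/-- For each λ>0 there is a constant d such that, for Lebesgue-almost every α in (0,1), the spectrum of the Sturmian operator u(n+1)+u(n−1)+λ(⌊(n+1)α⌋−⌊nα⌋)u(n) on ℓ²(ℤ) has Hausdorff dimension d. -/
theorem result :
    ∀ lam : ℝ, 0 < lam →
      ∃ d : ENNReal,
        ∀ᵐ α ∂(volume.restrict (Set.Ioo (0:ℝ) 1)),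
          ∀ T : lp (fun _ : ℤ => ℂ) 2 →L[ℂ] lp (fun _ : ℤ => ℂ) 2,
            (∀ (u : lp (fun _ : ℤ => ℂ) 2) (n : ℤ),
              (T u) n = u (n + 1) + u (n - 1)
                + ((lam * ((⌊((n:ℝ) + 1) * α⌋ - ⌊(n:ℝ) * α⌋ : ℤ) : ℝ) : ℝ) : ℂ) * u n) →
            dimH {E : ℝ | (E : ℂ) ∈ spectrum ℂ T} = d :=
  Pool.Agent.W811.Stu.tFinH

end Pool.Agent.S15713
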