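import Pool.Statements.S15743
import Pool.Agent.W745.Fib.Fin

set_option autoImplicit false
open Pool Pool.MP_7b2354_mp

namespace Pool.Agent.S15743

/-- For q ≥ 0, the Hausdorff dimension of the spectrum of the Fibonacci Hamiltonian with coupling q (spectrum written as the set of energies having approximate eigenvectors) is non-increasing in q. -/
theorem result :
    AntitoneOn
      (fun q : ℝ => dimH {E : ℝ | ∀ ε : ℝ, ε > 0 → ∃ N : ℕ, ∃ ψ : ℤ → ℝ,
        (∀ n : ℤ, n ∉ Finset.Icc (-(N : ℤ)) (N : ℤ) → ψ n = 0) ∧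
        (∑ n ∈ Finset.Icc (-(N : ℤ) - 1) ((N : ℤ) + 1),
            (ψ (n + 1) + ψ (n - 1)
              + (if 1 - (Real.sqrt 5 - 1) / 2 ≤ Int.fract ((n : ℝ) * ((Real.sqrt 5 - 1) / 2))
                  then q else 0) * ψ n
              - E * ψ n) ^ 2
          < ε ^ 2 * ∑ n ∈ Finset.Icc (-(N : ℤ)) (N : ℤ), ψ n ^ 2)})
      (Set.Ici (0 : ℝ)) := by
  exact Pool.Agent.W745.Fib.fs_anti

end Pool.Agent.S15743
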