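import Pool.Statements.S15753
import Pool.Agent.W734.TWB.All

set_option autoImplicit false
open Pool Pool.MP_8a06e3_mp

namespace Pool.Agent.S15753

/-- For all admissible trap V_ext, even pair potential W and symmetric three-body V, the bosonic ground energy per particle E_N/N tends to the Gross–Pitaevskii energy with couplings b(W) and b_M(V); all infima are taken over smooth compactly supported functions. -/
theorem result :
  ∀ (Vext : EuclideanSpace ℝ (Fin 3) → ℝ) (W : EuclideanSpace ℝ (Fin 3) → ℝ)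
    (V : EuclideanSpace ℝ (Fin 3) × EuclideanSpace ℝ (Fin 3) → ℝ),
    Measurable Vext →
    (∀ K : Set (EuclideanSpace ℝ (Fin 3)), IsCompact K → ∃ M : ℝ, ∀ x ∈ K, |Vext x| ≤ M) →
    (∃ C α : ℝ, 0 < C ∧ 0 < α ∧ ∀ x, C * ‖x‖ ^ α ≤ Vext x) →
    Measurable W → (∀ x, W (-x) = W x) → (∀ x, 0 ≤ W x) → (∃ M : ℝ, ∀ x, W x ≤ M) →
    HasCompactSupport W →
    Measurable V → (∀ p, 0 ≤ V p) → (∃ M : ℝ, ∀ p, V p ≤ M) → HasCompactSupport V →
    (∀ x y, V (x, y) = V (y, x)) →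
    (∀ x y z, V (x - y, x - z) = V (y - x, y - z) ∧ V (x - y, x - z) = V (z - y, z - x)) →
    Filter.Tendsto
      (fun N : ℕ =>
        sInf {E : ℝ | ∃ ψ : (Fin N → EuclideanSpace ℝ (Fin 3)) → ℂ,
          ContDiff ℝ ((⊤ : ℕ∞) : WithTop ℕ∞) ψ ∧ HasCompactSupport ψ ∧
          (∀ σ : Equiv.Perm (Fin N), ∀ x, ψ (x ∘ σ) = ψ x) ∧
          ∫ x, ‖ψ x‖ ^ 2 = 1 ∧
          E = ∫ x, (∑ i : Fin N, ∑ k : Fin 3,
                  ‖fderiv ℝ ψ x (Pi.single i (EuclideanSpace.single k (1 : ℝ)))‖ ^ 2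
                + (∑ i : Fin N, Vext (x i)) * ‖ψ x‖ ^ 2
                + (∑ i : Fin N, ∑ j ∈ Finset.Ioi i,
                    (N : ℝ) ^ 2 * W ((N : ℝ) • (x i - x j))) * ‖ψ x‖ ^ 2
                + (∑ i : Fin N, ∑ j ∈ Finset.Ioi i, ∑ k ∈ Finset.Ioi j,
                    (N : ℝ) * V (Real.sqrt N • (x i - x j), Real.sqrt N • (x i - x k)))
                    * ‖ψ x‖ ^ 2)} / N)
      Filter.atTop
      (nhds (sInf {E : ℝ | ∃ u : EuclideanSpace ℝ (Fin 3) → ℂ,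
          ContDiff ℝ ((⊤ : ℕ∞) : WithTop ℕ∞) u ∧ HasCompactSupport u ∧
          ∫ x, ‖u x‖ ^ 2 = 1 ∧
          E = ∫ x, (∑ k : Fin 3, ‖fderiv ℝ u x (EuclideanSpace.single k (1 : ℝ))‖ ^ 2
                + Vext x * ‖u x‖ ^ 2
                + (sInf {B : ℝ | ∃ φ : EuclideanSpace ℝ (Fin 3) → ℂ,
                      ContDiff ℝ ((⊤ : ℕ∞) : WithTop ℕ∞) φ ∧ HasCompactSupport φ ∧
                      B = ∫ y, (2 * ∑ k : Fin 3,
                          ‖fderiv ℝ φ y (EuclideanSpace.single k (1 : ℝ))‖ ^ 2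
                        + W y * ‖1 - φ y‖ ^ 2)}) / 2 * ‖u x‖ ^ 4
                + (sInf {B : ℝ | ∃ φ : EuclideanSpace ℝ (Fin 3) × EuclideanSpace ℝ (Fin 3) → ℂ,
                      ContDiff ℝ ((⊤ : ℕ∞) : WithTop ℕ∞) φ ∧ HasCompactSupport φ ∧
                      B = ∫ p, ((∑ k : Fin 3,
                          (‖fderiv ℝ φ p (EuclideanSpace.single k (1 : ℝ), 0)‖ ^ 2
                          + ‖fderiv ℝ φ p (0, EuclideanSpace.single k (1 : ℝ))‖ ^ 2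
                          + ‖fderiv ℝ φ p (EuclideanSpace.single k (1 : ℝ),
                                EuclideanSpace.single k (1 : ℝ))‖ ^ 2))
                        + V p * ‖1 - φ p‖ ^ 2)}) / 6 * ‖u x‖ ^ 6)})) := by
  intro Vext W V h1 h2 h3 h4 h5 h6 h7 h8 h9 h10 h11 h12 h13 h14
  exact Pool.Agent.W734.TWB.main_lim Pool.Agent.W734.TWB.p_low Pool.Agent.W734.TWB.p_up Vext W V
    ⟨h1, h2, h3⟩ ⟨h4, h5, h6, h7, h8⟩ ⟨h9, h10, h11, h12, h13, h14⟩


end Pool.Agent.S15753
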