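import Pool.Statements.S15775
import Pool.Agent.W106.MN.Fin
-- import your own Pool.Agent.* helpers here

set_option autoImplicit false
open Pool Pool.MP_ac15a8_mp

namespace Pool.Agent.S15775

/-- For any unit vector ψ in C^a⊗C^b⊗C^c, with N(X)=sum of (∣λ∣−λ) over eigenvalues of a Hermitian X, N(Tr_B ρ^Γ)²+N(Tr_C ρ^Γ)² ≤ N(ρ^Γ)², where ρ^Γ is the partial transpose on A of ∣ψ⟩⟨ψ∣. -/
theorem result :
    ∀ (a b c : ℕ) (ψ : Fin a × Fin b × Fin c → ℂ), ∑ x, ‖ψ x‖ ^ 2 = 1 →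
    ∀ (hG : (Matrix.of fun (x y : Fin a × Fin b × Fin c) =>
              ψ (y.1, x.2.1, x.2.2) * star (ψ (x.1, y.2.1, y.2.2))).IsHermitian)
      (hB : (Matrix.of fun (x y : Fin a × Fin c) =>
              ∑ j : Fin b, ψ (y.1, j, x.2) * star (ψ (x.1, j, y.2))).IsHermitian)
      (hC : (Matrix.of fun (x y : Fin a × Fin b) =>
              ∑ k : Fin c, ψ (y.1, x.2, k) * star (ψ (x.1, y.2, k))).IsHermitian),
    (∑ i, (|hB.eigenvalues i| - hB.eigenvalues i)) ^ 2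
      + (∑ i, (|hC.eigenvalues i| - hC.eigenvalues i)) ^ 2
      ≤ (∑ i, (|hG.eigenvalues i| - hG.eigenvalues i)) ^ 2 := by
  intro a b c ψ _ hG hB hC
  exact Pool.Agent.W106.MN.main (A := Fin a) (B := Fin b) (C := Fin c)
    (fun i β => ψ (i, β)) hG hB hC

end Pool.Agent.S15775
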