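import Pool.Statements.S15818
import Pool.Agent.Results.MP_e9ba27_mp.TwoTopological

set_option autoImplicit false
open Pool Pool.MP_e9ba27_mp

namespace Pool.Agent.S15818

open Pool.Agent.Results.MP_e9ba27_mp.TwoTopological Laplacian InnerProductSpace in
/-- a topological solution in the sense of the starting result has the properties listed in the
frozen statement -/
theorem of_isTopological {lam : ℝ} {N : ℕ} {p : Fin N → EuclideanSpace ℝ (Fin 2)} {n : Fin N → ℕ}
    {u : EuclideanSpace ℝ (Fin 2) → ℝ} (h : IsTopological lam p n u) :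
    ContDiffOn ℝ 2 u {x | ∀ j, x ≠ p j} ∧
      (∀ x, (∀ j, x ≠ p j) →
        ∑ i : Fin 2, iteratedFDeriv ℝ 2 u x
          ![EuclideanSpace.single i (1 : ℝ), EuclideanSpace.single i (1 : ℝ)]
          = lam * Real.exp (u x) * (Real.exp (u x) - 1)) ∧
      (∀ j, ∃ δ > 0, ∃ C : ℝ, ∀ x, 0 < ‖x - p j‖ → ‖x - p j‖ < δ →
        |u x - 2 * (n j : ℝ) * Real.log ‖x - p j‖| ≤ C) ∧
      Filter.Tendsto u (Filter.cocompact _) (nhds 0) := by
  refine ⟨contDiffOn_infty.1 h.smooth 2, fun x hx => ?_, fun j => ?_, h.decay⟩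
  · rw [← h.pointwise x hx,
      congrFun (laplacian_eq_iteratedFDeriv_orthonormalBasis u (EuclideanSpace.basisFun (Fin 2) ℝ)) x]
    simp
  · obtain ⟨r, hr, w, hw, hu⟩ := h.local_form j
    have hc : ContinuousOn w (Metric.closedBall (p j) (r / 2)) :=
      hw.continuousOn.mono (Metric.closedBall_subset_ball (by linarith))
    obtain ⟨C, hC⟩ := (isCompact_closedBall (p j) (r / 2)).exists_bound_of_continuousOn hc
    refine ⟨r / 2, by linarith, C, fun x h0 h1 => ?_⟩
    have hne : x ≠ p j := by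
      rintro rfl
      simp at h0
    have hx : x ∈ Metric.ball (p j) r := by
      rw [Metric.mem_ball, dist_eq_norm]; linarith
    rw [hu x hx hne, add_sub_cancel_left]
    have := hC x (by rw [Metric.mem_closedBall, dist_eq_norm]; linarith)
    simpa [Real.norm_eq_abs] using this

/-- The negation of the preceding statement: For λ>0, distinct points p_j in the plane and multiplicities m_j≥1, any two solutions of Δu = λe^u(e^u−1) off the p_j with u ~ 2m_j log∣x−p_j∣ near p_j and u→0 at infinity coincide. -/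
theorem result :
    ¬ (∀ (lam : ℝ), 0 < lam → ∀ (N : ℕ) (p : Fin N → EuclideanSpace ℝ (Fin 2)) (m : Fin N → ℕ),
      Function.Injective p → (∀ j, 1 ≤ m j) →
      ∀ u v : EuclideanSpace ℝ (Fin 2) → ℝ,
        (ContDiffOn ℝ 2 u {x | ∀ j, x ≠ p j} ∧
          (∀ x, (∀ j, x ≠ p j) →
            ∑ i : Fin 2, iteratedFDeriv ℝ 2 u x
              ![EuclideanSpace.single i (1 : ℝ), EuclideanSpace.single i (1 : ℝ)]
              = lam * Real.exp (u x) * (Real.exp (u x) - 1)) ∧
          (∀ j, ∃ δ > 0, ∃ C : ℝ, ∀ x, 0 < ‖x - p j‖ → ‖x - p j‖ < δ →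
            |u x - 2 * (m j : ℝ) * Real.log ‖x - p j‖| ≤ C) ∧
          Filter.Tendsto u (Filter.cocompact _) (nhds 0)) →
        (ContDiffOn ℝ 2 v {x | ∀ j, x ≠ p j} ∧
          (∀ x, (∀ j, x ≠ p j) →
            ∑ i : Fin 2, iteratedFDeriv ℝ 2 v x
              ![EuclideanSpace.single i (1 : ℝ), EuclideanSpace.single i (1 : ℝ)]
              = lam * Real.exp (v x) * (Real.exp (v x) - 1)) ∧
          (∀ j, ∃ δ > 0, ∃ C : ℝ, ∀ x, 0 < ‖x - p j‖ → ‖x - p j‖ < δ →
            |v x - 2 * (m j : ℝ) * Real.log ‖x - p j‖| ≤ C) ∧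
          Filter.Tendsto v (Filter.cocompact _) (nhds 0)) →
        ∀ x, (∀ j, x ≠ p j) → u x = v x) := by
  intro H
  obtain ⟨N, p, n, hp, hn, u, v, hu, hv, x, hx, hne⟩ :=
    Pool.Agent.Results.MP_e9ba27_mp.TwoTopological.result 1 one_pos
  exact hne (H (4 / 1 ^ 2) (by norm_num) N p n hp hn u v (of_isTopological hu)
    (of_isTopological hv) x hx)

end Pool.Agent.S15818
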