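import Pool.Statements.S15859
import Pool.Agent.Results.MP_024ca5_nt.DistanceTwoFace

set_option autoImplicit false
open Matrix
open Pool Pool.MP_024ca5_nt

namespace Pool.Agent.S15859

open Pool.Agent.Results.MP_024ca5_nt.DistanceTwoFace
open Pool.Agent.Results.MP_024ca5_nt.DistanceTwoFace.KCore
open Pool.Agent.Results.MP_024ca5_nt.DistanceTwoFace.Eigen

/-- For every A in SL(3,Z) with irreducible characteristic polynomial having three real roots, and every one of the 8 eigen-cones, the sail has a 2-dimensional face whose plane f=c (f primitive integer form) has integer distance c at least 2. -/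
theorem result :
    ∀ A : Matrix (Fin 3) (Fin 3) ℤ, A.det = 1 →
      Irreducible (A.charpoly.map (Int.castRingHom ℚ)) →
      (A.charpoly.map (Int.castRingHom ℝ)).roots.card = 3 →
      ∀ (μ : Fin 3 → ℝ) (v : Fin 3 → (Fin 3 → ℝ)),
        Function.Injective μ →
        (∀ i, v i ≠ 0) →
        (∀ i, (A.map (Int.cast : ℤ → ℝ)) *ᵥ v i = μ i • v i) →
        ∀ K : Set (Fin 3 → ℤ),
          K = {x : Fin 3 → ℤ | x ≠ 0 ∧
                ∃ t : Fin 3 → ℝ, (∀ i, 0 ≤ t i) ∧
                  (fun j => (x j : ℝ)) = ∑ i, t i • v i} →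
          ∃ f : Fin 3 → ℤ, (∀ d : ℤ, (∀ i, d ∣ f i) → IsUnit d) ∧
            ∃ c : ℤ, 2 ≤ c ∧
              (∀ x ∈ K, c ≤ f ⬝ᵥ x) ∧
              ∃ p ∈ K, ∃ q ∈ K, ∃ r ∈ K,
                f ⬝ᵥ p = c ∧ f ⬝ᵥ q = c ∧ f ⬝ᵥ r = c ∧
                LinearIndependent ℤ ![q - p, r - p] := by
  intro A hdet hirr _ lam w hinj hw0 hw K hK
  let E : EigenData A := ⟨lam, w, hinj, hw0, hw⟩
  by_contra hcon
  have hLne : ∀ z : IVec, z ≠ 0 → ∀ i, E.L i z ≠ 0 := by
    intro z hz i h0
    have h1 := E.norm_ge hirr z hz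
    have h2 : 0 < |Ldet E.L| / |E.vand| := div_pos (abs_pos.mpr E.ldet) (abs_pos.mpr E.vand_ne)
    have h3 : E.L 0 z * E.L 1 z * E.L 2 z = 0 := by
      fin_cases i <;> simp at h0 <;> simp [h0]
    rw [h3, abs_zero] at h1
    linarith
  have hmem : ∀ z : IVec, (∀ i, 0 < E.L i z) → z ∈ K := by
    intro z hz
    rw [hK]
    refine ⟨?_, fun i => E.co i (rv z), fun i => (hz i).le, ?_⟩
    · rintro rfl
      have h1 := hz 0
      rw [map_zero] at h1
      exact lt_irrefl _ h1
    · rw [Fin.sum_univ_three]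
      exact E.sum_co (rv z)
  have hmem' : ∀ z ∈ K, ∀ i, 0 < E.L i z := by
    intro z hz i
    rw [hK] at hz
    obtain ⟨hz0, t, ht, hzt⟩ := hz
    have h1 : E.L i z = t i := by
      rw [EigenData.L_apply]
      have h3 : rv z = ∑ j, t j • w j := hzt
      rw [h3, map_sum]
      simp only [map_smul, smul_eq_mul]
      have h2 : ∀ j, E.co i (w j) = if i = j then 1 else 0 := fun j => E.co_w i j
      simp only [h2]
      simp
    exact lt_of_le_of_ne (h1 ▸ ht i) (hLne z hz0 i).symm
  have hdot : ∀ g y : IVec, g ⬝ᵥ y = dotp g y := by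
    intro g y
    simp [dotProduct, dotp, Fin.sum_univ_three]
  apply Setup.contradiction (E.setup hirr ?_)
  intro g k hprim hk hge a b c ha hb hc hga hgb hgc hdet3
  apply hcon
  refine ⟨g, fun d hd => hprim d (hd 0) (hd 1) (hd 2), k, hk, ?_, a, hmem a ha, b, hmem b hb, c,
    hmem c hc, ?_, ?_, ?_, ?_⟩
  · intro x hx
    rw [hdot]
    exact hge x (hmem' x hx)
  · rw [hdot, hga]
  · rw [hdot, hgb]
  · rw [hdot, hgc]
  · rw [LinearIndependent.pair_iff]
    intro s t hst
    have h0 := congrFun hst 0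
    have h1 := congrFun hst 1
    have h2 := congrFun hst 2
    simp only [Pi.add_apply, Pi.smul_apply, Pi.sub_apply, smul_eq_mul, Pi.zero_apply] at h0 h1 h2
    have hs : s * det3 a b c = 0 := by
      simp only [det3]
      linear_combination (c 1 * a 2 - c 2 * a 1) * h0 + (c 2 * a 0 - c 0 * a 2) * h1 +
        (c 0 * a 1 - c 1 * a 0) * h2
    have ht : t * det3 a b c = 0 := by
      simp only [det3]
      linear_combination (a 1 * b 2 - a 2 * b 1) * h0 + (a 2 * b 0 - a 0 * b 2) * h1 +
        (a 0 * b 1 - a 1 * b 0) * h2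
    constructor
    · rcases mul_eq_zero.mp hs with h | h
      · exact h
      · exact absurd h hdet3
    · rcases mul_eq_zero.mp ht with h | h
      · exact h
      · exact absurd h hdet3

end Pool.Agent.S15859
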