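-- Frozen statement S15943, derived from the starting result MP_096b72_nt/QOne.
import Pool.Statements.S15943
import Pool.Agent.Results.MP_096b72_nt.QOne

set_option autoImplicit false
open Pool Pool.MP_096b72_nt

namespace Pool.Agent.S15943

/-- if `x / p^3` has denominator prime to `p`, then `x = 0` or `v_p(x) ≥ 3` -/
theorem val_of_den {p : ℕ} (hp : p.Prime) (x : ℚ) (h : ¬ p ∣ (x / (p : ℚ) ^ 3).den) :
    x = 0 ∨ 3 ≤ padicValRat p x := by
  have : Fact p.Prime := ⟨hp⟩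
  by_cases hx : x = 0
  · exact Or.inl hx
  · right
    have hp0 : (p : ℚ) ≠ 0 := by exact_mod_cast hp.ne_zero
    set y : ℚ := x / (p : ℚ) ^ 3 with hy
    have hy0 : y ≠ 0 := div_ne_zero hx (pow_ne_zero 3 hp0)
    have hxy : x = (p : ℚ) ^ 3 * y := by rw [hy]; field_simp
    have h1 : padicValRat p x = 3 + padicValRat p y := by
      rw [hxy, padicValRat.mul (pow_ne_zero 3 hp0) hy0, padicValRat.pow, padicValRat.self hp.one_lt]
      norm_num
    have h2 : 0 ≤ padicValRat p y := by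
      rw [padicValRat_def, padicValNat.eq_zero_of_not_dvd h]
      simp
    omega

/-- For every prime p>3 and a≥1, (1/p^a)·Σ_{k<p^a}(5k+1)C(2k,k)^2C(3k,k)/(-192)^k minus [(p^a/3) + (p^{a-1}/3)·(5/18)·p^2·B_{p-2}(1/3)] is 0 or has p-adic valuation at least 3. -/
theorem result :
    ∀ p : ℕ, p.Prime → 3 < p → ∀ a : ℕ, 1 ≤ a →
      ∀ T R : ℚ,
        T = (1 / (p : ℚ) ^ a) *
          ∑ k ∈ Finset.range (p ^ a),
            (5 * (k : ℚ) + 1) / (-192 : ℚ) ^ k *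
              (((Nat.choose (2 * k) k : ℕ) : ℚ) ^ 2 * ((Nat.choose (3 * k) k : ℕ) : ℚ)) →
        R = ((jacobiSym ((p : ℤ) ^ a) 3 : ℤ) : ℚ) +
          ((jacobiSym ((p : ℤ) ^ (a - 1)) 3 : ℤ) : ℚ) * (5 / 18 : ℚ) * (p : ℚ) ^ 2 *
            (Polynomial.bernoulli (p - 2)).eval (1 / 3 : ℚ) →
        T - R = 0 ∨ 3 ≤ padicValRat p (T - R) := by
  intro p hp h3 a ha T R hT hR
  apply val_of_den hp
  have key := Pool.Agent.Results.MP_096b72_nt.QOne.result p a hp h3 ha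
  have : Fact (Nat.Prime 3) := ⟨Nat.prime_three⟩
  have e1 : jacobiSym ((p : ℤ) ^ a) 3 = legendreSym 3 ((p : ℤ) ^ a) := by
    rw [← jacobiSym.legendreSym.to_jacobiSym]
  have e2 : jacobiSym ((p : ℤ) ^ (a - 1)) 3 = legendreSym 3 ((p : ℤ) ^ (a - 1)) := by
    rw [← jacobiSym.legendreSym.to_jacobiSym]
  rw [e1, e2] at hR
  have hT' : T = 1 / (p:ℚ)^a * ∑ k ∈ Finset.range (p^a),
        (5 * (k:ℚ) + 1) / (-192)^k * ((2*k).choose k : ℚ)^2 * ((3*k).choose k : ℚ) := by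
    rw [hT]
    congr 1
    apply Finset.sum_congr rfl
    intro k _
    ring
  rw [hT', hR]
  exact key

end Pool.Agent.S15943
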