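import Pool.Statements.S16177
import Pool.Agent.Results.MP_189914_nt.LevineOSullivan

set_option autoImplicit false
open Pool Pool.MP_189914_nt

namespace Pool.Agent.S16177

/-- Let χ be the greedy sequence with χ1 = 1 and χi = max over 1≤j<i of (j+1)(i−χj). Then every integer sequence with a_i + (j+1)a_j ≥ (j+1)i for all i,j ≥ 1 has sum of 1/a_k (possibly infinite) at most the sum of 1/χ_k. -/
theorem result :
    ∀ χ : ℕ → ℤ, χ 1 = 1 →
      (∀ i : ℕ, 2 ≤ i →
        (∀ j : ℕ, 1 ≤ j → j < i → ((j : ℤ) + 1) * ((i : ℤ) - χ j) ≤ χ i) ∧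
        (∃ j : ℕ, 1 ≤ j ∧ j < i ∧ χ i = ((j : ℤ) + 1) * ((i : ℤ) - χ j))) →
      ∀ a : ℕ → ℤ,
        (∀ i j : ℕ, 1 ≤ i → 1 ≤ j → ((j : ℤ) + 1) * (i : ℤ) ≤ a i + ((j : ℤ) + 1) * a j) →
        (∑' k : ℕ, (((a (k + 1)).toNat : ENNReal))⁻¹) ≤
          ∑' k : ℕ, (((χ (k + 1)).toNat : ENNReal))⁻¹ := by
  intro χ h1 hrec a ha
  have hχ : ∀ k, 1 ≤ k → χ k = Pool.Agent.Helper890.chi k := by
    intro k
    induction k using Nat.strong_induction_on with
    | _ k ih =>
      intro hk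
      rcases Nat.lt_or_ge k 2 with h | h
      · have h2 : k = 1 := by omega
        subst h2
        rw [h1, Pool.Agent.Results.MP_189914_nt.LevineOSullivan.chi_at_one]
      · obtain ⟨hub, j, hj1, hj2, hj⟩ := hrec k h
        have hg := Pool.Agent.Results.MP_189914_nt.LevineOSullivan.chi_recursion k h
        apply le_antisymm
        · rw [hj, ih j hj2 hj1]
          exact hg.2 ⟨j, hj1, hj2, rfl⟩
        · obtain ⟨j', a1, a2, a3⟩ := hg.1
          rw [a3, ← ih j' a2 a1]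
          exact hub j' a1 a2
  obtain ⟨hp, hcp, hs1, hs2, hle⟩ :=
    Pool.Agent.Results.MP_189914_nt.LevineOSullivan.result a ha
  have key : ∀ b : ℕ → ℤ, (∀ k, 1 ≤ k → 0 < b k) →
      Summable (fun k : ℕ => 1 / (b (k + 1) : ℝ)) →
      (∑' k : ℕ, (((b (k + 1)).toNat : ENNReal))⁻¹) =
        ENNReal.ofReal (∑' k : ℕ, 1 / (b (k + 1) : ℝ)) := by
    intro b hb hs
    rw [ENNReal.ofReal_tsum_of_nonneg _ hs]
    · refine tsum_congr fun k => ?_
      have hk := hb (k + 1) (by omega)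
      obtain ⟨m, hm⟩ := Int.eq_ofNat_of_zero_le hk.le
      rw [hm] at hk ⊢
      have hm0 : 0 < m := by exact_mod_cast hk
      have hm1 : (0 : ℝ) < (m : ℝ) := by exact_mod_cast hm0
      rw [Int.toNat_natCast, one_div, Int.cast_natCast, ENNReal.ofReal_inv_of_pos hm1,
        ENNReal.ofReal_natCast]
    · intro k
      have h0 : (0 : ℝ) < (b (k + 1) : ℝ) := by exact_mod_cast hb (k + 1) (by omega)
      exact (one_div_pos.2 h0).le
  have hχ' : (∑' k : ℕ, (((χ (k + 1)).toNat : ENNReal))⁻¹) =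
      ∑' k : ℕ, (((Pool.Agent.Helper890.chi (k + 1)).toNat : ENNReal))⁻¹ :=
    tsum_congr fun k => by rw [hχ (k + 1) (by omega)]
  rw [hχ', key a hp hs1, key Pool.Agent.Helper890.chi hcp hs2]
  exact ENNReal.ofReal_le_ofReal hle

end Pool.Agent.S16177
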