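import Pool.Statements.S16186
import Pool.Agent.W70.LD.Usb
import Pool.Agent.W70.LD.Places

set_option autoImplicit false
open Pool Pool.MP_19fd7d_nt

namespace Pool.Agent.S16186

lemma exists_lift (K Q Ω : Type*) [Field K] [Field Q] [Field Ω] [Algebra K Q] [Algebra K Ω]
    [Algebra.IsAlgebraic K Q] [IsAlgClosed Ω] : Nonempty (Q →ₐ[K] Ω) := ⟨IsAlgClosed.lift⟩

open Pool.Agent.W70.LD in
/-- the union of the tower as an extension of the rationals -/
noncomputable def F₁ : IntermediateField (⊥ : IntermediateField ℚ (AlgebraicClosure ℚ))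
    (AlgebraicClosure ℚ) :=
  IntermediateField.extendScalars (bot_le : (⊥ : IntermediateField ℚ (AlgebraicClosure ℚ)) ≤ F₀)

open Pool.Agent.W70.LD in
lemma mem_F₁ (y : AlgebraicClosure ℚ) : y ∈ F₁ ↔ y ∈ F₀ := Iff.rfl

open Pool.Agent.W70.LD in
lemma isGalois_F₁ : IsGalois (⊥ : IntermediateField ℚ (AlgebraicClosure ℚ)) F₁ := by
  have hcl : IsAlgClosure (⊥ : IntermediateField ℚ (AlgebraicClosure ℚ)) (AlgebraicClosure ℚ) :=
    ⟨inferInstance, ⟨fun z => (Pool.Agent.H58P.alg_isIntegral _ z).isAlgebraic⟩⟩
  have hn : Normal (⊥ : IntermediateField ℚ (AlgebraicClosure ℚ)) (AlgebraicClosure ℚ) :=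
    IsAlgClosure.normal _ _
  have h1 : Normal (⊥ : IntermediateField ℚ (AlgebraicClosure ℚ)) F₁ := by
    rw [IntermediateField.normal_iff_forall_map_le']
    rintro σ z ⟨y, hy, rfl⟩
    exact F₀_conj (σ.restrictScalars ℚ) y hy
  exact ⟨⟩

/-- The negation of the preceding statement: If F in Q̄ is Galois over a number field K and has (USB) (for each rational map of degree at least 2, some c>0 leaves only finitely many points of F with canonical height below c), then F/K has finite local degree at infinitely many finite primes of K. -/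
theorem result :
    ¬ (∀ h : AlgebraicClosure ℚ → ℝ,
      (∀ β : AlgebraicClosure ℚ, h β =
        Real.log (((sInf {n : ℕ | 0 < n ∧ ∀ i : ℕ, ((n : ℚ) * (minpoly ℚ β).coeff i).den = 1} : ℕ) : ℝ) *
          (Polynomial.map (algebraMap ℚ ℂ) (minpoly ℚ β)).mahlerMeasure) /
          ((minpoly ℚ β).natDegree : ℝ)) →
    ∀ Φ : RatFunc (AlgebraicClosure ℚ) → AlgebraicClosure ℚ × AlgebraicClosure ℚ →
        AlgebraicClosure ℚ × AlgebraicClosure ℚ,
      (∀ (f : RatFunc (AlgebraicClosure ℚ)) (z : AlgebraicClosure ℚ × AlgebraicClosure ℚ),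
        Φ f z =
          (∑ i ∈ Finset.range (max f.num.natDegree f.denom.natDegree + 1),
              f.num.coeff i * z.1 ^ i * z.2 ^ (max f.num.natDegree f.denom.natDegree - i),
           ∑ i ∈ Finset.range (max f.num.natDegree f.denom.natDegree + 1),
              f.denom.coeff i * z.1 ^ i * z.2 ^ (max f.num.natDegree f.denom.natDegree - i))) →
    ∀ (K : IntermediateField ℚ (AlgebraicClosure ℚ)) [NumberField K]
      (F : IntermediateField K (AlgebraicClosure ℚ)),
      IsGalois K F →
      (∀ f : RatFunc (AlgebraicClosure ℚ),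
        2 ≤ max f.num.natDegree f.denom.natDegree →
        ∃ c : ℝ, 0 < c ∧
          Set.Finite {α : AlgebraicClosure ℚ | α ∈ F ∧ ∃ L : ℝ,
            Filter.Tendsto
              (fun n : ℕ => h (((Φ f)^[n] (α, 1)).1 / ((Φ f)^[n] (α, 1)).2) /
                ((max f.num.natDegree f.denom.natDegree : ℕ) : ℝ) ^ n)
              Filter.atTop (nhds L) ∧ L < c}) →
      Set.Infinite {v : IsDedekindDomain.HeightOneSpectrum (NumberField.RingOfIntegers K) |
        ∀ ι : AlgebraicClosure ℚ →ₐ[K] AlgebraicClosure (v.adicCompletion K),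
          FiniteDimensional (v.adicCompletion K)
            (IntermediateField.adjoin (v.adicCompletion K)
              (ι '' (F : Set (AlgebraicClosure ℚ))))}) := by
  intro H
  have hnf : NumberField (⊥ : IntermediateField ℚ (AlgebraicClosure ℚ)) :=
    { to_charZero := inferInstance
      to_finiteDimensional := inferInstance }
  have hinf := H Pool.Agent.H58W.hM (fun β => rfl)
    (fun f z => Pool.Agent.H58W.lift f.num f.denom (max f.num.natDegree f.denom.natDegree) z)
    (fun f z => rfl) ⊥ F₁ isGalois_F₁ (fun f hf => ⟨1, one_pos, by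
      have := Pool.Agent.W70.LD.usb f.num f.denom _ rfl hf (RatFunc.isCoprime_num_denom f)
      exact this⟩)
  apply hinf
  have hempty : ∀ v : IsDedekindDomain.HeightOneSpectrum (NumberField.RingOfIntegers
      (⊥ : IntermediateField ℚ (AlgebraicClosure ℚ))), ¬ ∀ ι : AlgebraicClosure ℚ →ₐ[(⊥ :
      IntermediateField ℚ (AlgebraicClosure ℚ))] AlgebraicClosure (v.adicCompletion
        (⊥ : IntermediateField ℚ (AlgebraicClosure ℚ))),
          FiniteDimensional (v.adicCompletion (⊥ : IntermediateField ℚ (AlgebraicClosure ℚ)))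
            (IntermediateField.adjoin
              (v.adicCompletion (⊥ : IntermediateField ℚ (AlgebraicClosure ℚ)))
              (ι '' (F₁ : Set (AlgebraicClosure ℚ)))) := by
    intro v h
    have halg : Algebra.IsAlgebraic (⊥ : IntermediateField ℚ (AlgebraicClosure ℚ))
      (AlgebraicClosure ℚ) := ⟨fun z => (Pool.Agent.H58P.alg_isIntegral _ z).isAlgebraic⟩
    obtain ⟨ι⟩ := exists_lift (⊥ : IntermediateField ℚ (AlgebraicClosure ℚ))
      (AlgebraicClosure ℚ) (AlgebraicClosure (v.adicCompletion
        (⊥ : IntermediateField ℚ (AlgebraicClosure ℚ))))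
    exact Pool.Agent.W70.LD.local_part _ F₁ (fun y hy => hy) v ι (h ι)
  refine Set.Finite.subset Set.finite_empty ?_
  intro v hv
  exact hempty v hv

end Pool.Agent.S16186
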