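import Pool.Statements.S16199
import Pool.Agent.W82.D12

set_option autoImplicit false
open Pool Pool.MP_1b9c20_nt

namespace Pool.Agent.S16199

/-- For every finite field F_q and all g, Δ in F_q(T) with Δ ≠ 0, the map x ↦ Tx + g x^q + Δ x^(q^2) on F_q(T) has at most q^2 preperiodic points. -/
theorem result :
    ∀ (K : Type) [Field K] [Fintype K] (g Δ : RatFunc K), Δ ≠ 0 →
      {x : RatFunc K | ∃ m n : ℕ, m < n ∧
          (fun y : RatFunc K => RatFunc.X * y + g * y ^ Fintype.card K
              + Δ * y ^ (Fintype.card K ^ 2))^[m] x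
            = (fun y : RatFunc K => RatFunc.X * y + g * y ^ Fintype.card K
              + Δ * y ^ (Fintype.card K ^ 2))^[n] x}.encard
        ≤ ((Fintype.card K ^ 2 : ℕ) : ℕ∞) := by
  intro K _ _ g Δ hΔ
  by_cases hK : Fintype.card K = 2
  · exact Pool.Agent.W82.bound_two hK g Δ hΔ
  · have hq : 3 ≤ Fintype.card K := by
      have := Fintype.one_lt_card (α := K)
      omega
    by_contra hcon
    obtain ⟨x, t, c, g', δ, hx, hind, hc, hδ, hrel⟩ := Pool.Agent.H209R3.stage00 g Δ hΔ hcon
    obtain ⟨p, hchar⟩ := CharP.exists K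
    obtain ⟨n, hp, hcard⟩ := FiniteField.card K p
    have hfact : Fact p.Prime := ⟨hp⟩
    have hchar2 : CharP (AlgebraicClosure K) p :=
      charP_of_injective_algebraMap (algebraMap K (AlgebraicClosure K)).injective p
    rw [hcard] at hq hrel
    exact Pool.Agent.H209R3.core p (n : ℕ) hq x hx hind t c g' δ hc hδ hrel

end Pool.Agent.S16199
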