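import Pool.Statements.S16253
import Pool.Agent.W32.T13
import Pool.Agent.W32.T14
import Pool.Agent.W32.T15
import Pool.Agent.W32.T16

set_option autoImplicit false
open Pool Pool.MP_1f269e_nt

namespace Pool.Agent.S16253

/-- Let t be the rational sequence with t(0)=1 whose self-convolution is T(n)=Σ C(n,j)²C(2j,n)C(n+j,j). Then for every prime p that is a square mod 7 (including p=7) and every n≥1, t(pn)−t(n) is 0 or has p-adic valuation at least 2. -/
theorem result :
    ∀ t : ℕ → ℚ, t 0 = 1 →
      (∀ n : ℕ, ∑ j ∈ Finset.range (n + 1), t j * t (n - j) =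
        ((∑ j ∈ Finset.range (n + 1),
            (n.choose j) ^ 2 * (2 * j).choose n * (n + j).choose j : ℕ) : ℚ)) →
      ∀ p : ℕ, p.Prime → IsSquare ((p : ZMod 7)) →
        ∀ n : ℕ, 0 < n →
          (t (p * n) - t n = 0 ∨ (2 : ℤ) ≤ padicValRat p (t (p * n) - t n)) := by
  intro t h0 h p hp hsq n hn
  obtain ⟨τ, hτ0, hτ, hτ2, hτs⟩ := Pool.Agent.W32.exists_int t h0 h
  have hA := Pool.Agent.W32.gen_sq hτs
  set A : PowerSeries ℤ := PowerSeries.mk τ with hAdef
  have h1 : PowerSeries.constantCoeff A = 1 := by
    rw [← PowerSeries.coeff_zero_eq_constantCoeff_apply, hAdef, PowerSeries.coeff_mk, hτ0]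
  obtain ⟨U, hU⟩ : ∃ U : PowerSeries ℤ, A * U = 1 := by
    have hu : IsUnit A := by
      rw [PowerSeries.isUnit_iff_constantCoeff, h1]
      exact isUnit_one
    exact hu.exists_right_inv
  have hpf : Fact p.Prime := ⟨hp⟩
  have key : ((p : ℤ) ^ 2) ∣ τ (p * n) - τ n := by
    have hc : ∀ m, PowerSeries.coeff m A = τ m := fun m => by rw [hAdef, PowerSeries.coeff_mk]
    rcases Nat.lt_or_ge p 11 with h11 | h11
    · interval_cases p
      · exact absurd hp (by norm_num)
      · exact absurd hp (by norm_num)
      · have := Pool.Agent.W32.main2 hτ0 hτ2 hτs (n := n) hn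
        exact_mod_cast this
      · exact absurd hsq (by decide)
      · exact absurd hp (by norm_num)
      · exact absurd hsq (by decide)
      · exact absurd hp (by norm_num)
      · have := Pool.Agent.W32.main7 h1 hA hU n
        rw [hc, hc] at this
        exact this
      · exact absurd hp (by norm_num)
      · exact absurd hp (by norm_num)
      · exact absurd hp (by norm_num)
    · obtain ⟨s, hs⟩ := Pool.Agent.W32.exists_sqrt_neg_seven (p := p) (by omega) (by omega) hsq
      have := Pool.Agent.W32.main11 h11 hs h1 hA hU n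
      rw [hc, hc] at this
      exact this
  rw [hτ, hτ]
  have h2 : ((τ (p * n) : ℚ) - (τ n : ℚ)) = ((τ (p * n) - τ n : ℤ) : ℚ) := by push_cast; rfl
  rw [h2]
  rcases (padicValInt_dvd_iff 2 _).1 key with h3 | h3
  · left
    rw [h3]; simp
  · right
    rw [padicValRat.of_int]
    exact_mod_cast h3

end Pool.Agent.S16253
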