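import Pool.Statements.S16490
import Pool.Agent.Results.MP_319fd9_nt.Aperiodic

set_option autoImplicit false
open Pool Pool.MP_319fd9_nt

namespace Pool.Agent.S16490

/-- The negation of the preceding statement: Every sum-free set of positive integers such that each sufficiently large integer is in the set or a sum of two of its elements is eventually periodic with some positive period. -/
theorem result :
    ¬ (∀ S : Set ℕ,
      (∀ s ∈ S, 0 < s) →
      (∀ s ∈ S, ∀ t ∈ S, s + t ∉ S) →
      (∃ N : ℕ, ∀ n : ℕ, N ≤ n → (n ∈ S ∨ ∃ s ∈ S, ∃ t ∈ S, s + t = n)) →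
      ∃ m : ℕ, 0 < m ∧ ∃ N : ℕ, ∀ n : ℕ, N ≤ n → (n ∈ S ↔ n + m ∈ S)) := by
  intro h
  obtain ⟨T, h1, h2, h3, h4⟩ := Pool.Agent.Results.MP_319fd9_nt.Aperiodic.result
  exact h4 (h T h1 h2 h3)

end Pool.Agent.S16490
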