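-- Frozen statement S16523 (MP_33a4a7_nt): inhomogeneous Khintchine theorem in dimension two without
-- monotonicity.
import Pool.Statements.S16523
import Pool.Agent.W9.IK8

set_option autoImplicit false
open Pool Pool.MP_33a4a7_nt

namespace Pool.Agent.S16523

/-- For every y in R^2 and every nonnegative psi on N with sum of psi(q)^2 infinite, almost every x in [0,1]^2 has infinitely many q ≥ 1 with some integer vector a making the sup-norm of qx − a − y less than psi(q). -/
theorem result :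
    ∀ (y : ℝ × ℝ) (ψ : ℕ → ℝ), (∀ q, 0 ≤ ψ q) →
      ¬ Summable (fun q : ℕ => ψ q ^ 2) →
      ∀ᵐ x ∂(MeasureTheory.volume.restrict (Set.Icc (0 : ℝ × ℝ) 1)),
        {q : ℕ | 0 < q ∧ ∃ a : ℤ × ℤ,
          ‖(q : ℝ) • x - ((a.1 : ℝ), (a.2 : ℝ)) - y‖ < ψ q}.Infinite := by
  intro y ψ hψ hdiv
  set φ : ℕ → ℝ := fun q => min (ψ q) (1 / 4) with hφ
  have hφ0 : ∀ q, 0 ≤ φ q := fun q => le_min (hψ q) (by norm_num)
  have hφ1 : ∀ q, φ q ≤ 1 / 4 := fun q => min_le_right _ _
  have hφψ : ∀ q, φ q ≤ ψ q := fun q => min_le_left _ _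
  have hφd : ¬ Summable (fun q : ℕ => φ q ^ 2) := by
    intro hs
    apply hdiv
    have ht := hs.tendsto_atTop_zero
    have hev : ∀ᶠ q in Filter.atTop, φ q ^ 2 < (1 / 4 : ℝ) ^ 2 :=
      ht.eventually (gt_mem_nhds (by norm_num))
    refine (summable_congr_atTop ?_).1 hs
    filter_upwards [hev] with q hq
    have h1 : φ q < 1 / 4 := lt_of_pow_lt_pow_left₀ 2 (by norm_num) hq
    have h2 : φ q = ψ q := by
      simp only [hφ]
      apply min_eq_left
      by_contra h
      push Not at h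
      have : φ q = 1 / 4 := by
        simp only [hφ]
        exact min_eq_right h.le
      linarith
    rw [h2]
  have hcore := Pool.Agent.W9.IK.core y φ hφ0 hφ1 hφd
  rw [← MeasureTheory.Measure.restrict_congr_set Pool.Agent.W9.IK.Sq_ae,
    MeasureTheory.ae_restrict_iff' Pool.Agent.W9.IK.isOpen_Sq.measurableSet]
  rw [MeasureTheory.ae_iff]
  refine MeasureTheory.measure_mono_null ?_ hcore
  intro x hx
  simp only [Set.mem_ofPred_eq, Classical.not_imp] at hx
  refine ⟨hx.1, fun hL => hx.2 ?_⟩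
  rw [Set.infinite_iff_exists_gt]
  intro N
  simp only [Pool.Agent.W9.IK.L, Set.mem_iInter, Set.mem_iUnion] at hL
  obtain ⟨q, hq, hq0, a, ha⟩ := hL (N + 1)
  exact ⟨q, ⟨hq0, a, ha.trans_le (hφψ q)⟩, by
    have : N + 1 ≤ q := hq
    omega⟩

end Pool.Agent.S16523
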