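import Pool.Statements.S16547
import Pool.Agent.Results.MP_3527b9_nt.SuperPspAP

set_option autoImplicit false
open Pool Pool.MP_3527b9_nt

namespace Pool.Agent.S16547

open Pool.Agent.Results.MP_3527b9_nt.SuperPspAP in
/-- The starting file's predicate implies the frozen one. -/
theorem superPsp_frozen {n : ℕ} (h : IsSuperPsp 2 n) :
    1 < n ∧ ¬ n.Prime ∧ ∀ d ∈ n.divisors, 1 < d → (d.Prime ∨ Nat.FermatPsp d 2) := by
  obtain ⟨h1, h2, h3⟩ := h
  refine ⟨h1, h2, fun d hd hd1 => ?_⟩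
  rcases h3 d (Nat.dvd_of_mem_divisors hd) hd1 with h | ⟨h4, h5, h6⟩
  · exact Or.inl h
  · refine Or.inr ⟨?_, h5, h4⟩
    show d ∣ 2 ^ (d - 1) - 1
    exact (Nat.modEq_iff_dvd' (Nat.one_le_pow _ _ (by norm_num))).1 h6.symm

/-- There are infinitely many triples a<b<c in arithmetic progression where each term is composite and every divisor greater than 1 of it is prime or a base-2 Fermat pseudoprime. -/
theorem result :
    ∀ S : ℕ → Prop,
      (∀ n : ℕ, S n ↔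
        (1 < n ∧ ¬ n.Prime ∧
          ∀ d ∈ n.divisors, 1 < d → (d.Prime ∨ Nat.FermatPsp d 2))) →
      Set.Infinite {t : ℕ × ℕ × ℕ |
        t.1 < t.2.1 ∧ t.2.1 < t.2.2 ∧ t.1 + t.2.2 = 2 * t.2.1 ∧
          S t.1 ∧ S t.2.1 ∧ S t.2.2} := by
  intro S hS
  have key := Pool.Agent.Results.MP_3527b9_nt.SuperPspAP.result
  have hinj : Set.InjOn (fun p : ℕ × ℕ => (p.1, p.1 + p.2, p.1 + 2 * p.2))
      {p : ℕ × ℕ | 1 ≤ p.1 ∧ 1 ≤ p.2 ∧
        Pool.Agent.Results.MP_3527b9_nt.SuperPspAP.IsSuperPsp 2 p.1 ∧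
        Pool.Agent.Results.MP_3527b9_nt.SuperPspAP.IsSuperPsp 2 (p.1 + p.2) ∧
        Pool.Agent.Results.MP_3527b9_nt.SuperPspAP.IsSuperPsp 2 (p.1 + 2 * p.2)} := by
    rintro ⟨x, r⟩ - ⟨y, s⟩ - h
    simp only [Prod.mk.injEq] at h ⊢
    omega
  refine (key.image hinj).mono ?_
  rintro _ ⟨⟨x, r⟩, ⟨h1, h2, h3, h4, h5⟩, rfl⟩
  simp only at h1 h2 h3 h4 h5
  refine ⟨?_, ?_, ?_, ?_, ?_, ?_⟩
  · show x < x + r
    omega
  · show x + r < x + 2 * r
    omega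
  · show x + (x + 2 * r) = 2 * (x + r)
    omega
  · exact (hS _).2 (superPsp_frozen h3)
  · exact (hS _).2 (superPsp_frozen h4)
  · exact (hS _).2 (superPsp_frozen h5)

end Pool.Agent.S16547
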