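import Pool.Statements.S16808
import Pool.Agent.W28.EPDeriv

set_option autoImplicit false
open Pool Pool.MP_493793_nt

namespace Pool.Agent.S16808

/-- The negation of the preceding statement: For each ε>0 and constants c_j,C_j>0 there is K: if 2≤N≤N'≤2N, F≥N, f smooth on [N,2N] with c_j F/N^j ≤ ∣f^(j)∣ ≤ C_j F/N^j for all j≥0, then ∣Σ_{N≤n≤N'} e(f(n))∣ ≤ K N^{1/2} F^ε. -/
theorem result :
    ¬ (∀ ε : ℝ, 0 < ε → ∀ c C : ℕ → ℝ, (∀ j, 0 < c j) → (∀ j, 0 < C j) →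
      ∃ K : ℝ, ∀ N N' F : ℝ, ∀ f : ℝ → ℝ,
        2 ≤ N → N ≤ N' → N' ≤ 2 * N → N ≤ F →
        ContDiffOn ℝ (⊤ : ℕ∞) f (Set.Icc N (2 * N)) →
        (∀ j : ℕ, ∀ x ∈ Set.Icc N (2 * N),
            c j * F / N ^ j ≤ |iteratedDerivWithin j f (Set.Icc N (2 * N)) x| ∧
            |iteratedDerivWithin j f (Set.Icc N (2 * N)) x| ≤ C j * F / N ^ j) →
        ‖∑ n ∈ Finset.Icc ⌈N⌉₊ ⌊N'⌋₊,
            Complex.exp (2 * (Real.pi : ℂ) * Complex.I * ((f (n : ℝ) : ℝ) : ℂ))‖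
          ≤ K * N ^ (1 / 2 : ℝ) * F ^ ε) := by
  intro H
  obtain ⟨K, hK⟩ := H (1 / 12) (by norm_num) W28.EP.cLow W28.EP.cUp W28.EP.cLow_pos W28.EP.cUp_pos
  -- choose the scale
  obtain ⟨t, ht⟩ := exists_nat_gt (40 * (32 * |K| + 8))
  have hK0 : 0 ≤ |K| := abs_nonneg K
  have ht' : (320 : ℝ) < t := by linarith
  have ht0 : 320 < t := by exact_mod_cast ht'
  set W : ℕ := t ^ 4 with hW
  have hW1 : 320 < W := lt_of_lt_of_le ht0 (Nat.le_self_pow (by norm_num) t)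
  set N : ℝ := ((W28.EP.B (3 * W) : ℕ) : ℝ) with hN
  set N' : ℝ := ((W28.EP.B (4 * W) - 1 : ℕ) : ℝ) with hN'
  have hWr : (320 : ℝ) < W := by exact_mod_cast hW1
  have hNv : N = 27 * (W : ℝ) ^ 2 + 9 * W + 1 := by
    rw [hN]; unfold W28.EP.B; push_cast; ring
  have hNv' : N' = 48 * (W : ℝ) ^ 2 + 12 * W := by
    rw [hN']; unfold W28.EP.B; rw [Nat.add_sub_cancel]; push_cast; ring
  have hNpos : 0 < N := by rw [hNv]; positivity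
  have hN2 : 2 ≤ N := by rw [hNv]; nlinarith
  have hN1 : 1 ≤ N := by linarith
  have key := hK N N' (N ^ (3 / 2 : ℝ)) W28.EP.F0 hN2 (by rw [hNv, hNv']; nlinarith)
    (by rw [hNv, hNv']; nlinarith)
    (by
      calc N = N ^ (1 : ℝ) := (Real.rpow_one N).symm
        _ ≤ N ^ (3 / 2 : ℝ) := Real.rpow_le_rpow_of_exponent_le hN1 (by norm_num))
    (W28.EP.smooth_F0 hNpos)
    (fun j x hx => W28.EP.admissible j hNpos hx)
  have hset : Finset.Icc ⌈N⌉₊ ⌊N'⌋₊ = Finset.Ico (W28.EP.B (3 * W)) (W28.EP.B (4 * W)) := by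
    rw [hN, hN', Nat.ceil_natCast, Nat.floor_natCast]
    ext n
    rw [Finset.mem_Icc, Finset.mem_Ico]
    have : 1 ≤ W28.EP.B (4 * W) := by unfold W28.EP.B; omega
    omega
  rw [hset] at key
  have low := W28.EP.sum_lower (3 * W) (4 * W) (by omega) (by omega)
  have h1 := low.trans key
  push_cast at h1
  -- simplify both sides
  have htr : (0 : ℝ) < t := by linarith
  have hWt : (W : ℝ) = (t : ℝ) ^ 4 := by rw [hW]; push_cast; ring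
  have hsq : (t : ℝ) ^ 2 ≤ √(3 * (W : ℝ)) := by
    apply Real.le_sqrt_of_sq_le
    rw [hWt]
    nlinarith [pow_pos htr 4]
  have hNle : N ≤ (2 * (t : ℝ)) ^ 8 := by
    rw [hNv]
    have h2 : (2 * (t : ℝ)) ^ 8 = 256 * (W : ℝ) ^ 2 := by rw [hWt]; ring
    rw [h2]
    nlinarith
  have hr : N ^ (1 / 2 : ℝ) * (N ^ (3 / 2 : ℝ)) ^ (1 / 12 : ℝ) ≤ 32 * (t : ℝ) ^ 5 := by
    rw [← Real.rpow_mul hNpos.le, ← Real.rpow_add hNpos]
    calc N ^ (1 / 2 + 3 / 2 * (1 / 12) : ℝ) ≤ ((2 * (t : ℝ)) ^ 8) ^ (1 / 2 + 3 / 2 * (1 / 12) : ℝ) :=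
          Real.rpow_le_rpow hNpos.le hNle (by norm_num)
      _ = (2 * (t : ℝ)) ^ (5 : ℝ) := by
          rw [← Real.rpow_natCast, ← Real.rpow_mul (by positivity)]
          norm_num
      _ = 32 * (t : ℝ) ^ 5 := by
          rw [show (5 : ℝ) = ((5 : ℕ) : ℝ) by norm_num, Real.rpow_natCast]; ring
  have hr0 : 0 ≤ N ^ (1 / 2 : ℝ) * (N ^ (3 / 2 : ℝ)) ^ (1 / 12 : ℝ) := by positivity
  have h3 : K * N ^ (1 / 2 : ℝ) * (N ^ (3 / 2 : ℝ)) ^ (1 / 12 : ℝ) ≤ |K| * (32 * (t : ℝ) ^ 5) := by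
    calc K * N ^ (1 / 2 : ℝ) * (N ^ (3 / 2 : ℝ)) ^ (1 / 12 : ℝ)
        = K * (N ^ (1 / 2 : ℝ) * (N ^ (3 / 2 : ℝ)) ^ (1 / 12 : ℝ)) := by ring
      _ ≤ |K| * (N ^ (1 / 2 : ℝ) * (N ^ (3 / 2 : ℝ)) ^ (1 / 12 : ℝ)) :=
          mul_le_mul_of_nonneg_right (le_abs_self K) hr0
      _ ≤ |K| * (32 * (t : ℝ) ^ 5) := mul_le_mul_of_nonneg_left hr hK0
  have h4 : (t : ℝ) ^ 4 * ((t : ℝ) ^ 2 / 40 - 4) ≤ (4 * (W : ℝ) - 3 * W) * (√(3 * (W : ℝ)) / 40 - 4) := by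
    have e : 4 * (W : ℝ) - 3 * W = (t : ℝ) ^ 4 := by rw [← hWt]; ring
    rw [e]
    apply mul_le_mul_of_nonneg_left _ (by positivity)
    linarith
  have h5 : (t : ℝ) ^ 4 * ((t : ℝ) ^ 2 / 40 - 4) ≤ |K| * (32 * (t : ℝ) ^ 5) := by linarith
  have h6 : (t : ℝ) ^ 4 * ((t : ℝ) ^ 2 / 40 - 4 - 32 * |K| * t) ≤ 0 := by
    have : |K| * (32 * (t : ℝ) ^ 5) = (t : ℝ) ^ 4 * (32 * |K| * t) := by ring
    rw [this] at h5
    nlinarith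
  have h7 : (0 : ℝ) < (t : ℝ) ^ 2 / 40 - 4 - 32 * |K| * t := by
    nlinarith
  have h8 : (0 : ℝ) < (t : ℝ) ^ 4 * ((t : ℝ) ^ 2 / 40 - 4 - 32 * |K| * t) := by positivity
  linarith

end Pool.Agent.S16808
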