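-- Proof of the frozen statement S16899 (MP_4eca2d_nt): derived from the bound
-- F(M) ≥ c / (M (log M)^(2/3)) of the starting files (Pool.Agent.Helper483.Lac.main_real).
import Pool.Statements.S16899
import Pool.Agent.Helper483.Lac.MainReal

set_option autoImplicit false
open Pool Pool.MP_4eca2d_nt

namespace Pool.Agent.S16899

open Pool.Agent.Helper483.Lac

/-- extension of a finite sequence to an infinite one with the same lacunarity -/
lemma extend (n : ℕ) (hn : 1 ≤ n) (v : Fin n → ℕ) (hv : ∀ i, 0 < v i) (R : ℝ) (hR : 0 < R)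
    (h : ∀ i j : Fin n, j.val = i.val + 1 → R * (v i : ℝ) ≤ (v j : ℝ)) :
    ∃ T : ℕ → ℝ, (∀ j, 0 < T j) ∧ (∀ j, R * T j ≤ T (j + 1)) ∧ ∀ i : Fin n, T i.val = v i := by
  refine ⟨fun j => (v ⟨min j (n - 1), by omega⟩ : ℝ) * R ^ (j - (n - 1)), ?_, ?_, ?_⟩
  · intro j
    have : (0 : ℝ) < v ⟨min j (n - 1), by omega⟩ := by exact_mod_cast hv _
    positivity
  · intro j
    by_cases hj : j + 1 ≤ n - 1
    · have h1 : j - (n - 1) = 0 := by omega
      have h2 : j + 1 - (n - 1) = 0 := by omega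
      simp only [h1, h2, pow_zero, mul_one]
      apply h
      simp only
      omega
    · have h1 : j + 1 - (n - 1) = (j - (n - 1)) + 1 := by omega
      have h2 : (⟨min (j + 1) (n - 1), by omega⟩ : Fin n) = ⟨min j (n - 1), by omega⟩ := by
        apply Fin.ext
        simp only
        omega
      simp only [h1, h2, pow_succ]
      apply le_of_eq
      ring
  · intro i
    have h1 : i.val - (n - 1) = 0 := by omega
    have h2 : (⟨min i.val (n - 1), by omega⟩ : Fin n) = i := by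
      apply Fin.ext
      simp only
      omega
    simp only [h1, h2, pow_zero, mul_one]

lemma third_le (x : ℝ) (m : ℤ) (h1 : m + 1 / 3 ≤ x) (h2 : x ≤ m + 2 / 3) :
    1 / 3 ≤ |x - round x| := by
  set k := round x with hk
  rcases le_or_gt k m with h | h
  · have : (k : ℝ) ≤ m := by exact_mod_cast h
    rw [le_abs]; left; linarith
  · have : (m : ℝ) + 1 ≤ k := by exact_mod_cast h
    rw [le_abs]; right; linarith

lemma half_le (k : ℤ) : (1 / 2 : ℝ) ≤ |1 / 2 - (k : ℝ)| := by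
  rcases le_or_gt k 0 with h | h
  · have h1 : (k : ℝ) ≤ 0 := by exact_mod_cast h
    rw [le_abs]; left; linarith
  · have h1 : (1 : ℝ) ≤ k := by exact_mod_cast h
    rw [le_abs]; right; linarith

lemma nested (T : ℕ → ℝ) (hT : ∀ j, 0 < T j) (hr : ∀ j, 4 * T j ≤ T (j + 1)) :
    ∀ k : ℕ, ∃ m : ℤ, ∀ t : ℝ, m + 1 / 3 ≤ t * T k → t * T k ≤ m + 2 / 3 →
      ∀ i, i ≤ k → 1 / 3 ≤ |t * T i - round (t * T i)| := by
  intro k
  induction k with
  | zero =>
    refine ⟨0, fun t h1 h2 i hi => ?_⟩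
    obtain rfl : i = 0 := by omega
    exact third_le _ 0 h1 h2
  | succ k ih =>
    obtain ⟨m, hm⟩ := ih
    set ρ := T (k + 1) / T k with hρ
    have hρ4 : 4 ≤ ρ := by
      rw [hρ, le_div_iff₀ (hT k)]; exact hr k
    have hTk : T (k + 1) = ρ * T k := by
      rw [hρ, div_mul_cancel₀ _ (hT k).ne']
    refine ⟨⌈ρ * (m + 1 / 3) - 1 / 3⌉, fun t h1 h2 i hi => ?_⟩
    have h3 := Int.le_ceil (ρ * ((m : ℝ) + 1 / 3) - 1 / 3)
    have h4 := Int.ceil_lt_add_one (ρ * ((m : ℝ) + 1 / 3) - 1 / 3)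
    rcases Nat.lt_or_ge k i with h | h
    · obtain rfl : i = k + 1 := by omega
      exact third_le _ _ h1 h2
    · apply hm t _ _ i h
      · have h5 : ρ * (m + 1 / 3) ≤ ρ * (t * T k) := by
          rw [hTk] at h1; linarith
        exact le_of_mul_le_mul_left h5 (by linarith)
      · have h5 : ρ * (t * T k) ≤ ρ * (m + 2 / 3) := by
          rw [hTk] at h2; linarith
        exact le_of_mul_le_mul_left h5 (by linarith)

lemma small_case (n : ℕ) (hn : 1 ≤ n) (v : Fin n → ℕ) (hv : ∀ i, 0 < v i)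
    (h : ∀ i j : Fin n, j.val = i.val + 1 → 4 * (v i : ℝ) ≤ (v j : ℝ)) :
    ∃ t : ℝ, ∀ i : Fin n,
      1 / ((n : ℝ) + 1) ≤ |t * (v i : ℝ) - (round (t * (v i : ℝ)) : ℝ)| := by
  rcases Nat.lt_or_ge 1 n with hn2 | hn2
  · obtain ⟨T, hT, hr, hTv⟩ := extend n hn v hv 4 (by norm_num) h
    obtain ⟨m, hm⟩ := nested T hT hr n
    refine ⟨(m + 1 / 2) / T n, fun i => ?_⟩
    have h1 : (m + 1 / 2) / T n * T n = (m : ℝ) + 1 / 2 := div_mul_cancel₀ _ (hT n).ne'
    have h2 := hm ((m + 1 / 2) / T n) (by rw [h1]; linarith) (by rw [h1]; linarith) i.val i.2.le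
    rw [hTv i] at h2
    refine le_trans ?_ h2
    have : (2 : ℝ) ≤ n := by exact_mod_cast hn2
    exact one_div_le_one_div_of_le (by norm_num) (by linarith)
  · obtain rfl : n = 1 := by omega
    refine ⟨1 / 2 / (v 0 : ℝ), fun i => ?_⟩
    obtain rfl : i = 0 := Subsingleton.elim _ _
    have : (0 : ℝ) < v 0 := by exact_mod_cast hv 0
    rw [div_mul_cancel₀ _ this.ne']
    have h12 : 1 / (((1 : ℕ) : ℝ) + 1) = 1 / 2 := by norm_num
    rw [h12]
    exact half_le _

/-- There is a function ω(n)=o(log n) such that for every n≥1 and positive integer speeds v_1..v_n with v_{i+1} ≥ (1+ω(n)/n)v_i, some real time t puts every t·v_i at distance at least 1/(n+1) from the nearest integer. -/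
theorem result :
    ∃ ω : ℕ → ℝ, Asymptotics.IsLittleO Filter.atTop ω (fun n : ℕ => Real.log (n : ℝ)) ∧
      ∀ n : ℕ, 1 ≤ n → ∀ v : Fin n → ℕ, (∀ i, 0 < v i) →
        (∀ i j : Fin n, j.val = i.val + 1 →
            (1 + ω n / (n : ℝ)) * (v i : ℝ) ≤ (v j : ℝ)) →
        ∃ t : ℝ, ∀ i : Fin n,
          1 / ((n : ℝ) + 1) ≤ |t * (v i : ℝ) - (round (t * (v i : ℝ)) : ℝ)| := by
  obtain ⟨c, hc, hmain⟩ := main_real
  set K : ℝ := max 1 (1 / c) with hK
  have hK1 : 1 ≤ K := le_max_left _ _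
  have hKc : 1 ≤ c * K := by
    have : 1 / c ≤ K := le_max_right _ _
    rw [div_le_iff₀ hc] at this
    linarith
  -- the asymptotic comparison
  have hlog : Filter.Tendsto (fun n : ℕ => Real.log (n : ℝ)) Filter.atTop Filter.atTop :=
    Real.tendsto_log_atTop.comp tendsto_natCast_atTop_atTop
  have hev : ∀ᶠ n : ℕ in Filter.atTop, 1 ≤ Real.log (n : ℝ) ∧
      2 * (K * (Real.log (n : ℝ)) ^ (2 / 3 : ℝ)) ≤ n := by
    have h1 : ∀ᶠ n : ℕ in Filter.atTop, 1 ≤ Real.log (n : ℝ) :=
      hlog.eventually_ge_atTop 1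
    have h2 : ∀ᶠ x : ℝ in Filter.atTop, Real.log x ≤ 1 / (2 * K) * x := by
      have := Real.isLittleO_log_id_atTop.def (show (0 : ℝ) < 1 / (2 * K) by positivity)
      filter_upwards [this, Filter.eventually_gt_atTop 1] with x hx hx1
      rw [Real.norm_eq_abs, Real.norm_eq_abs, id, abs_of_pos (by linarith : (0 : ℝ) < x)] at hx
      exact (le_abs_self _).trans hx
    have h3 := tendsto_natCast_atTop_atTop (R := ℝ) |>.eventually h2
    filter_upwards [h1, h3] with n hn1 hn3
    refine ⟨hn1, ?_⟩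
    have h4 : (Real.log (n : ℝ)) ^ (2 / 3 : ℝ) ≤ Real.log n := by
      conv_rhs => rw [← Real.rpow_one (Real.log (n : ℝ))]
      exact Real.rpow_le_rpow_of_exponent_le hn1 (by norm_num)
    have h5 : 2 * (K * (Real.log (n : ℝ)) ^ (2 / 3 : ℝ)) ≤ 2 * (K * Real.log n) := by
      have : 0 ≤ K := by linarith
      gcongr
    refine h5.trans ?_
    have h6 : 2 * (K * Real.log n) ≤ 2 * (K * (1 / (2 * K) * n)) := by
      have : 0 ≤ K := by linarith
      gcongr
    refine h6.trans (le_of_eq ?_)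
    field_simp
  obtain ⟨n0, hn0⟩ := Filter.eventually_atTop.mp hev
  refine ⟨fun n => if n0 ≤ n then K * (Real.log (n : ℝ)) ^ (2 / 3 : ℝ) else 3 * n, ?_, ?_⟩
  · -- little o
    have h1 : (fun n : ℕ => if n0 ≤ n then K * (Real.log (n : ℝ)) ^ (2 / 3 : ℝ) else 3 * n)
        =ᶠ[Filter.atTop] fun n : ℕ => K * (Real.log (n : ℝ)) ^ (2 / 3 : ℝ) := by
      filter_upwards [Filter.eventually_ge_atTop n0] with n hn
      rw [if_pos hn]
    refine Asymptotics.IsLittleO.congr' ?_ h1.symm Filter.EventuallyEq.rfl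
    apply Asymptotics.IsLittleO.const_mul_left
    have h2 : Asymptotics.IsLittleO Filter.atTop (fun x : ℝ => x ^ (2 / 3 : ℝ)) (fun x : ℝ => x) := by
      rw [Asymptotics.isLittleO_iff_tendsto']
      · have h3 : Filter.Tendsto (fun x : ℝ => x ^ (-(1 / 3) : ℝ)) Filter.atTop (nhds 0) :=
          tendsto_rpow_neg_atTop (by norm_num)
        refine h3.congr' ?_
        filter_upwards [Filter.eventually_gt_atTop 0] with x hx
        rw [show (-(1 / 3) : ℝ) = 2 / 3 - 1 by norm_num, Real.rpow_sub hx, Real.rpow_one]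
      · filter_upwards [Filter.eventually_gt_atTop 0] with x hx h
        exact absurd h hx.ne'
    exact h2.comp_tendsto hlog
  · intro n hn v hv hvr
    have hnR : (0 : ℝ) < n := by exact_mod_cast hn
    by_cases hnn : n0 ≤ n
    · simp only [if_pos hnn] at hvr
      obtain ⟨hl1, hl2⟩ := hn0 n hnn
      set w := K * (Real.log (n : ℝ)) ^ (2 / 3 : ℝ) with hw
      have hlp : 1 ≤ (Real.log (n : ℝ)) ^ (2 / 3 : ℝ) := Real.one_le_rpow hl1 (by norm_num)
      have hw1 : 1 ≤ w := by rw [hw]; nlinarith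
      set M := (n : ℝ) / w with hM
      have hM2 : 2 ≤ M := by rw [hM, le_div_iff₀ (by linarith)]; linarith
      have hM1 : 1 / M = w / n := by rw [hM, one_div_div]
      obtain ⟨T, hT, hr, hTv⟩ := extend n hn v hv (1 + w / n) (by positivity) hvr
      obtain ⟨α, hα⟩ := hmain M hM2 T ⟨hT, fun j => by
        rw [le_div_iff₀ (hT j), hM1]; exact hr j⟩
      refine ⟨α, fun i => ?_⟩
      have h1 := hα i.val
      rw [hTv i] at h1
      refine le_trans ?_ h1
      have hMn : M ≤ n := by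
        rw [hM, div_le_iff₀ (by linarith)]
        nlinarith
      have hlogM0 : 0 < Real.log M := Real.log_pos (by linarith)
      have hlogM : Real.log M ≤ Real.log n := Real.log_le_log (by linarith) hMn
      have h2 : (Real.log M) ^ (2 / 3 : ℝ) ≤ (Real.log (n : ℝ)) ^ (2 / 3 : ℝ) :=
        Real.rpow_le_rpow hlogM0.le hlogM (by norm_num)
      have h3 : 0 < (Real.log M) ^ (2 / 3 : ℝ) := Real.rpow_pos_of_pos hlogM0 _
      rw [div_le_div_iff₀ (by linarith) (by positivity), one_mul]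
      have h4 : M * (Real.log M) ^ (2 / 3 : ℝ) ≤ M * (Real.log (n : ℝ)) ^ (2 / 3 : ℝ) := by
        apply mul_le_mul_of_nonneg_left h2 (by linarith)
      refine h4.trans ?_
      have h5 : M * (Real.log (n : ℝ)) ^ (2 / 3 : ℝ) * K = n := by
        rw [hM, div_mul_eq_mul_div, div_mul_eq_mul_div, div_eq_iff (by linarith), hw]
        ring
      have h6 : M * (Real.log (n : ℝ)) ^ (2 / 3 : ℝ) ≤
          (c * K) * (M * (Real.log (n : ℝ)) ^ (2 / 3 : ℝ)) := by
        have : 0 ≤ M * (Real.log (n : ℝ)) ^ (2 / 3 : ℝ) := by positivity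
        nlinarith
      have h7 : (c * K) * (M * (Real.log (n : ℝ)) ^ (2 / 3 : ℝ)) = c * n := by
        calc (c * K) * (M * (Real.log (n : ℝ)) ^ (2 / 3 : ℝ))
            = c * (M * (Real.log (n : ℝ)) ^ (2 / 3 : ℝ) * K) := by ring
          _ = c * n := by rw [h5]
      rw [h7] at h6
      nlinarith
    · simp only [if_neg hnn] at hvr
      apply small_case n hn v hv
      intro i j hij
      have h1 := hvr i j hij
      have h2 : 1 + 3 * (n : ℝ) / n = 4 := by field_simp; norm_num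
      rw [h2] at h1
      exact h1

end Pool.Agent.S16899
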