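import Pool.Statements.S16915
import Pool.Agent.W51.Cliques

set_option autoImplicit false
open MeasureTheory
open Pool Pool.MP_4fa6ed_nt

namespace Pool.Agent.S16915

/-- two of the sets `T_x⁻¹ A` meet in positive measure -/
theorem pigeon (X : Type) [MeasurableSpace X] (μ : Measure X) [IsProbabilityMeasure μ]
    (T : ℚ → X → X)
    (hT : ∀ q : ℚ, 0 < q → MeasurePreserving (T q) μ μ)
    (A : Set X) (hA : MeasurableSet A) (S : Finset ℤ) (hS : ∀ x ∈ S, 0 < x)
    (hcard : 1 < S.card * μ A) :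
    ∃ x ∈ S, ∃ y ∈ S, y < x ∧ 0 < μ (T (x : ℚ) ⁻¹' A ∩ T (y : ℚ) ⁻¹' A) := by
  by_contra hcon
  push Not at hcon
  have hdisj : (S : Set ℤ).Pairwise (fun x y => AEDisjoint μ (T (x : ℚ) ⁻¹' A) (T (y : ℚ) ⁻¹' A)) := by
    intro x hx y hy hxy
    rcases lt_or_gt_of_ne hxy with h | h
    · have := hcon y hy x hx h
      unfold AEDisjoint
      rw [Set.inter_comm]
      exact le_antisymm this bot_le
    · have := hcon x hx y hy h
      exact le_antisymm this bot_le
  have hmeas : ∀ x ∈ S, NullMeasurableSet (T (x : ℚ) ⁻¹' A) μ := by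
    intro x hx
    have hx0 : (0 : ℚ) < x := by exact_mod_cast hS x hx
    exact ((hT _ hx0).measurable hA).nullMeasurableSet
  have h1 := measure_biUnion_finset₀ hdisj hmeas
  have h2 : ∀ x ∈ S, μ (T (x : ℚ) ⁻¹' A) = μ A := by
    intro x hx
    have hx0 : (0 : ℚ) < x := by exact_mod_cast hS x hx
    exact (hT _ hx0).measure_preimage hA.nullMeasurableSet
  rw [Finset.sum_congr rfl h2, Finset.sum_const, nsmul_eq_mul] at h1
  have h3 : μ (⋃ x ∈ S, T (x : ℚ) ⁻¹' A) ≤ 1 := prob_le_one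
  rw [h1] at h3
  exact absurd hcard (not_lt.2 h3)

/-- If a≥1, gcd(a,b,d)=1, and b=d or a divides bd, then for every measure-preserving action of the positive rationals under multiplication and every positive-measure set A, some ratio (an+b)/(an+d) with n≥1 and both terms positive returns A to itself in positive measure. -/
theorem result :
    ∀ (a : ℕ) (b d : ℤ), 0 < a →
      (∀ k : ℤ, k ∣ (a : ℤ) → k ∣ b → k ∣ d → IsUnit k) →
      (b = d ∨ (a : ℤ) ∣ b * d) →
      ∀ (X : Type) [MeasurableSpace X] (μ : Measure X) [IsProbabilityMeasure μ]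
        (T : ℚ → X → X),
        T 1 = id →
        (∀ q r : ℚ, 0 < q → 0 < r → T (q * r) = T q ∘ T r) →
        (∀ q : ℚ, 0 < q → MeasurePreserving (T q) μ μ) →
        ∀ A : Set X, MeasurableSet A → 0 < μ A →
          ∃ n : ℕ, 0 < n ∧ 0 < (a : ℤ) * n + b ∧ 0 < (a : ℤ) * n + d ∧
            0 < μ (A ∩ T (((a : ℚ) * n + b) / ((a : ℚ) * n + d)) ⁻¹' A) := by
  intro a b d ha hgcd hor X _ μ _ T hT1 hTm hTp A hA hμA
  -- the trivial case
  rcases eq_or_ne b d with rfl | hbd
  · have h1 : (1 : ℤ) * ((b.natAbs + 1 : ℕ) : ℤ) ≤ (a : ℤ) * ((b.natAbs + 1 : ℕ) : ℤ) :=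
      mul_le_mul_of_nonneg_right (by omega) (by omega)
    have h0 : ((b.natAbs + 1 : ℕ) : ℤ) = |b| + 1 := by
      rw [Int.abs_eq_natAbs]; push_cast; ring
    have h2 : (0 : ℤ) < (a : ℤ) * ((b.natAbs + 1 : ℕ) : ℤ) + b := by
      have h3 := neg_abs_le b
      have h4 : (a : ℤ) * ((b.natAbs + 1 : ℕ) : ℤ) ≥ |b| + 1 := by
        rw [h0] at h1 ⊢
        linarith
      linarith
    refine ⟨b.natAbs + 1, by omega, h2, h2, ?_⟩
    have h3 : (0 : ℚ) < (((a : ℤ) * ((b.natAbs + 1 : ℕ) : ℤ) + b : ℤ) : ℚ) := Int.cast_pos.2 h2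
    have h4 : (((a : ℤ) * ((b.natAbs + 1 : ℕ) : ℤ) + b : ℤ) : ℚ) =
        (a : ℚ) * ((b.natAbs + 1 : ℕ) : ℚ) + b := by
      rw [Int.cast_add, Int.cast_mul, Int.cast_natCast, Int.cast_natCast]
    rw [h4] at h3
    rw [div_self h3.ne', hT1]
    simpa using hμA
  have hdvd : (a : ℤ) ∣ b * d := by
    rcases hor with h | h
    · exact absurd h hbd
    · exact h
  -- the general statement for a pair
  have key : ∀ b' d' : ℤ, d' < b' → (a : ℤ) ∣ b' * d' →
      (∀ k : ℤ, k ∣ (a : ℤ) → k ∣ b' → k ∣ d' → IsUnit k) →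
      ∃ n : ℕ, 0 < n ∧ 0 < (a : ℤ) * n + b' ∧ 0 < (a : ℤ) * n + d' ∧
        ∃ x y : ℚ, 0 < x ∧ 0 < y ∧ 0 < μ (T x ⁻¹' A ∩ T y ⁻¹' A) ∧
          x / y = ((a : ℚ) * n + b') / ((a : ℚ) * n + d') := by
    intro b' d' hlt hdvd' hgcd'
    have haz : (0 : ℤ) < a := by exact_mod_cast ha
    -- the factorization `a = u v`
    obtain ⟨v, hv⟩ : (Int.gcd a b' : ℤ) ∣ (a : ℤ) := Int.gcd_dvd_left _ _
    set u : ℤ := (Int.gcd a b' : ℤ) with hu
    have hupos : 0 < u := by
      have : 0 < Int.gcd a b' := Int.gcd_pos_of_ne_zero_left _ haz.ne'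
      rw [hu]
      exact Int.natCast_pos.2 this
    have hvpos : 0 < v := by
      by_contra hc
      have := mul_nonpos_of_nonneg_of_nonpos hupos.le (not_lt.1 hc)
      omega
    have hub : u ∣ b' := Int.gcd_dvd_right _ _
    have hvd : v ∣ d' := by
      obtain ⟨b₁, hb₁⟩ := hub
      have h1 : IsCoprime v b₁ := by
        obtain ⟨p, q, hpq⟩ : ∃ p q : ℤ, u = a * p + b' * q :=
          ⟨_, _, Int.gcd_eq_gcd_ab a b'⟩
        refine ⟨p, q, ?_⟩
        have h2 : u * (p * v + q * b₁) = u * 1 := by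
          rw [mul_one]
          conv_rhs => rw [hpq, hv, hb₁]
          ring
        exact mul_left_cancel₀ hupos.ne' h2
      have h2 : u * v ∣ u * (b₁ * d') := by
        rw [← hv, ← mul_assoc, ← hb₁]
        exact hdvd'
      exact h1.dvd_of_dvd_mul_left ((mul_dvd_mul_iff_left hupos.ne').1 h2)
    have huv : IsCoprime u v := by
      rw [Int.isCoprime_iff_gcd_eq_one]
      have h1 := hgcd' (Int.gcd u v) ((Int.gcd_dvd_left u v).trans ⟨v, hv⟩)
        ((Int.gcd_dvd_left u v).trans hub) ((Int.gcd_dvd_right u v).trans hvd)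
      have h2 := Int.isUnit_iff.1 h1
      omega
    -- enlarge `v`
    set w : ℤ := u * (|d'| + 1) + 1 with hw
    have hd0 : 0 ≤ |d'| := abs_nonneg _
    have hwd : |d'| < w := by
      have : 1 * (|d'| + 1) ≤ u * (|d'| + 1) := mul_le_mul_of_nonneg_right (by omega) (by omega)
      omega
    have hwpos : 0 < w := by omega
    have huw : IsCoprime u w := ⟨-(|d'| + 1), 1, by rw [hw]; ring⟩
    -- the number of elements
    obtain ⟨k, hk⟩ : ∃ k : ℕ, 1 < k * μ A := by
      obtain ⟨k, hk⟩ := ENNReal.exists_nat_mul_gt hμA.ne' (by simp : (1 : ENNReal) ≠ ⊤)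
      exact ⟨k, hk⟩
    obtain ⟨S, hcard, hpos, hS⟩ :=
      Pool.Agent.W51.Cliques.cliques u (v * w) hupos (by positivity) (huv.mul_right huw) k
    obtain ⟨x, hx, y, hy, hxy, hμ⟩ := pigeon X μ T hTp A hA S hpos (by rw [hcard]; exact hk)
    obtain ⟨⟨M, hM⟩, ⟨N, hN⟩⟩ := hS x hx y hy hxy
    have hy0 := hpos y hy
    have hx0 := hpos x hx
    set δ : ℤ := x - y with hδ
    have hδ0 : 0 < δ := by omega
    -- `y = δ v w M`, `x = δ u N`
    have hMN : u * N = v * w * M + 1 := by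
      have h1 : δ * (u * N) = δ * (v * w * M + 1) := by
        have h2 : x = y + δ := by omega
        calc δ * (u * N) = δ * u * N := by ring
          _ = x := hN.symm
          _ = δ * (v * w) * M + δ := by rw [← hM]; exact h2
          _ = _ := by ring
      exact mul_left_cancel₀ hδ0.ne' h1
    have hM0 : 0 < M := by
      by_contra hc
      have : δ * (v * w) * M ≤ 0 := mul_nonpos_of_nonneg_of_nonpos (by positivity) (not_lt.1 hc)
      omega
    have hD : 0 < b' - d' := by omega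
    -- `a ∣ D v w M - d'`
    obtain ⟨n, hn⟩ : (a : ℤ) ∣ (b' - d') * (v * w * M) - d' := by
      rw [hv]
      apply huv.mul_dvd
      · have : (b' - d') * (v * w * M) - d' = u * ((b' - d') * N) - b' := by
          linear_combination (-(b' - d')) * hMN
        rw [this]
        exact dvd_sub (dvd_mul_right _ _) hub
      · have : (b' - d') * (v * w * M) - d' = v * ((b' - d') * (w * M)) - d' := by ring
        rw [this]
        exact dvd_sub (dvd_mul_right _ _) hvd
    have hbig : |d'| < (b' - d') * (v * w * M) := by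
      have h1 : w ≤ (b' - d') * (v * w * M) := by
        have h2 : 1 ≤ (b' - d') * (v * M) := by
          have : 0 < (b' - d') * (v * M) := by positivity
          omega
        calc w = w * 1 := by ring
          _ ≤ w * ((b' - d') * (v * M)) := mul_le_mul_of_nonneg_left h2 hwpos.le
          _ = _ := by ring
      omega
    have hn0 : 0 < n := by
      have h1 : 0 < (a : ℤ) * n := by
        rw [← hn]
        have := le_abs_self d'
        omega
      exact (mul_pos_iff_of_pos_left haz).1 h1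
    have e1 : (a : ℤ) * n + d' = (b' - d') * (v * w * M) := by omega
    have e2 : (a : ℤ) * n + b' = (b' - d') * (u * N) := by
      rw [hMN]
      linear_combination e1
    have hnn : ((n.toNat : ℕ) : ℤ) = n := Int.toNat_of_nonneg hn0.le
    have e0 : 0 < (b' - d') * (v * w * M) := lt_of_le_of_lt hd0 hbig
    refine ⟨n.toNat, by omega, ?_, ?_, (x : ℚ), (y : ℚ), by exact_mod_cast hx0,
      by exact_mod_cast hy0, hμ, ?_⟩
    · rw [hnn]
      omega
    · rw [hnn, e1]
      exact e0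
    · have c1 : ((a : ℚ) * (n.toNat : ℚ) + b') = ((b' - d' : ℤ) : ℚ) * ((u * N : ℤ) : ℚ) := by
        have : (((a : ℤ) * (n.toNat : ℤ) + b' : ℤ) : ℚ) = (((b' - d') * (u * N) : ℤ) : ℚ) := by
          rw [hnn, e2]
        push_cast at this ⊢
        exact this
      have c2 : ((a : ℚ) * (n.toNat : ℚ) + d') = ((b' - d' : ℤ) : ℚ) * ((v * w * M : ℤ) : ℚ) := by
        have : (((a : ℤ) * (n.toNat : ℤ) + d' : ℤ) : ℚ) = (((b' - d') * (v * w * M) : ℤ) : ℚ) := by
          rw [hnn, e1]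
        push_cast at this ⊢
        exact this
      rw [c1, c2]
      have hDq : ((b' - d' : ℤ) : ℚ) ≠ 0 := by exact_mod_cast hD.ne'
      rw [mul_div_mul_left _ _ hDq]
      have hx' : (x : ℚ) = (δ : ℚ) * ((u * N : ℤ) : ℚ) := by
        rw [hN]; push_cast; ring
      have hy' : (y : ℚ) = (δ : ℚ) * ((v * w * M : ℤ) : ℚ) := by
        rw [hM]; push_cast; ring
      have hδq : (δ : ℚ) ≠ 0 := by exact_mod_cast hδ0.ne'
      rw [hx', hy', mul_div_mul_left _ _ hδq]
  -- transport
  have transp : ∀ x y : ℚ, 0 < x → 0 < y →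
      μ (T x ⁻¹' A ∩ T y ⁻¹' A) = μ (A ∩ T (x / y) ⁻¹' A) := by
    intro x y hx hy
    have hq : 0 < x / y := div_pos hx hy
    have h1 : T x = T (x / y) ∘ T y := by
      rw [← hTm _ _ hq hy, div_mul_cancel₀ _ hy.ne']
    have h2 : T x ⁻¹' A ∩ T y ⁻¹' A = T y ⁻¹' (A ∩ T (x / y) ⁻¹' A) := by
      rw [h1, Set.preimage_comp, Set.preimage_inter, Set.inter_comm]
    rw [h2, (hTp y hy).measure_preimage
      (hA.inter ((hTp _ hq).measurable hA)).nullMeasurableSet]
  rcases lt_or_gt_of_ne hbd with hlt | hlt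
  · -- `b < d`
    obtain ⟨n, hn, h1, h2, x, y, hx, hy, hμ, hxy⟩ := key d b hlt (by rwa [mul_comm])
      (fun k h1 h2 h3 => hgcd k h1 h3 h2)
    refine ⟨n, hn, h2, h1, ?_⟩
    rw [Set.inter_comm, transp y x hy hx] at hμ
    have e : y / x = ((a : ℚ) * n + b) / ((a : ℚ) * n + d) := by
      rw [← inv_div x y, hxy, inv_div]
    rwa [e] at hμ
  · obtain ⟨n, hn, h1, h2, x, y, hx, hy, hμ, hxy⟩ := key b d hlt hdvd hgcd
    refine ⟨n, hn, h1, h2, ?_⟩
    rw [transp x y hx hy] at hμ
    rwa [hxy] at hμ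

end Pool.Agent.S16915
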