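import Pool.Statements.S16940

set_option autoImplicit false
open Complex DirichletCharacter
open Pool Pool.MP_50d0fc_nt

namespace Pool.Agent.S16940

open Filter Topology Set
open scoped ComplexConjugate

section aux

variable {q : ℕ} [NeZero q] {χ : DirichletCharacter ℂ q}

/-- conjugation symmetry of the L-function -/
lemma LFunction_conj' (h1 : χ ≠ 1) (s : ℂ) :
    LFunction χ⁻¹ (conj s) = conj (LFunction χ s) := by
  have h2 : χ⁻¹ ≠ 1 := inv_ne_one.2 h1
  have hd1 := differentiable_LFunction h1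
  have hd2 := differentiable_LFunction h2
  have hA : AnalyticOnNhd ℂ (fun s => conj (LFunction χ⁻¹ (conj s))) univ := by
    intro z _
    have hd : Differentiable ℂ (fun s => conj (LFunction χ⁻¹ (conj s))) := by
      intro w
      have h3 := (hd2 (conj w)).hasDerivAt.conj_conj
      rw [Complex.conj_conj] at h3
      exact h3.differentiableAt
    exact hd.analyticAt z
  have hB : AnalyticOnNhd ℂ (LFunction χ) univ := fun z _ => hd1.analyticAt z
  have hgz (z : ℂ) (hz : 1 < z.re) : conj (LFunction χ⁻¹ (conj z)) = LFunction χ z := by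
    rw [LFunction_eq_LSeries _ (by rwa [conj_re]),
      LFunction_eq_LSeries _ hz, LSeries, LSeries, conj_tsum]
    refine tsum_congr fun n ↦ ?_
    rcases eq_or_ne n 0 with rfl | hn
    · simp
    · rw [LSeries.term_of_ne_zero hn, LSeries.term_of_ne_zero hn, map_div₀,
        ← conj_cpow _ _ (by rw [natCast_arg]; positivity), conj_natCast,
        ← MulChar.star_apply']
      simp
  have hev : (fun s => conj (LFunction χ⁻¹ (conj s))) =ᶠ[𝓝 (2 : ℂ)] LFunction χ :=
    eventuallyEq_of_mem ((isOpen_lt continuous_const continuous_re).mem_nhds (by norm_num)) hgz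
  have h4 := hA.eqOn_of_preconnected_of_eventuallyEq hB isPreconnected_univ (mem_univ _) hev (mem_univ s)
  have h5 := congrArg conj h4
  simp only [Complex.conj_conj] at h5
  exact h5

omit [NeZero q] in
lemma inv_even_iff : (χ⁻¹).Even ↔ χ.Even := by
  unfold DirichletCharacter.Even
  rw [MulChar.inv_apply_eq_inv', inv_eq_one]

omit [NeZero q] in
lemma gammaFactor_inv (s : ℂ) : gammaFactor χ⁻¹ s = gammaFactor χ s := by
  by_cases h : χ.Even
  · rw [Even.gammaFactor_def h, Even.gammaFactor_def (inv_even_iff.mpr h)]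
  · have h' : ¬ (χ⁻¹).Even := fun h2 => h (inv_even_iff.mp h2)
    simp [gammaFactor, h, h']

omit [NeZero q] in
lemma gammaFactor_ne_zero {s : ℂ} (hs : 0 < s.re) : gammaFactor χ s ≠ 0 := by
  unfold gammaFactor
  split_ifs
  · exact Gammaℝ_ne_zero_of_re_pos hs
  · exact Gammaℝ_ne_zero_of_re_pos (by rw [add_re, one_re]; linarith)

lemma differentiableAt_GammaR {s : ℂ} (hs : 0 < s.re) : DifferentiableAt ℂ Gammaℝ s := by
  have h : Gammaℝ = fun s : ℂ => (Real.pi : ℂ) ^ (-s / 2) * Gamma (s / 2) := by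
    funext s; rw [Gammaℝ_def]
  rw [h]
  apply DifferentiableAt.mul
  · exact DifferentiableAt.const_cpow (by fun_prop) (Or.inl (by exact_mod_cast Real.pi_ne_zero))
  · have h2 : DifferentiableAt ℂ Gamma (s / 2) := by
      apply differentiableAt_Gamma
      intro m hm
      have h3 := congrArg Complex.re hm
      have e : (s / 2).re = s.re / 2 := by
        rw [show (2 : ℂ) = ((2 : ℝ) : ℂ) by norm_num, Complex.div_ofReal_re]
      rw [e, neg_re, natCast_re] at h3
      have : (0 : ℝ) ≤ m := Nat.cast_nonneg m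
      linarith
    exact DifferentiableAt.comp s h2 (by fun_prop)

omit [NeZero q] in
lemma differentiableAt_gammaFactor {s : ℂ} (hs : 0 < s.re) : DifferentiableAt ℂ (gammaFactor χ) s := by
  by_cases h : χ.Even
  · have e : gammaFactor χ = Gammaℝ := by funext s; exact Even.gammaFactor_def h s
    rw [e]
    exact differentiableAt_GammaR hs
  · have e : gammaFactor χ = fun s => Gammaℝ (s + 1) := by
      funext s
      simp [gammaFactor, h]
    rw [e]
    have h3 : DifferentiableAt ℂ Gammaℝ (s + 1) :=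
      differentiableAt_GammaR (s := s + 1) (by rw [add_re, one_re]; linarith)
    have h4 : DifferentiableAt ℂ (fun z : ℂ => z + 1) s := by fun_prop
    exact DifferentiableAt.comp (g := Gammaℝ) (f := fun z : ℂ => z + 1) s h3 h4

lemma completed_eq (hq : 1 < q) {s : ℂ} (hs : 0 < s.re) :
    completedLFunction χ s = LFunction χ s * gammaFactor χ s := by
  rw [LFunction_eq_completed_div_gammaFactor χ s (Or.inr (by omega))]
  field_simp [gammaFactor_ne_zero (χ := χ) hs]

/-- the derivative of the functional equation at the central point -/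
theorem central (hq : 1 < q) (hχ : χ.IsPrimitive) (h1 : χ ≠ 1) (h0 : LFunction χ (1 / 2) ≠ 0) :
    2 * (deriv (LFunction χ) (1 / 2) / LFunction χ (1 / 2)).re =
      - Real.log q - 2 * (deriv (gammaFactor χ) (1 / 2) / gammaFactor χ (1 / 2)).re := by
  have h2 : χ⁻¹ ≠ 1 := inv_ne_one.2 h1
  have hq0 : (q : ℂ) ≠ 0 := by exact_mod_cast (by omega : q ≠ 0)
  have hhalf : (0 : ℝ) < ((1 / 2 : ℂ)).re := by norm_num
  have hg0 : gammaFactor χ (1 / 2) ≠ 0 := gammaFactor_ne_zero hhalf
  have hdL := ((differentiable_LFunction h1) (1 / 2)).hasDerivAt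
  have hdG := (differentiableAt_gammaFactor (χ := χ) hhalf).hasDerivAt
  have hconjhalf : conj (1 / 2 : ℂ) = 1 / 2 := by
    rw [map_div₀, map_one, map_ofNat]
  have hLt0 : LFunction χ⁻¹ (1 / 2) = conj (LFunction χ (1 / 2)) := by
    have := LFunction_conj' h1 (1 / 2)
    rwa [hconjhalf] at this
  have hdLt : HasDerivAt (LFunction χ⁻¹) (conj (deriv (LFunction χ) (1 / 2))) (1 / 2) := by
    have h3 := hdL.conj_conj
    rw [hconjhalf] at h3
    have e : (fun z => conj (LFunction χ (conj z))) = LFunction χ⁻¹ := by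
      funext z
      rw [← LFunction_conj' h1, Complex.conj_conj]
    have h4 : HasDerivAt (fun z => conj (LFunction χ (conj z))) (conj (deriv (LFunction χ) (1 / 2))) (1 / 2) := h3
    rwa [e] at h4
  -- the functional equation near `1/2`
  have hFE : (fun s : ℂ => LFunction χ (1 - s) * gammaFactor χ (1 - s)) =ᶠ[𝓝 (1 / 2)]
      (fun s : ℂ => (q : ℂ) ^ (s - 1 / 2) * rootNumber χ * (LFunction χ⁻¹ s * gammaFactor χ s)) := by
    have hmem : {z : ℂ | 0 < z.re ∧ z.re < 1} ∈ 𝓝 (1 / 2 : ℂ) := by
      apply IsOpen.mem_nhds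
      · exact (isOpen_lt continuous_const continuous_re).inter (isOpen_lt continuous_re continuous_const)
      · constructor <;> norm_num
    filter_upwards [hmem] with s hs
    have h3 := IsPrimitive.completedLFunction_one_sub hχ s
    rw [completed_eq hq (by rw [sub_re, one_re]; linarith [hs.2]), completed_eq hq hs.1,
      gammaFactor_inv] at h3
    exact h3
  have hval := hFE.eq_of_nhds
  have hA : HasDerivAt (fun s : ℂ => LFunction χ (1 - s) * gammaFactor χ (1 - s))
      (-(deriv (LFunction χ) (1 / 2)) * gammaFactor χ (1 / 2) +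
        LFunction χ (1 / 2) * (-(deriv (gammaFactor χ) (1 / 2)))) (1 / 2) := by
    have e : (1 : ℂ) - 1 / 2 = 1 / 2 := by norm_num
    have a1 : HasDerivAt (fun s : ℂ => LFunction χ (1 - s)) (-(deriv (LFunction χ) (1 / 2))) (1 / 2) := by
      have h5 : HasDerivAt (LFunction χ) (deriv (LFunction χ) (1 / 2)) (1 - 1 / 2) := by
        rw [e]; exact hdL
      exact h5.comp_const_sub 1 (1 / 2)
    have a2 : HasDerivAt (fun s : ℂ => gammaFactor χ (1 - s)) (-(deriv (gammaFactor χ) (1 / 2))) (1 / 2) := by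
      have h5 : HasDerivAt (gammaFactor χ) (deriv (gammaFactor χ) (1 / 2)) (1 - 1 / 2) := by
        rw [e]; exact hdG
      exact h5.comp_const_sub 1 (1 / 2)
    have a3 := a1.mul a2
    simp only [e] at a3
    exact a3
  have hB : HasDerivAt (fun s : ℂ => (q : ℂ) ^ (s - 1 / 2) * rootNumber χ * (LFunction χ⁻¹ s * gammaFactor χ s))
      (Complex.log q * rootNumber χ * (LFunction χ⁻¹ (1 / 2) * gammaFactor χ (1 / 2)) +
        rootNumber χ * (conj (deriv (LFunction χ) (1 / 2)) * gammaFactor χ (1 / 2) +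
          LFunction χ⁻¹ (1 / 2) * deriv (gammaFactor χ) (1 / 2))) (1 / 2) := by
    have b1 : HasDerivAt (fun s : ℂ => (q : ℂ) ^ (s - 1 / 2)) (Complex.log q) (1 / 2) := by
      have h6 := ((hasDerivAt_id (1 / 2 : ℂ)).sub_const (1 / 2)).const_cpow (c := (q : ℂ)) (Or.inl hq0)
      simp only [id, sub_self, cpow_zero, one_mul, mul_one] at h6
      exact h6
    have b2 := (b1.mul_const (rootNumber χ)).mul (hdLt.mul hdG)
    simp only [sub_self, cpow_zero, one_mul] at b2
    exact b2
  have hderiv : -(deriv (LFunction χ) (1 / 2)) * gammaFactor χ (1 / 2) +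
        LFunction χ (1 / 2) * (-(deriv (gammaFactor χ) (1 / 2))) =
      Complex.log q * rootNumber χ * (LFunction χ⁻¹ (1 / 2) * gammaFactor χ (1 / 2)) +
        rootNumber χ * (conj (deriv (LFunction χ) (1 / 2)) * gammaFactor χ (1 / 2) +
          LFunction χ⁻¹ (1 / 2) * deriv (gammaFactor χ) (1 / 2)) :=
    hA.unique (hB.congr_of_eventuallyEq hFE)
  have hval2 : LFunction χ (1 / 2) = rootNumber χ * LFunction χ⁻¹ (1 / 2) := by
    have e : (1 : ℂ) - 1 / 2 = 1 / 2 := by norm_num
    simp only [e, sub_self, cpow_zero, one_mul] at hval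
    have h7 : gammaFactor χ (1 / 2) * LFunction χ (1 / 2) =
        gammaFactor χ (1 / 2) * (rootNumber χ * LFunction χ⁻¹ (1 / 2)) := by
      linear_combination hval
    exact mul_left_cancel₀ hg0 h7
  have hL0 : conj (LFunction χ (1 / 2)) ≠ 0 := by
    intro h
    apply h0
    have := congrArg conj h
    rwa [Complex.conj_conj, map_zero] at this
  have hW : rootNumber χ ≠ 0 := by
    intro h
    rw [h, zero_mul] at hval2
    exact h0 hval2
  -- divide
  have hkey : -(deriv (LFunction χ) (1 / 2) / LFunction χ (1 / 2)) - deriv (gammaFactor χ) (1 / 2) / gammaFactor χ (1 / 2) =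
      Complex.log q + conj (deriv (LFunction χ) (1 / 2) / LFunction χ (1 / 2)) +
        deriv (gammaFactor χ) (1 / 2) / gammaFactor χ (1 / 2) := by
    rw [hLt0] at hderiv hval2
    rw [map_div₀]
    generalize conj (deriv (LFunction χ) (1 / 2)) = D' at hderiv ⊢
    generalize deriv (LFunction χ) (1 / 2) = D at hderiv ⊢
    generalize conj (LFunction χ (1 / 2)) = M at hderiv hval2 hL0 ⊢
    rw [hval2] at hderiv h0 ⊢
    generalize rootNumber χ = W at hderiv h0 hW ⊢
    generalize deriv (gammaFactor χ) (1 / 2) = G' at hderiv ⊢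
    generalize gammaFactor χ (1 / 2) = G at hderiv hg0 ⊢
    field_simp
    linear_combination hderiv
  have hre := congrArg Complex.re hkey
  simp only [sub_re, neg_re, add_re, conj_re] at hre
  have hlog : (Complex.log (q : ℂ)).re = Real.log q := by
    rw [Complex.log_re, Complex.norm_natCast]
  rw [hlog] at hre
  linarith

end aux

/-- The negation of the preceding statement: There are A>0, D>1/2 such that for prime q→∞, uniformly in θ in [0,2π], the max over non-principal χ mod q with L(1/2,χ)≠0 of Re(e^{-iθ}L'/L(1/2,χ)) is asymptotic to A·√(log q)·(log log q)^D. -/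
theorem result :
    ¬ (∃ A D : ℝ, 0 < A ∧ 1 / 2 < D ∧
      ∀ ε : ℝ, 0 < ε → ∃ Q : ℕ, ∀ (q : ℕ) [NeZero q], q.Prime → Q ≤ q →
        ∀ θ : ℝ, θ ∈ Set.Icc (0 : ℝ) (2 * Real.pi) →
          (∀ χ : DirichletCharacter ℂ q, χ ≠ 1 → LFunction χ (1 / 2) ≠ 0 →
            (Complex.exp (-(θ : ℂ) * Complex.I) *
                (deriv (LFunction χ) (1 / 2) / LFunction χ (1 / 2))).re ≤
              (1 + ε) * A * Real.sqrt (Real.log q) * (Real.log (Real.log q)) ^ D) ∧
          (∃ χ : DirichletCharacter ℂ q, χ ≠ 1 ∧ LFunction χ (1 / 2) ≠ 0 ∧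
            (1 - ε) * A * Real.sqrt (Real.log q) * (Real.log (Real.log q)) ^ D ≤
              (Complex.exp (-(θ : ℂ) * Complex.I) *
                (deriv (LFunction χ) (1 / 2) / LFunction χ (1 / 2))).re)) := by
  rintro ⟨A, D, hA, hD, h⟩
  obtain ⟨Q, hQ⟩ := h (1 / 2) (by norm_num)
  set c0 : ℝ := |(deriv Gammaℝ (1 / 2) / Gammaℝ (1 / 2)).re| with hc0
  set c1 : ℝ := |(deriv (fun s : ℂ => Gammaℝ (s + 1)) (1 / 2) / Gammaℝ (1 / 2 + 1)).re| with hc1
  obtain ⟨q, hqge, hqp⟩ := Nat.exists_infinite_primes (max Q (max 3 ⌈Real.exp (2 * (c0 + c1) + 2)⌉₊))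
  have hqQ : Q ≤ q := (le_max_left _ _).trans hqge
  have hq3 : 3 ≤ q := (le_max_left _ _).trans ((le_max_right _ _).trans hqge)
  have hqe : Real.exp (2 * (c0 + c1) + 2) ≤ q :=
    (Nat.le_ceil _).trans (by exact_mod_cast (le_max_right _ _).trans ((le_max_right _ _).trans hqge))
  have : NeZero q := ⟨by omega⟩
  obtain ⟨-, χ, h1, h0, hle⟩ := hQ q hqp hqQ 0 ⟨le_rfl, by positivity⟩
  have hlogq : 2 * (c0 + c1) + 2 ≤ Real.log q := by
    rw [← Real.log_exp (2 * (c0 + c1) + 2)]
    exact Real.log_le_log (Real.exp_pos _) hqe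
  have hc0n : 0 ≤ c0 := abs_nonneg _
  have hc1n : 0 ≤ c1 := abs_nonneg _
  have hχ : χ.IsPrimitive := by
    rw [DirichletCharacter.isPrimitive_def]
    have hdvd : χ.conductor ∣ q := χ.conductor_dvd_level
    rcases (Nat.dvd_prime hqp).1 hdvd with h3 | h3
    · exfalso
      exact h1 (DirichletCharacter.eq_one_iff_conductor_eq_one.2 h3)
    · exact h3
  have hcen := central (by omega) hχ h1 h0
  have hgam : |(deriv (gammaFactor χ) (1 / 2) / gammaFactor χ (1 / 2)).re| ≤ c0 + c1 := by
    by_cases hev : χ.Even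
    · have e : gammaFactor χ = Gammaℝ := by funext s; exact Even.gammaFactor_def hev s
      rw [e]
      linarith
    · have e : gammaFactor χ = fun s => Gammaℝ (s + 1) := by
        funext s
        simp [gammaFactor, hev]
      rw [e]
      show |(deriv (fun s : ℂ => Gammaℝ (s + 1)) (1 / 2) / Gammaℝ (1 / 2 + 1)).re| ≤ c0 + c1
      rw [← hc1]
      linarith
  have hneg : (deriv (LFunction χ) (1 / 2) / LFunction χ (1 / 2)).re < 0 := by
    have := abs_le.1 hgam
    linarith [this.1]
  have hpos : 0 < (1 - 1 / 2) * A * Real.sqrt (Real.log q) * (Real.log (Real.log q)) ^ D := by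
    have h5 : 1 < Real.log q := by linarith
    have h6 : 0 < Real.log (Real.log q) := Real.log_pos h5
    have h7 : 0 < Real.sqrt (Real.log q) := Real.sqrt_pos.2 (by linarith)
    have h8 : 0 < (Real.log (Real.log q)) ^ D := Real.rpow_pos_of_pos h6 _
    have h9 : (0 : ℝ) < 1 - 1 / 2 := by norm_num
    positivity
  have hz : (Complex.exp (-((0 : ℝ) : ℂ) * Complex.I) *
                (deriv (LFunction χ) (1 / 2) / LFunction χ (1 / 2))).re =
      (deriv (LFunction χ) (1 / 2) / LFunction χ (1 / 2)).re := by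
    rw [Complex.ofReal_zero, neg_zero, zero_mul, Complex.exp_zero, one_mul]
  rw [hz] at hle
  linarith

end Pool.Agent.S16940
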