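import Pool.Statements.S17203
import Pool.Agent.W10.SchlG

set_option autoImplicit false
open Pool Pool.MP_637dc3_nt

namespace Pool.Agent.S17203

/-- For 1≤n≤m and transcendental real ξ: if infinitely many q≥1 have all ‖qξ^j‖≤q^(-l) for j≤n, then for every μ<(nl−m+n)/m infinitely many q≥1 have all ‖qξ^j‖≤q^(-μ) for j≤m; i.e. λ_m(ξ)≥(nλ_n(ξ)−m+n)/m. -/
theorem result :
    ∀ (m n : ℕ), 1 ≤ n → n ≤ m → ∀ ξ : ℝ, Transcendental ℚ ξ →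
      ∀ l μ : ℝ,
        {q : ℕ | 0 < q ∧ ∀ j ∈ Finset.Icc 1 n,
            |(q : ℝ) * ξ ^ j - ((round ((q : ℝ) * ξ ^ j) : ℤ) : ℝ)| ≤ (q : ℝ) ^ (-l)}.Infinite →
        μ < ((n : ℝ) * l - (m : ℝ) + (n : ℝ)) / (m : ℝ) →
        {q : ℕ | 0 < q ∧ ∀ j ∈ Finset.Icc 1 m,
            |(q : ℝ) * ξ ^ j - ((round ((q : ℝ) * ξ ^ j) : ℤ) : ℝ)| ≤ (q : ℝ) ^ (-μ)}.Infinite := by
  intro m n hn hnm ξ hξ l μ hinf hμ
  have hirr : Irrational ξ := by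
    rintro ⟨r, rfl⟩
    exact hξ (isAlgebraic_algebraMap r)
  exact Pool.Agent.W10.Schl.schleischitz m n hn hnm ξ hirr l μ hinf hμ

end Pool.Agent.S17203
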