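import Pool.Statements.S17206
import Pool.Agent.Erdos456.P6

set_option autoImplicit false
open Filter
open Pool Pool.MP_6380c3_nt

namespace Pool.Agent.S17206

/-- The negation of the preceding statement: The set of n whose least positive m with n dividing phi(m) is smaller than the least prime congruent to 1 mod n has natural density 1. -/
theorem result :
    ¬ (Tendsto
      (fun N : ℕ =>
        (((Finset.range N).filter
            (fun n : ℕ =>
              sInf {m : ℕ | 0 < m ∧ n ∣ Nat.totient m} <
                sInf {p : ℕ | p.Prime ∧ p ≡ 1 [MOD n]})).card : ℝ) / (N : ℝ))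
      atTop (nhds 1)) := by
  intro h
  apply Pool.Agent.Erdos456.eq_not_density_zero'
  have h1 : Tendsto (fun N : ℕ => (1 : ℝ) -
      (((Finset.range N).filter
            (fun n : ℕ =>
              sInf {m : ℕ | 0 < m ∧ n ∣ Nat.totient m} <
                sInf {p : ℕ | p.Prime ∧ p ≡ 1 [MOD n]})).card : ℝ) / (N : ℝ)) atTop (nhds 0) := by
    have h2 := (tendsto_const_nhds (x := (1 : ℝ))).sub h
    simpa using h2
  refine squeeze_zero' (Eventually.of_forall fun N => by positivity) ?_ h1
  filter_upwards [eventually_gt_atTop 0] with N hN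
  have hN' : (0 : ℝ) < N := by exact_mod_cast hN
  set A := (Finset.range N).filter
            (fun n : ℕ =>
              sInf {m : ℕ | 0 < m ∧ n ∣ Nat.totient m} <
                sInf {p : ℕ | p.Prime ∧ p ≡ 1 [MOD n]}) with hA
  have hsub : Pool.Agent.Erdos456.EqS ∩ Set.Iio N ⊆ ((Finset.range N \ A : Finset ℕ) : Set ℕ) := by
    rintro n ⟨⟨h1, h2⟩, h3⟩
    rw [Finset.coe_sdiff]
    refine ⟨Finset.mem_coe.mpr (Finset.mem_range.mpr h3), ?_⟩
    intro hn
    have hn2 := (Finset.mem_filter.mp (Finset.mem_coe.mp hn)).2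
    exact absurd h2 (ne_of_gt hn2)
  have hle : (Pool.Agent.Erdos456.EqS ∩ Set.Iio N).ncard ≤ (Finset.range N \ A).card := by
    have := Set.ncard_le_ncard hsub (Finset.finite_toSet _)
    rwa [Set.ncard_coe_finset] at this
  have hcard : (Finset.range N \ A).card = N - A.card := by
    rw [Finset.card_sdiff_of_subset (Finset.filter_subset _ _), Finset.card_range]
  have hAle : A.card ≤ N := by
    have := Finset.card_le_card (Finset.filter_subset (fun n : ℕ =>
              sInf {m : ℕ | 0 < m ∧ n ∣ Nat.totient m} <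
                sInf {p : ℕ | p.Prime ∧ p ≡ 1 [MOD n]}) (Finset.range N))
    rwa [Finset.card_range] at this
  rw [hcard] at hle
  have hle2 : ((Pool.Agent.Erdos456.EqS ∩ Set.Iio N).ncard : ℝ) ≤ (N : ℝ) - A.card := by
    have h5 : ((Pool.Agent.Erdos456.EqS ∩ Set.Iio N).ncard : ℝ) ≤ ((N - A.card : ℕ) : ℝ) := by
      exact_mod_cast hle
    rwa [Nat.cast_sub hAle] at h5
  rw [div_le_iff₀ hN', sub_mul, div_mul_cancel₀ _ hN'.ne', one_mul]
  exact hle2

end Pool.Agent.S17206
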