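import Pool.Statements.S17434
import Pool.Agent.Results.MP_74da6d_nt.NoFermatFactor

set_option autoImplicit false
open Pool Pool.MP_74da6d_nt

namespace Pool.Agent.S17434

/-- The negation of the preceding statement: For every odd k ≥ 3 such that k·2^n+1 is prime for some n, there are infinitely many m for which the Fermat number 2^(2^m)+1 is divisible by some prime of the form k·2^n+1. -/
theorem result :
    ¬ (∀ k : ℕ, Odd k → 3 ≤ k → (∃ n : ℕ, Nat.Prime (k * 2 ^ n + 1)) →
      Set.Infinite {m : ℕ | ∃ n : ℕ, Nat.Prime (k * 2 ^ n + 1) ∧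
        (k * 2 ^ n + 1) ∣ Nat.fermatNumber m}) := by
  intro h
  obtain ⟨k, hk1, hk2, ⟨n, hn1, hn2⟩, H⟩ := Pool.Agent.Results.MP_74da6d_nt.NoFermatFactor.result
  obtain ⟨m, n', hp, hd⟩ := (h k hk1 hk2 ⟨n, hn2⟩).nonempty
  rcases Nat.eq_zero_or_pos n' with h0 | h0
  · subst h0
    obtain ⟨j, hj⟩ := hk1
    have h5 : k * 2 ^ 0 + 1 = 2 * (j + 1) := by rw [hj]; ring
    rw [h5] at hp
    have h6 : ¬ Nat.Prime (2 * (j + 1)) := Nat.not_prime_mul (by norm_num) (by omega)
    exact h6 hp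
  · exact H m n' h0 hp hd

end Pool.Agent.S17434
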