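import Pool.Statements.S17720
-- import your own Pool.Agent.* helpers here
import Pool.Agent.W28.CF5

set_option autoImplicit false
open Pool Pool.MP_8d5d9c_nt

namespace Pool.Agent.S17720

open Pool.Agent.W28.CF in
/-- a run of ones: all orbit points but the last four are in `[3/5, 5/8)` -/
lemma ones_mem {r : ℕ} (hr : 4 ≤ r) {s : ℝ} (hs : s ∈ Set.Ioo (0 : ℝ) 1) :
    3 / 5 ≤ ev (List.replicate r 1) s ∧ ev (List.replicate r 1) s < 5 / 8 := by
  obtain ⟨k, rfl⟩ := Nat.exists_eq_add_of_le hr
  have h1 : List.replicate (4 + k) 1 = [1, 1, 1, 1] ++ List.replicate k 1 := by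
    rw [← List.replicate_append_replicate]; rfl
  rw [h1, ev_append]
  have hv : ev (List.replicate k 1) s ∈ Set.Ioo (0 : ℝ) 1 :=
    ev_Ioo (fun a ha => (List.mem_replicate.mp ha).2.ge) hs
  set v := ev (List.replicate k 1) s
  have hv0 := hv.1
  have hv1 := hv.2
  have e : ev [1, 1, 1, 1] v = (3 + 2 * v) / (5 + 3 * v) := by
    simp only [ev]
    push_cast
    have h2 : (0 : ℝ) < 1 + v := by linarith
    have h3 : (1 : ℝ) + 1 / (1 + v) = (2 + v) / (1 + v) := by field_simp; ring
    have h4 : (1 : ℝ) + 1 / ((2 + v) / (1 + v)) = (3 + 2 * v) / (2 + v) := by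
      field_simp; ring
    have h5 : (1 : ℝ) + 1 / ((3 + 2 * v) / (2 + v)) = (5 + 3 * v) / (3 + 2 * v) := by
      field_simp; ring
    rw [h3, h4, h5, one_div_div]
  rw [e, div_le_div_iff₀ (by norm_num) (by linarith), div_lt_div_iff₀ (by linarith) (by norm_num)]
  constructor <;> linarith

open Pool.Agent.W28.CF in
/-- The negation of the preceding statement: If x is continued-fraction normal (its Gauss-map orbit is equidistributed for the Gauss measure) and q, r are irrational roots of nonzero integer quadratics with q nonzero, then q times x plus r is also continued-fraction normal. -/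
theorem result :
    ¬ (∀ x q r : ℝ,
      (Irrational x ∧ ∀ t : ℝ, 0 ≤ t → t ≤ 1 →
        Filter.Tendsto
          (fun N : ℕ =>
            (((Finset.range N).filter
              (fun n => (fun y : ℝ => Int.fract (1 / y))^[n] (Int.fract x) < t)).card : ℝ) / (N : ℝ))
          Filter.atTop (nhds (Real.log (1 + t) / Real.log 2))) →
      (Irrational q ∧ ∃ a b c : ℤ, (a ≠ 0 ∨ b ≠ 0 ∨ c ≠ 0) ∧
        (a : ℝ) * q ^ 2 + (b : ℝ) * q + (c : ℝ) = 0) →
      (Irrational r ∧ ∃ a b c : ℤ, (a ≠ 0 ∨ b ≠ 0 ∨ c ≠ 0) ∧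
        (a : ℝ) * r ^ 2 + (b : ℝ) * r + (c : ℝ) = 0) →
      q ≠ 0 →
      (Irrational (q * x + r) ∧ ∀ t : ℝ, 0 ≤ t → t ≤ 1 →
        Filter.Tendsto
          (fun N : ℕ =>
            (((Finset.range N).filter
              (fun n => (fun y : ℝ => Int.fract (1 / y))^[n] (Int.fract (q * x + r)) < t)).card : ℝ) / (N : ℝ))
          Filter.atTop (nhds (Real.log (1 + t) / Real.log 2)))) := by
  intro hall
  obtain ⟨x, hx01, hxirr, hxequi, hanom⟩ := main_construction
  have hquad : Irrational √2 ∧ ∃ a b c : ℤ, (a ≠ 0 ∨ b ≠ 0 ∨ c ≠ 0) ∧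
      (a : ℝ) * √2 ^ 2 + (b : ℝ) * √2 + (c : ℝ) = 0 := by
    refine ⟨irrational_sqrt_two, 1, 0, -2, Or.inl one_ne_zero, ?_⟩
    rw [Real.sq_sqrt (by norm_num)]
    push_cast
    norm_num
  have hfx : Int.fract x = x := Int.fract_eq_self.mpr ⟨hx01.1.le, hx01.2⟩
  obtain ⟨-, hz⟩ := hall x √2 √2 ⟨hxirr, fun t ht0 ht1 => by
    rw [hfx, ← lam_eq ht0 ht1]
    exact hxequi t ⟨ht0, ht1⟩⟩ hquad hquad (by positivity)
  have hzx : √2 * x + √2 = √2 * (x + 1) := by ring
  rw [hzx] at hz
  set z := Int.fract (√2 * (x + 1)) with hzdef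
  have h1 := hz (5 / 8) (by norm_num) (by norm_num)
  have h2 := hz (3 / 5) (by norm_num) (by norm_num)
  have h3 := h1.sub h2
  have hlog : Real.log (1 + 5 / 8) / Real.log 2 - Real.log (1 + 3 / 5) / Real.log 2 < 1 / 20 := by
    have hl2 : 0 < Real.log 2 := Real.log_pos (by norm_num)
    rw [← sub_div, ← Real.log_div (by norm_num) (by norm_num), div_lt_div_iff₀ hl2 (by norm_num)]
    have h4 : Real.log ((1 + 5 / 8) / (1 + 3 / 5)) ≤ (1 + 5 / 8) / (1 + 3 / 5) - 1 :=
      Real.log_le_sub_one_of_pos (by norm_num)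
    have h5 := Real.log_two_gt_d9
    norm_num at h4 ⊢
    linarith
  have h4 := h3.eventually (gt_mem_nhds hlog)
  obtain ⟨N0, hN0⟩ := Filter.eventually_atTop.mp h4
  obtain ⟨m, hm, C, hC1, hC2, s', hs', hzC⟩ := hanom (N0 + 1000)
  set K := m / 8 with hK
  set N := m + K with hN
  have hfin := hN0 N (by omega)
  -- the orbit during the run of ones
  have horb : ∀ n ∈ Finset.Ico m (m + (K - 4)),
      3 / 5 ≤ (fun y : ℝ => Int.fract (1 / y))^[n] z ∧
        (fun y : ℝ => Int.fract (1 / y))^[n] z < 5 / 8 := by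
    intro n hn
    rw [Finset.mem_Ico] at hn
    have hpos : ∀ a ∈ C ++ List.replicate K 1, 1 ≤ a := pos_ones hC2 K
    have hlen : (C ++ List.replicate K 1).length = m + K := by
      rw [List.length_append, hC1, List.length_replicate]
    have h5 := G_iter_drop hpos hs' (i := n) (by rw [hlen]; omega)
    have h6 : (C ++ List.replicate K 1).drop n = List.replicate (K - (n - m)) 1 := by
      rw [List.drop_append, List.drop_of_length_le (by rw [hC1]; exact hn.1), List.nil_append,
        List.drop_replicate, hC1]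
    rw [h6, ← hzC] at h5
    have h7 : (fun y : ℝ => Int.fract (1 / y))^[n] z = ev (List.replicate (K - (n - m)) 1) s' := h5
    rw [h7]
    exact ones_mem (by omega) hs'
  have hcard : ((Finset.range N).filter
        (fun n => (fun y : ℝ => Int.fract (1 / y))^[n] z < 3 / 5)).card + (K - 4)
      ≤ ((Finset.range N).filter
        (fun n => (fun y : ℝ => Int.fract (1 / y))^[n] z < 5 / 8)).card := by
    have hd : Disjoint ((Finset.range N).filter
        (fun n => (fun y : ℝ => Int.fract (1 / y))^[n] z < 3 / 5)) (Finset.Ico m (m + (K - 4))) := by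
      rw [Finset.disjoint_left]
      intro n hn1 hn2
      have h5 := (horb n hn2).1
      have h6 := (Finset.mem_filter.mp hn1).2
      linarith
    have hcc : (Finset.Ico m (m + (K - 4))).card = K - 4 := by
      rw [Nat.card_Ico]; omega
    rw [← hcc, ← Finset.card_union_of_disjoint hd]
    apply Finset.card_le_card
    intro n hn
    rcases Finset.mem_union.mp hn with h | h
    · rw [Finset.mem_filter] at h ⊢
      exact ⟨h.1, by linarith [h.2]⟩
    · rw [Finset.mem_filter]
      refine ⟨?_, (horb n h).2⟩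
      rw [Finset.mem_Ico] at h
      rw [Finset.mem_range]
      omega
  have hcardR : (((Finset.range N).filter
        (fun n => (fun y : ℝ => Int.fract (1 / y))^[n] z < 3 / 5)).card : ℝ) + ((K - 4 : ℕ) : ℝ)
      ≤ (((Finset.range N).filter
        (fun n => (fun y : ℝ => Int.fract (1 / y))^[n] z < 5 / 8)).card : ℝ) := by
    exact_mod_cast hcard
  have hNpos : (0 : ℝ) < N := by
    have : 0 < N := by omega
    exact_mod_cast this
  rw [← sub_div, div_lt_iff₀ hNpos] at hfin
  have hKN : N ≤ 20 * (K - 4) := by omega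
  have hKN' : (N : ℝ) ≤ 20 * ((K - 4 : ℕ) : ℝ) := by exact_mod_cast hKN
  linarith

end Pool.Agent.S17720
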