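import Pool.Statements.S17760
import Pool.Agent.W243.LangC

set_option autoImplicit false
open Pool Pool.MP_90c6bd_nt

namespace Pool.Agent.S17760

open Pool.Agent.W243.LangA Pool.Agent.W243.LangB Pool.Agent.W243.LangC

/-- The negation of the preceding statement: For each ε>0 there is C>0 such that for all n, positive rationals a_j, integers b_j with Λ=Σ b_j log a_j ≠ 0: ∣Λ∣ > C^n·B/(ΠB_j·ΠA_j²)^(1+ε), where B_j=max(∣b_j∣,1), B=max B_j, A_j=max(num, den) of a_j. -/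
theorem result :
    ¬ (∀ ε : ℝ, 0 < ε → ∃ C : ℝ, 0 < C ∧
      ∀ (n : ℕ) (a : Fin n → ℚ) (b : Fin n → ℤ),
        (∀ j, 0 < a j) →
        (∑ j, (b j : ℝ) * Real.log (a j : ℝ)) ≠ 0 →
        C ^ n * (((Finset.univ.sup fun j => max (b j).natAbs 1) : ℕ) : ℝ) /
            ((∏ j, (((max (b j).natAbs 1 : ℕ)) : ℝ)) *
              ∏ j, (((max (a j).num.natAbs (a j).den : ℕ)) : ℝ) ^ 2) ^ (1 + ε)
          < |∑ j, (b j : ℝ) * Real.log (a j : ℝ)|) := by
  intro h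
  obtain ⟨C, hC, hh⟩ := h (1/32) (by norm_num)
  obtain ⟨N, hN⟩ := exists_nat_gt ((10:ℝ)^75 * (10^160)^2 / C^6)
  obtain ⟨τ, hτN, hτ7⟩ : ∃ τ : ℕ, N ≤ τ ∧ 10^7 ≤ τ := ⟨max N (10^7), le_max_left _ _, le_max_right _ _⟩
  obtain ⟨t, ht⟩ : ∃ t : ℕ, t = τ^2 := ⟨_, rfl⟩
  have ht13 : 10^13 ≤ t := by
    rw [ht]
    calc 10^13 ≤ (10^7)^2 := by norm_num
      _ ≤ τ^2 := Nat.pow_le_pow_left hτ7 2
  have ht13' : (10:ℝ)^13 ≤ (t:ℝ) := by exact_mod_cast ht13
  have hF := F_pos (t:ℝ) ht13'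
  have h1 := hh 6 (a t) (b t) (a_pos t ht13) (by rw [sum_eq]; exact hF.1.ne')
  rw [sum_eq, abs_of_pos hF.1] at h1
  have hPB := prodB_le t ht13
  have hPA := prodA_le t ht13
  have hS := sup_ge t ht13
  have hPB1 : (1:ℝ) ≤ ∏ j, (((max (b t j).natAbs 1 : ℕ)) : ℝ) := by
    calc (1:ℝ) = ∏ j : Fin 6, (1:ℝ) := by simp
      _ ≤ _ := by
        apply Finset.prod_le_prod
        · intro j _; norm_num
        · intro j _
          exact_mod_cast le_max_right _ _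
  have hPA1 : (1:ℝ) ≤ ∏ j, (((max (a t j).num.natAbs (a t j).den : ℕ)) : ℝ) ^ 2 := by
    calc (1:ℝ) = ∏ j : Fin 6, (1:ℝ) := by simp
      _ ≤ _ := by
        apply Finset.prod_le_prod
        · intro j _; norm_num
        · intro j _
          have h2 : 1 ≤ max (a t j).num.natAbs (a t j).den :=
            le_trans (a t j).pos (le_max_right _ _)
          exact one_le_pow₀ (by exact_mod_cast h2)
  generalize (∏ j, (((max (b t j).natAbs 1 : ℕ)) : ℝ)) = PB at *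
  generalize (∏ j, (((max (a t j).num.natAbs (a t j).den : ℕ)) : ℝ) ^ 2) = PA at *
  generalize (((Finset.univ.sup fun j => max (b t j).natAbs 1) : ℕ) : ℝ) = SB at *
  have hτ0 : (0:ℝ) < (τ:ℝ) := by
    have : 0 < τ := by
      have : (0:ℕ) < 10^7 := by norm_num
      omega
    exact_mod_cast this
  have htτ : (t:ℝ) = (τ:ℝ)^2 := by rw [ht]; push_cast; rfl
  have hX : PB * PA ≤ 10^160 * (τ:ℝ)^32 := by
    calc PB * PA ≤ (10^156 * (t:ℝ)^4) * (4096 * (t:ℝ)^12) := by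
          apply mul_le_mul hPB hPA (by linarith) (by positivity)
      _ = (10^156 * 4096) * (τ:ℝ)^32 := by rw [htτ]; ring
      _ ≤ 10^160 * (τ:ℝ)^32 := by
          gcongr
          norm_num
  have hX0 : 0 < PB * PA := by positivity
  have hXp : (PB * PA) ^ ((1:ℝ) + 1/32) ≤ (10^160)^2 * (τ:ℝ)^33 := by
    calc (PB * PA) ^ ((1:ℝ) + 1/32) ≤ (10^160 * (τ:ℝ)^32) ^ ((1:ℝ) + 1/32) :=
          Real.rpow_le_rpow hX0.le hX (by norm_num)
      _ = ((10:ℝ)^160) ^ ((1:ℝ) + 1/32) * ((τ:ℝ)^32) ^ ((1:ℝ) + 1/32) :=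
          Real.mul_rpow (by positivity) (by positivity)
      _ ≤ (10^160)^2 * (τ:ℝ)^33 := by
          apply mul_le_mul
          · calc ((10:ℝ)^160) ^ ((1:ℝ) + 1/32) ≤ ((10:ℝ)^160) ^ (2:ℝ) :=
                Real.rpow_le_rpow_of_exponent_le (one_le_pow₀ (by norm_num)) (by norm_num)
              _ = (10^160)^2 := by
                rw [← Real.rpow_natCast ((10:ℝ)^160) 2]; norm_num
          · apply le_of_eq
            rw [← Real.rpow_natCast (τ:ℝ) 32, ← Real.rpow_mul hτ0.le, ← Real.rpow_natCast (τ:ℝ) 33]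
            norm_num
          · positivity
          · positivity
  have hXpos : 0 < (PB * PA) ^ ((1:ℝ) + 1/32) := Real.rpow_pos_of_pos hX0 _
  have h2 : C^6 * (t:ℝ)^2 / ((10^160)^2 * (τ:ℝ)^33) ≤ C^6 * SB / (PB * PA) ^ ((1:ℝ) + 1/32) := by
    apply div_le_div₀
    · have : 0 ≤ SB := le_trans (by positivity) hS
      positivity
    · exact mul_le_mul_of_nonneg_left hS (by positivity)
    · exact hXpos
    · exact hXp
  have h3 : C^6 * (t:ℝ)^2 / ((10^160)^2 * (τ:ℝ)^33) < 10^75 / (t:ℝ)^15 :=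
    lt_of_le_of_lt h2 (lt_of_lt_of_le h1 hF.2)
  rw [htτ, div_lt_div_iff₀ (by positivity) (by positivity)] at h3
  have h4 : C^6 * ((τ:ℝ)^2)^2 * ((τ:ℝ)^2)^15 = (C^6 * τ) * (τ:ℝ)^33 := by ring
  have h5 : 10^75 * ((10^160)^2 * (τ:ℝ)^33) = (10^75 * (10^160)^2) * (τ:ℝ)^33 := by ring
  rw [h4, h5] at h3
  have h6 : C^6 * (τ:ℝ) < 10^75 * (10^160)^2 := lt_of_mul_lt_mul_right h3 (by positivity)
  have h7 : (10:ℝ)^75 * (10^160)^2 / C^6 < (τ:ℝ) := lt_of_lt_of_le hN (by exact_mod_cast hτN)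
  rw [div_lt_iff₀ (by positivity)] at h7
  linarith

end Pool.Agent.S17760
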