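import Pool.Statements.S17771
import Pool.Agent.W22.PS2

set_option autoImplicit false
open Pool Pool.MP_91e459_nt

namespace Pool.Agent.S17771

open Pool.Agent.W22.PS

/-- the first inequality, over the reals, in the form `∑_{i<k} i^n < k^n` when `(1-1/k)^n < 1/2` -/
lemma first (n k : ℕ) (hk : 1 ≤ k) (h : (1 - 1 / (k : ℝ)) ^ n < 1 / 2) :
    ∀ j : ℕ, j ≤ k → ∀ s : ℕ, s + j = k →
      (s : ℝ) ^ n * 2 ^ j ≤ (k : ℝ) ^ n := by
  intro j
  induction j with
  | zero =>
      intro _ s hs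
      have : s = k := by omega
      subst this
      simp
  | succ j ih =>
      intro hj s hs
      have h1 := ih (by omega) (s + 1) (by omega)
      have hk0 : (0 : ℝ) < k := by exact_mod_cast hk
      -- s/(s+1) ≤ 1 - 1/k
      have h2 : (s : ℝ) / (s + 1) ≤ 1 - 1 / (k : ℝ) := by
        have hsk : (s : ℝ) + 1 ≤ k := by
          have : s + 1 ≤ k := by omega
          exact_mod_cast this
        rw [div_le_iff₀ (by positivity)]
        have : 1 / (k : ℝ) * (s + 1) ≤ 1 := by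
          rw [div_mul_eq_mul_div, one_mul, div_le_one hk0]
          exact hsk
        nlinarith
      have h3 : ((s : ℝ) / (s + 1)) ^ n ≤ 1 / 2 :=
        (pow_le_pow_left₀ (by positivity) h2 n).trans h.le
      rw [div_pow, div_le_iff₀ (by positivity)] at h3
      push_cast at h1
      calc (s : ℝ) ^ n * 2 ^ (j + 1) ≤ (1 / 2 * ((s : ℝ) + 1) ^ n) * 2 ^ (j + 1) := by gcongr
        _ = ((s : ℝ) + 1) ^ n * 2 ^ j := by ring
        _ ≤ _ := h1

lemma first' (n k : ℕ) (hn : 1 ≤ n) (hk : 1 ≤ k) (h : (1 - 1 / (k : ℝ)) ^ n < 1 / 2) :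
    ∀ j : ℕ, j ≤ k → (∑ i ∈ Finset.Icc 1 (j - 1), (i : ℝ) ^ n) * 2 ^ k <
      2 ^ j * (k : ℝ) ^ n := by
  intro j
  have hk0 : (0 : ℝ) < k := by exact_mod_cast hk
  induction j with
  | zero => intro _; simp; positivity
  | succ j ih =>
      intro hj
      rcases Nat.eq_zero_or_pos j with h0 | h0
      · subst h0; simp; positivity
      · have h1 := ih (by omega)
        have h2 := first n k hk h (k - j) (by omega) j (by omega)
        have e : j + 1 - 1 = (j - 1) + 1 := by omega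
        rw [e, Finset.sum_Icc_succ_top (by omega), add_mul]
        have e2 : (((j - 1 + 1 : ℕ)) : ℝ) = j := by
          congr 1; omega
        rw [e2]
        have e3 : (2 : ℝ) ^ k = 2 ^ (k - j) * 2 ^ j := by
          rw [← pow_add]; congr 1; omega
        have h4 : (j : ℝ) ^ n * 2 ^ k ≤ (k : ℝ) ^ n * 2 ^ j := by
          rw [e3, ← mul_assoc]
          gcongr
        calc _ < 2 ^ j * (k : ℝ) ^ n + (k : ℝ) ^ n * 2 ^ j := by linarith
          _ = _ := by ring

/-- the second inequality for large `m` -/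
lemma second_large (m n : ℕ) (hm : 51 ≤ m) (h : (1 - 1 / (m : ℝ)) ^ n > 1 / 2) :
    ((m : ℝ) + 1) ^ n < ∑ i ∈ Finset.Icc 1 m, (i : ℝ) ^ n := by
  have hm' : (51 : ℝ) ≤ m := by exact_mod_cast hm
  have hn : (n : ℝ) * ell ((m : ℝ) - 1 / 2) ≤ Real.log 2 := by
    have h1 : Real.log (1 / 2) < Real.log ((1 - 1 / (m : ℝ)) ^ n) :=
      Real.log_lt_log (by norm_num) h
    rw [Real.log_pow, one_div, Real.log_inv] at h1
    have h2 : Real.log (1 - (m : ℝ)⁻¹) = - ell ((m : ℝ) - 1 / 2) := by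
      unfold ell
      have e : 1 - (m : ℝ)⁻¹ = ((m : ℝ) - 1 / 2 - 1 / 2) / ((m : ℝ) - 1 / 2 + 1 / 2) := by
        have : (m : ℝ) ≠ 0 := by linarith
        have h3 : (m : ℝ) - 1 / 2 + 1 / 2 ≠ 0 := by linarith
        rw [eq_div_iff h3]
        field_simp
        ring
      rw [e, Real.log_div (by linarith) (by linarith)]
      ring
    rw [one_div, h2] at h1
    linarith
  set L := Real.log 2 with hLdef
  have hL : LB L := LBlog
  have l := hL.l
  have u := hL.u
  have sl := hL.sq_l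
  set Y : ℝ := (m : ℝ) - 0.52 with hY
  have hY50 : 50 ≤ Y := by rw [hY]; linarith
  have main : ∀ k : ℕ, k ≤ m → V L Y ((m - k : ℕ) : ℝ) * ((k : ℝ) + 1) ^ n ≤
      Y ^ 2 * ∑ i ∈ Finset.Icc 1 k, (i : ℝ) ^ n := by
    intro k
    induction k with
    | zero =>
        intro _
        have := neg hL hY50 (p := (m : ℝ)) (by rw [hY]; linarith) (by rw [hY]; linarith)
        simpa using this
    | succ k ih =>
        intro hk
        have h1 := ih (by omega)
        have hSnn : 0 ≤ ∑ i ∈ Finset.Icc 1 (k + 1), (i : ℝ) ^ n :=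
          Finset.sum_nonneg fun i _ => by positivity
        rcases le_or_gt (V L Y ((m - (k + 1) : ℕ) : ℝ)) 0 with hV | hV
        · calc _ ≤ (0 : ℝ) := mul_nonpos_of_nonpos_of_nonneg hV (by positivity)
            _ ≤ _ := mul_nonneg (sq_nonneg _) hSnn
        · have h2 := step (m := m) (n := n) (i := m - (k + 1)) hm (by omega) hn hV
          have e1 : (m : ℝ) - ((m - (k + 1) : ℕ) : ℝ) = (k : ℝ) + 1 := by
            rw [Nat.cast_sub hk]; push_cast; ring
          have e2 : ((m - (k + 1) : ℕ) : ℝ) + 1 = ((m - k : ℕ) : ℝ) := by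
            rw [Nat.cast_sub hk, Nat.cast_sub (by omega : k ≤ m)]; push_cast; ring
          rw [e1, e2] at h2
          have hp : (0 : ℝ) < ((k : ℝ) + 1) ^ n := by positivity
          have h3 : V L Y ((m - (k + 1) : ℕ) : ℝ) * (((k + 1 : ℕ) : ℝ) + 1) ^ n =
              V L Y ((m - (k + 1) : ℕ) : ℝ) * (((k : ℝ) + 1 + 1) / ((k : ℝ) + 1)) ^ n *
                ((k : ℝ) + 1) ^ n := by
            rw [div_pow]; push_cast; field_simp
          rw [h3, Finset.sum_Icc_succ_top (by omega), mul_add]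
          calc _ ≤ (Y ^ 2 + V L Y ((m - k : ℕ) : ℝ)) * ((k : ℝ) + 1) ^ n := by gcongr
            _ = V L Y ((m - k : ℕ) : ℝ) * ((k : ℝ) + 1) ^ n + Y ^ 2 * ((k : ℝ) + 1) ^ n := by ring
            _ ≤ _ := by push_cast; linarith
  have hfin := main m le_rfl
  simp only [Nat.sub_self, Nat.cast_zero] at hfin
  have hV0 : Y ^ 2 < V L Y 0 := by
    unfold V
    nlinarith
  have hYp : 0 < Y ^ 2 := by positivity
  have hp : (0 : ℝ) < ((m : ℝ) + 1) ^ n := by positivity
  have : Y ^ 2 * ((m : ℝ) + 1) ^ n < Y ^ 2 * ∑ i ∈ Finset.Icc 1 m, (i : ℝ) ^ n :=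
    lt_of_lt_of_le (mul_lt_mul_of_pos_right hV0 hp) hfin
  exact lt_of_mul_lt_mul_left this hYp.le

lemma small_check : ∀ m < 51, 2 ≤ m → ∀ n < 35, 1 ≤ n → m ^ n < 2 * (m - 1) ^ n →
    (m + 1) ^ n < ∑ i ∈ Finset.range (m + 1), i ^ n := by
  decide +kernel

lemma second_small (m n : ℕ) (hm2 : 2 ≤ m) (hm : m < 51) (hn : 1 ≤ n)
    (h : (1 - 1 / (m : ℝ)) ^ n > 1 / 2) :
    (m + 1) ^ n < ∑ i ∈ Finset.Icc 1 m, i ^ n := by
  have hm' : (m : ℝ) ≤ 50 := by
    have : m ≤ 50 := by omega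
    exact_mod_cast this
  have hm2' : (2 : ℝ) ≤ m := by exact_mod_cast hm2
  have hm0 : (0 : ℝ) < m := by linarith
  have hn35 : n < 35 := by
    by_contra hcon
    push Not at hcon
    have h1 : 1 - 1 / (m : ℝ) ≤ 49 / 50 := by
      have : (1 : ℝ) / 50 ≤ 1 / m := one_div_le_one_div_of_le hm0 hm'
      linarith
    have h0 : 0 ≤ 1 - 1 / (m : ℝ) := by
      have : 1 / (m : ℝ) ≤ 1 / 2 := one_div_le_one_div_of_le (by norm_num) hm2'
      linarith
    have h2 : (1 - 1 / (m : ℝ)) ^ n ≤ (49 / 50) ^ n := pow_le_pow_left₀ h0 h1 n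
    have h3 : ((49 : ℝ) / 50) ^ n ≤ (49 / 50) ^ 35 :=
      pow_le_pow_of_le_one (by norm_num) (by norm_num) hcon
    have h4 : ((49 : ℝ) / 50) ^ 35 < 1 / 2 := by norm_num
    linarith
  have hnat : m ^ n < 2 * (m - 1) ^ n := by
    have e : 1 - 1 / (m : ℝ) = ((m - 1 : ℕ) : ℝ) / m := by
      rw [Nat.cast_sub (by omega)]; field_simp; simp
    rw [e, div_pow, gt_iff_lt, div_lt_div_iff₀ (by norm_num) (by positivity)] at h
    have : ((m ^ n : ℕ) : ℝ) < ((2 * (m - 1) ^ n : ℕ) : ℝ) := by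
      push_cast; linarith
    exact_mod_cast this
  have := small_check m hm hm2 n hn35 hn hnat
  have e : ∑ i ∈ Finset.range (m + 1), i ^ n = ∑ i ∈ Finset.Icc 1 m, i ^ n := by
    rw [Finset.range_eq_Ico, Finset.sum_eq_sum_Ico_succ_bot (by omega)]
    have : 0 ^ n = 0 := by apply zero_pow; omega
    rw [this, zero_add]
    rfl
  rwa [e] at this

/-- For all n ≥ 1, m ≥ 2 with (1−1/m)^n > 1/2 and (1−1/(m−1))^n < 1/2: (m−1)^n exceeds 1^n+…+(m−2)^n and (m+1)^n is less than 1^n+…+m^n. -/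
theorem result :
    ∀ m n : ℕ, 1 ≤ n → 2 ≤ m →
      (1 - 1 / (m : ℝ)) ^ n > 1 / 2 →
      (1 - 1 / ((m : ℝ) - 1)) ^ n < 1 / 2 →
      (m - 1) ^ n > ∑ i ∈ Finset.Icc 1 (m - 2), i ^ n ∧
      (m + 1) ^ n < ∑ i ∈ Finset.Icc 1 m, i ^ n := by
  intro m n hn hm h1 h2
  constructor
  · have hk : 1 ≤ m - 1 := by omega
    have e : ((m : ℝ) - 1) = ((m - 1 : ℕ) : ℝ) := by
      rw [Nat.cast_sub (by omega)]; simp
    rw [e] at h2
    have h3 := first' n (m - 1) hn hk h2 (m - 1) le_rfl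
    rw [mul_comm] at h3
    have h4 := lt_of_mul_lt_mul_left h3 (by positivity)
    have e2 : m - 1 - 1 = m - 2 := by omega
    rw [e2] at h4
    have : ((∑ i ∈ Finset.Icc 1 (m - 2), i ^ n : ℕ) : ℝ) < (((m - 1) ^ n : ℕ) : ℝ) := by
      push_cast; exact h4
    exact_mod_cast this
  · rcases lt_or_ge m 51 with hm51 | hm51
    · exact second_small m n hm hm51 hn h1
    · have h3 := second_large m n hm51 h1
      have : (((m + 1) ^ n : ℕ) : ℝ) < ((∑ i ∈ Finset.Icc 1 m, i ^ n : ℕ) : ℝ) := by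
        push_cast; exact h3
      exact_mod_cast this

end Pool.Agent.S17771
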