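import Pool.Statements.S18074
import Pool.Agent.W789.KT.All

set_option autoImplicit false
open Pool Pool.MP_a849c1_nt

namespace Pool.Agent.S18074

/-- The negation of the preceding statement: For every natural t there are two disjoint sets of t positive integers each, such that a·b+1 is a perfect square for every a in the first set and every b in the second. -/
theorem result :
    ¬ (∀ t : ℕ, ∃ A B : Finset ℕ, A.card = t ∧ B.card = t ∧ Disjoint A B ∧
      (∀ a ∈ A, 0 < a) ∧ (∀ b ∈ B, 0 < b) ∧
      ∀ a ∈ A, ∀ b ∈ B, IsSquare (a * b + 1)) := by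
  intro h
  obtain ⟨A, B, hA, hB, -, hpA, hpB, hs⟩ := h 17
  exact Pool.Agent.W789.KT.mainStm A B hA hB hpA hpB hs

end Pool.Agent.S18074
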