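import Pool.Statements.S18075
import Pool.Agent.H680R3.EX.Final

set_option autoImplicit false
open Pool Pool.MP_a85dd6_nt

namespace Pool.Agent.S18075

/-- For all n ≥ 2 and reals 0 < c1 < c2, τ > 1, some real ξ has infinitely many real degree-n algebraic α with ∣ξ−α∣ < c2·H(α)^(−(n+1)τ), but only finitely many with c1 in place of c2; H is the naive height. -/
theorem result :
    ∀ n : ℕ, 2 ≤ n → ∀ c₁ c₂ τ : ℝ, 0 < c₁ → c₁ < c₂ → 1 < τ →
      ∃ ξ : ℝ,
        {α : ℝ | (minpoly ℚ α).natDegree = n ∧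
          ∃ P : Polynomial ℤ, P.IsPrimitive ∧ P.natDegree = n ∧
            Polynomial.aeval α P = 0 ∧
            |ξ - α| < c₂ * ((((Finset.range (n + 1)).sup
              (fun i => (P.coeff i).natAbs) : ℕ) : ℝ) ^ (-((n + 1 : ℝ) * τ)))}.Infinite ∧
        {α : ℝ | (minpoly ℚ α).natDegree = n ∧
          ∃ P : Polynomial ℤ, P.IsPrimitive ∧ P.natDegree = n ∧
            Polynomial.aeval α P = 0 ∧
            |ξ - α| < c₁ * ((((Finset.range (n + 1)).sup
              (fun i => (P.coeff i).natAbs) : ℕ) : ℝ) ^ (-((n + 1 : ℝ) * τ)))}.Finite := by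
  exact Pool.Agent.H680R3.EX.main

end Pool.Agent.S18075
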