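import Pool.Statements.S18117
import Pool.Agent.Results.MP_ab562c_nt.MetricPoissonian

set_option autoImplicit false
open Filter Topology Asymptotics MeasureTheory
open Pool Pool.MP_ab562c_nt

namespace Pool.Agent.S18117

/-- For every C>1 and every strictly increasing positive integer sequence whose additive energy of the first N terms is O(N^3/(log N)^C), for Lebesgue-almost every real α the fractional parts {a_n α} have Poissonian pair correlations. -/
theorem result :
    ∀ C : ℝ, 1 < C → ∀ a : ℕ → ℕ, StrictMono a → 0 < a 0 →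
      (fun N : ℕ => ((((Finset.range N ×ˢ Finset.range N) ×ˢ (Finset.range N ×ˢ Finset.range N)).filter
          (fun p : (ℕ × ℕ) × (ℕ × ℕ) => a p.1.1 + a p.1.2 = a p.2.1 + a p.2.2)).card : ℝ))
        =O[Filter.atTop] (fun N : ℕ => (N : ℝ) ^ 3 / Real.log (N : ℝ) ^ C) →
      ∀ᵐ α ∂ (MeasureTheory.volume : MeasureTheory.Measure ℝ),
        ∀ s : ℝ, 0 < s → Filter.Tendsto (fun N : ℕ => (1 / (N : ℝ)) *
          (((Finset.range N ×ˢ Finset.range N).filter (fun p : ℕ × ℕ => p.1 ≠ p.2 ∧
            |(Int.fract ((a p.1 : ℝ) * α) - Int.fract ((a p.2 : ℝ) * α))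
              - ((round (Int.fract ((a p.1 : ℝ) * α) - Int.fract ((a p.2 : ℝ) * α)) : ℤ) : ℝ)|
              < s / (N : ℝ))).card : ℝ))
          Filter.atTop (nhds (2 * s)) := by
  intro C hC a ha ha0 hE
  have hinj : Function.Injective (fun n => (a n : ℤ)) := fun x y hxy =>
    ha.injective (Nat.cast_injective (R := ℤ) hxy)
  have h1 := Pool.Agent.Results.MP_ab562c_nt.MetricPoissonian.result.1 C hC
    (fun n => (a n : ℤ)) hinj (by
      have h2 : (fun N : ℕ => (((((Finset.range N ×ˢ Finset.range N) ×ˢ
          (Finset.range N ×ˢ Finset.range N)).filter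
          (fun p : (ℕ × ℕ) × (ℕ × ℕ) => (a p.1.1 : ℤ) + a p.1.2 = a p.2.1 + a p.2.2)).card : ℕ) : ℝ)) =
        (fun N : ℕ => ((((Finset.range N ×ˢ Finset.range N) ×ˢ (Finset.range N ×ˢ Finset.range N)).filter
            (fun p : (ℕ × ℕ) × (ℕ × ℕ) => a p.1.1 + a p.1.2 = a p.2.1 + a p.2.2)).card : ℝ)) := by
        funext N
        congr 2
        refine Finset.filter_congr fun p _ => ?_
        constructor
        · intro h
          exact_mod_cast h
        · intro h
          exact_mod_cast h
      exact h2 ▸ hE)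
  filter_upwards [h1] with α hα s hs
  have h3 := hα s hs
  simpa only [Int.cast_natCast] using h3

end Pool.Agent.S18117
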