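import Pool.Statements.S18153
import Pool.Agent.Results.MP_af6696_nt.Asymptotics

set_option autoImplicit false
open Pool Pool.MP_af6696_nt

namespace Pool.Agent.S18153

/-- Consider all M≥1, f in {0,1}, positive gaps b_1..b_M, and C either finite or (f=0) the non-sums of distinct parts in classes M−2^(j−1). Then partitions avoiding C with residue-dependent gaps satisfy B(n) ~ α n^(−3/4) e^(β√n) for some α>0 and real β. -/
theorem result :
  ∀ (M f : ℕ) (b : ℕ → ℕ) (C : Set ℕ),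
    1 ≤ M → f ≤ 1 → (∀ j, 1 ≤ j → j ≤ M → 0 < b j) →
    (C.Finite ∨ (f = 0 ∧ ∃ s : ℕ, 1 ≤ s ∧ 2 ^ (s - 1) < M ∧
      C = {m : ℕ | 1 ≤ m ∧ ¬ ∃ S : Finset ℕ, S.sum id = m ∧
        ∀ x ∈ S, 0 < x ∧ ∃ j : ℕ, 1 ≤ j ∧ j ≤ s ∧ Nat.ModEq M x (M - 2 ^ (j - 1))})) →
    ∃ α β : ℝ, 0 < α ∧ Filter.Tendsto (fun n : ℕ =>
      ((Set.ncard {l : List ℕ | l.sum = n ∧ (∀ x ∈ l, 0 < x ∧ x ∉ C) ∧
          l.Pairwise (· ≥ ·) ∧
          ∀ i : ℕ, i + 1 < l.length →
            l.getD (i + 1) 0 + b ((l.getD (i + f) 0 + M - 1) % M + 1) ≤ l.getD i 0} : ℕ) : ℝ)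
        / ((n : ℝ) ^ (-(3 / 4 : ℝ)) * Real.exp (β * Real.sqrt n)))
      Filter.atTop (nhds α) := by
  intro M f b C hM hf hb hC
  set C' : Set ℕ := C \ {0} with hC'
  have hadm : Pool.Agent.Results.MP_af6696_nt.Asymptotics.Admissible f M b C' := by
    refine ⟨hM, by omega, fun j h1 h2 => hb j h1 h2, ?_⟩
    rcases hC with hC | ⟨hf0, s, hs, hsM, hCe⟩
    · left
      refine ⟨hC.subset Set.diff_subset, ?_⟩
      rintro x ⟨_, hx⟩
      exact Nat.one_le_iff_ne_zero.2 hx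
    · right
      refine ⟨hf0, s, hs, hsM, ?_⟩
      have hfin : ∀ m : ℕ, {P : Finset ℕ | ∑ e ∈ P, e = m ∧ ∀ e ∈ P, 1 ≤ e ∧
          ∃ a ∈ {a | ∃ j, 1 ≤ j ∧ j ≤ s ∧ a = M - 2^(j-1)}, e ≡ a [MOD M]}.Finite := by
        intro m
        refine (Finset.finite_toSet (Finset.range (m + 1)).powerset).subset ?_
        rintro P ⟨hP, _⟩
        rw [Finset.mem_coe, Finset.mem_powerset]
        intro x hx
        have h1 := Finset.single_le_sum (f := fun e => e) (fun _ _ => Nat.zero_le _) hx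
        rw [Finset.mem_range]
        omega
      rw [hC', hCe]
      ext m
      simp only [Set.mem_diff, Set.mem_setOf_eq, Set.mem_singleton_iff]
      unfold Pool.Agent.Results.MP_af6696_nt.Asymptotics.A
      rw [Set.ncard_eq_zero (hfin m), Set.eq_empty_iff_forall_notMem]
      constructor
      · rintro ⟨⟨h1, h2⟩, _⟩
        refine ⟨h1, ?_⟩
        rintro P ⟨hP1, hP2⟩
        apply h2
        refine ⟨P, hP1, fun x hx => ?_⟩
        obtain ⟨h3, a, ⟨j, hj1, hj2, rfl⟩, h4⟩ := hP2 x hx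
        exact ⟨h3, j, hj1, hj2, h4⟩
      · rintro ⟨h1, h2⟩
        refine ⟨⟨h1, ?_⟩, by omega⟩
        rintro ⟨P, hP1, hP2⟩
        refine h2 P ⟨hP1, fun x hx => ?_⟩
        obtain ⟨h3, j, hj1, hj2, h4⟩ := hP2 x hx
        exact ⟨h3, _, ⟨j, hj1, hj2, rfl⟩, h4⟩
  obtain ⟨α, β, hα, hlim⟩ := Pool.Agent.Results.MP_af6696_nt.Asymptotics.result f M b C' hadm
  refine ⟨α, β, hα, ?_⟩
  refine hlim.congr fun n => ?_
  congr 2
  unfold Pool.Agent.Results.MP_af6696_nt.Asymptotics.B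
  congr 1
  have hgap : ∀ e : ℕ, Pool.Agent.Results.MP_af6696_nt.Asymptotics.gap M b e =
      b ((e + M - 1) % M + 1) := by
    intro e
    unfold Pool.Agent.Results.MP_af6696_nt.Asymptotics.gap
    congr 1
    have hM0 : 0 < M := hM
    split_ifs with h
    · obtain ⟨k, rfl⟩ := Nat.dvd_of_mod_eq_zero h
      have h1 : M * k + M - 1 = (M - 1) + M * k := by omega
      rw [h1, Nat.add_mul_mod_self_left, Nat.mod_eq_of_lt (by omega)]
      omega
    · have h1 : e + M - 1 = (e % M - 1) + M * (e / M + 1) := by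
        have h2 := Nat.mod_add_div e M
        have h3 : 0 < e % M := Nat.pos_of_ne_zero h
        rw [mul_add, mul_one]
        omega
      have h4 : e % M < M := Nat.mod_lt _ hM0
      have h3 : 0 < e % M := Nat.pos_of_ne_zero h
      rw [h1, Nat.add_mul_mod_self_left, Nat.mod_eq_of_lt (show e % M - 1 < M by omega)]
      omega
  ext l
  unfold Pool.Agent.Results.MP_af6696_nt.Asymptotics.Reps
  simp only [Set.mem_setOf_eq]
  constructor
  · rintro ⟨h1, h2, h3⟩
    refine ⟨h1, fun x hx => ⟨(h2 x hx).1, fun hxC => (h2 x hx).2 ⟨hxC, ?_⟩⟩, ?_, ?_⟩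
    · have := (h2 x hx).1
      simp only [Set.mem_singleton_iff]
      omega
    · rw [← List.isChain_iff_pairwise, List.isChain_iff_getElem]
      intro i hi
      have h4 := (h3 i hi).1
      rw [List.getD_eq_getElem _ _ hi, List.getD_eq_getElem _ _ (by omega)] at h4
      exact h4
    · intro i hi
      have h4 := h3 i hi
      rw [hgap] at h4
      omega
  · rintro ⟨h1, h2, h3, h4⟩
    refine ⟨h1, fun x hx => ⟨(h2 x hx).1, fun hxC => (h2 x hx).2 hxC.1⟩, ?_⟩
    intro i hi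
    rw [hgap]
    have h5 := h4 i hi
    omega

end Pool.Agent.S18153
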