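import Pool.Statements.S18285
import Pool.Agent.W71.Fin3

set_option autoImplicit false
open Pool Pool.MP_b9de27_nt

namespace Pool.Agent.S18285

open Pool.Agent.W71 in
/-- The construction: two alternating types of approximation windows. -/
lemma construction (n : ℕ) (w l : ℝ) (hn : 2 ≤ n) (hw : (n : ℝ) ≤ w) (hl : 1 / (n : ℝ) ≤ l)
    (hlow : w / (((n : ℝ) - 1) * w + (n : ℝ)) ≤ l) (hup : l ≤ (w - (n : ℝ) + 1) / (n : ℝ)) :
    ∃ ξ : ℝ,
      (∀ P : Polynomial ℤ, P ≠ 0 → P.natDegree ≤ n → Polynomial.aeval ξ P ≠ 0) ∧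
      (∀ v : ℝ, v < w → {P : Polynomial ℤ | P ≠ 0 ∧ P.natDegree ≤ n ∧
            |Polynomial.aeval ξ P| ≤ ((Ht n P : ℕ) : ℝ) ^ (-v)}.Infinite) ∧
      (∀ v : ℝ, w < v → {P : Polynomial ℤ | P ≠ 0 ∧ P.natDegree ≤ n ∧
            |Polynomial.aeval ξ P| ≤ ((Ht n P : ℕ) : ℝ) ^ (-v)}.Finite) ∧
      (∀ m : ℝ, m < l → {q : ℕ | 0 < q ∧ ∃ p : ℕ → ℤ, ∀ i ∈ Finset.Icc 1 n,
            |(q : ℝ) * ξ ^ i - (p i : ℝ)| ≤ (q : ℝ) ^ (-m)}.Infinite) ∧
      (∀ m : ℝ, l < m → {q : ℕ | 0 < q ∧ ∃ p : ℕ → ℤ, ∀ i ∈ Finset.Icc 1 n,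
            |(q : ℝ) * ξ ^ i - (p i : ℝ)| ≤ (q : ℝ) ^ (-m)}.Finite) := by
  classical
  have hn1 : 1 ≤ n := by omega
  have hn0 : (0 : ℝ) < n := by exact_mod_cast hn1
  have hn2 : (2 : ℝ) ≤ n := by exact_mod_cast hn
  have hw1 : 0 < w + 1 := by linarith
  have hl0 : 0 < l := lt_of_lt_of_le (by positivity) hl
  have hl1 : 0 < l + 1 := by linarith
  have hnl : 1 ≤ n * l := by
    rw [div_le_iff₀ hn0] at hl
    linarith
  obtain ⟨ℓ, hℓ, hℓp⟩ := Nat.exists_infinite_primes ((n + 1) * n + 1)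
  have : Fact ℓ.Prime := ⟨hℓp⟩
  have hℓ' : (n + 1) * n < ℓ := by omega
  set A : ℝ := n * l + n - 1 with hA
  set νp : ℝ := (w - n) / (w + 1) with hνp
  set νd : ℝ := (n * l - 1) / (l + 1) with hνd
  have hAn : (n : ℝ) ≤ A := by rw [hA]; linarith
  have hAw : A ≤ w := by
    rw [le_div_iff₀ hn0] at hup
    rw [hA]; linarith
  have hA1 : 0 < A + 1 := by linarith
  have hνp0 : 0 ≤ νp := div_nonneg (by linarith) hw1.le
  have hνd0 : 0 ≤ νd := div_nonneg (by linarith) hl1.le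
  have hνp1 : νp < 1 := by rw [hνp, div_lt_one hw1]; linarith
  -- type A
  have hRA : Rich n ℓ 0 (1 + A) νp νd := by
    apply richA hn1 hℓ' A νp νd hAn
    · rw [hνp, div_le_div_iff₀ hA1 hw1]
      nlinarith
    · rw [hνd, mul_div_assoc', div_le_div_iff₀ hA1 hl1, hA]
      apply le_of_eq
      ring
  -- type B
  have hRB : Rich n ℓ (rt n) (n * (1 + w)) νp νd := by
    apply richB hn1 hℓ' (betaData hn1) w νp νd hw le_rfl
    have hden : 0 < ((n : ℝ) - 1) * w + n := by nlinarith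
    rw [div_le_iff₀ hden] at hlow
    rw [hνd, div_div, div_le_div_iff₀ (by positivity) hl1]
    nlinarith
  set be : ℕ → ℝ := fun k => if Even k then 0 else rt n with hbe
  set ee : ℕ → ℝ := fun k => if Even k then 1 + A else n * (1 + w) with hee
  have hee2 : ∀ k, 2 ≤ ee k := by
    intro k
    simp only [hee]
    split_ifs
    · linarith
    · nlinarith
  have hR : ∀ k, Rich n ℓ (be k) (ee k) νp νd := by
    intro k
    simp only [hbe, hee]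
    split_ifs
    · exact hRA
    · exact hRB
  obtain ⟨m, p, ξ, hm, hm1, hmem, hgood⟩ := nested (ℓ := ℓ) hn1 hℓ' hνp0 hνd0 be ee hee2 hR
  have hP : ∀ ε : ℝ, 0 < ε → ∃ T : ℕ, ∀ t : ℕ, T ≤ t → OkP n ξ t (Real.exp (-((νp + ε) * t))) := by
    intro ε hε
    obtain ⟨T, hT⟩ := hgood ε hε
    exact ⟨T, fun t ht => (hT t ht).1⟩
  have hD : ∀ ε : ℝ, 0 < ε → ∃ T : ℕ, ∀ t : ℕ, T ≤ t → OkD n ξ t (Real.exp (-((νd + ε) * t))) := by
    intro ε hε
    obtain ⟨T, hT⟩ := hgood ε hε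
    exact ⟨T, fun t ht => (hT t ht).2⟩
  have happA : ∀ M : ℕ, ∃ m : ℕ, M ≤ m ∧ 1 ≤ m ∧ rad ℓ (1 + A) m ≤ 1 ∧ ∃ p : ℤ,
      |ξ - p / (ℓ : ℝ) ^ m| ≤ 2 * rad ℓ (1 + A) m := by
    intro M
    have h1 := hmem (2 * M)
    have heven : Even (2 * M) := even_two_mul M
    simp only [hbe, hee, if_pos heven] at h1
    refine ⟨m (2 * M), ?_, hm1 _, rad_le_one _ (by linarith) _ (hm1 _), p (2 * M), ?_⟩
    · have := hm.id_le (2 * M)
      simp only [id] at this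
      omega
    · have hr := rad_pos ℓ (1 + A) (m (2 * M))
      rw [abs_le]
      constructor <;> linarith [h1.1, h1.2]
  have happB : ∀ M : ℕ, ∃ m : ℕ, M ≤ m ∧ 1 ≤ m ∧ rad ℓ (n * (1 + w)) m ≤ 1 ∧ ∃ p : ℤ,
      |ξ - p / (ℓ : ℝ) ^ m - rt n| ≤ 2 * rad ℓ (n * (1 + w)) m := by
    intro M
    have h1 := hmem (2 * M + 1)
    have hodd : ¬ Even (2 * M + 1) := by
      rw [Nat.not_even_iff_odd]; exact odd_two_mul_add_one M
    simp only [hbe, hee, if_neg hodd] at h1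
    refine ⟨m (2 * M + 1), ?_, hm1 _, rad_le_one _ (by nlinarith) _ (hm1 _), p (2 * M + 1), ?_⟩
    · have := hm.id_le (2 * M + 1)
      simp only [id] at this
      omega
    · have hr := rad_pos ℓ (n * (1 + w)) (m (2 * M + 1))
      rw [abs_le]
      constructor <;> linarith [h1.1, h1.2]
  exact ⟨ξ, clause1 ξ νp hνp1 hP, clause2 hn1 ξ w (rt n) hw (pZ n) (betaData hn1) happB,
    clause3 ξ νp w hw hνp hP, clause4 hn1 ξ l A hA happA, clause5 hn1 ξ νd l hl hνd hD⟩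

/-- For n≥2 and reals w≥n, l≥1/n with w/((n-1)w+n) ≤ l ≤ (w-n+1)/n, some real ξ, not algebraic of degree ≤ n, has polynomial exponent w_n(ξ)=w and simultaneous exponent λ_n(ξ)=l. -/
theorem result :
    ∀ (n : ℕ) (w l : ℝ), 2 ≤ n → (n : ℝ) ≤ w → 1 / (n : ℝ) ≤ l →
      w / (((n : ℝ) - 1) * w + (n : ℝ)) ≤ l → l ≤ (w - (n : ℝ) + 1) / (n : ℝ) →
      ∃ ξ : ℝ,
        (∀ P : Polynomial ℤ, P ≠ 0 → P.natDegree ≤ n → Polynomial.aeval ξ P ≠ 0) ∧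
        (∀ v : ℝ, v < w →
          {P : Polynomial ℤ | P ≠ 0 ∧ P.natDegree ≤ n ∧
            |Polynomial.aeval ξ P| ≤
              (((Finset.range (n + 1)).sup (fun i => (P.coeff i).natAbs) : ℕ) : ℝ) ^ (-v)}.Infinite) ∧
        (∀ v : ℝ, w < v →
          {P : Polynomial ℤ | P ≠ 0 ∧ P.natDegree ≤ n ∧
            |Polynomial.aeval ξ P| ≤
              (((Finset.range (n + 1)).sup (fun i => (P.coeff i).natAbs) : ℕ) : ℝ) ^ (-v)}.Finite) ∧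
        (∀ m : ℝ, m < l →
          {q : ℕ | 0 < q ∧ ∃ p : ℕ → ℤ, ∀ i ∈ Finset.Icc 1 n,
            |(q : ℝ) * ξ ^ i - (p i : ℝ)| ≤ (q : ℝ) ^ (-m)}.Infinite) ∧
        (∀ m : ℝ, l < m →
          {q : ℕ | 0 < q ∧ ∃ p : ℕ → ℤ, ∀ i ∈ Finset.Icc 1 n,
            |(q : ℝ) * ξ ^ i - (p i : ℝ)| ≤ (q : ℝ) ^ (-m)}.Finite) := by
  intro n w l hn hw hl hlow hup
  exact construction n w l hn hw hl hlow hup

end Pool.Agent.S18285
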