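import Pool.Statements.S18402
import Pool.Agent.W25.EGZArith

set_option autoImplicit false
open Pool Pool.MP_c34ff3_nt

namespace Pool.Agent.S18402

/-- The seventeen vectors, as integer vectors; `e` is an integer that is `0` modulo `2 ^ a` and
`1` modulo `3`. -/
def vec (e : ℤ) : Fin 17 → Fin 4 → ℤ :=
  ![![0, 0, 1, 1], ![0, 2, 0, 0], ![2, 0, 1, e], ![2, 0, 0, 1],
    ![0, 1, 0, 0], ![0, 1, 1, 0], ![0, 1, 0, 1], ![0, 1, 1, 1],
    ![1, 0, 1, 0], ![1, 0, 1, 1 + e], ![1, 0, 0, 0], ![1, 0, 0, 1],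
    ![1, 1, 0, 0], ![1, 1, 1, e - 1], ![1, 1, 0, 1], ![1, 1, 1, e],
    ![0, 2, e, 0]]

/-- The index of the vector at position `i`. -/
def idx (M : ℕ) (i : Fin (2 ^ 4 * M + 1)) : Fin 17 :=
  ⟨i.val / M, by
    have hi := i.isLt
    rcases Nat.eq_zero_or_pos M with h | h
    · subst h; simp
    · rw [Nat.div_lt_iff_lt_mul h]; omega⟩

theorem card_fiber_lt (M : ℕ) (hM : 0 < M) (S : Finset (Fin (2 ^ 4 * M + 1))) (t : Fin 17) :
    (S.filter (fun i => idx M i = t)).card ≤ M := by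
  have h1 : ((S.filter (fun i => idx M i = t)).image (fun i => i.val)) ⊆
      Finset.Ico (t.val * M) (t.val * M + M) := by
    intro x hx
    simp only [Finset.mem_image, Finset.mem_filter] at hx
    obtain ⟨i, ⟨_, hi⟩, rfl⟩ := hx
    have hv : i.val / M = t.val := by rw [← hi]; rfl
    have h2 := Nat.div_add_mod i.val M
    have h3 := Nat.mod_lt i.val hM
    rw [hv, mul_comm] at h2
    rw [Finset.mem_Ico]
    omega
  have h2 := Finset.card_le_card h1
  rw [Finset.card_image_of_injective _ Fin.val_injective] at h2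
  simpa using h2

theorem card_fiber_last (M : ℕ) (S : Finset (Fin (2 ^ 4 * M + 1))) :
    (S.filter (fun i => idx M i = 16)).card ≤ 1 := by
  rw [Finset.card_le_one]
  intro i hi j hj
  simp only [Finset.mem_filter] at hi hj
  have key : ∀ k : Fin (2 ^ 4 * M + 1), idx M k = 16 → k.val = 16 * M := by
    intro k hk
    have hv : k.val / M = 16 := by
      have := congrArg Fin.val hk
      simpa [idx] using this
    have h2 := Nat.div_add_mod k.val M
    have h4 := k.isLt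
    rw [hv] at h2
    have h5 : M * 16 = 16 * M := mul_comm _ _
    omega
  exact Fin.ext ((key i hi.2).trans (key j hj.2).symm)

theorem no_zero_sum (a : ℕ) :
    ¬ (∀ f : Fin (2 ^ 4 * (2 ^ a * 3 - 1) + 1) → (Fin 4 → ZMod (2 ^ a * 3)),
          ∃ S : Finset (Fin (2 ^ 4 * (2 ^ a * 3 - 1) + 1)),
            S.card = 2 ^ a * 3 ∧ ∑ i ∈ S, f i = 0) := by
  intro H
  set M : ℕ := 2 ^ a * 3 - 1 with hMdef
  have hpow : 0 < 2 ^ a := by positivity
  have hM : 0 < M := by omega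
  set e : ℤ := 4 ^ a with he
  obtain ⟨S, hcard, hsum⟩ := H (fun i j => ((vec e (idx M i) j : ℤ) : ZMod (2 ^ a * 3)))
  -- multiplicities
  let c : Fin 17 → ℤ := fun t => ((S.filter (fun i => idx M i = t)).card : ℤ)
  have hc0 : ∀ t, 0 ≤ c t := fun t => Int.natCast_nonneg _
  have hcM : ∀ t, c t < ((2 ^ a * 3 : ℕ) : ℤ) := by
    intro t
    have := card_fiber_lt M hM S t
    have h2 : (S.filter (fun i => idx M i = t)).card < 2 ^ a * 3 := by omega
    show ((S.filter (fun i => idx M i = t)).card : ℤ) < ((2 ^ a * 3 : ℕ) : ℤ)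
    exact_mod_cast h2
  have hc16 : c 16 ≤ 1 := by
    have h2 := card_fiber_last M S
    show ((S.filter (fun i => idx M i = 16)).card : ℤ) ≤ 1
    exact_mod_cast h2
  have hfib : ∀ F : Fin 17 → ℤ, ∑ i ∈ S, F (idx M i) = ∑ t, c t * F t := by
    intro F
    rw [← Finset.sum_fiberwise S (idx M)]
    refine Finset.sum_congr rfl fun t _ => ?_
    rw [Finset.sum_congr rfl (g := fun _ => F t)]
    · rw [Finset.sum_const, nsmul_eq_mul]
    · intro i hi
      simp only [Finset.mem_filter] at hi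
      rw [hi.2]
  have htot : ∑ t, c t = ((2 ^ a * 3 : ℕ) : ℤ) := by
    have h := hfib (fun _ => 1)
    simp only [mul_one] at h
    rw [← h, Finset.sum_const, hcard]
    simp
  have hdvd : ∀ j : Fin 4, ((2 ^ a * 3 : ℕ) : ℤ) ∣ ∑ t, c t * vec e t j := by
    intro j
    rw [← hfib (fun t => vec e t j), ← ZMod.intCast_zmod_eq_zero_iff_dvd]
    have := congrFun hsum j
    rw [Finset.sum_apply] at this
    push_cast
    exact this
  have hq : (0 : ℤ) < 2 ^ a := by positivity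
  have hcop : IsCoprime ((2 : ℤ) ^ a) 3 := by
    apply IsCoprime.pow_left
    exact ⟨-1, 1, by norm_num⟩
  have heq : (2 : ℤ) ^ a ∣ e := by
    rw [he]
    refine ⟨2 ^ a, ?_⟩
    rw [← mul_pow]; norm_num
  have he3 : (3 : ℤ) ∣ e - 1 := by
    rw [he]
    have := sub_dvd_pow_sub_pow (4 : ℤ) 1 a
    simpa using this
  have hNe : ((2 ^ a * 3 : ℕ) : ℤ) = 2 ^ a * 3 := by push_cast; ring
  have hA := hdvd 0
  have hC := hdvd 1
  have hB := hdvd 2
  have hD := hdvd 3
  clear_value c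
  clear hfib hdvd hsum hcard H
  simp only [Fin.sum_univ_succ, Fin.sum_univ_zero, vec] at hA hC hB hD htot
  simp at hA hC hB hD htot
  rw [hNe] at hcM
  refine Pool.Agent.W25.EGZ.core (q := 2 ^ a) (N := 2 ^ a * 3) (e := e) rfl hq hcop heq he3
    (hc0 0) (hc0 1) (hc0 2) (hc0 3) (hc0 4) (hc0 5) (hc0 6) (hc0 7) (hc0 8) (hc0 9) (hc0 10)
    (hc0 11) (hc0 12) (hc0 13) (hc0 14) (hc0 15) (hc0 16)
    (hcM 0) (hcM 1) (hcM 2) (hcM 3) (hcM 4) (hcM 5) (hcM 6) (hcM 7) (hcM 8) (hcM 9) (hcM 10)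
    (hcM 11) (hcM 12) (hcM 13) (hcM 14) (hcM 15) hc16 ?_ ?_ ?_ ?_ ?_
  · rw [← htot]; ring
  · convert hA using 1; ring
  · convert hC using 1; ring
  · convert hB using 1; ring
  · convert hD using 1; ring

/-- The negation of the preceding statement: For all positive n, r, once a is large enough, let m = 2^a·n. Every sequence of 2^r(m−1)+1 elements of (Z/m)^r has m terms summing to zero, and some sequence of 2^r(m−1) elements has no such m terms. -/
theorem result :
    ¬ (∀ n r : ℕ, 0 < n → 0 < r → ∃ A : ℕ, ∀ a : ℕ, A ≤ a →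
      (∀ f : Fin (2 ^ r * (2 ^ a * n - 1) + 1) → (Fin r → ZMod (2 ^ a * n)),
          ∃ S : Finset (Fin (2 ^ r * (2 ^ a * n - 1) + 1)),
            S.card = 2 ^ a * n ∧ ∑ i ∈ S, f i = 0) ∧
      ¬ (∀ f : Fin (2 ^ r * (2 ^ a * n - 1)) → (Fin r → ZMod (2 ^ a * n)),
          ∃ S : Finset (Fin (2 ^ r * (2 ^ a * n - 1))),
            S.card = 2 ^ a * n ∧ ∑ i ∈ S, f i = 0)) := by
  intro H
  obtain ⟨A, hA⟩ := H 3 4 (by norm_num) (by norm_num)
  exact no_zero_sum A (hA A le_rfl).1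

end Pool.Agent.S18402
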