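import Pool.Statements.S18403
import Pool.Agent.Results.MP_c35068_nt.PspBetween

set_option autoImplicit false
open Pool Pool.MP_c35068_nt

namespace Pool.Agent.S18403

/-- For every natural number x greater than 170 there is a composite n with x < n < 2x such that n divides 2^(n-1) - 1, i.e. a base-2 Fermat pseudoprime. -/
theorem result :
    ∀ x : ℕ, 170 < x → ∃ n : ℕ, x < n ∧ n < 2 * x ∧ Nat.FermatPsp n 2 := by
  intro x hx
  obtain ⟨n, ⟨h1, h2, h3⟩, h4, h5⟩ :=
    Pool.Agent.Results.MP_c35068_nt.PspBetween.result (x : ℤ) (by exact_mod_cast hx)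
  refine ⟨n, by exact_mod_cast h4, by exact_mod_cast h5, ?_, h2, h1⟩
  exact (Nat.modEq_iff_dvd' (Nat.one_le_pow _ _ (by norm_num))).1 h3.symm

end Pool.Agent.S18403
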