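import Pool.Statements.S18410
-- import your own Pool.Agent.* helpers here
import Pool.Agent.W200.MR.Fin
import Pool.Agent.W657.MR.AP
import Pool.Agent.W29.MR.Mu
import Pool.Agent.W701.MR.RO
import Pool.Agent.W371.MR.DEa
import Pool.Agent.W822.MR.DEb
import Pool.Agent.W334.MR.DET
import Pool.Agent.W597.MR.Sup
import Pool.Agent.W382.MR.SM
import Pool.Agent.W280.MR.Pair
import Pool.Agent.W67.MR.MV1
import Pool.Agent.W462.MR.MV2
import Pool.Agent.W356.MR.TU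
import Pool.Agent.W554.MR.WT
import Pool.Agent.W446.MR.EX1
import Pool.Agent.W357.MR.EX2
import Pool.Agent.W236.MR.EX3
import Pool.Agent.W584.MR.EX
import Pool.Agent.W303.MR.L2a
import Pool.Agent.W765.MR.L2b
import Pool.Agent.W899.MR.L2c
import Pool.Agent.W402.MR.L2
import Pool.Agent.W551.MR.Seq
import Pool.Agent.W915.MR.FURa
import Pool.Agent.W287.MR.FURb
import Pool.Agent.W274.MR.EPa
import Pool.Agent.W881.MR.EPS
import Pool.Agent.W513.MR.COR
import Pool.Agent.W991.MR.Lim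
import Pool.Agent.W923.MR.APM
import Pool.Agent.W509.MR.OD

set_option autoImplicit false
open Filter Topology MeasureTheory
open Pool Pool.MP_c45d52_nt

namespace Pool.Agent.S18410

/-- The negation of the preceding statement: For every 1-bounded multiplicative aperiodic f and every 1-bounded w all of whose Furstenberg systems are ergodic with zero entropy, the averages (1/N) times the sum of f(n)w(n) for n from 1 to N tend to 0. -/
theorem result :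
    ¬ (∀ (f w : ℕ → ℂ),
    (∀ n : ℕ, 1 ≤ n → ‖f n‖ ≤ 1) →
    (∀ m n : ℕ, 1 ≤ m → 1 ≤ n → Nat.Coprime m n → f (m * n) = f m * f n) →
    (∀ a b : ℕ, 1 ≤ a → 1 ≤ b →
      Tendsto (fun N : ℕ => (1 / (N : ℂ)) * ∑ n ∈ Finset.Icc 1 N, f (a * n + b)) atTop (𝓝 0)) →
    (∀ n : ℕ, 1 ≤ n → ‖w n‖ ≤ 1) →
    (∀ (Nk : ℕ → ℕ) (μ : Measure (ℤ → ℂ)), StrictMono Nk → IsProbabilityMeasure μ →
      μ {x | ∀ z : ℤ, ‖x z‖ ≤ 1} = 1 →
      MeasurePreserving (fun x : ℤ → ℂ => fun z : ℤ => x (z + 1)) μ μ →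
      (∀ (m : ℕ) (h : Fin m → ℕ) (ε : Fin m → Bool),
        Tendsto (fun k : ℕ => (1 / (Nk k : ℂ)) * ∑ n ∈ Finset.Icc 1 (Nk k),
            ∏ j : Fin m, (if ε j then starRingEnd ℂ (w (n + h j)) else w (n + h j)))
          atTop
          (𝓝 (∫ x, ∏ j : Fin m,
              (if ε j then starRingEnd ℂ (x ((h j : ℕ) : ℤ)) else x ((h j : ℕ) : ℤ)) ∂μ))) →
      Ergodic (fun x : ℤ → ℂ => fun z : ℤ => x (z + 1)) μ ∧
      ∀ (k : ℕ) (g : (ℤ → ℂ) → Fin k), Measurable g →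
        Tendsto (fun n : ℕ =>
            (∑ a : Fin n → Fin k,
              Real.negMulLog
                (μ {x | ∀ i : Fin n, g (fun z : ℤ => x (z + ((i : ℕ) : ℤ))) = a i}).toReal)
              / (n : ℝ))
          atTop (𝓝 0)) →
    Tendsto (fun N : ℕ => (1 / (N : ℂ)) * ∑ n ∈ Finset.Icc 1 N, f n * w n) atTop (𝓝 0)) := by
  classical
  have hAP := Pool.Agent.W657.MR.t_AP
  have hMU := Pool.Agent.W29.MR.t_MU
  have hRO := Pool.Agent.W701.MR.t_RO
  have hDEa := Pool.Agent.W371.MR.t_DEa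
  have hDEb := Pool.Agent.W822.MR.DEb.t_DEb hRO
  have hDET := Pool.Agent.W334.MR.t_DET hAP hMU hDEa hDEb
  have hSUP := Pool.Agent.W597.MRS.t_SUP
  have hPAIR := Pool.Agent.W280.MR.t_PAIR Pool.Agent.W382.MR.SM.t_SM
  have hMV1 := Pool.Agent.W67.MR.t_MV1
  have hMV2 := Pool.Agent.W462.MR.t_MV2
  have hU := Pool.Agent.W356.MR.t_U
  have hWT := Pool.Agent.W554.MR.t_WT hMV1
  have hEX1 := Pool.Agent.W446.MR.t_EX1 hWT
  have hEX2 := Pool.Agent.W357.MR.t_EX2 hWT hPAIR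
  have hEX3 := Pool.Agent.W236.MR.t_EX3 hMV2
  have hEX := Pool.Agent.W584.MR.EX.t_EX hU hWT hEX1 hEX2 hEX3
  have hL2 := Pool.Agent.W402.MR.t_L2 hSUP hEX Pool.Agent.W303.MR.t_L2a Pool.Agent.W765.MR.t_L2b
    (Pool.Agent.W899.MR.L2c.t_L2c hAP)
  have hSEQ := Pool.Agent.W551.MR.t_SEQ hDET hL2
  have hFUR := Pool.Agent.W200.MR.t_FUR Pool.Agent.W915.MR.t_FURa Pool.Agent.W287.MR.t_FURb
  have hEPS := Pool.Agent.W881.MR.EPS.t_EPS Pool.Agent.W274.MR.t_EPa
  have hCOR := Pool.Agent.W513.MR.t_COR hAP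
  exact Pool.Agent.W200.MR.final hSEQ hFUR hEPS hCOR Pool.Agent.W991.MR.t_LIM
    Pool.Agent.W923.MR.t_APM Pool.Agent.W509.MR.t_OD

end Pool.Agent.S18410
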