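import Pool.Statements.S18419

set_option autoImplicit false
open Pool Pool.MP_c520af_nt

namespace Pool.Agent.S18419

/-- For every number field K there are maps (x,y) to (y, F_d(y) − δ_d x), with deg F_d = d and δ_d ≠ 0, for each d ≥ 2, whose number of K-rational periodic points eventually exceeds C·d for every constant C. -/
theorem result :
    ∀ (K : Type) [Field K] [NumberField K],
      ∃ (F : ℕ → Polynomial K) (δ : ℕ → K),
        (∀ d : ℕ, 2 ≤ d → (F d).natDegree = d ∧ δ d ≠ 0) ∧
        ∀ C : ℕ, ∃ D : ℕ, ∀ d : ℕ, 2 ≤ d → D ≤ d →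
          (((C * d : ℕ) : ℕ∞) <
            {P : K × K | ∃ n : ℕ, 1 ≤ n ∧
              (fun p : K × K => (p.2, (F d).eval p.2 - δ d * p.1))^[n] P = P}.encard) := by
  classical
  intro K _ _
  have hev : ∀ d : ℕ, ∀ j : ℕ, j < d →
      (∏ i ∈ Finset.range d, (Polynomial.X - Polynomial.C (i : K))).eval (j : K) = 0 := by
    intro d j hj
    rw [Polynomial.eval_prod]
    exact Finset.prod_eq_zero (Finset.mem_range.2 hj) (by simp)
  refine ⟨fun d => ∏ i ∈ Finset.range d, (Polynomial.X - Polynomial.C (i : K)), fun _ => -1,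
    fun d _ => ⟨?_, by simp⟩, fun C => ⟨C + 1, fun d hd hCd => ?_⟩⟩
  · rw [Polynomial.natDegree_prod_of_monic _ _ (fun i _ => Polynomial.monic_X_sub_C _)]
    simp only [Polynomial.natDegree_X_sub_C, Finset.sum_const, Finset.card_range, smul_eq_mul, mul_one]
  · -- every point of the grid `{0, ..., d - 1} ^ 2` satisfies `f (f P) = P`
    set T : Finset (K × K) :=
      (Finset.range d ×ˢ Finset.range d).image (fun q : ℕ × ℕ => ((q.1 : K), (q.2 : K))) with hT
    have hcard : T.card = d * d := by
      rw [hT, Finset.card_image_of_injective]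
      · simp
      · rintro ⟨a, b⟩ ⟨a', b'⟩ h
        simp only [Prod.mk.injEq, Nat.cast_inj] at h
        exact Prod.ext h.1 h.2
    have hsub : (T : Set (K × K)) ⊆ {P : K × K | ∃ n : ℕ, 1 ≤ n ∧
        (fun p : K × K => (p.2, (∏ i ∈ Finset.range d,
          (Polynomial.X - Polynomial.C (i : K))).eval p.2 - (-1) * p.1))^[n] P = P} := by
      intro P hP
      rw [Finset.mem_coe, hT, Finset.mem_image] at hP
      obtain ⟨⟨a, b⟩, hab, rfl⟩ := hP
      rw [Finset.mem_product, Finset.mem_range, Finset.mem_range] at hab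
      refine ⟨2, by norm_num, ?_⟩
      have ha := hev d a hab.1
      have hb := hev d b hab.2
      simp only [Function.iterate_succ, Function.iterate_zero, Function.comp_apply, id_eq]
      rw [hb]
      simp only [zero_sub, neg_mul, one_mul, neg_neg]
      rw [ha]
      simp
    refine lt_of_lt_of_le ?_ (Set.encard_le_encard hsub)
    rw [Set.encard_coe_eq_coe_finsetCard, hcard]
    have h1 : C * d < d * d := Nat.mul_lt_mul_of_pos_right hCd (by omega)
    exact_mod_cast h1

end Pool.Agent.S18419
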