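import Pool.Statements.S18519
import Pool.Agent.Results.MP_cd51d2_nt.ThreePspAP

set_option autoImplicit false
open Pool Pool.MP_cd51d2_nt

namespace Pool.Agent.S18519

open Pool.Agent.Results.MP_cd51d2_nt.ThreePspAP in
/-- The starting file's predicate implies Mathlib's. -/
theorem psp_fermat {a n : ℕ} (ha : 2 ≤ a) (h : IsPsp a n) : Nat.FermatPsp n a := by
  obtain ⟨h1, h2, h3⟩ := h
  refine ⟨?_, h2, h1⟩
  show n ∣ a ^ (n - 1) - 1
  exact (Nat.modEq_iff_dvd' (Nat.one_le_pow _ _ (by omega))).1 h3.symm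

/-- For every even natural base a ≥ 2, there are infinitely many pairs (n, d) with d > 0 such that n, n+d and n+2d are all Fermat pseudoprimes to base a. -/
theorem result :
    ∀ a : ℕ, 2 ≤ a → Even a →
      Set.Infinite {p : ℕ × ℕ | 0 < p.2 ∧ Nat.FermatPsp p.1 a ∧
        Nat.FermatPsp (p.1 + p.2) a ∧ Nat.FermatPsp (p.1 + 2 * p.2) a} := by
  intro a ha _
  have key := Pool.Agent.Results.MP_cd51d2_nt.ThreePspAP.result a ha
  have hinj : Set.InjOn (fun t : ℕ × ℕ × ℕ => (t.1, t.2.1 - t.1))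
      {t : ℕ × ℕ × ℕ | t.1 < t.2.1 ∧ t.2.1 < t.2.2 ∧ t.2.1 - t.1 = t.2.2 - t.2.1 ∧
        Pool.Agent.Results.MP_cd51d2_nt.ThreePspAP.IsPsp a t.1 ∧
        Pool.Agent.Results.MP_cd51d2_nt.ThreePspAP.IsPsp a t.2.1 ∧
        Pool.Agent.Results.MP_cd51d2_nt.ThreePspAP.IsPsp a t.2.2} := by
    rintro ⟨x, y, z⟩ hx ⟨x', y', z'⟩ hx' h
    obtain ⟨h1, h2, h3, -⟩ := hx
    obtain ⟨h1', h2', h3', -⟩ := hx'
    simp only [Prod.mk.injEq] at h h1 h2 h3 h1' h2' h3' ⊢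
    omega
  refine (key.image hinj).mono ?_
  rintro _ ⟨⟨x, y, z⟩, ⟨h1, h2, h3, h4, h5, h6⟩, rfl⟩
  simp only at h1 h2 h3 h4 h5 h6
  refine ⟨?_, ?_, ?_, ?_⟩
  · show 0 < y - x
    omega
  · exact psp_fermat ha h4
  · show Nat.FermatPsp (x + (y - x)) a
    rw [show x + (y - x) = y by omega]
    exact psp_fermat ha h5
  · show Nat.FermatPsp (x + 2 * (y - x)) a
    rw [show x + 2 * (y - x) = z by omega]
    exact psp_fermat ha h6

end Pool.Agent.S18519
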