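import Pool.Statements.S18823
import Pool.Agent.H377R2.NK.Fin
import Pool.Agent.H377R2.NK.CountLow
import Pool.Agent.H377R2.NK.Lower

set_option autoImplicit false
open Pool Pool.MP_e7ed3f_nt

namespace Pool.Agent.S18823

open Filter Topology

/-- the `3x+1` function -/
def T (n : ℕ) : ℕ := if n % 2 = 0 then n / 2 else (3 * n + 1) / 2

/-- `N_k(a)`, the number of positive integers `n` with `T^(k)(n) = a` -/
noncomputable def N (k a : ℕ) : ℕ := Set.ncard {n : ℕ | 1 ≤ n ∧ T^[k] n = a}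

theorem iter_zero (k : ℕ) : T^[k] 0 = 0 := by
  induction k with
  | zero => rfl
  | succ k ih => rw [Function.iterate_succ_apply']; rw [ih]; rfl

theorem set_eq (k a : ℕ) (ha : ¬ 3 ∣ a) : {n : ℕ | 1 ≤ n ∧ T^[k] n = a} =
    {m : ℕ | (fun m : ℕ => if m % 2 = 0 then m / 2 else (3 * m + 1) / 2)^[k] m = a} := by
  ext n
  constructor
  · rintro ⟨_, h⟩
    exact h
  · intro h
    refine ⟨?_, h⟩
    rcases Nat.eq_zero_or_pos n with h0 | h0
    · exfalso
      subst h0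
      have h1 : T^[k] 0 = a := h
      rw [iter_zero] at h1
      exact ha (h1 ▸ dvd_zero 3)
    · exact h0

theorem main {ε : ℝ} (hε : 0 < ε) : ∃ K : ℕ, ∀ k : ℕ, K ≤ k → ∀ a : ℕ, ¬ 3 ∣ a →
    (4 / 3 : ℝ) ^ ((1 - ε) * (k : ℝ)) ≤ (N k a : ℝ) ∧
      (N k a : ℝ) ≤ (4 / 3 : ℝ) ^ ((1 + ε) * (k : ℝ)) := by
  obtain ⟨K₁, hK₁⟩ := Pool.Agent.H377R2.NK.lower hε
  obtain ⟨K₂, hK₂⟩ := Pool.Agent.H377R2.NK.nat_upper hε
  refine ⟨max K₁ K₂, fun k hk a ha => ⟨?_, ?_⟩⟩
  · have h3 : ¬ (3 : ℤ) ∣ (a : ℤ) := by omega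
    refine (hK₁ k ((le_max_left K₁ K₂).trans hk) (a : ℤ) h3).trans ?_
    have h4 := Pool.Agent.H377R2.NK.Npr_le_ncard k a (by omega)
    have h5 := Set.ncard_le_ncard (s := {m : ℕ |
              (fun n : ℕ => if n % 2 = 0 then n / 2 else (3 * n + 1) / 2)^[k] m = a ∧
              ∀ j : ℕ, j ≤ k →
                (fun n : ℕ => if n % 2 = 0 then n / 2 else (3 * n + 1) / 2)^[j] m % 3 ≠ 0})
      (t := {m : ℕ | (fun m : ℕ => if m % 2 = 0 then m / 2 else (3 * m + 1) / 2)^[k] m = a})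
      (fun m hm => hm.1) (Pool.Agent.H377R2.NK.nat_fin k a).1
    have h6 := h4.trans h5
    unfold N
    rw [set_eq k a ha]
    exact_mod_cast h6
  · have h := hK₂ k ((le_max_right K₁ K₂).trans hk) a
    unfold N
    rw [set_eq k a ha]
    exact h

theorem lim (a : ℕ) (ha : ¬ 3 ∣ a) :
    Tendsto (fun k : ℕ => Real.log (N k a : ℝ) / (k : ℝ)) atTop (𝓝 (Real.log (4 / 3))) := by
  have hL : 0 < Real.log (4 / 3) := Real.log_pos (by norm_num)
  rw [Metric.tendsto_atTop]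
  intro δ hδ
  obtain ⟨K, hK⟩ := main (ε := δ / (2 * Real.log (4 / 3))) (by positivity)
  refine ⟨max K 1, fun k hk => ?_⟩
  have hk1 : (1 : ℝ) ≤ k := by exact_mod_cast (le_max_right K 1).trans hk
  have hk0 : (0 : ℝ) < k := by linarith
  obtain ⟨h1, h2⟩ := hK k ((le_max_left K 1).trans hk) a ha
  have hN : (0 : ℝ) < (N k a : ℝ) := lt_of_lt_of_le (Real.rpow_pos_of_pos (by norm_num) _) h1
  have h3 := Real.log_le_log (Real.rpow_pos_of_pos (by norm_num) _) h1
  have h4 := Real.log_le_log hN h2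
  rw [Real.log_rpow (by norm_num)] at h3 h4
  have h5 : δ / (2 * Real.log (4 / 3)) * Real.log (4 / 3) = δ / 2 := by
    field_simp
  have h6 : (1 - δ / (2 * Real.log (4 / 3))) * k * Real.log (4 / 3) =
      (Real.log (4 / 3) - δ / 2) * k := by
    rw [← h5]; ring
  have h7 : (1 + δ / (2 * Real.log (4 / 3))) * k * Real.log (4 / 3) =
      (Real.log (4 / 3) + δ / 2) * k := by
    rw [← h5]; ring
  rw [h6] at h3
  rw [h7] at h4
  rw [Real.dist_eq, abs_lt]
  constructor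
  · have : Real.log (4 / 3) - δ / 2 ≤ Real.log (N k a : ℝ) / k := by
      rw [le_div_iff₀ hk0]; exact h3
    linarith
  · have : Real.log (N k a : ℝ) / k ≤ Real.log (4 / 3) + δ / 2 := by
      rw [div_le_iff₀ hk0]; exact h4
    linarith

/-- For every positive integer a not divisible by 3, the limsup over k of log(number of n ≥ 1 whose k-th 3x+1 iterate T^k(n) equals a)/k equals log(4/3), where T(n)=n/2 if n even and (3n+1)/2 if n odd. -/
theorem result :
    ∀ a : ℕ, 0 < a → ¬ (3 ∣ a) →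
      Filter.limsup
        (fun k : ℕ =>
          Real.log ((Set.ncard {n : ℕ | 1 ≤ n ∧
            (fun m : ℕ => if m % 2 = 0 then m / 2 else (3 * m + 1) / 2)^[k] n = a} : ℕ) : ℝ)
            / (k : ℝ))
        Filter.atTop = Real.log (4 / 3) := by
  intro a _ ha
  exact (lim a ha).limsup_eq

end Pool.Agent.S18823
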