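import Pool.Statements.S18875
import Pool.Agent.W91.Final
import Pool.Agent.W91.Necessity
import Pool.Agent.W91.RootsOfUnity

set_option autoImplicit false
open scoped NumberField
open Pool Pool.MP_ed3ef1_nt

namespace Pool.Agent.S18875

/-- For every number field K and tuple a in O_K^n: some nonzero K-conjugates α_i (repeats allowed) satisfy Σ a_i α_i = 0 iff the strong archimedean and nonarchimedean absolute value criteria hold, or Σ a_i ω_i = 0 for some roots of unity ω_i. -/
theorem result :
  ∀ (K : Type) [Field K] [NumberField K] (n : ℕ) (a : Fin n → 𝓞 K),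
    (∃ α : Fin n → AlgebraicClosure K,
        (∀ i, α i ≠ 0) ∧ (∀ i j, minpoly K (α i) = minpoly K (α j)) ∧
        ∑ i, algebraMap K (AlgebraicClosure K) (a i : K) * α i = 0) ↔
    (((∀ v : NumberField.InfinitePlace K, ∀ i : Fin n,
          v (a i : K) < ∑ j ∈ Finset.univ.erase i, v (a j : K)) ∧
      (∀ v : IsDedekindDomain.HeightOneSpectrum (𝓞 K), ∀ i : Fin n,
          ∃ j : Fin n, j ≠ i ∧ v.valuation K (a i : K) ≤ v.valuation K (a j : K))) ∨
     ∃ ω : Fin n → AlgebraicClosure K,
        (∀ i, ∃ m : ℕ, 0 < m ∧ ω i ^ m = 1) ∧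
        ∑ i, algebraMap K (AlgebraicClosure K) (a i : K) * ω i = 0) := by
  intro K _ _ n a
  constructor
  · intro h
    exact Pool.Agent.W91.Nec.nec K n a h
  · rintro (⟨hA, hN⟩ | h)
    · rcases Nat.eq_zero_or_pos n with rfl | hn
      · exact ⟨fun i => i.elim0, fun i => i.elim0, fun i => i.elim0, by simp⟩
      · exact Pool.Agent.W91.Final.sufficiency a hn hA hN
    · exact Pool.Agent.W91.RU.of_rootsOfUnity K n a h

end Pool.Agent.S18875
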