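import Pool.Statements.S19089
import Pool.Agent.Results.MP_fe6546_nt.GoldenExponent

set_option autoImplicit false
open Pool Pool.MP_fe6546_nt

namespace Pool.Agent.S19089

/-- There are reals θ1,θ2,θ3 with 1,θ1,θ2,θ3 independent over ℤ such that, for some γ0<2, every γ for which t^γ·min over positive integer x with max x_i ≤ t of ‖Σθ_i x_i‖ stays bounded along arbitrarily large t satisfies γ ≤ γ0. -/
theorem result :
    ∃ θ : Fin 3 → ℝ,
      LinearIndependent ℤ ![(1 : ℝ), θ 0, θ 1, θ 2] ∧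
      ∃ γ₀ : ℝ, γ₀ < 2 ∧
        ∀ γ : ℝ,
          (∃ C : ℝ, ∃ᶠ t : ℝ in Filter.atTop,
              ∃ x : Fin 3 → ℕ, (∀ i, 1 ≤ x i ∧ (x i : ℝ) ≤ t) ∧
                t ^ γ * |(∑ i, θ i * (x i : ℝ)) - (round (∑ i, θ i * (x i : ℝ)) : ℝ)| ≤ C)
          → γ ≤ γ₀ := by
  obtain ⟨Θ, h1, _, _, h4⟩ := Pool.Agent.Results.MP_fe6546_nt.GoldenExponent.result 3 (by norm_num)
  have h5 : Real.sqrt 5 < 3 := by
    rw [Real.sqrt_lt' (by norm_num)]
    norm_num
  refine ⟨Θ, ?_, (1 + Real.sqrt 5) / 2, by linarith, ?_⟩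
  · have h6 : (Fin.cons 1 Θ : Fin (3 + 1) → ℝ) = ![(1 : ℝ), Θ 0, Θ 1, Θ 2] := by
      ext i
      fin_cases i <;> rfl
    rw [← h6]
    exact h1
  · rintro γ ⟨C, hC⟩
    by_contra hγ
    push Not at hγ
    obtain ⟨γ', hγ1, hγ2⟩ := exists_between hγ
    obtain ⟨c, hc, h6⟩ := h4 γ' hγ1
    have hlim : Filter.Tendsto (fun t : ℝ => c * t ^ (γ - γ')) Filter.atTop Filter.atTop :=
      (tendsto_rpow_atTop (by linarith)).const_mul_atTop hc
    have hev : ∀ᶠ t : ℝ in Filter.atTop, C < c * t ^ (γ - γ') := hlim.eventually_gt_atTop C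
    obtain ⟨t, ⟨x, hx, hxt⟩, ht1, ht2⟩ :=
      (hC.and_eventually (hev.and (Filter.eventually_gt_atTop 0))).exists
    have h7 := h6 x t hx
    have h8 : t ^ γ * (c * t ^ (-γ')) ≤ C := by
      refine le_trans (mul_le_mul_of_nonneg_left h7 (Real.rpow_nonneg ht2.le _)) ?_
      exact hxt
    have h9 : t ^ γ * (c * t ^ (-γ')) = c * t ^ (γ - γ') := by
      rw [sub_eq_add_neg, Real.rpow_add ht2]
      ring
    linarith

end Pool.Agent.S19089
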