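import Pool.Statements.S19122
import Pool.Agent.W846.ERWTime

set_option autoImplicit false
open Pool Pool.MP_05ceff_pr

namespace Pool.Agent.S19122

/-- The negation of the preceding statement: For a 1D excited random walk in a shift-ergodic cookie environment with boundedly many cookies and weak ellipticity, let δ be the expected total cookie drift at 0. The walk is recurrent if ∣δ∣ ≤ 1, tends to +∞ a.s. if δ > 1, and to −∞ a.s. if δ < −1. -/
theorem result :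
    ¬ (∀ (Ω : Type) [MeasurableSpace Ω] (μ : MeasureTheory.Measure Ω)
      [MeasureTheory.IsProbabilityMeasure μ]
      (env : Ω → ℤ → ℕ → ℝ) (U : ℕ → Ω → ℝ) (X : ℕ → Ω → ℤ),
      Measurable env →
      (∀ n, Measurable (U n)) →
      (∀ w x i, env w x i ∈ Set.Icc (0:ℝ) 1) →
      ProbabilityTheory.iIndepFun U μ →
      (∀ n, μ.map (U n) = MeasureTheory.volume.restrict (Set.Icc (0:ℝ) 1)) →
      ProbabilityTheory.IndepFun env (fun w n => U n w) μ →
      Ergodic (fun (e : ℤ → ℕ → ℝ) (x : ℤ) => e (x + 1)) (μ.map env) →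
      (∃ M : ℕ, ∀ᵐ w ∂μ, ∀ x : ℤ, ∀ i : ℕ, M < i → env w x i = 1 / 2) →
      0 < μ {w | ∀ i : ℕ, 1 ≤ i → 0 < env w 0 i} →
      0 < μ {w | ∀ i : ℕ, 1 ≤ i → env w 0 i < 1} →
      (∀ w, X 0 w = 0) →
      (∀ n w, X (n + 1) w = X n w +
          (if U n w < env w (X n w)
              ((Finset.range (n + 1)).filter (fun m => X m w = X n w)).card
            then (1 : ℤ) else -1)) →
      ((|∫ w, (∑' i : ℕ, (2 * env w 0 (i + 1) - 1)) ∂μ| ≤ 1 →
          ∀ᵐ w ∂μ, ∃ᶠ n in Filter.atTop, X n w = 0) ∧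
       (1 < ∫ w, (∑' i : ℕ, (2 * env w 0 (i + 1) - 1)) ∂μ →
          ∀ᵐ w ∂μ, Filter.Tendsto (fun n => X n w) Filter.atTop Filter.atTop) ∧
       (∫ w, (∑' i : ℕ, (2 * env w 0 (i + 1) - 1)) ∂μ < -1 →
          ∀ᵐ w ∂μ, Filter.Tendsto (fun n => X n w) Filter.atTop Filter.atBot))) := by
  intro h
  obtain ⟨Ω, mΩ, μ, hμ, env, U, X, henv, hU, hX, h01, hind, hunif, hindep, h0, hstep, hse, hbd,
    hw1, hw2, hδ, hpos⟩ := Pool.Agent.W846.ERW.main
  have hbd' : ∃ M : ℕ, ∀ᵐ w ∂μ, ∀ x : ℤ, ∀ i : ℕ, M < i → env w x i = 1 / 2 := hbd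
  have key := (h Ω μ env U X henv hU h01 hind hunif hindep hse hbd' (hw1 0) (hw2 0) h0 hstep).1
    (by rw [hδ]; norm_num)
  have h1 : μ {w | ∀ n, 1 ≤ n → 1 ≤ X n w} = 0 := by
    refine MeasureTheory.measure_mono_null ?_ (MeasureTheory.ae_iff.mp key)
    intro w hw hfreq
    rw [Set.mem_ofPred_eq] at hw
    obtain ⟨n, hn1, hn2⟩ := (Filter.frequently_atTop.mp hfreq) 1
    have := hw n hn1
    omega
  exact absurd h1 hpos.ne'

end Pool.Agent.S19122
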