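import Pool.Statements.S19141
import Pool.Agent.W909.UG.Main
import Pool.Agent.W340.UG.A1
import Pool.Agent.W340.UG.A3
import Pool.Agent.W340.UG.A4
import Pool.Agent.W340.UG.B2
import Pool.Agent.W340.UG.F
import Pool.Agent.W991.UGA2
import Pool.Agent.W991.UGB1
import Pool.Agent.W991.UGM

set_option autoImplicit false
open MeasureTheory ProbabilityTheory
open Pool Pool.MP_0c40c8_pr

namespace Pool.Agent.S19141

/-- For a unimodular Galton–Watson tree whose degree law has finite support and no mass at 0 or 1, the compactly supported measure whose k-th moment is the expected number of length-k closed walks at the root has finitely many atoms. -/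
theorem result :
  ∀ (P : PMF ℕ), P.support.Finite → P 0 = 0 → P 1 = 0 →
  ∀ (Ω : Type) [MeasureSpace Ω] [IsProbabilityMeasure (volume : Measure Ω)]
    (N : List ℕ → Ω → ℕ),
    (∀ w, Measurable (N w)) → iIndepFun N (volume : Measure Ω) →
    (∀ k : ℕ, (volume : Measure Ω) {ω | N [] ω = k} = P k) →
    (∀ w : List ℕ, w ≠ [] → ∀ k : ℕ,
      (volume : Measure Ω) {ω | N w ω = k}
        = ((k : ENNReal) + 1) * P (k + 1) / ∑' j : ℕ, (j : ENNReal) * P j) →
    ∀ ν : Measure ℝ, IsProbabilityMeasure ν →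
      (∃ R : ℝ, ν (Set.Icc (-R) R)ᶜ = 0) →
      (∀ k : ℕ, ∫ x, x ^ k ∂ν =
        ∫ ω, ((Set.ncard {f : Fin (k + 1) → List ℕ |
            f 0 = [] ∧ f (Fin.last k) = [] ∧
            (∀ i, ∀ j < (f i).length, (f i).getD j 0 < N ((f i).take j) ω) ∧
            ∀ i : Fin k, (∃ a : ℕ, f i.succ = f i.castSucc ++ [a]) ∨
                         (∃ a : ℕ, f i.castSucc = f i.succ ++ [a])} : ℕ) : ℝ)
          ∂(volume : Measure Ω)) →
      {x : ℝ | ν {x} ≠ 0}.Finite := by
  intro P hP hP0 hP1 Ω _ _ N hNm hind hroot hrest ν hν hR hmom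
  exact Pool.Agent.W909.UG.main Pool.Agent.W340.UG.a1 Pool.Agent.W991.UGA2.x
    Pool.Agent.W340.UG.A3.a3 Pool.Agent.W340.UG.a4 Pool.Agent.W991.UGB1.x
    Pool.Agent.W340.UG.b2 Pool.Agent.W991.UGM.xM Pool.Agent.W991.UGM.xC
    Pool.Agent.W340.UG.x P hP hP0 hP1 Ω N hNm hind hroot hrest ν hν hR hmom

end Pool.Agent.S19141
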