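import Pool.Statements.S19171
import Pool.Agent.W844.GP.Main

set_option autoImplicit false
open MeasureTheory ProbabilityTheory Filter Topology
open Pool Pool.MP_1479fb_pr

namespace Pool.Agent.S19171

/-- For every d≥2 and every i.i.d. real field on Z^d with E[(X0+)^d (log+ X0+)^(d+α)]<∞ for some α>0, and no condition on X0−, the max weight over self-avoiding n-step paths from 0, divided by n, converges a.s. to a finite constant. -/
theorem result :
    ∀ (d : ℕ), 2 ≤ d →
    ∀ (Ω : Type) [MeasurableSpace Ω] (P : Measure Ω) [IsProbabilityMeasure P]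
      (X : (Fin d → ℤ) → Ω → ℝ),
      (∀ v, Measurable (X v)) →
      iIndepFun X P →
      (∀ v, IdentDistrib (X v) (X 0) P P) →
      (∃ α : ℝ, 0 < α ∧
        ∫⁻ ω, ENNReal.ofReal ((max (X 0 ω) 0) ^ d *
          (max (Real.log (max (X 0 ω) 0)) 0) ^ ((d : ℝ) + α)) ∂P < ⊤) →
      ∃ M : ℝ, ∀ᵐ ω ∂P,
        Tendsto
          (fun n : ℕ =>
            (⨆ p : {p : Fin (n + 1) → (Fin d → ℤ) //
                p 0 = 0 ∧ Function.Injective p ∧
                ∀ i : Fin n, ∑ j, |p i.succ j - p i.castSucc j| = 1},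
              ∑ i : Fin n, X (p.1 i.succ) ω) / (n : ℝ))
          atTop (𝓝 M) :=
  Pool.Agent.W844.GP.frozen Pool.Agent.W844.GP.e2

end Pool.Agent.S19171
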