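import Pool.Statements.S19182
import Pool.Agent.Results.MP_1775a6_pr.FiberQ2

set_option autoImplicit false
set_option linter.deprecated false
open MeasureTheory
open Pool Pool.MP_1775a6_pr

namespace Pool.Agent.S19182

open Pool.Agent.Results.MP_1775a6_pr.FiberQ2

theorem openGraph_eq {W : Type} (H : SimpleGraph W) (ω : Sym2 W → Bool) :
    openGraph H ω = H ⊓ SimpleGraph.fromEdgeSet {e | ω e = true} := by
  ext x y
  simp only [openGraph, SimpleGraph.fromEdgeSet_adj, SimpleGraph.inf_adj,
    SimpleGraph.mem_edgeSet]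
  constructor
  · rintro ⟨⟨h1, h2⟩, h3⟩
    exact ⟨h1, h2, h3⟩
  · rintro ⟨h1, h2, h3⟩
    exact ⟨⟨h1, h2⟩, h3⟩

theorem zLine_eq : zLine = SimpleGraph.hasse ℤ := by
  ext m n
  simp only [zLine, SimpleGraph.fromRel_adj, SimpleGraph.hasse_adj, Order.covBy_iff_add_one_eq]
  constructor
  · rintro ⟨-, h | h⟩
    · left; omega
    · right; omega
  · intro h
    refine ⟨?_, ?_⟩
    · rintro rfl; omega
    · rcases h with h | h
      · left; omega
      · right; omega

theorem bool_gen : (⊤ : MeasurableSpace Bool) = MeasurableSpace.generateFrom {{true}} := by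
  symm
  rw [eq_top_iff]
  intro s _
  have h1 : MeasurableSet[MeasurableSpace.generateFrom {{true}}] ({true} : Set Bool) :=
    MeasurableSpace.measurableSet_generateFrom rfl
  have h2 : MeasurableSet[MeasurableSpace.generateFrom {{true}}] ({true}ᶜ : Set Bool) := h1.compl
  by_cases ht : true ∈ s <;> by_cases hf : false ∈ s
  · have : s = Set.univ := by
      ext b; cases b <;> simp [ht, hf]
    rw [this]; exact @MeasurableSet.univ Bool (MeasurableSpace.generateFrom {{true}})
  · have : s = {true} := by
      ext b; cases b <;> simp [ht, hf]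
    rw [this]; exact h1
  · have : s = {true}ᶜ := by
      ext b; cases b <;> simp [ht, hf]
    rw [this]; exact h2
  · have : s = ∅ := by
      ext b; cases b <;> simp [ht, hf]
    rw [this]; exact @MeasurableSet.empty Bool (MeasurableSpace.generateFrom {{true}})

theorem comap_gen {Ω : Type} (f : Ω → Bool) :
    MeasurableSpace.comap f (inferInstance : MeasurableSpace Bool) =
      MeasurableSpace.generateFrom {{w | f w = true}} := by
  have : (inferInstance : MeasurableSpace Bool) = ⊤ := rfl
  rw [this, bool_gen, MeasurableSpace.comap_generateFrom]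
  congr 1
  ext s
  constructor
  · rintro ⟨t, ht, rfl⟩
    rw [Set.mem_singleton_iff] at ht
    subst ht
    rfl
  · intro hs
    exact ⟨{true}, rfl, by rw [Set.mem_singleton_iff.1 hs]; rfl⟩

/-- The law of an independent family of events of probability `q`. -/
theorem map_eq {E : Type} (q : NNReal) (hq : q ≤ 1)
    (Ω : Type) [MeasurableSpace Ω] (P : Measure Ω) [IsProbabilityMeasure P]
    (ξ : Ω → Set E) (hm : ∀ e : E, MeasurableSet {w : Ω | e ∈ ξ w})
    (hi : ProbabilityTheory.iIndepSet (fun e : E => {w : Ω | e ∈ ξ w}) P)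
    (hp : ∀ e : E, P {w : Ω | e ∈ ξ w} = ENNReal.ofReal q) :
    ∃ Φ : Ω → (E → Bool), (∀ w e, Φ w e = true ↔ e ∈ ξ w) ∧
      MeasurePreserving Φ P (bernLaw E q hq) := by
  classical
  have hset : ∀ e : E, {w : Ω | decide (e ∈ ξ w) = true} = {w : Ω | e ∈ ξ w} := by
    intro e; ext w; simp
  have hmf : ∀ e : E, Measurable (fun w : Ω => decide (e ∈ ξ w)) := by
    intro e
    refine measurable_to_bool ?_
    have : (fun w : Ω => decide (e ∈ ξ w)) ⁻¹' {true} = {w : Ω | e ∈ ξ w} := by
      ext w; simp
    rw [this]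
    exact hm e
  refine ⟨fun w e => decide (e ∈ ξ w), by intro w e; simp, ?_, ?_⟩
  · exact measurable_pi_lambda _ hmf
  · have hind : ProbabilityTheory.iIndepFun (fun (e : E) (w : Ω) => decide (e ∈ ξ w)) P := by
      rw [ProbabilityTheory.iIndepFun_iff_iIndep]
      rw [ProbabilityTheory.iIndepSet_iff_iIndep] at hi
      have : (fun e : E => MeasurableSpace.comap (fun w : Ω => decide (e ∈ ξ w))
          (inferInstance : MeasurableSpace Bool)) =
          fun e : E => MeasurableSpace.generateFrom {{w : Ω | e ∈ ξ w}} := by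
        funext e
        rw [comap_gen, hset]
      rw [this]
      exact hi
    rw [(ProbabilityTheory.iIndepFun_iff_map_fun_eq_infinitePi_map (fun e => hmf e)).1 hind]
    unfold bernLaw
    congr 1
    funext e
    have : IsProbabilityMeasure (P.map fun w => decide (e ∈ ξ w)) :=
      Measure.isProbabilityMeasure_map (hmf e).aemeasurable
    have h1 : (P.map fun w => decide (e ∈ ξ w)) {true} =
        (PMF.bernoulli q hq).toMeasure {true} := by
      rw [Measure.map_apply (hmf e) (MeasurableSet.singleton _),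
        PMF.toMeasure_apply_singleton _ _ (MeasurableSet.singleton _), PMF.bernoulli_apply]
      have : (fun w : Ω => decide (e ∈ ξ w)) ⁻¹' {true} = {w : Ω | e ∈ ξ w} := by
        ext w; simp
      rw [this, hp]
      simp
    have h2 : (P.map fun w => decide (e ∈ ξ w)) {false} =
        (PMF.bernoulli q hq).toMeasure {false} := by
      have : ({false} : Set Bool) = {true}ᶜ := by ext b; cases b <;> simp
      rw [this, prob_compl_eq_one_sub (MeasurableSet.singleton _), h1,
        prob_compl_eq_one_sub (MeasurableSet.singleton _)]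
    refine Measure.ext_of_singleton ?_
    intro b
    cases b
    · exact h2
    · exact h1

/-- The negation of the preceding statement: For a countable infinite connected locally finite graph G where percolation at every p<1 has only finite clusters, Bernoulli(p) percolation on G×Z almost surely has every infinite cluster meeting each fiber {v}×Z in infinitely many points. -/
theorem result :
    ¬ (∀ (V : Type) [Countable V] [Infinite V] (G : SimpleGraph V),
      G.Connected →
      (∀ v : V, (G.neighborSet v).Finite) →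
      (∀ q : ℝ, 0 ≤ q → q < 1 →
        ∀ (Ω : Type) [MeasurableSpace Ω] (P : Measure Ω) [IsProbabilityMeasure P]
          (ξ : Ω → Set (Sym2 V)),
          (∀ e : Sym2 V, MeasurableSet {w : Ω | e ∈ ξ w}) →
          ProbabilityTheory.iIndepSet (fun e : Sym2 V => {w : Ω | e ∈ ξ w}) P →
          (∀ e : Sym2 V, P {w : Ω | e ∈ ξ w} = ENNReal.ofReal q) →
          ∀ᵐ w ∂P, ∀ x : V, Set.Finite {y : V |
            (G ⊓ SimpleGraph.fromEdgeSet (ξ w)).Reachable x y}) →
      ∀ p : ℝ, 0 ≤ p → p ≤ 1 →
        ∀ (Ω : Type) [MeasurableSpace Ω] (P : Measure Ω) [IsProbabilityMeasure P]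
          (ξ : Ω → Set (Sym2 (V × ℤ))),
          (∀ e : Sym2 (V × ℤ), MeasurableSet {w : Ω | e ∈ ξ w}) →
          ProbabilityTheory.iIndepSet (fun e : Sym2 (V × ℤ) => {w : Ω | e ∈ ξ w}) P →
          (∀ e : Sym2 (V × ℤ), P {w : Ω | e ∈ ξ w} = ENNReal.ofReal p) →
          ∀ᵐ w ∂P, ∀ x : V × ℤ,
            Set.Infinite {y : V × ℤ |
              (SimpleGraph.boxProd G (SimpleGraph.hasse ℤ) ⊓
                SimpleGraph.fromEdgeSet (ξ w)).Reachable x y} →
            ∀ v : V, Set.Infinite {n : ℤ |
              (SimpleGraph.boxProd G (SimpleGraph.hasse ℤ) ⊓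
                SimpleGraph.fromEdgeSet (ξ w)).Reachable x (v, n)}) := by
  intro H
  obtain ⟨V, G, hc, hinf, hconn, hlf, hpc, p, hp, hp0, hp1, A, hAm, hApos, hA⟩ :=
    Pool.Agent.Results.MP_1775a6_pr.FiberQ2.result
  -- subcritical part
  have hsub : ∀ q : ℝ, 0 ≤ q → q < 1 →
        ∀ (Ω : Type) [MeasurableSpace Ω] (P : Measure Ω) [IsProbabilityMeasure P]
          (ξ : Ω → Set (Sym2 V)),
          (∀ e : Sym2 V, MeasurableSet {w : Ω | e ∈ ξ w}) →
          ProbabilityTheory.iIndepSet (fun e : Sym2 V => {w : Ω | e ∈ ξ w}) P →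
          (∀ e : Sym2 V, P {w : Ω | e ∈ ξ w} = ENNReal.ofReal q) →
          ∀ᵐ w ∂P, ∀ x : V, Set.Finite {y : V |
            (G ⊓ SimpleGraph.fromEdgeSet (ξ w)).Reachable x y} := by
    intro q hq0 hq1 Ω _ P _ ξ hm hi hP
    lift q to NNReal using hq0
    have hq : q ≤ 1 := by
      have : (q : ℝ) ≤ 1 := hq1.le
      exact_mod_cast this
    obtain ⟨Φ, hΦ, hmp⟩ := map_eq q hq Ω P ξ hm hi hP
    have hnull : bernLaw (Sym2 V) q hq
        {ω | ∃ C : (openGraph G ω).ConnectedComponent, C.supp.Infinite} = 0 := by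
      by_contra hne
      have hmem : q ∈ {p : NNReal | ∃ hp : p ≤ 1,
          0 < bernLaw (Sym2 V) p hp
            {ω | ∃ C : (openGraph G ω).ConnectedComponent, C.supp.Infinite}} :=
        ⟨hq, pos_iff_ne_zero.2 hne⟩
      have hle : pcrit G ≤ q := csInf_le (OrderBot.bddBelow _) hmem
      rw [hpc] at hle
      have : (1 : ℝ) ≤ q := by exact_mod_cast hle
      linarith
    have h0 := hmp.quasiMeasurePreserving.preimage_null hnull
    have h1 : ∀ᵐ w ∂P, w ∉ Φ ⁻¹' {ω | ∃ C : (openGraph G ω).ConnectedComponent,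
        C.supp.Infinite} := measure_eq_zero_iff_ae_notMem.1 h0
    filter_upwards [h1] with w hw x
    by_contra hx
    apply hw
    have hg : openGraph G (Φ w) = G ⊓ SimpleGraph.fromEdgeSet (ξ w) := by
      rw [openGraph_eq]
      congr 2
      ext e
      exact hΦ w e
    refine ⟨(openGraph G (Φ w)).connectedComponentMk x, ?_⟩
    have hs : ((openGraph G (Φ w)).connectedComponentMk x).supp =
        {y : V | (G ⊓ SimpleGraph.fromEdgeSet (ξ w)).Reachable x y} := by
      ext y
      rw [SimpleGraph.ConnectedComponent.mem_supp_iff, SimpleGraph.ConnectedComponent.eq, hg]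
      exact ⟨fun h => h.symm, fun h => SimpleGraph.Reachable.symm h⟩
    rw [hs]
    exact hx
  -- the counterexample
  have hprob : IsProbabilityMeasure (bernLaw (Sym2 (V × ℤ)) p hp) := by
    unfold bernLaw; infer_instance
  have hmeas : ∀ e : Sym2 (V × ℤ), MeasurableSet {ω : Sym2 (V × ℤ) → Bool | ω e = true} := by
    intro e
    exact measurableSet_eq_fun (measurable_pi_apply e) measurable_const
  have hcoord : ∀ e : Sym2 (V × ℤ), bernLaw (Sym2 (V × ℤ)) p hp
      {ω : Sym2 (V × ℤ) → Bool | ω e = true} = ENNReal.ofReal (p : ℝ) := by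
    intro e
    have h := Measure.infinitePi_map_eval
      (fun _ : Sym2 (V × ℤ) => (PMF.bernoulli p hp).toMeasure) e
    have h2 : bernLaw (Sym2 (V × ℤ)) p hp {ω | ω e = true} =
        ((bernLaw (Sym2 (V × ℤ)) p hp).map (fun x => x e)) {true} := by
      rw [Measure.map_apply (measurable_pi_apply e) (MeasurableSet.singleton _)]
      rfl
    rw [h2]
    unfold bernLaw
    rw [h, PMF.toMeasure_apply_singleton _ _ (MeasurableSet.singleton _), PMF.bernoulli_apply]
    simp
  have hindep : ProbabilityTheory.iIndepSet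
      (fun e : Sym2 (V × ℤ) => {ω : Sym2 (V × ℤ) → Bool | e ∈ {e | ω e = true}})
      (bernLaw (Sym2 (V × ℤ)) p hp) := by
    rw [ProbabilityTheory.iIndepSet_iff_iIndep]
    have h0 := ProbabilityTheory.iIndepFun_infinitePi (ι := Sym2 (V × ℤ)) (Ω := fun _ => Bool)
      (P := fun _ => (PMF.bernoulli p hp).toMeasure) (X := fun _ b => b) (by fun_prop)
    rw [ProbabilityTheory.iIndepFun_iff_iIndep] at h0
    have h1 : (fun e : Sym2 (V × ℤ) => MeasurableSpace.comap
        (fun ω : Sym2 (V × ℤ) → Bool => ω e) (inferInstance : MeasurableSpace Bool)) =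
        fun e => MeasurableSpace.generateFrom
          {{ω : Sym2 (V × ℤ) → Bool | e ∈ {e | ω e = true}}} := by
      funext e
      rw [comap_gen]
      rfl
    rw [← h1]
    exact h0
  have key := H V G hconn hlf hsub (p : ℝ) p.coe_nonneg (by exact_mod_cast hp)
    (Sym2 (V × ℤ) → Bool) (bernLaw (Sym2 (V × ℤ)) p hp) (fun ω => {e | ω e = true})
    hmeas hindep hcoord
  have h3 : bernLaw (Sym2 (V × ℤ)) p hp A = 0 := by
    rw [measure_eq_zero_iff_ae_notMem]
    filter_upwards [key] with ω hω hωA
    obtain ⟨C, hC, hfin⟩ := hA ω hωA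
    obtain ⟨x, hx⟩ := hC.nonempty
    have hg : openGraph (SimpleGraph.boxProd G zLine) ω =
        SimpleGraph.boxProd G (SimpleGraph.hasse ℤ) ⊓
          SimpleGraph.fromEdgeSet {e | ω e = true} := by
      rw [openGraph_eq, zLine_eq]
    have hs : ∀ y : V × ℤ, y ∈ C.supp ↔ (SimpleGraph.boxProd G (SimpleGraph.hasse ℤ) ⊓
          SimpleGraph.fromEdgeSet {e | ω e = true}).Reachable x y := by
      intro y
      rw [SimpleGraph.ConnectedComponent.mem_supp_iff] at hx ⊢
      rw [← hx, SimpleGraph.ConnectedComponent.eq, hg]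
      exact ⟨fun h => h.symm, fun h => SimpleGraph.Reachable.symm h⟩
    have hinf' : Set.Infinite {y : V × ℤ | (SimpleGraph.boxProd G (SimpleGraph.hasse ℤ) ⊓
          SimpleGraph.fromEdgeSet {e | ω e = true}).Reachable x y} := by
      have : {y : V × ℤ | (SimpleGraph.boxProd G (SimpleGraph.hasse ℤ) ⊓
          SimpleGraph.fromEdgeSet {e | ω e = true}).Reachable x y} = C.supp := by
        ext y; exact (hs y).symm
      rw [this]; exact hC
    have h4 := hω x hinf' x.1
    apply h4
    have h5 := hfin x.1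
    convert h5 using 1
    ext n
    exact (hs (x.1, n)).symm
  exact hApos.ne' h3

end Pool.Agent.S19182
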