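import Pool.Statements.S19226
import Pool.Agent.H921K.All

set_option autoImplicit false
open Pool Pool.MP_284d10_pr

namespace Pool.Agent.S19226

open Finset Pool.Agent.H921S

section aux

/-- the clauses of the statement -/
abbrev Cl (k n : ℕ) : Type :=
  {c : Finset (Fin n × Bool) // c.card = k ∧ (c.image Prod.fst).card = k}

/-- the two types of clauses are the same -/
def clEquiv (k n : ℕ) : Clause k n ≃ Cl k n where
  toFun C := ⟨C.lits, C.card_lits, by
    rw [Finset.card_image_of_injOn, C.card_lits]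
    intro l hl l' hl' h
    exact C.distinct l hl l' hl' h⟩
  invFun c := ⟨c.1, c.2.1, by
    intro l hl l' hl' h
    have h1 : (c.1.image Prod.fst).card = c.1.card := by rw [c.2.2, c.2.1]
    have h2 := Finset.card_image_iff.1 h1
    exact h2 hl hl' h⟩
  left_inv C := by ext; rfl
  right_inv c := by apply Subtype.ext; rfl

/-- the event of the statement -/
def Ev (k n : ℕ) (e : Fin (Nat.card (Cl k n)) ≃ Cl k n) : Prop :=
  ∃ m : ℕ,
    (∀ j : ℕ, j < m → ∃ a : Fin n → Bool,
        ∀ c : Cl k n, ((e.symm c : Fin _) : ℕ) < j → ∃ l ∈ c.val, a l.1 = l.2) ∧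
    ∃ H : Finset (Cl k n),
      H.Nonempty ∧
      (∀ c ∈ H, ((e.symm c : Fin _) : ℕ) < m) ∧
      ∃ a : Fin n → Bool,
        (∀ c ∈ H, ∃ l ∈ c.val, a l.1 = l.2) ∧
        ∀ b : Fin n → Bool, (∀ c ∈ H, ∃ l ∈ c.val, b l.1 = l.2) →
          ∀ i : Fin n, (∃ c ∈ H, ∃ l ∈ c.val, l.1 = i) → b i = a i

theorem card_cl (k n : ℕ) : Fintype.card (Clause k n) = Nat.card (Cl k n) := by
  rw [← Nat.card_eq_fintype_card]
  exact Nat.card_congr (clEquiv k n)

/-- orderings correspond -/
noncomputable def ordEquiv (k n : ℕ) :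
    (Pool.Agent.H921S.Ord (Clause k n)) ≃ (Fin (Nat.card (Cl k n)) ≃ Cl k n) :=
  Equiv.equivCongr (finCongr (card_cl k n)) (clEquiv k n)

theorem ord_symm (k n : ℕ) (σ : Pool.Agent.H921S.Ord (Clause k n)) (c : Cl k n) :
    (((ordEquiv k n σ).symm c : Fin _) : ℕ) = (σ.symm ((clEquiv k n).symm c) : ℕ) := by
  simp [ordEquiv, Equiv.equivCongr]

theorem mem_st (k n : ℕ) (σ : Pool.Agent.H921S.Ord (Clause k n)) (m : ℕ) (C : Clause k n) :
    C ∈ st σ m ↔ (((ordEquiv k n σ).symm (clEquiv k n C) : Fin _) : ℕ) < m := by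
  rw [ord_symm, Equiv.symm_apply_apply]
  simp [st]

theorem ev_iff (k n : ℕ) (σ : Pool.Agent.H921S.Ord (Clause k n)) :
    Ev k n (ordEquiv k n σ) ↔ ¬ (∀ m, (∀ j < m, Sat (st σ j)) → ¬ HasUSS (st σ m)) := by
  classical
  push Not
  unfold Ev
  refine exists_congr fun m => and_congr ?_ ?_
  · refine forall_congr' fun j => imp_congr_right fun _ => ?_
    unfold Sat Sol Tru
    refine exists_congr fun a => ?_
    constructor
    · intro h C hC
      exact h (clEquiv k n C) ((mem_st k n σ j C).1 hC)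
    · intro h c hc
      have := h ((clEquiv k n).symm c) ((mem_st k n σ j _).2 (by rw [Equiv.apply_symm_apply]; exact hc))
      exact this
  · unfold HasUSS USS Sat Sol Tru vars
    constructor
    · rintro ⟨H, hne, hm, a, ha, hu⟩
      refine ⟨H.map (clEquiv k n).symm.toEmbedding, ?_, ?_, ⟨a, ?_⟩, ?_⟩
      · intro C hC
        rw [Finset.mem_map_equiv] at hC
        exact (mem_st k n σ m C).2 (hm _ hC)
      · exact Finset.map_nonempty.2 hne
      · intro C hC
        rw [Finset.mem_map_equiv] at hC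
        exact ha _ hC
      · intro b b' hb hb' v hv
        rw [Finset.mem_biUnion] at hv
        obtain ⟨C, hC, hv⟩ := hv
        rw [Finset.mem_image] at hv
        obtain ⟨l, hl, rfl⟩ := hv
        rw [Finset.mem_map_equiv] at hC
        have key : ∀ b : Asg n, (∀ C ∈ H.map (clEquiv k n).symm.toEmbedding,
            ∃ l ∈ C.lits, b l.1 = l.2) → b l.1 = a l.1 := by
          intro b hb
          refine hu b ?_ l.1 ⟨_, hC, l, hl, rfl⟩
          intro c hc
          have := hb ((clEquiv k n).symm c) (by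
            rw [Finset.mem_map_equiv]
            simpa using hc)
          exact this
        rw [key b hb, key b' hb']
    · rintro ⟨H, hsub, hne, ⟨a, ha⟩, hu⟩
      refine ⟨H.map (clEquiv k n).toEmbedding, Finset.map_nonempty.2 hne, ?_, a, ?_, ?_⟩
      · intro c hc
        rw [Finset.mem_map_equiv] at hc
        have := (mem_st k n σ m _).1 (hsub hc)
        rwa [Equiv.apply_symm_apply] at this
      · intro c hc
        rw [Finset.mem_map_equiv] at hc
        exact ha _ hc
      · rintro b hb i ⟨c, hc, l, hl, rfl⟩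
        rw [Finset.mem_map_equiv] at hc
        refine hu b a ?_ ha l.1 ?_
        · intro C hC
          have := hb (clEquiv k n C) (by
            rw [Finset.mem_map_equiv]
            simpa using hC)
          exact this
        · rw [Finset.mem_biUnion]
          exact ⟨_, hc, Finset.mem_image.2 ⟨l, hl, rfl⟩⟩

theorem frac_le (k n : ℕ) (δ : ℝ)
    (h : δ ≤ avg (fun σ : Pool.Agent.H921S.Ord (Clause k n) =>
      ind (∀ m, (∀ j < m, Sat (st σ j)) → ¬ HasUSS (st σ m)))) :
    (Nat.card {e : Fin (Nat.card (Cl k n)) ≃ Cl k n // Ev k n e} : ℝ) /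
      (Nat.card (Fin (Nat.card (Cl k n)) ≃ Cl k n) : ℝ) ≤ 1 - δ := by
  classical
  have e1 : Nat.card {e : Fin (Nat.card (Cl k n)) ≃ Cl k n // Ev k n e} =
      Nat.card {σ : Pool.Agent.H921S.Ord (Clause k n) //
        ¬ (∀ m, (∀ j < m, Sat (st σ j)) → ¬ HasUSS (st σ m))} := by
    refine (Nat.card_congr ?_).symm
    exact (ordEquiv k n).subtypeEquiv (fun σ => (ev_iff k n σ).symm)
  have e2 : Nat.card (Fin (Nat.card (Cl k n)) ≃ Cl k n) =
      Nat.card (Pool.Agent.H921S.Ord (Clause k n)) :=
    (Nat.card_congr (ordEquiv k n)).symm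
  rw [e1, e2, Nat.card_eq_fintype_card, Nat.card_eq_fintype_card]
  have hpos : (0 : ℝ) < (Fintype.card (Pool.Agent.H921S.Ord (Clause k n)) : ℝ) := by
    have : 0 < Fintype.card (Pool.Agent.H921S.Ord (Clause k n)) :=
      Fintype.card_pos_iff.2 ⟨(Fintype.equivFin _).symm⟩
    exact_mod_cast this
  unfold avg ind at h
  rw [Finset.sum_boole, le_div_iff₀ hpos] at h
  rw [div_le_iff₀ hpos, Fintype.card_subtype]
  have hs := Finset.card_filter_add_card_filter_not
    (s := (Finset.univ : Finset (Pool.Agent.H921S.Ord (Clause k n))))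
    (fun σ => ∀ m, (∀ j < m, Sat (st σ j)) → ¬ HasUSS (st σ m))
  rw [Finset.card_univ] at hs
  have hs' : ((Finset.univ.filter (fun σ : Pool.Agent.H921S.Ord (Clause k n) =>
      ∀ m, (∀ j < m, Sat (st σ j)) → ¬ HasUSS (st σ m))).card : ℝ) +
      ((Finset.univ.filter (fun σ : Pool.Agent.H921S.Ord (Clause k n) =>
      ¬ ∀ m, (∀ j < m, Sat (st σ j)) → ¬ HasUSS (st σ m))).card : ℝ) =
      (Fintype.card (Pool.Agent.H921S.Ord (Clause k n)) : ℝ) := by
    rw [← hs]
    push_cast
    congr! 1
  have h' : δ * (Fintype.card (Pool.Agent.H921S.Ord (Clause k n)) : ℝ) ≤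
      ((Finset.univ.filter (fun σ : Pool.Agent.H921S.Ord (Clause k n) =>
      ∀ m, (∀ j < m, Sat (st σ j)) → ¬ HasUSS (st σ m))).card : ℝ) := by
    refine h.trans (le_of_eq ?_)
    congr! 2
  have e3 : ((Finset.univ.filter (fun σ : Pool.Agent.H921S.Ord (Clause k n) =>
      ¬ ∀ m, (∀ j < m, Sat (st σ j)) → ¬ HasUSS (st σ m))).card : ℝ) =
      (Fintype.card (Pool.Agent.H921S.Ord (Clause k n)) : ℝ) -
      ((Finset.univ.filter (fun σ : Pool.Agent.H921S.Ord (Clause k n) =>
      ∀ m, (∀ j < m, Sat (st σ j)) → ¬ HasUSS (st σ m))).card : ℝ) := by linarith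
  refine le_trans (le_of_eq ?_) (show (Fintype.card (Pool.Agent.H921S.Ord (Clause k n)) : ℝ) -
      ((Finset.univ.filter (fun σ : Pool.Agent.H921S.Ord (Clause k n) =>
      ∀ m, (∀ j < m, Sat (st σ j)) → ¬ HasUSS (st σ m))).card : ℝ) ≤ _ by linarith)
  rw [← e3]

end aux

/-- The negation of the preceding statement: For each k ≥ 2, under a uniformly random ordering of all k-clauses on n variables, the probability that some non-empty uniquely satisfiable subformula appears by the time the formula first becomes unsatisfiable tends to 1 as n grows. -/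
theorem result :
    ¬ (∀ k : ℕ, 2 ≤ k →
    Filter.Tendsto
      (fun n : ℕ =>
        (Nat.card {e : Fin (Nat.card {c : Finset (Fin n × Bool) // c.card = k ∧ (c.image Prod.fst).card = k}) ≃
                      {c : Finset (Fin n × Bool) // c.card = k ∧ (c.image Prod.fst).card = k} //
            ∃ m : ℕ,
              (∀ j : ℕ, j < m → ∃ a : Fin n → Bool,
                  ∀ c : {c : Finset (Fin n × Bool) // c.card = k ∧ (c.image Prod.fst).card = k},
                    ((e.symm c : Fin _) : ℕ) < j → ∃ l ∈ c.val, a l.1 = l.2) ∧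
              ∃ H : Finset {c : Finset (Fin n × Bool) // c.card = k ∧ (c.image Prod.fst).card = k},
                H.Nonempty ∧
                (∀ c ∈ H, ((e.symm c : Fin _) : ℕ) < m) ∧
                ∃ a : Fin n → Bool,
                  (∀ c ∈ H, ∃ l ∈ c.val, a l.1 = l.2) ∧
                  ∀ b : Fin n → Bool, (∀ c ∈ H, ∃ l ∈ c.val, b l.1 = l.2) →
                    ∀ i : Fin n, (∃ c ∈ H, ∃ l ∈ c.val, l.1 = i) → b i = a i} : ℝ) /
        (Nat.card (Fin (Nat.card {c : Finset (Fin n × Bool) // c.card = k ∧ (c.image Prod.fst).card = k}) ≃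
                      {c : Finset (Fin n × Bool) // c.card = k ∧ (c.image Prod.fst).card = k}) : ℝ))
      Filter.atTop (nhds 1)) := by
  intro hall
  have h2 := hall 2 le_rfl
  obtain ⟨δ, hδ, n0, hn⟩ := Pool.Agent.H921K.fin2
  have hlt := h2.eventually (lt_mem_nhds (show (1 : ℝ) - δ < 1 by linarith))
  obtain ⟨n1, hn1⟩ := Filter.eventually_atTop.1 hlt
  have ha := hn1 (max n0 n1) (le_max_right _ _)
  have hb := frac_le 2 (max n0 n1) δ (hn _ (le_max_left _ _))
  exact absurd ha (not_lt.2 hb)

end Pool.Agent.S19226
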