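import Pool.Statements.S19231
import Pool.Agent.W847.T3.Last
import Pool.Agent.W847.T3.Glue
import Pool.Agent.W847.T3.T_CLOSE
import Pool.Agent.W847.T3.T_COMP
import Pool.Agent.W847.T3.T_DSTEP
import Pool.Agent.W847.T3.T_EXMEAN
import Pool.Agent.W847.T3.T_EXOK
import Pool.Agent.W847.T3.T_EXSTK
import Pool.Agent.W847.T3.T_FRUN
import Pool.Agent.W847.T3.T_HARM
import Pool.Agent.W847.T3.T_HIT
import Pool.Agent.W847.T3.T_KA
import Pool.Agent.W847.T3.T_KB
import Pool.Agent.W847.T3.T_PROB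
import Pool.Agent.W847.T3.T_PV
import Pool.Agent.W847.T3.T_ROOT
import Pool.Agent.W847.T3.T_STAR
import Pool.Agent.W847.T3.T_STEPA
import Pool.Agent.W847.T3.T_STEPB
import Pool.Agent.W847.T3.T_SUM
import Pool.Agent.W847.T3.T_SYM
import Pool.Agent.W847.T3.T_TAPELB
import Pool.Agent.W847.T3.T_TAPES
import Pool.Agent.W847.T3.T_WTS
import Pool.Agent.W565.T3CONV
import Pool.Agent.W565.T3FORM
import Pool.Agent.W565.T3INEQ
import Pool.Agent.W565.T3STC

set_option autoImplicit false
open MeasureTheory ProbabilityTheory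
open Pool Pool.MP_2b43a6_pr

namespace Pool.Agent.S19231

/-- In the frog model on the rooted ternary tree (one frog per vertex, root frog awake, simple random walks, woken on first visit), almost surely the root is visited infinitely often by woken frogs. -/
theorem result :
    ∀ (Ω : Type) [MeasurableSpace Ω] (P : Measure Ω) [IsProbabilityMeasure P]
      (ξ : List (Fin 3) → ℕ → Ω → Fin 3 × Fin 4),
      (∀ v k, Measurable (ξ v k)) →
      iIndepFun (fun p : List (Fin 3) × ℕ => ξ p.1 p.2) P →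
      (∀ v k (c : Fin 3 × Fin 4), P (ξ v k ⁻¹' {c}) = 1 / 12) →
      ∀ (S : List (Fin 3) → ℕ → Ω → List (Fin 3)),
      (∀ v ω, S v 0 ω = v) →
      (∀ v k ω, S v (k + 1) ω =
        if S v k ω = [] then [(ξ v k ω).1]
        else if (ξ v k ω).2 = 0 then (S v k ω).tail
        else (ξ v k ω).1 :: S v k ω) →
      ∀ᵐ ω ∂P, Set.Infinite
        {p : List (Fin 3) × ℕ |
          (∀ A : Set (List (Fin 3)), [] ∈ A →
              (∀ v ∈ A, ∀ k, S v k ω ∈ A) → p.1 ∈ A) ∧
          S p.1 p.2 ω = []} := by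
  intro Ω _ P _ ξ h1 h2 h3 S h4 h5
  have hpv := Pool.Agent.W847.T3.T_PV.main
  have hka := Pool.Agent.W847.T3.T_KA.main hpv
  have hkb := Pool.Agent.W847.T3.T_KB.main hpv
  have hsum := Pool.Agent.W847.T3.T_SUM.main1
  have hwtp := Pool.Agent.W847.T3.T_SUM.main2
  have hA := Pool.Agent.W847.T3.T_STEPA.main hka hsum hwtp
  have hB := Pool.Agent.W847.T3.T_STEPB.main hkb hsum hwtp
  have hcomp := Pool.Agent.W847.T3.T_COMP.main
  have htapes := Pool.Agent.W847.T3.T_TAPES.main
  have hlb := Pool.Agent.W847.T3.T_STAR.main1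
  have hmono := Pool.Agent.W847.T3.T_STAR.main2
  have htlb := Pool.Agent.W847.T3.T_TAPELB.main hlb
  have hexs := Pool.Agent.W847.T3.T_EXSTK.main
  have hW := Pool.Agent.W847.T3.T_WTS.main1
  have hL := Pool.Agent.W847.T3.T_WTS.main2
  have hR := Pool.Agent.W847.T3.T_ROOT.main hcomp htapes htlb hexs hW
  have hC := Pool.Agent.W847.T3.T_CLOSE.main
  have hD := Pool.Agent.W847.T3.T_DSTEP.main hcomp hmono
  have hF := Pool.Agent.W565.T3FORM.main hcomp hmono
  have hI := Pool.Agent.W565.T3INEQ.main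
  have hS := Pool.Agent.W565.T3STC.main hW hF hI hL
  have hV := Pool.Agent.W565.T3CONV.main
  have hfr := Pool.Agent.W847.T3.T_FRUN.main
  have hok := Pool.Agent.W847.T3.T_EXOK.main
  have hmean := Pool.Agent.W847.T3.T_EXMEAN.main
  have hhit := Pool.Agent.W847.T3.T_HIT.main Pool.Agent.W847.T3.T_HARM.main
  have hP := Pool.Agent.W847.T3.T_PROB.main hfr hok hmean hhit
  have hsym := Pool.Agent.W847.T3.T_SYM.main
  have hFA : Pool.Agent.W847.T3.Ker.fstepA = Pool.Agent.W847.T3.Ker.stepA :=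
    funext (Pool.Agent.W847.T3.Glue.stepA hka hsym hwtp)
  have hFB : Pool.Agent.W847.T3.Ker.fstepB = Pool.Agent.W847.T3.Ker.stepB :=
    funext (Pool.Agent.W847.T3.Glue.stepB hkb hsym hwtp)
  exact Pool.Agent.W847.T3.last hW hC hD hA hB hV hFA hFB hL hS hR hP Ω P ξ h1 h2 h3 S h4 h5

end Pool.Agent.S19231
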