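import Pool.Statements.S19249
import Pool.Agent.W813.SV.Assemble
import Pool.Agent.W168.SV.Part2

set_option autoImplicit false
open MeasureTheory ProbabilityTheory
open Pool Pool.MP_30e781_pr

namespace Pool.Agent.S19249

/-- For every n, real n×n matrix Abar, σ>0, x>0: if G has iid standard Gaussian entries, the probability that the spectral norm of (Abar+σG)⁻¹ is at least x is at most √n/(xσ). -/
theorem result :
    ∀ (n : ℕ) (Abar : Matrix (Fin n) (Fin n) ℝ) (σ x : ℝ), 0 < σ → 0 < x →
      (Measure.pi (fun _ : Fin n => Measure.pi (fun _ : Fin n => gaussianReal 0 1)))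
        {G : Fin n → Fin n → ℝ |
          ∃ v : Fin n → ℝ, (∑ i, v i ^ 2 ≤ 1) ∧
            x ^ 2 ≤ ∑ i, (Matrix.mulVec (Abar + σ • Matrix.of G)⁻¹ v) i ^ 2}
        ≤ ENNReal.ofReal (Real.sqrt n / (x * σ)) := by
  exact Pool.Agent.W813.SV.assemble Pool.Agent.W168.SV.part2

end Pool.Agent.S19249
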