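import Pool.Statements.S19255
-- import your own Pool.Agent.* helpers here
import Pool.Agent.W839.Ch.All

set_option autoImplicit false
open scoped Classical
open Pool Pool.MP_332c83_pr

namespace Pool.Agent.S19255

/-- For each fixed p in (0,1) there is c>0 such that, in G(n,p), the probability that at most a 1−c fraction of edges have removal strictly lowering the normalized-Laplacian spectral gap tends to 1. -/
theorem result :
    ∀ gap : (n : ℕ) → SimpleGraph (Fin n) → ℝ,
      (∀ (n : ℕ) (H : SimpleGraph (Fin n)),
        gap n H = sInf {t : ℝ | 2 ≤ (((Matrix.of fun i j : Fin n =>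
            (if i = j then (1 : ℝ) else 0) -
              (if H.Adj i j then (1 : ℝ) else 0) /
                Real.sqrt ((∑ k : Fin n, if H.Adj i k then (1 : ℝ) else 0) *
                  (∑ k : Fin n, if H.Adj j k then (1 : ℝ) else 0))).charpoly.roots).filter
              (fun x => x ≤ t)).card}) →
      ∀ p : ℝ, 0 < p → p < 1 →
        ∃ c : ℝ, 0 < c ∧
          Filter.Tendsto
            (fun n : ℕ => ∑ G : SimpleGraph (Fin n),
              if c ≤ 1 - ((G.edgeFinset.filter
                    (fun e => gap n (G.deleteEdges {e}) < gap n G)).card : ℝ) /
                  (G.edgeFinset.card : ℝ)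
              then p ^ G.edgeFinset.card * (1 - p) ^ (n.choose 2 - G.edgeFinset.card)
              else 0)
            Filter.atTop (nhds 1) :=
  Pool.Agent.W839.Ch.final

end Pool.Agent.S19255
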