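import Pool.Statements.S19263
import Pool.Agent.W845.PM.Fin

set_option autoImplicit false
open Classical
open Pool Pool.MP_36796c_pr

namespace Pool.Agent.S19263

/-- For α in (0,1/2) there is C>0 solving the stated root equation such that, for large even n, every n-vertex graph of min degree ≥ αn plus G(n,(1+ε)C/n) has a perfect matching whp, while some such graph plus G(n,(1−ε)C/n) whp has none. -/
theorem result :
    ∀ α : ℝ, 0 < α → α < 1 / 2 →
    ∃ C : ℝ, 0 < C ∧ ∃ γ : ℝ,
      γ = (1 - α) * C * Real.exp (-((1 - α) * C * Real.exp (-γ))) ∧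
      (∀ x : ℝ, x = (1 - α) * C * Real.exp (-((1 - α) * C * Real.exp (-x))) → γ ≤ x) ∧
      1 - (γ + (1 - α) * C * Real.exp (-γ) + γ * ((1 - α) * C * Real.exp (-γ)))
          / ((2 - 2 * α) * C) = (1 - 2 * α) / (2 - 2 * α) ∧
      ∀ ε : ℝ, 0 < ε → ε < 1 → ∀ δ : ℝ, 0 < δ →
        ∃ N : ℕ, ∀ n : ℕ, N ≤ n → Even n →
          (∀ H : SimpleGraph (Fin n), α * (n : ℝ) ≤ (H.minDegree : ℝ) →
            1 - δ ≤ ∑ G : SimpleGraph (Fin n),
              (if (∃ M : (H ⊔ G).Subgraph, M.IsPerfectMatching) then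
                ((1 + ε) * C / n) ^ G.edgeSet.ncard *
                  (1 - (1 + ε) * C / n) ^ (n.choose 2 - G.edgeSet.ncard)
              else 0)) ∧
          (∃ H : SimpleGraph (Fin n), α * (n : ℝ) ≤ (H.minDegree : ℝ) ∧
            ∑ G : SimpleGraph (Fin n),
              (if (∃ M : (H ⊔ G).Subgraph, M.IsPerfectMatching) then
                ((1 - ε) * C / n) ^ G.edgeSet.ncard *
                  (1 - (1 - ε) * C / n) ^ (n.choose 2 - G.edgeSet.ncard)
              else 0) ≤ δ) := by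
  exact Pool.Agent.W845.PM.top Pool.Agent.W845.PM.t_an1 Pool.Agent.W845.PM.t_an2
    Pool.Agent.W845.PM.t_an3 Pool.Agent.W845.PM.t_an4 Pool.Agent.W845.PM.t_fin1
    Pool.Agent.W845.PM.t_fin0

end Pool.Agent.S19263
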