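import Pool.Statements.S19265
import Pool.Agent.Helper70.US.F13

set_option autoImplicit false
open MeasureTheory ProbabilityTheory
open Pool Pool.MP_391fb1_pr

namespace Pool.Agent.S19265

/-- For independent uniform variables on [-1,1] and real weights whose squares sum to 1, the differential entropy of the weighted sum is at most that of the equally weighted sum scaled by 1/sqrt(n). -/
theorem result :
    ∀ (n : ℕ) (Ω : Type) [MeasurableSpace Ω] (P : Measure Ω) [IsProbabilityMeasure P]
      (U : Fin n → Ω → ℝ),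
      (∀ i, Measurable (U i)) →
      iIndepFun U P →
      (∀ i, MeasureTheory.pdf.IsUniform (U i) (Set.Icc (-1 : ℝ) 1) P volume) →
      ∀ d : Fin n → ℝ, ∑ i, d i ^ 2 = 1 →
        -(∫ x : ℝ, ((P.map (fun ω => ∑ i, d i * U i ω)).rnDeriv volume x).toReal *
            Real.log ((P.map (fun ω => ∑ i, d i * U i ω)).rnDeriv volume x).toReal)
          ≤ -(∫ x : ℝ, ((P.map (fun ω => (Real.sqrt n)⁻¹ * ∑ i, U i ω)).rnDeriv volume x).toReal *
            Real.log ((P.map (fun ω => (Real.sqrt n)⁻¹ * ∑ i, U i ω)).rnDeriv volume x).toReal) := by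
  intro n Ω _ P _ U hU hind hunif d hd
  have hn : 1 ≤ n := by
    rcases Nat.eq_zero_or_pos n with h | h
    · subst h
      simp at hd
    · exact h
  have key := _root_.US.main_all n hn d hd
  have hlaw : P.map (fun ω i => U i ω) =
      Measure.pi (fun _ : Fin n => ProbabilityTheory.cond (volume : Measure ℝ) (Set.Icc (-1 : ℝ) 1)) := by
    rw [(iIndepFun_iff_map_fun_eq_pi_map (fun i => (hU i).aemeasurable)).1 hind]
    congr 1
    funext i
    exact hunif i
  have hjoint : Measurable (fun ω i => U i ω) := measurable_pi_lambda _ hU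
  have hmap : ∀ c : Fin n → ℝ, P.map (fun ω => ∑ i, c i * U i ω) =
      (Measure.pi (fun _ : Fin n => ProbabilityTheory.cond (volume : Measure ℝ) (Set.Icc (-1 : ℝ) 1))).map
        (fun x : Fin n → ℝ => ∑ i, c i * x i) := by
    intro c
    rw [← hlaw, Measure.map_map (by fun_prop) hjoint]
    rfl
  have h2 : (fun ω => (Real.sqrt n)⁻¹ * ∑ i, U i ω) =
      fun ω => ∑ i, (1 / Real.sqrt (n : ℝ)) * U i ω := by
    funext ω
    rw [Finset.mul_sum, one_div]
  rw [h2, hmap d, hmap (fun _ => 1 / Real.sqrt (n : ℝ))]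
  have h3 : ∀ μ : Measure ℝ, -(∫ x : ℝ, (μ.rnDeriv volume x).toReal *
      Real.log (μ.rnDeriv volume x).toReal) = ∫ x, Real.negMulLog ((μ.rnDeriv volume x).toReal) := by
    intro μ
    rw [← integral_neg]
    congr 1
    funext x
    rw [Real.negMulLog]
    ring
  rw [h3, h3]
  exact key

end Pool.Agent.S19265
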