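import Pool.Statements.S19321
import Pool.Agent.W837.GB.Fin

set_option autoImplicit false
open MeasureTheory ProbabilityTheory Filter Topology
open scoped NNReal Matrix ComplexOrder
open Pool Pool.MP_53c113_pr

namespace Pool.Agent.S19321

/-- For integer m×m matrices a_i with rank non-decreasing η, and independent GUE matrices X_i, the matrix Σ a_i⊗X_i is a.s. eventually invertible, and ∣det∣^{1/(mN)} tends a.s. and in mean to cap(η)^{1/(2m)}·e^{-1/2}. -/
theorem result :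
  ∀ (m n : ℕ), 1 ≤ m → ∀ (a : Fin n → Matrix (Fin m) (Fin m) ℤ),
    (∀ b : Matrix (Fin m) (Fin m) ℂ, b.PosSemidef →
        b.rank ≤ (∑ i, (a i).map (Int.cast : ℤ → ℂ) * b * ((a i).map (Int.cast : ℤ → ℂ))ᴴ).rank) →
    ∀ (Ω : Type) [MeasurableSpace Ω] (P : Measure Ω) [IsProbabilityMeasure P]
      (X : (N : ℕ) → Fin n → Ω → Matrix (Fin N) (Fin N) ℂ),
      (∀ N i ω, (X N i ω).IsHermitian) →
      (∀ N, iIndepFun
          (fun p : {p : Fin n × Fin N × Fin N // p.2.1 ≤ p.2.2} =>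
            fun ω => X N p.1.1 ω p.1.2.1 p.1.2.2) P) →
      (∀ N i (j : Fin N), P.map (fun ω => X N i ω j j)
          = (gaussianReal 0 (1 / (N : ℝ≥0))).map (fun x : ℝ => (x : ℂ))) →
      (∀ N i (j k : Fin N), j < k → P.map (fun ω => X N i ω j k)
          = ((gaussianReal 0 (1 / (2 * (N : ℝ≥0)))).prod
              (gaussianReal 0 (1 / (2 * (N : ℝ≥0))))).map
              (fun x : ℝ × ℝ => Complex.equivRealProd.symm x)) →
      (∀ᵐ ω ∂P, ∀ᶠ N in atTop,
          IsUnit (∑ i, Matrix.kronecker ((a i).map (Int.cast : ℤ → ℂ)) (X N i ω)).det) ∧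
      (∀ᵐ ω ∂P, Tendsto
          (fun N : ℕ => ‖(∑ i, Matrix.kronecker ((a i).map (Int.cast : ℤ → ℂ)) (X N i ω)).det‖
              ^ (1 / ((m : ℝ) * (N : ℝ))))
          atTop
          (𝓝 ((sInf {c : ℝ | ∃ b : Matrix (Fin m) (Fin m) ℂ, b.PosDef ∧
                c = (∑ i, (a i).map (Int.cast : ℤ → ℂ) * b
                      * ((a i).map (Int.cast : ℤ → ℂ))ᴴ).det.re / b.det.re})
                ^ (1 / (2 * (m : ℝ))) * Real.exp (-1 / 2)))) ∧
      Tendsto
          (fun N : ℕ => ∫ ω, ‖(∑ i, Matrix.kronecker ((a i).map (Int.cast : ℤ → ℂ)) (X N i ω)).det‖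
              ^ (1 / ((m : ℝ) * (N : ℝ))) ∂P)
          atTop
          (𝓝 ((sInf {c : ℝ | ∃ b : Matrix (Fin m) (Fin m) ℂ, b.PosDef ∧
                c = (∑ i, (a i).map (Int.cast : ℤ → ℂ) * b
                      * ((a i).map (Int.cast : ℤ → ℂ))ᴴ).det.re / b.det.re})
                ^ (1 / (2 * (m : ℝ))) * Real.exp (-1 / 2))) :=
  Pool.Agent.W837.GB.main

end Pool.Agent.S19321
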