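import Pool.Statements.S19329
import Pool.Agent.W830.RD.All

set_option autoImplicit false
open Classical Filter Topology
open Pool Pool.MP_54f573_pr

namespace Pool.Agent.S19329

/-- For fixed 0<p<1 and ε>0, the probability that the random graph order on n points has dimension at most (1+ε)·sqrt(log n / log(1/(1−p))) tends to 1 as n→∞. -/
theorem result :
  ∀ p : ℝ, 0 < p → p < 1 → ∀ ε : ℝ, 0 < ε →
    Tendsto (fun n : ℕ =>
      ∑ E ∈ (((Finset.univ : Finset (Fin n × Fin n)).filter (fun e => e.1 < e.2)).powerset.filter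
          (fun E => ∃ k : ℕ,
            (k : ℝ) ≤ (1 + ε) * Real.sqrt (Real.log (n : ℝ) / Real.log (1 / (1 - p))) ∧
            ∃ f : Fin k → Fin n → ℕ, (∀ i, Function.Injective (f i)) ∧
              ∀ x y : Fin n,
                (Relation.ReflTransGen (fun a b => (a, b) ∈ E) x y ↔ ∀ i, f i x ≤ f i y))),
        p ^ E.card * (1 - p) ^
          (((Finset.univ : Finset (Fin n × Fin n)).filter (fun e => e.1 < e.2)).card - E.card))
      atTop (𝓝 1) := by
  intro p hp hp1 ε hε
  exact Pool.Agent.W830.RD.Glue.goal p hp hp1 ε hε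

end Pool.Agent.S19329
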