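import Pool.Statements.S19353
import Pool.Agent.Results.MP_5fc11c_pr.KacConstant

set_option autoImplicit false
open MeasureTheory Filter Topology
open Pool Pool.MP_5fc11c_pr

namespace Pool.Agent.S19353

open Pool.Agent.Results.MP_5fc11c_pr.KacConstant in
/-- The Kac polynomial with coefficients `c : Fin (n + 1) → ℝ`, through the extension by `0`. -/
theorem poly_eq (n : ℕ) (ξ : ℕ → ℝ) :
    (∑ k : Fin (n + 1), Polynomial.C (ξ k) * Polynomial.X ^ (k : ℕ)) = kacPoly n ξ := by
  unfold kacPoly
  rw [Finset.sum_range]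

/-- restriction of a sequence to its first `n + 1` terms -/
def restr (n : ℕ) (ξ : ℕ → ℝ) : Fin (n + 1) → ℝ := fun k => ξ k

theorem measurable_restr (n : ℕ) : Measurable (restr n) :=
  measurable_pi_lambda _ fun k => measurable_pi_apply (k : ℕ)

/-- extension by zero -/
def ext0 (n : ℕ) (c : Fin (n + 1) → ℝ) : ℕ → ℝ :=
  fun k => if h : k < n + 1 then c ⟨k, h⟩ else 0

theorem measurable_ext0 (n : ℕ) : Measurable (ext0 n) := by
  refine measurable_pi_lambda _ fun k => ?_
  unfold ext0
  by_cases h : k < n + 1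
  · simp only [h, dif_pos]
    exact measurable_pi_apply _
  · simp only [h, dif_neg, not_false_iff]
    exact measurable_const

theorem map_restr (μ : Measure ℝ) [IsProbabilityMeasure μ] (n : ℕ) :
    Measure.map (restr n) (Measure.infinitePi (fun _ : ℕ => μ)) =
      Measure.pi (fun _ : Fin (n + 1) => μ) := by
  have h1 : ProbabilityTheory.iIndepFun (fun (i : ℕ) (ξ : ℕ → ℝ) => ξ i)
      (Measure.infinitePi (fun _ : ℕ => μ)) := by
    have := ProbabilityTheory.iIndepFun_infinitePi (P := fun _ : ℕ => μ)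
      (X := fun _ x => x) (fun _ => measurable_id)
    exact this
  have h2 : ProbabilityTheory.iIndepFun (fun (i : Fin (n + 1)) (ξ : ℕ → ℝ) => ξ (i : ℕ))
      (Measure.infinitePi (fun _ : ℕ => μ)) := h1.precomp Fin.val_injective
  have h3 := (ProbabilityTheory.iIndepFun_iff_map_fun_eq_pi_map
    (fun i : Fin (n + 1) => (measurable_pi_apply (i : ℕ)).aemeasurable)).1 h2
  have h4 : ∀ i : Fin (n + 1), Measure.map (fun ξ : ℕ → ℝ => ξ (i : ℕ))
      (Measure.infinitePi (fun _ : ℕ => μ)) = μ := fun i =>
    (measurePreserving_eval_infinitePi (fun _ : ℕ => μ) (i : ℕ)).map_eq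
  simp only [h4] at h3
  exact h3

/-- For every real law with mean 0 and variance 1, the expected number of distinct real roots of the degree-n polynomial with i.i.d. coefficients of that law, minus (2/π) log n, converges to a finite real limit. -/
theorem result :
    ∀ (μ : Measure ℝ) [IsProbabilityMeasure μ],
      Integrable (fun x : ℝ => x ^ 2) μ →
      ∫ x, x ∂μ = 0 →
      ∫ x, x ^ 2 ∂μ = 1 →
      ∃ C : ℝ, Tendsto
        (fun n : ℕ =>
          (∫⁻ c : Fin (n + 1) → ℝ,
              (((∑ k : Fin (n + 1), Polynomial.C (c k) * Polynomial.X ^ (k : ℕ)).roots.toFinset.card : ℕ) : ENNReal)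
              ∂(Measure.pi fun _ : Fin (n + 1) => μ)).toReal
            - 2 / Real.pi * Real.log (n : ℝ))
        atTop (𝓝 C) := by
  intro μ _ hint hmean hvar
  obtain ⟨_, _, _, L, _, h⟩ :=
    Pool.Agent.Results.MP_5fc11c_pr.KacConstant.result μ hint hmean hvar
  refine ⟨_, h.congr fun n => ?_⟩
  congr 1
  have hm : Measurable (fun ω : ℕ → ℝ => Kac764.nz (Kac764.kac n ω) Set.univ) :=
    Kac764.H4.measurable_nz_set n Set.univ (Or.inl rfl)
  have hF : Measurable (fun c : Fin (n + 1) → ℝ =>
      (((∑ k : Fin (n + 1), Polynomial.C (c k) * Polynomial.X ^ (k : ℕ)).roots.toFinset.card : ℕ)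
        : ENNReal)) := by
    have h2 : (fun c : Fin (n + 1) → ℝ =>
      (((∑ k : Fin (n + 1), Polynomial.C (c k) * Polynomial.X ^ (k : ℕ)).roots.toFinset.card : ℕ)
        : ENNReal)) = fun c => ((Kac764.nz (Kac764.kac n (ext0 n c)) Set.univ : ℕ) : ENNReal) := by
      funext c
      rw [← Pool.Agent.Results.MP_5fc11c_pr.KacConstant.numRealRoots_eq]
      unfold Pool.Agent.Results.MP_5fc11c_pr.KacConstant.numRealRoots
      rw [← Pool.Agent.Results.MP_5fc11c_pr.KacConstant.kacPoly_eq, ← poly_eq]
      have : ∀ k : Fin (n + 1), ext0 n c (k : ℕ) = c k := fun k => by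
        unfold ext0
        rw [dif_pos k.2]
      simp only [this]
    rw [h2]
    exact (measurable_from_top.comp hm).comp (measurable_ext0 n)
  rw [← map_restr μ n, lintegral_map hF (measurable_restr n)]
  unfold Pool.Agent.Results.MP_5fc11c_pr.KacConstant.expectedRoots
    Pool.Agent.Results.MP_5fc11c_pr.KacConstant.iidLaw
  rw [integral_eq_lintegral_of_nonneg_ae (Filter.Eventually.of_forall fun _ => by positivity)]
  · congr 1
    refine lintegral_congr fun ξ => ?_
    rw [ENNReal.ofReal_natCast]
    unfold restr Pool.Agent.Results.MP_5fc11c_pr.KacConstant.numRealRoots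
    rw [poly_eq]
  · simp only [Pool.Agent.Results.MP_5fc11c_pr.KacConstant.numRealRoots_eq,
      Pool.Agent.Results.MP_5fc11c_pr.KacConstant.kacPoly_eq]
    exact (measurable_from_top.comp hm).aestronglyMeasurable

end Pool.Agent.S19353
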