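import Pool.Statements.S19444
import Pool.Agent.W859.DR2

set_option autoImplicit false
open Filter Topology
open Pool Pool.MP_85987b_pr

namespace Pool.Agent.S19444

/-- The negation of the preceding statement: For integer m≥2 and any law of X_0 on ℕ with P(X_0=0)>0 and (m−1)E(X_0 m^X_0)=E(m^X_0)<∞, where X_{n+1} is (sum of m iid copies of X_n minus 1)^+: for all s in (0,m), s≠1, (E s^X_n − 1) divided by 4m/(m−1)²·(s−1)/(m−s)/n² tends to 1. -/
theorem result :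
    ¬ (∀ (m : ℕ), 2 ≤ m → ∀ p : ℕ → ℕ → ℝ,
      (∀ k, 0 ≤ p 0 k) → HasSum (p 0) 1 →
      (∀ n k, p (n + 1) k =
          (∑ x : Fin m → Fin (k + 2),
              if (∑ i, (x i : ℕ)) = k + 1 then ∏ i, p n (x i) else 0)
          + (if k = 0 then p n 0 ^ m else 0)) →
      Summable (fun k : ℕ => p 0 k * (m : ℝ) ^ k) →
      Summable (fun k : ℕ => (k : ℝ) * p 0 k * (m : ℝ) ^ k) →
      ((m : ℝ) - 1) * (∑' k : ℕ, (k : ℝ) * p 0 k * (m : ℝ) ^ k)
          = ∑' k : ℕ, p 0 k * (m : ℝ) ^ k →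
      0 < p 0 0 →
      ∀ s : ℝ, 0 < s → s < (m : ℝ) → s ≠ 1 →
        Tendsto
          (fun n : ℕ =>
            ((∑' k : ℕ, p n k * s ^ k) - 1) /
              (4 * (m : ℝ) / (((m : ℝ) - 1) ^ 2) * ((s - 1) / ((m : ℝ) - s)) / ((n : ℝ) ^ 2)))
          atTop (𝓝 1)) := by
  intro H
  have hg := fun n => W859.DR.good_law W859.DR.good_p0 n
  have hH := H 2 le_rfl (W859.DR.law W859.DR.p0) (hg 0).nonneg (hg 0).one
    (fun n k => by
      rw [W859.DR.sum_fin2]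
      rfl)
    (by
      have := (hg 0).expo.summable
      simpa using this)
    (by
      have := (hg 0).lin.summable
      refine this.congr fun k => ?_
      push_cast; ring)
    (by
      have h1 := (hg 0).expo.tsum_eq
      have h2 := (hg 0).lin.tsum_eq
      have h3 : ∀ k : ℕ, (k : ℝ) * W859.DR.law W859.DR.p0 0 k * ((2 : ℕ) : ℝ) ^ k =
          (k : ℝ) * (W859.DR.law W859.DR.p0 0 k * 2 ^ k) := fun k => by push_cast; ring
      simp_rw [h3]
      rw [h2]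
      push_cast
      rw [h1]
      ring)
    W859.DR.p00_pos (1 / 10) (by norm_num) (by norm_num) (by norm_num)
  have h1 : ∀ᶠ n : ℕ in atTop, (0.95 : ℝ) < ((∑' k : ℕ, W859.DR.law W859.DR.p0 n k *
      (1 / 10 : ℝ) ^ k) - 1) / (4 * ((2 : ℕ) : ℝ) / ((((2 : ℕ) : ℝ) - 1) ^ 2) *
        (((1 / 10 : ℝ) - 1) / (((2 : ℕ) : ℝ) - 1 / 10)) / ((n : ℝ) ^ 2)) :=
    hH.eventually_const_lt (by norm_num)
  obtain ⟨N, hN⟩ := Filter.eventually_atTop.mp h1
  refine W859.DR.final (max N 1) (le_max_right _ _) fun n hn => ?_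
  have hn1 : 1 ≤ n := le_trans (le_max_right _ _) hn
  have hn0 : (0 : ℝ) < n := by exact_mod_cast (by omega : 0 < n)
  have h2 := hN n (le_trans (le_max_left _ _) hn)
  -- `G_n(s) ≥ p_n(0)`
  have hnn : ∀ k, 0 ≤ W859.DR.law W859.DR.p0 n k * (1 / 10 : ℝ) ^ k :=
    fun k => mul_nonneg ((hg n).nonneg k) (by positivity)
  have hs : Summable fun k : ℕ => W859.DR.law W859.DR.p0 n k * (1 / 10 : ℝ) ^ k := by
    refine Summable.of_nonneg_of_le hnn (fun k => ?_) (hg n).one.summable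
    exact mul_le_of_le_one_right ((hg n).nonneg k) (pow_le_one₀ (by norm_num) (by norm_num))
  have h3 : W859.DR.law W859.DR.p0 n 0 ≤ ∑' k : ℕ, W859.DR.law W859.DR.p0 n k *
      (1 / 10 : ℝ) ^ k := by
    have := hs.le_tsum 0 fun k _ => hnn k
    simpa using this
  have h4 : (4 * ((2 : ℕ) : ℝ) / ((((2 : ℕ) : ℝ) - 1) ^ 2) *
        (((1 / 10 : ℝ) - 1) / (((2 : ℕ) : ℝ) - 1 / 10)) / ((n : ℝ) ^ 2)) =
        -((72 / 19) / (n : ℝ) ^ 2) := by
    push_cast; ring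
  rw [h4] at h2
  have h5 : 0 < (72 / 19 : ℝ) / (n : ℝ) ^ 2 := by positivity
  rw [div_neg, lt_neg, div_lt_iff₀ h5] at h2
  have h6 : (3.6 : ℝ) / (n : ℝ) ^ 2 = 0.95 * ((72 / 19 : ℝ) / (n : ℝ) ^ 2) := by ring
  rw [h6]
  linarith

end Pool.Agent.S19444
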