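import Pool.Statements.S19482
import Pool.Agent.H576R2.RdvFinal

set_option autoImplicit false
open MeasureTheory
open Pool Pool.MP_925b40_pr

namespace Pool.Agent.S19482

section Helpers

open Pool.Agent.H576R2.Rdv Set
open scoped NNReal ENNReal

/-- The explicit formula for the position of the walker with steps of length one half. -/
theorem lift_half_formula (b : ℕ → Bool) (t : ℝ≥0) :
    lift (1 / 2) b (t : ℝ) = (∑ j ∈ Finset.range ⌊2 * (t : ℝ)⌋₊,
        (if b j then (1 / 2 : ℝ) else -1 / 2))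
      + (if b ⌊2 * (t : ℝ)⌋₊ then (1 : ℝ) else -1)
        * ((t : ℝ) - (⌊2 * (t : ℝ)⌋₊ : ℝ) / 2) := by
  obtain ⟨k, hk⟩ : ∃ k, k = ⌊2 * (t : ℝ)⌋₊ := ⟨_, rfl⟩
  rw [← hk]
  have h0 : (0 : ℝ) ≤ 2 * (t : ℝ) := by positivity
  have h1 : (k : ℝ) ≤ 2 * (t : ℝ) := by rw [hk]; exact Nat.floor_le h0
  have h2 : 2 * (t : ℝ) < (k : ℝ) + 1 := by rw [hk]; exact Nat.lt_floor_add_one _
  have h3 : (t : ℝ) = k * (1 / 2) + ((t : ℝ) - (k : ℝ) / 2) := by ring
  have h4 := lift_add (h := 1 / 2) (by norm_num) b k (u := (t : ℝ) - (k : ℝ) / 2) (by linarith)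
    (by linarith)
  rw [← h3] at h4
  rw [h4, lift_nat (by norm_num), Finset.mul_sum]
  congr 1
  refine Finset.sum_congr rfl fun j _ => ?_
  unfold dir
  split_ifs <;> ring

/-- The relative pay-off of two pure strategies, rotations only. -/
theorem payDirected_eq (s₁ s₂ : PureStrategy) :
    payDirected s₁ s₂ = ∫⁻ a : UnitAddCircle,
      ⨅ (τ : ℝ≥0) (_ : a + s₁.1 τ = s₂.1 τ), ((τ : ℝ≥0∞)) := by
  have h1 : ∀ a₁ : UnitAddCircle, ∫⁻ a₂ : UnitAddCircle,
      meet (place a₁ false s₁) (place a₂ false s₂) = ∫⁻ a : UnitAddCircle,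
      ⨅ (τ : ℝ≥0) (_ : a + s₁.1 τ = s₂.1 τ), ((τ : ℝ≥0∞)) := by
    intro a₁
    have e1 : ∀ a₂ : UnitAddCircle,
        meet (place a₁ false s₁) (place a₂ false s₂)
        = (fun a : UnitAddCircle => ⨅ (τ : ℝ≥0) (_ : a + s₁.1 τ = s₂.1 τ), ((τ : ℝ≥0∞)))
          (a₁ - a₂) := by
      intro a₂
      unfold meet place
      simp only [Bool.false_eq_true, if_false]
      congr 1
      ext t
      have : (a₁ + s₁.1 t = a₂ + s₂.1 t) ↔ (a₁ - a₂ + s₁.1 t = s₂.1 t) := by
        constructor
        · intro hh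
          rw [sub_add_eq_add_sub, hh]; simp
        · intro hh
          rw [sub_add_eq_add_sub, sub_eq_iff_eq_add] at hh
          rw [hh, add_comm]
      simp only [this]
    rw [lintegral_congr e1]
    exact lintegral_sub_left_eq_self (μ := (volume : Measure UnitAddCircle))
      (fun a : UnitAddCircle => ⨅ (τ : ℝ≥0) (_ : a + s₁.1 τ = s₂.1 τ), ((τ : ℝ≥0∞))) a₁
  unfold payDirected
  simp_rw [h1]
  simp

theorem cohato_value :
    ENNReal.ofReal (3 / 4) ≤ ∫⁻ ω₁ : ℕ → Bool,
          (∫⁻ ω₂ : ℕ → Bool,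
              (∫⁻ a : UnitAddCircle,
                ⨅ (τ : NNReal)
                  (_ : a + (((∑ j ∈ Finset.range ⌊2 * (τ : ℝ)⌋₊,
                              (if ω₁ j then (1 / 2 : ℝ) else -1 / 2))
                            + (if ω₁ ⌊2 * (τ : ℝ)⌋₊ then (1 : ℝ) else -1)
                              * ((τ : ℝ) - (⌊2 * (τ : ℝ)⌋₊ : ℝ) / 2) : ℝ) : UnitAddCircle)
                      = (((∑ j ∈ Finset.range ⌊2 * (τ : ℝ)⌋₊,
                              (if ω₂ j then (1 / 2 : ℝ) else -1 / 2))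
                            + (if ω₂ ⌊2 * (τ : ℝ)⌋₊ then (1 : ℝ) else -1)
                              * ((τ : ℝ) - (⌊2 * (τ : ℝ)⌋₊ : ℝ) / 2) : ℝ) : UnitAddCircle)),
                  ((τ : ENNReal)))
            ∂(Measure.infinitePi (fun _ : ℕ => (PMF.uniformOfFintype Bool).toMeasure)))
        ∂(Measure.infinitePi (fun _ : ℕ => (PMF.uniformOfFintype Bool).toMeasure)) := by
  have h := cohato_directed_lower
  unfold expected at h
  rw [lintegral_cohato] at h
  refine h.trans (le_of_eq ?_)
  show ∫⁻ b, _ ∂coins = ∫⁻ b, _ ∂coins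
  refine lintegral_congr fun b => ?_
  rw [lintegral_cohato]
  show ∫⁻ b, _ ∂coins = ∫⁻ b, _ ∂coins
  refine lintegral_congr fun c => ?_
  rw [payDirected_eq]
  refine lintegral_congr fun a => ?_
  refine iInf_congr fun τ => ?_
  rw [walk_apply, walk_apply, lift_half_formula, lift_half_formula]

theorem star_lt' : ENNReal.ofReal (299 / 400) < ENNReal.ofReal (3 / 4) := by
  rw [ENNReal.ofReal_lt_ofReal_iff (by norm_num)]
  norm_num

end Helpers

/-- The negation of the preceding statement: On the directed unit circle with uniform random rotation, no mixed speed-1 strategy used by both players gives a smaller expected meeting time than the coin-half-tour strategy (random direction per half-circle), so CO-HA-TO is optimal symmetric. -/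
theorem result :
    ¬ (∀ μ : @Measure C(NNReal, UnitAddCircle) (borel C(NNReal, UnitAddCircle)),
      IsProbabilityMeasure μ →
      (∀ᵐ (f : C(NNReal, UnitAddCircle)) ∂μ, LipschitzWith 1 (⇑f) ∧ f 0 = 0) →
      (∫⁻ ω₁ : ℕ → Bool,
          (∫⁻ ω₂ : ℕ → Bool,
              (∫⁻ a : UnitAddCircle,
                ⨅ (τ : NNReal)
                  (_ : a + (((∑ j ∈ Finset.range ⌊2 * (τ : ℝ)⌋₊,
                              (if ω₁ j then (1 / 2 : ℝ) else -1 / 2))
                            + (if ω₁ ⌊2 * (τ : ℝ)⌋₊ then (1 : ℝ) else -1)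
                              * ((τ : ℝ) - (⌊2 * (τ : ℝ)⌋₊ : ℝ) / 2) : ℝ) : UnitAddCircle)
                      = (((∑ j ∈ Finset.range ⌊2 * (τ : ℝ)⌋₊,
                              (if ω₂ j then (1 / 2 : ℝ) else -1 / 2))
                            + (if ω₂ ⌊2 * (τ : ℝ)⌋₊ then (1 : ℝ) else -1)
                              * ((τ : ℝ) - (⌊2 * (τ : ℝ)⌋₊ : ℝ) / 2) : ℝ) : UnitAddCircle)),
                  ((τ : ENNReal)))
            ∂(Measure.infinitePi (fun _ : ℕ => (PMF.uniformOfFintype Bool).toMeasure)))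
        ∂(Measure.infinitePi (fun _ : ℕ => (PMF.uniformOfFintype Bool).toMeasure)))
      ≤ ∫⁻ (f : C(NNReal, UnitAddCircle)), (∫⁻ (g : C(NNReal, UnitAddCircle)),
            (∫⁻ a : UnitAddCircle,
              ⨅ (τ : NNReal) (_ : a + f τ = g τ), ((τ : ENNReal))) ∂μ) ∂μ) := by
  intro hall
  let _ : MeasurableSpace C(NNReal, UnitAddCircle) := borel C(NNReal, UnitAddCircle)
  have : BorelSpace C(NNReal, UnitAddCircle) := ⟨rfl⟩
  have hval : Continuous (fun s : Pool.Agent.H576R2.Rdv.PureStrategy => s.1) :=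
    continuous_subtype_val
  have hmeas : Measurable (fun s : Pool.Agent.H576R2.Rdv.PureStrategy => s.1) := hval.measurable
  obtain ⟨μ, hμ⟩ : ∃ μ : Measure C(NNReal, UnitAddCircle),
      μ = Measure.map (fun s : Pool.Agent.H576R2.Rdv.PureStrategy => s.1)
        Pool.Agent.H576R2.Rdv.star := ⟨_, rfl⟩
  have hprob : IsProbabilityMeasure μ := by
    rw [hμ]
    exact Measure.isProbabilityMeasure_map hmeas.aemeasurable
  have hae : ∀ᵐ (f : C(NNReal, UnitAddCircle)) ∂μ, LipschitzWith 1 (⇑f) ∧ f 0 = 0 := by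
    have hcl : IsClosed {f : C(NNReal, UnitAddCircle) | LipschitzWith 1 (⇑f) ∧ f 0 = 0} := by
      have e : {f : C(NNReal, UnitAddCircle) | LipschitzWith 1 (⇑f) ∧ f 0 = 0} =
          (⋂ x : NNReal, ⋂ y : NNReal,
            {f : C(NNReal, UnitAddCircle) | dist (f x) (f y) ≤ dist x y}) ∩
          {f : C(NNReal, UnitAddCircle) | f 0 = 0} := by
        ext f
        simp only [Set.mem_ofPred_eq, Set.mem_inter_iff, Set.mem_iInter]
        constructor
        · rintro ⟨h1, h2⟩
          refine ⟨fun x y => ?_, h2⟩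
          have := h1.dist_le_mul x y
          simpa using this
        · rintro ⟨h1, h2⟩
          exact ⟨LipschitzWith.of_dist_le_mul fun x y => by simpa using h1 x y, h2⟩
      rw [e]
      refine IsClosed.inter (isClosed_iInter fun x => isClosed_iInter fun y => ?_) ?_
      · exact isClosed_le ((continuous_eval_const x).dist
          (continuous_eval_const y)) continuous_const
      · exact isClosed_eq (continuous_eval_const 0) continuous_const
    rw [hμ, ae_map_iff hmeas.aemeasurable hcl.measurableSet]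
    exact Filter.Eventually.of_forall fun s => s.2
  have h1 := cohato_value.trans (hall μ hprob hae)
  have h2 : ∫⁻ (f : C(NNReal, UnitAddCircle)), (∫⁻ (g : C(NNReal, UnitAddCircle)),
            (∫⁻ a : UnitAddCircle,
              ⨅ (τ : NNReal) (_ : a + f τ = g τ), ((τ : ENNReal))) ∂μ) ∂μ
      ≤ ENNReal.ofReal (299 / 400) := by
    refine le_trans ?_ Pool.Agent.H576R2.Rdv.star_directed_upper
    unfold Pool.Agent.H576R2.Rdv.expected
    rw [hμ]
    refine (lintegral_map_le _ _).trans ?_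
    refine lintegral_mono fun s₁ => ?_
    refine (lintegral_map_le _ _).trans ?_
    refine lintegral_mono fun s₂ => ?_
    rw [payDirected_eq]
  exact absurd (h1.trans h2) (not_le.mpr star_lt')

end Pool.Agent.S19482
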