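import Pool.Statements.S19519
import Pool.Agent.W533.LP.Fin

set_option autoImplicit false
open scoped MeasureTheory
open Pool Pool.MP_9debf8_pr

namespace Pool.Agent.S19519

/-- With geometric LPP weights encoded as the number of leading ones in i.i.d. Bernoulli(p) bits, the variance of E[T_n ∣ all bits except the first at each site] is o(Var T_n), T_n being the passage time from (0,0) to (n,n). -/
theorem result :
  ∀ (p : ℝ), 0 < p → p < 1 →
  ∀ (Ω : Type) [MeasurableSpace Ω] (μ : MeasureTheory.Measure Ω)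
    [MeasureTheory.IsProbabilityMeasure μ]
    (X : ℤ × ℤ → ℕ → Ω → ℝ),
    (∀ v i, Measurable (X v i)) →
    ProbabilityTheory.iIndepFun (fun vi : (ℤ × ℤ) × ℕ => X vi.1 vi.2) μ →
    (∀ v i, μ {ω | X v i ω = 1} = ENNReal.ofReal p ∧
            μ {ω | X v i ω = 0} = ENNReal.ofReal (1 - p)) →
    ∀ T : ℕ → Ω → ℝ,
    (∀ n ω, T n ω =
      ⨆ s : {s : Fin (2 * n) → Bool // (Finset.univ.filter (fun j => s j = true)).card = n},
        ∑ k : Fin (2 * n + 1),
          ∑' i : ℕ, ∏ j ∈ Finset.range (i + 1),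
            X (((Finset.univ.filter
                  (fun j : Fin (2 * n) => (j : ℕ) < (k : ℕ) ∧ s.1 j = true)).card : ℤ),
               (k : ℤ) - ((Finset.univ.filter
                  (fun j : Fin (2 * n) => (j : ℕ) < (k : ℕ) ∧ s.1 j = true)).card : ℤ)) j ω) →
    Asymptotics.IsLittleO Filter.atTop
      (fun n => ProbabilityTheory.variance
        (μ[T n | ⨆ (v : ℤ × ℤ) (i : ℕ) (_ : 1 ≤ i),
            MeasurableSpace.comap (X v i) (inferInstance : MeasurableSpace ℝ)]) μ)
      (fun n => ProbabilityTheory.variance (T n) μ) := by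
  exact Pool.Agent.W533.LP.f2 Pool.Agent.W533.LP.gMainF Pool.Agent.W45.LPG0.gLaw

end Pool.Agent.S19519
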