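import Pool.Statements.S19521
import Pool.Agent.W847.Frog.Final

set_option autoImplicit false
open MeasureTheory ProbabilityTheory
open Pool Pool.MP_9e3593_pr

namespace Pool.Agent.S19521

/-- For some p in [0,1), the one-per-site frog model on the Galton–Watson tree with 2 children w.p. p and 5 children otherwise is recurrent: almost surely woken frogs visit the root infinitely often. -/
theorem result :
  ∃ p : ℝ, 0 ≤ p ∧ p < 1 ∧
    ∀ (Ω : Type) [MeasurableSpace Ω] (P : Measure Ω) [IsProbabilityMeasure P]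
      (V : List ℕ × ℕ → Ω → ℝ) (X : List ℕ → ℕ → Ω → List ℕ),
      iIndepFun V P →
      (∀ i, Measure.map (V i) P = (volume : Measure ℝ).restrict (Set.Icc (0:ℝ) 1)) →
      (∀ v ω, X v 0 ω = v) →
      (∀ v n ω, X v (n+1) ω =
        if X v n ω = [] then
          [⌊V (v, n+1) ω * (if V (X v n ω, 0) ω < p then (2:ℝ) else 5)⌋₊]
        else if ⌊V (v, n+1) ω * (if V (X v n ω, 0) ω < p then (3:ℝ) else 6)⌋₊ = 0 then
          (X v n ω).tail
        else
          (⌊V (v, n+1) ω * (if V (X v n ω, 0) ω < p then (3:ℝ) else 6)⌋₊ - 1) :: X v n ω) →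
      ∀ᵐ ω ∂P, Set.Infinite {q : List ℕ × ℕ |
        Relation.ReflTransGen (fun u w => ∃ m, X u m ω = w) [] q.1 ∧ X q.1 q.2 ω = []} := by
  exact Pool.Agent.W847.Frog.main

end Pool.Agent.S19521
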