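import Pool.Statements.S19563
import Pool.Agent.W30.FA2

set_option autoImplicit false
open MeasureTheory
open Pool Pool.MP_ac169e_pr

namespace Pool.Agent.S19563

/-- For FA-1f on ℤ with infection density q in (0,1), any local f and any initial law almost surely having an infected site, the expectation of f at time t (limit of finite boxes) tends to its equilibrium product-measure mean. -/
theorem result :
  ∀ (q : ℝ), 0 < q → q < 1 →
  ∀ (f : (ℤ → Bool) → ℝ) (S : Finset ℤ),
    (∀ η η' : ℤ → Bool, (∀ x ∈ S, η x = η' x) → f η = f η') →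
  ∀ (ν : Measure (ℤ → Bool)), IsProbabilityMeasure ν →
    ν {η | ∃ x, η x = true} = 1 →
  ∀ ε : ℝ, 0 < ε → ∃ T : ℝ, ∀ t : ℝ, T ≤ t → ∃ L₀ : ℕ, ∀ L : ℕ, L₀ ≤ L →
    |(∫ η, ∑ τ : ({x : ℤ // x ∈ Finset.Icc (-(L:ℤ) - 1) ((L:ℤ) + 1)} → Bool),
        (∑' n : ℕ, t ^ n / (Nat.factorial n : ℝ) *
          ((Matrix.of
            (fun σ' τ' : ({x : ℤ // x ∈ Finset.Icc (-(L:ℤ) - 1) ((L:ℤ) + 1)} → Bool) =>
              ∑ x : {x : ℤ // x ∈ Finset.Icc (-(L:ℤ) - 1) ((L:ℤ) + 1)},
                if |x.1| ≤ (L:ℤ) ∧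
                    ((if h : x.1 - 1 ∈ Finset.Icc (-(L:ℤ) - 1) ((L:ℤ) + 1)
                        then σ' ⟨x.1 - 1, h⟩ else false) = true ∨
                     (if h : x.1 + 1 ∈ Finset.Icc (-(L:ℤ) - 1) ((L:ℤ) + 1)
                        then σ' ⟨x.1 + 1, h⟩ else false) = true)
                then q * (if τ' = Function.update σ' x true then (1:ℝ) else 0)
                  + (1 - q) * (if τ' = Function.update σ' x false then (1:ℝ) else 0)
                  - (if τ' = σ' then (1:ℝ) else 0)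
                else 0)) ^ n)
            (fun x : {x : ℤ // x ∈ Finset.Icc (-(L:ℤ) - 1) ((L:ℤ) + 1)} => η x.1) τ)
        * f (fun y => if h : y ∈ Finset.Icc (-(L:ℤ) - 1) ((L:ℤ) + 1)
                then τ ⟨y, h⟩ else η y) ∂ν)
      - (∑ σ : ({x : ℤ // x ∈ S} → Bool),
          (∏ x : {x : ℤ // x ∈ S}, (if σ x = true then q else 1 - q))
          * f (fun y => if h : y ∈ S then σ ⟨y, h⟩ else false))| < ε := by
  intro q h0 h1 f S hf ν hprob hν ε hε
  exact Pool.Agent.W30.FA.main19563 q h0 h1 f S hf ν hν ε hε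

end Pool.Agent.S19563
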