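import Pool.Statements.S19569
import Pool.Agent.W856.SV.Final

set_option autoImplicit false
open MeasureTheory Matrix
open scoped ENNReal NNReal
open Pool Pool.MP_b26df8_pr

namespace Pool.Agent.S19569

/-- For every real law with bounded density, mean 0 and variance 1, some C>0 works such that for all n, all real n×n M and t>0, an i.i.d. matrix A with that law has P(s_min(A+M) ≤ t/√n) ≤ C t. -/
theorem result :
    ∀ (μ : Measure ℝ) [IsProbabilityMeasure μ],
      (∃ f : ℝ → ℝ≥0∞, Measurable f ∧ (∃ K : ℝ≥0, ∀ x, f x ≤ (K : ℝ≥0∞)) ∧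
          μ = volume.withDensity f) →
      Integrable (fun x : ℝ => x ^ 2) μ →
      ∫ x, x ∂μ = 0 →
      ∫ x, x ^ 2 ∂μ = 1 →
      ∃ C : ℝ, 0 < C ∧
        ∀ (n : ℕ) (M : Matrix (Fin n) (Fin n) ℝ) (t : ℝ), 0 < t →
          Measure.pi (fun _ : Fin n × Fin n => μ)
            {ω | ∃ x : Fin n → ℝ, ∑ i, x i ^ 2 = 1 ∧
              ∑ i, ((Matrix.of (fun i j => ω (i, j)) + M) *ᵥ x) i ^ 2 ≤ t ^ 2 / (n : ℝ)}
            ≤ ENNReal.ofReal (C * t) := by
  intro μ hμ hf hsq hm hv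
  obtain ⟨f, -, ⟨K, hK⟩, hd⟩ := hf
  exact Pool.Agent.W856.SV.final μ (K + 1)
    (Pool.Agent.W856.SV.nice_of hμ hK hd hsq hm hv)

end Pool.Agent.S19569
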