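-- proof of S19600 from the starting modules Pool.Agent.Helper41.BS2.PosInf and Exist
import Pool.Statements.S19600
import Pool.Agent.Helper41.BS2.PosInf
import Pool.Agent.Helper41.Exist
set_option autoImplicit false
open MeasureTheory ProbabilityTheory
open Pool Pool.MP_ba6658_pr

namespace Pool.Agent.S19600

open scoped NNReal ENNReal
open Pool.Agent.Helper41

/-- The negation of the preceding statement: For d = 2 or 3, any continuous d-dimensional two-parameter Brownian sheet almost surely has, for every s>0 simultaneously, only finitely many t>0 with B(s,t)=0. -/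
theorem result :
    ¬ (∀ d : ℕ, (d = 2 ∨ d = 3) →
    ∀ (Ω : Type) [MeasurableSpace Ω] (P : Measure Ω) [IsProbabilityMeasure P]
      (B : Fin d → ℝ → ℝ → Ω → ℝ),
      (∀ (i : Fin d) (ω : Ω),
        ContinuousOn (fun p : ℝ × ℝ => B i p.1 p.2 ω) {p : ℝ × ℝ | 0 ≤ p.1 ∧ 0 ≤ p.2}) →
      (∀ (n : ℕ) (idx : Fin n → Fin d) (s t c : Fin n → ℝ),
        (∀ k, 0 ≤ s k) → (∀ k, 0 ≤ t k) →
        P.map (fun ω => ∑ k, c k * B (idx k) (s k) (t k) ω) =
          gaussianReal 0
            (∑ k, ∑ l, (if idx k = idx l then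
              c k * c l * (min (s k) (s l) * min (t k) (t l)) else 0)).toNNReal) →
      ∀ᵐ ω ∂P, ∀ s : ℝ, 0 < s →
        Set.Finite {t : ℝ | 0 < t ∧ ∀ i : Fin d, B i s t ω = 0}) := by
  intro hall
  obtain ⟨Ω, mΩ, P, hP, X, hX, hcont⟩ := exists_sheet 2
  have hfin := hall 2 (Or.inl rfl) Ω P (fun i s t ω => X (i, s.toNNReal, t.toNNReal) ω) ?_ ?_
  · obtain ⟨A, hA, hPA, hAω⟩ := hX.exists_event (Filter.Eventually.of_forall fun ω c => hcont ω c)
    have hpos : P A ≠ 0 := by
      intro h0
      rw [h0] at hPA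
      have : (0 : ℝ≥0∞) < ENNReal.ofReal (1 / 212) := by
        rw [ENNReal.ofReal_pos]; norm_num
      exact absurd hPA (not_le.2 this)
    obtain ⟨ω, hωA, hω⟩ : ∃ ω ∈ A, ∀ s : ℝ, 0 < s →
        Set.Finite {t : ℝ | 0 < t ∧ ∀ i : Fin 2, X (i, s.toNNReal, t.toNNReal) ω = 0} := by
      by_contra hcon
      push Not at hcon
      apply hpos
      refine measure_mono_null ?_ hfin
      intro ω hω
      obtain ⟨s, hs, hinf⟩ := hcon ω hω
      simp only [Set.mem_compl_iff, Set.mem_setOf_eq]
      intro h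
      exact hinf (h s hs)
    obtain ⟨s, hs1, hs2, hs⟩ := hAω ω hωA
    have hs0 : (0 : ℝ) < s := by
      have : (1 : ℝ) ≤ s := by exact_mod_cast hs1
      linarith
    obtain ⟨M, hM⟩ := (hω s hs0).bddAbove
    obtain ⟨t, ht, hz⟩ := hs M.toNNReal
    have ht0 : (0 : ℝ) < t := by
      have : (0 : ℝ≥0) < t := lt_of_le_of_lt zero_le ht
      exact_mod_cast this
    have h3 := hM (show (t : ℝ) ∈ {t : ℝ | 0 < t ∧ ∀ i : Fin 2,
        X (i, (s : ℝ).toNNReal, t.toNNReal) ω = 0} by
      refine ⟨ht0, fun i => ?_⟩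
      rw [Real.toNNReal_coe, Real.toNNReal_coe]
      exact hz i)
    have h4 : M < t := by
      have h5 : (M.toNNReal : ℝ) < t := by exact_mod_cast ht
      exact (Real.le_coe_toNNReal M).trans_lt h5
    linarith
  · intro i ω
    refine Continuous.continuousOn ?_
    have h1 : Continuous (fun p : ℝ × ℝ => (p.1.toNNReal, p.2.toNNReal)) :=
      (continuous_real_toNNReal.comp continuous_fst).prodMk
        (continuous_real_toNNReal.comp continuous_snd)
    exact (hcont ω i).comp h1
  · intro n idx s t c hs ht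
    have h1 := hX.char.map_eq hX.meas (fun k => (idx k, (s k).toNNReal, (t k).toNNReal)) c
    refine h1.trans ?_
    congr 2
    refine Finset.sum_congr rfl fun k _ => Finset.sum_congr rfl fun l _ => ?_
    unfold sheetK
    by_cases hkl : idx k = idx l
    · simp only [if_pos hkl]
      rw [NNReal.coe_min, NNReal.coe_min, Real.coe_toNNReal _ (hs k), Real.coe_toNNReal _ (hs l),
        Real.coe_toNNReal _ (ht k), Real.coe_toNNReal _ (ht l)]
    · simp only [if_neg hkl, mul_zero]

end Pool.Agent.S19600
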