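import Pool.Statements.S19618
import Pool.Agent.W817.E1.Asm
import Pool.Agent.W521.E1.Main

set_option autoImplicit false
open MeasureTheory ProbabilityTheory
open Pool Pool.MP_c12967_pr

namespace Pool.Agent.S19618

/-- The negation of the preceding statement: Any two shift-invariant laws of random 4-colorings of the integers (adjacent sites a.s. different colors) under which site sets at distance more than 1 are independent must be the same law. -/
theorem result :
    ¬ (∀ μ ν : Measure (ℤ → Fin 4),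
      IsProbabilityMeasure μ → IsProbabilityMeasure ν →
      Measure.map (fun x : ℤ → Fin 4 => fun n : ℤ => x (n + 1)) μ = μ →
      Measure.map (fun x : ℤ → Fin 4 => fun n : ℤ => x (n + 1)) ν = ν →
      (∀ᵐ x ∂μ, ∀ n : ℤ, x n ≠ x (n + 1)) →
      (∀ᵐ x ∂ν, ∀ n : ℤ, x n ≠ x (n + 1)) →
      (∀ A B : Set ℤ, (∀ a ∈ A, ∀ b ∈ B, 1 < |a - b|) →
        Indep (⨆ a ∈ A, MeasurableSpace.comap (fun x : ℤ → Fin 4 => x a) (⊤ : MeasurableSpace (Fin 4)))
          (⨆ b ∈ B, MeasurableSpace.comap (fun x : ℤ → Fin 4 => x b) (⊤ : MeasurableSpace (Fin 4))) μ) →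
      (∀ A B : Set ℤ, (∀ a ∈ A, ∀ b ∈ B, 1 < |a - b|) →
        Indep (⨆ a ∈ A, MeasurableSpace.comap (fun x : ℤ → Fin 4 => x a) (⊤ : MeasurableSpace (Fin 4)))
          (⨆ b ∈ B, MeasurableSpace.comap (fun x : ℤ → Fin 4 => x b) (⊤ : MeasurableSpace (Fin 4))) ν) →
      μ = ν) := by
  exact Pool.Agent.W817.E1.not_unique4 Pool.Agent.W521.E1.positive

end Pool.Agent.S19618
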