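import Pool.Statements.S19632
import Pool.Agent.Results.MP_c7dc48_pr.AlphaMixingNoTransfer

set_option autoImplicit false
open MeasureTheory Filter Topology
open Pool Pool.MP_c7dc48_pr

namespace Pool.Agent.S19632

open Pool.Agent.Results.MP_c7dc48_pr.AlphaMixingNoTransfer in
/-- almost every finite i.i.d. sample has pairwise distinct and pairwise unlinked entries -/
lemma ae_iid_fin (w : ℕ → ℕ) (m : ℕ) :
    ∀ᵐ x ∂(Measure.pi (fun _ : Fin m => marginal (Law w))),
      ∀ i j : Fin m, i ≠ j → x i ≠ x j ∧ ¬ Linked (x i) (x j) := by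
  rw [← Measure.infinitePi_eq_pi]
  rw [ae_all_iff]
  intro i
  rw [ae_all_iff]
  intro j
  by_cases hij : i = j
  · exact Eventually.of_forall fun x h => absurd hij h
  have h1 : ∀ᵐ p ∂((marginal (Law w)).prod (marginal (Law w))), p.1 ≠ p.2 ∧ ¬ Linked p.1 p.2 := by
    have h2 : ∀ᵐ p ∂((marginal (Law w)).prod (marginal (Law w))), ∀ l, ¬ Link l p.1 p.2 := by
      rw [ae_all_iff]; exact ae_not_link w
    filter_upwards [ae_ne w, h2] with p hp1 hp2
    exact ⟨hp1, fun ⟨l, hl⟩ => hp2 l hl⟩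
  rw [← Measure.infinitePi_map_eval_prod (P := fun _ : Fin m => marginal (Law w)) hij] at h1
  have h3 := ae_of_ae_map (by
    exact Measurable.aemeasurable (by fun_prop)) h1
  filter_upwards [h3] with x hx _
  exact hx

open Pool.Agent.Results.MP_c7dc48_pr.AlphaMixingNoTransfer in
lemma ucem_fin (w : ℕ → ℕ) (ε : ℝ) (hε : 0 < ε) :
    Tendsto (fun m : ℕ => Measure.pi (fun _ : Fin m => marginal (Law w))
        {x : Fin m → St | ∃ f ∈ cls,
          ε < |(1 / (m : ℝ)) * ∑ i : Fin m, f (x i) - ∫ y, f y ∂(marginal (Law w))|})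
      atTop (𝓝 0) := by
  classical
  obtain ⟨N, hN⟩ := exists_nat_gt (1 / ε)
  refine tendsto_const_nhds.congr' ?_
  filter_upwards [eventually_ge_atTop (max N 1)] with m hm
  symm
  have hae := ae_iid_fin w m
  rw [ae_iff] at hae
  refine measure_mono_null ?_ hae
  rintro x ⟨f, ⟨C, hCfin, hC, rfl⟩, hlt⟩ hgood
  have hint : ∫ y, C.indicator (fun _ => (1:ℝ)) y ∂(marginal (Law w)) = 0 := by
    rw [integral_indicator_const _ hCfin.measurableSet]
    simp [measureReal_def, marginal_finite w C hCfin]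
  have hm1 : 1 ≤ m := le_trans (le_max_right _ _) hm
  have hmpos : (0:ℝ) < m := by exact_mod_cast hm1
  have hsum : ∑ i : Fin m, C.indicator (fun _ => (1:ℝ)) (x i) ≤ 1 := by
    have : ∑ i : Fin m, C.indicator (fun _ => (1:ℝ)) (x i)
        = ((Finset.univ.filter (fun i => x i ∈ C)).card : ℝ) := by
      rw [Finset.card_filter]
      push_cast
      exact Finset.sum_congr rfl fun i _ => by simp [Set.indicator]
    rw [this]
    have hcard : (Finset.univ.filter (fun i => x i ∈ C)).card ≤ 1 := by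
      rw [Finset.card_le_one]
      intro i hi j hj
      by_contra hij
      simp only [Finset.mem_filter, Finset.mem_univ, true_and] at hi hj
      have h1 := hgood i j hij
      have h2 := hgood j i (fun h => hij h.symm)
      rcases hC _ hi _ hj h1.1 with h | h
      · exact h1.2 h
      · exact h2.2 h
    exact_mod_cast hcard
  have hsum0 : 0 ≤ ∑ i : Fin m, C.indicator (fun _ => (1:ℝ)) (x i) :=
    Finset.sum_nonneg fun i _ => Set.indicator_nonneg (fun _ _ => zero_le_one) _
  rw [hint, sub_zero] at hlt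
  rw [abs_of_nonneg (by positivity)] at hlt
  have h1 : (1 / (m:ℝ)) * ∑ i : Fin m, C.indicator (fun _ => (1:ℝ)) (x i) ≤ 1 / m := by
    calc _ ≤ (1 / (m:ℝ)) * 1 := by gcongr
      _ = 1 / m := mul_one _
  have h2 : ε < 1 / m := lt_of_lt_of_le hlt h1
  have h3 : (1:ℝ) / ε < m := lt_of_lt_of_le hN (by exact_mod_cast le_trans (le_max_left _ _) hm)
  rw [lt_div_iff₀ hmpos] at h2
  rw [div_lt_iff₀ hε] at h3
  linarith [mul_comm ε (m:ℝ)]

/-- The negation of the preceding statement: Take a stationary α-mixing process on X with marginal P0 and an infinite class of measurable functions into [0,B] whose empirical means converge uniformly in probability under i.i.d. P0 samples. Then empirical means along the process also converge uniformly in probability. -/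
theorem result :
    ¬ (∀ (X : Type) [mX : MeasurableSpace X] (P : Measure (ℕ → X)) [IsProbabilityMeasure P]
    (P0 : Measure X) [IsProbabilityMeasure P0] (𝓕 : Set (X → ℝ)) (B : ℝ),
    P.map (fun (ω : ℕ → X) (n : ℕ) => ω (n + 1)) = P →
    P0 = P.map (fun (ω : ℕ → X) => ω 0) →
    (∀ ε : ℝ, 0 < ε → ∃ K : ℕ, ∀ k : ℕ, K ≤ k → ∀ l : ℕ, ∀ A S : Set (ℕ → X),
       @MeasurableSet (ℕ → X)
         (⨆ (i : ℕ) (_ : i ≤ l), MeasurableSpace.comap (fun ω : ℕ → X => ω i) mX) A →
       @MeasurableSet (ℕ → X)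
         (⨆ (i : ℕ) (_ : l + k ≤ i), MeasurableSpace.comap (fun ω : ℕ → X => ω i) mX) S →
       |P.real (A ∩ S) - P.real A * P.real S| ≤ ε) →
    𝓕.Infinite →
    (∀ f ∈ 𝓕, Measurable f ∧ ∀ x, 0 ≤ f x ∧ f x ≤ B) →
    (∀ ε : ℝ, 0 < ε →
      Tendsto (fun m : ℕ => Measure.pi (fun _ : Fin m => P0)
        {x : Fin m → X | ∃ f ∈ 𝓕,
          ε < |(1 / (m : ℝ)) * ∑ i : Fin m, f (x i) - ∫ y, f y ∂P0|}) atTop (𝓝 0)) →
    (∀ ε : ℝ, 0 < ε →
      Tendsto (fun m : ℕ => P
        {ω : ℕ → X | ∃ f ∈ 𝓕,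
          ε < |(1 / (m : ℝ)) * ∑ i ∈ Finset.range m, f (ω i) - ∫ y, f y ∂P0|}) atTop (𝓝 0))) := by
  intro H
  open Pool.Agent.Results.MP_c7dc48_pr.AlphaMixingNoTransfer in
  set r' : ℕ → ℝ := fun k => 1 / (k + 1) with hr'
  have hr'pos : ∀ k, 0 < r' k := fun k => by rw [hr']; positivity
  have key := H Pool.Agent.Results.MP_c7dc48_pr.AlphaMixingNoTransfer.St
    (Pool.Agent.Results.MP_c7dc48_pr.AlphaMixingNoTransfer.Law
      (Pool.Agent.Results.MP_c7dc48_pr.AlphaMixingNoTransfer.wf r'))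
    (Pool.Agent.Results.MP_c7dc48_pr.AlphaMixingNoTransfer.marginal
      (Pool.Agent.Results.MP_c7dc48_pr.AlphaMixingNoTransfer.Law
        (Pool.Agent.Results.MP_c7dc48_pr.AlphaMixingNoTransfer.wf r')))
    Pool.Agent.Results.MP_c7dc48_pr.AlphaMixingNoTransfer.cls 1
    (Pool.Agent.Results.MP_c7dc48_pr.AlphaMixingNoTransfer.stationary_Law _) rfl ?_
    Pool.Agent.Results.MP_c7dc48_pr.AlphaMixingNoTransfer.cls_infinite ?_
    (fun ε hε => ucem_fin _ ε hε)
  · have h1 := key (1/2) (by norm_num)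
    have h2 : Tendsto (fun m : ℕ =>
        Pool.Agent.Results.MP_c7dc48_pr.AlphaMixingNoTransfer.q
          Pool.Agent.Results.MP_c7dc48_pr.AlphaMixingNoTransfer.cls
          (Pool.Agent.Results.MP_c7dc48_pr.AlphaMixingNoTransfer.marginal
            (Pool.Agent.Results.MP_c7dc48_pr.AlphaMixingNoTransfer.Law
              (Pool.Agent.Results.MP_c7dc48_pr.AlphaMixingNoTransfer.wf r'))) m (1/2)
          (Pool.Agent.Results.MP_c7dc48_pr.AlphaMixingNoTransfer.Law
            (Pool.Agent.Results.MP_c7dc48_pr.AlphaMixingNoTransfer.wf r'))) atTop (𝓝 1) := by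
      refine tendsto_const_nhds.congr' ?_
      filter_upwards [eventually_ge_atTop 1] with m hm
      exact (Pool.Agent.Results.MP_c7dc48_pr.AlphaMixingNoTransfer.not_ucem_Law _
        (Pool.Agent.Results.MP_c7dc48_pr.AlphaMixingNoTransfer.wf_pos r') m hm).symm
    have h3 : Tendsto (fun m : ℕ =>
        Pool.Agent.Results.MP_c7dc48_pr.AlphaMixingNoTransfer.q
          Pool.Agent.Results.MP_c7dc48_pr.AlphaMixingNoTransfer.cls
          (Pool.Agent.Results.MP_c7dc48_pr.AlphaMixingNoTransfer.marginal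
            (Pool.Agent.Results.MP_c7dc48_pr.AlphaMixingNoTransfer.Law
              (Pool.Agent.Results.MP_c7dc48_pr.AlphaMixingNoTransfer.wf r'))) m (1/2)
          (Pool.Agent.Results.MP_c7dc48_pr.AlphaMixingNoTransfer.Law
            (Pool.Agent.Results.MP_c7dc48_pr.AlphaMixingNoTransfer.wf r'))) atTop (𝓝 0) := h1
    exact zero_ne_one (tendsto_nhds_unique h3 h2)
  · intro ε hε
    obtain ⟨K, hK⟩ := exists_nat_gt (1 / ε)
    refine ⟨max K 1, fun k hk l A S hA hS => ?_⟩
    have hk1 : 1 ≤ k := le_trans (le_max_right _ _) hk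
    have h1 := Pool.Agent.Results.MP_c7dc48_pr.AlphaMixingNoTransfer.alpha_wf r' hr'pos k hk1
    have h2 : ENNReal.ofReal |(Pool.Agent.Results.MP_c7dc48_pr.AlphaMixingNoTransfer.Law
        (Pool.Agent.Results.MP_c7dc48_pr.AlphaMixingNoTransfer.wf r')).real (A ∩ S)
        - (Pool.Agent.Results.MP_c7dc48_pr.AlphaMixingNoTransfer.Law
        (Pool.Agent.Results.MP_c7dc48_pr.AlphaMixingNoTransfer.wf r')).real A *
        (Pool.Agent.Results.MP_c7dc48_pr.AlphaMixingNoTransfer.Law
        (Pool.Agent.Results.MP_c7dc48_pr.AlphaMixingNoTransfer.wf r')).real S| ≤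
        Pool.Agent.Results.MP_c7dc48_pr.AlphaMixingNoTransfer.alpha
          (Pool.Agent.Results.MP_c7dc48_pr.AlphaMixingNoTransfer.Law
          (Pool.Agent.Results.MP_c7dc48_pr.AlphaMixingNoTransfer.wf r')) k := by
      unfold Pool.Agent.Results.MP_c7dc48_pr.AlphaMixingNoTransfer.alpha
      refine le_iSup_of_le l (le_iSup_of_le A (le_iSup_of_le S ?_))
      refine le_iSup_of_le hA (le_iSup_of_le hS le_rfl)
    have h3 := (ENNReal.ofReal_le_ofReal_iff (hr'pos k).le).1 (h2.trans h1)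
    refine h3.trans ?_
    rw [hr']
    have hkpos : (0:ℝ) < k := by exact_mod_cast hk1
    have hKk : (1:ℝ) / ε < k := lt_of_lt_of_le hK (by exact_mod_cast le_trans (le_max_left _ _) hk)
    rw [div_lt_iff₀ hε] at hKk
    show (1:ℝ) / (k + 1) ≤ ε
    rw [div_le_iff₀ (by positivity)]
    nlinarith
  · rintro f ⟨C, hC, -, rfl⟩
    refine ⟨measurable_const.indicator hC.measurableSet, fun x => ?_⟩
    simp only [Set.indicator]
    split_ifs <;> simp

end Pool.Agent.S19632
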