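-- proof of S19728 from the starting modules Pool.Agent.Helper41.BS2.DoubleFour and Exist
import Pool.Statements.S19728
import Pool.Agent.Helper41.BS2.DoubleFour
import Pool.Agent.Helper41.Exist
set_option autoImplicit false
open NNReal ProbabilityTheory MeasureTheory
open Pool Pool.MP_ef552a_pr

namespace Pool.Agent.S19728

open scoped ENNReal
open Pool.Agent.Helper41

/-- The negation of the preceding statement: For d=4 or 5, any continuous centred Gaussian d-dim process on the quadrant with iid coordinates and covariance min(s,s')min(t,t') has a null set off which, for every s>0, the pairs t1≠t2 with B(s,t1)=B(s,t2) form a finite set. -/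
theorem result :
    ¬ (∀ d : ℕ, (d = 4 ∨ d = 5) →
    ∀ (Ω : Type) [MeasurableSpace Ω] (P : Measure Ω) [IsProbabilityMeasure P]
      (B : Ω → ℝ≥0 × ℝ≥0 → Fin d → ℝ),
      (∀ ω, Continuous (B ω)) →
      (∀ (n : ℕ) (c : Fin n → ℝ) (k : Fin n → Fin d) (p : Fin n → ℝ≥0 × ℝ≥0),
        P.map (fun ω => ∑ i, c i * B ω (p i) (k i)) =
          gaussianReal 0
            (∑ i, ∑ j, c i * c j *
              (if k i = k j then
                ((min (p i).1 (p j).1 * min (p i).2 (p j).2 : ℝ≥0) : ℝ)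
               else 0)).toNNReal) →
      ∃ N : Set Ω, P N = 0 ∧ ∀ ω ∉ N, ∀ s : ℝ≥0, 0 < s →
        {q : ℝ≥0 × ℝ≥0 | q.1 ≠ q.2 ∧ B ω (s, q.1) = B ω (s, q.2)}.Finite) := by
  intro hall
  obtain ⟨Ω, mΩ, P, hP, X, hX, hcont⟩ := exists_sheet 4
  have hfin := hall 4 (Or.inl rfl) Ω P (fun ω p k => X (k, p.1, p.2) ω) ?_ ?_
  · obtain ⟨N, hN, hfin⟩ := hfin
    obtain ⟨A, hA, hPA, hAω⟩ := hX.exists_event_double
      (Filter.Eventually.of_forall fun ω c => hcont ω c) 0 (l := 1) one_pos
    have hpos : P A ≠ 0 := by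
      intro h0
      rw [h0] at hPA
      have : (0 : ℝ≥0∞) < ENNReal.ofReal (1 / 36) := by
        rw [ENNReal.ofReal_pos]; norm_num
      exact absurd hPA (not_le.2 this)
    obtain ⟨ω, hωA, hω⟩ : ∃ ω ∈ A, ω ∉ N := by
      by_contra hcon
      push Not at hcon
      exact hpos (measure_mono_null hcon hN)
    obtain ⟨s, hs1, hs2, hs⟩ := hAω ω hωA
    have hs0 : (0 : ℝ≥0) < s := lt_of_lt_of_le one_pos hs1
    refine hs ((hfin ω hω s hs0).subset ?_)
    rintro ⟨t, t'⟩ ⟨h1, h2, h3, h4⟩
    refine ⟨h2.ne, ?_⟩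
    funext k
    exact h4 k
  · intro ω
    exact continuous_pi fun k => hcont ω k
  · intro n c k p
    have h1 := hX.char.map_eq hX.meas (fun i => (k i, (p i).1, (p i).2)) c
    refine h1.trans ?_
    congr 2

end Pool.Agent.S19728
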