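import Pool.Statements.S19735
-- import your own Pool.Agent.* helpers here
import Pool.Agent.W840.FeigeMain

set_option autoImplicit false
open Pool Pool.MP_f10e5d_pr

namespace Pool.Agent.S19735

/-- For all n and all p_i in (0,1), independent X_i equal to 0 with probability p_i and to 1/(1-p_i) otherwise satisfy P(X_1+...+X_n < n+1) ≥ 1/e, with the probability written as a finite sum over the set of nonzero X_i. -/
theorem result :
    ∀ n : ℕ, ∀ p : Fin n → ℝ, (∀ i, 0 < p i ∧ p i < 1) →
      Real.exp (-1) ≤
        ∑ S ∈ (Finset.univ : Finset (Finset (Fin n))).filter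
            (fun S => ∑ i ∈ S, 1 / (1 - p i) < (n : ℝ) + 1),
          (∏ i ∈ S, (1 - p i)) * ∏ i ∈ Sᶜ, p i := by
  intro n p hp
  rcases Nat.eq_zero_or_pos n with hn | hn
  · subst hn
    have h1 : (Finset.univ : Finset (Finset (Fin 0))).filter
        (fun S => ∑ i ∈ S, 1 / (1 - p i) < ((0 : ℕ) : ℝ) + 1) = {∅} := by
      apply Finset.ext
      intro S
      have hS : S = ∅ := Finset.eq_empty_of_isEmpty S
      subst hS
      rw [Finset.mem_filter, Finset.mem_singleton, Finset.sum_empty]
      simp only [Finset.mem_univ, Nat.cast_zero, zero_add, zero_lt_one, and_self]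
    rw [h1, Finset.sum_singleton, Finset.prod_empty, one_mul]
    have h2 : (∅ : Finset (Fin 0))ᶜ = ∅ := Finset.eq_empty_of_isEmpty _
    rw [h2, Finset.prod_empty]
    exact Real.exp_le_one_iff.mpr (by norm_num)
  · have hn' : (0 : ℝ) < n := by exact_mod_cast hn
    have hne : ∀ i, (1 - p i) ≠ 0 := fun i => by have := (hp i).2; linarith
    have hmean : ∀ i, (1 - p i) * (1 / (1 - p i)) = 1 := fun i => by
      have := hne i
      field_simp
    have key := Pool.Agent.W840.FeigeCore.feige (ι := Fin n) (q := fun i => 1 - p i)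
      (a := fun i => 1 / (1 - p i)) (fun i => ⟨by linarith [(hp i).2], by linarith [(hp i).1]⟩)
      (fun i => by
        have : 0 < 1 - p i := by linarith [(hp i).2]
        positivity)
      (fun i => le_of_eq (hmean i)) (T := (n : ℝ) + 1) (by linarith) Finset.univ
      (by
        rw [Finset.sum_congr rfl (fun i _ => hmean i)]
        simp)
    refine key.trans (le_of_eq ?_)
    unfold Pool.Agent.W840.FeigeCore.U Pool.Agent.W840.FeigeCore.E
      Pool.Agent.W840.FeigeCore.ind
    rw [Finset.sum_filter, Finset.powerset_univ]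
    apply Finset.sum_congr rfl
    intro S _
    have h3 : Finset.univ \ S = Sᶜ := rfl
    rw [h3]
    have h4 : ∏ i ∈ Sᶜ, (1 - (1 - p i)) = ∏ i ∈ Sᶜ, p i :=
      Finset.prod_congr rfl fun i _ => by ring
    rw [h4]
    split_ifs <;> simp

end Pool.Agent.S19735
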