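import Pool.Statements.S19752
import Pool.Agent.Helper553.Orth.Final

set_option autoImplicit false
open MeasureTheory ProbabilityTheory Filter Topology
open Pool Pool.MP_f6b137_pr

namespace Pool.Agent.S19752

/-- The negation of the preceding statement: For every finite absolutely continuous measure on ℝ with support [α,β], its orthonormal polynomials, and i.i.d. standard Gaussian coefficients, Var(number of real zeros of Σ_{k≤n} aₖpₖ)/n converges to a real constant. -/
theorem result :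
    ¬ (∀ (ν : Measure ℝ) (α β : ℝ), α < β → IsFiniteMeasure ν → ν ≪ volume →
    ν ((Set.Icc α β)ᶜ) = 0 →
    (∀ x ∈ Set.Icc α β, ∀ ε : ℝ, 0 < ε → 0 < ν (Set.Ioo (x - ε) (x + ε))) →
    ∀ (p : ℕ → Polynomial ℝ),
      (∀ k, (p k).natDegree = k) → (∀ k, 0 < (p k).leadingCoeff) →
      (∀ j k, ∫ x, (p j).eval x * (p k).eval x ∂ν = if j = k then (1 : ℝ) else 0) →
    ∀ (Ω : Type) [MeasurableSpace Ω] (P : Measure Ω), IsProbabilityMeasure P →
      ∀ a : ℕ → Ω → ℝ, (∀ k, P.map (a k) = gaussianReal 0 1) → iIndepFun a P →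
      ∃ c : ℝ, Tendsto
        (fun n : ℕ =>
          variance
            (fun ω => (((∑ k ∈ Finset.range (n + 1), Polynomial.C (a k ω) * p k).roots.toFinset.card : ℕ) : ℝ))
            P / (n : ℝ))
        atTop (𝓝 c)) := by
  intro H
  obtain ⟨f, hf, hf0, hgood, hJ⟩ := Helper553.Orth.exists_generic
  have hU := Helper553.Orth.dens_UMeas hf
  have hJ01 : 0 < Helper553.Orth.mJ 0 1 f := by
    have h := hJ 0 1 le_rfl one_pos le_rfl
    push_cast at h
    exact h
  have hsupp : (Helper553.Orth.dens f).support = Set.Icc 0 1 :=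
    Helper553.Orth.dens_support hf hf0 hJ
  obtain ⟨p, hp1, hp2⟩ :=
      Helper553.Orth.exists_orthonormal hU (Helper553.Orth.dens_posF hf hf0 hJ01)
  have hfin : IsFiniteMeasure (Helper553.Orth.dens f) := hU.fin
  have hc : (Helper553.Orth.dens f) ((Set.Icc (0 : ℝ) 1)ᶜ) = 0 := by
    rw [← hsupp]
    exact Measure.measure_compl_support
  have hpos : ∀ x ∈ Set.Icc (0 : ℝ) 1, ∀ ε : ℝ, 0 < ε →
      0 < (Helper553.Orth.dens f) (Set.Ioo (x - ε) (x + ε)) := by
    intro x hx ε hε
    rw [← hsupp] at hx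
    exact (Measure.mem_support_iff_forall x).1 hx _ (Ioo_mem_nhds (by linarith) (by linarith))
  let P : Measure (ℕ → ℝ) := Measure.infinitePi (fun _ : ℕ => gaussianReal 0 1)
  have hmeas : ∀ k : ℕ, Measurable (fun ω : ℕ → ℝ => ω k) := fun k => measurable_pi_apply k
  have hlaw : ∀ k : ℕ, P.map (fun ω : ℕ → ℝ => ω k) = gaussianReal 0 1 := by
    intro k
    exact (measurePreserving_eval_infinitePi (fun _ : ℕ => gaussianReal 0 1) k).map_eq
  have hind : iIndepFun (fun (k : ℕ) (ω : ℕ → ℝ) => ω k) P :=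
    iIndepFun_infinitePi (X := fun (_ : ℕ) (x : ℝ) => x) (fun _ => measurable_id)
  obtain ⟨c, hcc⟩ := H (Helper553.Orth.dens f) 0 1 one_pos hfin (Helper553.Orth.dens_ac f) hc hpos p
    (fun k => (hp1 k).1) (fun k => (hp1 k).2) hp2 (ℕ → ℝ) P inferInstance
    (fun k ω => ω k) hlaw hind
  have key := fun (K : ℝ) (n0 : ℕ) => Helper553.Orth.variance_unbounded hf hf0 hgood hp1 hp2 P
    (fun k ω => ω k) (fun k => ⟨(hmeas k).aemeasurable, hlaw k⟩) hind K n0
  have hev := hcc.eventually (gt_mem_nhds (show c < c + 1 by linarith))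
  obtain ⟨n0, hn0⟩ := eventually_atTop.mp hev
  obtain ⟨n, hn, hlt⟩ := key (c + 1) n0
  exact lt_asymm hlt (hn0 n hn)

end Pool.Agent.S19752
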